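import Mathlib

/-! Merged copies (to shorten the build) of Lib.H53Y.F03. -/

-- from Lib.H53Y.F03
section

set_option autoImplicit false

/-!
H53Y, chunk F03 (S, only Mathlib): the numerical inequality.
-/

namespace Pool.Agent.H53Y

/-- CHUNK F03.  Proof.  `b₀ M ≤ b₀ α r D + b₀ CA ≤ ε / 16 r D + b₀ CA`;
`∑ (μ + 1) dB_j ≤ ∑ ((μ + 1) β d_j + (μ + 1) CB) ≤ (ε / 16 + ε / 16) ∑ d_j ≤ ε / 8 D`; hence
the left-hand side is at most `3 ε / 16 r D + b₀ CA + r es (μ + 1)`, and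
`r κ' ≥ r (1 - ε / 16) D - r K₁`; use `hD1`. -/
theorem numerics {ε α β : ℝ} (hε : 0 < ε) {b₀ μ es CA CB r M K₁ D κ' : ℕ} {ιL : Type}
    [Fintype ιL] (d dB : ιL → ℕ) (hα : α * b₀ ≤ ε / 16)
    (hβ : β * (μ + 1) ≤ ε / 16) (hM : (M : ℝ) ≤ α * r * D + CA)
    (hdB : ∀ j, (dB j : ℝ) ≤ β * d j + CB)
    (hd : ∀ j, ((μ : ℝ) + 1) * CB ≤ ε / 16 * d j) (hD : ∑ j, d j ≤ D)
    (hκ : (1 - ε / 16) * D - K₁ ≤ κ')
    (hD1 : (b₀ : ℝ) * CA + r * (es * (μ + 1)) + r * K₁ ≤ ε / 16 * (r * D)) :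
    ((b₀ * M + r * (∑ j, (μ + 1) * dB j) + r * (es * (μ + 1)) : ℕ) : ℝ) ≤
      r * κ' - (1 - ε / 2) * (r * D) - ε / 16 * (r * D) := by
  have hr : (0:ℝ) ≤ r := Nat.cast_nonneg r
  have hDn : (0:ℝ) ≤ D := Nat.cast_nonneg D
  have hb : (0:ℝ) ≤ b₀ := Nat.cast_nonneg b₀
  have hμ : (0:ℝ) ≤ (μ:ℝ) + 1 := by positivity
  have h1 : (b₀:ℝ) * M ≤ ε / 16 * (r * D) + b₀ * CA := by
    have h2 : (b₀:ℝ) * M ≤ b₀ * (α * r * D + CA) := mul_le_mul_of_nonneg_left hM hb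
    have h3 : α * b₀ * (r * D) ≤ ε / 16 * (r * D) :=
      mul_le_mul_of_nonneg_right hα (mul_nonneg hr hDn)
    nlinarith
  have h4 : (∑ j, ((μ:ℝ) + 1) * dB j) ≤ ε / 8 * D := by
    have h5 : (∑ j, ((μ:ℝ) + 1) * dB j) ≤ ∑ j, ε / 8 * (d j : ℝ) := by
      refine Finset.sum_le_sum fun j _ => ?_
      have h6 : ((μ:ℝ) + 1) * dB j ≤ ((μ:ℝ) + 1) * (β * d j + CB) :=
        mul_le_mul_of_nonneg_left (hdB j) hμ
      have h7 : β * ((μ:ℝ) + 1) * d j ≤ ε / 16 * d j :=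
        mul_le_mul_of_nonneg_right hβ (Nat.cast_nonneg _)
      have h8 := hd j
      nlinarith
    have h9 : (∑ j, ε / 8 * (d j : ℝ)) ≤ ε / 8 * D := by
      rw [← Finset.mul_sum]
      refine mul_le_mul_of_nonneg_left ?_ (by positivity)
      exact_mod_cast hD
    exact h5.trans h9
  have h10 : (r:ℝ) * (∑ j, ((μ:ℝ) + 1) * dB j) ≤ r * (ε / 8 * D) := mul_le_mul_of_nonneg_left h4 hr
  have h11 : (r:ℝ) * ((1 - ε / 16) * D - K₁) ≤ r * κ' := mul_le_mul_of_nonneg_left hκ hr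
  have h12 : 0 ≤ ε * (r * D) := mul_nonneg hε.le (mul_nonneg hr hDn)
  push_cast
  nlinarith

end Pool.Agent.H53Y
end
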