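import Mathlib

/-! Merged copies (to shorten the build) of Lib.H67T.Defs, Lib.H67T.HatDefs, Lib.H67T.NH1, Lib.H67T.NH2, Lib.H67T.NF, Lib.H67T.NM3, Lib.H67T.NH3. -/

-- from Lib.H67T.Defs
section

set_option autoImplicit false

/-!
Level one truncated second main theorem: basic definitions.
-/

open Real

namespace Pool.Agent.H67T

/-- The value at `y` of the linear form with coefficients `c`. -/
noncomputable def lin {n : ℕ} (c y : Fin n → ℂ) : ℂ := ∑ j, c j * y j


/-- `y` is a reduced representation of a holomorphic map from `ℂ` to projective space. -/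
structure IsHol {n : ℕ} (y : ℂ → Fin n → ℂ) : Prop where
  diff : ∀ j, Differentiable ℂ fun z => y z j
  ne_zero : ∀ z, y z ≠ 0

/-- The (unnormalized) Cartan characteristic of `y` (supremum norm). -/
noncomputable def chi {n : ℕ} (y : ℂ → Fin n → ℂ) (r : ℝ) : ℝ :=
  circleAverage (fun z => log ‖y z‖) 0 r

/-- The counting function of the zeros of `g`, counted without multiplicity.
(The summand at `a = 0` is `log (r / 0) = 0`.) -/
noncomputable def N1 (g : ℂ → ℂ) (r : ℝ) : ℝ :=
  (∑ᶠ a ∈ {a : ℂ | ‖a‖ ≤ r ∧ g a = 0}, log (r / ‖a‖)) + if g 0 = 0 then log r else 0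

/-- The error term for the radii `r < R`. -/
noncomputable def err {n : ℕ} (y : ℂ → Fin n → ℂ) (r R : ℝ) : ℝ :=
  1 + log⁺ (chi y R) + log⁺ (1 / (R - r)) + log⁺ R


end Pool.Agent.H67T
end

-- from Lib.H67T.HatDefs
section

set_option autoImplicit false

/-!
Removing the zeros in a disc without changing the absolute value on the circle: definitions.
-/

open Real Metric MeasureTheory

namespace Pool.Agent.H67T

/-- The factor replacing `z - a`: without zeros in the open ball of radius `R`, and with the same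
absolute value as `z - a` on the circle of radius `R`. -/
noncomputable def hatFactor (R : ℝ) (a z : ℂ) : ℂ :=
  if ‖a‖ < R then ((R : ℂ) ^ 2 - (starRingEnd ℂ) a * z) / R else z - a

/-- The function `f` with its zeros in the ball removed. -/
noncomputable def hat (R : ℝ) (s : Finset ℂ) (m : ℂ → ℕ) (h : ℂ → ℂ) (z : ℂ) : ℂ :=
  (∏ a ∈ s, hatFactor R a z ^ m a) * h z

end Pool.Agent.H67T
end

-- from Lib.H67T.NH1
section

set_option autoImplicit false

/-!
CHUNK NH1 (four small lemmas).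
-/

open Real Metric MeasureTheory

namespace Pool.Agent.H67T

theorem NH1_denom_ge {R : ℝ} {a w : ℂ} (ha : ‖a‖ ≤ R) :
    R ^ 2 - R * ‖w‖ ≤ ‖(R : ℂ) ^ 2 - (starRingEnd ℂ) a * w‖ := by
  have hR : 0 ≤ R := (norm_nonneg a).trans ha
  have h1 := norm_sub_norm_le ((R : ℂ) ^ 2) ((starRingEnd ℂ) a * w)
  have h2 : ‖(R : ℂ) ^ 2‖ = R ^ 2 := by
    rw [norm_pow, Complex.norm_real, norm_of_nonneg hR]
  have h3 : ‖(starRingEnd ℂ) a * w‖ ≤ R * ‖w‖ := by
    rw [norm_mul, RCLike.norm_conj]
    exact mul_le_mul_of_nonneg_right ha (norm_nonneg _)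
  linarith

/-- CHUNK NH1 (a). -/
theorem hatFactor_ne_zero {R : ℝ} {a w : ℂ} (ha : ‖a‖ ≤ R) (hw : ‖w‖ < R) :
    hatFactor R a w ≠ 0 := by
  have hR : 0 < R := (norm_nonneg w).trans_lt hw
  unfold hatFactor
  split_ifs with h
  · apply div_ne_zero
    · rw [← norm_pos_iff]
      refine lt_of_lt_of_le ?_ (NH1_denom_ge ha)
      nlinarith
    · exact_mod_cast hR.ne'
  · intro h0
    rw [sub_eq_zero] at h0
    rw [h0] at hw
    exact h hw

/-- CHUNK NH1 (b).  `|R² - ā ζ| = |ζ̄ - ā| R` for `|ζ| = R`, since `R² = ζ ζ̄`. -/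
theorem norm_hatFactor_eq {R : ℝ} {a ζ : ℂ} (hR : 0 < R) (hζ : ‖ζ‖ = R) :
    ‖hatFactor R a ζ‖ = ‖ζ - a‖ := by
  unfold hatFactor
  split_ifs with h
  · have h1 : (R : ℂ) ^ 2 = (starRingEnd ℂ) ζ * ζ := by
      rw [mul_comm, Complex.mul_conj, Complex.normSq_eq_norm_sq, hζ]
      push_cast
      rfl
    have h2 : (R : ℂ) ^ 2 - (starRingEnd ℂ) a * ζ = (starRingEnd ℂ) (ζ - a) * ζ := by
      rw [h1, map_sub]; ring
    rw [h2, norm_div, norm_mul, RCLike.norm_conj, hζ, Complex.norm_real, norm_of_nonneg hR.le,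
      mul_div_assoc, div_self hR.ne', mul_one]
  · rfl

/-- CHUNK NH1 (c).  `|R² - ā w|² - R² |w - a|² = (R² - |a|²) (R² - |w|²) ≥ 0`. -/
theorem norm_sub_le_hatFactor {R : ℝ} {a w : ℂ} (ha : ‖a‖ ≤ R) (hw : ‖w‖ < R) :
    ‖w - a‖ ≤ ‖hatFactor R a w‖ := by
  have hR : 0 < R := (norm_nonneg w).trans_lt hw
  unfold hatFactor
  split_ifs with h
  · rw [norm_div, Complex.norm_real, norm_of_nonneg hR.le, le_div_iff₀ hR]
    refine (pow_le_pow_iff_left₀ (by positivity) (norm_nonneg _) two_ne_zero).mp ?_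
    rw [mul_pow, Complex.sq_norm, Complex.sq_norm]
    have h1 : a.re ^ 2 + a.im ^ 2 ≤ R ^ 2 := by
      have h2 : ‖a‖ ^ 2 ≤ R ^ 2 := pow_le_pow_left₀ (norm_nonneg _) ha 2
      rw [Complex.sq_norm, Complex.normSq_apply] at h2
      linarith
    have h3 : w.re ^ 2 + w.im ^ 2 ≤ R ^ 2 := by
      have h2 : ‖w‖ ^ 2 ≤ R ^ 2 := pow_le_pow_left₀ (norm_nonneg _) hw.le 2
      rw [Complex.sq_norm, Complex.normSq_apply] at h2
      linarith
    have h4 : Complex.normSq ((R : ℂ) ^ 2 - (starRingEnd ℂ) a * w) =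
        (R ^ 2 - (a.re * w.re + a.im * w.im)) ^ 2 + (a.re * w.im - a.im * w.re) ^ 2 := by
      have hRR : (R : ℂ) ^ 2 = ((R ^ 2 : ℝ) : ℂ) := by push_cast; rfl
      rw [hRR, Complex.normSq_apply]
      simp only [Complex.sub_re, Complex.sub_im, Complex.mul_re, Complex.mul_im, Complex.conj_re,
        Complex.conj_im, Complex.ofReal_re, Complex.ofReal_im]
      ring
    rw [h4, Complex.normSq_apply, Complex.sub_re, Complex.sub_im]
    have h5 : 0 ≤ (R ^ 2 - (a.re ^ 2 + a.im ^ 2)) * (R ^ 2 - (w.re ^ 2 + w.im ^ 2)) :=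
      mul_nonneg (by linarith) (by linarith)
    nlinarith [h5]
  · exact le_rfl

/-- CHUNK NH1 (d).  For `‖a‖ < R` the difference of the logarithmic derivatives is
`1 / (w - a) + ā / (R² - ā w)`, and `‖ā / (R² - ā w)‖ ≤ R / (R² - R ‖w‖) = 1 / (R - ‖w‖)`.  For
`‖a‖ = R` it is `0`. -/
theorem norm_logDeriv_hatFactor_sub_le {R : ℝ} {a w : ℂ} (ha : ‖a‖ ≤ R) (hw : ‖w‖ < R)
    (hwa : w ≠ a) :
    ‖1 / (w - a) - deriv (hatFactor R a) w / hatFactor R a w‖ ≤
      1 / ‖w - a‖ + 1 / (R - ‖w‖) := by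
  have hR : 0 < R := (norm_nonneg w).trans_lt hw
  have hRw : 0 < R - ‖w‖ := by linarith
  have hRC : (R : ℂ) ≠ 0 := by exact_mod_cast hR.ne'
  by_cases h : ‖a‖ < R
  · have h1 : hatFactor R a = fun z => ((R : ℂ) ^ 2 - (starRingEnd ℂ) a * z) / R := by
      funext z
      unfold hatFactor
      rw [if_pos h]
    have h2 : HasDerivAt (hatFactor R a) ((0 - (starRingEnd ℂ) a * 1) / R) w := by
      rw [h1]
      exact ((hasDerivAt_const w ((R : ℂ) ^ 2)).sub
        ((hasDerivAt_id w).const_mul ((starRingEnd ℂ) a))).div_const (R : ℂ)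
    have h3 : ‖deriv (hatFactor R a) w / hatFactor R a w‖ ≤ 1 / (R - ‖w‖) := by
      have h4 : deriv (hatFactor R a) w / hatFactor R a w =
          - (starRingEnd ℂ) a / ((R : ℂ) ^ 2 - (starRingEnd ℂ) a * w) := by
        rw [h2.deriv, h1]
        field_simp
        rw [zero_sub, neg_div]
      have h5 := NH1_denom_ge (w := w) ha
      have h6 : 0 < R ^ 2 - R * ‖w‖ := by nlinarith
      rw [h4, norm_div, norm_neg, RCLike.norm_conj, div_le_div_iff₀ (by linarith) hRw, one_mul]
      calc ‖a‖ * (R - ‖w‖) ≤ R * (R - ‖w‖) := mul_le_mul_of_nonneg_right ha hRw.le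
        _ = R ^ 2 - R * ‖w‖ := by ring
        _ ≤ _ := h5
    calc _ ≤ ‖1 / (w - a)‖ + ‖deriv (hatFactor R a) w / hatFactor R a w‖ := norm_sub_le _ _
      _ ≤ _ := by
        rw [norm_div, norm_one]
        linarith
  · have h1 : hatFactor R a = fun z => z - a := by
      funext z
      unfold hatFactor
      rw [if_neg h]
    have h2 : deriv (hatFactor R a) w = 1 := by
      rw [h1]
      simp
    rw [h2, h1, sub_self, norm_zero]
    positivity

end Pool.Agent.H67T
end

-- from Lib.H67T.NH2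
section

set_option autoImplicit false

/-!
CHUNK NH2.
-/

open Real Metric MeasureTheory

namespace Pool.Agent.H67T

theorem NH2_analytic {R : ℝ} {a : ℂ} (ha : ‖a‖ < R) (z : ℂ) : AnalyticAt ℂ (hatFactor R a) z := by
  have e : hatFactor R a = fun z : ℂ => ((R : ℂ) ^ 2 - (starRingEnd ℂ) a * z) / R := by
    funext z
    simp [hatFactor, ha]
  rw [e]
  fun_prop

theorem NH2_ne_zero {R : ℝ} {a z : ℂ} (ha : ‖a‖ < R) (hz : ‖z‖ ≤ R) : hatFactor R a z ≠ 0 := by
  have hR : 0 < R := lt_of_le_of_lt (norm_nonneg a) ha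
  simp only [hatFactor, ha, if_true]
  refine div_ne_zero ?_ (by exact_mod_cast hR.ne')
  intro h
  have h1 : (R : ℂ) ^ 2 = (starRingEnd ℂ) a * z := sub_eq_zero.mp h
  have h2 : ‖(R : ℂ) ^ 2‖ = ‖(starRingEnd ℂ) a * z‖ := by rw [h1]
  rw [norm_mul, norm_pow, Complex.norm_real, Complex.norm_conj, Real.norm_of_nonneg hR.le] at h2
  nlinarith [norm_nonneg a, norm_nonneg z]

/-- CHUNK NH2.  The Poisson formula for one factor.  Proof: for `‖a‖ < R` the function
`log ‖hatFactor R a ·‖` is harmonic in a neighbourhood of the closed ball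
(`AnalyticAt.harmonicAt_log_norm`), use `HarmonicOnNhd.circleAverage_re_herglotzRieszKernel_smul`.
For `‖a‖ = R` this is `circleAverage_re_herglotzRieszKernel_mul_log` (in
`Mathlib/Analysis/Complex/JensenFormula.lean`). -/
theorem poisson_hatFactor {R : ℝ} {a w : ℂ} (ha : ‖a‖ ≤ R) (hw : ‖w‖ < R) :
    circleAverage ((Complex.re ∘ herglotzRieszKernel 0 w) • fun ζ => log ‖hatFactor R a ζ‖) 0 R =
      log ‖hatFactor R a w‖ := by
  have hw' : w ∈ ball (0 : ℂ) R := by simpa using hw
  rcases lt_or_eq_of_le ha with h | h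
  · apply InnerProductSpace.HarmonicOnNhd.circleAverage_re_herglotzRieszKernel_smul
      (f := fun ζ => log ‖hatFactor R a ζ‖) _ hw'
    intro z hz
    have hz' : ‖z‖ ≤ R := by simpa using hz
    exact AnalyticAt.harmonicAt_log_norm (NH2_analytic h z) (NH2_ne_zero h hz')
  · have e : ∀ z, hatFactor R a z = z - a := by
      intro z
      simp [hatFactor, h]
    simp only [e]
    have h1 := circleAverage_re_herglotzRieszKernel_mul_log (w := w) (ρ := a) (c := 0) (R := R)
      (by simpa using h) hw'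
    exact h1

end Pool.Agent.H67T
end

-- from Lib.H67T.NF
section

set_option autoImplicit false

/-!
CHUNK NF.  Factorization of entire functions on discs.
-/

open Real Metric MeasureTheory

namespace Pool.Agent.H67T

/-- Removing one zero. -/
theorem NF_remove {h : ℂ → ℂ} (hh : Differentiable ℂ h) (h0 : ∃ z, h z ≠ 0) (b : ℂ) :
    ∃ (μ : ℕ) (h' : ℂ → ℂ), Differentiable ℂ h' ∧ h' b ≠ 0 ∧ ∀ z, h z = (z - b) ^ μ * h' z := by
  have han : AnalyticAt ℂ h b := hh.analyticAt b
  have hfin : analyticOrderAt h b ≠ ⊤ := by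
    intro htop
    rw [analyticOrderAt_eq_top] at htop
    have h1 : AnalyticOnNhd ℂ h Set.univ := fun z _ => hh.analyticAt z
    have h2 := h1.eqOn_zero_of_preconnected_of_eventuallyEq_zero isPreconnected_univ
      (Set.mem_univ b) htop
    obtain ⟨z, hz⟩ := h0
    exact hz (h2 (Set.mem_univ z))
  obtain ⟨n, hn⟩ := ENat.ne_top_iff_exists.1 hfin
  obtain ⟨g, hg, hgb, heq⟩ := (han.analyticOrderAt_eq_natCast).1 hn.symm
  refine ⟨n, Function.update (fun z => h z / (z - b) ^ n) b (g b), ?_, ?_, ?_⟩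
  · intro z
    by_cases hz : z = b
    · subst hz
      have hev : Function.update (fun w => h w / (w - z) ^ n) z (g z) =ᶠ[nhds z] g := by
        filter_upwards [heq] with w hw
        by_cases hwz : w = z
        · rw [hwz, Function.update_self]
        · rw [Function.update_of_ne hwz, hw, smul_eq_mul]
          have : (w - z) ^ n ≠ 0 := pow_ne_zero _ (sub_ne_zero.2 hwz)
          field_simp
      exact hev.differentiableAt_iff.2 hg.differentiableAt
    · have hev : Function.update (fun w => h w / (w - b) ^ n) b (g b) =ᶠ[nhds z]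
          fun w => h w / (w - b) ^ n := by
        filter_upwards [isOpen_ne.mem_nhds hz] with w hw
        rw [Function.update_of_ne hw]
      refine hev.differentiableAt_iff.2 ?_
      exact (hh z).div (by fun_prop) (pow_ne_zero _ (sub_ne_zero.2 hz))
  · rw [Function.update_self]
    exact hgb
  · intro z
    by_cases hz : z = b
    · subst hz
      rw [Function.update_self]
      have := heq.self_of_nhds
      rw [smul_eq_mul] at this
      exact this
    · rw [Function.update_of_ne hz]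
      have : (z - b) ^ n ≠ 0 := pow_ne_zero _ (sub_ne_zero.2 hz)
      field_simp

theorem NF_finset {f : ℂ → ℂ} (hf : Differentiable ℂ f) (h0 : ∃ z, f z ≠ 0) (s : Finset ℂ) :
    ∃ (m : ℂ → ℕ) (h : ℂ → ℂ), Differentiable ℂ h ∧
      (∀ z, f z = (∏ a ∈ s, (z - a) ^ m a) * h z) ∧ ∀ a ∈ s, h a ≠ 0 := by
  induction s using Finset.induction_on with
  | empty =>
    exact ⟨fun _ => 0, f, hf, fun z => by simp, fun a ha => absurd ha (Finset.notMem_empty a)⟩
  | insert b s hb ih =>
    obtain ⟨m, h, hh, hfac, hne⟩ := ih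
    obtain ⟨μ, h', hh', hb', hfac'⟩ := NF_remove hh (by
      obtain ⟨z, hz⟩ := h0
      exact ⟨z, fun hc => hz (by rw [hfac z, hc, mul_zero])⟩) b
    refine ⟨Function.update m b μ, h', hh', ?_, ?_⟩
    · intro z
      rw [hfac z, hfac' z, Finset.prod_insert hb, Function.update_self]
      have : ∏ a ∈ s, (z - a) ^ Function.update m b μ a = ∏ a ∈ s, (z - a) ^ m a := by
        refine Finset.prod_congr rfl fun a ha => ?_
        have hab : a ≠ b := fun hab => hb (by rw [← hab]; exact ha)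
        rw [Function.update_of_ne hab]
      rw [this]
      ring
    · intro a ha
      rw [Finset.mem_insert] at ha
      rcases ha with rfl | ha
      · exact hb'
      · intro hc
        exact hne a ha (by rw [hfac' a, hc, mul_zero])

/-- CHUNK NF.  Factorization on a disc.  Proof: the set `Z` of the zeros of `f` in
`closedBall 0 R` is finite (compact ball; zeros of an analytic function which is not identically
zero are isolated: `AnalyticOnNhd.eqOn_zero_or_eventually_ne_zero_of_preconnected`,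
or the divisor `MeromorphicOn.divisor f (closedBall 0 R)` has finite support).
Show by induction on the finset `s` (`Finset.induction_on`): there are `m` and an entire `h`
with `f z = (∏ a ∈ s, (z - a) ^ m a) * h z` and `h a ≠ 0` for all `a ∈ s`: for a new point `b`,
`h = (z - b) ^ μ * h'` with `h'` entire, `h' b ≠ 0` (`μ` the order of `h` at `b`; define `h'` by
`Function.update (fun z => h z / (z - b) ^ μ) b (value)`, or iterate `dslope`; the local
factorization is `AnalyticAt.analyticOrderAt_eq_natCast`).  Apply it with `s = Z` and drop the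
points with `m a = 0` (there are none, but `s.filter` avoids the proof). -/
theorem exists_factor {f : ℂ → ℂ} (hf : Differentiable ℂ f) (h0 : ∃ z, f z ≠ 0) (R : ℝ) :
    ∃ (s : Finset ℂ) (m : ℂ → ℕ) (h : ℂ → ℂ), Differentiable ℂ h ∧
      (∀ z, ‖z‖ ≤ R → h z ≠ 0) ∧ (∀ z, f z = (∏ a ∈ s, (z - a) ^ m a) * h z) ∧
      ∀ a ∈ s, ‖a‖ ≤ R ∧ 1 ≤ m a := by
  set Z : Set ℂ := {z | ‖z‖ ≤ R ∧ f z = 0} with hZ
  have hZfin : Z.Finite := by
    by_contra hinf
    obtain ⟨x, _, hx⟩ := Set.Infinite.exists_accPt_of_subset_isCompact hinf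
      (isCompact_closedBall (0 : ℂ) R) (by
        intro z hz
        rw [mem_closedBall_zero_iff]
        exact hz.1)
    rw [accPt_iff_frequently_nhdsNE] at hx
    have h1 : AnalyticOnNhd ℂ f Set.univ := fun z _ => hf.analyticAt z
    have h2 := h1.eqOn_zero_of_preconnected_of_frequently_eq_zero isPreconnected_univ
      (Set.mem_univ x) (hx.mono fun z hz => hz.2)
    obtain ⟨z, hz⟩ := h0
    exact hz (h2 (Set.mem_univ z))
  obtain ⟨m, h, hh, hfac, hne⟩ := NF_finset hf h0 hZfin.toFinset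
  refine ⟨hZfin.toFinset, m, h, hh, ?_, hfac, ?_⟩
  · intro z hz hc
    have h1 : f z = 0 := by rw [hfac z, hc, mul_zero]
    exact hne z (hZfin.mem_toFinset.2 ⟨hz, h1⟩) hc
  · intro a ha
    have ha' := hZfin.mem_toFinset.1 ha
    refine ⟨ha'.1, ?_⟩
    have h1 := hfac a
    rw [ha'.2] at h1
    have h2 : ∏ b ∈ hZfin.toFinset, (a - b) ^ m b = 0 := by
      rcases mul_eq_zero.1 h1.symm with h3 | h3
      · exact h3
      · exact absurd h3 (hne a ha)
    obtain ⟨b, _, hb⟩ := Finset.prod_eq_zero_iff.1 h2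
    have h4 : m b ≠ 0 := by
      intro h5
      rw [h5, pow_zero] at hb
      exact one_ne_zero hb
    have h5 : a - b = 0 := pow_eq_zero_iff h4 |>.1 hb
    rw [sub_eq_zero] at h5
    subst h5
    omega

end Pool.Agent.H67T
end

-- from Lib.H67T.NM3
section

set_option autoImplicit false

/-!
CHUNK NM3.
-/

open Real Metric MeasureTheory Filter

namespace Pool.Agent.H67T

/-- The zeros of a nonzero entire function are codiscrete on circles. -/
theorem NM3_ne {f : ℂ → ℂ} (hf : Differentiable ℂ f) (h0 : ∃ z, f z ≠ 0) (S : Set ℂ) :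
    ∀ᶠ z in codiscreteWithin S, f z ≠ 0 := by
  obtain ⟨x, hx⟩ := h0
  have h1 : f ⁻¹' {0}ᶜ ∈ codiscreteWithin (Set.univ : Set ℂ) :=
    AnalyticOnNhd.preimage_zero_mem_codiscreteWithin (fun z _ => hf.analyticAt z) hx
      (Set.mem_univ x) isConnected_univ
  have h2 := codiscreteWithin_mono (Set.subset_univ S) h1
  exact h2

/-- Comparison of circle averages off a discrete set. -/
theorem NM3_mono' {φ ψ : ℂ → ℝ} {r : ℝ} (hr : 0 < r) (hφ : CircleIntegrable φ 0 r)
    (hψ : CircleIntegrable ψ 0 r) (hle : ∀ᶠ z in codiscreteWithin (sphere 0 |r|), φ z ≤ ψ z) :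
    circleAverage φ 0 r ≤ circleAverage ψ 0 r := by
  have he : φ =ᶠ[codiscreteWithin (sphere 0 |r|)] fun z => min (φ z) (ψ z) := by
    filter_upwards [hle] with z hz
    exact (min_eq_left hz).symm
  rw [circleAverage_congr_codiscreteWithin he hr.ne']
  exact circleAverage_mono (hφ.congr_codiscreteWithin he) hψ
    (fun z _ => min_le_right _ _)

/-- Comparison of circle averages off the zeros of an entire function. -/
theorem NM3_mono {f : ℂ → ℂ} (hf : Differentiable ℂ f) (h0 : ∃ z, f z ≠ 0) {φ ψ : ℂ → ℝ} {r : ℝ}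
    (hr : 0 < r) (hφ : CircleIntegrable φ 0 r) (hψ : CircleIntegrable ψ 0 r)
    (hle : ∀ z, ‖z‖ = r → f z ≠ 0 → φ z ≤ ψ z) :
    circleAverage φ 0 r ≤ circleAverage ψ 0 r := by
  refine NM3_mono' hr hφ hψ ?_
  filter_upwards [NM3_ne hf h0 (sphere 0 |r|), self_mem_codiscreteWithin (sphere (0 : ℂ) |r|)]
    with z hz hz2
  have : ‖z‖ = r := by simpa [abs_of_pos hr] using hz2
  exact hle z this hz

/-- Circle integrability of `log ‖f‖`. -/
theorem NM3_int {f : ℂ → ℂ} (hf : Differentiable ℂ f) (c : ℂ) (r : ℝ) :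
    CircleIntegrable (fun z => log ‖f z‖) c r :=
  MeromorphicOn.circleIntegrable_log_norm fun z _ => (hf.analyticAt z).meromorphicAt

/-- Continuity of `log ‖y‖`. -/
theorem NM3_cont {n : ℕ} {y : ℂ → Fin n → ℂ} (hy : IsHol y) : Continuous fun z => log ‖y z‖ := by
  have h1 : Continuous y := continuous_pi fun j => (hy.diff j).continuous
  exact h1.norm.log fun z => norm_ne_zero_iff.2 (hy.ne_zero z)

/-- Circle integrability of `log ‖y‖`. -/
theorem NM3_inty {n : ℕ} {y : ℂ → Fin n → ℂ} (hy : IsHol y) (c : ℂ) (r : ℝ) :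
    CircleIntegrable (fun z => log ‖y z‖) c r :=
  (NM3_cont hy).continuousOn.circleIntegrable'

/-- CHUNK NM3.  Proof: `‖f ζ‖ ≤ A ‖y ζ‖` gives `log ‖f ζ‖ ≤ log A + log ‖y ζ‖` (for `f ζ ≠ 0`, i.e.
off finitely many points of the circle; here `A ≥ 1`), `circleAverage_mono`. -/
theorem avg_le_chi {n : ℕ} {y : ℂ → Fin n → ℂ} (hy : IsHol y) {f : ℂ → ℂ}
    (hf : Differentiable ℂ f) {A : ℝ} (hA : 1 ≤ A) (hfy : ∀ z, ‖f z‖ ≤ A * ‖y z‖) {r : ℝ}
    (hr : 0 < r) (h0 : ∃ z, f z ≠ 0) :
    circleAverage (fun z => log ‖f z‖) 0 r ≤ chi y r + log A := by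
  have h1 : chi y r + log A = circleAverage (fun z => log ‖y z‖ + log A) 0 r := by
    rw [circleAverage_fun_add (NM3_inty hy 0 r) (circleIntegrable_const _ _ _),
      circleAverage_const]
    rfl
  rw [h1]
  refine NM3_mono hf h0 hr (NM3_int hf 0 r)
    ((NM3_inty hy 0 r).add (circleIntegrable_const _ _ _)) ?_
  intro z _ hz
  have hy0 : 0 < ‖y z‖ := norm_pos_iff.2 (hy.ne_zero z)
  have hf0 : 0 < ‖f z‖ := norm_pos_iff.2 hz
  have hA0 : 0 < A := by linarith
  rw [← Real.log_mul hy0.ne' hA0.ne', mul_comm]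
  exact Real.log_le_log hf0 (hfy z)

end Pool.Agent.H67T
end

-- from Lib.H67T.NH3
section

set_option autoImplicit false

/-!
CHUNK NH3.
-/

open Real Metric MeasureTheory

namespace Pool.Agent.H67T

theorem NH3_mero (R : ℝ) (a : ℂ) (z : ℂ) : MeromorphicAt (hatFactor R a) z := by
  by_cases ha : ‖a‖ < R
  · exact (NH2_analytic ha z).meromorphicAt
  · have e : hatFactor R a = fun z : ℂ => z - a := by
      funext z
      simp [hatFactor, ha]
    rw [e]
    fun_prop

theorem NH3_kernel {R : ℝ} {w : ℂ} (hw : ‖w‖ < R) :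
    ContinuousOn (Complex.re ∘ herglotzRieszKernel 0 w) (sphere 0 |R|) :=
  Complex.continuous_re.comp_continuousOn
    (continuousOn_herglotzRieszKernel_sphere (by simpa using hw))

theorem NH3_int {R : ℝ} {w : ℂ} (hw : ‖w‖ < R) {g : ℂ → ℂ} (hg : ∀ z, MeromorphicAt g z) :
    CircleIntegrable ((Complex.re ∘ herglotzRieszKernel 0 w) • fun ζ => log ‖g ζ‖) 0 R := by
  apply CircleIntegrable.continuousOn_smul _ (NH3_kernel hw)
  exact MeromorphicOn.circleIntegrable_log_norm (fun z _ => hg z)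

theorem NH3_log {R : ℝ} {s : Finset ℂ} {m : ℂ → ℕ} {h : ℂ → ℂ} {z : ℂ} (hz : h z ≠ 0)
    (hs : ∀ a ∈ s, hatFactor R a z ≠ 0) :
    log ‖hat R s m h z‖ = (∑ a ∈ s, (m a : ℝ) * log ‖hatFactor R a z‖) + log ‖h z‖ := by
  unfold hat
  rw [norm_mul, Real.log_mul, norm_prod, Real.log_prod]
  · simp only [norm_pow, Real.log_pow]
  · intro a ha
    exact norm_ne_zero_iff.mpr (pow_ne_zero _ (hs a ha))
  · exact norm_ne_zero_iff.mpr (Finset.prod_ne_zero_iff.mpr fun a ha => pow_ne_zero _ (hs a ha))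
  · exact norm_ne_zero_iff.mpr hz

/-- CHUNK NH3.  The Poisson formula for `hat`.  Proof: outside of finitely many points
`log ‖hat R s m h ζ‖ = ∑ a ∈ s, m a * log ‖hatFactor R a ζ‖ + log ‖h ζ‖`
(`circleAverage_congr_codiscreteWithin`, or as the `hatFactor` vanish only at points `a` of the
circle); use `poisson_hatFactor`, and the Poisson formula for the harmonic function `log ‖h‖`.
Circle integrability: `MeromorphicOn.circleIntegrable_log_norm` and `CircleIntegrable.continuousOn_smul`. -/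
theorem poisson_hat {R : ℝ} (hR : 0 < R) {s : Finset ℂ} {m : ℂ → ℕ} {h : ℂ → ℂ}
    (hh : Differentiable ℂ h) (hh0 : ∀ z, ‖z‖ ≤ R → h z ≠ 0) (hs : ∀ a ∈ s, ‖a‖ ≤ R) {w : ℂ}
    (hw : ‖w‖ < R) :
    circleAverage ((Complex.re ∘ herglotzRieszKernel 0 w) • fun ζ => log ‖hat R s m h ζ‖) 0 R =
      log ‖hat R s m h w‖ := by
  have hw' : w ∈ ball (0 : ℂ) R := by simpa using hw
  set k : ℂ → ℝ := Complex.re ∘ herglotzRieszKernel 0 w with hk
  have hne : ∀ z : ℂ, ‖z‖ ≤ R → z ∉ s → ∀ a ∈ s, hatFactor R a z ≠ 0 := by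
    intro z hz hzs a ha
    rcases lt_or_eq_of_le (hs a ha) with h1 | h1
    · exact NH2_ne_zero h1 hz
    · have e : hatFactor R a z = z - a := by simp [hatFactor, h1]
      rw [e]
      intro h2
      exact hzs (sub_eq_zero.mp h2 ▸ ha)
  have hcongr : circleAverage (k • fun ζ => log ‖hat R s m h ζ‖) 0 R =
      circleAverage ((fun z => ∑ a ∈ s, ((m a : ℝ) • (k • fun ζ => log ‖hatFactor R a ζ‖)) z) +
        (k • fun ζ => log ‖h ζ‖)) 0 R := by
    apply circleAverage_congr_codiscreteWithin _ hR.ne'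
    have hfin : (sphere (0 : ℂ) |R| \ (s : Set ℂ)) ∈ Filter.codiscreteWithin (sphere (0 : ℂ) |R|) := by
      rw [mem_codiscreteWithin]
      intro x _
      have h1 : sphere (0 : ℂ) |R| \ (sphere (0 : ℂ) |R| \ (s : Set ℂ)) ⊆ (s : Set ℂ) := by
        intro y hy
        by_contra hc
        exact hy.2 ⟨hy.1, hc⟩
      have h2 : ((s : Set ℂ) \ {x})ᶜ ∈ nhds x := by
        apply IsOpen.mem_nhds
        · exact (s.finite_toSet.subset Set.sdiff_subset).isClosed.isOpen_compl
        · simp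
      rw [Filter.disjoint_principal_right]
      rw [mem_nhdsWithin_iff_exists_mem_nhds_inter]
      refine ⟨_, h2, ?_⟩
      rintro y ⟨hy1, hy2⟩ hy3
      exact hy1 ⟨h1 hy3, hy2⟩
    filter_upwards [hfin] with z hz
    have hz1 : ‖z‖ ≤ R := by
      have := hz.1
      rw [mem_sphere_zero_iff_norm, abs_of_pos hR] at this
      exact this.le
    simp only [Pi.smul_apply', Pi.smul_apply, Pi.add_apply, smul_eq_mul, Pi.mul_apply]
    rw [NH3_log (hh0 z hz1) (hne z hz1 hz.2), mul_add, Finset.mul_sum]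
    congr 1
    refine Finset.sum_congr rfl fun a _ => ?_
    ring
  have hwne : ∀ a ∈ s, hatFactor R a w ≠ 0 := fun a ha => hatFactor_ne_zero (hs a ha) hw
  rw [hcongr, circleAverage_add, circleAverage_fun_sum, NH3_log (hh0 w hw.le) hwne]
  · congr 1
    · refine Finset.sum_congr rfl fun a ha => ?_
      rw [circleAverage_smul, hk, poisson_hatFactor (hs a ha) hw, smul_eq_mul]
    · apply InnerProductSpace.HarmonicOnNhd.circleAverage_re_herglotzRieszKernel_smul
        (f := fun ζ => log ‖h ζ‖) _ hw'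
      intro z hz
      have hz' : ‖z‖ ≤ R := by simpa using hz
      exact AnalyticAt.harmonicAt_log_norm (hh.analyticAt z) (hh0 z hz')
  · intro a _
    exact (NH3_int hw (NH3_mero R a)).const_smul
  · apply CircleIntegrable.fun_sum
    intro a _
    exact (NH3_int hw (NH3_mero R a)).const_smul
  · exact NH3_int hw fun z => (hh.analyticAt z).meromorphicAt

end Pool.Agent.H67T
end
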