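import Mathlib

/-! Merged copies (to shorten the build) of Lib.H78B.B3. -/

-- from Lib.H78B.B3
section

set_option autoImplicit false

/-!
B3 (M/L, pure linear algebra, only Mathlib).  Choice of the parts `S` which are thrown away.

Proof.  Let `V = VL × (∀ x, U x)` and `Q = V ⧸ T`; `finrank Q ≤ c` (`Q` is spanned by the images of
`p`).  For `S : Finset (Fin nb)` let `WS S ≤ V` be the submodule of the `(0, u)` with `u x = 0` for
`part x ∉ S`, and `r S = finrank (map T.mkQ (WS S)) ≤ c`.  Choose `S` with `S.card ≤ r S` and `S.card`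
maximal (`S = ∅` is possible; `Finset.exists_max_image` on the finite set of these `S`).  Let `b ∉ S`.
Then `map T.mkQ (WS (insert b S)) = map T.mkQ (WS S)`: otherwise `r (insert b S) ≥ r S + 1`
(`Submodule.finrank_lt_finrank_of_lt`), contradiction with the maximality.  So `WS {b} ≤ T ⊔ WS S`
for all `b` (also for `b ∈ S`).
(1) Given `u`, `(0, u)` is the sum over `b` of its parts in `WS {b}`, so `(0, u) = t + w`, `t ∈ T`,
`w ∈ WS S`: `t.2 x = u x` if `part x ∉ S`.
(2) Let `TL ≤ VL` be the submodule of the `t.1`, `t ∈ T` with `t.2 x = 0` for all `x` with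
`part x ∉ S`.  The map `VL → V ⧸ (T ⊔ WS S)`, `v ↦ [(v, 0)]`, has the kernel `TL`
(if `(v, 0) = t + w` then `t = (v, -w.2)`), so `finrank (VL ⧸ TL) ≤ finrank (V ⧸ (T ⊔ WS S)) ≤ c`
(a quotient of `Q`), hence `VL ⧸ TL` is spanned by `c` elements; lift them to `q`.
-/

namespace Pool.Agent.H78B

/-- A linear map into a space of dimension at most `c`: its values are combinations of the values at `c` vectors. -/
theorem b3_lift {K V W : Type*} [Field K] [AddCommGroup V] [Module K V] [AddCommGroup W] [Module K W]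
    [FiniteDimensional K W] (f : V →ₗ[K] W) {c : ℕ} (hc : Module.finrank K W ≤ c) :
    ∃ q : Fin c → V, ∀ v : V, ∃ μ : Fin c → K, f v = ∑ i, μ i • f (q i) := by
  classical
  have hm : Module.finrank K (LinearMap.range f) ≤ c := (Submodule.finrank_le _).trans hc
  let b := Module.finBasis K (LinearMap.range f)
  have hb : ∀ i, ∃ v, f v = b i := fun i => (b i).2
  choose q0 hq0 using hb
  refine ⟨fun i => if h : i.1 < Module.finrank K (LinearMap.range f) then q0 ⟨i.1, h⟩ else 0, fun v => ?_⟩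
  have hv : f v ∈ Submodule.span K (Set.range fun i : Fin c =>
      f (if h : i.1 < Module.finrank K (LinearMap.range f) then q0 ⟨i.1, h⟩ else 0)) := by
    have h1 := b.sum_repr ⟨f v, LinearMap.mem_range_self f v⟩
    have h2 := congrArg (Submodule.subtype (LinearMap.range f)) h1
    rw [map_sum] at h2
    simp only [map_smul, Submodule.subtype_apply] at h2
    rw [← h2]
    refine Submodule.sum_mem _ fun i _ => Submodule.smul_mem _ _ ?_
    rw [← hq0 i]
    refine Submodule.subset_span ⟨⟨i.1, i.2.trans_le hm⟩, ?_⟩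
    beta_reduce
    rw [dif_pos i.2]
  rw [Submodule.mem_span_range_iff_exists_fun] at hv
  obtain ⟨μ, hμ⟩ := hv
  exact ⟨μ, hμ.symm⟩

theorem b3_fin {K V : Type*} [Field K] [AddCommGroup V] [Module K V] {c : ℕ} (T : Submodule K V)
    (p : Fin c → V) (hp : T ⊔ Submodule.span K (Set.range p) = ⊤) :
    FiniteDimensional K (V ⧸ T) ∧ Module.finrank K (V ⧸ T) ≤ c := by
  have h1 : Submodule.span K (Set.range (T.mkQ ∘ p)) = ⊤ := by
    rw [Set.range_comp, Submodule.span_image, ← T.range_mkQ, ← Submodule.map_top, ← hp, Submodule.map_sup]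
    have h2 : Submodule.map T.mkQ T = ⊥ := by
      rw [← le_bot_iff, Submodule.map_le_iff_le_comap, Submodule.comap_bot, Submodule.ker_mkQ]
    rw [h2, bot_sup_eq]
  have h3 : FiniteDimensional K (V ⧸ T) :=
    Module.finite_def.2 (Submodule.fg_def.2 ⟨Set.range (T.mkQ ∘ p), Set.finite_range _, h1⟩)
  refine ⟨h3, ?_⟩
  have h4 := finrank_range_le_card (R := K) (T.mkQ ∘ p)
  rw [Set.finrank, h1, finrank_top, Fintype.card_fin] at h4
  exact h4

section
variable {K : Type} [Field K] {VL : Type} [AddCommGroup VL] [Module K VL] {κ : Type}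
    {U : κ → Type} [∀ x, AddCommGroup (U x)] [∀ x, Module K (U x)] {nb : ℕ}

/-- the vectors supported on the parts in `S` -/
def b3W (part : κ → Fin nb) (S : Finset (Fin nb)) : Submodule K (VL × (∀ x, U x)) where
  carrier := {v | v.1 = 0 ∧ ∀ x, part x ∉ S → v.2 x = 0}
  zero_mem' := ⟨rfl, fun _ _ => rfl⟩
  add_mem' := by
    rintro a b ⟨ha, ha'⟩ ⟨hb, hb'⟩
    refine ⟨?_, fun x hx => ?_⟩
    · rw [Prod.fst_add, ha, hb, add_zero]
    · rw [Prod.snd_add, Pi.add_apply, ha' x hx, hb' x hx, add_zero]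
  smul_mem' := by
    rintro k a ⟨ha, ha'⟩
    refine ⟨?_, fun x hx => ?_⟩
    · rw [Prod.smul_fst, ha, smul_zero]
    · rw [Prod.smul_snd, Pi.smul_apply, ha' x hx, smul_zero]

theorem b3W_mono (part : κ → Fin nb) {S S' : Finset (Fin nb)} (h : S ⊆ S') :
    (b3W part S : Submodule K (VL × (∀ x, U x))) ≤ b3W part S' := by
  rintro v ⟨h1, h2⟩
  exact ⟨h1, fun x hx => h2 x fun hS => hx (h hS)⟩

theorem b3_choice [Fintype κ] {c : ℕ}
    (part : κ → Fin nb) (T : Submodule K (VL × (∀ x, U x))) (p : Fin c → VL × (∀ x, U x))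
    (hp : T ⊔ Submodule.span K (Set.range p) = ⊤) :
    ∃ S : Finset (Fin nb), S.card ≤ c ∧ ∀ b, b3W part {b} ≤ T ⊔ b3W part S := by
  classical
  obtain ⟨hfd, hfr⟩ := b3_fin T p hp
  let r : Finset (Fin nb) → ℕ := fun S =>
    Module.finrank K (Submodule.map T.mkQ (b3W part S : Submodule K (VL × (∀ x, U x))))
  have hne : ((Finset.univ : Finset (Finset (Fin nb))).filter fun S => S.card ≤ r S).Nonempty :=
    ⟨∅, Finset.mem_filter.2 ⟨Finset.mem_univ _, by simp⟩⟩
  obtain ⟨S, hS, hmax⟩ := Finset.exists_max_image _ Finset.card hne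
  have hS1 := (Finset.mem_filter.1 hS).2
  refine ⟨S, hS1.trans ((Submodule.finrank_le _).trans hfr), fun b => ?_⟩
  by_cases hb : b ∈ S
  · exact (b3W_mono part (Finset.singleton_subset_iff.2 hb)).trans le_sup_right
  · have h1 : Submodule.map T.mkQ (b3W part S : Submodule K (VL × (∀ x, U x))) ≤
        Submodule.map T.mkQ (b3W part (insert b S)) :=
      Submodule.map_mono (b3W_mono part (Finset.subset_insert _ _))
    have h2 : Submodule.map T.mkQ (b3W part S : Submodule K (VL × (∀ x, U x))) =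
        Submodule.map T.mkQ (b3W part (insert b S)) := by
      by_contra hne2
      have h3 := Submodule.finrank_lt_finrank_of_lt (lt_of_le_of_ne h1 hne2)
      have h4 : (insert b S).card ≤ r (insert b S) := by
        rw [Finset.card_insert_of_notMem hb]
        exact Nat.succ_le_of_lt (hS1.trans_lt h3)
      have h5 := hmax (insert b S) (Finset.mem_filter.2 ⟨Finset.mem_univ _, h4⟩)
      rw [Finset.card_insert_of_notMem hb] at h5
      omega
    have h6 : (b3W part {b} : Submodule K (VL × (∀ x, U x))) ≤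
        Submodule.comap T.mkQ (Submodule.map T.mkQ (b3W part S)) := by
      rw [h2]
      refine (b3W_mono part ?_).trans (Submodule.le_comap_map _ _)
      exact Finset.singleton_subset_iff.2 (Finset.mem_insert_self _ _)
    rw [Submodule.comap_map_mkQ] at h6
    exact h6

end

theorem choose_S {K : Type} [Field K] {VL : Type} [AddCommGroup VL] [Module K VL] {κ : Type}
    [Fintype κ] {U : κ → Type} [∀ x, AddCommGroup (U x)] [∀ x, Module K (U x)] {nb c : ℕ}
    (part : κ → Fin nb) (T : Submodule K (VL × (∀ x, U x))) (p : Fin c → VL × (∀ x, U x))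
    (hp : T ⊔ Submodule.span K (Set.range p) = ⊤) :
    ∃ S : Finset (Fin nb), S.card ≤ c ∧
      (∀ u : ∀ x, U x, ∃ t ∈ T, ∀ x, part x ∉ S → t.2 x = u x) ∧
      ∃ q : Fin c → VL, ∀ v : VL, ∃ t ∈ T, (∀ x, part x ∉ S → t.2 x = 0) ∧
        ∃ μ : Fin c → K, v = t.1 + ∑ i, μ i • q i := by
  classical
  obtain ⟨S, hS1, hS2⟩ := b3_choice part T p hp
  refine ⟨S, hS1, fun u => ?_, ?_⟩
  · have h1 : ((0, u) : VL × (∀ x, U x)) ∈ T ⊔ b3W part S := by
      have e : ((0, u) : VL × (∀ x, U x)) = ∑ b : Fin nb, ((0, fun x => if part x = b then u x else 0) :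
          VL × (∀ x, U x)) := by
        refine Prod.ext ?_ ?_
        · rw [Prod.fst_sum]
          exact (Finset.sum_const_zero).symm
        · rw [Prod.snd_sum]
          funext x
          rw [Finset.sum_apply, Finset.sum_ite_eq, if_pos (Finset.mem_univ _)]
      rw [e]
      refine Submodule.sum_mem _ fun b _ => hS2 b ⟨rfl, fun x hx => ?_⟩
      exact if_neg fun h => hx (by rw [h]; exact Finset.mem_singleton_self b)
    obtain ⟨t, ht, w, hw, he⟩ := Submodule.mem_sup.1 h1
    refine ⟨t, ht, fun x hx => ?_⟩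
    have h2 := congrFun (congrArg Prod.snd he) x
    have h3 : t.2 x + w.2 x = u x := h2
    rw [hw.2 x hx, add_zero] at h3
    exact h3
  · let T' : Submodule K (VL × (∀ x, U x)) := T ⊔ b3W part S
    have hp' : T' ⊔ Submodule.span K (Set.range p) = ⊤ := by
      rw [← top_le_iff, ← hp]
      exact sup_le_sup_right le_sup_left _
    obtain ⟨hfd, hfr⟩ := b3_fin T' p hp'
    obtain ⟨q, hq⟩ := b3_lift (T'.mkQ ∘ₗ LinearMap.inl K VL (∀ x, U x)) hfr
    refine ⟨q, fun v => ?_⟩
    obtain ⟨μ, hμ⟩ := hq v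
    have h1 : ((v - ∑ i, μ i • q i, 0) : VL × (∀ x, U x)) ∈ T' := by
      rw [← Submodule.Quotient.mk_eq_zero]
      have h2 : (T'.mkQ ∘ₗ LinearMap.inl K VL (∀ x, U x)) (v - ∑ i, μ i • q i) = 0 := by
        rw [map_sub, hμ, map_sum]
        simp only [map_smul]
        exact sub_self _
      exact h2
    obtain ⟨t, ht, w, hw, he⟩ := Submodule.mem_sup.1 h1
    refine ⟨t, ht, fun x hx => ?_, μ, ?_⟩
    · have h3 : t.2 x + w.2 x = 0 := congrFun (congrArg Prod.snd he) x
      rw [hw.2 x hx, add_zero] at h3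
      exact h3
    · have h3 : t.1 + w.1 = v - ∑ i, μ i • q i := congrArg Prod.fst he
      rw [hw.1, add_zero] at h3
      rw [h3, sub_add_cancel]

end Pool.Agent.H78B
end
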