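import Mathlib

/-! Merged copies (to shorten the build) of Lib.H78G.E1, Lib.H78G.E2, Lib.H78G.E3. -/

-- from Lib.H78G.E1
section

set_option autoImplicit false

/-!
CHUNK E1 (M, pure Mathlib).  Transcendence degree: one of many blocks is independent.
-/

namespace Pool.Agent.H78G

open Set in
/-- CHUNK E1.  Let `η : Fin s × τ → F` be algebraically independent over `ℂ` and `lam` a family of
`D < s` elements of `F`.  Then one of the `s` blocks `η (j, ·)` is algebraically independent over
`ℂ[lam]`.

Proof.  In the matroid of algebraic independence let `I` be a basis of `lam` and `B ⊇ I` a basis of the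
union of `lam` and `η`; `B ⊆ I ∪ η` and `|B| ≥ |η|`, so at most `D < s` of the `η` are missing in
`B`, and one block is contained in `B \ I`. -/
theorem indep_block {F : Type} [Field F] [Algebra ℂ F] {D s : ℕ} {τ : Type} [Fintype τ]
    (lam : Fin D → F) (η : Fin s × τ → F) (hη : AlgebraicIndependent ℂ η) (hs : D < s) :
    ∃ j : Fin s, AlgebraicIndependent (Algebra.adjoin ℂ (Set.range lam))
      (fun t : τ => η (j, t)) := by
  classical
  set M := AlgebraicIndependent.matroid ℂ F with hM
  have hinj : Function.Injective η := hη.injective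
  have hHind : M.Indep (range η) := by
    rw [AlgebraicIndependent.matroid_indep_iff]
    exact hη.to_subtype_range
  obtain ⟨I, hI⟩ := M.exists_isBasis (range lam) (by rw [AlgebraicIndependent.matroid_e]; exact subset_univ _)
  obtain ⟨B, hB, hIB⟩ := hI.indep.subset_isBasis_of_subset
    (hI.subset.trans (subset_union_left (t := range η)))
    (by rw [AlgebraicIndependent.matroid_e]; exact subset_univ _)
  have hBI : ∀ b ∈ B, b ∈ range lam → b ∈ I := by
    intro b hb hbL
    exact hI.mem_of_insert_indep hbL (hB.indep.subset (insert_subset hb hIB))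
  -- a block in `B \ I`
  have hblock : ∃ j : Fin s, ∀ t : τ, η (j, t) ∈ B \ I := by
    by_contra hcon
    push Not at hcon
    choose t ht using hcon
    have hsub : B ⊆ I ∪ (η '' {p | ∀ j, p ≠ (j, t j)}) := by
      intro b hb
      by_cases hbI : b ∈ I
      · exact Or.inl hbI
      · right
        rcases hB.subset hb with h | h
        · exact absurd (hBI b hb h) hbI
        · obtain ⟨p, rfl⟩ := h
          refine ⟨p, ?_, rfl⟩
          rintro j rfl
          exact ht j ⟨hb, hbI⟩
    have h1 : (range η).encard ≤ B.encard := by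
      have := hHind.encard_le_eRk_of_subset (subset_union_right (s := range lam))
      rwa [← hB.encard_eq_eRk] at this
    have h2 : B.encard ≤ I.encard + (η '' {p | ∀ j, p ≠ (j, t j)}).encard :=
      (encard_le_encard hsub).trans (encard_union_le _ _)
    have h3 : I.encard ≤ D := by
      refine (encard_le_encard hI.subset).trans ?_
      rw [← image_univ]
      refine (encard_image_le _ _).trans ?_
      simp
    have h1' : ENat.card (Fin s × τ) ≤ B.encard := hinj.encard_range.trans h1
    rw [hinj.encard_image] at h2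
    have h4 : ({p : Fin s × τ | ∀ j, p ≠ (j, t j)} : Set (Fin s × τ)).encard + s =
        ENat.card (Fin s × τ) := by
      have h5 : ({p : Fin s × τ | ∀ j, p ≠ (j, t j)} : Set (Fin s × τ)) =
          (range fun j : Fin s => (j, t j))ᶜ := by
        ext p
        simp only [mem_setOf_eq, mem_compl_iff, mem_range, not_exists]
        exact ⟨fun h j hj => h j hj.symm, fun h j hj => h j hj.symm⟩
      have h6 : (range fun j : Fin s => (j, t j)).encard = s := by
        have : Function.Injective fun j : Fin s => (j, t j) := fun a b h => (Prod.ext_iff.1 h).1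
        rw [← image_univ, this.encard_image]
        simp
      rw [h5, ← h6, add_comm, encard_add_encard_compl, encard_univ]
    have h7 : (ENat.card (Fin s × τ)) ≠ ⊤ := by
      rw [ENat.card_eq_coe_fintype_card]; exact ENat.coe_ne_top _
    have h8 : ({p : Fin s × τ | ∀ j, p ≠ (j, t j)} : Set (Fin s × τ)).encard ≠ ⊤ := by
      intro h
      rw [h, top_add] at h4
      exact h7 h4.symm
    have h9 : ENat.card (Fin s × τ) ≤
        D + ({p : Fin s × τ | ∀ j, p ≠ (j, t j)} : Set (Fin s × τ)).encard :=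
      (h1'.trans h2).trans (add_le_add h3 le_rfl)
    rw [← h4, add_comm] at h9
    have h10 : (s : ℕ∞) ≤ D := (ENat.add_le_add_iff_right h8).1 h9
    exact absurd (by exact_mod_cast h10 : s ≤ D) (by omega)
  obtain ⟨j, hj⟩ := hblock
  refine ⟨j, ?_⟩
  -- independence over `ℂ[I]`
  have hBind : AlgebraicIndependent ℂ (Subtype.val : B → F) := hB.indep
  have hsum : AlgebraicIndependent ℂ (Sum.elim (fun t : τ => η (j, t)) (Subtype.val : I → F)) := by
    let g : τ ⊕ I → B := Sum.elim (fun t => ⟨η (j, t), (hj t).1⟩) fun i => ⟨i.1, hIB i.2⟩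
    have hg : Function.Injective g := by
      rintro (a | a) (b | b) hab
      · have := congrArg Subtype.val hab
        simp only [g, Sum.elim_inl] at this
        have h2 : a = b := (Prod.ext_iff.1 (hinj this)).2
        rw [h2]
      · have := congrArg Subtype.val hab
        simp only [g, Sum.elim_inl, Sum.elim_inr] at this
        exact absurd (this ▸ b.2) (hj a).2
      · have := congrArg Subtype.val hab
        simp only [g, Sum.elim_inl, Sum.elim_inr] at this
        exact absurd (this ▸ a.2) (hj b).2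
      · have := congrArg Subtype.val hab
        simp only [g, Sum.elim_inr] at this
        rw [Subtype.ext this]
    have h1 := hBind.comp g hg
    convert h1 using 1
    ext (a | a) <;> rfl
  rw [AlgebraicIndependent.sumElim_iff] at hsum
  have h1 := hsum.2
  have hle : Algebra.adjoin ℂ (range (Subtype.val : I → F)) ≤ Algebra.adjoin ℂ (range lam) := by
    apply Algebra.adjoin_mono
    rw [Subtype.range_val]
    exact hI.subset
  letI : Algebra (Algebra.adjoin ℂ (range (Subtype.val : I → F)))
    (Algebra.adjoin ℂ (range lam)) := (Subalgebra.inclusion hle).toAlgebra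
  haveI : IsScalarTower (Algebra.adjoin ℂ (range (Subtype.val : I → F)))
    (Algebra.adjoin ℂ (range lam)) F := .of_algebraMap_eq fun ⟨y, _⟩ => rfl
  haveI : Algebra.IsAlgebraic (Algebra.adjoin ℂ (range (Subtype.val : I → F)))
      (Algebra.adjoin ℂ (range lam)) := ⟨fun ⟨y, hy⟩ => by
    rw [← isAlgebraic_algHom_iff (IsScalarTower.toAlgHom
      (Algebra.adjoin ℂ (range (Subtype.val : I → F))) (Algebra.adjoin ℂ (range lam)) F)
      Subtype.val_injective]
    change IsAlgebraic (Algebra.adjoin ℂ (range (Subtype.val : I → F))) y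
    have hb := (AlgebraicIndependent.matroid_isBasis_iff.1 hI).2.2
    refine Algebra.adjoin_induction (fun x hx => ?_) (fun z => ?_)
      (fun _ _ _ _ => .add) (fun _ _ _ _ => .mul) hy
    · have := hb x hx
      rwa [Subtype.range_val]
    · exact isAlgebraic_algebraMap (algebraMap ℂ
        (Algebra.adjoin ℂ (range (Subtype.val : I → F))) z)⟩
  exact h1.extendScalars _

end Pool.Agent.H78G
end

-- from Lib.H78G.E2
section

set_option autoImplicit false

/-!
CHUNK E2 (M, pure Mathlib).  Linear substitution in independent elements.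
-/

open MvPolynomial

namespace Pool.Agent.H78G

/-- CHUNK E2.  Let `S` be a subalgebra of the field `F`, the `η (i, l)` algebraically independent over
`S`, `Lam` a matrix over `S` with a left inverse `Lb` over `S`, and `Θ ≠ 0` a polynomial over `ℂ`.  Then
`Θ (∑ l, η (i, l) Lam l b) ≠ 0`.
Proof.  The `S`-algebra homomorphism `ψ : S[X (i, b)] → S[X (i, l)]`,
`X (i, b) ↦ ∑ l, C (Lam l b) * X (i, l)`, is injective since it has the left inverse
`X (i, l) ↦ ∑ b', C (Lb b' l) * X (i, b')`.  `Θ` mapped to `S[X (i, b)]` is not `0`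
(`MvPolynomial.map_injective`), so `ψ Θ ≠ 0`, and evaluation at `η` is injective on `S[X (i, l)]`. -/
theorem eval_ne_zero {F : Type} [Field F] [Algebra ℂ F] {ι : Type} [Fintype ι] {m n : ℕ}
    (S : Subalgebra ℂ F) (η : ι × Fin (n + 1) → F) (hη : AlgebraicIndependent S η)
    (Lam : Fin (n + 1) → Fin (m + 1) → F) (Lb : Fin (m + 1) → Fin (n + 1) → F)
    (hLam : ∀ l b, Lam l b ∈ S) (hLb : ∀ b l, Lb b l ∈ S)
    (hinv : ∀ b b', ∑ l, Lb b' l * Lam l b = if b = b' then 1 else 0)
    (Θ : MvPolynomial (ι × Fin (m + 1)) ℂ) (hΘ : Θ ≠ 0) :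
    aeval (fun p : ι × Fin (m + 1) => ∑ l, η (p.1, l) * Lam l p.2) Θ ≠ (0 : F) := by
  classical
  let ψ : MvPolynomial (ι × Fin (m + 1)) S →ₐ[S] MvPolynomial (ι × Fin (n + 1)) S :=
    aeval fun p => ∑ l, C (⟨Lam l p.2, hLam l p.2⟩ : S) * X (p.1, l)
  let φ : MvPolynomial (ι × Fin (n + 1)) S →ₐ[S] MvPolynomial (ι × Fin (m + 1)) S :=
    aeval fun p => ∑ b, C (⟨Lb b p.2, hLb b p.2⟩ : S) * X (p.1, b)
  have hφψ : φ.comp ψ = AlgHom.id S _ := by
    refine MvPolynomial.algHom_ext fun p => ?_
    obtain ⟨i, b⟩ := p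
    simp only [AlgHom.comp_apply, ψ, φ, aeval_X, map_sum, map_mul, AlgHom.id_apply]
    have h1 : ∀ l : Fin (n + 1), (aeval (R := S) fun p : ι × Fin (n + 1) =>
        ∑ b, C (⟨Lb b p.2, hLb b p.2⟩ : S) * X (p.1, b)) (C (⟨Lam l b, hLam l b⟩ : S)) *
        ∑ b', C (⟨Lb b' l, hLb b' l⟩ : S) * X (i, b') =
        ∑ b', C ((⟨Lb b' l, hLb b' l⟩ : S) * ⟨Lam l b, hLam l b⟩) *
          (X (i, b') : MvPolynomial (ι × Fin (m + 1)) S) := by
      intro l
      rw [MvPolynomial.aeval_C, MvPolynomial.algebraMap_eq, Finset.mul_sum]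
      refine Finset.sum_congr rfl fun b' _ => ?_
      rw [map_mul]
      ring
    rw [Finset.sum_congr rfl fun l _ => h1 l, Finset.sum_comm]
    have h2 : ∀ b' : Fin (m + 1), ∑ l : Fin (n + 1),
        C ((⟨Lb b' l, hLb b' l⟩ : S) * ⟨Lam l b, hLam l b⟩) *
          (X (i, b') : MvPolynomial (ι × Fin (m + 1)) S) =
        if b = b' then X (i, b') else 0 := by
      intro b'
      rw [← Finset.sum_mul, ← map_sum]
      have h3 : (∑ l : Fin (n + 1), (⟨Lb b' l, hLb b' l⟩ : S) * ⟨Lam l b, hLam l b⟩) =
          if b = b' then 1 else 0 := by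
        apply Subtype.ext
        have := hinv b b'
        split_ifs with hbb
        · rw [if_pos hbb] at this
          simpa using this
        · rw [if_neg hbb] at this
          simpa using this
      rw [h3]
      split_ifs <;> simp
    rw [Finset.sum_congr rfl fun b' _ => h2 b']
    simp
  have hψ : Function.Injective ψ := by
    intro x y hxy
    have := congrArg φ hxy
    have hx : φ (ψ x) = x := congrArg (fun f => f x) hφψ
    have hy : φ (ψ y) = y := congrArg (fun f => f y) hφψ
    rwa [hx, hy] at this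
  have hΘ' : MvPolynomial.map (algebraMap ℂ S) Θ ≠ 0 := by
    intro h0
    apply hΘ
    apply MvPolynomial.map_injective (algebraMap ℂ S) (algebraMap ℂ S).injective
    rw [h0, map_zero]
  have h1 : ψ (MvPolynomial.map (algebraMap ℂ S) Θ) ≠ 0 := by
    intro h0
    exact hΘ' (hψ (by rw [h0, map_zero]))
  intro h0
  apply h1
  apply hη
  rw [map_zero, ← h0]
  have h2 : (((aeval η : MvPolynomial (ι × Fin (n + 1)) S →ₐ[S] F).comp ψ).restrictScalars
      ℂ).comp ((MvPolynomial.mapAlgHom (Algebra.ofId ℂ S))) =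
      aeval (fun p : ι × Fin (m + 1) => ∑ l, η (p.1, l) * Lam l p.2) := by
    refine MvPolynomial.algHom_ext fun p => ?_
    simp only [AlgHom.comp_apply, AlgHom.restrictScalars_apply, ψ, mapAlgHom_apply,
      aeval_X, map_sum, map_mul]
    simp [mul_comm]
  rw [← h2]
  rfl

end Pool.Agent.H78G
end

-- from Lib.H78G.E3
section

set_option autoImplicit false

/-!
CHUNK E3 (M/L, pure Mathlib).  Elimination of the position of the linear subspace.
-/

open MvPolynomial

namespace Pool.Agent.H78G

/-- CHUNK E3.  `s > 2 (m + 1) (n + 1)` disjoint blocks of `K` of the `k` hyperplanes.  For the generic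
arrangement `η` and every linear subspace (matrix `Lam` with left inverse `Lb`) the restriction of one
of the blocks satisfies `Θ ≠ 0`.

Proof.  Let `A` be the polynomial ring over `ℂ` in the variables `η (i, l)`, `Lam l b`, `Lb b l`, and
`I` the ideal generated by the `s` polynomials `Θ (∑ l, η (σ j i, l) Lam l b)` and by the entries
of `Lb * Lam - 1`.  If `I` contains a nonzero polynomial `Ξ` in the variables `η` alone (i.e. the image
of `Ξ : MvPolynomial (Fin k × Fin (n + 1)) ℂ` under `rename Sum.inl`), then `Ξ` has the asserted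
property: evaluate the expression of `Ξ` by the generators at `(η, Lam, Lb)`.
Otherwise the multiplicative set `{rename Sum.inl Ξ | Ξ ≠ 0}` is disjoint from `I`, so there is a prime
ideal `𝔭 ⊇ I` disjoint from it (`Ideal.exists_le_prime_disjoint`).  Let `F` be the fraction field
of `A ⧸ 𝔭`.  In `F` the images of the `η (i, l)` are algebraically independent over `ℂ`, in particular
the images of the `η (σ j i, l)`, `(j, i, l)` (`hσ`), and `Lb * Lam = 1`.  By `indep_block` with
`lam` = all entries of `Lam` and `Lb` (`D = 2 (m + 1) (n + 1)`) one block `j` is algebraically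
independent over `S = ℂ[Lam, Lb]`, and `eval_ne_zero` contradicts `Θ (...) ∈ 𝔭`. -/
theorem elim {n m K k s : ℕ} (hs : 2 * ((m + 1) * (n + 1)) < s)
    (Θ : MvPolynomial (Fin K × Fin (m + 1)) ℂ) (hΘ : Θ ≠ 0) (σ : Fin s → Fin K → Fin k)
    (hσ : Function.Injective fun p : Fin s × Fin K => σ p.1 p.2) :
    ∃ Ξ : MvPolynomial (Fin k × Fin (n + 1)) ℂ, Ξ ≠ 0 ∧ ∀ η : Fin k × Fin (n + 1) → ℂ,
      eval η Ξ ≠ 0 → ∀ (Lam : Matrix (Fin (n + 1)) (Fin (m + 1)) ℂ)
        (Lb : Matrix (Fin (m + 1)) (Fin (n + 1)) ℂ), Lb * Lam = 1 →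
        ∃ j, eval (fun p : Fin K × Fin (m + 1) => ∑ l, η (σ j p.1, l) * Lam l p.2) Θ ≠ 0 := by
  classical
  let V : Type := (Fin k × Fin (n + 1)) ⊕ ((Fin (n + 1) × Fin (m + 1)) ⊕ (Fin (m + 1) × Fin (n + 1)))
  let g : Fin s → MvPolynomial V ℂ := fun j =>
    aeval (fun p : Fin K × Fin (m + 1) =>
      ∑ l : Fin (n + 1), (X (Sum.inl (σ j p.1, l)) : MvPolynomial V ℂ) *
        X (Sum.inr (Sum.inl (l, p.2)))) Θ
  let h : Fin (m + 1) × Fin (m + 1) → MvPolynomial V ℂ := fun q =>
    (∑ l : Fin (n + 1), (X (Sum.inr (Sum.inr (q.1, l))) : MvPolynomial V ℂ) *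
      X (Sum.inr (Sum.inl (l, q.2)))) - (if q.1 = q.2 then 1 else 0)
  let I : Ideal (MvPolynomial V ℂ) := Ideal.span (Set.range g ∪ Set.range h)
  have hgI : ∀ j, g j ∈ I := fun j => Ideal.subset_span (Or.inl ⟨j, rfl⟩)
  have hhI : ∀ q, h q ∈ I := fun q => Ideal.subset_span (Or.inr ⟨q, rfl⟩)
  by_cases hcase : ∃ Ξ : MvPolynomial (Fin k × Fin (n + 1)) ℂ, Ξ ≠ 0 ∧
      (rename (Sum.inl : _ → V) Ξ) ∈ I
  · obtain ⟨Ξ, hΞ, hmem⟩ := hcase
    refine ⟨Ξ, hΞ, fun η hη Lam Lb hinv => ?_⟩
    by_contra hcon
    push Not at hcon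
    apply hη
    let pt : V → ℂ := Sum.elim η (Sum.elim (fun q => Lam q.1 q.2) (fun q => Lb q.1 q.2))
    have hle : I ≤ RingHom.ker (aeval pt : MvPolynomial V ℂ →ₐ[ℂ] ℂ) := by
      rw [Ideal.span_le]
      rintro x (⟨j, rfl⟩ | ⟨q, rfl⟩)
      · change aeval pt (g j) = 0
        have h1 : aeval pt (g j) =
            aeval (fun p : Fin K × Fin (m + 1) => ∑ l, η (σ j p.1, l) * Lam l p.2) Θ := by
          have h2 : (aeval pt : MvPolynomial V ℂ →ₐ[ℂ] ℂ).comp
              (aeval (fun p : Fin K × Fin (m + 1) =>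
                ∑ l : Fin (n + 1), (X (Sum.inl (σ j p.1, l)) : MvPolynomial V ℂ) *
                  X (Sum.inr (Sum.inl (l, p.2))))) =
              aeval (fun p : Fin K × Fin (m + 1) => ∑ l, η (σ j p.1, l) * Lam l p.2) := by
            refine MvPolynomial.algHom_ext fun p => ?_
            simp [pt]
          rw [← h2]
          rfl
        rw [h1]
        exact hcon j
      · change aeval pt (h q) = 0
        have h3 : (Lb * Lam) q.1 q.2 = (1 : Matrix (Fin (m + 1)) (Fin (m + 1)) ℂ) q.1 q.2 := by
          rw [hinv]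
        rw [Matrix.mul_apply, Matrix.one_apply] at h3
        simp only [h, map_sub, map_sum, map_mul, aeval_X, pt, Sum.elim_inr, Sum.elim_inl]
        rw [h3]
        split_ifs <;> simp
    have h4 := hle hmem
    rw [RingHom.mem_ker, aeval_rename] at h4
    exact h4
  · push Not at hcase
    exfalso
    let S : Submonoid (MvPolynomial V ℂ) :=
      (nonZeroDivisors (MvPolynomial (Fin k × Fin (n + 1)) ℂ)).map
        (rename (Sum.inl : _ → V) : MvPolynomial (Fin k × Fin (n + 1)) ℂ →ₐ[ℂ] MvPolynomial V ℂ)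
    have hdisj : Disjoint (I : Set (MvPolynomial V ℂ)) (S : Set (MvPolynomial V ℂ)) := by
      rw [Set.disjoint_left]
      rintro x hx ⟨Ξ, hΞ, rfl⟩
      exact hcase Ξ (nonZeroDivisors.ne_zero hΞ) hx
    obtain ⟨P, hP, hIP, hPS⟩ := Ideal.exists_le_prime_disjoint I S hdisj
    have := hP
    let F : Type := FractionRing (MvPolynomial V ℂ ⧸ P)
    let q : MvPolynomial V ℂ →ₐ[ℂ] F :=
      (IsScalarTower.toAlgHom ℂ (MvPolynomial V ℂ ⧸ P) F).comp (Ideal.Quotient.mkₐ ℂ P)
    have hq : ∀ x, q x = 0 → x ∈ P := by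
      intro x hx
      have h1 : algebraMap (MvPolynomial V ℂ ⧸ P) F (Ideal.Quotient.mk P x) = 0 := hx
      rw [← Ideal.Quotient.eq_zero_iff_mem]
      exact (IsFractionRing.injective (MvPolynomial V ℂ ⧸ P) F) (by rw [h1, map_zero])
    have hq' : ∀ x, x ∈ P → q x = 0 := by
      intro x hx
      change algebraMap (MvPolynomial V ℂ ⧸ P) F (Ideal.Quotient.mk P x) = 0
      rw [Ideal.Quotient.eq_zero_iff_mem.2 hx, map_zero]
    have hind : AlgebraicIndependent ℂ
        (fun i : Fin k × Fin (n + 1) => q (X (Sum.inl i))) := by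
      have h1 : (aeval (fun i : Fin k × Fin (n + 1) => q (X (Sum.inl i))) :
          MvPolynomial (Fin k × Fin (n + 1)) ℂ →ₐ[ℂ] F) =
          q.comp (rename (Sum.inl : _ → V)) := by
        refine MvPolynomial.algHom_ext fun p => ?_
        simp
      change Function.Injective (aeval (fun i : Fin k × Fin (n + 1) => q (X (Sum.inl i))) :
          MvPolynomial (Fin k × Fin (n + 1)) ℂ →ₐ[ℂ] F)
      rw [h1, injective_iff_map_eq_zero]
      intro Ξ hΞ
      by_contra hne
      have h2 := hq _ hΞ
      exact Set.disjoint_left.1 hPS h2 ⟨Ξ, mem_nonZeroDivisors_of_ne_zero hne, rfl⟩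
    let ηs : Fin s × (Fin K × Fin (n + 1)) → F := fun p => q (X (Sum.inl (σ p.1 p.2.1, p.2.2)))
    have hind' : AlgebraicIndependent ℂ ηs := by
      have h1 : Function.Injective (fun p : Fin s × (Fin K × Fin (n + 1)) =>
          ((σ p.1 p.2.1, p.2.2) : Fin k × Fin (n + 1))) := by
        rintro ⟨a, b, c⟩ ⟨a', b', c'⟩ hab
        simp only [Prod.mk.injEq] at hab
        have h2 := @hσ (a, b) (a', b') hab.1
        simp only [Prod.mk.injEq] at h2
        obtain ⟨rfl, rfl⟩ := h2
        obtain ⟨-, rfl⟩ := hab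
        rfl
      exact hind.comp _ h1
    let W : Type := (Fin (n + 1) × Fin (m + 1)) ⊕ (Fin (m + 1) × Fin (n + 1))
    have hcard : Fintype.card W = 2 * ((m + 1) * (n + 1)) := by
      simp only [W, Fintype.card_sum, Fintype.card_prod, Fintype.card_fin]
      ring
    let e : Fin (2 * ((m + 1) * (n + 1))) ≃ W := (Fintype.equivFinOfCardEq hcard).symm
    let lam : Fin (2 * ((m + 1) * (n + 1))) → F := fun i => q (X (Sum.inr (e i)))
    obtain ⟨j, hj⟩ := indep_block lam ηs hind' hs
    have hmem : ∀ w : W, q (X (Sum.inr w)) ∈ Algebra.adjoin ℂ (Set.range lam) := by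
      intro w
      apply Algebra.subset_adjoin
      exact ⟨e.symm w, by simp [lam]⟩
    have hfin := eval_ne_zero (Algebra.adjoin ℂ (Set.range lam)) (fun t => ηs (j, t)) hj
      (fun l b => q (X (Sum.inr (Sum.inl (l, b))))) (fun b l => q (X (Sum.inr (Sum.inr (b, l)))))
      (fun l b => hmem _) (fun b l => hmem _) (by
        intro b b'
        have h1 := hq' _ (hIP (hhI (b', b)))
        simp only [h, map_sub, map_sum, map_mul] at h1
        rw [sub_eq_zero] at h1
        rw [h1]
        by_cases hbb : b = b'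
        · rw [if_pos hbb, if_pos hbb.symm, map_one]
        · rw [if_neg hbb, if_neg (Ne.symm hbb), map_zero]) Θ hΘ
    apply hfin
    have h5 := hq' _ (hIP (hgI j))
    have h6 : q.comp (aeval (fun p : Fin K × Fin (m + 1) =>
                ∑ l : Fin (n + 1), (X (Sum.inl (σ j p.1, l)) : MvPolynomial V ℂ) *
                  X (Sum.inr (Sum.inl (l, p.2))))) =
        aeval (fun p : Fin K × Fin (m + 1) => ∑ l, ηs (j, (p.1, l)) *
          q (X (Sum.inr (Sum.inl (l, p.2))))) := by
      refine MvPolynomial.algHom_ext fun p => ?_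
      simp [ηs]
    rw [← h6]
    exact h5

end Pool.Agent.H78G
end
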