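import Mathlib

/-! Merged copies (to shorten the build) of Lib.H89.KummerDefs, Lib.H89.Sect.Graded, Lib.H89T.A3, Lib.H89T.A4, Lib.H89T.K1, Lib.H89T.Defs, Lib.H89T.N1, Lib.H89T.CDefs, Lib.H89T.C3. -/

-- from Lib.H89.KummerDefs
section

set_option autoImplicit false

/-!
Entire curves in projective space, pseudo-Brody hyperbolicity of closed subsets of projective
space, and Kummer covers of projective space branched along hyperplanes.
-/

open MvPolynomial Module

namespace Pool.Agent.H89.Kummer

/-- `x` is a reduced representation of an entire curve in the projective space with homogeneous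
coordinates indexed by `ι`: the `x i` are entire functions without common zero, and the
holomorphic map `z ↦ [x z]` that they define is not constant. -/
structure IsEntireCurve {ι : Type*} (x : ℂ → ι → ℂ) : Prop where
  holomorphic : ∀ i, Differentiable ℂ fun z => x z i
  ne_zero : ∀ z, x z ≠ 0
  nonconstant : ∃ z w, ∀ c : ℂ, x w ≠ c • x z

/-- The closed subset of projective space whose cone is `X` is pseudo-Brody hyperbolic: a Zariski
closed subset, cut out on it by a set `T` of homogeneous polynomials and different from it,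
contains the image of every entire curve in it. -/
def PseudoBrody {ι : Type*} (X : Set (ι → ℂ)) : Prop :=
  ∃ T : Set (MvPolynomial ι ℂ), (∀ g ∈ T, ∃ d, g.IsHomogeneous d) ∧
    (∃ x ∈ X, ∃ g ∈ T, eval x g ≠ 0) ∧
    ∀ x : ℂ → ι → ℂ, IsEntireCurve x → (∀ z, x z ∈ X) → ∀ z, ∀ g ∈ T, eval (x z) g = 0



end Pool.Agent.H89.Kummer
end

-- from Lib.H89.Sect.Graded
section

set_option autoImplicit false

/-!
Bands of degrees in the homogeneous coordinate ring of a projective variety.
-/

open MvPolynomial Module

namespace Pool.Agent.H89.Sect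

attribute [local instance] MvPolynomial.gradedAlgebra

variable {n : ℕ}

/-- The linear form with coefficients `h`. -/
noncomputable def lf (h : Fin n → ℂ) : MvPolynomial (Fin n) ℂ := ∑ j, C (h j) * X j






/-- Polynomials whose homogeneous components have degrees in `[r, r + d]`. -/
noncomputable def band (n r d : ℕ) : Submodule ℂ (MvPolynomial (Fin n) ℂ) where
  carrier := {F | ∀ i, ¬ (r ≤ i ∧ i ≤ r + d) → homogeneousComponent i F = 0}
  add_mem' := by
    intro F G hF hG i hi
    rw [map_add, hF i hi, hG i hi, add_zero]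
  zero_mem' := fun i _ => map_zero _
  smul_mem' := by
    intro c F hF i hi
    rw [map_smul, hF i hi, smul_zero]





instance finite_band (r d : ℕ) : FiniteDimensional ℂ (band n r d) := by
  have h1 : band n r d ≤ restrictTotalDegree (Fin n) ℂ (r + d) := by
    intro F hF
    rw [mem_restrictTotalDegree]
    rw [← sum_homogeneousComponent F]
    refine totalDegree_finsetSum_le fun i _ => ?_
    by_cases hi : r ≤ i ∧ i ≤ r + d
    · exact (homogeneousComponent_isHomogeneous i F).totalDegree_le.trans hi.2
    · rw [hF i hi, totalDegree_zero]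
      exact Nat.zero_le _
  exact Submodule.finiteDimensional_of_le h1

variable {I : Ideal (MvPolynomial (Fin n) ℂ)}



end Pool.Agent.H89.Sect
end

-- from Lib.H89T.A3
section

set_option autoImplicit false

/-!
CHUNK A3.  Generic spanning from spanning at a special point (determinant trick).
-/

open MvPolynomial

namespace Pool.Agent.H89T

/-- CHUNK A3.  Let `R = ℂ[ι]`, `N` an `R`-submodule of `R[σ]`, `s` a finite set of monomials such
that every `m ∈ s` is the specialization at the point `a` of some `G ∈ N` with monomials in `s`.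
Then there is `t ≠ 0` in `R` with `t • m ∈ N` for all `m ∈ s`.

Proof: choose `G m` for `m : s`, let `T : Matrix s s R`, `T m m' = coeff m' (G m)`, so
`G m = ∑ m', T m m' • monomial m' 1`.  The specialization of `T` at `a` is the unit matrix
(`coeff_map`, `coeff_monomial`), hence `eval a (det T) = 1` (`RingHom.map_det`), so
`t = det T ≠ 0`.  By `Matrix.adjugate_mul`:
`∑ m, adj T m'' m • G m = ∑ m', (adj T * T) m'' m' • monomial m' 1 = t • monomial m'' 1`, and the
left-hand side is in `N`. -/
theorem exists_smul_mem {σ ι : Type} (a : ι → ℂ) (s : Finset (σ →₀ ℕ))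
    (N : Submodule (MvPolynomial ι ℂ) (MvPolynomial σ (MvPolynomial ι ℂ)))
    (h : ∀ m ∈ s, ∃ G ∈ N, (∀ m' ∈ G.support, m' ∈ s) ∧
      MvPolynomial.map (eval a) G = monomial m 1) :
    ∃ t : MvPolynomial ι ℂ, t ≠ 0 ∧ ∀ m ∈ s, t • monomial m (1 : MvPolynomial ι ℂ) ∈ N := by
  classical
  choose! G hG hsup hmap using h
  let T : Matrix s s (MvPolynomial ι ℂ) := fun m m' => coeff m'.1 (G m.1)
  have hT : (eval a : MvPolynomial ι ℂ →+* ℂ).mapMatrix T = 1 := by
    ext m m'
    have h1 := congrArg (coeff m'.1) (hmap m.1 m.2)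
    rw [coeff_map, coeff_monomial] at h1
    rw [RingHom.mapMatrix_apply, Matrix.map_apply, Matrix.one_apply]
    change eval a (coeff m'.1 (G m.1)) = _
    rw [h1]
    simp only [Subtype.ext_iff]
  have hdet : eval a T.det = 1 := by
    rw [RingHom.map_det, hT, Matrix.det_one]
  refine ⟨T.det, ?_, ?_⟩
  · intro h0
    rw [h0, map_zero] at hdet
    exact zero_ne_one hdet
  · intro m hm
    have hGm : ∀ m : s, G m.1 = ∑ m' : s, T m m' • monomial m'.1 (1 : MvPolynomial ι ℂ) := by
      intro m
      have h1 : ∑ m' : s, T m m' • monomial m'.1 (1 : MvPolynomial ι ℂ) =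
          ∑ m' ∈ s, coeff m' (G m.1) • monomial m' (1 : MvPolynomial ι ℂ) :=
        Finset.sum_coe_sort s (fun m' => coeff m' (G m.1) • monomial m' (1 : MvPolynomial ι ℂ))
      rw [h1]
      have h2 : ∑ m' ∈ s, coeff m' (G m.1) • monomial m' (1 : MvPolynomial ι ℂ) =
          ∑ m' ∈ (G m.1).support, coeff m' (G m.1) • monomial m' (1 : MvPolynomial ι ℂ) := by
        symm
        refine Finset.sum_subset (fun m' hm' => hsup m.1 m.2 m' hm') ?_
        intro m' _ hm'
        rw [notMem_support_iff.1 hm', zero_smul]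
      rw [h2]
      conv_lhs => rw [(G m.1).as_sum]
      refine Finset.sum_congr rfl fun m' _ => ?_
      rw [smul_monomial, smul_eq_mul, mul_one]
    have key : T.det • monomial m (1 : MvPolynomial ι ℂ) =
        ∑ m' : s, T.adjugate ⟨m, hm⟩ m' • G m'.1 := by
      have h1 : ∀ m' : s, T.adjugate ⟨m, hm⟩ m' • G m'.1 =
          ∑ m'' : s, (T.adjugate ⟨m, hm⟩ m' * T m' m'') • monomial m''.1 (1 : MvPolynomial ι ℂ) := by
        intro m'
        rw [hGm m', Finset.smul_sum]
        refine Finset.sum_congr rfl fun m'' _ => ?_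
        rw [smul_smul]
      rw [Finset.sum_congr rfl fun m' _ => h1 m', Finset.sum_comm]
      have h2 : ∀ m'' : s, ∑ m' : s, (T.adjugate ⟨m, hm⟩ m' * T m' m'') •
          monomial m''.1 (1 : MvPolynomial ι ℂ) =
          ((T.det • (1 : Matrix s s (MvPolynomial ι ℂ))) ⟨m, hm⟩ m'') •
            monomial m''.1 (1 : MvPolynomial ι ℂ) := by
        intro m''
        rw [← Finset.sum_smul, ← Matrix.mul_apply, Matrix.adjugate_mul]
      rw [Finset.sum_congr rfl fun m'' _ => h2 m'']
      rw [Finset.sum_eq_single (⟨m, hm⟩ : s)]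
      · rw [Matrix.smul_apply, Matrix.one_apply_eq, smul_eq_mul, mul_one]
      · intro b _ hb
        rw [Matrix.smul_apply, Matrix.one_apply_ne (Ne.symm hb), smul_zero, zero_smul]
      · intro h0
        exact absurd (Finset.mem_univ _) h0
    rw [key]
    exact Submodule.sum_mem _ fun m' _ => Submodule.smul_mem _ _ (hG m'.1 m'.2)

end Pool.Agent.H89T
end

-- from Lib.H89T.A4
section

set_option autoImplicit false

/-!
CHUNK A4.  Linear algebra: more unknowns than equations.
-/

namespace Pool.Agent.H89T

/-- CHUNK A4.  `q` blocks of linear conditions on `∑ p i • f i`.  Proof: for all `l`, `i` choose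
`c l i : κ l → R` with `t l • T l (f i) - ∑ x, c l i x • ν l x ∈ N l`
(`Submodule.mem_sup`, `Submodule.mem_span_range_iff_exists_fun`).  The `R`-linear map
`(ι → R) → ((Σ l, κ l) → R)`, `p ↦ (fun ⟨l, x⟩ => ∑ i, p i * c l i x)` is not injective, because
`card (Σ l, κ l) < card ι` (`LinearMap.card_le_of_injective`... strong rank condition,
`commRing_strongRankCondition`).  Take `p ≠ 0` in the kernel. -/
theorem exists_coeffs {R V ι : Type} [CommRing R] [Nontrivial R] [AddCommGroup V] [Module R V]
    [Fintype ι] {q : ℕ} (f : ι → V) (T : Fin q → V →ₗ[R] V) (N : Fin q → Submodule R V)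
    (κ : Fin q → Type) [∀ l, Fintype (κ l)] (ν : ∀ l, κ l → V) (t : Fin q → R)
    (h : ∀ l i, t l • T l (f i) ∈ N l ⊔ Submodule.span R (Set.range (ν l)))
    (hc : ∑ l, Fintype.card (κ l) < Fintype.card ι) :
    ∃ p : ι → R, p ≠ 0 ∧ ∀ l, t l • T l (∑ i, p i • f i) ∈ N l := by
  classical
  have h1 : ∀ l i, ∃ c : κ l → R, t l • T l (f i) - ∑ x, c x • ν l x ∈ N l := by
    intro l i
    obtain ⟨y, hy, z, hz, hyz⟩ := Submodule.mem_sup.1 (h l i)
    obtain ⟨c, hc⟩ := (Submodule.mem_span_range_iff_exists_fun R).1 hz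
    refine ⟨c, ?_⟩
    rw [hc, ← hyz]
    simpa using hy
  choose c hcm using h1
  let Φ : (ι → R) →ₗ[R] ((Σ l, κ l) → R) :=
    { toFun := fun p s => ∑ i, p i * c s.1 i s.2
      map_add' := by
        intro p p'
        funext s
        simp only [Pi.add_apply, add_mul, Finset.sum_add_distrib]
      map_smul' := by
        intro a p
        funext s
        simp only [Pi.smul_apply, smul_eq_mul, RingHom.id_apply, mul_assoc, Finset.mul_sum] }
  have hni : ¬ Function.Injective Φ := by
    intro hinj
    have h2 := card_le_of_injective R Φ hinj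
    rw [Fintype.card_sigma] at h2
    omega
  have hex : ∃ p : ι → R, p ≠ 0 ∧ Φ p = 0 := by
    by_contra hno
    push Not at hno
    apply hni
    rw [← LinearMap.ker_eq_bot, LinearMap.ker_eq_bot']
    intro p hp
    by_contra hp0
    exact hno p hp0 hp
  obtain ⟨p, hp0, hp⟩ := hex
  refine ⟨p, hp0, fun l => ?_⟩
  have h3 : t l • T l (∑ i, p i • f i) =
      ∑ i, p i • (t l • T l (f i) - ∑ x, c l i x • ν l x) := by
    have h4 : ∑ i, p i • ∑ x, c l i x • ν l x = 0 := by
      have h5 : ∑ i, p i • ∑ x, c l i x • ν l x = ∑ x, (∑ i, p i * c l i x) • ν l x := by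
        simp only [Finset.smul_sum, Finset.sum_smul, smul_smul]
        exact Finset.sum_comm
      rw [h5]
      apply Finset.sum_eq_zero
      intro x _
      have h6 : Φ p ⟨l, x⟩ = 0 := by rw [hp]; rfl
      have h7 : (∑ i, p i * c l i x) = 0 := h6
      rw [h7, zero_smul]
    simp only [smul_sub, Finset.sum_sub_distrib]
    rw [h4, sub_zero, map_sum, Finset.smul_sum]
    apply Finset.sum_congr rfl
    intro i _
    rw [map_smul, smul_comm]
  rw [h3]
  exact Submodule.sum_mem _ (fun i _ => Submodule.smul_mem _ _ (hcm l i))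

end Pool.Agent.H89T
end

-- from Lib.H89T.K1
section

set_option autoImplicit false

/-!
CHUNK K1.  Counting exponents.
-/

namespace Pool.Agent.H89T

/-- CHUNK K1.  The number of exponents of degree at most `d` in `N` variables.  Proof: induction on
`N` (hockey stick), or the bijection with `Sym (Fin (N + 1)) d` (`Sym.card_sym_eq_choose`,
slack variable), or `Finset.Nat.antidiagonalTuple`. -/
theorem card_exp (ι : Type) [Fintype ι] (d : ℕ) :
    Nat.card {f : ι → ℕ // ∑ i, f i ≤ d} = (d + Fintype.card ι).choose (Fintype.card ι) := by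
  classical
  have e1 : {f : ι → ℕ // ∑ i, f i ≤ d} ≃ {P : Option ι → ℕ // ∑ i, P i = d} :=
    { toFun := fun f => ⟨fun o => o.elim (d - ∑ i, f.1 i) f.1, by
        rw [Fintype.sum_option]
        have := f.2
        simp only [Option.elim_none, Option.elim_some]
        omega⟩
      invFun := fun P => ⟨fun i => P.1 (some i), by
        have h := P.2
        rw [Fintype.sum_option] at h
        show ∑ i, P.1 (some i) ≤ d
        omega⟩
      left_inv := fun f => by
        apply Subtype.ext
        rfl
      right_inv := fun P => by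
        apply Subtype.ext
        funext o
        have h := P.2
        rw [Fintype.sum_option] at h
        cases o with
        | none =>
          simp only [Option.elim_none]
          omega
        | some i => rfl }
  have e2 := Sym.equivNatSumOfFintype (Option ι) d
  rw [Nat.card_congr (e1.trans e2.symm), Nat.card_eq_fintype_card, Sym.card_sym_eq_choose,
    Fintype.card_option]
  have : Fintype.card ι + 1 + d - 1 = d + Fintype.card ι := by omega
  rw [this, Nat.choose_symm_add]

theorem finite_exp (ι : Type) [Fintype ι] (d : ℕ) : Finite {f : ι → ℕ // ∑ i, f i ≤ d} := by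
  classical
  have h : Set.Finite (Set.Iic (fun _ : ι => d)) := Set.finite_Iic _
  refine (h.subset ?_).to_subtype
  intro f hf i
  exact (Finset.single_le_sum (f := f) (fun j _ => Nat.zero_le _) (Finset.mem_univ i)).trans hf

theorem card_le_of_box {n : ℕ} (p : (Fin n → ℕ) → Prop) (B : Fin n → ℕ)
    (h : ∀ f, p f → ∀ b, f b < B b) : Nat.card {f : Fin n → ℕ // p f} ≤ ∏ b, B b := by
  classical
  have hinj : Function.Injective (fun f : {f : Fin n → ℕ // p f} =>
      (fun b => (⟨f.1 b, h f.1 f.2 b⟩ : Fin (B b)))) := by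
    intro f g hfg
    apply Subtype.ext
    funext b
    have := congrFun hfg b
    simpa using this
  have := Nat.card_le_card_of_injective _ hinj
  refine this.trans ?_
  rw [Nat.card_eq_fintype_card, Fintype.card_pi]
  simp

/-- Lower bound: all exponents with `f i ≤ d / N`. -/
theorem card_exp_ge {n : ℕ} (hn : 1 ≤ n) (d : ℕ) :
    ((d : ℝ) / n) ^ n ≤ Nat.card {f : Fin n → ℕ // ∑ i, f i ≤ d} := by
  classical
  have hfin : Finite {f : Fin n → ℕ // ∑ i, f i ≤ d} := finite_exp (Fin n) d
  let g : (Fin n → Fin (d / n + 1)) → {f : Fin n → ℕ // ∑ i, f i ≤ d} := fun f =>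
    ⟨fun i => (f i : ℕ), by
      calc ∑ i, (f i : ℕ) ≤ ∑ _i : Fin n, d / n :=
            Finset.sum_le_sum fun i _ => Nat.lt_succ_iff.mp (f i).2
        _ = n * (d / n) := by simp
        _ ≤ d := Nat.mul_div_le d n⟩
  have hg : Function.Injective g := by
    intro f f' hff
    funext i
    have := congrFun (congrArg Subtype.val hff) i
    exact Fin.ext this
  have h1 := Nat.card_le_card_of_injective g hg
  rw [Nat.card_eq_fintype_card, Fintype.card_pi] at h1
  simp only [Fintype.card_fin, Finset.prod_const, Finset.card_univ] at h1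
  have h2 : ((d : ℝ) / n) ≤ ((d / n + 1 : ℕ) : ℝ) := by
    have hn0 : (0 : ℝ) < n := by exact_mod_cast hn
    rw [div_le_iff₀ hn0]
    have h3 : d < (d / n + 1) * n := by
      have := Nat.div_add_mod d n
      have h4 := Nat.mod_lt d hn
      nlinarith
    exact_mod_cast h3.le
  calc ((d : ℝ) / n) ^ n ≤ ((d / n + 1 : ℕ) : ℝ) ^ n :=
        pow_le_pow_left₀ (by positivity) h2 n
    _ ≤ _ := by exact_mod_cast h1

/-- Upper bound: `f i < k`, the other `n - 1` exponents at most `d`. -/
theorem card_exp_lt_one {n : ℕ} (i : Fin n) (d k : ℕ) :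
    Nat.card {f : Fin n → ℕ // ∑ i, f i ≤ d ∧ f i < k} ≤ k * (d + 1) ^ (n - 1) := by
  classical
  refine (card_le_of_box _ (fun b => if b = i then k else d + 1) ?_).trans ?_
  · rintro f ⟨h1, h2⟩ b
    by_cases hb : b = i
    · subst hb
      simpa using h2
    · simp only [hb, if_false]
      exact Nat.lt_succ_of_le ((Finset.single_le_sum (f := f) (fun j _ => Nat.zero_le _)
        (Finset.mem_univ b)).trans h1)
  · rw [← Finset.mul_prod_erase Finset.univ _ (Finset.mem_univ i)]
    simp only [if_true]
    rw [Finset.prod_congr rfl (g := fun _ => d + 1)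
      (fun b hb => by simp [Finset.ne_of_mem_erase hb])]
    simp



end Pool.Agent.H89T
end

-- from Lib.H89T.Defs
section

set_option autoImplicit false

/-!
H89T: definitions for the algebraic part (jet coordinates, Taylor normalized).  See PROOF.md.
-/

open MvPolynomial

namespace Pool.Agent.H89T

/-- The exponents of degree at most `k` in `n` variables. -/
abbrev Idx (n k : ℕ) : Type := {α : Fin n → Fin (k + 1) // ∑ b, (α b : ℕ) ≤ k}

/-- The jet variables: `(b, l)` is the `l`-th Taylor coefficient of the `b`-th coordinate. -/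
abbrev JV (n r : ℕ) : Type := Fin n × Fin (r + 1)

section General

variable {n k r : ℕ} {B : Type*} [CommRing B]

/-- The value at `x` of the polynomial of degree at most `k` with coefficients `a`. -/
def ev (a : Idx n k → B) (x : Fin n → B) : B := ∑ α, a α * ∏ b, x b ^ (α.1 b : ℕ)

/-- The value at `x` of its partial derivative with respect to the `j`-th variable. -/
def evd (j : Fin n) (a : Idx n k → B) (x : Fin n → B) : B :=
  ∑ α, a α * (((α.1 j : ℕ) : B) * ∏ b, x b ^ ((α.1 b : ℕ) - (if b = j then 1 else 0)))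

/-- The polynomial arc `∑ ξ (b, l) t ^ l` with jet `ξ`. -/
noncomputable def arc (ξ : JV n r → B) (b : Fin n) : Polynomial B :=
  ∑ l : Fin (r + 1), Polynomial.C (ξ (b, l)) * Polynomial.X ^ (l : ℕ)

/-- The composition of the polynomial with coefficients `a` with the arc of `ξ`. -/
noncomputable def Fx (a : Idx n k → B) (ξ : JV n r → B) : Polynomial B :=
  ev (fun α => Polynomial.C (a α)) (arc ξ)

/-- The same for the partial derivative with respect to the `j`-th variable. -/
noncomputable def Fdx (j : Fin n) (a : Idx n k → B) (ξ : JV n r → B) : Polynomial B :=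
  evd j (fun α => Polynomial.C (a α)) (arc ξ)

/-- The `i`-th Taylor coefficient of `F_a (x (t))`. -/
noncomputable def uu (a : Idx n k → B) (ξ : JV n r → B) (i : ℕ) : B := (Fx a ξ).coeff i

end General

section Jets

variable {n r : ℕ}

/-- The degree of a monomial in the coordinates (jets of order `0`). -/
def xd (m : JV n r →₀ ℕ) : ℕ := ∑ b : Fin n, m (b, 0)

/-- The degree of a monomial in the jets of order at least `1`. -/
def jd (m : JV n r →₀ ℕ) : ℕ := ∑ p : JV n r, if p.2 = 0 then 0 else m p

/-- The weight of a monomial: the variable `(b, l)` has weight `l + 1`. -/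
def wt (m : JV n r →₀ ℕ) : ℕ := ∑ p : JV n r, ((p.2 : ℕ) + 1) * m p

/-- The monomials with coordinate degree at most `d` and jet degree at most `M`. -/
def Mon (n r d M : ℕ) : Set (JV n r →₀ ℕ) := {m | xd m ≤ d ∧ jd m ≤ M}

/-- Polynomials in the jets all of whose monomials belong to `Mon n r d M`. -/
def HasMon {R : Type*} [CommRing R] (d M : ℕ) (P : MvPolynomial (JV n r) R) : Prop :=
  ∀ m ∈ P.support, xd m ≤ d ∧ jd m ≤ M

/-- Polynomials in the jets of weight at most `d`. -/
def HasWt {R : Type*} [CommRing R] (d : ℕ) (P : MvPolynomial (JV n r) R) : Prop :=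
  ∀ m ∈ P.support, wt m ≤ d

/-- The derivation `x_{b,l} ↦ (l + 1) x_{b,l+1}` (`0` if `l = r`) of the ring of the jets. -/
noncomputable def NN (n r : ℕ) (R : Type*) [CommRing R] :
    Derivation R (MvPolynomial (JV n r) R) (MvPolynomial (JV n r) R) :=
  mkDerivation R fun p : JV n r =>
    if h : (p.2 : ℕ) < r then ((p.2 : ℕ) + 1) • X (p.1, ⟨(p.2 : ℕ) + 1, by omega⟩) else 0

/-- The `i`-th Taylor coefficient of `F_a (x (t))`, `a` in the coefficient ring. -/
noncomputable def uR {k : ℕ} {R : Type*} [CommRing R] (a : Idx n k → R) (i : ℕ) :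
    MvPolynomial (JV n r) R :=
  uu (fun α => C (a α)) (fun p => X p) i

/-- The partial derivative `∂F_a/∂x_j`, a polynomial in the jets of order `0`. -/
noncomputable def gR {k : ℕ} {R : Type*} [CommRing R] (j : Fin n) (a : Idx n k → R) :
    MvPolynomial (JV n r) R :=
  evd j (fun α => C (a α)) (fun b => X (b, 0))

/-- Property (A): the first `q` derivatives of `P` belong to the ideal `(u 0, u 1)`. -/
def PropA {k : ℕ} {R : Type*} [CommRing R] (a : Idx n k → R) (q : ℕ)
    (P : MvPolynomial (JV n r) R) : Prop :=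
  ∀ l < q, (NN n r R)^[l] P ∈ Ideal.span {(uR a 0 : MvPolynomial (JV n r) R), uR a 1}

/-- Property (B): `P` belongs to the ideal `(u 0, ..., u r)`. -/
def PropB {k : ℕ} {R : Type*} [CommRing R] (a : Idx n k → R)
    (P : MvPolynomial (JV n r) R) : Prop :=
  P ∈ Ideal.span (Set.range fun i : Fin (r + 1) => (uR a (i : ℕ) : MvPolynomial (JV n r) R))


end Jets

/-- The ring of the coefficients of the generic polynomial of degree `k`. -/
abbrev RR (n k : ℕ) : Type := MvPolynomial (Idx n k) ℂ

/-- The coefficients of the generic polynomial. -/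
noncomputable abbrev gen (n k : ℕ) : Idx n k → RR n k := fun α => X α

/-- The universal ring: jets and coefficients. -/
abbrev AA (n k r : ℕ) : Type := MvPolynomial (JV n r ⊕ Idx n k) ℂ

section Universal

variable {n k r : ℕ}

/-- The coefficients as elements of the universal ring. -/
noncomputable def aA (α : Idx n k) : AA n k r := X (Sum.inr α)

/-- The jet variables as elements of the universal ring. -/
noncomputable def xA (p : JV n r) : AA n k r := X (Sum.inl p)

/-- `u i` in the universal ring. -/
noncomputable def uA (i : ℕ) : AA n k r := uu aA xA i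

/-- The derivation `N` of the universal ring. -/
noncomputable def NA (n k r : ℕ) : Derivation ℂ (AA n k r) (AA n k r) :=
  mkDerivation ℂ (Sum.elim (fun p : JV n r =>
    if h : (p.2 : ℕ) < r then ((p.2 : ℕ) + 1) • xA (p.1, ⟨(p.2 : ℕ) + 1, by omega⟩) else 0)
    fun _ => 0)

/-- Weight at most `d` (the coefficients `a` have weight `0`). -/
def WtA (d : ℕ) (P : AA n k r) : Prop :=
  ∀ m ∈ P.support, ∑ p : JV n r, ((p.2 : ℕ) + 1) * m (Sum.inl p) ≤ d

/-- Jet degree at most `M`. -/
def JdA (M : ℕ) (P : AA n k r) : Prop :=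
  ∀ m ∈ P.support, (∑ p : JV n r, if p.2 = 0 then 0 else m (Sum.inl p)) ≤ M

/-- The derivation `V (g, lam)`: `a_α ↦ g α`, `x_{b,l} ↦ [t ^ l] lam b`. -/
noncomputable def VV (g : Idx n k → AA n k r) (lam : Fin n → Polynomial (AA n k r)) :
    Derivation ℂ (AA n k r) (AA n k r) :=
  mkDerivation ℂ (Sum.elim (fun p : JV n r => (lam p.1).coeff (p.2 : ℕ)) g)

/-- `E (V (g, lam)) = G (x (t)) + ∑ F_b (x (t)) lam b (t)`. -/
noncomputable def EV (g : Idx n k → AA n k r) (lam : Fin n → Polynomial (AA n k r)) :
    Polynomial (AA n k r) :=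
  Fx g xA + ∑ b, Fdx b aA xA * lam b

/-- `s`-admissible fields. -/
structure Adm (s : ℕ) (g : Idx n k → AA n k r) (lam : Fin n → Polynomial (AA n k r)) : Prop where
  deg : ∀ b, (lam b).natDegree ≤ r
  mem : EV g lam ∈ Ideal.span {Fx aA xA, (Polynomial.X : Polynomial (AA n k r)) ^ s}

/-- Property (A) in the universal ring. -/
def PropAA (q : ℕ) (P : AA n k r) : Prop :=
  ∀ l < q, (NA n k r)^[l] P ∈ Ideal.span {(uA 0 : AA n k r), uA 1}

/-- Property (B) in the universal ring. -/
def PropBA (P : AA n k r) : Prop :=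
  P ∈ Ideal.span (Set.range fun i : Fin (r + 1) => (uA (i : ℕ) : AA n k r))

/-- Specialization of the coefficients. -/
noncomputable def spec (a : Idx n k → ℂ) : AA n k r →ₐ[ℂ] MvPolynomial (JV n r) ℂ :=
  aeval (Sum.elim (fun p => X p) fun α => C (a α))

/-- The evaluation of the universal ring at the coefficients `a` and the jet `ξ`. -/
noncomputable def evA (a : Idx n k → ℂ) (ξ : JV n r → ℂ) : AA n k r →ₐ[ℂ] ℂ :=
  aeval (Sum.elim ξ a)

end Universal

end Pool.Agent.H89T
end

-- from Lib.H89T.N1
section

set_option autoImplicit false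

/-!
CHUNK N1.  Naturality and elementary formulas (all easy).
-/

open MvPolynomial

namespace Pool.Agent.H89T

variable {n k r : ℕ} {B B' : Type*} [CommRing B] [CommRing B']

theorem coeff_arc (ξ : JV n r → B) (b : Fin n) (l : ℕ) :
    (arc ξ b).coeff l = if h : l < r + 1 then ξ (b, ⟨l, h⟩) else 0 := by
  unfold arc
  rw [Polynomial.finsetSum_coeff]
  simp only [Polynomial.coeff_C_mul, Polynomial.coeff_X_pow]
  split_ifs with h
  · rw [Finset.sum_eq_single (⟨l, h⟩ : Fin (r + 1))]
    · simp
    · intro c _ hc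
      have : l ≠ (c : ℕ) := fun e => hc (Fin.ext e.symm)
      simp [this]
    · intro h'
      exact absurd (Finset.mem_univ _) h'
  · apply Finset.sum_eq_zero
    intro c _
    have : l ≠ (c : ℕ) := fun e => h (e ▸ c.2)
    simp [this]

theorem arc_map (φ : B →+* B') (ξ : JV n r → B) (b : Fin n) :
    (arc ξ b).map φ = arc (fun p => φ (ξ p)) b := by
  unfold arc
  rw [Polynomial.map_sum]
  apply Finset.sum_congr rfl
  intro l _
  simp


theorem ev_map (φ : B →+* B') (a : Idx n k → B) (x : Fin n → B) :
    φ (ev a x) = ev (fun α => φ (a α)) (fun b => φ (x b)) := by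
  unfold ev
  simp [map_sum, map_mul, map_prod, map_pow]

theorem evd_map (φ : B →+* B') (j : Fin n) (a : Idx n k → B) (x : Fin n → B) :
    φ (evd j a x) = evd j (fun α => φ (a α)) (fun b => φ (x b)) := by
  unfold evd
  simp [map_sum, map_mul, map_prod, map_pow]

theorem Fx_map (φ : B →+* B') (a : Idx n k → B) (ξ : JV n r → B) :
    (Fx a ξ).map φ = Fx (fun α => φ (a α)) (fun p => φ (ξ p)) := by
  unfold Fx
  have h := ev_map (Polynomial.mapRingHom φ) (fun α => Polynomial.C (a α)) (arc ξ)
  simp only [Polynomial.coe_mapRingHom, Polynomial.map_C, arc_map] at h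
  exact h

theorem Fdx_map (φ : B →+* B') (j : Fin n) (a : Idx n k → B) (ξ : JV n r → B) :
    (Fdx j a ξ).map φ = Fdx j (fun α => φ (a α)) (fun p => φ (ξ p)) := by
  unfold Fdx
  have h := evd_map (Polynomial.mapRingHom φ) j (fun α => Polynomial.C (a α)) (arc ξ)
  simp only [Polynomial.coe_mapRingHom, Polynomial.map_C, arc_map] at h
  exact h

theorem uu_map (φ : B →+* B') (a : Idx n k → B) (ξ : JV n r → B) (i : ℕ) :
    φ (uu a ξ i) = uu (fun α => φ (a α)) (fun p => φ (ξ p)) i := by
  unfold uu
  rw [← Fx_map, Polynomial.coeff_map]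

theorem uR_map {R R' : Type*} [CommRing R] [CommRing R'] (φ : R →+* R') (a : Idx n k → R) (i : ℕ) :
    MvPolynomial.map φ (uR (r := r) a i) = uR (fun α => φ (a α)) i := by
  unfold uR
  rw [uu_map]
  simp

theorem gR_map {R R' : Type*} [CommRing R] [CommRing R'] (φ : R →+* R') (j : Fin n)
    (a : Idx n k → R) :
    MvPolynomial.map φ (gR (r := r) j a) = gR j (fun α => φ (a α)) := by
  unfold gR
  rw [evd_map]
  simp

/-- evaluation at `t = 0` -/
theorem N1_arc_zero (ξ : JV n r → B) (b : Fin n) : (arc ξ b).coeff 0 = ξ (b, 0) := by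
  rw [coeff_arc, dif_pos (Nat.succ_pos r)]
  rfl

/-- `u 0 = F_a (x)`. -/
theorem uu_zero (a : Idx n k → B) (ξ : JV n r → B) : uu a ξ 0 = ev a (fun b => ξ (b, 0)) := by
  unfold uu Fx
  have h := ev_map (Polynomial.constantCoeff (R := B)) (fun α => Polynomial.C (a α)) (arc ξ)
  simp only [Polynomial.constantCoeff_apply, Polynomial.coeff_C_zero, N1_arc_zero] at h
  exact h

/-- The chain rule `d/dt F_a (x (t)) = ∑ F_b (x (t)) x_b' (t)`. -/
theorem derivative_Fx (a : Idx n k → B) (ξ : JV n r → B) :
    Polynomial.derivative (Fx a ξ) = ∑ b, Fdx b a ξ * Polynomial.derivative (arc ξ b) := by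
  unfold Fx Fdx ev evd
  rw [Polynomial.derivative_sum]
  simp only [Finset.sum_mul]
  rw [Finset.sum_comm]
  apply Finset.sum_congr rfl
  intro α _
  rw [Polynomial.derivative_mul, Polynomial.derivative_C, zero_mul, zero_add,
    Polynomial.derivative_prod_finset, Finset.mul_sum]
  apply Finset.sum_congr rfl
  intro b _
  have key : ∏ c, arc ξ c ^ ((α.1 c : ℕ) - (if c = b then 1 else 0)) =
      (∏ c ∈ Finset.univ.erase b, arc ξ c ^ (α.1 c : ℕ)) * arc ξ b ^ ((α.1 b : ℕ) - 1) := by
    rw [← Finset.prod_erase_mul _ _ (Finset.mem_univ b), if_pos rfl]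
    congr 1
    apply Finset.prod_congr rfl
    intro c hc
    rw [if_neg (Finset.ne_of_mem_erase hc), Nat.sub_zero]
  rw [key, Polynomial.derivative_pow, Polynomial.C_eq_natCast]
  ring

theorem Fdx_zero (j : Fin n) (a : Idx n k → B) (ξ : JV n r → B) :
    (Fdx j a ξ).coeff 0 = evd j a (fun b => ξ (b, 0)) := by
  unfold Fdx
  have h := evd_map (Polynomial.constantCoeff (R := B)) j (fun α => Polynomial.C (a α)) (arc ξ)
  simp only [Polynomial.constantCoeff_apply, Polynomial.coeff_C_zero, N1_arc_zero] at h
  exact h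

/-- `u 1 = ∑ F_b (x) x_{b,1}`; `one` is the index `1` of `Fin (r + 1)`. -/
theorem uu_one (a : Idx n k → B) (ξ : JV n r → B) (one : Fin (r + 1)) (h1 : (one : ℕ) = 1) :
    uu a ξ 1 = ∑ b, evd b a (fun b => ξ (b, 0)) * ξ (b, one) := by
  have h := congrArg (fun P => Polynomial.coeff P 0) (derivative_Fx a ξ)
  simp only [Polynomial.coeff_derivative, Polynomial.finsetSum_coeff, Polynomial.mul_coeff_zero,
    Fdx_zero] at h
  unfold uu
  have h2 : ∀ b, (arc ξ b).coeff (0 + 1) = ξ (b, one) := by
    intro b
    rw [coeff_arc, dif_pos (by have := one.2; omega)]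
    congr 2
    apply Fin.ext
    simp [h1]
  simp only [h2] at h
  simpa using h

/-- `ev a x` depends on the polynomial with coefficients `a` only: it is a linear function of `a`. -/
theorem ev_add (a a' : Idx n k → B) (x : Fin n → B) :
    ev (fun α => a α + a' α) x = ev a x + ev a' x := by
  unfold ev
  simp only [add_mul, Finset.sum_add_distrib]

theorem ev_smul (c : B) (a : Idx n k → B) (x : Fin n → B) :
    ev (fun α => c * a α) x = c * ev a x := by
  unfold ev
  simp only [mul_assoc, Finset.mul_sum]

end Pool.Agent.H89T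
end

-- from Lib.H89T.CDefs
section

set_option autoImplicit false

/-!
Definitions for part C (slanted fields).
-/

open MvPolynomial

namespace Pool.Agent.H89T

section Cf

variable {A : Type} [CommRing A] [Algebra ℂ A]

/-- A derivation applied to the coefficients of a polynomial in `t`. -/
noncomputable def cf (D : Derivation ℂ A A) (p : Polynomial A) : Polynomial A :=
  p.sum fun i c => Polynomial.monomial i (D c)

theorem coeff_cf (D : Derivation ℂ A A) (p : Polynomial A) (i : ℕ) :
    (cf D p).coeff i = D (p.coeff i) := by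
  unfold cf
  rw [Polynomial.sum_def, Polynomial.finsetSum_coeff]
  simp only [Polynomial.coeff_monomial]
  rw [Finset.sum_ite_eq' p.support i (fun j => D (p.coeff j))]
  split_ifs with h
  · rfl
  · rw [Polynomial.notMem_support_iff.1 h, map_zero]

end Cf

section Poly

variable {n k r : ℕ}

/-- The exponent `α` as a finitely supported function. -/
noncomputable def fin (α : Idx n k) : Fin n →₀ ℕ :=
  Finsupp.equivFunOnFinite.symm fun b => (α.1 b : ℕ)

/-- The coefficients of a polynomial in `X_1, ..., X_n` (up to degree `k`). -/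
noncomputable def toG {B : Type} [CommRing B] (k : ℕ) (H : MvPolynomial (Fin n) B) :
    Idx n k → B := fun α => H.coeff (fin α)

/-- The generic polynomial `F_a (X)` as a polynomial over the universal ring. -/
noncomputable def FF (n k r : ℕ) : MvPolynomial (Fin n) (AA n k r) :=
  ∑ α : Idx n k, monomial (fin α) (aA α)

/-- The ideal `(X_b - x_b)`. -/
noncomputable def mI (n k r : ℕ) : Ideal (MvPolynomial (Fin n) (AA n k r)) :=
  Ideal.span (Set.range fun b : Fin n => X b - C (xA (b, 0)))

/-- All coefficients have weight at most `d`. -/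
def WtC (d : ℕ) (H : MvPolynomial (Fin n) (AA n k r)) : Prop := ∀ m, WtA d (H.coeff m)

/-- All coefficients have weight at most `d` (polynomials in `t`). -/
def WtP (d : ℕ) (h : Polynomial (AA n k r)) : Prop := ∀ i, WtA d (h.coeff i)

/-- The admissible fields of weight at most `c`. -/
def Fields (n k r c : ℕ) : Set (Derivation ℂ (AA n k r) (AA n k r)) :=
  {V | ∃ g lam, Adm (r + 1) g lam ∧ (∀ α, WtA c (g α)) ∧ (∀ b, WtP c (lam b)) ∧ V = VV g lam}

end Poly

end Pool.Agent.H89T
end

-- from Lib.H89T.C3
section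

set_option autoImplicit false

/-!
CHUNK C3.  Weights in the universal ring (about 20 easy lemmas).
-/

open MvPolynomial

namespace Pool.Agent.H89T

variable {n k r : ℕ}

/-- The weight of a monomial of the universal ring. -/
def c3w (m : JV n r ⊕ Idx n k →₀ ℕ) : ℕ := ∑ p : JV n r, ((p.2 : ℕ) + 1) * m (Sum.inl p)

theorem c3w_add (m m' : JV n r ⊕ Idx n k →₀ ℕ) : c3w (m + m') = c3w m + c3w m' := by
  unfold c3w
  rw [← Finset.sum_add_distrib]
  refine Finset.sum_congr rfl fun p _ => ?_
  rw [Finsupp.add_apply, mul_add]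

theorem c3w_zero : c3w (0 : JV n r ⊕ Idx n k →₀ ℕ) = 0 := by
  unfold c3w
  simp

theorem c3w_single_inl (p : JV n r) :
    c3w (Finsupp.single (Sum.inl p : JV n r ⊕ Idx n k) 1) = (p.2 : ℕ) + 1 := by
  classical
  unfold c3w
  rw [Finset.sum_eq_single p]
  · simp
  · intro q _ hq
    rw [Finsupp.single_apply, if_neg (fun h => hq (Sum.inl_injective h).symm), mul_zero]
  · intro h; exact absurd (Finset.mem_univ _) h

theorem c3w_single_inr (α : Idx n k) :
    c3w (Finsupp.single (Sum.inr α : JV n r ⊕ Idx n k) 1) = 0 := by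
  classical
  unfold c3w
  refine Finset.sum_eq_zero fun q _ => ?_
  rw [Finsupp.single_apply, if_neg (by simp), mul_zero]

theorem WtA.mono {d d' : ℕ} {P : AA n k r} (h : WtA d P) (hd : d ≤ d') : WtA d' P :=
  fun m hm => (h m hm).trans hd

theorem WtA.zero (d : ℕ) : WtA d (0 : AA n k r) := by
  intro m hm
  simp at hm

theorem WtA.add {d : ℕ} {P Q : AA n k r} (hP : WtA d P) (hQ : WtA d Q) : WtA d (P + Q) := by
  classical
  intro m hm
  rcases Finset.mem_union.1 (support_add hm) with h | h
  · exact hP m h
  · exact hQ m h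

theorem WtA.neg {d : ℕ} {P : AA n k r} (hP : WtA d P) : WtA d (-P) := by
  intro m hm
  rw [support_neg] at hm
  exact hP m hm

theorem WtA.sub {d : ℕ} {P Q : AA n k r} (hP : WtA d P) (hQ : WtA d Q) : WtA d (P - Q) := by
  rw [sub_eq_add_neg]
  exact hP.add hQ.neg

theorem WtA.mul {d d' : ℕ} {P Q : AA n k r} (hP : WtA d P) (hQ : WtA d' Q) :
    WtA (d + d') (P * Q) := by
  classical
  intro m hm
  obtain ⟨m1, h1, m2, h2, rfl⟩ := Finset.mem_add.1 (support_mul P Q hm)
  have e := c3w_add m1 m2
  have a := hP m1 h1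
  have b := hQ m2 h2
  change c3w (m1 + m2) ≤ d + d'
  change c3w m1 ≤ d at a
  change c3w m2 ≤ d' at b
  omega

theorem WtA.sum {ι : Type} {s : Finset ι} {d : ℕ} {P : ι → AA n k r}
    (hP : ∀ i ∈ s, WtA d (P i)) : WtA d (∑ i ∈ s, P i) := by
  classical
  induction s using Finset.induction_on with
  | empty => exact WtA.zero d
  | insert i s hi ih =>
    rw [Finset.sum_insert hi]
    exact (hP i (Finset.mem_insert_self _ _)).add
      (ih fun j hj => hP j (Finset.mem_insert_of_mem hj))

theorem WtA.monomial_le {d : ℕ} (m : JV n r ⊕ Idx n k →₀ ℕ) (c : ℂ) (hm : c3w m ≤ d) :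
    WtA d (MvPolynomial.monomial m c) := by
  classical
  intro m' hm'
  have h := support_monomial_subset hm'
  rw [Finset.mem_singleton] at h
  rw [h]
  exact hm

theorem WtA.C (c : ℂ) : WtA (n := n) (k := k) (r := r) 0 (MvPolynomial.C c) :=
  WtA.monomial_le 0 c (le_of_eq c3w_zero)

theorem WtA.natCast_mul (c : ℕ) {d : ℕ} {P : AA n k r} (hP : WtA d P) :
    WtA d ((c : AA n k r) * P) := by
  have h := (WtA.C (n := n) (k := k) (r := r) (c : ℂ)).mul hP
  rw [zero_add, map_natCast] at h
  exact h

theorem WtA.pow {d : ℕ} {P : AA n k r} (hP : WtA d P) (e : ℕ) : WtA (e * d) (P ^ e) := by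
  induction e with
  | zero =>
    rw [pow_zero, zero_mul]
    have := WtA.C (n := n) (k := k) (r := r) 1
    rwa [map_one] at this
  | succ e ih =>
    rw [pow_succ, Nat.succ_mul]
    exact ih.mul hP

theorem WtA.aA (α : Idx n k) : WtA (r := r) 0 (Pool.Agent.H89T.aA α) :=
  WtA.monomial_le _ _ (le_of_eq (c3w_single_inr α))

theorem WtA.xA (p : JV n r) : WtA (k := k) ((p.2 : ℕ) + 1) (Pool.Agent.H89T.xA p) :=
  WtA.monomial_le _ _ (le_of_eq (c3w_single_inl p))

/-- The value of a derivation on a monomial. -/
theorem c3_deriv_mem (V : Derivation ℂ (AA n k r) (AA n k r)) {c : ℕ}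
    (hV : ∀ s, WtA c (V (MvPolynomial.X s))) (m : JV n r ⊕ Idx n k →₀ ℕ) (a : ℂ) :
    WtA (c3w m + c) (V (MvPolynomial.monomial m a)) := by
  classical
  induction m using Finsupp.induction_linear generalizing a with
  | zero =>
    have : V (MvPolynomial.monomial 0 a) = 0 := by
      have h := Derivation.map_algebraMap V a
      exact h
    rw [this]
    exact WtA.zero _
  | add m1 m2 h1 h2 =>
    have h3 : (MvPolynomial.monomial (m1 + m2) a : AA n k r)
        = MvPolynomial.monomial m1 a * MvPolynomial.monomial m2 1 := by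
      rw [MvPolynomial.monomial_mul, mul_one]
    rw [h3, Derivation.leibniz, smul_eq_mul, smul_eq_mul, c3w_add]
    refine WtA.add ?_ ?_
    · have h4 := (WtA.monomial_le m1 a le_rfl).mul (h2 1)
      exact h4.mono (by omega)
    · have h4 := (WtA.monomial_le m2 1 le_rfl).mul (h1 a)
      exact h4.mono (by omega)
  | single s e =>
    induction e generalizing a with
    | zero =>
      rw [Finsupp.single_zero]
      have : V (MvPolynomial.monomial 0 a) = 0 := by
        have h := Derivation.map_algebraMap V a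
        exact h
      rw [this]
      exact WtA.zero _
    | succ e ih =>
      have h3 : (MvPolynomial.monomial (Finsupp.single s (e + 1)) a : AA n k r)
          = MvPolynomial.monomial (Finsupp.single s e) a * MvPolynomial.X s := by
        rw [MvPolynomial.X, MvPolynomial.monomial_mul, mul_one, ← Finsupp.single_add]
      have h5 : c3w (Finsupp.single s (e + 1)) = c3w (Finsupp.single s e)
          + c3w (Finsupp.single s 1) := by
        rw [Finsupp.single_add, c3w_add]
      rw [h3, Derivation.leibniz, smul_eq_mul, smul_eq_mul, h5]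
      refine WtA.add ?_ ?_
      · have h4 := (WtA.monomial_le (Finsupp.single s e) a le_rfl).mul (hV s)
        exact h4.mono (by omega)
      · have h4 := (WtA.monomial_le (Finsupp.single s 1) 1 le_rfl).mul (ih a)
        exact h4.mono (by omega)

/-- A field of weight at most `c` raises the weight by at most `c`. -/
theorem WtA.field {d c : ℕ} {g : Idx n k → AA n k r} {lam : Fin n → Polynomial (AA n k r)}
    (hg : ∀ α, WtA c (g α)) (hlam : ∀ b, WtP c (lam b)) {P : AA n k r} (hP : WtA d P) :
    WtA (d + c) (VV g lam P) := by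
  have hV : ∀ s, WtA c (VV g lam (MvPolynomial.X s)) := by
    rintro (p | α)
    · unfold VV
      rw [mkDerivation_X, Sum.elim_inl]
      exact hlam p.1 _
    · unfold VV
      rw [mkDerivation_X, Sum.elim_inr]
      exact hg α
  rw [P.as_sum, map_sum]
  refine WtA.sum fun m hm => ?_
  have h1 := hP m hm
  change c3w m ≤ d at h1
  exact (c3_deriv_mem _ hV m _).mono (by omega)

theorem WtP.mono {d d' : ℕ} {h : Polynomial (AA n k r)} (hh : WtP d h) (hd : d ≤ d') :
    WtP d' h := fun i => (hh i).mono hd

theorem WtP.add {d : ℕ} {h h' : Polynomial (AA n k r)} (hh : WtP d h) (hh' : WtP d h') :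
    WtP d (h + h') := by
  intro i
  rw [Polynomial.coeff_add]
  exact (hh i).add (hh' i)

theorem WtP.mul {d d' : ℕ} {h h' : Polynomial (AA n k r)} (hh : WtP d h) (hh' : WtP d' h') :
    WtP (d + d') (h * h') := by
  intro i
  rw [Polynomial.coeff_mul]
  exact WtA.sum fun x _ => (hh _).mul (hh' _)

theorem WtP.one : WtP 0 (1 : Polynomial (AA n k r)) := by
  intro i
  rw [Polynomial.coeff_one]
  split_ifs
  · have := WtA.C (n := n) (k := k) (r := r) 1
    rwa [map_one] at this
  · exact WtA.zero _

theorem WtP.pow {d : ℕ} {h : Polynomial (AA n k r)} (hh : WtP d h) (e : ℕ) :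
    WtP (e * d) (h ^ e) := by
  induction e with
  | zero =>
    rw [pow_zero, zero_mul]
    exact WtP.one
  | succ e ih =>
    rw [pow_succ, Nat.succ_mul]
    exact ih.mul hh

theorem WtP.arc (b : Fin n) : WtP (k := k) (r + 1) (Pool.Agent.H89T.arc (r := r) xA b) := by
  intro i
  rw [coeff_arc]
  split_ifs with h
  · exact (WtA.xA _).mono (by simp only; omega)
  · exact WtA.zero _

theorem WtC.mono {d d' : ℕ} {H : MvPolynomial (Fin n) (AA n k r)} (hH : WtC d H) (hd : d ≤ d') :
    WtC d' H := fun m => (hH m).mono hd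

theorem WtC.add {d : ℕ} {H H' : MvPolynomial (Fin n) (AA n k r)} (hH : WtC d H)
    (hH' : WtC d H') : WtC d (H + H') := by
  intro m
  rw [coeff_add]
  exact (hH m).add (hH' m)

theorem WtC.sub {d : ℕ} {H H' : MvPolynomial (Fin n) (AA n k r)} (hH : WtC d H)
    (hH' : WtC d H') : WtC d (H - H') := by
  intro m
  rw [coeff_sub]
  exact (hH m).sub (hH' m)

theorem WtC.mul {d d' : ℕ} {H H' : MvPolynomial (Fin n) (AA n k r)} (hH : WtC d H)
    (hH' : WtC d' H') : WtC (d + d') (H * H') := by
  classical
  intro m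
  rw [coeff_mul]
  exact WtA.sum fun x _ => (hH _).mul (hH' _)

theorem WtC.C {d : ℕ} {c : AA n k r} (hc : WtA d c) :
    WtC d (MvPolynomial.C c : MvPolynomial (Fin n) (AA n k r)) := by
  classical
  intro m
  rw [coeff_C]
  split_ifs
  · exact hc
  · exact WtA.zero _

theorem WtC.one : WtC 0 (1 : MvPolynomial (Fin n) (AA n k r)) := by
  have h := WtC.C (WtA.C (n := n) (k := k) (r := r) 1)
  rwa [map_one, map_one] at h

theorem WtC.pow {d : ℕ} {H : MvPolynomial (Fin n) (AA n k r)} (hH : WtC d H) (e : ℕ) :
    WtC (e * d) (H ^ e) := by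
  induction e with
  | zero =>
    rw [pow_zero, zero_mul]
    exact WtC.one
  | succ e ih =>
    rw [pow_succ, Nat.succ_mul]
    exact ih.mul hH

theorem WtC.monomial {d : ℕ} {c : AA n k r} (hc : WtA d c) (m : Fin n →₀ ℕ) :
    WtC d (MvPolynomial.monomial m c) := by
  classical
  intro m'
  rw [coeff_monomial]
  split_ifs
  · exact hc
  · exact WtA.zero _

theorem WtC.X (b : Fin n) : WtC (k := k) (r := r) 0 (MvPolynomial.X b) := by
  have h := WtC.monomial (WtA.C (n := n) (k := k) (r := r) 1) (Finsupp.single b 1)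
  rw [map_one] at h
  exact h

theorem WtC.pderiv {d : ℕ} {H : MvPolynomial (Fin n) (AA n k r)} (hH : WtC d H) (b : Fin n) :
    WtC d (MvPolynomial.pderiv b H) := by
  intro m
  rw [coeff_pderiv]
  have h := WtA.natCast_mul (m b + 1) (hH (m + Finsupp.single b 1))
  rw [mul_comm] at h
  push_cast at h
  exact h

theorem WtC.FF : WtC 0 (FF n k r) := by
  unfold Pool.Agent.H89T.FF
  intro m
  rw [coeff_sum]
  exact WtA.sum fun α _ => WtC.monomial (WtA.aA α) _ m

end Pool.Agent.H89T
end
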