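import Mathlib

/-! Merged copies (to shorten the build) of Lib.H89.Poly.Count, Lib.H89.Poly.Filtered, Lib.H89.Poly.Jets. -/

-- from Lib.H89.Poly.Count
section

set_option autoImplicit false

/-!
The number of monomials of degree at most `s` in `m` variables.
-/

open MvPolynomial Module Filter Topology

namespace Pool.Agent.H89.Poly

/-- The number of monomials of degree at most `s` in `m` variables. -/
def B (m s : ℕ) : ℕ := (m + s).choose s

theorem B_eq_multichoose (m s : ℕ) : B m s = Nat.multichoose (m + 1) s := by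
  rw [Nat.multichoose_eq, B]
  congr 1
  omega

theorem sum_multichoose (n M : ℕ) :
    ∑ i ∈ Finset.range (M + 1), Nat.multichoose n i = Nat.multichoose (n + 1) M := by
  induction M with
  | zero => simp
  | succ M ih => rw [Finset.sum_range_succ, ih, Nat.multichoose_succ_succ, add_comm]

theorem sum_B (m M : ℕ) : ∑ s ∈ Finset.range (M + 1), B m s = B (m + 1) M := by
  simp_rw [B_eq_multichoose]
  exact sum_multichoose _ _

@[simp] theorem B_zero_left (s : ℕ) : B 0 s = 1 := by simp [B]
@[simp] theorem B_zero_right (m : ℕ) : B m 0 = 1 := by simp [B]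
@[simp] theorem B_one (s : ℕ) : B 1 s = s + 1 := by
  rw [B, add_comm 1 s]
  exact Nat.choose_succ_self_right s

theorem B_pos (m s : ℕ) : 0 < B m s := Nat.choose_pos (Nat.le_add_left s m)

theorem B_succ_mul (m s : ℕ) : B m (s + 1) * (s + 1) = B m s * (m + s + 1) := by
  have := Nat.add_one_mul_choose_eq (m + s) s
  rw [B, B, ← add_assoc]
  linarith

theorem B_succ_left_mul (m s : ℕ) : B (m + 1) s * (m + 1) = B m s * (m + 1 + s) := by
  have h1 : B (m + 1) s = (m + s + 1).choose (m + 1) := by
    rw [B, show m + 1 + s = m + s + 1 by ring]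
    exact Nat.choose_symm_of_eq_add (by ring)
  have h2 : B m s = (m + s).choose m := by
    rw [B]
    exact Nat.choose_symm_of_eq_add (by ring)
  have := Nat.add_one_mul_choose_eq (m + s) m
  rw [h1, h2]
  linarith





theorem tendsto_ratio (m T : ℕ) :
    Tendsto (fun M : ℕ => (B m (M + T) : ℝ) / B m M) atTop (𝓝 1) := by
  induction T with
  | zero =>
    refine tendsto_const_nhds.congr' (Eventually.of_forall fun M => ?_)
    have : (B m M : ℝ) ≠ 0 := by exact_mod_cast (B_pos m M).ne'
    simp [this]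
  | succ T ih =>
    have h1 : Tendsto (fun M : ℕ => 1 + (m : ℝ) / ((M : ℝ) + (T + 1))) atTop (𝓝 (1 + 0)) := by
      refine tendsto_const_nhds.add ?_
      refine Tendsto.div_atTop tendsto_const_nhds ?_
      exact tendsto_atTop_add_const_right _ _ tendsto_natCast_atTop_atTop
    have h2 := h1.mul ih
    rw [add_zero, one_mul] at h2
    refine h2.congr' (Eventually.of_forall fun M => ?_)
    have h3 : (B m (M + T + 1) : ℝ) * ((M : ℝ) + T + 1) = B m (M + T) * (m + (M + T) + 1) := by
      exact_mod_cast B_succ_mul m (M + T)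
    have h4 : (B m M : ℝ) ≠ 0 := by exact_mod_cast (B_pos m M).ne'
    have h5 : (M : ℝ) + T + 1 ≠ 0 := by positivity
    have h6 : (M : ℝ) + (T + 1) ≠ 0 := by positivity
    simp only [← add_assoc]
    field_simp
    rw [eq_comm]
    linear_combination h3

theorem exists_ratio (m T D : ℕ) (M₀ : ℕ) :
    ∃ M ≥ M₀, D * B m (M + T) < (D + 1) * B m M := by
  have h1 := tendsto_ratio m T
  have h2 : ∀ᶠ M : ℕ in atTop, (B m (M + T) : ℝ) / B m M < ((D : ℝ) + 1) / (D + 1 / 2) := by
    refine h1.eventually_lt_const ?_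
    rw [one_lt_div (by positivity)]
    linarith
  obtain ⟨M, hM, hM0⟩ := (h2.and (eventually_ge_atTop M₀)).exists
  refine ⟨M, hM0, ?_⟩
  have h4 : (0 : ℝ) < B m M := by exact_mod_cast B_pos m M
  have h5 : (0 : ℝ) < B m (M + T) := by exact_mod_cast B_pos m (M + T)
  rw [div_lt_div_iff₀ h4 (by positivity)] at hM
  have h6 : (D : ℝ) * B m (M + T) < (D + 1) * B m M := by nlinarith
  exact_mod_cast h6

theorem exists_growth (m T K : ℕ) (M₀ : ℕ) :
    ∃ M ≥ M₀, K * B m (M + T) < B (m + 1) M := by
  obtain ⟨M, hM, h⟩ := exists_ratio m T 1 (max M₀ (2 * K * (m + 1)))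
  refine ⟨M, (le_max_left _ _).trans hM, ?_⟩
  have hM' : 2 * K * (m + 1) ≤ M := (le_max_right _ _).trans hM
  have h1 := B_succ_left_mul m M
  have h2 := B_pos m M
  have h3 : K * B m (M + T) * (m + 1) < B (m + 1) M * (m + 1) := by
    rw [h1]
    calc K * B m (M + T) * (m + 1) ≤ K * (2 * B m M) * (m + 1) := by
          refine Nat.mul_le_mul_right _ (Nat.mul_le_mul_left _ ?_)
          omega
      _ = (2 * K * (m + 1)) * B m M := by ring
      _ ≤ M * B m M := Nat.mul_le_mul_right _ hM'
      _ < B m M * (m + 1 + M) := by nlinarith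
  exact lt_of_mul_lt_mul_right h3 (Nat.zero_le _)

theorem finrank_restrict (m s : ℕ) :
    finrank ℂ ↥(restrictTotalDegree (Fin m) ℂ s) = B m s := by
  classical
  have h1 := Module.finrank_eq_nat_card_basis
    (basisRestrictSupport ℂ {n : Fin m →₀ ℕ | (n.sum fun _ e => e) ≤ s})
  have h2 : Nat.card ↑{n : Fin m →₀ ℕ | (n.sum fun _ e => e) ≤ s} = B m s := by
    have h3 : {n : Fin m →₀ ℕ | (n.sum fun _ e => e) ≤ s} =
        ↑((Finset.range (s + 1)).biUnion fun i => (Finset.univ : Finset (Fin m)).finsuppAntidiag i) := by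
      ext n
      simp only [Set.mem_ofPred_eq, Finset.coe_biUnion, Finset.coe_range, Set.mem_Iio,
        Set.mem_iUnion, Finset.mem_coe, Finset.mem_finsuppAntidiag, Finset.subset_univ, and_true,
        exists_prop]
      constructor
      · intro h
        refine ⟨_, Nat.lt_succ_of_le h, ?_⟩
        rw [Finsupp.sum_fintype _ _ (fun _ => rfl)]
      · rintro ⟨i, hi, h⟩
        rw [Finsupp.sum_fintype _ _ (fun _ => rfl)]
        exact h.trans_le (Nat.lt_succ_iff.mp hi)
    rw [h3, Nat.card_coe_set_eq, Set.ncard_coe_finset, Finset.card_biUnion]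
    · simp_rw [Finset.card_finsuppAntidiag_nat_eq_multichoose]
      rw [sum_multichoose, B_eq_multichoose, Finset.card_univ, Fintype.card_fin]
    · intro i _ j _ hij
      rw [Function.onFun, Finset.disjoint_left]
      intro x hx hx'
      rw [Finset.mem_finsuppAntidiag] at hx hx'
      exact hij (hx.1.symm.trans hx'.1)
  rw [← h2]
  exact h1

end Pool.Agent.H89.Poly
end

-- from Lib.H89.Poly.Filtered
section

set_option autoImplicit false

/-!
Filtered algebras which are finite over a polynomial ring, with control of the degrees.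
-/

open MvPolynomial Module

namespace Pool.Agent.H89.Poly

/-- Polynomials in `n` variables over the complex numbers. -/
abbrev MP (n : ℕ) := MvPolynomial (Fin n) ℂ

/-- An exhaustive algebra filtration by finite-dimensional subspaces. -/
structure IsFilt {A : Type*} [CommRing A] [Algebra ℂ A] (F : ℕ → Submodule ℂ A) : Prop where
  mono : Monotone F
  one_mem : (1 : A) ∈ F 0
  mul_mem : ∀ {s t : ℕ} {x y : A}, x ∈ F s → y ∈ F t → x * y ∈ F (s + t)
  exh : ∀ x : A, ∃ s, x ∈ F s
  fin : ∀ s, FiniteDimensional ℂ (F s)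

namespace IsFilt

variable {A : Type*} [CommRing A] [Algebra ℂ A] {F : ℕ → Submodule ℂ A} (hF : IsFilt F)

include hF

theorem pow_mem {x : A} {s : ℕ} (hx : x ∈ F s) (k : ℕ) : x ^ k ∈ F (k * s) := by
  induction k with
  | zero => simpa using hF.one_mem
  | succ k ih =>
    rw [pow_succ, add_mul, one_mul]
    exact hF.mul_mem ih hx

theorem prod_mem {ι : Type*} (S : Finset ι) (x : ι → A) (k : ι → ℕ) (h : ∀ i ∈ S, x i ∈ F (k i)) :
    ∏ i ∈ S, x i ∈ F (∑ i ∈ S, k i) := by
  classical
  induction S using Finset.induction_on with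
  | empty => simpa using hF.one_mem
  | insert a S ha ih =>
    rw [Finset.prod_insert ha, Finset.sum_insert ha]
    exact hF.mul_mem (h a (Finset.mem_insert_self _ _))
      (ih fun i hi => h i (Finset.mem_insert_of_mem hi))

theorem aeval_mem {m : ℕ} (u : Fin m → A) (hu : ∀ i, u i ∈ F 1) (c : MP m) {s : ℕ}
    (hc : c.totalDegree ≤ s) : aeval u c ∈ F s := by
  rw [aeval_def, eval₂_eq']
  refine Submodule.sum_mem _ fun d hd => ?_
  have h1 : ∏ i, u i ^ d i ∈ F (∑ i, d i) := by
    refine hF.prod_mem _ _ _ fun i _ => ?_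
    have := hF.pow_mem (hu i) (d i)
    rwa [mul_one] at this
  have h2 : ∑ i, d i ≤ s := by
    have h3 := le_totalDegree hd
    rw [Finsupp.sum_fintype _ _ (fun _ => rfl)] at h3
    exact h3.trans hc
  rw [← Algebra.smul_def]
  exact Submodule.smul_mem _ _ (hF.mono h2 h1)

theorem exists_forall_mem {ι : Type*} [Finite ι] (x : ι → A) : ∃ t, ∀ i, x i ∈ F t := by
  classical
  have := Fintype.ofFinite ι
  choose k hk using fun i => hF.exh (x i)
  exact ⟨Finset.univ.sup k, fun i => hF.mono (Finset.le_sup (Finset.mem_univ i)) (hk i)⟩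

end IsFilt

theorem isFilt_restrict (m : ℕ) : IsFilt fun s => restrictTotalDegree (Fin m) ℂ s where
  mono s t hst x hx := by
    rw [mem_restrictTotalDegree] at hx ⊢
    exact hx.trans hst
  one_mem := by
    rw [mem_restrictTotalDegree]
    simp
  mul_mem {s t x y} hx hy := by
    rw [mem_restrictTotalDegree] at hx hy ⊢
    exact (totalDegree_mul _ _).trans (add_le_add hx hy)
  exh x := ⟨x.totalDegree, by rw [mem_restrictTotalDegree]⟩
  fin s := inferInstance

/-- A filtered algebra over a polynomial ring, finite over it with control of the degrees. -/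
structure FData (m : ℕ) {A : Type*} [CommRing A] [Algebra ℂ A] [Algebra (MP m) A]
    (F : ℕ → Submodule ℂ A) : Prop extends IsFilt F where
  X_mem : ∀ i : Fin m, algebraMap (MP m) A (X i) ∈ F 1
  inj : Function.Injective (algebraMap (MP m) A)
  noe : ∃ t, ∀ s ≥ t, F (s + 1) ≤
    F s ⊔ ⨆ i : Fin m, (F s).map (LinearMap.mulLeft ℂ (algebraMap (MP m) A (X i)))

variable {m : ℕ} {A : Type*} [CommRing A] [Algebra ℂ A] [Algebra (MP m) A]
  [IsScalarTower ℂ (MP m) A] {F : ℕ → Submodule ℂ A}

theorem algebraMap_eq_aeval (c : MP m) :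
    algebraMap (MP m) A c = aeval (fun i => algebraMap (MP m) A (X i)) c := by
  have h : IsScalarTower.toAlgHom ℂ (MP m) A = aeval (fun i => algebraMap (MP m) A (X i)) := by
    ext i
    simp
  exact DFunLike.congr_fun h c

theorem FData.algebraMap_mem (h : FData m F) {c : MP m} {s : ℕ} (hc : c.totalDegree ≤ s) :
    algebraMap (MP m) A c ∈ F s := by
  rw [algebraMap_eq_aeval]
  exact h.toIsFilt.aeval_mem _ h.X_mem c hc

theorem FData.smul_mem (h : FData m F) {c : MP m} {s t : ℕ} (hc : c.totalDegree ≤ s) {x : A}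
    (hx : x ∈ F t) : c • x ∈ F (s + t) := by
  rw [Algebra.smul_def]
  exact h.toIsFilt.mul_mem (h.algebraMap_mem hc) hx

theorem FData.exists_gens (h : FData m F) : ∃ (N : ℕ) (g : Fin N → A), ∀ s, ∀ x ∈ F s,
    ∃ c : Fin N → MP m, (∀ j, (c j).totalDegree ≤ s) ∧ x = ∑ j, c j • g j := by
  obtain ⟨t, ht⟩ := h.noe
  have := h.fin t
  let b := Module.finBasis ℂ (F t)
  refine ⟨_, fun j => (b j : A), ?_⟩
  let Ψ : (Fin (finrank ℂ (F t)) → MP m) →ₗ[ℂ] A :=
    (Fintype.linearCombination (MP m) (fun j => (b j : A))).restrictScalars ℂ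
  let R : ℕ → Submodule ℂ A := fun s =>
    (Submodule.pi Set.univ (fun _ => restrictTotalDegree (Fin m) ℂ s)).map Ψ
  have hR : ∀ s x, x ∈ R s ↔ ∃ c : Fin (finrank ℂ (F t)) → MP m,
      (∀ j, (c j).totalDegree ≤ s) ∧ x = ∑ j, c j • (b j : A) := by
    intro s x
    simp only [R, Submodule.mem_map, Submodule.mem_pi, Set.mem_univ, true_imp_iff,
      mem_restrictTotalDegree]
    constructor
    · rintro ⟨c, hc, rfl⟩
      exact ⟨c, hc, Fintype.linearCombination_apply _ _ _⟩
    · rintro ⟨c, hc, rfl⟩
      exact ⟨c, hc, Fintype.linearCombination_apply _ _ _⟩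
  have hRm : Monotone R := by
    intro s s' hs x hx
    rw [hR] at hx ⊢
    obtain ⟨c, hc, h1⟩ := hx
    exact ⟨c, fun j => (hc j).trans hs, h1⟩
  have key : ∀ s, F (t + s) ≤ R s := by
    intro s
    induction s with
    | zero =>
      intro x hx
      rw [hR]
      refine ⟨fun j => C (b.repr ⟨x, hx⟩ j), fun j => by simp, ?_⟩
      have h1 := b.sum_repr ⟨x, hx⟩
      have h2 : (∑ i, b.repr ⟨x, hx⟩ i • b i : F t).1 = x := congrArg (Subtype.val) h1
      refine h2.symm.trans ?_
      rw [Submodule.coe_sum]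
      refine Finset.sum_congr rfl fun j _ => ?_
      rw [← MvPolynomial.algebraMap_eq, algebraMap_smul]
      rfl
    | succ s ih =>
      refine (ht (t + s) (Nat.le_add_right _ _)).trans (sup_le (ih.trans (hRm (Nat.le_succ s))) ?_)
      refine iSup_le fun i => ?_
      rintro _ ⟨x, hx, rfl⟩
      obtain ⟨c, hc, h1⟩ := (hR _ _).mp (ih hx)
      rw [hR]
      refine ⟨fun j => X i * c j, fun j => ?_, ?_⟩
      · refine (totalDegree_mul _ _).trans ?_
        rw [totalDegree_X]
        have := hc j
        omega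
      · rw [LinearMap.mulLeft_apply, h1, Finset.mul_sum]
        refine Finset.sum_congr rfl fun j _ => ?_
        rw [Algebra.smul_def, Algebra.smul_def, map_mul, mul_assoc]
  intro s x hx
  exact (hR _ _).mp (key s (h.mono (Nat.le_add_left _ _) hx))

theorem FData.finite (h : FData m F) : Module.Finite (MP m) A := by
  classical
  obtain ⟨N, g, hg⟩ := h.exists_gens
  refine ⟨⟨Finset.univ.image g, ?_⟩⟩
  rw [eq_top_iff]
  intro x _
  obtain ⟨s, hs⟩ := h.exh x
  obtain ⟨c, -, rfl⟩ := hg s x hs
  refine Submodule.sum_mem _ fun j _ => Submodule.smul_mem _ _ (Submodule.subset_span ?_)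
  simp

theorem FData.card_mul_le (h : FData m F) {ι : Type*} [Fintype ι] {f : ι → A}
    (hf : LinearIndependent (MP m) f) {t : ℕ} (ht : ∀ i, f i ∈ F t) (s : ℕ) :
    Fintype.card ι * B m s ≤ finrank ℂ (F (t + s)) := by
  classical
  have := h.fin (t + s)
  let Ψ : (ι → restrictTotalDegree (Fin m) ℂ s) →ₗ[ℂ] F (t + s) :=
    LinearMap.codRestrict _ (((Fintype.linearCombination (MP m) f).restrictScalars ℂ).comp
      (LinearMap.pi fun i => (Submodule.subtype _).comp (LinearMap.proj i))) (by
      intro c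
      rw [LinearMap.comp_apply, LinearMap.restrictScalars_apply,
        Fintype.linearCombination_apply]
      refine Submodule.sum_mem _ fun i _ => ?_
      rw [add_comm t s]
      refine h.smul_mem ?_ (ht i)
      exact (mem_restrictTotalDegree _ _ _).mp (c i).2)
  have hΨ : Function.Injective Ψ := by
    rw [injective_iff_map_eq_zero]
    intro c hc
    have h1 : ∑ i, (c i : MP m) • f i = 0 := by
      have := congrArg Subtype.val hc
      simpa [Ψ, Fintype.linearCombination_apply] using this
    ext1 i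
    exact Subtype.ext (Fintype.linearIndependent_iff.mp hf _ h1 i)
  have h2 := LinearMap.finrank_le_finrank_of_injective hΨ
  rw [Module.finrank_pi_fintype] at h2
  simpa [finrank_restrict] using h2

/-- Lower bound for the growth. -/
theorem FData.exists_le (h : FData m F) :
    ∃ t, ∀ s, finrank (MP m) A * B m s ≤ finrank ℂ (F (t + s)) := by
  obtain ⟨f, hf⟩ := exists_linearIndependent_of_le_finrank (le_refl (finrank (MP m) A))
  obtain ⟨t, ht⟩ := h.toIsFilt.exists_forall_mem f
  exact ⟨t, fun s => by simpa using h.card_mul_le hf ht s⟩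

end Pool.Agent.H89.Poly
end

-- from Lib.H89.Poly.Jets
section

set_option autoImplicit false

/-!
Upper bounds for the growth of a filtered algebra finite over a polynomial ring.
-/

open MvPolynomial Module

namespace Pool.Agent.H89.Poly

/-- Translation by `p`. -/
noncomputable def transl {m : ℕ} (p : Fin m → ℂ) : MP m ≃ₐ[ℂ] MP m :=
  AlgEquiv.ofAlgHom (aeval fun i => X i + C (p i)) (aeval fun i => X i - C (p i))
    (by ext i; simp) (by ext i; simp)

theorem transl_apply {m : ℕ} (p : Fin m → ℂ) (c : MP m) :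
    transl p c = aeval (fun i => X i + C (p i)) c := rfl

theorem totalDegree_transl_le {m : ℕ} (p : Fin m → ℂ) (c : MP m) :
    (transl p c).totalDegree ≤ c.totalDegree := by
  rw [← mem_restrictTotalDegree, transl_apply]
  refine (isFilt_restrict m).aeval_mem _ (fun i => ?_) c le_rfl
  rw [mem_restrictTotalDegree]
  refine (totalDegree_add _ _).trans ?_
  rw [totalDegree_X, totalDegree_C]
  simp

theorem constantCoeff_transl {m : ℕ} (p : Fin m → ℂ) (c : MP m) :
    constantCoeff (transl p c) = eval p c := by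
  have h : (constantCoeff : MP m →+* ℂ).comp (transl p : MP m →ₐ[ℂ] MP m).toRingHom = eval p := by
    ext i
    · have h1 : transl p (C i) = C i := (transl p).commutes i
      simp [h1]
    · simp [transl_apply]
  exact RingHom.congr_fun h c

theorem mem_idealOfVars_iff {m : ℕ} (c : MP m) :
    c ∈ idealOfVars (Fin m) ℂ ↔ constantCoeff c = 0 := by
  have h := mem_pow_idealOfVars_iff' (σ := Fin m) (R := ℂ) 1 c
  rw [pow_one] at h
  rw [h, constantCoeff_eq]
  constructor
  · intro h
    exact h 0 (by simp)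
  · intro h x hx
    have : x = 0 := by
      rw [← Finsupp.degree_eq_zero_iff]
      omega
    rw [this]
    exact h

theorem isMaximal_idealOfVars (m : ℕ) : (idealOfVars (Fin m) ℂ).IsMaximal := by
  have h : idealOfVars (Fin m) ℂ = RingHom.ker (constantCoeff : MP m →+* ℂ) := by
    ext c
    rw [mem_idealOfVars_iff, RingHom.mem_ker]
  rw [h]
  exact RingHom.ker_isMaximal_of_surjective _ fun z => ⟨C z, by simp⟩

theorem mem_pow_of_mul_mem {m N : ℕ} {D a : MP m} (hD : constantCoeff D ≠ 0)
    (h : D * a ∈ idealOfVars (Fin m) ℂ ^ N) : a ∈ idealOfVars (Fin m) ℂ ^ N := by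
  rcases Nat.eq_zero_or_pos N with h0 | h0
  · rw [h0, pow_zero, Ideal.one_eq_top]
    exact Submodule.mem_top
  have hmax := isMaximal_idealOfVars m
  have hrad : (idealOfVars (Fin m) ℂ ^ N).radical = idealOfVars (Fin m) ℂ := by
    rw [Ideal.radical_pow _ h0.ne', hmax.isPrime.radical]
  have hp : (idealOfVars (Fin m) ℂ ^ N).IsPrimary :=
    Ideal.isPrimary_of_isMaximal_radical (by rwa [hrad])
  rcases (Ideal.isPrimary_iff.mp hp).2 (by rwa [mul_comm] at h) with h1 | h1
  · exact h1
  · rw [hrad, mem_idealOfVars_iff] at h1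
    exact absurd h1 hD

theorem eq_zero_of_mem_pow {m N : ℕ} {a : MP m} (h : a ∈ idealOfVars (Fin m) ℂ ^ N)
    (hd : a.totalDegree < N) : a = 0 := by
  by_contra hne
  obtain ⟨x, hx⟩ := Finset.nonempty_iff_ne_empty.mpr (mt MvPolynomial.support_eq_empty.mp hne)
  have h1 := (mem_pow_idealOfVars_iff _ _).mp h x hx
  have h2 := le_totalDegree hx
  have h3 : (x.sum fun _ e => e) = x.degree := rfl
  omega

/-- The index set of the monomials of degree at most `b`. -/
abbrev Mon (m b : ℕ) := {x : Fin m →₀ ℕ | (x.sum fun _ e => e) ≤ b}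

theorem card_Mon (m b : ℕ) : Nat.card (Mon m b) = B m b := by
  rw [← finrank_restrict]
  exact (Module.finrank_eq_nat_card_basis (basisRestrictSupport ℂ _)).symm

theorem finite_Mon (m b : ℕ) : Finite (Mon m b) := by
  have h : Nat.card (Mon m b) ≠ 0 := by
    rw [card_Mon]
    exact (B_pos m b).ne'
  exact Nat.finite_of_card_ne_zero h

variable {m : ℕ} {A : Type*} [CommRing A] [IsDomain A] [Algebra ℂ A] [Algebra (MP m) A]
  [IsScalarTower ℂ (MP m) A] {F : ℕ → Submodule ℂ A}

/-- A common denominator for finitely many elements torsion over a submodule. -/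
theorem exists_common {R M ι : Type*} [CommRing R] [IsDomain R] [AddCommGroup M] [Module R M]
    [Finite ι] (N : Submodule R M) (v : ι → M) (h : ∀ i, ∃ a : R, a ≠ 0 ∧ a • v i ∈ N) :
    ∃ D : R, D ≠ 0 ∧ ∀ i, D • v i ∈ N := by
  classical
  have := Fintype.ofFinite ι
  choose a ha h1 using h
  refine ⟨∏ i, a i, Finset.prod_ne_zero_iff.mpr fun i _ => ha i, fun i => ?_⟩
  rw [← Finset.prod_erase_mul _ _ (Finset.mem_univ i), mul_smul]
  exact N.smul_mem _ (h1 i)

omit [IsDomain A] in
theorem FData.exists_denominator (h : FData m F) :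
    ∃ (ι : Type) (_ : Fintype ι) (f : ι → A) (D : MP m) (c₀ : ℕ), LinearIndependent (MP m) f ∧
      D ≠ 0 ∧ (∀ x, D • x ∈ Submodule.span (MP m) (Set.range f)) ∧
      ∀ s, ∀ x ∈ F s, ∃ a : ι → MP m, (∀ i, (a i).totalDegree ≤ s + c₀) ∧
        D • x = ∑ i, a i • f i := by
  classical
  obtain ⟨N, g, hg⟩ := h.exists_gens
  obtain ⟨S, hS, hmax⟩ := exists_maximal_linearIndepOn (R := MP m) g
  have := Fintype.ofFinite S
  obtain ⟨D, hD, h1⟩ := exists_common (Submodule.span (MP m) (g '' S)) g (by
    intro i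
    by_cases hi : i ∈ S
    · exact ⟨1, one_ne_zero, by
        rw [one_smul]; exact Submodule.subset_span ⟨i, hi, rfl⟩⟩
    · exact hmax i hi)
  have himg : g '' S = Set.range (fun i : S => g i) := by
    rw [Set.image_eq_range]
  rw [himg] at h1
  have h2 : ∀ j, ∃ d : S → MP m, ∑ i, d i • g i = D • g j := by
    intro j
    have := h1 j
    rwa [Submodule.mem_span_range_iff_exists_fun] at this
  choose d hd using h2
  refine ⟨S, inferInstance, fun i => g i, D, Finset.univ.sup fun j => Finset.univ.sup fun i =>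
    (d j i).totalDegree, hS, hD, ?_, ?_⟩
  · intro x
    obtain ⟨s, hs⟩ := h.exh x
    obtain ⟨c, -, rfl⟩ := hg s x hs
    rw [Finset.smul_sum]
    refine Submodule.sum_mem _ fun j _ => ?_
    rw [smul_comm]
    exact Submodule.smul_mem _ _ (h1 j)
  · intro s x hx
    obtain ⟨c, hc, rfl⟩ := hg s x hx
    refine ⟨fun i => ∑ j, c j * d j i, fun i => ?_, ?_⟩
    · refine totalDegree_finsetSum_le fun j _ => ?_
      refine (totalDegree_mul _ _).trans (add_le_add (hc j) ?_)
      have h3 : (d j i).totalDegree ≤ Finset.univ.sup fun i => (d j i).totalDegree :=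
        Finset.le_sup (f := fun i => (d j i).totalDegree) (Finset.mem_univ i)
      exact h3.trans (Finset.le_sup (f := fun j => Finset.univ.sup fun i => (d j i).totalDegree)
        (Finset.mem_univ j))
    · rw [Finset.smul_sum]
      simp_rw [Finset.sum_smul]
      rw [Finset.sum_comm]
      refine Finset.sum_congr rfl fun j _ => ?_
      rw [smul_comm, ← hd j, Finset.smul_sum]
      refine Finset.sum_congr rfl fun i _ => ?_
      rw [mul_smul]

/-- The key vanishing argument: if all the coefficients of `D' x` vanish to order more than `b`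
at a point where `D'` does not vanish and `x` has degree at most `b` then `x = 0`. -/
theorem FData.eq_zero_of_jets (h : FData m F) {b : ℕ} {x : A} (hx : x ∈ F b) (p : Fin m → ℂ)
    {D' : MP m} (hD' : eval p D' ≠ 0)
    (hxp : D' • x ∈ ((idealOfVars (Fin m) ℂ ^ (b + 1)).comap (transl p)) •
      (⊤ : Submodule (MP m) A)) : x = 0 := by
  classical
  obtain ⟨ι, _, f, D, c₀, hf, hD, hDf, hfa⟩ := h.exists_denominator
  set J := idealOfVars (Fin m) ℂ with hJ
  have hcomap : ∀ k : ℕ, ((J ^ (b + 1)).comap (transl p)) ^ k = (J ^ ((b + 1) * k)).comap (transl p) := by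
    intro k
    have h1 : ∀ I : Ideal (MP m), I.comap (transl p) = I.map (transl p).symm := by
      intro I
      exact (Ideal.map_symm (transl p).toRingEquiv).symm
    rw [h1, h1, ← Ideal.map_pow, ← pow_mul]
  set k := c₀ + 1 with hk
  -- the power
  have h1 : (D' • x) ^ k ∈ ((J ^ ((b + 1) * k)).comap (transl p)) • (⊤ : Submodule (MP m) A) := by
    rw [Ideal.smul_top_eq_map, Submodule.restrictScalars_mem] at hxp ⊢
    rw [← hcomap, Ideal.map_pow]
    exact Ideal.pow_mem_pow hxp k
  have h2 : D • (D' • x) ^ k ∈ ((J ^ ((b + 1) * k)).comap (transl p)) •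
      Submodule.span (MP m) (Set.range f) := by
    refine Submodule.smul_induction_on h1 ?_ ?_
    · intro r hr n _
      rw [smul_comm]
      exact Submodule.smul_mem_smul hr (hDf n)
    · intro y z hy hz
      rw [smul_add]
      exact add_mem hy hz
  obtain ⟨b', hb', h3⟩ := (Submodule.mem_ideal_smul_span_iff_exists_sum _ _ _).mp h2
  obtain ⟨a, ha, h4⟩ := hfa (k * b) (x ^ k) (h.toIsFilt.pow_mem hx k)
  have h5 : ∑ i, b' i • f i = ∑ i, (D' ^ k * a i) • f i := by
    rw [← Finsupp.sum_fintype b' (fun i c => c • f i) (fun i => zero_smul _ _), h3, smul_pow,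
      smul_comm, h4, Finset.smul_sum]
    exact Finset.sum_congr rfl fun i _ => (mul_smul _ _ _).symm
  have h6 : ∀ i, a i = 0 := by
    intro i
    have h7 : b' i = D' ^ k * a i := by
      have h8 := Fintype.linearIndependent_iff.mp hf (fun i => b' i - D' ^ k * a i) (by
        simp_rw [sub_smul]
        rw [Finset.sum_sub_distrib, h5, sub_self]) i
      exact sub_eq_zero.mp h8
    have h8 := hb' i
    rw [h7, Ideal.mem_comap, map_mul, map_pow] at h8
    have h9 : transl p (a i) ∈ J ^ ((b + 1) * k) := by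
      refine mem_pow_of_mul_mem ?_ h8
      rw [map_pow, constantCoeff_transl]
      exact pow_ne_zero _ hD'
    have h10 : transl p (a i) = 0 := by
      refine eq_zero_of_mem_pow h9 ?_
      refine (totalDegree_transl_le p (a i)).trans_lt ((ha i).trans_lt ?_)
      rw [hk]
      nlinarith
    exact (map_eq_zero_iff _ (transl p).injective).mp h10
  have h7 : D • x ^ k = 0 := by
    rw [h4]
    exact Finset.sum_eq_zero fun i _ => by rw [h6 i, zero_smul]
  rw [Algebra.smul_def] at h7
  rcases mul_eq_zero.mp h7 with h8 | h8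
  · exact absurd ((map_eq_zero_iff _ h.inj).mp h8) hD
  · exact pow_eq_zero_iff (by omega) |>.mp h8

/-- **Lemma U'.** -/
theorem FData.exists_rho (h : FData m F) (b : ℕ) : ∃ ρ ≤ finrank (MP m) A,
    finrank ℂ (F b) ≤ ρ * B m b ∧ ∀ s, ρ * B m s ≤ finrank ℂ (F (b + s)) := by
  classical
  have := h.fin b
  have := h.finite
  have := finite_Mon m b
  let e := Module.finBasis ℂ (F b)
  let v : Fin (finrank ℂ (F b)) → A := fun i => (e i : A)
  obtain ⟨S, hS, hmax⟩ := exists_maximal_linearIndepOn (R := MP m) v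
  have := Fintype.ofFinite S
  refine ⟨Fintype.card S, ?_, ?_, fun s => ?_⟩
  · exact LinearIndependent.fintype_card_le_finrank hS
  · by_contra hcon
    push Not at hcon
    obtain ⟨D, hD, h1⟩ := exists_common (Submodule.span (MP m) (v '' S)) v (by
      intro i
      by_cases hi : i ∈ S
      · exact ⟨1, one_ne_zero, by
          rw [one_smul]; exact Submodule.subset_span ⟨i, hi, rfl⟩⟩
      · exact hmax i hi)
    have himg : v '' S = Set.range (fun i : S => v i) := by
      rw [Set.image_eq_range]
    rw [himg] at h1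
    have h2 : ∀ j, ∃ d : S → MP m, ∑ i, d i • v i = D • v j := by
      intro j
      have := h1 j
      rwa [Submodule.mem_span_range_iff_exists_fun] at this
    choose d hd using h2
    let c : F b →ₗ[ℂ] (S → MP m) := e.constr ℂ d
    have hc : ∀ x : F b, ∑ i, c x i • v i = D • (x : A) := by
      intro x
      have h3 : ((Fintype.linearCombination (MP m) (fun i : S => v i)).restrictScalars ℂ).comp c =
          (LinearMap.lsmul (MP m) A D).restrictScalars ℂ ∘ₗ (F b).subtype := by
        refine e.ext fun j => ?_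
        simp only [c, LinearMap.comp_apply, Basis.constr_basis, LinearMap.restrictScalars_apply,
          Fintype.linearCombination_apply, hd, Submodule.subtype_apply, LinearMap.lsmul_apply]
        rfl
      have h4 := LinearMap.congr_fun h3 x
      simpa [Fintype.linearCombination_apply] using h4
    obtain ⟨p, hp⟩ : ∃ p : Fin m → ℂ, eval p D ≠ 0 := by
      by_contra hcon2
      push Not at hcon2
      exact hD (MvPolynomial.funext fun p => by rw [hcon2 p, map_zero])
    let T : F b →ₗ[ℂ] (S → Mon m b → ℂ) := LinearMap.pi fun l => LinearMap.pi fun x =>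
      (MvPolynomial.lcoeff ℂ x.1) ∘ₗ (transl p).toLinearMap ∘ₗ (LinearMap.proj l) ∘ₗ c
    have hT : ∃ x : F b, x ≠ 0 ∧ T x = 0 := by
      have h5 : finrank ℂ (S → Mon m b → ℂ) < finrank ℂ (F b) := by
        have := Fintype.ofFinite (Mon m b)
        rw [Module.finrank_pi_fintype, Finset.sum_const, Finset.card_univ, smul_eq_mul,
          Module.finrank_pi, ← Nat.card_eq_fintype_card (α := Mon m b), card_Mon]
        exact hcon
      obtain ⟨x, hx, hx0⟩ := Submodule.exists_mem_ne_zero_of_ne_bot
        (LinearMap.ker_ne_bot_of_finrank_lt h5)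
      exact ⟨x, hx0, hx⟩
    obtain ⟨x, hx0, hTx⟩ := hT
    refine hx0 (Subtype.ext (h.eq_zero_of_jets x.2 p hp ?_))
    rw [← hc x]
    refine Submodule.sum_mem _ fun l _ => Submodule.smul_mem_smul ?_ Submodule.mem_top
    rw [Ideal.mem_comap, mem_pow_idealOfVars_iff']
    intro y hy
    have h6 := congrFun (congrFun hTx l) ⟨y, Nat.lt_succ_iff.mp hy⟩
    simpa [T] using h6
  · exact h.card_mul_le (f := fun i : S => v i) hS (t := b) (fun i => (e i).2) s

/-- Upper bound for the growth. -/
theorem FData.le_rank_mul (h : FData m F) (s : ℕ) :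
    finrank ℂ (F s) ≤ finrank (MP m) A * B m s := by
  obtain ⟨ρ, hρ, h1, -⟩ := h.exists_rho s
  exact h1.trans (Nat.mul_le_mul_right _ hρ)

theorem FData.mul_le_mul (h : FData m F) (b s : ℕ) :
    finrank ℂ (F b) * B m s ≤ finrank ℂ (F (b + s)) * B m b := by
  obtain ⟨ρ, hρ, h1, h2⟩ := h.exists_rho b
  calc finrank ℂ (F b) * B m s ≤ ρ * B m b * B m s := Nat.mul_le_mul_right _ h1
    _ = ρ * B m s * B m b := by ring
    _ ≤ _ := Nat.mul_le_mul_right _ (h2 s)

end Pool.Agent.H89.Poly
end
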