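import Mathlib

/-! Merged copies (to shorten the build) of Lib.H89T.Slant, Lib.H89T.C9. -/

-- from Lib.H89T.Slant
section

/-!
# Iterated derivations which span the tangent space do not vanish (C7, C3 of H89T)
-/

set_option autoImplicit false

namespace Pool.Agent.H89T.Slant

open MvPolynomial

section Mult

variable {σ K : Type*} [Field K]

/-- The maximal ideal of the point `p`. -/
noncomputable def mI (p : σ → K) : Ideal (MvPolynomial σ K) := RingHom.ker (eval p)

theorem mem_mI {p : σ → K} {P : MvPolynomial σ K} : P ∈ mI p ↔ eval p P = 0 := Iff.rfl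

theorem X_sub_mem (p : σ → K) (i : σ) : X i - C (p i) ∈ mI p := by
  simp [mem_mI]

/-- The Euler field at `p`. -/
noncomputable def eul (p : σ → K) : Derivation K (MvPolynomial σ K) (MvPolynomial σ K) :=
  mkDerivation K (fun i => X i - C (p i))

/-- A derivation is determined by its values on the variables. -/
theorem deriv_eq_sum (D : Derivation K (MvPolynomial σ K) (MvPolynomial σ K))
    (P : MvPolynomial σ K) : D P = ∑ i ∈ P.vars, pderiv i P * D (X i) := by
  classical
  have h : ∀ (s : Finset σ), P.vars ⊆ s → D P = ∑ i ∈ s, pderiv i P * D (X i) := by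
    intro s hs
    have hP : P ∈ supported K (s : Set σ) := by
      rw [mem_supported]
      exact_mod_cast hs
    refine Algebra.adjoin_induction (p := fun Q _ => D Q = ∑ i ∈ s, pderiv i Q * D (X i))
      ?_ ?_ ?_ ?_ hP
    · rintro _ ⟨j, hj, rfl⟩
      rw [Finset.sum_eq_single j]
      · simp
      · intro b _ hb
        rw [pderiv_X_of_ne (Ne.symm hb)]
        simp
      · intro hj'
        exact absurd (by exact_mod_cast hj) hj'
    · intro c
      simp [← MvPolynomial.algebraMap_eq]
    · intro a b _ _ ha hb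
      simp only [map_add, add_mul, Finset.sum_add_distrib, ha, hb]
    · intro a b _ _ ha hb
      rw [Derivation.leibniz, ha, hb]
      simp only [Derivation.leibniz, smul_eq_mul, add_mul, Finset.sum_add_distrib, Finset.mul_sum,
        mul_assoc]
  exact h _ (Finset.Subset.refl _)

theorem deriv_mem_pow (D : Derivation K (MvPolynomial σ K) (MvPolynomial σ K)) (p : σ → K)
    (s : ℕ) {P : MvPolynomial σ K} (hP : P ∈ mI p ^ (s + 1)) : D P ∈ mI p ^ s := by
  induction s generalizing P with
  | zero => simp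
  | succ s ih =>
    rw [pow_succ] at hP
    refine Submodule.mul_induction_on hP ?_ ?_
    · intro a ha b hb
      rw [Derivation.leibniz, smul_eq_mul, smul_eq_mul]
      refine Ideal.add_mem _ ?_ ?_
      · exact Ideal.mul_mem_right _ _ ha
      · rw [pow_succ', mul_comm]
        rw [mul_comm]
        exact Ideal.mul_mem_mul hb (ih ha)
    · intro a b ha hb
      rw [map_add]
      exact Ideal.add_mem _ ha hb

theorem eul_mem (p : σ → K) (P : MvPolynomial σ K) : eul p P ∈ mI p := by
  rw [deriv_eq_sum]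
  refine Ideal.sum_mem _ fun i _ => Ideal.mul_mem_left _ _ ?_
  simp [eul, mkDerivation_X, X_sub_mem]

theorem eul_sub_C_mem (p : σ → K) (P : MvPolynomial σ K) :
    eul p P - (P - C (eval p P)) ∈ mI p ^ 2 := by
  induction P using MvPolynomial.induction_on with
  | C a => simp [eul, ← MvPolynomial.algebraMap_eq]
  | add a b ha hb =>
    have : eul p (a + b) - (a + b - C (eval p (a + b)))
        = (eul p a - (a - C (eval p a))) + (eul p b - (b - C (eval p b))) := by
      simp only [map_add]; ring
    rw [this]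
    exact Ideal.add_mem _ ha hb
  | mul_X a i ha =>
    have h1 : eul p (X i) = X i - C (p i) := by simp [eul, mkDerivation_X]
    have h2 : eul p (a * X i) - (a * X i - C (eval p (a * X i)))
        = X i * (eul p a - (a - C (eval p a))) + (a - C (eval p a)) * (X i - C (p i)) := by
      rw [Derivation.leibniz, h1, smul_eq_mul, smul_eq_mul]
      simp only [map_mul, eval_X]
      ring
    rw [h2]
    refine Ideal.add_mem _ (Ideal.mul_mem_left _ _ ha) ?_
    rw [pow_two]
    exact Ideal.mul_mem_mul (by simp [mem_mI]) (X_sub_mem p i)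

/-- Euler: `E P = s P` modulo `m ^ (s + 1)` for `P ∈ m ^ s`. -/
theorem eul_sub_mem (p : σ → K) (s : ℕ) {P : MvPolynomial σ K} (hP : P ∈ mI p ^ s) :
    eul p P - (s : MvPolynomial σ K) * P ∈ mI p ^ (s + 1) := by
  induction s generalizing P with
  | zero => simpa using eul_mem p P
  | succ s ih =>
    rw [pow_succ] at hP
    refine Submodule.mul_induction_on hP ?_ ?_
    · intro a ha b hb
      have h1 := ih ha
      have h2 : eul p b - b ∈ mI p ^ 2 := by
        have := eul_sub_C_mem p b
        rw [mem_mI.1 hb] at this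
        simpa using this
      have h3 : eul p (a * b) - ((s + 1 : ℕ) : MvPolynomial σ K) * (a * b)
          = a * (eul p b - b) + (eul p a - (s : MvPolynomial σ K) * a) * b := by
        rw [Derivation.leibniz, smul_eq_mul, smul_eq_mul]
        push_cast
        ring
      rw [h3]
      refine Ideal.add_mem _ ?_ ?_
      · rw [show s + 1 + 1 = s + 2 by ring, pow_add]
        exact Ideal.mul_mem_mul ha h2
      · rw [pow_succ _ (s + 1)]
        exact Ideal.mul_mem_mul h1 hb
    · intro a b ha hb
      rw [map_add]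
      have : eul p a + eul p b - ((s + 1 : ℕ) : MvPolynomial σ K) * (a + b)
        = (eul p a - ((s + 1 : ℕ) : MvPolynomial σ K) * a)
          + (eul p b - ((s + 1 : ℕ) : MvPolynomial σ K) * b) := by ring
      rw [this]
      exact Ideal.add_mem _ ha hb

/-- If `P ∈ m ^ s`, `s ≥ 1`, and all the fields of a spanning family map `P` to `m ^ s`, then
`P ∈ m ^ (s + 1)`. -/
theorem mem_pow_succ_of_fields [CharZero K] [DecidableEq σ] (p : σ → K)
    (S : Set (Derivation K (MvPolynomial σ K) (MvPolynomial σ K)))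
    (hS : ∀ i, ∃ D ∈ Submodule.span K S, ∀ j, eval p (D (X j)) = if j = i then 1 else 0)
    {s : ℕ} (hs : 1 ≤ s) {P : MvPolynomial σ K} (hP : P ∈ mI p ^ s)
    (h : ∀ V ∈ S, V P ∈ mI p ^ s) : P ∈ mI p ^ (s + 1) := by
  obtain ⟨s, rfl⟩ : ∃ t, s = t + 1 := ⟨s - 1, by omega⟩
  have hspan : ∀ D ∈ Submodule.span K S, D P ∈ mI p ^ (s + 1) := by
    intro D hD
    refine Submodule.span_induction (p := fun D _ => D P ∈ mI p ^ (s + 1)) ?_ ?_ ?_ ?_ hD
    · intro V hV; exact h V hV
    · simp
    · intro a b _ _ ha hb; exact Ideal.add_mem _ ha hb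
    · intro c a _ ha
      rw [Derivation.smul_apply, MvPolynomial.smul_eq_C_mul]
      exact Ideal.mul_mem_left _ _ ha
  have hpd : ∀ i, pderiv i P ∈ mI p ^ (s + 1) := by
    intro i
    obtain ⟨D, hD, hDX⟩ := hS i
    obtain ⟨D', hD'⟩ : ∃ D' : Derivation K (MvPolynomial σ K) (MvPolynomial σ K),
        D' = D - pderiv i := ⟨_, rfl⟩
    have h2 : D' P ∈ mI p ^ (s + 1) := by
      rw [deriv_eq_sum]
      refine Ideal.sum_mem _ fun j _ => ?_
      rw [pow_succ]
      refine Ideal.mul_mem_mul (deriv_mem_pow _ p s hP) ?_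
      rw [mem_mI, hD', Derivation.sub_apply, map_sub, hDX, pderiv_X]
      by_cases hj : j = i
      · subst hj; simp
      · rw [if_neg hj, Pi.single_eq_of_ne hj]; simp
    have h3 := hspan D hD
    have : pderiv i P = D P - D' P := by rw [hD', Derivation.sub_apply]; ring
    rw [this]
    exact Ideal.sub_mem _ h3 h2
  have hE : eul p P ∈ mI p ^ (s + 1 + 1) := by
    rw [deriv_eq_sum]
    refine Ideal.sum_mem _ fun i _ => ?_
    rw [pow_succ _ (s + 1)]
    refine Ideal.mul_mem_mul (hpd i) ?_
    simp [eul, mkDerivation_X, X_sub_mem]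
  have h1 := eul_sub_mem p (s + 1) hP
  have h2 : ((s + 1 : ℕ) : MvPolynomial σ K) * P ∈ mI p ^ (s + 1 + 1) := by
    have := Ideal.sub_mem _ hE h1
    simpa using this
  have h3 : P = C ((s + 1 : ℕ) : K)⁻¹ * (((s + 1 : ℕ) : MvPolynomial σ K) * P) := by
    have h4 : (C ((s + 1 : ℕ) : K)⁻¹ : MvPolynomial σ K) * ((s + 1 : ℕ) : MvPolynomial σ K) = 1 := by
      rw [← map_natCast (C : K →+* MvPolynomial σ K) (s + 1), ← map_mul,
        inv_mul_cancel₀ (by exact_mod_cast Nat.succ_ne_zero s), map_one]
    rw [← mul_assoc, h4, one_mul]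
  rw [h3]
  exact Ideal.mul_mem_left _ _ h2

/-- C7: if `P ∉ m ^ (m + 1)` then some product of at most `m` fields of a spanning family does
not kill `P` at `p`. -/
theorem exists_fields [CharZero K] [DecidableEq σ] (p : σ → K)
    (S : Set (Derivation K (MvPolynomial σ K) (MvPolynomial σ K)))
    (hS : ∀ i, ∃ D ∈ Submodule.span K S, ∀ j, eval p (D (X j)) = if j = i then 1 else 0)
    (m : ℕ) (P : MvPolynomial σ K) (hP : P ∉ mI p ^ (m + 1)) :
    ∃ L : List (Derivation K (MvPolynomial σ K) (MvPolynomial σ K)), L.length ≤ m ∧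
      (∀ V ∈ L, V ∈ S) ∧ eval p (L.foldr (fun V Q => V Q) P) ≠ 0 := by
  induction m generalizing P with
  | zero =>
    refine ⟨[], le_rfl, by simp, ?_⟩
    intro h
    exact hP (by simpa using mem_mI.2 h)
  | succ m ih =>
    by_cases h1 : P ∈ mI p ^ (m + 1)
    · have h2 : ∃ V ∈ S, V P ∉ mI p ^ (m + 1) := by
        by_contra hcon
        push Not at hcon
        exact hP (mem_pow_succ_of_fields p S hS (by omega) h1 hcon)
      obtain ⟨V, hV, hVP⟩ := h2
      obtain ⟨L, hL, hLS, hne⟩ := ih (V P) hVP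
      refine ⟨L ++ [V], by simp [hL], ?_, ?_⟩
      · intro W hW
        rcases List.mem_append.1 hW with h | h
        · exact hLS W h
        · rw [List.mem_singleton.1 h]; exact hV
      · rw [List.foldr_append]
        exact hne
    · obtain ⟨L, hL, hLS, hne⟩ := ih P h1
      exact ⟨L, by omega, hLS, hne⟩


end Mult

section Adm

variable {R A : Type*} [CommRing R] [CommRing A] [Algebra R A]


end Adm

end Pool.Agent.H89T.Slant
end

-- from Lib.H89T.C9
section

set_option autoImplicit false

/-!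
CHUNK C9.  Iterated derivatives at a point (general commutative algebra of polynomials).
-/

open MvPolynomial

namespace Pool.Agent.H89T

variable {σ : Type}

/-- Products of derivations applied to `P`: `app [V₁, ..., Vₛ] P = V₁ (... (Vₛ P))`. -/
noncomputable def app (L : List (Derivation ℂ (MvPolynomial σ ℂ) (MvPolynomial σ ℂ)))
    (P : MvPolynomial σ ℂ) : MvPolynomial σ ℂ :=
  L.foldr (fun V Q => V Q) P

/-- A spanning set of derivations in the form needed in `Slant.exists_fields`. -/
theorem span_dual [Fintype σ] [DecidableEq σ] (p : σ → ℂ)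
    (𝒱 : Set (Derivation ℂ (MvPolynomial σ ℂ) (MvPolynomial σ ℂ)))
    (hspan : Submodule.span ℂ ((fun (V : Derivation ℂ (MvPolynomial σ ℂ) (MvPolynomial σ ℂ)) =>
      fun s : σ => eval p (V (X s))) '' 𝒱) = ⊤) :
    ∀ i, ∃ D ∈ Submodule.span ℂ 𝒱, ∀ j, eval p (D (X j)) = if j = i then 1 else 0 := by
  intro i
  let Λ : Derivation ℂ (MvPolynomial σ ℂ) (MvPolynomial σ ℂ) →ₗ[ℂ] (σ → ℂ) :=
    { toFun := fun V s => eval p (V (X s))
      map_add' := fun V W => by
        funext s
        simp only [Derivation.add_apply, map_add, Pi.add_apply]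
      map_smul' := fun c V => by
        funext s
        simp only [Derivation.smul_apply, smul_eval, RingHom.id_apply, Pi.smul_apply, smul_eq_mul] }
  have h1 : (Submodule.span ℂ 𝒱).map Λ = ⊤ := by
    rw [Submodule.map_span]
    exact hspan
  have h2 : (fun j => if j = i then (1 : ℂ) else 0) ∈ (Submodule.span ℂ 𝒱).map Λ := by
    rw [h1]; trivial
  obtain ⟨D, hD, hDi⟩ := Submodule.mem_map.1 h2
  exact ⟨D, hD, fun j => congrFun hDi j⟩

theorem mem_pow_of_app [Fintype σ] [DecidableEq σ] (p : σ → ℂ)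
    (𝒱 : Set (Derivation ℂ (MvPolynomial σ ℂ) (MvPolynomial σ ℂ)))
    (hspan : Submodule.span ℂ ((fun (V : Derivation ℂ (MvPolynomial σ ℂ) (MvPolynomial σ ℂ)) =>
      fun s : σ => eval p (V (X s))) '' 𝒱) = ⊤)
    (P : MvPolynomial σ ℂ) (m : ℕ)
    (h : ∀ L : List (Derivation ℂ (MvPolynomial σ ℂ) (MvPolynomial σ ℂ)), (∀ V ∈ L, V ∈ 𝒱) →
      L.length ≤ m → eval p (app L P) = 0) : P ∈ Slant.mI p ^ (m + 1) := by
  by_contra hP
  obtain ⟨L, h1, h2, h3⟩ := Slant.exists_fields p 𝒱 (span_dual p 𝒱 hspan) m P hP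
  exact h3 (h L h2 h1)

theorem coeff_zero_of_mem_pow [Fintype σ] (e : ℕ) (Q : MvPolynomial σ ℂ)
    (hQ : Q ∈ Slant.mI (0 : σ → ℂ) ^ e) (d : σ →₀ ℕ) (hd : ∑ s, d s < e) : Q.coeff d = 0 := by
  classical
  induction e generalizing Q d with
  | zero => omega
  | succ e ih =>
    rw [pow_succ] at hQ
    refine Submodule.mul_induction_on hQ ?_ ?_
    · intro a ha b hb
      rw [coeff_mul]
      refine Finset.sum_eq_zero fun x hx => ?_
      have hxd := Finset.HasAntidiagonal.mem_antidiagonal.1 hx
      have hsum : ∑ s, x.1 s + ∑ s, x.2 s = ∑ s, d s := by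
        rw [← Finset.sum_add_distrib]
        refine Finset.sum_congr rfl fun s _ => ?_
        rw [← hxd, Finsupp.add_apply]
      by_cases h1 : ∑ s, x.1 s < e
      · rw [ih a ha x.1 h1, zero_mul]
      · have h2 : ∑ s, x.2 s = 0 := by omega
        have h3 : x.2 = 0 := by
          ext s
          have := Finset.sum_eq_zero_iff.1 h2 s (Finset.mem_univ s)
          simpa using this
        have h4 : coeff 0 b = 0 := by
          have h5 := Slant.mem_mI.1 hb
          rw [MvPolynomial.eval_zero] at h5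
          exact h5
        rw [h3, h4, mul_zero]
    · intro a b ha hb
      rw [coeff_add, ha, hb, add_zero]

theorem map_mem_pow {p : σ → ℂ} (φ : MvPolynomial σ ℂ →ₐ[ℂ] MvPolynomial σ ℂ)
    (hφ : ∀ Q, eval (0 : σ → ℂ) (φ Q) = eval p Q) (e : ℕ) {P : MvPolynomial σ ℂ}
    (hP : P ∈ Slant.mI p ^ e) : φ P ∈ Slant.mI (0 : σ → ℂ) ^ e := by
  have h1 : Ideal.map φ (Slant.mI p) ≤ Slant.mI (0 : σ → ℂ) := by
    rw [Ideal.map_le_iff_le_comap]
    intro Q hQ
    rw [Ideal.mem_comap, Slant.mem_mI, hφ]
    exact hQ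
  have h2 : φ P ∈ Ideal.map φ (Slant.mI p ^ e) := Ideal.mem_map_of_mem φ hP
  rw [Ideal.map_pow] at h2
  exact Ideal.pow_right_mono h1 e h2


/-- CHUNK C9.  Let `J` be a set of variables such that `P` has degree `≤ m` in these variables and
such that the restriction of `P` to `X s = p s` (`s ∉ J`) is not `0`.  Then some iterated derivative
of length `≤ m` does not vanish at `p`.  Proof: otherwise by `coeff_translate_eq_zero` the
translated polynomial has no monomials of degree `≤ m`; set the variables outside `J` to `0`: the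
translation of the restriction `P|_J` has no monomials of degree `≤ m`, but its degree is
`≤ m`; so it is `0`, hence `P|_J = 0`. -/
theorem exists_app_ne_zero [Fintype σ] [DecidableEq σ] (p : σ → ℂ)
    (𝒱 : Set (Derivation ℂ (MvPolynomial σ ℂ) (MvPolynomial σ ℂ)))
    (hspan : Submodule.span ℂ ((fun (V : Derivation ℂ (MvPolynomial σ ℂ) (MvPolynomial σ ℂ)) =>
      fun s : σ => eval p (V (X s))) '' 𝒱) = ⊤)
    (J : Set σ) [DecidablePred (· ∈ J)] (P : MvPolynomial σ ℂ) (m : ℕ)
    (hm : ∀ d ∈ P.support, (∑ s, if s ∈ J then d s else 0) ≤ m)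
    (hP : aeval (fun s => if s ∈ J then X s else C (p s) : σ → MvPolynomial σ ℂ) P ≠ 0) :
    ∃ L : List (Derivation ℂ (MvPolynomial σ ℂ) (MvPolynomial σ ℂ)), (∀ V ∈ L, V ∈ 𝒱) ∧
      L.length ≤ m ∧ eval p (app L P) ≠ 0 := by
  by_contra hcon
  push Not at hcon
  have h1 := mem_pow_of_app p 𝒱 hspan P m (fun L hL hm => hcon L hL hm)
  set ψ : MvPolynomial σ ℂ →ₐ[ℂ] MvPolynomial σ ℂ :=
    aeval (fun s => if s ∈ J then X s + C (p s) else C (p s)) with hψ
  have h2 : ∀ Q, eval (0 : σ → ℂ) (ψ Q) = eval p Q := by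
    intro Q
    rw [hψ, aeval_def, eval_eval₂]
    have : ((eval (0 : σ → ℂ)).comp (algebraMap ℂ (MvPolynomial σ ℂ))) = RingHom.id ℂ := by
      ext c; simp
    rw [this]
    have h3 : (fun s => eval (0 : σ → ℂ) (if s ∈ J then X s + C (p s) else C (p s))) = p := by
      funext s
      split_ifs <;> simp
    rw [h3]
    rfl
  have h4 : ∀ d : σ →₀ ℕ, ∑ s, d s < m + 1 → (ψ P).coeff d = 0 :=
    fun d hd => coeff_zero_of_mem_pow (m + 1) _ (map_mem_pow ψ h2 _ h1) d hd
  have h5 : (ψ P).totalDegree ≤ m := by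
    have h6 : ψ P = ∑ d ∈ P.support, C (P.coeff d) *
        ∏ s, (if s ∈ J then X s + C (p s) else C (p s)) ^ d s := by
      rw [hψ, aeval_def, eval₂_eq']
      rfl
    rw [h6]
    refine totalDegree_finsetSum_le fun d hd => ?_
    refine (totalDegree_mul _ _).trans ?_
    rw [totalDegree_C, zero_add]
    refine (totalDegree_finsetProd _ _).trans ?_
    refine le_trans (Finset.sum_le_sum fun s _ => ?_) (hm d hd)
    refine (totalDegree_pow _ _).trans ?_
    split_ifs with hs
    · have : (X s + C (p s) : MvPolynomial σ ℂ).totalDegree ≤ 1 := by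
        refine (totalDegree_add _ _).trans ?_
        rw [totalDegree_X, totalDegree_C]
        simp
      calc d s * _ ≤ d s * 1 := Nat.mul_le_mul_left _ this
        _ = d s := mul_one _
    · rw [totalDegree_C, mul_zero]
  have h7 : ψ P = 0 := by
    ext d
    rw [coeff_zero]
    by_cases hd : ∑ s, d s < m + 1
    · exact h4 d hd
    · by_contra hne
      have h8 := le_totalDegree (mem_support_iff.2 hne)
      have h9 : (d.sum fun _ e => e) = ∑ s, d s := by
        rw [Finsupp.sum_fintype]
        intro i; rfl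
      omega
  have h10 : (aeval (fun s => X s + C (p s) : σ → MvPolynomial σ ℂ))
      ((aeval (fun s => if s ∈ J then X s else C (p s) : σ → MvPolynomial σ ℂ)) P) = ψ P := by
    rw [← AlgHom.comp_apply]
    congr 1
    ext s
    simp only [AlgHom.comp_apply, aeval_X, hψ]
    split_ifs <;> simp
  rw [h7] at h10
  have h11 : ∀ Q : MvPolynomial σ ℂ, (aeval (fun s => X s - C (p s) : σ → MvPolynomial σ ℂ))
      ((aeval (fun s => X s + C (p s) : σ → MvPolynomial σ ℂ)) Q) = Q := by
    intro Q
    rw [← AlgHom.comp_apply]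
    conv_rhs => rw [← AlgHom.id_apply (R := ℂ) Q]
    congr 1
    ext s
    simp
  apply hP
  rw [← h11 ((aeval (fun s => if s ∈ J then X s else C (p s) : σ → MvPolynomial σ ℂ)) P), h10,
    map_zero]

end Pool.Agent.H89T
end
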