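import Mathlib

/-! Merged copies (to shorten the build) of Lib.H89T.DP6, Lib.H89T.DP7. -/

-- from Lib.H89T.DP6
section

set_option autoImplicit false

/-!
H89T, removal of the exceptional set: algebra.  Derivations acting on coefficients, the Jacobian
criterion for algebraic independence, extension of derivations, a greedy choice.
-/

open MvPolynomial TensorProduct

namespace Pool.Agent.H89T

section

variable {A : Type} [CommRing A] [Algebra ℂ A] {ι : Type}

/-- Coefficientwise application of a derivation. -/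
noncomputable def mcfFun (D : Derivation ℂ A A) (p : MvPolynomial ι A) : MvPolynomial ι A :=
  AddMonoidAlgebra.map ((D : A →ₗ[ℂ] A) : A →+ A) p

theorem coeff_mcfFun (D : Derivation ℂ A A) (m : ι →₀ ℕ) (p : MvPolynomial ι A) :
    coeff m (mcfFun D p) = D (coeff m p) := by
  rfl

/-- Coefficientwise application of a derivation. -/
noncomputable def mcf (D : Derivation ℂ A A) :
    Derivation ℂ (MvPolynomial ι A) (MvPolynomial ι A) where
  toFun := mcfFun D
  map_add' p q := by
    ext m
    rw [coeff_mcfFun, coeff_add, coeff_add, coeff_mcfFun, coeff_mcfFun, map_add]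
  map_smul' c p := by
    ext m
    rw [coeff_mcfFun, coeff_smul, RingHom.id_apply, coeff_smul, coeff_mcfFun, D.map_smul]
  map_one_eq_zero' := by
    classical
    ext m
    change coeff m (mcfFun D 1) = _
    rw [coeff_mcfFun, coeff_one, coeff_zero]
    split_ifs
    · exact D.map_one_eq_zero
    · exact map_zero D
  leibniz' p q := by
    classical
    ext m
    change coeff m (mcfFun D (p * q)) = coeff m (p • mcfFun D q + q • mcfFun D p)
    rw [coeff_mcfFun, coeff_mul, map_sum, coeff_add, smul_eq_mul, smul_eq_mul, mul_comm q,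
      coeff_mul, coeff_mul, ← Finset.sum_add_distrib]
    refine Finset.sum_congr rfl fun x _ => ?_
    rw [D.leibniz, coeff_mcfFun, coeff_mcfFun, smul_eq_mul, smul_eq_mul]
    ring

@[simp] theorem coeff_mcf (D : Derivation ℂ A A) (m : ι →₀ ℕ) (p : MvPolynomial ι A) :
    coeff m (mcf D p) = D (coeff m p) := rfl

@[simp] theorem mcf_C (D : Derivation ℂ A A) (a : A) :
    mcf D (C a : MvPolynomial ι A) = C (D a) := by
  classical
  ext m
  rw [coeff_mcf, coeff_C, coeff_C]
  split_ifs
  · rfl
  · exact map_zero D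

@[simp] theorem mcf_X (D : Derivation ℂ A A) (i : ι) :
    mcf D (X i : MvPolynomial ι A) = 0 := by
  classical
  ext m
  rw [coeff_mcf, coeff_X, coeff_zero]
  split_ifs
  · exact D.map_one_eq_zero
  · exact map_zero D

theorem mcf_homogeneous (D : Derivation ℂ A A) {p : MvPolynomial ι A} {k : ℕ}
    (hp : p.IsHomogeneous k) : (mcf D p).IsHomogeneous k := by
  intro m hm
  apply hp
  intro h
  apply hm
  rw [coeff_mcf, h, map_zero]

/-- Chain rule. -/
theorem mcf_aeval (D : Derivation ℂ A A) {κ : Type} [Fintype κ]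
    (φ : κ → MvPolynomial ι A) (F : MvPolynomial κ A) :
    mcf D (aeval φ F) = aeval φ (mcf D F) + ∑ j, aeval φ (pderiv j F) * mcf D (φ j) := by
  classical
  induction F using MvPolynomial.induction_on with
  | C a => simp [MvPolynomial.algebraMap_eq]
  | add p q hp hq =>
    simp only [map_add, hp, hq, add_mul, Finset.sum_add_distrib]
    ring
  | mul_X p i hp =>
    rw [map_mul, aeval_X, Derivation.leibniz, Derivation.leibniz, hp, mcf_X, smul_zero, zero_add]
    simp only [Derivation.leibniz, pderiv_X, smul_eq_mul, map_add, map_mul, aeval_X, add_mul,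
      Finset.sum_add_distrib]
    have h1 : ∑ j, aeval φ p * aeval φ ((Pi.single j 1 : κ → MvPolynomial κ A) i) * mcf D (φ j) =
        aeval φ p * mcf D (φ i) := by
      rw [Finset.sum_eq_single i]
      · simp
      · intro j _ hj
        rw [Pi.single_eq_of_ne (Ne.symm hj)]
        simp
      · intro h
        exact absurd (Finset.mem_univ i) h
    rw [h1, mul_add, Finset.mul_sum]
    have h2 : ∀ j, φ i * aeval φ (pderiv j p) * mcf D (φ j) =
        φ i * (aeval φ (pderiv j p) * mcf D (φ j)) := fun j => by ring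
    simp only [h2]
    ring

/-- Jacobian criterion: chain rule. -/
theorem derivation_aeval {R : Type} [CommRing R] [Algebra ℂ R] (D : Derivation ℂ R R) {τ : Type}
    [Fintype τ] (G : τ → R) (Θ : MvPolynomial τ ℂ) :
    D (aeval G Θ) = ∑ γ, aeval G (pderiv γ Θ) * D (G γ) := by
  classical
  induction Θ using MvPolynomial.induction_on with
  | C a => simp
  | add p q hp hq =>
    simp only [map_add, hp, hq, add_mul, Finset.sum_add_distrib]
  | mul_X p i hp =>
    rw [map_mul, aeval_X, Derivation.leibniz, hp]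
    simp only [Derivation.leibniz, pderiv_X, smul_eq_mul, map_add, map_mul, aeval_X, add_mul,
      Finset.sum_add_distrib]
    have h1 : ∑ j, aeval G p * aeval G ((Pi.single j 1 : τ → MvPolynomial τ ℂ) i) * D (G j) =
        aeval G p * D (G i) := by
      rw [Finset.sum_eq_single i]
      · simp
      · intro j _ hj
        rw [Pi.single_eq_of_ne (Ne.symm hj)]
        simp
      · intro h
        exact absurd (Finset.mem_univ i) h
    rw [h1, Finset.mul_sum]
    congr 1
    exact Finset.sum_congr rfl fun j _ => by ring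

theorem totalDegree_pderiv_lt {τ : Type} {d : ℕ} {p : MvPolynomial τ ℂ}
    (h : p.totalDegree ≤ d + 1) (i : τ) : (pderiv i p).totalDegree ≤ d := by
  classical
  refine Finset.sup_le fun m hm => ?_
  rw [mem_support_iff, coeff_pderiv] at hm
  have h1 : m + Finsupp.single i 1 ∈ p.support := by
    rw [mem_support_iff]
    exact left_ne_zero_of_mul hm
  have h2 := le_totalDegree h1
  rw [Finsupp.sum_add_index' (fun _ => rfl) (fun _ _ _ => rfl)] at h2
  simp at h2
  omega

theorem eq_C_of_pderiv {τ : Type} {p : MvPolynomial τ ℂ} (h : ∀ i, pderiv i p = 0) :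
    p = C (coeff 0 p) := by
  classical
  ext m
  rw [coeff_C]
  split_ifs with hm
  · rw [hm]
  · obtain ⟨i, hi⟩ : ∃ i, m i ≠ 0 := by
      by_contra hcon
      push Not at hcon
      exact hm (Finsupp.ext fun i => (hcon i).symm)
    have h1 := congrArg (coeff (m - Finsupp.single i 1)) (h i)
    rw [coeff_pderiv, coeff_zero] at h1
    have h2 : m - Finsupp.single i 1 + Finsupp.single i 1 = m := by
      ext j
      by_cases hj : j = i
      · subst hj
        simp
        omega
      · simp [Finsupp.single_eq_of_ne hj]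
    rw [h2] at h1
    rcases mul_eq_zero.1 h1 with h3 | h3
    · exact h3
    · exfalso
      exact Nat.cast_add_one_ne_zero _ h3

/-- **Jacobian criterion.** -/
theorem jac {R K : Type} [CommRing R] [IsDomain R] [Algebra ℂ R] [Field K]
    (ρ : R →+* K) {τ : Type} [Fintype τ] (G : τ → R)
    (h : ∀ v : τ → K, ∃ D : Derivation ℂ R R, ∀ γ, ρ (D (G γ)) = v γ) (Θ : MvPolynomial τ ℂ)
    (hΘ : aeval G Θ = 0) : Θ = 0 := by
  classical
  choose D hD using fun i : τ => h (Pi.single i 1)
  -- the Jacobian matrix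
  set M : Matrix τ τ R := Matrix.of fun i γ => D i (G γ) with hM
  have hdet : M.det ≠ 0 := by
    intro h0
    have h1 : ρ M.det = 1 := by
      rw [RingHom.map_det]
      have : ρ.mapMatrix M = 1 := by
        ext i γ
        rw [RingHom.mapMatrix_apply, Matrix.map_apply, hM, Matrix.of_apply, hD,
          Matrix.one_apply, Pi.single_apply]
        simp [eq_comm]
      rw [this, Matrix.det_one]
    rw [h0, map_zero] at h1
    exact zero_ne_one h1
  have hC : ∀ Θ : MvPolynomial τ ℂ, Θ = C (coeff 0 Θ) → aeval G Θ = 0 → Θ = 0 := by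
    intro Θ hd h0
    rw [hd] at h0 ⊢
    rw [aeval_C] at h0
    have : coeff 0 Θ = 0 := by
      apply FaithfulSMul.algebraMap_injective ℂ R
      rw [h0, map_zero]
    rw [this, C_0]
  -- induction on the degree
  have key : ∀ (d : ℕ) (Θ : MvPolynomial τ ℂ), Θ.totalDegree ≤ d → aeval G Θ = 0 → Θ = 0 := by
    intro d
    induction d with
    | zero =>
      intro Θ hd h0
      rw [Nat.le_zero] at hd
      rw [totalDegree_eq_zero_iff_eq_C] at hd
      exact hC Θ hd h0
    | succ d ih =>
      intro Θ hd h0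
      have h1 : M.mulVec (fun γ => aeval G (pderiv γ Θ)) = 0 := by
        funext i
        rw [Matrix.mulVec, dotProduct, Pi.zero_apply]
        have h2 := derivation_aeval (D i) G Θ
        rw [h0, map_zero] at h2
        rw [h2]
        refine Finset.sum_congr rfl fun γ _ => ?_
        rw [hM, Matrix.of_apply, mul_comm]
      have h3 := Matrix.eq_zero_of_mulVec_eq_zero hdet h1
      have h4 : ∀ γ, pderiv γ Θ = 0 := by
        intro γ
        exact ih _ (totalDegree_pderiv_lt hd γ) (congrFun h3 γ)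
      exact hC Θ (eq_C_of_pderiv h4) h0
  exact key _ Θ le_rfl hΘ

end

/-- Extension of derivations. -/
theorem extend_derivation {S T : Type} [CommRing S] [Field T] [Algebra ℂ S] [Algebra ℂ T]
    [Algebra S T] [IsScalarTower ℂ S T] [Algebra.FormallySmooth S T] (d : Derivation ℂ S T) :
    ∃ D : Derivation ℂ T T, ∀ x, D (algebraMap S T x) = d x := by
  have hinj : Function.Injective (KaehlerDifferential.mapBaseChange ℂ S T) := by
    rw [injective_iff_map_eq_zero]
    intro x hx
    obtain ⟨y, rfl⟩ := (Algebra.H1Cotangent.exact_δ_mapBaseChange ℂ S T x).1 hx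
    rw [Subsingleton.elim y 0, map_zero]
  obtain ⟨l, hl⟩ := LinearMap.exists_leftInverse_of_injective
    (KaehlerDifferential.mapBaseChange ℂ S T) (LinearMap.ker_eq_bot.2 hinj)
  set φ : T ⊗[S] Ω[S⁄ℂ] →ₗ[T] T := d.liftKaehlerDifferential.liftBaseChange T with hφ
  refine ⟨(φ ∘ₗ l).compDer (KaehlerDifferential.D ℂ T), fun x => ?_⟩
  change (φ ∘ₗ l) (KaehlerDifferential.D ℂ T (algebraMap S T x)) = d x
  have h1 : KaehlerDifferential.D ℂ T (algebraMap S T x) =
      KaehlerDifferential.mapBaseChange ℂ S T (1 ⊗ₜ KaehlerDifferential.D ℂ S x) := by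
    simp
  rw [h1]
  have h2 := LinearMap.congr_fun hl (1 ⊗ₜ KaehlerDifferential.D ℂ S x)
  simp only [LinearMap.comp_apply, LinearMap.id_apply] at h2
  rw [LinearMap.comp_apply, h2, hφ]
  simp

/-- Derivations of finitely generated extensions of function fields. -/
theorem ext_field {τ K : Type} [Field K] [Algebra ℂ K] [Algebra.EssFiniteType ℂ K]
    (π : MvPolynomial τ ℂ →ₐ[ℂ] K) (hπ : Function.Injective π) (h : τ → K) :
    ∃ D : Derivation ℂ K K, ∀ β : τ, D (π (X β)) = h β := by
  let : Algebra (MvPolynomial τ ℂ) K := π.toRingHom.toAlgebra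
  have : IsScalarTower ℂ (MvPolynomial τ ℂ) K :=
    IsScalarTower.of_algebraMap_eq' π.comp_algebraMap.symm
  have : FaithfulSMul (MvPolynomial τ ℂ) K :=
    (faithfulSMul_iff_algebraMap_injective (MvPolynomial τ ℂ) K).2 hπ
  let : Algebra (FractionRing (MvPolynomial τ ℂ)) K :=
    FractionRing.liftAlgebra (MvPolynomial τ ℂ) K
  have : IsScalarTower (MvPolynomial τ ℂ) (FractionRing (MvPolynomial τ ℂ)) K := inferInstance
  have : IsScalarTower ℂ (FractionRing (MvPolynomial τ ℂ)) K := by
    refine IsScalarTower.of_algebraMap_eq fun x => ?_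
    rw [IsScalarTower.algebraMap_apply ℂ (MvPolynomial τ ℂ) K,
      IsScalarTower.algebraMap_apply (MvPolynomial τ ℂ) (FractionRing (MvPolynomial τ ℂ)) K,
      IsScalarTower.algebraMap_apply ℂ (MvPolynomial τ ℂ) (FractionRing (MvPolynomial τ ℂ))]
  have h3 : Algebra.EssFiniteType (FractionRing (MvPolynomial τ ℂ)) K :=
    Algebra.EssFiniteType.of_comp ℂ (FractionRing (MvPolynomial τ ℂ)) K
  have h4 : Algebra.FormallySmooth (FractionRing (MvPolynomial τ ℂ)) K := inferInstance
  have h5 : Algebra.FormallySmooth (MvPolynomial τ ℂ) (FractionRing (MvPolynomial τ ℂ)) :=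
    Algebra.FormallySmooth.of_isLocalization (nonZeroDivisors (MvPolynomial τ ℂ))
  have h6 : Algebra.FormallySmooth (MvPolynomial τ ℂ) K :=
    Algebra.FormallySmooth.comp (MvPolynomial τ ℂ) (FractionRing (MvPolynomial τ ℂ)) K
  obtain ⟨D, hD⟩ := extend_derivation (S := MvPolynomial τ ℂ) (T := K)
    (MvPolynomial.mkDerivation ℂ h)
  refine ⟨D, fun β => ?_⟩
  have h7 := hD (X β)
  rw [mkDerivation_X] at h7
  exact h7

/-- Greedy choice. -/
theorem greedy {K V W B : Type} [Field K] [AddCommGroup V] [Module K V] [Inhabited W]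
    (β : B → W → V) {c : ℕ} (T : Submodule K V) (p : Fin c → V)
    (hp : T ⊔ Submodule.span K (Set.range p) = ⊤)
    (hfull : ∀ T' : Submodule K V, T ≤ T' → (∀ b w, β b w ∈ T') → T' = ⊤) :
    ∃ w : Fin c → W,
      T ⊔ Submodule.span K (Set.range fun x : B × Fin c => β x.1 (w x.2)) = ⊤ := by
  induction c generalizing T with
  | zero =>
    refine ⟨Fin.elim0, ?_⟩
    have h1 : Set.range p = ∅ := Set.range_eq_empty p
    rw [h1, Submodule.span_empty, sup_bot_eq] at hp
    rw [hp, top_sup_eq]
  | succ c ih =>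
    by_cases hT : T = ⊤
    · exact ⟨fun _ => default, by rw [hT, top_sup_eq]⟩
    obtain ⟨b, w₀, hbw⟩ : ∃ b w, β b w ∉ T := by
      by_contra hcon
      push Not at hcon
      exact hT (hfull T le_rfl hcon)
    have h1 : β b w₀ ∈ T ⊔ Submodule.span K (Set.range p) := by rw [hp]; trivial
    obtain ⟨t, ht, v, hv, htv⟩ := Submodule.mem_sup.1 h1
    obtain ⟨μ, hμ⟩ := (Submodule.mem_span_range_iff_exists_fun K).1 hv
    obtain ⟨i₀, hi₀⟩ : ∃ i, μ i ≠ 0 := by
      by_contra hcon
      push Not at hcon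
      apply hbw
      rw [← htv, ← hμ]
      simpa [hcon] using ht
    set T' : Submodule K V := T ⊔ Submodule.span K (Set.range fun b => β b w₀) with hT'
    have hbT' : β b w₀ ∈ T' := le_sup_right (a := T) (Submodule.subset_span ⟨b, rfl⟩)
    have hTT' : T ≤ T' := le_sup_left
    obtain ⟨w, hw⟩ := ih T' (fun j => p (i₀.succAbove j)) (by
      rw [eq_top_iff, ← hp]
      refine sup_le (hTT'.trans le_sup_left) ?_
      rw [Submodule.span_le]
      rintro _ ⟨i, rfl⟩
      rcases eq_or_ne i i₀ with rfl | hi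
      · have h2 : p i = (μ i)⁻¹ • (β b w₀ - t - ∑ j, μ (i.succAbove j) • p (i.succAbove j)) := by
          rw [Fin.sum_univ_succAbove _ i] at hμ
          rw [← htv, ← hμ]
          rw [add_sub_cancel_left, add_sub_cancel_right, smul_smul, inv_mul_cancel₀ hi₀, one_smul]
        rw [h2]
        refine Submodule.smul_mem _ _ (Submodule.sub_mem _ (Submodule.sub_mem _ ?_ ?_) ?_)
        · exact le_sup_left (a := T') hbT'
        · exact le_sup_left (a := T') (hTT' ht)
        · refine le_sup_right (a := T') (Submodule.sum_mem _ fun j _ => ?_)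
          exact Submodule.smul_mem _ _ (Submodule.subset_span ⟨j, rfl⟩)
      · obtain ⟨j, rfl⟩ := Fin.exists_succAbove_eq hi
        exact le_sup_right (a := T') (Submodule.subset_span ⟨j, rfl⟩))
      (fun T'' h1 h2 => hfull T'' (hTT'.trans h1) h2)
    refine ⟨Fin.cons w₀ w, ?_⟩
    rw [eq_top_iff, ← hw]
    refine sup_le (sup_le le_sup_left ?_) ?_
    · rw [Submodule.span_le]
      rintro _ ⟨b', rfl⟩
      exact le_sup_right (a := T) (Submodule.subset_span ⟨(b', 0), rfl⟩)
    · rw [Submodule.span_le]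
      rintro _ ⟨⟨b', j⟩, rfl⟩
      exact le_sup_right (a := T) (Submodule.subset_span ⟨(b', j.succ), rfl⟩)

/-- The forms of degree `k` are generated by a form not vanishing at the base point and the
multiples of the other variables. -/
theorem forms_generated {K : Type} [Field K] {n k : ℕ}
    (T : Submodule K (MvPolynomial (Fin (n + 1)) K))
    (h : ∀ (b : Fin n) (w : MvPolynomial (Fin (n + 1)) K), w.IsHomogeneous (k - 1) →
      X b.succ * w ∈ T)
    {g : MvPolynomial (Fin (n + 1)) K} (hg : g.IsHomogeneous k)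
    (hg0 : eval (Pi.single 0 1) g ≠ 0) (hgT : g ∈ T) {f : MvPolynomial (Fin (n + 1)) K}
    (hf : f.IsHomogeneous k) : f ∈ T := by
  classical
  have h1 : ∀ f : MvPolynomial (Fin (n + 1)) K, f.IsHomogeneous k →
      coeff (Finsupp.single 0 k) f = 0 → f ∈ T := by
    intro f hf h0
    rw [f.as_sum]
    refine Submodule.sum_mem _ fun m hm => ?_
    have hmk : m.degree = k := by
      by_contra hne
      exact (mem_support_iff.1 hm) (hf.coeff_eq_zero hne)
    obtain ⟨b, hb⟩ : ∃ b : Fin n, m b.succ ≠ 0 := by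
      by_contra hcon
      push Not at hcon
      apply mem_support_iff.1 hm
      have : m = Finsupp.single 0 k := by
        ext i
        refine Fin.cases ?_ (fun j => ?_) i
        · rw [Finsupp.degree_eq_sum, Fin.sum_univ_succ] at hmk
          simp only [hcon, Finset.sum_const_zero, add_zero] at hmk
          simp [hmk]
        · rw [hcon, Finsupp.single_apply, if_neg (Fin.succ_ne_zero j).symm]
      rw [this]
      exact h0
    have h2 : m = Finsupp.single b.succ 1 + (m - Finsupp.single b.succ 1) := by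
      ext j
      by_cases hj : j = b.succ
      · subst hj
        simp
        omega
      · simp [Finsupp.single_eq_of_ne hj]
    have h3 : monomial m (coeff m f) =
        X b.succ * monomial (m - Finsupp.single b.succ 1) (coeff m f) := by
      rw [X, monomial_mul, one_mul, ← h2]
    rw [h3]
    refine h b _ ?_
    refine isHomogeneous_monomial _ ?_
    have h4 := congrArg Finsupp.degree h2
    rw [map_add, hmk, Finsupp.degree_single] at h4
    omega
  have h2 : ∀ f : MvPolynomial (Fin (n + 1)) K, f.IsHomogeneous k →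
      eval (Pi.single 0 1) f = coeff (Finsupp.single 0 k) f := by
    intro f hf
    rw [eval_eq']
    rw [Finset.sum_eq_single (Finsupp.single 0 k)]
    · rw [Finset.prod_eq_one, mul_one]
      intro i _
      refine Fin.cases ?_ (fun j => ?_) i
      · simp
      · rw [Finsupp.single_apply, if_neg (Fin.succ_ne_zero j).symm, pow_zero]
    · intro m hm hne
      have hmk : m.degree = k := by
        by_contra hne
        exact (mem_support_iff.1 hm) (hf.coeff_eq_zero hne)
      obtain ⟨b, hb⟩ : ∃ b : Fin n, m b.succ ≠ 0 := by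
        by_contra hcon
        push Not at hcon
        apply hne
        ext i
        refine Fin.cases ?_ (fun j => ?_) i
        · rw [Finsupp.degree_eq_sum, Fin.sum_univ_succ] at hmk
          simp only [hcon, Finset.sum_const_zero, add_zero] at hmk
          simp [hmk]
        · rw [hcon, Finsupp.single_apply, if_neg (Fin.succ_ne_zero j).symm]
      rw [Finset.prod_eq_zero (Finset.mem_univ b.succ), mul_zero]
      rw [Pi.single_eq_of_ne (Fin.succ_ne_zero b), zero_pow hb]
    · intro hm
      rw [notMem_support_iff.1 hm, zero_mul]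
  rw [h2 g hg] at hg0
  have h3 : f - (coeff (Finsupp.single 0 k) f / coeff (Finsupp.single 0 k) g) • g ∈ T := by
    refine h1 _ ?_ ?_
    · refine hf.sub ?_
      rw [smul_eq_C_mul]
      simpa using (isHomogeneous_C _ _).mul hg
    · rw [coeff_sub, coeff_smul, smul_eq_mul, div_mul_cancel₀ _ hg0, sub_self]
  have h4 := T.add_mem h3 (T.smul_mem (coeff (Finsupp.single 0 k) f / coeff (Finsupp.single 0 k) g)
    hgT)
  simpa using h4

section
variable {ν : Type} [Fintype ν] [DecidableEq ν]

/-- The exponents of degree `k`. -/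
def Ex (ν : Type) [Fintype ν] [DecidableEq ν] (k : ℕ) : Finset (ν →₀ ℕ) :=
  Finset.univ.finsuppAntidiag k

theorem mem_Ex {k : ℕ} {γ : ν →₀ ℕ} : γ ∈ Ex ν k ↔ γ.degree = k := by
  rw [Ex, Finset.mem_finsuppAntidiag, Finsupp.degree_eq_sum]
  simp

/-- The value of `Θ` at the coefficients of `F`. -/
noncomputable def cv {ν : Type} {A : Type} [CommRing A] [Algebra ℂ A]
    (Θ : MvPolynomial (ν →₀ ℕ) ℂ) (F : MvPolynomial ν A) : A :=
  aeval (fun γ => coeff γ F) Θ

/-- The polynomial `Θ` in the coefficients of degree `k`. -/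
noncomputable def rs (Θ : MvPolynomial (ν →₀ ℕ) ℂ) (k : ℕ) : MvPolynomial (Ex ν k) ℂ :=
  aeval (fun γ => if h : γ ∈ Ex ν k then X ⟨γ, h⟩ else 0) Θ

theorem cv_rs {A : Type} [CommRing A] [Algebra ℂ A] (Θ : MvPolynomial (ν →₀ ℕ) ℂ) {k : ℕ}
    {F : MvPolynomial ν A} (hF : F.IsHomogeneous k) :
    cv Θ F = aeval (fun γ : Ex ν k => coeff γ.1 F) (rs Θ k) := by
  have h : (aeval (fun γ : Ex ν k => coeff γ.1 F)).comp
      (aeval (fun γ => if h : γ ∈ Ex ν k then (X ⟨γ, h⟩ : MvPolynomial (Ex ν k) ℂ) else 0)) =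
      aeval (R := ℂ) (fun γ => coeff γ F) := by
    ext γ
    rw [AlgHom.comp_apply, aeval_X, aeval_X]
    split_ifs with h
    · rw [aeval_X]
    · rw [map_zero, hF.coeff_eq_zero]
      rwa [mem_Ex] at h
  rw [rs, cv, ← h]
  rfl

/-- The form with coefficients `v`. -/
noncomputable def fm {A : Type} [CommRing A] {k : ℕ} (v : Ex ν k → A) : MvPolynomial ν A :=
  ∑ δ, C (v δ) * monomial δ.1 1

theorem fm_homogeneous {A : Type} [CommRing A] {k : ℕ} (v : Ex ν k → A) :
    (fm v).IsHomogeneous k := by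
  refine IsHomogeneous.sum _ _ _ fun δ _ => ?_
  rw [C_mul_monomial]
  exact isHomogeneous_monomial _ (mem_Ex.1 δ.2)

theorem coeff_fm {A : Type} [CommRing A] {k : ℕ} (v : Ex ν k → A) (δ : Ex ν k) :
    coeff δ.1 (fm v) = v δ := by
  rw [fm, coeff_sum, Finset.sum_eq_single δ]
  · rw [C_mul_monomial, coeff_monomial, if_pos rfl, mul_one]
  · intro δ' _ h
    rw [C_mul_monomial, coeff_monomial, if_neg]
    exact fun h' => h (Subtype.ext h')
  · intro h
    exact absurd (Finset.mem_univ _) h

theorem fm_coeff {A : Type} [CommRing A] {k : ℕ} {F : MvPolynomial ν A}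
    (hF : F.IsHomogeneous k) : fm (fun δ : Ex ν k => coeff δ.1 F) = F := by
  ext γ
  by_cases h : γ ∈ Ex ν k
  · exact coeff_fm _ ⟨γ, h⟩
  · rw [hF.coeff_eq_zero (by rwa [mem_Ex] at h), (fm_homogeneous _).coeff_eq_zero]
    rwa [mem_Ex] at h

theorem map_fm {A B : Type} [CommRing A] [CommRing B] {k : ℕ} (φ : A →+* B) (v : Ex ν k → A) :
    map φ (fm v) = fm fun δ => φ (v δ) := by
  rw [fm, fm, map_sum]
  refine Finset.sum_congr rfl fun δ _ => ?_
  rw [map_mul, map_C, map_monomial, map_one]

end

/-- Forms in two groups of variables. -/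
theorem decomp {K : Type} [Field K] {a c k : ℕ} (F : MvPolynomial (Fin a ⊕ Fin c) K)
    (hF : F.IsHomogeneous k) : ∃ (F₀ : MvPolynomial (Fin a) K)
      (H : Fin c → MvPolynomial (Fin a ⊕ Fin c) K), F₀.IsHomogeneous k ∧
      (∀ i, (H i).IsHomogeneous (k - 1)) ∧
      F = rename Sum.inl F₀ + ∑ i, X (Sum.inr i) * H i := by
  classical
  set S : Submodule K (MvPolynomial (Fin a ⊕ Fin c) K) :=
    { carrier := {F | ∃ (F₀ : MvPolynomial (Fin a) K)
        (H : Fin c → MvPolynomial (Fin a ⊕ Fin c) K), F₀.IsHomogeneous k ∧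
        (∀ i, (H i).IsHomogeneous (k - 1)) ∧
        F = rename Sum.inl F₀ + ∑ i, X (Sum.inr i) * H i}
      add_mem' := by
        rintro F G ⟨F₀, H, h1, h2, h3⟩ ⟨G₀, I, h4, h5, h6⟩
        refine ⟨F₀ + G₀, fun i => H i + I i, h1.add h4, fun i => (h2 i).add (h5 i), ?_⟩
        rw [h3, h6, map_add]
        simp only [mul_add, Finset.sum_add_distrib]
        ring
      zero_mem' := ⟨0, fun _ => 0, isHomogeneous_zero _ _ _, fun _ => isHomogeneous_zero _ _ _,
        by simp⟩
      smul_mem' := by
        rintro x F ⟨F₀, H, h1, h2, h3⟩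
        refine ⟨x • F₀, fun i => x • H i, ?_, fun i => ?_, ?_⟩
        · rw [smul_eq_C_mul]
          simpa using (isHomogeneous_C _ _).mul h1
        · change (x • H i).IsHomogeneous (k - 1)
          rw [smul_eq_C_mul]
          simpa using (isHomogeneous_C _ _).mul (h2 i)
        · rw [h3, smul_add, Finset.smul_sum, map_smul]
          congr 1
          exact Finset.sum_congr rfl fun i _ => (mul_smul_comm _ _ _).symm } with hS
  change F ∈ S
  rw [F.as_sum]
  refine Submodule.sum_mem _ fun m hm => ?_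
  have hmk : m.degree = k := by
    by_contra hne
    exact (mem_support_iff.1 hm) (hF.coeff_eq_zero hne)
  by_cases h : ∃ i, m (Sum.inr i) ≠ 0
  · obtain ⟨i, hi⟩ := h
    have h2 : m = Finsupp.single (Sum.inr i) 1 + (m - Finsupp.single (Sum.inr i) 1) := by
      ext j
      by_cases hj : j = Sum.inr i
      · subst hj
        simp
        omega
      · simp [Finsupp.single_eq_of_ne hj]
    refine ⟨0, Pi.single i (monomial (m - Finsupp.single (Sum.inr i) 1) (coeff m F)),
      isHomogeneous_zero _ _ _, fun j => ?_, ?_⟩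
    · rcases eq_or_ne j i with rfl | hj
      · rw [Pi.single_eq_same]
        refine isHomogeneous_monomial _ ?_
        have h4 := congrArg Finsupp.degree h2
        rw [map_add, hmk, Finsupp.degree_single] at h4
        omega
      · rw [Pi.single_eq_of_ne hj]
        exact isHomogeneous_zero _ _ _
    · rw [map_zero, zero_add, Finset.sum_eq_single i]
      · rw [Pi.single_eq_same, X, monomial_mul, one_mul, ← h2]
      · intro j _ hj
        rw [Pi.single_eq_of_ne hj, mul_zero]
      · intro h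
        exact absurd (Finset.mem_univ i) h
  · push Not at h
    set m₀ : Fin a →₀ ℕ := Finsupp.equivFunOnFinite.symm fun i => m (Sum.inl i) with hm₀
    have h3 : m = m₀.mapDomain Sum.inl := by
      ext j
      rcases j with j | j
      · rw [Finsupp.mapDomain_apply Sum.inl_injective]
        rfl
      · rw [h, Finsupp.mapDomain_of_notMem_range]
        simp
    refine ⟨monomial m₀ (coeff m F), fun _ => 0, isHomogeneous_monomial _ ?_,
      fun _ => isHomogeneous_zero _ _ _, ?_⟩
    · rw [← hmk, h3, Finsupp.degree_mapDomain]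
    · rw [rename_monomial, ← h3]
      simp

/-- The multiples of the linear equations. -/
def IsExt {n c : ℕ} (k : ℕ) (ψ : MvPolynomial (Fin (n + 1) ⊕ Fin c) ℂ) : Prop :=
  ∃ (s : Fin c → Fin n → ℂ) (E : Fin c → MvPolynomial (Fin (n + 1) ⊕ Fin c) ℂ),
    (∀ i, (E i).IsHomogeneous (k - 1)) ∧
    ψ = ∑ i, (X (Sum.inr i) + ∑ b, C (s i b) * X (Sum.inl b.succ)) * E i

/-- The extensions of the form `g`. -/
noncomputable def big (A : Type) [CommRing A] [Algebra ℂ A] {n c : ℕ} (lam : ℂ)
    (ψ : MvPolynomial (Fin (n + 1) ⊕ Fin c) ℂ) (g : MvPolynomial (Fin (n + 1)) A) :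
    MvPolynomial (Fin (n + 1) ⊕ Fin c) A :=
  C (algebraMap ℂ A lam) * (rename Sum.inl g + map (algebraMap ℂ A) ψ)

end Pool.Agent.H89T
end

-- from Lib.H89T.DP7
section

set_option autoImplicit false

/-!
H89T, removal of the exceptional set: generic extensions of forms are generic.
-/

open MvPolynomial

namespace Pool.Agent.H89T

theorem mcf_monomial {A ι : Type} [CommRing A] [Algebra ℂ A] (D : Derivation ℂ A A)
    (m : ι →₀ ℕ) (a : A) : mcf D (monomial m a) = monomial m (D a) := by
  classical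
  ext m'
  rw [coeff_mcf, coeff_monomial, coeff_monomial]
  split_ifs
  · rfl
  · exact map_zero D

theorem mcf_fm {A ν : Type} [CommRing A] [Algebra ℂ A] [Fintype ν] [DecidableEq ν]
    (D : Derivation ℂ A A) {k : ℕ} (v : Ex ν k → A) : mcf D (fm v) = fm fun δ => D (v δ) := by
  rw [fm, fm, map_sum]
  refine Finset.sum_congr rfl fun δ _ => ?_
  rw [C_mul_monomial, C_mul_monomial, mcf_monomial, mul_one, mul_one]

theorem mcf_rename {A ι κ : Type} [CommRing A] [Algebra ℂ A] [Fintype κ] (D : Derivation ℂ A A)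
    (f : κ → ι) (F : MvPolynomial κ A) : mcf D (rename f F) = rename f (mcf D F) := by
  have h : (rename f : MvPolynomial κ A →ₐ[A] MvPolynomial ι A) = aeval fun i => X (f i) := by
    ext i
    simp
  rw [h, mcf_aeval]
  simp

theorem greedy_forms {K : Type} [Field K] [Algebra ℂ K] {n c k : ℕ} (hk : 1 ≤ k)
    {g : MvPolynomial (Fin (n + 1)) K} (hg : g.IsHomogeneous k)
    (hg0 : eval (Pi.single 0 1) g ≠ 0) (p : Fin c → MvPolynomial (Fin (n + 1)) K)
    (hp : ∀ i, (p i).IsHomogeneous k)
    (hD : ∀ h : MvPolynomial (Fin (n + 1)) K, h.IsHomogeneous k →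
      ∃ (D : Derivation ℂ K K) (μ : Fin c → K), h = mcf D g + ∑ i, C (μ i) * p i) :
    ∃ w : Fin c → MvPolynomial (Fin (n + 1)) K, (∀ i, (w i).IsHomogeneous (k - 1)) ∧
      ∀ f : MvPolynomial (Fin (n + 1)) K, f.IsHomogeneous k →
        ∃ (D : Derivation ℂ K K) (μ : K) (ν : Fin c → Fin n → K),
          f = mcf D g + C μ * g + ∑ i, (∑ b, C (ν i b) * X b.succ) * w i := by
  classical
  set T : Submodule K (homogeneousSubmodule (Fin (n + 1)) K k) :=
    { carrier := {v | ∃ (D : Derivation ℂ K K) (μ : K),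
        (v : MvPolynomial (Fin (n + 1)) K) = mcf D g + C μ * g}
      add_mem' := by
        rintro v w ⟨D, μ, h⟩ ⟨D', μ', h'⟩
        refine ⟨D + D', μ + μ', ?_⟩
        have h1 : mcf (D + D') g = mcf D g + mcf D' g := by
          ext m
          simp
        rw [Submodule.coe_add, h, h', h1, C_add]
        ring
      zero_mem' := by
        refine ⟨0, 0, ?_⟩
        have h1 : mcf (0 : Derivation ℂ K K) g = 0 := by
          ext m
          simp
        rw [h1]
        simp
      smul_mem' := by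
        rintro x v ⟨D, μ, h⟩
        refine ⟨x • D, x * μ, ?_⟩
        have h1 : mcf (x • D) g = x • mcf D g := by
          ext m
          simp
        rw [Submodule.coe_smul, h, h1, smul_add, C_mul, smul_eq_C_mul, smul_eq_C_mul]
        ring } with hT
  obtain ⟨w, hw⟩ := greedy (K := K) (V := homogeneousSubmodule (Fin (n + 1)) K k)
    (W := homogeneousSubmodule (Fin (n + 1)) K (k - 1)) (B := Fin n)
    (fun b w => ⟨X b.succ * w.1, by
      have h1 : (X b.succ * w.1).IsHomogeneous (1 + (k - 1)) := (isHomogeneous_X K b.succ).mul w.2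
      rwa [Nat.add_sub_cancel' hk] at h1⟩) T (fun i => ⟨p i, hp i⟩) (by
      rw [eq_top_iff]
      rintro v -
      obtain ⟨D, μ, h⟩ := hD v.1 v.2
      have h1 : v = (⟨mcf D g, mcf_homogeneous D hg⟩ : homogeneousSubmodule (Fin (n + 1)) K k) +
          ∑ i, μ i • (⟨p i, hp i⟩ : homogeneousSubmodule (Fin (n + 1)) K k) := by
        apply Subtype.ext
        rw [h, Submodule.coe_add, Submodule.coe_sum]
        congr 1
        refine Finset.sum_congr rfl fun i _ => ?_
        rw [Submodule.coe_smul, smul_eq_C_mul]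
      rw [h1]
      refine Submodule.add_mem_sup ⟨D, 0, by simp⟩ (Submodule.sum_mem _ fun i _ => ?_)
      exact Submodule.smul_mem _ _ (Submodule.subset_span ⟨i, rfl⟩))
    (by
      intro T' hTT' hT'
      rw [eq_top_iff]
      rintro ⟨v, hv⟩ -
      have h1 : v ∈ T'.map (homogeneousSubmodule (Fin (n + 1)) K k).subtype := by
        refine forms_generated _ (fun b w hw => ?_) hg hg0 ?_ hv
        · exact ⟨_, hT' b ⟨w, hw⟩, rfl⟩
        · refine ⟨⟨g, hg⟩, hTT' ⟨0, 1, ?_⟩, rfl⟩
          have h1 : mcf (0 : Derivation ℂ K K) g = 0 := by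
            ext m
            simp
          rw [h1]
          simp
      obtain ⟨v', hv', rfl⟩ := h1
      exact hv')
  refine ⟨fun i => (w i).1, fun i => (w i).2, fun f hf => ?_⟩
  have h1 : (⟨f, hf⟩ : homogeneousSubmodule (Fin (n + 1)) K k) ∈ T ⊔ Submodule.span K
      (Set.range fun x : Fin n × Fin c => (⟨X x.1.succ * (w x.2).1, by
        have h1 : (X x.1.succ * (w x.2).1).IsHomogeneous (1 + (k - 1)) :=
          (isHomogeneous_X K x.1.succ).mul (w x.2).2
        rwa [Nat.add_sub_cancel' hk] at h1⟩ : homogeneousSubmodule (Fin (n + 1)) K k)) := by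
    rw [hw]
    trivial
  obtain ⟨t, ⟨D, μ, ht⟩, v, hv, htv⟩ := Submodule.mem_sup.1 h1
  obtain ⟨ν, hν⟩ := (Submodule.mem_span_range_iff_exists_fun K).1 hv
  refine ⟨D, μ, fun i b => ν (b, i), ?_⟩
  have h2 := congrArg Subtype.val htv
  rw [Submodule.coe_add, ht, ← hν, Submodule.coe_sum] at h2
  refine h2.symm.trans ?_
  congr 1
  rw [Fintype.sum_prod_type, Finset.sum_comm]
  refine Finset.sum_congr rfl fun i _ => ?_
  rw [Finset.sum_mul]
  refine Finset.sum_congr rfl fun b _ => ?_
  rw [Submodule.coe_smul, smul_eq_C_mul]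
  ring

section alg1

variable {K : Type} [Field K] [Algebra ℂ K] {n c : ℕ}

/-- The parameters: a factor, linear forms, forms of degree `k - 1`. -/
abbrev PV (n c k : ℕ) : Type :=
  Unit ⊕ (Fin c × Fin n) ⊕ (Fin c × Ex (Fin (n + 1) ⊕ Fin c) (k - 1))

/-- The generic extension of `g`. -/
noncomputable def genF (k : ℕ) (g : MvPolynomial (Fin (n + 1)) K) :
    MvPolynomial (Fin (n + 1) ⊕ Fin c) (MvPolynomial (PV n c k) K) :=
  C (X (Sum.inl ())) * (rename Sum.inl (map (C : K →+* MvPolynomial (PV n c k) K) g) +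
    ∑ i : Fin c, (X (Sum.inr i) +
      ∑ b : Fin n, C (X (Sum.inr (Sum.inl (i, b)))) * X (Sum.inl b.succ)) *
        fm fun δ : Ex (Fin (n + 1) ⊕ Fin c) (k - 1) =>
          (X (Sum.inr (Sum.inr (i, δ))) : MvPolynomial (PV n c k) K))

omit [Algebra ℂ K] in
theorem genF_homogeneous {k : ℕ} (hk : 1 ≤ k) {g : MvPolynomial (Fin (n + 1)) K}
    (hg : g.IsHomogeneous k) : (genF (c := c) k g).IsHomogeneous k := by
  have h3 : 1 + (k - 1) = k := by omega
  have h1 : (C (X (Sum.inl ())) : MvPolynomial (Fin (n + 1) ⊕ Fin c)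
      (MvPolynomial (PV n c k) K)).IsHomogeneous 0 := isHomogeneous_C _ _
  have h2 : (rename (Sum.inl : Fin (n + 1) → Fin (n + 1) ⊕ Fin c)
      (map (C : K →+* MvPolynomial (PV n c k) K) g)).IsHomogeneous k :=
    (hg.map (C : K →+* MvPolynomial (PV n c k) K)).rename_isHomogeneous
  have h4 : (∑ i : Fin c, (X (Sum.inr i) +
      ∑ b : Fin n, C (X (Sum.inr (Sum.inl (i, b)))) * X (Sum.inl b.succ)) *
        fm fun δ : Ex (Fin (n + 1) ⊕ Fin c) (k - 1) =>
          (X (Sum.inr (Sum.inr (i, δ))) : MvPolynomial (PV n c k) K)).IsHomogeneous k := by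
    refine IsHomogeneous.sum _ _ _ fun i _ => ?_
    have h5 : (X (Sum.inr i) + ∑ b : Fin n, C (X (Sum.inr (Sum.inl (i, b)))) *
        X (Sum.inl b.succ) : MvPolynomial (Fin (n + 1) ⊕ Fin c)
          (MvPolynomial (PV n c k) K)).IsHomogeneous 1 := by
      refine (isHomogeneous_X _ _).add (IsHomogeneous.sum _ _ _ fun b _ => ?_)
      exact (isHomogeneous_C _ _).mul (isHomogeneous_X _ _)
    have h6 := h5.mul (fm_homogeneous (ν := Fin (n + 1) ⊕ Fin c) (k := k - 1)
      (fun δ => (X (Sum.inr (Sum.inr (i, δ))) : MvPolynomial (PV n c k) K)))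
    rwa [h3] at h6
  have h7 := h1.mul (h2.add h4)
  rw [zero_add] at h7
  exact h7

/-- The coefficients of the generic extension are algebraically independent. -/
theorem genF_independent {k : ℕ} (hk : 1 ≤ k)
    {g : MvPolynomial (Fin (n + 1)) K} (hg : g.IsHomogeneous k)
    (hg0 : eval (Pi.single 0 1) g ≠ 0) (p : Fin c → MvPolynomial (Fin (n + 1)) K)
    (hp : ∀ i, (p i).IsHomogeneous k)
    (hD : ∀ h : MvPolynomial (Fin (n + 1)) K, h.IsHomogeneous k →
      ∃ (D : Derivation ℂ K K) (μ : Fin c → K), h = mcf D g + ∑ i, C (μ i) * p i)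
    (Θ : MvPolynomial (Ex (Fin (n + 1) ⊕ Fin c) k) ℂ)
    (hΘ : aeval (fun γ => coeff γ.1 (genF (c := c) k g)) Θ = 0) : Θ = 0 := by
  classical
  obtain ⟨w, hw, hspan⟩ := greedy_forms hk hg hg0 p hp hD
  -- the point
  set θ : PV n c k → K := Sum.elim (fun _ => 1) (Sum.elim (fun _ => 0)
    (fun x => coeff x.2.1 (rename Sum.inl (w x.1)))) with hθ
  refine jac (eval θ : MvPolynomial (PV n c k) K →+* K) _ (fun v => ?_) Θ hΘ
  obtain ⟨V₀, H, hV₀, hH, hV⟩ := decomp (fm v) (fm_homogeneous v)
  obtain ⟨D, μ, ν, hV₀'⟩ := hspan V₀ hV₀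
  set D₁ : Derivation ℂ (MvPolynomial (PV n c k) K) (MvPolynomial (PV n c k) K) :=
    mcf D + (mkDerivation K (Sum.elim (fun _ => C μ) (Sum.elim (fun x => C (ν x.1 x.2))
      (fun x => C (coeff x.2.1 (H x.1 - C μ * rename Sum.inl (w x.1))))))).restrictScalars ℂ
    with hD₁
  have hC : ∀ x : K, D₁ (C x) = C (D x) := by
    intro x
    rw [hD₁, Derivation.add_apply, mcf_C]
    simp
  have hl : D₁ (X (Sum.inl ())) = C μ := by
    rw [hD₁, Derivation.add_apply, mcf_X]
    simp [mkDerivation_X]
  have hs : ∀ i b, D₁ (X (Sum.inr (Sum.inl (i, b)))) = C (ν i b) := by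
    intro i b
    rw [hD₁, Derivation.add_apply, mcf_X]
    simp [mkDerivation_X]
  have hE : ∀ i δ, D₁ (X (Sum.inr (Sum.inr (i, δ)))) =
      C (coeff δ.1 (H i - C μ * rename Sum.inl (w i))) := by
    intro i δ
    rw [hD₁, Derivation.add_apply, mcf_X, zero_add, Derivation.restrictScalars_apply,
      mkDerivation_X]
    rfl
  refine ⟨D₁, fun γ => ?_⟩
  have hmain : map (eval θ) (mcf D₁ (genF (c := c) k g)) = fm v := by
    have hg' : mcf D₁ (map (C : K →+* MvPolynomial (PV n c k) K) g) = map C (mcf D g) := by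
      ext m
      rw [coeff_mcf, coeff_map, coeff_map, coeff_mcf, hC]
    have hev : (eval θ).comp (C : K →+* MvPolynomial (PV n c k) K) = RingHom.id K := by
      ext x
      simp
    have hrn : ∀ P : MvPolynomial (Fin (n + 1)) K, map (eval θ)
        (rename (Sum.inl : Fin (n + 1) → Fin (n + 1) ⊕ Fin c)
          (map (C : K →+* MvPolynomial (PV n c k) K) P)) = rename Sum.inl P := by
      intro P
      rw [map_rename, map_map, hev, map_id]
    have hfm : ∀ i : Fin c, map (eval θ) (fm fun δ : Ex (Fin (n + 1) ⊕ Fin c) (k - 1) =>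
        (X (Sum.inr (Sum.inr (i, δ))) : MvPolynomial (PV n c k) K)) = rename Sum.inl (w i) := by
      intro i
      rw [map_fm]
      have h1 : (fun δ : Ex (Fin (n + 1) ⊕ Fin c) (k - 1) =>
          eval θ (X (Sum.inr (Sum.inr (i, δ))) : MvPolynomial (PV n c k) K)) =
          fun δ => coeff δ.1 (rename Sum.inl (w i)) := by
        funext δ
        rw [eval_X, hθ]
        rfl
      rw [h1]
      exact fm_coeff (hw i).rename_isHomogeneous
    have hfm' : ∀ i : Fin c, map (eval θ) (mcf D₁ (fm fun δ : Ex (Fin (n + 1) ⊕ Fin c) (k - 1) =>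
        (X (Sum.inr (Sum.inr (i, δ))) : MvPolynomial (PV n c k) K))) =
        H i - C μ * rename Sum.inl (w i) := by
      intro i
      rw [mcf_fm, map_fm]
      have h1 : (fun δ : Ex (Fin (n + 1) ⊕ Fin c) (k - 1) =>
          eval θ (D₁ (X (Sum.inr (Sum.inr (i, δ))) : MvPolynomial (PV n c k) K))) =
          fun δ => coeff δ.1 (H i - C μ * rename Sum.inl (w i)) := by
        funext δ
        rw [hE, eval_C]
      rw [h1]
      refine fm_coeff ((hH i).sub ?_)
      have h2 := (isHomogeneous_C (Fin (n + 1) ⊕ Fin c) μ).mul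
        ((hw i).rename_isHomogeneous (f := (Sum.inl : Fin (n + 1) → Fin (n + 1) ⊕ Fin c)))
      rwa [zero_add] at h2
    have hXl : map (eval θ) (C (X (Sum.inl ())) : MvPolynomial (Fin (n + 1) ⊕ Fin c)
        (MvPolynomial (PV n c k) K)) = 1 := by
      rw [map_C, eval_X, hθ]
      simp
    have hXs : ∀ i b, map (eval θ) (C (X (Sum.inr (Sum.inl (i, b)))) :
        MvPolynomial (Fin (n + 1) ⊕ Fin c) (MvPolynomial (PV n c k) K)) = 0 := by
      intro i b
      rw [map_C, eval_X, hθ]
      simp
    rw [genF, Derivation.leibniz, mcf_C, hl, (mcf D₁).map_add, mcf_rename, hg']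
    simp only [map_sum, Derivation.leibniz, map_add, mcf_X, mcf_C, hs, smul_eq_mul, mul_zero,
      zero_add, map_mul, hrn, hfm, hfm', hXl, hXs, map_X, map_C, eval_C, zero_mul, add_zero,
      Finset.sum_const_zero, one_mul]
    rw [hV, hV₀']
    simp only [map_add, map_mul, map_sum, rename_C, rename_X, Finset.sum_add_distrib, mul_sub,
      Finset.sum_sub_distrib]
    have e1 : ∑ x, X (Sum.inr x) * (C μ * rename Sum.inl (w x)) =
        (∑ x, X (Sum.inr x) * rename Sum.inl (w x)) * (C μ : MvPolynomial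
          (Fin (n + 1) ⊕ Fin c) K) := by
      rw [Finset.sum_mul]
      exact Finset.sum_congr rfl fun x _ => by ring
    have e2 : ∑ x, rename Sum.inl (w x) * ∑ y, X (Sum.inl y.succ) * C (ν x y) =
        ∑ x, (∑ y, C (ν x y) * X (Sum.inl y.succ)) * (rename Sum.inl (w x) : MvPolynomial
          (Fin (n + 1) ⊕ Fin c) K) := by
      refine Finset.sum_congr rfl fun x _ => ?_
      rw [mul_comm]
      congr 1
      exact Finset.sum_congr rfl fun y _ => mul_comm _ _
    rw [e1, e2]
    ring
  rw [← coeff_mcf, ← coeff_map, hmain]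
  exact coeff_fm v γ

/-- Generic extensions are generic. -/
theorem alg1 {k : ℕ} (hk : 1 ≤ k)
    {g : MvPolynomial (Fin (n + 1)) K} (hg : g.IsHomogeneous k)
    (hg0 : eval (Pi.single 0 1) g ≠ 0) (p : Fin c → MvPolynomial (Fin (n + 1)) K)
    (hp : ∀ i, (p i).IsHomogeneous k)
    (hD : ∀ h : MvPolynomial (Fin (n + 1)) K, h.IsHomogeneous k →
      ∃ (D : Derivation ℂ K K) (μ : Fin c → K), h = mcf D g + ∑ i, C (μ i) * p i)
    {Θ : MvPolynomial ((Fin (n + 1) ⊕ Fin c) →₀ ℕ) ℂ} (hΘ : rs Θ k ≠ 0) :
    ∃ (lam : ℂ) (ψ : MvPolynomial (Fin (n + 1) ⊕ Fin c) ℂ), lam ≠ 0 ∧ IsExt k ψ ∧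
      cv Θ (big K lam ψ g) ≠ 0 := by
  classical
  set P : MvPolynomial (PV n c k) K :=
    aeval (fun γ : Ex (Fin (n + 1) ⊕ Fin c) k => coeff γ.1 (genF (c := c) k g)) (rs Θ k) with hP
  have hP0 : X (Sum.inl ()) * P ≠ 0 :=
    mul_ne_zero (X_ne_zero _) fun h => hΘ (genF_independent hk hg hg0 p hp hD _ h)
  obtain ⟨θ, hθ⟩ : ∃ θ : PV n c k → ℂ, eval (fun i => algebraMap ℂ K (θ i))
      (X (Sum.inl ()) * P) ≠ 0 := by
    by_contra hcon
    push Not at hcon
    apply hP0
    refine funext_set (fun _ => Set.range (algebraMap ℂ K))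
      (fun _ => Set.infinite_range_of_injective (algebraMap ℂ K).injective) fun x hx => ?_
    choose θ hθ using fun i => hx i trivial
    rw [← funext hθ, map_zero]
    exact hcon θ
  rw [map_mul, eval_X] at hθ
  refine ⟨θ (Sum.inl ()), ∑ i, (X (Sum.inr i) + ∑ b, C (θ (Sum.inr (Sum.inl (i, b)))) *
    X (Sum.inl b.succ)) * fm fun δ => θ (Sum.inr (Sum.inr (i, δ))), ?_,
    ⟨_, _, fun i => fm_homogeneous _, rfl⟩, ?_⟩
  · intro h
    rw [h, map_zero, zero_mul] at hθ
    exact hθ rfl
  · have h1 := right_ne_zero_of_mul hθ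
    convert h1 using 1
    set ρ : MvPolynomial (PV n c k) K →+* K := eval fun i => algebraMap ℂ K (θ i) with hρ
    have h2 : map ρ (genF (c := c) k g) = big K (θ (Sum.inl ()))
        (∑ i, (X (Sum.inr i) + ∑ b, C (θ (Sum.inr (Sum.inl (i, b)))) *
          X (Sum.inl b.succ)) * fm fun δ => θ (Sum.inr (Sum.inr (i, δ)))) g := by
      have hev : ρ.comp (C : K →+* MvPolynomial (PV n c k) K) = RingHom.id K := by
        ext x
        simp [hρ]
      rw [genF, big]
      simp only [map_mul, map_add, map_sum, map_C, map_X, map_rename, map_map, hev, map_id,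
        map_fm]
      simp [hρ]
    have h3 : (big K (θ (Sum.inl ()))
        (∑ i, (X (Sum.inr i) + ∑ b, C (θ (Sum.inr (Sum.inl (i, b)))) *
          X (Sum.inl b.succ)) * fm fun δ => θ (Sum.inr (Sum.inr (i, δ)))) g).IsHomogeneous k := by
      rw [← h2]
      exact (genF_homogeneous hk hg).map _
    rw [cv_rs Θ h3, ← h2, hP, aeval_def, aeval_def, hom_eval₂]
    have h4 : ρ.comp (algebraMap ℂ (MvPolynomial (PV n c k) K)) = algebraMap ℂ K := by
      ext x
      rw [RingHom.comp_apply, IsScalarTower.algebraMap_apply ℂ K (MvPolynomial (PV n c k) K),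
        MvPolynomial.algebraMap_eq, hρ, eval_C]
    rw [h4]
    congr 1

end alg1

end Pool.Agent.H89T
end
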