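import Pool.Agent.Lib.H1M.PB.M003

/-! Merged copies (to shorten the build) of Lib.H67T.NH4, Lib.H67T.NH5, Lib.H67T.NJ1, Lib.H67T.NJ3, Lib.H67T.NJ2, Lib.H67T.NM4, Lib.H67T.NL3. -/

-- from Lib.H67T.NH4
section

set_option autoImplicit false

/-!
CHUNK NH4.
-/

open Real Metric MeasureTheory

namespace Pool.Agent.H67T

theorem nh4_differentiable (R : ℝ) (a : ℂ) : Differentiable ℂ (hatFactor R a) := by
  by_cases h : ‖a‖ < R
  · have e : hatFactor R a = fun z => ((R : ℂ) ^ 2 - (starRingEnd ℂ) a * z) / R := by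
      funext z
      rw [hatFactor, if_pos h]
    rw [e]
    fun_prop
  · have e : hatFactor R a = fun z => z - a := by
      funext z
      rw [hatFactor, if_neg h]
    rw [e]
    fun_prop

theorem nh4_logDeriv_pow (g : ℂ → ℂ) (hg : Differentiable ℂ g) (m : ℕ) (w : ℂ) :
    logDeriv (fun z => g z ^ m) w = m * logDeriv g w :=
  logDeriv_fun_pow (hg w) m

/-- CHUNK NH4.  Proof: differentiate.  `deriv f w / f w = ∑ a ∈ s, m a / (w - a) + h' w / h w`
(`logDeriv_mul`, `logDeriv_prod`, `logDeriv_fun_pow`), similarly for `hat`; then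
`norm_logDeriv_hatFactor_sub_le`. -/
theorem logDeriv_hat {R : ℝ} {s : Finset ℂ} {m : ℂ → ℕ} {h f : ℂ → ℂ}
    (hh : Differentiable ℂ h) (hh0 : ∀ z, ‖z‖ ≤ R → h z ≠ 0)
    (hf : ∀ z, f z = (∏ a ∈ s, (z - a) ^ m a) * h z) (hs : ∀ a ∈ s, ‖a‖ ≤ R) {w : ℂ}
    (hw : ‖w‖ < R) (hfw : f w ≠ 0) :
    ‖deriv f w / f w - deriv (hat R s m h) w / hat R s m h w‖ ≤
      ∑ a ∈ s, (m a : ℝ) * (1 / ‖w - a‖ + 1 / (R - ‖w‖)) := by
  have hhw : h w ≠ 0 := hh0 w hw.le
  have hff : f = fun z => (∏ a ∈ s, (z - a) ^ m a) * h z := funext hf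
  have hprod0 : ∏ a ∈ s, (w - a) ^ m a ≠ 0 := by
    intro h0
    apply hfw
    rw [hf, h0, zero_mul]
  have hfac0 : ∀ a ∈ s, (w - a) ^ m a ≠ 0 := Finset.prod_ne_zero_iff.1 hprod0
  have hd1 : ∀ a : ℂ, Differentiable ℂ fun z : ℂ => z - a := fun a => by fun_prop
  have h1 : logDeriv f w = ∑ a ∈ s, (m a : ℂ) * (1 / (w - a)) + logDeriv h w := by
    have hd2 : ∀ a ∈ s, DifferentiableAt ℂ (fun z : ℂ => (z - a) ^ m a) w :=
      fun a _ => ((hd1 a).fun_pow (m a)) w
    have hd3 : DifferentiableAt ℂ (fun z : ℂ => ∏ a ∈ s, (z - a) ^ m a) w :=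
      DifferentiableAt.fun_finsetProd hd2
    rw [hff, logDeriv_mul (f := fun z : ℂ => ∏ a ∈ s, (z - a) ^ m a) (g := h) w hprod0 hhw
      hd3 (hh w), logDeriv_prod (f := fun a z => (z - a) ^ m a) hfac0 hd2]
    congr 1
    refine Finset.sum_congr rfl fun a _ => ?_
    rw [nh4_logDeriv_pow _ (hd1 a)]
    congr 1
    rw [logDeriv_apply]
    simp
  have hprod0' : ∏ a ∈ s, hatFactor R a w ^ m a ≠ 0 :=
    Finset.prod_ne_zero_iff.2 fun a ha => pow_ne_zero _ (hatFactor_ne_zero (hs a ha) hw)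
  have h2 : logDeriv (hat R s m h) w = ∑ a ∈ s, (m a : ℂ) * logDeriv (hatFactor R a) w +
      logDeriv h w := by
    have e : hat R s m h = fun z => (∏ a ∈ s, hatFactor R a z ^ m a) * h z := rfl
    have hd2 : ∀ a ∈ s, DifferentiableAt ℂ (fun z : ℂ => hatFactor R a z ^ m a) w :=
      fun a _ => ((nh4_differentiable R a).fun_pow (m a)) w
    have hd3 : DifferentiableAt ℂ (fun z : ℂ => ∏ a ∈ s, hatFactor R a z ^ m a) w :=
      DifferentiableAt.fun_finsetProd hd2
    rw [e, logDeriv_mul (f := fun z : ℂ => ∏ a ∈ s, hatFactor R a z ^ m a) (g := h) w hprod0' hhw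
      hd3 (hh w), logDeriv_prod (f := fun a z => hatFactor R a z ^ m a)
      (Finset.prod_ne_zero_iff.1 hprod0') hd2]
    congr 1
    refine Finset.sum_congr rfl fun a _ => ?_
    rw [nh4_logDeriv_pow _ (nh4_differentiable R a)]
  have h3 : deriv f w / f w - deriv (hat R s m h) w / hat R s m h w =
      ∑ a ∈ s, (m a : ℂ) * (1 / (w - a) - deriv (hatFactor R a) w / hatFactor R a w) := by
    rw [← logDeriv_apply, ← logDeriv_apply, h1, h2, add_sub_add_right_eq_sub,
      ← Finset.sum_sub_distrib]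
    refine Finset.sum_congr rfl fun a _ => ?_
    rw [logDeriv_apply]
    ring
  rw [h3]
  refine (norm_sum_le _ _).trans (Finset.sum_le_sum fun a ha => ?_)
  rw [norm_mul, Complex.norm_natCast]
  by_cases hm : m a = 0
  · rw [hm]
    simp
  · refine mul_le_mul_of_nonneg_left ?_ (Nat.cast_nonneg _)
    apply norm_logDeriv_hatFactor_sub_le (hs a ha) hw
    intro hwa
    apply hfac0 a ha
    rw [hwa, sub_self, zero_pow hm]

end Pool.Agent.H67T
end

-- from Lib.H67T.NH5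
section

set_option autoImplicit false

/-!
CHUNK NH5.
-/

open Real Metric MeasureTheory

namespace Pool.Agent.H67T

theorem nh5_norm_circleAverage_le {F : ℂ → ℂ} {c : ℂ} {R : ℝ} :
    ‖circleAverage F c R‖ ≤ circleAverage (fun z => ‖F z‖) c R := by
  rw [circleAverage, circleAverage, smul_eq_mul, norm_smul, Real.norm_of_nonneg
    (inv_nonneg.2 two_pi_pos.le)]
  apply mul_le_mul_of_nonneg_left _ (inv_nonneg.2 two_pi_pos.le)
  exact intervalIntegral.norm_integral_le_integral_norm two_pi_pos.le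

/-- CHUNK NH5.  The logarithmic derivative of the quotient of two zero free functions.  Proof:
for `w` in the ball let
`G w = circleAverage (fun ζ => herglotzRieszKernel 0 w ζ • ((log ‖u ζ‖ - log ‖v ζ‖ : ℝ) : ℂ)) 0 R`.
By `re_circleAverage_herglotzRieszKernel_smul` and the hypotheses `hup`, `hvp`,
`re (G w) = log ‖u w‖ - log ‖v w‖`.  By `hasDerivAt_circleAverage_herglotzRieszKernel_smul`
`G' w = circleAverage (fun ζ => (2 ζ / (ζ - w) ^ 2) • ...) 0 R`.
On a small ball around `w` write `u / v = exp ℓ` with `ℓ` holomorphic (e.g.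
`ℓ = Complex.log (u z / v z / (u w / v w)) + c` near `w`); `re (G - ℓ) = 0`, so `G - ℓ` is
constant near `w` (e.g. from the Cauchy–Riemann equations, or the open mapping theorem
`AnalyticAt.eventually_constant_or_nhds_le_map_nhds`) and
`G' w = ℓ' w = u' / u - v' / v`.  (Alternatively `exp (G z) * v z / u z` has absolute value one,
hence is constant: `Complex.eventually_eq_of_isLocalMax_norm`, differentiate.)
Finally `‖2 ζ / (ζ - w) ^ 2‖ ≤ 2 R / (R - ‖w‖) ^ 2`. -/
theorem logDeriv_le_of_poisson {R : ℝ} (hR : 0 < R) {u v : ℂ → ℂ} (hu : Differentiable ℂ u)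
    (hv : Differentiable ℂ v) (hu0 : ∀ z, ‖z‖ < R → u z ≠ 0) (hv0 : ∀ z, ‖z‖ < R → v z ≠ 0)
    (hup : ∀ w : ℂ, ‖w‖ < R → circleAverage
      ((Complex.re ∘ herglotzRieszKernel 0 w) • fun ζ => log ‖u ζ‖) 0 R = log ‖u w‖)
    (hvp : ∀ w : ℂ, ‖w‖ < R → circleAverage
      ((Complex.re ∘ herglotzRieszKernel 0 w) • fun ζ => log ‖v ζ‖) 0 R = log ‖v w‖)
    {w : ℂ} (hw : ‖w‖ < R) :
    ‖deriv u w / u w - deriv v w / v w‖ ≤ 2 * R / (R - ‖w‖) ^ 2 *
      circleAverage (fun ζ => |log ‖u ζ‖ - log ‖v ζ‖|) 0 R := by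
  have hball : ∀ z : ℂ, ‖z‖ < R → z ∈ ball (0 : ℂ) R := fun z hz => by
    rwa [mem_ball_zero_iff]
  have iu : CircleIntegrable (fun ζ => log ‖u ζ‖) 0 R :=
    MeromorphicOn.circleIntegrable_log_norm (fun z _ => (hu.analyticAt z).meromorphicAt)
  have iv : CircleIntegrable (fun ζ => log ‖v ζ‖) 0 R :=
    MeromorphicOn.circleIntegrable_log_norm (fun z _ => (hv.analyticAt z).meromorphicAt)
  have ig : CircleIntegrable (fun ζ => log ‖u ζ‖ - log ‖v ζ‖) 0 R := IntervalIntegrable.sub iu iv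
  have igC : CircleIntegrable (fun ζ => ((log ‖u ζ‖ - log ‖v ζ‖ : ℝ) : ℂ)) 0 R := by
    have h1 := ig
    simp only [CircleIntegrable, intervalIntegrable_iff] at h1 ⊢
    exact Complex.ofRealCLM.integrable_comp h1
  set G : ℂ → ℂ := fun w => circleAverage
    (fun ζ => herglotzRieszKernel 0 w ζ • ((log ‖u ζ‖ - log ‖v ζ‖ : ℝ) : ℂ)) 0 R with hG
  have hre : ∀ z : ℂ, ‖z‖ < R → (G z).re = log ‖u z‖ - log ‖v z‖ := by
    intro z hz
    have hz' := hball z hz
    have hk : ContinuousOn (Complex.re ∘ herglotzRieszKernel 0 z) (sphere 0 |R|) :=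
      Complex.continuous_re.comp_continuousOn (continuousOn_herglotzRieszKernel_sphere hz')
    have e1 : (G z).re = circleAverage ((Complex.re ∘ herglotzRieszKernel 0 z) •
        fun ζ => (log ‖u ζ‖ - log ‖v ζ‖ : ℝ)) 0 R :=
      re_circleAverage_herglotzRieszKernel_smul ig hz'
    have e2 : ((Complex.re ∘ herglotzRieszKernel 0 z) • fun ζ => (log ‖u ζ‖ - log ‖v ζ‖ : ℝ)) =
        ((Complex.re ∘ herglotzRieszKernel 0 z) • fun ζ => log ‖u ζ‖) -
        ((Complex.re ∘ herglotzRieszKernel 0 z) • fun ζ => log ‖v ζ‖) := by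
      funext ζ
      exact mul_sub _ _ _
    rw [e1, e2, circleAverage_sub (iu.continuousOn_smul hk) (iv.continuousOn_smul hk), hup z hz,
      hvp z hz]
  have hGd : ∀ z : ℂ, ‖z‖ < R → HasDerivAt G (circleAverage
      (fun ζ => (2 * ζ / (ζ - z) ^ 2) • ((log ‖u ζ‖ - log ‖v ζ‖ : ℝ) : ℂ)) 0 R) z :=
    fun z hz => hasDerivAt_circleAverage_herglotzRieszKernel_smul igC (hball z hz)
  -- the function of constant absolute value
  have hEn : ∀ z : ℂ, ‖z‖ < R → ‖Complex.exp (G z) * (v z / u z)‖ = 1 := by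
    intro z hz
    have h1 : 0 < ‖u z‖ := norm_pos_iff.2 (hu0 z hz)
    have h2 : 0 < ‖v z‖ := norm_pos_iff.2 (hv0 z hz)
    rw [norm_mul, Complex.norm_exp, hre z hz, norm_div, Real.exp_sub, Real.exp_log h1,
      Real.exp_log h2]
    field_simp
  have hnhds : ∀ᶠ z in nhds w, ‖z‖ < R := by
    filter_upwards [isOpen_ball.mem_nhds (hball w hw)] with z hz
    rwa [mem_ball_zero_iff] at hz
  have hEd : ∀ z : ℂ, ‖z‖ < R →
      DifferentiableAt ℂ (fun z => Complex.exp (G z) * (v z / u z)) z := by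
    intro z hz
    exact ((hGd z hz).differentiableAt.cexp).mul ((hv z).div (hu z) (hu0 z hz))
  have hconst : ∀ᶠ z in nhds w, Complex.exp (G z) * (v z / u z) =
      Complex.exp (G w) * (v w / u w) := by
    apply Complex.eventually_eq_of_isLocalMax_norm
      (f := fun z => Complex.exp (G z) * (v z / u z))
    · filter_upwards [hnhds] with z hz
      exact hEd z hz
    · filter_upwards [hnhds] with z hz
      simp only [Function.comp_apply]
      rw [hEn z hz, hEn w hw]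
  have hderiv0 : logDeriv (fun z => Complex.exp (G z) * (v z / u z)) w = 0 := by
    rw [logDeriv_apply]
    have h1 : deriv (fun z => Complex.exp (G z) * (v z / u z)) w = 0 := by
      have h2 : (fun z => Complex.exp (G z) * (v z / u z)) =ᶠ[nhds w]
          fun _ => Complex.exp (G w) * (v w / u w) := hconst
      rw [h2.deriv_eq]
      exact deriv_const _ _
    rw [h1, zero_div]
  have hG' : deriv u w / u w - deriv v w / v w = circleAverage
      (fun ζ => (2 * ζ / (ζ - w) ^ 2) • ((log ‖u ζ‖ - log ‖v ζ‖ : ℝ) : ℂ)) 0 R := by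
    rw [logDeriv_mul (f := fun z => Complex.exp (G z)) (g := fun z => v z / u z) w
      (Complex.exp_ne_zero _) (div_ne_zero (hv0 w hw) (hu0 w hw))
      (hGd w hw).differentiableAt.cexp ((hv w).div (hu w) (hu0 w hw)),
      logDeriv_div w (hv0 w hw) (hu0 w hw) (hv w) (hu w)] at hderiv0
    have h1 : logDeriv (fun z => Complex.exp (G z)) w = circleAverage
        (fun ζ => (2 * ζ / (ζ - w) ^ 2) • ((log ‖u ζ‖ - log ‖v ζ‖ : ℝ) : ℂ)) 0 R := by
      rw [logDeriv_apply, (hGd w hw).cexp.deriv, mul_div_cancel_left₀ _ (Complex.exp_ne_zero _)]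
    rw [h1, logDeriv_apply, logDeriv_apply] at hderiv0
    linear_combination (-1 : ℂ) * hderiv0
  rw [hG']
  have hsub : 0 < R - ‖w‖ := by linarith
  have hne : ∀ ζ ∈ sphere (0 : ℂ) |R|, ζ - w ≠ 0 := by
    intro ζ hζ h
    rw [mem_sphere_zero_iff_norm, abs_of_pos hR] at hζ
    rw [sub_eq_zero.1 h] at hζ
    linarith
  have hkc : ContinuousOn (fun ζ : ℂ => 2 * ζ / (ζ - w) ^ 2) (sphere 0 |R|) := by
    apply ContinuousOn.div (by fun_prop) (by fun_prop)
    intro ζ hζ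
    exact pow_ne_zero _ (hne ζ hζ)
  refine nh5_norm_circleAverage_le.trans ?_
  have hsm : circleAverage (fun ζ => 2 * R / (R - ‖w‖) ^ 2 * |log ‖u ζ‖ - log ‖v ζ‖|) 0 R =
      2 * R / (R - ‖w‖) ^ 2 * circleAverage (fun ζ => |log ‖u ζ‖ - log ‖v ζ‖|) 0 R := by
    have := circleAverage_fun_smul (a := 2 * R / (R - ‖w‖) ^ 2)
      (f := fun ζ => |log ‖u ζ‖ - log ‖v ζ‖|) (c := 0) (R := R)
    simpa [smul_eq_mul] using this
  rw [← hsm]
  apply circleAverage_mono
  · have h1 : CircleIntegrable (fun ζ : ℂ =>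
        (2 * ζ / (ζ - w) ^ 2) • ((log ‖u ζ‖ - log ‖v ζ‖ : ℝ) : ℂ)) 0 R := by
      have := igC.continuousOn_smul hkc
      exact this
    exact IntervalIntegrable.norm h1
  · exact (IntervalIntegrable.abs ig).const_mul _
  · intro ζ hζ
    have hζ' : ‖ζ‖ = R := by
      rwa [mem_sphere_zero_iff_norm, abs_of_pos hR] at hζ
    rw [norm_smul, Complex.norm_real, Real.norm_eq_abs]
    refine mul_le_mul_of_nonneg_right ?_ (abs_nonneg _)
    rw [norm_div, norm_mul, norm_pow, Complex.norm_ofNat, hζ']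
    have h1 : R - ‖w‖ ≤ ‖ζ - w‖ := by
      have := norm_sub_norm_le ζ w
      rw [hζ'] at this
      exact this
    apply div_le_div_of_nonneg_left (by positivity) (by positivity)
    exact pow_le_pow_left₀ hsub.le h1 2

end Pool.Agent.H67T
end

-- from Lib.H67T.NJ1
section

set_option autoImplicit false

/-!
CHUNK NJ1.  Jensen's formula.
-/

open Real Metric MeasureTheory

namespace Pool.Agent.H67T

theorem NJ1_untop (n : ℕ∞) : ((n.map (↑) : WithTop ℤ).untop₀ : ℤ) = (n.toNat : ℤ) := by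
  induction n using ENat.recTopCoe with
  | top => simp
  | coe n => simp

theorem NJ1_div {f : ℂ → ℂ} (hf : Differentiable ℂ f) {U : Set ℂ} {z : ℂ} (hz : z ∈ U) :
    MeromorphicOn.divisor f U z = (analyticOrderNatAt f z : ℤ) := by
  have hfa : AnalyticOnNhd ℂ f U := fun x _ => hf.analyticAt x
  rw [MeromorphicOn.AnalyticOnNhd.divisor_apply hfa hz]
  exact NJ1_untop _

theorem NJ1_ne_top {f : ℂ → ℂ} (hf : Differentiable ℂ f) (h0 : ∃ z, f z ≠ 0) (a : ℂ) :
    analyticOrderAt f a ≠ ⊤ := by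
  obtain ⟨z, hz⟩ := h0
  have hfa : AnalyticOnNhd ℂ f Set.univ := fun x _ => hf.analyticAt x
  refine hfa.analyticOrderAt_ne_top_of_isPreconnected isPreconnected_univ (Set.mem_univ z)
    (Set.mem_univ a) ?_
  rw [(hfa z (Set.mem_univ z)).analyticOrderAt_eq_zero.2 hz]
  exact ENat.zero_ne_top

theorem NJ1_fin {f : ℂ → ℂ} (hf : Differentiable ℂ f) (h0 : ∃ z, f z ≠ 0) (r : ℝ) :
    {a : ℂ | ‖a‖ ≤ r ∧ f a = 0}.Finite := by
  have hfin := (MeromorphicOn.divisor f (closedBall 0 r)).finiteSupport (isCompact_closedBall 0 r)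
  refine hfin.subset fun a ha => ?_
  have hmem : a ∈ closedBall (0 : ℂ) r := by
    rw [mem_closedBall, dist_zero_right]
    exact ha.1
  rw [Function.mem_support, NJ1_div hf hmem]
  intro hc
  have h1 : analyticOrderNatAt f a = 0 := by exact_mod_cast hc
  have h2 := Nat.cast_analyticOrderNatAt (NJ1_ne_top hf h0 a)
  rw [h1] at h2
  have h3 := ((hf.analyticAt a).analyticOrderAt_ne_zero).2 ha.2
  exact h3 h2.symm

/-- CHUNK NJ1.  Jensen's formula for entire functions.  Proof: `MeromorphicOn.circleAverage_log_norm`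
(in `Mathlib/Analysis/Complex/JensenFormula.lean`) with `c = 0`,
`K = log ‖meromorphicTrailingCoeffAt f 0‖`; for `u ∈ closedBall 0 |r|` the divisor is
`analyticOrderNatAt f u` (`AnalyticOnNhd.divisor_apply`, orders are finite since `f` is not
identically zero), it vanishes outside of the zeros of `f`; turn the `finsum` into the sum over `s`
(`finsum_eq_sum_of_support_subset`). -/
theorem jensen {f : ℂ → ℂ} (hf : Differentiable ℂ f) (h0 : ∃ z, f z ≠ 0) :
    ∃ K : ℝ, ∀ r : ℝ, 1 ≤ r → ∀ s : Finset ℂ, (∀ a, ‖a‖ ≤ r → f a = 0 → a ∈ s) →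
      (∀ a ∈ s, ‖a‖ ≤ r) →
      circleAverage (fun z => log ‖f z‖) 0 r =
        ∑ a ∈ s, (analyticOrderNatAt f a : ℝ) * log (r / ‖a‖) +
          (analyticOrderNatAt f 0 : ℝ) * log r + K := by
  have _ := h0
  refine ⟨log ‖meromorphicTrailingCoeffAt f 0‖, fun r hr s hs1 hs2 => ?_⟩
  have hr0 : r ≠ 0 := by positivity
  have habs : |r| = r := abs_of_pos (by linarith)
  have hfa : AnalyticOnNhd ℂ f (closedBall 0 |r|) := fun x _ => hf.analyticAt x
  rw [MeromorphicOn.circleAverage_log_norm hr0 hfa.meromorphicOn, NJ1_div hf (by simp)]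
  congr 2
  have hmem : ∀ a ∈ s, a ∈ closedBall (0 : ℂ) |r| := by
    intro a ha
    rw [mem_closedBall, dist_zero_right, habs]
    exact hs2 a ha
  rw [finsum_eq_sum_of_support_subset (s := s)]
  · refine Finset.sum_congr rfl fun a ha => ?_
    rw [NJ1_div hf (hmem a ha), zero_sub, norm_neg, div_eq_mul_inv]
    push_cast
    rfl
  · intro a ha
    rw [Function.mem_support] at ha
    have h1 : MeromorphicOn.divisor f (closedBall 0 |r|) a ≠ 0 := by
      intro hc
      rw [hc] at ha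
      simp at ha
    have h2 : a ∈ closedBall (0 : ℂ) |r| := by
      by_contra hc
      exact h1 (Function.locallyFinsuppWithin.apply_eq_zero_of_notMem _ hc)
    rw [NJ1_div hf h2] at h1
    have h3 : f a = 0 := apply_eq_zero_of_analyticOrderNatAt_ne_zero (by exact_mod_cast h1)
    rw [mem_closedBall, dist_zero_right, habs] at h2
    exact hs1 a h2 h3

end Pool.Agent.H67T
end

-- from Lib.H67T.NJ3
section

set_option autoImplicit false

/-!
CHUNK NJ3.  The number of zeros in a disc.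
-/

open Real Metric MeasureTheory

namespace Pool.Agent.H67T

theorem NJ3_ord {f : ℂ → ℂ} (hf : Differentiable ℂ f) (h0 : ∃ z, f z ≠ 0) {s : Finset ℂ}
    {m : ℂ → ℕ} {h : ℂ → ℂ} (hh : Differentiable ℂ h)
    (hfac : ∀ z, f z = (∏ a ∈ s, (z - a) ^ m a) * h z) {a : ℂ} (ha : a ∈ s) :
    m a ≤ analyticOrderNatAt f a := by
  have h1 : (m a : ℕ∞) ≤ analyticOrderAt f a := by
    rw [natCast_le_analyticOrderAt (hf.analyticAt a)]
    refine ⟨fun z => (∏ b ∈ s.erase a, (z - b) ^ m b) * h z, ?_, Filter.Eventually.of_forall ?_⟩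
    · have : Differentiable ℂ (fun z => (∏ b ∈ s.erase a, (z - b) ^ m b) * h z) := by
        refine Differentiable.mul ?_ hh
        fun_prop
      exact this.analyticAt a
    · intro z
      rw [hfac z, ← Finset.mul_prod_erase s _ ha, smul_eq_mul, mul_assoc]
  rw [← Nat.cast_analyticOrderNatAt (NJ1_ne_top hf h0 a)] at h1
  exact_mod_cast h1

/-- CHUNK NJ3.  The number of zeros in a disc.  Proof: by `jensen` at `R'`, restricted to the points
of `s`; the order of `f` at `a ∈ s` is at least `m a`, and `log (R' / ‖a‖) ≥ log (R' / R)`. -/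
theorem count_le {f : ℂ → ℂ} (hf : Differentiable ℂ f) (h0 : ∃ z, f z ≠ 0) :
    ∃ K : ℝ, ∀ (R R' : ℝ) (s : Finset ℂ) (m : ℂ → ℕ) (h : ℂ → ℂ), 1 ≤ R → R < R' →
      Differentiable ℂ h → (∀ z, ‖z‖ ≤ R → h z ≠ 0) →
      (∀ z, f z = (∏ a ∈ s, (z - a) ^ m a) * h z) → (∀ a ∈ s, ‖a‖ ≤ R ∧ 1 ≤ m a) →
      (∑ a ∈ s, (m a : ℝ)) * log (R' / R) ≤ circleAverage (fun z => log ‖f z‖) 0 R' + K := by
  obtain ⟨K, hK⟩ := jensen hf h0
  refine ⟨-K, fun R R' s m h hR hRR hh _ hfac hs => ?_⟩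
  have hR' : 1 ≤ R' := hR.trans hRR.le
  have hRpos : 0 < R := by linarith
  have hR'pos : 0 < R' := by linarith
  have hfin := NJ1_fin hf h0 R'
  rw [hK R' hR' hfin.toFinset (fun a ha hfa => by simpa using ⟨ha, hfa⟩)
    (fun a ha => by
      have : ‖a‖ ≤ R' ∧ f a = 0 := by simpa using ha
      exact this.1)]
  have hlog : 0 ≤ log (R' / R) := log_nonneg ((one_le_div hRpos).2 hRR.le)
  have hsub : s ⊆ hfin.toFinset := by
    intro a ha
    have h1 : f a = 0 := by
      rw [hfac a, Finset.prod_eq_zero ha, zero_mul]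
      rw [sub_self, zero_pow]
      have := (hs a ha).2
      omega
    simpa using ⟨(hs a ha).1.trans hRR.le, h1⟩
  have hterm : ∀ a ∈ hfin.toFinset, 0 ≤ (analyticOrderNatAt f a : ℝ) * log (R' / ‖a‖) := by
    intro a ha
    refine mul_nonneg (Nat.cast_nonneg _) ?_
    have ha' : ‖a‖ ≤ R' ∧ f a = 0 := by simpa using ha
    rcases (norm_nonneg a).eq_or_lt with h | h
    · rw [← h]; simp
    · exact log_nonneg ((one_le_div h).2 ha'.1)
  have h1 : ∑ a ∈ s, (analyticOrderNatAt f a : ℝ) * log (R' / ‖a‖) ≤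
      ∑ a ∈ hfin.toFinset, (analyticOrderNatAt f a : ℝ) * log (R' / ‖a‖) :=
    Finset.sum_le_sum_of_subset_of_nonneg hsub fun a ha _ => hterm a ha
  have h2 : (∑ a ∈ s, (m a : ℝ)) * log (R' / R) ≤
      ∑ a ∈ s, (analyticOrderNatAt f a : ℝ) * log (R' / ‖a‖) +
        (analyticOrderNatAt f 0 : ℝ) * log R' := by
    have hge : ∀ a ∈ s, a ≠ 0 → (m a : ℝ) * log (R' / R) ≤
        (analyticOrderNatAt f a : ℝ) * log (R' / ‖a‖) := by
      intro a ha ha0
      have hapos : 0 < ‖a‖ := norm_pos_iff.2 ha0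
      refine mul_le_mul (by exact_mod_cast NJ3_ord hf h0 hh hfac ha) ?_ hlog (Nat.cast_nonneg _)
      refine log_le_log (by positivity) ?_
      exact div_le_div_of_nonneg_left hR'pos.le hapos (hs a ha).1
    by_cases h0s : (0 : ℂ) ∈ s
    · rw [← Finset.add_sum_erase s _ h0s, ← Finset.add_sum_erase s _ h0s, add_mul, Finset.sum_mul]
      have h3 : ∑ a ∈ s.erase 0, (m a : ℝ) * log (R' / R) ≤
          ∑ a ∈ s.erase 0, (analyticOrderNatAt f a : ℝ) * log (R' / ‖a‖) :=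
        Finset.sum_le_sum fun a ha => hge a (Finset.mem_of_mem_erase ha) (Finset.ne_of_mem_erase ha)
      have h4 : (m 0 : ℝ) * log (R' / R) ≤ (analyticOrderNatAt f 0 : ℝ) * log R' := by
        refine mul_le_mul (by exact_mod_cast NJ3_ord hf h0 hh hfac h0s) ?_ hlog (Nat.cast_nonneg _)
        refine log_le_log (by positivity) ?_
        exact div_le_self hR'pos.le hR
      simp only [norm_zero, div_zero, log_zero, mul_zero, zero_add]
      linarith
    · rw [Finset.sum_mul]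
      have h3 : ∑ a ∈ s, (m a : ℝ) * log (R' / R) ≤
          ∑ a ∈ s, (analyticOrderNatAt f a : ℝ) * log (R' / ‖a‖) :=
        Finset.sum_le_sum fun a ha => hge a ha (fun h => h0s (h ▸ ha))
      have h4 : 0 ≤ (analyticOrderNatAt f 0 : ℝ) * log R' :=
        mul_nonneg (Nat.cast_nonneg _) (log_nonneg hR')
      linarith
  linarith

end Pool.Agent.H67T
end

-- from Lib.H67T.NJ2
section

set_option autoImplicit false

/-!
CHUNK NJ2.
-/

open Real Metric MeasureTheory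

namespace Pool.Agent.H67T

/-- CHUNK NJ2.  Proof: `jensen`; all terms except `K` are nonnegative for `r ≥ 1`
(`log (r / ‖a‖) ≥ 0`, also for `a = 0` as `log 0 = 0`).  The zeros in the ball form a finite set. -/
theorem avg_ge {f : ℂ → ℂ} (hf : Differentiable ℂ f) (h0 : ∃ z, f z ≠ 0) :
    ∃ K : ℝ, ∀ r : ℝ, 1 ≤ r → K ≤ circleAverage (fun z => log ‖f z‖) 0 r := by
  obtain ⟨K, hK⟩ := jensen hf h0
  refine ⟨K, fun r hr => ?_⟩
  have hfin := NJ1_fin hf h0 r
  rw [hK r hr hfin.toFinset (fun a ha hfa => by simpa using ⟨ha, hfa⟩)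
    (fun a ha => by
      have : ‖a‖ ≤ r ∧ f a = 0 := by simpa using ha
      exact this.1)]
  have h1 : 0 ≤ ∑ a ∈ hfin.toFinset, (analyticOrderNatAt f a : ℝ) * log (r / ‖a‖) := by
    refine Finset.sum_nonneg fun a ha => mul_nonneg (Nat.cast_nonneg _) ?_
    have ha' : ‖a‖ ≤ r ∧ f a = 0 := by simpa using ha
    rcases (norm_nonneg a).eq_or_lt with h | h
    · rw [← h]; simp
    · exact log_nonneg ((one_le_div h).2 ha'.1)
  have h2 : 0 ≤ (analyticOrderNatAt f 0 : ℝ) * log r :=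
    mul_nonneg (Nat.cast_nonneg _) (log_nonneg hr)
  linarith

end Pool.Agent.H67T
end

-- from Lib.H67T.NM4
section

set_option autoImplicit false

/-!
CHUNK NM4.
-/

open Real Metric MeasureTheory Filter

namespace Pool.Agent.H67T

/-- CHUNK NM4.  Proof: `|log ‖f‖ - log ‖y‖| ≤ (log ‖y‖ - log ‖f‖) + 2 log A` off finitely many
points of the circle; average and use `avg_ge`, then the triangle inequality
`|log ‖f‖ - log ‖g‖| ≤ |log ‖f‖ - log ‖y‖| + |log ‖g‖ - log ‖y‖|`. -/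
theorem avg_abs_le {n : ℕ} {y : ℂ → Fin n → ℂ} (hy : IsHol y) {f g : ℂ → ℂ}
    (hf : Differentiable ℂ f) (hg : Differentiable ℂ g) (hf0 : ∃ z, f z ≠ 0)
    (hg0 : ∃ z, g z ≠ 0) {A : ℝ} (hA : 1 ≤ A) (hfy : ∀ z, ‖f z‖ ≤ A * ‖y z‖)
    (hgy : ∀ z, ‖g z‖ ≤ A * ‖y z‖) :
    ∃ K : ℝ, ∀ r : ℝ, 1 ≤ r →
      circleAverage (fun z => |log ‖f z‖ - log ‖g z‖|) 0 r ≤ 2 * chi y r + K := by
  obtain ⟨K₁, hK₁⟩ := avg_ge hf hf0
  obtain ⟨K₂, hK₂⟩ := avg_ge hg hg0
  refine ⟨4 * log A - K₁ - K₂, fun r hr => ?_⟩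
  have hr0 : 0 < r := by linarith
  have hA0 : 0 < A := by linarith
  have hlA : 0 ≤ log A := Real.log_nonneg hA
  have hif := NM3_int hf 0 r
  have hig := NM3_int hg 0 r
  have hiy := NM3_inty hy 0 r
  have hic : CircleIntegrable (fun _ : ℂ => 4 * log A) 0 r := circleIntegrable_const _ _ _
  have hi1 : CircleIntegrable (fun z => |log ‖f z‖ - log ‖g z‖|) 0 r := (hif.sub hig).abs
  have hi2 : CircleIntegrable (fun z => log ‖y z‖ + log ‖y z‖) 0 r := hiy.add hiy
  have hi3 : CircleIntegrable (fun z => log ‖f z‖ + log ‖g z‖) 0 r := hif.add hig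
  have hi4 : CircleIntegrable (fun z => (log ‖y z‖ + log ‖y z‖) - (log ‖f z‖ + log ‖g z‖)) 0 r :=
    hi2.sub hi3
  have hi5 : CircleIntegrable
      (fun z => ((log ‖y z‖ + log ‖y z‖) - (log ‖f z‖ + log ‖g z‖)) + 4 * log A) 0 r :=
    hi4.add hic
  have key : circleAverage (fun z => |log ‖f z‖ - log ‖g z‖|) 0 r ≤
      circleAverage
        (fun z => ((log ‖y z‖ + log ‖y z‖) - (log ‖f z‖ + log ‖g z‖)) + 4 * log A) 0 r := by
    refine NM3_mono' hr0 hi1 hi5 ?_
    filter_upwards [NM3_ne hf hf0 (sphere 0 |r|), NM3_ne hg hg0 (sphere 0 |r|)] with z h1 h2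
    have hy0 : 0 < ‖y z‖ := norm_pos_iff.2 (hy.ne_zero z)
    have e1 : log ‖f z‖ ≤ log ‖y z‖ + log A := by
      rw [← Real.log_mul hy0.ne' hA0.ne', mul_comm]
      exact Real.log_le_log (norm_pos_iff.2 h1) (hfy z)
    have e2 : log ‖g z‖ ≤ log ‖y z‖ + log A := by
      rw [← Real.log_mul hy0.ne' hA0.ne', mul_comm]
      exact Real.log_le_log (norm_pos_iff.2 h2) (hgy z)
    rw [abs_le]
    constructor <;> linarith
  have e : circleAverage
        (fun z => ((log ‖y z‖ + log ‖y z‖) - (log ‖f z‖ + log ‖g z‖)) + 4 * log A) 0 r =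
      (chi y r + chi y r) - (circleAverage (fun z => log ‖f z‖) 0 r +
        circleAverage (fun z => log ‖g z‖) 0 r) + 4 * log A := by
    rw [circleAverage_fun_add hi4 hic, circleAverage_fun_sub hi2 hi3,
      circleAverage_fun_add hiy hiy, circleAverage_fun_add hif hig, circleAverage_const]
    rfl
  rw [e] at key
  have := hK₁ r hr
  have := hK₂ r hr
  linarith

end Pool.Agent.H67T
end

-- from Lib.H67T.NL3
section

set_option autoImplicit false

/-!
CHUNK NL3.
-/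

open Real Metric MeasureTheory

namespace Pool.Agent.H67T

theorem NL3_diffFactor (R : ℝ) (a : ℂ) : Differentiable ℂ (hatFactor R a) := by
  unfold hatFactor
  by_cases h : ‖a‖ < R
  · simp only [h, if_true]
    fun_prop
  · simp only [h, if_false]
    fun_prop

theorem NL3_diff {R : ℝ} {s : Finset ℂ} {m : ℂ → ℕ} {h : ℂ → ℂ} (hh : Differentiable ℂ h) :
    Differentiable ℂ (hat R s m h) := by
  unfold hat
  apply Differentiable.mul _ hh
  apply Differentiable.fun_finsetProd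
  intro a _
  exact (NL3_diffFactor R a).pow _

theorem NL3_ne {R : ℝ} {s : Finset ℂ} {m : ℂ → ℕ} {h : ℂ → ℂ}
    (hh0 : ∀ z, ‖z‖ ≤ R → h z ≠ 0) (hs : ∀ a ∈ s, ‖a‖ ≤ R) {z : ℂ} (hz : ‖z‖ < R) :
    hat R s m h z ≠ 0 := by
  unfold hat
  apply mul_ne_zero _ (hh0 z hz.le)
  exact Finset.prod_ne_zero_iff.2 fun a ha => pow_ne_zero _ (hatFactor_ne_zero (hs a ha) hz)

theorem NL3_norm {R : ℝ} (hR : 0 < R) {s : Finset ℂ} {m : ℂ → ℕ} {h f : ℂ → ℂ}
    (hf : ∀ z, f z = (∏ a ∈ s, (z - a) ^ m a) * h z) {z : ℂ} (hz : ‖z‖ = R) :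
    ‖hat R s m h z‖ = ‖f z‖ := by
  unfold hat
  rw [hf, norm_mul, norm_mul, norm_prod, norm_prod]
  congr 1
  apply Finset.prod_congr rfl
  intro a _
  rw [norm_pow, norm_pow, norm_hatFactor_eq hR hz]

/-- CHUNK NL3.  The pointwise bound.  Proof: with `u = hat R s m h`, `v = hat R s' m' h'`:
triangle inequality, `logDeriv_hat` (twice) and `logDeriv_le_of_poisson`, where
`poisson_hat` gives the hypotheses and `‖u ζ‖ = ‖f ζ‖`, `‖v ζ‖ = ‖g ζ‖` on the circle
(`norm_hatFactor_eq`). -/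
theorem logDeriv_sub_le {R : ℝ} (hR : 0 < R) {f g h h' : ℂ → ℂ} {s s' : Finset ℂ} {m m' : ℂ → ℕ}
    (hh : Differentiable ℂ h) (hh0 : ∀ z, ‖z‖ ≤ R → h z ≠ 0)
    (hf : ∀ z, f z = (∏ a ∈ s, (z - a) ^ m a) * h z) (hs : ∀ a ∈ s, ‖a‖ ≤ R)
    (hh' : Differentiable ℂ h') (hh'0 : ∀ z, ‖z‖ ≤ R → h' z ≠ 0)
    (hg : ∀ z, g z = (∏ a ∈ s', (z - a) ^ m' a) * h' z) (hs' : ∀ a ∈ s', ‖a‖ ≤ R) {w : ℂ}
    (hw : ‖w‖ < R) (hfw : f w ≠ 0) (hgw : g w ≠ 0) :
    ‖deriv f w / f w - deriv g w / g w‖ ≤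
      ∑ a ∈ s, (m a : ℝ) * (1 / ‖w - a‖ + 1 / (R - ‖w‖)) +
      ∑ a ∈ s', (m' a : ℝ) * (1 / ‖w - a‖ + 1 / (R - ‖w‖)) +
      2 * R / (R - ‖w‖) ^ 2 * circleAverage (fun ζ => |log ‖f ζ‖ - log ‖g ζ‖|) 0 R := by
  have h1 := logDeriv_hat hh hh0 hf hs hw hfw
  have h2 := logDeriv_hat hh' hh'0 hg hs' hw hgw
  have h3 := logDeriv_le_of_poisson hR (NL3_diff (R := R) (s := s) (m := m) hh)
    (NL3_diff (R := R) (s := s') (m := m') hh') (fun z hz => NL3_ne hh0 hs hz)
    (fun z hz => NL3_ne hh'0 hs' hz) (fun w hw => poisson_hat hR hh hh0 hs hw)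
    (fun w hw => poisson_hat hR hh' hh'0 hs' hw) hw
  have h4 : circleAverage (fun ζ => |log ‖hat R s m h ζ‖ - log ‖hat R s' m' h' ζ‖|) 0 R =
      circleAverage (fun ζ => |log ‖f ζ‖ - log ‖g ζ‖|) 0 R := by
    apply circleAverage_congr_sphere
    intro ζ hζ
    have hζ' : ‖ζ‖ = R := by
      rw [mem_sphere_zero_iff_norm, abs_of_pos hR] at hζ
      exact hζ
    simp only [NL3_norm hR hf hζ', NL3_norm hR hg hζ']
  rw [h4] at h3
  have h5 : deriv f w / f w - deriv g w / g w =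
      (deriv f w / f w - deriv (hat R s m h) w / hat R s m h w) +
      (deriv (hat R s m h) w / hat R s m h w - deriv (hat R s' m' h') w / hat R s' m' h' w) -
      (deriv g w / g w - deriv (hat R s' m' h') w / hat R s' m' h' w) := by ring
  rw [h5]
  refine le_trans (norm_sub_le _ _) ?_
  have h6 := norm_add_le (deriv f w / f w - deriv (hat R s m h) w / hat R s m h w)
    (deriv (hat R s m h) w / hat R s m h w - deriv (hat R s' m' h') w / hat R s' m' h' w)
  linarith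

end Pool.Agent.H67T
end
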