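import Pool.Agent.Lib.H1M.PB.M003

/-! Merged copies (to shorten the build) of Lib.H67T.NJ6. -/

-- from Lib.H67T.NJ6
section

set_option autoImplicit false

/-!
CHUNK NJ6.
-/

open Real Metric MeasureTheory

namespace Pool.Agent.H67T

/-- CHUNK NJ6.  Proof: each term of `N1` is nonnegative for `r ≥ 1` (`finsum_nonneg`). -/
theorem N1_nonneg (g : ℂ → ℂ) {r : ℝ} (hr : 1 ≤ r) : 0 ≤ N1 g r := by
  unfold N1
  refine add_nonneg (finsum_nonneg fun a => finsum_nonneg fun ha => ?_) ?_
  · rcases eq_or_ne a 0 with rfl | h0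
    · simp
    · refine Real.log_nonneg ?_
      rw [le_div_iff₀ (norm_pos_iff.2 h0), one_mul]
      exact ha.1
  · split_ifs
    · exact Real.log_nonneg hr
    · exact le_rfl

end Pool.Agent.H67T
end
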