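import Pool.Agent.Lib.H1M.PB.M003
import Pool.Agent.Lib.H1M.PB.M006

/-! Merged copies (to shorten the build) of Lib.H67T.GH2, Lib.H67T.GH3, Lib.H89T.Alg, Lib.H67T.GH5, Lib.H67T.GH4, Lib.H67T.NL1, Lib.H67T.NL2, Lib.H89T.Hom, Lib.H89T.DDefs, Lib.H89T.DP1. -/

-- from Lib.H67T.GH2
section

set_option autoImplicit false

/-!
CHUNK GH2.
-/

open MvPolynomial Real Metric MeasureTheory

namespace Pool.Agent.H67T

theorem GH2_eval_smul {m D : ℕ} {F : MvPolynomial (Fin m) ℂ} (hF : F.IsHomogeneous D)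
    (c : ℂ) (x : Fin m → ℂ) : eval (c • x) F = c ^ D * eval x F := by
  rw [eval_eq', eval_eq', Finset.mul_sum]
  refine Finset.sum_congr rfl fun d hd => ?_
  have hdeg : ∑ i, d i = D := by
    have h := hF (mem_support_iff.mp hd)
    rw [Finsupp.weight_apply, Finsupp.sum_fintype] at h
    · simpa using h
    · simp
  simp only [Pi.smul_apply, smul_eq_mul, mul_pow, Finset.prod_mul_distrib,
    Finset.prod_pow_eq_pow_sum, hdeg]
  ring


end Pool.Agent.H67T
end

-- from Lib.H67T.GH3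
section

set_option autoImplicit false

/-!
CHUNK GH3.
-/

open MvPolynomial Real Metric MeasureTheory

namespace Pool.Agent.H67T

theorem GH3_continuous {n : ℕ} {y : ℂ → Fin n → ℂ} (hy : IsHol y) : Continuous y :=
  continuous_pi fun j => (hy.diff j).continuous

theorem GH3_continuous_log {n : ℕ} {y : ℂ → Fin n → ℂ} (hy : IsHol y) :
    Continuous fun z => log ‖y z‖ :=
  (GH3_continuous hy).norm.log fun z => norm_ne_zero_iff.mpr (hy.ne_zero z)

theorem GH3_circleIntegrable {n : ℕ} {y : ℂ → Fin n → ℂ} (hy : IsHol y) (r : ℝ) :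
    CircleIntegrable (fun z => log ‖y z‖) 0 r :=
  (GH3_continuous_log hy).continuousOn.circleIntegrable'

/-- CHUNK GH3.  Proof: `log ‖f (u z)‖ ≥ log δ + D log ‖u z‖`; average (all functions are
continuous). -/
theorem chi_comp_ge {m n D : ℕ} {u : ℂ → Fin m → ℂ} (hu : IsHol u) {y : ℂ → Fin n → ℂ}
    (hy : IsHol y) {δ : ℝ} (hδ : 0 < δ) (h : ∀ z, δ * ‖u z‖ ^ D ≤ ‖y z‖) {r : ℝ} (hr : 0 < r) :
    D * chi u r + log δ ≤ chi y r := by
  have hpt : ∀ z, (D : ℝ) * log ‖u z‖ + log δ ≤ log ‖y z‖ := by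
    intro z
    have h1 : 0 < ‖u z‖ := norm_pos_iff.mpr (hu.ne_zero z)
    have h2 : log (δ * ‖u z‖ ^ D) ≤ log ‖y z‖ := log_le_log (by positivity) (h z)
    rw [log_mul hδ.ne' (by positivity), log_pow] at h2
    linarith
  have h2 : CircleIntegrable (fun z => (D : ℝ) * log ‖u z‖) 0 r :=
    (GH3_circleIntegrable hu r).const_smul (a := (D : ℝ))
  have e1 : (D : ℝ) * chi u r + log δ =
      circleAverage (fun z => (D : ℝ) * log ‖u z‖ + log δ) 0 r := by
    have h3 : circleAverage (fun z => (D : ℝ) * log ‖u z‖) 0 r = (D : ℝ) * chi u r :=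
      circleAverage_smul (a := (D : ℝ)) (f := fun z => log ‖u z‖) (c := 0) (R := r)
    rw [circleAverage_fun_add h2 (circleIntegrable_const _ _ _), h3, circleAverage_const]
  rw [e1]
  unfold chi
  apply circleAverage_mono
  · exact h2.add (circleIntegrable_const _ _ _)
  · exact GH3_circleIntegrable hy r
  · intro z _
    exact hpt z

end Pool.Agent.H67T
end

-- from Lib.H89T.Alg
section

set_option autoImplicit false

/-!
The interface between the algebraic part (A, B, C) and the analytic part (D).  These two statements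
are proved in `AlgFinal.lean`; the analytic part only uses them.
-/

open MvPolynomial

namespace Pool.Agent.H89T


/-- Statement of the algebraic theorem (B), `r = n`. -/
def AlgB (n : ℕ) (α : ℝ) : Prop :=
  ∃ C : ℕ, ∀ k : ℕ, C ≤ k → ∃ W : MvPolynomial (Fin n ⊕ Idx n k) ℂ, W ≠ 0 ∧
    ∀ (a : Idx n k → ℂ) (ξ : JV n n → ℂ),
      eval (Sum.elim (fun b => ξ (b, 0)) a) W ≠ 0 → ev a (fun b => ξ (b, 0)) ≠ 0 →
        (∃ b, ∃ l : Fin (n + 1), (l : ℕ) = 1 ∧ ξ (b, l) ≠ 0) →
        ∃ (d : ℕ) (P : MvPolynomial (JV n n) ℂ), (d : ℝ) ≤ α * k + C ∧ HasWt d P ∧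
          PropB a P ∧ eval ξ P ≠ 0

end Pool.Agent.H89T
end

-- from Lib.H67T.GH5
section

set_option autoImplicit false

/-!
CHUNK GH5.
-/

open MvPolynomial Real Metric MeasureTheory

namespace Pool.Agent.H67T

/-- CHUNK GH5.  Polynomials in entire functions are entire.  Proof: induction on the polynomial. -/
theorem differentiable_eval {m : ℕ} {u : ℂ → Fin m → ℂ}
    (hu : ∀ j, Differentiable ℂ fun z => u z j) (F : MvPolynomial (Fin m) ℂ) :
    Differentiable ℂ fun z => eval (u z) F := by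
  induction F using MvPolynomial.induction_on with
  | C a =>
    simp only [eval_C]
    exact differentiable_const a
  | add p q hp hq =>
    simp only [map_add]
    exact Differentiable.fun_add hp hq
  | mul_X p i hp =>
    simp only [map_mul, eval_X]
    exact Differentiable.fun_mul hp (hu i)

end Pool.Agent.H67T
end

-- from Lib.H67T.GH4
section

set_option autoImplicit false

/-!
CHUNK GH4.
-/

open MvPolynomial Real Metric MeasureTheory Filter

namespace Pool.Agent.H67T

theorem GH4_continuous_log {n : ℕ} {y : ℂ → Fin n → ℂ} (hy : IsHol y) :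
    Continuous fun z => log ‖y z‖ :=
  (continuous_pi fun j => (hy.diff j).continuous).norm.log
    fun z => norm_ne_zero_iff.mpr (hy.ne_zero z)

/-- Comparison of circle averages off the zeros of an entire function. -/
theorem GH4_average_mono {f : ℂ → ℂ} (hf : Differentiable ℂ f) (h0 : ∃ z, f z ≠ 0)
    {g h : ℂ → ℝ} {r : ℝ} (hr : r ≠ 0) (hg : CircleIntegrable g 0 r)
    (hh : CircleIntegrable h 0 r) (hgh : ∀ z, f z ≠ 0 → g z ≤ h z) :
    circleAverage g 0 r ≤ circleAverage h 0 r := by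
  classical
  obtain ⟨w, hw⟩ := h0
  have h1 : f ⁻¹' {0}ᶜ ∈ codiscrete ℂ :=
    AnalyticOnNhd.preimage_zero_mem_codiscrete
      (fun z _ => hf.analyticAt z) hw
  have h2 : g =ᶠ[codiscreteWithin (sphere (0 : ℂ) |r|)]
      fun z => if f z = 0 then h z else g z := by
    have h3 : f ⁻¹' {0}ᶜ ∈ codiscreteWithin (sphere (0 : ℂ) |r|) :=
      codiscreteWithin_mono (Set.subset_univ _) h1
    filter_upwards [h3] with z hz
    have hz' : f z ≠ 0 := hz
    rw [if_neg hz']
  rw [circleAverage_congr_codiscreteWithin h2 hr]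
  refine circleAverage_mono (hg.congr_codiscreteWithin h2) hh fun z _ => ?_
  split_ifs with h4
  · exact le_rfl
  · exact hgh z h4

theorem GH4_eval_le {m d : ℕ} {R : MvPolynomial (Fin m) ℂ} (hR : R.IsHomogeneous d)
    (x : Fin m → ℂ) :
    ‖eval x R‖ ≤ (1 + ∑ s ∈ R.support, ‖R.coeff s‖) * ‖x‖ ^ d := by
  rw [eval_eq]
  refine (norm_sum_le _ _).trans ?_
  have h1 : ∀ s ∈ R.support, ‖R.coeff s * ∏ i ∈ s.support, x i ^ s i‖ ≤
      ‖R.coeff s‖ * ‖x‖ ^ d := by
    intro s hs
    rw [norm_mul]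
    refine mul_le_mul_of_nonneg_left ?_ (norm_nonneg _)
    rw [norm_prod]
    have h2 : ∏ i ∈ s.support, ‖x i ^ s i‖ ≤ ∏ i ∈ s.support, ‖x‖ ^ s i := by
      refine Finset.prod_le_prod (fun i _ => norm_nonneg _) fun i _ => ?_
      rw [norm_pow]
      exact pow_le_pow_left₀ (norm_nonneg _) (norm_le_pi_norm x i) _
    refine h2.trans ?_
    rw [Finset.prod_pow_eq_pow_sum]
    have h3 : ∑ i ∈ s.support, s i = d := by
      have := hR (mem_support_iff.mp hs)
      rw [Finsupp.weight_apply, Finsupp.sum] at this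
      simpa using this
    rw [h3]
  refine (Finset.sum_le_sum h1).trans ?_
  rw [← Finset.sum_mul]
  have h4 : 0 ≤ ‖x‖ ^ d := by positivity
  nlinarith


end Pool.Agent.H67T
end

-- from Lib.H67T.NL1
section

set_option autoImplicit false

/-!
CHUNK NL1.
-/

open Real Metric MeasureTheory

namespace Pool.Agent.H67T

theorem NL1_scale {S r : ℝ} (g : ℂ → ℝ) :
    circleAverage (fun z => g ((S : ℂ) * z)) 0 r = circleAverage g 0 (S * r) := by
  simp only [circleAverage, circleMap, Complex.ofReal_mul, zero_add, mul_assoc]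

theorem NL1_log {S r : ℝ} (hS : 0 < S) (hr : 0 < r) (a c : ℂ) :
    circleAverage (fun z => log ‖(S : ℂ) * (z - a) - c‖) 0 r =
      log (S * r) + log⁺ ((S * r)⁻¹ * ‖(S : ℂ) * a + c‖) := by
  have h1 : (fun z : ℂ => log ‖(S : ℂ) * (z - a) - c‖) =
      fun z => (fun w : ℂ => log ‖w - ((S : ℂ) * a + c)‖) ((S : ℂ) * z) := by
    funext z
    congr 2
    ring
  rw [h1, NL1_scale (S := S) (r := r) (fun w : ℂ => log ‖w - ((S : ℂ) * a + c)‖)]
  have h2 := circleAverage_log_norm_sub_const_eq_log_radius_add_posLog (c := 0)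
    (a := (S : ℂ) * a + c) (R := S * r) (by positivity)
  rw [zero_sub, norm_neg] at h2
  exact h2

theorem NL1_posLog {x δ : ℝ} (hx : 0 ≤ x) (hδ : 0 ≤ δ) : log⁺ (x + δ) ≤ log⁺ x + δ := by
  rw [posLog_eq_log_max_one (by linarith), posLog_eq_log_max_one hx]
  have h1 : (1 : ℝ) ≤ max 1 x := le_max_left _ _
  have h2 : max 1 (x + δ) ≤ max 1 x * (1 + δ) := by
    apply max_le
    · nlinarith
    · have := le_max_right 1 x
      nlinarith
  have h3 : log (max 1 (x + δ)) ≤ log (max 1 x * (1 + δ)) :=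
    Real.log_le_log (lt_of_lt_of_le one_pos (le_max_left _ _)) h2
  rw [Real.log_mul (by linarith) (by linarith)] at h3
  have h4 := Real.log_le_sub_one_of_pos (show (0 : ℝ) < 1 + δ by linarith)
  linarith

/-- CHUNK NL1.  Proof: `log⁺ x = log⁺ ‖S (z - a)‖ - log ‖S (z - a)‖` for `x = 1 / (S ‖z - a‖)`,
`z ≠ a` (`Real.posLog_sub_posLog_inv`); and by
`ValueDistribution.circleAverage_circleAverage_eq_proximity_top` for the function
`f z = S (z - a)`: `avg_z log⁺ ‖S (z - a)‖ = avg_c avg_z log ‖S (z - a) - c‖`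
(`proximity_top`).  Here
`avg_z log ‖S (z - a) - c‖ = log S + avg_z log ‖z - (a + c / S)‖ = log S + log (max r ‖a + c / S‖)`
(`circleAverage_log_norm_sub_const_eq_log_radius_add_posLog`) and
`avg_z log ‖S (z - a)‖ = log S + log (max r ‖a‖)`; for `‖c‖ = 1` the difference is at most
`log (1 + 1 / (S r)) ≤ 1 / (S r)`. -/
theorem avg_posLog_inv_le {S r : ℝ} (hS : 0 < S) (hr : 0 < r) (a : ℂ) :
    circleAverage (fun z => log⁺ (1 / (S * ‖z - a‖))) 0 r ≤ 1 / (S * r) := by
  set f : ℂ → ℂ := fun z => (S : ℂ) * (z - a) with hf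
  have hmer : Meromorphic f := by
    intro z
    simp only [hf]
    fun_prop
  have e1 := congrFun (ValueDistribution.circleAverage_circleAverage_eq_proximity_top hmer) r
  have e2 := congrFun (ValueDistribution.proximity_sub_proximity_inv_eq_circleAverage hmer) r
  have e3 : ValueDistribution.proximity f⁻¹ ⊤ r =
      circleAverage (fun z => log⁺ (1 / (S * ‖z - a‖))) 0 r := by
    rw [ValueDistribution.proximity_top]
    congr 1
    funext z
    simp only [Pi.inv_apply, hf, norm_inv, norm_mul, Complex.norm_real, Real.norm_eq_abs,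
      abs_of_pos hS, one_div]
  have e4 : circleAverage (log ‖f ·‖) 0 r = log (S * r) + log⁺ ((S * r)⁻¹ * ‖(S : ℂ) * a‖) := by
    have := NL1_log hS hr a 0
    simpa only [sub_zero, add_zero] using this
  have e5 : circleAverage (fun c => circleAverage (log ‖f · - c‖) 0 r) 0 1 ≤
      log (S * r) + log⁺ ((S * r)⁻¹ * ‖(S : ℂ) * a‖) + 1 / (S * r) := by
    apply circleAverage_mono_on_of_le_circle
      (ValueDistribution.circleIntegrable_circleAverage_log_norm_sub hmer)
    intro c hc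
    have h1 := NL1_log hS hr a c
    have h2 : ‖c‖ = 1 := by simpa using hc
    show circleAverage (fun z => log ‖(S : ℂ) * (z - a) - c‖) 0 r ≤ _
    rw [h1]
    have h3 : (S * r)⁻¹ * ‖(S : ℂ) * a + c‖ ≤ (S * r)⁻¹ * ‖(S : ℂ) * a‖ + (S * r)⁻¹ := by
      rw [← mul_add_one]
      apply mul_le_mul_of_nonneg_left _ (by positivity)
      have := norm_add_le ((S : ℂ) * a) c
      rwa [h2] at this
    have h4 := posLog_le_posLog (by positivity) h3
    have h5 := NL1_posLog (x := (S * r)⁻¹ * ‖(S : ℂ) * a‖) (δ := (S * r)⁻¹) (by positivity)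
      (by positivity)
    rw [one_div]
    linarith
  rw [Pi.sub_apply] at e2
  rw [← e3]
  linarith [e1, e2, e4, e5]

end Pool.Agent.H67T
end

-- from Lib.H67T.NL2
section

set_option autoImplicit false

/-!
CHUNK NL2.
-/

open Real Metric MeasureTheory

namespace Pool.Agent.H67T

theorem NL2_int {K : ℝ} (a : ℂ) (r : ℝ) :
    CircleIntegrable (fun z => log⁺ (1 / (K * ‖z - a‖))) 0 r := by
  have h : Meromorphic (fun z : ℂ => ((K : ℂ) * (z - a))⁻¹) := by
    intro z
    fun_prop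
  have h2 : CircleIntegrable (fun z : ℂ => log⁺ ‖((K : ℂ) * (z - a))⁻¹‖) 0 r :=
    h.meromorphicOn.circleIntegrable_posLog_norm
  convert h2 using 1
  funext z
  rw [norm_inv, norm_mul, Complex.norm_real, Real.norm_eq_abs, one_div, ← posLog_abs, abs_inv,
    abs_mul, abs_of_nonneg (norm_nonneg _)]

/-- an integrable majorant -/
theorem NL2_dom {s : Finset ℂ} {m : ℂ → ℕ} (hm : ∀ a ∈ s, 1 ≤ m a) {r : ℝ} (hr : 1 ≤ r) :
    ∃ G : ℂ → ℝ, CircleIntegrable G 0 r ∧ (∀ z, 0 ≤ G z) ∧
      (∀ z, log⁺ (∑ a ∈ s, (m a : ℝ) * (1 / ‖z - a‖)) ≤ G z) ∧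
      circleAverage G 0 r ≤ 2 * log⁺ (∑ a ∈ s, (m a : ℝ)) + 1 := by
  have hpl : ∀ x : ℝ, 0 ≤ log⁺ x := fun x => posLog_nonneg
  rcases s.eq_empty_or_nonempty with rfl | hs
  · refine ⟨fun _ => 0, circleIntegrable_const _ _ _, fun _ => le_rfl, fun z => by simp, ?_⟩
    simp [circleAverage_const]
  set K : ℝ := ∑ a ∈ s, (m a : ℝ) with hK
  have hcard : (s.card : ℝ) ≤ K := by
    have h1 : ∑ a ∈ s, (1 : ℝ) ≤ ∑ a ∈ s, (m a : ℝ) :=
      Finset.sum_le_sum fun a ha => by exact_mod_cast hm a ha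
    simpa using h1
  have hc1 : (1 : ℝ) ≤ s.card := by exact_mod_cast hs.card_pos
  have hK1 : 1 ≤ K := le_trans hc1 hcard
  have hpt : ∀ z : ℂ, log⁺ (∑ a ∈ s, (m a : ℝ) * (1 / ‖z - a‖)) ≤
      2 * log⁺ K + ∑ a ∈ s, log⁺ (1 / (K * ‖z - a‖)) := by
    intro z
    obtain ⟨b, hb, hmax⟩ := s.exists_max_image (fun a => 1 / ‖z - a‖) hs
    have h1 : ∑ a ∈ s, (m a : ℝ) * (1 / ‖z - a‖) ≤ K * (K * (1 / (K * ‖z - b‖))) := by
      have h2 : ∑ a ∈ s, (m a : ℝ) * (1 / ‖z - a‖) ≤ ∑ a ∈ s, (m a : ℝ) * (1 / ‖z - b‖) :=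
        Finset.sum_le_sum fun a ha => mul_le_mul_of_nonneg_left (hmax a ha) (Nat.cast_nonneg _)
      rw [← Finset.sum_mul, ← hK] at h2
      have h3 : K * (1 / (K * ‖z - b‖)) = 1 / ‖z - b‖ := by
        rw [mul_one_div, mul_comm K ‖z - b‖, ← div_div, div_right_comm, div_self (by linarith)]
      rw [h3]
      exact h2
    have h4 := posLog_le_posLog (Finset.sum_nonneg fun a _ => by positivity) h1
    have h5 := posLog_mul (x := K) (y := K * (1 / (K * ‖z - b‖)))
    have h6 := posLog_mul (x := K) (y := 1 / (K * ‖z - b‖))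
    have h7 : log⁺ (1 / (K * ‖z - b‖)) ≤ ∑ a ∈ s, log⁺ (1 / (K * ‖z - a‖)) :=
      Finset.single_le_sum (f := fun a => log⁺ (1 / (K * ‖z - a‖))) (fun a _ => hpl _) hb
    linarith
  have hint2 : ∀ a ∈ s, CircleIntegrable (fun z => log⁺ (1 / (K * ‖z - a‖))) 0 r :=
    fun a _ => NL2_int a r
  have hint3 : CircleIntegrable (fun z => ∑ a ∈ s, log⁺ (1 / (K * ‖z - a‖))) 0 r :=
    CircleIntegrable.fun_sum s hint2
  have hav : circleAverage (fun z => 2 * log⁺ K + ∑ a ∈ s, log⁺ (1 / (K * ‖z - a‖))) 0 r =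
      2 * log⁺ K + ∑ a ∈ s, circleAverage (fun z => log⁺ (1 / (K * ‖z - a‖))) 0 r := by
    rw [circleAverage_fun_add (circleIntegrable_const _ _ _) hint3, circleAverage_const,
      circleAverage_fun_sum hint2]
  refine ⟨fun z => 2 * log⁺ K + ∑ a ∈ s, log⁺ (1 / (K * ‖z - a‖)),
    (circleIntegrable_const _ _ _).add hint3, fun z => ?_, hpt, ?_⟩
  · exact le_trans (hpl _) (hpt z)
  · rw [hav]
    have h9 : ∑ a ∈ s, circleAverage (fun z => log⁺ (1 / (K * ‖z - a‖))) 0 r ≤
        ∑ a ∈ s, 1 / (K * r) :=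
      Finset.sum_le_sum fun a _ => avg_posLog_inv_le (by linarith) (by linarith) a
    rw [Finset.sum_const, nsmul_eq_mul] at h9
    have h10 : (s.card : ℝ) * (1 / (K * r)) ≤ 1 := by
      rw [mul_one_div, div_le_one (by positivity)]
      nlinarith
    linarith


end Pool.Agent.H67T
end

-- from Lib.H89T.Hom
section

set_option autoImplicit false

/-!
H89T: forms of degree `k` in `n + 1` variables and polynomials of degree at most `k` in the
`n` coordinates of the chart `y c ≠ 0`.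
-/

open MvPolynomial

namespace Pool.Agent.H89T

variable {n k : ℕ}

/-- The exponent of degree `k` in `n + 1` variables which restricts to `α` on the variables
different from `c`. -/
noncomputable def ext (c : Fin (n + 1)) (α : Idx n k) : Fin (n + 1) →₀ ℕ :=
  Finsupp.equivFunOnFinite.symm
    (c.insertNth (k - ∑ b, (α.1 b : ℕ)) fun b => ((α.1 b : Fin (k + 1)) : ℕ))

/-- The coefficients of the form `F` of degree `k` in the chart `c`. -/
noncomputable def cfF (k : ℕ) (c : Fin (n + 1)) (F : MvPolynomial (Fin (n + 1)) ℂ)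
    (α : Idx n k) : ℂ :=
  coeff (ext c α) F

/-- The coordinates of a curve in the chart `c`. -/
noncomputable def ch (c : Fin (n + 1)) (y : ℂ → Fin (n + 1) → ℂ) (z : ℂ) (b : Fin n) : ℂ :=
  y z (c.succAbove b) / y z c

theorem ext_self (c : Fin (n + 1)) (α : Idx n k) : ext c α c = k - ∑ b, (α.1 b : ℕ) := by
  simp [ext]

theorem ext_succAbove (c : Fin (n + 1)) (α : Idx n k) (b : Fin n) :
    ext c α (c.succAbove b) = (α.1 b : ℕ) := by
  simp [ext]

theorem ext_injective (c : Fin (n + 1)) : Function.Injective (ext (k := k) c) := by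
  intro α β h
  apply Subtype.ext
  funext b
  apply Fin.ext
  rw [← ext_succAbove c α b, ← ext_succAbove c β b, h]

theorem ext_degree (c : Fin (n + 1)) (α : Idx n k) : ∑ i, ext c α i = k := by
  rw [Fin.sum_univ_succAbove _ c, ext_self]
  simp only [ext_succAbove]
  have := α.2
  omega

theorem exists_ext (c : Fin (n + 1)) (d : Fin (n + 1) →₀ ℕ) (hd : ∑ i, d i = k) :
    ∃ α : Idx n k, ext c α = d := by
  rw [Fin.sum_univ_succAbove _ c] at hd
  have h1 : ∀ b, d (c.succAbove b) < k + 1 := by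
    intro b
    have : d (c.succAbove b) ≤ ∑ b, d (c.succAbove b) :=
      Finset.single_le_sum (f := fun b => d (c.succAbove b)) (fun _ _ => Nat.zero_le _)
        (Finset.mem_univ b)
    omega
  refine ⟨⟨fun b => ⟨d (c.succAbove b), h1 b⟩, by simp only; omega⟩, ?_⟩
  ext i
  rcases Fin.eq_self_or_eq_succAbove c i with h | ⟨b, h⟩
  · subst h
    rw [ext_self]
    simp only
    omega
  · subst h
    rw [ext_succAbove]

theorem degree_eq_of_mem {F : MvPolynomial (Fin (n + 1)) ℂ} (hF : F.IsHomogeneous k)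
    {d : Fin (n + 1) →₀ ℕ} (hd : coeff d F ≠ 0) : ∑ i, d i = k := by
  have := hF hd
  rw [Finsupp.weight_apply, Finsupp.sum_fintype _ _ (by simp)] at this
  simpa using this

/-- The value of a form in terms of its coefficients in the chart `c`. -/
theorem eval_eq_sum (c : Fin (n + 1)) {F : MvPolynomial (Fin (n + 1)) ℂ}
    (hF : F.IsHomogeneous k) (y : Fin (n + 1) → ℂ) :
    eval y F = ∑ α : Idx n k, cfF k c F α *
      (y c ^ (k - ∑ b, (α.1 b : ℕ)) * ∏ b, y (c.succAbove b) ^ (α.1 b : ℕ)) := by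
  classical
  rw [MvPolynomial.eval_eq']
  have h1 : F.support ⊆ Finset.univ.image (ext (k := k) c) := by
    intro d hd
    obtain ⟨α, hα⟩ := exists_ext c d (degree_eq_of_mem hF (mem_support_iff.1 hd))
    exact Finset.mem_image.2 ⟨α, Finset.mem_univ _, hα⟩
  rw [Finset.sum_subset h1 (fun d _ hd => by rw [notMem_support_iff.1 hd, zero_mul]),
    Finset.sum_image (fun α _ β _ h => ext_injective c h)]
  refine Finset.sum_congr rfl fun α _ => ?_
  rw [cfF, Fin.prod_univ_succAbove _ c, ext_self]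
  simp only [ext_succAbove]


/-- The value of a form in the chart `c`. -/
theorem ev_cf (c : Fin (n + 1)) {F : MvPolynomial (Fin (n + 1)) ℂ}
    (hF : F.IsHomogeneous k) {y : Fin (n + 1) → ℂ} (hy : y c ≠ 0) :
    ev (cfF k c F) (fun b => y (c.succAbove b) / y c) = eval y F / y c ^ k := by
  rw [eval_eq_sum c hF, ev, Finset.sum_div]
  refine Finset.sum_congr rfl fun α _ => ?_
  simp only [div_pow, Finset.prod_div_distrib]
  have h1 : ∏ b, y c ^ (α.1 b : ℕ) = y c ^ ∑ b, (α.1 b : ℕ) := by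
    rw [Finset.prod_pow_eq_pow_sum]
  rw [h1]
  have h2 : y c ^ k = y c ^ (k - ∑ b, (α.1 b : ℕ)) * y c ^ ∑ b, (α.1 b : ℕ) := by
    rw [← pow_add]
    congr 1
    have := α.2
    omega
  rw [h2]
  field_simp

/-- A form of degree `k` with given coefficients in the chart `c`. -/
theorem exists_form (c : Fin (n + 1)) (a : Idx n k → ℂ) :
    ∃ F : MvPolynomial (Fin (n + 1)) ℂ, F.IsHomogeneous k ∧ cfF k c F = a := by
  classical
  refine ⟨∑ α : Idx n k, monomial (ext c α) (a α), ?_, ?_⟩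
  · apply IsHomogeneous.sum
    intro α _
    apply isHomogeneous_monomial
    rw [Finsupp.degree_eq_sum]
    exact ext_degree c α
  · funext α
    rw [cfF, coeff_sum, Finset.sum_eq_single α]
    · simp
    · intro β _ hβ
      rw [coeff_monomial, if_neg]
      exact fun h => hβ (ext_injective c h)
    · intro h
      exact absurd (Finset.mem_univ _) h

end Pool.Agent.H89T
end

-- from Lib.H89T.DDefs
section

set_option autoImplicit false

/-!
H89T, Part D (analysis): definitions.  `y : ℂ → Fin (n + 1) → ℂ` is a reduced representation of an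
entire curve (`H67T.IsHol`), `ch c y` its affine coordinates in the chart `c` (Hom.lean), `jetf r f z`
the `r`-jet at `z` of a tuple `f` of functions, `QQ y c M P` the entire function
`y_c ^ M * P (jet of ch c y)`.
-/

open MvPolynomial Filter Topology

namespace Pool.Agent.H89T

open Pool.Agent.H67T

/-- The jet of order `r` at `z` of the functions `f . b` (Taylor normalized). -/
noncomputable def jetf {n : ℕ} (r : ℕ) (f : ℂ → Fin n → ℂ) (z : ℂ) : JV n r → ℂ :=
  fun p => iteratedDeriv (p.2 : ℕ) (fun w => f w p.1) z / ((p.2 : ℕ).factorial : ℂ)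

/-- The numerators of the Taylor coefficients of `ch c y . b`: the `l`-th derivative divided by `l!`
is `eta y c b l / y_c ^ (l + 1)`. -/
noncomputable def eta {n : ℕ} (y : ℂ → Fin (n + 1) → ℂ) (c : Fin (n + 1)) (b : Fin n) : ℕ → ℂ → ℂ
  | 0 => fun z => y z (c.succAbove b)
  | l + 1 => fun z => (deriv (eta y c b l) z * y z c -
      ((l : ℂ) + 1) * eta y c b l z * deriv (fun w => y w c) z) / ((l : ℂ) + 1)

/-- The entire function `y_c ^ M * P (jet of ch c y)`, for `P` of weight at most `M`. -/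
noncomputable def QQ {n r : ℕ} (y : ℂ → Fin (n + 1) → ℂ) (c : Fin (n + 1)) (M : ℕ)
    (P : MvPolynomial (JV n r) ℂ) (z : ℂ) : ℂ :=
  ∑ m ∈ P.support, P.coeff m * y z c ^ (M - wt m) * ∏ p : JV n r, eta y c p.1 (p.2 : ℕ) z ^ m p

/-- The function `F (y) / y_c ^ k`. -/
noncomputable def Fc {n : ℕ} (y : ℂ → Fin (n + 1) → ℂ) (Fy : ℂ → ℂ) (k : ℕ) (c : Fin (n + 1)) (z : ℂ) :
    ℂ := Fy z / y z c ^ k

/-- One plus the sum of the (norms of the) higher logarithmic derivatives up to order `L` of the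
affine coordinates and of `F / y_c ^ k`, in all charts. -/
noncomputable def Lam {n : ℕ} (y : ℂ → Fin (n + 1) → ℂ) (Fy : ℂ → ℂ) (k L : ℕ) (z : ℂ) : ℝ :=
  1 + ∑ c, ∑ b, ∑ l : Fin (L + 1),
      ‖iteratedDeriv (l : ℕ) (fun w => ch c y w b) z / ch c y z b‖ +
    ∑ c, ∑ l : Fin (L + 1), ‖iteratedDeriv (l : ℕ) (Fc y Fy k c) z / Fc y Fy k c z‖

theorem one_le_Lam {n : ℕ} (y : ℂ → Fin (n + 1) → ℂ) (Fy : ℂ → ℂ) (k L : ℕ) (z : ℂ) :
    1 ≤ Lam y Fy k L z := by
  unfold Lam
  have h1 : 0 ≤ ∑ c, ∑ b, ∑ l : Fin (L + 1),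
      ‖iteratedDeriv (l : ℕ) (fun w => ch c y w b) z / ch c y z b‖ :=
    Finset.sum_nonneg fun _ _ => Finset.sum_nonneg fun _ _ => Finset.sum_nonneg fun _ _ =>
      norm_nonneg _
  have h2 : 0 ≤ ∑ c, ∑ l : Fin (L + 1), ‖iteratedDeriv (l : ℕ) (Fc y Fy k c) z / Fc y Fy k c z‖ :=
    Finset.sum_nonneg fun _ _ => Finset.sum_nonneg fun _ _ => norm_nonneg _
  linarith

/-- The data of one curve: the curve `y`, the function `Fy = F (y)`, the coefficients `a c` of the
form in the charts. -/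
structure CurveData (n k : ℕ) where
  /-- the curve -/
  y : ℂ → Fin (n + 1) → ℂ
  /-- the function `F (y)` -/
  Fy : ℂ → ℂ
  /-- the coefficients of the equation in the charts -/
  a : Fin (n + 1) → Idx n k → ℂ
  hy : IsHol y
  hF : Differentiable ℂ Fy
  hF0 : ∃ z, Fy z ≠ 0
  hy0 : ∀ c, ∃ z, y z c ≠ 0
  hFc : ∀ c z, y z c ≠ 0 → ev (a c) (ch c y z) = Fc y Fy k c z
  hFle : ∃ A : ℝ, ∀ z, ‖Fy z‖ ≤ A * ‖y z‖ ^ k



end Pool.Agent.H89T
end

-- from Lib.H89T.DP1
section

set_option autoImplicit false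

/-!
H89T, pointed version: from a nonzero polynomial in the coefficients and the coordinates
to a base point and a nonzero polynomial in the coefficients of forms.
-/

open MvPolynomial

namespace Pool.Agent.H89T

variable {n k : ℕ}


/-- The variables of `DP1`: coordinates and coefficients. -/
abbrev DV (n : ℕ) : Type := Fin (n + 1) ⊕ (Fin (n + 1) →₀ ℕ)

/-- `W` in the chart `c`, made polynomial. -/
noncomputable def dp1W (c : Fin (n + 1)) (W : MvPolynomial (Fin n ⊕ Idx n k) ℂ) :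
    MvPolynomial (DV n) ℂ :=
  ∑ m ∈ W.support, C (coeff m W) * (X (Sum.inl c) ^ (W.totalDegree - ∑ b, m (Sum.inl b)) *
    (∏ b, X (Sum.inl (c.succAbove b)) ^ m (Sum.inl b)) *
      ∏ α, X (Sum.inr (ext c α)) ^ m (Sum.inr α))

theorem dp1W_eval (c : Fin (n + 1)) (W : MvPolynomial (Fin n ⊕ Idx n k) ℂ)
    {y : Fin (n + 1) → ℂ} (hy : y c ≠ 0) (φ : (Fin (n + 1) →₀ ℕ) → ℂ) :
    eval (Sum.elim y φ) (dp1W c W) = y c ^ W.totalDegree *
      eval (Sum.elim (fun b => y (c.succAbove b) / y c) fun α => φ (ext c α)) W := by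
  rw [dp1W, map_sum, MvPolynomial.eval_eq', Finset.mul_sum]
  refine Finset.sum_congr rfl fun m hm => ?_
  have h1 : ∑ b, m (Sum.inl b) ≤ W.totalDegree := by
    have h := MvPolynomial.le_totalDegree hm
    refine le_trans ?_ h
    rw [Finsupp.sum_fintype _ _ (fun _ => rfl), Fintype.sum_sum_type]
    exact Nat.le_add_right _ _
  simp only [map_mul, map_prod, map_pow, eval_C, eval_X, Sum.elim_inl, Sum.elim_inr,
    Fintype.prod_sum_type, div_pow, Finset.prod_div_distrib]
  have h2 : ∏ b, y c ^ m (Sum.inl b) = y c ^ ∑ b, m (Sum.inl b) := by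
    rw [Finset.prod_pow_eq_pow_sum]
  have h3 : y c ^ W.totalDegree = y c ^ (W.totalDegree - ∑ b, m (Sum.inl b)) *
      y c ^ ∑ b, m (Sum.inl b) := by
    rw [← pow_add]
    congr 1
    omega
  rw [h2, h3]
  field_simp










end Pool.Agent.H89T
end
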