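import Mathlib
import Pool.Agent.Lib.H1M.PB.M003
import Pool.Agent.Lib.H1M.PB.M006

/-! Merged copies (to shorten the build) of Lib.H67T.NB, Lib.H78G.E5, Lib.H67T.NSE, Lib.H89T.C1, Lib.H89T.C2. -/

-- from Lib.H67T.NB
section

set_option autoImplicit false

/-!
CHUNK NB.  Borel's growth lemma.
-/

open MeasureTheory Set

namespace Pool.Agent.H67T

/-- the set of exceptional radii of size `2 ^ n` -/
theorem NB_cover {T : ℝ → ℝ} (hT : MonotoneOn T (Ici 1)) (h1 : ∀ r, 1 ≤ r → 1 ≤ T r) (n : ℕ) :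
    ∃ b : ℝ, ∀ r, 1 ≤ r → 2 ^ n ≤ T r → T r < 2 ^ (n + 1) → 2 * T r < T (r + 1 / T r) →
      r ∈ Icc (b - (2⁻¹ : ℝ) ^ n) b := by
  by_cases hne : ∃ r, 1 ≤ r ∧ 2 ^ n ≤ T r ∧ T r < 2 ^ (n + 1) ∧ 2 * T r < T (r + 1 / T r)
  swap
  · refine ⟨0, fun r a1 a2 a3 a4 => ?_⟩
    exact absurd ⟨r, a1, a2, a3, a4⟩ hne
  set S : Set ℝ := {r | 1 ≤ r ∧ T r < 2 ^ (n + 1)} with hS
  have key : ∀ r, 1 ≤ r → 2 ^ n ≤ T r → 2 * T r < T (r + 1 / T r) → ∀ s ∈ S, s ≤ r + 1 / T r := by
    intro r a1 a2 a3 s hs
    by_contra hcon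
    push Not at hcon
    have hTr : 0 < T r := by linarith [h1 r a1]
    have hx : 1 ≤ r + 1 / T r := by
      have : 0 < 1 / T r := by positivity
      linarith
    have h2 : T (r + 1 / T r) ≤ T s := hT hx hs.1 hcon.le
    have h3 : (2 : ℝ) ^ (n + 1) = 2 * 2 ^ n := by ring
    have := hs.2
    rw [h3] at this
    linarith
  obtain ⟨r0, b1, b2, b3, b4⟩ := hne
  have hbdd : BddAbove S := ⟨r0 + 1 / T r0, fun s hs => key r0 b1 b2 b4 s hs⟩
  refine ⟨sSup S, fun r a1 a2 a3 a4 => ⟨?_, le_csSup hbdd ⟨a1, a3⟩⟩⟩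
  have hSne : S.Nonempty := ⟨r, a1, a3⟩
  have h2 : sSup S ≤ r + 1 / T r := csSup_le hSne fun s hs => key r a1 a2 a4 s hs
  have h3 : 1 / T r ≤ (2⁻¹ : ℝ) ^ n := by
    rw [inv_pow, ← one_div]
    exact div_le_div_of_nonneg_left (by norm_num) (by positivity) a2
  linarith

/-- CHUNK NB.  Proof: let `B` be the set of the `r ≥ 1` with `2 * T r < T (r + 1 / T r)`.
For `n : ℕ` let `B n` be the set of the `r ∈ B` with `2 ^ n ≤ T r < 2 ^ (n + 1)` (their union is
`B`).  If `B n` is empty nothing is to be done.  Otherwise `L n = {r | 1 ≤ r ∧ T r < 2 ^ (n + 1)}`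
is bounded above: for `r ∈ B n` and `x := r + 1 / T r` one has `T x > 2 * T r ≥ 2 ^ (n + 1)`, so
every element of `L n` is `< x` by monotonicity; with `b n := sSup (L n)` this gives
`r ≤ b n ≤ r + 1 / T r ≤ r + 2⁻¹ ^ n`, i.e. `B n ⊆ Icc (b n - 2⁻¹ ^ n) (b n)`.  So
`E := ⋃ n, Icc (b n - 2⁻¹ ^ n) (b n)` contains `B`, is measurable, and its volume is at most
`∑' n, 2⁻¹ ^ n = 2` (`measure_iUnion_le`, `Real.volume_Icc`, `ENNReal.tsum_geometric`...). -/
theorem borel {T : ℝ → ℝ} (hT : MonotoneOn T (Ici 1)) (h1 : ∀ r, 1 ≤ r → 1 ≤ T r) :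
    ∃ E : Set ℝ, MeasurableSet E ∧ volume E ≤ 2 ∧
      ∀ r, 1 ≤ r → r ∉ E → T (r + 1 / T r) ≤ 2 * T r := by
  choose b hb using fun n => NB_cover hT h1 n
  refine ⟨⋃ n : ℕ, Icc (b n - (2⁻¹ : ℝ) ^ n) (b n), MeasurableSet.iUnion fun n => measurableSet_Icc,
    ?_, ?_⟩
  · refine (measure_iUnion_le _).trans ?_
    have h2 : ∀ n : ℕ, volume (Icc (b n - (2⁻¹ : ℝ) ^ n) (b n)) = (2⁻¹ : ENNReal) ^ n := by
      intro n
      rw [Real.volume_Icc, sub_sub_cancel, ENNReal.ofReal_pow (by norm_num),
        ENNReal.ofReal_inv_of_pos (by norm_num), ENNReal.ofReal_ofNat]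
    simp only [h2]
    rw [ENNReal.tsum_geometric]
    simp
  · intro r hr hrE
    by_contra hcon
    push Not at hcon
    apply hrE
    obtain ⟨n, hn1, hn2⟩ := exists_nat_pow_near (h1 r hr) (one_lt_two : (1 : ℝ) < 2)
    exact mem_iUnion.2 ⟨n, hb n r hr hn1 hn2 hcon⟩

end Pool.Agent.H67T
end

-- from Lib.H78G.E5
section

set_option autoImplicit false

/-!
CHUNK E5 (S/M, pure Mathlib).  General position is an open condition.
-/

open MvPolynomial

namespace Pool.Agent.H78G

/-- Any `m + 1` of the linear forms are linearly independent. -/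
def GenPos {ι : Type} {m : ℕ} (θ : ι → Fin (m + 1) → ℂ) : Prop :=
  ∀ f : Fin (m + 1) → ι, Function.Injective f →
    Matrix.det (Matrix.of fun a b => θ (f a) b) ≠ 0



end Pool.Agent.H78G
end

-- from Lib.H67T.NSE
section

set_option autoImplicit false

/-!
CHUNK NSE.
-/

open Real Metric MeasureTheory

namespace Pool.Agent.H67T

/-- Bound for the error term (used at the end).  (`log⁺` is the positive part of the logarithm of
the absolute value, hence the absolute value in the hypothesis; in the application take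
`T r = max 1 (chi y r) + |chi y 1|`, which is monotone on `[1, ∞)` and at least `|chi y r|`.) -/
theorem err_le {n : ℕ} {y : ℂ → Fin n → ℂ} {r T : ℝ} (hr : 2 ≤ r) (hT : 1 ≤ T)
    (h : |chi y (r + 1 / T)| ≤ 2 * T) : err y r (r + 1 / T) ≤ 5 * (log T + log r) := by
  have hT0 : 0 < T := by linarith
  have hlT : 0 ≤ log T := log_nonneg hT
  have h2 : (0.6931471803 : ℝ) < log 2 := Real.log_two_gt_d9
  have hlr : log 2 ≤ log r := log_le_log (by norm_num) hr
  have e0 : log (chi y (r + 1 / T)) ≤ log 2 + log T := by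
    rw [← log_mul (by norm_num) hT0.ne']
    by_cases h0 : chi y (r + 1 / T) = 0
    · rw [h0, log_zero]
      exact log_nonneg (by linarith)
    · rw [← log_abs (chi y (r + 1 / T))]
      exact log_le_log (abs_pos.mpr h0) h
  have e1 : log⁺ (chi y (r + 1 / T)) ≤ log 2 + log T := by
    rw [posLog_def]
    exact max_le (by positivity) e0
  have e2 : log⁺ (1 / (r + 1 / T - r)) ≤ log T := by
    have : 1 / (r + 1 / T - r) = T := by
      rw [add_sub_cancel_left, one_div_one_div]
    rw [this, posLog_def]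
    exact max_le hlT le_rfl
  have e3 : log⁺ (r + 1 / T) ≤ log 2 + log r := by
    have h1T : 1 / T ≤ 1 := by
      rw [div_le_one hT0]; exact hT
    have h1T' : 0 < 1 / T := by positivity
    have e4 : log (r + 1 / T) ≤ log 2 + log r := by
      rw [← log_mul (by norm_num) (by linarith)]
      exact log_le_log (by linarith) (by linarith)
    rw [posLog_def]
    have h5 : (0 : ℝ) ≤ log 2 + log r := by linarith
    exact max_le h5 e4
  unfold err
  linarith

end Pool.Agent.H67T
end

-- from Lib.H89T.C1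
section

set_option autoImplicit false

/-!
CHUNK C1.  Coefficientwise derivations; the action of the fields on the `u i`.
-/

open MvPolynomial

namespace Pool.Agent.H89T

section Cf

variable {A : Type} [CommRing A] [Algebra ℂ A]

theorem cf_add (D : Derivation ℂ A A) (p q : Polynomial A) : cf D (p + q) = cf D p + cf D q := by
  ext i
  simp [coeff_cf]

theorem cf_mul (D : Derivation ℂ A A) (p q : Polynomial A) :
    cf D (p * q) = p * cf D q + q * cf D p := by
  ext i
  rw [coeff_cf, Polynomial.coeff_mul, map_sum, Polynomial.coeff_add, Polynomial.coeff_mul,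
    mul_comm q, Polynomial.coeff_mul, ← Finset.sum_add_distrib]
  refine Finset.sum_congr rfl fun x _ => ?_
  rw [Derivation.leibniz, coeff_cf, coeff_cf]
  simp only [smul_eq_mul]
  ring

theorem cf_C (D : Derivation ℂ A A) (c : A) : cf D (Polynomial.C c) = Polynomial.C (D c) := by
  ext i
  rw [coeff_cf, Polynomial.coeff_C, Polynomial.coeff_C]
  split_ifs <;> simp

theorem cf_X_pow (D : Derivation ℂ A A) (i : ℕ) : cf D (Polynomial.X ^ i) = 0 := by
  ext j
  rw [coeff_cf, Polynomial.coeff_X_pow, Polynomial.coeff_zero]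
  split_ifs <;> simp

theorem cf_sum (D : Derivation ℂ A A) {ι : Type} (s : Finset ι) (p : ι → Polynomial A) :
    cf D (∑ i ∈ s, p i) = ∑ i ∈ s, cf D (p i) := by
  ext j
  simp [coeff_cf, Polynomial.finsetSum_coeff]

theorem derivation_prod {B : Type} [CommRing B] [Algebra ℂ B] {ι : Type} [DecidableEq ι]
    (D : Derivation ℂ B B) (s : Finset ι) (f : ι → B) :
    D (∏ i ∈ s, f i) = ∑ i ∈ s, (∏ j ∈ s.erase i, f j) * D (f i) := by
  induction s using Finset.induction_on with
  | empty => simp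
  | insert i s hi ih =>
    rw [Finset.prod_insert hi, Derivation.leibniz, smul_eq_mul, smul_eq_mul, ih,
      Finset.sum_insert hi, Finset.erase_insert hi, add_comm, Finset.mul_sum]
    congr 1
    refine Finset.sum_congr rfl fun j hj => ?_
    have hij : i ≠ j := fun h => hi (h ▸ hj)
    rw [Finset.erase_insert_of_ne hij, Finset.prod_insert
      (fun h => hi (Finset.mem_of_mem_erase h)), mul_assoc]

/-- CHUNK C1.  Chain rule for `F_a (x (t))` and a derivation `Δ` of `A[t]` (in the applications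
`cf V` and `cf N - d/dt`): `Δ (F_a (x (t))) = ∑ Δ (a_α) x (t) ^ α + ∑ F_b (x (t)) Δ (x_b (t))`. -/
theorem chain_rule {n k r : ℕ} (Δ : Derivation ℂ (Polynomial A) (Polynomial A))
    (a : Idx n k → A) (ξ : JV n r → A) :
    Δ (Fx a ξ) = (∑ α, Δ (Polynomial.C (a α)) * ∏ b, arc ξ b ^ (α.1 b : ℕ)) +
      ∑ b, Fdx b a ξ * Δ (arc ξ b) := by
  classical
  have hprod : ∀ (α : Idx n k), Δ (∏ b, arc ξ b ^ (α.1 b : ℕ)) =
      ∑ j, (((α.1 j : ℕ) : Polynomial A) *
        ∏ b, arc ξ b ^ ((α.1 b : ℕ) - (if b = j then 1 else 0))) * Δ (arc ξ j) := by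
    intro α
    rw [derivation_prod]
    refine Finset.sum_congr rfl fun j _ => ?_
    rw [Derivation.leibniz_pow, smul_eq_mul, nsmul_eq_mul]
    have h1 : (∏ b, arc ξ b ^ ((α.1 b : ℕ) - (if b = j then 1 else 0)))
        = arc ξ j ^ ((α.1 j : ℕ) - 1) * ∏ b ∈ Finset.univ.erase j, arc ξ b ^ (α.1 b : ℕ) := by
      rw [← Finset.mul_prod_erase Finset.univ _ (Finset.mem_univ j)]
      rw [if_pos rfl]
      congr 1
      refine Finset.prod_congr rfl fun b hb => ?_
      rw [if_neg (Finset.ne_of_mem_erase hb), Nat.sub_zero]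
    rw [h1]
    ring
  unfold Fx ev
  rw [map_sum]
  have h2 : ∀ α : Idx n k, Δ (Polynomial.C (a α) * ∏ b, arc ξ b ^ (α.1 b : ℕ))
      = Δ (Polynomial.C (a α)) * (∏ b, arc ξ b ^ (α.1 b : ℕ)) +
        ∑ j, (Polynomial.C (a α) * (((α.1 j : ℕ) : Polynomial A) *
          ∏ b, arc ξ b ^ ((α.1 b : ℕ) - (if b = j then 1 else 0)))) * Δ (arc ξ j) := by
    intro α
    rw [Derivation.leibniz, smul_eq_mul, smul_eq_mul, hprod, Finset.mul_sum]
    rw [add_comm, mul_comm (∏ b, arc ξ b ^ (α.1 b : ℕ))]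
    congr 1
    refine Finset.sum_congr rfl fun j _ => ?_
    ring
  simp only [h2, Finset.sum_add_distrib]
  congr 1
  rw [Finset.sum_comm]
  refine Finset.sum_congr rfl fun j _ => ?_
  unfold Fdx evd
  rw [Finset.sum_mul]

/-- `cf D` as a derivation. -/
noncomputable def cfD (D : Derivation ℂ A A) : Derivation ℂ (Polynomial A) (Polynomial A) where
  toFun := cf D
  map_add' := cf_add D
  map_smul' c p := by
    ext i
    simp [coeff_cf]
  map_one_eq_zero' := by
    change cf D 1 = 0
    have := cf_C D 1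
    rw [map_one, Derivation.map_one_eq_zero, map_zero] at this
    exact this
  leibniz' p q := by
    change cf D (p * q) = _
    rw [cf_mul]
    simp [smul_eq_mul]

end Cf

variable {n k r : ℕ}

theorem cfD_apply {A : Type} [CommRing A] [Algebra ℂ A] (D : Derivation ℂ A A)
    (p : Polynomial A) : cfD D p = cf D p := rfl

theorem VV_aA (g : Idx n k → AA n k r) (lam : Fin n → Polynomial (AA n k r)) (α : Idx n k) :
    VV g lam (aA α) = g α := by
  unfold VV aA
  rw [mkDerivation_X, Sum.elim_inr]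

theorem VV_xA (g : Idx n k → AA n k r) (lam : Fin n → Polynomial (AA n k r)) (p : JV n r) :
    VV g lam (xA p) = (lam p.1).coeff (p.2 : ℕ) := by
  unfold VV xA
  rw [mkDerivation_X, Sum.elim_inl]

theorem NA_xA (p : JV n r) :
    NA n k r (xA p) = if h : (p.2 : ℕ) < r then
      ((p.2 : ℕ) + 1) • xA (p.1, ⟨(p.2 : ℕ) + 1, by omega⟩) else 0 := by
  unfold NA xA
  rw [mkDerivation_X, Sum.elim_inl]

theorem cf_VV_arc (g : Idx n k → AA n k r) (lam : Fin n → Polynomial (AA n k r))
    (hdeg : ∀ b, (lam b).natDegree ≤ r) (b : Fin n) :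
    cf (VV g lam) (arc xA b) = lam b := by
  ext i
  rw [coeff_cf, coeff_arc]
  split_ifs with h
  · rw [VV_xA]
  · rw [map_zero, Polynomial.coeff_eq_zero_of_natDegree_lt]
    have := hdeg b
    omega

/-- CHUNK C1.  `V (u i) = [t ^ i] E (V)`: by `chain_rule` with `Δ = cfD V`
(`cf V (arc xA b) = lam b` as `deg (lam b) ≤ r`, `cf V (C (aA α)) = C (g α)`). -/
theorem VV_uA (g : Idx n k → AA n k r) (lam : Fin n → Polynomial (AA n k r))
    (hdeg : ∀ b, (lam b).natDegree ≤ r) (i : ℕ) :
    VV g lam (uA i) = (EV g lam).coeff i := by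
  have h1 : cf (VV g lam) (Fx aA xA) = EV g lam := by
    have h2 := chain_rule (cfD (VV g lam)) (aA : Idx n k → AA n k r) (xA : JV n r → AA n k r)
    simp only [cfD_apply, cf_VV_arc g lam hdeg, cf_C, VV_aA] at h2
    rw [h2]
    rfl
  rw [← h1, coeff_cf]
  rfl

/-- CHUNK C1.  `N x_b (t) = d/dt x_b (t)`. -/
theorem cf_NA_arc (b : Fin n) :
    cf (NA n k r) (arc xA b) = Polynomial.derivative (arc xA b) := by
  ext i
  rw [coeff_cf, Polynomial.coeff_derivative, coeff_arc, coeff_arc]
  by_cases h1 : i < r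
  · rw [dif_pos (by omega : i < r + 1), dif_pos (by omega : i + 1 < r + 1)]
    rw [NA_xA, dif_pos h1, nsmul_eq_mul, mul_comm]
    push_cast
    rfl
  · rw [dif_neg (by omega : ¬ i + 1 < r + 1)]
    split_ifs with h2
    · rw [NA_xA, dif_neg h1, zero_mul]
    · rw [map_zero, zero_mul]

end Pool.Agent.H89T
end

-- from Lib.H89T.C2
section

set_option autoImplicit false

/-!
CHUNK C2.  The commutator with `N`.
-/

open MvPolynomial

namespace Pool.Agent.H89T

variable {n k r : ℕ}

theorem NA_aA (α : Idx n k) : NA n k r (aA α) = 0 := by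
  unfold NA aA
  rw [mkDerivation_X, Sum.elim_inr]

/-- CHUNK C2.  `[N, V (g, lam)] = V (N g, (N - d/dt) lam)`.  Proof: both sides are derivations
(`⁅NA, V⁆`); compare the values on the variables (`MvPolynomial.derivation_ext`...).  On
`x_{b,l}`, `l < r`: `N ([t ^ l] lam b) - V ((l + 1) x_{b,l+1}) = [t ^ l] (cf N (lam b)) -
(l + 1) [t ^ (l + 1)] lam b`; for `l = r` use `(lam b).coeff (r + 1) = 0`. -/
theorem commutator (g : Idx n k → AA n k r) (lam : Fin n → Polynomial (AA n k r))
    (hdeg : ∀ b, (lam b).natDegree ≤ r) (P : AA n k r) :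
    NA n k r (VV g lam P) = VV g lam (NA n k r P) +
      VV (fun α => NA n k r (g α))
        (fun b => cf (NA n k r) (lam b) - Polynomial.derivative (lam b)) P := by
  have h : ⁅NA n k r, VV g lam⁆ = VV (fun α => NA n k r (g α))
        (fun b => cf (NA n k r) (lam b) - Polynomial.derivative (lam b)) := by
    refine MvPolynomial.derivation_ext ?_
    rintro (p | α)
    · have h1 := VV_xA (r := r) g lam p
      have h2 := VV_xA (r := r) (fun α => NA n k r (g α))
        (fun b => cf (NA n k r) (lam b) - Polynomial.derivative (lam b)) p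
      have h3 := NA_xA (n := n) (k := k) (r := r) p
      unfold xA at h1 h2 h3
      rw [Derivation.commutator_apply, h1, h2, h3, Polynomial.coeff_sub, coeff_cf,
        Polynomial.coeff_derivative]
      congr 1
      split_ifs with hl
      · have h4 := VV_xA (r := r) g lam (p.1, ⟨(p.2 : ℕ) + 1, by omega⟩)
        unfold xA at h4
        rw [map_nsmul, h4, nsmul_eq_mul, mul_comm]
        push_cast
        rfl
      · rw [map_zero]
        have h5 : (lam p.1).coeff ((p.2 : ℕ) + 1) = 0 := by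
          apply Polynomial.coeff_eq_zero_of_natDegree_lt
          have := hdeg p.1
          omega
        rw [h5, zero_mul]
    · have h1 := VV_aA (r := r) g lam α
      have h2 := VV_aA (r := r) (fun α => NA n k r (g α))
        (fun b => cf (NA n k r) (lam b) - Polynomial.derivative (lam b)) α
      have h3 := NA_aA (n := n) (k := k) (r := r) α
      unfold aA at h1 h2 h3
      rw [Derivation.commutator_apply, h1, h2, h3, map_zero, sub_zero]
  have h2 := congrArg (fun D : Derivation ℂ (AA n k r) (AA n k r) => D P) h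
  simp only [Derivation.commutator_apply] at h2
  rw [← h2]
  ring

/-- `cf N - d/dt` as a derivation. -/
noncomputable def DD (n k r : ℕ) : Derivation ℂ (Polynomial (AA n k r)) (Polynomial (AA n k r)) :=
  cfD (NA n k r) - (Polynomial.derivative' (R := AA n k r)).restrictScalars ℂ

theorem DD_apply (p : Polynomial (AA n k r)) :
    DD n k r p = cf (NA n k r) p - Polynomial.derivative p := rfl

theorem DD_arc (b : Fin n) : DD n k r (arc xA b) = 0 := by
  rw [DD_apply, cf_NA_arc, sub_self]

theorem DD_C (c : AA n k r) : DD n k r (Polynomial.C c) = Polynomial.C (NA n k r c) := by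
  rw [DD_apply, cf_C, Polynomial.derivative_C, sub_zero]

theorem DD_X_pow (s : ℕ) : DD n k r (Polynomial.X ^ (s + 1)) =
    -(Polynomial.C ((s : AA n k r) + 1) * Polynomial.X ^ s) := by
  rw [DD_apply, cf_X_pow, Polynomial.derivative_X_pow, zero_sub]
  simp

theorem DD_Fx (g : Idx n k → AA n k r) :
    DD n k r (Fx g xA) = Fx (fun α => NA n k r (g α)) xA := by
  rw [chain_rule]
  simp only [DD_arc, mul_zero, Finset.sum_const_zero, add_zero, DD_C]
  rfl

theorem DD_Fx_aA : DD n k r (Fx aA xA) = 0 := by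
  rw [DD_Fx]
  simp only [NA_aA]
  unfold Fx ev
  simp

theorem DD_Fdx (b : Fin n) : DD n k r (Fdx b aA xA) = 0 := by
  unfold Fdx evd
  rw [map_sum]
  refine Finset.sum_eq_zero fun α _ => ?_
  have hz : ∀ (x y : Polynomial (AA n k r)), DD n k r x = 0 → DD n k r y = 0 →
      DD n k r (x * y) = 0 := by
    intro x y hx hy
    rw [Derivation.leibniz, hx, hy, smul_zero, smul_zero, add_zero]
  refine hz _ _ ?_ (hz _ _ ?_ ?_)
  · rw [DD_C, NA_aA, map_zero]
  · exact Derivation.map_natCast _ _
  · rw [derivation_prod]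
    refine Finset.sum_eq_zero fun j _ => ?_
    rw [Derivation.leibniz_pow, DD_arc, smul_zero, smul_zero, mul_zero]

/-- CHUNK C2.  `E ([N, V]) = (N - d/dt) E (V)`.  Proof: `Δ = cfD N - d/dt` is a derivation of `A[t]`
with `Δ (arc xA b) = 0` (`cf_NA_arc`) and `Δ (C (aA α)) = 0`, so `Δ (Fdx b aA xA) = 0` (apply
the argument of `chain_rule` or expand `Fdx`), and `Δ (C (g α)) = C (N (g α))`. -/
theorem EV_commutator (g : Idx n k → AA n k r) (lam : Fin n → Polynomial (AA n k r)) :
    EV (fun α => NA n k r (g α))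
        (fun b => cf (NA n k r) (lam b) - Polynomial.derivative (lam b)) =
      cf (NA n k r) (EV g lam) - Polynomial.derivative (EV g lam) := by
  rw [← DD_apply]
  unfold EV
  rw [map_add, DD_Fx, map_sum]
  congr 1
  refine Finset.sum_congr rfl fun b _ => ?_
  rw [Derivation.leibniz, DD_Fdx, smul_zero, add_zero, smul_eq_mul, DD_apply]

/-- CHUNK C2.  The commutator with `N` of an `(s + 1)`-admissible field is `s`-admissible: `Δ` maps
the ideal `(F (x (t)), t ^ (s + 1))` into `(F (x (t)), t ^ s)` since `Δ (F (x (t))) = 0`,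
`Δ (t ^ (s + 1)) = - (s + 1) t ^ s`. -/
theorem Adm.commutator {s : ℕ} {g : Idx n k → AA n k r} {lam : Fin n → Polynomial (AA n k r)}
    (h : Adm (s + 1) g lam) :
    Adm s (fun α => NA n k r (g α))
      (fun b => cf (NA n k r) (lam b) - Polynomial.derivative (lam b)) := by
  refine ⟨fun b => ?_, ?_⟩
  · refine (Polynomial.natDegree_sub_le _ _).trans (max_le ?_ ?_)
    · rw [Polynomial.natDegree_le_iff_coeff_eq_zero]
      intro N hN
      rw [coeff_cf, Polynomial.coeff_eq_zero_of_natDegree_lt (lt_of_le_of_lt (h.deg b) hN),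
        map_zero]
    · exact (Polynomial.natDegree_derivative_le _).trans ((Nat.sub_le _ _).trans (h.deg b))
  · rw [EV_commutator, ← DD_apply]
    obtain ⟨a, b, hab⟩ := Ideal.mem_span_pair.1 h.mem
    rw [← hab, map_add, Derivation.leibniz, Derivation.leibniz, DD_Fx_aA, DD_X_pow]
    rw [Ideal.mem_span_pair]
    refine ⟨DD n k r a, -(b * Polynomial.C ((s : AA n k r) + 1)) + Polynomial.X * DD n k r b, ?_⟩
    simp only [smul_eq_mul]
    ring

theorem Adm.mono {s s' : ℕ} (hs : s' ≤ s) {g : Idx n k → AA n k r}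
    {lam : Fin n → Polynomial (AA n k r)} (h : Adm s g lam) : Adm s' g lam := by
  refine ⟨h.deg, ?_⟩
  obtain ⟨a, b, hab⟩ := Ideal.mem_span_pair.1 h.mem
  rw [Ideal.mem_span_pair]
  refine ⟨a, b * Polynomial.X ^ (s - s'), ?_⟩
  rw [← hab, mul_assoc, ← pow_add, Nat.sub_add_cancel hs]


/-- The image of `u i` under an `s`-admissible field, `i < s`. -/
theorem Adm.VV_uA_eq {s : ℕ} {g : Idx n k → AA n k r} {lam : Fin n → Polynomial (AA n k r)}
    (h : Adm s g lam) (J : Ideal (AA n k r)) (i : ℕ) (hi : i < s)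
    (hJ : ∀ j ≤ i, (uA j : AA n k r) ∈ J) : VV g lam (uA i) ∈ J := by
  rw [VV_uA g lam h.deg]
  obtain ⟨a, b, hab⟩ := Ideal.mem_span_pair.1 h.mem
  rw [← hab, Polynomial.coeff_add, Polynomial.coeff_mul_X_pow', if_neg (by omega), add_zero,
    Polynomial.coeff_mul]
  refine Ideal.sum_mem _ fun x hx => ?_
  have hx' := Finset.HasAntidiagonal.mem_antidiagonal.1 hx
  exact Ideal.mul_mem_left _ _ (hJ x.2 (by omega))

/-- CHUNK C2.  A `2`-admissible field preserves the ideal `(u 0, u 1)`: by `VV_uA` the images of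
`u 0`, `u 1` are the coefficients of `1`, `t` in `F (x (t)) h + t ^ 2 e`, and `(F (x (t))).coeff i`
is `uA i`. -/
theorem Adm.preserves_ideal {g : Idx n k → AA n k r} {lam : Fin n → Polynomial (AA n k r)}
    (h : Adm 2 g lam) {P : AA n k r} (hP : P ∈ Ideal.span {(uA 0 : AA n k r), uA 1}) :
    VV g lam P ∈ Ideal.span {(uA 0 : AA n k r), uA 1} := by
  have h0 : (uA 0 : AA n k r) ∈ Ideal.span {(uA 0 : AA n k r), uA 1} :=
    Ideal.subset_span (Set.mem_insert _ _)
  have h1 : (uA 1 : AA n k r) ∈ Ideal.span {(uA 0 : AA n k r), uA 1} :=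
    Ideal.subset_span (Set.mem_insert_of_mem _ rfl)
  have hle : ∀ j ≤ 1, (uA j : AA n k r) ∈ Ideal.span {(uA 0 : AA n k r), uA 1} := by
    intro j hj
    interval_cases j
    · exact h0
    · exact h1
  have h2 := h.VV_uA_eq _ 0 (by omega) (fun j hj => hle j (by omega))
  have h3 := h.VV_uA_eq _ 1 (by omega) (fun j hj => hle j (by omega))
  obtain ⟨a, b, hab⟩ := Ideal.mem_span_pair.1 hP
  rw [← hab, map_add, Derivation.leibniz, Derivation.leibniz]
  simp only [smul_eq_mul]
  refine Ideal.add_mem _ (Ideal.add_mem _ ?_ ?_) (Ideal.add_mem _ ?_ ?_)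
  · exact Ideal.mul_mem_left _ _ h2
  · exact Ideal.mul_mem_right _ _ h0
  · exact Ideal.mul_mem_left _ _ h3
  · exact Ideal.mul_mem_right _ _ h1

/-- CHUNK C2.  Property (A) is preserved.  Induction on `q` (for all `P`, `g`, `lam`):
`N^(l + 1) (V P) = N^l (V (N P)) + N^l ([N, V] P)` by `commutator`; `N P` has property
(A) with `q` and `V` is `(q + 1)`-admissible, `P` has property (A) with `q` and `[N, V]` is
`(q + 1)`-admissible. -/
theorem PropAA.field {q : ℕ} {g : Idx n k → AA n k r} {lam : Fin n → Polynomial (AA n k r)}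
    (h : Adm (q + 1) g lam) {P : AA n k r} (hP : PropAA q P) : PropAA q (VV g lam P) := by
  induction q generalizing P g lam with
  | zero => intro l hl; omega
  | succ q ih =>
    intro l hl
    cases l with
    | zero => exact (h.mono (by omega)).preserves_ideal (hP 0 (by omega))
    | succ l =>
      rw [Function.iterate_succ_apply, commutator g lam h.deg]
      have hit : ∀ (a b : AA n k r), (NA n k r)^[l] (a + b) = (NA n k r)^[l] a
          + (NA n k r)^[l] b := by
        intro a b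
        exact Function.Semiconj₂.iterate (f := NA n k r) (op := (· + ·))
          (fun a b => map_add (NA n k r) a b) l a b
      rw [hit]
      refine Ideal.add_mem _ ?_ ?_
      · refine ih (h.mono (by omega)) ?_ l (by omega)
        intro i hi
        have := hP (i + 1) (by omega)
        rwa [Function.iterate_succ_apply] at this
      · exact ih h.commutator (fun i hi => hP i (by omega)) l (by omega)

/-- CHUNK C2.  Property (B) is preserved: `V (u i) = [t ^ i] (F (x (t)) h + t ^ (r + 1) e)` is, for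
`i ≤ r`, a combination of `u 0, ..., u i`. -/
theorem PropBA.field {g : Idx n k → AA n k r} {lam : Fin n → Polynomial (AA n k r)}
    (h : Adm (r + 1) g lam) {P : AA n k r} (hP : PropBA P) : PropBA (VV g lam P) := by
  unfold PropBA at hP ⊢
  have hu : ∀ j ≤ r, (uA j : AA n k r) ∈
      Ideal.span (Set.range fun i : Fin (r + 1) => (uA (i : ℕ) : AA n k r)) := fun j hj =>
    Ideal.subset_span ⟨⟨j, by omega⟩, rfl⟩
  refine Submodule.span_induction (p := fun P _ => VV g lam P ∈
    Ideal.span (Set.range fun i : Fin (r + 1) => (uA (i : ℕ) : AA n k r))) ?_ ?_ ?_ ?_ hP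
  · rintro _ ⟨i, rfl⟩
    exact h.VV_uA_eq _ i i.2 (fun j hj => hu j (by have := i.2; omega))
  · rw [map_zero]; exact Ideal.zero_mem _
  · intro a b _ _ ha hb
    rw [map_add]
    exact Ideal.add_mem _ ha hb
  · intro c a ha' ha
    rw [smul_eq_mul, Derivation.leibniz, smul_eq_mul, smul_eq_mul]
    exact Ideal.add_mem _ (Ideal.mul_mem_left _ _ ha) (Ideal.mul_mem_right _ _ ha')

end Pool.Agent.H89T
end
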