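import Pool.Agent.Lib.H1M.PB.M003
import Pool.Agent.Lib.H1M.PB.M006

/-! Merged copies (to shorten the build) of Lib.H67T.NM1, Lib.H67T.NM2, Lib.H89T.N2, Lib.H89T.B1, Lib.H89T.K2. -/

-- from Lib.H67T.NM1
section

set_option autoImplicit false

/-!
CHUNK NM1.
-/

open Real Metric MeasureTheory Filter

namespace Pool.Agent.H67T

/-- The factors are entire. -/
theorem NM1_diff_hatFactor (R : ℝ) (a : ℂ) : Differentiable ℂ (hatFactor R a) := by
  unfold hatFactor
  by_cases h : ‖a‖ < R
  · simp only [h, if_true]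
    fun_prop
  · simp only [h, if_false]
    fun_prop

/-- `hat` is entire. -/
theorem NM1_diff_hat (R : ℝ) (s : Finset ℂ) (m : ℂ → ℕ) {h : ℂ → ℂ} (hh : Differentiable ℂ h) :
    Differentiable ℂ (hat R s m h) := by
  unfold hat
  refine Differentiable.mul ?_ hh
  refine Differentiable.fun_finsetProd fun a _ => ?_
  exact (NM1_diff_hatFactor R a).pow _

/-- Continuity of the Poisson kernel. -/
theorem NM1_cont {R : ℝ} {w : ℂ} (hw : ‖w‖ < R) :
    ContinuousOn (Complex.re ∘ herglotzRieszKernel 0 w) (sphere (0 : ℂ) |R|) :=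
  Complex.continuous_re.comp_continuousOn
    (continuousOn_herglotzRieszKernel_sphere (by simpa using hw))

/-- Positivity of the Poisson kernel. -/
theorem NM1_nonneg {R : ℝ} {w ζ : ℂ} (hw : ‖w‖ < R) (hζ : ‖ζ‖ = R) :
    0 ≤ (Complex.re ∘ herglotzRieszKernel 0 w) ζ := by
  have h1 := le_re_herglotzRieszKernel (c := 0) (R := R) (z := ζ) (w := w)
    (by simpa using hζ) (by simpa using hw)
  have h2 : 0 ≤ (R - ‖w - 0‖) / (R + ‖w - 0‖) := by
    have := norm_nonneg w
    apply div_nonneg <;> simp only [sub_zero] <;> linarith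
  simpa [herglotzRieszKernel_def] using h2.trans h1

/-- CHUNK NM1.  Proof: `f w ≠ 0`; take `s, m, h` from `exists_factor hf _ R` and `u = hat R s m h`.
`log ‖f w‖ ≤ log ‖u w‖` (product of `norm_sub_le_hatFactor`), `log ‖u w‖` is the Poisson integral of
`log ‖u‖` (`poisson_hat`), on the circle `‖u ζ‖ = ‖f ζ‖` (`norm_hatFactor_eq`), so
`log ‖u ζ‖ ≤ φ ζ` where `f ζ ≠ 0` (outside of finitely many points); the kernel
is nonnegative (`le_re_herglotzRieszKernel`) and continuous.
(To compare circle averages of functions with `f₁ ≤ f₂` off a finite set: replace `f₁` by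
`min f₁ f₂` with `circleAverage_congr_codiscreteWithin`, then `circleAverage_mono`.) -/
theorem log_norm_le_poisson {f : ℂ → ℂ} (hf : Differentiable ℂ f) {R : ℝ} {w : ℂ} (hw : ‖w‖ < R)
    (hfw : f w ≠ 0) {φ : ℂ → ℝ} (hφ : Continuous φ)
    (hle : ∀ ζ, ‖ζ‖ = R → f ζ ≠ 0 → log ‖f ζ‖ ≤ φ ζ) :
    log ‖f w‖ ≤ circleAverage ((Complex.re ∘ herglotzRieszKernel 0 w) • φ) 0 R := by
  have hR : 0 < R := (norm_nonneg w).trans_lt hw
  obtain ⟨s, m, h, hh, hh0, hfac, hs⟩ := exists_factor hf ⟨w, hfw⟩ R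
  have hu := NM1_diff_hat R s m hh
  have h1 : ‖f w‖ ≤ ‖hat R s m h w‖ := by
    rw [hfac w, hat, norm_mul, norm_mul, norm_prod, norm_prod]
    refine mul_le_mul_of_nonneg_right ?_ (norm_nonneg _)
    refine Finset.prod_le_prod (fun a _ => norm_nonneg _) fun a ha => ?_
    rw [norm_pow, norm_pow]
    exact pow_le_pow_left₀ (norm_nonneg _) (norm_sub_le_hatFactor (hs a ha).1 hw) _
  refine (Real.log_le_log (norm_pos_iff.2 hfw) h1).trans ?_
  rw [← poisson_hat hR hh hh0 (fun a ha => (hs a ha).1) hw]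
  refine NM3_mono hf ⟨w, hfw⟩ hR ((NM3_int hu 0 R).continuousOn_smul (NM1_cont hw))
    ((hφ.continuousOn.circleIntegrable').continuousOn_smul (NM1_cont hw)) ?_
  intro ζ hζ hfζ
  have h2 : ‖hat R s m h ζ‖ = ‖f ζ‖ := by
    rw [hfac ζ, hat, norm_mul, norm_mul, norm_prod, norm_prod]
    congr 1
    refine Finset.prod_congr rfl fun a _ => ?_
    rw [norm_pow, norm_pow, norm_hatFactor_eq hR hζ]
  simp only [Pi.smul_apply', smul_eq_mul]
  rw [h2]
  exact mul_le_mul_of_nonneg_left (hle ζ hζ hfζ) (NM1_nonneg hw hζ)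

end Pool.Agent.H67T
end

-- from Lib.H67T.NM2
section

set_option autoImplicit false

/-!
CHUNK NM2.  Monotonicity of the characteristic.
-/

open Real Metric MeasureTheory

namespace Pool.Agent.H67T

/-- CHUNK NM2.  Proof: let `φ ζ = log ‖y ζ‖` (continuous) and
`U w = circleAverage ((re ∘ herglotzRieszKernel 0 w) • φ) 0 R` for `‖w‖ < R`.  By NM1 for
the coordinate `f = y · j` with `‖y w‖ = ‖y w j‖` one gets `log ‖y w‖ ≤ U w`.
`U` is the real part (`re_circleAverage_herglotzRieszKernel_smul`) of an analytic function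
(`analyticOnNhd_circleAverage_herglotzRieszKernel_smul`), hence harmonic on the ball, and
`circleAverage U 0 r = U 0 = circleAverage φ 0 R` for `r < R`
(`HarmonicOnNhd.circleAverage_eq`; the kernel is `1` for `w = 0`).  The case `r = R` is trivial. -/
theorem chi_mono {n : ℕ} {y : ℂ → Fin n → ℂ} (hy : IsHol y) {r R : ℝ} (hr : 0 < r) (hrR : r ≤ R) :
    chi y r ≤ chi y R := by
  rcases hrR.eq_or_lt with rfl | hlt
  · exact le_rfl
  have hR : 0 < R := hr.trans hlt
  have hφ : Continuous fun z => log ‖y z‖ := NM3_cont hy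
  have hφi : CircleIntegrable (fun z => log ‖y z‖) 0 R := NM3_inty hy 0 R
  have hφc : CircleIntegrable (fun z => ((log ‖y z‖ : ℝ) : ℂ)) 0 R :=
    (Complex.continuous_ofReal.comp hφ).continuousOn.circleIntegrable'
  set F : ℂ → ℂ := fun w =>
    circleAverage (fun ζ => herglotzRieszKernel 0 w ζ • ((log ‖y ζ‖ : ℝ) : ℂ)) 0 R with hF
  have hFan : AnalyticOnNhd ℂ F (ball 0 R) :=
    analyticOnNhd_circleAverage_herglotzRieszKernel_smul hφc
  have hFre : ∀ w, ‖w‖ < R → (F w).re =
      circleAverage ((Complex.re ∘ herglotzRieszKernel 0 w) • fun z => log ‖y z‖) 0 R := by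
    intro w hw
    exact re_circleAverage_herglotzRieszKernel_smul hφi (by simpa using hw)
  have hle : ∀ w, ‖w‖ < R → log ‖y w‖ ≤ (F w).re := by
    intro w hw
    rw [Real.log_le_iff_le_exp (norm_pos_iff.2 (hy.ne_zero w)),
      pi_norm_le_iff_of_nonneg (Real.exp_pos _).le]
    intro j
    by_cases hj : y w j = 0
    · rw [hj, norm_zero]
      exact (Real.exp_pos _).le
    · rw [← Real.log_le_iff_le_exp (norm_pos_iff.2 hj), hFre w hw]
      refine log_norm_le_poisson (hy.diff j) hw hj hφ ?_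
      intro ζ _ hζ
      exact Real.log_le_log (norm_pos_iff.2 hζ) (norm_le_pi_norm (y ζ) j)
  have hsub : closedBall (0 : ℂ) |r| ⊆ ball 0 R := by
    rw [abs_of_pos hr]
    exact closedBall_subset_ball hlt
  have hharm : InnerProductSpace.HarmonicOnNhd (fun w => (F w).re) (closedBall (0 : ℂ) |r|) := by
    intro w hw
    exact (hFan w (hsub hw)).harmonicAt_re
  have hmean := hharm.circleAverage_eq
  have hcont : ContinuousOn (fun w => (F w).re) (sphere (0 : ℂ) |r|) :=
    Complex.continuous_re.comp_continuousOn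
      (hFan.continuousOn.mono (sphere_subset_closedBall.trans hsub))
  have h1 : chi y r ≤ circleAverage (fun w => (F w).re) 0 r := by
    refine circleAverage_mono (NM3_inty hy 0 r) hcont.circleIntegrable' ?_
    intro x hx
    apply hle
    have : ‖x‖ = r := by simpa [abs_of_pos hr] using hx
    linarith
  refine h1.trans (le_of_eq ?_)
  rw [hmean, hFre 0 (by simpa using hR), chi]
  refine circleAverage_congr_sphere ?_
  intro ζ hζ
  have hζ0 : ζ ≠ 0 := by
    rintro rfl
    have : (0 : ℝ) = R := by simpa [abs_of_pos hR] using hζ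
    linarith
  simp [herglotzRieszKernel_def, div_self hζ0]

end Pool.Agent.H67T
end

-- from Lib.H89T.N2
section

set_option autoImplicit false

/-!
CHUNK N2.  Elementary facts on degrees of monomials and supports (all easy).
-/

open MvPolynomial

namespace Pool.Agent.H89T

variable {n k r : ℕ} {R : Type*} [CommRing R]

theorem xd_add (m m' : JV n r →₀ ℕ) : xd (m + m') = xd m + xd m' := by
  simp [xd, Finset.sum_add_distrib]

theorem jd_add (m m' : JV n r →₀ ℕ) : jd (m + m') = jd m + jd m' := by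
  rw [jd, jd, jd, ← Finset.sum_add_distrib]
  refine Finset.sum_congr rfl fun p _ => ?_
  split_ifs <;> simp


theorem N2_xd_eq (m : JV n r →₀ ℕ) : xd m = ∑ p : JV n r, if p.2 = 0 then m p else 0 := by
  rw [xd, Fintype.sum_prod_type]
  refine Finset.sum_congr rfl fun b _ => ?_
  rw [Finset.sum_eq_single 0]
  · simp
  · intro l _ hl
    simp [hl]
  · intro h
    exact absurd (Finset.mem_univ _) h

/-- the weight of a monomial is at most its coordinate degree plus `r + 1` times its jet degree -/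
theorem wt_le (m : JV n r →₀ ℕ) : wt m ≤ xd m + (r + 1) * jd m := by
  rw [N2_xd_eq, wt, jd, Finset.mul_sum, ← Finset.sum_add_distrib]
  refine Finset.sum_le_sum fun p _ => ?_
  by_cases h : p.2 = 0
  · simp [h]
  · simp only [if_neg h, zero_add]
    exact Nat.mul_le_mul_right _ (by omega)

theorem N2_le (m : JV n r →₀ ℕ) (p : JV n r) : m p ≤ xd m + jd m := by
  rw [N2_xd_eq, jd, ← Finset.sum_add_distrib]
  refine le_trans ?_ (Finset.single_le_sum (fun _ _ => Nat.zero_le _) (Finset.mem_univ p))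
  by_cases h : p.2 = 0 <;> simp [h]

/-- there are finitely many monomials of bounded degrees -/
theorem Mon_finite (n r d M : ℕ) : (Mon n r d M).Finite := by
  refine Set.Finite.subset (Set.finite_Iic (Finsupp.equivFunOnFinite.symm fun _ => d + M))
    fun m hm => ?_
  rw [Set.mem_Iic, Finsupp.le_def]
  intro p
  have h1 := N2_le m p
  have h2 : xd m ≤ d := hm.1
  have h3 : jd m ≤ M := hm.2
  simp only [Finsupp.equivFunOnFinite_symm_apply_apply]
  omega

theorem HasMon.mono {d M d' M' : ℕ} {P : MvPolynomial (JV n r) R} (h : HasMon d M P)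
    (hd : d ≤ d') (hM : M ≤ M') : HasMon d' M' P := by
  intro m hm
  exact ⟨(h m hm).1.trans hd, (h m hm).2.trans hM⟩

theorem HasMon.add {d M : ℕ} {P Q : MvPolynomial (JV n r) R} (hP : HasMon d M P)
    (hQ : HasMon d M Q) : HasMon d M (P + Q) := by
  classical
  intro m hm
  rcases Finset.mem_union.mp (support_add hm) with h | h
  · exact hP m h
  · exact hQ m h

theorem HasMon.mul {d M d' M' : ℕ} {P Q : MvPolynomial (JV n r) R} (hP : HasMon d M P)
    (hQ : HasMon d' M' Q) : HasMon (d + d') (M + M') (P * Q) := by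
  classical
  intro m hm
  obtain ⟨a, ha, b, hb, rfl⟩ := Finset.mem_add.mp (support_mul _ _ hm)
  rw [xd_add, jd_add]
  exact ⟨add_le_add (hP a ha).1 (hQ b hb).1, add_le_add (hP a ha).2 (hQ b hb).2⟩

theorem N2_hasMon_zero {d M : ℕ} : HasMon d M (0 : MvPolynomial (JV n r) R) := by
  intro m hm
  simp at hm

theorem HasMon.sum {ι : Type*} {s : Finset ι} {d M : ℕ} {P : ι → MvPolynomial (JV n r) R}
    (hP : ∀ i ∈ s, HasMon d M (P i)) : HasMon d M (∑ i ∈ s, P i) := by
  classical
  induction s using Finset.induction_on with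
  | empty => simpa using N2_hasMon_zero
  | insert a s ha ih =>
    rw [Finset.sum_insert ha]
    exact (hP a (Finset.mem_insert_self _ _)).add
      (ih fun i hi => hP i (Finset.mem_insert_of_mem hi))

theorem N2_hasMon_monomial {d M : ℕ} {m : JV n r →₀ ℕ} (h1 : xd m ≤ d) (h2 : jd m ≤ M) (c : R) :
    HasMon d M (monomial m c) := by
  intro m' hm'
  have := Finset.mem_singleton.mp (support_monomial_subset hm')
  subst this
  exact ⟨h1, h2⟩

theorem HasMon.C (c : R) : HasMon (n := n) (r := r) 0 0 (MvPolynomial.C c) := by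
  exact N2_hasMon_monomial (by simp [xd]) (by simp [jd]) c

theorem HasMon.smul {d M : ℕ} (c : R) {P : MvPolynomial (JV n r) R} (hP : HasMon d M P) :
    HasMon d M (c • P) := by
  intro m hm
  exact hP m (support_smul hm)

theorem HasMon.pow {d M : ℕ} {P : MvPolynomial (JV n r) R} (hP : HasMon d M P) (e : ℕ) :
    HasMon (e * d) (e * M) (P ^ e) := by
  induction e with
  | zero => simpa using HasMon.C (n := n) (r := r) (1 : R)
  | succ e ih =>
    rw [pow_succ, Nat.succ_mul, Nat.succ_mul]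
    exact ih.mul hP

theorem HasMon.X0 (b : Fin n) : HasMon (R := R) (n := n) (r := r) 1 0 (X (b, 0)) := by
  refine N2_hasMon_monomial ?_ ?_ 1
  · rw [N2_xd_eq]
    refine le_of_eq ?_
    rw [Finset.sum_eq_single (b, 0)]
    · simp
    · intro p _ hp
      split_ifs
      · rw [Finsupp.single_eq_of_ne hp]
      · rfl
    · intro h
      exact absurd (Finset.mem_univ _) h
  · refine le_of_eq (Finset.sum_eq_zero fun p _ => ?_)
    split_ifs with h
    · rfl
    · rw [Finsupp.single_eq_of_ne]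
      rintro rfl
      exact h rfl

theorem HasMon.X1 (p : JV n r) (hp : p.2 ≠ 0) : HasMon (R := R) 0 1 (X p) := by
  refine N2_hasMon_monomial ?_ ?_ 1
  · refine le_of_eq (Finset.sum_eq_zero fun b _ => ?_)
    rw [Finsupp.single_eq_of_ne]
    rintro rfl
    exact hp rfl
  · refine le_of_eq ?_
    rw [jd, Finset.sum_eq_single p]
    · simp [hp]
    · intro q _ hq
      split_ifs
      · rfl
      · rw [Finsupp.single_eq_of_ne hq]
    · intro h
      exact absurd (Finset.mem_univ _) h

theorem N2_prod {ι : Type*} {s : Finset ι} {d M : ι → ℕ} {P : ι → MvPolynomial (JV n r) R}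
    (hP : ∀ i ∈ s, HasMon (d i) (M i) (P i)) :
    HasMon (∑ i ∈ s, d i) (∑ i ∈ s, M i) (∏ i ∈ s, P i) := by
  classical
  induction s using Finset.induction_on with
  | empty => simpa using HasMon.C (n := n) (r := r) (1 : R)
  | insert a s ha ih =>
    rw [Finset.sum_insert ha, Finset.sum_insert ha, Finset.prod_insert ha]
    exact (hP a (Finset.mem_insert_self _ _)).mul
      (ih fun i hi => hP i (Finset.mem_insert_of_mem hi))

/-- coordinate degree of `F_a` and of its derivatives -/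
theorem HasMon.u0 (a : Idx n k → R) : HasMon (r := r) k 0 (uR a 0) := by
  rw [uR, uu_zero, ev]
  refine HasMon.sum fun α _ => ?_
  have h := (HasMon.C (n := n) (r := r) (a α)).mul
    (N2_prod (R := R) (s := Finset.univ) (d := fun b : Fin n => (α.1 b : ℕ) * 1)
      (M := fun b : Fin n => (α.1 b : ℕ) * 0) (P := fun b : Fin n =>
        (X (b, 0) : MvPolynomial (JV n r) R) ^ (α.1 b : ℕ)) fun b _ => (HasMon.X0 b).pow _)
  refine h.mono ?_ ?_
  · simpa using α.2
  · simp

theorem HasMon.gR (j : Fin n) (a : Idx n k → R) : HasMon (r := r) (k - 1) 0 (gR j a) := by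
  rw [Pool.Agent.H89T.gR, evd]
  refine HasMon.sum fun α _ => ?_
  by_cases h0 : (α.1 j : ℕ) = 0
  · rw [h0]
    simpa using N2_hasMon_zero
  have h := (HasMon.C (n := n) (r := r) (a α)).mul
    ((HasMon.C (n := n) (r := r) (((α.1 j : ℕ) : ℕ) : R)).mul
    (N2_prod (R := R) (s := Finset.univ)
      (d := fun b : Fin n => ((α.1 b : ℕ) - (if b = j then 1 else 0)) * 1)
      (M := fun b : Fin n => ((α.1 b : ℕ) - (if b = j then 1 else 0)) * 0) (P := fun b : Fin n =>
        (X (b, 0) : MvPolynomial (JV n r) R) ^ ((α.1 b : ℕ) - (if b = j then 1 else 0)))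
        fun b _ => (HasMon.X0 b).pow _))
  rw [map_natCast] at h
  refine h.mono ?_ ?_
  · have h1 : ∑ b, (α.1 b : ℕ) ≤ k := α.2
    have h2 : ∑ b, ((α.1 b : ℕ) - (if b = j then 1 else 0)) * 1 + 1 = ∑ b, (α.1 b : ℕ) := by
      rw [← Finset.add_sum_erase _ _ (Finset.mem_univ j), ← Finset.add_sum_erase _
        (fun b => (α.1 b : ℕ)) (Finset.mem_univ j)]
      have h3 : ∑ b ∈ Finset.univ.erase j, ((α.1 b : ℕ) - (if b = j then 1 else 0)) * 1 =
          ∑ b ∈ Finset.univ.erase j, (α.1 b : ℕ) := by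
        refine Finset.sum_congr rfl fun b hb => ?_
        rw [if_neg (Finset.ne_of_mem_erase hb), Nat.sub_zero, mul_one]
      rw [h3]
      simp only [if_true]
      omega
    omega
  · simp

/-- `N` raises the jet degree by at most one and does not raise the coordinate degree -/
theorem HasMon.NN {d M : ℕ} {P : MvPolynomial (JV n r) R} (hP : HasMon d M P) :
    HasMon d (M + 1) (NN n r R P) := by
  classical
  rw [P.as_sum, map_sum]
  refine HasMon.sum fun m hm => ?_
  obtain ⟨h1, h2⟩ := hP m hm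
  rw [Pool.Agent.H89T.NN, mkDerivation_monomial]
  refine HasMon.smul _ ?_
  rw [Finsupp.sum]
  refine HasMon.sum fun p hp => ?_
  have hp0 : m p ≠ 0 := Finsupp.mem_support_iff.mp hp
  have hle : Finsupp.single p 1 ≤ m := by
    rw [Finsupp.single_le_iff]
    omega
  have hsum : m - Finsupp.single p 1 + Finsupp.single p 1 = m := tsub_add_cancel_of_le hle
  rw [smul_eq_mul]
  have hx : xd (m - Finsupp.single p 1) + xd (Finsupp.single p 1) = xd m := by
    rw [← xd_add, hsum]
  have hj : jd (m - Finsupp.single p 1) + jd (Finsupp.single p 1) = jd m := by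
    rw [← jd_add, hsum]
  split_ifs with h
  · have hX : HasMon (R := R) 0 1 (X (p.1, (⟨(p.2 : ℕ) + 1, by omega⟩ : Fin (r + 1)))) :=
      HasMon.X1 _ (by
        intro h'
        have := congrArg Fin.val h'
        simp at this)
    have h3 := (N2_hasMon_monomial (R := R) (le_refl (xd (m - Finsupp.single p 1)))
      (le_refl (jd (m - Finsupp.single p 1))) ((m p : ℕ) : R)).mul
        ((HasMon.C (n := n) (r := r) (((p.2 : ℕ) + 1 : ℕ) : R)).mul hX)
    have hC : ((p.2 : ℕ) + 1) • (X (p.1, (⟨(p.2 : ℕ) + 1, by omega⟩ : Fin (r + 1))) :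
        MvPolynomial (JV n r) R) = MvPolynomial.C (((p.2 : ℕ) + 1 : ℕ) : R) *
          X (p.1, (⟨(p.2 : ℕ) + 1, by omega⟩ : Fin (r + 1))) := by
      rw [map_natCast, nsmul_eq_mul]
    rw [hC]
    refine h3.mono ?_ ?_
    · omega
    · omega
  · rw [mul_zero]
    exact N2_hasMon_zero


end Pool.Agent.H89T
end

-- from Lib.H89T.B1
section

set_option autoImplicit false

/-!
CHUNK B1.  Elimination of the jets of the `j`-th coordinate.
-/

open MvPolynomial

namespace Pool.Agent.H89T

variable {n k r : ℕ} {R : Type} [CommRing R]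

/-- As `HasMon`, without the jets of order `≥ 1` of the `j`-th coordinate. -/
def HasMonJ (j : Fin n) (d M : ℕ) (P : MvPolynomial (JV n r) R) : Prop :=
  ∀ m ∈ P.support, xd m ≤ d ∧ jd m ≤ M ∧ ∀ l : Fin (r + 1), l ≠ 0 → m (j, l) = 0

/-- The ideal `(u 1, ..., u r)`. -/
noncomputable def I1 (a : Idx n k → R) : Ideal (MvPolynomial (JV n r) R) :=
  Ideal.span (Set.range fun i : Fin r => uR a ((i : ℕ) + 1))

/-- auxiliary: the coefficient of `t ^ i` has coordinate degree `≤ D` and jet degree `≤ i` -/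
def B1CP (D : ℕ) (p : Polynomial (MvPolynomial (JV n r) R)) : Prop :=
  ∀ i, HasMon D i (p.coeff i)

theorem B1_zero (D M : ℕ) : HasMon D M (0 : MvPolynomial (JV n r) R) := by
  intro m hm
  simp at hm

theorem B1CP.mul {D D' : ℕ} {p q : Polynomial (MvPolynomial (JV n r) R)}
    (hp : B1CP D p) (hq : B1CP D' q) : B1CP (D + D') (p * q) := by
  intro i
  rw [Polynomial.coeff_mul]
  refine HasMon.sum fun x hx => ?_
  have h := (hp x.1).mul (hq x.2)
  rw [Finset.HasAntidiagonal.mem_antidiagonal.1 hx] at h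
  exact h

theorem B1CP.C (c : MvPolynomial (JV n r) R) {D : ℕ} (hc : HasMon D 0 c) :
    B1CP D (Polynomial.C c) := by
  intro i
  rw [Polynomial.coeff_C]
  split_ifs with h
  · exact hc.mono le_rfl (Nat.zero_le _)
  · exact B1_zero _ _

theorem B1CP.one : B1CP 0 (1 : Polynomial (MvPolynomial (JV n r) R)) := by
  have h := B1CP.C (n := n) (r := r) (1 : MvPolynomial (JV n r) R) (D := 0)
    (by simpa using HasMon.C (n := n) (r := r) (1 : R))
  simpa using h

theorem B1CP.pow {D : ℕ} {p : Polynomial (MvPolynomial (JV n r) R)} (hp : B1CP D p) (e : ℕ) :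
    B1CP (e * D) (p ^ e) := by
  induction e with
  | zero => simpa using B1CP.one
  | succ e ih =>
    rw [pow_succ, Nat.succ_mul]
    exact ih.mul hp

theorem B1CP.prod {ι : Type*} (s : Finset ι) {D : ι → ℕ}
    {p : ι → Polynomial (MvPolynomial (JV n r) R)} (hp : ∀ i ∈ s, B1CP (D i) (p i)) :
    B1CP (∑ i ∈ s, D i) (∏ i ∈ s, p i) := by
  classical
  induction s using Finset.induction_on with
  | empty => simpa using B1CP.one
  | insert i s hi ih =>
    rw [Finset.prod_insert hi, Finset.sum_insert hi]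
    exact (hp i (Finset.mem_insert_self _ _)).mul
      (ih fun i' hi' => hp i' (Finset.mem_insert_of_mem hi'))

theorem B1CP.mono {D D' : ℕ} {p : Polynomial (MvPolynomial (JV n r) R)}
    (hp : B1CP D p) (h : D ≤ D') : B1CP D' p := fun i => (hp i).mono h le_rfl

theorem B1CP.sum {ι : Type*} {s : Finset ι} {D : ℕ}
    {p : ι → Polynomial (MvPolynomial (JV n r) R)} (hp : ∀ i ∈ s, B1CP D (p i)) :
    B1CP D (∑ i ∈ s, p i) := by
  intro i
  rw [Polynomial.finsetSum_coeff]
  exact HasMon.sum fun x hx => hp x hx i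

/-- the arcs -/
theorem B1CP.arc {ξ : JV n r → MvPolynomial (JV n r) R} (hξ : ∀ p, ξ p = 0 ∨ ξ p = X p)
    (b : Fin n) : B1CP 1 (Pool.Agent.H89T.arc ξ b) := by
  intro i
  rw [coeff_arc]
  split_ifs with h
  · rcases hξ (b, ⟨i, h⟩) with h0 | h0
    · rw [h0]; exact B1_zero _ _
    · rw [h0]
      by_cases hi : i = 0
      · subst hi
        exact HasMon.X0 b
      · refine (HasMon.X1 (R := R) (b, ⟨i, h⟩) ?_).mono (Nat.zero_le _) (Nat.pos_of_ne_zero hi)
        intro h1
        apply hi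
        have := congrArg Fin.val h1
        simpa using this
  · exact B1_zero _ _

theorem B1CP.Fx (a : Idx n k → R) {ξ : JV n r → MvPolynomial (JV n r) R}
    (hξ : ∀ p, ξ p = 0 ∨ ξ p = X p) :
    B1CP k (Pool.Agent.H89T.Fx (fun α => MvPolynomial.C (a α)) ξ) := by
  unfold Pool.Agent.H89T.Fx ev
  refine B1CP.sum fun α _ => ?_
  have h1 : B1CP (∑ b : Fin n, (α.1 b : ℕ) * 1) (∏ b : Fin n, Pool.Agent.H89T.arc ξ b ^ (α.1 b : ℕ)) :=
    B1CP.prod _ fun b _ => (B1CP.arc hξ b).pow _
  have h2 := (B1CP.C (MvPolynomial.C (a α)) (D := 0) (HasMon.C (a α))).mul h1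
  refine h2.mono ?_
  have := α.2
  simpa using this

/-- auxiliary: the jet without the `x_{j,l'}`, `l' ≥ l` -/
noncomputable def B1xi (j : Fin n) (l : Fin (r + 1)) (p : JV n r) : MvPolynomial (JV n r) R :=
  if p.1 = j ∧ l ≤ p.2 then 0 else X p

theorem B1xi_eq (j : Fin n) (l : Fin (r + 1)) (p : JV n r) :
    B1xi (R := R) j l p = 0 ∨ B1xi (R := R) j l p = X p := by
  unfold B1xi
  split_ifs
  · exact Or.inl rfl
  · exact Or.inr rfl

/-- the variables which are kept -/
abbrev B1S (r : ℕ) (j : Fin n) (l : Fin (r + 1)) : Type := {p : JV n r // ¬ (p.1 = j ∧ l ≤ p.2)}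

/-- the jet in the smaller ring -/
noncomputable def B1xi' (j : Fin n) (l : Fin (r + 1)) (p : JV n r) :
    MvPolynomial (B1S r j l) R :=
  open Classical in if h : p.1 = j ∧ l ≤ p.2 then 0 else X ⟨p, h⟩

theorem B1_rename (j : Fin n) (l : Fin (r + 1)) (p : JV n r) :
    rename (R := R) (Subtype.val : B1S r j l → JV n r) (B1xi' j l p) = B1xi j l p := by
  unfold B1xi' B1xi
  split_ifs with h
  · simp
  · simp

theorem B1_free (a : Idx n k → R) (j : Fin n) (l : Fin (r + 1)) (i : ℕ) :
    ∀ m ∈ (uu (fun α => MvPolynomial.C (a α)) (B1xi (r := r) j l) i).support,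
      ∀ l' : Fin (r + 1), l ≤ l' → m (j, l') = 0 := by
  intro m hm l' hl'
  have h1 : rename (R := R) (Subtype.val : B1S r j l → JV n r)
      (uu (fun α => MvPolynomial.C (a α)) (B1xi' (r := r) j l) i) =
      uu (fun α => MvPolynomial.C (a α)) (B1xi (r := r) j l) i := by
    have h2 := uu_map (rename (R := R) (Subtype.val : B1S r j l → JV n r) :
      MvPolynomial (B1S r j l) R →ₐ[R] MvPolynomial (JV n r) R).toRingHom
      (fun α => MvPolynomial.C (a α)) (B1xi' (r := r) j l) i
    have h3 : (fun p => (rename (R := R) (Subtype.val : B1S r j l → JV n r) :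
      MvPolynomial (B1S r j l) R →ₐ[R] MvPolynomial (JV n r) R).toRingHom
        (B1xi' (r := r) j l p)) = B1xi (R := R) j l := by
      funext p
      exact B1_rename j l p
    have h4 : (fun α : Idx n k => (rename (R := R) (Subtype.val : B1S r j l → JV n r) :
      MvPolynomial (B1S r j l) R →ₐ[R] MvPolynomial (JV n r) R).toRingHom
        (MvPolynomial.C (a α))) = fun α => MvPolynomial.C (a α) := by
      funext α
      simp
    rw [h3, h4] at h2
    exact h2
  rw [← h1, mem_support_iff] at hm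
  obtain ⟨u, hu, -⟩ := coeff_rename_ne_zero _ _ _ hm
  rw [← hu]
  refine Finsupp.mapDomain_of_notMem_range _ _ ?_
  rintro ⟨p, hp⟩
  exact p.2 ⟨congrArg Prod.fst hp, by rw [hp]; exact hl'⟩

/-- the arcs with and without the higher jets -/
theorem B1_arc_split (j : Fin n) (l : Fin (r + 1)) :
    ∃ h : Polynomial (MvPolynomial (JV n r) R), h.coeff 0 = X (j, l) ∧
      arc (fun p => (X p : MvPolynomial (JV n r) R)) j =
        arc (B1xi (R := R) j l) j + Polynomial.X ^ (l : ℕ) * h := by
  classical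
  refine ⟨∑ i : Fin (r + 1), if l ≤ i then
    Polynomial.C (X (j, i)) * Polynomial.X ^ ((i : ℕ) - (l : ℕ)) else 0, ?_, ?_⟩
  · rw [Polynomial.finsetSum_coeff, Finset.sum_eq_single l]
    · simp
    · intro i _ hi
      split_ifs with h
      · have h1 : (i : ℕ) - (l : ℕ) ≠ 0 := by
          have h2 : (l : ℕ) ≤ i := h
          have h3 : (l : ℕ) ≠ i := fun h4 => hi (Fin.ext h4.symm)
          omega
        simp [Polynomial.coeff_X_pow, h1.symm]
      · simp
    · simp
  · unfold arc
    rw [Finset.mul_sum, ← Finset.sum_add_distrib]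
    refine Finset.sum_congr rfl fun i _ => ?_
    by_cases h : l ≤ i
    · have h2 : (l : ℕ) ≤ i := h
      rw [if_pos h]
      simp only [B1xi, true_and, h, if_true, map_zero, zero_mul, zero_add]
      rw [mul_left_comm, ← pow_add, Nat.add_sub_cancel' h2]
    · rw [if_neg h]
      simp [B1xi, h]

theorem B1_arc_ne (j : Fin n) (l : Fin (r + 1)) (b : Fin n) (hb : b ≠ j) :
    arc (fun p => (X p : MvPolynomial (JV n r) R)) b = arc (B1xi (R := R) j l) b := by
  unfold arc
  refine Finset.sum_congr rfl fun i _ => ?_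
  simp [B1xi, hb]

theorem B1_arc_coeff_zero (j : Fin n) (l : Fin (r + 1)) (hl : l ≠ 0) (b : Fin n) :
    (arc (B1xi (R := R) j l) b).coeff 0 = X (b, 0) := by
  rw [coeff_arc]
  have h : (0 : ℕ) < r + 1 := Nat.succ_pos _
  rw [dif_pos h]
  have h1 : ¬ (l ≤ (⟨0, h⟩ : Fin (r + 1))) := by
    intro h2
    apply hl
    apply Fin.ext
    have h3 : (l : ℕ) ≤ 0 := h2
    simpa using h3
  unfold B1xi
  rw [if_neg (fun h2 => h1 h2.2)]
  rfl

theorem B1_monomial (j : Fin n) (l : Fin (r + 1)) (hl : l ≠ 0) (α : Fin n → ℕ) :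
    (∏ b, arc (fun p => (X p : MvPolynomial (JV n r) R)) b ^ α b).coeff (l : ℕ) =
      ((α j : ℕ) : MvPolynomial (JV n r) R) *
        (∏ b, X (b, (0 : Fin (r + 1))) ^ (α b - (if b = j then 1 else 0))) * X (j, l) +
      (∏ b, arc (B1xi (R := R) j l) b ^ α b).coeff (l : ℕ) := by
  classical
  obtain ⟨h, h0, hh⟩ := B1_arc_split (R := R) j l
  have hlpos : 0 < (l : ℕ) := by
    rcases Nat.eq_zero_or_pos (l : ℕ) with h1 | h1
    · exact absurd (Fin.ext h1) hl
    · exact h1
  rw [← Finset.mul_prod_erase _ _ (Finset.mem_univ j)]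
  have hprod : ∏ b ∈ Finset.univ.erase j, arc (fun p => (X p : MvPolynomial (JV n r) R)) b ^ α b =
      ∏ b ∈ Finset.univ.erase j, arc (B1xi (R := R) j l) b ^ α b :=
    Finset.prod_congr rfl fun b hb => by rw [B1_arc_ne j l b (Finset.ne_of_mem_erase hb)]
  rw [hprod, hh]
  obtain ⟨q, hq⟩ := Polynomial.powAddExpansion (arc (B1xi (R := R) j l) j)
    (Polynomial.X ^ (l : ℕ) * h) (α j)
  rw [hq]
  set y := arc (B1xi (R := R) j l) with hy
  set T := ∏ b ∈ Finset.univ.erase j, y b ^ α b with hT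
  have e1 : (y j ^ α j + (α j : Polynomial (MvPolynomial (JV n r) R)) * y j ^ (α j - 1) *
      (Polynomial.X ^ (l : ℕ) * h) + q * (Polynomial.X ^ (l : ℕ) * h) ^ 2) * T =
      y j ^ α j * T + Polynomial.X ^ (l : ℕ) *
        ((α j : Polynomial (MvPolynomial (JV n r) R)) * y j ^ (α j - 1) * h * T) +
      Polynomial.X ^ (l : ℕ) * (Polynomial.X ^ (l : ℕ) * (q * h ^ 2 * T)) := by ring
  rw [e1, Polynomial.coeff_add, Polynomial.coeff_add]
  have e2 : (Polynomial.X ^ (l : ℕ) *
        ((α j : Polynomial (MvPolynomial (JV n r) R)) * y j ^ (α j - 1) * h * T)).coeff (l : ℕ) =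
      ((α j : ℕ) : MvPolynomial (JV n r) R) * X (j, 0) ^ (α j - 1) * X (j, l) *
        ∏ b ∈ Finset.univ.erase j, X (b, 0) ^ α b := by
    rw [Polynomial.coeff_X_pow_mul', if_pos le_rfl, Nat.sub_self, Polynomial.mul_coeff_zero,
      Polynomial.mul_coeff_zero, Polynomial.mul_coeff_zero, h0, Polynomial.coeff_zero_eq_eval_zero,
      Polynomial.coeff_zero_eq_eval_zero, Polynomial.coeff_zero_eq_eval_zero,
      Polynomial.eval_pow, hT, Polynomial.eval_prod]
    simp only [Polynomial.eval_pow, Polynomial.eval_natCast]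
    have e3 : ∀ b, Polynomial.eval 0 (y b) = X (b, 0) := fun b => by
      rw [← Polynomial.coeff_zero_eq_eval_zero]
      exact B1_arc_coeff_zero j l hl b
    simp only [e3]
  have e4 : (Polynomial.X ^ (l : ℕ) * (Polynomial.X ^ (l : ℕ) * (q * h ^ 2 * T))).coeff (l : ℕ)
      = 0 := by
    rw [Polynomial.coeff_X_pow_mul', if_pos le_rfl, Nat.sub_self, Polynomial.mul_coeff_zero,
      Polynomial.coeff_X_pow, if_neg (by omega), zero_mul]
  rw [e2, e4, add_zero]
  have e5 : (y j ^ α j * T) = ∏ b, y b ^ α b := by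
    rw [hT, Finset.mul_prod_erase _ (fun b => y b ^ α b) (Finset.mem_univ j)]
  have e6 : (∏ b, (X (b, (0 : Fin (r + 1))) : MvPolynomial (JV n r) R) ^
      (α b - (if b = j then 1 else 0))) =
      X (j, 0) ^ (α j - 1) * ∏ b ∈ Finset.univ.erase j, X (b, 0) ^ α b := by
    rw [← Finset.mul_prod_erase _ _ (Finset.mem_univ j)]
    simp only [if_true]
    congr 1
    refine Finset.prod_congr rfl fun b hb => ?_
    rw [if_neg (Finset.ne_of_mem_erase hb), Nat.sub_zero]
  rw [e5, e6]
  ring

/-- CHUNK B1.  Structure of `u l`, `l ≥ 1`: `u l = F_j (x) x_{j,l} + R_l`, `R_l` does not contain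
`x_{j,l'}` for `l' ≥ l`, has coordinate degree `≤ k` and jet degree `≤ l`.
Proof: `F_a (x (t))` modulo `t ^ (l + 1)`; for the monomial `x ^ α` the coefficient of `t ^ l` in
`∏ b, x_b (t) ^ α_b` is a sum of products of `∑ α_b` jets `x_{b, l_ν}` with `∑ l_ν = l`: at most
`l` of the `l_ν` are `≥ 1` (jet degree `≤ l`), and if some `x_{j, l'}` with `l' ≥ l` occurs then
`l' = l` and the others have order `0`.  Possible way: write
`x_j (t) = y (t) + x_{j,l} t ^ l` modulo `t ^ (l + 1)`, `y` without `x_{j,l'}`, `l' ≥ l`, and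
`F_a (y + h) = F_a (y) + F_j (y) h` modulo `h ^ 2`; the degree bounds by induction on the number of
factors (a predicate for the coefficients of products of polynomials in `t`: coefficient of `t ^ i`
has jet degree `≤ i`). -/
theorem u_structure (a : Idx n k → R) (j : Fin n) (l : Fin (r + 1)) (hl : l ≠ 0) :
    ∃ Q : MvPolynomial (JV n r) R, uR a (l : ℕ) = gR j a * X (j, l) + Q ∧
      HasMon k (l : ℕ) Q ∧ ∀ m ∈ Q.support, ∀ l' : Fin (r + 1), l ≤ l' → m (j, l') = 0 := by
  refine ⟨uu (fun α => MvPolynomial.C (a α)) (B1xi j l) (l : ℕ), ?_, ?_, ?_⟩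
  · unfold uR uu Fx ev gR evd
    rw [Polynomial.finsetSum_coeff, Polynomial.finsetSum_coeff, Finset.sum_mul,
      ← Finset.sum_add_distrib]
    refine Finset.sum_congr rfl fun α _ => ?_
    rw [Polynomial.coeff_C_mul, Polynomial.coeff_C_mul, B1_monomial j l hl (fun b => (α.1 b : ℕ))]
    ring
  · exact B1CP.Fx a (B1xi_eq j l) (l : ℕ)
  · exact B1_free a j l (l : ℕ)

end Pool.Agent.H89T
end

-- from Lib.H89T.K2
section

set_option autoImplicit false

/-!
CHUNK K2.  Counting the monomials.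
-/

namespace Pool.Agent.H89T

variable {n r : ℕ}

/-- The jet exponents: `l = 0, ..., r - 1` stands for the jets of order `l + 1`. -/
noncomputable def splitJet (n r : ℕ) :
    (JV n r →₀ ℕ) ≃ (Fin n → ℕ) × (Fin n × Fin r → ℕ) where
  toFun m := (fun b => m (b, 0), fun p => m (p.1, p.2.succ))
  invFun f := Finsupp.equivFunOnFinite.symm fun p =>
    Fin.cases (f.1 p.1) (fun l => f.2 (p.1, l)) p.2
  left_inv m := by
    ext p
    obtain ⟨b, l⟩ := p
    simp only [Finsupp.equivFunOnFinite_symm_apply_apply]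
    refine Fin.cases ?_ (fun l => ?_) l
    · rfl
    · rfl
  right_inv f := by
    apply Prod.ext
    · funext b
      simp
    · funext p
      simp

theorem xd_split (m : JV n r →₀ ℕ) : xd m = ∑ b, (splitJet n r m).1 b := by
  rfl

theorem jd_split (m : JV n r →₀ ℕ) : jd m = ∑ p, (splitJet n r m).2 p := by
  unfold jd splitJet
  simp only [Equiv.coe_fn_mk]
  rw [Fintype.sum_prod_type, Fintype.sum_prod_type]
  apply Finset.sum_congr rfl
  intro b _
  rw [Fin.sum_univ_succ]
  simp [Fin.succ_ne_zero]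

/-- product structure of the exponents -/
theorem K2_card (p : (Fin n → ℕ) → Prop) (q : (Fin n × Fin r → ℕ) → Prop)
    (S : Set (JV n r →₀ ℕ)) (hS : ∀ m, m ∈ S ↔ p (splitJet n r m).1 ∧ q (splitJet n r m).2) :
    Nat.card S = Nat.card {f // p f} * Nat.card {g // q g} := by
  rw [← Nat.card_prod]
  apply Nat.card_congr
  refine (Equiv.subtypeEquiv (splitJet n r) (q := fun c => p c.1 ∧ q c.2) hS).trans ?_
  exact Equiv.subtypeProdEquivProd

/-- CHUNK K2.  `Mon n r d M` is the product of the exponents of degree `≤ d` in `n` variables and of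
degree `≤ M` in `n * r` variables (`splitJet`, `Nat.card_congr`, `Nat.card_prod`, `card_exp`). -/
theorem card_Mon (n r d M : ℕ) : Nat.card (Mon n r d M) =
    Nat.card {f : Fin n → ℕ // ∑ i, f i ≤ d} * (M + n * r).choose (n * r) := by
  rw [K2_card (fun f => ∑ i, f i ≤ d) (fun g => ∑ i, g i ≤ M) (Mon n r d M), card_exp (Fin n × Fin r)]
  · simp
  · intro m
    show xd m ≤ d ∧ jd m ≤ M ↔ _
    rw [xd_split, jd_split]

/-- exponents of degree at most `M` vanishing at one index -/
theorem K2_card_zero_at (ι : Type) [Fintype ι] [DecidableEq ι] (M : ℕ) (p₀ : ι) :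
    Nat.card {g : ι → ℕ // ∑ i, g i ≤ M ∧ g p₀ = 0} ≤
      (M + (Fintype.card ι - 1)).choose (Fintype.card ι - 1) := by
  have hfin : Finite {f : {p : ι // p ≠ p₀} → ℕ // ∑ i, f i ≤ M} := finite_exp _ M
  have h1 : Nat.card {g : ι → ℕ // ∑ i, g i ≤ M ∧ g p₀ = 0} ≤
      Nat.card {f : {p : ι // p ≠ p₀} → ℕ // ∑ i, f i ≤ M} := by
    have hs : ∀ g : ι → ℕ, ∑ i : {p : ι // p ≠ p₀}, g i ≤ ∑ i, g i := by
      intro g
      rw [← Finset.sum_subtype (Finset.univ.erase p₀) (p := fun p => p ≠ p₀)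
        (fun x => by simp) g]
      exact Finset.sum_le_sum_of_subset (Finset.erase_subset _ _)
    apply Nat.card_le_card_of_injective (fun g => ⟨fun p => g.1 p.1, (hs g.1).trans g.2.1⟩)
    intro g g' h
    apply Subtype.ext
    funext p
    by_cases hp : p = p₀
    · rw [hp, g.2.2, g'.2.2]
    · have := congrFun (congrArg Subtype.val h) ⟨p, hp⟩
      exact this
  refine h1.trans ?_
  rw [card_exp]
  have h2 : Fintype.card {p : ι // p ≠ p₀} = Fintype.card ι - 1 := by
    rw [Fintype.card_subtype_compl, Fintype.card_subtype_eq]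
  rw [h2]

/-- exponents of degree at most `M` vanishing at all `(j, l)` -/
theorem K2_card_zero_row (M : ℕ) (j : Fin n) :
    Nat.card {g : Fin n × Fin r → ℕ // ∑ i, g i ≤ M ∧ ∀ l, g (j, l) = 0} ≤
      (M + 1) ^ ((n - 1) * r) := by
  classical
  have h1 : Nat.card {g : Fin n × Fin r → ℕ // ∑ i, g i ≤ M ∧ ∀ l, g (j, l) = 0} ≤
      Nat.card ({b : Fin n // b ≠ j} × Fin r → Fin (M + 1)) := by
    apply Nat.card_le_card_of_injective (fun g => fun p => ⟨g.1 (p.1.1, p.2),
      Nat.lt_succ_of_le ((Finset.single_le_sum (f := g.1) (fun _ _ => Nat.zero_le _)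
        (Finset.mem_univ (p.1.1, p.2))).trans g.2.1)⟩)
    intro g g' h
    apply Subtype.ext
    funext p
    obtain ⟨b, l⟩ := p
    by_cases hb : b = j
    · rw [hb, g.2.2, g'.2.2]
    · have := congrFun h (⟨b, hb⟩, l)
      exact congrArg Fin.val this
  refine h1.trans ?_
  rw [Nat.card_eq_fintype_card, Fintype.card_fun, Fintype.card_prod, Fintype.card_fin,
    Fintype.card_fin, Fintype.card_subtype_compl, Fintype.card_subtype_eq, Fintype.card_fin]


/-- The monomials with `m (i, 0) < k` and no jets of order `≥ 1` of the `j`-th coordinate. -/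
def NormJ (n r k d M : ℕ) (i j : Fin n) : Set (JV n r →₀ ℕ) :=
  {m | xd m ≤ d ∧ jd m ≤ M ∧ m (i, 0) < k ∧ ∀ l : Fin (r + 1), l ≠ 0 → m (j, l) = 0}

theorem NormJ_finite (n r k d M : ℕ) (i j : Fin n) : (NormJ n r k d M i j).Finite :=
  (Mon_finite n r d M).subset fun _ hm => ⟨hm.1, hm.2.1⟩

/-- CHUNK K2.  Upper bound for `NormJ`: `(n - 1) r` jet variables, each exponent at most `M`. -/
theorem card_NormJ_le {k d M : ℕ} (i j : Fin n) : Nat.card (NormJ n r k d M i j) ≤
    k * (d + 1) ^ (n - 1) * (M + 1) ^ ((n - 1) * r) := by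
  rw [K2_card (fun f => ∑ b, f b ≤ d ∧ f i < k)
      (fun g => ∑ p, g p ≤ M ∧ ∀ l, g (j, l) = 0) (NormJ n r k d M i j)]
  · exact Nat.mul_le_mul (card_exp_lt_one i d k) (K2_card_zero_row M j)
  · intro m
    show xd m ≤ d ∧ jd m ≤ M ∧ m (i, 0) < k ∧ (∀ l : Fin (r + 1), l ≠ 0 → m (j, l) = 0) ↔ _
    rw [xd_split, jd_split]
    constructor
    · rintro ⟨h1, h2, h3, h4⟩
      exact ⟨⟨h1, h3⟩, h2, fun l => h4 l.succ (Fin.succ_ne_zero l)⟩
    · rintro ⟨⟨h1, h3⟩, h2, h4⟩
      refine ⟨h1, h2, h3, fun l hl => ?_⟩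
      obtain ⟨l', rfl⟩ := Fin.exists_succ_eq_of_ne_zero hl
      exact h4 l'

end Pool.Agent.H89T
end
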