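import Mathlib
import Pool.Agent.Lib.H1M.PB.M006

/-! Merged copies (to shorten the build) of Lib.H89.DetAlg, Lib.H89.GradedCurve, Lib.H89.DetForm, Lib.H89.CurveCore, Lib.H89.Arr.Core, Lib.H89.NilPencil, Lib.H89.Sect.Lift, Lib.H89.Sect.Spread, Lib.H89.Sect.Place, Lib.H89.Sect.Generic, Lib.H89.Sect.Dim, Lib.H89.Sect.Affine, Lib.H89.KummerPB, Lib.H89.Sect.Change. -/

-- from Lib.H89.DetAlg
section

set_option autoImplicit false

/-!
Determinants of families of vectors in coordinates: change of the last columns, linear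
independence, selection of columns.
-/

open Module
open scoped Matrix

namespace Pool.Agent.H89.DetAlg

/-- The determinant of the matrix with columns `P j` and rows indexed through `σ`. -/
noncomputable def dt {C R : Type*} [Fintype C] [DecidableEq C] (σ : C ≃ R) (P : C → R → ℂ) : ℂ :=
  (Matrix.of fun c j => P j (σ c)).det





section Vectors

variable {A : Type*} [AddCommGroup A] [Module ℂ A]





end Vectors

end Pool.Agent.H89.DetAlg
end

-- from Lib.H89.GradedCurve
section

set_option autoImplicit false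

/-!
Linear algebra in the homogeneous coordinate ring `A` of an irreducible projective curve, described
by its space `T` of linear forms; the forms of degree `s` are the elements of `T ^ s`.
-/

open Module

namespace Pool.Agent.H89.GCurve

variable {A : Type*} [CommRing A] [Algebra ℂ A]

/-- The multiples by `y` of the elements of `M`. -/
noncomputable def ym (y : A) (M : Submodule ℂ A) : Submodule ℂ A :=
  M.map (LinearMap.mulLeft ℂ y)






instance ym_finite {y : A} {M : Submodule ℂ A} [FiniteDimensional ℂ M] :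
    FiniteDimensional ℂ (ym y M) := by
  unfold ym; infer_instance

instance pow_finite {T : Submodule ℂ A} [h : FiniteDimensional ℂ T] (s : ℕ) :
    FiniteDimensional ℂ ↥(T ^ s) := by
  have : T.FG := (Submodule.fg_iff_finiteDimensional T).mpr h
  exact (Submodule.fg_iff_finiteDimensional _).mp (this.pow s)

instance mul_finite {M N : Submodule ℂ A} [h : FiniteDimensional ℂ M]
    [h' : FiniteDimensional ℂ N] : FiniteDimensional ℂ ↥(M * N) := by
  have h1 : M.FG := (Submodule.fg_iff_finiteDimensional M).mpr h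
  have h2 : N.FG := (Submodule.fg_iff_finiteDimensional N).mpr h'
  exact (Submodule.fg_iff_finiteDimensional _).mp (h1.mul h2)


section Interp

variable {ι : Type*} [Fintype ι]


/-- The values at the points `p l` of the elements of `M`. -/
noncomputable def ev (p : ι → A →ₐ[ℂ] ℂ) (M : Submodule ℂ A) : M →ₗ[ℂ] (ι → ℂ) :=
  LinearMap.pi fun l => (p l).toLinearMap ∘ₗ M.subtype

omit [Fintype ι] in
@[simp] theorem ev_apply (p : ι → A →ₐ[ℂ] ℂ) (M : Submodule ℂ A) (a : M) (l : ι) :
    ev p M a l = p l a := rfl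




end Interp




end Pool.Agent.H89.GCurve
end

-- from Lib.H89.DetForm
section

set_option autoImplicit false

/-!
The determinant attached to an entire curve in a Kummer cover of projective space, and its
vanishing.
-/

open Module Pool.Agent.H89.DetAlg Pool.Agent.H89.GCurve

namespace Pool.Agent.H89.DetForm

/-- The coordinatewise power. -/
def pw {ι : Type*} (e : ℕ) (x : ι → ℂ) : ι → ℂ := fun i => x i ^ e

/-- The derivative of the coordinatewise power at `x` in the direction `v`. -/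
def dpw {ι : Type*} (e : ℕ) (x v : ι → ℂ) : ι → ℂ := fun i => (e : ℂ) * x i ^ (e - 1) * v i




/-- The data entering the determinants. -/
structure JD (A : Type*) [CommRing A] [Algebra ℂ A] (ι : Type*) where
  (e k m D D' r : ℕ)
  (U U' V W Wp : Submodule ℂ A)
  (Λ : Submodule ℂ (ι → ℂ))
  (Ψ : (ι → ℂ) →ₗ[ℂ] A)
  (κ : Fin k → ι)
  (ε : Fin k → A →ₐ[ℂ] ℂ)
  (u : Fin D → A)
  (u' : Fin D' → A)
  (w : Fin D' ⊕ Fin r → A)
  (φ : A →ₗ[ℂ] (Fin m → ℂ))
  (θ : A →ₗ[ℂ] (Fin D' ⊕ Fin r → ℂ))
  (σ : Fin D ⊕ Fin r ≃ Fin k ⊕ Fin m)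
  he : 1 ≤ e
  hu : Submodule.span ℂ (Set.range u) = U
  hu_li : LinearIndependent ℂ u
  hu' : Submodule.span ℂ (Set.range u') = U'
  hu'_li : LinearIndependent ℂ u'
  hw : Submodule.span ℂ (Set.range w) = W
  hWU : W ≤ U
  hVU' : ∀ v ∈ V, ∀ c ∈ U', v * c ∈ W
  hVU : ∀ v ∈ V, ∀ c ∈ U, v * c ∈ Wp
  hΛV : ∀ b ∈ Λ, Ψ b ∈ V
  hΛinj : ∀ b ∈ Λ, Ψ b = 0 → b = 0
  hε : ∀ i, ∀ b ∈ Λ, ε i (Ψ b) = b (κ i)
  hθ : ∀ a ∈ W, θ a = 0 → a = 0
  hφ : ∀ a ∈ Wp, (∀ i, ε i a = 0) → φ a = 0 → a = 0
  hW : finrank ℂ W = D' + r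
  hWp : finrank ℂ Wp = D + r
  hWfin : FiniteDimensional ℂ W
  hWpfin : FiniteDimensional ℂ Wp

variable {A : Type*} [CommRing A] [Algebra ℂ A] {ι : Type*}

namespace JD

variable (d : JD A ι)

/-- The rows of the columns belonging to `U`. -/
noncomputable def F (x : ι → ℂ) : A →ₗ[ℂ] (Fin d.k ⊕ Fin d.m → ℂ) :=
  LinearMap.pi (Sum.elim (fun i => x (d.κ i) • (d.ε i).toLinearMap)
    (fun ρ => LinearMap.proj ρ ∘ₗ d.φ ∘ₗ LinearMap.mulLeft ℂ (d.Ψ (pw d.e x))))

/-- The rows of the columns belonging to `W`. -/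
noncomputable def G (x v : ι → ℂ) : A →ₗ[ℂ] (Fin d.k ⊕ Fin d.m → ℂ) :=
  LinearMap.pi (Sum.elim (fun i => ((d.e : ℂ) * v (d.κ i)) • (d.ε i).toLinearMap)
    (fun ρ => LinearMap.proj ρ ∘ₗ d.φ ∘ₗ LinearMap.mulLeft ℂ (d.Ψ (dpw d.e x v))))

/-- The coordinates on `Wp`. -/
noncomputable def Φ : A →ₗ[ℂ] (Fin d.k ⊕ Fin d.m → ℂ) :=
  LinearMap.pi (Sum.elim (fun i => (d.ε i).toLinearMap) (fun ρ => LinearMap.proj ρ ∘ₗ d.φ))

@[simp] theorem F_inl (x : ι → ℂ) (a : A) (i) : d.F x a (Sum.inl i) = x (d.κ i) * d.ε i a := rfl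
@[simp] theorem F_inr (x : ι → ℂ) (a : A) (i) :
    d.F x a (Sum.inr i) = d.φ (d.Ψ (pw d.e x) * a) i := rfl
@[simp] theorem G_inl (x v : ι → ℂ) (a : A) (i) :
    d.G x v a (Sum.inl i) = (d.e : ℂ) * v (d.κ i) * d.ε i a := rfl
@[simp] theorem G_inr (x v : ι → ℂ) (a : A) (i) :
    d.G x v a (Sum.inr i) = d.φ (d.Ψ (dpw d.e x v) * a) i := rfl
@[simp] theorem Φ_inl (a : A) (i) : d.Φ a (Sum.inl i) = d.ε i a := rfl
@[simp] theorem Φ_inr (a : A) (i) : d.Φ a (Sum.inr i) = d.φ a i := rfl


/-- The normalizing determinants. -/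
noncomputable def E (x : ι → ℂ) (I : Fin d.r → Fin d.D' ⊕ Fin d.r) : ℂ :=
  dt (Equiv.refl (Fin d.D' ⊕ Fin d.r))
    (Sum.elim (fun j => d.θ (d.Ψ (pw d.e x) * d.u' j)) (fun l => d.θ (d.w (I l))))









section Continuity

variable [Fintype ι]





end Continuity






variable [Fintype ι]


end JD

end Pool.Agent.H89.DetForm
end

-- from Lib.H89.CurveCore
section

set_option autoImplicit false

/-!
Entire curves in Kummer covers of a projective space produce nilpotent elements in the coordinate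
rings of the hyperplane sections of a curve in the dual projective space.
-/

open Module Filter Topology Pool.Agent.H89.DetAlg Pool.Agent.H89.GCurve Pool.Agent.H89.DetForm PowerSeries

namespace Pool.Agent.H89.Core

section Calculus

variable {ι : Type*} [Fintype ι]





end Calculus

/-- The hypotheses on the curve in the dual projective space, on the Kummer cover and on the
entire curve. -/
structure Setup (A : Type*) [CommRing A] [Algebra ℂ A] (ι : Type*) where
  (q k e s₀ : ℕ)
  (T : Submodule ℂ A)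
  (Λ : Submodule ℂ (ι → ℂ))
  (Ψ : (ι → ℂ) →ₗ[ℂ] A)
  (κ : Fin k → ι)
  (ε : Fin k → A →ₐ[ℂ] ℂ)
  (x : ℂ → ι → ℂ)
  hT : FiniteDimensional ℂ T
  he : 1 ≤ e
  hk : 2 * e * q < (e - 1) * k
  hs₀ : ∀ s, s₀ ≤ s → finrank ℂ ↥(T ^ (s + 1)) = finrank ℂ ↥(T ^ s) + q
  hΛT : ∀ b ∈ Λ, Ψ b ∈ T
  hΛinj : ∀ b ∈ Λ, Ψ b = 0 → b = 0
  hε : ∀ i, ∀ b ∈ Λ, ε i (Ψ b) = b (κ i)
  hε0 : ∀ i, ∃ g ∈ T, ε i g ≠ 0
  hsep : ∀ i j, i ≠ j → ∃ g ∈ T, ε i g ≠ 0 ∧ ε j g = 0
  hx : ∀ i, Differentiable ℂ (fun z => x z i)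
  hx0 : ∀ z, x z ≠ 0
  hxΛ : ∀ z, pw e (x z) ∈ Λ
  hne : ∀ i, ∃ z, x z (κ i) ≠ 0
  hnc : ¬ ∃ y : A, ∀ z, ∃ t : ℂ, Ψ (pw e (x z)) = t • y

namespace Setup

variable {A : Type*} [CommRing A] [Algebra ℂ A] {ι : Type*} [Fintype ι] (S : Setup A ι)

/-- The moving hyperplane. -/
noncomputable def Y (z : ℂ) : A := S.Ψ (pw S.e (S.x z))

/-- Its derivative. -/
noncomputable def Y' (z : ℂ) : A :=
  S.Ψ (dpw S.e (S.x z) (fun i => deriv (fun z => S.x z i) z))

/-- The span of its values. -/
noncomputable def V : Submodule ℂ A := Submodule.span ℂ (Set.range S.Y)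








/-- The image of `W × U` under `(b, a) ↦ Y' b - Y a`. -/
noncomputable def R (s : ℕ) (z : ℂ) : Submodule ℂ A :=
  ym (S.Y z) (S.T ^ (s + 1)) ⊔ ym (S.Y' z) (S.V * S.T ^ s)




variable [IsDomain A]















end Setup

end Pool.Agent.H89.Core
end

-- from Lib.H89.Arr.Core
section

set_option autoImplicit false

/-!
The core argument for vectors of entire functions which may have common zeros.
-/

open Module Filter Topology Pool.Agent.H89.DetAlg Pool.Agent.H89.GCurve Pool.Agent.H89.DetForm PowerSeries Pool.Agent.H89.Core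

namespace Pool.Agent.H89.Arr

/-- The hypotheses on the curve in the dual projective space, on the Kummer cover and on the
entire curve. -/
structure Setup (A : Type*) [CommRing A] [Algebra ℂ A] (ι : Type*) where
  (q k e s₀ : ℕ)
  (T : Submodule ℂ A)
  (Λ : Submodule ℂ (ι → ℂ))
  (Ψ : (ι → ℂ) →ₗ[ℂ] A)
  (κ : Fin k → ι)
  (ε : Fin k → A →ₐ[ℂ] ℂ)
  (x : ℂ → ι → ℂ)
  hT : FiniteDimensional ℂ T
  he : 1 ≤ e
  hk : 2 * e * q < (e - 1) * k
  hs₀ : ∀ s, s₀ ≤ s → finrank ℂ ↥(T ^ (s + 1)) = finrank ℂ ↥(T ^ s) + q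
  hΛT : ∀ b ∈ Λ, Ψ b ∈ T
  hΛinj : ∀ b ∈ Λ, Ψ b = 0 → b = 0
  hε : ∀ i, ∀ b ∈ Λ, ε i (Ψ b) = b (κ i)
  hε0 : ∀ i, ∃ g ∈ T, ε i g ≠ 0
  hsep : ∀ i j, i ≠ j → ∃ g ∈ T, ε i g ≠ 0 ∧ ε j g = 0
  hx : ∀ i, Differentiable ℂ (fun z => x z i)
  hx0 : ∃ z, x z ≠ 0
  hxΛ : ∀ z, pw e (x z) ∈ Λ
  hne : ∀ i, ∃ z, x z (κ i) ≠ 0
  hnc : ¬ ∃ y : A, ∀ z, ∃ t : ℂ, Ψ (pw e (x z)) = t • y

namespace Setup

variable {A : Type*} [CommRing A] [Algebra ℂ A] {ι : Type*} [Fintype ι] (S : Setup A ι)

/-- The moving hyperplane. -/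
noncomputable def Y (z : ℂ) : A := S.Ψ (pw S.e (S.x z))

/-- Its derivative. -/
noncomputable def Y' (z : ℂ) : A :=
  S.Ψ (dpw S.e (S.x z) (fun i => deriv (fun z => S.x z i) z))

/-- The span of its values. -/
noncomputable def V : Submodule ℂ A := Submodule.span ℂ (Set.range S.Y)








/-- The image of `W × U` under `(b, a) ↦ Y' b - Y a`. -/
noncomputable def R (s : ℕ) (z : ℂ) : Submodule ℂ A :=
  ym (S.Y z) (S.T ^ (s + 1)) ⊔ ym (S.Y' z) (S.V * S.T ^ s)




variable [IsDomain A]















end Setup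

end Pool.Agent.H89.Arr
end

-- from Lib.H89.NilPencil
section

set_option autoImplicit false

/-!
A criterion for the homogeneous coordinate ring of a hyperplane section of a projective curve to
have no nilpotent elements in high degrees: the ratio of two linear forms acts with distinct
eigenvalues.
-/

open Module Pool.Agent.H89.GCurve
open scoped Matrix

namespace Pool.Agent.H89.NilPencil



/-- A hyperplane section `y = 0` with a pencil acting by the matrix `K / d`. -/
structure Pen (A : Type*) [CommRing A] [Algebra ℂ A] where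
  (q t : ℕ)
  (T : Submodule ℂ A)
  (y g g₂ : A)
  (β : Fin q → A)
  (d : ℂ)
  (K : Matrix (Fin q) (Fin q) ℂ)
  hT : FiniteDimensional ℂ T
  hD : ∀ s, t ≤ s → finrank ℂ ↥(T ^ (s + 1)) = finrank ℂ ↥(T ^ s) + q
  hyT : y ∈ T
  hy : y ≠ 0
  hg : g ∈ T
  hg₂ : g₂ ∈ T
  hβ : ∀ l, β l ∈ T ^ (t + 1)
  hspan : T ^ (t + 2) ≤ ym y (T ^ (t + 1)) ⊔ Submodule.span ℂ (Set.range fun l => g * β l)
  hK : ∀ l, d • (g₂ * β l) - ∑ m, K m l • (g * β m) ∈ ym y (T ^ (t + 1))
  hd : d ≠ 0
  hsep : K.charpoly.Separable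

namespace Pen

variable {A : Type*} [CommRing A] [Algebra ℂ A] (P : Pen A)


/-- Linear combinations of the `β l`. -/
noncomputable def bv (v : Fin P.q → ℂ) : A := ∑ l, v l • P.β l





variable [IsDomain A]






omit [IsDomain A] in
theorem act (v : Fin P.q → ℂ) :
    P.d • (P.g₂ * P.bv v) - P.g * P.bv (P.K *ᵥ v) ∈ ym P.y (P.T ^ (P.t + 1)) := by
  have h1 : P.d • (P.g₂ * P.bv v) - P.g * P.bv (P.K *ᵥ v) =
      ∑ l, v l • (P.d • (P.g₂ * P.β l) - ∑ m, P.K m l • (P.g * P.β m)) := by
    simp only [smul_sub, Finset.sum_sub_distrib]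
    congr 1
    · simp only [bv, Finset.mul_sum, Finset.smul_sum, mul_smul_comm]
      refine Finset.sum_congr rfl fun l _ => ?_
      rw [smul_comm]
    · simp only [bv, Finset.mul_sum, Finset.smul_sum, Matrix.mulVec, dotProduct, mul_smul_comm,
        Finset.sum_smul]
      rw [Finset.sum_comm]
      refine Finset.sum_congr rfl fun l _ => Finset.sum_congr rfl fun m _ => ?_
      rw [smul_smul, mul_comm]
  rw [h1]
  exact Submodule.sum_mem _ fun l _ => Submodule.smul_mem _ _ (P.hK l)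


end Pen

end Pool.Agent.H89.NilPencil
end

-- from Lib.H89.Sect.Lift
section

set_option autoImplicit false

/-!
Linear algebra over a valuation ring with residue field `ℂ`.
-/

open TensorProduct Module

namespace Pool.Agent.H89.Sect

section Theta

variable {n : ℕ} {E V : Type*} [AddCommGroup E] [Module ℂ E] [AddCommGroup V] [Module ℂ V]



end Theta

variable {K : Type*} [Field K] [Algebra ℂ K] (O : Subalgebra ℂ K) (φ : O →ₐ[ℂ] ℂ)

section Maps

variable (V : Type*) [AddCommGroup V] [Module ℂ V]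

/-- The inclusion. -/
noncomputable def io : (O ⊗[ℂ] V) →ₗ[ℂ] (K ⊗[ℂ] V) := LinearMap.rTensor V O.val.toLinearMap


variable {V}




end Maps

variable {O φ}

theorem exists_scale (hO : ∀ c : K, c ∈ O ∨ ∃ h : c⁻¹ ∈ O, φ ⟨c⁻¹, h⟩ = 0) {ι : Type*}
    (S : Finset ι) (c : ι → K) (hc : ∃ i ∈ S, c i ≠ 0) :
    ∃ d : K, d ≠ 0 ∧ (∀ i ∈ S, d * c i ∈ O) ∧ ∃ i ∈ S, ∃ h : d * c i ∈ O, φ ⟨d * c i, h⟩ ≠ 0 := by
  classical
  induction S using Finset.induction_on with
  | empty => obtain ⟨i, hi, _⟩ := hc; simp at hi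
  | insert j S hj ih =>
    by_cases hS : ∃ i ∈ S, c i ≠ 0
    · obtain ⟨d, hd, h1, i, hi, h2, h3⟩ := ih hS
      rcases hO (d * c j) with h4 | ⟨h4, h5⟩
      · refine ⟨d, hd, fun i' hi' => ?_, i, Finset.mem_insert_of_mem hi, h2, h3⟩
        rcases Finset.mem_insert.mp hi' with rfl | hi'
        · exact h4
        · exact h1 i' hi'
      · by_cases hcj : d * c j = 0
        · refine ⟨d, hd, fun i' hi' => ?_, i, Finset.mem_insert_of_mem hi, h2, h3⟩
          rcases Finset.mem_insert.mp hi' with rfl | hi'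
          · rw [hcj]; exact O.zero_mem
          · exact h1 i' hi'
        · have h6 : (d * c j)⁻¹ * d * c j = 1 := by
            rw [mul_assoc, inv_mul_cancel₀ hcj]
          refine ⟨(d * c j)⁻¹ * d, mul_ne_zero (inv_ne_zero hcj) hd, fun i' hi' => ?_, j,
            Finset.mem_insert_self _ _, ?_, ?_⟩
          · rcases Finset.mem_insert.mp hi' with rfl | hi'
            · rw [h6]; exact O.one_mem
            · rw [mul_assoc]; exact O.mul_mem h4 (h1 i' hi')
          · rw [h6]; exact O.one_mem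
          · have h7 : (⟨(d * c j)⁻¹ * d * c j, by rw [h6]; exact O.one_mem⟩ : O) = 1 :=
              Subtype.ext h6
            rw [h7, map_one]
            exact one_ne_zero
    · push Not at hS
      obtain ⟨i, hi, hne⟩ := hc
      have hij : i = j := by
        rcases Finset.mem_insert.mp hi with h | h
        · exact h
        · exact absurd (hS i h) hne
      subst hij
      have h6 : (c i)⁻¹ * c i = 1 := inv_mul_cancel₀ hne
      refine ⟨(c i)⁻¹, inv_ne_zero hne, fun i' hi' => ?_, i, Finset.mem_insert_self _ _, ?_, ?_⟩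
      · rcases Finset.mem_insert.mp hi' with rfl | hi'
        · rw [h6]; exact O.one_mem
        · rw [hS i' hi', mul_zero]; exact O.zero_mem
      · rw [h6]; exact O.one_mem
      · have h7 : (⟨(c i)⁻¹ * c i, by rw [h6]; exact O.one_mem⟩ : O) = 1 := Subtype.ext h6
        rw [h7, map_one]
        exact one_ne_zero

section

variable {V : Type*} [AddCommGroup V] [Module ℂ V]


end

section

variable {n : ℕ} {E V : Type*} [AddCommGroup E] [Module ℂ E] [AddCommGroup V] [Module ℂ V]







end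

end Pool.Agent.H89.Sect
end

-- from Lib.H89.Sect.Spread
section

set_option autoImplicit false

/-!
Reducedness of a hyperplane section spreads out to the generic hyperplane of a family.
-/

open TensorProduct Module

namespace Pool.Agent.H89.Sect

variable {K : Type*} [Field K] [Algebra ℂ K] {O : Subalgebra ℂ K} {φ : O →ₐ[ℂ] ℂ}

section Nat

variable {V W : Type*} [AddCommGroup V] [Module ℂ V] [AddCommGroup W] [Module ℂ W]



end Nat

section Mul

variable {B : Type*} [CommRing B] [Algebra ℂ B]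



/-- The generic linear form. -/
noncomputable def gen (C : Type*) [CommRing C] [Algebra ℂ C] {n : ℕ} (ξ : Fin n → C)
    (b : Fin n → B) : C ⊗[ℂ] B := ∑ j, ξ j ⊗ₜ b j


end Mul


end Pool.Agent.H89.Sect
end

-- from Lib.H89.Sect.Place
section

set_option autoImplicit false

/-!
Extension of a complex point of a subring of a field to a valuation ring with residue field `ℂ`.
-/

open Polynomial

namespace Pool.Agent.H89.Sect

variable {K : Type*} [Field K] [Algebra ℂ K]





/-- The maximal ideal of a point. -/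
def ker {A : Type*} [CommRing A] [Algebra ℂ A] (f : A →ₐ[ℂ] K) (ε : A →ₐ[ℂ] ℂ) :
    NonUnitalSubalgebra ℂ K where
  carrier := {x | ∃ a, ε a = 0 ∧ f a = x}
  add_mem' := by
    rintro _ _ ⟨a, ha, rfl⟩ ⟨b, hb, rfl⟩
    exact ⟨a + b, by rw [map_add, ha, hb, add_zero], map_add _ _ _⟩
  zero_mem' := ⟨0, map_zero _, map_zero _⟩
  mul_mem' := by
    rintro _ _ ⟨a, ha, rfl⟩ ⟨b, hb, rfl⟩
    exact ⟨a * b, by rw [map_mul, ha, zero_mul], map_mul _ _ _⟩
  smul_mem' := by
    rintro c _ ⟨a, ha, rfl⟩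
    exact ⟨c • a, by rw [map_smul, ha, smul_zero], map_smul _ _ _⟩




end Pool.Agent.H89.Sect
end

-- from Lib.H89.Sect.Generic
section

set_option autoImplicit false

/-!
The generic hyperplane section of a curve, for a family of hyperplanes parametrised by a
projective variety, is reduced.
-/

open TensorProduct Module

namespace Pool.Agent.H89.Sect

variable {A B : Type*} [CommRing A] [IsDomain A] [Algebra ℂ A] [CommRing B] [IsDomain B]
  [Algebra ℂ B]



/-- The map `B ⊗ A → Frac B ⊗ A`. -/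
noncomputable def iB (A B : Type*) [CommRing A] [Algebra ℂ A] [CommRing B]
    [Algebra ℂ B] : (B ⊗[ℂ] A) →ₐ[ℂ] (FractionRing B ⊗[ℂ] A) :=
  Algebra.TensorProduct.map (IsScalarTower.toAlgHom ℂ B (FractionRing B)) (AlgHom.id ℂ A)







/-- The generic linear form over the function field. -/
noncomputable def lin (A B : Type*) [CommRing A] [Algebra ℂ A] [CommRing B]
    [Algebra ℂ B] {n : ℕ} (x : Fin n → A) (b : Fin n → B) : FractionRing B ⊗[ℂ] A :=
  iB A B (∑ j, b j ⊗ₜ x j)



end Pool.Agent.H89.Sect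
end

-- from Lib.H89.Sect.Dim
section

set_option autoImplicit false

/-!
The coordinate ring of the generic hyperplane section of an affine curve has dimension equal to the
degree of the curve.
-/

open TensorProduct Module Pool.Agent.H89.GCurve

namespace Pool.Agent.H89.Sect

section Coord

variable {k : Type*} [Field k] [Algebra ℂ k] {A : Type*} [AddCommGroup A] [Module ℂ A]






instance finite_baseChange (M : Submodule ℂ A) [FiniteDimensional ℂ M] :
    FiniteDimensional k (M.baseChange k) := by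
  have h3 : M.baseChange k = LinearMap.range (M.subtype.baseChange k) := rfl
  rw [h3]
  infer_instance




end Coord


section ring

variable {A : Type*} [CommRing A] [IsDomain A] [Algebra ℂ A]

/-- An affine curve of degree `q`, given by its coordinate functions, with `q` distinct points at
infinity. -/
structure Chart (n q : ℕ) (x : Fin n → A) where
  c : Fin n → ℂ
  s₁ : ℕ
  p : Fin q → Fin n → ℂ
  Λ : ℕ → Fin q → A →ₗ[ℂ] ℂ
  hc : ∑ j, c j • x j = 1
  exh : ∀ a, ∃ s, a ∈ (Submodule.span ℂ (Set.range x)) ^ s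
  growth : ∀ s, s₁ ≤ s → finrank ℂ ↥((Submodule.span ℂ (Set.range x)) ^ (s + 1)) =
    finrank ℂ ↥((Submodule.span ℂ (Set.range x)) ^ s) + q
  hp : ∀ l, p l ≠ 0
  hΛmul : ∀ m l j, ∀ α ∈ (Submodule.span ℂ (Set.range x)) ^ m,
    Λ (m + 1) l (x j * α) = p l j * Λ m l α
  hΛker : ∀ m, s₁ ≤ m → ∀ α ∈ (Submodule.span ℂ (Set.range x)) ^ (m + 1),
    (∀ l, Λ (m + 1) l α = 0) → α ∈ (Submodule.span ℂ (Set.range x)) ^ m
  hΛ0 : ∀ m l, ∀ α ∈ (Submodule.span ℂ (Set.range x)) ^ m, Λ (m + 1) l α = 0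

namespace Chart

variable {n q : ℕ} {x : Fin n → A} (H : Chart n q x)

include H

omit [IsDomain A] in
theorem one_mem : (1 : A) ∈ Submodule.span ℂ (Set.range x) := by
  rw [← H.hc]
  exact Submodule.sum_mem _ fun j _ => Submodule.smul_mem _ _ (Submodule.subset_span ⟨j, rfl⟩)

omit [IsDomain A] in
theorem mono : Monotone fun s => (Submodule.span ℂ (Set.range x)) ^ s := by
  apply monotone_nat_of_le_succ
  intro s a ha
  have h1 := Submodule.mul_mem_mul H.one_mem ha
  rwa [one_mul, ← pow_succ'] at h1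



end Chart

end ring


end Pool.Agent.H89.Sect
end

-- from Lib.H89.Sect.Affine
section

set_option autoImplicit false

/-!
The affine chart of a projective curve given by the complement of a hyperplane meeting the curve
in distinct points.
-/

open Module Pool.Agent.H89.GCurve TensorProduct

namespace Pool.Agent.H89.Sect

variable {A : Type*} [CommRing A] [IsDomain A] [Algebra ℂ A]





section

variable {n : ℕ} (a : Fin n → A) {y : A} (hy : y ≠ 0)

include hy




/-- The map `α ↦ α / y ^ m`. -/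
noncomputable def fm (y : A) (m : ℕ) : A →ₗ[ℂ] Localization.Away y :=
  (LinearMap.mulLeft ℂ ((IsLocalization.Away.invSelf y : Localization.Away y) ^ m)) ∘ₗ
    (IsScalarTower.toAlgHom ℂ A (Localization.Away y)).toLinearMap










end





end Pool.Agent.H89.Sect
end

-- from Lib.H89.KummerPB
section

set_option autoImplicit false

/-!
Pseudo-Brody hyperbolicity of Kummer covers of projective space branched along sufficiently many
hyperplanes on an irreducible curve in the dual projective space: abstract version.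
-/

open MvPolynomial Module Pool.Agent.H89.GCurve Pool.Agent.H89.DetForm Pool.Agent.H89.Core

namespace Pool.Agent.H89.Kummer




variable {A : Type*} [CommRing A] [IsDomain A] [Algebra ℂ A]


end Pool.Agent.H89.Kummer

namespace Pool.Agent.H89.Kummer

/-- The point of the quotient ring given by a zero of `I`. -/
noncomputable def pt {n : ℕ} (I : Ideal (MvPolynomial (Fin (n + 1)) ℂ)) (p : Fin (n + 1) → ℂ)
    (hp : ∀ g ∈ I, eval p g = 0) : (MvPolynomial (Fin (n + 1)) ℂ ⧸ I) →ₐ[ℂ] ℂ :=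
  Ideal.Quotient.liftₐ I (aeval p) (by
    intro g hg
    have := hp g hg
    rwa [← coe_aeval_eq_eval] at this)





end Pool.Agent.H89.Kummer
end

-- from Lib.H89.Sect.Change
section

set_option autoImplicit false

/-!
Linear changes of coordinates.
-/

open MvPolynomial Module Pool.Agent.H89.Kummer

namespace Pool.Agent.H89.Sect

attribute [local instance] MvPolynomial.gradedAlgebra

variable {n : ℕ}

/-- The substitution given by a linear map. -/
noncomputable def sub (L : (Fin n → ℂ) →ₗ[ℂ] (Fin n → ℂ)) :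
    MvPolynomial (Fin n) ℂ →ₐ[ℂ] MvPolynomial (Fin n) ℂ :=
  aeval fun k => lf fun j => L (Pi.single j 1) k






section

variable (L : (Fin n → ℂ) ≃ₗ[ℂ] (Fin n → ℂ)) (I : Ideal (MvPolynomial (Fin n) ℂ))













end

end Pool.Agent.H89.Sect
end
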