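import Pool.Agent.Lib.H1M.PB.M006

/-! Merged copies (to shorten the build) of Lib.H89T.C4, Lib.H89T.C5, Lib.H89T.C6, Lib.H89T.C7. -/

-- from Lib.H89T.C4
section

set_option autoImplicit false

/-!
CHUNK C4.  Polynomials in `X` over the universal ring and their values on the arc.
-/

open MvPolynomial

namespace Pool.Agent.H89T

variable {n k r : ℕ}

theorem fin_apply (α : Idx n k) (b : Fin n) : fin α b = (α.1 b : ℕ) := rfl

theorem fin_injective : Function.Injective (fin : Idx n k → (Fin n →₀ ℕ)) := by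
  intro α β h
  apply Subtype.ext
  funext b
  apply Fin.ext
  have := DFunLike.congr_fun h b
  simpa [fin_apply] using this

theorem exists_fin {m : Fin n →₀ ℕ} (hm : ∑ b, m b ≤ k) : ∃ α : Idx n k, fin α = m := by
  have hb : ∀ b, m b < k + 1 := fun b =>
    Nat.lt_succ_of_le ((Finset.single_le_sum (f := fun b => m b) (fun j _ => Nat.zero_le _)
      (Finset.mem_univ b)).trans hm)
  exact ⟨⟨fun b => ⟨m b, hb b⟩, hm⟩, by ext b; rfl⟩

theorem sum_support_le {B : Type} [CommRing B] {H : MvPolynomial (Fin n) B} {m : Fin n →₀ ℕ}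
    (hm : m ∈ H.support) : ∑ b, m b ≤ H.totalDegree := by
  have := le_totalDegree hm
  rwa [Finsupp.sum_fintype _ _ (fun _ => rfl)] at this

theorem totalDegree_le_of {B : Type} [CommRing B] {H : MvPolynomial (Fin n) B} {d : ℕ}
    (h : ∀ m ∈ H.support, ∑ b, m b ≤ d) : H.totalDegree ≤ d := by
  refine Finset.sup_le fun m hm => ?_
  rw [Finsupp.sum_fintype _ _ (fun _ => rfl)]
  exact h m hm

theorem sum_fin {B M : Type} [CommRing B] [AddCommMonoid M] (H : MvPolynomial (Fin n) B)
    (hH : H.totalDegree ≤ k) (T : (Fin n →₀ ℕ) → M) (hT : ∀ m, H.coeff m = 0 → T m = 0) :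
    ∑ m ∈ H.support, T m = ∑ α : Idx n k, T (fin α) := by
  classical
  rw [← Finset.sum_image (s := (Finset.univ : Finset (Idx n k))) (g := fin) (f := T)
    (fun b _ b' _ h => fin_injective h)]
  refine Finset.sum_subset ?_ ?_
  · intro m hm
    obtain ⟨α, hα⟩ := exists_fin ((sum_support_le hm).trans hH)
    exact Finset.mem_image.mpr ⟨α, Finset.mem_univ _, hα⟩
  · intro m _ hm
    exact hT m (by simpa using hm)

/-- CHUNK C4.  If `H` has degree at most `k` then its value on an arc is computed from its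
coefficient vector `toG k H`. -/
theorem Fx_toG {B : Type} [CommRing B] (H : MvPolynomial (Fin n) B) (hH : H.totalDegree ≤ k)
    (ξ : JV n r → B) : Fx (toG k H) ξ = aeval (arc ξ) H := by
  rw [aeval_def, eval₂_eq', sum_fin H hH]
  · rfl
  · intro m hm
    rw [hm, map_zero, zero_mul]

theorem ev_toG {B : Type} [CommRing B] (H : MvPolynomial (Fin n) B) (hH : H.totalDegree ≤ k)
    (x : Fin n → B) : ev (toG k H) x = eval x H := by
  rw [eval_eq', sum_fin H hH]
  · rfl
  · intro m hm
    rw [hm, zero_mul]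

theorem totalDegree_FF : (FF n k r).totalDegree ≤ k := by
  unfold FF
  refine totalDegree_finsetSum_le fun α _ => ?_
  refine (totalDegree_monomial_le _ _).trans ?_
  rw [Finsupp.sum_fintype _ _ (fun _ => rfl)]
  exact α.2

theorem toG_FF : toG k (FF n k r) = aA := by
  classical
  funext α
  unfold toG FF
  rw [coeff_sum, Finset.sum_eq_single α]
  · rw [coeff_monomial, if_pos rfl]
  · intro β _ hβ
    rw [coeff_monomial, if_neg (fun h => hβ (fin_injective h))]
  · intro h
    exact absurd (Finset.mem_univ α) h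

theorem aeval_FF : aeval (arc xA) (FF n k r) = Fx (r := r) (aA (n := n) (k := k)) xA := by
  rw [← Fx_toG (FF n k r) totalDegree_FF, toG_FF]

theorem aeval_pderiv_FF (j : Fin n) :
    aeval (arc xA) (pderiv j (FF n k r)) = Fdx (r := r) j (aA (n := n) (k := k)) xA := by
  classical
  unfold FF Fdx evd
  rw [map_sum, map_sum]
  refine Finset.sum_congr rfl fun α _ => ?_
  rw [pderiv_monomial, aeval_monomial, Finsupp.prod_fintype _ _ (fun _ => pow_zero _)]
  have h1 : ∀ b, (fin α - Finsupp.single j 1 : Fin n →₀ ℕ) b =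
      (α.1 b : ℕ) - (if b = j then 1 else 0) := by
    intro b
    rw [Finsupp.tsub_apply, fin_apply, Finsupp.single_apply]
    simp [eq_comm]
  simp only [h1, fin_apply]
  rw [Polynomial.algebraMap_apply, Algebra.algebraMap_self, RingHom.id_apply, Polynomial.C_mul,
    map_natCast]
  ring

/-- CHUNK C4.  Elements of `(X_b - x_b) ^ s` vanish to order `s` on the arc `x (t)`: the arc of
`X_b - x_b` is divisible by `t`. -/
theorem aeval_mem_of_mem_pow {s : ℕ} {H : MvPolynomial (Fin n) (AA n k r)}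
    (hH : H ∈ mI n k r ^ s) :
    aeval (arc xA) H ∈ Ideal.span {(Polynomial.X : Polynomial (AA n k r)) ^ s} := by
  have h1 : Ideal.map (aeval (arc xA) : MvPolynomial (Fin n) (AA n k r) →ₐ[AA n k r]
      Polynomial (AA n k r)) (mI n k r) ≤ Ideal.span {(Polynomial.X : Polynomial (AA n k r))} := by
    unfold mI
    rw [Ideal.map_span, Ideal.span_le]
    rintro _ ⟨_, ⟨b, rfl⟩, rfl⟩
    rw [SetLike.mem_coe, Ideal.mem_span_singleton, Polynomial.X_dvd_iff]
    simp only [map_sub, aeval_X, aeval_C, Polynomial.algebraMap_apply, Algebra.algebraMap_self,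
      RingHom.id_apply, Polynomial.coeff_sub, Polynomial.coeff_C_zero, coeff_arc]
    rw [dif_pos (Nat.succ_pos r)]
    exact sub_self _
  have h2 := Ideal.mem_map_of_mem (aeval (arc xA) : MvPolynomial (Fin n) (AA n k r) →ₐ[AA n k r]
      Polynomial (AA n k r)) hH
  rw [Ideal.map_pow] at h2
  rw [← Ideal.span_singleton_pow]
  exact Ideal.pow_right_mono h1 s h2

/-- The relation between a monomial `P` of degree `d` and the corresponding product `Q` of the
`X_b - x_b`. -/
structure Red (d : ℕ) (P Q : MvPolynomial (Fin n) (AA n k r)) : Prop where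
  degP : ∀ m ∈ P.support, ∑ b, m b ≤ d
  degQ : ∀ m ∈ Q.support, ∑ b, m b ≤ d
  degD : ∀ m ∈ (P - Q).support, ∑ b, m b < d
  wP : WtC 0 P
  wQ : WtC d Q
  mem : Q ∈ mI n k r ^ d

theorem Red.one : Red (n := n) (k := k) (r := r) 0 1 1 := by
  classical
  refine ⟨?_, ?_, ?_, ?_, ?_, ?_⟩
  · intro m hm
    rw [← totalDegree_one (σ := Fin n) (R := AA n k r)]
    exact sum_support_le hm
  · intro m hm
    rw [← totalDegree_one (σ := Fin n) (R := AA n k r)]
    exact sum_support_le hm
  · intro m hm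
    simp at hm
  · have := WtC.C (n := n) (k := k) (r := r) (d := 0) (WtA.C (1 : ℂ))
    simpa using this
  · have := WtC.C (n := n) (k := k) (r := r) (d := 0) (WtA.C (1 : ℂ))
    simpa using this
  · simp

theorem sum_mem_mul {B : Type} [CommRing B] {P Q : MvPolynomial (Fin n) B}
    {m : Fin n →₀ ℕ} (hm : m ∈ (P * Q).support) :
    ∃ a ∈ P.support, ∃ b ∈ Q.support, ∑ i, m i = ∑ i, a i + ∑ i, b i := by
  classical
  have := support_mul P Q hm
  obtain ⟨a, ha, b, hb, rfl⟩ := Finset.mem_add.mp this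
  exact ⟨a, ha, b, hb, by rw [← Finset.sum_add_distrib]; rfl⟩

theorem Red.mul {d d' : ℕ} {P Q P' Q' : MvPolynomial (Fin n) (AA n k r)} (h : Red d P Q)
    (h' : Red d' P' Q') : Red (d + d') (P * P') (Q * Q') := by
  classical
  refine ⟨?_, ?_, ?_, ?_, ?_, ?_⟩
  · intro m hm
    obtain ⟨a, ha, b, hb, e⟩ := sum_mem_mul hm
    have := h.degP a ha
    have := h'.degP b hb
    omega
  · intro m hm
    obtain ⟨a, ha, b, hb, e⟩ := sum_mem_mul hm
    have := h.degQ a ha
    have := h'.degQ b hb
    omega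
  · intro m hm
    have e0 : P * P' - Q * Q' = P * (P' - Q') + (P - Q) * Q' := by ring
    rw [e0] at hm
    rcases Finset.mem_union.mp (support_add hm) with hm | hm
    · obtain ⟨a, ha, b, hb, e⟩ := sum_mem_mul hm
      have := h.degP a ha
      have := h'.degD b hb
      omega
    · obtain ⟨a, ha, b, hb, e⟩ := sum_mem_mul hm
      have := h.degD a ha
      have := h'.degQ b hb
      omega
  · exact h.wP.mul h'.wP
  · exact h.wQ.mul h'.wQ
  · rw [pow_add]
    exact Ideal.mul_mem_mul h.mem h'.mem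

theorem Red.pow {d : ℕ} {P Q : MvPolynomial (Fin n) (AA n k r)} (h : Red d P Q) (e : ℕ) :
    Red (e * d) (P ^ e) (Q ^ e) := by
  induction e with
  | zero => simpa using Red.one
  | succ e ih =>
    rw [pow_succ, pow_succ, Nat.succ_mul]
    exact ih.mul h

theorem Red.prod (s : Finset (Fin n)) {d : Fin n → ℕ} {P Q : Fin n → MvPolynomial (Fin n) (AA n k r)}
    (h : ∀ i ∈ s, Red (d i) (P i) (Q i)) : Red (∑ i ∈ s, d i) (∏ i ∈ s, P i) (∏ i ∈ s, Q i) := by
  classical
  induction s using Finset.induction_on with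
  | empty => simpa using Red.one
  | insert a s ha ih =>
    rw [Finset.sum_insert ha, Finset.prod_insert ha, Finset.prod_insert ha]
    exact (h a (Finset.mem_insert_self a s)).mul
      (ih fun i hi => h i (Finset.mem_insert_of_mem hi))

theorem Red.X (b : Fin n) : Red (n := n) (k := k) (r := r) 1 (MvPolynomial.X b)
    (MvPolynomial.X b - MvPolynomial.C (xA (b, 0))) := by
  classical
  have hX : ∀ m ∈ (MvPolynomial.X b : MvPolynomial (Fin n) (AA n k r)).support,
      ∑ b, m b ≤ 1 := by
    intro m hm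
    exact (sum_support_le hm).trans (by rw [totalDegree_X])
  have hC : ∀ m ∈ (MvPolynomial.C (xA (b, 0)) : MvPolynomial (Fin n) (AA n k r)).support,
      ∑ b, m b ≤ 0 := by
    intro m hm
    exact (sum_support_le hm).trans (by rw [totalDegree_C])
  refine ⟨hX, ?_, ?_, ?_, ?_, ?_⟩
  · intro m hm
    rcases Finset.mem_union.mp (support_sub _ _ _ hm) with hm | hm
    · exact hX m hm
    · exact (hC m hm).trans (by omega)
  · intro m hm
    rw [sub_sub_cancel] at hm
    exact Nat.lt_succ_of_le (hC m hm)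
  · exact WtC.X b
  · refine WtC.sub ((WtC.X b).mono (Nat.zero_le _)) (WtC.C ?_)
    have := WtA.xA (n := n) (k := k) (r := r) (b, 0)
    simpa using this
  · rw [pow_one]
    exact Ideal.subset_span ⟨b, rfl⟩

theorem exists_le_sum (m : Fin n →₀ ℕ) (s : ℕ) (hs : s ≤ ∑ b, m b) :
    ∃ δ : Fin n →₀ ℕ, δ ≤ m ∧ ∑ b, δ b = s := by
  classical
  induction s with
  | zero => exact ⟨0, zero_le, by simp⟩
  | succ s ih =>
    obtain ⟨δ, h1, h2⟩ := ih (by omega)
    obtain ⟨b, hb⟩ : ∃ b, δ b < m b := by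
      by_contra hcon
      push Not at hcon
      have := Finset.sum_le_sum (s := Finset.univ) (fun b _ => hcon b)
      omega
    refine ⟨δ + Finsupp.single b 1, ?_, ?_⟩
    · intro c
      rw [Finsupp.add_apply, Finsupp.single_apply]
      split_ifs with h
      · subst h
        omega
      · exact h1 c
    · simp only [Finsupp.add_apply]
      rw [Finset.sum_add_distrib, h2]
      simp [Finsupp.single_apply]

theorem monomial_reduce (hk : r ≤ k) (D w : ℕ) (m : Fin n →₀ ℕ) (c : AA n k r)
    (hm : ∑ b, m b ≤ k + (D + 1)) (hc : WtA w c) :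
    ∃ G : MvPolynomial (Fin n) (AA n k r), (∀ m ∈ G.support, ∑ b, m b ≤ k + D) ∧
      WtC (w + (r + 1)) G ∧ G - monomial m c ∈ mI n k r ^ (r + 1) := by
  classical
  by_cases hm' : ∑ b, m b ≤ k + D
  · refine ⟨monomial m c, ?_, (WtC.monomial hc m).mono (by omega), by simp⟩
    intro m' h
    have := support_monomial_subset h
    rw [Finset.mem_singleton] at this
    rw [this]
    exact hm'
  · obtain ⟨δ, h1, h2⟩ := exists_le_sum m (r + 1) (by omega)
    have hR : Red (n := n) (k := k) (r := r) (r + 1) (∏ b, MvPolynomial.X b ^ δ b)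
        (∏ b, (MvPolynomial.X b - MvPolynomial.C (xA (b, 0))) ^ δ b) := by
      have := Red.prod (n := n) (k := k) (r := r) Finset.univ (d := fun b => δ b * 1)
        (P := fun b => MvPolynomial.X b ^ δ b)
        (Q := fun b => (MvPolynomial.X b - MvPolynomial.C (xA (b, 0))) ^ δ b)
        (fun i _ => (Red.X i).pow _)
      simp only [mul_one] at this
      rwa [h2] at this
    set P : MvPolynomial (Fin n) (AA n k r) := ∏ b, MvPolynomial.X b ^ δ b with hP
    set Q : MvPolynomial (Fin n) (AA n k r) :=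
      ∏ b, (MvPolynomial.X b - MvPolynomial.C (xA (b, 0))) ^ δ b with hQ
    have hPm : P = monomial δ 1 := by
      rw [hP, monomial_eq, C_1, one_mul, Finsupp.prod_fintype _ _ (fun _ => pow_zero _)]
    have hmono : monomial (m - δ) c * P = monomial m c := by
      rw [hPm, monomial_mul, mul_one, tsub_add_cancel_of_le h1]
    refine ⟨monomial (m - δ) c * (P - Q), ?_, ?_, ?_⟩
    · intro m' hm2
      obtain ⟨a, ha, b, hb, e⟩ := sum_mem_mul hm2
      have h3 := hR.degD b hb
      have h4 := support_monomial_subset ha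
      rw [Finset.mem_singleton] at h4
      have h5 : ∑ i, a i + ∑ i, δ i = ∑ i, m i := by
        rw [← Finset.sum_add_distrib]
        refine Finset.sum_congr rfl fun i _ => ?_
        rw [h4, Finsupp.tsub_apply]
        have := h1 i
        omega
      omega
    · exact (WtC.monomial hc _).mul (WtC.sub (hR.wP.mono (Nat.zero_le _)) hR.wQ)
    · have e : monomial (m - δ) c * (P - Q) - monomial m c = -(monomial (m - δ) c) * Q := by
        rw [mul_sub, hmono]
        ring
      rw [e]
      exact Ideal.mul_mem_left _ _ hR.mem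

/-- CHUNK C4.  The reduction of the degree.  Proof: by induction on `D`; linear in `H`, so it is
enough to treat `H = monomial γ c`, `WtA w c`, `|γ| = k + D + 1` (for `D + 1`); write
`γ = γ' + δ` with `|δ| = r + 1` (`r + 1 ≤ k + 1`); `monomial γ' c * (X ^ δ - (X - x) ^ δ)` has
degree `≤ k + D` and coefficients of weight `≤ w + (r + 1)`, and the difference to `H` is
`monomial γ' c * (X - x) ^ δ ∈ mI ^ (r + 1)`. -/
theorem exists_reduce (hk : r ≤ k) (D w : ℕ) (H : MvPolynomial (Fin n) (AA n k r))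
    (hH : H.totalDegree ≤ k + D) (hw : WtC w H) :
    ∃ G : MvPolynomial (Fin n) (AA n k r), G.totalDegree ≤ k ∧ WtC (w + D * (r + 1)) G ∧
      G - H ∈ mI n k r ^ (r + 1) := by
  classical
  induction D generalizing H w with
  | zero => exact ⟨H, by simpa using hH, by simpa using hw, by simp⟩
  | succ D ih =>
    have hm : ∀ m : Fin n →₀ ℕ, ∃ G : MvPolynomial (Fin n) (AA n k r),
        m ∈ H.support → (∀ m ∈ G.support, ∑ b, m b ≤ k + D) ∧
        WtC (w + (r + 1)) G ∧ G - monomial m (H.coeff m) ∈ mI n k r ^ (r + 1) := by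
      intro m
      by_cases h : m ∈ H.support
      · obtain ⟨G, hG⟩ := monomial_reduce hk D w m (H.coeff m) ((sum_support_le h).trans hH) (hw m)
        exact ⟨G, fun _ => hG⟩
      · exact ⟨0, fun h' => absurd h' h⟩
    choose G hG using hm
    set H' : MvPolynomial (Fin n) (AA n k r) := ∑ m ∈ H.support, G m with hH'
    have hd : H'.totalDegree ≤ k + D := by
      rw [hH']
      exact totalDegree_finsetSum_le fun m hm => totalDegree_le_of (hG m hm).1
    have hw' : WtC (w + (r + 1)) H' := by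
      intro m
      rw [hH', coeff_sum]
      exact WtA.sum fun i hi => (hG i hi).2.1 m
    have hsub : H' - H ∈ mI n k r ^ (r + 1) := by
      have e : H' - H = ∑ m ∈ H.support, (G m - monomial m (H.coeff m)) := by
        rw [Finset.sum_sub_distrib, ← hH', ← H.as_sum]
      rw [e]
      exact Ideal.sum_mem _ fun m hm => (hG m hm).2.2
    obtain ⟨G', h1, h2, h3⟩ := ih (w + (r + 1)) H' hd hw'
    refine ⟨G', h1, h2.mono (by rw [Nat.succ_mul]; omega), ?_⟩
    have e : G' - H = (G' - H') + (H' - H) := by ring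
    rw [e]
    exact Ideal.add_mem _ h3 hsub

end Pool.Agent.H89T
end

-- from Lib.H89T.C5
section

set_option autoImplicit false

/-!
CHUNK C5.  Expansion of an arc in powers of `x_i (t) - x_i`.
-/

open MvPolynomial

namespace Pool.Agent.H89T

variable {n k r : ℕ}

/-- `x_i (t) - x_i`. -/
noncomputable def tau (n k r : ℕ) (i : Fin n) : Polynomial (AA n k r) :=
  arc xA i - Polynomial.C (xA (i, 0))

theorem coeff_tau_zero (i : Fin n) : (tau n k r i).coeff 0 = 0 := by
  unfold tau
  rw [Polynomial.coeff_sub, coeff_arc, dif_pos (Nat.succ_pos r), Polynomial.coeff_C_zero]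
  exact sub_self _

theorem coeff_tau_one (i : Fin n) (one : Fin (r + 1)) (h1 : (one : ℕ) = 1) :
    (tau n k r i).coeff 1 = xA (i, one) := by
  unfold tau
  have h2 : 1 < r + 1 := by have := one.2; omega
  rw [Polynomial.coeff_sub, coeff_arc, dif_pos h2, Polynomial.coeff_C_of_ne_zero one_ne_zero,
    sub_zero]
  congr 2
  exact Fin.ext h1.symm

theorem WtP.tau (i : Fin n) : WtP (k := k) (r + 1) (Pool.Agent.H89T.tau n k r i) := by
  intro j
  unfold Pool.Agent.H89T.tau
  rw [Polynomial.coeff_sub]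
  refine (WtP.arc i j).sub ?_
  rw [Polynomial.coeff_C]
  split_ifs
  · have := WtA.xA (n := n) (k := k) (r := r) (i, 0)
    exact this.mono (by simp)
  · exact WtA.zero _

/-- CHUNK C5.  For every `h ∈ A[t]` with coefficients of weight `≤ w` and every `s ≤ r + 1`:
`x_{i,1} ^ (s (s - 1) / 2) h ≡ ∑_{j < s} c_j tau ^ j` modulo `t ^ s`, with `c_j` of weight
`≤ w + s * ((r + 1) * (r + 3))` (any bound of this kind is fine: if the constant given here is too
small tell helper89).
Proof: induction on `s`.  Given `c_j` for `s`, let `e` be the coefficient of `t ^ s` of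
`x_{i,1} ^ (s (s - 1) / 2) h - ∑_{j < s} c_j tau ^ j`; since
`tau ^ s ≡ x_{i,1} ^ s t ^ s` modulo `t ^ (s + 1)`, the new coefficients are `x_{i,1} ^ s c_j`
(`j < s`) and `e`.  Weights: the coefficients of `tau ^ j` have weight `≤ j (r + 1)`, `x_{i,1}` has
weight `2`. -/
theorem exists_expansion (i : Fin n) (one : Fin (r + 1)) (h1 : (one : ℕ) = 1) (w : ℕ)
    (h : Polynomial (AA n k r)) (hw : WtP w h) (s : ℕ) (hs : s ≤ r + 1) :
    ∃ c : ℕ → AA n k r, (∀ j, WtA (w + s * ((r + 1) * (r + 3))) (c j)) ∧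
      Polynomial.C (xA (i, one) ^ (s * (s - 1) / 2)) * h -
          ∑ j ∈ Finset.range s, Polynomial.C (c j) * tau n k r i ^ j ∈
        Ideal.span {(Polynomial.X : Polynomial (AA n k r)) ^ s} := by
  classical
  induction s with
  | zero =>
    refine ⟨fun _ => 0, fun j => WtA.zero _, ?_⟩
    rw [pow_zero, Ideal.span_singleton_one]
    exact Submodule.mem_top
  | succ s ih =>
    obtain ⟨c, hc, hmem⟩ := ih (by omega)
    set x : AA n k r := xA (i, one) with hx
    have hxw : WtA 2 x := by
      have := WtA.xA (n := n) (k := k) (r := r) (i, one)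
      simp only [h1] at this
      exact this
    set R : Polynomial (AA n k r) := Polynomial.C (x ^ (s * (s - 1) / 2)) * h -
          ∑ j ∈ Finset.range s, Polynomial.C (c j) * tau n k r i ^ j with hR
    obtain ⟨R', hR'⟩ := Ideal.mem_span_singleton.mp hmem
    obtain ⟨τ', hτ'⟩ : (Polynomial.X : Polynomial (AA n k r)) ∣ tau n k r i :=
      Polynomial.X_dvd_iff.mpr (coeff_tau_zero i)
    have hτ0 : τ'.coeff 0 = x := by
      have := coeff_tau_one (n := n) (k := k) i one h1
      rw [hτ', Polynomial.coeff_X_mul] at this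
      exact this
    set e : AA n k r := R.coeff s with he
    have heR : R'.coeff 0 = e := by
      rw [he, hR', Polynomial.coeff_X_pow_mul']
      simp
    set B : ℕ := (r + 1) * (r + 3) with hB
    have hBs : s * (r + 1) ≤ B := by
      rw [hB, mul_comm s]
      exact Nat.mul_le_mul_left _ (by omega)
    have he_w : WtA (w + (s + 1) * B) e := by
      rw [he, hR, Polynomial.coeff_sub, Polynomial.coeff_C_mul, Polynomial.finsetSum_coeff]
      refine WtA.sub ?_ (WtA.sum fun j hj => ?_)
      · refine ((hxw.pow _).mul (hw s)).mono ?_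
        have h2 : s * (s - 1) / 2 * 2 ≤ s * (s - 1) := Nat.div_mul_le_self _ _
        have h3 : s * (s - 1) ≤ s * (r + 1) := Nat.mul_le_mul_left _ (by omega)
        have h4 : B ≤ (s + 1) * B := Nat.le_mul_of_pos_left _ (Nat.succ_pos s)
        omega
      · rw [Polynomial.coeff_C_mul]
        refine ((hc j).mul (((WtP.tau (k := k) i).pow j) s)).mono ?_
        have h2 : j ≤ s := (Finset.mem_range.mp hj).le
        have h3 : j * (r + 1) ≤ s * (r + 1) := Nat.mul_le_mul_right _ h2
        rw [Nat.succ_mul]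
        omega
    refine ⟨fun j => if j = s then e else x ^ s * c j, fun j => ?_, ?_⟩
    · show WtA _ (if j = s then e else x ^ s * c j)
      split_ifs with hj
      · exact he_w
      · refine ((hxw.pow s).mul (hc j)).mono ?_
        have h2 : s * 2 ≤ B := by
          rw [hB]
          nlinarith
        rw [Nat.succ_mul]
        omega
    · have e0 : Polynomial.C (x ^ ((s + 1) * (s + 1 - 1) / 2)) * h -
          ∑ j ∈ Finset.range (s + 1),
            Polynomial.C (if j = s then e else x ^ s * c j) * tau n k r i ^ j =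
          Polynomial.X ^ s * (Polynomial.C (x ^ s) * R' - Polynomial.C e * τ' ^ s) := by
        rw [Finset.sum_range_succ, if_pos rfl, Nat.triangle_succ]
        have e1 : ∑ j ∈ Finset.range s,
            Polynomial.C (if j = s then e else x ^ s * c j) * tau n k r i ^ j =
            Polynomial.C (x ^ s) * ∑ j ∈ Finset.range s, Polynomial.C (c j) * tau n k r i ^ j := by
          rw [Finset.mul_sum]
          refine Finset.sum_congr rfl fun j hj => ?_
          rw [if_neg (Finset.mem_range.mp hj).ne, Polynomial.C_mul]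
          ring
        rw [e1, pow_add, Polynomial.C_mul]
        have e2 : Polynomial.X ^ s * (Polynomial.C (x ^ s) * R' - Polynomial.C e * τ' ^ s) =
            Polynomial.C (x ^ s) * R - Polynomial.C e * tau n k r i ^ s := by
          rw [hR', hτ', mul_pow]
          ring
        rw [e2, hR]
        ring
      rw [e0, Ideal.mem_span_singleton, pow_succ]
      refine mul_dvd_mul_left _ ?_
      rw [Polynomial.X_dvd_iff, Polynomial.coeff_sub, Polynomial.coeff_C_mul,
        Polynomial.coeff_C_mul, heR, Polynomial.coeff_zero_eq_eval_zero (τ' ^ s),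
        Polynomial.eval_pow, ← Polynomial.coeff_zero_eq_eval_zero, hτ0]
      ring

end Pool.Agent.H89T
end

-- from Lib.H89T.C6
section

set_option autoImplicit false

/-!
CHUNK C6.  The four families of admissible fields.
-/

open MvPolynomial

namespace Pool.Agent.H89T

variable {n k r : ℕ}

/-- The bound for the weights of the fields. -/
def cF (r : ℕ) : ℕ := 10 * (r + 1) * (r + 2) * (r + 3)

/-- Polynomials `G` of degree `≤ k` over the universal ring whose coefficients define admissible
fields `V (G, 0)` (only the coefficients `a` move) of weight `≤ c`. -/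
def Verts (n k r c : ℕ) : Set (MvPolynomial (Fin n) (AA n k r)) :=
  {G | G.totalDegree ≤ k ∧ WtC c G ∧
    aeval (arc xA) G ∈ Ideal.span {Fx aA xA, (Polynomial.X : Polynomial (AA n k r)) ^ (r + 1)}}

/-- The same with value on the arc in `(t ^ (r + 1))`. -/
def Verts0 (n k r c : ℕ) : Set (MvPolynomial (Fin n) (AA n k r)) :=
  {G | G.totalDegree ≤ k ∧ WtC c G ∧
    aeval (arc xA) G ∈ Ideal.span {(Polynomial.X : Polynomial (AA n k r)) ^ (r + 1)}}

theorem Verts0_subset (c : ℕ) : Verts0 n k r c ⊆ Verts n k r c := by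
  rintro G ⟨h1, h2, h3⟩
  exact ⟨h1, h2, Ideal.span_mono (by simp) h3⟩

/-- CHUNK C6.  `G ∈ Verts` gives a field (`Fx_toG`). -/
theorem Verts.field {c : ℕ} {G : MvPolynomial (Fin n) (AA n k r)} (hG : G ∈ Verts n k r c) :
    VV (toG k G) (fun _ => 0) ∈ Fields n k r c := by
  obtain ⟨h1, h2, h3⟩ := hG
  refine ⟨toG k G, fun _ => 0, ⟨fun b => by simp, ?_⟩, fun α => h2 _, fun b i => ?_, rfl⟩
  · unfold EV
    rw [Fx_toG G h1]
    simpa using h3
  · rw [Polynomial.coeff_zero]
    exact WtA.zero _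

theorem C6_cF_ge (r : ℕ) : r * (r + 1) + (r + 1) * ((r + 1) * (r + 3)) + r ≤ cF r := by
  unfold cF
  nlinarith [Nat.zero_le r, Nat.zero_le (r * r), Nat.zero_le (r * r * r)]

theorem C6_lin_WtC (i : Fin n) : WtC 1 (X i - C (xA (i, 0)) : MvPolynomial (Fin n) (AA n k r)) := by
  refine ((WtC.X i).mono (Nat.zero_le _)).sub (WtC.C ?_)
  have h := WtA.xA (k := k) ((i, 0) : JV n r)
  simpa using h

theorem C6_lin_degree (i : Fin n) :
    (X i - C (xA (i, 0)) : MvPolynomial (Fin n) (AA n k r)).totalDegree ≤ 1 := by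
  refine (totalDegree_sub _ _).trans ?_
  simp [totalDegree_C]

theorem C6_monomial_degree (γ : Fin n →₀ ℕ) :
    (monomial γ 1 : MvPolynomial (Fin n) (AA n k r)).totalDegree ≤ ∑ b, γ b := by
  rw [totalDegree_monomial _ one_ne_zero, Finsupp.sum_fintype _ _ (fun _ => rfl)]

theorem C6_pderiv_degree {B : Type} [CommRing B] (b : Fin n) (P : MvPolynomial (Fin n) B) :
    (pderiv b P).totalDegree ≤ P.totalDegree := by
  have h : pderiv b P = ∑ m ∈ P.support, pderiv b (monomial m (P.coeff m)) := by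
    rw [← map_sum, ← P.as_sum]
  rw [h]
  refine totalDegree_finsetSum_le fun m hm => ?_
  rw [pderiv_monomial]
  refine (totalDegree_monomial_le _ _).trans ?_
  refine le_trans ?_ (le_totalDegree hm)
  rw [Finsupp.sum_fintype _ _ (fun _ => rfl), Finsupp.sum_fintype _ _ (fun _ => rfl)]
  refine Finset.sum_le_sum fun i _ => ?_
  simp

theorem C6_prod_WtC {ι : Type} (s : Finset ι) (d : ι → ℕ)
    (P : ι → MvPolynomial (Fin n) (AA n k r)) (hP : ∀ i ∈ s, WtC (d i) (P i)) :
    WtC (∑ i ∈ s, d i) (∏ i ∈ s, P i) := by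
  classical
  induction s using Finset.induction_on with
  | empty =>
    simp only [Finset.sum_empty, Finset.prod_empty]
    exact WtC.C (c := 1) (by simpa using WtA.C (n := n) (k := k) (r := r) 1)
  | insert i s hi ih =>
    rw [Finset.sum_insert hi, Finset.prod_insert hi]
    exact (hP i (Finset.mem_insert_self _ _)).mul
      (ih fun j hj => hP j (Finset.mem_insert_of_mem hj))

theorem C6_prod_WtP {ι : Type} (s : Finset ι) (d : ι → ℕ)
    (P : ι → Polynomial (AA n k r)) (hP : ∀ i ∈ s, WtP (d i) (P i)) :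
    WtP (∑ i ∈ s, d i) (∏ i ∈ s, P i) := by
  classical
  induction s using Finset.induction_on with
  | empty =>
    simp only [Finset.sum_empty, Finset.prod_empty]
    intro i
    rw [Polynomial.coeff_one]
    split_ifs
    · simpa using WtA.C (n := n) (k := k) (r := r) 1
    · exact WtA.zero _
  | insert i s hi ih =>
    rw [Finset.sum_insert hi, Finset.prod_insert hi]
    exact (hP i (Finset.mem_insert_self _ _)).mul
      (ih fun j hj => hP j (Finset.mem_insert_of_mem hj))

theorem C6_sum_WtC {ι : Type} (s : Finset ι) (d : ℕ)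
    (P : ι → MvPolynomial (Fin n) (AA n k r)) (hP : ∀ i ∈ s, WtC d (P i)) :
    WtC d (∑ i ∈ s, P i) := by
  intro m
  rw [coeff_sum]
  exact WtA.sum fun i hi => hP i hi m

/-- CHUNK C6 (a).  `X ^ γ ∏ (X_b - x_b) ^ (δ_b)`, `|δ| = r + 1`. -/
theorem vert_a (γ δ : Fin n →₀ ℕ) (hδ : ∑ b, δ b = r + 1) (hγ : ∑ b, γ b + (r + 1) ≤ k) :
    (monomial γ 1 * ∏ b, (X b - C (xA (b, 0))) ^ (δ b) : MvPolynomial (Fin n) (AA n k r)) ∈
      Verts0 n k r (cF r) := by
  refine ⟨?_, ?_, ?_⟩
  · refine (totalDegree_mul _ _).trans ?_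
    have h1 := C6_monomial_degree (k := k) (r := r) γ
    have h2 : (∏ b, (X b - C (xA (b, 0))) ^ (δ b) :
        MvPolynomial (Fin n) (AA n k r)).totalDegree ≤ ∑ b, δ b := by
      refine (totalDegree_finsetProd _ _).trans (Finset.sum_le_sum fun b _ => ?_)
      refine (totalDegree_pow _ _).trans ?_
      have := Nat.mul_le_mul_left (δ b) (C6_lin_degree (k := k) (r := r) b)
      simpa using this
    omega
  · have h1 : WtC 0 (monomial γ 1 : MvPolynomial (Fin n) (AA n k r)) :=
      WtC.monomial (by simpa using WtA.C (n := n) (k := k) (r := r) 1) γ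
    have h2 := C6_prod_WtC (k := k) (r := r) Finset.univ (fun b : Fin n => δ b * 1)
      (fun b => (X b - C (xA (b, 0))) ^ (δ b)) (fun b _ => (C6_lin_WtC b).pow (δ b))
    refine (h1.mul h2).mono ?_
    have h3 := C6_cF_ge r
    simp only [mul_one, hδ, zero_add]
    nlinarith [Nat.zero_le r, Nat.zero_le (r * r), Nat.zero_le (r * r * r)]
  · refine aeval_mem_of_mem_pow (Ideal.mul_mem_left _ _ ?_)
    have h1 : mI n k r ^ (r + 1) = ∏ b, mI n k r ^ (δ b) := by
      rw [Finset.prod_pow_eq_pow_sum]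
      congr 1
      exact hδ.symm
    rw [h1]
    refine Ideal.prod_mem_prod fun b _ => ?_
    refine Ideal.pow_mem_pow ?_ _
    exact Ideal.subset_span ⟨b, rfl⟩

theorem C6_aeval_lin (i : Fin n) :
    aeval (arc xA) (X i - C (xA (i, 0)) : MvPolynomial (Fin n) (AA n k r)) = tau n k r i := by
  unfold tau
  rw [map_sub, aeval_X, aeval_C, Polynomial.algebraMap_eq]

/-- CHUNK C6 (b).  `x_{i,1} ^ N X ^ α - ∑ j ≤ r, c_j (X_i - x_i) ^ j`, `N = r (r + 1) / 2`,
`|α| ≤ r`: `exists_expansion` with `s = r + 1` for `h = ∏ b, (arc xA b) ^ (α b)` (weight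
`≤ r (r + 1)`). -/
theorem vert_b (hk : r ≤ k) (i : Fin n) (one : Fin (r + 1)) (h1 : (one : ℕ) = 1) (α : Fin n →₀ ℕ)
    (hα : ∑ b, α b ≤ r) : ∃ c : ℕ → AA n k r,
    (C (xA (i, one) ^ ((r + 1) * r / 2)) * monomial α 1 -
      ∑ j ∈ Finset.range (r + 1), C (c j) * (X i - C (xA (i, 0))) ^ j :
        MvPolynomial (Fin n) (AA n k r)) ∈ Verts0 n k r (cF r) := by
  have hw : WtP (r * (r + 1)) (∏ b, (arc (xA : JV n r → AA n k r) b) ^ (α b)) := by
    have h := C6_prod_WtP (k := k) (r := r) Finset.univ (fun b : Fin n => α b * (r + 1))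
      (fun b => (arc xA b) ^ (α b)) (fun b _ => (WtP.arc b).pow (α b))
    refine h.mono ?_
    rw [← Finset.sum_mul]
    exact Nat.mul_le_mul_right _ hα
  obtain ⟨c, hc, hmem⟩ := exists_expansion i one h1 (r * (r + 1)) _ hw (r + 1) le_rfl
  refine ⟨c, ?_, ?_, ?_⟩
  · refine (totalDegree_sub _ _).trans (max_le ?_ ?_)
    · refine (totalDegree_mul _ _).trans ?_
      rw [totalDegree_C, zero_add]
      have := C6_monomial_degree (k := k) (r := r) α
      omega
    · refine totalDegree_finsetSum_le fun j hj => ?_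
      refine (totalDegree_mul _ _).trans ?_
      rw [totalDegree_C, zero_add]
      refine (totalDegree_pow _ _).trans ?_
      have h2 := Nat.mul_le_mul_left j (C6_lin_degree (k := k) (r := r) i)
      have h3 := Finset.mem_range.1 hj
      omega
  · have hcF := C6_cF_ge r
    refine WtC.sub ?_ (C6_sum_WtC _ _ _ fun j hj => ?_)
    · have h2 : WtC ((r + 1) * r / 2 * 2 + 0)
          (C (xA (i, one) ^ ((r + 1) * r / 2)) * monomial α 1 :
            MvPolynomial (Fin n) (AA n k r)) := by
        refine WtC.mul (WtC.C ?_)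
          (WtC.monomial (by simpa using WtA.C (n := n) (k := k) (r := r) 1) α)
        have h3 := WtA.xA (k := k) ((i, one) : JV n r)
        simp only [h1] at h3
        exact h3.pow _
      refine h2.mono ?_
      have h4 : (r + 1) * r / 2 * 2 ≤ (r + 1) * r := Nat.div_mul_le_self _ _
      nlinarith
    · refine ((WtC.C (hc j)).mul ((C6_lin_WtC i).pow j)).mono ?_
      have h3 := Finset.mem_range.1 hj
      omega
  · rw [map_sub, map_mul, aeval_C, map_sum, Polynomial.algebraMap_eq]
    have h2 : aeval (arc xA) (monomial α 1 : MvPolynomial (Fin n) (AA n k r)) =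
        ∏ b, (arc (xA : JV n r → AA n k r) b) ^ (α b) := by
      rw [aeval_monomial, map_one, one_mul, Finsupp.prod_fintype _ _ (fun _ => pow_zero _)]
    rw [h2]
    have h3 : ∀ j, aeval (arc xA) (C (c j) * (X i - C (xA (i, 0))) ^ j :
        MvPolynomial (Fin n) (AA n k r)) = Polynomial.C (c j) * tau n k r i ^ j := by
      intro j
      rw [map_mul, aeval_C, map_pow, C6_aeval_lin, Polynomial.algebraMap_eq]
    simp only [h3]
    simpa using hmem

/-- CHUNK C6 (c).  The reduction of `F_a (X) (X_i - x_i) ^ q`, `q ≤ r` (`exists_reduce`, `D = q`;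
`WtC 0 FF`, `WtC 1 (X_i - x_i)`; the value on the arc is `F (x (t)) tau ^ q` modulo
`t ^ (r + 1)`, see `aeval_FF`, `aeval_mem_of_mem_pow`). -/
theorem vert_c (hk : r ≤ k) (i : Fin n) (q : ℕ) (hq : q ≤ r) :
    ∃ G ∈ Verts n k r (cF r), aeval (arc xA) G - Fx aA xA * tau n k r i ^ q ∈
      Ideal.span {(Polynomial.X : Polynomial (AA n k r)) ^ (r + 1)} := by
  have hdeg : (FF n k r * (X i - C (xA (i, 0))) ^ q).totalDegree ≤ k + q := by
    refine (totalDegree_mul _ _).trans ?_
    have h1 := totalDegree_FF (n := n) (k := k) (r := r)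
    have h2 := totalDegree_pow (X i - C (xA (i, 0)) : MvPolynomial (Fin n) (AA n k r)) q
    have h3 := Nat.mul_le_mul_left q (C6_lin_degree (k := k) (r := r) i)
    omega
  have hw : WtC q (FF n k r * (X i - C (xA (i, 0))) ^ q) :=
    (WtC.FF.mul ((C6_lin_WtC i).pow q)).mono (by omega)
  obtain ⟨G, hG1, hG2, hG3⟩ := exists_reduce hk q q _ hdeg hw
  have h4 := aeval_mem_of_mem_pow hG3
  rw [map_sub, map_mul, map_pow, C6_aeval_lin, aeval_FF] at h4
  refine ⟨G, ⟨hG1, hG2.mono ?_, ?_⟩, h4⟩
  · have hcF := C6_cF_ge r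
    have : q * (r + 1) ≤ r * (r + 1) := Nat.mul_le_mul_right _ hq
    omega
  · have h5 := Ideal.span_mono (s := {(Polynomial.X : Polynomial (AA n k r)) ^ (r + 1)})
      (t := {Fx aA xA, (Polynomial.X : Polynomial (AA n k r)) ^ (r + 1)}) (by simp) h4
    have h6 : Fx aA xA * tau n k r i ^ q ∈
        Ideal.span {Fx aA xA, (Polynomial.X : Polynomial (AA n k r)) ^ (r + 1)} :=
      Ideal.mul_mem_right _ _ (Ideal.subset_span (by simp))
    have h7 := Ideal.add_mem _ h5 h6
    rwa [sub_add_cancel] at h7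

/-- Truncation of a polynomial at degree `r`. -/
noncomputable def C6_trunc (r : ℕ) {B : Type} [CommRing B] (p : Polynomial B) : Polynomial B :=
  ∑ l ∈ Finset.range (r + 1), Polynomial.monomial l (p.coeff l)

theorem C6_coeff_trunc {B : Type} [CommRing B] (p : Polynomial B) (l : ℕ) :
    (C6_trunc r p).coeff l = if l < r + 1 then p.coeff l else 0 := by
  unfold C6_trunc
  rw [Polynomial.finsetSum_coeff]
  simp only [Polynomial.coeff_monomial]
  rw [Finset.sum_ite_eq' (Finset.range (r + 1)) l]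
  simp

/-- CHUNK C6 (d).  The fields moving `x_b (t)` by `x_i (t) ^ j` (truncated at degree `r`), `j ≤ r`:
`lam b = trunc (arc xA i ^ j)`, the other `lam` are `0`, `g = - toG` of the reduction of
`X_i ^ j * pderiv b FF` (degree `≤ k + r`).  `E = - aeval G + Fdx b * lam b`, where
`aeval G ≡ arc xA i ^ j * Fdx b` modulo `t ^ (r + 1)` (`aeval_pderiv_FF`). -/
theorem field_d (hk : r ≤ k) (i b : Fin n) (j : ℕ) (hj : j ≤ r) :
    ∃ V ∈ Fields n k r (cF r), ∀ p : JV n r,
      V (xA p) = if p.1 = b then (arc xA i ^ j : Polynomial (AA n k r)).coeff (p.2 : ℕ) else 0 := by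
  have hpd : (pderiv b (FF n k r)).totalDegree ≤ k :=
    (C6_pderiv_degree b _).trans totalDegree_FF
  have hdeg : (X i ^ j * pderiv b (FF n k r)).totalDegree ≤ k + j := by
    refine (totalDegree_mul _ _).trans ?_
    have h2 : (X i ^ j : MvPolynomial (Fin n) (AA n k r)).totalDegree ≤ j := by
      refine (totalDegree_pow _ _).trans ?_
      rw [totalDegree_X, mul_one]
    omega
  have hw : WtC 0 (X i ^ j * pderiv b (FF n k r)) :=
    (((WtC.X i).pow j).mul (WtC.FF.pderiv b)).mono (by omega)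
  obtain ⟨G, hG1, hG2, hG3⟩ := exists_reduce hk j 0 _ hdeg hw
  have h4 := aeval_mem_of_mem_pow hG3
  rw [map_sub, map_mul, map_pow, aeval_X, aeval_pderiv_FF] at h4
  refine ⟨VV (toG k (-G)) (fun b' => if b' = b then C6_trunc r (arc xA i ^ j) else 0),
    ⟨_, _, ⟨fun b' => ?_, ?_⟩, fun α => ?_, fun b' l => ?_, rfl⟩, fun p => ?_⟩
  · split_ifs
    · rw [Polynomial.natDegree_le_iff_coeff_eq_zero]
      intro l hl
      rw [C6_coeff_trunc, if_neg (by omega)]
    · simp
  · have h6 : EV (toG k (-G)) (fun b' => if b' = b then C6_trunc r (arc xA i ^ j) else 0) =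
        -(aeval (arc xA) G - arc xA i ^ j * Fdx b aA xA) -
          Fdx b aA xA * (arc xA i ^ j - C6_trunc r (arc xA i ^ j)) := by
      unfold EV
      rw [Fx_toG (-G) (by rw [totalDegree_neg]; exact hG1), map_neg]
      have h7 : ∑ b', Fdx b' aA xA * (if b' = b then C6_trunc r (arc xA i ^ j) else 0 :
          Polynomial (AA n k r)) = Fdx b aA xA * C6_trunc r (arc xA i ^ j) := by
        rw [Finset.sum_eq_single b]
        · rw [if_pos rfl]
        · intro b' _ hb'
          rw [if_neg hb', mul_zero]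
        · intro h
          exact absurd (Finset.mem_univ _) h
      rw [h7]
      ring
    rw [h6]
    have h8 : (arc xA i ^ j - C6_trunc r (arc xA i ^ j) : Polynomial (AA n k r)) ∈
        Ideal.span {(Polynomial.X : Polynomial (AA n k r)) ^ (r + 1)} := by
      rw [Ideal.mem_span_singleton, Polynomial.X_pow_dvd_iff]
      intro l hl
      rw [Polynomial.coeff_sub, C6_coeff_trunc, if_pos hl, sub_self]
    have h9 := Ideal.sub_mem _ (Ideal.neg_mem_iff _ |>.2 h4)
      (Ideal.mul_mem_left _ (Fdx b aA xA) h8)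
    exact Ideal.span_mono (by simp) h9
  · refine WtA.mono ?_ (C6_cF_ge r)
    have h10 : toG k (-G) α = - (G.coeff (fin α)) := by
      unfold toG
      rw [coeff_neg]
    rw [h10]
    refine ((hG2 _).neg).mono ?_
    have : j * (r + 1) ≤ r * (r + 1) := Nat.mul_le_mul_right _ hj
    omega
  · split_ifs
    · rw [C6_coeff_trunc]
      split_ifs
      · refine (((WtP.arc i).pow j) l).mono ?_
        have h11 := C6_cF_ge r
        have : j * (r + 1) ≤ r * (r + 1) := Nat.mul_le_mul_right _ hj
        omega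
      · exact WtA.zero _
    · rw [Polynomial.coeff_zero]
      exact WtA.zero _
  · have h12 : VV (toG k (-G)) (fun b' => if b' = b then C6_trunc r (arc xA i ^ j) else 0) (xA p) =
        (if p.1 = b then C6_trunc r (arc xA i ^ j) else 0 : Polynomial (AA n k r)).coeff
          (p.2 : ℕ) := by
      unfold VV xA
      rw [mkDerivation_X, Sum.elim_inl]
    rw [h12]
    split_ifs
    · rw [C6_coeff_trunc, if_pos p.2.2]
    · rw [Polynomial.coeff_zero]

end Pool.Agent.H89T
end

-- from Lib.H89T.C7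
section

set_option autoImplicit false

/-!
CHUNK C7.  The fields moving only the coefficients span at a good point.
-/

open MvPolynomial

namespace Pool.Agent.H89T

variable {n k r : ℕ}

/-- The values at the point `(a, ξ)` of the polynomials `G ∈ Verts0` (i.e. polynomials over `ℂ`). -/
noncomputable def Sp0 (n k r : ℕ) (a : Idx n k → ℂ) (ξ : JV n r → ℂ) :
    Submodule ℂ (MvPolynomial (Fin n) ℂ) :=
  Submodule.span ℂ ((fun G => MvPolynomial.map (evA a ξ).toRingHom G) '' Verts0 n k r (cF r))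

/-- The values at the point `(a, ξ)` of the polynomials `G ∈ Verts`. -/
noncomputable def Sp (n k r : ℕ) (a : Idx n k → ℂ) (ξ : JV n r → ℂ) :
    Submodule ℂ (MvPolynomial (Fin n) ℂ) :=
  Submodule.span ℂ ((fun G => MvPolynomial.map (evA a ξ).toRingHom G) '' Verts n k r (cF r))

theorem evA_xA (a : Idx n k → ℂ) (ξ : JV n r → ℂ) (p : JV n r) : evA a ξ (xA p) = ξ p := by
  unfold evA xA
  rw [aeval_X, Sum.elim_inl]

theorem evA_aA (a : Idx n k → ℂ) (ξ : JV n r → ℂ) (α : Idx n k) : evA a ξ (aA α) = a α := by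
  unfold evA aA
  rw [aeval_X, Sum.elim_inr]

theorem c7_totalDegree_translate (c : Fin n → ℂ) (Q : MvPolynomial (Fin n) ℂ) :
    (aeval (fun s => X s + C (c s) : Fin n → MvPolynomial (Fin n) ℂ) Q).totalDegree
      ≤ Q.totalDegree := by
  rw [aeval_def, eval₂_eq']
  refine totalDegree_finsetSum_le fun d hd => ?_
  refine (totalDegree_mul _ _).trans ?_
  have h0 : ((algebraMap ℂ (MvPolynomial (Fin n) ℂ)) (coeff d Q)).totalDegree = 0 :=
    totalDegree_C _
  rw [h0, zero_add]
  refine (totalDegree_finsetProd _ _).trans ?_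
  have h1 : ∑ s, d s ≤ Q.totalDegree := by
    have := le_totalDegree hd
    rwa [Finsupp.sum_fintype _ _ (fun _ => rfl)] at this
  refine le_trans (Finset.sum_le_sum fun s _ => ?_) h1
  refine (totalDegree_pow _ _).trans ?_
  have : (X s + C (c s) : MvPolynomial (Fin n) ℂ).totalDegree ≤ 1 := by
    refine (totalDegree_add _ _).trans ?_
    rw [totalDegree_X, totalDegree_C]
    simp
  calc d s * _ ≤ d s * 1 := Nat.mul_le_mul_left _ this
    _ = d s := mul_one _

/-- Taylor expansion at `c`. -/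
theorem c7_taylor (c : Fin n → ℂ) (Q : MvPolynomial (Fin n) ℂ) :
    Q = ∑ d ∈ (aeval (fun s => X s + C (c s) : Fin n → MvPolynomial (Fin n) ℂ) Q).support,
      (aeval (fun s => X s + C (c s) : Fin n → MvPolynomial (Fin n) ℂ) Q).coeff d •
        ∏ b, (X b - C (c b)) ^ (d b) := by
  have h1 : (aeval (fun s => X s - C (c s) : Fin n → MvPolynomial (Fin n) ℂ))
      ((aeval (fun s => X s + C (c s) : Fin n → MvPolynomial (Fin n) ℂ)) Q) = Q := by
    rw [← AlgHom.comp_apply]
    conv_rhs => rw [← AlgHom.id_apply (R := ℂ) Q]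
    congr 1
    ext s
    simp
  conv_lhs => rw [← h1]
  rw [aeval_def, eval₂_eq']
  refine Finset.sum_congr rfl fun d _ => ?_
  rw [smul_eq_C_mul]
  rfl

/-- Multiples of `(X - ξ) ^ δ`, `|δ| = r + 1`, belong to `Sp0`. -/
theorem c7_mul_mem (a : Idx n k → ℂ) (ξ : JV n r → ℂ) (δ : Fin n →₀ ℕ)
    (hδ : ∑ b, δ b = r + 1) (S : MvPolynomial (Fin n) ℂ) (hS : S.totalDegree + (r + 1) ≤ k) :
    S * ∏ b, (X b - C (ξ (b, 0))) ^ (δ b) ∈ Sp0 n k r a ξ := by
  have h1 : S * ∏ b, (X b - C (ξ (b, 0))) ^ (δ b) = ∑ γ ∈ S.support, S.coeff γ •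
      (monomial γ 1 * ∏ b, (X b - C (ξ (b, 0))) ^ (δ b)) := by
    conv_lhs => rw [S.as_sum]
    rw [Finset.sum_mul]
    refine Finset.sum_congr rfl fun γ _ => ?_
    rw [smul_eq_C_mul, ← mul_assoc, C_mul_monomial, mul_one]
  rw [h1]
  refine Submodule.sum_mem _ fun γ hγ => Submodule.smul_mem _ _ (Submodule.subset_span ?_)
  refine ⟨monomial γ 1 * ∏ b, (X b - C (xA (b, 0))) ^ (δ b), ?_, ?_⟩
  · refine vert_a γ δ hδ ?_
    have h2 := le_totalDegree hγ
    rw [Finsupp.sum_fintype _ _ (fun _ => rfl)] at h2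
    omega
  · simp only [map_mul, map_prod, map_pow, map_sub, map_X, map_C, map_monomial]
    congr 1
    · congr 1
      exact map_one _
    · refine Finset.prod_congr rfl fun b _ => ?_
      congr 3
      exact evA_xA a ξ (b, 0)

theorem c7_split (m : Fin n →₀ ℕ) (e : ℕ) (he : e ≤ ∑ b, m b) :
    ∃ γ δ : Fin n →₀ ℕ, m = γ + δ ∧ ∑ b, δ b = e := by
  classical
  induction e with
  | zero => exact ⟨m, 0, by simp, by simp⟩
  | succ e ih =>
    obtain ⟨γ, δ, h1, h2⟩ := ih (by omega)
    have h3 : ∑ b, m b = ∑ b, γ b + ∑ b, δ b := by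
      rw [h1, ← Finset.sum_add_distrib]
      rfl
    have h4 : ∑ b, γ b ≠ 0 := by omega
    obtain ⟨b, -, hb⟩ := Finset.exists_ne_zero_of_sum_ne_zero h4
    refine ⟨γ - Finsupp.single b 1, δ + Finsupp.single b 1, ?_, ?_⟩
    · rw [h1]
      ext c
      simp only [Finsupp.add_apply, Finsupp.coe_tsub, Pi.sub_apply, Finsupp.single_apply]
      split_ifs with hc
      · subst hc; omega
      · omega
    · simp only [Finsupp.add_apply, Finset.sum_add_distrib, h2]
      congr 1
      rw [Finset.sum_eq_single b] <;> simp +contextual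

/-- CHUNK C7.  Every polynomial of degree `≤ k` is congruent to one of degree `≤ r` modulo `Sp0`:
by induction on the degree; for a monomial of degree `> r` write its exponent as `γ + δ`,
`|δ| = r + 1`, and use `vert_a`: `X ^ (γ + δ) - X ^ γ ∏ (X_b - ξ_b) ^ (δ b)` has smaller degree. -/
theorem reduce_degree (hk : r ≤ k) (a : Idx n k → ℂ) (ξ : JV n r → ℂ)
    (Q : MvPolynomial (Fin n) ℂ) (hQ : Q.totalDegree ≤ k) :
    ∃ Q' : MvPolynomial (Fin n) ℂ, Q'.totalDegree ≤ r ∧ Q - Q' ∈ Sp0 n k r a ξ := by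
  classical
  set T := aeval (fun s => X s + C (ξ (s, 0)) : Fin n → MvPolynomial (Fin n) ℂ) Q with hT
  have hTd : T.totalDegree ≤ k := (c7_totalDegree_translate _ Q).trans hQ
  refine ⟨∑ d ∈ T.support.filter (fun d => ∑ b, d b ≤ r), T.coeff d •
    ∏ b, (X b - C (ξ (b, 0))) ^ (d b), ?_, ?_⟩
  · refine totalDegree_finsetSum_le fun d hd => ?_
    refine (totalDegree_smul_le _ _).trans ?_
    refine (totalDegree_finsetProd _ _).trans ?_
    refine le_trans (Finset.sum_le_sum fun s _ => ?_) (Finset.mem_filter.1 hd).2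
    refine (totalDegree_pow _ _).trans ?_
    have : (X s - C (ξ (s, 0)) : MvPolynomial (Fin n) ℂ).totalDegree ≤ 1 := by
      refine (totalDegree_sub _ _).trans ?_
      rw [totalDegree_X, totalDegree_C]
      simp
    calc d s * _ ≤ d s * 1 := Nat.mul_le_mul_left _ this
      _ = d s := mul_one _
  · have hQe := c7_taylor (fun s => ξ (s, 0)) Q
    rw [← hT, ← Finset.sum_filter_add_sum_filter_not T.support (fun d => ∑ b, d b ≤ r)] at hQe
    rw [sub_eq_iff_eq_add'.2 hQe]
    refine Submodule.sum_mem _ fun d hd => Submodule.smul_mem _ _ ?_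
    obtain ⟨hd1, hd2⟩ := Finset.mem_filter.1 hd
    obtain ⟨γ, δ, h1, h2⟩ := c7_split d (r + 1) (by omega)
    have h3 : ∏ b, (X b - C (ξ (b, 0)) : MvPolynomial (Fin n) ℂ) ^ (d b)
        = (∏ b, (X b - C (ξ (b, 0))) ^ (γ b)) * ∏ b, (X b - C (ξ (b, 0))) ^ (δ b) := by
      rw [← Finset.prod_mul_distrib]
      refine Finset.prod_congr rfl fun b _ => ?_
      rw [← pow_add, h1]
      rfl
    rw [h3]
    refine c7_mul_mem a ξ δ h2 _ ?_
    have h4 : ∑ b, d b ≤ k := by
      have := le_totalDegree hd1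
      rw [Finsupp.sum_fintype _ _ (fun _ => rfl)] at this
      omega
    have h5 : ∑ b, d b = ∑ b, γ b + ∑ b, δ b := by
      rw [h1, ← Finset.sum_add_distrib]
      rfl
    have h6 : (∏ b, (X b - C (ξ (b, 0)) : MvPolynomial (Fin n) ℂ) ^ (γ b)).totalDegree
        ≤ ∑ b, γ b := by
      refine (totalDegree_finsetProd _ _).trans ?_
      refine Finset.sum_le_sum fun s _ => ?_
      refine (totalDegree_pow _ _).trans ?_
      have : (X s - C (ξ (s, 0)) : MvPolynomial (Fin n) ℂ).totalDegree ≤ 1 := by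
        refine (totalDegree_sub _ _).trans ?_
        rw [totalDegree_X, totalDegree_C]
        simp
      calc γ s * _ ≤ γ s * 1 := Nat.mul_le_mul_left _ this
        _ = γ s := mul_one _
    omega

/-- The span of the powers of `X_i - ξ_i` of degree `≤ r`. -/
noncomputable def c7L (ξ : JV n r → ℂ) (i : Fin n) : Submodule ℂ (MvPolynomial (Fin n) ℂ) :=
  Submodule.span ℂ (Set.range fun j : Fin (r + 1) => (X i - C (ξ (i, 0))) ^ (j : ℕ))

theorem c7L_mem (ξ : JV n r → ℂ) (i : Fin n) (c : ℕ → ℂ) :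
    ∑ j ∈ Finset.range (r + 1), C (c j) * (X i - C (ξ (i, 0))) ^ j ∈ c7L ξ i := by
  refine Submodule.sum_mem _ fun j hj => ?_
  rw [← smul_eq_C_mul]
  exact Submodule.smul_mem _ _ (Submodule.subset_span ⟨⟨j, Finset.mem_range.1 hj⟩, rfl⟩)

theorem c7L_exists {ξ : JV n r → ℂ} {i : Fin n} {Q : MvPolynomial (Fin n) ℂ}
    (hQ : Q ∈ c7L ξ i) : ∃ c : ℕ → ℂ,
      Q = ∑ j ∈ Finset.range (r + 1), C (c j) * (X i - C (ξ (i, 0))) ^ j := by
  obtain ⟨c, hc⟩ := (Submodule.mem_span_range_iff_exists_fun ℂ).1 hQ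
  refine ⟨fun j => if h : j < r + 1 then c ⟨j, h⟩ else 0, ?_⟩
  rw [← hc, Finset.sum_range]
  refine Finset.sum_congr rfl fun j _ => ?_
  have hj : (fun j : ℕ => if h : j < r + 1 then c ⟨j, h⟩ else 0) (j : ℕ) = c j := by
    simp only [j.2, dite_true]
  rw [hj, smul_eq_C_mul]

/-- CHUNK C7.  If `ξ (i, 1) ≠ 0` it is congruent to a polynomial in `X_i - ξ_i` of degree `≤ r`
(`vert_b`, divide by `ξ (i, 1) ^ N`). -/
theorem reduce_line (hk : r ≤ k) (a : Idx n k → ℂ) (ξ : JV n r → ℂ) (i : Fin n)
    (one : Fin (r + 1)) (h1 : (one : ℕ) = 1) (hx : ξ (i, one) ≠ 0)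
    (Q : MvPolynomial (Fin n) ℂ) (hQ : Q.totalDegree ≤ k) :
    ∃ c : ℕ → ℂ, Q - ∑ j ∈ Finset.range (r + 1), C (c j) * (X i - C (ξ (i, 0))) ^ j ∈
      Sp0 n k r a ξ := by
  obtain ⟨Q', hQ', hQQ'⟩ := reduce_degree hk a ξ Q hQ
  have hmon : ∀ α : Fin n →₀ ℕ, ∑ b, α b ≤ r →
      (monomial α 1 : MvPolynomial (Fin n) ℂ) ∈ Sp0 n k r a ξ ⊔ c7L ξ i := by
    intro α hα
    obtain ⟨c, hc⟩ := vert_b hk i one h1 α hα
    set N := (r + 1) * r / 2
    have h2 : C (ξ (i, one) ^ N) * (monomial α 1 : MvPolynomial (Fin n) ℂ) -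
        ∑ j ∈ Finset.range (r + 1), C (evA a ξ (c j)) * (X i - C (ξ (i, 0))) ^ j
          ∈ Sp0 n k r a ξ := by
      refine Submodule.subset_span ⟨_, hc, ?_⟩
      simp only [map_sub, map_mul, map_sum, map_pow, map_C, map_X, map_monomial]
      congr 1
      · congr 1
        · congr 1
          congr 1
          exact evA_xA a ξ (i, one)
        · congr 1
          exact map_one _
      · refine Finset.sum_congr rfl fun j _ => ?_
        congr 4
        exact evA_xA a ξ (i, 0)
    have h3 : C (ξ (i, one) ^ N) * (monomial α 1 : MvPolynomial (Fin n) ℂ)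
        ∈ Sp0 n k r a ξ ⊔ c7L ξ i := by
      have h4 := Submodule.add_mem_sup h2 (c7L_mem ξ i fun j => evA a ξ (c j))
      rwa [sub_add_cancel] at h4
    have h5 : (monomial α 1 : MvPolynomial (Fin n) ℂ)
        = (ξ (i, one) ^ N)⁻¹ • (C (ξ (i, one) ^ N) * monomial α 1) := by
      rw [smul_eq_C_mul, ← mul_assoc, ← C_mul, inv_mul_cancel₀ (pow_ne_zero _ hx), C_1, one_mul]
    rw [h5]
    exact Submodule.smul_mem _ _ h3
  have hQ2 : Q ∈ Sp0 n k r a ξ ⊔ c7L ξ i := by
    have h6 : Q = (Q - Q') + Q' := by ring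
    rw [h6]
    refine Submodule.add_mem _ (Submodule.mem_sup_left hQQ') ?_
    rw [Q'.as_sum]
    refine Submodule.sum_mem _ fun α hα => ?_
    have h7 : (monomial α (coeff α Q') : MvPolynomial (Fin n) ℂ)
        = coeff α Q' • monomial α 1 := by
      rw [smul_monomial, smul_eq_mul, mul_one]
    rw [h7]
    refine Submodule.smul_mem _ _ (hmon α ?_)
    have := le_totalDegree hα
    rw [Finsupp.sum_fintype _ _ (fun _ => rfl)] at this
    omega
  obtain ⟨y, hy, z, hz, hyz⟩ := Submodule.mem_sup.1 hQ2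
  obtain ⟨c, hc⟩ := c7L_exists hz
  refine ⟨c, ?_⟩
  rw [← hc, ← hyz, add_sub_cancel_right]
  exact hy

theorem c7_aeval_map (a : Idx n k → ℂ) (ξ : JV n r → ℂ) (G : MvPolynomial (Fin n) (AA n k r)) :
    aeval (arc ξ) (MvPolynomial.map (evA a ξ).toRingHom G) =
      Polynomial.map (evA a ξ).toRingHom (aeval (arc xA) G) := by
  have h : ((aeval (arc ξ) : MvPolynomial (Fin n) ℂ →ₐ[ℂ] Polynomial ℂ).toRingHom.comp
      (MvPolynomial.map (evA a ξ).toRingHom)) =
      (Polynomial.mapRingHom (evA a ξ).toRingHom).comp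
        (aeval (arc xA) : MvPolynomial (Fin n) (AA n k r) →ₐ[AA n k r]
          Polynomial (AA n k r)).toRingHom := by
    refine MvPolynomial.ringHom_ext ?_ ?_
    · intro c
      simp only [RingHom.comp_apply, AlgHom.toRingHom_eq_coe, RingHom.coe_coe, map_C, aeval_C,
        Polynomial.algebraMap_eq, Polynomial.coe_mapRingHom, Polynomial.map_C]
    · intro b
      simp only [RingHom.comp_apply, AlgHom.toRingHom_eq_coe, RingHom.coe_coe, map_X, aeval_X,
        Polynomial.coe_mapRingHom]
      rw [arc_map]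
      congr 1
      funext p
      exact (evA_xA a ξ p).symm
  exact congrArg (fun φ : MvPolynomial (Fin n) (AA n k r) →+* Polynomial ℂ => φ G) h

/-- CHUNK C7.  Elements of `Sp0` vanish to order `r + 1` on the arc of `ξ` (map the membership in
`Verts0` by `evA a ξ`; `arc_map`). -/
theorem Sp0_arc (a : Idx n k → ℂ) (ξ : JV n r → ℂ) {Q : MvPolynomial (Fin n) ℂ}
    (hQ : Q ∈ Sp0 n k r a ξ) :
    aeval (arc ξ) Q ∈ Ideal.span {(Polynomial.X : Polynomial ℂ) ^ (r + 1)} := by
  refine Submodule.span_induction (p := fun Q _ => aeval (arc ξ) Q ∈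
    Ideal.span {(Polynomial.X : Polynomial ℂ) ^ (r + 1)}) ?_ ?_ ?_ ?_ hQ
  · rintro _ ⟨G, hG, rfl⟩
    change aeval (arc ξ) (MvPolynomial.map (evA a ξ).toRingHom G) ∈ _
    rw [c7_aeval_map]
    obtain ⟨h, hh⟩ := Ideal.mem_span_singleton'.1 hG.2.2
    rw [← hh, Polynomial.map_mul, Polynomial.map_pow, Polynomial.map_X]
    exact Ideal.mul_mem_left _ _ (Ideal.mem_span_singleton_self _)
  · rw [map_zero]; exact Ideal.zero_mem _
  · intro x y _ _ hx hy
    rw [map_add]; exact Ideal.add_mem _ hx hy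
  · intro c x _ hx
    rw [map_smul, ← Polynomial.C_mul']
    exact Ideal.mul_mem_left _ _ hx

theorem c7_tri (p : Polynomial ℂ) (hp : p.coeff 0 = 0) (j : ℕ) :
    (∀ m < j, (p ^ j).coeff m = 0) ∧ (p ^ j).coeff j = p.coeff 1 ^ j := by
  obtain ⟨q, rfl⟩ := Polynomial.X_dvd_iff.2 hp
  rw [mul_pow]
  constructor
  · intro m hm
    rw [Polynomial.coeff_X_pow_mul', if_neg (by omega)]
  · rw [Polynomial.coeff_X_pow_mul', if_pos le_rfl, Nat.sub_self, Polynomial.coeff_X_mul,
      Polynomial.coeff_zero_eq_eval_zero, Polynomial.eval_pow,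
      ← Polynomial.coeff_zero_eq_eval_zero]

theorem Sp0_le_Sp (a : Idx n k → ℂ) (ξ : JV n r → ℂ) : Sp0 n k r a ξ ≤ Sp n k r a ξ :=
  Submodule.span_mono (Set.image_mono (Verts0_subset _))

/-- CHUNK C7.  If moreover `F_a (ξ_0) ≠ 0` every polynomial of degree `≤ k` belongs to `Sp`.
Proof: by `reduce_line` (and `Sp0 ≤ Sp`) it is enough that `(X_i - ξ_i) ^ q ∈ Sp` for `q ≤ r`; by
downward induction on `q`.  Let `G` be the polynomial of `vert_c`, `Q` its value at the point; then
`Q - ∑ j, C (c j) * (X i - ξ_i) ^ j ∈ Sp0` (`reduce_line`), so by `Sp0_arc`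
`∑ c j τ ^ j ≡ F_a (x (t)) τ ^ q` modulo `t ^ (r + 1)`, `τ = ξ (i, 1) t + ...`.
Comparing the coefficients of `t ^ 0, t ^ 1, ..., t ^ q`: `c j = 0` for `j < q` and
`c q = F_a (ξ_0) ≠ 0`.  As `Q ∈ Sp`, `(X_i - ξ_i) ^ q ∈ Sp`. -/
theorem mem_Sp (hk : r ≤ k) (a : Idx n k → ℂ) (ξ : JV n r → ℂ) (i : Fin n)
    (one : Fin (r + 1)) (h1 : (one : ℕ) = 1) (hx : ξ (i, one) ≠ 0)
    (hF : ev a (fun b => ξ (b, 0)) ≠ 0)
    (Q : MvPolynomial (Fin n) ℂ) (hQ : Q.totalDegree ≤ k) : Q ∈ Sp n k r a ξ := by
  have hτ0 : (arc ξ i - Polynomial.C (ξ (i, 0))).coeff 0 = 0 := by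
    rw [Polynomial.coeff_sub, Polynomial.coeff_C_zero, coeff_arc, dif_pos (by omega)]
    exact sub_self _
  have hτ1 : (arc ξ i - Polynomial.C (ξ (i, 0))).coeff 1 = ξ (i, one) := by
    have h2 : 1 < r + 1 := by have := one.2; omega
    rw [Polynomial.coeff_sub, coeff_arc, dif_pos h2, Polynomial.coeff_C, if_neg (by omega),
      sub_zero]
    congr 2
    exact Fin.ext h1.symm
  set τ := arc ξ i - Polynomial.C (ξ (i, 0)) with hτ
  have hpow : ∀ e q, r < q + e → q ≤ r → (X i - C (ξ (i, 0)) : MvPolynomial (Fin n) ℂ) ^ q ∈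
      Sp n k r a ξ := by
    intro e
    induction e with
    | zero => intro q h2 h3; omega
    | succ e ih =>
      intro q _ hq
      have ih' : ∀ q', q < q' → q' ≤ r →
          (X i - C (ξ (i, 0)) : MvPolynomial (Fin n) ℂ) ^ q' ∈ Sp n k r a ξ :=
        fun q' h2 h3 => ih q' (by omega) h3
      obtain ⟨G, hG, hGarc⟩ := vert_c hk i q hq
      have hGSp : MvPolynomial.map (evA a ξ).toRingHom G ∈ Sp n k r a ξ :=
        Submodule.subset_span ⟨G, hG, rfl⟩
      have hGdeg : (MvPolynomial.map (evA a ξ).toRingHom G).totalDegree ≤ k :=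
        (Finset.sup_mono (support_map_subset _ _)).trans hG.1
      obtain ⟨c, hc⟩ := reduce_line hk a ξ i one h1 hx _ hGdeg
      have h4 : ∑ j ∈ Finset.range (r + 1), C (c j) * (X i - C (ξ (i, 0))) ^ j
          ∈ Sp n k r a ξ := by
        have := Submodule.sub_mem _ hGSp (Sp0_le_Sp a ξ hc)
        rwa [sub_sub_cancel] at this
      have h5 := Sp0_arc a ξ hc
      rw [map_sub, c7_aeval_map] at h5
      have h6 : aeval (arc ξ) (∑ j ∈ Finset.range (r + 1),
          C (c j) * (X i - C (ξ (i, 0))) ^ j : MvPolynomial (Fin n) ℂ)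
          = ∑ j ∈ Finset.range (r + 1), Polynomial.C (c j) * τ ^ j := by
        rw [map_sum]
        refine Finset.sum_congr rfl fun j _ => ?_
        simp only [map_mul, map_pow, map_sub, aeval_X, aeval_C, Polynomial.algebraMap_eq, hτ]
      rw [h6] at h5
      have h7 : Polynomial.map (evA a ξ).toRingHom (aeval (arc xA) G) - Fx a ξ * τ ^ q ∈
          Ideal.span {(Polynomial.X : Polynomial ℂ) ^ (r + 1)} := by
        obtain ⟨h, hh⟩ := Ideal.mem_span_singleton'.1 hGarc
        have h8 := congrArg (Polynomial.map (evA a ξ).toRingHom) hh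
        rw [Polynomial.map_mul, Polynomial.map_pow, Polynomial.map_X, Polynomial.map_sub,
          Polynomial.map_mul, Polynomial.map_pow, Fx_map] at h8
        have h9 : Polynomial.map (evA a ξ).toRingHom (tau n k r i) = τ := by
          unfold tau
          rw [Polynomial.map_sub, arc_map, Polynomial.map_C, hτ]
          congr 1
          · congr 1
            funext p
            exact evA_xA a ξ p
          · congr 1
            exact evA_xA a ξ (i, 0)
        have h10 : (Fx (fun α => (evA a ξ).toRingHom (aA α)) fun p => (evA a ξ).toRingHom (xA p))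
            = Fx a ξ := by
          congr 1
          · funext α
            exact evA_aA a ξ α
          · funext p
            exact evA_xA a ξ p
        rw [h9, h10] at h8
        rw [← h8]
        exact Ideal.mul_mem_left _ _ (Ideal.mem_span_singleton_self _)
      have h11 : ∑ j ∈ Finset.range (r + 1), Polynomial.C (c j) * τ ^ j - Fx a ξ * τ ^ q ∈
          Ideal.span {(Polynomial.X : Polynomial ℂ) ^ (r + 1)} := by
        have := Ideal.sub_mem _ h7 h5
        rwa [show ∀ x y z : Polynomial ℂ, (x - y) - (x - z) = z - y by intros; ring] at this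
      have h12 : ∀ m ≤ r, (∑ j ∈ Finset.range (r + 1), Polynomial.C (c j) * τ ^ j).coeff m
          = (Fx a ξ * τ ^ q).coeff m := by
        intro m hm
        obtain ⟨h, hh⟩ := Ideal.mem_span_singleton'.1 h11
        have h13 := congrArg (fun p => Polynomial.coeff p m) hh
        simp only [Polynomial.coeff_sub] at h13
        rw [Polynomial.coeff_mul_X_pow', if_neg (by omega)] at h13
        exact (sub_eq_zero.1 h13.symm)
      have hFxq : ∀ m < q, (Fx a ξ * τ ^ q).coeff m = 0 := by
        intro m hm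
        rw [Polynomial.coeff_mul]
        refine Finset.sum_eq_zero fun x hx => ?_
        have hx' := Finset.HasAntidiagonal.mem_antidiagonal.1 hx
        rw [(c7_tri τ hτ0 q).1 x.2 (by omega), mul_zero]
      have hsum : ∀ m ≤ r, (∀ j < m, c j = 0) →
          (∑ j ∈ Finset.range (r + 1), Polynomial.C (c j) * τ ^ j).coeff m
            = c m * ξ (i, one) ^ m := by
        intro m hm hlow
        rw [Polynomial.finsetSum_coeff, Finset.sum_eq_single m]
        · rw [Polynomial.coeff_C_mul, (c7_tri τ hτ0 m).2, hτ1]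
        · intro j _ hj
          rw [Polynomial.coeff_C_mul]
          rcases lt_or_gt_of_ne hj with h | h
          · rw [hlow j h, zero_mul]
          · rw [(c7_tri τ hτ0 j).1 m h, mul_zero]
        · intro h
          exact absurd (Finset.mem_range.2 (by omega)) h
      have hcz : ∀ m, m < q → c m = 0 := by
        intro m
        induction m using Nat.strong_induction_on with
        | _ m ihm =>
          intro hmq
          have h14 := hsum m (by omega) (fun j hj => ihm j hj (by omega))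
          rw [h12 m (by omega), hFxq m hmq] at h14
          exact (mul_eq_zero.1 h14.symm).resolve_right (pow_ne_zero _ hx)
      have hcq : c q = ev a (fun b => ξ (b, 0)) := by
        have h14 := hsum q hq hcz
        rw [h12 q hq, Polynomial.coeff_mul, Finset.sum_eq_single (0, q)] at h14
        · rw [(c7_tri τ hτ0 q).2, hτ1] at h14
          have h15 : (Fx a ξ).coeff 0 = ev a (fun b => ξ (b, 0)) := uu_zero a ξ
          simp only [h15] at h14
          exact (mul_right_cancel₀ (pow_ne_zero _ hx) h14).symm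
        · intro x hx' hne
          have hx'' := Finset.HasAntidiagonal.mem_antidiagonal.1 hx'
          have h16 : x.2 < q := by
            by_contra hcon
            apply hne
            ext
            · simp only; omega
            · simp only; omega
          rw [(c7_tri τ hτ0 q).1 x.2 h16, mul_zero]
        · intro h
          exact absurd (Finset.HasAntidiagonal.mem_antidiagonal.2 (zero_add q)) h
      have h17 : C (c q) * (X i - C (ξ (i, 0)) : MvPolynomial (Fin n) ℂ) ^ q
          ∈ Sp n k r a ξ := by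
        rw [← Finset.add_sum_erase _ _ (Finset.mem_range.2 (by omega : q < r + 1))] at h4
        refine (Submodule.add_mem_iff_left _ ?_).1 h4
        refine Submodule.sum_mem _ fun j hj => ?_
        obtain ⟨hj1, hj2⟩ := Finset.mem_erase.1 hj
        have hj3 := Finset.mem_range.1 hj2
        rcases lt_or_gt_of_ne hj1 with h | h
        · rw [hcz j h, C_0, zero_mul]; exact Submodule.zero_mem _
        · rw [← smul_eq_C_mul]
          exact Submodule.smul_mem _ _ (ih' j h (by omega))
      have h18 : (X i - C (ξ (i, 0)) : MvPolynomial (Fin n) ℂ) ^ q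
          = (c q)⁻¹ • (C (c q) * (X i - C (ξ (i, 0))) ^ q) := by
        rw [smul_eq_C_mul, ← mul_assoc, ← C_mul, inv_mul_cancel₀ (by rw [hcq]; exact hF), C_1,
          one_mul]
      rw [h18]
      exact Submodule.smul_mem _ _ h17
  obtain ⟨c, hc⟩ := reduce_line hk a ξ i one h1 hx Q hQ
  have h2 : Q = (Q - ∑ j ∈ Finset.range (r + 1), C (c j) * (X i - C (ξ (i, 0))) ^ j)
      + ∑ j ∈ Finset.range (r + 1), C (c j) * (X i - C (ξ (i, 0))) ^ j := by ring
  rw [h2]
  refine Submodule.add_mem _ (Sp0_le_Sp a ξ hc) (Submodule.sum_mem _ fun j hj => ?_)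
  rw [← smul_eq_C_mul]
  exact Submodule.smul_mem _ _ (hpow (r + 1) j (by omega) (by have := Finset.mem_range.1 hj; omega))

end Pool.Agent.H89T
end
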