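import Pool.Agent.Lib.H1M.PB.M003
import Pool.Agent.Lib.H1M.PB.M009

/-! Merged copies (to shorten the build) of Lib.H78B.B4, Lib.H78G.F1A. -/

-- from Lib.H78B.B4
section

set_option autoImplicit false

/-!
B4 (M).  The derivations of `K` which kill the parameters `lam`, evaluated at algebraically
independent elements, have codimension at most the number of parameters.

Proof.  `L = {D : Derivation ℂ K K}` is a `K`-vector space, `f : L → (ρ → K)`, `D ↦ (D (lam i))_i`
is linear, so `L ⧸ ker f` has dimension at most `card ρ ≤ c` and there are `D_1, …, D_c` in `L` such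
that every `D` is `D' + ∑ μ i • D_i` with `D' ∈ ker f`.  Put `p i = (D_i (π (X t)))_t`.  Given `v` take
`D` with `D (π (X t)) = v t` (`H89T.ext_field`).
-/

open MvPolynomial

namespace Pool.Agent.H78B

open Pool.Agent.H89T

theorem b4_lift {K V W : Type*} [Field K] [AddCommGroup V] [Module K V] [AddCommGroup W] [Module K W]
    [FiniteDimensional K W] (f : V →ₗ[K] W) {c : ℕ} (hc : Module.finrank K W ≤ c) :
    ∃ q : Fin c → V, ∀ v : V, ∃ μ : Fin c → K, f v = ∑ i, μ i • f (q i) := by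
  classical
  have hm : Module.finrank K (LinearMap.range f) ≤ c := (Submodule.finrank_le _).trans hc
  let b := Module.finBasis K (LinearMap.range f)
  have hb : ∀ i, ∃ v, f v = b i := fun i => (b i).2
  choose q0 hq0 using hb
  refine ⟨fun i => if h : i.1 < Module.finrank K (LinearMap.range f) then q0 ⟨i.1, h⟩ else 0, fun v => ?_⟩
  have hv : f v ∈ Submodule.span K (Set.range fun i : Fin c =>
      f (if h : i.1 < Module.finrank K (LinearMap.range f) then q0 ⟨i.1, h⟩ else 0)) := by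
    have h1 := b.sum_repr ⟨f v, LinearMap.mem_range_self f v⟩
    have h2 := congrArg (Submodule.subtype (LinearMap.range f)) h1
    rw [map_sum] at h2
    simp only [map_smul, Submodule.subtype_apply] at h2
    rw [← h2]
    refine Submodule.sum_mem _ fun i _ => Submodule.smul_mem _ _ ?_
    rw [← hq0 i]
    refine Submodule.subset_span ⟨⟨i.1, i.2.trans_le hm⟩, ?_⟩
    beta_reduce
    rw [dif_pos i.2]
  rw [Submodule.mem_span_range_iff_exists_fun] at hv
  obtain ⟨μ, hμ⟩ := hv
  exact ⟨μ, hμ.symm⟩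

theorem der_codim {τ K : Type} [Field K] [Algebra ℂ K] [Algebra.EssFiniteType ℂ K]
    (π : MvPolynomial τ ℂ →ₐ[ℂ] K) (hπ : Function.Injective π) {c : ℕ} {ρ : Type} [Fintype ρ]
    (hρ : Fintype.card ρ ≤ c) (lam : ρ → K) :
    ∃ p : Fin c → (τ → K), ∀ v : τ → K, ∃ (D : Derivation ℂ K K) (μ : Fin c → K),
      (∀ i, D (lam i) = 0) ∧ ∀ t, v t = D (π (X t)) + ∑ i, μ i * p i t := by
  classical
  let f : Derivation ℂ K K →ₗ[K] (ρ → K) :=
    { toFun := fun D i => D (lam i)
      map_add' := fun D E => rfl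
      map_smul' := fun a D => rfl }
  have hf : ∀ D i, f D i = D (lam i) := fun D i => rfl
  have hc : Module.finrank K (ρ → K) ≤ c := by
    rw [Module.finrank_fintype_fun_eq_card]
    exact hρ
  obtain ⟨q, hq⟩ := b4_lift f hc
  refine ⟨fun i t => q i (π (X t)), fun v => ?_⟩
  obtain ⟨D, hD⟩ := ext_field π hπ v
  obtain ⟨μ, hμ⟩ := hq D
  have e : ∀ x, (D - ∑ i, μ i • q i) x = D x - ∑ i, μ i * q i x := by
    intro x
    rw [Derivation.sub_apply]
    congr 1
    have h1 := congrFun (congrArg (fun D : Derivation ℂ K K => (D : K → K)) (rfl : (∑ i, μ i • q i) = ∑ i, μ i • q i)) x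
    have h2 : (Derivation.coeFnAddMonoidHom (∑ i, μ i • q i) : K → K) x = ∑ i, μ i * q i x := by
      rw [map_sum, Finset.sum_apply]
      rfl
    exact h2
  refine ⟨D - ∑ i, μ i • q i, μ, fun j => ?_, fun t => ?_⟩
  · rw [e]
    have h1 := congrFun hμ j
    rw [hf, Finset.sum_apply] at h1
    rw [h1]
    exact sub_self _
  · rw [e, hD, sub_add_cancel]

end Pool.Agent.H78B
end

-- from Lib.H78G.F1A
section

set_option autoImplicit false

/-!
CHUNK F1A (M, linear algebra).  The linear span of a curve.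
-/

open MvPolynomial Real Pool.Agent.H67T

namespace Pool.Agent.H78G

/-- CHUNK F1A (M).  The linear span of the curve.  Proof: `V = span {y z}`, `dim V = m + 1` with
`m ≥ 1` (not constant) and `m ≤ n`; the columns of `Lam` are a basis of `V`, `Lb` is a left inverse
(`LinearMap.exists_leftInverse_of_injective`, `LinearMap.toMatrix'`), `w z = Lb y z`.  If
`∑ lam j * w z j = 0` for all `z` then the linear form `lam ∘ Lb` vanishes on `V`, and
`lam = (lam ∘ Lb) ∘ Lam = 0`. -/
theorem exists_span {n : ℕ} {y : ℂ → Fin (n + 1) → ℂ} (hy : IsHol y)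
    (hnc : ∃ z w, ∀ c : ℂ, y w ≠ c • y z) :
    ∃ (m : ℕ) (Lam : Matrix (Fin (n + 1)) (Fin (m + 1)) ℂ)
      (Lb : Matrix (Fin (m + 1)) (Fin (n + 1)) ℂ), 1 ≤ m ∧ m ≤ n ∧ Lb * Lam = 1 ∧
      (∀ z, Lam.mulVec (Lb.mulVec (y z)) = y z) ∧
      ∀ lam : Fin (m + 1) → ℂ, (∀ z, ∑ j, lam j * Lb.mulVec (y z) j = 0) → lam = 0 := by
  classical
  set V : Submodule ℂ (Fin (n + 1) → ℂ) := Submodule.span ℂ (Set.range y) with hV
  have hyV : ∀ z, y z ∈ V := fun z => Submodule.subset_span ⟨z, rfl⟩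
  have hd2 : 2 ≤ Module.finrank ℂ V := by
    obtain ⟨z, w, hzw⟩ := hnc
    have hli : LinearIndependent ℂ ![(⟨y z, hyV z⟩ : V), ⟨y w, hyV w⟩] := by
      rw [LinearIndependent.pair_iff' (fun h => hy.ne_zero z (congrArg Subtype.val h))]
      intro a h
      exact hzw a (congrArg Subtype.val h).symm
    have := hli.fintype_card_le_finrank
    simpa using this
  have hdn : Module.finrank ℂ V ≤ n + 1 := by
    have := Submodule.finrank_le V
    simpa using this
  obtain ⟨m, hm⟩ : ∃ m, Module.finrank ℂ V = m + 1 := ⟨Module.finrank ℂ V - 1, by omega⟩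
  let b : Module.Basis (Fin (m + 1)) ℂ V := Module.finBasisOfFinrankEq ℂ V hm
  set Lam : Matrix (Fin (n + 1)) (Fin (m + 1)) ℂ := Matrix.of fun l j => (b j : Fin (n + 1) → ℂ) l
    with hLam
  have hmul : ∀ c : Fin (m + 1) → ℂ, Lam.mulVec c = ((∑ j, c j • b j : V) : Fin (n + 1) → ℂ) := by
    intro c
    ext l
    rw [Matrix.mulVec, dotProduct, Submodule.coe_sum, Finset.sum_apply]
    refine Finset.sum_congr rfl fun j _ => ?_
    rw [hLam, Matrix.of_apply, Submodule.coe_smul, Pi.smul_apply, smul_eq_mul, mul_comm]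
  have hinj : LinearMap.ker (Matrix.toLin' Lam) = ⊥ := by
    rw [LinearMap.ker_eq_bot']
    intro c hc
    rw [Matrix.toLin'_apply, hmul] at hc
    have h1 : (∑ j, c j • b j : V) = 0 := Subtype.ext hc
    ext j
    exact (linearIndependent_iff'.mp b.linearIndependent) Finset.univ c h1 j (Finset.mem_univ j)
  obtain ⟨g, hg⟩ := LinearMap.exists_leftInverse_of_injective (Matrix.toLin' Lam) hinj
  set Lb : Matrix (Fin (m + 1)) (Fin (n + 1)) ℂ := LinearMap.toMatrix' g with hLb
  have h1 : Lb * Lam = 1 := by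
    have h2 : LinearMap.toMatrix' (g ∘ₗ Matrix.toLin' Lam) = Lb * Lam := by
      rw [LinearMap.toMatrix'_comp, LinearMap.toMatrix'_toLin']
    rw [← h2, hg, LinearMap.toMatrix'_id]
  have hV2 : ∀ v ∈ V, Lam.mulVec (Lb.mulVec v) = v := by
    intro v hv
    obtain ⟨c, hc⟩ : ∃ c : Fin (m + 1) → ℂ, Lam.mulVec c = v := by
      refine ⟨fun j => b.repr ⟨v, hv⟩ j, ?_⟩
      rw [hmul, b.sum_repr]
    rw [← hc, Matrix.mulVec_mulVec c Lb Lam, h1, Matrix.one_mulVec]
  refine ⟨m, Lam, Lb, by omega, by omega, h1, fun z => hV2 _ (hyV z), ?_⟩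
  intro lam hlam
  set φ : (Fin (n + 1) → ℂ) →ₗ[ℂ] ℂ := (∑ j, lam j • LinearMap.proj j) ∘ₗ Matrix.toLin' Lb with hφ
  have hφa : ∀ v, φ v = ∑ j, lam j * Lb.mulVec v j := by
    intro v
    simp [hφ]
  have hle : V ≤ LinearMap.ker φ := by
    rw [hV, Submodule.span_le]
    rintro _ ⟨z, rfl⟩
    change φ (y z) = 0
    rw [hφa]
    exact hlam z
  ext j
  have h2 : φ (Lam.mulVec (Pi.single j 1)) = 0 := by
    refine hle ?_
    rw [hmul]
    exact Submodule.coe_mem _
  rw [hφa, Matrix.mulVec_mulVec, h1, Matrix.one_mulVec] at h2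
  simpa [Pi.single_apply] using h2

end Pool.Agent.H78G
end
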