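import Pool.Agent.Lib.H1M.PB.M003
import Pool.Agent.Lib.H1M.PB.M010
import Pool.Agent.Lib.H1M.PB.M012
import Pool.Agent.Lib.H1M.PB.M014

/-! Merged copies (to shorten the build) of Lib.H67T.NL4. -/

-- from Lib.H67T.NL4
section

set_option autoImplicit false

/-!
CHUNK NL4.  The lemma on the logarithmic derivative.
-/

open Real Metric MeasureTheory Filter Topology

namespace Pool.Agent.H67T

theorem NL4_ne {f : ℂ → ℂ} (hf : Differentiable ℂ f) (h0 : ∃ z, f z ≠ 0) (x : ℂ) :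
    ∀ᶠ z in 𝓝[≠] x, f z ≠ 0 := by
  have ha : AnalyticOnNhd ℂ f Set.univ := fun z _ => hf.analyticAt z
  rcases (ha x (Set.mem_univ x)).eventually_eq_zero_or_eventually_ne_zero with h | h
  · exfalso
    obtain ⟨z, hz⟩ := h0
    exact hz (ha.eqOn_zero_of_preconnected_of_eventuallyEq_zero isPreconnected_univ
      (Set.mem_univ x) h (Set.mem_univ z))
  · exact h

theorem NL4_codisc {f g : ℂ → ℂ} (hf : Differentiable ℂ f) (hf0 : ∃ z, f z ≠ 0)
    (hg : Differentiable ℂ g) (hg0 : ∃ z, g z ≠ 0) (T : Set ℂ) :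
    {z | f z ≠ 0 ∧ g z ≠ 0} ∈ codiscreteWithin T := by
  rw [mem_codiscreteWithin_iff_forall_mem_nhdsNE]
  intro x _
  filter_upwards [NL4_ne hf hf0 x, NL4_ne hg hg0 x] with z h1 h2
  exact Or.inl ⟨h1, h2⟩

/-- comparison of circle averages off the zeros of `f` and `g` -/
theorem NL4_mono {f g : ℂ → ℂ} (hf : Differentiable ℂ f) (hf0 : ∃ z, f z ≠ 0)
    (hg : Differentiable ℂ g) (hg0 : ∃ z, g z ≠ 0) {r : ℝ} (hr : 0 < r) {F G : ℂ → ℝ}
    (hG : CircleIntegrable G 0 r) (hG0 : ∀ z, 0 ≤ G z)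
    (h : ∀ z, ‖z‖ = r → f z ≠ 0 → g z ≠ 0 → F z ≤ G z) :
    circleAverage F 0 r ≤ circleAverage G 0 r := by
  classical
  set F' : ℂ → ℝ := fun z => if f z ≠ 0 ∧ g z ≠ 0 then F z else 0 with hF'
  have h1 : circleAverage F 0 r = circleAverage F' 0 r := by
    apply circleAverage_congr_codiscreteWithin _ hr.ne'
    filter_upwards [NL4_codisc hf hf0 hg hg0 (sphere 0 |r|)] with z hz
    simp only [hF']
    rw [if_pos hz]
  rw [h1]
  by_cases hint : CircleIntegrable F' 0 r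
  · apply circleAverage_mono hint hG
    intro z hz
    rw [mem_sphere_zero_iff_norm, abs_of_pos hr] at hz
    simp only [hF']
    split_ifs with h2
    · exact h z hz h2.1 h2.2
    · exact hG0 z
  · rw [circleAverage.integral_undef hint]
    exact circleAverage_nonneg_of_nonneg fun z _ => hG0 z

theorem NL4_four (a b c d : ℝ) : log⁺ (a + b + c + d) ≤
    3 * log 2 + (log⁺ a + log⁺ b + log⁺ c + log⁺ d) := by
  have h1 := posLog_add (x := a + b + c) (y := d)
  have h2 := posLog_add (x := a + b) (y := c)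
  have h3 := posLog_add (x := a) (y := b)
  linarith

/-- CHUNK NL4.  **Lemma on the logarithmic derivative**, two radii.  Proof: let `ρ = (r + R) / 2`,
factor `f` and `g` on the disc of radius `ρ` (`exists_factor`) and apply `logDeriv_sub_le` with
radius `ρ` to `‖z‖ = r`.  With `N = ∑ m a + ∑ m' a`, by `count_le` (radii `ρ < R`),
`avg_le_chi` and `log (R / ρ) ≥ (R - ρ) / R = (R - r) / (2 R)`:
`N ≤ 2 R / (R - r) * (2 chi y R + K)`, and by `avg_abs_le`, `chi_mono` the average of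
`|log ‖f‖ - log ‖g‖|` on the circle of radius `ρ` is at most `2 chi y R + K`.
Use `log⁺ (a + b + c + d) ≤ log⁺ a + ... + log 4`, `log⁺ (a b) ≤ log⁺ a + log⁺ b`, and
`avg_posLog_sum_le` for the sums of the `m a / ‖z - a‖`.  The inequality `logDeriv_sub_le` holds off
finitely many points of the circle of radius `r`. -/
theorem logDeriv_lemma {n : ℕ} {y : ℂ → Fin n → ℂ} (hy : IsHol y) {f g : ℂ → ℂ}
    (hf : Differentiable ℂ f) (hg : Differentiable ℂ g) (hf0 : ∃ z, f z ≠ 0)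
    (hg0 : ∃ z, g z ≠ 0) {A : ℝ} (hA : 1 ≤ A) (hfy : ∀ z, ‖f z‖ ≤ A * ‖y z‖)
    (hgy : ∀ z, ‖g z‖ ≤ A * ‖y z‖) :
    ∃ C : ℝ, 0 ≤ C ∧ ∀ r R : ℝ, 1 ≤ r → r < R →
      circleAverage (fun z => log⁺ ‖deriv f z / f z - deriv g z / g z‖) 0 r ≤ C * err y r R := by
  obtain ⟨K1, hK1⟩ := count_le hf hf0
  obtain ⟨K2, hK2⟩ := count_le hg hg0
  obtain ⟨K3, hK3⟩ := avg_abs_le hy hf hg hf0 hg0 hA hfy hgy
  have hpl : ∀ x : ℝ, 0 ≤ log⁺ x := fun x => posLog_nonneg
  have hlog2 : 0 ≤ log 2 := Real.log_nonneg (by norm_num)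
  have hlog8 : 0 ≤ log 8 := Real.log_nonneg (by norm_num)
  set K4 : ℝ := |K1| + |K2| + 2 * log A with hK4
  have hA0 : 0 ≤ log A := Real.log_nonneg hA
  set C : ℝ := 100 * log 2 + 10 * log 8 + 10 * log⁺ K4 + 10 * log⁺ |K3| + 20 with hC
  have hC0 : 0 ≤ C := by
    have h1 := hpl K4
    have h2 := hpl |K3|
    rw [hC]
    linarith
  refine ⟨C, hC0, ?_⟩
  intro r R hr hrR
  have hR0 : 0 < R := by linarith
  set ρ : ℝ := (r + R) / 2 with hρ
  have hρ1 : r < ρ := by rw [hρ]; linarith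
  have hρ2 : ρ < R := by rw [hρ]; linarith
  have hρ0 : 0 < ρ := by linarith
  obtain ⟨s, m, h, hh, hh0, hfs, hs⟩ := exists_factor hf hf0 ρ
  obtain ⟨s', m', h', hh', hh'0, hgs, hs'⟩ := exists_factor hg hg0 ρ
  set N : ℝ := ∑ a ∈ s, (m a : ℝ) with hN
  set N' : ℝ := ∑ a ∈ s', (m' a : ℝ) with hN'
  have hN0 : 0 ≤ N := Finset.sum_nonneg fun a _ => Nat.cast_nonneg _
  have hN'0 : 0 ≤ N' := Finset.sum_nonneg fun a _ => Nat.cast_nonneg _
  set Y : ℝ := chi y R with hY
  set δ : ℝ := R - r with hδ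
  have hδ0 : 0 < δ := by rw [hδ]; linarith
  -- counting
  have hlogR : δ / (2 * R) ≤ log (R / ρ) := by
    have h1 := Real.one_sub_inv_le_log_of_pos (show 0 < R / ρ by positivity)
    have h2 : 1 - (R / ρ)⁻¹ = δ / (2 * R) := by
      rw [inv_div]
      have hR' : R ≠ 0 := hR0.ne'
      field_simp
      rw [hρ, hδ]
      ring
    rw [← h2]
    exact h1
  have hcount : ∀ M Ki : ℝ, 0 ≤ M → M * log (R / ρ) ≤ Y + log A + Ki →
      M ≤ 2 * R * (1 / δ) * (Y + log A + Ki) := by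
    intro M Ki hM h1
    have h2 : M * (δ / (2 * R)) ≤ Y + log A + Ki :=
      le_trans (mul_le_mul_of_nonneg_left hlogR hM) h1
    have h3 : M = 2 * R * (1 / δ) * (M * (δ / (2 * R))) := by
      have : R ≠ 0 := by linarith
      field_simp
    rw [h3]
    exact mul_le_mul_of_nonneg_left h2 (by positivity)
  have hav1 := avg_le_chi hy hf hA hfy (r := R) (by linarith) hf0
  have hav2 := avg_le_chi hy hg hA hgy (r := R) (by linarith) hg0
  have hc1 := hcount N K1 hN0 (by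
    have := hK1 ρ R s m h (by linarith) hρ2 hh hh0 hfs hs
    linarith)
  have hc2 := hcount N' K2 hN'0 (by
    have := hK2 ρ R s' m' h' (by linarith) hρ2 hh' hh'0 hgs hs'
    linarith)
  have hsum : N + N' ≤ 2 * R * (1 / δ) * (2 * Y + K4) := by
    have h1 : Y + log A + K1 + (Y + log A + K2) ≤ 2 * Y + K4 := by
      have := le_abs_self K1
      have := le_abs_self K2
      linarith
    have h2 : 0 ≤ 2 * R * (1 / δ) := by positivity
    nlinarith [mul_le_mul_of_nonneg_left h1 h2]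
  -- the terms
  set T : ℝ := log⁺ Y + log⁺ (1 / δ) + log⁺ R with hT
  have hYK : ∀ K : ℝ, log⁺ (2 * Y + K) ≤ 2 * log 2 + log⁺ Y + log⁺ K := by
    intro K
    have h1 := posLog_add (x := 2 * Y) (y := K)
    have h2 := posLog_mul (x := 2) (y := Y)
    have h3 : log⁺ (2 : ℝ) = log 2 := posLog_eq_log (by norm_num)
    linarith
  have hlogN : log⁺ (N + N') ≤ 3 * log 2 + T + log⁺ K4 := by
    have h1 := posLog_le_posLog (by linarith) hsum
    have h2 := posLog_mul (x := 2 * R * (1 / δ)) (y := 2 * Y + K4)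
    have h3 := posLog_mul (x := 2 * R) (y := 1 / δ)
    have h4 := posLog_mul (x := 2) (y := R)
    have h5 : log⁺ (2 : ℝ) = log 2 := posLog_eq_log (by norm_num)
    have h6 := hYK K4
    linarith
  have hN1 : log⁺ N ≤ log⁺ (N + N') := posLog_le_posLog hN0 (by linarith)
  have hN2 : log⁺ N' ≤ log⁺ (N + N') := posLog_le_posLog hN'0 (by linarith)
  -- the integral
  set I : ℝ := circleAverage (fun ζ => |log ‖f ζ‖ - log ‖g ζ‖|) 0 ρ with hI
  have hI0 : 0 ≤ I := circleAverage_nonneg_of_nonneg fun z _ => abs_nonneg _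
  have hI1 : I ≤ 2 * Y + |K3| := by
    have h1 := hK3 ρ (by linarith)
    have h2 := chi_mono hy hρ0 hρ2.le
    have h3 := le_abs_self K3
    linarith
  have hlogI : log⁺ (2 * ρ / (ρ - r) ^ 2 * I) ≤ 2 * T + (log 8 + 2 * log 2 + log⁺ |K3|) := by
    have h1 : 2 * ρ / (ρ - r) ^ 2 * I ≤ 8 * R * ((1 / δ) ^ 2 * (2 * Y + |K3|)) := by
      have h2 : 2 * ρ / (ρ - r) ^ 2 ≤ 8 * R * (1 / δ) ^ 2 := by
        have h3 : ρ - r = δ / 2 := by rw [hρ, hδ]; ring
        rw [h3, div_le_iff₀ (by positivity)]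
        have h4 : 8 * R * (1 / δ) ^ 2 * (δ / 2) ^ 2 = 2 * R := by
          field_simp
          ring
        rw [h4]
        linarith
      calc 2 * ρ / (ρ - r) ^ 2 * I ≤ 8 * R * (1 / δ) ^ 2 * (2 * Y + |K3|) :=
            mul_le_mul h2 hI1 hI0 (by positivity)
        _ = _ := by ring
    have h0 : 0 ≤ 2 * ρ / (ρ - r) ^ 2 * I := by
      apply mul_nonneg _ hI0
      positivity
    have h2 := posLog_le_posLog h0 h1
    have h3 := posLog_mul (x := 8 * R) (y := (1 / δ) ^ 2 * (2 * Y + |K3|))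
    have h4 := posLog_mul (x := 8) (y := R)
    have h5 := posLog_mul (x := (1 / δ) ^ 2) (y := 2 * Y + |K3|)
    have h6 : log⁺ ((1 / δ) ^ 2) = 2 * log⁺ (1 / δ) := by
      rw [posLog_pow]
      norm_num
    have h7 : log⁺ (8 : ℝ) = log 8 := posLog_eq_log (by norm_num)
    have h8 := hYK |K3|
    have h9 := hpl Y
    have h10 := hpl R
    linarith
  have hlogN3 : log⁺ ((N + N') * (1 / (ρ - r))) ≤ 2 * T + (4 * log 2 + log⁺ K4) := by
    have h3 : 1 / (ρ - r) = 2 * (1 / δ) := by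
      have : ρ - r = δ / 2 := by rw [hρ, hδ]; ring
      rw [this]
      field_simp
    rw [h3]
    have h1 := posLog_mul (x := N + N') (y := 2 * (1 / δ))
    have h2 := posLog_mul (x := 2) (y := 1 / δ)
    have h5 : log⁺ (2 : ℝ) = log 2 := posLog_eq_log (by norm_num)
    have h9 := hpl Y
    have h10 := hpl R
    linarith
  -- comparison
  obtain ⟨G1, hG11, hG12, hG13, hG14⟩ := NL2_dom (s := s) (m := m) (fun a ha => (hs a ha).2) hr
  obtain ⟨G2, hG21, hG22, hG23, hG24⟩ := NL2_dom (s := s') (m := m') (fun a ha => (hs' a ha).2) hr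
  set c0 : ℝ := 3 * log 2 + (log⁺ ((N + N') * (1 / (ρ - r))) +
    log⁺ (2 * ρ / (ρ - r) ^ 2 * I)) with hc0
  have hc00 : 0 ≤ c0 := by
    have := hpl ((N + N') * (1 / (ρ - r)))
    have := hpl (2 * ρ / (ρ - r) ^ 2 * I)
    positivity
  have hG : CircleIntegrable (fun z => c0 + (G1 z + G2 z)) 0 r :=
    (circleIntegrable_const _ _ _).add (hG11.add hG21)
  have hmono := NL4_mono hf hf0 hg hg0 (r := r) (by linarith)
    (F := fun z => log⁺ ‖deriv f z / f z - deriv g z / g z‖) hG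
    (fun z => add_nonneg hc00 (add_nonneg (hG12 z) (hG22 z))) (by
      intro z hz hfz hgz
      have h1 := logDeriv_sub_le hρ0 hh hh0 hfs (fun a ha => (hs a ha).1) hh' hh'0 hgs
        (fun a ha => (hs' a ha).1) (w := z) (by linarith) hfz hgz
      rw [hz] at h1
      have h2 : ∑ a ∈ s, (m a : ℝ) * (1 / ‖z - a‖ + 1 / (ρ - r)) =
          ∑ a ∈ s, (m a : ℝ) * (1 / ‖z - a‖) + N * (1 / (ρ - r)) := by
        rw [hN, Finset.sum_mul, ← Finset.sum_add_distrib]
        exact Finset.sum_congr rfl fun a _ => by ring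
      have h3 : ∑ a ∈ s', (m' a : ℝ) * (1 / ‖z - a‖ + 1 / (ρ - r)) =
          ∑ a ∈ s', (m' a : ℝ) * (1 / ‖z - a‖) + N' * (1 / (ρ - r)) := by
        rw [hN', Finset.sum_mul, ← Finset.sum_add_distrib]
        exact Finset.sum_congr rfl fun a _ => by ring
      rw [h2, h3] at h1
      have h4 : ‖deriv f z / f z - deriv g z / g z‖ ≤
          ∑ a ∈ s, (m a : ℝ) * (1 / ‖z - a‖) + ∑ a ∈ s', (m' a : ℝ) * (1 / ‖z - a‖) +
          (N + N') * (1 / (ρ - r)) + 2 * ρ / (ρ - r) ^ 2 * I := by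
        rw [add_mul]
        linarith
      have h5 := posLog_le_posLog (norm_nonneg _) h4
      have h6 := NL4_four (∑ a ∈ s, (m a : ℝ) * (1 / ‖z - a‖))
        (∑ a ∈ s', (m' a : ℝ) * (1 / ‖z - a‖)) ((N + N') * (1 / (ρ - r)))
        (2 * ρ / (ρ - r) ^ 2 * I)
      have h7 := hG13 z
      have h8 := hG23 z
      show log⁺ ‖deriv f z / f z - deriv g z / g z‖ ≤ c0 + (G1 z + G2 z)
      linarith)
  refine le_trans hmono ?_
  have hav : circleAverage (fun z => c0 + (G1 z + G2 z)) 0 r =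
      c0 + (circleAverage G1 0 r + circleAverage G2 0 r) := by
    rw [circleAverage_fun_add (f₁ := fun _ => c0) (f₂ := fun z => G1 z + G2 z)
      (circleIntegrable_const _ _ _) (hG11.add hG21), circleAverage_const,
      circleAverage_fun_add hG11 hG21]
  rw [hav]
  have hT0 : 0 ≤ T := by
    have := hpl Y
    have := hpl (1 / δ)
    have := hpl R
    positivity
  have herr : err y r R = 1 + T := by
    rw [err, hT, hY, hδ]
    ring
  rw [herr]
  have hfin : c0 + (circleAverage G1 0 r + circleAverage G2 0 r) ≤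
      (21 * log 2 + log 8 + 5 * log⁺ K4 + log⁺ |K3| + 2) + 8 * T := by
    have := hpl K4
    linarith
  refine le_trans hfin ?_
  have hC1 : 21 * log 2 + log 8 + 5 * log⁺ K4 + log⁺ |K3| + 2 ≤ C := by
    have h1 := hpl K4
    have h2 := hpl |K3|
    rw [hC]
    linarith
  have hC8 : 8 ≤ C := by
    have h1 := hpl K4
    have h2 := hpl |K3|
    rw [hC]
    linarith
  nlinarith

end Pool.Agent.H67T
end
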