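import Pool.Agent.Lib.H1M.PB.M006
import Pool.Agent.Lib.H1M.PB.M014

/-! Merged copies (to shorten the build) of Lib.H89T.A1, Lib.H89T.B5, Lib.H89T.A2, Lib.H89T.A5, Lib.H89T.B2, Lib.H89T.B3, Lib.H89T.B4. -/

-- from Lib.H89T.A1
section

set_option autoImplicit false

/-!
CHUNK A1.  The Fermat point.
-/

open MvPolynomial

namespace Pool.Agent.H89T

variable {n k r : ℕ}

/-- The coefficients of the Fermat polynomial `∑ x_b ^ k`. -/
noncomputable def a0 (n k : ℕ) : Idx n k → ℂ :=
  open Classical in fun α => if ∃ b, ((α.1 b : ℕ) = k) then 1 else 0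

/-- The exponent `k e_b`. -/
def fermatIdx (n k : ℕ) (b : Fin n) : Idx n k :=
  ⟨fun c => if c = b then Fin.last k else 0, by
    rw [Finset.sum_eq_single b]
    · simp
    · intro c _ hc
      simp [hc]
    · intro h
      exact absurd (Finset.mem_univ b) h⟩

theorem fermatIdx_val (b c : Fin n) :
    (((fermatIdx n k b).1 c : Fin (k + 1)) : ℕ) = if c = b then k else 0 := by
  unfold fermatIdx
  by_cases h : c = b
  · simp [h]
  · simp [h]

theorem fermatIdx_injective (hk : 1 ≤ k) : Function.Injective (fermatIdx n k) := by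
  intro b b' h
  have h1 : (((fermatIdx n k b).1 b : Fin (k + 1)) : ℕ) =
      (((fermatIdx n k b').1 b : Fin (k + 1)) : ℕ) := by rw [h]
  rw [fermatIdx_val, fermatIdx_val] at h1
  by_contra hne
  simp only [if_true, if_neg hne] at h1
  omega

theorem eq_fermatIdx (α : Idx n k) (b : Fin n) (h : (α.1 b : ℕ) = k) : α = fermatIdx n k b := by
  apply Subtype.ext
  funext c
  apply Fin.ext
  rw [fermatIdx_val]
  by_cases hc : c = b
  · subst hc
    simpa using h
  · rw [if_neg hc]
    have h1 := α.2
    have h2 : (α.1 b : ℕ) + (α.1 c : ℕ) ≤ ∑ b, (α.1 b : ℕ) := by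
      rw [← Finset.add_sum_erase Finset.univ _ (Finset.mem_univ b)]
      have := Finset.single_le_sum (f := fun b => (α.1 b : ℕ)) (fun j _ => Nat.zero_le _)
        (Finset.mem_erase.mpr ⟨hc, Finset.mem_univ c⟩)
      omega
    omega

theorem sum_a0 (hk : 1 ≤ k) {B : Type*} [CommRing B] [Algebra ℂ B] (T : Idx n k → B) :
    ∑ α, algebraMap ℂ B (a0 n k α) * T α = ∑ b, T (fermatIdx n k b) := by
  classical
  rw [← Finset.sum_image (s := Finset.univ) (g := fermatIdx n k) (f := T)
    (fun b _ b' _ h => fermatIdx_injective hk h)]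
  symm
  refine Finset.sum_subset_zero_on_sdiff (Finset.subset_univ _) ?_ ?_
  · intro α hα
    have h1 : ¬ ∃ b, ((α.1 b : ℕ) = k) := by
      rintro ⟨b, hb⟩
      simp only [Finset.mem_sdiff, Finset.mem_univ, true_and, Finset.mem_image, not_exists] at hα
      exact hα b (eq_fermatIdx α b hb).symm
    rw [a0, if_neg h1, map_zero, zero_mul]
  · intro α hα
    obtain ⟨b, -, rfl⟩ := Finset.mem_image.mp hα
    have h1 : ∃ c, (((fermatIdx n k b).1 c : ℕ) = k) := ⟨b, by rw [fermatIdx_val, if_pos rfl]⟩
    rw [a0, if_pos h1, map_one, one_mul]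

theorem ev_a0 (hk : 1 ≤ k) {B : Type*} [CommRing B] [Algebra ℂ B] (x : Fin n → B) :
    ev (fun α => algebraMap ℂ B (a0 n k α)) x = ∑ b, x b ^ k := by
  unfold ev
  rw [sum_a0 hk]
  refine Finset.sum_congr rfl fun b _ => ?_
  rw [Finset.prod_eq_single b]
  · rw [fermatIdx_val, if_pos rfl]
  · intro c _ hc
    rw [fermatIdx_val, if_neg hc, pow_zero]
  · intro h
    exact absurd (Finset.mem_univ b) h

theorem evd_a0 (hk : 1 ≤ k) {B : Type*} [CommRing B] [Algebra ℂ B] (j : Fin n) (x : Fin n → B) :
    evd j (fun α => algebraMap ℂ B (a0 n k α)) x = k * x j ^ (k - 1) := by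
  unfold evd
  rw [sum_a0 hk, Finset.sum_eq_single j]
  · rw [fermatIdx_val, if_pos rfl, Finset.prod_eq_single j]
    · rw [fermatIdx_val, if_pos rfl, if_pos rfl]
    · intro c _ hc
      rw [fermatIdx_val, if_neg hc, if_neg hc, Nat.sub_zero, pow_zero]
    · intro h
      exact absurd (Finset.mem_univ j) h
  · intro b _ hb
    rw [fermatIdx_val, if_neg hb.symm, Nat.cast_zero, zero_mul]
  · intro h
    exact absurd (Finset.mem_univ j) h



end Pool.Agent.H89T
end

-- from Lib.H89T.B5
section

set_option autoImplicit false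

/-!
CHUNK B5.  The discriminant.
-/

open MvPolynomial

namespace Pool.Agent.H89T

variable {n k r : ℕ}

/-- the coefficients of the constant polynomial `1` -/
noncomputable def B5_one (n k : ℕ) : Idx n k → ℂ :=
  open Classical in fun α => if ∀ b, ((α.1 b : ℕ) = 0) then 1 else 0

theorem B5_ev_one {B : Type*} [CommRing B] [Algebra ℂ B] (x : Fin n → B) :
    ev (fun α => algebraMap ℂ B (B5_one n k α)) x = 1 := by
  classical
  have h0 : ∑ b : Fin n, (((0 : Fin n → Fin (k + 1)) b : Fin (k + 1)) : ℕ) ≤ k := by simp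
  rw [ev, Finset.sum_eq_single (⟨0, h0⟩ : Idx n k)]
  · simp [B5_one]
  · intro α _ hα
    have h : ¬ ∀ b, ((α.1 b : ℕ) = 0) := by
      intro h
      exact hα (Subtype.ext (funext fun b => Fin.ext (h b)))
    rw [B5_one, if_neg h, map_zero, zero_mul]
  · intro h
    exact absurd (Finset.mem_univ _) h

theorem B5_evd_one {B : Type*} [CommRing B] [Algebra ℂ B] (j : Fin n) (x : Fin n → B) :
    evd j (fun α => algebraMap ℂ B (B5_one n k α)) x = 0 := by
  classical
  rw [evd]
  refine Finset.sum_eq_zero fun α _ => ?_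
  by_cases h : ∀ b, ((α.1 b : ℕ) = 0)
  · simp [h j]
  · rw [B5_one, if_neg h, map_zero, zero_mul]

theorem B5_evd_add {B : Type*} [CommRing B] (j : Fin n) (a a' : Idx n k → B) (x : Fin n → B) :
    evd j (fun α => a α + a' α) x = evd j a x + evd j a' x := by
  simp only [evd, add_mul, Finset.sum_add_distrib]

/-- the coefficients of `1 + ∑ x_b ^ k` -/
noncomputable def B5_pt (n k : ℕ) : Idx n k → ℂ := fun α => a0 n k α + B5_one n k α

theorem B5_u0 (hk : 1 ≤ k) : MvPolynomial.map (eval (B5_pt n k)) (uR (r := r) (gen n k) 0) =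
    ∑ b, X (b, 0) ^ k + 1 := by
  rw [uR_map, uR, uu_zero]
  have h : (fun α : Idx n k => (C (eval (B5_pt n k) (gen n k α)) : MvPolynomial (JV n r) ℂ)) =
      fun α => algebraMap ℂ _ (a0 n k α) + algebraMap ℂ _ (B5_one n k α) := by
    funext α
    rw [eval_X, B5_pt, C_add]
    rfl
  rw [h, ev_add, ev_a0 hk, B5_ev_one]

theorem B5_g (hk : 1 ≤ k) (j : Fin n) :
    MvPolynomial.map (eval (B5_pt n k)) (gR (r := r) j (gen n k)) =
    (k : MvPolynomial (JV n r) ℂ) * X (j, 0) ^ (k - 1) := by
  rw [gR_map, gR]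
  have h : (fun α : Idx n k => (C (eval (B5_pt n k) (gen n k α)) : MvPolynomial (JV n r) ℂ)) =
      fun α => algebraMap ℂ _ (a0 n k α) + algebraMap ℂ _ (B5_one n k α) := by
    funext α
    rw [eval_X, B5_pt, C_add]
    rfl
  rw [h, B5_evd_add, evd_a0 hk, B5_evd_one, add_zero]

theorem B5_hasMon_monomial {R : Type} [CommRing R] {d M : ℕ} {m : JV n r →₀ ℕ}
    (hd : xd m ≤ d) (hM : jd m ≤ M) (c : R) : HasMon d M (monomial m c) := by
  intro m' hm'
  have := Finset.mem_singleton.mp (support_monomial_subset hm')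
  subst this
  exact ⟨hd, hM⟩

theorem B5_xd_single (b : Fin n) (e : ℕ) :
    xd (Finsupp.single ((b, 0) : JV n r) e) = e := by
  rw [xd, Finset.sum_eq_single b]
  · simp
  · intro b' _ hb'
    rw [Finsupp.single_eq_of_ne]
    intro h
    exact hb' (congrArg Prod.fst h)
  · intro h
    exact absurd (Finset.mem_univ _) h

/-- CHUNK B5.  Some `t ≠ 0` in `ℂ[a]` belongs to the ideal generated by `F_a (x)` and its partial
derivatives.
Proof 1 (transcendence degree): let `S = ℂ[a_α (|α| ≥ 2), x_b]` and let `ψ` be the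
`ℂ`-algebra map from `ℂ[a][jets]` with `a_α ↦ a_α` for `|α| ≥ 2`,
`a_{e_b} ↦ - ∑_{|α| ≥ 2} a_α ∂_b x ^ α`, `a_0 ↦ - ∑_{α ≠ 0} a_α x ^ α` (with the images of the
`a_{e_b}` inserted), the jets ↦ themselves.  Then `ψ (F_a) = 0`, `ψ (F_b) = 0` and
`Q - ψ Q ∈ (F_a, F_b)` for all `Q` (true for the generators: `a_{e_b} - ψ a_{e_b}` is `F_b`, and
`a_0 - ψ a_0 ≡ F_a` modulo the `F_b`).  So it is enough to find `t ≠ 0` in `ℂ[a]` with `ψ t = 0`:
`ψ : ℂ[a] → S` is not injective because `ℂ[a]` has `N` variables, `S` has `N - (n + 1) + n = N - 1`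
(the image lies in the polynomials in `a_α`, `|α| ≥ 2`, and `x_b = x_{b,0}`); use the transcendence
degree or compare the dimensions of the polynomials of degree `≤ m`.
Proof 2 (determinant trick as in `exists_smul_mem`): at the point `F = 1 + ∑ x_b ^ k` every monomial
`x ^ β` of degree `≤ d := n k` is a combination `A F + ∑ B_b F_b` with `deg A ≤ d - k`,
`deg B_b ≤ d - k + 1`: if some `β_b ≥ k - 1` it is `x ^ β' F_b / k`; otherwise
`|β| ≤ n (k - 2)`, and `1 = F - ∑ x_b F_b / k`.  (`N` = the ideal, `s` = the monomials of degree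
`≤ d` without jets.) -/
theorem exists_disc (n k r : ℕ) (hn : 1 ≤ n) (hk : 2 ≤ k) : ∃ t : RR n k, t ≠ 0 ∧
    (C t : MvPolynomial (JV n r) (RR n k)) ∈
      Ideal.span ({uR (gen n k) 0} ∪ Set.range fun j : Fin n => gR j (gen n k)) := by
  classical
  set I : Ideal (MvPolynomial (JV n r) (RR n k)) :=
    Ideal.span ({uR (gen n k) 0} ∪ Set.range fun j : Fin n => gR j (gen n k)) with hI
  set κ : RR n k := C ((k : ℂ)⁻¹) with hκ
  have hkC : (k : ℂ) ≠ 0 := by
    rw [Nat.cast_ne_zero]
    omega
  have hu : uR (gen n k) 0 ∈ I := Ideal.subset_span (Or.inl rfl)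
  have hg : ∀ j : Fin n, gR j (gen n k) ∈ I := fun j => Ideal.subset_span (Or.inr ⟨j, rfl⟩)
  have hinv : (C ((k : ℂ)⁻¹) : MvPolynomial (JV n r) ℂ) * (k : MvPolynomial (JV n r) ℂ) = 1 := by
    rw [← map_natCast (C : ℂ →+* MvPolynomial (JV n r) ℂ), ← C_mul, inv_mul_cancel₀ hkC, C_1]
  obtain ⟨t, ht0, ht⟩ := exists_smul_mem (B5_pt n k) (Mon_finite n r ((n + 1) * k) 0).toFinset
    (I.restrictScalars (RR n k)) (by
      intro m hm
      rw [Set.Finite.mem_toFinset] at hm
      obtain ⟨hm1, hm2⟩ := hm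
      by_cases hb : ∃ b : Fin n, k - 1 ≤ m (b, 0)
      · obtain ⟨b, hb⟩ := hb
        have hle : Finsupp.single ((b, 0) : JV n r) (k - 1) ≤ m := by
          rwa [Finsupp.single_le_iff]
        have hsum : m - Finsupp.single ((b, 0) : JV n r) (k - 1) +
            Finsupp.single ((b, 0) : JV n r) (k - 1) = m := tsub_add_cancel_of_le hle
        have hx : xd (m - Finsupp.single ((b, 0) : JV n r) (k - 1)) + (k - 1) = xd m := by
          have h1 := xd_add (m - Finsupp.single ((b, 0) : JV n r) (k - 1))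
            (Finsupp.single ((b, 0) : JV n r) (k - 1))
          rw [hsum, B5_xd_single] at h1
          exact h1.symm
        have hj : jd (m - Finsupp.single ((b, 0) : JV n r) (k - 1)) ≤ 0 := by
          have : jd (m - Finsupp.single ((b, 0) : JV n r) (k - 1)) +
              jd (Finsupp.single ((b, 0) : JV n r) (k - 1)) = jd m := by
            rw [← jd_add, hsum]
          omega
        refine ⟨C κ * (monomial (m - Finsupp.single ((b, 0) : JV n r) (k - 1)) 1 *
          gR b (gen n k)), ?_, ?_, ?_⟩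
        · rw [Submodule.restrictScalars_mem]
          exact I.mul_mem_left _ (I.mul_mem_left _ (hg b))
        · intro m' hm'
          rw [Set.Finite.mem_toFinset]
          have h := (HasMon.C (n := n) (r := r) κ).mul
            ((B5_hasMon_monomial (R := RR n k) (le_refl
              (xd (m - Finsupp.single ((b, 0) : JV n r) (k - 1)))) hj 1).mul
              (HasMon.gR b (gen n k))) m' hm'
          exact ⟨by omega, by omega⟩
        · rw [map_mul, map_mul, B5_g (by omega), map_C, hκ, eval_C, map_monomial, map_one]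
          have e : (C ((k : ℂ)⁻¹) : MvPolynomial (JV n r) ℂ) *
              ((monomial (m - Finsupp.single ((b, 0) : JV n r) (k - 1))) 1 *
                ((k : MvPolynomial (JV n r) ℂ) * X (b, 0) ^ (k - 1))) =
              ((C ((k : ℂ)⁻¹) : MvPolynomial (JV n r) ℂ) * (k : MvPolynomial (JV n r) ℂ)) *
              ((monomial (m - Finsupp.single ((b, 0) : JV n r) (k - 1))) 1 *
                X (b, 0) ^ (k - 1)) := by ring
          rw [e, hinv, one_mul, X_pow_eq_monomial, monomial_mul, hsum, one_mul]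
      · push Not at hb
        have hxd : xd m ≤ n * (k - 2) := by
          rw [xd]
          refine (Finset.sum_le_card_nsmul _ _ (k - 2) fun b _ => ?_).trans ?_
          · have := hb b
            omega
          · simp
        have hn2 : n * (k - 2) + k ≤ (n + 1) * k := by
          have : n * (k - 2) ≤ n * k := Nat.mul_le_mul_left _ (by omega)
          rw [Nat.succ_mul]
          omega
        refine ⟨monomial m 1 * (uR (gen n k) 0 + ∑ b, C (-κ) * (X (b, 0) * gR b (gen n k))),
          ?_, ?_, ?_⟩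
        · rw [Submodule.restrictScalars_mem]
          refine I.mul_mem_left _ (I.add_mem hu (Ideal.sum_mem _ fun b _ => ?_))
          exact I.mul_mem_left _ (I.mul_mem_left _ (hg b))
        · intro m' hm'
          rw [Set.Finite.mem_toFinset]
          have h := (B5_hasMon_monomial (R := RR n k) hxd hm2 1).mul
            ((HasMon.u0 (r := r) (gen n k)).add (HasMon.sum (s := Finset.univ) (d := k) (M := 0)
              (P := fun b : Fin n => C (-κ) * (X (b, 0) * gR b (gen n k))) fun b _ =>
              ((HasMon.C (n := n) (r := r) (-κ)).mul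
              ((HasMon.X0 b).mul (HasMon.gR b (gen n k)))).mono (by omega) (by omega))) m' hm'
          exact ⟨h.1.trans hn2, h.2⟩
        · rw [map_mul, map_add, B5_u0 (by omega), map_monomial, map_one, map_sum]
          have e : ∑ b : Fin n, MvPolynomial.map (eval (B5_pt n k))
              ((C (-κ) : MvPolynomial (JV n r) (RR n k)) * (X (b, 0) * gR b (gen n k))) =
              - ∑ b : Fin n, (X (b, 0) : MvPolynomial (JV n r) ℂ) ^ k := by
            rw [← Finset.sum_neg_distrib]
            refine Finset.sum_congr rfl fun b _ => ?_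
            rw [map_mul, map_mul, B5_g (by omega), map_C, map_neg, hκ, eval_C, map_X]
            have hkk : (X (b, 0) : MvPolynomial (JV n r) ℂ) ^ k =
                X (b, 0) * X (b, 0) ^ (k - 1) := by
              rw [← pow_succ']
              congr 1
              omega
            rw [hkk, C_neg]
            have e' : - (C ((k : ℂ)⁻¹) : MvPolynomial (JV n r) ℂ) * (X (b, 0) *
                ((k : MvPolynomial (JV n r) ℂ) * X (b, 0) ^ (k - 1))) =
                - ((C ((k : ℂ)⁻¹) : MvPolynomial (JV n r) ℂ) * (k : MvPolynomial (JV n r) ℂ)) *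
                (X (b, 0) * X (b, 0) ^ (k - 1)) := by ring
            rw [e', hinv]
            ring
          rw [e]
          ring)
  refine ⟨t, ht0, ?_⟩
  have h := ht 0 (by
    rw [Set.Finite.mem_toFinset]
    exact ⟨by simp [xd], by simp [jd]⟩)
  rw [Submodule.restrictScalars_mem, smul_monomial, smul_eq_mul, mul_one] at h
  exact h

end Pool.Agent.H89T
end

-- from Lib.H89T.A2
section

set_option autoImplicit false

/-!
CHUNK A2.  Reduction modulo `(u 0, u 1)` at the Fermat point.
-/

open MvPolynomial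

namespace Pool.Agent.H89T

variable {n k r : ℕ}





theorem A2_jd_single1 (b : Fin n) {one : Fin (r + 1)} (h1 : one ≠ 0) (e : ℕ) :
    jd (Finsupp.single ((b, one) : JV n r) e) = e := by
  unfold jd
  rw [Finset.sum_eq_single (b, one)]
  · rw [if_neg h1]
    exact Finsupp.single_eq_same
  · intro p _ hp
    split_ifs with h
    · rfl
    · exact Finsupp.single_eq_of_ne hp
  · intro h
    exact absurd (Finset.mem_univ _) h



end Pool.Agent.H89T
end

-- from Lib.H89T.A5
section

set_option autoImplicit false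

/-!
CHUNK A5.  Existence of operators with property (A).
-/

open MvPolynomial

namespace Pool.Agent.H89T

variable {n k r : ℕ}



/-- the sum of multiples of distinct monomials has the obvious coefficients -/
theorem A5_coeff {R : Type} [CommRing R] {s : Set (JV n r →₀ ℕ)} [Fintype s] (p : s → R) (m : s) :
    coeff m.1 (∑ i : s, p i • monomial i.1 (1 : R)) = p m := by
  classical
  rw [coeff_sum, Finset.sum_eq_single m]
  · simp
  · intro b _ hb
    rw [coeff_smul, coeff_monomial, if_neg (fun h => hb (Subtype.ext h)), smul_zero]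
  · intro h
    exact absurd (Finset.mem_univ m) h


end Pool.Agent.H89T
end

-- from Lib.H89T.B2
section

set_option autoImplicit false

/-!
CHUNK B2.  Elimination: products.
-/

open MvPolynomial

namespace Pool.Agent.H89T

variable {n k r : ℕ} {R : Type} [CommRing R]

theorem B2_le_jd (m : JV n r →₀ ℕ) (p : JV n r) (hp : p.2 ≠ 0) : m p ≤ jd m := by
  unfold jd
  have h := Finset.single_le_sum (f := fun p : JV n r => if p.2 = 0 then 0 else m p)
    (fun _ _ => Nat.zero_le _) (Finset.mem_univ p)
  simpa [hp] using h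


theorem HasMonJ.of_zero {j : Fin n} {d : ℕ} {P : MvPolynomial (JV n r) R} (h : HasMon d 0 P) :
    HasMonJ j d 0 P := by
  intro m hm
  refine ⟨(h m hm).1, (h m hm).2, fun l hl => ?_⟩
  have h1 := B2_le_jd m (j, l) hl
  have h2 := (h m hm).2
  omega

theorem HasMonJ.mono {j : Fin n} {d M d' M' : ℕ} {P : MvPolynomial (JV n r) R}
    (h : HasMonJ j d M P) (hd : d ≤ d') (hM : M ≤ M') : HasMonJ j d' M' P := by
  intro m hm
  obtain ⟨h1, h2, h3⟩ := h m hm
  exact ⟨h1.trans hd, h2.trans hM, h3⟩

theorem HasMonJ.add {j : Fin n} {d M : ℕ} {P Q : MvPolynomial (JV n r) R} (hP : HasMonJ j d M P)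
    (hQ : HasMonJ j d M Q) : HasMonJ j d M (P + Q) := by
  classical
  intro m hm
  rcases Finset.mem_union.mp (MvPolynomial.support_add hm) with h | h
  · exact hP m h
  · exact hQ m h

theorem HasMonJ.zero {j : Fin n} {d M : ℕ} : HasMonJ j d M (0 : MvPolynomial (JV n r) R) := by
  intro m hm
  simp at hm

theorem HasMonJ.mul {j : Fin n} {d M d' M' : ℕ} {P Q : MvPolynomial (JV n r) R}
    (hP : HasMonJ j d M P) (hQ : HasMonJ j d' M' Q) : HasMonJ j (d + d') (M + M') (P * Q) := by
  classical
  intro m hm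
  obtain ⟨m1, h1, m2, h2, rfl⟩ := Finset.mem_add.mp (MvPolynomial.support_mul P Q hm)
  obtain ⟨a1, a2, a3⟩ := hP m1 h1
  obtain ⟨b1, b2, b3⟩ := hQ m2 h2
  refine ⟨?_, ?_, fun l hl => ?_⟩
  · rw [xd_add]; omega
  · rw [jd_add]; omega
  · rw [Finsupp.add_apply, a3 l hl, b3 l hl]

theorem HasMonJ.sum {ι : Type*} {s : Finset ι} {j : Fin n} {d M : ℕ}
    {P : ι → MvPolynomial (JV n r) R} (hP : ∀ i ∈ s, HasMonJ j d M (P i)) :
    HasMonJ j d M (∑ i ∈ s, P i) := by
  classical
  induction s using Finset.induction_on with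
  | empty => simpa using HasMonJ.zero
  | insert i s hi ih =>
    rw [Finset.sum_insert hi]
    exact (hP i (Finset.mem_insert_self i s)).add
      (ih fun i' hi' => hP i' (Finset.mem_insert_of_mem hi'))

theorem HasMonJ.monomial {j : Fin n} {d M : ℕ} {m : JV n r →₀ ℕ} (h1 : xd m ≤ d) (h2 : jd m ≤ M)
    (h3 : ∀ l : Fin (r + 1), l ≠ 0 → m (j, l) = 0) (c : R) :
    HasMonJ j d M (MvPolynomial.monomial m c) := by
  intro m' hm'
  have := Finset.mem_of_subset MvPolynomial.support_monomial_subset hm'
  rw [Finset.mem_singleton] at this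
  subst this
  exact ⟨h1, h2, h3⟩

theorem HasMonJ.C_mul {j : Fin n} {d M : ℕ} (c : R) {P : MvPolynomial (JV n r) R}
    (hP : HasMonJ j d M P) : HasMonJ j d M (C c * P) := by
  have h := HasMonJ.mul (HasMonJ.of_zero (j := j) (HasMon.C (n := n) (r := r) c)) hP
  simpa using h

theorem HasMonJ.pow_gR (j i : Fin n) (a : Idx n k → R) (e : ℕ) :
    HasMonJ j (e * k) 0 (gR (r := r) i a ^ e) := by
  have h := (HasMon.gR (r := r) i a).pow e
  rw [Nat.mul_zero] at h
  exact (HasMonJ.of_zero h).mono (Nat.mul_le_mul_left e (Nat.sub_le k 1)) le_rfl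

/-- the degrees of the variable of positive order -/
theorem B2_xd_single (p : JV n r) (hp : p.2 ≠ 0) : xd (Finsupp.single p 1) = 0 := by
  unfold xd
  apply Finset.sum_eq_zero
  intro b _
  rw [Finsupp.single_apply, if_neg]
  intro h
  exact hp (by rw [h])

theorem B2_jd_single (p : JV n r) (hp : p.2 ≠ 0) : jd (Finsupp.single p 1) = 1 := by
  unfold jd
  rw [Finset.sum_eq_single p]
  · simp [hp]
  · intro q _ hq
    have hpq : ¬ p = q := fun h => hq h.symm
    simp [hpq]
  · intro h
    exact absurd (Finset.mem_univ p) h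

/-- the statement for monomials -/
theorem B2_monomial {a : Idx n k → R} {j : Fin n} {C L : ℕ} (hC : 1 ≤ C)
    (hz : ∀ l : Fin (r + 1), l ≠ 0 → (l : ℕ) < L → ∃ z : MvPolynomial (JV n r) R,
      HasMonJ j (C * k) C z ∧ gR j a ^ C * X (j, l) - z ∈ I1 a) (e : ℕ) :
    ∀ m : JV n r →₀ ℕ, jd m ≤ e →
      (∀ l : Fin (r + 1), l ≠ 0 → L ≤ (l : ℕ) → m (j, l) = 0) →
      ∃ w : MvPolynomial (JV n r) R, HasMonJ j (xd m + C * e * k) (C * e) w ∧
        gR j a ^ (C * e) * monomial m 1 - w ∈ I1 a := by
  induction e with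
  | zero =>
    intro m hm _
    refine ⟨monomial m 1, HasMonJ.monomial (by omega) (by omega) (fun l hl => ?_) 1, ?_⟩
    · have := B2_le_jd m (j, l) hl
      omega
    · simp
  | succ e ih =>
    intro m hm hm'
    by_cases h : ∃ l : Fin (r + 1), l ≠ 0 ∧ m (j, l) ≠ 0
    · obtain ⟨l, hl, hml⟩ := h
      have hlL : (l : ℕ) < L := by
        by_contra hcon
        exact hml (hm' l hl (by omega))
      obtain ⟨z, hz1, hz2⟩ := hz l hl hlL
      set m' : JV n r →₀ ℕ := m - Finsupp.single (j, l) 1 with hm'def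
      have hmm : m = Finsupp.single (j, l) 1 + m' := by
        rw [hm'def, add_comm, tsub_add_cancel_of_le]
        rw [Finsupp.single_le_iff]
        omega
      have hxd : xd m = xd m' := by
        conv_lhs => rw [hmm, xd_add, B2_xd_single (j, l) hl, zero_add]
      have hjd : jd m = 1 + jd m' := by
        conv_lhs => rw [hmm, jd_add, B2_jd_single (j, l) hl]
      obtain ⟨w, hw1, hw2⟩ := ih m' (by omega) (by
        intro l' hl' hL'
        have h1 := hm' l' hl' hL'
        rw [hm'def, Finsupp.tsub_apply, h1, Nat.zero_sub])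
      refine ⟨z * w, ?_, ?_⟩
      · refine (hz1.mul hw1).mono ?_ ?_
        · rw [hxd]
          apply le_of_eq
          ring
        · apply le_of_eq
          ring
      · have hmon : (monomial m (1 : R) : MvPolynomial (JV n r) R) =
            X (j, l) * monomial m' 1 := by
          rw [hmm, X, monomial_mul, one_mul]
        have hid : gR j a ^ (C * (e + 1)) * monomial m (1 : R) - z * w =
            (gR j a ^ C * X (j, l) - z) * (gR j a ^ (C * e) * monomial m' 1) +
              z * (gR j a ^ (C * e) * monomial m' 1 - w) := by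
          rw [hmon, Nat.mul_succ, pow_add]
          ring
        rw [hid]
        exact Ideal.add_mem _ (Ideal.mul_mem_right _ _ hz2) (Ideal.mul_mem_left _ _ hw2)
    · push Not at h
      refine ⟨gR j a ^ (C * (e + 1)) * monomial m 1, ?_, by simp⟩
      have h1 := (HasMonJ.pow_gR (r := r) j j a (C * (e + 1))).mul
        (HasMonJ.monomial (j := j) (le_refl (xd m)) (le_refl (jd m)) h (1 : R))
      refine h1.mono (by omega) ?_
      calc 0 + jd m ≤ e + 1 := by omega
        _ ≤ C * (e + 1) := Nat.le_mul_of_pos_left _ hC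

/-- CHUNK B2.  Let `F_j ^ C x_{j,l} ≡ z l` modulo `(u 1, ..., u r)` for `1 ≤ l < L`.  Then
`F_j ^ (C e) P ≡ w` for every `P` of jet degree `≤ e` without the jets `x_{j,l}`, `l ≥ L`.
Proof: it is enough to treat a monomial `m` (sum over the support; `HasMonJ` is closed under sums
and multiplication by constants).  Let `E = ∑ l ≠ 0, m (j, l) ≤ jd m ≤ e`.
`F_j ^ (C e) x ^ m = F_j ^ (C (e - E)) * (coordinates and other jets of m) *
∏ l, (F_j ^ C x_{j,l}) ^ (m (j, l))`, and modulo the ideal the last factors are `z l ^ (m (j, l))`.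
Degrees: `F_j` has degrees `k - 1 ≤ k` and `0` (`HasMon.gR`), so the total coordinate degree is
`≤ d + C (e - E) k + E C k` and the jet degree `≤ (e - E) + E C ≤ C e` (`C ≥ 1`). -/
theorem eliminate {a : Idx n k → R} {j : Fin n} {C L d e : ℕ} (hC : 1 ≤ C)
    (hz : ∀ l : Fin (r + 1), l ≠ 0 → (l : ℕ) < L → ∃ z : MvPolynomial (JV n r) R,
      HasMonJ j (C * k) C z ∧ gR j a ^ C * X (j, l) - z ∈ I1 a)
    (P : MvPolynomial (JV n r) R) (hP : HasMon d e P)
    (hP' : ∀ m ∈ P.support, ∀ l : Fin (r + 1), l ≠ 0 → L ≤ (l : ℕ) → m (j, l) = 0) :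
    ∃ w : MvPolynomial (JV n r) R, HasMonJ j (d + C * e * k) (C * e) w ∧
      gR j a ^ (C * e) * P - w ∈ I1 a := by
  have hex : ∀ m : JV n r →₀ ℕ, ∃ w : MvPolynomial (JV n r) R, m ∈ P.support →
      HasMonJ j (d + C * e * k) (C * e) w ∧ gR j a ^ (C * e) * monomial m 1 - w ∈ I1 a := by
    intro m
    by_cases hm : m ∈ P.support
    · obtain ⟨w, h1, h2⟩ := B2_monomial hC hz e m (hP m hm).2 (hP' m hm)
      refine ⟨w, fun _ => ⟨h1.mono ?_ le_rfl, h2⟩⟩
      have := (hP m hm).1
      omega
    · exact ⟨0, fun h => absurd h hm⟩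
  choose w hw using hex
  refine ⟨∑ m ∈ P.support, MvPolynomial.C (P.coeff m) * w m, ?_, ?_⟩
  · exact HasMonJ.sum fun m hm => HasMonJ.C_mul _ (hw m hm).1
  · have hPs : P = ∑ m ∈ P.support, MvPolynomial.C (P.coeff m) * monomial m 1 := by
      conv_lhs => rw [P.as_sum]
      apply Finset.sum_congr rfl
      intro m _
      rw [C_mul_monomial, mul_one]
    have hid : gR j a ^ (C * e) * P - ∑ m ∈ P.support, MvPolynomial.C (P.coeff m) * w m =
        ∑ m ∈ P.support, MvPolynomial.C (P.coeff m) *
          (gR j a ^ (C * e) * monomial m 1 - w m) := by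
      have h1 : gR j a ^ (C * e) * P = ∑ m ∈ P.support,
          gR j a ^ (C * e) * (MvPolynomial.C (P.coeff m) * monomial m 1) := by
        rw [← Finset.mul_sum, ← hPs]
      rw [h1, ← Finset.sum_sub_distrib]
      apply Finset.sum_congr rfl
      intro m _
      ring
    rw [hid]
    exact Ideal.sum_mem _ fun m hm => Ideal.mul_mem_left _ _ (hw m hm).2

end Pool.Agent.H89T
end

-- from Lib.H89T.B3
section

set_option autoImplicit false

/-!
CHUNK B3.  Elimination: the induction.
-/

open MvPolynomial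

namespace Pool.Agent.H89T

variable {n k r : ℕ} {R : Type} [CommRing R]

/-- The exponents: `cB 0 = 1`, `cB (l + 1) = 1 + (l + 1) * cB l`. -/
def cB : ℕ → ℕ
  | 0 => 1
  | l + 1 => 1 + (l + 1) * cB l

theorem cB_pos (l : ℕ) : 1 ≤ cB l := by
  cases l with
  | zero => exact le_rfl
  | succ l => simp [cB]

theorem cB_succ_le (l : ℕ) : cB l ≤ cB (l + 1) := by
  simp only [cB]
  nlinarith [Nat.zero_le (l * cB l)]

theorem cB_mono {l m : ℕ} (h : l ≤ m) : cB l ≤ cB m :=
  monotone_nat_of_le_succ cB_succ_le h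

theorem HasMonJ.b3mono {j : Fin n} {d M d' M' : ℕ} {P : MvPolynomial (JV n r) R}
    (h : HasMonJ j d M P) (hd : d ≤ d') (hM : M ≤ M') : HasMonJ j d' M' P :=
  fun m hm => ⟨(h m hm).1.trans hd, (h m hm).2.1.trans hM, (h m hm).2.2⟩

theorem HasMonJ.b3mul {j : Fin n} {d M d' M' : ℕ} {P Q : MvPolynomial (JV n r) R}
    (hP : HasMonJ j d M P) (hQ : HasMonJ j d' M' Q) : HasMonJ j (d + d') (M + M') (P * Q) := by
  classical
  intro m hm
  obtain ⟨m1, h1, m2, h2, rfl⟩ := Finset.mem_add.1 (support_mul P Q hm)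
  obtain ⟨a1, a2, a3⟩ := hP m1 h1
  obtain ⟨b1, b2, b3⟩ := hQ m2 h2
  refine ⟨?_, ?_, ?_⟩
  · rw [xd_add]; omega
  · rw [jd_add]; omega
  · intro l hl
    rw [Finsupp.add_apply, a3 l hl, b3 l hl]

theorem HasMonJ.b3neg {j : Fin n} {d M : ℕ} {P : MvPolynomial (JV n r) R}
    (hP : HasMonJ j d M P) : HasMonJ j d M (-P) := by
  intro m hm
  rw [support_neg] at hm
  exact hP m hm

theorem HasMonJ.b3of_jd_zero {j : Fin n} {d : ℕ} {P : MvPolynomial (JV n r) R}
    (hP : HasMon d 0 P) : HasMonJ j d 0 P := by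
  intro m hm
  obtain ⟨h1, h2⟩ := hP m hm
  refine ⟨h1, h2, ?_⟩
  intro l hl
  have h3 : jd m = 0 := by omega
  unfold jd at h3
  have h4 := Finset.sum_eq_zero_iff.1 h3 (j, l) (Finset.mem_univ _)
  rwa [if_neg hl] at h4

theorem HasMonJ.b3gpow {j : Fin n} (a : Idx n k → R) (e : ℕ) :
    HasMonJ (r := r) j (e * k) 0 (gR j a ^ e) := by
  apply HasMonJ.b3of_jd_zero
  have h := (HasMon.gR (r := r) j a).pow e
  refine h.mono ?_ (by simp)
  exact Nat.mul_le_mul_left _ (Nat.sub_le _ _)

/-- Multiplication by powers of `F_j`. -/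
theorem b3_raise_exp {a : Idx n k → R} {j : Fin n} {C C' : ℕ} (hC : C ≤ C')
    {Y z : MvPolynomial (JV n r) R} (hz : HasMonJ j (C * k) C z)
    (h : gR j a ^ C * Y - z ∈ I1 a) :
    ∃ z' : MvPolynomial (JV n r) R, HasMonJ j (C' * k) C' z' ∧ gR j a ^ C' * Y - z' ∈ I1 a := by
  refine ⟨gR j a ^ (C' - C) * z, ?_, ?_⟩
  · have h1 := (HasMonJ.b3gpow (r := r) (j := j) a (C' - C)).b3mul hz
    refine h1.b3mono ?_ ?_
    · rw [← Nat.add_mul, Nat.sub_add_cancel hC]
    · omega
  · have h2 : gR j a ^ C' * Y - gR j a ^ (C' - C) * z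
        = gR j a ^ (C' - C) * (gR j a ^ C * Y - z) := by
      rw [mul_sub, ← mul_assoc, ← pow_add, Nat.sub_add_cancel hC]
    rw [h2]
    exact Ideal.mul_mem_left _ _ h

/-- CHUNK B3.  Proof: strong induction on `l`.  For `l ≥ 1` let `C = cB (l - 1)`; by induction
(and multiplication by powers of `F_j`, `cB` is monotone; `F_j` has degrees `≤ k`, `0`) the
hypothesis of `eliminate` holds with this `C` and `L = l`.  With `u l = F_j x_{j,l} + Q`
(`u_structure`), `eliminate` for `P = Q`, `d = k`, `e = l` gives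
`F_j ^ (C l) Q ≡ w`, hence `F_j ^ (1 + C l) x_{j,l} = F_j ^ (C l) (u l - Q) ≡ - w`; and
`cB l = 1 + l * C`, `w` has degrees `k + C l k = cB l * k` and `C l ≤ cB l`. -/
theorem eliminate_jet (a : Idx n k → R) (j : Fin n) (l : Fin (r + 1)) (hl : l ≠ 0) :
    ∃ z : MvPolynomial (JV n r) R, HasMonJ j (cB l * k) (cB l) z ∧
      gR j a ^ (cB l) * X (j, l) - z ∈ I1 a := by
  have main : ∀ (N : ℕ) (l : Fin (r + 1)), (l : ℕ) ≤ N → l ≠ 0 →
      ∃ z : MvPolynomial (JV n r) R, HasMonJ j (cB l * k) (cB l) z ∧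
        gR j a ^ (cB l) * X (j, l) - z ∈ I1 a := by
    intro N
    induction N with
    | zero =>
      intro l hlN hl
      exact absurd (Fin.ext (by simpa using hlN)) hl
    | succ N ih =>
      intro l hlN hl
      have hl0 : (l : ℕ) ≠ 0 := fun h => hl (Fin.ext (by simpa using h))
      obtain ⟨p, hp⟩ : ∃ p, (l : ℕ) = p + 1 := ⟨(l : ℕ) - 1, by omega⟩
      have hz : ∀ l' : Fin (r + 1), l' ≠ 0 → (l' : ℕ) < (l : ℕ) →
          ∃ z : MvPolynomial (JV n r) R, HasMonJ j (cB p * k) (cB p) z ∧
            gR j a ^ (cB p) * X (j, l') - z ∈ I1 a := by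
        intro l' hl' hlt
        obtain ⟨z, hz1, hz2⟩ := ih l' (by omega) hl'
        exact b3_raise_exp (cB_mono (by omega)) hz1 hz2
      obtain ⟨Q, hQ1, hQ2, hQ3⟩ := u_structure a j l hl
      obtain ⟨w, hw1, hw2⟩ := eliminate (cB_pos p) hz Q hQ2 (fun m hm l' _ hle =>
        hQ3 m hm l' (Fin.le_def.2 hle))
      refine ⟨-w, ?_, ?_⟩
      · refine HasMonJ.b3mono (HasMonJ.b3neg hw1) ?_ ?_
        · rw [hp]; simp only [cB]
          apply le_of_eq; ring
        · rw [hp]; simp only [cB]
          nlinarith [Nat.zero_le (p * cB p)]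
      · have hmem : (uR a (l : ℕ) : MvPolynomial (JV n r) R) ∈ I1 a := by
          refine Ideal.subset_span ⟨⟨p, by have := l.2; omega⟩, ?_⟩
          change uR a (p + 1) = _
          rw [hp]
        have h1 : (cB (l : ℕ)) = cB p * (l : ℕ) + 1 := by
          rw [hp]; simp only [cB]; ring
        have h2 : gR j a ^ (cB (l : ℕ)) * X (j, l) - -w
            = gR j a ^ (cB p * (l : ℕ)) * uR a (l : ℕ) - (gR j a ^ (cB p * (l : ℕ)) * Q - w) := by
          rw [h1, hQ1, pow_succ]
          ring
        rw [h2]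
        exact Ideal.sub_mem _ (Ideal.mul_mem_left _ _ hmem) hw2
  exact main l l le_rfl hl

/-- CHUNK B3.  With the same exponent `cB r` for all jets, and for all polynomials: from
`eliminate_jet` (multiply by `F_j ^ (cB r - cB l)`) and `eliminate` with `L = r + 1`. -/
theorem eliminate_all (a : Idx n k → R) (j : Fin n) {d e : ℕ} (P : MvPolynomial (JV n r) R)
    (hP : HasMon d e P) :
    ∃ w : MvPolynomial (JV n r) R, HasMonJ j (d + cB r * e * k) (cB r * e) w ∧
      gR j a ^ (cB r * e) * P - w ∈ I1 a := by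
  refine eliminate (L := r + 1) (cB_pos r) ?_ P hP ?_
  · intro l hl _
    obtain ⟨z, hz1, hz2⟩ := eliminate_jet a j l hl
    exact b3_raise_exp (cB_mono (by have := l.2; omega)) hz1 hz2
  · intro m _ l _ hle
    have := l.2
    omega

end Pool.Agent.H89T
end

-- from Lib.H89T.B4
section

set_option autoImplicit false

/-!
CHUNK B4.  Reduction modulo `u 0 = F_a (x)`.
-/

open MvPolynomial

namespace Pool.Agent.H89T

variable {n k r : ℕ} {R : Type} [CommRing R]

/-- The exponent `k e_i`. -/
def top (n k : ℕ) (i : Fin n) : Idx n k :=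
  ⟨fun b => if b = i then ⟨k, by omega⟩ else 0, by
    rw [Finset.sum_eq_single i (fun b _ hb => by simp [hb]) (fun h => absurd (Finset.mem_univ i) h)]
    simp⟩

/-- The exponent of a monomial of degree at most `k` in the coordinates. -/
noncomputable def B4_expo (r : ℕ) (α : Idx n k) : JV n r →₀ ℕ :=
  ∑ b, Finsupp.single ((b, 0) : JV n r) (α.1 b : ℕ)

theorem B4_expo_apply (α : Idx n k) (p : JV n r) :
    B4_expo r α p = if p.2 = 0 then (α.1 p.1 : ℕ) else 0 := by
  unfold B4_expo
  rw [Finsupp.finsetSum_apply, Finset.sum_eq_single p.1]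
  · rw [Finsupp.single_apply]
    by_cases h : p.2 = 0
    · rw [if_pos h, if_pos (by rw [← h])]
    · rw [if_neg h, if_neg (fun e => h (by rw [← e]))]
  · intro b _ hb
    rw [Finsupp.single_apply, if_neg (fun e => hb (by rw [← e]))]
  · intro h
    exact absurd (Finset.mem_univ _) h

theorem B4_xd_expo (α : Idx n k) : xd (B4_expo r α) ≤ k := by
  unfold xd
  refine le_trans (le_of_eq ?_) α.2
  apply Finset.sum_congr rfl
  intro b _
  rw [B4_expo_apply, if_pos rfl]

theorem B4_jd_expo (α : Idx n k) : jd (B4_expo r α) = 0 := by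
  unfold jd
  apply Finset.sum_eq_zero
  intro p _
  rw [B4_expo_apply]
  split_ifs <;> rfl

theorem B4_top_val (i b : Fin n) : (((top n k i).1 b : Fin (k + 1)) : ℕ) = if b = i then k else 0 := by
  unfold top
  split_ifs with h
  · simp [h]
  · simp [h]

theorem B4_ne_top {i : Fin n} {α : Idx n k} (h : α ≠ top n k i) : (α.1 i : ℕ) < k := by
  by_contra hcon
  apply h
  have h0 := α.2
  rw [← Finset.add_sum_erase _ _ (Finset.mem_univ i)] at h0
  have h1 : (α.1 i : ℕ) = k := by
    have := (α.1 i).2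
    omega
  have h2 : ∑ b ∈ Finset.univ.erase i, (α.1 b : ℕ) = 0 := by omega
  apply Subtype.ext
  funext b
  apply Fin.ext
  rw [B4_top_val]
  by_cases hb : b = i
  · rw [if_pos hb, hb, h1]
  · rw [if_neg hb]
    exact (Finset.sum_eq_zero_iff.mp h2) b (Finset.mem_erase.mpr ⟨hb, Finset.mem_univ b⟩)

theorem B4_u0 (a : Idx n k → R) :
    (uR a 0 : MvPolynomial (JV n r) R) = ∑ α, C (a α) * monomial (B4_expo r α) 1 := by
  unfold uR
  rw [uu_zero]
  unfold ev
  apply Finset.sum_congr rfl
  intro α _
  congr 1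
  unfold B4_expo
  rw [monomial_sum_one]
  apply Finset.prod_congr rfl
  intro b _
  rw [X_pow_eq_monomial]

theorem B4_monomial (a : Idx n k → R) (hk : 1 ≤ k) (i j : Fin n) {D M : ℕ} (e : ℕ) :
    ∀ m : JV n r →₀ ℕ, m (i, 0) ≤ e → xd m ≤ D → jd m ≤ M →
      (∀ l : Fin (r + 1), l ≠ 0 → m (j, l) = 0) →
      a (top n k i) ^ e • (monomial m (1 : R) : MvPolynomial (JV n r) R) ∈
        (Ideal.span {(uR a 0 : MvPolynomial (JV n r) R)}).restrictScalars R ⊔
          Submodule.span R ((fun m => monomial m (1 : R)) '' NormJ n r k D M i j) := by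
  induction e with
  | zero =>
    intro m h1 h2 h3 h4
    apply Submodule.smul_mem
    apply Submodule.mem_sup_right
    exact Submodule.subset_span ⟨m, ⟨h2, h3, by omega, h4⟩, rfl⟩
  | succ e ih =>
    intro m h1 h2 h3 h4
    by_cases hm : m (i, 0) < k
    · apply Submodule.smul_mem
      apply Submodule.mem_sup_right
      exact Submodule.subset_span ⟨m, ⟨h2, h3, hm, h4⟩, rfl⟩
    · have hle : Finsupp.single ((i, 0) : JV n r) k ≤ m := by
        rw [Finsupp.single_le_iff]
        omega
      set m' : JV n r →₀ ℕ := m - Finsupp.single (i, 0) k with hm'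
      have hmm : m = Finsupp.single (i, 0) k + m' := by
        rw [hm', add_comm, tsub_add_cancel_of_le hle]
      have hexp : B4_expo r (top n k i) = Finsupp.single (i, 0) k := by
        ext p
        rw [B4_expo_apply, B4_top_val, Finsupp.single_apply]
        by_cases hp : (i, 0) = p
        · rw [← hp]
          simp
        · rw [if_neg hp]
          by_cases hp2 : p.2 = 0
          · rw [if_pos hp2, if_neg (fun e => hp (Prod.ext e.symm hp2.symm))]
          · rw [if_neg hp2]
      have hxd : xd (Finsupp.single ((i, 0) : JV n r) k) = k := by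
        unfold xd
        rw [Finset.sum_eq_single i]
        · simp
        · intro b _ hb
          rw [Finsupp.single_apply, if_neg (fun e => hb (by rw [← Prod.mk.inj e |>.1]))]
        · intro h
          exact absurd (Finset.mem_univ i) h
      have hjd : jd (Finsupp.single ((i, 0) : JV n r) k) = 0 := by
        rw [← hexp, B4_jd_expo]
      have hxm : xd m = k + xd m' := by
        conv_lhs => rw [hmm, xd_add, hxd]
      have hjm : jd m = jd m' := by
        conv_lhs => rw [hmm, jd_add, hjd, zero_add]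
      have hm'0 : m (i, 0) = k + m' (i, 0) := by
        conv_lhs => rw [hmm, Finsupp.add_apply, Finsupp.single_eq_same]
      have hkey : a (top n k i) • (monomial m (1 : R) : MvPolynomial (JV n r) R) =
          uR a 0 * monomial m' 1 -
            ∑ α ∈ Finset.univ.erase (top n k i), a α • monomial (B4_expo r α + m') (1 : R) := by
        rw [B4_u0, ← Finset.add_sum_erase _ _ (Finset.mem_univ (top n k i)), add_mul,
          Finset.sum_mul, hexp]
        have h5 : C (a (top n k i)) * monomial (Finsupp.single (i, 0) k) (1 : R) *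
            monomial m' 1 = a (top n k i) • (monomial m (1 : R) : MvPolynomial (JV n r) R) := by
          rw [mul_assoc, monomial_mul, one_mul, ← hmm, smul_eq_C_mul]
        rw [h5]
        have h6 : ∑ α ∈ Finset.univ.erase (top n k i),
            C (a α) * monomial (B4_expo r α) (1 : R) * monomial m' 1 =
            ∑ α ∈ Finset.univ.erase (top n k i),
              a α • (monomial (B4_expo r α + m') (1 : R) : MvPolynomial (JV n r) R) := by
          apply Finset.sum_congr rfl
          intro α _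
          rw [mul_assoc, monomial_mul, one_mul, smul_eq_C_mul]
        rw [h6]
        ring
      rw [pow_succ, mul_smul, hkey, smul_sub, Finset.smul_sum]
      apply Submodule.sub_mem
      · apply Submodule.smul_mem
        apply Submodule.mem_sup_left
        exact Ideal.mul_mem_right _ _ (Ideal.subset_span rfl)
      · apply Submodule.sum_mem
        intro α hα
        rw [smul_comm]
        apply Submodule.smul_mem
        have hαi := B4_ne_top (Finset.ne_of_mem_erase hα)
        apply ih
        · rw [Finsupp.add_apply, B4_expo_apply, if_pos rfl]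
          show (α.1 i : ℕ) + m' (i, 0) ≤ e
          omega
        · rw [xd_add]
          have := B4_xd_expo (r := r) α
          omega
        · rw [jd_add, B4_jd_expo]
          omega
        · intro l hl
          rw [Finsupp.add_apply, B4_expo_apply, if_neg hl, zero_add, hm', Finsupp.tsub_apply,
            h4 l hl, Nat.zero_sub]

/-- CHUNK B4.  `a_{k e_i} ^ D` times a polynomial of coordinate degree `≤ D` is, modulo `u 0`, a
combination of monomials with `m (i, 0) < k`.
Proof: for a monomial `m` prove by strong induction on `m (i, 0)` that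
`a_{k e_i} ^ (m (i, 0)) • monomial m 1` belongs to the right-hand side: nothing to do for
`m (i, 0) < k` (multiply by the scalar); for `m (i, 0) ≥ k`, `m = k • single (i, 0) 1 + m'`,
`a_{k e_i} • monomial m 1 = u 0 * monomial m' 1 - ∑ α ≠ k e_i, a_α • monomial (α + m') 1`, where
`α_i ≤ k - 1` for `α ≠ k e_i` (as `∑ α_b ≤ k`), so the exponents at `(i, 0)` are smaller;
multiply by `a_{k e_i} ^ (m (i, 0) - 1)`.  The degrees: `xd (α + m') ≤ k + xd m' = xd m`. -/
theorem reduce_u0 (a : Idx n k → R) (hk : 1 ≤ k) (i j : Fin n) {D M : ℕ}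
    (w : MvPolynomial (JV n r) R) (hw : HasMonJ j D M w) :
    a (top n k i) ^ D • w ∈
      (Ideal.span {(uR a 0 : MvPolynomial (JV n r) R)}).restrictScalars R ⊔
        Submodule.span R ((fun m => monomial m (1 : R)) '' NormJ n r k D M i j) := by
  classical
  rw [w.as_sum, Finset.smul_sum]
  apply Submodule.sum_mem
  intro m hm
  obtain ⟨h1, h2, h3⟩ := hw m hm
  have h4 : (monomial m (w.coeff m) : MvPolynomial (JV n r) R) = w.coeff m • monomial m 1 := by
    rw [smul_monomial, smul_eq_mul, mul_one]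
  rw [h4, smul_comm]
  apply Submodule.smul_mem
  apply B4_monomial a hk i j D m _ h1 h2 h3
  refine le_trans ?_ h1
  unfold xd
  exact Finset.single_le_sum (f := fun b => m (b, 0)) (fun _ _ => Nat.zero_le _)
    (Finset.mem_univ i)

end Pool.Agent.H89T
end
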