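import Pool.Agent.Lib.H1M.PB.M006
import Pool.Agent.Lib.H1M.PB.M012
import Pool.Agent.Lib.H1M.PB.M014

/-! Merged copies (to shorten the build) of Lib.H89T.C10, Lib.H89T.DC, Lib.H89T.K3, Lib.H89T.K4. -/

-- from Lib.H89T.C10
section

set_option autoImplicit false

/-!
CHUNK C10.  Comparison of the nested and the flat polynomial rings, specialization.
-/

open MvPolynomial

namespace Pool.Agent.H89T

variable {n k r : ℕ}

/-- A polynomial in the jets with coefficients in `ℂ[a]` as an element of the universal ring. -/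
noncomputable def flat (P : MvPolynomial (JV n r) (RR n k)) : AA n k r :=
  (sumAlgEquiv ℂ (JV n r) (Idx n k)).symm P

/-- `flat` as a ring homomorphism. -/
noncomputable def C10_fl : MvPolynomial (JV n r) (RR n k) →+* AA n k r :=
  ((sumAlgEquiv ℂ (JV n r) (Idx n k)).symm : _ →ₐ[ℂ] _).toRingHom

theorem C10_fl_apply (P : MvPolynomial (JV n r) (RR n k)) : C10_fl P = flat P := rfl

theorem C10_flat_X (p : JV n r) : flat (X p : MvPolynomial (JV n r) (RR n k)) = xA p :=
  sumAlgEquiv_symm_X _ _ _ _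

theorem C10_flat_C_C (c : ℂ) :
    flat (C (C c) : MvPolynomial (JV n r) (RR n k)) = C c :=
  sumAlgEquiv_symm_C_C _ _ _ _

theorem C10_flat_C_X (α : Idx n k) :
    flat (C (X α) : MvPolynomial (JV n r) (RR n k)) = aA α :=
  sumAlgEquiv_symm_C_X _ _ _ _

theorem flat_mul (P Q : MvPolynomial (JV n r) (RR n k)) : flat (P * Q) = flat P * flat Q :=
  map_mul C10_fl P Q

theorem flat_add (P Q : MvPolynomial (JV n r) (RR n k)) : flat (P + Q) = flat P + flat Q :=
  map_add C10_fl P Q

theorem C10_spec_xA (a : Idx n k → ℂ) (p : JV n r) : spec a (xA p) = X p := by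
  unfold spec xA
  rw [aeval_X, Sum.elim_inl]

theorem C10_spec_aA (a : Idx n k → ℂ) (α : Idx n k) :
    spec (n := n) (r := r) a (aA α) = C (a α) := by
  unfold spec aA
  rw [aeval_X, Sum.elim_inr]


theorem flat_uR (i : ℕ) : flat (uR (r := r) (gen n k) i) = uA i := by
  have h := uu_map (C10_fl (n := n) (k := k) (r := r)) (fun α => C (gen n k α)) (fun p => X p) i
  simp only [C10_fl_apply, C10_flat_X, gen, C10_flat_C_X] at h
  exact h

theorem C10_NN_X (R : Type*) [CommRing R] (p : JV n r) : NN n r R (X p) =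
    if h : (p.2 : ℕ) < r then ((p.2 : ℕ) + 1) • X (p.1, ⟨(p.2 : ℕ) + 1, by omega⟩) else 0 := by
  unfold NN
  rw [mkDerivation_X]

theorem C10_NA_xA (p : JV n r) :
    NA n k r (xA p) = if h : (p.2 : ℕ) < r then
      ((p.2 : ℕ) + 1) • xA (p.1, ⟨(p.2 : ℕ) + 1, by omega⟩) else 0 := by
  unfold NA xA
  rw [mkDerivation_X, Sum.elim_inl]

theorem C10_NA_aA (α : Idx n k) : NA n k r (aA α) = 0 := by
  unfold NA aA
  rw [mkDerivation_X, Sum.elim_inr]

theorem C10_flat_NN_X (p : JV n r) :
    flat (NN n r (RR n k) (X p)) = NA n k r (flat (X p)) := by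
  rw [C10_NN_X, C10_flat_X, C10_NA_xA]
  split_ifs with h
  · rw [nsmul_eq_mul, nsmul_eq_mul, flat_mul, C10_flat_X]
    congr 1
    rw [← C10_fl_apply, map_natCast]
  · rw [← C10_fl_apply, map_zero]

theorem flat_NN (P : MvPolynomial (JV n r) (RR n k)) :
    flat (NN n r (RR n k) P) = NA n k r (flat P) := by
  induction P using MvPolynomial.induction_on with
  | C q =>
    have h0 : NN n r (RR n k) (C q) = 0 := by
      rw [← algebraMap_eq]
      exact Derivation.map_algebraMap _ _
    rw [h0, ← C10_fl_apply, map_zero]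
    symm
    induction q using MvPolynomial.induction_on with
    | C c =>
      rw [C10_flat_C_C]
      exact Derivation.map_algebraMap _ _
    | add p q hp hq =>
      have hp' := hp (by rw [← algebraMap_eq]; exact Derivation.map_algebraMap _ _)
      have hq' := hq (by rw [← algebraMap_eq]; exact Derivation.map_algebraMap _ _)
      rw [map_add, flat_add, map_add, hp', hq', add_zero]
    | mul_X p α hp =>
      have hp' := hp (by rw [← algebraMap_eq]; exact Derivation.map_algebraMap _ _)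
      rw [map_mul, flat_mul, Derivation.leibniz, hp', C10_flat_C_X, C10_NA_aA]
      simp
  | add p q hp hq => rw [map_add, flat_add, hp, hq, flat_add, map_add]
  | mul_X p i hp =>
    rw [Derivation.leibniz, flat_mul, Derivation.leibniz, flat_add, smul_eq_mul, smul_eq_mul,
      flat_mul, flat_mul, hp, C10_flat_NN_X, smul_eq_mul, smul_eq_mul]

theorem C10_flat_C (q : RR n k) :
    flat (C q : MvPolynomial (JV n r) (RR n k)) = rename Sum.inr q := by
  induction q using MvPolynomial.induction_on with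
  | C c => rw [C10_flat_C_C, rename_C]
  | add p q hp hq => rw [map_add, flat_add, hp, hq, map_add]
  | mul_X p α hp => rw [map_mul, flat_mul, hp, C10_flat_C_X, map_mul, rename_X]; rfl

theorem C10_flat_support (P : MvPolynomial (JV n r) (RR n k)) (m : JV n r ⊕ Idx n k →₀ ℕ)
    (hm : m ∈ (flat P).support) : ∃ m' ∈ P.support, ∀ p : JV n r, m (Sum.inl p) = m' p := by
  classical
  have h1 : flat P = ∑ m' ∈ P.support, flat (monomial m' (P.coeff m')) := by
    simp only [← C10_fl_apply]
    rw [← map_sum, ← P.as_sum]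
  rw [h1] at hm
  have h2 := support_sum hm
  obtain ⟨m', hm', h3⟩ := Finset.mem_biUnion.1 h2
  refine ⟨m', hm', fun p => ?_⟩
  have h4 : flat (monomial m' (P.coeff m')) =
      rename Sum.inr (P.coeff m') * ∏ p : JV n r, xA p ^ (m' p) := by
    rw [monomial_eq, flat_mul, C10_flat_C]
    congr 1
    rw [← C10_fl_apply, Finsupp.prod_fintype _ _ (fun _ => pow_zero _), map_prod]
    refine Finset.prod_congr rfl fun p _ => ?_
    rw [map_pow, C10_fl_apply, C10_flat_X]
  have h5 : (∏ p : JV n r, xA p ^ (m' p) : AA n k r) =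
      monomial (m'.mapDomain Sum.inl) 1 := by
    rw [monomial_eq, map_one, one_mul, Finsupp.prod_mapDomain_index_inj Sum.inl_injective,
      Finsupp.prod_fintype _ _ (fun _ => pow_zero _)]
    rfl
  rw [h4, h5] at h3
  obtain ⟨u, hu, v, hv, rfl⟩ := Finset.mem_add.mp (support_mul _ _ h3)
  have hv' := Finset.mem_singleton.mp (support_monomial_subset hv)
  subst hv'
  rw [support_rename_of_injective Sum.inr_injective] at hu
  obtain ⟨w, hw, rfl⟩ := Finset.mem_image.1 hu
  rw [Finsupp.add_apply, Finsupp.mapDomain_apply Sum.inl_injective,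
    Finsupp.mapDomain_of_notMem_range _ _ (by simp), zero_add]

theorem flat_HasMon {d M : ℕ} {P : MvPolynomial (JV n r) (RR n k)} (hP : HasMon d M P) :
    JdA M (flat P) ∧ WtA (d + (r + 1) * M) (flat P) := by
  constructor
  · intro m hm
    obtain ⟨m', hm', h⟩ := C10_flat_support P m hm
    simp only [h]
    exact (hP m' hm').2
  · intro m hm
    obtain ⟨m', hm', h⟩ := C10_flat_support P m hm
    simp only [h]
    obtain ⟨h1, h2⟩ := hP m' hm'
    have h3 := wt_le m'
    have h4 : (r + 1) * jd m' ≤ (r + 1) * M := Nat.mul_le_mul_left _ h2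
    change wt m' ≤ _
    omega

theorem C10_map_iterate (P : MvPolynomial (JV n r) (RR n k)) (l : ℕ) :
    flat ((NN n r (RR n k))^[l] P) = (NA n k r)^[l] (flat P) := by
  induction l with
  | zero => rfl
  | succ l ih => rw [Function.iterate_succ_apply', Function.iterate_succ_apply', flat_NN, ih]

theorem flat_PropA {q : ℕ} {P : MvPolynomial (JV n r) (RR n k)} (hP : PropA (gen n k) q P) :
    PropAA q (flat P) := by
  intro l hl
  obtain ⟨u, v, huv⟩ := Ideal.mem_span_pair.1 (hP l hl)
  rw [← C10_map_iterate, ← huv, flat_add, flat_mul, flat_mul, flat_uR, flat_uR]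
  exact Ideal.mem_span_pair.2 ⟨_, _, rfl⟩

theorem flat_PropB {P : MvPolynomial (JV n r) (RR n k)} (hP : PropB (gen n k) P) :
    PropBA (flat P) := by
  have h := Ideal.mem_map_of_mem (C10_fl (n := n) (k := k) (r := r)) hP
  rw [Ideal.map_span, ← Set.range_comp] at h
  have h2 : (C10_fl ∘ fun i : Fin (r + 1) => uR (r := r) (gen n k) (i : ℕ)) =
      fun i : Fin (r + 1) => (uA (i : ℕ) : AA n k r) := by
    funext i
    exact flat_uR _
  rw [h2] at h
  exact h

theorem spec_uA (a : Idx n k → ℂ) (i : ℕ) : spec (r := r) a (uA i) = uR a i := by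
  have h := uu_map (spec (r := r) a).toRingHom (aA (n := n) (k := k)) xA i
  have h1 : ∀ x, (spec (r := r) a).toRingHom x = spec a x := fun _ => rfl
  simp only [h1, C10_spec_aA, C10_spec_xA] at h
  exact h

theorem C10_spec_NA_X (a : Idx n k → ℂ) (s : JV n r ⊕ Idx n k) :
    spec a (NA n k r (X s)) = NN n r ℂ (spec a (X s)) := by
  cases s with
  | inl p =>
    change spec a (NA n k r (xA p)) = NN n r ℂ (spec a (xA p))
    rw [C10_NA_xA, C10_spec_xA, C10_NN_X]
    split_ifs with h
    · rw [nsmul_eq_mul, nsmul_eq_mul, map_mul, C10_spec_xA, map_natCast]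
    · exact map_zero _
  | inr α =>
    change spec a (NA n k r (aA α)) = NN n r ℂ (spec a (aA α))
    rw [C10_NA_aA, C10_spec_aA, map_zero, ← algebraMap_eq, Derivation.map_algebraMap]

theorem spec_NA (a : Idx n k → ℂ) (P : AA n k r) : spec a (NA n k r P) = NN n r ℂ (spec a P) := by
  induction P using MvPolynomial.induction_on with
  | C c =>
    have h1 : NA n k r (C c) = 0 := Derivation.map_algebraMap _ _
    have h2 : spec (r := r) a (C c) = C c := (spec a).commutes c
    rw [h1, h2, map_zero, ← algebraMap_eq, Derivation.map_algebraMap]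
  | add p q hp hq => rw [map_add, map_add, map_add, map_add, hp, hq]
  | mul_X p s hp =>
    rw [Derivation.leibniz, map_add, smul_eq_mul, smul_eq_mul, map_mul, map_mul, C10_spec_NA_X, hp,
      map_mul, Derivation.leibniz, smul_eq_mul, smul_eq_mul]

theorem C10_spec_iterate (a : Idx n k → ℂ) (P : AA n k r) (l : ℕ) :
    spec a ((NA n k r)^[l] P) = (NN n r ℂ)^[l] (spec a P) := by
  induction l with
  | zero => rfl
  | succ l ih => rw [Function.iterate_succ_apply', Function.iterate_succ_apply', spec_NA, ih]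

theorem spec_PropAA {q : ℕ} (a : Idx n k → ℂ) {P : AA n k r} (hP : PropAA q P) :
    PropA a q (spec a P) := by
  intro l hl
  obtain ⟨u, v, huv⟩ := Ideal.mem_span_pair.1 (hP l hl)
  rw [← C10_spec_iterate, ← huv, map_add, map_mul, map_mul, spec_uA, spec_uA]
  exact Ideal.mem_span_pair.2 ⟨_, _, rfl⟩

theorem spec_PropBA (a : Idx n k → ℂ) {P : AA n k r} (hP : PropBA P) : PropB a (spec a P) := by
  have h := Ideal.mem_map_of_mem (spec (n := n) (r := r) a).toRingHom hP
  rw [Ideal.map_span, ← Set.range_comp] at h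
  have h2 : ((spec (n := n) (r := r) a).toRingHom ∘ fun i : Fin (r + 1) => uA (i : ℕ)) =
      fun i : Fin (r + 1) => (uR a (i : ℕ) : MvPolynomial (JV n r) ℂ) := by
    funext i
    exact spec_uA a _
  rw [h2] at h
  exact h

theorem C10_spec_monomial (a : Idx n k → ℂ) (m : JV n r ⊕ Idx n k →₀ ℕ) (c : ℂ) :
    spec a (monomial m c) = monomial (Finsupp.equivFunOnFinite.symm fun p => m (Sum.inl p))
      (c * ∏ α, a α ^ (m (Sum.inr α))) := by
  unfold spec
  rw [aeval_monomial, Finsupp.prod_fintype _ _ (fun _ => pow_zero _), Fintype.prod_sum_type,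
    monomial_eq, Finsupp.prod_fintype _ _ (fun _ => pow_zero _)]
  simp only [Sum.elim_inl, Sum.elim_inr, algebraMap_eq, Finsupp.equivFunOnFinite_symm_apply_apply,
    map_mul, map_prod, map_pow]
  ring

theorem spec_WtA {d : ℕ} (a : Idx n k → ℂ) {P : AA n k r} (hP : WtA d P) :
    HasWt d (spec a P) := by
  classical
  intro m hm
  have h1 : spec a P = ∑ m' ∈ P.support, spec a (monomial m' (P.coeff m')) := by
    rw [← map_sum, ← P.as_sum]
  rw [h1] at hm
  obtain ⟨m', hm', h3⟩ := Finset.mem_biUnion.1 (support_sum hm)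
  rw [C10_spec_monomial] at h3
  have h4 := Finset.mem_singleton.mp (support_monomial_subset h3)
  subst h4
  exact hP m' hm'

theorem evA_eq (a : Idx n k → ℂ) (ξ : JV n r → ℂ) (P : AA n k r) :
    evA a ξ P = eval ξ (spec a P) := by
  have h : evA a ξ = ((aeval ξ : MvPolynomial (JV n r) ℂ →ₐ[ℂ] ℂ)).comp (spec a) := by
    apply MvPolynomial.algHom_ext
    intro s
    unfold evA spec
    rw [AlgHom.comp_apply, aeval_X, aeval_X]
    cases s with
    | inl p => simp
    | inr α => simp [← algebraMap_eq]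
  rw [h, AlgHom.comp_apply]
  rfl

/-- The variables `x_{b,0}` and `a_α`: `true` for the jets of order `≥ 1`. -/
def isJet (s : JV n r ⊕ Idx n k) : Prop := ∃ p : JV n r, s = Sum.inl p ∧ p.2 ≠ 0

/-- The coefficient (a polynomial in the coordinates and in `a`) of the jet part of the monomial `e`
in a polynomial `P`. -/
noncomputable def jetCoeff (P : AA n k r) (e : JV n r ⊕ Idx n k →₀ ℕ) :
    MvPolynomial (Fin n ⊕ Idx n k) ℂ :=
  open Classical in
  ∑ m ∈ P.support, if (∀ p : JV n r, p.2 ≠ 0 → m (Sum.inl p) = e (Sum.inl p)) then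
    monomial (Finsupp.equivFunOnFinite.symm
      (Sum.elim (fun b => m (Sum.inl (b, 0))) fun α => m (Sum.inr α))) (P.coeff m) else 0

/-- CHUNK C10.  If the coefficient of `e` in `P` is not `0`, neither is `jetCoeff P e`. -/
theorem jetCoeff_ne_zero (P : AA n k r) (e : JV n r ⊕ Idx n k →₀ ℕ) (he : P.coeff e ≠ 0) :
    jetCoeff P e ≠ 0 := by
  classical
  intro h0
  have h1 : (jetCoeff P e).coeff (Finsupp.equivFunOnFinite.symm
      (Sum.elim (fun b => e (Sum.inl (b, 0))) fun α => e (Sum.inr α))) = P.coeff e := by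
    unfold jetCoeff
    rw [coeff_sum, Finset.sum_eq_single e]
    · rw [if_pos (fun _ _ => rfl), coeff_monomial, if_pos rfl]
    · intro m _ hm
      split_ifs with h
      · rw [coeff_monomial, if_neg]
        intro h2
        apply hm
        have h3 := Finsupp.equivFunOnFinite.symm.injective h2
        ext s
        rcases s with p | α
        · by_cases hp : p.2 = 0
          · have h4 := congrFun h3 (Sum.inl p.1)
            simp only [Sum.elim_inl] at h4
            have h5 : p = (p.1, 0) := by rw [← hp]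
            rw [h5]
            exact h4
          · exact h p hp
        · exact congrFun h3 (Sum.inr α)
      · rw [coeff_zero]
    · intro h
      rw [notMem_support_iff.1 h]
      simp
  rw [h0, coeff_zero] at h1
  exact he h1.symm

theorem C10_isJet_inl (p : JV n r) : isJet (k := k) (Sum.inl p) ↔ p.2 ≠ 0 := by
  unfold isJet
  constructor
  · rintro ⟨q, hq, h⟩
    rwa [Sum.inl_injective hq]
  · intro h
    exact ⟨p, rfl, h⟩

theorem C10_isJet_inr (α : Idx n k) : ¬ isJet (r := r) (Sum.inr α) := by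
  rintro ⟨q, hq, h⟩
  cases hq

/-- The jet part of a monomial. -/
noncomputable def C10_jp (m : JV n r ⊕ Idx n k →₀ ℕ) : JV n r ⊕ Idx n k →₀ ℕ :=
  Finsupp.equivFunOnFinite.symm (Sum.elim (fun p => if p.2 = 0 then 0 else m (Sum.inl p))
    fun _ => 0)

theorem C10_jp_eq_iff (m e : JV n r ⊕ Idx n k →₀ ℕ) :
    C10_jp m = C10_jp e ↔ ∀ p : JV n r, p.2 ≠ 0 → m (Sum.inl p) = e (Sum.inl p) := by
  unfold C10_jp
  constructor
  · intro h p hp
    have h1 := congrFun (Finsupp.equivFunOnFinite.symm.injective h) (Sum.inl p)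
    simpa [hp] using h1
  · intro h
    congr 2
    funext p
    split_ifs with hp
    · rfl
    · exact h p hp

theorem C10_prod_split {B : Type} [CommRing B] (f g : JV n r → B) :
    (∏ p : JV n r, if p.2 = 0 then g p else f p) =
      (∏ p : JV n r, if p.2 = 0 then 1 else f p) * ∏ b : Fin n, g (b, 0) := by
  have h1 : ∏ b : Fin n, g (b, 0) = ∏ p : JV n r, if p.2 = 0 then g p else 1 := by
    rw [Fintype.prod_prod_type]
    refine Finset.prod_congr rfl fun b _ => ?_
    rw [Finset.prod_eq_single 0]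
    · simp
    · intro l _ hl
      simp [hl]
    · intro h
      exact absurd (Finset.mem_univ _) h
  rw [h1, ← Finset.prod_mul_distrib]
  refine Finset.prod_congr rfl fun p _ => ?_
  split_ifs <;> simp

theorem C10_restrict_monomial (a : Idx n k → ℂ) (ξ : JV n r → ℂ)
    (m : JV n r ⊕ Idx n k →₀ ℕ) (c : ℂ) :
    aeval (fun s => open Classical in if isJet s then X s else
        C (Sum.elim ξ a s) : JV n r ⊕ Idx n k → AA n k r) (monomial m c) =
      monomial (C10_jp m) (c * ((∏ b, ξ (b, 0) ^ (m (Sum.inl (b, 0)))) *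
        ∏ α, a α ^ (m (Sum.inr α)))) := by
  classical
  rw [aeval_monomial, Finsupp.prod_fintype _ _ (fun _ => pow_zero _), Fintype.prod_sum_type,
    monomial_eq, Finsupp.prod_fintype _ _ (fun _ => pow_zero _), Fintype.prod_sum_type]
  have h1 : ∀ p : JV n r, ((if isJet (k := k) (Sum.inl p) then X (Sum.inl p) else
      C (Sum.elim ξ a (Sum.inl p)) : AA n k r)) ^ (m (Sum.inl p)) =
      if p.2 = 0 then C (ξ p) ^ (m (Sum.inl p)) else X (Sum.inl p) ^ (m (Sum.inl p)) := by
    intro p
    by_cases hp : p.2 = 0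
    · rw [if_neg (by rw [C10_isJet_inl]; simpa using hp), if_pos hp, Sum.elim_inl]
    · rw [if_pos ((C10_isJet_inl p).2 hp), if_neg hp]
  have h2 : ∀ α : Idx n k, ((if isJet (r := r) (Sum.inr α) then X (Sum.inr α) else
      C (Sum.elim ξ a (Sum.inr α)) : AA n k r)) ^ (m (Sum.inr α)) =
      C (a α ^ (m (Sum.inr α))) := by
    intro α
    rw [if_neg (C10_isJet_inr α), Sum.elim_inr, map_pow]
  simp only [h1, h2]
  rw [C10_prod_split (fun p : JV n r => (X (Sum.inl p) ^ (m (Sum.inl p)) : AA n k r))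
    (fun p : JV n r => (C (ξ p) ^ (m (Sum.inl p)) : AA n k r))]
  have h3 : ∀ p : JV n r, (X (Sum.inl p) : AA n k r) ^ (C10_jp m (Sum.inl p)) =
      if p.2 = 0 then 1 else X (Sum.inl p) ^ (m (Sum.inl p)) := by
    intro p
    unfold C10_jp
    rw [Finsupp.equivFunOnFinite_symm_apply_apply, Sum.elim_inl]
    split_ifs
    · exact pow_zero _
    · rfl
  have h4 : ∀ α : Idx n k, (X (Sum.inr α) : AA n k r) ^ (C10_jp m (Sum.inr α)) = 1 := by
    intro α
    unfold C10_jp
    rw [Finsupp.equivFunOnFinite_symm_apply_apply, Sum.elim_inr, pow_zero]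
  simp only [h3, h4, Finset.prod_const_one, mul_one, map_mul, map_prod, map_pow, algebraMap_eq]
  ring

/-- CHUNK C10.  If `jetCoeff P e` does not vanish at `(ξ_0, a)` then the restriction of `P` to
`x = ξ_0`, `a = a` is not `0`: its coefficient at the jet part of `e` is this value. -/
theorem restrict_ne_zero (a : Idx n k → ℂ) (P : AA n k r) (e : JV n r ⊕ Idx n k →₀ ℕ)
    (ξ : JV n r → ℂ)
    (h : eval (Sum.elim (fun b => ξ (b, 0)) a) (jetCoeff P e) ≠ 0) :
    aeval (fun s => open Classical in if isJet s then X s else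
        C (Sum.elim ξ a s) : JV n r ⊕ Idx n k → AA n k r) P ≠ 0 := by
  classical
  intro h0
  apply h
  have h1 : (aeval (fun s => if isJet s then X s else
      C (Sum.elim ξ a s) : JV n r ⊕ Idx n k → AA n k r) P).coeff (C10_jp e) =
      eval (Sum.elim (fun b => ξ (b, 0)) a) (jetCoeff P e) := by
    have h2 : aeval (fun s => if isJet s then X s else
        C (Sum.elim ξ a s) : JV n r ⊕ Idx n k → AA n k r) P = ∑ m ∈ P.support,
        monomial (C10_jp m) (P.coeff m * ((∏ b, ξ (b, 0) ^ (m (Sum.inl (b, 0)))) *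
        ∏ α, a α ^ (m (Sum.inr α)))) := by
      conv_lhs => rw [P.as_sum]
      rw [map_sum]
      exact Finset.sum_congr rfl fun m _ => C10_restrict_monomial a ξ m _
    rw [h2, coeff_sum]
    unfold jetCoeff
    rw [map_sum]
    refine Finset.sum_congr rfl fun m _ => ?_
    rw [coeff_monomial]
    by_cases hm : C10_jp m = C10_jp e
    · rw [if_pos hm, if_pos ((C10_jp_eq_iff m e).1 hm), eval_monomial,
        Finsupp.prod_fintype _ _ (fun _ => pow_zero _), Fintype.prod_sum_type]
      simp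
    · rw [if_neg hm, if_neg (fun h => hm ((C10_jp_eq_iff m e).2 h)), map_zero]
  rw [← h1]
  have h3 := congrArg (fun Q : AA n k r => Q.coeff (C10_jp e)) h0
  simp only [coeff_zero] at h3
  convert h3

end Pool.Agent.H89T
end

-- from Lib.H89T.DC
section

set_option autoImplicit false

/-!
CHUNK DC (Part D).  The functions `eta` and `QQ`.
-/

open MvPolynomial Filter Topology

namespace Pool.Agent.H89T

open Pool.Agent.H67T

theorem diff_deriv {f : ℂ → ℂ} (hf : Differentiable ℂ f) : Differentiable ℂ (deriv f) :=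
  fun z => ((hf.analyticAt z).deriv).differentiableAt

theorem eta_diff {n : ℕ} {y : ℂ → Fin (n + 1) → ℂ} (hy : ∀ j, Differentiable ℂ fun z => y z j)
    (c : Fin (n + 1)) (b : Fin n) (l : ℕ) : Differentiable ℂ (eta y c b l) := by
  induction l with
  | zero => exact hy (c.succAbove b)
  | succ l ih =>
    have h1 := diff_deriv ih
    have h2 := diff_deriv (hy c)
    have h3 := hy c
    unfold eta
    exact ((h1.mul h3).sub ((ih.const_mul _).mul h2)).div_const _

/-- The Taylor coefficients of the affine coordinates.  Induction on `l`, on the open set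
`y z c ≠ 0` (`Filter.EventuallyEq.deriv_eq`, `iteratedDeriv_succ`). -/
theorem iteratedDeriv_ch {n : ℕ} {y : ℂ → Fin (n + 1) → ℂ}
    (hy : ∀ j, Differentiable ℂ fun z => y z j) (c : Fin (n + 1)) (b : Fin n) (l : ℕ) {z : ℂ}
    (hz : y z c ≠ 0) :
    iteratedDeriv l (fun w => ch c y w b) z / (l.factorial : ℂ) =
      eta y c b l z / y z c ^ (l + 1) := by
  induction l generalizing z with
  | zero =>
    simp [eta, ch]
  | succ l ih =>
    have hev : ∀ᶠ w in 𝓝 z, y w c ≠ 0 := (hy c).continuous.continuousAt.eventually_ne hz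
    have h1 : iteratedDeriv l (fun w => ch c y w b) =ᶠ[𝓝 z]
        fun w => (l.factorial : ℂ) * (eta y c b l w / y w c ^ (l + 1)) := by
      filter_upwards [hev] with w hw
      rw [← ih hw]
      have : (l.factorial : ℂ) ≠ 0 := by exact_mod_cast l.factorial_ne_zero
      field_simp
    have hd1 : HasDerivAt (eta y c b l) (deriv (eta y c b l) z) z :=
      (eta_diff hy c b l z).hasDerivAt
    have hd2 : HasDerivAt (fun w => y w c) (deriv (fun w => y w c) z) z := (hy c z).hasDerivAt
    have hd3 := (hd2.pow (l + 1))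
    have hpow : y z c ^ (l + 1) ≠ 0 := pow_ne_zero _ hz
    have hd4 := (hd1.div hd3 hpow).const_mul (l.factorial : ℂ)
    rw [iteratedDeriv_succ, h1.deriv_eq]
    have hd5 : deriv (fun w => (l.factorial : ℂ) * (eta y c b l w / y w c ^ (l + 1))) z = _ :=
      hd4.deriv
    simp only [Pi.pow_apply] at hd5
    rw [hd5]
    have hf : (l.factorial : ℂ) ≠ 0 := by exact_mod_cast l.factorial_ne_zero
    have hl : ((l : ℂ) + 1) ≠ 0 := by exact_mod_cast Nat.succ_ne_zero l
    have hfs : ((l + 1).factorial : ℂ) = ((l : ℂ) + 1) * (l.factorial : ℂ) := by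
      rw [Nat.factorial_succ]; push_cast; ring
    rw [hfs]
    simp only [eta]
    rw [Nat.add_sub_cancel]
    push_cast
    field_simp
    ring

theorem QQ_diff {n r : ℕ} {y : ℂ → Fin (n + 1) → ℂ} (hy : ∀ j, Differentiable ℂ fun z => y z j)
    (c : Fin (n + 1)) (M : ℕ) (P : MvPolynomial (JV n r) ℂ) : Differentiable ℂ (QQ y c M P) := by
  unfold QQ
  refine Differentiable.fun_sum fun m _ => ?_
  refine (((hy c).pow _).const_mul _).mul ?_
  exact Differentiable.fun_finsetProd fun p _ => (eta_diff hy c p.1 p.2).pow _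

/-- `QQ = y_c ^ M * P (jet)`. -/
theorem QQ_eq {n r : ℕ} {y : ℂ → Fin (n + 1) → ℂ} (hy : ∀ j, Differentiable ℂ fun z => y z j)
    (c : Fin (n + 1)) {M : ℕ} {P : MvPolynomial (JV n r) ℂ} (hP : HasWt M P) {z : ℂ}
    (hz : y z c ≠ 0) : QQ y c M P z = y z c ^ M * eval (jetf r (ch c y) z) P := by
  unfold QQ
  rw [eval_eq', Finset.mul_sum]
  refine Finset.sum_congr rfl fun m hm => ?_
  have h1 : ∏ p : JV n r, jetf r (ch c y) z p ^ m p =
      (∏ p : JV n r, eta y c p.1 (p.2 : ℕ) z ^ m p) / y z c ^ wt m := by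
    unfold wt
    rw [← Finset.prod_pow_eq_pow_sum, ← Finset.prod_div_distrib]
    refine Finset.prod_congr rfl fun p _ => ?_
    unfold jetf
    rw [iteratedDeriv_ch hy c p.1 p.2 hz, div_pow, ← pow_mul]
  rw [h1]
  have h2 : y z c ^ M = y z c ^ (M - wt m) * y z c ^ wt m := by
    rw [← pow_add, Nat.sub_add_cancel (hP m hm)]
  rw [h2]
  have h3 : y z c ^ wt m ≠ 0 := pow_ne_zero _ hz
  field_simp

/-- The affine coordinates are analytic where `y_c ≠ 0`. -/
theorem analyticAt_ch {n : ℕ} {y : ℂ → Fin (n + 1) → ℂ} (hy : ∀ j, Differentiable ℂ fun z => y z j)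
    (c : Fin (n + 1)) {z : ℂ} (hz : y z c ≠ 0) (b : Fin n) :
    AnalyticAt ℂ (fun w => ch c y w b) z := by
  unfold ch
  exact ((hy (c.succAbove b)).analyticAt z).div ((hy c).analyticAt z) hz


/-- An entire function which is not identically zero has no zeros in a punctured neighbourhood
of `0`. -/
theorem eventually_ne_of_entire {f : ℂ → ℂ} (hf : Differentiable ℂ f) (h : ∃ z, f z ≠ 0) :
    ∀ᶠ z in 𝓝[≠] (0 : ℂ), f z ≠ 0 := by
  rcases (hf.analyticAt 0).eventually_eq_zero_or_eventually_ne_zero with h0 | h0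
  · exfalso
    obtain ⟨z, hz⟩ := h
    have h1 : AnalyticOnNhd ℂ f Set.univ := fun w _ => hf.analyticAt w
    exact hz (h1.eqOn_zero_of_preconnected_of_eventuallyEq_zero isPreconnected_univ
      (Set.mem_univ 0) h0 (Set.mem_univ z))
  · exact h0


end Pool.Agent.H89T
end

-- from Lib.H89T.K3
section

set_option autoImplicit false

/-!
CHUNK K3.  The choice of the parameters in part A.
-/

namespace Pool.Agent.H89T

/-- One step for the binomial coefficients. -/
theorem K3_step (N M : ℕ) : (((M + 1 + N).choose N : ℕ) : ℝ) =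
    (1 + (N : ℝ) / (M + 1)) * ((M + N).choose N : ℝ) := by
  have h := Nat.add_one_mul_choose_eq (M + N) M
  have h1 : (M + N).choose M = (M + N).choose N := by
    rw [← Nat.choose_symm (show N ≤ M + N by omega)]
    congr 1
    omega
  have h2 : (M + N + 1).choose (M + 1) = (M + 1 + N).choose N := by
    rw [← Nat.choose_symm (show N ≤ M + 1 + N by omega)]
    congr 1 <;> omega
  rw [h1, h2] at h
  have h3 : ((M : ℝ) + N + 1) * ((M + N).choose N : ℝ) =
      ((M + 1 + N).choose N : ℝ) * ((M : ℝ) + 1) := by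
    have := congrArg (fun t : ℕ => (t : ℝ)) h
    push_cast at this
    exact this
  have h4 : (0 : ℝ) < (M : ℝ) + 1 := by positivity
  field_simp
  linarith

theorem K3_pow (N M l : ℕ) : (((M + l + N).choose N : ℕ) : ℝ) ≤
    (1 + (N : ℝ) / (M + 1)) ^ l * ((M + N).choose N : ℝ) := by
  induction l with
  | zero => simp
  | succ l ih =>
    have h := K3_step N (M + l)
    rw [show M + (l + 1) + N = M + l + 1 + N by ring, h, pow_succ]
    have h1 : (1 + (N : ℝ) / (((M + l : ℕ) : ℝ) + 1)) ≤ 1 + (N : ℝ) / (M + 1) := by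
      have : (N : ℝ) / (((M + l : ℕ) : ℝ) + 1) ≤ (N : ℝ) / (M + 1) := by
        apply div_le_div_of_nonneg_left (by positivity) (by positivity)
        push_cast
        have : (0 : ℝ) ≤ (l : ℝ) := by positivity
        linarith
      linarith
    calc (1 + (N : ℝ) / (((M + l : ℕ) : ℝ) + 1)) * ((M + l + N).choose N : ℝ)
        ≤ (1 + (N : ℝ) / (M + 1)) * ((1 + (N : ℝ) / (M + 1)) ^ l * ((M + N).choose N : ℝ)) := by
          apply mul_le_mul h1 ih (by positivity) (by positivity)
      _ = (1 + (N : ℝ) / (M + 1)) ^ l * (1 + (N : ℝ) / (M + 1)) * ((M + N).choose N : ℝ) := by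
          ring

/-- One variable less. -/
theorem K3_less (N M : ℕ) (hN : 1 ≤ N) : (((M + (N - 1)).choose (N - 1) : ℕ) : ℝ) =
    (N : ℝ) / (M + N) * ((M + N).choose N : ℝ) := by
  obtain ⟨N', rfl⟩ : ∃ N', N = N' + 1 := ⟨N - 1, by omega⟩
  have h := Nat.add_one_mul_choose_eq (M + N') N'
  have h3 : ((M : ℝ) + N' + 1) * ((M + N').choose N' : ℝ) =
      ((M + (N' + 1)).choose (N' + 1) : ℝ) * ((N' : ℝ) + 1) := by
    have := congrArg (fun t : ℕ => (t : ℝ)) h
    push_cast at this
    exact this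
  have h4 : (0 : ℝ) < (M : ℝ) + (N' + 1) := by positivity
  rw [Nat.add_sub_cancel]
  push_cast
  field_simp
  linarith



end Pool.Agent.H89T
end

-- from Lib.H89T.K4
section

set_option autoImplicit false

/-!
CHUNK K4.  The choice of the parameters in part B.
-/

namespace Pool.Agent.H89T

/-- CHUNK K4.  The counting inequality of part B (`r = n`).  Proof: by `card_NormJ_le`, `card_Mon`,
`card_exp_ge` (also for `choose (M + n n) (n n) ≥ (M / (n n)) ^ (n n)`, as it is the
number of exponents of degree `≤ M` in `n * n` variables) it is enough that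
`n k (D + 1) ^ (n - 1) (C M + 1) ^ ((n - 1) n) < (d / n) ^ n (M / (n n)) ^ (n n)`,
`d = ⌊α k⌋₊`, `D = d + C M k`.  For `k ≥ 2 / α` one has `d ≥ α k / 2`, `D + 1 ≤ (α + C + 1) M k` if
`M ≥ 1`; so the quotient of both sides is at most `c M ^ (n - 1) M ^ ((n - 1) n) / M ^ (n n)`
`= c / M` with `c` depending on `n, α, C` only. -/
theorem count_B (n : ℕ) (hn : 1 ≤ n) (C : ℕ) (α : ℝ) (hα : 0 < α) : ∃ M k₀ : ℕ, 1 ≤ M ∧
    ∀ k : ℕ, k₀ ≤ k → ∀ i : Fin n,
      ∑ j : Fin n, Nat.card (NormJ n n k (⌊α * k⌋₊ + C * M * k) (C * M) i j) <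
        Nat.card (Mon n n ⌊α * k⌋₊ M) := by
  obtain ⟨m, rfl⟩ : ∃ m, n = m + 1 := ⟨n - 1, by omega⟩
  set N : ℕ := m + 1 with hN
  have hN0 : (0 : ℝ) < (N : ℝ) := by rw [hN]; positivity
  set c1 : ℝ := (N : ℝ) * (α + C + 1) ^ m * ((C : ℝ) + 1) ^ (m * N) with hc1
  set c2 : ℝ := (α / (2 * N)) ^ N * (1 / ((N * N : ℕ) : ℝ)) ^ (N * N) with hc2
  have hNN : (0 : ℝ) < ((N * N : ℕ) : ℝ) := by
    rw [Nat.cast_mul]; positivity
  have hc2pos : 0 < c2 := by rw [hc2]; positivity
  have hc1pos : 0 ≤ c1 := by rw [hc1]; positivity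
  obtain ⟨M, hM⟩ := exists_nat_gt (c1 / c2)
  have hM0 : (0 : ℝ) < M := lt_of_le_of_lt (by positivity) hM
  have hM1 : 1 ≤ M := by exact_mod_cast hM0
  have hM1' : (1 : ℝ) ≤ M := by exact_mod_cast hM1
  have hkey : c1 < c2 * M := by
    rw [div_lt_iff₀ hc2pos] at hM
    linarith
  obtain ⟨k0, hk0⟩ := exists_nat_gt (2 / α)
  refine ⟨M, max 1 k0, hM1, fun k hk i => ?_⟩
  have hk1 : 1 ≤ k := (le_max_left _ _).trans hk
  have hk1' : (1 : ℝ) ≤ k := by exact_mod_cast hk1
  have hk2 : 2 / α < k := hk0.trans_le (by exact_mod_cast (le_max_right _ _).trans hk)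
  have hαk : 2 < α * k := by
    rw [div_lt_iff₀ hα] at hk2
    linarith
  set d : ℕ := ⌊α * k⌋₊ with hd
  have hd1 : α * k / 2 ≤ (d : ℝ) := by
    have := Nat.lt_floor_add_one (α * k)
    rw [← hd] at this
    linarith
  have hd2 : (d : ℝ) ≤ α * k := Nat.floor_le (by positivity)
  set D : ℕ := d + C * M * k with hD
  have hD1 : (D : ℝ) + 1 ≤ (α + C + 1) * (M * k) := by
    rw [hD]
    push_cast
    have h1 : (1 : ℝ) ≤ M * k := by nlinarith
    have h2 : α * k ≤ α * (M * k) := by
      apply mul_le_mul_of_nonneg_left _ hα.le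
      nlinarith
    nlinarith
  have hCM : ((C : ℝ) * M + 1) ≤ ((C : ℝ) + 1) * M := by nlinarith
  -- the upper bound
  have hL : ((∑ j : Fin N, Nat.card (NormJ N N k D (C * M) i j) : ℕ) : ℝ) ≤
      c1 * ((k : ℝ) ^ N * (M : ℝ) ^ (m + m * N)) := by
    have h1 : ∑ j : Fin N, Nat.card (NormJ N N k D (C * M) i j) ≤
        N * (k * (D + 1) ^ (N - 1) * (C * M + 1) ^ ((N - 1) * N)) := by
      calc ∑ j : Fin N, Nat.card (NormJ N N k D (C * M) i j) ≤
          ∑ _j : Fin N, (k * (D + 1) ^ (N - 1) * (C * M + 1) ^ ((N - 1) * N)) :=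
            Finset.sum_le_sum fun j _ => card_NormJ_le i j
        _ = _ := by simp
    have hNm : N - 1 = m := by omega
    rw [hNm] at h1
    calc ((∑ j : Fin N, Nat.card (NormJ N N k D (C * M) i j) : ℕ) : ℝ)
        ≤ ((N * (k * (D + 1) ^ m * (C * M + 1) ^ (m * N)) : ℕ) : ℝ) := by exact_mod_cast h1
      _ = (N : ℝ) * (k * ((D : ℝ) + 1) ^ m * ((C : ℝ) * M + 1) ^ (m * N)) := by push_cast; ring
      _ ≤ (N : ℝ) * (k * ((α + C + 1) * (M * k)) ^ m * (((C : ℝ) + 1) * M) ^ (m * N)) := by
          gcongr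
      _ = c1 * ((k : ℝ) ^ N * (M : ℝ) ^ (m + m * N)) := by
          have hkN : (k : ℝ) ^ N = (k : ℝ) ^ m * k := by rw [hN, pow_succ]
          rw [hc1, hkN, mul_pow, mul_pow, mul_pow, pow_add]
          ring
  -- the lower bound
  have hR : c2 * ((k : ℝ) ^ N * (M : ℝ) ^ (N * N)) ≤ (Nat.card (Mon N N d M) : ℝ) := by
    rw [card_Mon]
    push_cast
    have h1 : ((d : ℝ) / N) ^ N ≤ (Nat.card {f : Fin N → ℕ // ∑ i, f i ≤ d} : ℝ) :=
      card_exp_ge hn d
    have h2 : ((M : ℝ) / ((N * N : ℕ) : ℝ)) ^ (N * N) ≤ (((M + N * N).choose (N * N) : ℕ) : ℝ) := by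
      have h3 := card_exp_ge (n := N * N) (by nlinarith) M
      have h4 := card_exp (Fin (N * N)) M
      rw [Fintype.card_fin] at h4
      rw [h4] at h3
      exact h3
    calc c2 * ((k : ℝ) ^ N * (M : ℝ) ^ (N * N))
        = (α * k / 2 / N) ^ N * ((M : ℝ) / ((N * N : ℕ) : ℝ)) ^ (N * N) := by
          rw [hc2, div_pow, div_pow, div_pow, div_pow, div_pow, one_pow, mul_pow, mul_pow]
          field_simp
      _ ≤ ((d : ℝ) / N) ^ N * ((M : ℝ) / ((N * N : ℕ) : ℝ)) ^ (N * N) := by
          gcongr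
      _ ≤ _ := by gcongr
  have hfin : c1 * ((k : ℝ) ^ N * (M : ℝ) ^ (m + m * N)) <
      c2 * ((k : ℝ) ^ N * (M : ℝ) ^ (N * N)) := by
    have he : N * N = (m + m * N) + 1 := by rw [hN]; ring
    rw [he, pow_succ]
    have hpos : 0 < (k : ℝ) ^ N * (M : ℝ) ^ (m + m * N) := by positivity
    calc c1 * ((k : ℝ) ^ N * (M : ℝ) ^ (m + m * N))
        < (c2 * M) * ((k : ℝ) ^ N * (M : ℝ) ^ (m + m * N)) := mul_lt_mul_of_pos_right hkey hpos
      _ = _ := by ring
  exact_mod_cast lt_of_le_of_lt hL (hfin.trans_le hR)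

end Pool.Agent.H89T
end
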