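import Mathlib
import Pool.Agent.Lib.H1M.PB.M003
import Pool.Agent.Lib.H1M.PB.M006
import Pool.Agent.Lib.H1M.PB.M007
import Pool.Agent.Lib.H1M.PB.M009
import Pool.Agent.Lib.H1M.PB.M010
import Pool.Agent.Lib.H1M.PB.M012
import Pool.Agent.Lib.H1M.PB.M015

/-! Merged copies (to shorten the build) of Lib.H67T.NJ5, Lib.H67T.GH1, Lib.H89.Poly.Quot, Lib.H89.Poly.Shear, Lib.H89.Poly.Chain, Lib.H89.Arr.Coh, Lib.H89.Arr.Criterion, Lib.H67T.GG1, Lib.H89T.DP2, Lib.H89T.DP4, Lib.H89T.DP8, Lib.H89T.DP3, Lib.H89T.DP9, Lib.H89T.DP5. -/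

-- from Lib.H67T.NJ5
section

set_option autoImplicit false

/-!
CHUNK NJ5.
-/

open Real Metric MeasureTheory Filter

namespace Pool.Agent.H67T

theorem NJ5_finite {f : ℂ → ℂ} (hf : Differentiable ℂ f) (h0 : ∃ z, f z ≠ 0) (r : ℝ) :
    {a : ℂ | ‖a‖ ≤ r ∧ f a = 0}.Finite := by
  obtain ⟨w, hw⟩ := h0
  have h1 : f ⁻¹' {0}ᶜ ∈ codiscreteWithin (closedBall (0 : ℂ) r) :=
    codiscreteWithin_mono (Set.subset_univ _)
      (AnalyticOnNhd.preimage_zero_mem_codiscrete (fun z _ => hf.analyticAt z) hw)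
  have h2 := (isCompact_closedBall (0 : ℂ) r).finite_sdiff_of_mem_codiscreteWithin h1
  refine h2.subset ?_
  rintro a ⟨ha, hfa⟩
  refine ⟨by simpa using ha, ?_⟩
  simpa using hfa

theorem NJ5_N1_eq {g : ℂ → ℂ} {r : ℝ} {s : Finset ℂ}
    (hs : ∀ a, ‖a‖ ≤ r → g a = 0 → a ∈ s) (hsr : ∀ a ∈ s, ‖a‖ ≤ r) [DecidablePred fun a => g a = 0] :
    N1 g r = ∑ a ∈ s, (if g a = 0 then log (r / ‖a‖) else 0) +
      if g 0 = 0 then log r else 0 := by
  classical
  unfold N1
  congr 1
  · have h1 : {a : ℂ | ‖a‖ ≤ r ∧ g a = 0} = ((s.filter fun a => g a = 0 : Finset ℂ) : Set ℂ) := by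
      ext a
      simp only [Set.mem_ofPred_eq, Finset.coe_filter]
      exact ⟨fun h => ⟨hs a h.1 h.2, h.2⟩, fun h => ⟨hsr a h.1, h.2⟩⟩
    rw [h1, finsum_mem_coe_finset, Finset.sum_filter]
  · split_ifs <;> rfl

theorem NJ5_log_nonneg {r : ℝ} (hr : 1 ≤ r) {a : ℂ} (ha : ‖a‖ ≤ r) : 0 ≤ log (r / ‖a‖) := by
  by_cases h : ‖a‖ = 0
  · rw [h, div_zero, log_zero]
  · apply log_nonneg
    rw [one_le_div (lt_of_le_of_ne (norm_nonneg a) (Ne.symm h))]
    exact ha

/-- CHUNK NJ5.  Proof: as NJ4, with `jensen` for `f` only: for every `a`,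
`e * #{i | g i a = 0} ≤ analyticOrderNatAt f a`. -/
theorem counting_le {ι : Type} [Fintype ι] {g : ι → ℂ → ℂ} {f : ℂ → ℂ} {e : ℕ}
    (hg : ∀ i, Differentiable ℂ (g i)) (hg0 : ∀ i, ∃ z, g i z ≠ 0) (hf : Differentiable ℂ f)
    (hf0 : ∃ z, f z ≠ 0)
    (hord : ∀ (z : ℂ) (U : Finset ι), (∀ i ∈ U, g i z = 0) →
      ((e * U.card : ℕ) : ℕ∞) ≤ analyticOrderAt f z) :
    ∃ K : ℝ, ∀ r : ℝ, 1 ≤ r →
      e * ∑ i, N1 (g i) r ≤ circleAverage (fun z => log ‖f z‖) 0 r + K := by
  classical
  obtain ⟨K, hK⟩ := jensen hf hf0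
  have hcard : ∀ a : ℂ, (e : ℝ) * ((Finset.univ.filter fun i => g i a = 0).card : ℝ) ≤
      (analyticOrderNatAt f a : ℝ) := by
    intro a
    have h1 := hord a (Finset.univ.filter fun i => g i a = 0)
      (fun i hi => (Finset.mem_filter.mp hi).2)
    have h2 : analyticOrderAt f a ≠ ⊤ := by
      intro h3
      have h4 := (AnalyticOnNhd.analyticOrderAt_eq_top_iff_eq_zero a
        (fun z => hf.analyticAt z)).mp h3
      obtain ⟨z, hz⟩ := hf0
      exact hz (by rw [h4]; rfl)
    rw [← Nat.cast_analyticOrderNatAt h2] at h1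
    have h5 : e * (Finset.univ.filter fun i => g i a = 0).card ≤ analyticOrderNatAt f a := by
      exact_mod_cast h1
    exact_mod_cast h5
  refine ⟨-K, fun r hr => ?_⟩
  have hfin : ((⋃ i, {a : ℂ | ‖a‖ ≤ r ∧ g i a = 0}) ∪ {a : ℂ | ‖a‖ ≤ r ∧ f a = 0}).Finite :=
    (Set.finite_iUnion fun i => NJ5_finite (hg i) (hg0 i) r).union (NJ5_finite hf hf0 r)
  set s : Finset ℂ := hfin.toFinset with hs
  have hsr : ∀ a ∈ s, ‖a‖ ≤ r := by
    intro a ha
    rw [hs, Set.Finite.mem_toFinset] at ha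
    rcases ha with ha | ha
    · obtain ⟨i, hi⟩ := Set.mem_iUnion.mp ha
      exact hi.1
    · exact ha.1
  have hJ := hK r hr s (by
    intro a ha hfa
    rw [hs, Set.Finite.mem_toFinset]
    exact Or.inr ⟨ha, hfa⟩) hsr
  have hN : ∀ i, N1 (g i) r = ∑ a ∈ s, (if g i a = 0 then log (r / ‖a‖) else 0) +
      if g i 0 = 0 then log r else 0 := fun i => NJ5_N1_eq (by
    intro a ha hga
    rw [hs, Set.Finite.mem_toFinset]
    exact Or.inl (Set.mem_iUnion.mpr ⟨i, ha, hga⟩)) hsr
  have h1 : ∑ i, N1 (g i) r = ∑ a ∈ s,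
      ((Finset.univ.filter fun i => g i a = 0).card : ℝ) * log (r / ‖a‖) +
        ((Finset.univ.filter fun i => g i 0 = 0).card : ℝ) * log r := by
    simp only [hN, Finset.sum_add_distrib]
    rw [Finset.sum_comm]
    congr 1
    · refine Finset.sum_congr rfl fun a _ => ?_
      rw [← Finset.sum_filter, Finset.sum_const, nsmul_eq_mul]
    · rw [← Finset.sum_filter, Finset.sum_const, nsmul_eq_mul]
  rw [h1, hJ, mul_add, Finset.mul_sum]
  have h2 : ∑ a ∈ s, (e : ℝ) * (((Finset.univ.filter fun i => g i a = 0).card : ℝ) *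
      log (r / ‖a‖)) ≤ ∑ a ∈ s, (analyticOrderNatAt f a : ℝ) * log (r / ‖a‖) := by
    refine Finset.sum_le_sum fun a ha => ?_
    rw [← mul_assoc]
    exact mul_le_mul_of_nonneg_right (hcard a) (NJ5_log_nonneg hr (hsr a ha))
  have h3 : (e : ℝ) * (((Finset.univ.filter fun i => g i 0 = 0).card : ℝ) * log r) ≤
      (analyticOrderNatAt f 0 : ℝ) * log r := by
    rw [← mul_assoc]
    exact mul_le_mul_of_nonneg_right (hcard 0) (log_nonneg hr)
  linarith

end Pool.Agent.H67T
end

-- from Lib.H67T.GH1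
section

set_option autoImplicit false

/-!
CHUNK GH1.
-/

open MvPolynomial Real Metric MeasureTheory

namespace Pool.Agent.H67T

/-- Jensen lower bound: an entire function vanishing at `b + 2 π i k` for all `k ≥ 1`, where
`-π < Im b`, has proximity function at least linear. -/
theorem GH1_jensen {g : ℂ → ℂ} (hg : Differentiable ℂ g) (h0 : ∃ z, g z ≠ 0) {b : ℂ}
    (hb : -π < b.im) (hz : ∀ k : ℕ, 1 ≤ k → g (b + 2 * π * k * Complex.I) = 0) :
    ∃ c K : ℝ, 0 < c ∧ ∀ r : ℝ, 1 ≤ r →
      c * r - K ≤ circleAverage (fun z => log ‖g z‖) 0 r := by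
  obtain ⟨K, hK⟩ := jensen hg h0
  have hπ := Real.pi_pos
  have hl2 : 0 < log 2 := Real.log_pos one_lt_two
  refine ⟨log 2 / (4 * π), log 2 * (‖b‖ / (2 * π) + 1) - K, by positivity, fun r hr => ?_⟩
  have hfin := NJ1_fin hg h0 r
  rw [hK r hr hfin.toFinset (fun a h1 h2 => by simpa using ⟨h1, h2⟩)
    (fun a ha => by
      have : ‖a‖ ≤ r ∧ g a = 0 := by simpa using ha
      exact this.1)]
  set M : ℕ := ⌊(r / 2 - ‖b‖) / (2 * π)⌋₊ with hM
  set a : ℕ → ℂ := fun k => b + 2 * π * k * Complex.I with ha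
  have him : ∀ k, (a k).im = b.im + 2 * π * k := by
    intro k
    simp [ha]
  have hinj : Function.Injective a := by
    intro k l hkl
    have h1 := congrArg Complex.im hkl
    rw [him, him] at h1
    have h2 : (2 * π) * (k : ℝ) = (2 * π) * l := by linarith
    have h3 := mul_left_cancel₀ (by positivity : (2 * π) ≠ 0) h2
    exact_mod_cast h3
  have hne : ∀ k, 1 ≤ k → a k ≠ 0 := by
    intro k hk h
    have h1 := congrArg Complex.im h
    rw [him] at h1
    have h2 : (1 : ℝ) ≤ k := by exact_mod_cast hk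
    simp only [Complex.zero_im] at h1
    nlinarith
  have hnorm : ∀ k ∈ Finset.Icc 1 M, ‖a k‖ ≤ r / 2 := by
    intro k hk
    rw [Finset.mem_Icc] at hk
    have h1 : ‖a k‖ ≤ ‖b‖ + 2 * π * k := by
      refine (norm_add_le _ _).trans ?_
      have : ‖(2 * π * k * Complex.I : ℂ)‖ = 2 * π * k := by
        simp [abs_of_pos hπ]
      rw [this]
    have hM1 : 1 ≤ M := hk.1.trans hk.2
    have h2 : (M : ℝ) ≤ (r / 2 - ‖b‖) / (2 * π) := by
      rw [hM]
      refine Nat.floor_le ?_
      by_contra hc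
      push Not at hc
      have := Nat.floor_of_nonpos hc.le
      omega
    have h3 : (k : ℝ) ≤ M := by exact_mod_cast hk.2
    have h4 : (k : ℝ) ≤ (r / 2 - ‖b‖) / (2 * π) := h3.trans h2
    rw [le_div_iff₀ (by positivity)] at h4
    linarith
  -- lower bound of the sum
  have hsub : (Finset.Icc 1 M).image a ⊆ hfin.toFinset := by
    intro x hx
    rw [Finset.mem_image] at hx
    obtain ⟨k, hk, rfl⟩ := hx
    have h1 := hnorm k hk
    rw [Finset.mem_Icc] at hk
    have h2 := hz k hk.1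
    have h3 : ‖a k‖ ≤ r ∧ g (a k) = 0 := ⟨by linarith, h2⟩
    simpa using h3
  have hterm : ∀ x ∈ hfin.toFinset, 0 ≤ (analyticOrderNatAt g x : ℝ) * log (r / ‖x‖) := by
    intro x hx
    have hx' : ‖x‖ ≤ r ∧ g x = 0 := by simpa using hx
    refine mul_nonneg (Nat.cast_nonneg _) ?_
    rcases eq_or_ne x 0 with rfl | hx0
    · simp
    · refine Real.log_nonneg ?_
      rw [le_div_iff₀ (norm_pos_iff.2 hx0)]
      linarith [hx'.1]
  have hsum : (M : ℝ) * log 2 ≤
      ∑ x ∈ hfin.toFinset, (analyticOrderNatAt g x : ℝ) * log (r / ‖x‖) := by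
    refine le_trans ?_ (Finset.sum_le_sum_of_subset_of_nonneg hsub fun x hx _ => hterm x hx)
    rw [Finset.sum_image (fun x _ y _ h => hinj h)]
    have h1 : (M : ℝ) * log 2 = ∑ k ∈ Finset.Icc 1 M, log 2 := by
      simp
    rw [h1]
    refine Finset.sum_le_sum fun k hk => ?_
    have hk' := hk
    rw [Finset.mem_Icc] at hk'
    have hak := hne k hk'.1
    have hpos : 0 < ‖a k‖ := norm_pos_iff.2 hak
    have h2 : log 2 ≤ log (r / ‖a k‖) := by
      refine Real.log_le_log two_pos ?_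
      rw [le_div_iff₀ hpos]
      have := hnorm k hk
      linarith
    have h3 : (1 : ℝ) ≤ analyticOrderNatAt g (a k) := by
      have h4 := Nat.cast_analyticOrderNatAt (NJ1_ne_top hg h0 (a k))
      have h5 := ((hg.analyticAt (a k)).analyticOrderAt_ne_zero).2 (hz k hk'.1)
      have h6 : analyticOrderNatAt g (a k) ≠ 0 := by
        intro hc
        rw [hc] at h4
        exact h5 h4.symm
      exact_mod_cast Nat.one_le_iff_ne_zero.2 h6
    calc log 2 ≤ log (r / ‖a k‖) := h2
      _ = 1 * log (r / ‖a k‖) := (one_mul _).symm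
      _ ≤ (analyticOrderNatAt g (a k) : ℝ) * log (r / ‖a k‖) := by
        have : 0 ≤ log (r / ‖a k‖) := hl2.le.trans h2
        gcongr
  have h0r : 0 ≤ (analyticOrderNatAt g 0 : ℝ) * log r :=
    mul_nonneg (Nat.cast_nonneg _) (Real.log_nonneg hr)
  have hM2 : (r / 2 - ‖b‖) / (2 * π) - 1 ≤ M := by
    have := Nat.lt_floor_add_one ((r / 2 - ‖b‖) / (2 * π))
    rw [← hM] at this
    linarith
  have h7 : ((r / 2 - ‖b‖) / (2 * π) - 1) * log 2 ≤ (M : ℝ) * log 2 := by gcongr
  have h8 : ((r / 2 - ‖b‖) / (2 * π) - 1) * log 2 =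
      log 2 / (4 * π) * r - log 2 * (‖b‖ / (2 * π) + 1) := by
    field_simp
    ring
  linarith

/-- CHUNK GH1.  Composition with the exponential function gives curves of at least linear
characteristic.  Proof: by `hnc` there are `w₀ ≠ 0` and `w₁` with `u w₀`, `u w₁` linearly
independent; take a linear form `c` with `lin c (u w₀) = 0`, `lin c (u w₁) ≠ 0`, and
`g z = lin c (u (exp z))`; it is not identically zero (the range of `exp` is `ℂ \ {0}`, and
`lin c (u ·)` vanishes identically if it vanishes on `ℂ \ {0}`), it vanishes at the points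
`a k = log w₀ + 2 π i k`, `k ∈ ℤ`.  By `jensen` (or `counting_le` with one function and `e = 1`):
`avg log ‖g‖ ≥ ∑_{‖a k‖ ≤ r} log (r / ‖a k‖) - K ≥ log 2 * #{k ∈ ℕ : ‖log w₀‖ + 2 π k ≤ r / 2} - K`
and the number of these `k` is at least `(r / 2 - ‖log w₀‖) / (2 π) - 1`.  Finally
`avg log ‖g‖ ≤ chi (u ∘ exp) r + log A` (`avg_le_chi`). -/
theorem chi_exp_ge {n : ℕ} {u : ℂ → Fin n → ℂ} (hu : IsHol u)
    (hnc : ∃ z w, ∀ c : ℂ, u w ≠ c • u z) :
    ∃ c K : ℝ, 0 < c ∧ ∀ r : ℝ, 1 ≤ r → c * r - K ≤ chi (fun z => u (Complex.exp z)) r := by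
  -- two points
  obtain ⟨w₀, w₁, hw₀, hind⟩ : ∃ w₀ w₁ : ℂ, w₀ ≠ 0 ∧ ∀ c : ℂ, u w₁ ≠ c • u w₀ := by
    obtain ⟨z, w, h⟩ := hnc
    rcases eq_or_ne z 0 with rfl | hz
    · rcases eq_or_ne w 0 with rfl | hw
      · exact absurd (one_smul ℂ (u 0)).symm (h 1)
      · refine ⟨w, 0, hw, fun c hc => ?_⟩
        have hc0 : c ≠ 0 := by
          rintro rfl
          exact hu.ne_zero 0 (by rw [hc, zero_smul])
        refine h c⁻¹ ?_
        rw [hc, smul_smul, inv_mul_cancel₀ hc0, one_smul]
    · exact ⟨z, w, hz, h⟩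
  -- the linear form
  have hnot : u w₁ ∉ Submodule.span ℂ {u w₀} := by
    intro h
    rw [Submodule.mem_span_singleton] at h
    obtain ⟨c, hc⟩ := h
    exact hind c hc.symm
  obtain ⟨φ, hφ1, hφ0⟩ := Submodule.exists_le_ker_of_notMem hnot
  set c : Fin n → ℂ := fun j => φ (Pi.single j 1) with hc
  have hlin : ∀ y : Fin n → ℂ, lin c y = φ y := by
    intro y
    rw [LinearMap.pi_apply_eq_sum_univ φ y]
    refine Finset.sum_congr rfl fun j _ => ?_
    have he : (fun i => if j = i then (1 : ℂ) else 0) = Pi.single j 1 := by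
      funext i
      by_cases hij : j = i
      · subst hij; simp
      · simp [hij, Pi.single_apply, Ne.symm hij]
    rw [smul_eq_mul, mul_comm, he]
  have h1 : lin c (u w₁) ≠ 0 := by rw [hlin]; exact hφ1
  have h2 : lin c (u w₀) = 0 := by
    rw [hlin]
    exact hφ0 (Submodule.mem_span_singleton_self _)
  have hhd : Differentiable ℂ fun w => lin c (u w) := by
    unfold lin
    exact Differentiable.fun_sum fun j _ => (differentiable_const _).mul (hu.diff j)
  have hue : IsHol fun z => u (Complex.exp z) :=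
    ⟨fun j => (hu.diff j).comp Complex.differentiable_exp, fun z => hu.ne_zero _⟩
  have hgd : Differentiable ℂ fun z => lin c (u (Complex.exp z)) :=
    hhd.comp Complex.differentiable_exp
  -- nonvanishing
  have hg0 : ∃ z, lin c (u (Complex.exp z)) ≠ 0 := by
    by_contra hcon
    push Not at hcon
    have hall : ∀ w : ℂ, w ≠ 0 → lin c (u w) = 0 := by
      intro w hw
      have := hcon (Complex.log w)
      rwa [Complex.exp_log hw] at this
    have hcl : IsClosed {w : ℂ | lin c (u w) = 0} :=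
      isClosed_eq hhd.continuous continuous_const
    have hd : Dense ({0}ᶜ : Set ℂ) := dense_compl_singleton 0
    have hss : closure ({0}ᶜ : Set ℂ) ⊆ {w : ℂ | lin c (u w) = 0} :=
      hcl.closure_subset_iff.2 fun w hw => hall w hw
    rw [hd.closure_eq] at hss
    exact h1 (hss (Set.mem_univ w₁))
  obtain ⟨c', K, hc', hK⟩ := GH1_jensen hgd hg0 (b := Complex.log w₀)
    (by rw [Complex.log_im]; exact Complex.neg_pi_lt_arg w₀) (fun k _ => by
      have : Complex.exp (Complex.log w₀ + 2 * π * k * Complex.I) = w₀ := by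
        rw [Complex.exp_add, Complex.exp_log hw₀]
        have h3 := Complex.exp_nat_mul_two_pi_mul_I k
        rw [show (2 * π * k * Complex.I : ℂ) = k * (2 * π * Complex.I) by ring, h3, mul_one]
      change lin c (u (Complex.exp _)) = 0
      rw [this]
      exact h2)
  set A : ℝ := max 1 (∑ j, ‖c j‖) with hA
  have hfy : ∀ z, ‖lin c (u (Complex.exp z))‖ ≤ A * ‖u (Complex.exp z)‖ := by
    intro z
    calc ‖lin c (u (Complex.exp z))‖ ≤ ∑ j, ‖c j * u (Complex.exp z) j‖ := norm_sum_le _ _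
      _ ≤ ∑ j, ‖c j‖ * ‖u (Complex.exp z)‖ := by
        refine Finset.sum_le_sum fun j _ => ?_
        rw [norm_mul]
        exact mul_le_mul_of_nonneg_left (norm_le_pi_norm _ j) (norm_nonneg _)
      _ = (∑ j, ‖c j‖) * ‖u (Complex.exp z)‖ := by rw [Finset.sum_mul]
      _ ≤ A * ‖u (Complex.exp z)‖ :=
        mul_le_mul_of_nonneg_right (le_max_right _ _) (norm_nonneg _)
  refine ⟨c', K + log A, hc', fun r hr => ?_⟩
  have h3 := avg_le_chi hue hgd (le_max_left _ _) hfy (by linarith : 0 < r) hg0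
  have h4 := hK r hr
  linarith

end Pool.Agent.H67T
end

-- from Lib.H89.Poly.Quot
section

set_option autoImplicit false

/-!
Dimension and degree of affine varieties, via linear Noether normalisations.
-/

open MvPolynomial Module

namespace Pool.Agent.H89.Poly

variable {n : ℕ}

/-- The classes of the polynomials of degree at most `s`. -/
noncomputable def Fil (p : Ideal (MP n)) (s : ℕ) : Submodule ℂ (MP n ⧸ p) :=
  (restrictTotalDegree (Fin n) ℂ s).map (Ideal.Quotient.mkₐ ℂ p).toLinearMap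

theorem mem_Fil {p : Ideal (MP n)} {s : ℕ} {x : MP n ⧸ p} :
    x ∈ Fil p s ↔ ∃ f : MP n, f.totalDegree ≤ s ∧ Ideal.Quotient.mk p f = x := by
  simp only [Fil, Submodule.mem_map, mem_restrictTotalDegree]
  rfl

theorem mk_mem_Fil {p : Ideal (MP n)} {s : ℕ} {f : MP n} (hf : f.totalDegree ≤ s) :
    Ideal.Quotient.mk p f ∈ Fil p s := mem_Fil.mpr ⟨f, hf, rfl⟩

theorem isFilt_Fil (p : Ideal (MP n)) : IsFilt (Fil p) where
  mono s t hst := Submodule.map_mono ((isFilt_restrict n).mono hst)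
  one_mem := mem_Fil.mpr ⟨1, by simp, map_one _⟩
  mul_mem {s t x y} hx hy := by
    obtain ⟨f, hf, rfl⟩ := mem_Fil.mp hx
    obtain ⟨g, hg, rfl⟩ := mem_Fil.mp hy
    exact mem_Fil.mpr ⟨f * g, (totalDegree_mul _ _).trans (add_le_add hf hg), map_mul _ _ _⟩
  exh x := by
    obtain ⟨f, rfl⟩ := Ideal.Quotient.mk_surjective x
    exact ⟨f.totalDegree, mk_mem_Fil le_rfl⟩
  fin s := by
    rw [Fil]
    infer_instance

/-- The (affine) Hilbert function. -/
noncomputable def hf (p : Ideal (MP n)) (s : ℕ) : ℕ := finrank ℂ (Fil p s)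


/-- The residue classes `u` form a linear Noether normalisation. -/
structure IsNoeth (p : Ideal (MP n)) (m : ℕ) (u : Fin m → MP n ⧸ p) : Prop where
  mem : ∀ i, u i ∈ Fil p 1
  inj : Function.Injective (aeval u : MP m →ₐ[ℂ] MP n ⧸ p)
  noe : ∃ t, ∀ s ≥ t, Fil p (s + 1) ≤
    Fil p s ⊔ ⨆ i : Fin m, (Fil p s).map (LinearMap.mulLeft ℂ (u i))

/-- The algebra structure given by a tuple of elements. -/
@[reducible] noncomputable def algOf {A : Type*} [CommRing A] [Algebra ℂ A] {m : ℕ} (u : Fin m → A) :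
    Algebra (MP m) A := (aeval u : MP m →ₐ[ℂ] A).toRingHom.toAlgebra

/-- The rank over the polynomial ring. -/
noncomputable def rk {A : Type*} [CommRing A] [Algebra ℂ A] {m : ℕ} (u : Fin m → A) : ℕ :=
  letI := algOf u
  finrank (MP m) A

theorem isScalarTower_algOf {A : Type*} [CommRing A] [Algebra ℂ A] {m : ℕ} (u : Fin m → A) :
    letI := algOf u
    IsScalarTower ℂ (MP m) A := by
  let _ := algOf u
  exact IsScalarTower.of_algebraMap_eq fun z => ((aeval u : MP m →ₐ[ℂ] A).commutes z).symm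

theorem IsNoeth.fdata {p : Ideal (MP n)} {m : ℕ} {u : Fin m → MP n ⧸ p} (h : IsNoeth p m u) :
    letI := algOf u
    FData m (Fil p) := by
  let _ := algOf u
  have hX : ∀ i : Fin m, algebraMap (MP m) (MP n ⧸ p) (X i) = u i := fun i => aeval_X u i
  exact { isFilt_Fil p with
    X_mem := fun i => by rw [hX]; exact h.mem i
    inj := h.inj
    noe := by simp_rw [hX]; exact h.noe }

/-- `p` is the prime ideal of an affine variety of dimension `m` and degree `d`. -/
structure IsVar (p : Ideal (MP n)) (m d : ℕ) : Prop where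
  prime : p.IsPrime
  exists_noeth : ∃ u : Fin m → MP n ⧸ p, IsNoeth p m u ∧ rk u = d

namespace IsVar

variable {p : Ideal (MP n)} {m d : ℕ} (h : IsVar p m d)

include h

theorem lower : ∃ t, ∀ s, d * B m s ≤ hf p (t + s) := by
  obtain ⟨u, hu, rfl⟩ := h.exists_noeth
  let _ := algOf u
  have := isScalarTower_algOf u
  exact hu.fdata.exists_le

theorem upper (s : ℕ) : hf p s ≤ d * B m s := by
  have := h.prime
  obtain ⟨u, hu, rfl⟩ := h.exists_noeth
  let _ := algOf u
  have := isScalarTower_algOf u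
  exact hu.fdata.le_rank_mul s

theorem mul_le_mul (b s : ℕ) : hf p b * B m s ≤ hf p (b + s) * B m b := by
  have := h.prime
  obtain ⟨u, hu, rfl⟩ := h.exists_noeth
  let _ := algOf u
  have := isScalarTower_algOf u
  exact hu.fdata.mul_le_mul b s

theorem hf_pos (s : ℕ) : 0 < hf p s := by
  have := h.prime
  have := (isFilt_Fil p).fin s
  have h1 : (1 : MP n ⧸ p) ∈ Fil p s := (isFilt_Fil p).mono (Nat.zero_le s) (isFilt_Fil p).one_mem
  have : Nontrivial (Fil p s) := ⟨⟨⟨1, h1⟩, 0, fun h => one_ne_zero (congrArg Subtype.val h)⟩⟩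
  exact Module.finrank_pos

theorem pos : 0 < d := by
  have h1 := h.hf_pos 0
  have h2 := h.upper 0
  rw [B_zero_right, mul_one] at h2
  omega

end IsVar

theorem B_le_B_succ (m s : ℕ) : B m s ≤ B (m + 1) s := by
  rw [← sum_B]
  exact Finset.single_le_sum (f := fun s => B m s) (fun _ _ => Nat.zero_le _)
    (Finset.self_mem_range_succ s)

theorem B_le_of_le {m m' : ℕ} (h : m ≤ m') (s : ℕ) : B m s ≤ B m' s :=
  monotone_nat_of_le_succ (f := fun m => B m s) (fun m => B_le_B_succ m s) h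

/-- Comparison of the growth of two varieties. -/
theorem IsVar.le_of_hf_le {n' : ℕ} {p : Ideal (MP n)} {p' : Ideal (MP n')} {m d m' d' : ℕ}
    (h : IsVar p m d) (h' : IsVar p' m' d') {t : ℕ} (hle : ∀ s, hf p s ≤ hf p' (s + t)) :
    m ≤ m' ∧ (m = m' → d ≤ d') := by
  obtain ⟨t₁, ht₁⟩ := h.lower
  have key : ∀ s, d * B m s ≤ d' * B m' (s + (t₁ + t)) := by
    intro s
    calc d * B m s ≤ hf p (t₁ + s) := ht₁ s
      _ ≤ hf p' (t₁ + s + t) := hle _
      _ ≤ d' * B m' (t₁ + s + t) := h'.upper _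
      _ = _ := by congr 2; ring
  constructor
  · by_contra hcon
    push Not at hcon
    obtain ⟨M, -, hM⟩ := exists_growth m' (t₁ + t) d' 0
    have h1 := key M
    have h2 := B_le_of_le (m := m' + 1) (m' := m) hcon M
    have h3 := h.pos
    have h4 : B (m' + 1) M ≤ d * B m M := h2.trans (Nat.le_mul_of_pos_left _ h3)
    omega
  · rintro rfl
    by_contra hcon
    push Not at hcon
    obtain ⟨M, -, hM⟩ := exists_ratio m (t₁ + t) d' 0
    have h1 := key M
    have h2 : (d' + 1) * B m M ≤ d * B m M := Nat.mul_le_mul_right _ hcon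
    omega

theorem IsVar.unique {p : Ideal (MP n)} {m d m' d' : ℕ}
    (h : IsVar p m d) (h' : IsVar p m' d') : m = m' ∧ d = d' := by
  have h1 := h.le_of_hf_le h' (t := 0) (fun s => le_rfl)
  have h2 := h'.le_of_hf_le h (t := 0) (fun s => le_rfl)
  have h3 : m = m' := le_antisymm h1.1 h2.1
  exact ⟨h3, le_antisymm (h1.2 h3) (h2.2 h3.symm)⟩



end Pool.Agent.H89.Poly
end

-- from Lib.H89.Poly.Shear
section

set_option autoImplicit false

/-!
Linear changes of coordinates making a polynomial monic, and the contraction of a minimal prime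
of a principal ideal.
-/

open MvPolynomial Module

namespace Pool.Agent.H89.Poly


/-- The linear change of coordinates `X (i+1) ↦ X (i+1) + c i X 0`. -/
noncomputable def shear {m : ℕ} (c : Fin m → ℂ) : MP (m + 1) ≃ₐ[ℂ] MP (m + 1) :=
  AlgEquiv.ofAlgHom
    (aeval (Fin.cons (X 0) fun i => X i.succ + C (c i) * X 0))
    (aeval (Fin.cons (X 0) fun i => X i.succ - C (c i) * X 0))
    (by
      ext i
      refine Fin.cases ?_ (fun i => ?_) i
      · simp
      · simp)
    (by
      ext i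
      refine Fin.cases ?_ (fun i => ?_) i
      · simp
      · simp)

theorem shear_apply {m : ℕ} (c : Fin m → ℂ) (f : MP (m + 1)) :
    shear c f = aeval (Fin.cons (X 0) fun i => X i.succ + C (c i) * X 0) f := rfl

theorem shear_homogeneous {m : ℕ} (c : Fin m → ℂ) {f : MP (m + 1)} {k : ℕ}
    (hf : f.IsHomogeneous k) : (shear c f).IsHomogeneous k := by
  rw [shear_apply]
  have := hf.aeval (Fin.cons (X 0) (fun i => X i.succ + C (c i) * X 0) :
      Fin (m + 1) → MP (m + 1)) (n := 1) (by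
    intro i
    refine Fin.cases ?_ (fun i => ?_) i
    · exact isHomogeneous_X _ _
    · exact (isHomogeneous_X _ _).add (isHomogeneous_C_mul_X _ _))
  rwa [one_mul] at this


theorem eval_shear {m : ℕ} (c : Fin m → ℂ) (f : MP (m + 1)) :
    eval (Fin.cons 1 0 : Fin (m + 1) → ℂ) (shear c f) = eval (Fin.cons 1 c : Fin (m + 1) → ℂ) f := by
  have h : (eval (Fin.cons 1 0 : Fin (m + 1) → ℂ)).comp
      (shear c : MP (m + 1) →ₐ[ℂ] MP (m + 1)).toRingHom = eval (Fin.cons 1 c) := by
    ext i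
    · have h1 : shear c (C i) = C i := (shear c).commutes i
      simp [h1]
    · refine Fin.cases ?_ (fun i => ?_) i
      · simp [shear_apply]
      · simp [shear_apply]
  exact RingHom.congr_fun h f





end Pool.Agent.H89.Poly
end

-- from Lib.H89.Poly.Chain
section

set_option autoImplicit false

/-!
Chains of varieties cut out by forms of minimal degree, and lower bounds for Hilbert functions.
-/

open MvPolynomial Module

namespace Pool.Agent.H89.Poly

variable {n : ℕ}



/-- Varieties obtained from the affine space by repeatedly taking a component of the intersection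
with a hypersurface of minimal degree. -/
inductive Good : Ideal (MP n) → ℕ → ℕ → ℕ → Prop
  | base : Good ⊥ n 1 1
  | step {p q : Ideal (MP n)} {m d d' δ δ' : ℕ} (h : Good p (m + 1) d δ') (hδ : δ' ≤ δ)
      (hpq : p ≤ q) (hq : IsVar q m d') (hd : d' ≤ δ * d)
      (heq : ∀ f ∈ q, f.totalDegree < δ → f ∈ p) : Good q m d' δ









theorem Good.le {p : Ideal (MP n)} {m d δ : ℕ} (h : Good p m d δ) : m ≤ n := by
  induction h with
  | base => exact le_rfl
  | step _ _ _ _ _ _ ih => omega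

end Pool.Agent.H89.Poly
end

-- from Lib.H89.Arr.Coh
section

set_option autoImplicit false

/-!
Subspaces of the space of linear forms modulo which the entire curves in a Kummer cover are
constant.
-/

open MvPolynomial Module Pool.Agent.H89.Sect

namespace Pool.Agent.H89.Arr

attribute [local instance] MvPolynomial.gradedAlgebra

/-- The value of a linear form. -/
noncomputable def pr {n : ℕ} (c y : Fin n → ℂ) : ℂ := ∑ j, c j * y j





variable {ι : Type*} {n : ℕ}






end Pool.Agent.H89.Arr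
end

-- from Lib.H89.Arr.Criterion
section

set_option autoImplicit false

/-!
A criterion for pseudo-Brody hyperbolicity of a projective variety: many hyperplane sections of a
generically finite image pull back to `e`-th powers.
-/

open MvPolynomial Module Pool.Agent.H89.Sect Pool.Agent.H89.Kummer

namespace Pool.Agent.H89.Arr

attribute [local instance] MvPolynomial.gradedAlgebra

/-- The cone over the projective variety defined by a homogeneous ideal, without the origin. -/
def cone {n : ℕ} (J : Ideal (MvPolynomial (Fin n) ℂ)) : Set (Fin n → ℂ) :=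
  {u | u ≠ 0 ∧ ∀ F ∈ J, eval u F = 0}


/-- The derivative of a polynomial at `u` in the direction `v`. -/
noncomputable def dd {n : ℕ} (F : MvPolynomial (Fin n) ℂ) (u v : Fin n → ℂ) : ℂ :=
  ∑ j, v j * eval u (pderiv j F)








end Pool.Agent.H89.Arr
end

-- from Lib.H67T.GG1
section

set_option autoImplicit false

/-!
CHUNK GG1.  Entire curves in weakly ramified covers.
-/

open MvPolynomial Module Real MeasureTheory
open Pool.Agent.H89.Sect Pool.Agent.H89.Arr Pool.Agent.H89.Kummer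

namespace Pool.Agent.H67T

attribute [local instance] MvPolynomial.gradedAlgebra

/-- a linear function of `r` exceeds a multiple of `log r` somewhere off a set of finite measure -/
theorem gg1_large {E : Set ℝ} (hE : volume E < ⊤) (r₀ c₁ C K : ℝ) (hc : 0 < c₁) :
    ∃ r : ℝ, 2 ≤ r ∧ r₀ ≤ r ∧ r ∉ E ∧ C * log r + K < c₁ * r := by
  have h1 : ∀ᶠ r : ℝ in Filter.atTop, |C| * log r ≤ c₁ / 4 * r := by
    have h2 := Real.isLittleO_log_id_atTop.def (show (0 : ℝ) < c₁ / 4 / (|C| + 1) by positivity)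
    filter_upwards [h2, Filter.eventually_ge_atTop (1 : ℝ)] with r hr hr1
    rw [Real.norm_eq_abs, id, Real.norm_eq_abs, abs_of_nonneg (Real.log_nonneg hr1),
      abs_of_nonneg (by linarith : (0 : ℝ) ≤ r)] at hr
    have h3 : |C| ≤ |C| + 1 := by linarith
    calc |C| * log r ≤ (|C| + 1) * (c₁ / 4 / (|C| + 1) * r) :=
          mul_le_mul h3 hr (Real.log_nonneg hr1) (by positivity)
      _ = c₁ / 4 * r := by
          have : |C| + 1 ≠ 0 := by positivity
          field_simp
  have h4 : ∀ᶠ r : ℝ in Filter.atTop, K < c₁ / 4 * r := by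
    filter_upwards [Filter.eventually_gt_atTop (K / (c₁ / 4))] with r hr
    rw [div_lt_iff₀ (by positivity)] at hr
    linarith
  obtain ⟨r₁, hr₁⟩ := Filter.eventually_atTop.1 (h1.and h4)
  set r₂ := max (max 2 r₀) r₁ with hr₂
  have h5 : ∃ r, r₂ ≤ r ∧ r ∉ E := by
    by_contra hcon
    push Not at hcon
    have : volume (Set.Ici r₂) ≤ volume E := measure_mono fun r hr => hcon r hr
    rw [Real.volume_Ici] at this
    exact absurd this (not_le.2 hE)
  obtain ⟨r, hr, hrE⟩ := h5
  have a1 : 2 ≤ r := ((le_max_left 2 r₀).trans (le_max_left _ _)).trans hr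
  have a2 : r₀ ≤ r := ((le_max_right 2 r₀).trans (le_max_left _ _)).trans hr
  obtain ⟨a3, a4⟩ := hr₁ r ((le_max_right _ _).trans hr)
  refine ⟨r, a1, a2, hrE, ?_⟩
  have h6 : C * log r ≤ |C| * log r :=
    mul_le_mul_of_nonneg_right (le_abs_self C) (Real.log_nonneg (by linarith))
  have h7 : 0 < c₁ * r := by positivity
  linarith


end Pool.Agent.H67T
end

-- from Lib.H89T.DP2
section

set_option autoImplicit false

/-!
H89T, pointed version: linear changes of coordinates.
-/

open MvPolynomial Real MeasureTheory Pool.Agent.H67T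

namespace Pool.Agent.H89T

variable {n k : ℕ}

/-- Linear substitution. -/
noncomputable def sub (A : (Fin (n + 1) → ℂ) →ₗ[ℂ] (Fin (n + 1) → ℂ))
    (F : MvPolynomial (Fin (n + 1)) ℂ) : MvPolynomial (Fin (n + 1)) ℂ :=
  aeval (fun i => ∑ j, C (A (Pi.single j 1) i) * X j) F

theorem eval_sub (A : (Fin (n + 1) → ℂ) →ₗ[ℂ] (Fin (n + 1) → ℂ))
    (F : MvPolynomial (Fin (n + 1)) ℂ) (y : Fin (n + 1) → ℂ) :
    eval y (sub A F) = eval (A y) F := by
  have h1 : A y = fun i => eval y (∑ j, C (A (Pi.single j 1) i) * X j :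
      MvPolynomial (Fin (n + 1)) ℂ) := by
    funext i
    rw [map_sum]
    simp only [map_mul, eval_C, eval_X]
    have h2 : A y = ∑ j, y j • A (Pi.single j 1) := by
      conv_lhs => rw [← Finset.univ_sum_single y]
      rw [map_sum]
      refine Finset.sum_congr rfl fun j _ => ?_
      rw [← map_smul]
      congr 1
      rw [← Pi.single_smul]
      simp
    rw [h2, Finset.sum_apply]
    refine Finset.sum_congr rfl fun j _ => ?_
    rw [Pi.smul_apply, smul_eq_mul, mul_comm]
  rw [sub, MvPolynomial.aeval_def, MvPolynomial.hom_eval₂, h1]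
  unfold MvPolynomial.eval
  simp only [coe_eval₂Hom]
  congr 1
  ext z
  simp






/-- The second main theorem for `F` and the (nonconstant) curves not contained in `G = 0`. -/
def Ineq (ε : ℝ) (k : ℕ) (F G : MvPolynomial (Fin (n + 1)) ℂ) : Prop :=
  ∀ y : ℂ → Fin (n + 1) → ℂ, IsHol y → (∃ z w, ∀ c : ℂ, y w ≠ c • y z) →
    (∃ z, eval (y z) G ≠ 0) →
    (∃ z, eval (y z) F ≠ 0) ∧
    ∃ (C : ℝ) (E : Set ℝ), volume E < ⊤ ∧ ∀ r : ℝ, 2 ≤ r → r ∉ E →
      (1 - ε) * k * chi y r ≤ N1 (fun z => eval (y z) F) r + C * log r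

theorem chi_linear (A : (Fin (n + 1) → ℂ) ≃ₗ[ℂ] (Fin (n + 1) → ℂ))
    {y : ℂ → Fin (n + 1) → ℂ} (hy : IsHol y) (hy' : IsHol fun z => A (y z)) :
    ∃ K : ℝ, ∀ r : ℝ, 0 < r → chi y r ≤ chi (fun z => A (y z)) r + K := by
  set B : (Fin (n + 1) → ℂ) →L[ℂ] (Fin (n + 1) → ℂ) :=
    LinearMap.toContinuousLinearMap (A.symm : (Fin (n + 1) → ℂ) →ₗ[ℂ] (Fin (n + 1) → ℂ)) with hB
  have h1 : ∀ z, (‖B‖ + 1)⁻¹ * ‖y z‖ ^ 1 ≤ ‖A (y z)‖ := by
    intro z
    have h2 : ‖B (A (y z))‖ ≤ ‖B‖ * ‖A (y z)‖ := B.le_opNorm _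
    have h3 : B (A (y z)) = y z := by simp [hB]
    rw [h3] at h2
    rw [pow_one, inv_mul_le_iff₀ (by positivity)]
    have := norm_nonneg (A (y z))
    nlinarith
  refine ⟨-log (‖B‖ + 1)⁻¹, fun r hr => ?_⟩
  have h4 := chi_comp_ge (D := 1) hy hy' (by positivity : 0 < (‖B‖ + 1)⁻¹) h1 hr
  rw [Nat.cast_one, one_mul] at h4
  linarith

theorem Ineq.sub {ε : ℝ} {F G : MvPolynomial (Fin (n + 1)) ℂ}
    (A : (Fin (n + 1) → ℂ) ≃ₗ[ℂ] (Fin (n + 1) → ℂ))
    (h : Ineq ε k (Pool.Agent.H89T.sub (A : (Fin (n + 1) → ℂ) →ₗ[ℂ] (Fin (n + 1) → ℂ)) F) G) :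
    Ineq ε k F
      (Pool.Agent.H89T.sub (A.symm : (Fin (n + 1) → ℂ) →ₗ[ℂ] (Fin (n + 1) → ℂ)) G) := by
  rintro y hy ⟨z₁, w₁, hnc⟩ ⟨z₀, hz₀⟩
  rw [eval_sub] at hz₀
  have hy' : IsHol fun z => A.symm (y z) := by
    refine ⟨fun j => ?_, fun z h0 => hy.ne_zero z ?_⟩
    · have h1 : Differentiable ℂ y := differentiable_pi.2 hy.diff
      have h2 : Differentiable ℂ fun z =>
          (LinearMap.toContinuousLinearMap
            (A.symm : (Fin (n + 1) → ℂ) →ₗ[ℂ] (Fin (n + 1) → ℂ))) (y z) :=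
        (ContinuousLinearMap.differentiable _).comp h1
      exact differentiable_pi.1 h2 j
    · have : A.symm (y z) = A.symm 0 := by
        rw [map_zero]
        exact h0
      exact A.symm.injective this
  have hnc' : ∃ z w, ∀ c : ℂ, A.symm (y w) ≠ c • A.symm (y z) := by
    refine ⟨z₁, w₁, fun c hc => hnc c ?_⟩
    rw [← map_smul] at hc
    exact A.symm.injective hc
  obtain ⟨⟨w, hw⟩, C, E, hE, hr⟩ := h (fun z => A.symm (y z)) hy' hnc' ⟨z₀, hz₀⟩
  refine ⟨⟨w, ?_⟩, ?_⟩
  · rw [eval_sub] at hw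
    simpa using hw
  obtain ⟨K₁, hK₁⟩ := chi_linear A.symm hy hy'
  obtain ⟨K₂, hK₂⟩ := chi_linear A hy' (by simpa using hy)
  have hN : (fun z => eval (A.symm (y z)) (Pool.Agent.H89T.sub
      (A : (Fin (n + 1) → ℂ) →ₗ[ℂ] (Fin (n + 1) → ℂ)) F)) = fun z => eval (y z) F := by
    funext z
    rw [eval_sub]
    simp
  refine ⟨C + |(1 - ε) * k| * (|K₁| + |K₂|) / log 2, E, hE, fun r h2 hrE => ?_⟩
  have h3 := hr r h2 hrE
  rw [hN] at h3
  have h4 := hK₁ r (by linarith)
  have h5 := hK₂ r (by linarith)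
  simp only [LinearEquiv.apply_symm_apply] at h5
  have h6 : |chi y r - chi (fun z => A.symm (y z)) r| ≤ |K₁| + |K₂| := by
    rw [abs_le]
    constructor
    · have := le_abs_self K₂
      have := abs_nonneg K₁
      linarith
    · have := le_abs_self K₁
      have := abs_nonneg K₂
      linarith
  have h7 : (1 - ε) * k * chi y r - (1 - ε) * k * chi (fun z => A.symm (y z)) r ≤
      |(1 - ε) * k| * (|K₁| + |K₂|) := by
    rw [← mul_sub]
    refine (le_abs_self _).trans ?_
    rw [abs_mul]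
    exact mul_le_mul_of_nonneg_left h6 (abs_nonneg _)
  have h8 : |(1 - ε) * k| * (|K₁| + |K₂|) ≤ |(1 - ε) * k| * (|K₁| + |K₂|) / log 2 * log r := by
    have h9 : 0 < log 2 := Real.log_pos one_lt_two
    have h10 : log 2 ≤ log r := Real.log_le_log (by norm_num) h2
    rw [div_mul_eq_mul_div, le_div_iff₀ h9]
    exact mul_le_mul_of_nonneg_left h10 (by positivity)
  rw [add_mul]
  linarith


end Pool.Agent.H89T
end

-- from Lib.H89T.DP4
section

set_option autoImplicit false

/-!
H89T: weighted homogeneous coordinates.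
-/

open MvPolynomial Real MeasureTheory Pool.Agent.H67T

namespace Pool.Agent.H89T

variable {m n : ℕ}

/-- The action of the number `t` on vectors, with weights `w`. -/
def act (w : Fin m → ℕ) (t : ℂ) (x : Fin m → ℂ) : Fin m → ℂ := fun i => t ^ w i * x i

theorem eval_act {w : Fin m → ℕ} {F : MvPolynomial (Fin m) ℂ} {D : ℕ}
    (hF : F.IsWeightedHomogeneous w D) (t : ℂ) (x : Fin m → ℂ) :
    eval (act w t x) F = t ^ D * eval x F := by
  rw [eval_eq', eval_eq', Finset.mul_sum]
  refine Finset.sum_congr rfl fun d hd => ?_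
  have hdeg : ∑ i, d i * w i = D := by
    have h := hF (mem_support_iff.mp hd)
    rw [Finsupp.weight_apply, Finsupp.sum_fintype] at h
    · simpa using h
    · simp
  simp only [act, mul_pow, Finset.prod_mul_distrib, ← pow_mul]
  have h1 : ∏ i, t ^ (w i * d i) = t ^ D := by
    rw [Finset.prod_pow_eq_pow_sum, ← hdeg]
    congr 1
    exact Finset.sum_congr rfl fun i _ => mul_comm _ _
  rw [h1]
  ring

theorem eval_act_mem {w : Fin m → ℕ} {J : Ideal (MvPolynomial (Fin m) ℂ)}
    (hJ : ∀ F ∈ J, ∀ d, weightedHomogeneousComponent w d F ∈ J) {x : Fin m → ℂ}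
    (hx : ∀ F ∈ J, eval x F = 0) (t : ℂ) : ∀ F ∈ J, eval (act w t x) F = 0 := by
  intro F hF
  rw [← sum_weightedHomogeneousComponent w F,
    finsum_eq_sum _ (weightedHomogeneousComponent_finsupp F), map_sum]
  refine Finset.sum_eq_zero fun d _ => ?_
  rw [eval_act (weightedHomogeneousComponent_isWeightedHomogeneous d F), hx _ (hJ F hF d),
    mul_zero]

/-- The zeros of `J` are stable under the action. -/
def Stable (w : Fin m → ℕ) (J : Ideal (MvPolynomial (Fin m) ℂ)) : Prop :=
  ∀ x : Fin m → ℂ, (∀ F ∈ J, eval x F = 0) → ∀ t : ℂ, ∀ F ∈ J, eval (act w t x) F = 0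

/-- The product of the weights. -/
def wL (w : Fin m → ℕ) : ℕ := ∏ i, w i

/-- A gauge for the weights `w`. -/
noncomputable def wn (w : Fin m → ℕ) (x : Fin m → ℂ) : ℝ := ∑ i, ‖x i‖ ^ (wL w / w i)

theorem wL_pos {w : Fin m → ℕ} (hw : ∀ i, 1 ≤ w i) : 0 < wL w :=
  Finset.prod_pos fun i _ => hw i

theorem wL_div {w : Fin m → ℕ} (i : Fin m) : w i * (wL w / w i) = wL w :=
  Nat.mul_div_cancel' (Finset.dvd_prod_of_mem w (Finset.mem_univ i))

theorem wL_div_pos {w : Fin m → ℕ} (hw : ∀ i, 1 ≤ w i) (i : Fin m) : wL w / w i ≠ 0 := by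
  intro h
  have := wL_div (w := w) i
  rw [h, mul_zero] at this
  have := wL_pos hw
  omega

theorem wn_nonneg (w : Fin m → ℕ) (x : Fin m → ℂ) : 0 ≤ wn w x :=
  Finset.sum_nonneg fun _ _ => by positivity

theorem wn_continuous (w : Fin m → ℕ) : Continuous (wn w) := by
  unfold wn
  fun_prop

theorem wn_act (w : Fin m → ℕ) (t : ℂ) (x : Fin m → ℂ) :
    wn w (act w t x) = ‖t‖ ^ wL w * wn w x := by
  rw [wn, wn, Finset.mul_sum]
  refine Finset.sum_congr rfl fun i _ => ?_
  rw [act, norm_mul, norm_pow, mul_pow, ← pow_mul, wL_div]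

theorem wn_pos {w : Fin m → ℕ} {x : Fin m → ℂ} (hx : x ≠ 0) : 0 < wn w x := by
  obtain ⟨i, hi⟩ : ∃ i, x i ≠ 0 := by
    by_contra hcon
    push Not at hcon
    exact hx (funext hcon)
  refine Finset.sum_pos' (fun _ _ => by positivity) ⟨i, Finset.mem_univ i, ?_⟩
  have : 0 < ‖x i‖ := norm_pos_iff.2 hi
  positivity

theorem norm_le_of_wn {w : Fin m → ℕ} (hw : ∀ i, 1 ≤ w i) {x : Fin m → ℂ} {B : ℝ}
    (hx : wn w x ≤ B) (i : Fin m) : ‖x i‖ ≤ max 1 B := by
  have h1 : ‖x i‖ ^ (wL w / w i) ≤ B := by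
    refine le_trans ?_ hx
    exact Finset.single_le_sum (f := fun i => ‖x i‖ ^ (wL w / w i))
      (fun _ _ => by positivity) (Finset.mem_univ i)
  by_cases h : ‖x i‖ ≤ 1
  · exact h.trans (le_max_left _ _)
  · push Not at h
    exact ((le_self_pow₀ h.le (wL_div_pos hw i)).trans h1).trans (le_max_right _ _)

/-- The points of gauge one. -/
def wS (w : Fin m → ℕ) (J : Ideal (MvPolynomial (Fin m) ℂ)) : Set (Fin m → ℂ) :=
  {x | wn w x = 1 ∧ ∀ F ∈ J, eval x F = 0}

theorem wS_ne_zero {w : Fin m → ℕ} (hw : ∀ i, 1 ≤ w i) {J : Ideal (MvPolynomial (Fin m) ℂ)}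
    {x : Fin m → ℂ} (hx : x ∈ wS w J) : x ≠ 0 := by
  rintro rfl
  have h1 : wn w (0 : Fin m → ℂ) = 0 := by
    rw [wn]
    refine Finset.sum_eq_zero fun i _ => ?_
    rw [Pi.zero_apply, norm_zero, zero_pow (wL_div_pos hw i)]
  have h2 := hx.1
  rw [h1] at h2
  exact zero_ne_one h2

theorem wS_compact {w : Fin m → ℕ} (hw : ∀ i, 1 ≤ w i) (J : Ideal (MvPolynomial (Fin m) ℂ)) :
    IsCompact (wS w J) := by
  have h1 : IsCompact (Metric.closedBall (0 : Fin m → ℂ) (max 1 1)) := isCompact_closedBall _ _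
  refine h1.of_isClosed_subset ?_ ?_
  · have : wS w J = {x | wn w x = 1} ∩ ⋂ F ∈ J, {x | eval x F = 0} := by
      ext x
      simp [wS]
    rw [this]
    refine (isClosed_eq (wn_continuous w) continuous_const).inter ?_
    exact isClosed_biInter fun F _ => isClosed_eq F.continuous_eval continuous_const
  · intro x hx
    rw [mem_closedBall_zero_iff, pi_norm_le_iff_of_nonneg (by positivity)]
    exact fun i => norm_le_of_wn hw hx.1.le i

theorem exists_scale {w : Fin m → ℕ} (hw : ∀ i, 1 ≤ w i) {J : Ideal (MvPolynomial (Fin m) ℂ)}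
    (hJ : Stable w J) {x : Fin m → ℂ} (hx0 : x ≠ 0)
    (hx : ∀ F ∈ J, eval x F = 0) :
    ∃ t : ℂ, t ≠ 0 ∧ ‖t‖ ^ wL w * wn w x = 1 ∧ act w t x ∈ wS w J := by
  have h0 := wn_pos (w := w) hx0
  have hL := wL_pos hw
  set s : ℝ := (wn w x) ^ (-(1 : ℝ) / wL w) with hs
  have hs0 : 0 < s := Real.rpow_pos_of_pos h0 _
  have hsL : s ^ wL w * wn w x = 1 := by
    rw [hs, ← Real.rpow_natCast, ← Real.rpow_mul h0.le]
    have : -(1 : ℝ) / wL w * wL w = -1 := by
      have : (wL w : ℝ) ≠ 0 := by positivity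
      field_simp
    rw [this, Real.rpow_neg_one, inv_mul_cancel₀ h0.ne']
  have hn : ‖(s : ℂ)‖ = s := by rw [Complex.norm_real, Real.norm_of_nonneg hs0.le]
  refine ⟨s, by exact_mod_cast hs0.ne', by rw [hn]; exact hsL, ?_, hJ _ hx _⟩
  rw [wn_act, hn, hsL]

/-- The values of `f` are bounded from below. -/
theorem wn_le {w : Fin m → ℕ} (hw : ∀ i, 1 ≤ w i) {J : Ideal (MvPolynomial (Fin m) ℂ)}
    (hJ : Stable w J) {D : ℕ}
    {f : Fin n → MvPolynomial (Fin m) ℂ} (hf : ∀ j, (f j).IsWeightedHomogeneous w D)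
    (hf0 : ∀ x : Fin m → ℂ, x ≠ 0 → (∀ F ∈ J, eval x F = 0) → ∃ j, eval x (f j) ≠ 0) :
    ∃ δ : ℝ, 0 < δ ∧ ∀ x : Fin m → ℂ, x ≠ 0 → (∀ F ∈ J, eval x F = 0) →
      δ * wn w x ^ D ≤ ‖fun j => eval x (f j)‖ ^ wL w := by
  have hφc : Continuous fun x : Fin m → ℂ => ‖fun j => eval x (f j)‖ :=
    (continuous_pi fun j => (f j).continuous_eval).norm
  have hδ : ∃ δ : ℝ, 0 < δ ∧ ∀ x ∈ wS w J, δ ≤ ‖fun j => eval x (f j)‖ := by
    rcases (wS w J).eq_empty_or_nonempty with h | h
    · exact ⟨1, one_pos, by simp [h]⟩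
    · obtain ⟨x₀, hx₀, hmin⟩ := (wS_compact hw J).exists_isMinOn h hφc.continuousOn
      refine ⟨_, ?_, fun x hx => hmin hx⟩
      obtain ⟨j, hj⟩ := hf0 x₀ (wS_ne_zero hw hx₀) hx₀.2
      rw [norm_pos_iff]
      intro h0
      exact hj (congrFun h0 j)
  obtain ⟨δ, hδ0, hδ⟩ := hδ
  refine ⟨δ ^ wL w, by positivity, fun x hx0 hx => ?_⟩
  obtain ⟨t, ht0, ht, hmem⟩ := exists_scale hw hJ hx0 hx
  have h1 := hδ _ hmem
  have h2 : (fun j => eval (act w t x) (f j)) = t ^ D • fun j => eval x (f j) := by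
    funext j
    rw [eval_act (hf j), Pi.smul_apply, smul_eq_mul]
  rw [h2, norm_smul, norm_pow] at h1
  have h3 : δ ^ wL w ≤ (‖t‖ ^ D * ‖fun j => eval x (f j)‖) ^ wL w :=
    pow_le_pow_left₀ hδ0.le h1 _
  have h4 : (‖t‖ ^ D) ^ wL w * wn w x ^ D = 1 := by
    rw [← pow_mul, mul_comm D, pow_mul, ← mul_pow, ht, one_pow]
  have hw0 := wn_nonneg w x
  calc δ ^ wL w * wn w x ^ D ≤
      (‖t‖ ^ D * ‖fun j => eval x (f j)‖) ^ wL w * wn w x ^ D := by gcongr
    _ = ((‖t‖ ^ D) ^ wL w * wn w x ^ D) * ‖fun j => eval x (f j)‖ ^ wL w := by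
        rw [mul_pow]; ring
    _ = ‖fun j => eval x (f j)‖ ^ wL w := by rw [h4, one_mul]


/-- Logarithms of nowhere vanishing entire functions. -/
theorem exists_log {g : ℂ → ℂ} (hg : Differentiable ℂ g) (h0 : ∀ z, g z ≠ 0) :
    ∃ h : ℂ → ℂ, Differentiable ℂ h ∧ ∀ z, g z = Complex.exp (h z) := by
  have hd : Differentiable ℂ (deriv g) :=
    fun z => ((hg.analyticAt z).deriv).differentiableAt
  have hq : Differentiable ℂ fun z => deriv g z / g z := fun z => (hd z).div (hg z) (h0 z)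
  obtain ⟨h, hh⟩ := hq.isExactOn_univ
  have hh' : ∀ z, HasDerivAt h (deriv g z / g z) z := fun z => hh z (Set.mem_univ z)
  have hc : ∀ z, g z * Complex.exp (-h z) = g 0 * Complex.exp (-h 0) := by
    intro z
    refine is_const_of_deriv_eq_zero (f := fun z => g z * Complex.exp (-h z)) ?_ ?_ z 0
    · intro z
      exact (hg z).mul ((hh' z).differentiableAt.neg.cexp)
    · intro z
      have h1 : HasDerivAt (fun z => g z * Complex.exp (-h z))
          (deriv g z * Complex.exp (-h z) +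
            g z * (Complex.exp (-h z) * -(deriv g z / g z))) z :=
        (hg z).hasDerivAt.mul ((hh' z).neg.cexp)
      rw [h1.deriv]
      have := h0 z
      field_simp
      ring
  set c : ℂ := g 0 * Complex.exp (-h 0) with hcdef
  have hc0 : c ≠ 0 := mul_ne_zero (h0 0) (Complex.exp_ne_zero _)
  refine ⟨fun z => h z + Complex.log c, ?_, fun z => ?_⟩
  · intro z
    exact (hh' z).differentiableAt.add_const _
  · have h1 := hc z
    rw [Complex.exp_add, Complex.exp_log hc0, ← h1]
    rw [mul_comm, mul_assoc, ← Complex.exp_add]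
    simp


end Pool.Agent.H89T
end

-- from Lib.H89T.DP8
section

set_option autoImplicit false

/-!
H89T, removal of the exceptional set: elimination.
-/

open MvPolynomial

namespace Pool.Agent.H89T

variable {n k : ℕ}

/-- The form `F` in the coordinates in which the base point is `(1, a)`. -/
noncomputable def shear {A : Type} [CommRing A] (a : Fin n → A)
    (F : MvPolynomial (Fin (n + 1)) A) : MvPolynomial (Fin (n + 1)) A :=
  aeval (Fin.cons (X 0) (fun b => X b.succ + C (a b) * X 0) :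
    Fin (n + 1) → MvPolynomial (Fin (n + 1)) A) F

theorem shear_homogeneous {A : Type} [CommRing A] (a : Fin n → A)
    {F : MvPolynomial (Fin (n + 1)) A} (hF : F.IsHomogeneous k) :
    (shear a F).IsHomogeneous k := by
  have h := hF.aeval (Fin.cons (X 0) (fun b => X b.succ + C (a b) * X 0) :
    Fin (n + 1) → MvPolynomial (Fin (n + 1)) A) (n := 1) (fun i => by
      refine Fin.cases ?_ (fun b => ?_) i
      · rw [Fin.cons_zero]
        exact isHomogeneous_X _ _
      · rw [Fin.cons_succ]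
        exact (isHomogeneous_X _ _).add ((isHomogeneous_C _ _).mul (isHomogeneous_X _ _)))
  rwa [one_mul] at h


theorem shear_shear {A : Type} [CommRing A] (a : Fin n → A) (F : MvPolynomial (Fin (n + 1)) A) :
    shear a (shear (fun b => - a b) F) = F := by
  induction F using MvPolynomial.induction_on with
  | C x => simp [shear, MvPolynomial.algebraMap_eq]
  | add p q hp hq => 
    simp only [shear, map_add] at hp hq ⊢
    rw [hp, hq]
  | mul_X p i hp =>
    simp only [shear, map_mul, aeval_X] at hp ⊢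
    rw [hp]
    congr 1
    refine Fin.cases ?_ (fun b => ?_) i
    · simp
    · simp [MvPolynomial.algebraMap_eq]

theorem eval_shear {A : Type} [CommRing A] (a : Fin n → A) (F : MvPolynomial (Fin (n + 1)) A)
    (x : Fin (n + 1) → A) :
    eval x (shear a F) = eval (Fin.cons (x 0) (fun b => x b.succ + a b * x 0)) F := by
  induction F using MvPolynomial.induction_on with
  | C x => simp [shear, MvPolynomial.algebraMap_eq]
  | add p q hp hq => 
    simp only [shear, map_add] at hp hq ⊢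
    rw [hp, hq]
  | mul_X p i hp =>
    simp only [shear, map_mul, aeval_X, eval_X] at hp ⊢
    rw [hp]
    congr 1
    refine Fin.cases ?_ (fun b => ?_) i
    · simp
    · simp


theorem map_big {A B : Type} [CommRing A] [CommRing B] [Algebra ℂ A] [Algebra ℂ B]
    (φ : A →ₐ[ℂ] B) {c : ℕ} (lam : ℂ) (ψ : MvPolynomial (Fin (n + 1) ⊕ Fin c) ℂ)
    (g : MvPolynomial (Fin (n + 1)) A) :
    map (φ : A →+* B) (big A lam ψ g) = big B lam ψ (map (φ : A →+* B) g) := by
  rw [big, big, map_mul, map_C, map_add, map_rename, map_map]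
  have h1 : (φ : A →+* B).comp (algebraMap ℂ A) = algebraMap ℂ B := φ.comp_algebraMap
  have h2 : (φ : A →+* B) (algebraMap ℂ A lam) = algebraMap ℂ B lam := φ.commutes lam
  rw [h1, h2]

theorem hom_eval {A B ι : Type} [CommRing A] [CommRing B] (φ : A →+* B) (x : ι → A)
    (F : MvPolynomial ι A) : φ (eval x F) = eval (fun i => φ (x i)) (map φ F) := by
  induction F using MvPolynomial.induction_on with
  | C x => simp
  | add p q hp hq => rw [map_add, map_add, map_add, map_add, hp, hq]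
  | mul_X p i hp => rw [map_mul, map_mul, map_mul, map_mul, hp, map_X, eval_X, eval_X]



end Pool.Agent.H89T
end

-- from Lib.H89T.DP3
section

set_option autoImplicit false

/-!
H89T: the second main theorem, pointed version, from the algebraic theorems and the analytic core.
-/

open MvPolynomial Real MeasureTheory Pool.Agent.H67T

namespace Pool.Agent.H89T

variable {n k : ℕ}


/-- The data of a curve and a form. -/
noncomputable def mkData {F : MvPolynomial (Fin (n + 1)) ℂ} (hF : F.IsHomogeneous k)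
    {y : ℂ → Fin (n + 1) → ℂ} (hy : IsHol y) (h0 : ∃ z, eval (y z) F ≠ 0)
    (hc : ∀ c, ∃ z, y z c ≠ 0) : CurveData n k where
  y := y
  Fy := fun z => eval (y z) F
  a := fun c => cfF k c F
  hy := hy
  hF := differentiable_eval hy.diff F
  hF0 := h0
  hy0 := hc
  hFc := fun c _ hz => ev_cf c hF hz
  hFle := ⟨_, fun z => GH4_eval_le hF (y z)⟩

/-- A nonconstant curve is not stationary at some point where `g ≠ 0`, in the chart `c`. -/
theorem dp3_point {y : ℂ → Fin (n + 1) → ℂ} (hy : IsHol y)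
    (hnc : ∃ z w, ∀ c : ℂ, y w ≠ c • y z) (c : Fin (n + 1)) {g : ℂ → ℂ} (hg : Continuous g)
    (hgc : ∀ z, g z ≠ 0 → y z c ≠ 0) {z₀ : ℂ} (hz₀ : g z₀ ≠ 0) :
    ∃ z, g z ≠ 0 ∧ ∃ b, deriv (fun w => ch c y w b) z ≠ 0 := by
  by_contra hcon
  push Not at hcon
  have hU : IsOpen {z | g z ≠ 0} := isOpen_ne_fun hg continuous_const
  obtain ⟨δ, hδ, hball⟩ := Metric.isOpen_iff.1 hU z₀ hz₀
  have hyc : ∀ z ∈ Metric.ball z₀ δ, y z c ≠ 0 := fun z hz => hgc z (hball hz)
  have hconst : ∀ b, ∀ z ∈ Metric.ball z₀ δ, ch c y z b = ch c y z₀ b := by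
    intro b z hz
    have hd : DifferentiableOn ℂ (fun w => ch c y w b) (Metric.ball z₀ δ) := by
      intro w hw
      exact ((hy.diff _ w).div (hy.diff _ w) (hyc w hw)).differentiableWithinAt
    exact IsOpen.is_const_of_deriv_eq_zero Metric.isOpen_ball
      (convex_ball z₀ δ).isPreconnected hd (fun w hw => hcon w (hball hw) b) hz
      (Metric.mem_ball_self hδ)
  have hm : ∀ b, ∀ w, y w (c.succAbove b) * y z₀ c - y z₀ (c.succAbove b) * y w c = 0 := by
    intro b
    have hd : Differentiable ℂ fun w =>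
        y w (c.succAbove b) * y z₀ c - y z₀ (c.succAbove b) * y w c := by
      have h := hy.diff
      fun_prop
    have h1 : (fun w => y w (c.succAbove b) * y z₀ c - y z₀ (c.succAbove b) * y w c) =ᶠ[nhds z₀]
        0 := by
      filter_upwards [Metric.ball_mem_nhds z₀ hδ] with w hw
      have h2 := hconst b w hw
      simp only [ch] at h2
      rw [div_eq_div_iff (hyc w hw) (hyc z₀ (Metric.mem_ball_self hδ))] at h2
      rw [h2, Pi.zero_apply, sub_self]
    have h3 := AnalyticOnNhd.eqOn_zero_of_preconnected_of_eventuallyEq_zero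
      (f := fun w => y w (c.succAbove b) * y z₀ c - y z₀ (c.succAbove b) * y w c)
      (U := Set.univ) (fun w _ => hd.analyticAt w) isPreconnected_univ (Set.mem_univ z₀) h1
    intro w
    exact h3 (Set.mem_univ w)
  have hy0 := hyc z₀ (Metric.mem_ball_self hδ)
  have hprop : ∀ w, y w = (y w c / y z₀ c) • y z₀ := by
    intro w
    funext i
    rw [Pi.smul_apply, smul_eq_mul]
    rcases Fin.eq_self_or_eq_succAbove c i with h | ⟨b, h⟩
    · rw [h]
      field_simp
    · rw [h]
      have := hm b w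
      field_simp
      linear_combination this
  obtain ⟨z, w, h⟩ := hnc
  have hz : y z c / y z₀ c ≠ 0 := by
    intro h0
    apply hy.ne_zero z
    rw [hprop z, h0, zero_smul]
  apply h ((y w c / y z₀ c) / (y z c / y z₀ c))
  calc y w = (y w c / y z₀ c) • y z₀ := hprop w
    _ = ((y w c / y z₀ c) / (y z c / y z₀ c)) • ((y z c / y z₀ c) • y z₀) := by
        rw [smul_smul, div_mul_cancel₀ _ hz]
    _ = ((y w c / y z₀ c) / (y z c / y z₀ c)) • y z := by rw [← hprop z]

theorem HasWt.mono {r d d' : ℕ} {P : MvPolynomial (JV n r) ℂ} (h : HasWt d P) (hd : d ≤ d') :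
    HasWt d' P := fun m hm => (h m hm).trans hd


end Pool.Agent.H89T
end

-- from Lib.H89T.DP9
section

set_option autoImplicit false

/-!
H89T: the second main theorem without exceptional set.
-/

open MvPolynomial Real MeasureTheory Pool.Agent.H67T

namespace Pool.Agent.H89T

variable {n k : ℕ}


theorem N1_congr {g h : ℂ → ℂ} (hgh : ∀ z, g z = 0 ↔ h z = 0) (r : ℝ) : N1 g r = N1 h r := by
  simp only [N1, hgh]











end Pool.Agent.H89T
end

-- from Lib.H89T.DP5
section

set_option autoImplicit false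

/-!
H89T: entire curves in weakly ramified covers.
-/

open MvPolynomial Real MeasureTheory Pool.Agent.H67T

namespace Pool.Agent.H89T

variable {m n : ℕ}

/-- Composition with the exponential function. -/
theorem nonconstant_exp {y : ℂ → Fin n → ℂ} (hy : IsHol y)
    (hnc : ∃ z w, ∀ c : ℂ, y w ≠ c • y z) :
    ∃ z w, ∀ c : ℂ, y (Complex.exp w) ≠ c • y (Complex.exp z) := by
  by_contra hcon
  push Not at hcon
  have h1 : ∀ a b : ℂ, a ≠ 0 → b ≠ 0 → ∀ i j, y a i * y b j = y a j * y b i := by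
    intro a b ha hb i j
    obtain ⟨c, hc⟩ := hcon (Complex.log a) (Complex.log b)
    rw [Complex.exp_log ha, Complex.exp_log hb] at hc
    rw [hc, Pi.smul_apply, Pi.smul_apply, smul_eq_mul, smul_eq_mul]
    ring
  have hcont : ∀ i, Continuous fun z => y z i := fun i => (hy.diff i).continuous
  have h2 : ∀ a b : ℂ, b ≠ 0 → ∀ i j, y a i * y b j = y a j * y b i := by
    intro a b hb i j
    have h3 : (fun a => y a i * y b j) = fun a => y a j * y b i := by
      apply Continuous.ext_on (dense_compl_singleton (0 : ℂ)) ((hcont i).mul_const _)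
        ((hcont j).mul_const _)
      intro a ha
      exact h1 a b ha hb i j
    exact congrFun h3 a
  have h4 : ∀ a b : ℂ, ∀ i j, y a i * y b j = y a j * y b i := by
    intro a b i j
    have h3 : (fun b => y a i * y b j) = fun b => y a j * y b i := by
      apply Continuous.ext_on (dense_compl_singleton (0 : ℂ)) ((hcont j).const_mul _)
        ((hcont i).const_mul _)
      intro b hb
      exact h2 a b hb i j
    exact congrFun h3 b
  obtain ⟨z, w, hzw⟩ := hnc
  obtain ⟨i, hi⟩ : ∃ i, y z i ≠ 0 := by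
    by_contra hcon
    push Not at hcon
    exact hy.ne_zero z (funext hcon)
  apply hzw (y w i / y z i)
  funext j
  rw [Pi.smul_apply, smul_eq_mul, div_mul_eq_mul_div, eq_div_iff hi]
  exact (h4 w z i j).symm


end Pool.Agent.H89T
end
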