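import Pool.Agent.Lib.H1M.PB.M006
import Pool.Agent.Lib.H1M.PB.M008
import Pool.Agent.Lib.H1M.PB.M010
import Pool.Agent.Lib.H1M.PB.M012
import Pool.Agent.Lib.H1M.PB.M013
import Pool.Agent.Lib.H1M.PB.M014
import Pool.Agent.Lib.H1M.PB.M016
import Pool.Agent.Lib.H1M.PB.M019
import Pool.Agent.Lib.H1M.PB.M020

/-! Merged copies (to shorten the build) of Lib.H67T.GH6, Lib.H67T.NJ4, Lib.H89T.DH, Lib.H89T.B6, Lib.H89T.C8, Lib.H89T.C11, Lib.H89T.AlgFinal. -/

-- from Lib.H67T.GH6
section

set_option autoImplicit false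

/-!
CHUNK GH6.
-/

open MvPolynomial Real Metric MeasureTheory

namespace Pool.Agent.H67T

/-- The ideal of the polynomials vanishing to order at least `a` along `u` at `z₀`. -/
noncomputable def GH6_K {m : ℕ} (u : ℂ → Fin m → ℂ)
    (hu : ∀ F : MvPolynomial (Fin m) ℂ, Differentiable ℂ fun z => eval (u z) F) (z₀ : ℂ) (a : ℕ) :
    Ideal (MvPolynomial (Fin m) ℂ) where
  carrier := {F | (a : ℕ∞) ≤ analyticOrderAt (fun z => eval (u z) F) z₀}
  zero_mem' := by
    have h : analyticOrderAt (fun z => eval (u z) (0 : MvPolynomial (Fin m) ℂ)) z₀ = ⊤ := by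
      rw [analyticOrderAt_eq_top]
      exact Filter.Eventually.of_forall fun z => by simp
    simp only [Set.mem_ofPred_eq]
    rw [h]
    exact le_top
  add_mem' := by
    intro F G hF hG
    simp only [Set.mem_ofPred_eq] at hF hG ⊢
    have h := le_analyticOrderAt_add (f := fun z => eval (u z) F) (g := fun z => eval (u z) G)
      (z₀ := z₀)
    have h2 : (fun z => eval (u z) (F + G)) =
        (fun z => eval (u z) F) + fun z => eval (u z) G := by
      funext z; simp
    rw [h2]
    exact (le_min hF hG).trans h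
  smul_mem' := by
    intro F G hG
    simp only [Set.mem_ofPred_eq] at hG ⊢
    have h2 : (fun z => eval (u z) (F • G)) =
        (fun z => eval (u z) F) * fun z => eval (u z) G := by
      funext z; simp
    rw [h2, analyticOrderAt_mul ((hu F).analyticAt z₀) ((hu G).analyticAt z₀)]
    exact hG.trans le_add_self

theorem GH6_mul {m : ℕ} {u : ℂ → Fin m → ℂ}
    (hu : ∀ F : MvPolynomial (Fin m) ℂ, Differentiable ℂ fun z => eval (u z) F) (z₀ : ℂ)
    (a b : ℕ) : GH6_K u hu z₀ a * GH6_K u hu z₀ b ≤ GH6_K u hu z₀ (a + b) := by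
  rw [Ideal.mul_le]
  intro F hF G hG
  change (a : ℕ∞) ≤ _ at hF
  change (b : ℕ∞) ≤ _ at hG
  change ((a + b : ℕ) : ℕ∞) ≤ _
  have h2 : (fun z => eval (u z) (F * G)) =
      (fun z => eval (u z) F) * fun z => eval (u z) G := by
    funext z; simp
  rw [h2, analyticOrderAt_mul ((hu F).analyticAt z₀) ((hu G).analyticAt z₀)]
  push_cast
  exact add_le_add hF hG

theorem GH6_pow {m : ℕ} {u : ℂ → Fin m → ℂ}
    (hu : ∀ F : MvPolynomial (Fin m) ℂ, Differentiable ℂ fun z => eval (u z) F) (z₀ : ℂ)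
    (a e : ℕ) : GH6_K u hu z₀ a ^ e ≤ GH6_K u hu z₀ (e * a) := by
  induction e with
  | zero =>
    rw [pow_zero, zero_mul]
    intro F _
    change ((0 : ℕ) : ℕ∞) ≤ _
    simp
  | succ e ih =>
    rw [pow_succ, add_mul, one_mul]
    exact (Ideal.mul_mono_left ih).trans (GH6_mul hu z₀ _ _)



end Pool.Agent.H67T
end

-- from Lib.H67T.NJ4
section

set_option autoImplicit false

/-!
CHUNK NJ4.
-/

open Real Metric MeasureTheory

namespace Pool.Agent.H67T

theorem NJ4_N1 {g : ℂ → ℂ} {r : ℝ} {s : Finset ℂ} (hs1 : ∀ a, ‖a‖ ≤ r → g a = 0 → a ∈ s)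
    (hs2 : ∀ a ∈ s, ‖a‖ ≤ r) :
    N1 g r = ∑ a ∈ s, (if g a = 0 then (1 : ℝ) else 0) * log (r / ‖a‖) +
      (if g 0 = 0 then (1 : ℝ) else 0) * log r := by
  unfold N1
  rw [finsum_mem_def, finsum_eq_sum_of_support_subset (s := s)]
  · congr 1
    · refine Finset.sum_congr rfl fun a ha => ?_
      by_cases h : g a = 0
      · rw [Set.indicator_of_mem (show a ∈ {a : ℂ | ‖a‖ ≤ r ∧ g a = 0} from ⟨hs2 a ha, h⟩),
          if_pos h, one_mul]
      · rw [Set.indicator_of_notMem (fun hc => h hc.2), if_neg h, zero_mul]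
    · split_ifs <;> simp
  · intro a ha
    have h1 : a ∈ {a : ℂ | ‖a‖ ≤ r ∧ g a = 0} := by
      by_contra hc
      rw [Function.mem_support, Set.indicator_of_notMem hc] at ha
      exact ha rfl
    exact hs1 a h1.1 h1.2

/-- CHUNK NJ4.  Proof: let `s` be the finite set of all points `a`, `‖a‖ ≤ r`, where one of the
`g i` or `Q` vanishes.  Apply `jensen` to all `g i` and to `Q`.  For `a ∈ s` the condition `hord`
with `m i = analyticOrderNatAt (g i) a` gives
`∑ i, analyticOrderNatAt (g i) a ≤ analyticOrderNatAt Q a + #{i | g i a = 0}`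
(`n ≤ (n - 1) + 1` and the order is positive exactly if `g i a = 0`); multiply by
`log (r / ‖a‖) ≥ 0` and sum; the same at `a = 0` with `log r ≥ 0`.  `N1 (g i) r` is
`∑ a ∈ s with g i a = 0, log (r / ‖a‖) + if g i 0 = 0 then log r else 0`
(`finsum_mem_eq_sum_filter`...). -/
theorem jensen_compare {k : ℕ} {g : Fin k → ℂ → ℂ} {Q : ℂ → ℂ}
    (hg : ∀ i, Differentiable ℂ (g i)) (hg0 : ∀ i, ∃ z, g i z ≠ 0) (hQ : Differentiable ℂ Q)
    (hQ0 : ∃ z, Q z ≠ 0)
    (hord : ∀ z : ℂ, ∀ m : Fin k → ℕ, (∀ i, (m i : ℕ∞) ≤ analyticOrderAt (g i) z) →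
      ((∑ i, (m i - 1) : ℕ) : ℕ∞) ≤ analyticOrderAt Q z) :
    ∃ K : ℝ, ∀ r : ℝ, 1 ≤ r → ∑ i, circleAverage (fun z => log ‖g i z‖) 0 r ≤
      circleAverage (fun z => log ‖Q z‖) 0 r + ∑ i, N1 (g i) r + K := by
  choose K hK using fun i => jensen (hg i) (hg0 i)
  obtain ⟨KQ, hKQ⟩ := jensen hQ hQ0
  refine ⟨∑ i, K i - KQ, fun r hr => ?_⟩
  -- the finite set of points
  have hfinQ := NJ1_fin hQ hQ0 r
  have hfin : ({a : ℂ | ‖a‖ ≤ r ∧ (Q a = 0 ∨ ∃ i, g i a = 0)}).Finite := by
    refine (hfinQ.union (Set.finite_iUnion fun i => NJ1_fin (hg i) (hg0 i) r)).subset ?_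
    rintro a ⟨h1, h2 | ⟨i, h2⟩⟩
    · exact Or.inl ⟨h1, h2⟩
    · exact Or.inr (Set.mem_iUnion.2 ⟨i, h1, h2⟩)
  set s : Finset ℂ := hfin.toFinset with hs
  have hmem : ∀ a, a ∈ s ↔ ‖a‖ ≤ r ∧ (Q a = 0 ∨ ∃ i, g i a = 0) := fun a => by
    rw [hs]; simp
  have hs2 : ∀ a ∈ s, ‖a‖ ≤ r := fun a ha => ((hmem a).1 ha).1
  have hsQ : ∀ a, ‖a‖ ≤ r → Q a = 0 → a ∈ s := fun a h1 h2 => (hmem a).2 ⟨h1, Or.inl h2⟩
  have hsg : ∀ i a, ‖a‖ ≤ r → g i a = 0 → a ∈ s := fun i a h1 h2 =>
    (hmem a).2 ⟨h1, Or.inr ⟨i, h2⟩⟩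
  -- comparison of the orders
  have hcmp : ∀ a : ℂ, ∑ i, (analyticOrderNatAt (g i) a : ℝ) ≤
      (analyticOrderNatAt Q a : ℝ) + ∑ i, (if g i a = 0 then (1 : ℝ) else 0) := by
    intro a
    have h1 : ((∑ i, (analyticOrderNatAt (g i) a - 1) : ℕ) : ℕ∞) ≤ analyticOrderAt Q a := by
      refine hord a (fun i => analyticOrderNatAt (g i) a) fun i => ?_
      exact (Nat.cast_analyticOrderNatAt (NJ1_ne_top (hg i) (hg0 i) a)).le
    rw [← Nat.cast_analyticOrderNatAt (NJ1_ne_top hQ hQ0 a)] at h1
    have h2 : ∑ i, (analyticOrderNatAt (g i) a - 1) ≤ analyticOrderNatAt Q a := by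
      exact_mod_cast h1
    have h3 : ∀ i, analyticOrderNatAt (g i) a ≤
        (analyticOrderNatAt (g i) a - 1) + (if g i a = 0 then 1 else 0) := by
      intro i
      by_cases h : g i a = 0
      · rw [if_pos h]; omega
      · have : analyticOrderNatAt (g i) a = 0 := by
          by_contra hc
          exact h (apply_eq_zero_of_analyticOrderNatAt_ne_zero hc)
        rw [if_neg h, this]
    have h4 : ∑ i, analyticOrderNatAt (g i) a ≤
        analyticOrderNatAt Q a + ∑ i, (if g i a = 0 then 1 else 0) := by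
      calc ∑ i, analyticOrderNatAt (g i) a ≤
          ∑ i, ((analyticOrderNatAt (g i) a - 1) + (if g i a = 0 then 1 else 0)) :=
            Finset.sum_le_sum fun i _ => h3 i
        _ = ∑ i, (analyticOrderNatAt (g i) a - 1) + ∑ i, (if g i a = 0 then 1 else 0) :=
            Finset.sum_add_distrib
        _ ≤ _ := Nat.add_le_add_right h2 _
    exact_mod_cast h4
  have hlog : ∀ a ∈ s, 0 ≤ log (r / ‖a‖) := by
    intro a ha
    rcases (norm_nonneg a).eq_or_lt with h | h
    · rw [← h]; simp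
    · exact log_nonneg ((one_le_div h).2 (hs2 a ha))
  have e1 : ∀ i, circleAverage (fun z => log ‖g i z‖) 0 r =
      ∑ a ∈ s, (analyticOrderNatAt (g i) a : ℝ) * log (r / ‖a‖) +
          (analyticOrderNatAt (g i) 0 : ℝ) * log r + K i := fun i => hK i r hr s (hsg i) hs2
  have e2 := hKQ r hr s hsQ hs2
  have e3 : ∀ i, N1 (g i) r = ∑ a ∈ s, (if g i a = 0 then (1 : ℝ) else 0) * log (r / ‖a‖) +
      (if g i 0 = 0 then (1 : ℝ) else 0) * log r := fun i => NJ4_N1 (hsg i) hs2
  rw [Finset.sum_congr rfl fun i _ => e1 i, Finset.sum_congr rfl fun i _ => e3 i, e2]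
  simp only [Finset.sum_add_distrib, ← Finset.sum_mul]
  rw [Finset.sum_comm, Finset.sum_comm (f := fun i a => (if g i a = 0 then (1 : ℝ) else 0) * _)]
  simp only [← Finset.sum_mul]
  have h5 : ∑ a ∈ s, (∑ i, (analyticOrderNatAt (g i) a : ℝ)) * log (r / ‖a‖) ≤
      ∑ a ∈ s, ((analyticOrderNatAt Q a : ℝ) + ∑ i, (if g i a = 0 then (1 : ℝ) else 0)) *
        log (r / ‖a‖) :=
    Finset.sum_le_sum fun a ha => mul_le_mul_of_nonneg_right (hcmp a) (hlog a ha)
  have h6 : (∑ i, (analyticOrderNatAt (g i) 0 : ℝ)) * log r ≤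
      ((analyticOrderNatAt Q 0 : ℝ) + ∑ i, (if g i 0 = 0 then (1 : ℝ) else 0)) * log r :=
    mul_le_mul_of_nonneg_right (hcmp 0) (log_nonneg hr)
  simp only [add_mul, Finset.sum_add_distrib] at h5 h6
  linarith

end Pool.Agent.H67T
end

-- from Lib.H89T.DH
section

set_option autoImplicit false

/-!
CHUNK DH (D7).  Absorption of the error term (Borel's lemma).
-/

open Real MeasureTheory Pool.Agent.H67T

namespace Pool.Agent.H89T

theorem DH_num {β c T K C L S er δ a b : ℝ} (hβ : β = a - b) (hC : 0 ≤ C) (hT1 : 1 ≤ T)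
    (hcT : T - 2 * K ≤ c) (hβ0 : 0 < β) (hδ : δ = β / (5 * C + 1))
    (her : er ≤ 5 * (log T + L)) (h : a * c ≤ S + C * er) :
    b * c ≤ S + 5 * C * L + (2 * K * β + 5 * C * |log δ|) := by
  have hδpos : 0 < δ := by rw [hδ]; positivity
  have e1 : b * c = a * c - β * c := by rw [hβ]; ring
  have e2 : β * (T - 2 * K) ≤ β * c := mul_le_mul_of_nonneg_left hcT hβ0.le
  have e3 : C * er ≤ C * (5 * (log T + L)) := mul_le_mul_of_nonneg_left her hC
  have hTpos : 0 < T := by linarith
  have e4 : log T ≤ δ * T - log δ := by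
    have h1 := Real.log_le_sub_one_of_pos (mul_pos hδpos hTpos)
    rw [Real.log_mul hδpos.ne' hTpos.ne'] at h1
    linarith
  have e5 : 5 * C * log T ≤ 5 * C * (δ * T - log δ) := mul_le_mul_of_nonneg_left e4 (by positivity)
  have e6 : 5 * C * δ ≤ β := by
    rw [hδ, ← mul_div_assoc, div_le_iff₀ (by positivity)]
    nlinarith
  have e7 : 5 * C * δ * T ≤ β * T := mul_le_mul_of_nonneg_right e6 hTpos.le
  have e8 : -(5 * C * log δ) ≤ 5 * C * |log δ| := by
    have := mul_le_mul_of_nonneg_left (neg_abs_le (log δ)) (by positivity : 0 ≤ 5 * C)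
    linarith
  rw [e1]
  nlinarith

/-- CHUNK DH.  As in `H67T.SM2`. -/
theorem absorb {n : ℕ} {y : ℂ → Fin n → ℂ} (hy : IsHol y) {a b C : ℝ} (hab : b < a) (hC : 0 ≤ C)
    {N : ℝ → ℝ} (h : ∀ r R : ℝ, 1 ≤ r → r < R → a * chi y r ≤ N r + C * err y r R) :
    ∃ (C' : ℝ) (E : Set ℝ), volume E < ⊤ ∧ ∀ r : ℝ, 2 ≤ r → r ∉ E →
      b * chi y r ≤ N r + C' * log r := by
  set K : ℝ := max 1 |chi y 1| with hK
  have hK1 : 1 ≤ K := le_max_left _ _
  have hlow : ∀ r : ℝ, 1 ≤ r → -K ≤ chi y r := by
    intro r hr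
    have h1 := chi_mono hy (r := 1) (R := r) one_pos hr
    have h2 := neg_abs_le (chi y 1)
    have h3 : |chi y 1| ≤ K := le_max_right _ _
    linarith
  set T : ℝ → ℝ := fun r => max K (chi y r) with hT
  have hTmono : MonotoneOn T (Set.Ici 1) := by
    intro a ha b hb hab
    exact max_le_max le_rfl (chi_mono hy (lt_of_lt_of_le one_pos ha) hab)
  have hT1 : ∀ r, 1 ≤ r → 1 ≤ T r := fun r _ => hK1.trans (le_max_left _ _)
  obtain ⟨E, hEm, hEv, hE⟩ := borel hTmono hT1
  set β : ℝ := a - b with hβ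
  have hβ0 : 0 < β := by rw [hβ]; linarith
  set δ : ℝ := β / (5 * C + 1) with hδ
  have hlog2 : 0 < log 2 := Real.log_pos (by norm_num)
  refine ⟨5 * C + abs (2 * K * β + 5 * C * |log δ|) / log 2, E, lt_of_le_of_lt hEv (by simp), ?_⟩
  intro r hr hrE
  have hr1 : 1 ≤ r := by linarith
  have hTr := hT1 r hr1
  have hTpos : 0 < T r := by linarith
  have hR := hE r hr1 hrE
  have hR1 : 1 ≤ r + 1 / T r := by
    have : 0 < 1 / T r := by positivity
    linarith
  have hrR : r < r + 1 / T r := by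
    have : 0 < 1 / T r := by positivity
    linarith
  have habs : |chi y (r + 1 / T r)| ≤ 2 * T r := by
    rw [abs_le]
    constructor
    · have h1 := hlow _ hR1
      have h2 : K ≤ T r := le_max_left _ _
      linarith
    · exact le_trans (le_max_right _ _) hR
  have herr := err_le (y := y) hr hTr habs
  have hcT : T r - 2 * K ≤ chi y r := by
    have h1 := hlow r hr1
    have h2 : T r = max K (chi y r) := rfl
    rcases le_total K (chi y r) with h3 | h3
    · rw [h2, max_eq_right h3]; linarith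
    · rw [h2, max_eq_left h3]; linarith
  have hmain := h r (r + 1 / T r) hr1 hrR
  have hnum := DH_num (β := β) (c := chi y r) (T := T r) (K := K) (C := C) (L := log r)
    (S := N r) (er := err y r (r + 1 / T r)) (δ := δ) (a := a) (b := b) hβ hC hTr hcT hβ0 hδ herr
    hmain
  refine hnum.trans ?_
  have hlr : log 2 ≤ log r := Real.log_le_log (by norm_num) hr
  have h9 : 2 * K * β + 5 * C * |log δ| ≤ abs (2 * K * β + 5 * C * |log δ|) / log 2 * log r := by
    calc 2 * K * β + 5 * C * |log δ| ≤ abs (2 * K * β + 5 * C * |log δ|) := le_abs_self _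
      _ = abs (2 * K * β + 5 * C * |log δ|) / log 2 * log 2 := by
        rw [div_mul_cancel₀ _ hlog2.ne']
      _ ≤ _ := mul_le_mul_of_nonneg_left hlr (by positivity)
  linarith

end Pool.Agent.H89T
end

-- from Lib.H89T.B6
section

set_option autoImplicit false

/-!
CHUNK B6.  Existence of operators with property (B).
-/

open MvPolynomial

namespace Pool.Agent.H89T

variable {n k r : ℕ}

theorem B6_hasMon_monomial {R : Type} [CommRing R] {d M : ℕ} {m : JV n r →₀ ℕ}
    (hm : m ∈ Mon n r d M) (c : R) : HasMon d M (monomial m c) := by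
  intro m' hm'
  have := Finset.mem_singleton.mp (support_monomial_subset hm')
  subst this
  exact hm

/-- the sum of multiples of distinct monomials has the obvious coefficients -/
theorem B6_coeff {R : Type} [CommRing R] {s : Set (JV n r →₀ ℕ)} [Fintype s] (p : s → R) (m : s) :
    coeff m.1 (∑ i : s, p i • monomial i.1 (1 : R)) = p m := by
  classical
  rw [coeff_sum, Finset.sum_eq_single m]
  · simp
  · intro b _ hb
    rw [coeff_smul, coeff_monomial, if_neg (fun h => hb (Subtype.ext h)), smul_zero]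
  · intro h
    exact absurd (Finset.mem_univ m) h

/-- CHUNK B6.  Proof: let `c = cB r`, `D = d + c M k`, `T j` = multiplication by
`a_{k e_i} ^ D F_j ^ (c M)`.  For `m ∈ Mon n r d M`, `T j (monomial m 1)` is in
`I + span NormJ`, `I = (u 0, ..., u r)` (`eliminate_all`, `reduce_u0`, `HasMonJ`).
`exists_coeffs` (with `t = 1`, `q = n`) gives `p ≠ 0`; `P₀ = ∑ p m • monomial m 1 ≠ 0` satisfies
`a_{k e_i} ^ D F_j ^ (c M) P₀ ∈ I` for all `j`.  The ideal `(I : P₀) = {g | g P₀ ∈ I}`
contains these products and `u 0`; so its radical contains `C (a_{k e_i}) * F_j` for all `j` and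
`u 0`, hence `C (a_{k e_i} * t)` with the `t` of `exists_disc`.  So
`(a_{k e_i} t) ^ N • P₀ ∈ I` for some `N`; take `P = (a_{k e_i} t) ^ N • P₀ ≠ 0`. -/
theorem exists_propB {d M : ℕ} (hn : 1 ≤ n) (hk : 2 ≤ k) (i : Fin n)
    (hc : ∑ j : Fin n, Nat.card (NormJ n r k (d + cB r * M * k) (cB r * M) i j) <
      Nat.card (Mon n r d M)) :
    ∃ P : MvPolynomial (JV n r) (RR n k), P ≠ 0 ∧ HasMon d M P ∧ PropB (gen n k) P := by
  classical
  set D : ℕ := d + cB r * M * k with hD
  set c : ℕ := cB r * M with hcdef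
  set I : Ideal (MvPolynomial (JV n r) (RR n k)) :=
    Ideal.span (Set.range fun i : Fin (r + 1) =>
      (uR (gen n k) (i : ℕ) : MvPolynomial (JV n r) (RR n k))) with hI
  set A : RR n k := gen n k (top n k i) with hA
  have hA0 : A ≠ 0 := X_ne_zero _
  have hI1 : I1 (r := r) (gen n k) ≤ I := by
    rw [I1, Ideal.span_le]
    rintro _ ⟨l, rfl⟩
    exact Ideal.subset_span ⟨l.succ, rfl⟩
  have hu0 : (uR (gen n k) 0 : MvPolynomial (JV n r) (RR n k)) ∈ I :=
    Ideal.subset_span ⟨0, rfl⟩
  have hI0 : Ideal.span {(uR (gen n k) 0 : MvPolynomial (JV n r) (RR n k))} ≤ I := by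
    rw [Ideal.span_le]
    rintro _ rfl
    exact hu0
  have : Fintype (Mon n r d M) := (Mon_finite n r d M).fintype
  have : ∀ j : Fin n, Fintype (NormJ n r k D c i j) := fun j => (NormJ_finite _ _ _ _ _ _ _).fintype
  obtain ⟨p, hp0, hp⟩ := exists_coeffs (R := RR n k) (V := MvPolynomial (JV n r) (RR n k))
    (ι := Mon n r d M) (q := n) (fun m => monomial m.1 (1 : RR n k))
    (fun j => LinearMap.mulLeft (RR n k) (C (A ^ D) * gR j (gen n k) ^ c))
    (fun _ => I.restrictScalars (RR n k))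
    (fun j => NormJ n r k D c i j) (fun l m => monomial m.1 (1 : RR n k)) (fun _ => 1)
    (by
      intro j m
      obtain ⟨w, hw, hw2⟩ := eliminate_all (gen n k) j (monomial m.1 (1 : RR n k))
        (B6_hasMon_monomial m.2 1)
      have h3 := reduce_u0 (gen n k) (by omega : 1 ≤ k) i j w hw
      rw [Set.image_eq_range] at h3
      rw [one_smul, LinearMap.mulLeft_apply]
      have e : C (A ^ D) * gR j (gen n k) ^ c * monomial m.1 (1 : RR n k) =
          C (A ^ D) * (gR j (gen n k) ^ c * monomial m.1 (1 : RR n k) - w) + A ^ D • w := by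
        rw [smul_eq_C_mul]
        ring
      rw [e]
      refine Submodule.add_mem _ (Submodule.mem_sup_left ?_) ?_
      · rw [Submodule.restrictScalars_mem]
        exact I.mul_mem_left _ (hI1 hw2)
      · exact (sup_le_sup_right (fun x hx => hI0 hx) _ : _ ≤ I.restrictScalars (RR n k) ⊔ _) h3)
    (by simpa only [Nat.card_eq_fintype_card] using hc)
  obtain ⟨m, hm⟩ := Function.ne_iff.mp hp0
  set P₀ : MvPolynomial (JV n r) (RR n k) := ∑ i : Mon n r d M, p i • monomial i.1 (1 : RR n k)
    with hP₀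
  have hP₀0 : P₀ ≠ 0 := by
    intro h0
    have h := congrArg (coeff m.1) h0
    rw [hP₀, B6_coeff, coeff_zero] at h
    exact hm h
  have hP₀M : HasMon d M P₀ :=
    HasMon.sum fun i _ => HasMon.smul _ (B6_hasMon_monomial i.2 1)
  set J : Ideal (MvPolynomial (JV n r) (RR n k)) :=
    Submodule.comap (LinearMap.toSpanSingleton (MvPolynomial (JV n r) (RR n k)) _ P₀) I with hJ
  have memJ : ∀ g, g ∈ J ↔ g * P₀ ∈ I := by
    intro g
    rw [hJ, Submodule.mem_comap, LinearMap.toSpanSingleton_apply, smul_eq_mul]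
  have hu0J : (uR (gen n k) 0 : MvPolynomial (JV n r) (RR n k)) ∈ J :=
    (memJ _).mpr (I.mul_mem_right _ hu0)
  have hgJ : ∀ j, C A * gR j (gen n k) ∈ J.radical := by
    intro j
    refine ⟨D + c, ?_⟩
    have h := hp j
    rw [Submodule.restrictScalars_mem, one_smul, LinearMap.mulLeft_apply] at h
    have h' := J.mul_mem_left (C (A ^ c) * gR j (gen n k) ^ D) ((memJ _).mpr h)
    have e : (C A * gR j (gen n k) : MvPolynomial (JV n r) (RR n k)) ^ (D + c) =
        C (A ^ c) * gR j (gen n k) ^ D * (C (A ^ D) * gR j (gen n k) ^ c) := by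
      rw [C_pow, C_pow, mul_pow]
      ring
    rw [e]
    exact h'
  obtain ⟨t, ht0, ht⟩ := exists_disc n k r hn hk
  have hrad : C A * (C t : MvPolynomial (JV n r) (RR n k)) ∈ J.radical := by
    refine Submodule.span_induction (p := fun x _ => C A * x ∈ J.radical) ?_ ?_ ?_ ?_ ht
    · rintro x (hx | ⟨j, rfl⟩)
      · rw [Set.mem_singleton_iff] at hx
        rw [hx]
        exact Ideal.mul_mem_left _ _ (Ideal.le_radical hu0J)
      · exact hgJ j
    · rw [mul_zero]
      exact Ideal.zero_mem _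
    · intro x y _ _ hx hy
      rw [mul_add]
      exact Ideal.add_mem _ hx hy
    · intro s x _ hx
      rw [smul_eq_mul, mul_left_comm]
      exact Ideal.mul_mem_left _ _ hx
  obtain ⟨N, hN⟩ := hrad
  refine ⟨(A * t) ^ N • P₀, smul_ne_zero (pow_ne_zero _ (mul_ne_zero hA0 ht0)) hP₀0,
    HasMon.smul _ hP₀M, ?_⟩
  rw [memJ, ← C_mul, ← C_pow, ← smul_eq_C_mul] at hN
  exact hN

end Pool.Agent.H89T
end

-- from Lib.H89T.C8
section

set_option autoImplicit false

/-!
CHUNK C8.  The fields span the tangent space at a good point.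
-/

open MvPolynomial

namespace Pool.Agent.H89T

variable {n k r : ℕ}

/-- CHUNK C8.  Powers of `x (t)` with `x_1 ≠ 0` span the polynomials modulo `t ^ (r + 1)`: every
vector `v : Fin (r + 1) → ℂ` is a combination of the vectors of the first `r + 1` coefficients of
`p ^ j`, `j ≤ r`, if `p.coeff 1 ≠ 0`.  (The powers of `p - C (p.coeff 0)` are triangular.) -/
theorem span_powers (p : Polynomial ℂ) (hp : p.coeff 1 ≠ 0) (v : Fin (r + 1) → ℂ) :
    v ∈ Submodule.span ℂ (Set.range fun j : Fin (r + 1) =>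
      fun l : Fin (r + 1) => (p ^ (j : ℕ)).coeff (l : ℕ)) := by
  classical
  set W := Submodule.span ℂ (Set.range fun j : Fin (r + 1) =>
      fun l : Fin (r + 1) => (p ^ (j : ℕ)).coeff (l : ℕ)) with hW
  -- the linear map taking the first `r + 1` coefficients
  let Λ : Polynomial ℂ →ₗ[ℂ] (Fin (r + 1) → ℂ) :=
    { toFun := fun q l => q.coeff (l : ℕ)
      map_add' := fun q q' => by funext l; simp
      map_smul' := fun c q => by funext l; simp }
  have hΛ : ∀ q l, Λ q l = q.coeff (l : ℕ) := fun q l => rfl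
  set p0 := p - Polynomial.C (p.coeff 0) with hp0
  have hp00 : p0.coeff 0 = 0 := by rw [hp0]; simp
  have hp01 : p0.coeff 1 = p.coeff 1 := by
    rw [hp0, Polynomial.coeff_sub, Polynomial.coeff_C, if_neg one_ne_zero, sub_zero]
  have h1 : ∀ j, j ≤ r → Λ (p ^ j) ∈ W := fun j hj =>
    Submodule.subset_span ⟨⟨j, by omega⟩, rfl⟩
  have h2 : ∀ j, j ≤ r → Λ (p0 ^ j) ∈ W := by
    intro j hj
    have h3 : p0 ^ j = ∑ m ∈ Finset.range (j + 1),
        ((-(p.coeff 0)) ^ (j - m) * (j.choose m : ℂ)) • p ^ m := by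
      rw [hp0, sub_eq_add_neg, add_pow]
      refine Finset.sum_congr rfl fun m _ => ?_
      rw [← Polynomial.C_mul', map_mul, map_pow, map_neg, map_natCast]
      ring
    rw [h3, map_sum]
    refine Submodule.sum_mem _ fun m hm => ?_
    rw [map_smul]
    exact Submodule.smul_mem _ _ (h1 m (by have := Finset.mem_range.1 hm; omega))
  have h4 : ∀ e q, r < q + e → ∀ hq : q ≤ r,
      (Pi.single (⟨q, by omega⟩ : Fin (r + 1)) (1 : ℂ) : Fin (r + 1) → ℂ) ∈ W := by
    intro e
    induction e with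
    | zero => intro q h5 h6; omega
    | succ e ih =>
      intro q _ hq
      have ih' : ∀ l : Fin (r + 1), q < (l : ℕ) → (Pi.single l (1 : ℂ) : Fin (r + 1) → ℂ) ∈ W :=
        fun l hl => ih l (by omega) (by have := l.2; omega)
      have h7 : Λ (p0 ^ q) = ∑ l : Fin (r + 1), (p0 ^ q).coeff (l : ℕ) •
          (Pi.single l (1 : ℂ) : Fin (r + 1) → ℂ) := by
        conv_lhs => rw [← Finset.univ_sum_single (Λ (p0 ^ q))]
        refine Finset.sum_congr rfl fun l _ => ?_
        rw [hΛ, ← Pi.single_smul, smul_eq_mul, mul_one]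
      have h8 := h2 q hq
      rw [h7, ← Finset.add_sum_erase _ _ (Finset.mem_univ (⟨q, by omega⟩ : Fin (r + 1)))] at h8
      have h9 : ∑ l ∈ Finset.univ.erase (⟨q, by omega⟩ : Fin (r + 1)), (p0 ^ q).coeff (l : ℕ) •
          (Pi.single l (1 : ℂ) : Fin (r + 1) → ℂ) ∈ W := by
        refine Submodule.sum_mem _ fun l hl => ?_
        have hl1 : (l : ℕ) ≠ q := fun h => (Finset.ne_of_mem_erase hl) (Fin.ext h)
        rcases lt_or_gt_of_ne hl1 with h | h
        · rw [(c7_tri p0 hp00 q).1 _ h, zero_smul]; exact Submodule.zero_mem _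
        · exact Submodule.smul_mem _ _ (ih' l h)
      have h10 := (Submodule.add_mem_iff_left _ h9).1 h8
      have h11 : (p0 ^ q).coeff q ≠ 0 := by
        rw [(c7_tri p0 hp00 q).2, hp01]
        exact pow_ne_zero _ hp
      exact (Submodule.smul_mem_iff _ h11).1 h10
  rw [← Finset.univ_sum_single v]
  refine Submodule.sum_mem _ fun l _ => ?_
  have h12 : (Pi.single l (v l) : Fin (r + 1) → ℂ) = v l • Pi.single l (1 : ℂ) := by
    rw [← Pi.single_smul, smul_eq_mul, mul_one]
  rw [h12]
  exact Submodule.smul_mem _ _ (h4 (r + 1) l (by omega) (by have := l.2; omega))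

theorem totalDegree_monomial_fin (α : Idx n k) :
    (monomial (fin α) 1 : MvPolynomial (Fin n) ℂ).totalDegree ≤ k := by
  rw [totalDegree_monomial _ one_ne_zero, Finsupp.sum_fintype _ _ (fun _ => rfl)]
  exact α.2

/-- CHUNK C8.  The values of the fields at a good point span everything.  Proof: the unit vectors at
`Sum.inr α` come from `mem_Sp` for `Q = monomial (fin α) 1`, applied with the linear map
`Q ↦ (0, fun α => Q.coeff (fin α))`, and `Verts.field`.  Modulo these, the fields of `field_d`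
give the vectors with entries `[t ^ l] (x_i (t)) ^ j` at `(b, l)`; use `span_powers`. -/
theorem span_fields (hk : r ≤ k) (a : Idx n k → ℂ) (ξ : JV n r → ℂ) (i : Fin n)
    (one : Fin (r + 1)) (h1 : (one : ℕ) = 1) (hx : ξ (i, one) ≠ 0)
    (hF : ev a (fun b => ξ (b, 0)) ≠ 0) :
    Submodule.span ℂ ((fun (V : Derivation ℂ (AA n k r) (AA n k r)) =>
      fun s : JV n r ⊕ Idx n k => evA a ξ (V (X s))) '' Fields n k r (cF r)) = ⊤ := by
  classical
  set W := Submodule.span ℂ ((fun (V : Derivation ℂ (AA n k r) (AA n k r)) =>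
      fun s : JV n r ⊕ Idx n k => evA a ξ (V (X s))) '' Fields n k r (cF r)) with hW
  -- step 1: the directions of the coefficients
  let T : MvPolynomial (Fin n) ℂ →ₗ[ℂ] (JV n r ⊕ Idx n k → ℂ) :=
    { toFun := fun Q => Sum.elim (fun _ => 0) fun β => Q.coeff (fin β)
      map_add' := fun Q Q' => by
        funext s
        rcases s with p | β
        · simp
        · simp
      map_smul' := fun c Q => by
        funext s
        rcases s with p | β
        · simp
        · simp }
  have hT : ∀ Q, T Q = Sum.elim (fun _ => 0) fun β => Q.coeff (fin β) := fun Q => rfl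
  have hTSp : ∀ Q ∈ Sp n k r a ξ, T Q ∈ W := by
    intro Q hQ
    refine Submodule.span_induction (p := fun Q _ => T Q ∈ W) ?_ ?_ ?_ ?_ hQ
    · rintro _ ⟨G, hG, rfl⟩
      refine Submodule.subset_span ⟨VV (toG k G) fun _ => 0, Verts.field hG, ?_⟩
      funext s
      rcases s with p | β
      · have h2 : VV (toG k G) (fun _ => 0) (X (Sum.inl p) : AA n k r) = 0 := by
          have h3 := VV_xA (r := r) (toG k G) (fun _ => 0) p
          unfold xA at h3
          rw [h3, Polynomial.coeff_zero]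
        change evA a ξ (VV (toG k G) (fun _ => 0) (X (Sum.inl p) : AA n k r)) = _
        rw [h2, map_zero]
        rfl
      · have h2 : VV (toG k G) (fun _ => 0) (X (Sum.inr β) : AA n k r) = G.coeff (fin β) := by
          have h3 := VV_aA (r := r) (toG k G) (fun _ => 0) β
          unfold aA at h3
          rw [h3]
          rfl
        change evA a ξ (VV (toG k G) (fun _ => 0) (X (Sum.inr β) : AA n k r)) =
          (MvPolynomial.map (evA a ξ).toRingHom G).coeff (fin β)
        rw [h2, coeff_map]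
        rfl
    · rw [map_zero]; exact Submodule.zero_mem _
    · intro x y _ _ hx hy
      rw [map_add]; exact Submodule.add_mem _ hx hy
    · intro c x _ hx
      rw [map_smul]; exact Submodule.smul_mem _ _ hx
  have hinr : ∀ α : Idx n k, (Pi.single (Sum.inr α) (1 : ℂ) : JV n r ⊕ Idx n k → ℂ) ∈ W := by
    intro α
    have h2 := hTSp _ (mem_Sp hk a ξ i one h1 hx hF _ (totalDegree_monomial_fin α))
    have h3 : T (monomial (fin α) 1) = Pi.single (Sum.inr α) (1 : ℂ) := by
      rw [hT]
      funext s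
      rcases s with p | β
      · simp
      · rw [Sum.elim_inr, coeff_monomial]
        by_cases hβ : β = α
        · subst hβ; simp
        · rw [if_neg (fun h => hβ (fin_injective h).symm), Pi.single_eq_of_ne]
          intro h
          exact hβ (Sum.inr_injective h)
    rwa [h3] at h2
  -- step 2: the directions of the jets
  have hinl : ∀ p : JV n r, (Pi.single (Sum.inl p) (1 : ℂ) : JV n r ⊕ Idx n k → ℂ) ∈ W := by
    rintro ⟨b, l⟩
    let S : (Fin (r + 1) → ℂ) →ₗ[ℂ] (JV n r ⊕ Idx n k → ℂ) :=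
      { toFun := fun v => Sum.elim (fun p => if p.1 = b then v p.2 else 0) fun _ => 0
        map_add' := fun v v' => by
          funext s
          rcases s with p | β
          · simp only [Sum.elim_inl, Pi.add_apply]
            split_ifs <;> simp
          · simp
        map_smul' := fun c v => by
          funext s
          rcases s with p | β
          · simp only [Sum.elim_inl, Pi.smul_apply, RingHom.id_apply, smul_eq_mul]
            split_ifs <;> simp
          · simp }
    have hS : ∀ v, S v = Sum.elim (fun p => if p.1 = b then v p.2 else 0) fun _ => 0 :=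
      fun v => rfl
    have harc1 : (arc ξ i).coeff 1 ≠ 0 := by
      have h2 : 1 < r + 1 := by have := one.2; omega
      rw [coeff_arc, dif_pos h2]
      have h3 : (⟨1, h2⟩ : Fin (r + 1)) = one := Fin.ext h1.symm
      rw [h3]
      exact hx
    have hpow : ∀ j : Fin (r + 1), S (fun l => ((arc ξ i) ^ (j : ℕ)).coeff (l : ℕ)) ∈ W := by
      intro j
      obtain ⟨V, hV, hVx⟩ := field_d hk i b (j : ℕ) (by have := j.2; omega)
      have h2 : (fun s : JV n r ⊕ Idx n k => evA a ξ (V (X s))) ∈ W :=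
        Submodule.subset_span ⟨V, hV, rfl⟩
      have h3 : S (fun l => ((arc ξ i) ^ (j : ℕ)).coeff (l : ℕ))
          = (fun s : JV n r ⊕ Idx n k => evA a ξ (V (X s))) -
            ∑ α : Idx n k, evA a ξ (V (X (Sum.inr α))) • Pi.single (Sum.inr α) (1 : ℂ) := by
        rw [hS]
        funext s
        rcases s with p | β
        · rw [Pi.sub_apply, Finset.sum_apply, Sum.elim_inl]
          have h4 : ∑ α : Idx n k, (evA a ξ (V (X (Sum.inr α))) •
              (Pi.single (Sum.inr α) (1 : ℂ) : JV n r ⊕ Idx n k → ℂ)) (Sum.inl p) = 0 := by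
            refine Finset.sum_eq_zero fun α _ => ?_
            rw [Pi.smul_apply, Pi.single_eq_of_ne (by simp), smul_zero]
          rw [h4, sub_zero]
          have h5 := hVx p
          unfold xA at h5
          rw [h5]
          split_ifs with hpb
          · have h6 : (arc ξ i ^ (j : ℕ)) = Polynomial.map (evA a ξ).toRingHom
                ((arc xA i : Polynomial (AA n k r)) ^ (j : ℕ)) := by
              rw [Polynomial.map_pow, arc_map]
              congr 2
              funext p'
              exact (evA_xA a ξ p').symm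
            rw [h6, Polynomial.coeff_map]
            rfl
          · rw [map_zero]
        · rw [Pi.sub_apply, Finset.sum_apply, Sum.elim_inr]
          have h4 : ∑ α : Idx n k, (evA a ξ (V (X (Sum.inr α))) •
              (Pi.single (Sum.inr α) (1 : ℂ) : JV n r ⊕ Idx n k → ℂ)) (Sum.inr β)
              = evA a ξ (V (X (Sum.inr β))) := by
            rw [Finset.sum_eq_single β]
            · rw [Pi.smul_apply, Pi.single_eq_same, smul_eq_mul, mul_one]
            · intro α _ hα
              rw [Pi.smul_apply, Pi.single_eq_of_ne (fun h => hα (Sum.inr_injective h).symm),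
                smul_zero]
            · intro h; exact absurd (Finset.mem_univ _) h
          rw [h4, sub_self]
      rw [h3]
      exact Submodule.sub_mem _ h2 (Submodule.sum_mem _ fun α _ =>
        Submodule.smul_mem _ _ (hinr α))
    have h2 : S (Pi.single l 1) ∈ W := by
      have h3 := span_powers (r := r) (arc ξ i) harc1 (Pi.single l 1)
      have h4 : Submodule.map S (Submodule.span ℂ (Set.range fun j : Fin (r + 1) =>
          fun l : Fin (r + 1) => ((arc ξ i) ^ (j : ℕ)).coeff (l : ℕ))) ≤ W := by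
        rw [Submodule.map_span, Submodule.span_le]
        rintro _ ⟨_, ⟨j, rfl⟩, rfl⟩
        exact hpow j
      exact h4 (Submodule.mem_map_of_mem h3)
    have h3 : S (Pi.single l 1) = Pi.single (Sum.inl (b, l)) (1 : ℂ) := by
      rw [hS]
      funext s
      rcases s with ⟨b', l'⟩ | β
      · rw [Sum.elim_inl]
        by_cases hb : b' = b
        · subst hb
          rw [if_pos rfl]
          by_cases hl : l' = l
          · subst hl; simp
          · rw [Pi.single_eq_of_ne hl, Pi.single_eq_of_ne]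
            intro h
            exact hl (Prod.ext_iff.1 (Sum.inl_injective h)).2
        · rw [if_neg hb, Pi.single_eq_of_ne]
          intro h
          exact hb (Prod.ext_iff.1 (Sum.inl_injective h)).1
      · simp
    rwa [h3] at h2
  rw [eq_top_iff]
  intro w _
  rw [← Finset.univ_sum_single w]
  refine Submodule.sum_mem _ fun s _ => ?_
  have h12 : (Pi.single s (w s) : JV n r ⊕ Idx n k → ℂ) = w s • Pi.single s (1 : ℂ) := by
    rw [← Pi.single_smul, smul_eq_mul, mul_one]
  rw [h12]
  refine Submodule.smul_mem _ _ ?_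
  rcases s with p | α
  · exact hinl p
  · exact hinr α

end Pool.Agent.H89T
end

-- from Lib.H89T.C11
section

set_option autoImplicit false

/-!
CHUNK C11.  Slanted fields: conclusion.
-/

open MvPolynomial

namespace Pool.Agent.H89T

variable {n r : ℕ}

theorem C11_app_prop {k c w : ℕ} (L : List (Derivation ℂ (AA n k r) (AA n k r)))
    (hL : ∀ V ∈ L, V ∈ Fields n k r c) (P : AA n k r) (hw : WtA w P) :
    WtA (w + L.length * c) (app L P) ∧ (PropAA r P → PropAA r (app L P)) ∧
      (PropBA P → PropBA (app L P)) := by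
  induction L with
  | nil => exact ⟨by simpa [app] using hw, fun h => h, fun h => h⟩
  | cons V L ih =>
    obtain ⟨h1, h2, h3⟩ := ih (fun V' hV' => hL V' (List.mem_cons_of_mem _ hV'))
    obtain ⟨g, lam, hadm, hg, hlam, rfl⟩ := hL V List.mem_cons_self
    have happ : app (VV g lam :: L) P = VV g lam (app L P) := rfl
    rw [happ]
    refine ⟨?_, fun h => (h2 h).field hadm, fun h => (h3 h).field hadm⟩
    refine (h1.field hg hlam).mono ?_
    rw [List.length_cons]
    ring_nf
    exact le_rfl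

/-- CHUNK C11.  Proof: choose `e` in the support of `flat P`; `W = jetCoeff (flat P) e ≠ 0`.  For a
good point `(a, ξ)` apply `exists_app_ne_zero` with `σ = JV ⊕ Idx`, the point `Sum.elim ξ a`,
`𝒱 = Fields n k r (cF r)` (`span_fields`), `J` = the jets of order `≥ 1` (`isJet`), `m = M`
(`flat_HasMon`, `restrict_ne_zero`) to `flat P`.  The result `app L (flat P)` has weight
`≤ d + (r + 1) M + M cF r` (`WtA.field`) and keeps (A) and (B) (`PropAA.field` with
`q = r`, `PropBA.field`); take `spec a` of it (`evA_eq`). -/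
theorem slant {k d M : ℕ} (hk : r ≤ k) (P : MvPolynomial (JV n r) (RR n k)) (hP0 : P ≠ 0)
    (hP : HasMon d M P) : ∃ W : MvPolynomial (Fin n ⊕ Idx n k) ℂ, W ≠ 0 ∧
      ∀ (a : Idx n k → ℂ) (ξ : JV n r → ℂ),
        eval (Sum.elim (fun b => ξ (b, 0)) a) W ≠ 0 → ev a (fun b => ξ (b, 0)) ≠ 0 →
          (∃ b, ∃ l : Fin (r + 1), (l : ℕ) = 1 ∧ ξ (b, l) ≠ 0) →
          ∃ Q : MvPolynomial (JV n r) ℂ, HasWt (d + (r + 1) * M + M * cF r) Q ∧ eval ξ Q ≠ 0 ∧
            (PropA (gen n k) r P → PropA a r Q) ∧ (PropB (gen n k) P → PropB a Q) := by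
  classical
  have hflat : flat P ≠ 0 := by
    intro h
    apply hP0
    unfold flat at h
    exact (map_eq_zero_iff _ (sumAlgEquiv ℂ (JV n r) (Idx n k)).symm.injective).1 h
  obtain ⟨e, he⟩ := MvPolynomial.exists_coeff_ne_zero hflat
  obtain ⟨hjd, hwt⟩ := flat_HasMon hP
  refine ⟨jetCoeff (flat P) e, jetCoeff_ne_zero _ _ he, ?_⟩
  rintro a ξ hW hF ⟨b, l, hl, hx⟩
  have hspan := span_fields hk a ξ b l hl hx hF
  have hres := restrict_ne_zero a (flat P) e ξ hW
  obtain ⟨L, hL, hlen, hne⟩ := exists_app_ne_zero (Sum.elim ξ a) (Fields n k r (cF r))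
    hspan {s | isJet s} (flat P) M (by
      intro m hm
      refine le_trans (le_of_eq ?_) (hjd m hm)
      rw [Fintype.sum_sum_type]
      have h2 : ∀ α : Idx n k, (if (Sum.inr α : JV n r ⊕ Idx n k) ∈ {s | isJet s} then
          m (Sum.inr α) else 0) = 0 := fun α => if_neg (C10_isJet_inr α)
      simp only [h2, Finset.sum_const_zero, add_zero]
      refine Finset.sum_congr rfl fun p _ => ?_
      by_cases hp : p.2 = 0
      · rw [if_pos hp, if_neg]
        rw [Set.mem_ofPred_eq, C10_isJet_inl]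
        simpa using hp
      · rw [if_neg hp, if_pos]
        rw [Set.mem_ofPred_eq, C10_isJet_inl]
        exact hp) (by
      have h2 : (fun s => if s ∈ {s | isJet s} then X s else C (Sum.elim ξ a s) :
          JV n r ⊕ Idx n k → AA n k r) =
          fun s => if isJet s then X s else C (Sum.elim ξ a s) := by
        funext s
        by_cases hs : isJet s
        · rw [if_pos hs, if_pos (by rw [Set.mem_ofPred_eq]; exact hs)]
        · rw [if_neg hs, if_neg (by rw [Set.mem_ofPred_eq]; exact hs)]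
      rw [h2]
      convert hres)
  obtain ⟨h1, h2, h3⟩ := C11_app_prop L hL (flat P) hwt
  refine ⟨spec a (app L (flat P)), ?_, ?_, fun h => ?_, fun h => ?_⟩
  · refine spec_WtA a (h1.mono ?_)
    have := Nat.mul_le_mul_right (cF r) hlen
    omega
  · rw [← evA_eq]
    exact hne
  · exact spec_PropAA a (h2 (flat_PropA h))
  · exact spec_PropBA a (h3 (flat_PropB h))

end Pool.Agent.H89T
end

-- from Lib.H89T.AlgFinal
section

set_option autoImplicit false

/-!
CHUNK AF.  The two algebraic theorems.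
-/

open MvPolynomial

namespace Pool.Agent.H89T


/-- CHUNK AF.  From `count_B` (with `C = cB n`), `exists_propB` (`d = ⌊α k⌋₊`, `r = n`) and
`slant`. -/
theorem algB (n : ℕ) (hn : 1 ≤ n) (α : ℝ) (hα : 0 < α) : AlgB n α := by
  obtain ⟨M, k₀, hM, hcount⟩ := count_B n hn (cB n) α hα
  refine ⟨k₀ + n + 2 + ((n + 1) * M + M * cF n), fun k hk => ?_⟩
  have hk2 : 2 ≤ k := by omega
  have hnk : n ≤ k := by omega
  obtain ⟨P, hP0, hP, hPB⟩ := exists_propB (n := n) (k := k) (r := n) (d := ⌊α * k⌋₊) (M := M)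
    hn hk2 ⟨0, by omega⟩ (hcount k (by omega) ⟨0, by omega⟩)
  obtain ⟨W, hW, h⟩ := slant hnk P hP0 hP
  refine ⟨W, hW, fun a ξ h1 h2 h3 => ?_⟩
  obtain ⟨Q, hQ1, hQ2, -, hQ3⟩ := h a ξ h1 h2 h3
  refine ⟨⌊α * k⌋₊ + (n + 1) * M + M * cF n, Q, ?_, hQ1, hQ3 hPB, hQ2⟩
  push_cast
  have hk0 : (0 : ℝ) ≤ k := Nat.cast_nonneg k
  have h4 : (⌊α * k⌋₊ : ℝ) ≤ α * k := Nat.floor_le (by positivity)
  have h5 : (0 : ℝ) ≤ (k₀ : ℝ) := Nat.cast_nonneg k₀
  have h6 : (0 : ℝ) ≤ (n : ℝ) := Nat.cast_nonneg n
  linarith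

end Pool.Agent.H89T
end
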