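import Pool.Agent.Lib.H1M.PB.M006
import Pool.Agent.Lib.H1M.PB.M012
import Pool.Agent.Lib.H1M.PB.M020

/-! Merged copies (to shorten the build) of Lib.H89T.DA1, Lib.H89T.DA2, Lib.H89T.DB, Lib.H89T.DA3, Lib.H89T.DE, Lib.H89T.DF. -/

-- from Lib.H89T.DA1
section

set_option autoImplicit false

/-!
CHUNK DA1 (Part D).  The flow of the derivation `NN`.
-/

open MvPolynomial

namespace Pool.Agent.H89T

/-- The flow of the derivation `NN` at time `s`: the `r`-jet at `t = s` of the polynomial arc with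
jet `ξ`. -/
def shift {n r : ℕ} {R : Type*} [CommRing R] (s : R) (ξ : JV n r → R) (p : JV n r) : R :=
  ∑ j : Fin (r + 1), (((j : ℕ).choose (p.2 : ℕ) : ℕ) : R) * s ^ ((j : ℕ) - (p.2 : ℕ)) * ξ (p.1, j)

/-- `shift 0 ξ = ξ`: only the term `j = p.2` survives. -/
theorem shift_zero {n r : ℕ} {R : Type*} [CommRing R] (ξ : JV n r → R) : shift 0 ξ = ξ := by
  funext p
  unfold shift
  rw [Finset.sum_eq_single p.2]
  · simp
  · intro j _ hj
    rcases lt_or_ge (j : ℕ) (p.2 : ℕ) with h | h
    · rw [Nat.choose_eq_zero_of_lt h]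
      simp
    · have h1 : (j : ℕ) - (p.2 : ℕ) ≠ 0 := by
        intro h2
        exact hj (Fin.ext (by omega))
      rw [zero_pow h1]
      simp
  · simp

theorem map_shift {n r : ℕ} {R R' : Type*} [CommRing R] [CommRing R'] (φ : R →+* R') (s : R)
    (ξ : JV n r → R) (p : JV n r) : φ (shift s ξ p) = shift (φ s) (fun p => φ (ξ p)) p := by
  unfold shift
  simp [map_sum]

theorem taylor_arc {n r : ℕ} {R : Type*} [CommRing R] (s : R) (ξ : JV n r → R) (b : Fin n) :
    Polynomial.taylor s (arc ξ b) = arc (shift s ξ) b := by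
  ext l
  rw [coeff_arc]
  unfold arc
  have h1 : (Polynomial.taylor s (∑ l : Fin (r + 1), Polynomial.C (ξ (b, l)) *
      Polynomial.X ^ (l : ℕ))).coeff l =
      ∑ j : Fin (r + 1), (((j : ℕ).choose l : ℕ) : R) * s ^ ((j : ℕ) - l) * ξ (b, j) := by
    rw [map_sum, Polynomial.finsetSum_coeff]
    refine Finset.sum_congr rfl fun j _ => ?_
    rw [Polynomial.taylor_mul, Polynomial.taylor_C, Polynomial.taylor_X_pow,
      Polynomial.coeff_C_mul, Polynomial.coeff_X_add_C_pow]
    ring
  rw [h1]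
  split_ifs with h
  · rfl
  · apply Finset.sum_eq_zero
    intro j _
    have := j.2
    rw [Nat.choose_eq_zero_of_lt (by omega)]
    simp

/-- `shift s (shift t ξ) = shift (s + t) ξ`.  Proof: binomial theorem; or: `shift s ξ (b, l)` is the
`l`-th coefficient of `Polynomial.taylor s (arc ξ b)` (`coeff_arc` in N1.lean,
`Polynomial.taylor_coeff`, `Polynomial.hasseDeriv`), and `Polynomial.taylor_taylor`. -/
theorem shift_shift {n r : ℕ} {R : Type*} [CommRing R] (s t : R) (ξ : JV n r → R) :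
    shift s (shift t ξ) = shift (s + t) ξ := by
  funext p
  have h : arc (shift s (shift t ξ)) p.1 = arc (shift (s + t) ξ) p.1 := by
    rw [← taylor_arc, ← taylor_arc, ← taylor_arc, Polynomial.taylor_taylor]
  have h1 := congrArg (fun P => Polynomial.coeff P (p.2 : ℕ)) h
  simp only [coeff_arc] at h1
  rw [dif_pos p.2.2, dif_pos p.2.2] at h1
  exact h1

/-- The variables as constant polynomials. -/
noncomputable def cX (n r : ℕ) (p : JV n r) : Polynomial (MvPolynomial (JV n r) ℂ) :=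
  Polynomial.C (X p)

/-- The homomorphism `P ↦ P (flow at time S)`, `S` an indeterminate. -/
noncomputable def flowHom (n r : ℕ) :
    MvPolynomial (JV n r) ℂ →ₐ[ℂ] Polynomial (MvPolynomial (JV n r) ℂ) :=
  aeval (shift Polynomial.X (cX n r))

theorem flowHom_X {n r : ℕ} (p : JV n r) :
    flowHom n r (X p) = shift Polynomial.X (cX n r) p := by
  unfold flowHom
  rw [aeval_X]

theorem derivative_shift {n r : ℕ} (p : JV n r) :
    Polynomial.derivative (flowHom n r (X p)) = flowHom n r (NN n r ℂ (X p)) := by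
  have h1 : Polynomial.derivative (flowHom n r (X p)) = ∑ j : Fin (r + 1),
      (((j : ℕ).choose ((p.2 : ℕ) + 1) * ((p.2 : ℕ) + 1) : ℕ) :
        Polynomial (MvPolynomial (JV n r) ℂ)) *
        Polynomial.X ^ ((j : ℕ) - ((p.2 : ℕ) + 1)) * Polynomial.C (X (p.1, j)) := by
    rw [flowHom_X]
    unfold shift cX
    rw [Polynomial.derivative_sum]
    refine Finset.sum_congr rfl fun j _ => ?_
    rw [Nat.choose_succ_right_eq, Polynomial.derivative_mul, Polynomial.derivative_C, mul_zero,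
      add_zero, Polynomial.derivative_mul, Polynomial.derivative_natCast, zero_mul, zero_add,
      Polynomial.derivative_X_pow]
    rw [Nat.sub_sub]
    push_cast
    simp only [map_natCast]
    ring
  rw [h1]
  unfold NN
  rw [mkDerivation_X]
  split_ifs with h
  · rw [map_nsmul, flowHom_X]
    unfold shift cX
    rw [nsmul_eq_mul, Finset.mul_sum]
    refine Finset.sum_congr rfl fun j _ => ?_
    push_cast
    ring
  · rw [map_zero]
    apply Finset.sum_eq_zero
    intro j _
    have := j.2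
    rw [Nat.choose_eq_zero_of_lt (by omega)]
    simp

theorem derivative_flowHom {n r : ℕ} (P : MvPolynomial (JV n r) ℂ) :
    Polynomial.derivative (flowHom n r P) = flowHom n r (NN n r ℂ P) := by
  induction P using MvPolynomial.induction_on with
  | C a =>
    have h1 : NN n r ℂ (C a) = 0 := by
      rw [← algebraMap_eq, Derivation.map_algebraMap]
    rw [h1, map_zero]
    have h2 : flowHom n r (C a) = Polynomial.C (C a) := by
      unfold flowHom
      rw [aeval_C]
      rfl
    rw [h2, Polynomial.derivative_C]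
  | add p q hp hq => rw [map_add, map_add, hp, hq, map_add, map_add]
  | mul_X p i hp =>
    rw [map_mul, Polynomial.derivative_mul, hp, derivative_shift, Derivation.leibniz, map_add,
      smul_eq_mul, smul_eq_mul, map_mul, map_mul]
    ring

theorem flowHom_coeff_zero {n r : ℕ} (P : MvPolynomial (JV n r) ℂ) :
    (flowHom n r P).coeff 0 = P := by
  have h : (Polynomial.constantCoeff (R := MvPolynomial (JV n r) ℂ)).comp
      (flowHom n r : MvPolynomial (JV n r) ℂ →+* Polynomial (MvPolynomial (JV n r) ℂ)) =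
      RingHom.id _ := by
    apply MvPolynomial.ringHom_ext
    · intro a
      simp [flowHom]
    · intro p
      have h2 := map_shift (Polynomial.constantCoeff (R := MvPolynomial (JV n r) ℂ))
        Polynomial.X (cX n r) p
      simp only [cX, Polynomial.constantCoeff_apply, Polynomial.coeff_X_zero,
        Polynomial.coeff_C_zero, shift_zero] at h2
      simp only [RingHom.comp_apply, RingHom.coe_coe, flowHom_X, Polynomial.constantCoeff_apply,
        RingHom.id_apply]
      exact h2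
  have h3 := congrArg (fun f => f P) h
  simpa using h3

theorem factorial_mul_coeff_flowHom {n r : ℕ} (i : ℕ) (P : MvPolynomial (JV n r) ℂ) :
    ((i.factorial : ℕ) : MvPolynomial (JV n r) ℂ) * (flowHom n r P).coeff i =
      (NN n r ℂ)^[i] P := by
  induction i generalizing P with
  | zero => simp [flowHom_coeff_zero]
  | succ i ih =>
    rw [Function.iterate_succ_apply, ← ih, ← derivative_flowHom, Polynomial.coeff_derivative,
      Nat.factorial_succ]
    push_cast
    ring

theorem eval_flowHom {n r : ℕ} (P : MvPolynomial (JV n r) ℂ) (s : ℂ) (ξ : JV n r → ℂ) :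
    ((flowHom n r P).map (eval ξ)).eval s = eval (shift s ξ) P := by
  have h : (Polynomial.evalRingHom s).comp ((Polynomial.mapRingHom (eval ξ)).comp
      (flowHom n r : MvPolynomial (JV n r) ℂ →+* Polynomial (MvPolynomial (JV n r) ℂ))) =
      eval (shift s ξ) := by
    apply MvPolynomial.ringHom_ext
    · intro a
      simp [flowHom]
    · intro p
      have h2 := map_shift ((Polynomial.evalRingHom s).comp (Polynomial.mapRingHom (eval ξ)))
        Polynomial.X (cX n r) p
      simp only [cX, RingHom.comp_apply, Polynomial.coe_mapRingHom, Polynomial.map_X,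
        Polynomial.coe_evalRingHom, Polynomial.eval_X, Polynomial.map_C, Polynomial.eval_C,
        eval_X] at h2
      simp only [RingHom.comp_apply, RingHom.coe_coe, flowHom_X, Polynomial.coe_mapRingHom,
        Polynomial.coe_evalRingHom, eval_X]
      exact h2
  have h3 := congrArg (fun f => f P) h
  simpa using h3

theorem eq_sum_add_divX {R : Type*} [CommRing R] (Q : Polynomial R) (q : ℕ) :
    Q = ∑ i ∈ Finset.range q, Polynomial.C (Q.coeff i) * Polynomial.X ^ i +
      Polynomial.X ^ q * Polynomial.divX^[q] Q := by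
  have hc : ∀ (m : ℕ) (Q : Polynomial R), (Polynomial.divX^[m] Q).coeff 0 = Q.coeff m := by
    intro m
    induction m with
    | zero => intro Q; rfl
    | succ m ih =>
      intro Q
      rw [Function.iterate_succ_apply, ih, Polynomial.coeff_divX]
  induction q with
  | zero => simp
  | succ q ih =>
    rw [Finset.sum_range_succ, Function.iterate_succ_apply']
    have h := Polynomial.divX_mul_X_add (Polynomial.divX^[q] Q)
    rw [hc] at h
    conv_lhs => rw [ih, ← h]
    ring

/-- Taylor's formula for the flow.  Proof: let `Φ : MvPolynomial (JV n r) ℂ →ₐ[ℂ]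
Polynomial (MvPolynomial (JV n r) ℂ)` be `aeval (shift Polynomial.X (fun p => Polynomial.C (X p)))`.
Then `Polynomial.derivative (Φ P) = Φ (NN P)` (both sides are derivations over `Φ`, they agree on the
variables by `j.choose (l + 1) * (l + 1) = j.choose l * (j - l)`; use
`MvPolynomial.induction_on`), `(Φ P).coeff 0 = P`, hence `i ! • (Φ P).coeff i = NN^[i] P`
(induction, `Polynomial.coeff_derivative`).  Evaluate at `s`, `ξ`:
`eval (shift s ξ) P = ∑ i, s ^ i * eval ξ ((Φ P).coeff i)` and take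
`R = Polynomial.divX^[q] (Φ P)`. -/
theorem eval_shift {n r : ℕ} (P : MvPolynomial (JV n r) ℂ) (q : ℕ) :
    ∃ R : Polynomial (MvPolynomial (JV n r) ℂ), ∀ (s : ℂ) (ξ : JV n r → ℂ),
      eval (shift s ξ) P = ∑ i ∈ Finset.range q, s ^ i / (i.factorial : ℂ) *
        eval ξ ((NN n r ℂ)^[i] P) + s ^ q * (R.map (eval ξ)).eval s := by
  refine ⟨Polynomial.divX^[q] (flowHom n r P), fun s ξ => ?_⟩
  rw [← eval_flowHom]
  conv_lhs => rw [eq_sum_add_divX (flowHom n r P) q]
  rw [Polynomial.map_add, Polynomial.map_sum, Polynomial.map_mul, Polynomial.map_pow,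
    Polynomial.map_X, Polynomial.eval_add, Polynomial.eval_finsetSum, Polynomial.eval_mul,
    Polynomial.eval_pow, Polynomial.eval_X]
  congr 1
  refine Finset.sum_congr rfl fun i _ => ?_
  rw [Polynomial.map_mul, Polynomial.map_C, Polynomial.map_pow, Polynomial.map_X,
    Polynomial.eval_mul, Polynomial.eval_C, Polynomial.eval_pow, Polynomial.eval_X,
    ← factorial_mul_coeff_flowHom, map_mul, map_natCast]
  have h2 : ((i.factorial : ℕ) : ℂ) ≠ 0 := by exact_mod_cast Nat.factorial_ne_zero i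
  field_simp

end Pool.Agent.H89T
end

-- from Lib.H89T.DA2
section

set_option autoImplicit false

/-!
CHUNK DA2 (Part D).  The jet at `z`, transported to `z₀` by the flow, is the jet at `z₀` up to
a high order.
-/

open MvPolynomial Filter Topology

namespace Pool.Agent.H89T

theorem analyticAt_iteratedDeriv {g : ℂ → ℂ} {z₀ : ℂ} (hg : AnalyticAt ℂ g z₀) (l : ℕ) :
    AnalyticAt ℂ (iteratedDeriv l g) z₀ := by
  induction l with
  | zero => rwa [iteratedDeriv_zero]
  | succ l ih => rw [iteratedDeriv_succ]; exact ih.deriv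

/-- Iterated derivatives of analytic functions are analytic. -/
theorem analyticAt_jetf {n : ℕ} (r : ℕ) {f : ℂ → Fin n → ℂ} {z₀ : ℂ}
    (hf : ∀ b, AnalyticAt ℂ (fun w => f w b) z₀) (p : JV n r) :
    AnalyticAt ℂ (fun z => jetf r f z p) z₀ := by
  unfold jetf
  exact (analyticAt_iteratedDeriv (hf p.1) _).div_const

/-- A polynomial in analytic functions is analytic. -/
theorem analyticAt_eval {σ : Type*} [Fintype σ] (P : MvPolynomial σ ℂ) {x : ℂ → σ → ℂ} {z₀ : ℂ}
    (hx : ∀ i, AnalyticAt ℂ (fun z => x z i) z₀) : AnalyticAt ℂ (fun z => eval (x z) P) z₀ := by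
  induction P using MvPolynomial.induction_on with
  | C a => simp only [eval_C]; exact analyticAt_const
  | add p q hp hq => simp only [map_add]; exact hp.add hq
  | mul_X p i hp => simp only [map_mul, eval_X]; exact hp.mul (hx i)

/-- The order of a finite sum (`⊤`-valued lower bounds). -/
theorem le_order_sum {ι : Type*} (s : Finset ι) {f : ι → ℂ → ℂ} {z₀ : ℂ} {m : ℕ∞}
    (h : ∀ i ∈ s, m ≤ analyticOrderAt (f i) z₀) :
    m ≤ analyticOrderAt (fun z => ∑ i ∈ s, f i z) z₀ := by
  classical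
  induction s using Finset.induction_on with
  | empty =>
    simp only [Finset.sum_empty]
    have : analyticOrderAt (fun _ : ℂ => (0 : ℂ)) z₀ = ⊤ := by
      rw [analyticOrderAt_eq_top]
      simp
    rw [this]
    exact le_top
  | insert i s hi ih =>
    simp only [Finset.sum_insert hi]
    have h1 := h i (Finset.mem_insert_self i s)
    have h2 := ih fun j hj => h j (Finset.mem_insert_of_mem hj)
    exact (le_min h1 h2).trans le_analyticOrderAt_add

/-- If `g` has order at least `m` and `h` is analytic then `g * h` has order at least `m`. -/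
theorem le_order_mul {g h : ℂ → ℂ} {z₀ : ℂ} {m : ℕ∞} (hg : m ≤ analyticOrderAt g z₀)
    (hga : AnalyticAt ℂ g z₀) (hh : AnalyticAt ℂ h z₀) :
    m ≤ analyticOrderAt (fun z => g z * h z) z₀ := by
  have h1 := analyticOrderAt_mul hga hh
  have h2 : analyticOrderAt (fun z => g z * h z) z₀ = analyticOrderAt (g * h) z₀ := rfl
  rw [h2, h1]
  exact hg.trans le_self_add

/-- Taylor's formula centered at `z` (not at `z₀`), evaluated at `z₀`: the derivative with respect
to `z` of the left hand side telescopes to `(z₀ - z) ^ m * iteratedDeriv (m + 1) g z / m !`. -/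
theorem taylor_order {g : ℂ → ℂ} {z₀ : ℂ} (hg : AnalyticAt ℂ g z₀) (m : ℕ) :
    ((m + 1 : ℕ) : ℕ∞) ≤ analyticOrderAt (fun z => ∑ j ∈ Finset.range (m + 1),
      (z₀ - z) ^ j * (iteratedDeriv j g z / (j.factorial : ℂ)) - g z₀) z₀ := by
  have hlin : AnalyticAt ℂ (fun z : ℂ => z₀ - z) z₀ := analyticAt_const.sub analyticAt_id
  set h : ℂ → ℂ := fun z => ∑ j ∈ Finset.range (m + 1),
      (z₀ - z) ^ j * (iteratedDeriv j g z / (j.factorial : ℂ)) - g z₀ with hh
  have hhan : AnalyticAt ℂ h z₀ := by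
    rw [hh]
    refine AnalyticAt.sub ?_ analyticAt_const
    apply Finset.analyticAt_fun_sum
    intro j _
    exact (hlin.pow j).mul ((analyticAt_iteratedDeriv hg j).div_const)
  have h0 : h z₀ = 0 := by
    rw [hh]
    simp only [sub_self]
    rw [Finset.sum_eq_single 0]
    · simp
    · intro j _ hj
      rw [zero_pow hj, zero_mul]
    · simp
  have hd : deriv h =ᶠ[𝓝 z₀] fun z => (z₀ - z) ^ m * (iteratedDeriv (m + 1) g z /
      (m.factorial : ℂ)) := by
    filter_upwards [hg.eventually_analyticAt] with z hz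
    have hder : ∀ j : ℕ, HasDerivAt (iteratedDeriv j g) (iteratedDeriv (j + 1) g z) z := by
      intro j
      rw [iteratedDeriv_succ]
      exact (analyticAt_iteratedDeriv hz j).differentiableAt.hasDerivAt
    have hlin' : HasDerivAt (fun z : ℂ => z₀ - z) (-1) z := by
      simpa using (hasDerivAt_id z).const_sub z₀
    have hterm : ∀ j : ℕ, HasDerivAt (fun z => (z₀ - z) ^ j *
        (iteratedDeriv j g z / (j.factorial : ℂ)))
        ((j : ℂ) * (z₀ - z) ^ (j - 1) * (-1) * (iteratedDeriv j g z / (j.factorial : ℂ)) +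
          (z₀ - z) ^ j * (iteratedDeriv (j + 1) g z / (j.factorial : ℂ))) z := by
      intro j
      exact (hlin'.pow j).mul ((hder j).div_const _)
    have hsum : ∀ M : ℕ, HasDerivAt (fun z => ∑ j ∈ Finset.range (M + 1),
        (z₀ - z) ^ j * (iteratedDeriv j g z / (j.factorial : ℂ)))
        ((z₀ - z) ^ M * (iteratedDeriv (M + 1) g z / (M.factorial : ℂ))) z := by
      intro M
      induction M with
      | zero =>
        have := hterm 0
        simpa using this
      | succ M ih =>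
        have h1 := ih.add (hterm (M + 1))
        have h2 : (fun z => ∑ j ∈ Finset.range (M + 1 + 1),
            (z₀ - z) ^ j * (iteratedDeriv j g z / (j.factorial : ℂ))) =
            (fun z => ∑ j ∈ Finset.range (M + 1),
              (z₀ - z) ^ j * (iteratedDeriv j g z / (j.factorial : ℂ))) +
            fun z => (z₀ - z) ^ (M + 1) *
              (iteratedDeriv (M + 1) g z / ((M + 1).factorial : ℂ)) := by
          funext w
          rw [Finset.sum_range_succ, Pi.add_apply]
        rw [h2]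
        refine h1.congr_deriv ?_
        have h3 : ((M.factorial : ℕ) : ℂ) ≠ 0 := by exact_mod_cast Nat.factorial_ne_zero M
        have h4 : ((M : ℂ) + 1) ≠ 0 := by exact_mod_cast Nat.succ_ne_zero M
        rw [Nat.add_sub_cancel, Nat.factorial_succ]
        push_cast
        field_simp
        ring
    exact ((hsum m).sub_const (g z₀)).deriv
  have h1 : (m : ℕ∞) ≤ analyticOrderAt (deriv h) z₀ := by
    rw [analyticOrderAt_congr hd]
    refine le_order_mul ?_ (hlin.pow m) ((analyticAt_iteratedDeriv hg (m + 1)).div_const)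
    have h2 := analyticOrderAt_pow hlin m
    have h3 : analyticOrderAt (fun z : ℂ => (z₀ - z) ^ m) z₀ =
        analyticOrderAt ((fun z : ℂ => z₀ - z) ^ m) z₀ := rfl
    rw [h3, h2]
    have h4 : analyticOrderAt (fun z : ℂ => z₀ - z) z₀ = 1 := by
      have : (fun z : ℂ => z₀ - z) = -(fun z : ℂ => z - z₀) := by
        funext z
        simp
      rw [this, analyticOrderAt_neg]
      exact analyticOrderAt_id_sub_const_self
    rw [h4]
    simp
  have h5 := (analyticOrderAt_deriv_ge_iff hhan h0 (n := m)).1 h1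
  exact_mod_cast h5

/-- The coordinates of order `0` of `shift (z₀ - z) (jetf r f z)`. -/
theorem xhat_zero {n : ℕ} (r : ℕ) {f : ℂ → Fin n → ℂ} {z₀ : ℂ}
    (hf : ∀ b, AnalyticAt ℂ (fun w => f w b) z₀) (b : Fin n) :
    ((r + 1 : ℕ) : ℕ∞) ≤
      analyticOrderAt (fun z => shift (z₀ - z) (jetf r f z) (b, 0) - f z₀ b) z₀ := by
  have h := taylor_order (hf b) r
  refine h.trans (le_of_eq ?_)
  congr 1
  funext z
  congr 1
  unfold shift jetf
  rw [Finset.sum_range]
  refine Finset.sum_congr rfl fun j _ => ?_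
  simp

/-- The coordinates of order `1` of `shift (z₀ - z) (jetf r f z)`: `taylor_order` for the derivative
of `f . b`, with `m = r - 1`. -/
theorem xhat_one {n : ℕ} (r : ℕ) {f : ℂ → Fin n → ℂ} {z₀ : ℂ}
    (hf : ∀ b, AnalyticAt ℂ (fun w => f w b) z₀) (b : Fin n) (one : Fin (r + 1))
    (h1 : (one : ℕ) = 1) :
    (r : ℕ∞) ≤ analyticOrderAt (fun z => shift (z₀ - z) (jetf r f z) (b, one) -
      deriv (fun w => f w b) z₀) z₀ := by
  obtain ⟨m, rfl⟩ : ∃ m, r = m + 1 := ⟨r - 1, by have := one.2; omega⟩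
  have h := taylor_order (hf b).deriv m
  refine h.trans (le_of_eq ?_)
  congr 1
  funext z
  congr 1
  unfold shift jetf
  rw [Fin.sum_univ_succ]
  simp only [h1, Fin.val_zero, Nat.choose_one_right, Nat.cast_zero, zero_mul, zero_add,
    Fin.val_succ, Nat.add_sub_cancel]
  rw [Finset.sum_range]
  refine Finset.sum_congr rfl fun j _ => ?_
  rw [← iteratedDeriv_succ', Nat.factorial_succ]
  push_cast
  have h3 : (((j : ℕ).factorial : ℕ) : ℂ) ≠ 0 := by exact_mod_cast Nat.factorial_ne_zero _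
  have h4 : (((j : ℕ) : ℂ) + 1) ≠ 0 := by exact_mod_cast Nat.succ_ne_zero (j : ℕ)
  field_simp

/-- `shift (z₀ - z) (jetf r f z)` is analytic in `z`. -/
theorem analyticAt_xhat {n : ℕ} (r : ℕ) {f : ℂ → Fin n → ℂ} {z₀ : ℂ}
    (hf : ∀ b, AnalyticAt ℂ (fun w => f w b) z₀) (p : JV n r) :
    AnalyticAt ℂ (fun z => shift (z₀ - z) (jetf r f z) p) z₀ := by
  unfold shift
  apply Finset.analyticAt_fun_sum
  intro j _
  exact (analyticAt_const.mul ((analyticAt_const.sub analyticAt_id).pow _)).mul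
    (analyticAt_jetf r hf _)

end Pool.Agent.H89T
end

-- from Lib.H89T.DB
section

set_option autoImplicit false

/-!
CHUNK DB (Part D).  `u i` on the jet of a curve is the `i`-th Taylor coefficient of the composition;
property (B).
-/

open MvPolynomial Filter Topology

namespace Pool.Agent.H89T

theorem order_zero_fun (z₀ : ℂ) : analyticOrderAt (fun _ : ℂ => (0 : ℂ)) z₀ = ⊤ := by
  rw [analyticOrderAt_eq_top]
  simp

/-- Polynomials in analytic functions which agree up to order `m` agree up to order `m`. -/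
theorem le_order_eval_sub {σ : Type*} [Fintype σ] (P : MvPolynomial σ ℂ) {x y : ℂ → σ → ℂ} {z₀ : ℂ}
    {m : ℕ∞} (hx : ∀ i, AnalyticAt ℂ (fun z => x z i) z₀)
    (hy : ∀ i, AnalyticAt ℂ (fun z => y z i) z₀)
    (h : ∀ i, m ≤ analyticOrderAt (fun z => x z i - y z i) z₀) :
    m ≤ analyticOrderAt (fun z => eval (x z) P - eval (y z) P) z₀ := by
  induction P using MvPolynomial.induction_on with
  | C a =>
    simp only [eval_C, sub_self]
    rw [order_zero_fun]
    exact le_top
  | add p q hp hq =>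
    have h1 : (fun z => eval (x z) (p + q) - eval (y z) (p + q)) =
        (fun z => eval (x z) p - eval (y z) p) + fun z => eval (x z) q - eval (y z) q := by
      funext z
      simp only [map_add, Pi.add_apply]
      ring
    rw [h1]
    exact (le_min hp hq).trans le_analyticOrderAt_add
  | mul_X p i hp =>
    have h1 : (fun z => eval (x z) (p * X i) - eval (y z) (p * X i)) =
        (fun z => (eval (x z) p - eval (y z) p) * x z i) +
          fun z => (x z i - y z i) * eval (y z) p := by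
      funext z
      simp only [map_mul, eval_X, Pi.add_apply]
      ring
    rw [h1]
    refine (le_min ?_ ?_).trans le_analyticOrderAt_add
    · exact le_order_mul hp ((analyticAt_eval p hx).sub (analyticAt_eval p hy)) (hx i)
    · exact le_order_mul (h i) ((hx i).sub (hy i)) (analyticAt_eval p hy)

/-- `ev a` as a polynomial. -/
noncomputable def evP {n k : ℕ} (a : Idx n k → ℂ) : MvPolynomial (Fin n) ℂ :=
  ev (fun α => C (a α)) (fun b => X b)

theorem eval_evP {n k : ℕ} (a : Idx n k → ℂ) (x : Fin n → ℂ) : eval x (evP a) = ev a x := by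
  unfold evP
  rw [ev_map]
  simp

theorem eval_uR {n k r : ℕ} (a : Idx n k → ℂ) (ξ : JV n r → ℂ) (i : ℕ) :
    eval ξ (uR a i) = uu a ξ i := by
  unfold uR
  rw [uu_map]
  simp

theorem analyticAt_ev {n k : ℕ} (a : Idx n k → ℂ) {f : ℂ → Fin n → ℂ} {z : ℂ}
    (hf : ∀ b, AnalyticAt ℂ (fun w => f w b) z) : AnalyticAt ℂ (fun w => ev a (f w)) z := by
  have h := analyticAt_eval (evP a) hf
  simp only [eval_evP] at h
  exact h

theorem iteratedDeriv_poly (p : Polynomial ℂ) (z : ℂ) (i : ℕ) :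
    iteratedDeriv i (fun w => p.eval (w - z)) =
      fun w => (Polynomial.derivative^[i] p).eval (w - z) := by
  induction i with
  | zero =>
    rw [iteratedDeriv_zero]
    rfl
  | succ i ih =>
    rw [iteratedDeriv_succ, ih, Function.iterate_succ_apply']
    funext w
    have h1 := (Polynomial.derivative^[i] p).hasDerivAt (w - z)
    have h2 : HasDerivAt (fun w : ℂ => w - z) 1 w := (hasDerivAt_id w).sub_const z
    have h3 := h1.comp w h2
    rw [mul_one] at h3
    exact h3.deriv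

theorem iteratedDeriv_poly_self (p : Polynomial ℂ) (z : ℂ) (i : ℕ) :
    iteratedDeriv i (fun w => p.eval (w - z)) z = (i.factorial : ℂ) * p.coeff i := by
  rw [iteratedDeriv_poly]
  simp only [sub_self]
  rw [← Polynomial.coeff_zero_eq_eval_zero, Polynomial.coeff_iterate_derivative, zero_add,
    Nat.descFactorial_self, nsmul_eq_mul]

theorem analyticAt_poly (p : Polynomial ℂ) (z w : ℂ) :
    AnalyticAt ℂ (fun w => p.eval (w - z)) w := by
  have h : Differentiable ℂ (fun w : ℂ => p.eval (w - z)) :=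
    p.differentiable.comp (differentiable_id.sub_const z)
  exact h.analyticAt w

/-- The arc of the jet of `f` agrees with `f` to order at least `r + 1`. -/
theorem order_arc {n : ℕ} (r : ℕ) {f : ℂ → Fin n → ℂ} {z : ℂ}
    (hf : ∀ b, AnalyticAt ℂ (fun w => f w b) z) (b : Fin n) :
    ((r + 1 : ℕ) : ℕ∞) ≤
      analyticOrderAt (fun w => (arc (jetf r f z) b).eval (w - z) - f w b) z := by
  have h1 : AnalyticAt ℂ (fun w => (arc (jetf r f z) b).eval (w - z)) z := analyticAt_poly _ _ _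
  rw [natCast_le_analyticOrderAt_iff_iteratedDeriv_eq_zero (h1.fun_sub (hf b))]
  intro i hi
  rw [iteratedDeriv_fun_sub h1.contDiffAt (hf b).contDiffAt, iteratedDeriv_poly_self, coeff_arc,
    dif_pos hi]
  unfold jetf
  have h3 : ((i.factorial : ℕ) : ℂ) ≠ 0 := by exact_mod_cast Nat.factorial_ne_zero i
  simp only
  field_simp
  ring

/-- The `i`-th Taylor coefficient of the composition.  Proof: the polynomial
`g (w) = (Fx a (jetf r f z)).eval (w - z)` and `ev a (f w)` differ by a function of order at least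
`r + 1` at `z`, because the arcs differ from `f` by functions of order at least `r + 1`; so their
iterated derivatives of order `i ≤ r` at `z` agree
(`natCast_le_analyticOrderAt_iff_iteratedDeriv_eq_zero`). -/
theorem uu_jet {n k r : ℕ} (a : Idx n k → ℂ) {f : ℂ → Fin n → ℂ} {z : ℂ}
    (hf : ∀ b, AnalyticAt ℂ (fun w => f w b) z) {i : ℕ} (hi : i ≤ r) :
    eval (jetf r f z) (uR a i) = iteratedDeriv i (fun w => ev a (f w)) z / (i.factorial : ℂ) := by
  have h1 : ∀ w, (Fx a (jetf r f z)).eval (w - z) =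
      ev a (fun b => (arc (jetf r f z) b).eval (w - z)) := by
    intro w
    unfold Fx
    have h := ev_map (Polynomial.evalRingHom (w - z)) (fun α => Polynomial.C (a α))
      (arc (jetf r f z))
    simp only [Polynomial.coe_evalRingHom, Polynomial.eval_C] at h
    exact h
  have h2 := le_order_eval_sub (evP a) (z₀ := z)
    (x := fun w b => (arc (jetf r f z) b).eval (w - z)) (y := f)
    (fun b => analyticAt_poly _ _ _) hf (order_arc r hf)
  simp only [eval_evP] at h2
  simp only [← h1] at h2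
  have h3 : AnalyticAt ℂ (fun w => (Fx a (jetf r f z)).eval (w - z)) z := analyticAt_poly _ _ _
  have h4 := analyticAt_ev a hf
  rw [natCast_le_analyticOrderAt_iff_iteratedDeriv_eq_zero (h3.fun_sub h4)] at h2
  have h5 := h2 i (by omega)
  rw [iteratedDeriv_fun_sub h3.contDiffAt h4.contDiffAt, iteratedDeriv_poly_self, sub_eq_zero] at h5
  rw [← h5, eval_uR]
  unfold uu
  have h6 : ((i.factorial : ℕ) : ℂ) ≠ 0 := by exact_mod_cast Nat.factorial_ne_zero i
  field_simp

theorem le_order_iteratedDeriv {g : ℂ → ℂ} {z₀ : ℂ} (hg : AnalyticAt ℂ g z₀) {m : ℕ}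
    (hm : (m : ℕ∞) ≤ analyticOrderAt g z₀) (i : ℕ) :
    ((m - i : ℕ) : ℕ∞) ≤ analyticOrderAt (iteratedDeriv i g) z₀ := by
  rw [natCast_le_analyticOrderAt_iff_iteratedDeriv_eq_zero (analyticAt_iteratedDeriv hg i)]
  rw [natCast_le_analyticOrderAt_iff_iteratedDeriv_eq_zero hg] at hm
  intro j hj
  have h1 : iteratedDeriv j (iteratedDeriv i g) = iteratedDeriv (j + i) g := by
    rw [iteratedDeriv_eq_iterate, iteratedDeriv_eq_iterate, iteratedDeriv_eq_iterate,
      Function.iterate_add_apply]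
  rw [h1]
  exact hm _ (by omega)

/-- **Order at the zeros, property (B).**  `P = ∑ i, A i * uR a i` (`Ideal.mem_span_range_iff_exists_fun`
or `Submodule.mem_span_range_iff_exists_fun`), `uu_jet` near `z₀`, and the `i`-th derivative of a
function of order at least `m` has order at least `m - i`. -/
theorem order_propB {n k r : ℕ} {a : Idx n k → ℂ} {P : MvPolynomial (JV n r) ℂ}
    (hP : PropB a P) {f : ℂ → Fin n → ℂ} {z₀ : ℂ}
    (hf : ∀ b, AnalyticAt ℂ (fun w => f w b) z₀) {m : ℕ}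
    (hm : (m : ℕ∞) ≤ analyticOrderAt (fun w => ev a (f w)) z₀) :
    ((m - r : ℕ) : ℕ∞) ≤ analyticOrderAt (fun z => eval (jetf r f z) P) z₀ := by
  have han : ∀ Q : MvPolynomial (JV n r) ℂ, AnalyticAt ℂ (fun z => eval (jetf r f z) Q) z₀ :=
    fun Q => analyticAt_eval Q (analyticAt_jetf r hf)
  unfold PropB at hP
  refine Submodule.span_induction (p := fun P _ => ((m - r : ℕ) : ℕ∞) ≤
    analyticOrderAt (fun z => eval (jetf r f z) P) z₀) ?_ ?_ ?_ ?_ hP
  · rintro Q ⟨i, rfl⟩
    simp only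
    have h1 : (fun z => eval (jetf r f z) (uR a (i : ℕ))) =ᶠ[𝓝 z₀]
        fun z => iteratedDeriv (i : ℕ) (fun w => ev a (f w)) z / ((i : ℕ).factorial : ℂ) := by
      have h2 : ∀ᶠ z in 𝓝 z₀, ∀ b, AnalyticAt ℂ (fun w => f w b) z := by
        rw [Filter.eventually_all]
        intro b
        exact (hf b).eventually_analyticAt
      filter_upwards [h2] with z hz
      exact uu_jet a hz (by have := i.2; omega)
    rw [analyticOrderAt_congr h1]
    have h3 := le_order_iteratedDeriv (analyticAt_ev a hf) hm (i : ℕ)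
    have h4 : ((m - r : ℕ) : ℕ∞) ≤ ((m - (i : ℕ) : ℕ) : ℕ∞) := by
      have := i.2
      exact_mod_cast (by omega : m - r ≤ m - (i : ℕ))
    have h5 := le_order_mul (h4.trans h3) (analyticAt_iteratedDeriv (analyticAt_ev a hf) (i : ℕ))
      (analyticAt_const (v := (((i : ℕ).factorial : ℕ) : ℂ)⁻¹))
    simpa only [div_eq_mul_inv] using h5
  · simp only [map_zero]
    rw [order_zero_fun]
    exact le_top
  · intro P Q _ _ h1 h2
    simp only [map_add]
    exact (le_min h1 h2).trans le_analyticOrderAt_add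
  · intro A Q _ h1
    simp only [smul_eq_mul, map_mul]
    have h2 := le_order_mul h1 (han Q) (han A)
    simpa only [mul_comm] using h2

end Pool.Agent.H89T
end

-- from Lib.H89T.DA3
section

set_option autoImplicit false

/-!
CHUNK DA3 (Part D).  Property (A): the value of the operator on the jet of a curve vanishes to order
at least `r` at every point of tangency of the curve with the hypersurface.
-/

open MvPolynomial Filter Topology

namespace Pool.Agent.H89T

/-- Generators of the ideal `(u 0, u 1)` have order at least `r` on the transported jets, if the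
composition has order at least `2` at `z₀`.  Proof: `u 0`, `u 1` depend on the coordinates of order
at most `1` only (`uu_zero`, `uu_one`); compare with the jets `v z` which agree with the jet at `z₀` for the
coordinates of order at most `1` and with the transported jet for the others
(`le_order_eval_sub`, `xhat_zero`, `xhat_one`); the value of `u i` at `v z` is the value at the jet
at `z₀`, which is `0` (`uu_jet`). -/
theorem order_uR_xhat {n k r : ℕ} (a : Idx n k → ℂ) {f : ℂ → Fin n → ℂ} {z₀ : ℂ}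
    (hf : ∀ b, AnalyticAt ℂ (fun w => f w b) z₀)
    (h2 : 2 ≤ analyticOrderAt (fun w => ev a (f w)) z₀) (hr : 1 ≤ r) (i : ℕ) (hi : i < 2) :
    (r : ℕ∞) ≤ analyticOrderAt (fun z => eval (shift (z₀ - z) (jetf r f z)) (uR a i)) z₀ := by
  set one : Fin (r + 1) := ⟨1, by omega⟩ with hone
  have hone0 : ((0 : Fin (r + 1)) : ℕ) = 0 := rfl
  set v : ℂ → JV n r → ℂ := fun z p => if (p.2 : ℕ) ≤ 1 then jetf r f z₀ p else
    shift (z₀ - z) (jetf r f z) p with hv
  have hval : ∀ z, eval (v z) (uR a i) = 0 := by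
    intro z
    have h3 : eval (v z) (uR a i) = eval (jetf r f z₀) (uR a i) := by
      rw [eval_uR, eval_uR]
      interval_cases i
      · rw [uu_zero, uu_zero]
        rfl
      · rw [uu_one _ _ one rfl, uu_one _ _ one rfl]
        rfl
    rw [h3, uu_jet a hf (by omega)]
    have h4 := (natCast_le_analyticOrderAt_iff_iteratedDeriv_eq_zero (n := 2)
      (analyticAt_ev a hf)).1 (by exact_mod_cast h2) i hi
    rw [h4, zero_div]
  have hvan : ∀ p, AnalyticAt ℂ (fun z => v z p) z₀ := by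
    intro p
    by_cases hp : (p.2 : ℕ) ≤ 1
    · simp only [hv, hp, if_true]
      exact analyticAt_const
    · simp only [hv, hp, if_false]
      exact analyticAt_xhat r hf p
  have h5 := le_order_eval_sub (uR a i) (z₀ := z₀) (m := (r : ℕ∞))
    (x := fun z => shift (z₀ - z) (jetf r f z)) (y := v) (analyticAt_xhat r hf) hvan ?_
  · simp only [hval, sub_zero] at h5
    exact h5
  · rintro ⟨b, l⟩
    rcases lt_trichotomy (l : ℕ) 1 with hl | hl | hl
    · have hl0 : l = 0 := Fin.ext (by rw [hone0]; omega)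
      subst hl0
      have h6 := xhat_zero r hf b
      have h7 : (fun z => shift (z₀ - z) (jetf r f z) (b, 0) - v z (b, 0)) =
          fun z => shift (z₀ - z) (jetf r f z) (b, 0) - f z₀ b := by
        funext z
        simp [hv, jetf]
      rw [h7]
      refine le_trans ?_ h6
      exact_mod_cast Nat.le_succ r
    · have h6 := xhat_one r hf b l hl
      have h7 : (fun z => shift (z₀ - z) (jetf r f z) (b, l) - v z (b, l)) =
          fun z => shift (z₀ - z) (jetf r f z) (b, l) - deriv (fun w => f w b) z₀ := by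
        funext z
        simp [hv, jetf, hl]
      rw [h7]
      exact h6
    · have h7 : (fun z => shift (z₀ - z) (jetf r f z) (b, l) - v z (b, l)) =
          fun _ => 0 := by
        funext z
        have : ¬ ((l : ℕ) ≤ 1) := by omega
        simp [hv, this]
      rw [h7, order_zero_fun]
      exact le_top


end Pool.Agent.H89T
end

-- from Lib.H89T.DE
section

set_option autoImplicit false

/-!
CHUNK DE (Part D).  Pointwise bounds for the functions `QQ`.
-/

open MvPolynomial Filter Topology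

namespace Pool.Agent.H89T

open Pool.Agent.H67T

theorem term1_le_Lam {n : ℕ} (y : ℂ → Fin (n + 1) → ℂ) (Fy : ℂ → ℂ) (k L : ℕ) (z : ℂ)
    (c : Fin (n + 1)) (b : Fin n) (l : Fin (L + 1)) :
    ‖iteratedDeriv (l : ℕ) (fun w => ch c y w b) z / ch c y z b‖ ≤ Lam y Fy k L z := by
  unfold Lam
  have h2 : 0 ≤ ∑ c, ∑ l : Fin (L + 1), ‖iteratedDeriv (l : ℕ) (Fc y Fy k c) z / Fc y Fy k c z‖ :=
    Finset.sum_nonneg fun _ _ => Finset.sum_nonneg fun _ _ => norm_nonneg _
  have h3 : ‖iteratedDeriv (l : ℕ) (fun w => ch c y w b) z / ch c y z b‖ ≤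
      ∑ l : Fin (L + 1), ‖iteratedDeriv (l : ℕ) (fun w => ch c y w b) z / ch c y z b‖ :=
    Finset.single_le_sum
      (f := fun l : Fin (L + 1) => ‖iteratedDeriv (l : ℕ) (fun w => ch c y w b) z / ch c y z b‖)
      (fun _ _ => norm_nonneg _) (Finset.mem_univ l)
  have h4 : ∑ l : Fin (L + 1), ‖iteratedDeriv (l : ℕ) (fun w => ch c y w b) z / ch c y z b‖ ≤
      ∑ b, ∑ l : Fin (L + 1), ‖iteratedDeriv (l : ℕ) (fun w => ch c y w b) z / ch c y z b‖ :=
    Finset.single_le_sum
      (f := fun b => ∑ l : Fin (L + 1),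
        ‖iteratedDeriv (l : ℕ) (fun w => ch c y w b) z / ch c y z b‖)
      (fun _ _ => Finset.sum_nonneg fun _ _ => norm_nonneg _) (Finset.mem_univ b)
  have h5 : ∑ b, ∑ l : Fin (L + 1), ‖iteratedDeriv (l : ℕ) (fun w => ch c y w b) z / ch c y z b‖ ≤
      ∑ c, ∑ b, ∑ l : Fin (L + 1),
        ‖iteratedDeriv (l : ℕ) (fun w => ch c y w b) z / ch c y z b‖ :=
    Finset.single_le_sum
      (f := fun c => ∑ b, ∑ l : Fin (L + 1),
        ‖iteratedDeriv (l : ℕ) (fun w => ch c y w b) z / ch c y z b‖)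
      (fun _ _ => Finset.sum_nonneg fun _ _ => Finset.sum_nonneg fun _ _ => norm_nonneg _)
      (Finset.mem_univ c)
  linarith

theorem term2_le_Lam {n : ℕ} (y : ℂ → Fin (n + 1) → ℂ) (Fy : ℂ → ℂ) (k L : ℕ) (z : ℂ)
    (c : Fin (n + 1)) (l : Fin (L + 1)) :
    ‖iteratedDeriv (l : ℕ) (Fc y Fy k c) z / Fc y Fy k c z‖ ≤ Lam y Fy k L z := by
  unfold Lam
  have h2 : 0 ≤ ∑ c, ∑ b, ∑ l : Fin (L + 1),
      ‖iteratedDeriv (l : ℕ) (fun w => ch c y w b) z / ch c y z b‖ :=
    Finset.sum_nonneg fun _ _ => Finset.sum_nonneg fun _ _ => Finset.sum_nonneg fun _ _ =>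
      norm_nonneg _
  have h3 : ‖iteratedDeriv (l : ℕ) (Fc y Fy k c) z / Fc y Fy k c z‖ ≤
      ∑ l : Fin (L + 1), ‖iteratedDeriv (l : ℕ) (Fc y Fy k c) z / Fc y Fy k c z‖ :=
    Finset.single_le_sum
      (f := fun l : Fin (L + 1) => ‖iteratedDeriv (l : ℕ) (Fc y Fy k c) z / Fc y Fy k c z‖)
      (fun _ _ => norm_nonneg _) (Finset.mem_univ l)
  have h4 : ∑ l : Fin (L + 1), ‖iteratedDeriv (l : ℕ) (Fc y Fy k c) z / Fc y Fy k c z‖ ≤
      ∑ c, ∑ l : Fin (L + 1), ‖iteratedDeriv (l : ℕ) (Fc y Fy k c) z / Fc y Fy k c z‖ :=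
    Finset.single_le_sum
      (f := fun c => ∑ l : Fin (L + 1), ‖iteratedDeriv (l : ℕ) (Fc y Fy k c) z / Fc y Fy k c z‖)
      (fun _ _ => Finset.sum_nonneg fun _ _ => norm_nonneg _) (Finset.mem_univ c)
  linarith

theorem norm_coord_pos {n : ℕ} (y : ℂ → Fin (n + 1) → ℂ) (c : Fin (n + 1)) (z : ℂ)
    (hz : y z c ≠ 0) : 1 ≤ ‖y z‖ / ‖y z c‖ := by
  rw [one_le_div (norm_pos_iff.mpr hz)]
  exact norm_le_pi_norm (y z) c

/-- The jets are bounded by the logarithmic derivatives: `‖ξ (b, l)‖ ≤ Lam * (‖y‖ / ‖y_c‖)`. -/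
theorem norm_jetf_le {n : ℕ} (y : ℂ → Fin (n + 1) → ℂ) (Fy : ℂ → ℂ) (k : ℕ) {r L : ℕ} (hL : r ≤ L)
    (c : Fin (n + 1)) (z : ℂ) (hz : ∀ j, y z j ≠ 0) (p : JV n r) :
    ‖jetf r (ch c y) z p‖ ≤ Lam y Fy k L z * (‖y z‖ / ‖y z c‖) := by
  have hch : ch c y z p.1 ≠ 0 := div_ne_zero (hz _) (hz _)
  have h1 : ‖jetf r (ch c y) z p‖ ≤ ‖iteratedDeriv (p.2 : ℕ) (fun w => ch c y w p.1) z‖ := by
    unfold jetf
    rw [norm_div]
    refine div_le_self (norm_nonneg _) ?_
    rw [Complex.norm_natCast]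
    exact_mod_cast Nat.one_le_iff_ne_zero.mpr (Nat.factorial_ne_zero _)
  have h2 : ‖iteratedDeriv (p.2 : ℕ) (fun w => ch c y w p.1) z‖ =
      ‖iteratedDeriv (p.2 : ℕ) (fun w => ch c y w p.1) z / ch c y z p.1‖ * ‖ch c y z p.1‖ := by
    rw [← norm_mul, div_mul_cancel₀ _ hch]
  have h3 := term1_le_Lam y Fy k L z c p.1 ⟨(p.2 : ℕ), by have := p.2.2; omega⟩
  have h4 : ‖ch c y z p.1‖ ≤ ‖y z‖ / ‖y z c‖ := by
    unfold ch
    rw [norm_div]
    exact div_le_div_of_nonneg_right (norm_le_pi_norm (y z) _) (norm_nonneg _)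
  have h5 := one_le_Lam y Fy k L z
  calc ‖jetf r (ch c y) z p‖ ≤ _ := h1
    _ = _ := h2
    _ ≤ Lam y Fy k L z * (‖y z‖ / ‖y z c‖) :=
      mul_le_mul h3 h4 (norm_nonneg _) (by linarith)

/-- A polynomial of weight at most `M` at a point with coordinates bounded by `T * S`, `1 ≤ S, T`:
every monomial of weight at most `M` has degree at most `M`. -/
theorem norm_eval_le {n r M : ℕ} {P : MvPolynomial (JV n r) ℂ} (hP : HasWt M P) :
    ∃ C : ℝ, 0 ≤ C ∧ ∀ (ξ : JV n r → ℂ) (T S : ℝ), 1 ≤ T → 1 ≤ S → (∀ p, ‖ξ p‖ ≤ T * S) →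
      ‖eval ξ P‖ ≤ C * T ^ M * S ^ M := by
  refine ⟨∑ m ∈ P.support, ‖P.coeff m‖, Finset.sum_nonneg fun _ _ => norm_nonneg _,
    fun ξ T S hT hS hξ => ?_⟩
  have hTS : 1 ≤ T * S := one_le_mul_of_one_le_of_one_le hT hS
  rw [eval_eq', mul_assoc, ← mul_pow, Finset.sum_mul]
  refine (norm_sum_le _ _).trans (Finset.sum_le_sum fun m hm => ?_)
  rw [norm_mul]
  refine mul_le_mul_of_nonneg_left ?_ (norm_nonneg _)
  rw [norm_prod]
  calc ∏ p, ‖ξ p ^ m p‖ ≤ ∏ p, (T * S) ^ m p := by
        refine Finset.prod_le_prod (fun _ _ => norm_nonneg _) fun p _ => ?_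
        rw [norm_pow]
        exact pow_le_pow_left₀ (norm_nonneg _) (hξ p) _
    _ = (T * S) ^ ∑ p, m p := Finset.prod_pow_eq_pow_sum _ _ _
    _ ≤ (T * S) ^ M := by
        refine pow_le_pow_right₀ hTS ((Finset.sum_le_sum fun p _ => ?_).trans (hP m hm))
        exact Nat.le_mul_of_pos_left _ (Nat.succ_pos _)

/-- The bound in all charts: `‖QQ‖ ≤ C ‖y‖ ^ M Lam ^ M`. -/
theorem QQ_le {n k r M : ℕ} (D : CurveData n k) (c : Fin (n + 1)) {P : MvPolynomial (JV n r) ℂ}
    (hP : HasWt M P) {L : ℕ} (hL : r ≤ L) :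
    ∃ C : ℝ, 0 ≤ C ∧ ∀ z, (∀ j, D.y z j ≠ 0) →
      ‖QQ D.y c M P z‖ ≤ C * ‖D.y z‖ ^ M * Lam D.y D.Fy k L z ^ M := by
  obtain ⟨C, hC, h⟩ := norm_eval_le hP
  refine ⟨C, hC, fun z hz => ?_⟩
  have h1 := h (jetf r (ch c D.y) z) (Lam D.y D.Fy k L z) (‖D.y z‖ / ‖D.y z c‖)
    (one_le_Lam _ _ _ _ _) (norm_coord_pos _ _ _ (hz c)) (norm_jetf_le _ _ _ hL c z hz)
  rw [QQ_eq D.hy.diff c hP (hz c), norm_mul, norm_pow]
  have hc : 0 < ‖D.y z c‖ := norm_pos_iff.mpr (hz c)
  calc ‖D.y z c‖ ^ M * ‖eval (jetf r (ch c D.y) z) P‖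
      ≤ ‖D.y z c‖ ^ M * (C * Lam D.y D.Fy k L z ^ M * (‖D.y z‖ / ‖D.y z c‖) ^ M) :=
        mul_le_mul_of_nonneg_left h1 (by positivity)
    _ = C * ‖D.y z‖ ^ M * Lam D.y D.Fy k L z ^ M := by
        rw [div_pow]
        field_simp

/-- `u i` of the jet is bounded by `Lam * ‖Fy‖ / ‖y_c‖ ^ k` (`uu_jet`, `hFc` near `z`). -/
theorem norm_uR_le {n k r : ℕ} (D : CurveData n k) (c : Fin (n + 1)) {L : ℕ} (hL : r ≤ L) {z : ℂ}
    (hz : ∀ j, D.y z j ≠ 0) (hF : D.Fy z ≠ 0) (i : Fin (r + 1)) :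
    ‖eval (jetf r (ch c D.y) z) (uR (D.a c) (i : ℕ))‖ ≤
      Lam D.y D.Fy k L z * (‖D.Fy z‖ / ‖D.y z c‖ ^ k) := by
  have hi : (i : ℕ) ≤ r := by have := i.2; omega
  rw [uu_jet (D.a c) (fun b => analyticAt_ch D.hy.diff c (hz c) b) hi]
  have hev : ∀ᶠ w in 𝓝 z, D.y w c ≠ 0 :=
    (D.hy.diff c).continuous.continuousAt.eventually_ne (hz c)
  have heq : (fun w => ev (D.a c) (ch c D.y w)) =ᶠ[𝓝 z] Fc D.y D.Fy k c := by
    filter_upwards [hev] with w hw
    exact D.hFc c w hw
  have h1 : iteratedDeriv (i : ℕ) (fun w => ev (D.a c) (ch c D.y w)) z =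
      iteratedDeriv (i : ℕ) (Fc D.y D.Fy k c) z := heq.iteratedDeriv_eq (i : ℕ)
  rw [h1, norm_div]
  have hFc : Fc D.y D.Fy k c z ≠ 0 := div_ne_zero hF (pow_ne_zero _ (hz c))
  have h2 : ‖iteratedDeriv (i : ℕ) (Fc D.y D.Fy k c) z‖ / ‖(((i : ℕ).factorial : ℕ) : ℂ)‖ ≤
      ‖iteratedDeriv (i : ℕ) (Fc D.y D.Fy k c) z‖ := by
    refine div_le_self (norm_nonneg _) ?_
    rw [Complex.norm_natCast]
    exact_mod_cast Nat.one_le_iff_ne_zero.mpr (Nat.factorial_ne_zero _)
  have h3 : ‖iteratedDeriv (i : ℕ) (Fc D.y D.Fy k c) z‖ =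
      ‖iteratedDeriv (i : ℕ) (Fc D.y D.Fy k c) z / Fc D.y D.Fy k c z‖ *
        ‖Fc D.y D.Fy k c z‖ := by
    rw [← norm_mul, div_mul_cancel₀ _ hFc]
  have h4 := term2_le_Lam D.y D.Fy k L z c ⟨(i : ℕ), by omega⟩
  have h5 : ‖Fc D.y D.Fy k c z‖ = ‖D.Fy z‖ / ‖D.y z c‖ ^ k := by
    unfold Fc
    rw [norm_div, norm_pow]
  rw [← h5]
  exact h2.trans (h3.le.trans (mul_le_mul_of_nonneg_right h4 (norm_nonneg _)))

theorem exists_hasWt {n r : ℕ} (P : MvPolynomial (JV n r) ℂ) : ∃ M, HasWt M P :=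
  ⟨P.support.sup wt, fun _ hm => Finset.le_sup hm⟩

/-- The bound with property (B) in a chart with `‖y_c‖ = ‖y‖`. -/
theorem QQ_le_B {n k r M : ℕ} (D : CurveData n k) (c : Fin (n + 1)) {P : MvPolynomial (JV n r) ℂ}
    (hP : HasWt M P) (hB : PropB (D.a c) P) {L : ℕ} (hL : r ≤ L) :
    ∃ (C : ℝ) (E : ℕ), 0 ≤ C ∧ ∀ z, (∀ j, D.y z j ≠ 0) → D.Fy z ≠ 0 → ‖D.y z c‖ = ‖D.y z‖ →
      ‖QQ D.y c M P z‖ * ‖D.y z‖ ^ k ≤
        C * ‖D.Fy z‖ * ‖D.y z‖ ^ M * Lam D.y D.Fy k L z ^ E := by
  obtain ⟨A, hA⟩ := Ideal.mem_span_range_iff_exists_fun.mp hB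
  choose M' hM' using fun i => exists_hasWt (A i)
  choose C' hC' hb using fun i => norm_eval_le (hM' i)
  set E : ℕ := Finset.univ.sup M' with hE
  refine ⟨∑ i, C' i, E + 1, Finset.sum_nonneg fun i _ => hC' i, fun z hz hF hc => ?_⟩
  set Λ : ℝ := Lam D.y D.Fy k L z with hΛ
  have hΛ1 : 1 ≤ Λ := one_le_Lam _ _ _ _ _
  have hypos : 0 < ‖D.y z c‖ := norm_pos_iff.mpr (hz c)
  have hS : ‖D.y z‖ / ‖D.y z c‖ = 1 := by rw [hc]; exact div_self (by rw [← hc]; exact hypos.ne')
  have hAi : ∀ i, ‖eval (jetf r (ch c D.y) z) (A i)‖ ≤ C' i * Λ ^ E := by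
    intro i
    have h1 := hb i (jetf r (ch c D.y) z) Λ (‖D.y z‖ / ‖D.y z c‖) hΛ1 (by rw [hS])
      (norm_jetf_le _ _ _ hL c z hz)
    rw [hS, one_pow, mul_one] at h1
    exact h1.trans (mul_le_mul_of_nonneg_left
      (pow_le_pow_right₀ hΛ1 (Finset.le_sup (Finset.mem_univ i))) (hC' i))
  have hev : ‖eval (jetf r (ch c D.y) z) P‖ ≤
      (∑ i, C' i) * Λ ^ (E + 1) * (‖D.Fy z‖ / ‖D.y z‖ ^ k) := by
    rw [← hA, map_sum, Finset.sum_mul, Finset.sum_mul]
    refine (norm_sum_le _ _).trans (Finset.sum_le_sum fun i _ => ?_)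
    rw [map_mul, norm_mul]
    have h2 := norm_uR_le D c hL hz hF i
    rw [hc] at h2
    calc ‖eval (jetf r (ch c D.y) z) (A i)‖ * ‖eval (jetf r (ch c D.y) z) (uR (D.a c) (i : ℕ))‖
        ≤ (C' i * Λ ^ E) * (Λ * (‖D.Fy z‖ / ‖D.y z‖ ^ k)) :=
          mul_le_mul (hAi i) h2 (norm_nonneg _) (mul_nonneg (hC' i) (by positivity))
      _ = C' i * Λ ^ (E + 1) * (‖D.Fy z‖ / ‖D.y z‖ ^ k) := by ring
  rw [QQ_eq D.hy.diff c hP (hz c), norm_mul, norm_pow, hc]
  have hy0 : 0 < ‖D.y z‖ := by rw [← hc]; exact hypos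
  calc ‖D.y z‖ ^ M * ‖eval (jetf r (ch c D.y) z) P‖ * ‖D.y z‖ ^ k
      ≤ ‖D.y z‖ ^ M * ((∑ i, C' i) * Λ ^ (E + 1) * (‖D.Fy z‖ / ‖D.y z‖ ^ k)) * ‖D.y z‖ ^ k := by
        gcongr
    _ = (∑ i, C' i) * ‖D.Fy z‖ * ‖D.y z‖ ^ M * Λ ^ (E + 1) := by
        field_simp

end Pool.Agent.H89T
end

-- from Lib.H89T.DF
section

set_option autoImplicit false

/-!
CHUNK DF (Part D).  The order and the size of `scriptQ`.
-/

open MvPolynomial Filter Topology

namespace Pool.Agent.H89T

open Pool.Agent.H67T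

theorem DF_order_prod {ι : Type*} (s : Finset ι) {f : ι → ℂ → ℂ} {z₀ : ℂ} {i₀ : ι}
    (hi : i₀ ∈ s) (hf : ∀ i ∈ s, AnalyticAt ℂ (f i) z₀) :
    analyticOrderAt (f i₀) z₀ ≤ analyticOrderAt (fun z => ∏ i ∈ s, f i z) z₀ := by
  classical
  have h1 : (fun z => ∏ i ∈ s, f i z) = fun z => f i₀ z * ∏ i ∈ s.erase i₀, f i z := by
    funext z
    exact (Finset.mul_prod_erase s (fun i => f i z) hi).symm
  rw [h1]
  refine le_order_mul le_rfl (hf i₀ hi) ?_
  exact Finset.analyticAt_fun_prod _ fun i hi' => hf i (Finset.mem_of_mem_erase hi')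

theorem DF_order_QQ {n r : ℕ} {y : ℂ → Fin (n + 1) → ℂ} (hy : ∀ j, Differentiable ℂ fun z => y z j)
    (c : Fin (n + 1)) {M : ℕ} {P : MvPolynomial (JV n r) ℂ} (hP : HasWt M P) {z : ℂ}
    (hz : y z c ≠ 0) {q : ℕ∞}
    (h : q ≤ analyticOrderAt (fun w => eval (jetf r (ch c y) w) P) z) :
    q ≤ analyticOrderAt (QQ y c M P) z := by
  have hnear : ∀ᶠ w in 𝓝 z, y w c ≠ 0 := (hy c).continuous.continuousAt.eventually_ne hz
  have h1 : QQ y c M P =ᶠ[𝓝 z] fun w => eval (jetf r (ch c y) w) P * y w c ^ M := by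
    filter_upwards [hnear] with w hw
    rw [QQ_eq hy c hP hw, mul_comm]
  rw [analyticOrderAt_congr h1]
  refine le_order_mul h ?_ (((hy c).analyticAt z).pow M)
  exact analyticAt_eval P fun p => analyticAt_jetf r (fun b => analyticAt_ch hy c hz b) p

theorem DF_order_pow {f : ℂ → ℂ} {z : ℂ} (hf : AnalyticAt ℂ f z) {q : ℕ} (n : ℕ)
    (h : (q : ℕ∞) ≤ analyticOrderAt f z) :
    ((n * q : ℕ) : ℕ∞) ≤ analyticOrderAt (fun w => f w ^ n) z := by
  have h1 : analyticOrderAt (fun w => f w ^ n) z = n • analyticOrderAt f z :=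
    analyticOrderAt_pow hf n
  rw [h1, nsmul_eq_mul]
  push_cast
  exact mul_le_mul_right h _




end Pool.Agent.H89T
end
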