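import Pool.Agent.Lib.H1M.PB.M020

/-! Merged copies (to shorten the build) of Lib.H89Y.A6. -/

-- from Lib.H89Y.A6
section

set_option autoImplicit false

/-!
H89Y, CHUNK A6 (M).  The choice of the parameters (model Lib/H89T/K3.lean).
-/

namespace Pool.Agent.H89Y

open Pool.Agent.H89T

/-- CHUNK A6a.  PROOF.  Copy of `exists_parameters` (Lib/H89T/K3.lean): there `2 ≤ n` is only used for `1 ≤ n * r`, and `r` can be taken `≥ r₀` (take the maximum in the choice of `r`: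
`exists_nat_ge (max (max (2 / α) (32 * c₁ / α ^ 2)) r₀)`). -/
theorem exists_parametersG (n : ℕ) (hn : 1 ≤ n) (r₀ : ℕ) (c₁ : ℝ) (hc₁ : 0 < c₁) (α : ℝ) (hα : 0 < α) :
    ∃ r s M : ℕ, 1 ≤ r ∧ r₀ ≤ r ∧ 1 ≤ s ∧ (s : ℝ) ≤ α * r ∧
      ∑ l ∈ Finset.range r,
        (c₁ / s * ((M + l + (n * r - 1)).choose (n * r - 1) : ℝ) +
          c₁ / s ^ 2 * ((M + l + n * r).choose (n * r) : ℝ)) <
        ((M + n * r).choose (n * r) : ℝ) := by
  obtain ⟨r, hr'⟩ := exists_nat_ge (max (max (2 / α) (32 * c₁ / α ^ 2)) r₀)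
  have hr : max (2 / α) (32 * c₁ / α ^ 2) ≤ r := le_trans (le_max_left _ _) hr'
  have hrr : r₀ ≤ r := by
    have h := le_trans (le_max_right _ _) hr'
    exact_mod_cast h
  have hr1 : 2 / α ≤ r := le_trans (le_max_left _ _) hr
  have hr2 : 32 * c₁ / α ^ 2 ≤ r := le_trans (le_max_right _ _) hr
  have hr0 : (0 : ℝ) < r := lt_of_lt_of_le (by positivity) hr1
  have hrn : 1 ≤ r := by exact_mod_cast hr0
  have har : 2 ≤ α * r := by
    rw [div_le_iff₀ hα] at hr1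
    linarith
  have hs1 : ((⌊α * r⌋₊ : ℕ) : ℝ) ≤ α * r := Nat.floor_le (by positivity)
  have hs2 : α * r / 2 ≤ ((⌊α * r⌋₊ : ℕ) : ℝ) := by
    have := Nat.lt_floor_add_one (α * r)
    linarith
  set s : ℕ := ⌊α * r⌋₊ with hs
  have hs3 : (1 : ℝ) ≤ s := by linarith
  have hs4 : 1 ≤ s := by exact_mod_cast hs3
  have hsp : (0 : ℝ) < s := by linarith
  set N : ℕ := n * r with hN
  have hN1 : 1 ≤ N := Nat.one_le_iff_ne_zero.mpr (by positivity)
  -- second part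
  have hq : c₁ / s ^ 2 * 2 * r ≤ 1 / 4 := by
    have h1 : c₁ / (s : ℝ) ^ 2 * 2 * r ≤ c₁ / (α * r / 2) ^ 2 * 2 * r := by
      have : c₁ / (s : ℝ) ^ 2 ≤ c₁ / (α * r / 2) ^ 2 := by
        apply div_le_div_of_nonneg_left hc₁.le (by positivity)
        gcongr
      gcongr
    have h2 : c₁ / (α * r / 2) ^ 2 * 2 * r = 8 * c₁ / α ^ 2 / r := by
      field_simp
      ring
    have h3 : 8 * c₁ / α ^ 2 / r ≤ 1 / 4 := by
      rw [div_le_iff₀ hr0]
      have : 32 * c₁ / α ^ 2 = 4 * (8 * c₁ / α ^ 2) := by ring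
      linarith
    linarith
  -- choice of `M`
  have hlim : Filter.Tendsto (fun M : ℕ => (1 + (N : ℝ) / ((M : ℝ) + 1)) ^ r) Filter.atTop
      (nhds ((1 + 0) ^ r)) := by
    apply Filter.Tendsto.pow
    apply Filter.Tendsto.add tendsto_const_nhds
    have h := (tendsto_const_div_atTop_nhds_zero_nat (N : ℝ)).comp (Filter.tendsto_add_atTop_nat 1)
    refine h.congr fun M => ?_
    simp
  have hlim2 : Filter.Tendsto (fun M : ℕ => c₁ / s * (2 * ((N : ℝ) / ((M : ℝ) + 1))) * r)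
      Filter.atTop (nhds (c₁ / s * (2 * 0) * r)) := by
    apply Filter.Tendsto.mul_const
    apply Filter.Tendsto.const_mul
    apply Filter.Tendsto.const_mul
    have h := (tendsto_const_div_atTop_nhds_zero_nat (N : ℝ)).comp (Filter.tendsto_add_atTop_nat 1)
    refine h.congr fun M => ?_
    simp
  have he1 : ∀ᶠ M : ℕ in Filter.atTop, (1 + (N : ℝ) / ((M : ℝ) + 1)) ^ r < 2 := by
    apply hlim.eventually_lt_const
    norm_num
  have he2 : ∀ᶠ M : ℕ in Filter.atTop, c₁ / s * (2 * ((N : ℝ) / ((M : ℝ) + 1))) * r < 1 / 4 := by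
    apply hlim2.eventually_lt_const
    norm_num
  obtain ⟨M, hM1, hM2⟩ := (he1.and he2).exists
  refine ⟨r, s, M, hrn, hrr, hs4, hs1, ?_⟩
  have hC : (0 : ℝ) < ((M + N).choose N : ℝ) := by
    exact_mod_cast Nat.choose_pos (by omega)
  set Q : ℝ := ((M + N).choose N : ℝ) with hQ
  have hb : ∀ l ∈ Finset.range r, (c₁ / s * ((M + l + (N - 1)).choose (N - 1) : ℝ) +
      c₁ / s ^ 2 * ((M + l + N).choose N : ℝ)) ≤
      (c₁ / s * (2 * ((N : ℝ) / ((M : ℝ) + 1))) + c₁ / s ^ 2 * 2) * Q := by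
    intro l hl
    rw [Finset.mem_range] at hl
    have h1 : (1 + (N : ℝ) / ((M : ℝ) + 1)) ^ l ≤ 2 := by
      refine le_trans ?_ hM1.le
      apply pow_le_pow_right₀ _ hl.le
      have : (0 : ℝ) ≤ (N : ℝ) / ((M : ℝ) + 1) := by positivity
      linarith
    have h2 : ((M + l + N).choose N : ℝ) ≤ 2 * Q := by
      refine le_trans (K3_pow N M l) ?_
      exact mul_le_mul_of_nonneg_right h1 hC.le
    have h3 : ((M + l + (N - 1)).choose (N - 1) : ℝ) ≤ 2 * ((N : ℝ) / ((M : ℝ) + 1)) * Q := by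
      rw [K3_less N (M + l) hN1]
      have h4 : (N : ℝ) / (((M + l : ℕ) : ℝ) + N) ≤ (N : ℝ) / ((M : ℝ) + 1) := by
        apply div_le_div_of_nonneg_left (by positivity) (by positivity)
        push_cast
        have h5 : (0 : ℝ) ≤ (l : ℝ) := by positivity
        have h6 : (1 : ℝ) ≤ (N : ℝ) := by exact_mod_cast hN1
        linarith
      calc (N : ℝ) / (((M + l : ℕ) : ℝ) + N) * ((M + l + N).choose N : ℝ)
          ≤ (N : ℝ) / ((M : ℝ) + 1) * (2 * Q) := by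
            apply mul_le_mul h4 h2 (by positivity) (by positivity)
        _ = 2 * ((N : ℝ) / ((M : ℝ) + 1)) * Q := by ring
    have h5 : c₁ / s * ((M + l + (N - 1)).choose (N - 1) : ℝ) ≤
        c₁ / s * (2 * ((N : ℝ) / ((M : ℝ) + 1)) * Q) :=
      mul_le_mul_of_nonneg_left h3 (by positivity)
    have h6 : c₁ / s ^ 2 * ((M + l + N).choose N : ℝ) ≤ c₁ / s ^ 2 * (2 * Q) :=
      mul_le_mul_of_nonneg_left h2 (by positivity)
    calc c₁ / s * ((M + l + (N - 1)).choose (N - 1) : ℝ) +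
        c₁ / s ^ 2 * ((M + l + N).choose N : ℝ)
        ≤ c₁ / s * (2 * ((N : ℝ) / ((M : ℝ) + 1)) * Q) + c₁ / s ^ 2 * (2 * Q) :=
          add_le_add h5 h6
      _ = (c₁ / s * (2 * ((N : ℝ) / ((M : ℝ) + 1))) + c₁ / s ^ 2 * 2) * Q := by ring
  calc ∑ l ∈ Finset.range r, (c₁ / s * ((M + l + (N - 1)).choose (N - 1) : ℝ) +
      c₁ / s ^ 2 * ((M + l + N).choose N : ℝ))
      ≤ ∑ l ∈ Finset.range r,
        (c₁ / s * (2 * ((N : ℝ) / ((M : ℝ) + 1))) + c₁ / s ^ 2 * 2) * Q := Finset.sum_le_sum hb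
    _ = (c₁ / s * (2 * ((N : ℝ) / ((M : ℝ) + 1))) * r + c₁ / s ^ 2 * 2 * r) * Q := by
        rw [Finset.sum_const, Finset.card_range, nsmul_eq_mul]
        ring
    _ < 1 * Q := by
        apply mul_lt_mul_of_pos_right _ hC
        linarith
    _ = Q := one_mul Q



end Pool.Agent.H89Y
end
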