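import Pool.Agent.Lib.H1M.PB.M003
import Pool.Agent.Lib.H1M.PB.M010
import Pool.Agent.Lib.H1M.PB.M022

/-! Merged copies (to shorten the build) of Lib.H78G.F4A. -/

-- from Lib.H78G.F4A
section

set_option autoImplicit false

/-!
CHUNK F4A (S).  Comparison of the characteristics and of the counting functions.
-/

open MvPolynomial Real MeasureTheory Pool.Agent.H67T

namespace Pool.Agent.H78G



/-- CHUNK F4A (S).  Monotonicity of the truncated counting function (entire functions, not
identically zero, `r ≥ 1`; `NJ1_fin` of H67T for the finiteness). -/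
theorem N1_mono {f g : ℂ → ℂ} (hf : Differentiable ℂ f) (hf0 : ∃ z, f z ≠ 0)
    (hg : Differentiable ℂ g) (hg0 : ∃ z, g z ≠ 0) (h : ∀ z, f z = 0 → g z = 0) {r : ℝ}
    (hr : 1 ≤ r) : N1 f r ≤ N1 g r := by
  have hF := NJ1_fin hf hf0 r
  have hG := NJ1_fin hg hg0 r
  unfold N1
  rw [finsum_mem_eq_finite_toFinset_sum _ hF, finsum_mem_eq_finite_toFinset_sum _ hG]
  refine add_le_add ?_ ?_
  · refine Finset.sum_le_sum_of_subset_of_nonneg ?_ ?_
    · intro a ha
      simp only [Set.Finite.mem_toFinset, Set.mem_setOf_eq] at ha ⊢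
      exact ⟨ha.1, h a ha.2⟩
    · intro a ha _
      simp only [Set.Finite.mem_toFinset, Set.mem_setOf_eq] at ha
      rcases eq_or_ne a 0 with rfl | ha0
      · simp
      · refine Real.log_nonneg ?_
        rw [le_div_iff₀ (norm_pos_iff.2 ha0)]
        linarith [ha.1]
  · by_cases h0 : f 0 = 0
    · simp [h0, h 0 h0]
    · rw [if_neg h0]
      split_ifs
      · exact Real.log_nonneg hr
      · exact le_rfl

end Pool.Agent.H78G
end
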