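import Pool.Agent.Lib.H1M.PB.M006
import Pool.Agent.Lib.H1M.PB.M023

/-! Merged copies (to shorten the build) of Lib.H53U.D0, Lib.H53U.M1, Lib.H53U.MDefs, Lib.H53V.D0, Lib.H53U.M2, Lib.H53V.R2. -/

-- from Lib.H53U.D0
section

set_option autoImplicit false

/-!
H53U (generic complete intersections, see PROOF.md): definitions and the statements of the modules.

`N` variables `x`, `c` polynomials of degrees at most `d 0, ..., d (c - 1)`, coefficients indexed by
`CI N d`.  The 1-jet variables are `JV N 1` of H89T: `x b = X (b, 0)`, `v b = X (b, 1)`.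
-/

open MvPolynomial

namespace Pool.Agent.H53U

open Pool.Agent.H89T Pool.Agent.H67T

/-- The index set of the coefficients of `c` polynomials in `N` variables, the `j`-th one of degree
at most `d j`. -/
abbrev CI (N : ℕ) {c : ℕ} (d : Fin c → ℕ) : Type := Σ j : Fin c, Idx N (d j)



section General

variable {N c : ℕ} {d : Fin c → ℕ} {B : Type*} [CommRing B]

/-- The values at `x` of the `c` polynomials with coefficients `a`. -/
def U0 (a : CI N d → B) (x : Fin N → B) (j : Fin c) : B := ev (fun α => a ⟨j, α⟩) x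






/-- The degree in `x`. -/
def xdeg (μ : JV N 1 →₀ ℕ) : ℕ := ∑ b : Fin N, μ (b, 0)

/-- The degree in `v`. -/
def vdeg (μ : JV N 1 →₀ ℕ) : ℕ := ∑ b : Fin N, μ (b, 1)



end General







end Pool.Agent.H53U
end

-- from Lib.H53U.M1
section

set_option autoImplicit false

/-!
H53U, module M: coefficients of polynomials of bounded degree, naturality.
-/

open MvPolynomial

namespace Pool.Agent.H53U

open Pool.Agent.H89T Pool.Agent.H67T

section Cofs

variable {N k : ℕ} {B B' : Type*} [CommRing B] [CommRing B']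

/-- The exponent with index `α`. -/
noncomputable def expo (α : Idx N k) : Fin N →₀ ℕ :=
  Finsupp.equivFunOnFinite.symm fun b => (α.1 b : ℕ)

theorem expo_apply (α : Idx N k) (b : Fin N) : expo α b = (α.1 b : ℕ) := rfl

theorem expo_degree (α : Idx N k) : (expo α).degree ≤ k := by
  rw [Finsupp.degree_eq_sum]
  exact α.2

theorem expo_injective : Function.Injective (expo : Idx N k → (Fin N →₀ ℕ)) := by
  intro α β h
  apply Subtype.ext
  funext b
  apply Fin.ext
  rw [← expo_apply α b, ← expo_apply β b, h]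

theorem exists_expo {μ : Fin N →₀ ℕ} (h : μ.degree ≤ k) : ∃ α : Idx N k, expo α = μ := by
  have h0 : ∑ b, μ b ≤ k := by rwa [Finsupp.degree_eq_sum] at h
  have h1 : ∀ b, μ b < k + 1 := by
    intro b
    have : μ b ≤ ∑ b, μ b :=
      Finset.single_le_sum (f := fun b => μ b) (fun _ _ => Nat.zero_le _) (Finset.mem_univ b)
    omega
  refine ⟨⟨fun b => ⟨μ b, h1 b⟩, h0⟩, ?_⟩
  ext b
  rfl

/-- The coefficients of the polynomial `G` (of degree at most `k`). -/
noncomputable def cofs (k : ℕ) (G : MvPolynomial (Fin N) B) (α : Idx N k) : B := coeff (expo α) G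

/-- The polynomial with the coefficients `a`. -/
noncomputable def pol (a : Idx N k → B) : MvPolynomial (Fin N) B := ev (fun α => C (a α)) X

theorem pol_eq (a : Idx N k → B) : pol a = ∑ α, monomial (expo α) (a α) := by
  unfold pol ev
  refine Finset.sum_congr rfl fun α _ => ?_
  rw [monomial_eq, Finsupp.prod_fintype _ _ (by simp)]
  rfl

theorem cofs_pol (a : Idx N k → B) : cofs k (pol a) = a := by
  classical
  funext α
  rw [cofs, pol_eq, coeff_sum, Finset.sum_eq_single α]
  · rw [coeff_monomial, if_pos rfl]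
  · intro β _ hβ
    rw [coeff_monomial, if_neg]
    exact fun h => hβ (expo_injective h)
  · intro h
    exact absurd (Finset.mem_univ α) h

theorem totalDegree_pol (a : Idx N k → B) : (pol a).totalDegree ≤ k := by
  rw [pol_eq]
  refine (totalDegree_finset_sum _ _).trans (Finset.sup_le fun α _ => ?_)
  refine (totalDegree_monomial_le _ _).trans ?_
  exact expo_degree α

theorem pol_cofs {G : MvPolynomial (Fin N) B} (hG : G.totalDegree ≤ k) :
    pol (cofs k G) = G := by
  classical
  ext μ
  by_cases h : μ.degree ≤ k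
  · obtain ⟨α, rfl⟩ := exists_expo h
    exact congrFun (cofs_pol (cofs k G)) α
  · rw [coeff_eq_zero_of_totalDegree_lt, coeff_eq_zero_of_totalDegree_lt]
    · refine lt_of_le_of_lt hG ?_
      push Not at h
      rwa [Finsupp.degree_apply] at h
    · refine lt_of_le_of_lt (totalDegree_pol _) ?_
      push Not at h
      rwa [Finsupp.degree_apply] at h

theorem eval_pol (a : Idx N k → B) (x : Fin N → B) : eval x (pol a) = ev a x := by
  unfold pol
  rw [ev_map]
  simp

theorem eval_pderiv_pol (a : Idx N k → B) (b : Fin N) (x : Fin N → B) :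
    eval x (pderiv b (pol a)) = evd b a x := by
  classical
  rw [pol_eq, map_sum, map_sum, evd]
  refine Finset.sum_congr rfl fun α _ => ?_
  rw [pderiv_monomial, eval_monomial, Finsupp.prod_fintype _ _ (by simp), expo_apply, mul_assoc]
  congr 2
  refine Finset.prod_congr rfl fun i _ => ?_
  rw [Finsupp.tsub_apply, expo_apply, Finsupp.single_apply]
  simp only [eq_comm]



theorem map_pol (φ : B →+* B') (a : Idx N k → B) :
    map φ (pol a) = pol fun α => φ (a α) := by
  unfold pol
  rw [ev_map]
  simp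

end Cofs

section Nat

variable {N c : ℕ} {d : Fin c → ℕ} {B B' : Type*} [CommRing B] [CommRing B']











/-- The polynomials of the tuple with coefficients `a`. -/
noncomputable def PF (a : CI N d → B) (j : Fin c) : MvPolynomial (Fin N) B := pol fun α => a ⟨j, α⟩

theorem totalDegree_PF (a : CI N d → B) (j : Fin c) : (PF a j).totalDegree ≤ d j :=
  totalDegree_pol _

theorem eval_PF (a : CI N d → B) (x : Fin N → B) (j : Fin c) : eval x (PF a j) = U0 a x j :=
  eval_pol _ _

theorem eval_pderiv_PF (a : CI N d → B) (x : Fin N → B) (b : Fin N) (j : Fin c) :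
    eval x (pderiv b (PF a j)) = evd b (fun α => a ⟨j, α⟩) x :=
  eval_pderiv_pol _ _ _


end Nat

end Pool.Agent.H53U
end

-- from Lib.H53U.MDefs
section

set_option autoImplicit false

/-!
H53U, module M (sections 2 and 3 of PROOF.md): definitions.
-/

open MvPolynomial

namespace Pool.Agent.H53U

open Pool.Agent.H89T Pool.Agent.H67T

section Shift

variable {N : ℕ} {B : Type*} [CommRing B]

/-- The polynomial `G (X + y)`. -/
noncomputable def shiftP (y : Fin N → B) (G : MvPolynomial (Fin N) B) : MvPolynomial (Fin N) B :=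
  aeval (fun b => X b + C (y b)) G

end Shift

section Tr

variable {N c : ℕ} {d : Fin c → ℕ} {B : Type*} [CommRing B]

/-- The coefficients of the polynomials `F_a (X - y)`. -/
noncomputable def tra (y : Fin N → B) (a : CI N d → B) : CI N d → B :=
  fun p => cofs (d p.1) (shiftP (fun b => - y b) (PF a p.1)) p.2







end Tr

section Move

variable {N c : ℕ} {d : Fin c → ℕ}












end Move

end Pool.Agent.H53U
end

-- from Lib.H53V.D0
section

set_option autoImplicit false

/-!
H53V (the bound `C n ^ 3 log n`, see PROOF.md): definitions and the statements of the modules.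

`N` variables `x`, `c` polynomials of degrees at most `d 0, ..., d (c - 1)`, coefficients indexed by
`CI N d` (H53U).  The jet variables are `JV N k` of H89T: `(b, l)` is the `l`-th Taylor coefficient of
the `b`-th coordinate, `0 ≤ l ≤ k`.  `J` is the set of the indices of the polynomials of large degree.
-/

open MvPolynomial

namespace Pool.Agent.H53V

open Pool.Agent.H89T Pool.Agent.H67T Pool.Agent.H53U

section General

variable {N c k : ℕ} {d : Fin c → ℕ} {B : Type*} [CommRing B]

/-- `u (j, i)`: the `i`-th Taylor coefficient of `F_{a,j} (x (t))`, a polynomial in the jets. -/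
noncomputable def uK (k : ℕ) (a : CI N d → B) (j : Fin c) (i : ℕ) : MvPolynomial (JV N k) B :=
  uR (fun α => a ⟨j, α⟩) i

/-- Its value at the jet `ξ`. -/
noncomputable def uV (a : CI N d → B) (ξ : JV N k → B) (j : Fin c) (i : ℕ) : B :=
  uu (fun α => a ⟨j, α⟩) ξ i

/-- The ideal generated by the `u (j, 0)`, all `j`, and the `u (j, i)`, `i ≤ k`, `j ∈ J`. -/
noncomputable def IK (k : ℕ) (J : Finset (Fin c)) (a : CI N d → B) :
    Ideal (MvPolynomial (JV N k) B) :=
  Ideal.span {p | ∃ (j : Fin c) (i : ℕ), i ≤ k ∧ (i = 0 ∨ j ∈ J) ∧ p = uK k a j i}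


/-- The weight of a monomial in the jets: `x (b, l)` has weight `l`. -/
def jw (μ : JV N k →₀ ℕ) : ℕ := ∑ p : JV N k, (p.2 : ℕ) * μ p


end General

section Res

/-- The coordinate `b` is free: it is not one of the last `c` coordinates with index in `J`. -/
def IsFr (n : ℕ) {c : ℕ} (J : Finset (Fin c)) (b : Fin (n + c)) : Prop :=
  ∀ j ∈ J, b ≠ Fin.natAdd n j

instance (n : ℕ) {c : ℕ} (J : Finset (Fin c)) (b : Fin (n + c)) : Decidable (IsFr n J b) := by
  unfold IsFr
  infer_instance

/-- The free coordinates. -/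
abbrev FrI (n : ℕ) {c : ℕ} (J : Finset (Fin c)) : Type := {b : Fin (n + c) // IsFr n J b}

/-- The free jet variables: `(b, i)` is `ζ (b, i + 1)`. -/
abbrev FZ (n k : ℕ) {c : ℕ} (J : Finset (Fin c)) : Type := FrI n J × Fin k

variable {n c : ℕ} {d : Fin c → ℕ} {B : Type*} [CommRing B]

/-- The matrix of the derivatives at `0` of the polynomials with index in `J` with respect to the
corresponding last coordinates. -/
def MJ (J : Finset (Fin c)) (a : CI (n + c) d → B) : Matrix J J B :=
  Matrix.of fun j r => evd (Fin.natAdd n r.1) (fun α => a ⟨j.1, α⟩) 0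

/-- The arc `x^ (t)` with given values `Z` at the coordinates which are not free; with
`Δ = det (MJ J a)`, it is `∑ Δ ^ (2 i - 1) ζ (b, i) t ^ i` at the free coordinates `b`. -/
noncomputable def xh (k : ℕ) (J : Finset (Fin c)) (a : CI (n + c) d → B)
    (Z : Fin c → Polynomial (MvPolynomial (FZ n k J) B)) (b : Fin (n + c)) :
    Polynomial (MvPolynomial (FZ n k J) B) :=
  if h : IsFr n J b then
    ∑ i : Fin k, Polynomial.C (C ((MJ J a).det ^ (2 * (i : ℕ) + 1)) * X (⟨b, h⟩, i)) *
      Polynomial.X ^ ((i : ℕ) + 1)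
  else ∑ j : Fin c, if b = Fin.natAdd n j then Z j else 0

/-- `∑ Δ ^ (2 i - 2) ∂_b F_j (0) ζ (b, i) t ^ i`, sum over the free `b` and `1 ≤ i ≤ k`. -/
noncomputable def linh (k : ℕ) (J : Finset (Fin c)) (a : CI (n + c) d → B) (j : Fin c) :
    Polynomial (MvPolynomial (FZ n k J) B) :=
  ∑ b : FrI n J, ∑ i : Fin k,
    Polynomial.C (C (evd b.1 (fun α => a ⟨j, α⟩) 0 * (MJ J a).det ^ (2 * (i : ℕ))) * X (b, i)) *
      Polynomial.X ^ ((i : ℕ) + 1)

/-- `∑_{p ≥ 2} Δ ^ (p - 2) F_{j, p} (x^ (t))`, `F_{j, p}` the homogeneous part of degree `p`. -/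
noncomputable def quadh (k : ℕ) (J : Finset (Fin c)) (a : CI (n + c) d → B)
    (Z : Fin c → Polynomial (MvPolynomial (FZ n k J) B)) (j : Fin c) :
    Polynomial (MvPolynomial (FZ n k J) B) :=
  ∑ α : Idx (n + c) (d j), if 2 ≤ (expo α).degree then
    Polynomial.C (C (a ⟨j, α⟩ * (MJ J a).det ^ ((expo α).degree - 2))) *
      ∏ b, xh k J a Z b ^ (α.1 b : ℕ) else 0

/-- The successive approximations of the coordinates which are not free. -/
noncomputable def Zit (k : ℕ) (J : Finset (Fin c)) (a : CI (n + c) d → B) :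
    ℕ → Fin c → Polynomial (MvPolynomial (FZ n k J) B)
  | 0 => 0
  | s + 1 => fun r => if hr : r ∈ J then
      - ∑ j : J, Polynomial.C (C ((MJ J a).adjugate ⟨r, hr⟩ j)) *
        (linh k J a j.1 + quadh k J a (Zit k J a s) j.1) else 0

/-- The general solution of `u (j, i) = 0`, `j ∈ J`, `i ≤ k`, with `x = 0` (if `a (j, 0) = 0`):
the jet with coordinates `Δ ^ (2 l) ζ (b, l)`, `b` free. -/
noncomputable def rs (k : ℕ) (J : Finset (Fin c)) (a : CI (n + c) d → B) (p : JV (n + c) k) :
    MvPolynomial (FZ n k J) B :=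
  C ((MJ J a).det) * (xh k J a (Zit k J a k) p.1).coeff (p.2 : ℕ)

/-- The general solution with a given base point `x`, substituted in a polynomial. -/
noncomputable def ResX (k : ℕ) (J : Finset (Fin c)) (a : CI (n + c) d → B) (x : Fin (n + c) → B) :
    MvPolynomial (JV (n + c) k) B →ₐ[B] MvPolynomial (FZ n k J) B :=
  aeval fun p => (if p.2 = 0 then C (x p.1) else 0) + rs k J (tra (fun b => - x b) a) p

end Res

section Count





end Count



end Pool.Agent.H53V
end

-- from Lib.H53U.M2
section

set_option autoImplicit false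

/-!
CHUNK M2 (S/M).  Translations of polynomials.
-/

open MvPolynomial

namespace Pool.Agent.H53U

open Pool.Agent.H89T Pool.Agent.H67T

section

variable {N c : ℕ} {d : Fin c → ℕ} {B B' : Type*} [CommRing B] [CommRing B']

/-- Both sides are ring homomorphisms in `G`; `MvPolynomial.induction_on` or `ringHom_ext`. -/
theorem eval_shiftP (y x : Fin N → B) (G : MvPolynomial (Fin N) B) :
    eval x (shiftP y G) = eval (fun b => x b + y b) G := by
  induction G using MvPolynomial.induction_on with
  | C r => simp [shiftP]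
  | add p q hp hq =>
    simp only [shiftP, map_add] at hp hq ⊢
    rw [hp, hq]
  | mul_X p b hp =>
    simp only [shiftP, map_mul, aeval_X, map_add, eval_X, eval_C] at hp ⊢
    rw [hp]

theorem map_shiftP (φ : B →+* B') (y : Fin N → B) (G : MvPolynomial (Fin N) B) :
    map φ (shiftP y G) = shiftP (fun b => φ (y b)) (map φ G) := by
  induction G using MvPolynomial.induction_on with
  | C r => simp [shiftP, algebraMap_eq]
  | add p q hp hq =>
    simp only [shiftP, map_add] at hp hq ⊢
    rw [hp, hq]
  | mul_X p b hp =>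
    simp only [shiftP, map_mul, aeval_X, map_add, map_X, map_C] at hp ⊢
    rw [hp]


/-- Induction on `G`. -/
theorem pderiv_shiftP (y : Fin N → B) (b : Fin N) (G : MvPolynomial (Fin N) B) :
    pderiv b (shiftP y G) = shiftP y (pderiv b G) := by
  classical
  induction G using MvPolynomial.induction_on with
  | C r => simp [shiftP, algebraMap_eq]
  | add p q hp hq =>
    simp only [shiftP, map_add] at hp hq ⊢
    rw [hp, hq]
  | mul_X p b' hp =>
    have h1 : shiftP y (p * X b') = shiftP y p * (X b' + C (y b')) := by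
      simp only [shiftP, map_mul, aeval_X]
    rw [h1, pderiv_mul, hp, pderiv_mul, map_add, pderiv_X, pderiv_C]
    by_cases hb : b = b'
    · subst hb
      simp [shiftP]
    · simp [shiftP, Pi.single_apply, hb]

/-- `G` is the sum of its monomials; the image of a monomial `μ` is a product of `|μ|` factors of
degree at most `1` (`totalDegree_finsetSum`, `totalDegree_finset_prod`, `totalDegree_pow`). -/
theorem totalDegree_shiftP (y : Fin N → B) (G : MvPolynomial (Fin N) B) :
    (shiftP y G).totalDegree ≤ G.totalDegree := by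
  classical
  conv_lhs => rw [G.as_sum]
  unfold shiftP
  rw [map_sum]
  refine (totalDegree_finsetSum _ _).trans (Finset.sup_le fun μ hμ => ?_)
  rw [aeval_monomial, algebraMap_eq, Finsupp.prod]
  refine (totalDegree_mul _ _).trans ?_
  rw [totalDegree_C, zero_add]
  refine (totalDegree_finsetProd _ _).trans ?_
  refine le_trans (Finset.sum_le_sum fun b _ => ?_) (le_totalDegree hμ)
  refine (totalDegree_pow _ _).trans ?_
  have h1 : (X b + C (y b) : MvPolynomial (Fin N) B).totalDegree ≤ 1 := by
    refine (totalDegree_add _ _).trans ?_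
    rw [totalDegree_C]
    refine max_le ?_ (Nat.zero_le _)
    exact (totalDegree_monomial_le _ _).trans (by simp)
  calc μ b * _ ≤ μ b * 1 := Nat.mul_le_mul_left _ h1
    _ = μ b := mul_one _

/-- Naturality of `tra`: `cofs` is a coefficient, `map_shiftP`, `map_pol` (`PF` is `pol`). -/
theorem tra_map (φ : B →+* B') (y : Fin N → B) (a : CI N d → B) (p : CI N d) :
    φ (tra y a p) = tra (fun b => φ (y b)) (fun p => φ (a p)) p := by
  unfold tra cofs
  rw [← coeff_map, map_shiftP]
  unfold PF
  rw [map_pol]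
  simp only [map_neg]

/-- The polynomials with the coefficients `tra y a` are `F_a (X - y)` (`pol_cofs`,
`totalDegree_shiftP`, `totalDegree_PF`). -/
theorem PF_tra (y : Fin N → B) (a : CI N d → B) (j : Fin c) :
    PF (tra y a) j = shiftP (fun b => - y b) (PF a j) := by
  unfold PF
  have h1 : (fun α => tra y a ⟨j, α⟩) = cofs (d j) (shiftP (fun b => - y b) (PF a j)) := rfl
  rw [h1, pol_cofs ((totalDegree_shiftP _ _).trans (totalDegree_PF _ _))]
  rfl

/-- `eval_PF`, `PF_tra`, `eval_shiftP`. -/
theorem U0_tra (y : Fin N → B) (a : CI N d → B) (x : Fin N → B) (j : Fin c) :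
    U0 (tra y a) (fun b => x b + y b) j = U0 a x j := by
  rw [← eval_PF, PF_tra, eval_shiftP, ← eval_PF]
  congr 2
  funext b
  ring



end

end Pool.Agent.H53U
end

-- from Lib.H53V.R2
section

set_option autoImplicit false

/-!
CHUNK R2 (M).  Module R (section 1 of PROOF.md): the approximations `Zit` converge.
-/

open MvPolynomial

namespace Pool.Agent.H53V

open Pool.Agent.H89T Pool.Agent.H67T Pool.Agent.H53U

/-- the induction predicate -/
def r2_T {S : Type*} [CommRing S] (s m : ℕ) (F G : Polynomial S) : Prop :=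
  Polynomial.X ^ m ∣ F ∧ Polynomial.X ^ m ∣ G ∧ Polynomial.X ^ (s + m) ∣ Polynomial.X * (F - G)

theorem r2_T_mul {S : Type*} [CommRing S] {s m m' : ℕ} {F G F' G' : Polynomial S}
    (h : r2_T s m F G) (h' : r2_T s m' F' G') : r2_T s (m + m') (F * F') (G * G') := by
  obtain ⟨h1, h2, h3⟩ := h
  obtain ⟨h1', h2', h3'⟩ := h'
  refine ⟨?_, ?_, ?_⟩
  · rw [pow_add]
    exact mul_dvd_mul h1 h1'
  · rw [pow_add]
    exact mul_dvd_mul h2 h2'
  · have e : Polynomial.X * (F * F' - G * G') =
        (Polynomial.X * (F - G)) * F' + G * (Polynomial.X * (F' - G')) := by ring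
    rw [e]
    apply dvd_add
    · rw [← add_assoc, pow_add _ (s + m) m']
      exact mul_dvd_mul h3 h1'
    · have e2 : s + (m + m') = m + (s + m') := by ring
      rw [e2, pow_add]
      exact mul_dvd_mul h2 h3'

theorem r2_T_one {S : Type*} [CommRing S] (s : ℕ) : r2_T s 0 (1 : Polynomial S) 1 := by
  refine ⟨?_, ?_, ?_⟩
  · rw [pow_zero]
  · rw [pow_zero]
  · rw [sub_self, mul_zero]
    exact dvd_zero _

theorem r2_T_pow {S : Type*} [CommRing S] {s : ℕ} {F G : Polynomial S} (h : r2_T s 1 F G) (n : ℕ) :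
    r2_T s n (F ^ n) (G ^ n) := by
  induction n with
  | zero =>
    rw [pow_zero, pow_zero]
    exact r2_T_one s
  | succ n ih =>
    rw [pow_succ, pow_succ]
    exact r2_T_mul ih h

/-- General lemma.  Write `∏ f ^ α - ∏ g ^ α` as a telescoping sum: by induction one shows for every
finite product of `m` factors divisible by `X`, that replacing the factors `f_i` by `g_i`
(`X ^ s ∣ f_i - g_i`) changes the product by a multiple of `X ^ (s + m - 1)`.  A convenient form
of the induction (over `Finset.induction_on` for `∏` and over the exponent for the powers): the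
statement `T m F G : X ^ m ∣ F ∧ X ^ m ∣ G ∧ X ^ (s + m) ∣ X * (F - G)` is multiplicative
(`T m F G → T m' F' G' → T (m + m') (F * F') (G * G')`, because
`F F' - G G' = (F - G) F' + G (F' - G')`), `T 0 1 1` is clear, and `T 1 (f b) (g b)` is the hypothesis.
At the end `X ^ (s + |α|) ∣ X * (∏ f ^ α - ∏ g ^ α)` and `|α| ≥ 2`; cancel `X`
(`mul_dvd_mul_iff_left` needs a domain, use coefficients: `Polynomial.X_pow_dvd_iff`, `Polynomial.coeff_X_mul`). -/
theorem r2_prod {S : Type*} [CommRing S] {ι : Type*} [Fintype ι] (f g : ι → Polynomial S)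
    (α : ι → ℕ) (s : ℕ) (hα : 2 ≤ ∑ b, α b) (hf : ∀ b, Polynomial.X ∣ f b)
    (hg : ∀ b, Polynomial.X ∣ g b) (h : ∀ b, Polynomial.X ^ s ∣ f b - g b) :
    Polynomial.X ^ (s + 1) ∣ ∏ b, f b ^ α b - ∏ b, g b ^ α b := by
  classical
  have hT : ∀ t : Finset ι, r2_T s (∑ b ∈ t, α b) (∏ b ∈ t, f b ^ α b) (∏ b ∈ t, g b ^ α b) := by
    intro t
    induction t using Finset.induction_on with
    | empty =>
      rw [Finset.sum_empty, Finset.prod_empty, Finset.prod_empty]
      exact r2_T_one s
    | insert a t ha ih =>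
      rw [Finset.sum_insert ha, Finset.prod_insert ha, Finset.prod_insert ha]
      apply r2_T_mul _ ih
      apply r2_T_pow
      refine ⟨?_, ?_, ?_⟩
      · rw [pow_one]
        exact hf a
      · rw [pow_one]
        exact hg a
      · rw [pow_succ, mul_comm]
        exact mul_dvd_mul dvd_rfl (h a)
  have h1 := (hT Finset.univ).2.2
  have h2 : Polynomial.X ^ (s + 2) ∣ Polynomial.X * (∏ b, f b ^ α b - ∏ b, g b ^ α b) :=
    dvd_trans (pow_dvd_pow _ (Nat.add_le_add_left hα s)) h1
  rw [Polynomial.X_pow_dvd_iff] at h2 ⊢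
  intro e he
  have h3 := h2 (e + 1) (by omega)
  rwa [Polynomial.coeff_X_mul] at h3

variable {n c k : ℕ} {d : Fin c → ℕ} {B : Type*} [CommRing B]

/-- The only index `j'` with `natAdd n j = natAdd n j'` is `j`; `natAdd n j` is not free. -/
theorem xh_pivot (J : Finset (Fin c)) (a : CI (n + c) d → B)
    (Z : Fin c → Polynomial (MvPolynomial (FZ n k J) B)) {j : Fin c} (hj : j ∈ J) :
    xh k J a Z (Fin.natAdd n j) = Z j := by
  have hn : ¬ IsFr n J (Fin.natAdd n j) := fun h => h j hj rfl
  unfold xh
  rw [dif_neg hn, Finset.sum_eq_single j]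
  · rw [if_pos rfl]
  · intro j' _ hj'
    rw [if_neg]
    intro h
    apply hj'
    have := (Fin.natAdd_inj n).1 h
    exact this.symm
  · intro h
    exact absurd (Finset.mem_univ j) h

theorem xh_free (J : Finset (Fin c)) (a : CI (n + c) d → B)
    (Z : Fin c → Polynomial (MvPolynomial (FZ n k J) B)) {b : Fin (n + c)} (h : IsFr n J b) :
    xh k J a Z b = ∑ i : Fin k, Polynomial.C (C ((MJ J a).det ^ (2 * (i : ℕ) + 1)) * X (⟨b, h⟩, i)) *
      Polynomial.X ^ ((i : ℕ) + 1) := by
  unfold xh
  rw [dif_pos h]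

/-- A coordinate is free, or it is `natAdd n j`, `j ∈ J`. -/
theorem free_or_pivot (J : Finset (Fin c)) (b : Fin (n + c)) :
    IsFr n J b ∨ ∃ j ∈ J, b = Fin.natAdd n j := by
  by_cases h : IsFr n J b
  · exact Or.inl h
  · right
    unfold IsFr at h
    push Not at h
    exact h

theorem r2_free_dvd (J : Finset (Fin c)) (a : CI (n + c) d → B)
    (Z : Fin c → Polynomial (MvPolynomial (FZ n k J) B)) {b : Fin (n + c)} (h : IsFr n J b) :
    Polynomial.X ∣ xh k J a Z b := by
  rw [xh_free J a Z h]
  apply Finset.dvd_sum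
  intro i _
  rw [pow_succ]
  exact dvd_mul_of_dvd_right (dvd_mul_left _ _) _

/-- `free_or_pivot`, `xh_free`, `xh_pivot`. -/
theorem xh_X_dvd (J : Finset (Fin c)) (a : CI (n + c) d → B)
    (Z : Fin c → Polynomial (MvPolynomial (FZ n k J) B)) (hZ : ∀ j ∈ J, Polynomial.X ∣ Z j)
    (b : Fin (n + c)) : Polynomial.X ∣ xh k J a Z b := by
  rcases free_or_pivot J b with h | ⟨j, hj, rfl⟩
  · exact r2_free_dvd J a Z h
  · rw [xh_pivot J a Z hj]
    exact hZ j hj

/-- `free_or_pivot`, `xh_free` (the difference is `0`), `xh_pivot`. -/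
theorem xh_sub_dvd (J : Finset (Fin c)) (a : CI (n + c) d → B)
    (Z Z' : Fin c → Polynomial (MvPolynomial (FZ n k J) B)) (s : ℕ)
    (h : ∀ j ∈ J, Polynomial.X ^ s ∣ Z j - Z' j) (b : Fin (n + c)) :
    Polynomial.X ^ s ∣ xh k J a Z b - xh k J a Z' b := by
  rcases free_or_pivot J b with h' | ⟨j, hj, rfl⟩
  · rw [xh_free J a Z h', xh_free J a Z' h', sub_self]
    exact dvd_zero _
  · rw [xh_pivot J a Z hj, xh_pivot J a Z' hj]
    exact h j hj

/-- The summands of `quadh` (`|α| ≥ 2`) are constants times products as in `r2_prod`. -/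
theorem quadh_sub_dvd (J : Finset (Fin c)) (a : CI (n + c) d → B)
    (Z Z' : Fin c → Polynomial (MvPolynomial (FZ n k J) B)) (s : ℕ)
    (hZ : ∀ j ∈ J, Polynomial.X ∣ Z j) (hZ' : ∀ j ∈ J, Polynomial.X ∣ Z' j)
    (h : ∀ j ∈ J, Polynomial.X ^ s ∣ Z j - Z' j) (j : Fin c) :
    Polynomial.X ^ (s + 1) ∣ quadh k J a Z j - quadh k J a Z' j := by
  unfold quadh
  rw [← Finset.sum_sub_distrib]
  apply Finset.dvd_sum
  intro α _
  split_ifs with hα
  · rw [← mul_sub]
    apply dvd_mul_of_dvd_right
    apply r2_prod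
    · rw [Finsupp.degree_eq_sum] at hα
      exact hα
    · exact xh_X_dvd J a Z hZ
    · exact xh_X_dvd J a Z' hZ'
    · exact xh_sub_dvd J a Z Z' s h
  · rw [sub_self]
    exact dvd_zero _

theorem r2_linh_dvd (J : Finset (Fin c)) (a : CI (n + c) d → B) (j : Fin c) :
    Polynomial.X ∣ linh k J a j := by
  unfold linh
  apply Finset.dvd_sum
  intro b _
  apply Finset.dvd_sum
  intro i _
  rw [pow_succ]
  exact dvd_mul_of_dvd_right (dvd_mul_left _ _) _

theorem r2_quadh_dvd (J : Finset (Fin c)) (a : CI (n + c) d → B)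
    (Z : Fin c → Polynomial (MvPolynomial (FZ n k J) B)) (hZ : ∀ j ∈ J, Polynomial.X ∣ Z j)
    (j : Fin c) : Polynomial.X ∣ quadh k J a Z j := by
  unfold quadh
  apply Finset.dvd_sum
  intro α _
  split_ifs with hα
  · apply dvd_mul_of_dvd_right
    rw [Finsupp.degree_eq_sum] at hα
    have hex : ∃ b, 0 < (α.1 b : ℕ) := by
      by_contra hc
      push Not at hc
      have : ∑ b, (expo α) b = 0 := Finset.sum_eq_zero fun b _ => Nat.le_zero.1 (hc b)
      omega
    obtain ⟨b, hb⟩ := hex
    have h1 : Polynomial.X ∣ xh k J a Z b ^ (α.1 b : ℕ) :=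
      dvd_pow (xh_X_dvd J a Z hZ b) hb.ne'
    exact h1.trans (Finset.dvd_prod_of_mem (fun b => xh k J a Z b ^ (α.1 b : ℕ)) (Finset.mem_univ b))
  · exact dvd_zero _

theorem r2_dvd_neg {S : Type*} [CommRing S] {p q : Polynomial S} (h : p ∣ q) : p ∣ -q :=
  (dvd_neg).2 h

/-- Every summand of `linh` is divisible by `X`; for `quadh` every factor of the product is
(`xh_X_dvd`) and there is at least one factor (`|α| ≥ 2`); induction on `s`. -/
theorem Zit_X_dvd (J : Finset (Fin c)) (a : CI (n + c) d → B) (s : ℕ) (j : Fin c) :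
    Polynomial.X ∣ Zit k J a s j := by
  induction s generalizing j with
  | zero => exact dvd_zero _
  | succ s ih =>
    simp only [Zit]
    split_ifs with hj
    · apply r2_dvd_neg
      apply Finset.dvd_sum
      intro i _
      apply dvd_mul_of_dvd_right
      exact dvd_add (r2_linh_dvd J a i.1) (r2_quadh_dvd J a _ (fun j _ => ih j) i.1)
    · exact dvd_zero _

/-- Induction on `s`: `s = 0` is `Zit_X_dvd`, the step is `quadh_sub_dvd` (`linh` cancels). -/
theorem Zit_succ_sub (J : Finset (Fin c)) (a : CI (n + c) d → B) (s : ℕ) (j : Fin c) :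
    Polynomial.X ^ (s + 1) ∣ Zit k J a (s + 1) j - Zit k J a s j := by
  induction s generalizing j with
  | zero =>
    rw [zero_add, pow_one]
    exact dvd_sub (Zit_X_dvd J a 1 j) (Zit_X_dvd J a 0 j)
  | succ s ih =>
    by_cases hj : j ∈ J
    · have e1 : Zit k J a (s + 1 + 1) j = - ∑ i : J, Polynomial.C (C ((MJ J a).adjugate ⟨j, hj⟩ i)) *
          (linh k J a i.1 + quadh k J a (Zit k J a (s + 1)) i.1) := by
        rw [Zit]
        simp only [dif_pos hj]
      have e2 : Zit k J a (s + 1) j = - ∑ i : J, Polynomial.C (C ((MJ J a).adjugate ⟨j, hj⟩ i)) *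
          (linh k J a i.1 + quadh k J a (Zit k J a s) i.1) := by
        rw [Zit]
        simp only [dif_pos hj]
      have e3 : Zit k J a (s + 1 + 1) j - Zit k J a (s + 1) j =
          - ∑ i : J, Polynomial.C (C ((MJ J a).adjugate ⟨j, hj⟩ i)) *
            (quadh k J a (Zit k J a (s + 1)) i.1 - quadh k J a (Zit k J a s) i.1) := by
        rw [e1, e2, neg_sub_neg, ← neg_sub, ← Finset.sum_sub_distrib]
        congr 1
        apply Finset.sum_congr rfl
        intro i _
        ring
      rw [e3]
      apply r2_dvd_neg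
      apply Finset.dvd_sum
      intro i _
      apply dvd_mul_of_dvd_right
      exact quadh_sub_dvd J a _ _ (s + 1) (fun j _ => Zit_X_dvd J a _ j)
        (fun j _ => Zit_X_dvd J a _ j) (fun j _ => ih j) i.1
    · have e1 : Zit k J a (s + 1 + 1) j = 0 := by
        rw [Zit]
        simp only [dif_neg hj]
      have e2 : Zit k J a (s + 1) j = 0 := by
        rw [Zit]
        simp only [dif_neg hj]
      rw [e1, e2, sub_self]
      exact dvd_zero _

/-- The fixed point equation modulo `t ^ (k + 1)`: definition of `Zit k J a (k + 1)` and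
`Zit_succ_sub`. -/
theorem Zit_fix (J : Finset (Fin c)) (a : CI (n + c) d → B) (r : J) :
    Polynomial.X ^ (k + 1) ∣ Zit k J a k r.1 +
      ∑ j : J, Polynomial.C (C ((MJ J a).adjugate r j)) *
        (linh k J a j.1 + quadh k J a (Zit k J a k) j.1) := by
  have h := Zit_succ_sub (k := k) J a k r.1
  have e1 : Zit k J a (k + 1) r.1 = - ∑ i : J, Polynomial.C (C ((MJ J a).adjugate r i)) *
      (linh k J a i.1 + quadh k J a (Zit k J a k) i.1) := by
    rw [Zit]
    simp only [dif_pos r.2]
  rw [e1, ← dvd_neg] at h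
  have e2 : -(-∑ i : J, Polynomial.C (C ((MJ J a).adjugate r i)) *
      (linh k J a i.1 + quadh k J a (Zit k J a k) i.1) - Zit k J a k r.1) =
      Zit k J a k r.1 + ∑ j : J, Polynomial.C (C ((MJ J a).adjugate r j)) *
        (linh k J a j.1 + quadh k J a (Zit k J a k) j.1) := by ring
  rw [e2] at h
  exact h

end Pool.Agent.H53V
end
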