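import Pool.Agent.Lib.H1M.PB.M003
import Pool.Agent.Lib.H1M.PB.M005
import Pool.Agent.Lib.H1M.PB.M012
import Pool.Agent.Lib.H1M.PB.M013
import Pool.Agent.Lib.H1M.PB.M018
import Pool.Agent.Lib.H1M.PB.M021
import Pool.Agent.Lib.H1M.PB.M022
import Pool.Agent.Lib.H1M.PB.M023

/-! Merged copies (to shorten the build) of Lib.H67T.NS2, Lib.H89T.DL1, Lib.H89T.DL2, Lib.H89T.DL3, Lib.H89T.DG, Lib.H89T.T3, Lib.H78G.Defs, Lib.H78G.PC, Lib.H78G.DD, Lib.H53Y.D0, Lib.H53Y.IDE, Lib.H78B.B0. -/

-- from Lib.H67T.NS2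
section

set_option autoImplicit false

/-!
CHUNK NS2.  The second main theorem for one curve.
-/

open Real Metric MeasureTheory

namespace Pool.Agent.H67T

/-- Averages over circles, with integrability. -/
def NS2_Avg (r : ℝ) (f : ℂ → ℝ) (a : ℝ) : Prop := CircleIntegrable f 0 r ∧ circleAverage f 0 r = a

theorem NS2_const (r a : ℝ) : NS2_Avg r (fun _ => a) a :=
  ⟨circleIntegrable_const a 0 r, circleAverage_const a 0 r⟩

theorem NS2_add {r : ℝ} {f g : ℂ → ℝ} {a b : ℝ} (hf : NS2_Avg r f a) (hg : NS2_Avg r g b) :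
    NS2_Avg r (fun z => f z + g z) (a + b) :=
  ⟨hf.1.add hg.1, by rw [circleAverage_fun_add hf.1 hg.1, hf.2, hg.2]⟩

theorem NS2_mul {r : ℝ} {f : ℂ → ℝ} {a : ℝ} (c : ℝ) (hf : NS2_Avg r f a) :
    NS2_Avg r (fun z => c * f z) (c * a) := by
  refine ⟨hf.1.const_smul (a := c), ?_⟩
  have h1 := circleAverage_fun_smul (a := c) (f := f) (c := (0 : ℂ)) (R := r)
  simp only [smul_eq_mul] at h1
  rw [h1, hf.2]

theorem NS2_sum {r : ℝ} {ι : Type*} (s : Finset ι) {f : ι → ℂ → ℝ} {a : ι → ℝ}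
    (hf : ∀ i ∈ s, NS2_Avg r (f i) (a i)) :
    NS2_Avg r (fun z => ∑ i ∈ s, f i z) (∑ i ∈ s, a i) := by
  have h1 : (fun z => ∑ i ∈ s, f i z) = ∑ i ∈ s, f i := by
    ext z
    rw [Finset.sum_apply]
  refine ⟨?_, ?_⟩
  · rw [h1]
    exact CircleIntegrable.sum s fun i hi => (hf i hi).1
  · rw [circleAverage_fun_sum fun i hi => (hf i hi).1]
    exact Finset.sum_congr rfl fun i hi => (hf i hi).2

/-- Monotonicity off the zeros of an entire function. -/
theorem NS2_mono {r : ℝ} (hr : r ≠ 0) {f g : ℂ → ℝ} {a b : ℝ} (hf : NS2_Avg r f a)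
    (hg : NS2_Avg r g b) {F : ℂ → ℂ} (hF : Differentiable ℂ F) (hF0 : ∃ z, F z ≠ 0)
    (h : ∀ z, F z ≠ 0 → f z ≤ g z) : a ≤ b := by
  classical
  obtain ⟨z₀, hz₀⟩ := hF0
  have hcod : F ⁻¹' {0}ᶜ ∈ Filter.codiscrete ℂ :=
    AnalyticOnNhd.preimage_zero_mem_codiscrete (fun z _ => hF.analyticAt z) hz₀
  have hcod' : F ⁻¹' {0}ᶜ ∈ Filter.codiscreteWithin (sphere (0 : ℂ) |r|) :=
    Filter.codiscreteWithin_mono (Set.subset_univ _) hcod
  have hcongr : f =ᶠ[Filter.codiscreteWithin (sphere (0 : ℂ) |r|)]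
      fun z => if F z = 0 then g z else f z := by
    filter_upwards [hcod'] with z hz
    have hz' : F z ≠ 0 := hz
    rw [if_neg hz']
  rw [← hf.2, ← hg.2, circleAverage_congr_codiscreteWithin hcongr hr]
  refine circleAverage_mono (hf.1.congr_codiscreteWithin hcongr) hg.1 fun z _ => ?_
  by_cases hz : F z = 0
  · simp only [hz, if_true, le_refl]
  · simp only [hz, if_false]
    exact h z hz

theorem NS2_lin_diff {n : ℕ} (c : Fin n → ℂ) {y : ℂ → Fin n → ℂ}
    (hy : ∀ j, Differentiable ℂ fun z => y z j) : Differentiable ℂ fun z => lin c (y z) :=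
  Differentiable.fun_sum fun j _ => (hy j).const_mul _


theorem NS2_lin_le {n : ℕ} (c v : Fin n → ℂ) : ‖lin c v‖ ≤ (∑ j, ‖c j‖) * ‖v‖ := by
  unfold lin
  refine (norm_sum_le _ _).trans ?_
  rw [Finset.sum_mul]
  refine Finset.sum_le_sum fun j _ => ?_
  rw [norm_mul]
  exact mul_le_mul_of_nonneg_left (norm_le_pi_norm v j) (norm_nonneg _)

theorem NS2_int_log {f : ℂ → ℂ} (hf : Differentiable ℂ f) (r : ℝ) :
    CircleIntegrable (fun z => log ‖f z‖) 0 r :=
  MeromorphicOn.circleIntegrable_log_norm fun z _ => (hf.analyticAt z).meromorphicAt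

theorem NS2_int_log_y {n : ℕ} {y : ℂ → Fin n → ℂ} (hy : IsHol y) (r : ℝ) :
    CircleIntegrable (fun z => log ‖y z‖) 0 r := by
  apply ContinuousOn.circleIntegrable'
  apply Continuous.continuousOn
  have h1 : Continuous y := continuous_pi fun j => (hy.diff j).continuous
  exact (h1.norm).log fun z => norm_ne_zero_iff.mpr (hy.ne_zero z)

theorem NS2_int_posLog {f g : ℂ → ℂ} (hf : Differentiable ℂ f) (hg : Differentiable ℂ g) (r : ℝ) :
    CircleIntegrable (fun z => log⁺ ‖deriv f z / f z - deriv g z / g z‖) 0 r := by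
  apply MeromorphicOn.circleIntegrable_posLog_norm
    (f := fun z => deriv f z / f z - deriv g z / g z)
  intro z _
  have h1 := (hf.analyticAt z).deriv.meromorphicAt
  have h2 := (hf.analyticAt z).meromorphicAt
  have h3 := (hg.analyticAt z).deriv.meromorphicAt
  have h4 := (hg.analyticAt z).meromorphicAt
  exact (h1.div h2).sub (h3.div h4)

theorem NS2_err_ge {n : ℕ} (y : ℂ → Fin n → ℂ) (r R : ℝ) : 1 ≤ err y r R := by
  unfold err
  have h1 := posLog_nonneg (x := chi y R)
  have h2 := posLog_nonneg (x := 1 / (R - r))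
  have h3 := posLog_nonneg (x := R)
  linarith


end Pool.Agent.H67T
end

-- from Lib.H89T.DL1
section

set_option autoImplicit false

/-!
CHUNK DL1.  Derivatives of a quotient of entire functions.
-/

open Real Filter Topology Metric Pool.Agent.H67T

namespace Pool.Agent.H89T

/-- The numerators of the derivatives of `G / H`: the `l`-th derivative of `G / H` is
`num G H l / H ^ (l + 1)`. -/
noncomputable def num (G H : ℂ → ℂ) : ℕ → ℂ → ℂ
  | 0 => G
  | l + 1 => fun z => deriv (num G H l) z * H z - ((l : ℂ) + 1) * num G H l z * deriv H z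

theorem DL1_deriv {f : ℂ → ℂ} (hf : Differentiable ℂ f) : Differentiable ℂ (deriv f) :=
  fun z => (hf.analyticAt z).deriv.differentiableAt

theorem differentiable_num {G H : ℂ → ℂ} (hG : Differentiable ℂ G) (hH : Differentiable ℂ H)
    (l : ℕ) : Differentiable ℂ (num G H l) := by
  induction l with
  | zero => exact hG
  | succ l ih =>
    exact ((DL1_deriv ih).mul hH).sub (((differentiable_const _).mul ih).mul (DL1_deriv hH))

theorem iteratedDeriv_div {G H : ℂ → ℂ} (hG : Differentiable ℂ G) (hH : Differentiable ℂ H)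
    (l : ℕ) {z : ℂ} (hz : H z ≠ 0) :
    iteratedDeriv l (fun w => G w / H w) z = num G H l z / H z ^ (l + 1) := by
  induction l generalizing z with
  | zero => simp [num]
  | succ l ih =>
    rw [iteratedDeriv_succ]
    have hev : iteratedDeriv l (fun w => G w / H w) =ᶠ[𝓝 z]
        fun w => num G H l w / H w ^ (l + 1) := by
      filter_upwards [hH.continuous.continuousAt.eventually_ne hz] with w hw using ih hw
    rw [hev.deriv_eq]
    have hn := (differentiable_num hG hH l z).hasDerivAt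
    have hh := (hH z).hasDerivAt
    have hq := hn.fun_div (hh.fun_pow (l + 1)) (pow_ne_zero _ hz)
    rw [hq.deriv]
    simp only [num, Nat.add_sub_cancel]
    push_cast
    field_simp
    ring

/-- the zeros of an entire function -/
theorem DL1_codisc {H : ℂ → ℂ} (hH : Differentiable ℂ H) (hH0 : ∃ z, H z ≠ 0) (S : Set ℂ) :
    {z | H z ≠ 0} ∈ codiscreteWithin S := by
  obtain ⟨z₀, hz₀⟩ := hH0
  have hcod : H ⁻¹' {0}ᶜ ∈ codiscrete ℂ :=
    AnalyticOnNhd.preimage_zero_mem_codiscrete (fun z _ => hH.analyticAt z) hz₀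
  exact codiscreteWithin_mono (Set.subset_univ _) hcod

theorem quo_eq {G H : ℂ → ℂ} (hG : Differentiable ℂ G) (hH : Differentiable ℂ H)
    (l : ℕ) {z : ℂ} (hz : H z ≠ 0) :
    iteratedDeriv l (fun w => G w / H w) z / (G z / H z) = num G H l z / (H z ^ l * G z) := by
  rw [iteratedDeriv_div hG hH l hz]
  by_cases hg : G z = 0
  · rw [hg]; simp
  · field_simp
    ring

/-- CHUNK DL1. -/
theorem circleIntegrable_quo {G H : ℂ → ℂ} (hG : Differentiable ℂ G) (hH : Differentiable ℂ H)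
    (hH0 : ∃ z, H z ≠ 0) (l : ℕ) (r : ℝ) : CircleIntegrable
      (fun z => log⁺ ‖iteratedDeriv l (fun w => G w / H w) z / (G z / H z)‖) 0 r := by
  have h1 : CircleIntegrable (fun z => log⁺ ‖num G H l z / (H z ^ l * G z)‖) 0 r := by
    apply MeromorphicOn.circleIntegrable_posLog_norm (f := fun z => num G H l z / (H z ^ l * G z))
    intro z _
    have h2 := ((differentiable_num hG hH l).analyticAt z).meromorphicAt
    have h3 := (hG.analyticAt z).meromorphicAt
    have h4 := (hH.analyticAt z).meromorphicAt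
    exact h2.div ((h4.pow l).mul h3)
  refine h1.congr_codiscreteWithin ?_
  filter_upwards [DL1_codisc hH hH0 (sphere (0 : ℂ) |r|)] with z hz
  rw [quo_eq hG hH l hz]

end Pool.Agent.H89T
end

-- from Lib.H89T.DL2
section

set_option autoImplicit false

/-!
CHUNK DL2.  The lemma on the logarithmic derivative for higher derivatives of quotients.
-/

open Real Filter Topology Metric Pool.Agent.H67T

namespace Pool.Agent.H89T

/-- The auxiliary curve. -/
noncomputable def DL2_Y {n : ℕ} (y : ℂ → Fin n → ℂ) (e : ℕ) (f : ℂ → ℂ) (z : ℂ) :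
    Fin (n + 1) → ℂ := Fin.cons (f z) fun j => y z j ^ e

theorem DL2_f_le {n : ℕ} (y : ℂ → Fin n → ℂ) (e : ℕ) (f : ℂ → ℂ) (z : ℂ) :
    ‖f z‖ ≤ ‖DL2_Y y e f z‖ := by
  have := norm_le_pi_norm (DL2_Y y e f z) 0
  simpa [DL2_Y] using this

theorem DL2_y_le {n : ℕ} {y : ℂ → Fin n → ℂ} (hy : IsHol y) (e : ℕ) (f : ℂ → ℂ) (z : ℂ) :
    ‖y z‖ ^ e ≤ ‖DL2_Y y e f z‖ := by
  have hn : Nonempty (Fin n) := by
    by_contra h
    rw [not_nonempty_iff] at h
    exact hy.ne_zero z (Subsingleton.elim _ _)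
  obtain ⟨j, hj⟩ := Finite.exists_max fun j => ‖y z j‖
  have h1 : ‖y z‖ ≤ ‖y z j‖ := (pi_norm_le_iff_of_nonneg (norm_nonneg _)).2 hj
  have h2 := norm_le_pi_norm (DL2_Y y e f z) j.succ
  simp only [DL2_Y, Fin.cons_succ, norm_pow] at h2
  exact (pow_le_pow_left₀ (norm_nonneg _) h1 e).trans h2

theorem DL2_isHol {n : ℕ} {y : ℂ → Fin n → ℂ} (hy : IsHol y) (e : ℕ) {f : ℂ → ℂ}
    (hf : Differentiable ℂ f) : IsHol (DL2_Y y e f) := by
  refine ⟨fun j => ?_, fun z => ?_⟩
  · refine Fin.cases ?_ (fun j => ?_) j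
    · simpa [DL2_Y] using hf
    · simpa [DL2_Y] using (hy.diff j).fun_pow e
  · intro h
    have h1 := DL2_y_le hy e f z
    rw [h, norm_zero] at h1
    have h2 : 0 < ‖y z‖ ^ e := pow_pos (norm_pos_iff.2 (hy.ne_zero z)) e
    linarith

theorem DL2_log_le {n : ℕ} {y : ℂ → Fin n → ℂ} (hy : IsHol y) (e : ℕ) (f : ℂ → ℂ) (z : ℂ)
    {B q : ℝ} (hB : 1 ≤ B) (hq : 0 ≤ q) (h : ‖f z‖ ≤ B * ‖y z‖ ^ e * q) :
    log ‖DL2_Y y e f z‖ ≤ e * log ‖y z‖ + (log B + log⁺ q) := by
  have hy0 : 0 < ‖y z‖ := norm_pos_iff.2 (hy.ne_zero z)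
  have hpos : 0 < ‖DL2_Y y e f z‖ :=
    lt_of_lt_of_le (pow_pos hy0 e) (DL2_y_le hy e f z)
  have hle : ‖DL2_Y y e f z‖ ≤ ‖y z‖ ^ e * (B * max 1 q) := by
    have h0 : 0 ≤ ‖y z‖ ^ e * (B * max 1 q) := by positivity
    refine (pi_norm_le_iff_of_nonneg h0).2 fun j => ?_
    refine Fin.cases ?_ (fun j => ?_) j
    · simp only [DL2_Y, Fin.cons_zero]
      refine h.trans ?_
      have h1 : q ≤ max 1 q := le_max_right _ _
      have h2 : 0 ≤ B * ‖y z‖ ^ e := by positivity
      calc B * ‖y z‖ ^ e * q ≤ B * ‖y z‖ ^ e * max 1 q := mul_le_mul_of_nonneg_left h1 h2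
        _ = _ := by ring
    · simp only [DL2_Y, Fin.cons_succ, norm_pow]
      have h1 : ‖y z j‖ ≤ ‖y z‖ := norm_le_pi_norm _ _
      have h2 : (1 : ℝ) ≤ max 1 q := le_max_left _ _
      calc ‖y z j‖ ^ e ≤ ‖y z‖ ^ e := pow_le_pow_left₀ (norm_nonneg _) h1 e
        _ = ‖y z‖ ^ e * 1 := by ring
        _ ≤ _ := mul_le_mul_of_nonneg_left (by nlinarith) (by positivity)
  have hm : (0 : ℝ) < max 1 q := lt_of_lt_of_le one_pos (le_max_left _ _)
  have hB0 : 0 < B := by linarith
  refine (Real.log_le_log hpos hle).trans ?_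
  rw [Real.log_mul (pow_pos hy0 e).ne' (mul_pos hB0 hm).ne', Real.log_pow,
    Real.log_mul hB0.ne' hm.ne']
  have h3 : log (max 1 q) = log⁺ q := (posLog_eq_log_max_one hq).symm
  rw [h3]

end Pool.Agent.H89T
end

-- from Lib.H89T.DL3
section

set_option autoImplicit false

/-!
CHUNK DL3.  The lemma on the logarithmic derivative for higher derivatives of quotients.
-/

open Real Filter Topology Metric Pool.Agent.H67T

namespace Pool.Agent.H89T

theorem DL3_posLog_le {x : ℝ} (hx : 1 ≤ x) : log⁺ x ≤ x := by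
  have h : log⁺ x = log x := posLog_eq_log (by rw [abs_of_nonneg (by linarith)]; exact hx)
  rw [h]
  have := Real.log_le_sub_one_of_pos (show 0 < x by linarith)
  linarith

theorem DL3_two (x : ℝ) : log⁺ (2 * x) ≤ log 2 + log⁺ x := by
  have := posLog_nat_mul (n := 2) (x := x)
  simpa using this

theorem DL3_err {n m : ℕ} {y : ℂ → Fin n → ℂ} (hy : IsHol y) {Y : ℂ → Fin m → ℂ} (hY : IsHol Y)
    {a b C : ℝ} (ha : 0 ≤ a) (hb : 0 ≤ b) (hC : 0 ≤ C)
    (h : ∀ r R, 1 ≤ r → r < R → chi Y r ≤ a * chi y r + b + C * err y r R) :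
    ∃ C' : ℝ, 0 ≤ C' ∧ ∀ r R, 1 ≤ r → r < R → err Y r ((r + R) / 2) ≤ C' * err y r R := by
  have hlog2 : 0 ≤ log 2 := Real.log_nonneg (by norm_num)
  have hlog2' : log 2 ≤ 1 := by
    have := Real.log_two_lt_d9
    linarith
  set K : ℝ := |chi Y 1| with hK
  have hpl : ∀ x : ℝ, 0 ≤ log⁺ x := fun x => posLog_nonneg
  set S : ℝ := log⁺ K + log⁺ a + log⁺ b + log⁺ (2 * C) with hS
  have hS0 : 0 ≤ S := by
    have := hpl K; have := hpl a; have := hpl b; have := hpl (2 * C)
    rw [hS]; linarith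
  refine ⟨S + 10, by linarith, ?_⟩
  intro r R hr hrR
  set ρ : ℝ := (r + R) / 2 with hρ
  have hρ1 : r < ρ := by rw [hρ]; linarith
  have hρ2 : ρ < R := by rw [hρ]; linarith
  set E : ℝ := err y r R with hE
  have hE1 : 1 ≤ E := NS2_err_ge y r R
  have hEdef : E = 1 + log⁺ (chi y R) + log⁺ (1 / (R - r)) + log⁺ R := rfl
  have e1 : log⁺ (chi y R) ≤ E := by
    have := hpl (1 / (R - r)); have := hpl R
    linarith
  have e2 : log⁺ R ≤ E := by
    have := hpl (1 / (R - r)); have := hpl (chi y R)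
    linarith
  have e3 : log⁺ (1 / (R - r)) ≤ E := by
    have := hpl R; have := hpl (chi y R)
    linarith
  have hRρ : 1 / (R - ρ) = 2 * (1 / (R - r)) := by
    have h1 : R - ρ = (R - r) / 2 := by rw [hρ]; ring
    have h2 : R - r ≠ 0 := by linarith
    rw [h1]
    field_simp
  have hρr : 1 / (ρ - r) = 2 * (1 / (R - r)) := by
    have h1 : ρ - r = (R - r) / 2 := by rw [hρ]; ring
    have h2 : R - r ≠ 0 := by linarith
    rw [h1]
    field_simp
  have e4 : err y ρ R ≤ 2 * E := by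
    have h1 : err y ρ R = 1 + log⁺ (chi y R) + log⁺ (1 / (R - ρ)) + log⁺ R := rfl
    have h2 := DL3_two (1 / (R - r))
    rw [h1, hRρ]
    linarith
  have e5 : chi y ρ ≤ |chi y R| :=
    (chi_mono hy (by linarith) hρ2.le).trans (le_abs_self _)
  have e6 : chi Y ρ ≤ a * |chi y R| + b + 2 * C * E := by
    have h1 := h ρ R (by linarith) hρ2
    have h2 : a * chi y ρ ≤ a * |chi y R| := mul_le_mul_of_nonneg_left e5 ha
    have h3 : C * err y ρ R ≤ C * (2 * E) := mul_le_mul_of_nonneg_left e4 hC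
    linarith
  have e7 : -K ≤ chi Y ρ := by
    have h1 := chi_mono hY (r := 1) (R := ρ) one_pos (by linarith)
    have h2 := neg_abs_le (chi Y 1)
    linarith
  have hKn : 0 ≤ K := abs_nonneg _
  have h0 : 0 ≤ a * |chi y R| := mul_nonneg ha (abs_nonneg _)
  have h0' : 0 ≤ 2 * C * E := by positivity
  have e8 : |chi Y ρ| ≤ K + a * |chi y R| + b + 2 * C * E := by
    rw [abs_le]
    constructor <;> linarith
  have e9 : log⁺ (chi Y ρ) ≤ 3 * log 2 + (log⁺ K + log⁺ (a * |chi y R|) + log⁺ b +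
      log⁺ (2 * C * E)) := by
    rw [← posLog_abs (chi Y ρ)]
    exact (posLog_le_posLog (abs_nonneg _) e8).trans (NL4_four _ _ _ _)
  have e10 : log⁺ (a * |chi y R|) ≤ log⁺ a + log⁺ (chi y R) := by
    have := posLog_mul (x := a) (y := |chi y R|)
    rwa [posLog_abs] at this
  have e11 : log⁺ (2 * C * E) ≤ log⁺ (2 * C) + log⁺ E := posLog_mul
  have e12 := DL3_posLog_le hE1
  have e13 : log⁺ ρ ≤ log⁺ R := posLog_le_posLog (by linarith) hρ2.le
  have e14 := DL3_two (1 / (R - r))
  have e15 : err Y r ρ = 1 + log⁺ (chi Y ρ) + log⁺ (1 / (ρ - r)) + log⁺ ρ := rfl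
  rw [e15, hρr]
  nlinarith

/-- the induction step -/
theorem DL3_step {n : ℕ} {y : ℂ → Fin n → ℂ} (hy : IsHol y) {G H : ℂ → ℂ}
    (hG : Differentiable ℂ G) (hH : Differentiable ℂ H) (hG0 : ∃ z, G z ≠ 0)
    (hH0 : ∃ z, H z ≠ 0) {A : ℝ} (hA : 1 ≤ A) {k : ℕ} (hGy : ∀ z, ‖G z‖ ≤ A * ‖y z‖ ^ k)
    (hHy : ∀ z, ‖H z‖ ≤ A * ‖y z‖ ^ k) (l : ℕ)
    (ih : ∃ C : ℝ, 0 ≤ C ∧ ∀ r R : ℝ, 1 ≤ r → r < R →
      circleAverage (fun z => log⁺ ‖num G H l z / (H z ^ l * G z)‖) 0 r ≤ C * err y r R) :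
    ∃ C : ℝ, 0 ≤ C ∧ ∀ r R : ℝ, 1 ≤ r → r < R →
      circleAverage (fun z => log⁺ ‖num G H (l + 1) z / (H z ^ (l + 1) * G z)‖) 0 r ≤
        C * err y r R := by
  have hnum := differentiable_num hG hH l
  have hnum' := differentiable_num hG hH (l + 1)
  by_cases hne : ∃ z, num G H l z ≠ 0
  swap
  · -- the case of a vanishing numerator
    push Not at hne
    have h1 : num G H l = fun _ => 0 := funext hne
    have h2 : ∀ z, num G H (l + 1) z = 0 := by
      intro z
      simp only [num]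
      rw [h1]
      simp
    refine ⟨0, le_rfl, fun r R _ _ => ?_⟩
    have h3 : (fun z => log⁺ ‖num G H (l + 1) z / (H z ^ (l + 1) * G z)‖) = fun _ => (0 : ℝ) := by
      funext z
      rw [h2 z]
      simp
    rw [h3, circleAverage_const, zero_mul]
  obtain ⟨C, hC0, hC⟩ := ih
  set e : ℕ := k * (l + 1) with he
  set Y := DL2_Y y e (num G H l) with hY
  have hYhol : IsHol Y := DL2_isHol hy e hnum
  have hA1 : 1 ≤ A ^ (l + 1) := one_le_pow₀ hA
  have hHd : Differentiable ℂ (fun z => H z ^ (l + 1)) := hH.fun_pow (l + 1)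
  have hHne : ∃ z, H z ^ (l + 1) ≠ 0 := by
    obtain ⟨z, hz⟩ := hH0
    exact ⟨z, pow_ne_zero _ hz⟩
  have hf1 : ∀ z, ‖num G H l z‖ ≤ A ^ (l + 1) * ‖Y z‖ := fun z =>
    (DL2_f_le y e (num G H l) z).trans (le_mul_of_one_le_left (norm_nonneg _) hA1)
  have hf2 : ∀ z, ‖H z ^ (l + 1)‖ ≤ A ^ (l + 1) * ‖Y z‖ := by
    intro z
    rw [norm_pow]
    calc ‖H z‖ ^ (l + 1) ≤ (A * ‖y z‖ ^ k) ^ (l + 1) :=
          pow_le_pow_left₀ (norm_nonneg _) (hHy z) _
      _ = A ^ (l + 1) * ‖y z‖ ^ e := by rw [mul_pow, ← pow_mul]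
      _ ≤ _ := mul_le_mul_of_nonneg_left (DL2_y_le hy e (num G H l) z) (by positivity)
  obtain ⟨C1, hC1, hC1'⟩ := logDeriv_lemma hYhol hnum hHd hne hHne hA1 hf1 hf2
  -- the characteristic of the auxiliary curve
  have hchi : ∀ r R, 1 ≤ r → r < R →
      chi Y r ≤ (e : ℝ) * chi y r + log (A ^ (l + 1)) + C * err y r R := by
    intro r R hr hrR
    have hr0 : r ≠ 0 := by linarith
    have a1 : NS2_Avg r (fun z => log ‖Y z‖) (chi Y r) := ⟨NS2_int_log_y hYhol r, rfl⟩
    have a2 : NS2_Avg r (fun z => log ‖y z‖) (chi y r) := ⟨NS2_int_log_y hy r, rfl⟩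
    have a3 : NS2_Avg r (fun z => log⁺ ‖num G H l z / (H z ^ l * G z)‖)
        (circleAverage (fun z => log⁺ ‖num G H l z / (H z ^ l * G z)‖) 0 r) := by
      refine ⟨?_, rfl⟩
      apply MeromorphicOn.circleIntegrable_posLog_norm
        (f := fun z => num G H l z / (H z ^ l * G z))
      intro z _
      exact (hnum.analyticAt z).meromorphicAt.div
        (((hH.analyticAt z).meromorphicAt.pow l).mul (hG.analyticAt z).meromorphicAt)
    have hGH : Differentiable ℂ fun z => G z * H z := hG.mul hH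
    have hGH0 : ∃ z, G z * H z ≠ 0 := by
      have c1 := DL1_codisc hG hG0 Set.univ
      have c2 := DL1_codisc hH hH0 Set.univ
      have c3 := Filter.inter_mem c1 c2
      rw [mem_codiscreteWithin_iff_forall_mem_nhdsNE] at c3
      have c4 := c3 0 (Set.mem_univ _)
      have c5 : ({z | G z ≠ 0} ∩ {z | H z ≠ 0} : Set ℂ) ∈ 𝓝[≠] (0 : ℂ) := by
        filter_upwards [c4] with z hz
        rcases hz with hz | hz
        · exact hz
        · exact absurd (Set.mem_univ _) hz
      obtain ⟨z, hz⟩ := Filter.nonempty_of_mem c5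
      exact ⟨z, mul_ne_zero hz.1 hz.2⟩
    have hm := NS2_mono hr0 a1 (NS2_add (NS2_mul (e : ℝ) a2)
      (NS2_add (NS2_const r (log (A ^ (l + 1)))) a3)) hGH hGH0 (by
        intro z hz
        have hGz : G z ≠ 0 := left_ne_zero_of_mul hz
        have hHz : H z ≠ 0 := right_ne_zero_of_mul hz
        refine DL2_log_le hy e (num G H l) z hA1 (norm_nonneg _) ?_
        have h1 : num G H l z = (H z ^ l * G z) * (num G H l z / (H z ^ l * G z)) := by
          field_simp
        calc ‖num G H l z‖ = ‖H z‖ ^ l * ‖G z‖ * ‖num G H l z / (H z ^ l * G z)‖ := by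
              conv_lhs => rw [h1]
              rw [norm_mul, norm_mul, norm_pow]
          _ ≤ (A * ‖y z‖ ^ k) ^ l * (A * ‖y z‖ ^ k) * ‖num G H l z / (H z ^ l * G z)‖ := by
              refine mul_le_mul_of_nonneg_right ?_ (norm_nonneg _)
              exact mul_le_mul (pow_le_pow_left₀ (norm_nonneg _) (hHy z) _) (hGy z)
                (norm_nonneg _) (by positivity)
          _ = _ := by
              rw [← pow_succ, mul_pow, ← pow_mul])
    have h2 := hC r R hr hrR
    linarith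
  obtain ⟨C2, hC2, hC2'⟩ := DL3_err hy hYhol (Nat.cast_nonneg e) (Real.log_nonneg hA1) hC0 hchi
  refine ⟨C1 * C2 + C, by positivity, fun r R hr hrR => ?_⟩
  have hr0 : r ≠ 0 := by linarith
  have hL := hC1' r ((r + R) / 2) hr (by linarith)
  have hL2 := hC2' r R hr hrR
  have b1 : NS2_Avg r (fun z => log⁺ ‖num G H (l + 1) z / (H z ^ (l + 1) * G z)‖)
      (circleAverage (fun z => log⁺ ‖num G H (l + 1) z / (H z ^ (l + 1) * G z)‖) 0 r) := by
    refine ⟨?_, rfl⟩
    apply MeromorphicOn.circleIntegrable_posLog_norm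
      (f := fun z => num G H (l + 1) z / (H z ^ (l + 1) * G z))
    intro z _
    exact (hnum'.analyticAt z).meromorphicAt.div
      (((hH.analyticAt z).meromorphicAt.pow (l + 1)).mul (hG.analyticAt z).meromorphicAt)
  have b2 : NS2_Avg r (fun z => log⁺ ‖num G H l z / (H z ^ l * G z)‖)
      (circleAverage (fun z => log⁺ ‖num G H l z / (H z ^ l * G z)‖) 0 r) := by
    refine ⟨?_, rfl⟩
    apply MeromorphicOn.circleIntegrable_posLog_norm
      (f := fun z => num G H l z / (H z ^ l * G z))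
    intro z _
    exact (hnum.analyticAt z).meromorphicAt.div
      (((hH.analyticAt z).meromorphicAt.pow l).mul (hG.analyticAt z).meromorphicAt)
  have b3 : NS2_Avg r (fun z => log⁺ ‖deriv (num G H l) z / num G H l z -
      deriv (fun z => H z ^ (l + 1)) z / H z ^ (l + 1)‖)
      (circleAverage (fun z => log⁺ ‖deriv (num G H l) z / num G H l z -
      deriv (fun z => H z ^ (l + 1)) z / H z ^ (l + 1)‖) 0 r) :=
    ⟨NS2_int_posLog hnum hHd r, rfl⟩
  have hF : Differentiable ℂ fun z => num G H l z * (G z * H z) := hnum.mul (hG.mul hH)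
  have hF0 : ∃ z, num G H l z * (G z * H z) ≠ 0 := by
    have c1 := DL1_codisc hG hG0 Set.univ
    have c2 := DL1_codisc hH hH0 Set.univ
    have c0 := DL1_codisc hnum hne Set.univ
    have c3 := Filter.inter_mem c0 (Filter.inter_mem c1 c2)
    rw [mem_codiscreteWithin_iff_forall_mem_nhdsNE] at c3
    have c4 := c3 0 (Set.mem_univ _)
    have c5 : ({z | num G H l z ≠ 0} ∩ ({z | G z ≠ 0} ∩ {z | H z ≠ 0}) : Set ℂ) ∈
        𝓝[≠] (0 : ℂ) := by
      filter_upwards [c4] with z hz
      rcases hz with hz | hz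
      · exact hz
      · exact absurd (Set.mem_univ _) hz
    obtain ⟨z, hz⟩ := Filter.nonempty_of_mem c5
    exact ⟨z, mul_ne_zero hz.1 (mul_ne_zero hz.2.1 hz.2.2)⟩
  have hm := NS2_mono hr0 b1 (NS2_add b2 b3) hF hF0 (by
    intro z hz
    have h1 : num G H l z ≠ 0 := left_ne_zero_of_mul hz
    have h2 := right_ne_zero_of_mul hz
    have hGz : G z ≠ 0 := left_ne_zero_of_mul h2
    have hHz : H z ≠ 0 := right_ne_zero_of_mul h2
    have h3 : deriv (fun z => H z ^ (l + 1)) z = ((l : ℂ) + 1) * H z ^ l * deriv H z := by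
      rw [((hH z).hasDerivAt.fun_pow (l + 1)).deriv]
      simp
    have h4 : num G H (l + 1) z / (H z ^ (l + 1) * G z) =
        (num G H l z / (H z ^ l * G z)) * (deriv (num G H l) z / num G H l z -
          deriv (fun z => H z ^ (l + 1)) z / H z ^ (l + 1)) := by
      rw [h3]
      simp only [num]
      field_simp
      ring
    rw [h4, norm_mul]
    exact posLog_mul)
  have h5 := hC r R hr hrR
  have h6 : C1 * err Y r ((r + R) / 2) ≤ C1 * (C2 * err y r R) :=
    mul_le_mul_of_nonneg_left hL2 hC1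
  nlinarith

/-- CHUNK DL3.  Average of the logarithm of the higher logarithmic derivatives of `G / H`. -/
theorem quo_avg {n : ℕ} {y : ℂ → Fin n → ℂ} (hy : IsHol y) {G H : ℂ → ℂ}
    (hG : Differentiable ℂ G) (hH : Differentiable ℂ H) (hG0 : ∃ z, G z ≠ 0)
    (hH0 : ∃ z, H z ≠ 0) {A : ℝ} (hA : 1 ≤ A) {k : ℕ} (hGy : ∀ z, ‖G z‖ ≤ A * ‖y z‖ ^ k)
    (hHy : ∀ z, ‖H z‖ ≤ A * ‖y z‖ ^ k) (l : ℕ) :
    ∃ C : ℝ, 0 ≤ C ∧ ∀ r R : ℝ, 1 ≤ r → r < R →
      circleAverage (fun z => log⁺ ‖iteratedDeriv l (fun w => G w / H w) z / (G z / H z)‖) 0 r ≤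
        C * err y r R := by
  have key : ∃ C : ℝ, 0 ≤ C ∧ ∀ r R : ℝ, 1 ≤ r → r < R →
      circleAverage (fun z => log⁺ ‖num G H l z / (H z ^ l * G z)‖) 0 r ≤ C * err y r R := by
    induction l with
    | zero =>
      refine ⟨0, le_rfl, fun r R _ _ => ?_⟩
      have h1 : (fun z => log⁺ ‖num G H 0 z / (H z ^ 0 * G z)‖) = fun _ => (0 : ℝ) := by
        funext z
        simp only [num, pow_zero, one_mul]
        by_cases h : G z = 0
        · rw [h]; simp
        · rw [div_self h]; simp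
      rw [h1, circleAverage_const, zero_mul]
    | succ l ih => exact DL3_step hy hG hH hG0 hH0 hA hGy hHy l ih
  obtain ⟨C, hC0, hC⟩ := key
  refine ⟨C, hC0, fun r R hr hrR => ?_⟩
  refine le_of_eq_of_le ?_ (hC r R hr hrR)
  apply circleAverage_congr_codiscreteWithin _ (by linarith)
  filter_upwards [DL1_codisc hH hH0 (sphere (0 : ℂ) |r|)] with z hz
  rw [quo_eq hG hH l hz]

end Pool.Agent.H89T
end

-- from Lib.H89T.DG
section

set_option autoImplicit false

/-!
CHUNK DG (D7).  The second main theorem for one curve.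
-/

open MvPolynomial Real MeasureTheory Pool.Agent.H67T

namespace Pool.Agent.H89T

theorem DG_log_one_add {ι : Type} [Fintype ι] (x : ι → ℝ) (hx : ∀ i, 0 ≤ x i) :
    log⁺ (∑ i, x i) ≤ log (Fintype.card ι) + ∑ i, log⁺ (x i) := by
  have h := posLog_sum Finset.univ x
  rwa [Finset.card_univ] at h

/-- the logarithm of `Lam` -/
theorem DG_log_Lam {n : ℕ} (y : ℂ → Fin (n + 1) → ℂ) (Fy : ℂ → ℂ) (k L : ℕ) :
    ∃ K : ℝ, 0 ≤ K ∧ ∀ z, log (Lam y Fy k L z) ≤ K +
      ((∑ p : Fin (n + 1) × Fin n × Fin (L + 1),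
        log⁺ ‖iteratedDeriv (p.2.2 : ℕ) (fun w => y w (p.1.succAbove p.2.1) / y w p.1) z /
          (y z (p.1.succAbove p.2.1) / y z p.1)‖) +
      ∑ p : Fin (n + 1) × Fin (L + 1),
        log⁺ ‖iteratedDeriv (p.2 : ℕ) (fun w => Fy w / y w p.1 ^ k) z / (Fy z / y z p.1 ^ k)‖) := by
  have hlog2 : 0 ≤ log 2 := Real.log_nonneg (by norm_num)
  have hc1 : 0 ≤ log (Fintype.card (Fin (n + 1) × Fin n × Fin (L + 1)) : ℝ) :=
    Real.log_natCast_nonneg _
  have hc2 : 0 ≤ log (Fintype.card (Fin (n + 1) × Fin (L + 1)) : ℝ) := Real.log_natCast_nonneg _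
  refine ⟨2 * log 2 + log (Fintype.card (Fin (n + 1) × Fin n × Fin (L + 1)) : ℝ) +
    log (Fintype.card (Fin (n + 1) × Fin (L + 1)) : ℝ), by linarith, fun z => ?_⟩
  have h1 : log (Lam y Fy k L z) ≤ log⁺ (Lam y Fy k L z) := by
    rw [posLog_apply]
    exact le_max_right _ _
  have h2 : Lam y Fy k L z = 1 + (∑ p : Fin (n + 1) × Fin n × Fin (L + 1),
        ‖iteratedDeriv (p.2.2 : ℕ) (fun w => y w (p.1.succAbove p.2.1) / y w p.1) z /
          (y z (p.1.succAbove p.2.1) / y z p.1)‖) +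
      ∑ p : Fin (n + 1) × Fin (L + 1),
        ‖iteratedDeriv (p.2 : ℕ) (fun w => Fy w / y w p.1 ^ k) z / (Fy z / y z p.1 ^ k)‖ := by
    simp only [Fintype.sum_prod_type]
    rfl
  have h3 := posLog_add (x := 1 + ∑ p : Fin (n + 1) × Fin n × Fin (L + 1),
        ‖iteratedDeriv (p.2.2 : ℕ) (fun w => y w (p.1.succAbove p.2.1) / y w p.1) z /
          (y z (p.1.succAbove p.2.1) / y z p.1)‖) (y := ∑ p : Fin (n + 1) × Fin (L + 1),
        ‖iteratedDeriv (p.2 : ℕ) (fun w => Fy w / y w p.1 ^ k) z / (Fy z / y z p.1 ^ k)‖)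
  have h4 := posLog_add (x := 1) (y := ∑ p : Fin (n + 1) × Fin n × Fin (L + 1),
        ‖iteratedDeriv (p.2.2 : ℕ) (fun w => y w (p.1.succAbove p.2.1) / y w p.1) z /
          (y z (p.1.succAbove p.2.1) / y z p.1)‖)
  have h5 := DG_log_one_add (fun p : Fin (n + 1) × Fin n × Fin (L + 1) =>
        ‖iteratedDeriv (p.2.2 : ℕ) (fun w => y w (p.1.succAbove p.2.1) / y w p.1) z /
          (y z (p.1.succAbove p.2.1) / y z p.1)‖) fun _ => norm_nonneg _
  have h6 := DG_log_one_add (fun p : Fin (n + 1) × Fin (L + 1) =>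
        ‖iteratedDeriv (p.2 : ℕ) (fun w => Fy w / y w p.1 ^ k) z / (Fy z / y z p.1 ^ k)‖)
        fun _ => norm_nonneg _
  have h7 : log⁺ (1 : ℝ) = 0 := posLog_one
  rw [h2] at h1
  rw [h2]
  linarith



end Pool.Agent.H89T
end

-- from Lib.H89T.T3
section

set_option autoImplicit false

/-!
H89T: covers which are weakly ramified over a generic hypersurface.
-/

open MvPolynomial

namespace Pool.Agent.H89T

/-- Nullstellensatz. -/
theorem t3_null {m : ℕ} (J : Ideal (MvPolynomial (Fin m) ℂ)) (hJ : J.IsPrime)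
    (P : MvPolynomial (Fin m) ℂ) (hP : P ∉ J) :
    ∃ x, (∀ G ∈ J, eval x G = 0) ∧ eval x P ≠ 0 := by
  by_contra hcon
  push Not at hcon
  apply hP
  have h1 : P ∈ vanishingIdeal ℂ (zeroLocus ℂ J) := by
    rw [mem_vanishingIdeal_iff]
    intro u hu
    rw [aeval_eq_eval]
    refine hcon u fun g hg => ?_
    have h2 := hu g hg
    rwa [aeval_eq_eval] at h2
  rw [vanishingIdeal_zeroLocus_eq_radical] at h1
  rwa [hJ.radical] at h1

/-- Orders along curves. -/
theorem t3_order {m : ℕ} {J : Ideal (MvPolynomial (Fin m) ℂ)} {u : ℂ → Fin m → ℂ}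
    (hu : Pool.Agent.H67T.IsHol u) (huJ : ∀ z, ∀ F ∈ J, eval (u z) F = 0) {z : ℂ} {e : ℕ}
    {R S : MvPolynomial (Fin m) ℂ} (hS : eval (u z) S ≠ 0)
    (hSR : S * R ∈ J ⊔ RingHom.ker (eval (u z)) ^ e) :
    (e : ℕ∞) ≤ analyticOrderAt (fun z => eval (u z) R) z := by
  have hdiff : ∀ F : MvPolynomial (Fin m) ℂ, Differentiable ℂ fun z => eval (u z) F :=
    fun F => Pool.Agent.H67T.differentiable_eval hu.diff F
  have hJ0 : J ≤ Pool.Agent.H67T.GH6_K u hdiff z e := by
    intro F hF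
    have h0 : (fun z => eval (u z) F) = fun _ => (0 : ℂ) := by
      funext w
      exact huJ w F hF
    change (e : ℕ∞) ≤ analyticOrderAt (fun z => eval (u z) F) z
    rw [h0]
    have h1 : analyticOrderAt (fun _ : ℂ => (0 : ℂ)) z = ⊤ := by
      rw [analyticOrderAt_eq_top]
      exact Filter.Eventually.of_forall fun _ => rfl
    rw [h1]
    exact le_top
  have hK : RingHom.ker (eval (u z)) ^ e ≤ Pool.Agent.H67T.GH6_K u hdiff z e := by
    have h1 : RingHom.ker (eval (u z)) ≤ Pool.Agent.H67T.GH6_K u hdiff z 1 := by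
      intro G hG
      change ((1 : ℕ) : ℕ∞) ≤ _
      rw [Nat.cast_one, Order.one_le_iff_ne_zero]
      exact (((hdiff G).analyticAt z).analyticOrderAt_ne_zero).mpr hG
    have h2 := (Ideal.pow_right_mono h1 e).trans (Pool.Agent.H67T.GH6_pow hdiff z 1 e)
    rwa [mul_one] at h2
  have hSRo : (e : ℕ∞) ≤ analyticOrderAt (fun z => eval (u z) (S * R)) z :=
    (sup_le hJ0 hK) hSR
  have hmul : (fun z => eval (u z) (S * R)) =
      (fun z => eval (u z) S) * fun z => eval (u z) R := by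
    funext w
    simp
  rw [hmul, analyticOrderAt_mul ((hdiff S).analyticAt z) ((hdiff R).analyticAt z)] at hSRo
  have hS0 : analyticOrderAt (fun z => eval (u z) S) z = 0 := by
    rw [((hdiff S).analyticAt z).analyticOrderAt_eq_zero]
    exact hS
  rwa [hS0, zero_add] at hSRo


end Pool.Agent.H89T
end

-- from Lib.H78G.Defs
section

set_option autoImplicit false

/-!
# H78G: second main theorem with total truncation level one for generic hyperplane arrangements

Definitions.  See PROOF.md.  Everything of `Lib/H89T` (jets `JV n r`, arcs, `ev`, `Fx`, `uR`, `NN`,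
`PropA`, `HasMon`, `HasWt`, `QQ`, `ch`, ...) is reused; the hypersurface is now a product of `K`
linear polynomials with coefficients `h (i, 0)` (constant term), `h (i, b + 1)`.
-/

open MvPolynomial

namespace Pool.Agent.H78G

open Pool.Agent.H89T

/-- Coefficients of `K` linear polynomials in `n` variables: `(i, 0)` is the constant coefficient
of the `i`-th one, `(i, b.succ)` the coefficient of the variable `b`. -/
abbrev HV (n K : ℕ) : Type := Fin K × Fin (n + 1)

section General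

variable {n K r : ℕ} {B : Type*} [CommRing B]

/-- The value at `x` of the linear polynomial with coefficients `h`. -/
def linA (h : Fin (n + 1) → B) (x : Fin n → B) : B := h 0 + ∑ b : Fin n, h b.succ * x b

/-- `v_i (t) = h_i (x (t))`. -/
noncomputable def vv (h : HV n K → B) (ξ : JV n r → B) (i : Fin K) : Polynomial B :=
  linA (fun j => Polynomial.C (h (i, j))) (arc ξ)

/-- The product of the `K` linear polynomials. -/
noncomputable def prodP (h : HV n K → B) : MvPolynomial (Fin n) B :=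
  ∏ i : Fin K, (C (h (i, 0)) + ∑ b : Fin n, C (h (i, b.succ)) * X b)

/-- The coefficients of the product of the `K` linear polynomials. -/
noncomputable def pc (h : HV n K → B) : Idx n K → B := fun α => (prodP h).coeff (fin α)

/-- The determinant of the jets of orders `1, ..., n` (the Wronskian in affine coordinates). -/
noncomputable def Wd (hr : n ≤ r) (ξ : JV n r → B) : B :=
  Matrix.det (Matrix.of fun b l : Fin n => ξ (b, ⟨(l : ℕ) + 1, by omega⟩))

end General

/-- Weight at most `d` for polynomials in the jets and further variables `τ` of weight `0`. -/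
def WtS {n r : ℕ} {τ : Type} (d : ℕ) (P : MvPolynomial (JV n r ⊕ τ) ℂ) : Prop :=
  ∀ m ∈ P.support, ∑ p : JV n r, ((p.2 : ℕ) + 1) * m (Sum.inl p) ≤ d

/-- The universal ring: jets and coefficients of `K` linear polynomials. -/
abbrev UA (n K r : ℕ) : Type := MvPolynomial (JV n r ⊕ HV n K) ℂ

section Universal

variable {n K r : ℕ}

/-- The coefficients as elements of the universal ring. -/
noncomputable def hU (s : HV n K) : UA n K r := X (Sum.inr s)

/-- The jet variables as elements of the universal ring. -/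
noncomputable def xU (p : JV n r) : UA n K r := X (Sum.inl p)

/-- The Taylor coefficients of the product `∏ h_i (x (t))`. -/
noncomputable def uU (i : ℕ) : UA n K r := uu (pc hU) xU i

/-- The derivation `N` of the universal ring. -/
noncomputable def NU (n K r : ℕ) : Derivation ℂ (UA n K r) (UA n K r) :=
  mkDerivation ℂ (Sum.elim (fun p : JV n r =>
    if h : (p.2 : ℕ) < r then ((p.2 : ℕ) + 1) • xU (p.1, ⟨(p.2 : ℕ) + 1, by omega⟩) else 0)
    fun _ => 0)

/-- The derivation `V (g, lam)`: `h_s ↦ g s`, `x_{b,l} ↦ [t ^ l] lam b`. -/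
noncomputable def VU (g : HV n K → UA n K r) (lam : Fin n → Polynomial (UA n K r)) :
    Derivation ℂ (UA n K r) (UA n K r) :=
  mkDerivation ℂ (Sum.elim (fun p : JV n r => (lam p.1).coeff (p.2 : ℕ)) g)

/-- `E_i (V (g, lam)) = g_i (x (t)) + ∑ h_{i,b} lam b (t)`. -/
noncomputable def EU (g : HV n K → UA n K r) (lam : Fin n → Polynomial (UA n K r)) (i : Fin K) :
    Polynomial (UA n K r) :=
  vv g xU i + ∑ b : Fin n, Polynomial.C (hU (i, b.succ)) * lam b

/-- `s`-admissible fields. -/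
structure AdmU (s : ℕ) (g : HV n K → UA n K r) (lam : Fin n → Polynomial (UA n K r)) : Prop where
  deg : ∀ b, (lam b).natDegree ≤ r
  mem : ∀ i, EU g lam i ∈
    Ideal.span {vv hU xU i, (Polynomial.X : Polynomial (UA n K r)) ^ s}

/-- Property (A) in the universal ring. -/
def PropU (q : ℕ) (P : UA n K r) : Prop :=
  ∀ l < q, (NU n K r)^[l] P ∈ Ideal.span {(uU 0 : UA n K r), uU 1}





end Universal


end Pool.Agent.H78G
end

-- from Lib.H78G.PC
section

set_option autoImplicit false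

/-!
CHUNK PC (M, elementary).  Products of linear polynomials.
-/

open MvPolynomial

namespace Pool.Agent.H78G

open Pool.Agent.H89T

variable {n K r : ℕ} {B B' : Type} [CommRing B] [CommRing B']

/-- CHUNK PC. -/
theorem linA_map (φ : B →+* B') (h : Fin (n + 1) → B) (x : Fin n → B) :
    φ (linA h x) = linA (fun j => φ (h j)) (fun b => φ (x b)) := by
  unfold linA
  rw [map_add, map_sum]
  congr 1
  exact Finset.sum_congr rfl fun b _ => map_mul φ _ _

theorem PC_map_prodP (φ : B →+* B') (h : HV n K → B) :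
    map φ (prodP h) = prodP (fun s => φ (h s)) := by
  unfold prodP
  rw [map_prod]
  refine Finset.prod_congr rfl fun i _ => ?_
  rw [map_add, map_C, map_sum]
  congr 1
  refine Finset.sum_congr rfl fun b _ => ?_
  rw [map_mul, map_C, map_X]

/-- CHUNK PC.  Naturality: `map φ (prodP h) = prodP (φ ∘ h)`, `coeff_map`. -/
theorem pc_map (φ : B →+* B') (h : HV n K → B) (α : Idx n K) :
    φ (pc h α) = pc (fun s => φ (h s)) α := by
  unfold pc
  rw [← PC_map_prodP, coeff_map]

theorem PC_totalDegree (h : HV n K → B) : (prodP h).totalDegree ≤ K := by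
  unfold prodP
  refine (totalDegree_finsetProd _ _).trans ?_
  refine (Finset.sum_le_card_nsmul _ _ 1 fun i _ => ?_).trans (by simp)
  refine (totalDegree_add _ _).trans (max_le ?_ ?_)
  · rw [totalDegree_C]; exact Nat.zero_le _
  · refine totalDegree_finsetSum_le fun b _ => ?_
    refine (totalDegree_mul _ _).trans ?_
    rw [totalDegree_C, zero_add]
    unfold MvPolynomial.X
    refine (totalDegree_monomial_le _ _).trans ?_
    rw [Finsupp.sum_single_index rfl]
    exact le_rfl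

/-- CHUNK PC.  The value of the product.  Proof: `prodP h` has total degree at most `K`, so it is the
sum of the monomials `monomial (fin α) (coeff (fin α) (prodP h))` over `α : Idx n K` (compare
`toG` and its lemmas in `H89T/C3.lean`), and `eval x (prodP h) = ∏ linA`. -/
theorem ev_pc (h : HV n K → B) (x : Fin n → B) :
    ev (pc h) x = ∏ i, linA (fun j => h (i, j)) x := by
  have h1 := ev_toG (prodP h) (PC_totalDegree h) x
  have h2 : toG K (prodP h) = pc h := rfl
  rw [h2] at h1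
  rw [h1]
  unfold prodP linA
  rw [map_prod]
  refine Finset.prod_congr rfl fun i _ => ?_
  rw [map_add, eval_C, map_sum]
  congr 1
  refine Finset.sum_congr rfl fun b _ => ?_
  rw [map_mul, eval_C, eval_X]

/-- CHUNK PC.  `ev_pc` in `B[t]`, with `C (pc h α) = pc (C ∘ h) α` (`pc_map`). -/
theorem Fx_pc (h : HV n K → B) (ξ : JV n r → B) : Fx (pc h) ξ = ∏ i, vv h ξ i := by
  unfold Fx vv
  have h1 : (fun α : Idx n K => Polynomial.C (pc h α)) =
      pc (fun s => (Polynomial.C (h s) : Polynomial B)) := by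
    funext α
    exact pc_map (Polynomial.C) h α
  rw [h1, ev_pc]


/-- CHUNK PC.  Coefficients of `v_i (t)`: `h_{i,0} [l = 0] + ∑ h_{i,b} ξ (b, l)`. -/
theorem coeff_vv (h : HV n K → B) (ξ : JV n r → B) (i : Fin K) (l : Fin (r + 1)) :
    (vv h ξ i).coeff (l : ℕ) =
      (if l = 0 then h (i, 0) else 0) + ∑ b : Fin n, h (i, b.succ) * ξ (b, l) := by
  unfold vv linA
  rw [Polynomial.coeff_add, Polynomial.coeff_C, Polynomial.finsetSum_coeff]
  congr 1
  · have : (l : ℕ) = 0 ↔ l = 0 := by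
      rw [Fin.ext_iff]; rfl
    simp only [this]
  · refine Finset.sum_congr rfl fun b _ => ?_
    rw [Polynomial.coeff_C_mul, coeff_arc, dif_pos l.2]


/-- CHUNK PC.  Naturality of the determinant (`RingHom.map_det`). -/
theorem Wd_map (hr : n ≤ r) (φ : B →+* B') (ξ : JV n r → B) :
    φ (Wd hr ξ) = Wd hr (fun p => φ (ξ p)) := by
  unfold Wd
  rw [RingHom.map_det]
  rfl

end Pool.Agent.H78G
end

-- from Lib.H78G.DD
section

set_option autoImplicit false

/-!
H78G, Part D (analysis): definitions.  `y : ℂ → Fin (m + 1) → ℂ` is a reduced representation of an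
entire curve in `ℙᵐ`, `θ : ι → Fin (m + 1) → ℂ` a finite family of linear forms (hyperplanes).
-/

open MvPolynomial Filter Topology

namespace Pool.Agent.H78G

open Pool.Agent.H89T Pool.Agent.H67T


/-- One plus the sum of the (norms of the) higher logarithmic derivatives up to order `L` of the
quotients `y_j / y_c` and `θ_i (y) / y_c`. -/
noncomputable def LamG {m : ℕ} {ι : Type} [Fintype ι] (y : ℂ → Fin (m + 1) → ℂ)
    (θ : ι → Fin (m + 1) → ℂ) (L : ℕ) (z : ℂ) : ℝ :=
  1 + ∑ c : Fin (m + 1), ∑ j : Fin (m + 1), ∑ l : Fin (L + 1),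
      ‖iteratedDeriv (l : ℕ) (fun w => y w j / y w c) z / (y z j / y z c)‖ +
    ∑ c : Fin (m + 1), ∑ i : ι, ∑ l : Fin (L + 1),
      ‖iteratedDeriv (l : ℕ) (fun w => lin (θ i) (y w) / y w c) z / (lin (θ i) (y z) / y z c)‖

/-- The Wronskian determinant as a polynomial in the jets. -/
noncomputable def WdP {m r : ℕ} (hr : m ≤ r) : MvPolynomial (JV m r) ℂ := Wd hr fun p => X p

/-- The points where no coordinate and no form of the family vanishes. -/
def Good {m : ℕ} {ι : Type} (y : ℂ → Fin (m + 1) → ℂ) (θ : ι → Fin (m + 1) → ℂ) (z : ℂ) : Prop :=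
  (∀ j, y z j ≠ 0) ∧ ∀ i, lin (θ i) (y z) ≠ 0

/-- Data of one nondegenerate curve and of a family of hyperplanes in general position. -/
structure CurveG (m : ℕ) (ι : Type) [Fintype ι] where
  /-- the curve -/
  y : ℂ → Fin (m + 1) → ℂ
  /-- the linear forms -/
  θ : ι → Fin (m + 1) → ℂ
  hy : IsHol y
  hy0 : ∀ c, ∃ z, y z c ≠ 0
  hθ0 : ∀ i, ∃ z, lin (θ i) (y z) ≠ 0
  gen : GenPos θ
  card : m + 1 ≤ Fintype.card ι

/-- The full Wronskian `det (y_j ^ (l))`. -/
noncomputable def Wr {m : ℕ} (y : ℂ → Fin (m + 1) → ℂ) (z : ℂ) : ℂ :=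
  Matrix.det (Matrix.of fun l j : Fin (m + 1) => iteratedDeriv (l : ℕ) (fun w => y w j) z)

end Pool.Agent.H78G
end

-- from Lib.H53Y.D0
section

set_option autoImplicit false

/-!
# H53Y: second main theorem with TOTAL truncation level one for generic hypersurfaces of ALL types
`(d_1, ..., d_q)` with `d_1 + ... + d_q ≥ D₀ (n, ε)`

Definitions.  See PROOF.md.  Blocks `s : β` of coordinates (dimension `m s`), factors `i : ι` (the
factor `i` is a polynomial of degree at most `dg i` in the coordinates of the block `sb i`).  All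
coordinates together are the coordinates of one affine space, `e : Co m ≃ Fin n`.  Everything of
`Lib/H89T` (jets `JV n r`, arcs, `ev`, `Fx`, `uR`, `NN`, `PropA`, `HasMon`, `HasWt`, `QQ`, `ch`, ...) is
reused.
-/

open MvPolynomial

namespace Pool.Agent.H53Y

open Pool.Agent.H89T Pool.Agent.H78G Pool.Agent.H67T

/-- The coordinates of all blocks. -/
abbrev Co {β : Type} (m : β → ℕ) : Type := Σ s : β, Fin (m s)

/-- The coefficients of all factors. -/
abbrev Cf {β ι : Type} (m : β → ℕ) (sb : ι → β) (dg : ι → ℕ) : Type :=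
  Σ i : ι, Idx (m (sb i)) (dg i)

section General

variable {β : Type} [DecidableEq β] {m : β → ℕ} {n r : ℕ} {ι : Type} {sb : ι → β} {dg : ι → ℕ}
variable {B : Type} [CommRing B]

/-- The jet of the block `s`. -/
def bj {B : Type} (e : Co m ≃ Fin n) (ξ : JV n r → B) (s : β) : JV (m s) r → B :=
  fun q => ξ (e ⟨s, q.1⟩, q.2)

/-- The point of the block `s`. -/
def bx {B : Type} (e : Co m ≃ Fin n) (x : Fin n → B) (s : β) : Fin (m s) → B :=
  fun b => x (e ⟨s, b⟩)

/-- The factor `i` on the arc of `ξ`. -/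
noncomputable def fa (e : Co m ≃ Fin n) (a : Cf m sb dg → B) (ξ : JV n r → B) (i : ι) :
    Polynomial B :=
  Fx (fun α => a ⟨i, α⟩) (bj e ξ (sb i))

/-- The value of the factor `i` at the point `x`. -/
def fv (e : Co m ≃ Fin n) (a : Cf m sb dg → B) (x : Fin n → B) (i : ι) : B :=
  ev (fun α => a ⟨i, α⟩) (bx e x (sb i))


/-- The degree of the product of the factors of the block `s`. -/
def Dg [Fintype ι] (sb : ι → β) (dg : ι → ℕ) (s : β) : ℕ :=
  ∑ i ∈ Finset.univ.filter (fun i => sb i = s), dg i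



/-- The `l`-th Taylor coefficient of the factor `i` on the arc of the generic jet. -/
noncomputable def us (e : Co m ≃ Fin n) (a : Cf m sb dg → B) (i : ι) (l : ℕ) :
    MvPolynomial (JV n r) B :=
  uu (fun α => C (a ⟨i, α⟩)) (bj e (fun q => X q) (sb i)) l

/-- The ideal of the pair `(i, i')` of factors: tangency for `i = i'`, crossing for `i ≠ i'`. -/
noncomputable def IG [DecidableEq ι] (e : Co m ≃ Fin n) (a : Cf m sb dg → B) (i i' : ι) :
    Ideal (MvPolynomial (JV n r) B) :=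
  if i = i' then Ideal.span {us e a i 0, us e a i 1} else Ideal.span {us e a i 0, us e a i' 0}

/-- Property (A) for the pairs of factors: the first `q` derivatives of `P` belong to all the ideals
`IG e a i i'`. -/
def PropG [DecidableEq ι] (e : Co m ≃ Fin n) (a : Cf m sb dg → B) (q : ℕ)
    (P : MvPolynomial (JV n r) B) : Prop :=
  ∀ l < q, ∀ i i' : ι, (NN n r B)^[l] P ∈ IG e a i i'

end General


/-- The data of one curve (Part D).  `y` is the curve in the projective space of dimension `N`,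
`w s` its coordinates in the block `s` (forms of degree `eg s` in `y`), `F i` the factors. -/
structure CurveY (N : ℕ) {β : Type} (m : β → ℕ) (ι : Type) [Fintype ι] (sb : ι → β)
    (dg : ι → ℕ) where
  /-- the curve -/
  y : ℂ → Fin (N + 1) → ℂ
  /-- the coordinates in the blocks -/
  w : (s : β) → ℂ → Fin (m s + 1) → ℂ
  /-- the degree of `w s` in `y` -/
  eg : β → ℕ
  /-- the factors -/
  F : (i : ι) → MvPolynomial (Fin (m (sb i) + 1)) ℂ
  hy : IsHol y
  hw : ∀ s j, Differentiable ℂ fun z => w s z j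
  hwle : ∀ s, ∃ A : ℝ, ∀ z, ‖w s z‖ ≤ A * ‖y z‖ ^ eg s
  hwge : ∀ s, ∃ δ : ℝ, 0 < δ ∧ ∀ z, δ * ‖y z‖ ^ eg s ≤ ‖w s z‖
  hw0 : ∀ s j, ∃ z, w s z j ≠ 0
  hF : ∀ i, (F i).IsHomogeneous (dg i)
  hF0 : ∀ i, ∃ z, eval (w (sb i) z) (F i) ≠ 0

namespace CurveY

variable {N : ℕ} {β : Type} {m : β → ℕ} {ι : Type} [Fintype ι] {sb : ι → β} {dg : ι → ℕ}
variable (D : CurveY N m ι sb dg)

/-- The function `F i (w)`. -/
noncomputable def φ (i : ι) (z : ℂ) : ℂ := eval (D.w (sb i) z) (D.F i)

/-- The coefficients of the factors in the charts `0`. -/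
noncomputable def a (x : Cf m sb dg) : ℂ := cfF (dg x.1) 0 (D.F x.1) x.2

/-- The coefficient vectors of the factors of the block `s`, for small blocks (linear forms). -/
noncomputable def θ (s : β) (x : {i : ι // sb i = s}) : Fin (m s + 1) → ℂ :=
  fun b => coeff (Finsupp.single (Fin.cast (by rw [x.2]) b) 1) (D.F x.1)

/-- All affine coordinates in the charts `0`. -/
noncomputable def f {n : ℕ} (e : Co m ≃ Fin n) (z : ℂ) (b : Fin n) : ℂ :=
  ch 0 (D.w (e.symm b).1) z (e.symm b).2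

end CurveY

end Pool.Agent.H53Y
end

-- from Lib.H53Y.IDE
section

set_option autoImplicit false

/-!
H53Y, interface: the main theorems of the modules A + C, D, E (statements only; the modules prove
theorems with these statements in their own files, this file is not imported by anything final).
-/

open MvPolynomial Real MeasureTheory

namespace Pool.Agent.H53Y

open Pool.Agent.H89T Pool.Agent.H78G Pool.Agent.H67T



/-- The form `f ∘ A`, `A` a matrix. -/
noncomputable def subM {n : ℕ} (A : Matrix (Fin (n + 1)) (Fin (n + 1)) ℂ)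
    (F : MvPolynomial (Fin (n + 1)) ℂ) : MvPolynomial (Fin (n + 1)) ℂ :=
  aeval (fun i => ∑ j, C (A i j) * X j) F

/-- The multiples of the linear equations `X (inr i) + ∑ b, s i b X (inl b.succ)`. -/
noncomputable def psi {n c : ℕ} (s : Fin c → Fin n → ℂ)
    (E : Fin c → MvPolynomial (Fin (n + 1) ⊕ Fin c) ℂ) : MvPolynomial (Fin (n + 1) ⊕ Fin c) ℂ :=
  ∑ i, (X (Sum.inr i) + ∑ b, C (s i b) * X (Sum.inl b.succ)) * E i

/-- The coefficients of forms of degrees `d j` in the variables `ν`. -/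
abbrev FV {ιL : Type} (ν : Type) [Fintype ν] [DecidableEq ν] (d : ιL → ℕ) : Type :=
  Σ j : ιL, Ex ν (d j)

/-- The coefficients of linear forms in `mm x + 1` variables. -/
abbrev LV {κ : Type} (mm : κ → ℕ) : Type := Σ x : κ, Fin (mm x + 1)

/-- The form of index `j`. -/
noncomputable def fmj {ιL ν : Type} [Fintype ν] [DecidableEq ν] {d : ιL → ℕ} (f : FV ν d → ℂ)
    (j : ιL) : MvPolynomial ν ℂ := fm (fun δ : Ex ν (d j) => f ⟨j, δ⟩)

/-- The coefficients of the extended forms. -/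
noncomputable def extC {ιL : Type} {n c : ℕ} {d : ιL → ℕ} (f : FV (Fin (n + 1)) d → ℂ)
    (A : Matrix (Fin (n + 1)) (Fin (n + 1)) ℂ) (lam : ιL → ℂ) (s : Fin c → Fin n → ℂ)
    (E : ιL → Fin c → MvPolynomial (Fin (n + 1) ⊕ Fin c) ℂ) :
    FV (Fin (n + 1) ⊕ Fin c) d → ℂ :=
  fun x => coeff x.2.1 (big ℂ (lam x.1) (psi s (E x.1)) (subM A (fmj f x.1)))

/-- The coefficients of the restricted linear forms. -/
noncomputable def resC {κ σ : Type} {m mv : σ → ℕ} {sx : κ → σ}
    (η : LV (fun x => mv (sx x)) → ℂ)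
    (Lam : (s : σ) → Matrix (Fin (mv s + 1)) (Fin (m s + 1)) ℂ) (Q : κ → Prop) :
    LV (fun x : {x : κ // Q x} => m (sx x.1)) → ℂ :=
  fun x => ∑ l, η ⟨x.1.1, l⟩ * Lam (sx x.1.1) l x.2


end Pool.Agent.H53Y
end

-- from Lib.H78B.B0
section

set_option autoImplicit false

/-!
H78B: module E of Lib/H53Y (no exceptional set).  Definitions.  See PROOF.md.
-/

open MvPolynomial

namespace Pool.Agent.H78B

open Pool.Agent.H89T Pool.Agent.H53Y

section defs

variable {B : Type} [CommRing B] {n c : ℕ}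

/-- The form `F ∘ A`. -/
noncomputable def subB (A : Matrix (Fin (n + 1)) (Fin (n + 1)) B)
    (F : MvPolynomial (Fin (n + 1)) B) : MvPolynomial (Fin (n + 1)) B :=
  aeval (fun i => ∑ j, C (A i j) * X j) F

/-- The form of index `j`. -/
noncomputable def fmB {ιL ν : Type} [Fintype ν] [DecidableEq ν] {d : ιL → ℕ} (f : FV ν d → B)
    (j : ιL) : MvPolynomial ν B := fm (fun δ : Ex ν (d j) => f ⟨j, δ⟩)


/-- The coefficients of the restricted linear forms. -/
noncomputable def resB {κ σ : Type} {m mv : σ → ℕ} {sx : κ → σ}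
    (η : LV (fun x => mv (sx x)) → B)
    (Lam : (s : σ) → Matrix (Fin (mv s + 1)) (Fin (m s + 1)) B) (Q : κ → Prop) :
    LV (fun x : {x : κ // Q x} => m (sx x.1)) → B :=
  fun x => ∑ l, η ⟨x.1.1, l⟩ * Lam (sx x.1.1) l x.2





end defs

end Pool.Agent.H78B
end
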