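import Pool.Agent.Lib.H1M.PB.M026

/-! Merged copies (to shorten the build) of Lib.H53U.AD, Lib.H53U.AU5, Lib.H53U.AU6. -/

-- from Lib.H53U.AD
section

set_option autoImplicit false

/-!
H53U, module A (section 1 of PROOF.md): definitions and basic lemmas.

`WW N A m` is `W (A, m)`: the polynomials over `ℂ` of degree at most `A` in `x` and homogeneous of
degree `m` in `v` (`A`, `m` integers; it is `0` if `A < 0` or `m < 0`).  A generator `(p, q, f)` is a
polynomial `f` in `WW N p q` with its type `(p, q)`.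
-/

open MvPolynomial

namespace Pool.Agent.H53U

open Pool.Agent.H89T Pool.Agent.H67T

section Upper

variable {N : ℕ}

/-- The monomials of degree at most `A` in `x` and of degree `m` in `v`. -/
def mons (N : ℕ) (A m : ℤ) : Set (JV N 1 →₀ ℕ) := {μ | (xdeg μ : ℤ) ≤ A ∧ (vdeg μ : ℤ) = m}

/-- The space `W (A, m)`. -/
noncomputable def WW (N : ℕ) (A m : ℤ) : Submodule ℂ (MvPolynomial (JV N 1) ℂ) :=
  MvPolynomial.restrictSupport ℂ (mons N A m)

/-- Generators with their types. -/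
abbrev Gn (N : ℕ) : Type := ℤ × ℤ × MvPolynomial (JV N 1) ℂ

/-- The part of type `(A, m)` of the ideal generated by `G`. -/
noncomputable def Gr (G : Set (Gn N)) (A m : ℤ) : Submodule ℂ (MvPolynomial (JV N 1) ℂ) :=
  Submodule.span ℂ {w | ∃ g ∈ G, ∃ h ∈ WW N (A - g.1) (m - g.2.1), w = g.2.2 * h}



theorem mem_WW {A m : ℤ} {P : MvPolynomial (JV N 1) ℂ} :
    P ∈ WW N A m ↔ ∀ μ ∈ P.support, (xdeg μ : ℤ) ≤ A ∧ (vdeg μ : ℤ) = m := by
  rw [WW, mem_restrictSupport_iff]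
  rfl

theorem xdeg_add (μ ν : JV N 1 →₀ ℕ) : xdeg (μ + ν) = xdeg μ + xdeg ν := by
  simp [xdeg, Finset.sum_add_distrib]

theorem vdeg_add (μ ν : JV N 1 →₀ ℕ) : vdeg (μ + ν) = vdeg μ + vdeg ν := by
  simp [vdeg, Finset.sum_add_distrib]




theorem mul_mem_Gr {G : Set (Gn N)} {g : Gn N} (hg : g ∈ G) {A m : ℤ}
    {h : MvPolynomial (JV N 1) ℂ} (hh : h ∈ WW N (A - g.1) (m - g.2.1)) :
    g.2.2 * h ∈ Gr G A m :=
  Submodule.subset_span ⟨g, hg, h, hh, rfl⟩





/-- The linear form `1 + ∑ t ^ b x_b` (`b = 1, ..., N`). -/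
noncomputable def ell (N : ℕ) (t : ℂ) : MvPolynomial (JV N 1) ℂ :=
  1 + ∑ b : Fin N, C (t ^ ((b : ℕ) + 1)) * X (b, 0)

/-- Its derivative `∑ t ^ b v_b`. -/
noncomputable def ell' (N : ℕ) (t : ℂ) : MvPolynomial (JV N 1) ℂ :=
  ∑ b : Fin N, C (t ^ ((b : ℕ) + 1)) * X (b, 1)






end Upper

end Pool.Agent.H53U
end

-- from Lib.H53U.AU5
section

set_option autoImplicit false

/-!
H53U, module A: Vandermonde coefficients.
-/

open MvPolynomial

namespace Pool.Agent.H53U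

open Pool.Agent.H89T Pool.Agent.H67T

/-- CHUNK AU5 (S/M).
PROOF.  Enumerate `X` as `s : Fin r → ℂ`, injective (`Finset.equivFin` or `X.equivFinOfCardEq hX`).
The matrix `M i b' = (s i) ^ (b' + 1)`, `i b' : Fin r`, is the product of the diagonal matrix of the
`s i` and the Vandermonde matrix, so its determinant is `(∏ s i) * det (vandermonde s) ≠ 0`
(`Matrix.det_vandermonde_ne_zero_iff`).  Take `u i` := the entries of the row vector
`Pi.single b 1 ᵥ* M⁻¹`, and `u t := u (index of t)` (extended arbitrarily outside `X`). -/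
theorem vand {r : ℕ} {X : Finset ℂ} (hX : X.card = r) (h0 : ∀ t ∈ X, t ≠ 0) {b : ℕ} (hb : b < r) :
    ∃ u : ℂ → ℂ, ∀ b' < r, ∑ t ∈ X, u t * t ^ (b' + 1) = if b' = b then 1 else 0 := by
  have _ := hb
  refine ⟨fun t => (Lagrange.basis X id t).coeff b / t, ?_⟩
  intro b' hb'
  have h1 : (Polynomial.X ^ b' : Polynomial ℂ) =
      Lagrange.interpolate X id fun t => (Polynomial.X ^ b' : Polynomial ℂ).eval (id t) := by
    apply Lagrange.eq_interpolate
    · exact Function.injective_id.injOn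
    · rw [Polynomial.degree_X_pow, hX]
      exact_mod_cast hb'
  have h2 := congrArg (fun p : Polynomial ℂ => p.coeff b) h1
  simp only [Lagrange.interpolate_apply, Polynomial.finsetSum_coeff, Polynomial.coeff_C_mul,
    Polynomial.eval_pow, Polynomial.eval_X, id, Polynomial.coeff_X_pow] at h2
  have h3 : (if b' = b then (1 : ℂ) else 0) = if b = b' then 1 else 0 := by
    simp only [eq_comm]
  rw [h3, h2]
  refine Finset.sum_congr rfl fun t ht => ?_
  have ht0 := h0 t ht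
  rw [pow_succ]
  field_simp

end Pool.Agent.H53U
end

-- from Lib.H53U.AU6
section

set_option autoImplicit false

/-!
H53U, module A: elimination of variables.
-/

open MvPolynomial

namespace Pool.Agent.H53U

open Pool.Agent.H89T Pool.Agent.H67T

theorem au6_comb {N r : ℕ} {X' : Finset ℂ} (hX : X'.card = r) (h0 : ∀ t ∈ X', t ≠ 0) {b : Fin N}
    (hb : (b : ℕ) < r) (ε : Fin 2) :
    ∃ (u : ℂ → ℂ) (w : Fin N → ℂ),
      ∑ t ∈ X', C (u t) * (∑ b' : Fin N, C (t ^ ((b' : ℕ) + 1)) * X (b', ε)) =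
        (X (b, ε) : MvPolynomial (JV N 1) ℂ) +
          ∑ b' ∈ Finset.univ.filter (fun b' : Fin N => ¬ (b' : ℕ) < r), C (w b') * X (b', ε) := by
  classical
  obtain ⟨u, hu⟩ := vand hX h0 hb
  refine ⟨u, fun b' => ∑ t ∈ X', u t * t ^ ((b' : ℕ) + 1), ?_⟩
  have h1 : ∑ t ∈ X', C (u t) * (∑ b' : Fin N, C (t ^ ((b' : ℕ) + 1)) * X (b', ε)) =
      ∑ b' : Fin N, (C (∑ t ∈ X', u t * t ^ ((b' : ℕ) + 1)) * X (b', ε) :
        MvPolynomial (JV N 1) ℂ) := by
    simp only [Finset.mul_sum]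
    rw [Finset.sum_comm]
    refine Finset.sum_congr rfl fun b' _ => ?_
    rw [map_sum, Finset.sum_mul]
    refine Finset.sum_congr rfl fun t _ => ?_
    rw [map_mul]
    ring
  rw [h1, ← Finset.sum_filter_add_sum_filter_not Finset.univ (fun b' : Fin N => (b' : ℕ) < r)]
  congr 1
  rw [Finset.sum_eq_single b]
  · rw [hu b hb, if_pos rfl, C_1, one_mul]
  · intro b' hb' hne
    rw [Finset.mem_filter] at hb'
    rw [hu b' hb'.2, if_neg (fun h => hne (Fin.ext h)), C_0, zero_mul]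
  · intro h
    exact (h (Finset.mem_filter.2 ⟨Finset.mem_univ b, hb⟩)).elim

/-- the height -/
noncomputable def au6_h (N r q : ℕ) (μ : JV N 1 →₀ ℕ) : ℕ :=
  ∑ b ∈ Finset.univ.filter (fun b : Fin N => (b : ℕ) < r), μ (b, 0) +
    ∑ b ∈ Finset.univ.filter (fun b : Fin N => (b : ℕ) < q), μ (b, 1)

theorem au6_h_add {N r q : ℕ} (μ ν : JV N 1 →₀ ℕ) :
    au6_h N r q (μ + ν) = au6_h N r q μ + au6_h N r q ν := by
  simp only [au6_h, Finsupp.add_apply, Finset.sum_add_distrib]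
  ring

theorem au6_x {N : ℕ} (b : Fin N) :
    xdeg (Finsupp.single (b, 0) 1 : JV N 1 →₀ ℕ) = 1 ∧
      vdeg (Finsupp.single (b, 0) 1 : JV N 1 →₀ ℕ) = 0 := by
  classical
  constructor
  · unfold xdeg
    rw [Finset.sum_eq_single b]
    · simp
    · intro b' _ hne
      rw [Finsupp.single_apply, if_neg]
      intro h
      exact hne (congrArg Prod.fst h).symm
    · intro h
      exact absurd (Finset.mem_univ _) h
  · unfold vdeg
    apply Finset.sum_eq_zero
    intro b' _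
    rw [Finsupp.single_apply, if_neg]
    intro h
    have h2 := congrArg Prod.snd h
    exact absurd h2 (by simp)

theorem au6_v {N : ℕ} (b : Fin N) :
    xdeg (Finsupp.single (b, 1) 1 : JV N 1 →₀ ℕ) = 0 ∧
      vdeg (Finsupp.single (b, 1) 1 : JV N 1 →₀ ℕ) = 1 := by
  classical
  constructor
  · unfold xdeg
    apply Finset.sum_eq_zero
    intro b' _
    rw [Finsupp.single_apply, if_neg]
    intro h
    have h2 := congrArg Prod.snd h
    exact absurd h2 (by simp)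
  · unfold vdeg
    rw [Finset.sum_eq_single b]
    · simp
    · intro b' _ hne
      rw [Finsupp.single_apply, if_neg]
      intro h
      exact hne (congrArg Prod.fst h).symm
    · intro h
      exact absurd (Finset.mem_univ _) h

theorem au6_hx0 {N r q : ℕ} {b : Fin N} (hb : ¬ (b : ℕ) < r) :
    au6_h N r q (Finsupp.single (b, 0) 1) = 0 := by
  classical
  unfold au6_h
  have e1 : ∑ b' ∈ Finset.univ.filter (fun b : Fin N => (b : ℕ) < r),
      (Finsupp.single ((b, 0) : JV N 1) 1 : JV N 1 →₀ ℕ) (b', 0) = 0 := by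
    apply Finset.sum_eq_zero
    intro b' hb'
    rw [Finset.mem_filter] at hb'
    rw [Finsupp.single_apply, if_neg]
    intro h
    have h2 : b = b' := congrArg Prod.fst h
    rw [h2] at hb
    exact hb hb'.2
  have e2 : ∑ b' ∈ Finset.univ.filter (fun b : Fin N => (b : ℕ) < q),
      (Finsupp.single ((b, 0) : JV N 1) 1 : JV N 1 →₀ ℕ) (b', 1) = 0 := by
    apply Finset.sum_eq_zero
    intro b' _
    rw [Finsupp.single_apply, if_neg]
    intro h
    have h2 := congrArg Prod.snd h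
    exact absurd h2 (by simp)
  rw [e1, e2]

theorem au6_hv0 {N r q : ℕ} {b : Fin N} (hb : ¬ (b : ℕ) < q) :
    au6_h N r q (Finsupp.single (b, 1) 1) = 0 := by
  classical
  unfold au6_h
  have e1 : ∑ b' ∈ Finset.univ.filter (fun b : Fin N => (b : ℕ) < q),
      (Finsupp.single ((b, 1) : JV N 1) 1 : JV N 1 →₀ ℕ) (b', 1) = 0 := by
    apply Finset.sum_eq_zero
    intro b' hb'
    rw [Finset.mem_filter] at hb'
    rw [Finsupp.single_apply, if_neg]
    intro h
    have h2 : b = b' := congrArg Prod.fst h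
    rw [h2] at hb
    exact hb hb'.2
  have e2 : ∑ b' ∈ Finset.univ.filter (fun b : Fin N => (b : ℕ) < r),
      (Finsupp.single ((b, 1) : JV N 1) 1 : JV N 1 →₀ ℕ) (b', 0) = 0 := by
    apply Finset.sum_eq_zero
    intro b' _
    rw [Finsupp.single_apply, if_neg]
    intro h
    have h2 := congrArg Prod.snd h
    exact absurd h2 (by simp)
  rw [e1, e2]

theorem au6_hx1 {N r q : ℕ} {b : Fin N} (hb : (b : ℕ) < r) :
    0 < au6_h N r q (Finsupp.single (b, 0) 1) := by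
  classical
  unfold au6_h
  have h1 : (Finsupp.single ((b, 0) : JV N 1) 1 : JV N 1 →₀ ℕ) (b, 0) ≤
      ∑ b' ∈ Finset.univ.filter (fun b : Fin N => (b : ℕ) < r),
        (Finsupp.single ((b, 0) : JV N 1) 1 : JV N 1 →₀ ℕ) (b', 0) :=
    Finset.single_le_sum (f := fun b' : Fin N =>
      (Finsupp.single ((b, 0) : JV N 1) 1 : JV N 1 →₀ ℕ) (b', 0)) (fun _ _ => Nat.zero_le _)
      (Finset.mem_filter.2 ⟨Finset.mem_univ b, hb⟩)
  rw [Finsupp.single_eq_same] at h1
  omega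

theorem au6_hv1 {N r q : ℕ} {b : Fin N} (hb : (b : ℕ) < q) :
    0 < au6_h N r q (Finsupp.single (b, 1) 1) := by
  classical
  unfold au6_h
  have h1 : (Finsupp.single ((b, 1) : JV N 1) 1 : JV N 1 →₀ ℕ) (b, 1) ≤
      ∑ b' ∈ Finset.univ.filter (fun b : Fin N => (b : ℕ) < q),
        (Finsupp.single ((b, 1) : JV N 1) 1 : JV N 1 →₀ ℕ) (b', 1) :=
    Finset.single_le_sum (f := fun b' : Fin N =>
      (Finsupp.single ((b, 1) : JV N 1) 1 : JV N 1 →₀ ℕ) (b', 1)) (fun _ _ => Nat.zero_le _)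
      (Finset.mem_filter.2 ⟨Finset.mem_univ b, hb⟩)
  rw [Finsupp.single_eq_same] at h1
  omega

theorem au6_monW {N : ℕ} {A m : ℤ} {μ : JV N 1 →₀ ℕ} (h1 : (xdeg μ : ℤ) ≤ A)
    (h2 : (vdeg μ : ℤ) = m) : monomial μ (1 : ℂ) ∈ WW N A m := by
  classical
  rw [mem_WW]
  intro ν hν
  have h3 : ν = μ := by
    by_contra hne
    rw [mem_support_iff, coeff_monomial, if_neg (Ne.symm hne)] at hν
    exact hν rfl
  rw [h3]
  exact ⟨h1, h2⟩

theorem au6_split {N : ℕ} {μ : JV N 1 →₀ ℕ} {p : JV N 1} (h : μ p ≠ 0) :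
    ∃ μ' : JV N 1 →₀ ℕ, μ = Finsupp.single p 1 + μ' := by
  classical
  refine ⟨μ - Finsupp.single p 1, ?_⟩
  rw [add_tsub_cancel_of_le]
  rw [Finsupp.single_le_iff]
  omega

theorem au6_X {N : ℕ} (p : JV N 1) (μ : JV N 1 →₀ ℕ) :
    (X p * monomial μ (1 : ℂ) : MvPolynomial (JV N 1) ℂ) =
      monomial (Finsupp.single p 1 + μ) 1 := by
  rw [X, monomial_mul, one_mul]

theorem au6_r1 {R : Type*} [CommRing R] (c S q : R) : c * S * q = c * ((1 + S) * q) - c * (1 * q) := by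
  ring

theorem au6_stepx {N r : ℕ} {X' : Finset ℂ} (hX' : X'.card = r) (h0 : ∀ t ∈ X', t ≠ 0) {b : Fin N}
    (hb : (b : ℕ) < r) (μ' : JV N 1 →₀ ℕ) (T : Submodule ℂ (MvPolynomial (JV N 1) ℂ))
    (h1 : ∀ t ∈ X', ell N t * monomial μ' (1 : ℂ) ∈ T)
    (h2 : (1 : MvPolynomial (JV N 1) ℂ) * monomial μ' (1 : ℂ) ∈ T)
    (h3 : ∀ b' : Fin N, ¬ (b' : ℕ) < r → monomial (Finsupp.single (b', 0) 1 + μ') (1 : ℂ) ∈ T) :
    monomial (Finsupp.single (b, 0) 1 + μ') (1 : ℂ) ∈ T := by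
  classical
  obtain ⟨u, w, huw⟩ := au6_comb hX' h0 hb 0
  have key : monomial (Finsupp.single (b, 0) 1 + μ') (1 : ℂ) =
      ∑ t ∈ X', u t • (ell N t * monomial μ' (1 : ℂ)) -
      (∑ t ∈ X', u t) • ((1 : MvPolynomial (JV N 1) ℂ) * monomial μ' (1 : ℂ)) -
      ∑ b' ∈ Finset.univ.filter (fun b' : Fin N => ¬ (b' : ℕ) < r),
        w b' • monomial (Finsupp.single (b', 0) 1 + μ') (1 : ℂ) := by
    have e1 : ∀ b' : Fin N, monomial (Finsupp.single (b', 0) 1 + μ') (1 : ℂ) =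
        MvPolynomial.X (b', 0) * monomial μ' (1 : ℂ) := fun b' => (au6_X _ _).symm
    simp only [e1, smul_eq_C_mul]
    generalize monomial μ' (1 : ℂ) = Q
    have e2 : (MvPolynomial.X (b, 0) : MvPolynomial (JV N 1) ℂ) =
        ∑ t ∈ X', C (u t) * (∑ b' : Fin N, C (t ^ ((b' : ℕ) + 1)) * MvPolynomial.X (b', 0)) -
        ∑ b' ∈ Finset.univ.filter (fun b' : Fin N => ¬ (b' : ℕ) < r),
          C (w b') * MvPolynomial.X (b', 0) := by
      rw [huw]
      ring
    rw [e2, sub_mul, Finset.sum_mul, Finset.sum_mul, map_sum, Finset.sum_mul,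
      ← Finset.sum_sub_distrib]
    refine congrArg₂ (fun x y => x - y) ?_ ?_
    · refine Finset.sum_congr rfl fun t _ => ?_
      exact au6_r1 _ _ _
    · refine Finset.sum_congr rfl fun b' _ => ?_
      exact mul_assoc _ _ _
  rw [key]
  refine Submodule.sub_mem _ (Submodule.sub_mem _ ?_ ?_) ?_
  · exact Submodule.sum_mem _ fun t ht => Submodule.smul_mem _ _ (h1 t ht)
  · exact Submodule.smul_mem _ _ h2
  · exact Submodule.sum_mem _ fun b' hb' => Submodule.smul_mem _ _ (h3 b' (Finset.mem_filter.1 hb').2)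

theorem au6_stepv {N q : ℕ} {X' : Finset ℂ} (hX' : X'.card = q) (h0 : ∀ t ∈ X', t ≠ 0) {b : Fin N}
    (hb : (b : ℕ) < q) (μ' : JV N 1 →₀ ℕ) (T : Submodule ℂ (MvPolynomial (JV N 1) ℂ))
    (h1 : ∀ t ∈ X', ell' N t * monomial μ' (1 : ℂ) ∈ T)
    (h3 : ∀ b' : Fin N, ¬ (b' : ℕ) < q → monomial (Finsupp.single (b', 1) 1 + μ') (1 : ℂ) ∈ T) :
    monomial (Finsupp.single (b, 1) 1 + μ') (1 : ℂ) ∈ T := by
  classical
  obtain ⟨u, w, huw⟩ := au6_comb hX' h0 hb 1
  have key : monomial (Finsupp.single (b, 1) 1 + μ') (1 : ℂ) =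
      ∑ t ∈ X', u t • (ell' N t * monomial μ' (1 : ℂ)) -
      ∑ b' ∈ Finset.univ.filter (fun b' : Fin N => ¬ (b' : ℕ) < q),
        w b' • monomial (Finsupp.single (b', 1) 1 + μ') (1 : ℂ) := by
    have e1 : ∀ b' : Fin N, monomial (Finsupp.single (b', 1) 1 + μ') (1 : ℂ) =
        MvPolynomial.X (b', 1) * monomial μ' (1 : ℂ) := fun b' => (au6_X _ _).symm
    simp only [e1, smul_eq_C_mul]
    generalize monomial μ' (1 : ℂ) = Q
    have e2 : (MvPolynomial.X (b, 1) : MvPolynomial (JV N 1) ℂ) =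
        ∑ t ∈ X', C (u t) * (∑ b' : Fin N, C (t ^ ((b' : ℕ) + 1)) * MvPolynomial.X (b', 1)) -
        ∑ b' ∈ Finset.univ.filter (fun b' : Fin N => ¬ (b' : ℕ) < q),
          C (w b') * MvPolynomial.X (b', 1) := by
      rw [huw]
      ring
    rw [e2, sub_mul, Finset.sum_mul, Finset.sum_mul]
    refine congrArg₂ (fun x y => x - y) ?_ ?_
    · refine Finset.sum_congr rfl fun t _ => ?_
      exact mul_assoc _ _ _
    · refine Finset.sum_congr rfl fun b' _ => ?_
      exact mul_assoc _ _ _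
  rw [key]
  refine Submodule.sub_mem _ ?_ ?_
  · exact Submodule.sum_mem _ fun t ht => Submodule.smul_mem _ _ (h1 t ht)
  · exact Submodule.sum_mem _ fun b' hb' => Submodule.smul_mem _ _ (h3 b' (Finset.mem_filter.1 hb').2)

/-- CHUNK AU6 (M).
PROOF.  If `xdeg μ < A` the monomial is `1 * (monomial μ 1)` with `monomial μ 1 ∈ WW N (A - 1) m`, so it
is in `Gr G A m` by `h1`.  So let `xdeg μ = A` and induct on
`h μ := ∑_{b < r} μ (b, 0) + ∑_{b < q} μ (b, 1)` (strong induction, all `μ` with `xdeg μ ≤ A`,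
`vdeg μ = m`).  If `h μ = 0`, `μ` is one of the `ν` on the right hand side.
If `μ (b, 0) ≠ 0` for some `b < r`: `μ = single (b, 0) 1 + μ'`.  `r ≤ X.card`, so choose
`X' ⊆ X` with `X'.card = r` (`Finset.exists_subset_card_eq`) and `u` as in `vand` for `X'`.  Then
`∑_{t ∈ X'} u t * ell N t = ∑ u t + X (b, 0) + ∑_{b' ≥ r} (∑_t u t * t ^ (b' + 1)) X (b', 0)`, so
`monomial μ 1 = X (b, 0) * monomial μ' 1` is the sum of `∑ u t * (ell N t * monomial μ' 1)`
(in `Gr G A m` as `monomial μ' 1 ∈ WW N (A - 1) m`), of a multiple of `1 * monomial μ' 1` (in `Gr G A m`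
by `h1`), and of multiples of `monomial (single (b', 0) 1 + μ') 1`, `r ≤ b'`, to which the induction
hypothesis applies (`h` is smaller by one).
If `μ (b, 1) ≠ 0` for some `b < q`: the same with `Y`, `ell'` (no constant term),
`monomial μ' 1 ∈ WW N A (m - 1)`. -/
theorem elim {N r q : ℕ} {G : Set (Gn N)} {X Y : Finset ℂ} (hrN : r ≤ N) (hqN : q ≤ N)
    (hr : r ≤ X.card) (hq : q ≤ Y.card) (hX0 : ∀ t ∈ X, t ≠ 0) (hY0 : ∀ t ∈ Y, t ≠ 0)
    (h1 : ((1 : ℤ), (0 : ℤ), (1 : MvPolynomial (JV N 1) ℂ)) ∈ G)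
    (hX : ∀ t ∈ X, ((1 : ℤ), (0 : ℤ), ell N t) ∈ G)
    (hY : ∀ t ∈ Y, ((0 : ℤ), (1 : ℤ), ell' N t) ∈ G) {A m : ℤ} {μ : JV N 1 →₀ ℕ}
    (hA : (xdeg μ : ℤ) ≤ A) (hm : (vdeg μ : ℤ) = m) :
    monomial μ (1 : ℂ) ∈ Gr G A m ⊔ Submodule.span ℂ ((fun ν => monomial ν (1 : ℂ)) ''
      {ν : JV N 1 →₀ ℕ | (xdeg ν : ℤ) = A ∧ (vdeg ν : ℤ) = m ∧ (∀ b : Fin N, (b : ℕ) < r →
        ν (b, 0) = 0) ∧ ∀ b : Fin N, (b : ℕ) < q → ν (b, 1) = 0}) := by
  classical
  have _ := hrN
  have _ := hqN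
  obtain ⟨n, hn⟩ : ∃ n, au6_h N r q μ = n := ⟨_, rfl⟩
  induction n using Nat.strong_induction_on generalizing μ with
  | _ n ih =>
  by_cases hlt : (xdeg μ : ℤ) < A
  · refine Submodule.mem_sup_left ?_
    have h2 := mul_mem_Gr h1 (A := A) (m := m) (h := monomial μ (1 : ℂ))
      (au6_monW (by simp only; omega) (by simp only; omega))
    simpa using h2
  have hAe : (xdeg μ : ℤ) = A := le_antisymm hA (not_lt.1 hlt)
  by_cases hx : ∃ b : Fin N, (b : ℕ) < r ∧ μ (b, 0) ≠ 0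
  · obtain ⟨b, hb, hb0⟩ := hx
    obtain ⟨μ', rfl⟩ := au6_split hb0
    obtain ⟨X', hX'X, hX'⟩ := Finset.exists_subset_card_eq hr
    have hd1 : (xdeg μ' : ℤ) = A - 1 := by
      rw [xdeg_add, (au6_x b).1] at hAe
      push_cast at hAe
      linarith
    have hd2 : (vdeg μ' : ℤ) = m := by
      rw [vdeg_add, (au6_x b).2] at hm
      push_cast at hm
      linarith
    have hW : monomial μ' (1 : ℂ) ∈ WW N (A - 1) (m - 0) :=
      au6_monW (by omega) (by omega)
    refine au6_stepx hX' (fun t ht => hX0 t (hX'X ht)) hb μ' _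
      (fun t ht => Submodule.mem_sup_left (mul_mem_Gr (hX t (hX'X ht)) hW))
      (Submodule.mem_sup_left (mul_mem_Gr h1 hW)) ?_
    intro b' hb'
    refine ih (au6_h N r q (Finsupp.single (b', 0) 1 + μ')) ?_ ?_ ?_ rfl
    · rw [← hn, au6_h_add, au6_h_add, au6_hx0 hb']
      have := au6_hx1 (q := q) hb
      omega
    · rw [xdeg_add, (au6_x b').1]
      push_cast
      omega
    · rw [vdeg_add, (au6_x b').2]
      push_cast
      omega
  by_cases hy : ∃ b : Fin N, (b : ℕ) < q ∧ μ (b, 1) ≠ 0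
  · obtain ⟨b, hb, hb0⟩ := hy
    obtain ⟨μ', rfl⟩ := au6_split hb0
    obtain ⟨X', hX'X, hX'⟩ := Finset.exists_subset_card_eq hq
    have hd1 : (xdeg μ' : ℤ) = A := by
      rw [xdeg_add, (au6_v b).1] at hAe
      push_cast at hAe
      linarith
    have hd2 : (vdeg μ' : ℤ) = m - 1 := by
      rw [vdeg_add, (au6_v b).2] at hm
      push_cast at hm
      linarith
    have hW : monomial μ' (1 : ℂ) ∈ WW N (A - 0) (m - 1) :=
      au6_monW (by omega) (by omega)
    refine au6_stepv hX' (fun t ht => hY0 t (hX'X ht)) hb μ' _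
      (fun t ht => Submodule.mem_sup_left (mul_mem_Gr (hY t (hX'X ht)) hW)) ?_
    intro b' hb'
    refine ih (au6_h N r q (Finsupp.single (b', 1) 1 + μ')) ?_ ?_ ?_ rfl
    · rw [← hn, au6_h_add, au6_h_add, au6_hv0 hb']
      have := au6_hv1 (r := r) hb
      omega
    · rw [xdeg_add, (au6_v b').1]
      push_cast
      omega
    · rw [vdeg_add, (au6_v b').2]
      push_cast
      omega
  refine Submodule.mem_sup_right (Submodule.subset_span ⟨μ, ⟨hAe, hm, ?_, ?_⟩, rfl⟩)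
  · intro b hb
    by_contra h
    exact hx ⟨b, hb, h⟩
  · intro b hb
    by_contra h
    exact hy ⟨b, hb, h⟩

end Pool.Agent.H53U
end
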