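import Pool.Agent.Lib.H1M.PB.M026

/-! Merged copies (to shorten the build) of Lib.H53V.R1, Lib.H78M.D0, Lib.H78M.G15, Lib.H53V.R5, Lib.H53V.R5B. -/

-- from Lib.H53V.R1
section

set_option autoImplicit false

/-!
CHUNK R1 (M).  Module R (section 1 of PROOF.md): naturality of the general solution.
-/

open MvPolynomial

namespace Pool.Agent.H53V

open Pool.Agent.H89T Pool.Agent.H67T Pool.Agent.H53U

variable {n c k : ℕ} {d : Fin c → ℕ} {B B' : Type*} [CommRing B] [CommRing B']

/-- `evd_map` (H89T/N1.lean) for every entry; `φ 0 = 0` for the point. -/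
theorem MJ_map (φ : B →+* B') (J : Finset (Fin c)) (a : CI (n + c) d → B) :
    (MJ J a).map φ = MJ J fun p => φ (a p) := by
  ext i j
  simp only [MJ, Matrix.map_apply, Matrix.of_apply]
  rw [evd_map]
  congr 1
  funext b
  exact map_zero φ

/-- `RingHom.map_det`, `MJ_map`. -/
theorem MJ_det_map (φ : B →+* B') (J : Finset (Fin c)) (a : CI (n + c) d → B) :
    φ (MJ J a).det = (MJ J fun p => φ (a p)).det := by
  rw [RingHom.map_det, RingHom.mapMatrix_apply, MJ_map]

/-- `RingHom.map_adjugate`, `MJ_map`. -/
theorem MJ_adj_map (φ : B →+* B') (J : Finset (Fin c)) (a : CI (n + c) d → B) (i j : J) :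
    φ ((MJ J a).adjugate i j) = (MJ J fun p => φ (a p)).adjugate i j := by
  have h := RingHom.map_adjugate φ (MJ J a)
  rw [RingHom.mapMatrix_apply, RingHom.mapMatrix_apply, MJ_map] at h
  have h2 := congrFun (congrFun h i) j
  rw [Matrix.map_apply] at h2
  exact h2

/-- Unfold, `split_ifs`, `Polynomial.map_sum`, `MJ_det_map`. -/
theorem xh_map (φ : B →+* B') (J : Finset (Fin c)) (a : CI (n + c) d → B)
    (Z : Fin c → Polynomial (MvPolynomial (FZ n k J) B)) (b : Fin (n + c)) :
    (xh k J a Z b).map (map φ) =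
      xh k J (fun p => φ (a p)) (fun j => (Z j).map (map φ)) b := by
  unfold xh
  by_cases h : IsFr n J b
  · rw [dif_pos h, dif_pos h, Polynomial.map_sum]
    apply Finset.sum_congr rfl
    intro i _
    rw [Polynomial.map_mul, Polynomial.map_C, Polynomial.map_pow, Polynomial.map_X, map_mul,
      MvPolynomial.map_C, MvPolynomial.map_X, map_pow, MJ_det_map]
  · rw [dif_neg h, dif_neg h, Polynomial.map_sum]
    apply Finset.sum_congr rfl
    intro j _
    split_ifs
    · rfl
    · exact Polynomial.map_zero _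

/-- `Polynomial.map_sum`, `evd_map`, `MJ_det_map`. -/
theorem linh_map (φ : B →+* B') (J : Finset (Fin c)) (a : CI (n + c) d → B) (j : Fin c) :
    (linh k J a j).map (map φ) = linh k J (fun p => φ (a p)) j := by
  unfold linh
  rw [Polynomial.map_sum]
  apply Finset.sum_congr rfl
  intro b _
  rw [Polynomial.map_sum]
  apply Finset.sum_congr rfl
  intro i _
  have h1 : φ (evd b.1 (fun α => a ⟨j, α⟩) 0) = evd b.1 (fun α => φ (a ⟨j, α⟩)) 0 := by
    rw [evd_map]
    congr 1
    funext b
    exact map_zero φ
  rw [Polynomial.map_mul, Polynomial.map_C, Polynomial.map_pow, Polynomial.map_X, map_mul,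
    MvPolynomial.map_C, MvPolynomial.map_X, map_mul φ, map_pow φ, MJ_det_map, h1]

/-- `Polynomial.map_sum`, `Polynomial.map_prod`, `xh_map`, `MJ_det_map`. -/
theorem quadh_map (φ : B →+* B') (J : Finset (Fin c)) (a : CI (n + c) d → B)
    (Z : Fin c → Polynomial (MvPolynomial (FZ n k J) B)) (j : Fin c) :
    (quadh k J a Z j).map (map φ) =
      quadh k J (fun p => φ (a p)) (fun j => (Z j).map (map φ)) j := by
  unfold quadh
  rw [Polynomial.map_sum]
  apply Finset.sum_congr rfl
  intro α _
  split_ifs
  · rw [Polynomial.map_mul, Polynomial.map_C, MvPolynomial.map_C, map_mul, map_pow, MJ_det_map,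
      Polynomial.map_prod]
    congr 1
    apply Finset.prod_congr rfl
    intro b _
    rw [Polynomial.map_pow, xh_map]
  · exact Polynomial.map_zero _

/-- Induction on `s` with `linh_map`, `quadh_map`, `MJ_adj_map`. -/
theorem Zit_map (φ : B →+* B') (J : Finset (Fin c)) (a : CI (n + c) d → B) (s : ℕ) (j : Fin c) :
    (Zit k J a s j).map (map φ) = Zit k J (fun p => φ (a p)) s j := by
  induction s generalizing j with
  | zero => exact Polynomial.map_zero _
  | succ s ih =>
    have ih' : (fun j => (Zit k J a s j).map (map φ)) = Zit k J (fun p => φ (a p)) s := by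
      funext j
      exact ih j
    simp only [Zit]
    by_cases hj : j ∈ J
    · rw [dif_pos hj, dif_pos hj, Polynomial.map_neg, Polynomial.map_sum]
      congr 1
      apply Finset.sum_congr rfl
      intro i _
      rw [Polynomial.map_mul, Polynomial.map_C, MvPolynomial.map_C, MJ_adj_map, Polynomial.map_add,
        linh_map, quadh_map, ih']
    · rw [dif_neg hj, dif_neg hj]
      exact Polynomial.map_zero _

/-- `rs` is a coefficient of `xh`: `Polynomial.coeff_map`, `xh_map`, `Zit_map`, `MJ_det_map`. -/
theorem rs_map (φ : B →+* B') (J : Finset (Fin c)) (a : CI (n + c) d → B) (p : JV (n + c) k) :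
    map φ (rs k J a p) = rs k J (fun p => φ (a p)) p := by
  unfold rs
  have h : (fun j => (Zit k J a k j).map (map φ)) = Zit k J (fun p => φ (a p)) k := by
    funext j
    exact Zit_map φ J a k j
  rw [map_mul, MvPolynomial.map_C, MJ_det_map, ← Polynomial.coeff_map, xh_map, h]

/-- Both sides are ring homomorphisms in `P` (`MvPolynomial.induction_on P`); on variables `rs_map`,
`tra_map` (H53U/M2.lean). -/
theorem ResX_map (φ : B →+* B') (J : Finset (Fin c)) (a : CI (n + c) d → B) (x : Fin (n + c) → B)
    (P : MvPolynomial (JV (n + c) k) B) :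
    map φ (ResX k J a x P) =
      ResX k J (fun p => φ (a p)) (fun b => φ (x b)) (map φ P) := by
  induction P using MvPolynomial.induction_on with
  | C r => simp [ResX, algebraMap_eq]
  | add p q hp hq =>
    rw [map_add, map_add, map_add, map_add, hp, hq]
  | mul_X p b hp =>
    rw [map_mul, map_mul, map_mul, map_mul, hp, MvPolynomial.map_X]
    congr 1
    unfold ResX
    rw [aeval_X, aeval_X, map_add, rs_map]
    have h1 : (fun p => φ (tra (fun b => - x b) a p)) =
        tra (fun b => - φ (x b)) (fun p => φ (a p)) := by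
      funext p
      rw [tra_map]
      simp only [map_neg]
    rw [h1]
    congr 1
    split_ifs
    · rw [MvPolynomial.map_C]
    · exact map_zero _

end Pool.Agent.H53V
end

-- from Lib.H78M.D0
section

set_option autoImplicit false

/-!
H78M (moves for jets of order `k`, see PROOF.md): definitions and the statements of the modules.

`N = n + c` variables, `c` polynomials of degrees at most `d 0, ..., d (c - 1)`, coefficients indexed by `CI N d`
(H53U).  The jet variables are `JV N k` (H89T): `(b, l)` is the `l`-th Taylor coefficient of the `b`-th coordinate,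
`l = 0, ..., k`.  For the `j`-th polynomial only the equations `u (j, i)`, `i ≤ kk j`, are used (`kk j ≤ k`); at the end
`kk = kJ k J`.  Input `PropV`, output `AlgK` of H53V.
-/

open MvPolynomial

namespace Pool.Agent.H78M

open Pool.Agent.H89T Pool.Agent.H67T Pool.Agent.H53U

section General

variable {N c k : ℕ} {d : Fin c → ℕ} {B : Type*} [CommRing B]

/-- The jet weight of a monomial: the variable `(b, l)` has weight `l`. -/
def jw (μ : JV N k →₀ ℕ) : ℕ := ∑ p : JV N k, (p.2 : ℕ) * μ p





end General

section Fibre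



end Fibre


section Germs

variable {N : ℕ} {B : Type*} [CommRing B]


/-- The ideal generated by the `X b - x b`. -/
noncomputable def mJ (x : Fin N → B) : Ideal (MvPolynomial (Fin N) B) :=
  Ideal.span (Set.range fun b => X b - C (x b))



end Germs

section Coordinates

variable {n c k : ℕ} {d : Fin c → ℕ} {J : Finset (Fin c)} {B : Type*} [CommRing B]






end Coordinates

section Move

variable {N c k : ℕ} {d : Fin c → ℕ}



















end Move

section PsiK

variable {n c : ℕ} {d : Fin c → ℕ}


end PsiK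

end Pool.Agent.H78M
end

-- from Lib.H78M.G15
section

set_option autoImplicit false

/-!
CHUNK G15 of H78M (moves for k-jets, PROOF.md).  The reduction lemma.
-/

open MvPolynomial

namespace Pool.Agent.H78M

open Pool.Agent.H89T Pool.Agent.H67T Pool.Agent.H53U

variable {N : ℕ} {A : Type*} [CommRing A]

/-- The polynomials in `X` of degree at most `d` with coefficients of degree at most `r` in `x`, up to elements of `J ^ s`. -/
def RedM (N : ℕ) (A : Type*) [CommRing A] (d r s : ℕ) (G : MvPolynomial (Fin N) (MvPolynomial (Fin N) A)) : Prop :=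
  ∃ E : MvPolynomial (Fin N) (MvPolynomial (Fin N) A), E.totalDegree ≤ d ∧
    (∀ α, (coeff α E).totalDegree ≤ r) ∧
    G - E ∈ mJ (fun b => (X b : MvPolynomial (Fin N) A)) ^ s




theorem RedM.add {d r s : ℕ} {G G' : MvPolynomial (Fin N) (MvPolynomial (Fin N) A)}
    (h : RedM N A d r s G) (h' : RedM N A d r s G') : RedM N A d r s (G + G') := by
  obtain ⟨E, h1, h2, h3⟩ := h
  obtain ⟨E', h1', h2', h3'⟩ := h'
  refine ⟨E + E', (totalDegree_add _ _).trans (max_le h1 h1'), fun α => ?_, ?_⟩
  · rw [coeff_add]
    exact (totalDegree_add _ _).trans (max_le (h2 α) (h2' α))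
  · rw [add_sub_add_comm]
    exact Ideal.add_mem _ h3 h3'















end Pool.Agent.H78M
end

-- from Lib.H53V.R5
section

set_option autoImplicit false

/-!
CHUNK R5 (M).  Module R (section 1 of PROOF.md): the dependence on the coefficient of highest order.
-/

open MvPolynomial

namespace Pool.Agent.H53V

open Pool.Agent.H89T Pool.Agent.H67T Pool.Agent.H53U

/-- Taylor formula of first order. -/
theorem r5_taylor {σ S : Type*} [Fintype σ] [CommRing S] (g e : σ → S) (τ : S)
    (he : ∀ b, τ ∣ e b) (p : MvPolynomial σ S) :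
    τ ^ 2 ∣ eval (fun b => g b + e b) p - eval g p - ∑ b, eval g (pderiv b p) * e b := by
  classical
  induction p using MvPolynomial.induction_on with
  | C r => simp
  | add p q hp hq =>
    have h1 : eval (fun b => g b + e b) (p + q) - eval g (p + q) -
        ∑ b, eval g (pderiv b (p + q)) * e b =
        (eval (fun b => g b + e b) p - eval g p - ∑ b, eval g (pderiv b p) * e b) +
        (eval (fun b => g b + e b) q - eval g q - ∑ b, eval g (pderiv b q) * e b) := by
      simp only [map_add, add_mul, Finset.sum_add_distrib]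
      ring
    rw [h1]
    exact dvd_add hp hq
  | mul_X p i hp =>
    have hs : ∑ b, eval g (pderiv b (p * X i)) * e b =
        (∑ b, eval g (pderiv b p) * e b) * g i + eval g p * e i := by
      have h2 : ∀ b, eval g (pderiv b (p * X i)) * e b =
          eval g (pderiv b p) * e b * g i + eval g p * (if i = b then e b else 0) := by
        intro b
        rw [Derivation.leibniz, pderiv_X]
        simp only [smul_eq_mul, map_add, map_mul, eval_X]
        by_cases hib : i = b
        · subst hib
          simp only [Pi.single_eq_same, map_one, if_true]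
          ring
        · rw [Pi.single_eq_of_ne hib, if_neg hib]
          simp only [map_zero]
          ring
      rw [Finset.sum_congr rfl (fun b _ => h2 b), Finset.sum_add_distrib, ← Finset.sum_mul,
        ← Finset.mul_sum]
      simp
    have hd : τ ∣ ∑ b, eval g (pderiv b p) * e b :=
      Finset.dvd_sum (fun b _ => Dvd.dvd.mul_left (he b) _)
    obtain ⟨A, hA⟩ := hp
    obtain ⟨D, hD⟩ := hd
    obtain ⟨E, hE⟩ := he i
    have h3 : eval (fun b => g b + e b) p = eval g p + (∑ b, eval g (pderiv b p) * e b) + τ ^ 2 * A := by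
      rw [← hA]
      ring
    rw [hs, map_mul, map_mul, eval_X, eval_X, h3, hD, hE]
    refine ⟨A * g i + D * E + A * τ * E, ?_⟩
    ring

variable {N c k : ℕ} {d : Fin c → ℕ} {B : Type*} [CommRing B]

/-- PROOF.  Let `f b = arc ξ b`, `g b = arc ξ' b` in `Polynomial B`, `l ≥ 1`.  `f b = g b + e b` with
`X ^ l ∣ e b`, `(e b).coeff l = ξ (b, l) - ξ' (b, l)` (the coefficients below `l` agree, `arc` has coefficient
`ξ (b, l)` at `l ≤ k`).
For every monomial `α`: `∏ f ^ α - ∏ g ^ α - ∑_b (e b) * (α b) * ∏_{b'} (g b') ^ (α b' - [b' = b])` is divisible by `X ^ (2 l)`,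
hence by `X ^ (l + 1)` (general lemma, in any commutative ring, for an element `τ` with `τ ∣ e b`: the
difference is divisible by `τ ^ 2`; induction over the product as for the derivative of a product;
or use `MvPolynomial`: for a polynomial `G` in `N` variables
`G (g + e) - G (g) - ∑_b ∂_b G (g) e_b` is divisible by `τ ^ 2`, `MvPolynomial.induction_on G`, with `pol`,
`eval_pol`, `eval_pderiv_pol` of H53U/M1.lean to translate `ev`, `evd`).
So `uV a ξ j l - uV a ξ' j l` is the coefficient of `X ^ l` in `∑_b e b * evd b (C ∘ a_j) g`, which is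
`∑_b (e b).coeff l * (evd b (C ∘ a_j) g).coeff 0`, and the coefficient `0` is a ring homomorphism
(`evd_map`, H89T/N1.lean): `evd b a_j (ξ' (., 0))`, and `ξ' (b, 0) = ξ (b, 0)`. -/
theorem uV_sub (a : CI N d → B) (ξ ξ' : JV N k → B) (j : Fin c) (l : Fin (k + 1))
    (hl : 1 ≤ (l : ℕ)) (h : ∀ b, ∀ l' : Fin (k + 1), l' < l → ξ (b, l') = ξ' (b, l')) :
    uV a ξ j l - uV a ξ' j l =
      ∑ b, evd b (fun α => a ⟨j, α⟩) (fun b => ξ (b, 0)) * (ξ (b, l) - ξ' (b, l)) := by
  classical
  set aj : Idx N (d j) → B := fun α => a ⟨j, α⟩ with haj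
  set p : MvPolynomial (Fin N) (Polynomial B) := pol (fun α => Polynomial.C (aj α)) with hp
  set e : Fin N → Polynomial B := fun b => arc ξ b - arc ξ' b with he
  have hcoeff : ∀ (b : Fin N) (i : ℕ), i < l → (e b).coeff i = 0 := by
    intro b i hi
    have hi' : i < k + 1 := lt_trans hi l.2
    rw [he]
    simp only [Polynomial.coeff_sub]
    rw [coeff_arc, coeff_arc, dif_pos hi', dif_pos hi', h b ⟨i, hi'⟩ (by
      rw [Fin.lt_def]
      exact hi), sub_self]
  have hdvd : ∀ b, Polynomial.X ^ (l : ℕ) ∣ e b := fun b =>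
    Polynomial.X_pow_dvd_iff.mpr (fun i hi => hcoeff b i hi)
  have hle : ∀ b, (e b).coeff l = ξ (b, l) - ξ' (b, l) := by
    intro b
    rw [he]
    simp only [Polynomial.coeff_sub]
    rw [coeff_arc, coeff_arc, dif_pos l.2, dif_pos l.2]
  have hT := r5_taylor (arc ξ') e (Polynomial.X ^ (l : ℕ)) hdvd p
  have hge : (fun b => arc ξ' b + e b) = arc ξ := by
    funext b
    rw [he]
    ring
  rw [hge, hp, eval_pol, eval_pol] at hT
  have h1 : uV a ξ j l = (ev (fun α => Polynomial.C (aj α)) (arc ξ)).coeff l := rfl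
  have h2 : uV a ξ' j l = (ev (fun α => Polynomial.C (aj α)) (arc ξ')).coeff l := rfl
  have h3 : (ev (fun α => Polynomial.C (aj α)) (arc ξ) - ev (fun α => Polynomial.C (aj α)) (arc ξ') -
      ∑ b, eval (arc ξ') (pderiv b (pol fun α => Polynomial.C (aj α))) * e b).coeff l = 0 := by
    rw [← pow_mul] at hT
    exact Polynomial.X_pow_dvd_iff.mp hT l (by omega)
  rw [Polynomial.coeff_sub, Polynomial.coeff_sub, ← h1, ← h2, Polynomial.finsetSum_coeff] at h3
  have h4 : ∀ b, (eval (arc ξ') (pderiv b (pol fun α => Polynomial.C (aj α))) * e b).coeff l =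
      evd b aj (fun b => ξ (b, 0)) * (ξ (b, l) - ξ' (b, l)) := by
    intro b
    rw [eval_pderiv_pol]
    obtain ⟨q, hq⟩ := hdvd b
    have h5 : (e b).coeff l = q.coeff 0 := by
      rw [hq, Polynomial.coeff_X_pow_mul', if_pos le_rfl, Nat.sub_self]
    have h6 : (evd b (fun α => Polynomial.C (aj α)) (arc ξ')).coeff 0 =
        evd b aj (fun b => ξ (b, 0)) := by
      have h7 := evd_map (Polynomial.constantCoeff (R := B)) b (fun α => Polynomial.C (aj α)) (arc ξ')
      simp only [Polynomial.constantCoeff_apply, Polynomial.coeff_C_zero] at h7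
      rw [h7]
      have h8 : (fun b => (arc ξ' b).coeff 0) = fun b => ξ (b, 0) := by
        funext b'
        rw [coeff_arc, dif_pos (Nat.succ_pos k)]
        have h9 : (⟨0, Nat.succ_pos k⟩ : Fin (k + 1)) = 0 := rfl
        rw [h9, h b' 0 (by
          rw [Fin.lt_def]
          exact hl)]
      rw [h8]
    rw [hq]
    have h10 : evd b (fun α => Polynomial.C (aj α)) (arc ξ') * (Polynomial.X ^ (l : ℕ) * q) =
        Polynomial.X ^ (l : ℕ) * (evd b (fun α => Polynomial.C (aj α)) (arc ξ') * q) := by ring
    rw [h10, Polynomial.coeff_X_pow_mul', if_pos le_rfl, Nat.sub_self, Polynomial.mul_coeff_zero,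
      h6, ← h5, hle b]
  rw [Finset.sum_congr rfl (fun b _ => h4 b)] at h3
  exact sub_eq_zero.mp h3

end Pool.Agent.H53V
end

-- from Lib.H53V.R5B
section

set_option autoImplicit false

/-!
CHUNK R5B (M).  Module R (section 1 of PROOF.md): uniqueness of the solution.
-/

open MvPolynomial

namespace Pool.Agent.H53V

open Pool.Agent.H89T Pool.Agent.H67T Pool.Agent.H53U

variable {n c k : ℕ} {d : Fin c → ℕ} {B : Type*} [CommRing B]

/-- The matrix of the derivatives at `x` of the polynomials with index in `J` with respect to the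
pivots. -/
def MX (J : Finset (Fin c)) (a : CI (n + c) d → B) (x : Fin (n + c) → B) : Matrix J J B :=
  Matrix.of fun j r => evd (Fin.natAdd n r.1) (fun α => a ⟨j.1, α⟩) x

/-- `eval_pderiv_PF`, `PF_tra`, `pderiv_shiftP`, `eval_shiftP` (H53U/M1.lean, M2.lean). -/
theorem MJ_tra (J : Finset (Fin c)) (a : CI (n + c) d → B) (x : Fin (n + c) → B) :
    MJ J (tra (fun b => - x b) a) = MX J a x := by
  ext j r
  show evd (Fin.natAdd n r.1) (fun α => tra (fun b => - x b) a ⟨j.1, α⟩) 0 = evd (Fin.natAdd n r.1) (fun α => a ⟨j.1, α⟩) x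
  rw [← eval_pderiv_PF, PF_tra, pderiv_shiftP, eval_shiftP, ← eval_pderiv_PF]
  have e : (fun b => (0 : Fin (n + c) → B) b + - - x b) = x := by
    funext b
    rw [Pi.zero_apply, zero_add, neg_neg]
  rw [e]

/-- `evd_map`. -/
theorem MX_map {B' : Type*} [CommRing B'] (φ : B →+* B') (J : Finset (Fin c))
    (a : CI (n + c) d → B) (x : Fin (n + c) → B) :
    (MX J a x).map φ = MX J (fun p => φ (a p)) fun b => φ (x b) := by
  ext j r
  exact evd_map φ _ _ _

theorem r5b_sum (J : Finset (Fin c)) (F : Fin (n + c) → B) (hF : ∀ b, IsFr n J b → F b = 0) :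
    ∑ b, F b = ∑ r : J, F (Fin.natAdd n r.1) := by
  classical
  rw [Fin.sum_univ_add]
  have h1 : ∑ i : Fin n, F (Fin.castAdd c i) = 0 := by
    refine Finset.sum_eq_zero fun i _ => hF _ fun j _ h => ?_
    have h2 := congrArg Fin.val h
    rw [Fin.val_castAdd, Fin.val_natAdd] at h2
    have h3 := i.2
    omega
  rw [h1, zero_add]
  have h2 : ∑ i : Fin c, F (Fin.natAdd n i) = ∑ i ∈ J, F (Fin.natAdd n i) := by
    refine (Finset.sum_subset (Finset.subset_univ J) fun i _ hi => hF _ fun j hj h => ?_).symm
    have h2 := congrArg Fin.val h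
    rw [Fin.val_natAdd, Fin.val_natAdd] at h2
    have h3 : i = j := Fin.ext (by omega)
    exact hi (h3 ▸ hj)
  rw [h2]
  exact (Finset.sum_coe_sort J fun i => F (Fin.natAdd n i)).symm

theorem r5b_zero {ι : Type*} [Fintype ι] [DecidableEq ι] {M : Matrix ι ι B} (hM : M.det ∈ nonZeroDivisors B) {w : ι → B}
    (h : M.mulVec w = 0) : w = 0 := by
  have h1 : (M.adjugate * M).mulVec w = 0 := by
    rw [← Matrix.mulVec_mulVec, h, Matrix.mulVec_zero]
  rw [Matrix.adjugate_mul, Matrix.smul_mulVec, Matrix.one_mulVec] at h1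
  funext i
  have h2 := congrFun h1 i
  rw [Pi.smul_apply, smul_eq_mul, Pi.zero_apply, mul_comm] at h2
  exact (mul_right_mem_nonZeroDivisors_eq_zero_iff hM).1 h2

/-- Strong induction on `l`: suppose `ξ (b, l') = ξ' (b, l')` for all `l' < l`, `l ≥ 1`.  By `uV_sub` and `hu`:
`∑_b evd b a_j x (ξ (b, l) - ξ' (b, l)) = 0` for all `j ∈ J`; the free `b` contribute `0`, so with
`w r = ξ (natAdd n r, l) - ξ' (natAdd n r, l)`, `r : J` (the sum over the `b` which are not free is the sum over
`r : J`, `free_or_pivot`, `Fin.natAdd` is injective): `(MX J a x).mulVec w = 0`; multiply by the adjugate: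
`det • w = 0`, so `w = 0`. -/
theorem uniq (J : Finset (Fin c)) (a : CI (n + c) d → B) (ξ ξ' : JV (n + c) k → B)
    (h0 : ∀ b, ξ (b, 0) = ξ' (b, 0)) (hfree : ∀ b, IsFr n J b → ∀ l, ξ (b, l) = ξ' (b, l))
    (hu : ∀ j ∈ J, ∀ i, 1 ≤ i → i ≤ k → uV a ξ j i = uV a ξ' j i)
    (hΔ : (MX J a fun b => ξ (b, 0)).det ∈ nonZeroDivisors B) : ξ = ξ' := by
  have key : ∀ m : ℕ, ∀ l : Fin (k + 1), (l : ℕ) = m → ∀ b, ξ (b, l) = ξ' (b, l) := by
    intro m
    induction m using Nat.strong_induction_on with
    | _ m ih =>
      intro l hlm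
      by_cases hl0 : l = 0
      · intro b
        rw [hl0]
        exact h0 b
      · have hl : 1 ≤ (l : ℕ) := by
          rcases Nat.eq_zero_or_pos (l : ℕ) with h | h
          · exact absurd (Fin.ext h) hl0
          · exact h
        have hlow : ∀ b, ∀ l' : Fin (k + 1), l' < l → ξ (b, l') = ξ' (b, l') := fun b l' hl' =>
          ih (l' : ℕ) (hlm ▸ hl') l' rfl b
        have hw : (MX J a fun b => ξ (b, 0)).mulVec (fun r : J => ξ (Fin.natAdd n r.1, l) - ξ' (Fin.natAdd n r.1, l)) = 0 := by
          funext j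
          have h1 := uV_sub a ξ ξ' j.1 l hl hlow
          rw [hu j.1 j.2 l hl (Nat.lt_succ_iff.1 l.2), sub_self,
            r5b_sum J (fun b => evd b (fun α => a ⟨j.1, α⟩) (fun b => ξ (b, 0)) * (ξ (b, l) - ξ' (b, l)))
              (fun b hb => by rw [hfree b hb l, sub_self, mul_zero])] at h1
          exact h1.symm
        have hw0 := r5b_zero hΔ hw
        intro b
        rcases free_or_pivot J b with hb | ⟨j, hj, rfl⟩
        · exact hfree b hb l
        · exact sub_eq_zero.1 (congrFun hw0 ⟨j, hj⟩)
  funext p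
  exact key p.2 p.2 rfl p.1

end Pool.Agent.H53V
end
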