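import Pool.Agent.Lib.H1M.PB.M026

/-! Merged copies (to shorten the build) of Lib.H53V.R3, Lib.H53V.R3B. -/

-- from Lib.H53V.R3
section

set_option autoImplicit false

/-!
CHUNK R3 (M/L).  Module R (section 1 of PROOF.md): `rs` satisfies the equations.
-/

open MvPolynomial

namespace Pool.Agent.H53V

open Pool.Agent.H89T Pool.Agent.H67T Pool.Agent.H53U

variable {n c k : ℕ} {d : Fin c → ℕ} {B : Type*} [CommRing B]

theorem r3_zero_prod {N : ℕ} {R : Type*} [CommRing R] (f : Fin N → ℕ) :
    ∏ b, (0 : R) ^ f b = if ∑ b, f b = 0 then 1 else 0 := by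
  split_ifs with h
  · have h1 : ∀ b, f b = 0 := fun b => (Finset.sum_eq_zero_iff.1 h) b (Finset.mem_univ b)
    simp [h1]
  · have h1 : ∃ b, f b ≠ 0 := by
      by_contra hc
      push Not at hc
      exact h (Finset.sum_eq_zero fun b _ => hc b)
    obtain ⟨b, hb⟩ := h1
    exact Finset.prod_eq_zero (Finset.mem_univ b) (zero_pow hb)

theorem r3_pt {N : ℕ} {R : Type*} [CommRing R] (m : Fin N → ℕ) (y : Fin N → R) :
    (if ∑ b, m b < 2 then ∏ b, y b ^ m b else 0) = ∏ b, (0 : R) ^ m b +
      ∑ b, (((m b : ℕ) : R) * ∏ b', (0 : R) ^ (m b' - (if b' = b then 1 else 0))) * y b := by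
  have h1 : ∀ b, (((m b : ℕ) : R) * ∏ b', (0 : R) ^ (m b' - (if b' = b then 1 else 0))) * y b
      = (if ∑ b, m b = 1 then (m b : R) * y b else 0) := by
    intro b
    rw [r3_zero_prod]
    by_cases hb : m b = 0
    · simp [hb]
    · have h2 : ∑ b', (m b' - (if b' = b then 1 else 0)) + 1 = ∑ b', m b' := by
        rw [← Finset.add_sum_erase _ _ (Finset.mem_univ b), ← Finset.add_sum_erase _ m (Finset.mem_univ b)]
        have h3 : ∑ x ∈ Finset.univ.erase b, (m x - (if x = b then 1 else 0)) = ∑ x ∈ Finset.univ.erase b, m x := by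
          refine Finset.sum_congr rfl fun x hx => ?_
          rw [if_neg (Finset.ne_of_mem_erase hx), Nat.sub_zero]
        rw [h3, if_pos rfl]
        omega
      by_cases h4 : ∑ b, m b = 1
      · have h5 : ∑ b', (m b' - (if b' = b then 1 else 0)) = 0 := by omega
        rw [if_pos h5, if_pos h4, mul_one]
      · have h5 : ∑ b', (m b' - (if b' = b then 1 else 0)) ≠ 0 := by omega
        rw [if_neg h5, if_neg h4, mul_zero, zero_mul]
  simp_rw [h1]
  rw [r3_zero_prod]
  rcases Nat.lt_trichotomy (∑ b, m b) 1 with h | h | h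
  · have h0 : ∑ b, m b = 0 := by omega
    have h2 : ∀ b, m b = 0 := fun b => (Finset.sum_eq_zero_iff.1 h0) b (Finset.mem_univ b)
    simp [h2]
  · rw [h]
    simp only [Nat.one_lt_ofNat, if_true, one_ne_zero, if_false, zero_add]
    obtain ⟨c, hc⟩ : ∃ c, m c ≠ 0 := by
      by_contra hcon
      push Not at hcon
      rw [Finset.sum_eq_zero fun b _ => hcon b] at h
      omega
    have h2 := Finset.add_sum_erase Finset.univ m (Finset.mem_univ c)
    have h3 : m c = 1 := by omega
    have h4 : ∑ x ∈ Finset.univ.erase c, m x = 0 := by omega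
    have h5 : ∀ x, x ≠ c → m x = 0 := fun x hx =>
      (Finset.sum_eq_zero_iff.1 h4) x (Finset.mem_erase.2 ⟨hx, Finset.mem_univ x⟩)
    rw [Finset.prod_eq_single c, Finset.sum_eq_single c]
    · rw [h3]
      simp
    · intro b _ hb
      rw [h5 b hb]
      simp
    · intro hh
      exact absurd (Finset.mem_univ c) hh
    · intro b _ hb
      rw [h5 b hb, pow_zero]
    · intro hh
      exact absurd (Finset.mem_univ c) hh
  · rw [if_neg (by omega), if_neg (by omega)]
    have h2 : ¬ (∑ b, m b = 1) := by omega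
    simp [h2]

theorem r3_low {N d : ℕ} {R : Type*} [CommRing R] (a : Idx N d → R) (y : Fin N → R) :
    ∑ α : Idx N d, (if (expo α).degree < 2 then a α * ∏ b, y b ^ (α.1 b : ℕ) else 0)
      = ev a 0 + ∑ b, evd b a 0 * y b := by
  unfold ev evd
  simp only [Finset.sum_mul]
  rw [Finset.sum_comm, ← Finset.sum_add_distrib]
  refine Finset.sum_congr rfl fun α _ => ?_
  have h1 := r3_pt (fun b => (α.1 b : ℕ)) y
  have h2 : (expo α).degree = ∑ b, (α.1 b : ℕ) := Finsupp.degree_eq_sum _
  rw [h2]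
  have h3 : (if ∑ b, (α.1 b : ℕ) < 2 then a α * ∏ b, y b ^ (α.1 b : ℕ) else 0)
      = a α * (if ∑ b, (α.1 b : ℕ) < 2 then ∏ b, y b ^ (α.1 b : ℕ) else 0) := by
    split_ifs <;> simp
  rw [h3, h1, mul_add, Finset.mul_sum]
  congr 1
  refine Finset.sum_congr rfl fun b _ => ?_
  simp only [Pi.zero_apply]
  ring

theorem r3_E (J : Finset (Fin c)) (a : CI (n + c) d → B)
    (Z : Fin c → Polynomial (MvPolynomial (FZ n k J) B)) (j : Fin c) :
    ev (fun α => (Polynomial.C (C (a ⟨j, α⟩)) : Polynomial (MvPolynomial (FZ n k J) B)))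
        (fun b => Polynomial.C (C (MJ J a).det) * xh k J a Z b) =
      Polynomial.C (C ((MJ J a).det ^ 2)) * quadh k J a Z j +
      (ev (fun α => (Polynomial.C (C (a ⟨j, α⟩)) : Polynomial (MvPolynomial (FZ n k J) B))) 0 +
        ∑ b, evd b (fun α => (Polynomial.C (C (a ⟨j, α⟩)) : Polynomial (MvPolynomial (FZ n k J) B))) 0 *
          (Polynomial.C (C (MJ J a).det) * xh k J a Z b)) := by
  rw [← r3_low]
  unfold quadh
  rw [Finset.mul_sum, ← Finset.sum_add_distrib]
  unfold ev
  refine Finset.sum_congr rfl fun α _ => ?_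
  by_cases h : 2 ≤ (expo α).degree
  · rw [if_pos h, if_neg (by omega), add_zero]
    have h1 : ∏ b, (Polynomial.C (C (MJ J a).det) * xh k J a Z b) ^ (α.1 b : ℕ)
        = Polynomial.C (C (MJ J a).det) ^ (expo α).degree * ∏ b, xh k J a Z b ^ (α.1 b : ℕ) := by
      have h2 : (expo α).degree = ∑ b, (α.1 b : ℕ) := Finsupp.degree_eq_sum _
      rw [h2, ← Finset.prod_pow_eq_pow_sum, ← Finset.prod_mul_distrib]
      exact Finset.prod_congr rfl fun b _ => mul_pow _ _ _
    have h3 : (MJ J a).det ^ (expo α).degree = (MJ J a).det ^ 2 * (MJ J a).det ^ ((expo α).degree - 2) := by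
      rw [← pow_add]
      congr 1
      omega
    rw [h1, ← map_pow, ← map_pow, h3]
    simp only [map_mul]
    ring
  · rw [if_neg h, if_pos (by omega), mul_zero, zero_add]

theorem r3_lin (J : Finset (Fin c)) (a : CI (n + c) d → B)
    (Z : Fin c → Polynomial (MvPolynomial (FZ n k J) B)) {j : Fin c} (hj : j ∈ J) :
    ∑ b, evd b (fun α => (Polynomial.C (C (a ⟨j, α⟩)) : Polynomial (MvPolynomial (FZ n k J) B))) 0 *
          (Polynomial.C (C (MJ J a).det) * xh k J a Z b) =
      Polynomial.C (C (MJ J a).det) * Polynomial.C (C (MJ J a).det) * linh k J a j +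
      Polynomial.C (C (MJ J a).det) * ∑ r : J, Polynomial.C (C (MJ J a ⟨j, hj⟩ r)) * Z r.1 := by
  have hev : ∀ b : Fin (n + c),
      evd b (fun α => (Polynomial.C (C (a ⟨j, α⟩)) : Polynomial (MvPolynomial (FZ n k J) B))) 0
        = Polynomial.C (C (evd b (fun α => a ⟨j, α⟩) 0)) := by
    intro b
    have h := evd_map ((Polynomial.C : MvPolynomial (FZ n k J) B →+* _).comp C) b (fun α => a ⟨j, α⟩)
      (0 : Fin (n + c) → B)
    simp only [RingHom.comp_apply, Pi.zero_apply, map_zero] at h
    exact h.symm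
  simp_rw [hev]
  rw [← Fintype.sum_subtype_add_sum_subtype (fun b => IsFr n J b)]
  congr 1
  · unfold linh
    rw [Finset.mul_sum]
    refine Finset.sum_congr rfl fun b _ => ?_
    rw [xh_free J a Z b.2, Finset.mul_sum, Finset.mul_sum, Finset.mul_sum]
    refine Finset.sum_congr rfl fun i _ => ?_
    simp only [map_mul, map_pow]
    ring
  · have hbij : Function.Bijective (fun r : J => (⟨Fin.natAdd n r.1, fun h => h r.1 r.2 rfl⟩ :
        {b : Fin (n + c) // ¬ IsFr n J b})) := by
      constructor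
      · intro r r' h
        have h1 := congrArg Subtype.val h
        simp only at h1
        exact Subtype.ext (Fin.natAdd_injective c n h1)
      · rintro ⟨b, hb⟩
        rcases free_or_pivot J b with h | ⟨r, hr, h⟩
        · exact absurd h hb
        · exact ⟨⟨r, hr⟩, Subtype.ext h.symm⟩
    rw [← hbij.sum_comp, Finset.mul_sum]
    refine Finset.sum_congr rfl fun r _ => ?_
    simp only
    rw [xh_pivot J a Z r.2]
    have h2 : MJ J a ⟨j, hj⟩ r = evd (Fin.natAdd n r.1) (fun α => a ⟨j, α⟩) 0 := rfl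
    rw [h2]
    ring

theorem r3_adj (J : Finset (Fin c)) (a : CI (n + c) d → B)
    (L : J → Polynomial (MvPolynomial (FZ n k J) B)) (j : J) :
    ∑ r : J, Polynomial.C (C (MJ J a j r)) * ∑ j' : J, Polynomial.C (C ((MJ J a).adjugate r j')) * L j'
      = Polynomial.C (C (MJ J a).det) * L j := by
  simp_rw [Finset.mul_sum]
  rw [Finset.sum_comm]
  have h1 : ∀ j' : J, ∑ r : J, Polynomial.C (C (MJ J a j r)) *
      (Polynomial.C (C ((MJ J a).adjugate r j')) * L j')
      = Polynomial.C (C ((MJ J a).det * (1 : Matrix J J B) j j')) * L j' := by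
    intro j'
    have h2 : ∑ r : J, MJ J a j r * (MJ J a).adjugate r j' = (MJ J a).det * (1 : Matrix J J B) j j' := by
      rw [← Matrix.mul_apply, Matrix.mul_adjugate, Matrix.smul_apply, smul_eq_mul]
    rw [← h2, map_sum, map_sum, Finset.sum_mul]
    refine Finset.sum_congr rfl fun r _ => ?_
    simp only [map_mul]
    ring
  simp_rw [h1]
  rw [Finset.sum_eq_single j]
  · rw [Matrix.one_apply_eq, mul_one]
  · intro b _ hb
    rw [Matrix.one_apply_ne hb.symm]
    simp
  · intro h
    exact absurd (Finset.mem_univ j) h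

theorem r3_cong {R : Type*} [CommRing R] {N d : ℕ} (τ : R) (a : Idx N d → R) (x y : Fin N → R)
    (h : ∀ b, τ ∣ x b - y b) : τ ∣ ev a x - ev a y := by
  have h1 : (Ideal.Quotient.mk (Ideal.span {τ})) (ev a x) = (Ideal.Quotient.mk (Ideal.span {τ})) (ev a y) := by
    rw [ev_map, ev_map]
    congr 1
    funext b
    rw [Ideal.Quotient.eq, Ideal.mem_span_singleton]
    exact h b
  rwa [Ideal.Quotient.eq, Ideal.mem_span_singleton] at h1

theorem r3_arc (J : Finset (Fin c)) (a : CI (n + c) d → B) (b : Fin (n + c)) :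
    (Polynomial.X : Polynomial (MvPolynomial (FZ n k J) B)) ^ (k + 1) ∣
      arc (rs k J a) b - Polynomial.C (C (MJ J a).det) * xh k J a (Zit k J a k) b := by
  rw [Polynomial.X_pow_dvd_iff]
  intro l hl
  rw [Polynomial.coeff_sub, coeff_arc, dif_pos hl, Polynomial.coeff_C_mul]
  exact sub_self _

/-- PROOF.  Let `S = MvPolynomial (FZ n k J) B`, `Δ = (MJ J a).det`, `xh b = xh k J a (Zit k J a k) b`,
a polynomial in `t` over `S`, divisible by `t` (`xh_X_dvd`, `Zit_X_dvd`).
(1) The arc of the jet `rs k J a` at `b` is `∑_{l ≤ k} C (C Δ * (xh b).coeff l) * t ^ l`, so it is congruent to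
`C (C Δ) * xh b` modulo `t ^ (k + 1)` (coefficients: `Polynomial.X_pow_dvd_iff`, `Polynomial.finset_sum_coeff`).
So `Fx (C ∘ a_j) (rs ..)` (the composition, a polynomial in `t`; `uV` is its coefficient `i ≤ k`) is
congruent to `∑_α C (C (a_α)) * ∏ b, (C (C Δ) * xh b) ^ α b` modulo `t ^ (k + 1)` (the ring homomorphism to the
quotient, or `Ideal.Quotient`: products and sums respect congruences; e.g. via
`Ideal.Quotient.mk (Ideal.span {X ^ (k+1)})` and `ev_map` of H89T/N1.lean).
(2) The last sum, `α` of degree `0`: `C (C (U0 a 0 j)) = 0`; degree `1` : `∑_b C (C (evd b a_j 0)) * C (C Δ) * xh b`;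
degree `≥ 2`: `C (C (Δ ^ 2)) * quadh k J a Z j` (`Δ ^ |α| = Δ ^ 2 * Δ ^ (|α| - 2)`).  (`evd b a 0` is the coefficient
of the exponent `single b 1`: the terms `α` with `α - single b 1 ≠ 0` vanish at `0`.)
(3) In the degree `1` part the free `b` give `C (C Δ) * C (C Δ) * linh k J a j` (`xh_free`: the exponent
`2 i + 1` is one more than the exponent `2 i` in `linh`) and the pivots `natAdd n r`, `r ∈ J`, give
`C (C Δ) * ∑_{r : J} C (C (MJ J a j r)) * Z r` (`xh_pivot`).
(4) By `Zit_fix`, `∑_r C (C (MJ J a j r)) * Z r` is congruent to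
`- ∑_r ∑_{j'} C (C (MJ J a j r * adjugate r j')) * (linh j' + quadh j') = - C (C Δ) * (linh j + quadh j)`
(`Matrix.mul_adjugate`).  The sum is `0` modulo `t ^ (k + 1)`. -/
theorem uV_rs (J : Finset (Fin c)) (a : CI (n + c) d → B) {j : Fin c} (hj : j ∈ J)
    (h : U0 a 0 j = 0) {i : ℕ} (hi : i ≤ k) :
    uV (fun p => (C (a p) : MvPolynomial (FZ n k J) B)) (rs k J a) j i = 0 := by
  set R := Polynomial (MvPolynomial (FZ n k J) B) with hR
  set Z := Zit k J a k with hZ
  have hcong : (Polynomial.X : R) ^ (k + 1) ∣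
      ev (fun α => (Polynomial.C (C (a ⟨j, α⟩)) : R)) (arc (rs k J a)) -
      ev (fun α => (Polynomial.C (C (a ⟨j, α⟩)) : R)) (fun b => Polynomial.C (C (MJ J a).det) * xh k J a Z b) :=
    r3_cong _ _ _ _ fun b => r3_arc J a b
  have hzero : ev (fun α => (Polynomial.C (C (a ⟨j, α⟩)) : R)) 0 = 0 := by
    have h1 := ev_map ((Polynomial.C : MvPolynomial (FZ n k J) B →+* _).comp C) (fun α => a ⟨j, α⟩)
      (0 : Fin (n + c) → B)
    simp only [RingHom.comp_apply, Pi.zero_apply, map_zero] at h1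
    have h2 : ev (fun α => a ⟨j, α⟩) (0 : Fin (n + c) → B) = 0 := h
    rw [h2, map_zero, map_zero] at h1
    exact h1.symm
  have hE : (Polynomial.X : R) ^ (k + 1) ∣ ev (fun α => (Polynomial.C (C (a ⟨j, α⟩)) : R))
      (fun b => Polynomial.C (C (MJ J a).det) * xh k J a Z b) := by
    rw [r3_E, hzero, zero_add, r3_lin J a Z hj]
    have h1 : ∑ r : J, Polynomial.C (C (MJ J a ⟨j, hj⟩ r)) * Z r.1
        = ∑ r : J, Polynomial.C (C (MJ J a ⟨j, hj⟩ r)) * (Z r.1 +
          ∑ j' : J, Polynomial.C (C ((MJ J a).adjugate r j')) * (linh k J a j'.1 + quadh k J a Z j'.1))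
          - Polynomial.C (C (MJ J a).det) * (linh k J a j + quadh k J a Z j) := by
      have h2 := r3_adj J a (fun j' : J => linh k J a j'.1 + quadh k J a Z j'.1) ⟨j, hj⟩
      simp only at h2
      simp_rw [mul_add (Polynomial.C (C (MJ J a ⟨j, hj⟩ _)))]
      rw [Finset.sum_add_distrib, h2]
      ring
    have h3 : Polynomial.C (C ((MJ J a).det ^ 2)) * quadh k J a Z j +
        (Polynomial.C (C (MJ J a).det) * Polynomial.C (C (MJ J a).det) * linh k J a j +
          Polynomial.C (C (MJ J a).det) * ∑ r : J, Polynomial.C (C (MJ J a ⟨j, hj⟩ r)) * Z r.1)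
        = Polynomial.C (C (MJ J a).det) * ∑ r : J, Polynomial.C (C (MJ J a ⟨j, hj⟩ r)) * (Z r.1 +
          ∑ j' : J, Polynomial.C (C ((MJ J a).adjugate r j')) * (linh k J a j'.1 + quadh k J a Z j'.1)) := by
      rw [h1]
      simp only [map_pow]
      ring
    rw [h3]
    refine Dvd.dvd.mul_left (Finset.dvd_sum fun r _ => Dvd.dvd.mul_left ?_ _) _
    exact Zit_fix J a r
  have hF : (Polynomial.X : R) ^ (k + 1) ∣ ev (fun α => (Polynomial.C (C (a ⟨j, α⟩)) : R)) (arc (rs k J a)) := by
    have := dvd_add hcong hE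
    rwa [sub_add_cancel] at this
  exact (Polynomial.X_pow_dvd_iff.1 hF) i (by omega)

end Pool.Agent.H53V
end

-- from Lib.H53V.R3B
section

set_option autoImplicit false

/-!
CHUNK R3B (M).  Module R (section 1 of PROOF.md): the general solution with base point `x` kills
the ideal.
-/

open MvPolynomial

namespace Pool.Agent.H53V

open Pool.Agent.H89T Pool.Agent.H67T Pool.Agent.H53U

variable {n c k : ℕ} {d : Fin c → ℕ} {B B' : Type*} [CommRing B] [CommRing B']

/-- `uK` is `uu` at the generic jet: evaluation is a ring homomorphism, `uu_map` (H89T/N1.lean). -/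
theorem eval₂_uK {N : ℕ} (φ : B →+* B') (ξ : JV N k → B') (a : CI N d → B) (j : Fin c) (i : ℕ) :
    eval₂ φ ξ (uK k a j i) = uV (fun p => φ (a p)) ξ j i := by
  have h := uu_map (eval₂Hom φ ξ) (fun α => (C (a ⟨j, α⟩) : MvPolynomial (JV N k) B)) (fun p => X p) i
  simp only [coe_eval₂Hom, eval₂_C, eval₂_X] at h
  exact h

/-- The arc of the jet on the right is `C (x b) +` the arc of `ξ`; the value of the polynomial with
coefficients `tra (- x) a` at `y` is the value of the one with coefficients `a` at `y + x`: this is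
`U0_tra` (H53U/M2.lean) with `- x` (over the ring `Polynomial B`, with `tra_map` for
`Polynomial.C : B →+* Polynomial B`). -/
theorem uV_tra {N : ℕ} (a : CI N d → B) (x : Fin N → B) (ξ : JV N k → B) (j : Fin c) (i : ℕ) :
    uV (tra (fun b => - x b) a) ξ j i =
      uV a (fun p => (if p.2 = 0 then x p.1 else 0) + ξ p) j i := by
  have h1 : ∀ b, arc (fun p : JV N k => (if p.2 = 0 then x p.1 else 0) + ξ p) b
      = arc ξ b + Polynomial.C (x b) := by
    intro b
    ext l
    rw [coeff_arc, Polynomial.coeff_add, coeff_arc, Polynomial.coeff_C]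
    by_cases hl : l < k + 1
    · rw [dif_pos hl, dif_pos hl]
      simp only
      have h2 : ((⟨l, hl⟩ : Fin (k + 1)) = 0) ↔ l = 0 := by
        rw [Fin.ext_iff]
        simp
      by_cases h3 : l = 0
      · rw [if_pos (h2.2 h3), if_pos h3, add_comm]
      · rw [if_neg (fun h => h3 (h2.1 h)), if_neg h3, zero_add, add_zero]
    · rw [dif_neg hl, dif_neg hl, if_neg (by omega), add_zero]
  have h2 : ∀ p : CI N d, Polynomial.C (tra (fun b => - x b) a p)
      = tra (fun b => - Polynomial.C (x b)) (fun p => Polynomial.C (a p)) p := by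
    intro p
    rw [tra_map]
    simp only [map_neg]
  have h3 := U0_tra (fun b => - Polynomial.C (x b)) (fun p : CI N d => Polynomial.C (a p))
    (arc (fun p : JV N k => (if p.2 = 0 then x p.1 else 0) + ξ p)) j
  have h4 : (fun b => arc (fun p : JV N k => (if p.2 = 0 then x p.1 else 0) + ξ p) b + - Polynomial.C (x b))
      = arc ξ := by
    funext b
    rw [h1]
    ring
  rw [h4] at h3
  unfold uV uu Fx
  simp_rw [h2]
  exact congrArg (fun P : Polynomial B => P.coeff i) h3

/-- The coefficient `0` of `xh` is `0` (`xh_X_dvd`, `Zit_X_dvd`). -/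
theorem rs_zero (J : Finset (Fin c)) (a : CI (n + c) d → B) (b : Fin (n + c)) :
    rs k J a (b, 0) = 0 := by
  have h := xh_X_dvd J a (Zit k J a k) (fun j _ => Zit_X_dvd J a k j) b
  unfold rs
  rw [Polynomial.X_dvd_iff] at h
  simp only [Fin.val_zero]
  rw [h, mul_zero]

/-- `xh_free`. -/
theorem rs_free (J : Finset (Fin c)) (a : CI (n + c) d → B) {b : Fin (n + c)} (h : IsFr n J b)
    (i : Fin k) : rs k J a (b, i.succ) =
      C ((MJ J a).det ^ (2 * ((i : ℕ) + 1))) * X (⟨b, h⟩, i) := by
  unfold rs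
  simp only [Fin.val_succ]
  rw [xh_free J a _ h, Polynomial.finsetSum_coeff, Finset.sum_eq_single i]
  · rw [Polynomial.coeff_C_mul, Polynomial.coeff_X_pow_self, mul_one, ← mul_assoc, ← map_mul]
    congr 2
    rw [← pow_succ']
    congr 1
  · intro i' _ hi'
    rw [Polynomial.coeff_C_mul, Polynomial.coeff_X_pow, if_neg, mul_zero]
    intro hh
    exact hi' (Fin.ext (by omega))
  · intro hh
    exact absurd (Finset.mem_univ i) hh

/-- `ResX` is the evaluation at the jet `x + rs (tra (- x) a)`: `eval₂_uK`, `uV_tra` (over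
`MvPolynomial (FZ n k J) B`, `tra_map` for `C`), `uV_rs` with `U0 (tra (- x) a) 0 j = U0 a x j = 0`
(`U0_tra`) for `j ∈ J`.  For `i = 0` and any `j`: `uu_zero` (H89T/N1.lean), `rs_zero`, so the value is
`C (U0 a x j) = 0`. -/
theorem ResX_uK (J : Finset (Fin c)) (a : CI (n + c) d → B) (x : Fin (n + c) → B)
    (h : ∀ j, U0 a x j = 0) {j : Fin c} {i : ℕ} (hi : i ≤ k) (hj : i = 0 ∨ j ∈ J) :
    ResX k J a x (uK k a j i) = 0 := by
  have h0 : ∀ j, U0 (tra (fun b => - x b) a) 0 j = 0 := by
    intro j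
    have h1 := U0_tra (fun b => - x b) a x j
    have h2 : (fun b => x b + - x b) = 0 := by
      funext b
      simp
    rw [h2, h j] at h1
    exact h1
  have h1 : ResX k J a x (uK k a j i) = uV (fun p => (C (a p) : MvPolynomial (FZ n k J) B))
      (fun p => (if p.2 = 0 then C (x p.1) else 0) + rs k J (tra (fun b => - x b) a) p) j i := by
    rw [← eval₂_uK]
    rfl
  have h2 : ∀ p : CI (n + c) d, tra (fun b => - (C (x b) : MvPolynomial (FZ n k J) B)) (fun p => C (a p)) p
      = C (tra (fun b => - x b) a p) := by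
    intro p
    rw [tra_map]
    simp only [map_neg]
  have h3 := uV_tra (fun p => (C (a p) : MvPolynomial (FZ n k J) B)) (fun b => C (x b))
    (rs k J (tra (fun b => - x b) a)) j i
  rw [h1]
  refine h3.symm.trans ?_
  have h4 : tra (fun b => - (C (x b) : MvPolynomial (FZ n k J) B)) (fun p => C (a p))
      = fun p => C (tra (fun b => - x b) a p) := funext h2
  rw [h4]
  by_cases hjJ : j ∈ J
  · exact uV_rs J (tra (fun b => - x b) a) hjJ (h0 j) hi
  · have hi0 : i = 0 := hj.resolve_right hjJ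
    rw [hi0]
    unfold uV
    rw [uu_zero]
    simp only [rs_zero]
    have h5 := ev_map (C : B →+* MvPolynomial (FZ n k J) B) (fun α => tra (fun b => - x b) a ⟨j, α⟩)
      (0 : Fin (n + c) → B)
    simp only [Pi.zero_apply, map_zero] at h5
    have h6 : ev (fun α => tra (fun b => - x b) a ⟨j, α⟩) (0 : Fin (n + c) → B) = 0 := h0 j
    rw [h6, map_zero] at h5
    exact h5.symm


end Pool.Agent.H53V
end
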