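import Pool.Agent.Lib.H1M.PB.M004
import Pool.Agent.Lib.H1M.PB.M017
import Pool.Agent.Lib.H1M.PB.M027

/-! Merged copies (to shorten the build) of Lib.H78B.B2, Lib.H78B.B6a, Lib.H78B.B6. -/

-- from Lib.H78B.B2
section

set_option autoImplicit false

/-!
B2 (M).  The greedy choice for a family of forms.

Proof.  `H89T.greedy` with `V = ∀ j, homogeneousSubmodule (Fin (n + 1)) K (d j)`,
`W = ∀ j, homogeneousSubmodule (Fin (n + 1)) K (d j - 1)`, `B = Fin n`,
`β b w = fun j => ⟨X b.succ * w j, _⟩` (degree `1 + (d j - 1) = d j`).  For `hfull`: let `T ≤ T'` and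
`β b w ∈ T'` for all `b, w`.  For every `j` the set of the forms `f` of degree `d j` with
`Pi.single j f ∈ T'` is everything by `H89T.forms_generated` (with `w = Pi.single j w_j`, and
`Pi.single j (g j) ∈ T ≤ T'`); see the use of `forms_generated` in `H89T.greedy_forms`
(Lib/H89T/DP7.lean).  Every `v` is `∑ j, Pi.single j (v j)` (`Finset.univ_sum_single`).
-/

open MvPolynomial

namespace Pool.Agent.H78B

open Pool.Agent.H89T Pool.Agent.H53Y

theorem greedy_family {K : Type} [Field K] {n c : ℕ} {ιL : Type} [Fintype ιL] [DecidableEq ιL]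
    (d : ιL → ℕ) (hd : ∀ j, 1 ≤ d j) (g : ιL → MvPolynomial (Fin (n + 1)) K)
    (hg : ∀ j, (g j).IsHomogeneous (d j)) (hg0 : ∀ j, eval (Pi.single 0 1) (g j) ≠ 0)
    (T : Submodule K (∀ j, homogeneousSubmodule (Fin (n + 1)) K (d j)))
    (hT : ∀ j, (Pi.single j ⟨g j, hg j⟩ : ∀ j, homogeneousSubmodule (Fin (n + 1)) K (d j)) ∈ T)
    (p : Fin c → ∀ j, homogeneousSubmodule (Fin (n + 1)) K (d j))
    (hp : T ⊔ Submodule.span K (Set.range p) = ⊤) :
    ∃ w : Fin c → ιL → MvPolynomial (Fin (n + 1)) K, (∀ i j, (w i j).IsHomogeneous (d j - 1)) ∧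
      ∀ f : ∀ j, homogeneousSubmodule (Fin (n + 1)) K (d j), ∃ t ∈ T, ∃ ν : Fin c → Fin n → K,
        ∀ j, (f j : MvPolynomial (Fin (n + 1)) K) =
          t j + ∑ i, (∑ b, C (ν i b) * X b.succ) * w i j := by
  classical
  have hX : ∀ (j : ιL) (b : Fin n) (w : MvPolynomial (Fin (n + 1)) K), w.IsHomogeneous (d j - 1) →
      (X b.succ * w).IsHomogeneous (d j) := by
    intro j b w hw
    have h1 : (X b.succ * w).IsHomogeneous (1 + (d j - 1)) := (isHomogeneous_X K b.succ).mul hw
    rwa [Nat.add_sub_cancel' (hd j)] at h1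
  obtain ⟨w, hw⟩ := greedy (K := K) (V := ∀ j, homogeneousSubmodule (Fin (n + 1)) K (d j))
    (W := ∀ j, homogeneousSubmodule (Fin (n + 1)) K (d j - 1)) (B := Fin n)
    (fun b w j => ⟨X b.succ * (w j).1, hX j b _ (w j).2⟩) T p hp
    (by
      intro T' hTT' hT'
      rw [eq_top_iff]
      rintro v -
      rw [← Finset.univ_sum_single v]
      refine Submodule.sum_mem _ fun j _ => ?_
      have h1 : (v j).1 ∈ (T'.comap (LinearMap.single K
          (fun j => homogeneousSubmodule (Fin (n + 1)) K (d j)) j)).map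
          (homogeneousSubmodule (Fin (n + 1)) K (d j)).subtype := by
        refine forms_generated _ (fun b w hw => ?_) (hg j) (hg0 j) ?_ (v j).2
        · refine ⟨⟨X b.succ * w, hX j b w hw⟩, ?_, rfl⟩
          have h2 := hT' b (Pi.single j ⟨w, hw⟩)
          have h3 : (fun i => ⟨X b.succ * ((Pi.single j ⟨w, hw⟩ :
              ∀ j, homogeneousSubmodule (Fin (n + 1)) K (d j - 1)) i).1,
              hX i b _ ((Pi.single j ⟨w, hw⟩ :
                ∀ j, homogeneousSubmodule (Fin (n + 1)) K (d j - 1)) i).2⟩ :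
              ∀ j, homogeneousSubmodule (Fin (n + 1)) K (d j)) =
              LinearMap.single K (fun j => homogeneousSubmodule (Fin (n + 1)) K (d j)) j
                ⟨X b.succ * w, hX j b w hw⟩ := by
            funext i
            apply Subtype.ext
            by_cases h : i = j
            · subst h
              rw [LinearMap.single_apply, Pi.single_eq_same, Pi.single_eq_same]
            · rw [LinearMap.single_apply, Pi.single_eq_of_ne h, Pi.single_eq_of_ne h]
              simp
          rw [h3] at h2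
          exact h2
        · exact ⟨⟨g j, hg j⟩, hTT' (hT j), rfl⟩
      obtain ⟨v', hv', h2⟩ := h1
      have h3 : v' = v j := Subtype.ext h2
      rw [← h3]
      exact hv')
  refine ⟨fun i j => (w i j).1, fun i j => (w i j).2, fun f => ?_⟩
  have h1 : f ∈ T ⊔ Submodule.span K
      (Set.range fun x : Fin n × Fin c => (fun j => ⟨X x.1.succ * (w x.2 j).1, hX j x.1 _ (w x.2 j).2⟩ :
        ∀ j, homogeneousSubmodule (Fin (n + 1)) K (d j))) := by
    rw [hw]
    trivial
  obtain ⟨t, ht, v, hv, htv⟩ := Submodule.mem_sup.1 h1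
  obtain ⟨ν, hν⟩ := (Submodule.mem_span_range_iff_exists_fun K).1 hv
  refine ⟨t, ht, fun i b => ν (b, i), fun j => ?_⟩
  have h2 := congrArg (fun z : ∀ j, homogeneousSubmodule (Fin (n + 1)) K (d j) => (z j).1) htv
  simp only [Pi.add_apply, Submodule.coe_add] at h2
  rw [← h2, ← hν, Finset.sum_apply, Submodule.coe_sum]
  congr 1
  rw [Fintype.sum_prod_type, Finset.sum_comm]
  refine Finset.sum_congr rfl fun i _ => ?_
  rw [Finset.sum_mul]
  refine Finset.sum_congr rfl fun b _ => ?_
  rw [Pi.smul_apply, Submodule.coe_smul, smul_eq_C_mul]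
  ring

end Pool.Agent.H78B
end

-- from Lib.H78B.B6a
section

set_option autoImplicit false

/-!
B6a (S/M, four lemmas).  Linear substitutions: `subB A F = F ∘ A`.

b6_sub: `algHom_ext` (both sides are values of algebra homomorphisms; on `X i`:
`∑_j C (A' i j) * ∑_k C (A j k) * X k = X i`).  b6_hom: `IsHomogeneous.aeval` as in
`H89T.shear_homogeneous` (Lib/H89T/DP8.lean).  b6_eval: induction as in `H89T.eval_shear`.
b6_mcf: `H89T.mcf_aeval` (Lib/H89T/DP6.lean); `mcf D (∑ j, C (A i j) * X j) = 0`.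
-/

open MvPolynomial

namespace Pool.Agent.H78B

open Pool.Agent.H89T Pool.Agent.H53Y

theorem b6_sub {B : Type} [CommRing B] {n : ℕ} (A A' : Matrix (Fin (n + 1)) (Fin (n + 1)) B)
    (h : A' * A = 1) (F : MvPolynomial (Fin (n + 1)) B) : subB A (subB A' F) = F := by
  induction F using MvPolynomial.induction_on with
  | C x => simp [subB, MvPolynomial.algebraMap_eq]
  | add p q hp hq =>
    simp only [subB, map_add] at hp hq ⊢
    rw [hp, hq]
  | mul_X p i hp =>
    simp only [subB, map_mul, aeval_X] at hp ⊢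
    rw [hp]
    congr 1
    rw [map_sum]
    have h1 : ∀ j, aeval (fun i => ∑ j, C (A i j) * X j : Fin (n + 1) →
        MvPolynomial (Fin (n + 1)) B) (C (A' i j) * X j : MvPolynomial (Fin (n + 1)) B) =
        ∑ l, C (A' i j * A j l) * X l := by
      intro j
      rw [map_mul, aeval_C, aeval_X, MvPolynomial.algebraMap_eq, Finset.mul_sum]
      refine Finset.sum_congr rfl fun l _ => ?_
      rw [← mul_assoc, ← C_mul]
    rw [Finset.sum_congr rfl fun j _ => h1 j, Finset.sum_comm]
    have h2 : ∀ l, ∑ j, (C (A' i j * A j l) * X l : MvPolynomial (Fin (n + 1)) B) =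
        C ((1 : Matrix (Fin (n + 1)) (Fin (n + 1)) B) i l) * X l := by
      intro l
      rw [← Finset.sum_mul, ← map_sum, ← h, Matrix.mul_apply]
    rw [Finset.sum_congr rfl fun l _ => h2 l, Finset.sum_eq_single i]
    · rw [Matrix.one_apply_eq, C_1, one_mul]
    · intro l _ hl
      rw [Matrix.one_apply_ne (Ne.symm hl), C_0, zero_mul]
    · intro hi
      exact absurd (Finset.mem_univ i) hi

theorem b6_hom {B : Type} [CommRing B] {n k : ℕ} (A : Matrix (Fin (n + 1)) (Fin (n + 1)) B)
    {F : MvPolynomial (Fin (n + 1)) B} (hF : F.IsHomogeneous k) : (subB A F).IsHomogeneous k := by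
  have h := hF.aeval (fun i => ∑ j, C (A i j) * X j :
    Fin (n + 1) → MvPolynomial (Fin (n + 1)) B) (n := 1) (fun i => by
      refine IsHomogeneous.sum _ _ _ fun j _ => ?_
      have h1 := (isHomogeneous_C (Fin (n + 1)) (A i j)).mul (isHomogeneous_X B j)
      rwa [zero_add] at h1)
  rwa [one_mul] at h

theorem b6_eval {B : Type} [CommRing B] {n : ℕ} (A : Matrix (Fin (n + 1)) (Fin (n + 1)) B)
    (F : MvPolynomial (Fin (n + 1)) B) :
    eval (Pi.single 0 1) (subB A F) = eval (fun i => A i 0) F := by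
  induction F using MvPolynomial.induction_on with
  | C x => simp [subB, MvPolynomial.algebraMap_eq]
  | add p q hp hq =>
    simp only [subB, map_add] at hp hq ⊢
    rw [hp, hq]
  | mul_X p i hp =>
    simp only [subB, map_mul, aeval_X, eval_X] at hp ⊢
    rw [hp]
    congr 1
    rw [map_sum, Finset.sum_eq_single 0]
    · rw [map_mul, eval_C, eval_X, Pi.single_eq_same, mul_one]
    · intro j _ hj
      rw [map_mul, eval_X, Pi.single_eq_of_ne hj, mul_zero]
    · intro h
      exact absurd (Finset.mem_univ _) h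

theorem b6_mcf {B : Type} [CommRing B] [Algebra ℂ B] {n : ℕ} (D : Derivation ℂ B B)
    (A : Matrix (Fin (n + 1)) (Fin (n + 1)) B) (hA : ∀ i j, D (A i j) = 0)
    (F : MvPolynomial (Fin (n + 1)) B) : mcf D (subB A F) = subB A (mcf D F) := by
  rw [subB, mcf_aeval, subB, Finset.sum_eq_zero, add_zero]
  intro i _
  rw [map_sum, Finset.sum_eq_zero, mul_zero]
  intro j _
  rw [Derivation.leibniz, mcf_X, mcf_C, hA, C_0, smul_zero, smul_zero, add_zero]

end Pool.Agent.H78B
end

-- from Lib.H78B.B6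
section

set_option autoImplicit false

/-!
B6 (M/L).  The generic point: for algebraically independent coefficients `(f, η)` and arbitrary
parameters `A, Lam` over the field `K` there are `S` and an extension with `Θ S ≠ 0`.

Proof.  Let `τ0 = FV .. ⊕ LV ..`, `ρ0` = the entries of `A` and of all `Lam s` (`card ρ0 ≤ c` by `hc`).
(1) `der_codim` for `π = aeval (Sum.elim f η)` and the entries as parameters: `p0 : Fin c → (τ0 → K)`.
(2) Let `VL = ∀ j, homogeneousSubmodule (Fin (n + 1)) K (d j)`, `U x = Fin (mv (sx x) + 1) → K`, and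
`T ≤ VL × (∀ x, U x)` the set of the pairs `(fun j => subB A (mcf D (fmB f j)), fun x l => D (η ⟨x, l⟩))`,
`D` a derivation of `K` over `ℂ` which kills all entries of `A` and of the `Lam s`.  `T ⊔ span (range p)
= ⊤` for `p i = (subB A (form with coefficients p0 i), part of p0 i)`: every `F : VL` is `subB A` of
`subB A' F` (b6_sub).
(3) `choose_S part T p`: `S`, `q`.
(4) Let `T' ≤ VL` be the submodule of the `v` such that `(v - ∑_j μ_j • (g_j)_j, u) ∈ T` for some
`μ : ιL → K` and some `u` with `u x = 0` for `part x ∉ S`; `g j = subB A (fmB f j)`, homogeneous of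
degree `d j`, `g j (e_0) = f j (A e_0) ≠ 0` (b6_eval).  `greedy_family` with `T'`, `q` gives `w`.
(5) `gen_specialize` with `τ = LV (fun x : {x // part x ∉ S} => m (sx x.1))`, `θ = resB η Lam _`.
`hspan`: given `F`, `v`: by (3) there is `t ∈ T` with `t.2 x l = ∑_b v ⟨x, b⟩ * Lb (sx x) b l` for
`part x ∉ S`, coming from a derivation `D₀`; `D₀ (θ ⟨x, b⟩) = ∑_l D₀ (η ⟨x, l⟩) * Lam l b = v ⟨x, b⟩`
(`Lb * Lam = 1`; `D₀` kills `Lam`).  Apply (4) to `F - t.1`: `F - t.1 = t' + ∑ ..`,
`t' = t'' .1 + ∑ μ_j g_j`, `t'' ∈ T` coming from `D₁` with `D₁ η = 0` outside `S`, so `D₁ θ = 0`.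
`D = D₀ + D₁`; `mcf D (g j) = subB A (mcf D (fmB f j))` because `D` kills `A` (b6_mcf).
-/

open MvPolynomial

namespace Pool.Agent.H78B

open Pool.Agent.H89T Pool.Agent.H53Y

section

variable {K : Type} [Field K] [Algebra ℂ K]

theorem b6_mcf_add {ι : Type} (D D' : Derivation ℂ K K) (g : MvPolynomial ι K) :
    mcf (D + D') g = mcf D g + mcf D' g := by
  ext m
  simp

theorem b6_mcf_smul {ι : Type} (a : K) (D : Derivation ℂ K K) (g : MvPolynomial ι K) :
    mcf (a • D) g = a • mcf D g := by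
  ext m
  simp

theorem b6_sub_add {n : ℕ} (A : Matrix (Fin (n + 1)) (Fin (n + 1)) K)
    (F G : MvPolynomial (Fin (n + 1)) K) : subB A (F + G) = subB A F + subB A G := by
  unfold subB
  exact map_add _ _ _

theorem b6_sub_smul {n : ℕ} (A : Matrix (Fin (n + 1)) (Fin (n + 1)) K) (a : K)
    (F : MvPolynomial (Fin (n + 1)) K) : subB A (a • F) = a • subB A F := by
  unfold subB
  exact map_smul _ _ _

theorem b6_sub_sum {n : ℕ} {ι : Type} (s : Finset ι) (A : Matrix (Fin (n + 1)) (Fin (n + 1)) K)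
    (F : ι → MvPolynomial (Fin (n + 1)) K) : subB A (∑ i ∈ s, F i) = ∑ i ∈ s, subB A (F i) := by
  unfold subB
  exact map_sum _ _ _

theorem b6_fmB_hom {n : ℕ} {ιL : Type} {d : ιL → ℕ} (f : FV (Fin (n + 1)) d → K) (j : ιL) :
    (fmB f j).IsHomogeneous (d j) := fm_homogeneous _


/-- the map to the linear forms -/
def b6eta {κ σ : Type} {mv : σ → ℕ} {sx : κ → σ} (η : LV (fun x => mv (sx x)) → K) :
    Derivation ℂ K K →ₗ[K] (∀ x : κ, Fin (mv (sx x) + 1) → K) where
  toFun D x l := D (η ⟨x, l⟩)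
  map_add' D D' := rfl
  map_smul' a D := rfl


/-- the derivations which kill the forms outside `S` -/
def b6M {κ σ : Type} {mv : σ → ℕ} {sx : κ → σ} (η : LV (fun x => mv (sx x)) → K) {nb : ℕ}
    (part : κ → Fin nb) (S : Finset (Fin nb)) : Submodule K (Derivation ℂ K K) where
  carrier := {D | ∀ x, part x ∉ S → ∀ l, D (η ⟨x, l⟩) = 0}
  zero_mem' := fun _ _ _ => rfl
  add_mem' := by
    intro D D' h1 h2 x hx l
    rw [Derivation.add_apply, h1 x hx l, h2 x hx l, add_zero]
  smul_mem' := by
    intro a D h1 x hx l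
    rw [Derivation.smul_apply, h1 x hx l, smul_zero]

end





end Pool.Agent.H78B
end
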