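import Pool.Agent.Lib.H1M.PB.M027

/-! Merged copies (to shorten the build) of Lib.H78G.D2, Lib.H78G.W0, Lib.H78G.D5B. -/

-- from Lib.H78G.D2
section

set_option autoImplicit false

/-!
CHUNK D2 (M, adapt `H89T/DE.lean`).  Growth of `QQ` in terms of `LamG`.
-/

open MvPolynomial Real Pool.Agent.H67T

namespace Pool.Agent.H78G

open Pool.Agent.H89T

theorem D2_triple {α β γ : Type} [Fintype α] [Fintype β] [Fintype γ] {f : α → β → γ → ℝ}
    (hf : ∀ a b c, 0 ≤ f a b c) (a : α) (b : β) (c : γ) :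
    f a b c ≤ ∑ a, ∑ b, ∑ c, f a b c := by
  have h1 : f a b c ≤ ∑ c, f a b c :=
    Finset.single_le_sum (f := fun c => f a b c) (fun _ _ => hf _ _ _) (Finset.mem_univ c)
  have h2 : ∑ c, f a b c ≤ ∑ b, ∑ c, f a b c :=
    Finset.single_le_sum (f := fun b => ∑ c, f a b c)
      (fun _ _ => Finset.sum_nonneg fun _ _ => hf _ _ _) (Finset.mem_univ b)
  have h3 : ∑ b, ∑ c, f a b c ≤ ∑ a, ∑ b, ∑ c, f a b c :=
    Finset.single_le_sum (f := fun a => ∑ b, ∑ c, f a b c)
      (fun _ _ => Finset.sum_nonneg fun _ _ => Finset.sum_nonneg fun _ _ => hf _ _ _)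
      (Finset.mem_univ a)
  linarith

theorem D2_nonneg {α β γ : Type} [Fintype α] [Fintype β] [Fintype γ] {f : α → β → γ → ℝ}
    (hf : ∀ a b c, 0 ≤ f a b c) : 0 ≤ ∑ a, ∑ b, ∑ c, f a b c :=
  Finset.sum_nonneg fun _ _ => Finset.sum_nonneg fun _ _ => Finset.sum_nonneg fun _ _ => hf _ _ _

/-- CHUNK D2. -/
theorem one_le_LamG {m : ℕ} {ι : Type} [Fintype ι] (y : ℂ → Fin (m + 1) → ℂ)
    (θ : ι → Fin (m + 1) → ℂ) (L : ℕ) (z : ℂ) : 1 ≤ LamG y θ L z := by
  unfold LamG
  have h1 := D2_nonneg (f := fun (c j : Fin (m + 1)) (l : Fin (L + 1)) =>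
    ‖iteratedDeriv (l : ℕ) (fun w => y w j / y w c) z / (y z j / y z c)‖)
    fun _ _ _ => norm_nonneg _
  have h2 := D2_nonneg (f := fun (c : Fin (m + 1)) (i : ι) (l : Fin (L + 1)) =>
    ‖iteratedDeriv (l : ℕ) (fun w => lin (θ i) (y w) / y w c) z / (lin (θ i) (y z) / y z c)‖)
    fun _ _ _ => norm_nonneg _
  linarith

/-- CHUNK D2. -/
theorem term1_le_LamG {m : ℕ} {ι : Type} [Fintype ι] (y : ℂ → Fin (m + 1) → ℂ)
    (θ : ι → Fin (m + 1) → ℂ) (L : ℕ) (z : ℂ) (c j : Fin (m + 1)) (l : Fin (L + 1)) :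
    ‖iteratedDeriv (l : ℕ) (fun w => y w j / y w c) z / (y z j / y z c)‖ ≤ LamG y θ L z := by
  unfold LamG
  have h1 := D2_triple (f := fun (c j : Fin (m + 1)) (l : Fin (L + 1)) =>
    ‖iteratedDeriv (l : ℕ) (fun w => y w j / y w c) z / (y z j / y z c)‖)
    (fun _ _ _ => norm_nonneg _) c j l
  have h2 := D2_nonneg (f := fun (c : Fin (m + 1)) (i : ι) (l : Fin (L + 1)) =>
    ‖iteratedDeriv (l : ℕ) (fun w => lin (θ i) (y w) / y w c) z / (lin (θ i) (y z) / y z c)‖)
    fun _ _ _ => norm_nonneg _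
  linarith

/-- CHUNK D2. -/
theorem term2_le_LamG {m : ℕ} {ι : Type} [Fintype ι] (y : ℂ → Fin (m + 1) → ℂ)
    (θ : ι → Fin (m + 1) → ℂ) (L : ℕ) (z : ℂ) (c : Fin (m + 1)) (i : ι) (l : Fin (L + 1)) :
    ‖iteratedDeriv (l : ℕ) (fun w => lin (θ i) (y w) / y w c) z / (lin (θ i) (y z) / y z c)‖ ≤
      LamG y θ L z := by
  unfold LamG
  have h1 := D2_nonneg (f := fun (c j : Fin (m + 1)) (l : Fin (L + 1)) =>
    ‖iteratedDeriv (l : ℕ) (fun w => y w j / y w c) z / (y z j / y z c)‖)
    fun _ _ _ => norm_nonneg _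
  have h2 := D2_triple (f := fun (c : Fin (m + 1)) (i : ι) (l : Fin (L + 1)) =>
    ‖iteratedDeriv (l : ℕ) (fun w => lin (θ i) (y w) / y w c) z / (lin (θ i) (y z) / y z c)‖)
    (fun _ _ _ => norm_nonneg _) c i l
  linarith

/-- The jets are bounded by the logarithmic derivatives. -/
theorem D2_norm_jetf_le {m : ℕ} {ι : Type} [Fintype ι] (y : ℂ → Fin (m + 1) → ℂ)
    (θ : ι → Fin (m + 1) → ℂ) {r L : ℕ} (hL : r ≤ L)
    (c : Fin (m + 1)) (z : ℂ) (hz : ∀ j, y z j ≠ 0) (p : JV m r) :
    ‖jetf r (ch c y) z p‖ ≤ LamG y θ L z * (‖y z‖ / ‖y z c‖) := by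
  have hch : ch c y z p.1 ≠ 0 := div_ne_zero (hz _) (hz _)
  have h1 : ‖jetf r (ch c y) z p‖ ≤ ‖iteratedDeriv (p.2 : ℕ) (fun w => ch c y w p.1) z‖ := by
    unfold jetf
    rw [norm_div]
    refine div_le_self (norm_nonneg _) ?_
    rw [Complex.norm_natCast]
    exact_mod_cast Nat.one_le_iff_ne_zero.mpr (Nat.factorial_ne_zero _)
  have h2 : ‖iteratedDeriv (p.2 : ℕ) (fun w => ch c y w p.1) z‖ =
      ‖iteratedDeriv (p.2 : ℕ) (fun w => ch c y w p.1) z / ch c y z p.1‖ * ‖ch c y z p.1‖ := by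
    rw [← norm_mul, div_mul_cancel₀ _ hch]
  have h3 : ‖iteratedDeriv (p.2 : ℕ) (fun w => ch c y w p.1) z / ch c y z p.1‖ ≤ LamG y θ L z :=
    term1_le_LamG y θ L z c (c.succAbove p.1) ⟨(p.2 : ℕ), by have := p.2.2; omega⟩
  have h4 : ‖ch c y z p.1‖ ≤ ‖y z‖ / ‖y z c‖ := by
    unfold ch
    rw [norm_div]
    exact div_le_div_of_nonneg_right (norm_le_pi_norm (y z) _) (norm_nonneg _)
  have h5 := one_le_LamG y θ L z
  calc ‖jetf r (ch c y) z p‖ ≤ _ := h1
    _ = _ := h2
    _ ≤ LamG y θ L z * (‖y z‖ / ‖y z c‖) :=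
      mul_le_mul h3 h4 (norm_nonneg _) (by linarith)


end Pool.Agent.H78G
end

-- from Lib.H78G.W0
section

set_option autoImplicit false

/-!
CHUNK W0 (M, adapt the lemmas `WtA...` of `H89T/C3.lean`).  Weights.
-/

open MvPolynomial

namespace Pool.Agent.H78G

open Pool.Agent.H89T

section Tau

variable {n r : ℕ} {τ : Type}

/-- The weight of a monomial. -/
def w0w (m : JV n r ⊕ τ →₀ ℕ) : ℕ := ∑ p : JV n r, ((p.2 : ℕ) + 1) * m (Sum.inl p)

theorem w0w_add (m m' : JV n r ⊕ τ →₀ ℕ) : w0w (m + m') = w0w m + w0w m' := by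
  unfold w0w
  rw [← Finset.sum_add_distrib]
  refine Finset.sum_congr rfl fun p _ => ?_
  rw [Finsupp.add_apply, mul_add]

theorem w0w_zero : w0w (0 : JV n r ⊕ τ →₀ ℕ) = 0 := by
  unfold w0w
  simp

theorem w0w_single_inl (p : JV n r) (e : ℕ) :
    w0w (Finsupp.single (Sum.inl p : JV n r ⊕ τ) e) = ((p.2 : ℕ) + 1) * e := by
  classical
  unfold w0w
  rw [Finset.sum_eq_single p]
  · simp
  · intro q _ hq
    rw [Finsupp.single_apply, if_neg (fun h => hq (Sum.inl_injective h).symm), mul_zero]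
  · intro h; exact absurd (Finset.mem_univ _) h

theorem w0w_single_inr (s : τ) (e : ℕ) :
    w0w (Finsupp.single (Sum.inr s : JV n r ⊕ τ) e) = 0 := by
  classical
  unfold w0w
  refine Finset.sum_eq_zero fun q _ => ?_
  rw [Finsupp.single_apply, if_neg (by simp), mul_zero]

/-- CHUNK W0. -/
theorem WtS.mono {d d' : ℕ} {P : MvPolynomial (JV n r ⊕ τ) ℂ} (h : WtS d P) (hd : d ≤ d') :
    WtS d' P := by
  exact fun m hm => (h m hm).trans hd

/-- CHUNK W0. -/
theorem WtS.zero (d : ℕ) : WtS d (0 : MvPolynomial (JV n r ⊕ τ) ℂ) := by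
  intro m hm
  simp at hm

/-- CHUNK W0. -/
theorem WtS.add {d : ℕ} {P Q : MvPolynomial (JV n r ⊕ τ) ℂ} (hP : WtS d P) (hQ : WtS d Q) :
    WtS d (P + Q) := by
  classical
  intro m hm
  rcases Finset.mem_union.1 (support_add hm) with h | h
  · exact hP m h
  · exact hQ m h

/-- CHUNK W0. -/
theorem WtS.neg {d : ℕ} {P : MvPolynomial (JV n r ⊕ τ) ℂ} (hP : WtS d P) : WtS d (-P) := by
  intro m hm
  rw [support_neg] at hm
  exact hP m hm

/-- CHUNK W0. -/
theorem WtS.mul {d d' : ℕ} {P Q : MvPolynomial (JV n r ⊕ τ) ℂ} (hP : WtS d P) (hQ : WtS d' Q) :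
    WtS (d + d') (P * Q) := by
  classical
  intro m hm
  obtain ⟨m1, h1, m2, h2, rfl⟩ := Finset.mem_add.1 (support_mul P Q hm)
  have e := w0w_add m1 m2
  have a := hP m1 h1
  have b := hQ m2 h2
  change w0w (m1 + m2) ≤ d + d'
  change w0w m1 ≤ d at a
  change w0w m2 ≤ d' at b
  omega

/-- CHUNK W0. -/
theorem WtS.sum {ι : Type} {s : Finset ι} {d : ℕ} {P : ι → MvPolynomial (JV n r ⊕ τ) ℂ}
    (hP : ∀ i ∈ s, WtS d (P i)) : WtS d (∑ i ∈ s, P i) := by
  classical
  induction s using Finset.induction_on with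
  | empty => exact WtS.zero d
  | insert i s hi ih =>
    rw [Finset.sum_insert hi]
    exact (hP i (Finset.mem_insert_self _ _)).add
      (ih fun j hj => hP j (Finset.mem_insert_of_mem hj))

theorem w0_monomial_le {d : ℕ} (m : JV n r ⊕ τ →₀ ℕ) (c : ℂ) (hm : w0w m ≤ d) :
    WtS d (MvPolynomial.monomial m c) := by
  classical
  intro m' hm'
  have h := support_monomial_subset hm'
  rw [Finset.mem_singleton] at h
  rw [h]
  exact hm

/-- CHUNK W0. -/
theorem WtS.prod {ι : Type} {s : Finset ι} {d : ι → ℕ} {P : ι → MvPolynomial (JV n r ⊕ τ) ℂ}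
    (hP : ∀ i ∈ s, WtS (d i) (P i)) : WtS (∑ i ∈ s, d i) (∏ i ∈ s, P i) := by
  classical
  induction s using Finset.induction_on with
  | empty =>
    rw [Finset.prod_empty, Finset.sum_empty]
    exact w0_monomial_le (n := n) (r := r) (τ := τ) 0 1 (le_of_eq w0w_zero)
  | insert i s hi ih =>
    rw [Finset.prod_insert hi, Finset.sum_insert hi]
    exact (hP i (Finset.mem_insert_self _ _)).mul
      (ih fun j hj => hP j (Finset.mem_insert_of_mem hj))

/-- CHUNK W0. -/
theorem WtS.pow {d : ℕ} {P : MvPolynomial (JV n r ⊕ τ) ℂ} (hP : WtS d P) (e : ℕ) :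
    WtS (e * d) (P ^ e) := by
  induction e with
  | zero =>
    rw [pow_zero, zero_mul]
    exact w0_monomial_le (n := n) (r := r) (τ := τ) 0 1 (le_of_eq w0w_zero)
  | succ e ih =>
    rw [pow_succ, Nat.succ_mul]
    exact ih.mul hP

/-- CHUNK W0. -/
theorem WtS.const (c : ℂ) : WtS (n := n) (r := r) (τ := τ) 0 (C c) := by
  exact w0_monomial_le 0 c (le_of_eq w0w_zero)

/-- CHUNK W0. -/
theorem WtS.inr (s : τ) : WtS (n := n) (r := r) 0 (X (Sum.inr s)) := by
  exact w0_monomial_le _ _ (le_of_eq (w0w_single_inr s 1))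

/-- CHUNK W0. -/
theorem WtS.inl (p : JV n r) : WtS (τ := τ) ((p.2 : ℕ) + 1) (X (Sum.inl p)) := by
  exact w0_monomial_le _ _ (le_of_eq (by rw [w0w_single_inl, mul_one]))

/-- CHUNK W0.  Every polynomial has some weight. -/
theorem WtS.exists (P : MvPolynomial (JV n r ⊕ τ) ℂ) : ∃ d, WtS d P := by
  exact ⟨∑ m ∈ P.support, w0w m, fun m hm =>
    Finset.single_le_sum (f := fun m => w0w m) (fun _ _ => Nat.zero_le _) hm⟩

theorem w0w_mapDomain {τ' : Type} (f : τ → τ') (m : JV n r ⊕ τ →₀ ℕ) :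
    w0w (Finsupp.mapDomain (Sum.map id f) m) = w0w m := by
  classical
  induction m using Finsupp.induction_linear with
  | zero => rw [Finsupp.mapDomain_zero, w0w_zero, w0w_zero]
  | add m1 m2 h1 h2 => rw [Finsupp.mapDomain_add, w0w_add, w0w_add, h1, h2]
  | single s e =>
    rw [Finsupp.mapDomain_single]
    rcases s with p | s
    · rw [Sum.map_inl, id, w0w_single_inl, w0w_single_inl]
    · rw [Sum.map_inr, w0w_single_inr, w0w_single_inr]

/-- CHUNK W0.  Renaming the variables of weight `0` (not necessarily injectively). -/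
theorem WtS.rename {τ' : Type} (f : τ → τ') {d : ℕ} {P : MvPolynomial (JV n r ⊕ τ) ℂ}
    (hP : WtS d P) : WtS d (MvPolynomial.rename (Sum.map id f) P) := by
  classical
  rw [P.as_sum, map_sum]
  refine WtS.sum fun m hm => ?_
  rw [rename_monomial]
  exact w0_monomial_le _ _ (by rw [w0w_mapDomain]; exact hP m hm)

/-- CHUNK W0.  The determinant `Wd` has weight at most `(n + 1) * n` (every entry has weight at most
`n + 1`). -/
theorem WtS.Wd (hr : n ≤ r) :
    WtS ((n + 1) * n) (Pool.Agent.H78G.Wd hr fun p =>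
      (X (Sum.inl p) : MvPolynomial (JV n r ⊕ τ) ℂ)) := by
  classical
  unfold Pool.Agent.H78G.Wd
  rw [Matrix.det_apply]
  refine WtS.sum fun σ _ => ?_
  have h1 : WtS ((n + 1) * n) (∏ i : Fin n, (Matrix.of fun b l : Fin n =>
      (X (Sum.inl (b, ⟨(l : ℕ) + 1, by omega⟩)) : MvPolynomial (JV n r ⊕ τ) ℂ)) (σ i) i) := by
    have h2 : WtS (∑ _i : Fin n, (n + 1)) (∏ i : Fin n, (Matrix.of fun b l : Fin n =>
      (X (Sum.inl (b, ⟨(l : ℕ) + 1, by omega⟩)) : MvPolynomial (JV n r ⊕ τ) ℂ)) (σ i) i) := by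
      refine WtS.prod fun i _ => ?_
      rw [Matrix.of_apply]
      refine (WtS.inl _).mono ?_
      have := i.2
      simp only
      omega
    refine h2.mono ?_
    rw [Finset.sum_const, Finset.card_univ, Fintype.card_fin, smul_eq_mul, mul_comm]
  rcases Int.units_eq_one_or (Equiv.Perm.sign σ) with h | h
  · rw [h, one_smul]
    exact h1
  · rw [h, Units.neg_smul, one_smul]
    exact h1.neg

/-- The value of a derivation on a monomial. -/
theorem w0_deriv_mem (V : Derivation ℂ (MvPolynomial (JV n r ⊕ τ) ℂ)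
    (MvPolynomial (JV n r ⊕ τ) ℂ)) {c : ℕ}
    (hV : ∀ s, WtS c (V (MvPolynomial.X s))) (m : JV n r ⊕ τ →₀ ℕ) (a : ℂ) :
    WtS (w0w m + c) (V (MvPolynomial.monomial m a)) := by
  classical
  induction m using Finsupp.induction_linear generalizing a with
  | zero =>
    have : V (MvPolynomial.monomial 0 a) = 0 := by
      have h := Derivation.map_algebraMap V a
      exact h
    rw [this]
    exact WtS.zero _
  | add m1 m2 h1 h2 =>
    have h3 : (MvPolynomial.monomial (m1 + m2) a : MvPolynomial (JV n r ⊕ τ) ℂ)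
        = MvPolynomial.monomial m1 a * MvPolynomial.monomial m2 1 := by
      rw [MvPolynomial.monomial_mul, mul_one]
    rw [h3, Derivation.leibniz, smul_eq_mul, smul_eq_mul, w0w_add]
    refine WtS.add ?_ ?_
    · have h4 := (w0_monomial_le m1 a le_rfl).mul (h2 1)
      exact h4.mono (by omega)
    · have h4 := (w0_monomial_le m2 1 le_rfl).mul (h1 a)
      exact h4.mono (by omega)
  | single s e =>
    induction e generalizing a with
    | zero =>
      rw [Finsupp.single_zero]
      have : V (MvPolynomial.monomial 0 a) = 0 := by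
        have h := Derivation.map_algebraMap V a
        exact h
      rw [this]
      exact WtS.zero _
    | succ e ih =>
      have h3 : (MvPolynomial.monomial (Finsupp.single s (e + 1)) a :
          MvPolynomial (JV n r ⊕ τ) ℂ)
          = MvPolynomial.monomial (Finsupp.single s e) a * MvPolynomial.X s := by
        rw [MvPolynomial.X, MvPolynomial.monomial_mul, mul_one, ← Finsupp.single_add]
      have h5 : w0w (Finsupp.single s (e + 1)) = w0w (Finsupp.single s e)
          + w0w (Finsupp.single s 1) := by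
        rw [Finsupp.single_add, w0w_add]
      rw [h3, Derivation.leibniz, smul_eq_mul, smul_eq_mul, h5]
      refine WtS.add ?_ ?_
      · have h4 := (w0_monomial_le (Finsupp.single s e) a le_rfl).mul (hV s)
        exact h4.mono (by omega)
      · have h4 := (w0_monomial_le (Finsupp.single s 1) 1 le_rfl).mul (ih a)
        exact h4.mono (by omega)

end Tau

variable {n K r : ℕ}

/-- CHUNK W0.  Applying a field of weight `c` raises the weight by at most `c` (as in
`H89T.WtA.field`). -/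
theorem WtS.field {d c : ℕ} {g : HV n K → UA n K r} {lam : Fin n → Polynomial (UA n K r)}
    (hg : ∀ s, WtS c (g s)) (hlam : ∀ b i, WtS c ((lam b).coeff i)) {P : UA n K r}
    (hP : WtS d P) : WtS (d + c) (VU g lam P) := by
  have hV : ∀ s, WtS c (VU g lam (MvPolynomial.X s)) := by
    rintro (p | s)
    · unfold VU
      rw [mkDerivation_X, Sum.elim_inl]
      exact hlam p.1 _
    · unfold VU
      rw [mkDerivation_X, Sum.elim_inr]
      exact hg s
  rw [P.as_sum, map_sum]
  refine WtS.sum fun m hm => ?_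
  have h1 := hP m hm
  change w0w m ≤ d at h1
  exact (w0_deriv_mem _ hV m _).mono (by omega)

end Pool.Agent.H78G
end

-- from Lib.H78G.D5B
section

set_option autoImplicit false

/-!
CHUNK D5B (M).  The full Wronskian: linear changes, charts.
-/

open MvPolynomial Real Pool.Agent.H67T

namespace Pool.Agent.H78G

open Pool.Agent.H89T

/-- CHUNK D5B (S). -/
theorem Wr_diff {m : ℕ} {y : ℂ → Fin (m + 1) → ℂ} (hy : ∀ j, Differentiable ℂ fun z => y z j) :
    Differentiable ℂ (Wr y) := by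
  unfold Wr
  simp only [Matrix.det_apply', Matrix.of_apply]
  refine Differentiable.fun_sum fun σ _ => Differentiable.const_mul ?_ _
  refine Differentiable.fun_finsetProd fun i _ => ?_
  exact ContDiff.differentiable_iteratedDeriv' _ (hy _).contDiff

/-- CHUNK D5B (S).  Linear change of coordinates. -/
theorem Wr_mulVec {m : ℕ} {y : ℂ → Fin (m + 1) → ℂ} (hy : ∀ j, Differentiable ℂ fun z => y z j)
    (g : Matrix (Fin (m + 1)) (Fin (m + 1)) ℂ) (z : ℂ) :
    Wr (fun w => g.mulVec (y w)) z = g.det * Wr y z := by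
  have h1 : (Matrix.of fun l j : Fin (m + 1) =>
      iteratedDeriv (l : ℕ) (fun w => g.mulVec (y w) j) z) =
      (Matrix.of fun l j : Fin (m + 1) => iteratedDeriv (l : ℕ) (fun w => y w j) z) *
        g.transpose := by
    ext l j
    rw [Matrix.mul_apply]
    simp only [Matrix.of_apply, Matrix.transpose_apply, Matrix.mulVec, dotProduct]
    rw [iteratedDeriv_fun_sum]
    · refine Finset.sum_congr rfl fun i _ => ?_
      rw [iteratedDeriv_const_mul_field, mul_comm]
    · intro i _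
      exact ((hy i).const_mul _).contDiff.contDiffAt
  unfold Wr
  rw [h1, Matrix.det_mul, Matrix.det_transpose, mul_comm]

/-- CHUNK D5B (M).  The Wronskian in a chart.  Proof: `y_j = y_c f_j` near `z`, `f_c = 1`; by Leibniz the
matrix `(y_j ^ (l))_{l,j}` is a lower triangular matrix with diagonal entries `y_c` times
`(f_j ^ (l))_{l,j}`; the column `c` of the latter is `(1, 0, ..., 0)`; expand along it; the
remaining minor has determinant `∏ (l + 1)! * Wd`. -/
theorem Wd_ne_zero_of_Wr {m r : ℕ} (hr : m ≤ r) {y : ℂ → Fin (m + 1) → ℂ}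
    (hy : ∀ j, Differentiable ℂ fun z => y z j) (c : Fin (m + 1)) {z : ℂ} (hz : y z c ≠ 0)
    (hW : Wr y z ≠ 0) : Wd hr (jetf r (ch c y) z) ≠ 0 := by
  classical
  intro hWd
  apply hW
  set f : Fin (m + 1) → ℂ → ℂ := fun j w => y w j / y w c with hf
  have hne : ∀ᶠ w in nhds z, y w c ≠ 0 := (hy c).continuous.continuousAt.eventually_ne hz
  have hev : ∀ j, (fun w => y w j) =ᶠ[nhds z] (f j * fun w => y w c) := by
    intro j
    filter_upwards [hne] with w hw
    simp only [hf, Pi.mul_apply]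
    rw [div_mul_cancel₀ _ hw]
  have hfa : ∀ (j : Fin (m + 1)) (l : ℕ), ContDiffAt ℂ l (f j) z := by
    intro j l
    have h1 : AnalyticAt ℂ (f j) z := by
      have h2 : AnalyticAt ℂ (fun w => y w j) z := (hy j).analyticAt z
      have h3 : AnalyticAt ℂ (fun w => y w c) z := (hy c).analyticAt z
      exact h2.div h3 hz
    exact h1.contDiffAt
  set G : Matrix (Fin (m + 1)) (Fin (m + 1)) ℂ :=
    Matrix.of fun i j : Fin (m + 1) => iteratedDeriv (i : ℕ) (f j) z with hG
  set T : Matrix (Fin (m + 1)) (Fin (m + 1)) ℂ := Matrix.of fun l i : Fin (m + 1) =>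
    if (i : ℕ) ≤ l then ((l : ℕ).choose i : ℂ) * iteratedDeriv ((l : ℕ) - i) (fun w => y w c) z
    else 0 with hT
  have hTG : (Matrix.of fun l j : Fin (m + 1) => iteratedDeriv (l : ℕ) (fun w => y w j) z) =
      T * G := by
    ext l j
    rw [Matrix.mul_apply]
    simp only [hT, hG, Matrix.of_apply]
    rw [(hev j).iteratedDeriv_eq (l : ℕ), iteratedDeriv_mul (hfa j l) ((hy c).contDiff.contDiffAt)]
    have h1 : ∀ i : Fin (m + 1), (if (i : ℕ) ≤ l then ((l : ℕ).choose i : ℂ) *
        iteratedDeriv ((l : ℕ) - i) (fun w => y w c) z else 0) * iteratedDeriv (i : ℕ) (f j) z =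
        (fun i : ℕ => if i ≤ (l : ℕ) then ((l : ℕ).choose i : ℂ) * iteratedDeriv i (f j) z *
          iteratedDeriv ((l : ℕ) - i) (fun w => y w c) z else 0) i := by
      intro i
      simp only
      split_ifs
      · ring
      · ring
    rw [Finset.sum_congr rfl fun i _ => h1 i, Fin.sum_univ_eq_sum_range
      (fun i : ℕ => if i ≤ (l : ℕ) then ((l : ℕ).choose i : ℂ) * iteratedDeriv i (f j) z *
          iteratedDeriv ((l : ℕ) - i) (fun w => y w c) z else 0) (m + 1)]
    have h2 : Finset.range ((l : ℕ) + 1) ⊆ Finset.range (m + 1) := by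
      intro i hi
      rw [Finset.mem_range] at hi ⊢
      have := l.2
      omega
    rw [← Finset.sum_subset h2]
    · refine Finset.sum_congr rfl fun i hi => ?_
      rw [Finset.mem_range] at hi
      rw [if_pos (by omega)]
    · intro i _ hi
      rw [Finset.mem_range] at hi
      rw [if_neg (by omega)]
  have hGc : ∀ i : Fin (m + 1), G i c = if i = 0 then 1 else 0 := by
    intro i
    have h1 : f c =ᶠ[nhds z] fun _ => (1 : ℂ) := by
      filter_upwards [hne] with w hw
      simp only [hf]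
      exact div_self hw
    simp only [hG, Matrix.of_apply]
    rw [h1.iteratedDeriv_eq, iteratedDeriv_const]
    by_cases hi : i = 0
    · subst hi
      simp
    · have : (i : ℕ) ≠ 0 := fun h => hi (Fin.ext h)
      rw [if_neg this, if_neg hi]
  have hdet : G.det = 0 := by
    rw [Matrix.det_succ_column G c, Finset.sum_eq_zero]
    intro i _
    rw [hGc]
    by_cases hi : i = 0
    · subst hi
      have h1 : G.submatrix (Fin.succAbove 0) c.succAbove = Matrix.of fun l b : Fin m =>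
          (((l : ℕ) + 1).factorial : ℂ) * ((Matrix.of fun b l : Fin m =>
            jetf r (ch c y) z (b, ⟨(l : ℕ) + 1, by omega⟩)).transpose) l b := by
        ext l b
        simp only [Matrix.submatrix_apply, Matrix.of_apply, Matrix.transpose_apply, hG, jetf]
        have h2 : (((l : ℕ) + 1).factorial : ℂ) ≠ 0 := by
          exact_mod_cast Nat.factorial_ne_zero _
        have h3 : (((Fin.succAbove 0 l : Fin (m + 1)) : ℕ)) = (l : ℕ) + 1 := by
          rw [Fin.succAbove_zero, Fin.val_succ]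
        rw [h3, mul_div_cancel₀ _ h2]
        rfl
      rw [h1, Matrix.det_mul_column, Matrix.det_transpose]
      unfold Wd at hWd
      rw [hWd]
      simp
    · rw [if_neg hi]
      simp
  unfold Wr
  rw [hTG, Matrix.det_mul, hdet, mul_zero]

end Pool.Agent.H78G
end
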