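import Mathlib
import Pool.Agent.Lib.H1M.PB.M006
import Pool.Agent.Lib.H1M.PB.M009
import Pool.Agent.Lib.H1M.PB.M020
import Pool.Agent.Lib.H1M.PB.M021
import Pool.Agent.Lib.H1M.PB.M023
import Pool.Agent.Lib.H1M.PB.M026
import Pool.Agent.Lib.H1M.PB.M027
import Pool.Agent.Lib.H1M.PB.M029
import Pool.Agent.Lib.H1M.PB.M030

/-! Merged copies (to shorten the build) of Lib.H53V.R7, Lib.H53L.D0, Lib.H53L.BD, Lib.H53L.B02, Lib.H53L.B04, Lib.H53L.B05, Lib.H53L.CD, Lib.H53L.C7, Lib.H53R.F01. -/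

-- from Lib.H53V.R7
section

set_option autoImplicit false

/-!
CHUNK R7 (M/L).  Module R (section 1 of PROOF.md): elimination of the pivots.
-/

open MvPolynomial

namespace Pool.Agent.H53V

open Pool.Agent.H89T Pool.Agent.H67T Pool.Agent.H53U

variable {n c k : ℕ} {d : Fin c → ℕ} {B : Type*} [CommRing B]

/-- The determinant of the derivatives with respect to the pivots, a polynomial in `x`. -/
noncomputable def DelJ (k : ℕ) (J : Finset (Fin c)) (a : CI (n + c) d → B) :
    MvPolynomial (JV (n + c) k) B :=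
  (MX J (fun p => C (a p)) fun b => X (b, 0)).det

theorem r7_hom {σ : Type*} {T : Type*} [CommRing T] (ι : MvPolynomial σ B →+* T) (P : MvPolynomial σ B) :
    eval₂ (ι.comp C) (fun p => ι (X p)) P = ι P := by
  have h : eval₂Hom (ι.comp C) (fun p => ι (X p)) = ι :=
    MvPolynomial.ringHom_ext (fun r => by simp) (fun i => by simp)
  have h1 := DFunLike.congr_fun h P
  simpa using h1

/-- The evaluation of the general solution. -/
theorem r7_res {T : Type*} [CommRing T] (J : Finset (Fin c)) (aT : CI (n + c) d → T) (xT : Fin (n + c) → T)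
    (z : FZ n k J → T) (Q : MvPolynomial (JV (n + c) k) T) :
    eval z (ResX k J aT xT Q) = eval (fun p => (if p.2 = 0 then xT p.1 else 0) +
      eval z (rs k J (tra (fun b => - xT b) aT) p)) Q := by
  have h : ((eval z).comp (ResX k J aT xT).toRingHom) = eval (fun p => (if p.2 = 0 then xT p.1 else 0) +
      eval z (rs k J (tra (fun b => - xT b) aT) p)) := by
    refine MvPolynomial.ringHom_ext (fun r => ?_) (fun p => ?_)
    · simp [ResX]
    · simp only [ResX, RingHom.comp_apply, AlgHom.toRingHom_eq_coe, RingHom.coe_coe, aeval_X, map_add, eval_X]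
      split_ifs <;> simp
  exact DFunLike.congr_fun h Q

/-- PROOF.  Let `S = MvPolynomial (JV (n + c) k) B`, `I = IK k J a`, `T = Localization.Away` of the class of
`DelJ k J a` in `S ⧸ I`, `ι : S →+* T` the canonical map: if `ι P = 0` then `(DelJ k J a) ^ e * P ∈ I` for some `e`
(`IsLocalization.Away`, `IsLocalization.map_eq_zero_iff` / `exists_of_eq`), and `Δ = ι (DelJ k J a)` is a unit.
Let `aT = ι ∘ C ∘ a`, `xT b = ι (X (b, 0))`: `det (MX J aT xT) = Δ` (`MX_map`) and `U0 aT xT j = 0` for all `j`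
(`uK k a j 0 ∈ I`, `eval₂_uK`, `uu_zero`).  Let `ε : MvPolynomial (FZ n k J) T → T` be the evaluation
`ζ (b, i) ↦ Δ ^ (- 2 (i + 1)) * ι (X (b, i + 1))` (`(b, i) : FZ n k J`) and
`ξ' p = (if p.2 = 0 then xT p.1 else 0) + ε (rs k J (tra (- xT) aT) p)`, `ξ p = ι (X p)`.
Then `ξ' = ξ` by `uniq`: coordinates of order `0`: `rs_zero`; free coordinates: `rs_free`, where
`det (MJ J (tra (- xT) aT)) = det (MX J aT xT) = Δ` (`MJ_tra`); `uV aT ξ j i = ι (uK k a j i) = 0` for `j ∈ J`, `i ≤ k`
(`eval₂_uK`); `uV aT ξ' j i = ε (ResX k J aT xT (uK ..)) = 0` (`ResX_uK`); a unit is a non-zero-divisor.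
Let `P' = ResX k J (C ∘ a) X (map C P)`, over the ring `MvPolynomial (Fin (n + c)) B`, and let
`φ : MvPolynomial (Fin (n + c)) B →+* T` be the evaluation at `xT` (`eval₂Hom (ι ∘ C) xT`).  By `ResX_map`:
`map φ P' = ResX k J aT xT (map (ι ∘ C) P)`, and `ε` of it is the value of `P` at the jet `ξ' = ξ`, i.e. `ι P`
(`ResX` is an evaluation, `ξ'` as above).  The coefficients of `P'` are in the ideal generated by the `PF a j`, and
`φ (PF a j) = U0 aT xT j = 0` (`eval_PF`), so `map φ P' = 0` and `ι P = 0`. -/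
theorem elim (J : Finset (Fin c)) (a : CI (n + c) d → B) (P : MvPolynomial (JV (n + c) k) B)
    (h : ∀ ν, coeff ν (ResX k J (fun p => C (a p))
      (fun b => (X b : MvPolynomial (Fin (n + c)) B)) (map C P)) ∈ Ideal.span (Set.range (PF a))) :
    ∃ e : ℕ, DelJ k J a ^ e * P ∈ IK k J a := by
  classical
  set I : Ideal (MvPolynomial (JV (n + c) k) B) := IK k J a with hI
  set δ : (MvPolynomial (JV (n + c) k) B) ⧸ I := Ideal.Quotient.mk I (DelJ k J a) with hδ
  let T := Localization.Away δ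
  let ι : MvPolynomial (JV (n + c) k) B →+* T :=
    (algebraMap ((MvPolynomial (JV (n + c) k) B) ⧸ I) T).comp (Ideal.Quotient.mk I)
  have hιI : ∀ Q ∈ I, ι Q = 0 := by
    intro Q hQ
    change algebraMap _ T (Ideal.Quotient.mk I Q) = 0
    rw [Ideal.Quotient.eq_zero_iff_mem.2 hQ, map_zero]
  suffices hP : ι P = 0 by
    have h1 : algebraMap ((MvPolynomial (JV (n + c) k) B) ⧸ I) T (Ideal.Quotient.mk I P) = 0 := hP
    rw [IsLocalization.map_eq_zero_iff (Submonoid.powers δ) T] at h1
    obtain ⟨⟨m, e, rfl⟩, hm⟩ := h1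
    refine ⟨e, ?_⟩
    rw [← Ideal.Quotient.eq_zero_iff_mem, map_mul, map_pow]
    exact hm
  have hunit : IsUnit (ι (DelJ k J a)) := IsLocalization.Away.algebraMap_isUnit δ
  obtain ⟨aT, haT⟩ : ∃ aT : CI (n + c) d → T, aT = fun p => ι (C (a p)) := ⟨_, rfl⟩
  obtain ⟨xT, hxT⟩ : ∃ xT : Fin (n + c) → T, xT = fun b => ι (X (b, 0)) := ⟨_, rfl⟩
  have hMX : (MX J aT xT).det = ι (DelJ k J a) := by
    unfold DelJ
    rw [RingHom.map_det]
    congr 1
    rw [haT, hxT]
    exact (MX_map ι J (fun p => C (a p)) fun b => X (b, 0)).symm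
  have huV : ∀ j i, uV aT (fun p => ι (X p)) j i = ι (uK k a j i) := by
    intro j i
    rw [← r7_hom ι (uK k a j i), eval₂_uK, haT]
    rfl
  have hmem : ∀ j i, i ≤ k → (i = 0 ∨ j ∈ J) → uK k a j i ∈ I := fun j i hi hj =>
    Ideal.subset_span ⟨j, i, hi, hj, rfl⟩
  have hU0 : ∀ j, U0 aT xT j = 0 := by
    intro j
    have h1 := huV j 0
    rw [hιI _ (hmem j 0 (Nat.zero_le _) (Or.inl rfl))] at h1
    unfold uV at h1
    rw [uu_zero] at h1
    rw [hxT]
    exact h1
  obtain ⟨u, hu⟩ := hunit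
  obtain ⟨z, hz⟩ : ∃ z : FZ n k J → T, z = fun q => (↑u⁻¹ : T) ^ (2 * ((q.2 : ℕ) + 1)) * ι (X (q.1.1, q.2.succ)) :=
    ⟨_, rfl⟩
  have hξ : (fun p : JV (n + c) k => ι (X p)) = fun p => (if p.2 = 0 then xT p.1 else 0) +
      eval z (rs k J (tra (fun b => - xT b) aT) p) := by
    have h00 : ∀ b, ι (X (b, 0)) = (if (0 : Fin (k + 1)) = 0 then xT b else 0) +
        eval z (rs k J (tra (fun b => - xT b) aT) (b, 0)) := by
      intro b
      rw [rs_zero, map_zero, add_zero, if_pos rfl, hxT]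
    refine uniq J aT _ _ h00 ?_ ?_ ?_
    · intro b hb l
      rcases Fin.eq_zero_or_eq_succ l with hl | ⟨i, hl⟩
      · rw [hl]
        exact h00 b
      · rw [hl]
        simp only [Fin.succ_ne_zero, if_false, zero_add]
        rw [rs_free J _ hb, MJ_tra, hMX, map_mul, eval_C, eval_X, hz]
        simp only
        rw [← hu, ← mul_assoc, ← mul_pow, Units.mul_inv, one_pow, one_mul]
    · intro j hj i _ hi
      rw [huV, hιI _ (hmem j i hi (Or.inr hj))]
      have h1 := ResX_uK J aT xT hU0 hi (Or.inr hj)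
      have h2 := r7_res J aT xT z (uK k aT j i)
      rw [h1, map_zero] at h2
      have h3 := eval₂_uK (RingHom.id T) (fun p => (if p.2 = 0 then xT p.1 else 0) +
        eval z (rs k J (tra (fun b => - xT b) aT) p)) aT j i
      rw [eval₂_id] at h3
      rw [h3] at h2
      exact h2
    · have h1 : (MX J aT fun b => ι (X (b, 0))).det = ι (DelJ k J a) := by
        rw [← hMX, hxT]
      rw [h1, ← hu]
      exact u.isUnit.mem_nonZeroDivisors
  obtain ⟨φ, hφ⟩ : ∃ φ : MvPolynomial (Fin (n + c)) B →+* T, φ = eval₂Hom (ι.comp C) xT := ⟨_, rfl⟩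
  have hφC : ∀ r, φ (C r) = ι (C r) := fun r => by rw [hφ]; simp
  have hφX : ∀ b, φ (X b) = xT b := fun b => by rw [hφ]; simp
  have h1 := ResX_map φ J (fun p => C (a p)) (fun b => (X b : MvPolynomial (Fin (n + c)) B)) (map C P)
  simp only [hφC, hφX] at h1
  have h2 : map φ (ResX k J (fun p => C (a p)) (fun b => (X b : MvPolynomial (Fin (n + c)) B)) (map C P)) = 0 := by
    ext ν
    rw [coeff_map, coeff_zero]
    have h3 : Ideal.span (Set.range (PF a)) ≤ RingHom.ker φ := by
      rw [Ideal.span_le]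
      rintro _ ⟨j, rfl⟩
      change φ (PF a j) = 0
      rw [← hU0 j, ← eval_PF]
      have h4 : φ (PF a j) = eval xT (map (ι.comp C) (PF a j)) := by
        rw [hφ, eval_map]
        rfl
      rw [h4]
      congr 1
      unfold PF
      rw [map_pol, haT]
      rfl
    exact h3 (h ν)
  rw [h2] at h1
  have h5 := r7_res J aT xT z (map φ (map C P))
  have h6 : (fun p => ι (C (a p))) = aT := haT.symm
  rw [h6] at h1
  rw [← h1, map_zero, ← hξ, map_map, eval_map] at h5
  have h7 : φ.comp C = ι.comp C := RingHom.ext fun r => hφC r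
  rw [h7, r7_hom] at h5
  exact h5.symm

end Pool.Agent.H53V
end

-- from Lib.H53L.D0
section

set_option autoImplicit false

/-!
H53L (the logarithmic case: second main theorem with truncation level one and explicit bounds for generic
hypersurfaces of degree `d ≥ C n ^ 2 (log n) ^ 2`, see PROOF.md): definitions and the statements of the modules.

`n` affine variables `x`, one polynomial `F_a` of degree at most `d`, jets of order `k`.  `JV n k`, `Idx n d`, `uR`, `AA n d k`
(the flat ring of jets and coefficients), `uA` of H89T; `CI`, `cofs`, `pol` of H53U; `BiK`, `IK`, `linK`, `tau`, `ResX` of H53V;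
`Good`, `nbad`, `ngoodS` of H44K.
-/

open MvPolynomial Real MeasureTheory

namespace Pool.Agent.H53L

open Pool.Agent.H89T Pool.Agent.H67T Pool.Agent.H53U Pool.Agent.H53V

/-! ### The cyclic hypersurface `w ^ d + F_a (x) = 0` -/

section Cyc

variable {n d : ℕ} {B : Type*} [CommRing B]




end Cyc





/-! ### Logarithmic jet differentials: `w` is eliminated -/

section Log

variable {n d k : ℕ}

/-- The exponents of the jet variables `x (b, l)`, as exponents of the flat ring. -/
noncomputable def jm (μ : JV n k →₀ ℕ) : JV n k ⊕ Idx n d →₀ ℕ := μ.mapDomain Sum.inl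

/-- The degree of an exponent of `u 1, ..., u k`. -/
def ld (lam : Fin k → ℕ) : ℕ := ∑ i, lam i

/-- Its weight. -/
def lw (lam : Fin k → ℕ) : ℕ := ∑ i : Fin k, ((i : ℕ) + 1) * lam i







end Log





end Pool.Agent.H53L
end

-- from Lib.H53L.BD
section

set_option autoImplicit false

/-!
Module B of PROOF.md: definitions.
-/

open MvPolynomial

namespace Pool.Agent.H53L

open Pool.Agent.H89T Pool.Agent.H67T Pool.Agent.H53U Pool.Agent.H53V


section Flat

variable {n d k : ℕ}

/-- `v_b (t) = x_b (t) - x_b`. -/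
noncomputable def vA (b : Fin n) : Polynomial (AA n d k) := arc xA b - Polynomial.C (xA (b, 0))

/-- `h (v_b (t))`. -/
noncomputable def hA (b : Fin n) (h : Polynomial ℂ) : Polynomial (AA n d k) := Polynomial.aeval (vA b) h






/-- `jw + lw = w`, `wt + lw ≤ W`, `D` factors `u`. -/
def HLg (n d k w W D : ℕ) : Set (AA n d k) :=
  {g | ∃ (c : AA n d k) (μ : JV n k →₀ ℕ) (i : ℕ) (lam : Fin k → ℕ),
    (∀ ν ∈ c.support, ∀ p : JV n k, ν (Sum.inl p) = 0) ∧
    H53V.jw μ + lw lam = w ∧ wt μ + lw lam ≤ W ∧ i + ld lam = D ∧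
    g = c * monomial (jm μ) 1 * uA 0 ^ i * ∏ i : Fin k, uA ((i : ℕ) + 1) ^ lam i}

/-- The span of these elements. -/
def HL (w W D : ℕ) (g : AA n d k) : Prop := g ∈ Submodule.span ℂ (HLg n d k w W D)

end Flat

section Fib

variable {n k : ℕ}




end Fib

end Pool.Agent.H53L
end

-- from Lib.H53L.B02
section

set_option autoImplicit false

/-!
CHUNK B02 (M), H53L.  Existence of the reduced polynomials.
-/

open MvPolynomial

namespace Pool.Agent.H53L

open Pool.Agent.H89T Pool.Agent.H67T Pool.Agent.H53U Pool.Agent.H53V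


variable {n d k : ℕ}

/-- `h (X_(b0) - x_(b0))` in `ℂ[x][X]`. -/
noncomputable def hS (b0 : Fin n) (h : Polynomial ℂ) : MvPolynomial (Fin n) (MvPolynomial (Fin n) ℂ) :=
  Polynomial.aeval (X b0 - C (X b0)) h










end Pool.Agent.H53L
end

-- from Lib.H53L.B04
section

set_option autoImplicit false

/-!
CHUNK B04 (M), H53L.  The calculus of the spans `HL`.
-/

open MvPolynomial

namespace Pool.Agent.H53L

open Pool.Agent.H89T Pool.Agent.H67T Pool.Agent.H53U Pool.Agent.H53V


variable {n d k : ℕ}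


/-- PROOF.  `Submodule.add_mem`. -/
theorem HL.add {w W D : ℕ} {g g' : AA n d k} (h : HL w W D g) (h' : HL w W D g') : HL w W D (g + g') := by
  exact Submodule.add_mem _ h h'





















end Pool.Agent.H53L
end

-- from Lib.H53L.B05
section

set_option autoImplicit false

/-!
CHUNK B05 (M), H53L.  The weights of the coefficients of `h (v (t))`, `ρ (v (t))`.
-/

open MvPolynomial

namespace Pool.Agent.H53L

open Pool.Agent.H89T Pool.Agent.H67T Pool.Agent.H53U Pool.Agent.H53V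


variable {n d k : ℕ}

/-- All coefficients up to the order `k` are of weight `l` and total weight at most `2 l`. -/
def HLP (p : Polynomial (AA n d k)) : Prop := ∀ l ≤ k, HL l (2 * l) 0 (p.coeff l)


theorem HLP.add {p q : Polynomial (AA n d k)} (hp : HLP p) (hq : HLP q) : HLP (p + q) := by
  intro l hl
  rw [Polynomial.coeff_add]
  exact (hp l hl).add (hq l hl)









end Pool.Agent.H53L
end

-- from Lib.H53L.CD
section

set_option autoImplicit false

/-!
H53L, module C (analysis): definitions.  `y` is a reduced representation of an entire curve in the projective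
space (`CurveData`, `Lib/H89T/DDefs.lean`), `Fy = F (y)`, `ch 0 y` its affine coordinates, `eta y 0 b l / y 0 ^ (l + 1)` their
Taylor coefficients, `Lam` the sum of the logarithmic derivatives.
-/

open MvPolynomial Filter Topology

namespace Pool.Agent.H53L

open Pool.Agent.H89T Pool.Agent.H67T Pool.Agent.H53U



/-- The analytic properties of the entire function `y 0 ^ (M + d * m) * G (jet)`, `G` a logarithmic jet
differential. -/
structure HatF {n d : ℕ} (D : CurveData n d) (k M m : ℕ) (g : ℂ → ℂ) : Prop where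
  diff : Differentiable ℂ g
  ord1 : ∀ (z : ℂ) (ν : ℕ), (ν : ℕ∞) ≤ analyticOrderAt D.Fy z → D.y z 0 ≠ 0 →
    ((m * (ν - 1) : ℕ) : ℕ∞) ≤ analyticOrderAt g z
  ord2 : ∀ (z : ℂ) (ν : ℕ), (ν : ℕ∞) ≤ analyticOrderAt D.Fy z → D.y z 0 = 0 →
    ((m * ν : ℕ) : ℕ∞) ≤ analyticOrderAt g z
  bd : ∃ C : ℝ, 0 ≤ C ∧ ∀ z, (∀ j, D.y z j ≠ 0) → D.Fy z ≠ 0 →
    ‖g z‖ ≤ C * ‖D.Fy z‖ ^ m * ‖D.y z‖ ^ M * Lam D.y D.Fy d k z ^ (2 * M + m)

end Pool.Agent.H53L
end

-- from Lib.H53L.C7
section

set_option autoImplicit false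

/-!
H53L, chunk C7 (M): the entire function of a logarithmic jet differential.
-/

open MvPolynomial Filter Topology

namespace Pool.Agent.H53L

open Pool.Agent.H89T Pool.Agent.H67T Pool.Agent.H53U

variable {n d k : ℕ}

/-- Chunk C7a (S/M).  `le_analyticOrderAt_add`; constants `C + C'`. -/
theorem HatF.add {D : CurveData n d} {M m : ℕ} {g g' : ℂ → ℂ} (hg : HatF D k M m g)
    (hg' : HatF D k M m g') : HatF D k M m fun z => g z + g' z where
  diff := hg.diff.add hg'.diff
  ord1 := fun z ν hν hz => (le_min (hg.ord1 z ν hν hz) (hg'.ord1 z ν hν hz)).trans le_analyticOrderAt_add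
  ord2 := fun z ν hν hz => (le_min (hg.ord2 z ν hν hz) (hg'.ord2 z ν hν hz)).trans le_analyticOrderAt_add
  bd := by
    obtain ⟨C, hC, h⟩ := hg.bd
    obtain ⟨C', hC', h'⟩ := hg'.bd
    refine ⟨C + C', add_nonneg hC hC', fun z h1 h2 => ?_⟩
    refine (norm_add_le _ _).trans ((add_le_add (h z h1 h2) (h' z h1 h2)).trans (le_of_eq ?_))
    ring




end Pool.Agent.H53L
end

-- from Lib.H53R.F01
section

set_option autoImplicit false

/-!
H53R, chunk F01 (S/M): one scale for all factors.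
-/

namespace Pool.Agent.H53R

open Pool.Agent.H53Y

/-- CHUNK F01.  Port of `H53Y.scales` (Lib/H53Y/F01.lean) with `J = ⌈(card τ) / ε⌉₊ + 1` scales: for every
`t` the sets `A j t = {i | src i = t ∧ E j < d i ∧ d i ≤ Φ (E j)}`, `j < J`, are disjoint, so the number
of the `j < J` with `∑_(A j t) d i > ε ∑_(src i = t) d i` is at most `1 / ε` (if `∑_(src i = t) d i = 0` it
is `0`); if every `j < J` were bad for some `t` we would have `J ≤ card τ / ε`.  (Or: apply the pigeonhole
principle to `j ↦ t`: some `t` is bad for more than `1 / ε` of the `j`, and then the argument of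
`scales`.)  `Dg src d t = ∑ i ∈ univ.filter (src i = t), d i` (H53Y.D0). -/
theorem scalesP (τ : Type) [Fintype τ] [DecidableEq τ] (Φ : ℕ → ℕ) {ε : ℝ} (hε : 0 < ε) :
    ∃ T : Finset ℕ, ∀ (ι : Type) [Fintype ι] (src : ι → τ) (d : ι → ℕ), ∃ E ∈ T, ∀ t,
      ((∑ i ∈ Finset.univ.filter (fun i => src i = t ∧ (E < d i ∧ d i ≤ Φ E)), d i : ℕ) : ℝ) ≤
        ε * (Dg src d t : ℕ) := by
  classical
  obtain ⟨E, hE⟩ : ∃ E : ℕ → ℕ, ∀ j, E (j + 1) = max (E j) (Φ (E j)) :=
    ⟨fun j => Nat.rec 0 (fun _ e => max e (Φ e)) j, fun j => rfl⟩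
  have hmono : Monotone E := monotone_nat_of_le_succ (fun j => by rw [hE]; exact le_max_left _ _)
  set J : ℕ := ⌈(Fintype.card τ : ℝ) / ε⌉₊ + 1 with hJ
  have hJ1 : (Fintype.card τ : ℝ) < (J : ℝ) * ε := by
    have h := Nat.le_ceil ((Fintype.card τ : ℝ) / ε)
    rw [div_le_iff₀ hε] at h
    rw [hJ]
    push_cast
    nlinarith
  refine ⟨(Finset.range J).image E, ?_⟩
  intro ι _ src d
  by_contra hcon
  push Not at hcon
  have h1 : ∀ j ∈ Finset.range J, ∃ t, ε * ((Dg src d t : ℕ) : ℝ) <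
      ((∑ i ∈ Finset.univ.filter (fun i => src i = t ∧ (E j < d i ∧ d i ≤ Φ (E j))), d i : ℕ) : ℝ) :=
    fun j hj => hcon (E j) (Finset.mem_image_of_mem _ hj)
  have hdis : ∀ a b, a < b → ∀ i, (E a < d i ∧ d i ≤ Φ (E a)) →
      (E b < d i ∧ d i ≤ Φ (E b)) → False := by
    intro a b hab i h2 h3
    have h4 : Φ (E a) ≤ E (a + 1) := by rw [hE]; exact le_max_right _ _
    have h5 : E (a + 1) ≤ E b := hmono hab
    have h6 := h2.2
    have h7 := h3.1
    omega
  obtain ⟨A, hA⟩ : ∃ A : ℕ → τ → ℕ, ∀ j t, A j t =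
      ∑ i ∈ Finset.univ.filter (fun i => src i = t ∧ (E j < d i ∧ d i ≤ Φ (E j))), d i :=
    ⟨_, fun _ _ => rfl⟩
  have h2 : ∀ t, ∑ j ∈ Finset.range J, A j t ≤ Dg src d t := by
    intro t
    have e1 : ∑ j ∈ Finset.range J, A j t = ∑ j ∈ Finset.range J,
        ∑ i ∈ Finset.univ.filter (fun i => src i = t ∧ (E j < d i ∧ d i ≤ Φ (E j))), d i :=
      Finset.sum_congr rfl fun j _ => hA j t
    rw [e1, ← Finset.sum_biUnion]
    · unfold Dg
      refine Finset.sum_le_sum_of_subset ?_
      intro i hi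
      rw [Finset.mem_biUnion] at hi
      obtain ⟨j, _, hj⟩ := hi
      rw [Finset.mem_filter] at hj ⊢
      exact ⟨Finset.mem_univ _, hj.2.1⟩
    · intro a _ b _ hab
      rw [Function.onFun, Finset.disjoint_left]
      intro i hi hj
      rw [Finset.mem_filter] at hi hj
      rcases lt_or_gt_of_ne hab with h | h
      · exact hdis a b h i hi.2.2 hj.2.2
      · exact hdis b a h i hj.2.2 hi.2.2
  have h3 : ∀ t, ∑ j ∈ Finset.range J, (A j t : ℝ) / (Dg src d t : ℕ) ≤ 1 := by
    intro t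
    rw [← Finset.sum_div]
    refine div_le_one_of_le₀ ?_ (Nat.cast_nonneg _)
    exact_mod_cast h2 t
  have h4 : ∀ j ∈ Finset.range J, ε ≤ ∑ t, (A j t : ℝ) / (Dg src d t : ℕ) := by
    intro j hj
    obtain ⟨t, ht⟩ := h1 j hj
    rw [← hA j t] at ht
    have h5 : ε ≤ (A j t : ℝ) / (Dg src d t : ℕ) := by
      have h6 : (0 : ℝ) ≤ (Dg src d t : ℕ) := Nat.cast_nonneg _
      have h7 : (0 : ℝ) < (A j t : ℝ) := lt_of_le_of_lt (by positivity) ht
      have h8 : A j t ≤ Dg src d t :=
        le_trans (Finset.single_le_sum (f := fun j => A j t) (fun _ _ => Nat.zero_le _) hj) (h2 t)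
      have h9 : (0 : ℝ) < (Dg src d t : ℕ) := lt_of_lt_of_le h7 (by exact_mod_cast h8)
      rw [le_div_iff₀ h9]
      exact ht.le
    refine le_trans h5 ?_
    exact Finset.single_le_sum (f := fun t => (A j t : ℝ) / (Dg src d t : ℕ))
      (fun _ _ => by positivity) (Finset.mem_univ t)
  have h5 : (J : ℝ) * ε ≤ ∑ j ∈ Finset.range J, ∑ t, (A j t : ℝ) / (Dg src d t : ℕ) := by
    have h6 := Finset.sum_le_sum h4
    rw [Finset.sum_const, Finset.card_range, nsmul_eq_mul] at h6
    exact h6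
  rw [Finset.sum_comm] at h5
  have h6 : ∑ t, ∑ j ∈ Finset.range J, (A j t : ℝ) / (Dg src d t : ℕ) ≤ ∑ _t : τ, (1 : ℝ) :=
    Finset.sum_le_sum fun t _ => h3 t
  rw [Finset.sum_const, Finset.card_univ, nsmul_eq_mul, mul_one] at h6
  linarith

end Pool.Agent.H53R
end
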