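import Pool.Agent.Lib.H1M.PB.M031
import Pool.Agent.Lib.H1M.PB.M032

/-! Merged copies (to shorten the build) of Lib.H78B.B7. -/

-- from Lib.H78B.B7
section

set_option autoImplicit false

/-!
B7 (M/L).  Elimination: the main theorem of the module E.

Proof.  Copy `H89T.alg2` (Lib/H89T/DP8.lean) and `H78G.elim` (Lib/H78G/E3.lean).
`A₁` = the polynomial ring over `ℂ` in the variables `f`, `η`, `A`, `A'`, `Lam s`, `Lb s`; generic
elements `fg, ηg, Ag, A'g, Lamg, Lbg` of `A₁` (variables).  `I` = the ideal generated by the entries of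
`A'g * Ag - 1`, of all `Lbg s * Lamg s - 1`, and all
`aeval (Sum.elim (extB fg Ag lam s E) (resB ηg Lamg _)) (Θ S)`, `S.card ≤ c`, `lam j ≠ 0`,
`E j i` homogeneous of degree `d j - 1` (complex).  `v = ∏ j, eval (fun i => Ag i 0) (fmB fg j)`; `S₀` = the
submonoid of the `rename (inl) Ξ * v ^ k`, `Ξ ≠ 0`.
Disjoint: `Ideal.exists_le_prime_disjoint`, `K` = fraction field of `A₁ ⧸ P`, `π : A₁ →ₐ[ℂ] K`;
`generic_good` for the images contradicts `I ≤ P` (b7_map: extB, resB commute with `π`).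
Not disjoint: `Ξ * v ^ k ∈ I`; evaluate at a complex point: `I ≤ ker φ` if the assertion fails.
-/

open MvPolynomial

namespace Pool.Agent.H78B

open Pool.Agent.H89T Pool.Agent.H53Y


/-- Auxiliary: the value at the first column commutes with algebra homomorphisms. -/
theorem b7_col {B B' : Type} [CommRing B] [CommRing B'] [Algebra ℂ B] [Algebra ℂ B'] {n : ℕ}
    (φ : B →ₐ[ℂ] B') {ιL : Type} {d : ιL → ℕ} (f : FV (Fin (n + 1)) d → B)
    (A : Matrix (Fin (n + 1)) (Fin (n + 1)) B) (j : ιL) :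
    φ (eval (fun i => A i 0) (fmB f j)) = eval (fun i => A.map φ i 0) (fmB (fun y => φ (f y)) j) := by
  change (φ : B →+* B') _ = _
  rw [hom_eval, fmB, map_fm]
  rfl

/-- Auxiliary: matrix identities commute with homomorphisms. -/
theorem b7_mul {B B' : Type} [CommRing B] [CommRing B'] [Algebra ℂ B] [Algebra ℂ B'] (φ : B →ₐ[ℂ] B')
    {a b : ℕ} (M : Matrix (Fin a) (Fin b) B) (N : Matrix (Fin b) (Fin a) B)
    (h : ∀ i j, φ ((M * N - 1 : Matrix (Fin a) (Fin a) B) i j) = 0) : M.map φ * N.map φ = 1 := by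
  ext i j
  have h1 := h i j
  rw [Matrix.sub_apply, map_sub, sub_eq_zero] at h1
  rw [Matrix.mul_apply] at h1
  rw [Matrix.mul_apply]
  simp only [Matrix.map_apply]
  rw [map_sum] at h1
  simp only [map_mul] at h1
  rw [h1, Matrix.one_apply, Matrix.one_apply]
  split_ifs <;> simp

theorem b7_mul' {B B' : Type} [CommRing B] [CommRing B'] [Algebra ℂ B] [Algebra ℂ B'] (φ : B →ₐ[ℂ] B')
    {a b : ℕ} (M : Matrix (Fin a) (Fin b) B) (N : Matrix (Fin b) (Fin a) B)
    (h : M.map φ * N.map φ = 1) (i j : Fin a) : φ ((M * N - 1 : Matrix (Fin a) (Fin a) B) i j) = 0 := by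
  have h1 := congrFun (congrFun h i) j
  rw [Matrix.mul_apply] at h1
  simp only [Matrix.map_apply] at h1
  rw [Matrix.sub_apply, map_sub, Matrix.mul_apply, map_sum, sub_eq_zero]
  simp only [map_mul]
  rw [h1, Matrix.one_apply, Matrix.one_apply]
  split_ifs <;> simp


end Pool.Agent.H78B
end
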