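import Pool.Agent.Lib.H1M.PB.M033

/-! Merged copies (to shorten the build) of Lib.H78G.C2. -/

-- from Lib.H78G.C2
section

set_option autoImplicit false

/-!
CHUNK C2 (M, adapt `H89T/C2.lean`).  Commutators with `N`; property (A) is preserved by the
`(q + 1)`-admissible fields.
-/

open MvPolynomial

namespace Pool.Agent.H78G

open Pool.Agent.H89T

variable {n K r : ℕ}

/-- CHUNK C2.  `[N, V (g, lam)] = V (N g, (N - d/dt) lam)`. -/
theorem commutatorU (g : HV n K → UA n K r) (lam : Fin n → Polynomial (UA n K r))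
    (hdeg : ∀ b, (lam b).natDegree ≤ r) (P : UA n K r) :
    NU n K r (VU g lam P) = VU g lam (NU n K r P) +
      VU (fun s => NU n K r (g s))
        (fun b => cf (NU n K r) (lam b) - Polynomial.derivative (lam b)) P := by
  have h : ⁅NU n K r, VU g lam⁆ = VU (fun s => NU n K r (g s))
        (fun b => cf (NU n K r) (lam b) - Polynomial.derivative (lam b)) := by
    refine MvPolynomial.derivation_ext ?_
    rintro (p | s)
    · have h1 := VU_xU (r := r) g lam p
      have h2 := VU_xU (r := r) (fun s => NU n K r (g s))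
        (fun b => cf (NU n K r) (lam b) - Polynomial.derivative (lam b)) p
      have h3 := NU_xU (n := n) (K := K) (r := r) p
      unfold xU at h1 h2 h3
      rw [Derivation.commutator_apply, h1, h2, h3, Polynomial.coeff_sub, coeff_cf,
        Polynomial.coeff_derivative]
      congr 1
      split_ifs with hl
      · have h4 := VU_xU (r := r) g lam (p.1, ⟨(p.2 : ℕ) + 1, by omega⟩)
        unfold xU at h4
        rw [map_nsmul, h4, nsmul_eq_mul, mul_comm]
        push_cast
        rfl
      · rw [map_zero]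
        have h5 : (lam p.1).coeff ((p.2 : ℕ) + 1) = 0 := by
          apply Polynomial.coeff_eq_zero_of_natDegree_lt
          have := hdeg p.1
          omega
        rw [h5, zero_mul]
    · have h1 := VU_hU (r := r) g lam s
      have h2 := VU_hU (r := r) (fun s => NU n K r (g s))
        (fun b => cf (NU n K r) (lam b) - Polynomial.derivative (lam b)) s
      have h3 := NU_hU (n := n) (K := K) (r := r) s
      unfold hU at h1 h2 h3
      rw [Derivation.commutator_apply, h1, h2, h3, map_zero, sub_zero]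
  have h2 := congrArg (fun D : Derivation ℂ (UA n K r) (UA n K r) => D P) h
  simp only [Derivation.commutator_apply] at h2
  rw [← h2]
  ring

/-- `cf N - d/dt` as a derivation. -/
noncomputable def c2D (n K r : ℕ) :
    Derivation ℂ (Polynomial (UA n K r)) (Polynomial (UA n K r)) :=
  cfD (NU n K r) - (Polynomial.derivative' (R := UA n K r)).restrictScalars ℂ

theorem c2D_apply (p : Polynomial (UA n K r)) :
    c2D n K r p = cf (NU n K r) p - Polynomial.derivative p := rfl

theorem c2D_arc (b : Fin n) : c2D n K r (arc xU b) = 0 := by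
  rw [c2D_apply, cf_NU_arc, sub_self]

theorem c2D_C (c : UA n K r) : c2D n K r (Polynomial.C c) = Polynomial.C (NU n K r c) := by
  rw [c2D_apply, cf_C, Polynomial.derivative_C, sub_zero]

theorem c2D_X_pow (s : ℕ) : c2D n K r (Polynomial.X ^ (s + 1)) =
    -(Polynomial.C ((s : UA n K r) + 1) * Polynomial.X ^ s) := by
  rw [c2D_apply, cf_X_pow, Polynomial.derivative_X_pow, zero_sub]
  simp

theorem c2D_vv (g : HV n K → UA n K r) (i : Fin K) :
    c2D n K r (vv g xU i) = vv (fun s => NU n K r (g s)) xU i := by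
  unfold vv linA
  rw [map_add, map_sum, c2D_C]
  congr 1
  refine Finset.sum_congr rfl fun b _ => ?_
  rw [Derivation.leibniz, c2D_arc, smul_zero, zero_add, c2D_C, smul_eq_mul, mul_comm]

theorem c2D_vv_hU (i : Fin K) : c2D n K r (vv hU xU i) = 0 := by
  rw [c2D_apply, cf_NU_vv, sub_self]

/-- CHUNK C2.  `E_i ([N, V]) = (N - d/dt) E_i (V)`: `N - d/dt` is a derivation of `A[t]` which kills
`arc xU b` and `C (hU s)`. -/
theorem EU_commutator (g : HV n K → UA n K r) (lam : Fin n → Polynomial (UA n K r)) (i : Fin K) :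
    EU (fun s => NU n K r (g s))
        (fun b => cf (NU n K r) (lam b) - Polynomial.derivative (lam b)) i =
      cf (NU n K r) (EU g lam i) - Polynomial.derivative (EU g lam i) := by
  rw [← c2D_apply]
  unfold EU
  rw [map_add, c2D_vv, map_sum]
  congr 1
  refine Finset.sum_congr rfl fun b _ => ?_
  rw [Derivation.leibniz, c2D_C, NU_hU, map_zero, smul_zero, add_zero, smul_eq_mul, c2D_apply]

/-- CHUNK C2. -/
theorem AdmU.commutator {s : ℕ} {g : HV n K → UA n K r} {lam : Fin n → Polynomial (UA n K r)}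
    (h : AdmU (s + 1) g lam) :
    AdmU s (fun s => NU n K r (g s))
      (fun b => cf (NU n K r) (lam b) - Polynomial.derivative (lam b)) := by
  refine ⟨fun b => ?_, fun i => ?_⟩
  · refine (Polynomial.natDegree_sub_le _ _).trans (max_le ?_ ?_)
    · rw [Polynomial.natDegree_le_iff_coeff_eq_zero]
      intro N hN
      rw [coeff_cf, Polynomial.coeff_eq_zero_of_natDegree_lt (lt_of_le_of_lt (h.deg b) hN),
        map_zero]
    · exact (Polynomial.natDegree_derivative_le _).trans ((Nat.sub_le _ _).trans (h.deg b))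
  · rw [EU_commutator, ← c2D_apply]
    obtain ⟨a, b, hab⟩ := Ideal.mem_span_pair.1 (h.mem i)
    rw [← hab, map_add, Derivation.leibniz, Derivation.leibniz, c2D_vv_hU, c2D_X_pow]
    rw [Ideal.mem_span_pair]
    refine ⟨c2D n K r a, -(b * Polynomial.C ((s : UA n K r) + 1)) +
      Polynomial.X * c2D n K r b, ?_⟩
    simp only [smul_eq_mul]
    ring

/-- CHUNK C2. -/
theorem AdmU.mono {s s' : ℕ} (hs : s' ≤ s) {g : HV n K → UA n K r}
    {lam : Fin n → Polynomial (UA n K r)} (h : AdmU s g lam) : AdmU s' g lam := by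
  refine ⟨h.deg, fun i => ?_⟩
  obtain ⟨a, b, hab⟩ := Ideal.mem_span_pair.1 (h.mem i)
  rw [Ideal.mem_span_pair]
  refine ⟨a, b * Polynomial.X ^ (s - s'), ?_⟩
  rw [← hab, mul_assoc, ← pow_add, Nat.sub_add_cancel hs]

/-- The image of `u (t)` under an `s`-admissible field. -/
theorem c2_cf_Fx {s : ℕ} {g : HV n K → UA n K r} {lam : Fin n → Polynomial (UA n K r)}
    (h : AdmU s g lam) : cf (VU g lam) (Fx (pc hU) xU) ∈
      Ideal.span {(Fx (pc hU) xU : Polynomial (UA n K r)), Polynomial.X ^ s} := by
  classical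
  rw [Fx_pc, ← cfD_apply, derivation_prod]
  refine Ideal.sum_mem _ fun i _ => ?_
  rw [cfD_apply, cf_VU_vv g lam h.deg]
  obtain ⟨a, b, hab⟩ := Ideal.mem_span_pair.1 (h.mem i)
  rw [Ideal.mem_span_pair]
  refine ⟨a, (∏ j ∈ Finset.univ.erase i, vv hU xU j) * b, ?_⟩
  rw [← hab, ← Finset.mul_prod_erase Finset.univ (fun j => vv hU xU j) (Finset.mem_univ i)]
  ring

theorem c2_VU_uU {s : ℕ} {g : HV n K → UA n K r} {lam : Fin n → Polynomial (UA n K r)}
    (h : AdmU s g lam) (J : Ideal (UA n K r)) (i : ℕ) (hi : i < s)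
    (hJ : ∀ j ≤ i, (uU j : UA n K r) ∈ J) : VU g lam (uU i) ∈ J := by
  have h1 : VU g lam (uU i) = (cf (VU g lam) (Fx (pc hU) xU)).coeff i := by
    rw [coeff_cf]
    rfl
  rw [h1]
  obtain ⟨a, b, hab⟩ := Ideal.mem_span_pair.1 (c2_cf_Fx h)
  rw [← hab, Polynomial.coeff_add, Polynomial.coeff_mul_X_pow', if_neg (by omega), add_zero,
    Polynomial.coeff_mul]
  refine Ideal.sum_mem _ fun x hx => ?_
  have hx' := Finset.HasAntidiagonal.mem_antidiagonal.1 hx
  exact Ideal.mul_mem_left _ _ (hJ x.2 (by omega))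

/-- CHUNK C2.  A `2`-admissible field preserves the ideal `(u 0, u 1)`.  Proof: `u (t) = ∏ v_i (t)`
(`Fx_pc`), so `cf V (u (t)) = ∑ i, (∏ j ≠ i, v_j) * E_i (V)` (`derivation_prod` of H89T/C1 for `cfD V`,
`cf_VU_vv`), and `E_i (V) = v_i c_i + t ^ 2 w_i`: `cf V (u (t)) = u (t) ∑ c_i + t ^ 2 (...)`; take the
coefficients of `1` and `t`: `V (u 0) = u 0 c`, `V (u 1) = u 1 c + u 0 c'`. -/
theorem AdmU.preserves_ideal {g : HV n K → UA n K r} {lam : Fin n → Polynomial (UA n K r)}
    (h : AdmU 2 g lam) {P : UA n K r} (hP : P ∈ Ideal.span {(uU 0 : UA n K r), uU 1}) :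
    VU g lam P ∈ Ideal.span {(uU 0 : UA n K r), uU 1} := by
  have h0 : (uU 0 : UA n K r) ∈ Ideal.span {(uU 0 : UA n K r), uU 1} :=
    Ideal.subset_span (Set.mem_insert _ _)
  have h1 : (uU 1 : UA n K r) ∈ Ideal.span {(uU 0 : UA n K r), uU 1} :=
    Ideal.subset_span (Set.mem_insert_of_mem _ rfl)
  have hle : ∀ j ≤ 1, (uU j : UA n K r) ∈ Ideal.span {(uU 0 : UA n K r), uU 1} := by
    intro j hj
    interval_cases j
    · exact h0
    · exact h1
  have h2 := c2_VU_uU h _ 0 (by omega) (fun j hj => hle j (by omega))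
  have h3 := c2_VU_uU h _ 1 (by omega) (fun j hj => hle j (by omega))
  obtain ⟨a, b, hab⟩ := Ideal.mem_span_pair.1 hP
  rw [← hab, map_add, Derivation.leibniz, Derivation.leibniz]
  simp only [smul_eq_mul]
  refine Ideal.add_mem _ (Ideal.add_mem _ ?_ ?_) (Ideal.add_mem _ ?_ ?_)
  · exact Ideal.mul_mem_left _ _ h2
  · exact Ideal.mul_mem_right _ _ h0
  · exact Ideal.mul_mem_left _ _ h3
  · exact Ideal.mul_mem_right _ _ h1

/-- CHUNK C2.  Property (A) is preserved (induction on `q` as in `H89T.PropAA.field`, or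
`Slant.iter_mem_of_adm`). -/
theorem PropU.field {q : ℕ} {g : HV n K → UA n K r} {lam : Fin n → Polynomial (UA n K r)}
    (h : AdmU (q + 1) g lam) {P : UA n K r} (hP : PropU q P) : PropU q (VU g lam P) := by
  induction q generalizing P g lam with
  | zero => intro l hl; omega
  | succ q ih =>
    intro l hl
    cases l with
    | zero => exact (h.mono (by omega)).preserves_ideal (hP 0 (by omega))
    | succ l =>
      rw [Function.iterate_succ_apply, commutatorU g lam h.deg]
      have hit : ∀ (a b : UA n K r), (NU n K r)^[l] (a + b) = (NU n K r)^[l] a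
          + (NU n K r)^[l] b := by
        intro a b
        exact Function.Semiconj₂.iterate (f := NU n K r) (op := (· + ·))
          (fun a b => map_add (NU n K r) a b) l a b
      rw [hit]
      refine Ideal.add_mem _ ?_ ?_
      · refine ih (h.mono (by omega)) ?_ l (by omega)
        intro i hi
        have := hP (i + 1) (by omega)
        rwa [Function.iterate_succ_apply] at this
      · exact ih h.commutator (fun i hi => hP i (by omega)) l (by omega)

end Pool.Agent.H78G
end
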