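import Pool.Agent.Lib.H1M.PB.M017
import Pool.Agent.Lib.H1M.PB.M021
import Pool.Agent.Lib.H1M.PB.M025
import Pool.Agent.Lib.H1M.PB.M027
import Pool.Agent.Lib.H1M.PB.M033
import Pool.Agent.Lib.H1M.PB.M034

/-! Merged copies (to shorten the build) of Lib.H78G.F1B, Lib.H53Y.FD, Lib.H53Y.F07, Lib.H78G.C6, Lib.H78G.D3B. -/

-- from Lib.H78G.F1B
section

set_option autoImplicit false

/-!
CHUNK F1B (M, linear algebra).  Good coordinates.
-/

open MvPolynomial Real Pool.Agent.H67T

namespace Pool.Agent.H78G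

open Pool.Agent.H89T


/-- Two entire functions which are not identically zero. -/
theorem f1b_mul {f g : ℂ → ℂ} (hf : Differentiable ℂ f) (hg : Differentiable ℂ g)
    (hf0 : ∃ z, f z ≠ 0) (hg0 : ∃ z, g z ≠ 0) : ∃ z, f z * g z ≠ 0 := by
  obtain ⟨z, hz⟩ := hf0
  have h1 : ∀ᶠ w in nhds z, f w ≠ 0 := hf.continuous.continuousAt.eventually_ne hz
  by_contra hcon
  push Not at hcon
  obtain ⟨w₀, hw₀⟩ := hg0
  have h2 : ∀ᶠ w in nhds z, g w = 0 := by
    filter_upwards [h1] with w hw
    exact (mul_eq_zero.1 (hcon w)).resolve_left hw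
  have h3 : AnalyticOnNhd ℂ g Set.univ := fun w _ => hg.analyticAt w
  have h4 := h3.eqOn_zero_of_preconnected_of_eventuallyEq_zero isPreconnected_univ
    (Set.mem_univ z) h2
  exact hw₀ (h4 (Set.mem_univ w₀))

theorem f1b_prod {ι : Type} (s : Finset ι) {f : ι → ℂ → ℂ} (hf : ∀ i, Differentiable ℂ (f i))
    (h0 : ∀ i, ∃ z, f i z ≠ 0) : ∃ z, ∏ i ∈ s, f i z ≠ 0 := by
  classical
  induction s using Finset.induction_on with
  | empty => exact ⟨0, by simp⟩
  | insert i s hi ih =>
    have h1 := f1b_mul (g := fun z => ∏ i ∈ s, f i z) (hf i)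
      (Differentiable.fun_finsetProd (u := s) (f := f) fun i _ => hf i) (h0 i) ih
    obtain ⟨z, hz⟩ := h1
    exact ⟨z, by rw [Finset.prod_insert hi]; exact hz⟩



end Pool.Agent.H78G
end

-- from Lib.H53Y.FD
section

set_option autoImplicit false

/-!
H53Y, Part F (assembly): definitions.  See PROOF.md.
-/

open MvPolynomial Real MeasureTheory

namespace Pool.Agent.H53Y

open Pool.Agent.H89T Pool.Agent.H78G Pool.Agent.H67T

/-- `NV n e + 1` is the number of the monomials of degree `e` in `n + 1` variables. -/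
def NV (n e : ℕ) : ℕ := Fintype.card (Ex (Fin (n + 1)) e) - 1

theorem NV_add_one (n e : ℕ) : NV n e + 1 = Fintype.card (Ex (Fin (n + 1)) e) := by
  have h : 0 < Fintype.card (Ex (Fin (n + 1)) e) :=
    Fintype.card_pos_iff.2 ⟨⟨Finsupp.single 0 e, by rw [mem_Ex, Finsupp.degree_single]⟩⟩
  rw [NV]
  omega

/-- A numbering of the monomials of degree `e` in `n + 1` variables. -/
noncomputable def vix (n e : ℕ) : Fin (NV n e + 1) ≃ Ex (Fin (n + 1)) e :=
  (Fintype.equivFinOfCardEq (NV_add_one n e).symm).symm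

/-- The Veronese map of degree `e`. -/
noncomputable def ver (n e : ℕ) (x : Fin (n + 1) → ℂ) (l : Fin (NV n e + 1)) : ℂ :=
  ∏ i, x i ^ (vix n e l).1 i

/-- The vector of the coefficients of a form of degree `e`. -/
noncomputable def vco (n e : ℕ) (F : MvPolynomial (Fin (n + 1)) ℂ) (l : Fin (NV n e + 1)) : ℂ :=
  coeff (vix n e l).1 F



/-- The degrees of the factors. -/
def dgO {ιL κ : Type} (d : ιL → ℕ) : ιL ⊕ κ → ℕ
  | Sum.inl j => d j
  | Sum.inr _ => 1

/-- The linear form with coefficients `v`. -/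
noncomputable def linF {M : ℕ} (v : Fin (M + 1) → ℂ) : MvPolynomial (Fin (M + 1)) ℂ :=
  ∑ b, C (v b) * X b



/-- The bijection of the coordinates. -/
def eqc (n c : ℕ) : Fin (n + 1) ⊕ Fin c ≃ Fin (n + c + 1) :=
  finSumFinEquiv.trans (finCongr (by omega))

/-- The form `G` of the block, moved: its value at `(u 0, u' )` is the value of the form with
coefficients `g` at `(u 0, u' - x u 0)`. -/
noncomputable def mvF {ιL : Type} {n c : ℕ} {d : ιL → ℕ} (x : Fin (n + c) → ℂ)
    (g : FV (Fin (n + 1) ⊕ Fin c) d → ℂ) (j : ιL) : MvPolynomial (Fin (n + c + 1)) ℂ :=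
  shear (fun b => - x b) (rename (eqc n c) (fmj g j))


/-- The base point in the chart `c`. -/
noncomputable def bpt {N : ℕ} (x : Fin N → ℂ) (c : Fin (N + 1)) (b : Fin N) : ℂ :=
  (Fin.cons 1 x : Fin (N + 1) → ℂ) (c.succAbove b) / (Fin.cons 1 x : Fin (N + 1) → ℂ) c

/-- The curve is not stationary at `z`. -/
def NonStat {N : ℕ} (y : ℂ → Fin N → ℂ) (z : ℂ) : Prop :=
  ¬ ∃ t : ℂ, (fun i => deriv (fun w => y w i) z) = t • y z

/-- The curve in the large block: `Y = (y', - s y')` in the coordinates `eqc`, moved by `x`. -/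
noncomputable def crv {n c : ℕ} (x : Fin (n + c) → ℂ) (s : Fin c → Fin n → ℂ)
    (y : ℂ → Fin (n + 1) → ℂ) (z : ℂ) : Fin (n + c + 1) → ℂ :=
  let Y : Fin (n + c + 1) → ℂ := fun i =>
    Sum.elim (y z) (fun j => - ∑ b, s j b * y z (Fin.succ b)) ((eqc n c).symm i)
  Fin.cons (Y 0) fun b => Y b.succ + x b * Y 0

end Pool.Agent.H53Y
end

-- from Lib.H53Y.F07
section

set_option autoImplicit false

/-!
H53Y, chunk F07 (M, three lemmas): nonconstant curves are not stationary.
-/

open MvPolynomial Real MeasureTheory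

namespace Pool.Agent.H53Y

open Pool.Agent.H89T Pool.Agent.H78G Pool.Agent.H67T

variable {N : ℕ}

theorem f07_deriv {y : ℂ → Fin (N + 1) → ℂ} (hy : IsHol y) (c : Fin (N + 1)) (b : Fin N) {z : ℂ}
    (hc : y z c ≠ 0) : deriv (fun w => ch c y w b) z =
      (deriv (fun w => y w (c.succAbove b)) z * y z c - y z (c.succAbove b) * deriv (fun w => y w c) z) /
        y z c ^ 2 :=
  deriv_fun_div (hy.diff _ z) (hy.diff _ z) hc

theorem f07_diff {f : ℂ → ℂ} (hf : Differentiable ℂ f) : Differentiable ℂ (deriv f) := fun z =>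
  ((hf.analyticAt z).deriv).differentiableAt

/-- CHUNK F07a.  Proof.  Take `h = y_i y_j' - y_j y_i'` for suitable `i`, `j`.  If all these functions
vanish identically then, `i` with `y_i ≢ 0`, all quotients `y_j / y_i` are locally constant where
`y_i ≠ 0`, so `y_j y_i (z₀) = y_j (z₀) y_i` everywhere (identity theorem; compare the proof of
`H89T.dp3_point`, which may be used) and `y` is constant, contradicting `hnc`.  If `h z ≠ 0` and
`y' (z) = t y (z)` then `h z = y_i t y_j - y_j t y_i = 0`. -/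
theorem exists_nonStat {y : ℂ → Fin (N + 1) → ℂ} (hy : IsHol y)
    (hnc : ∃ z w, ∀ c : ℂ, y w ≠ c • y z) :
    ∃ h : ℂ → ℂ, Differentiable ℂ h ∧ (∃ z, h z ≠ 0) ∧ ∀ z, h z ≠ 0 → NonStat y z := by
  obtain ⟨c, hc⟩ := Function.ne_iff.1 (hy.ne_zero 0)
  obtain ⟨z, hz, b, hb⟩ := dp3_point hy hnc c (g := fun z => y z c) (hy.diff c).continuous
    (fun z hz => hz) (z₀ := 0) hc
  refine ⟨fun w => deriv (fun w => y w (c.succAbove b)) w * y w c -
    y w (c.succAbove b) * deriv (fun w => y w c) w, ?_, ⟨z, ?_⟩, ?_⟩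
  · exact ((f07_diff (hy.diff _)).mul (hy.diff _)).sub ((hy.diff _).mul (f07_diff (hy.diff _)))
  · intro h0
    apply hb
    rw [f07_deriv hy c b hz]
    exact (congrArg (fun t => t / y z c ^ 2) h0).trans (zero_div _)
  · rintro w hw ⟨t, ht⟩
    apply hw
    have h1 : deriv (fun w => y w (c.succAbove b)) w = t * y w (c.succAbove b) := congrFun ht _
    have h2 : deriv (fun w => y w c) w = t * y w c := congrFun ht _
    change deriv (fun w => y w (c.succAbove b)) w * y w c -
      y w (c.succAbove b) * deriv (fun w => y w c) w = 0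
    rw [h1, h2]
    ring

/-- CHUNK F07b.  Proof.  Otherwise `y_j' y_c = y_j y_c'` at `z` for all `j` (the derivative of
`y_j / y_c` is `(y_j' y_c - y_j y_c') / y_c ^ 2`), so `y' = (y_c' / y_c) y`. -/
theorem NonStat.chart {y : ℂ → Fin (N + 1) → ℂ} (hy : IsHol y) {z : ℂ} (h : NonStat y z)
    (c : Fin (N + 1)) (hc : y z c ≠ 0) : ∃ b, deriv (fun w => ch c y w b) z ≠ 0 := by
  by_contra hcon
  push Not at hcon
  apply h
  refine ⟨deriv (fun w => y w c) z / y z c, funext fun i => ?_⟩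
  rw [Pi.smul_apply, smul_eq_mul]
  rcases Fin.eq_self_or_eq_succAbove c i with h1 | ⟨b, h1⟩
  · rw [h1, div_mul_cancel₀ _ hc]
  · rw [h1]
    have h2 := hcon b
    rw [f07_deriv hy c b hc, div_eq_zero_iff, or_iff_left (pow_ne_zero 2 hc)] at h2
    rw [div_mul_eq_mul_div, eq_div_iff hc]
    linear_combination h2

/-- CHUNK F07c.  Finitely many entire functions which are not identically zero have a common point
where none of them vanishes (the product is entire and not identically zero; `f1b_mul` of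
`H78G/F1B` and induction). -/
theorem exists_common_point {J : Type} [Finite J] (h : J → ℂ → ℂ)
    (hd : ∀ j, Differentiable ℂ (h j)) (h0 : ∀ j, ∃ z, h j z ≠ 0) : ∃ z, ∀ j, h j z ≠ 0 := by
  classical
  haveI := Fintype.ofFinite J
  have hp : ∀ s : Finset J, ∃ z, ∏ j ∈ s, h j z ≠ 0 := by
    intro s
    induction s using Finset.induction_on with
    | empty => exact ⟨0, by rw [Finset.prod_empty]; exact one_ne_zero⟩
    | insert a s ha ih =>
      obtain ⟨z, hz⟩ := f1b_mul (f := h a) (g := fun z => ∏ j ∈ s, h j z) (hd a)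
        (Differentiable.fun_finsetProd fun j _ => hd j) (h0 a) ih
      exact ⟨z, by rw [Finset.prod_insert ha]; exact hz⟩
  obtain ⟨z, hz⟩ := hp Finset.univ
  exact ⟨z, fun j => (Finset.prod_ne_zero_iff.1 hz) j (Finset.mem_univ j)⟩

end Pool.Agent.H53Y
end

-- from Lib.H78G.C6
section

set_option autoImplicit false

/-!
CHUNK C6 (M, adapt `H89T/C10.lean`: mostly search and replace `Idx n k` by `HV n K`, `AA n k r` by
`UA n K r`, `gen n k` by `pc (fun s => X s)`).  Comparison of the nested and the flat polynomial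
rings, specialization.
-/

open MvPolynomial

namespace Pool.Agent.H78G

open Pool.Agent.H89T

variable {n K r : ℕ}














theorem C6_NN_X (R : Type*) [CommRing R] (p : JV n r) : NN n r R (X p) =
    if h : (p.2 : ℕ) < r then ((p.2 : ℕ) + 1) • X (p.1, ⟨(p.2 : ℕ) + 1, by omega⟩) else 0 := by
  unfold NN
  rw [mkDerivation_X]























theorem C6_prod_split {B : Type} [CommRing B] (f g : JV n r → B) :
    (∏ p : JV n r, if p.2 = 0 then g p else f p) =
      (∏ p : JV n r, if p.2 = 0 then 1 else f p) * ∏ b : Fin n, g (b, 0) := by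
  have h1 : ∏ b : Fin n, g (b, 0) = ∏ p : JV n r, if p.2 = 0 then g p else 1 := by
    rw [Fintype.prod_prod_type]
    refine Finset.prod_congr rfl fun b _ => ?_
    rw [Finset.prod_eq_single 0]
    · simp
    · intro l _ hl
      simp [hl]
    · intro h
      exact absurd (Finset.mem_univ _) h
  rw [h1, ← Finset.prod_mul_distrib]
  refine Finset.prod_congr rfl fun p _ => ?_
  split_ifs <;> simp











end Pool.Agent.H78G
end

-- from Lib.H78G.D3B
section

set_option autoImplicit false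

/-!
CHUNK D3B (M/L).  The Wronskian in terms of `m + 1` hyperplanes.
-/

open MvPolynomial Real Pool.Agent.H67T

namespace Pool.Agent.H78G

open Pool.Agent.H89T

/-- The derivatives of the quotients `y_j / y_c` and the Wronskian. -/
theorem D3B_det {m r : ℕ} (hr : m ≤ r) {y : ℂ → Fin (m + 1) → ℂ} (hy : IsHol y)
    (c : Fin (m + 1)) {z : ℂ} (hz : y z c ≠ 0) :
    Matrix.det (Matrix.of fun l j : Fin (m + 1) =>
        iteratedDeriv (l : ℕ) (fun w => y w j / y w c) z) =
      (-1) ^ (c : ℕ) * (∏ l : Fin m, (((l : ℕ) + 1).factorial : ℂ)) *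
        Wd hr (jetf r (ch c y) z) := by
  have hev : (fun w => y w c / y w c) =ᶠ[nhds z] fun _ => (1 : ℂ) := by
    have h1 : ∀ᶠ w in nhds z, y w c ≠ 0 :=
      ((hy.diff c).continuous.continuousAt).eventually_ne hz
    filter_upwards [h1] with w hw
    exact div_self hw
  have hc : ∀ l : ℕ, iteratedDeriv l (fun w => y w c / y w c) z = if l = 0 then 1 else 0 := by
    intro l
    rw [hev.iteratedDeriv_eq l, iteratedDeriv_const]
  rw [Matrix.det_succ_column _ c, Fin.sum_univ_succ]
  have h0 : ∀ i : Fin m, (-1 : ℂ) ^ ((i.succ : ℕ) + (c : ℕ)) *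
      (Matrix.of fun l j : Fin (m + 1) =>
        iteratedDeriv (l : ℕ) (fun w => y w j / y w c) z) i.succ c *
      ((Matrix.of fun l j : Fin (m + 1) =>
        iteratedDeriv (l : ℕ) (fun w => y w j / y w c) z).submatrix
          i.succ.succAbove c.succAbove).det = 0 := by
    intro i
    have : (Matrix.of fun l j : Fin (m + 1) =>
        iteratedDeriv (l : ℕ) (fun w => y w j / y w c) z) i.succ c = 0 := by
      rw [Matrix.of_apply, hc, if_neg (by simp)]
    rw [this]
    ring
  rw [Finset.sum_eq_zero fun i _ => h0 i, add_zero, Matrix.of_apply, hc, if_pos (by simp)]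
  have h1 : ((Matrix.of fun l j : Fin (m + 1) =>
        iteratedDeriv (l : ℕ) (fun w => y w j / y w c) z).submatrix
          (0 : Fin (m + 1)).succAbove c.succAbove) =
      Matrix.of fun l b : Fin m => (((l : ℕ) + 1).factorial : ℂ) *
        (Matrix.of fun b l : Fin m =>
          jetf r (ch c y) z (b, ⟨(l : ℕ) + 1, by omega⟩)).transpose l b := by
    ext l b
    have hf : (((l : ℕ) + 1).factorial : ℂ) ≠ 0 := by
      exact_mod_cast Nat.factorial_ne_zero _
    simp only [Matrix.submatrix_apply, Matrix.of_apply, Matrix.transpose_apply, jetf, ch,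
      Fin.succAbove_zero, Fin.val_succ]
    rw [mul_div_cancel₀ _ hf]
  rw [h1, Matrix.det_mul_column, Matrix.det_transpose]
  unfold Wd
  simp only [Fin.val_zero, zero_add, mul_one]
  ring

/-- The derivatives of the quotients `θ (y) / y_c`. -/
theorem D3B_entry {m : ℕ} {y : ℂ → Fin (m + 1) → ℂ} (hy : IsHol y) (θ : Fin (m + 1) → ℂ)
    (c : Fin (m + 1)) {z : ℂ} (hz : y z c ≠ 0) (l : ℕ) :
    iteratedDeriv l (fun w => lin θ (y w) / y w c) z =
      ∑ j, iteratedDeriv l (fun w => y w j / y w c) z * θ j := by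
  have h1 : (fun w => lin θ (y w) / y w c) = fun w => ∑ j, θ j * (y w j / y w c) := by
    funext w
    unfold lin
    rw [Finset.sum_div]
    exact Finset.sum_congr rfl fun j _ => by ring
  have han : ∀ j, AnalyticAt ℂ (fun w => y w j / y w c) z := fun j =>
    ((hy.diff j).analyticAt z).fun_div ((hy.diff c).analyticAt z) hz
  rw [h1, iteratedDeriv_fun_sum fun j _ => ((analyticAt_const.fun_mul (han j)).contDiffAt)]
  refine Finset.sum_congr rfl fun j _ => ?_
  rw [iteratedDeriv_const_mul_field]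
  ring

/-- The determinant of the derivatives of `m + 1` quotients `θ (y) / y_c`. -/
theorem D3B_identity {m r : ℕ} (hr : m ≤ r) {y : ℂ → Fin (m + 1) → ℂ} (hy : IsHol y)
    (c : Fin (m + 1)) {z : ℂ} (hz : y z c ≠ 0) (θ : Fin (m + 1) → Fin (m + 1) → ℂ) :
    Matrix.det (Matrix.of fun l a : Fin (m + 1) =>
        iteratedDeriv (l : ℕ) (fun w => lin (θ a) (y w) / y w c) z) =
      ((-1) ^ (c : ℕ) * (∏ l : Fin m, (((l : ℕ) + 1).factorial : ℂ)) *
        Matrix.det (Matrix.of fun a b => θ a b)) * Wd hr (jetf r (ch c y) z) := by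
  have h1 : (Matrix.of fun l a : Fin (m + 1) =>
        iteratedDeriv (l : ℕ) (fun w => lin (θ a) (y w) / y w c) z) =
      (Matrix.of fun l j : Fin (m + 1) =>
        iteratedDeriv (l : ℕ) (fun w => y w j / y w c) z) *
        (Matrix.of fun a b => θ a b).transpose := by
    ext l a
    rw [Matrix.mul_apply, Matrix.of_apply, D3B_entry hy (θ a) c hz]
    rfl
  rw [h1, Matrix.det_mul, Matrix.det_transpose, D3B_det hr hy c hz]
  ring

/-- CHUNK D3B.  In the chart `c`: for injective `f : Fin (m + 1) → ι`, the determinant of the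
derivatives of the functions `θ_{f a} (y) / y_c` is `± det (θ_{f a, b})` times
`det (jets of orders 1..m) * ∏ l!`.  Hence
`‖Wd (jet)‖ ≤ C * ∏ a, (‖θ_{f a} (y)‖ / ‖y_c‖) * LamG ^ (m + 1)`.

Proof.  `θ_i (y) / y_c = ∑ j, θ_{i,j} f_j`, `f_j = y_j / y_c`, `f_c = 1`.  So the matrix
`((θ_{f a} (y) / y_c) ^ (l))_{l,a}` is `(f_j ^ (l))_{l,j}` times `(θ_{f a, j})_{j,a}`.  The column `c` of the
first matrix is `(1, 0, ..., 0)`; expanding along it (`Matrix.det_succ_column`) gives
`± det (f_{c.succAbove b} ^ (l + 1))_{b,l} = ± ∏ (l + 1)! * Wd hr (jetf r (ch c y) z)`.  The left-hand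
matrix has entries `(θ (y) / y_c) * (logarithmic derivative)`, so its determinant is
`∏ a, θ_{f a} (y) / y_c` times a determinant with entries of norm `≤ LamG` (`term2_le_LamG`), norm
`≤ (m + 1)! LamG ^ (m + 1)` (`Matrix.det_apply`). -/
theorem norm_Wd_le {m r L : ℕ} (hr : m ≤ r) (hL : m ≤ L) {ι : Type} [Fintype ι]
    {y : ℂ → Fin (m + 1) → ℂ} (hy : IsHol y) {θ : ι → Fin (m + 1) → ℂ} (hθ : GenPos θ)
    (c : Fin (m + 1)) :
    ∃ C : ℝ, 0 ≤ C ∧ ∀ z, Good y θ z → ∀ f : Fin (m + 1) → ι, Function.Injective f →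
      ‖Wd hr (jetf r (ch c y) z)‖ ≤
        C * (∏ a, (‖lin (θ (f a)) (y z)‖ / ‖y z c‖)) * LamG y θ L z ^ (m + 1) := by
  classical
  refine ⟨((m + 1).factorial : ℝ) *
    ∑ f : Fin (m + 1) → ι, ‖Matrix.det (Matrix.of fun a b => θ (f a) b)‖⁻¹,
    mul_nonneg (Nat.cast_nonneg _) (Finset.sum_nonneg fun f _ => by positivity), ?_⟩
  intro z hz f hf
  set T : ℂ := Matrix.det (Matrix.of fun a b => θ (f a) b) with hT
  have hT0 : T ≠ 0 := hθ f hf
  have hid := D3B_identity hr hy c (hz.1 c) (fun a => θ (f a))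
  set W : ℂ := Wd hr (jetf r (ch c y) z) with hW
  set E : ℂ := Matrix.det (Matrix.of fun l a : Fin (m + 1) =>
        iteratedDeriv (l : ℕ) (fun w => lin (θ (f a)) (y w) / y w c) z) with hE
  -- the bound for `E`
  have hE1 : E = (∏ a, (lin (θ (f a)) (y z) / y z c)) *
      Matrix.det (Matrix.of fun l a : Fin (m + 1) =>
        iteratedDeriv (l : ℕ) (fun w => lin (θ (f a)) (y w) / y w c) z /
          (lin (θ (f a)) (y z) / y z c)) := by
    rw [← Matrix.det_mul_row, hE]
    congr 1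
    ext l a
    rw [Matrix.of_apply, Matrix.of_apply, Matrix.of_apply]
    rw [mul_div_cancel₀ _ (div_ne_zero (hz.2 (f a)) (hz.1 c))]
  have hE2 : ‖Matrix.det (Matrix.of fun l a : Fin (m + 1) =>
        iteratedDeriv (l : ℕ) (fun w => lin (θ (f a)) (y w) / y w c) z /
          (lin (θ (f a)) (y z) / y z c))‖ ≤ ((m + 1).factorial : ℝ) * LamG y θ L z ^ (m + 1) := by
    rw [Matrix.det_apply]
    refine (norm_sum_le _ _).trans ?_
    have h1 : ∀ σ ∈ (Finset.univ : Finset (Equiv.Perm (Fin (m + 1)))),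
        ‖Equiv.Perm.sign σ • ∏ i, (Matrix.of fun l a : Fin (m + 1) =>
          iteratedDeriv (l : ℕ) (fun w => lin (θ (f a)) (y w) / y w c) z /
          (lin (θ (f a)) (y z) / y z c)) (σ i) i‖ ≤ LamG y θ L z ^ (m + 1) := by
      intro σ _
      have h2 : ‖Equiv.Perm.sign σ • ∏ i, (Matrix.of fun l a : Fin (m + 1) =>
          iteratedDeriv (l : ℕ) (fun w => lin (θ (f a)) (y w) / y w c) z /
          (lin (θ (f a)) (y z) / y z c)) (σ i) i‖ = ‖∏ i, (Matrix.of fun l a : Fin (m + 1) =>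
          iteratedDeriv (l : ℕ) (fun w => lin (θ (f a)) (y w) / y w c) z /
          (lin (θ (f a)) (y z) / y z c)) (σ i) i‖ := by
        rcases Int.units_eq_one_or (Equiv.Perm.sign σ) with h | h <;> simp [h]
      rw [h2, norm_prod]
      have h3 : ∏ i : Fin (m + 1), ‖(Matrix.of fun l a : Fin (m + 1) =>
          iteratedDeriv (l : ℕ) (fun w => lin (θ (f a)) (y w) / y w c) z /
          (lin (θ (f a)) (y z) / y z c)) (σ i) i‖ ≤ ∏ _i : Fin (m + 1), LamG y θ L z := by
        refine Finset.prod_le_prod (fun i _ => norm_nonneg _) fun i _ => ?_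
        rw [Matrix.of_apply]
        exact term2_le_LamG y θ L z c (f i) ⟨(σ i : ℕ), by have := (σ i).2; omega⟩
      rw [Finset.prod_const, Finset.card_univ, Fintype.card_fin] at h3
      exact h3
    refine (Finset.sum_le_sum h1).trans ?_
    rw [Finset.sum_const, Finset.card_univ, Fintype.card_perm, Fintype.card_fin, nsmul_eq_mul]
  have hE3 : ‖E‖ ≤ (∏ a, (‖lin (θ (f a)) (y z)‖ / ‖y z c‖)) *
      (((m + 1).factorial : ℝ) * LamG y θ L z ^ (m + 1)) := by
    rw [hE1, norm_mul, norm_prod]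
    simp only [norm_div]
    exact mul_le_mul_of_nonneg_left hE2 (Finset.prod_nonneg fun _ _ => by positivity)
  -- the identity
  have hF : (1 : ℝ) ≤ ‖(∏ l : Fin m, (((l : ℕ) + 1).factorial : ℂ))‖ := by
    rw [norm_prod]
    have : ∀ l ∈ (Finset.univ : Finset (Fin m)), (1 : ℝ) ≤ ‖(((l : ℕ) + 1).factorial : ℂ)‖ := by
      intro l _
      rw [Complex.norm_natCast]
      exact_mod_cast Nat.one_le_iff_ne_zero.2 (Nat.factorial_ne_zero _)
    calc (1 : ℝ) = ∏ _l : Fin m, (1 : ℝ) := by simp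
      _ ≤ _ := Finset.prod_le_prod (fun _ _ => zero_le_one) this
  have hn : ‖E‖ = ‖(∏ l : Fin m, (((l : ℕ) + 1).factorial : ℂ))‖ * ‖T‖ * ‖W‖ := by
    rw [hid, norm_mul, norm_mul, norm_mul, norm_pow, norm_neg, norm_one, one_pow, one_mul]
  have hTpos : 0 < ‖T‖ := norm_pos_iff.2 hT0
  have hW1 : ‖W‖ ≤ ‖T‖⁻¹ * ‖E‖ := by
    rw [hn]
    have : ‖T‖⁻¹ * (‖(∏ l : Fin m, (((l : ℕ) + 1).factorial : ℂ))‖ * ‖T‖ * ‖W‖) =
        ‖(∏ l : Fin m, (((l : ℕ) + 1).factorial : ℂ))‖ * ‖W‖ := by
      field_simp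
    rw [this]
    exact le_mul_of_one_le_left (norm_nonneg _) hF
  have hsum : ‖T‖⁻¹ ≤ ∑ f : Fin (m + 1) → ι,
      ‖Matrix.det (Matrix.of fun a b => θ (f a) b)‖⁻¹ := by
    refine Finset.single_le_sum (f := fun f : Fin (m + 1) → ι =>
      ‖Matrix.det (Matrix.of fun a b => θ (f a) b)‖⁻¹) (fun f _ => by positivity)
      (Finset.mem_univ f)
  have hΛ : 0 ≤ LamG y θ L z := zero_le_one.trans (one_le_LamG y θ L z)
  calc ‖W‖ ≤ ‖T‖⁻¹ * ‖E‖ := hW1
    _ ≤ (∑ f : Fin (m + 1) → ι, ‖Matrix.det (Matrix.of fun a b => θ (f a) b)‖⁻¹) *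
        ((∏ a, (‖lin (θ (f a)) (y z)‖ / ‖y z c‖)) *
      (((m + 1).factorial : ℝ) * LamG y θ L z ^ (m + 1))) :=
        mul_le_mul hsum hE3 (norm_nonneg _) (Finset.sum_nonneg fun f _ => by positivity)
    _ = _ := by ring

end Pool.Agent.H78G
end
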