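import Pool.Agent.Lib.H1M.PB.M023
import Pool.Agent.Lib.H1M.PB.M027
import Pool.Agent.Lib.H1M.PB.M031
import Pool.Agent.Lib.H1M.PB.M032
import Pool.Agent.Lib.H1M.PB.M034
import Pool.Agent.Lib.H1M.PB.M038

/-! Merged copies (to shorten the build) of Lib.H78G.D1, Lib.H78G.D3A, Lib.H78G.D3C, Lib.H78G.D4, Lib.H78G.D7A, Lib.H49D.DD, Lib.H53R.D0, Lib.H53R.IDE, Lib.H78R.R0, Lib.H53R.FD. -/

-- from Lib.H78G.D1
section

set_option autoImplicit false

/-!
CHUNK D1 (M, adapt `core` in `H89T/DG.lean`).  From an auxiliary entire function to the inequality.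
-/

open MvPolynomial Real MeasureTheory Pool.Agent.H67T

namespace Pool.Agent.H78G

open Pool.Agent.H89T

/-- the logarithm of `LamG` -/
theorem D1_log_LamG {m : ℕ} {ι : Type} [Fintype ι] (y : ℂ → Fin (m + 1) → ℂ)
    (θ : ι → Fin (m + 1) → ℂ) (L : ℕ) :
    ∃ K : ℝ, 0 ≤ K ∧ ∀ z, log (LamG y θ L z) ≤ K +
      ((∑ p : Fin (m + 1) × Fin (m + 1) × Fin (L + 1),
        log⁺ ‖iteratedDeriv (p.2.2 : ℕ) (fun w => y w p.2.1 / y w p.1) z /
          (y z p.2.1 / y z p.1)‖) +
      ∑ p : Fin (m + 1) × ι × Fin (L + 1),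
        log⁺ ‖iteratedDeriv (p.2.2 : ℕ) (fun w => lin (θ p.2.1) (y w) / y w p.1) z /
          (lin (θ p.2.1) (y z) / y z p.1)‖) := by
  have hlog2 : 0 ≤ log 2 := Real.log_nonneg (by norm_num)
  have hc1 : 0 ≤ log (Fintype.card (Fin (m + 1) × Fin (m + 1) × Fin (L + 1)) : ℝ) :=
    Real.log_natCast_nonneg _
  have hc2 : 0 ≤ log (Fintype.card (Fin (m + 1) × ι × Fin (L + 1)) : ℝ) :=
    Real.log_natCast_nonneg _
  refine ⟨2 * log 2 + log (Fintype.card (Fin (m + 1) × Fin (m + 1) × Fin (L + 1)) : ℝ) +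
    log (Fintype.card (Fin (m + 1) × ι × Fin (L + 1)) : ℝ), by linarith, fun z => ?_⟩
  have h1 : log (LamG y θ L z) ≤ log⁺ (LamG y θ L z) := by
    rw [posLog_apply]
    exact le_max_right _ _
  have h2 : LamG y θ L z = 1 + (∑ p : Fin (m + 1) × Fin (m + 1) × Fin (L + 1),
        ‖iteratedDeriv (p.2.2 : ℕ) (fun w => y w p.2.1 / y w p.1) z /
          (y z p.2.1 / y z p.1)‖) +
      ∑ p : Fin (m + 1) × ι × Fin (L + 1),
        ‖iteratedDeriv (p.2.2 : ℕ) (fun w => lin (θ p.2.1) (y w) / y w p.1) z /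
          (lin (θ p.2.1) (y z) / y z p.1)‖ := by
    simp only [Fintype.sum_prod_type]
    rfl
  have h3 := posLog_add (x := 1 + ∑ p : Fin (m + 1) × Fin (m + 1) × Fin (L + 1),
        ‖iteratedDeriv (p.2.2 : ℕ) (fun w => y w p.2.1 / y w p.1) z /
          (y z p.2.1 / y z p.1)‖) (y := ∑ p : Fin (m + 1) × ι × Fin (L + 1),
        ‖iteratedDeriv (p.2.2 : ℕ) (fun w => lin (θ p.2.1) (y w) / y w p.1) z /
          (lin (θ p.2.1) (y z) / y z p.1)‖)
  have h4 := posLog_add (x := 1) (y := ∑ p : Fin (m + 1) × Fin (m + 1) × Fin (L + 1),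
        ‖iteratedDeriv (p.2.2 : ℕ) (fun w => y w p.2.1 / y w p.1) z /
          (y z p.2.1 / y z p.1)‖)
  have h5 := DG_log_one_add (fun p : Fin (m + 1) × Fin (m + 1) × Fin (L + 1) =>
        ‖iteratedDeriv (p.2.2 : ℕ) (fun w => y w p.2.1 / y w p.1) z /
          (y z p.2.1 / y z p.1)‖) fun _ => norm_nonneg _
  have h6 := DG_log_one_add (fun p : Fin (m + 1) × ι × Fin (L + 1) =>
        ‖iteratedDeriv (p.2.2 : ℕ) (fun w => lin (θ p.2.1) (y w) / y w p.1) z /
          (lin (θ p.2.1) (y z) / y z p.1)‖) fun _ => norm_nonneg _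
  have h7 : log⁺ (1 : ℝ) = 0 := posLog_one
  rw [h2] at h1
  rw [h2]
  linarith


end Pool.Agent.H78G
end

-- from Lib.H78G.D3A
section

set_option autoImplicit false

/-!
CHUNK D3A (M).  Weight of the Wronskian, general position.
-/

open MvPolynomial Real Pool.Agent.H67T

namespace Pool.Agent.H78G

open Pool.Agent.H89T

/-- CHUNK D3A.  Weight of the Wronskian: `m` factors `X (b, l + 1)`, `l < m`, of weight `≤ m + 1`. -/
theorem WdP_wt {m r : ℕ} (hr : m ≤ r) : HasWt ((m + 1) * m) (WdP (m := m) hr) := by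
  classical
  have hinj : Function.Injective (Sum.inl : JV m r → JV m r ⊕ Empty) := Sum.inl_injective
  have h1 : WtS ((m + 1) * m)
      (rename (Sum.inl : JV m r → JV m r ⊕ Empty) (WdP (m := m) hr)) := by
    have h2 := WtS.Wd (n := m) (r := r) (τ := Empty) hr
    have h3 : rename (Sum.inl : JV m r → JV m r ⊕ Empty) (WdP (m := m) hr) =
        Wd hr fun p => (X (Sum.inl p) : MvPolynomial (JV m r ⊕ Empty) ℂ) := by
      have h4 := Wd_map hr ((rename (R := ℂ) (Sum.inl : JV m r → JV m r ⊕ Empty)).toRingHom)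
        (fun p => (X p : MvPolynomial (JV m r) ℂ))
      simp only [AlgHom.toRingHom_eq_coe, RingHom.coe_coe, rename_X] at h4
      exact h4
    rw [h3]
    exact h2
  intro e he
  have h5 : Finsupp.mapDomain Sum.inl e ∈
      (rename (Sum.inl : JV m r → JV m r ⊕ Empty) (WdP (m := m) hr)).support := by
    rw [mem_support_iff, coeff_rename_mapDomain _ hinj]
    exact mem_support_iff.1 he
  have h6 := h1 _ h5
  simp only [Finsupp.mapDomain_apply hinj] at h6
  exact h6

theorem D3A_norm {n m : ℕ} (Lam : Matrix (Fin n) (Fin m) ℂ) :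
    ∃ A : ℝ, 0 ≤ A ∧ ∀ v : Fin m → ℂ, ‖Lam.mulVec v‖ ≤ A * ‖v‖ := by
  refine ⟨∑ l, ∑ b, ‖Lam l b‖, Finset.sum_nonneg fun _ _ => Finset.sum_nonneg fun _ _ =>
    norm_nonneg _, fun v => ?_⟩
  have h0 : 0 ≤ ∑ l, ∑ b, ‖Lam l b‖ := Finset.sum_nonneg fun _ _ => Finset.sum_nonneg fun _ _ =>
    norm_nonneg _
  rw [pi_norm_le_iff_of_nonneg (mul_nonneg h0 (norm_nonneg _))]
  intro l
  calc ‖Lam.mulVec v l‖ = ‖∑ b, Lam l b * v b‖ := rfl
    _ ≤ ∑ b, ‖Lam l b * v b‖ := norm_sum_le _ _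
    _ ≤ ∑ b, ‖Lam l b‖ * ‖v‖ := by
        refine Finset.sum_le_sum fun b _ => ?_
        rw [norm_mul]
        exact mul_le_mul_of_nonneg_left (norm_le_pi_norm v b) (norm_nonneg _)
    _ = (∑ b, ‖Lam l b‖) * ‖v‖ := by rw [Finset.sum_mul]
    _ ≤ (∑ l, ∑ b, ‖Lam l b‖) * ‖v‖ := by
        refine mul_le_mul_of_nonneg_right ?_ (norm_nonneg _)
        exact Finset.single_le_sum (f := fun l => ∑ b, ‖Lam l b‖)
          (fun _ _ => Finset.sum_nonneg fun _ _ => norm_nonneg _) (Finset.mem_univ l)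

/-- CHUNK D3A.  General position: there is `δ > 0` such that for every `v ≠ 0` at most `m` of the forms
satisfy `|θ_i (v)| < δ ‖v‖`.  Proof: for injective `f : Fin (m + 1) → ι` the linear map
`v ↦ (θ (f a) v)_a` is injective, hence `‖v‖ ≤ C_f max_a |θ (f a) v|` (inverse matrix, or
`LinearMap.exists_antilipschitzWith`); finitely many `f`. -/
theorem genpos_delta {m : ℕ} {ι : Type} [Fintype ι] {θ : ι → Fin (m + 1) → ℂ} (h : GenPos θ) :
    ∃ δ : ℝ, 0 < δ ∧ δ ≤ 1 ∧ ∀ v : Fin (m + 1) → ℂ, ∀ s : Finset ι,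
      (∀ i ∈ s, ‖lin (θ i) v‖ < δ * ‖v‖) → s.card ≤ m := by
  classical
  have h1 : ∀ f : Fin (m + 1) → ι, ∃ C : ℝ, 0 ≤ C ∧ (Function.Injective f →
      ∀ v : Fin (m + 1) → ℂ, ‖v‖ ≤ C * ‖fun a => lin (θ (f a)) v‖) := by
    intro f
    by_cases hf : Function.Injective f
    · obtain ⟨C, hC, hC'⟩ := D3A_norm (Matrix.of fun a b => θ (f a) b)⁻¹
      refine ⟨C, hC, fun _ v => ?_⟩
      have h2 := hC' (fun a => lin (θ (f a)) v)
      have h3 : (Matrix.of fun a b => θ (f a) b)⁻¹.mulVec (fun a => lin (θ (f a)) v) = v := by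
        have h4 : (fun a => lin (θ (f a)) v) = (Matrix.of fun a b => θ (f a) b).mulVec v := rfl
        rw [h4, Matrix.mulVec_mulVec, Matrix.nonsing_inv_mul _ (isUnit_iff_ne_zero.2 (h f hf)),
          Matrix.one_mulVec]
      rwa [h3] at h2
    · exact ⟨0, le_rfl, fun h => absurd h hf⟩
  choose C hC hC' using h1
  have hS : 0 ≤ ∑ f, C f := Finset.sum_nonneg fun f _ => hC f
  refine ⟨(1 + ∑ f, C f)⁻¹, by positivity, inv_le_one_of_one_le₀ (by linarith),
    fun v s hs => ?_⟩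
  by_contra hcon
  push Not at hcon
  obtain ⟨t, hts, ht⟩ := Finset.exists_subset_card_eq (s := s) (n := m + 1) hcon
  obtain ⟨f, hf⟩ : ∃ f : Fin (m + 1) → ι, f = fun a => ((t.equivFinOfCardEq ht).symm a : ι) :=
    ⟨_, rfl⟩
  have hfinj : Function.Injective f := by
    rw [hf]
    exact Subtype.val_injective.comp (t.equivFinOfCardEq ht).symm.injective
  have hft : ∀ a, f a ∈ s := fun a => by
    rw [hf]
    exact hts ((t.equivFinOfCardEq ht).symm a).2
  have hv : 0 < ‖v‖ := by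
    have h2 := hs (f 0) (hft 0)
    by_contra h3
    have h4 : ‖v‖ = 0 := le_antisymm (not_lt.1 h3) (norm_nonneg _)
    rw [h4, mul_zero] at h2
    exact absurd h2 (not_lt.2 (norm_nonneg _))
  have h2 := hC' f hfinj v
  have h3 : ‖fun a => lin (θ (f a)) v‖ ≤ (1 + ∑ f, C f)⁻¹ * ‖v‖ := by
    rw [pi_norm_le_iff_of_nonneg (by positivity)]
    exact fun a => (hs (f a) (hft a)).le
  have h4 : C f ≤ ∑ f, C f := Finset.single_le_sum (fun f _ => hC f) (Finset.mem_univ f)
  have h5 : ‖v‖ ≤ C f * ((1 + ∑ f, C f)⁻¹ * ‖v‖) :=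
    h2.trans (mul_le_mul_of_nonneg_left h3 (hC f))
  have h6 : C f * (1 + ∑ f, C f)⁻¹ < 1 := by
    rw [← div_eq_mul_inv, div_lt_one (by linarith)]
    linarith
  have h7 : C f * ((1 + ∑ f, C f)⁻¹ * ‖v‖) < ‖v‖ := by
    rw [← mul_assoc]
    exact mul_lt_of_lt_one_left hv h6
  linarith

end Pool.Agent.H78G
end

-- from Lib.H78G.D3C
section

set_option autoImplicit false

/-!
CHUNK D3C (M).  Cartan's estimate: the Wronskian is small where the curve is close to the
hyperplanes.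
-/

open MvPolynomial Real Pool.Agent.H67T

namespace Pool.Agent.H78G

open Pool.Agent.H89T

/-- CHUNK D3C.  **Cartan's estimate** in a chart with `‖y_c‖ = ‖y‖`.  Proof: `QQ = y_c ^ M * Wd (jet)`
(`QQ_eq`), `norm_Wd_le` with `f` enumerating a set of `m + 1` indices which contains all `i` with
`‖θ_i (y)‖ < δ ‖y‖` (`genpos_delta`, `D.card`); the other factors satisfy
`‖y‖ ≤ δ⁻¹ ‖θ_i (y)‖`. -/
theorem cartan_growth {m r L : ℕ} (hr : m ≤ r) (hL : m ≤ L) {ι : Type} [Fintype ι]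
    (D : CurveG m ι) (c : Fin (m + 1)) :
    ∃ C : ℝ, 0 ≤ C ∧ ∀ z, Good D.y D.θ z → ‖D.y z c‖ = ‖D.y z‖ →
      ‖QQ D.y c ((m + 1) * m) (WdP hr) z‖ * ‖D.y z‖ ^ Fintype.card ι ≤
        C * (∏ i, ‖lin (D.θ i) (D.y z)‖) * ‖D.y z‖ ^ ((m + 1) * m) *
          LamG D.y D.θ L z ^ (m + 1) := by
  classical
  obtain ⟨C₀, hC₀, h1⟩ := norm_Wd_le hr hL D.hy D.gen c
  obtain ⟨δ, hδ, hδ1, h2⟩ := genpos_delta D.gen
  refine ⟨C₀ * (δ⁻¹) ^ Fintype.card ι, by positivity, fun z hz hc => ?_⟩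
  have hY0 : 0 < ‖D.y z‖ := norm_pos_iff.2 (D.hy.ne_zero z)
  have hWd : eval (jetf r (ch c D.y) z) (WdP (m := m) hr) = Wd hr (jetf r (ch c D.y) z) := by
    unfold WdP
    rw [Wd_map hr (eval (jetf r (ch c D.y) z))]
    simp
  rw [QQ_eq D.hy.diff c (WdP_wt hr) (hz.1 c), hWd, norm_mul, norm_pow, hc]
  -- a set of `m + 1` indices
  obtain ⟨s, hs⟩ : ∃ s : Finset ι, s = Finset.univ.filter fun i =>
      ‖lin (D.θ i) (D.y z)‖ < δ * ‖D.y z‖ := ⟨_, rfl⟩
  have hsm : s.card ≤ m := h2 (D.y z) s fun i hi => by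
    rw [hs, Finset.mem_filter] at hi
    exact hi.2
  obtain ⟨t, hst, ht⟩ := Finset.exists_superset_card_eq (s := s) (n := m + 1) (by omega) D.card
  have hout : ∀ i, i ∉ t → δ * ‖D.y z‖ ≤ ‖lin (D.θ i) (D.y z)‖ := by
    intro i hi
    by_contra hcon
    push Not at hcon
    exact hi (hst (by rw [hs, Finset.mem_filter]; exact ⟨Finset.mem_univ _, hcon⟩))
  obtain ⟨f, hf⟩ : ∃ f : Fin (m + 1) → ι, f = fun a => ((t.equivFinOfCardEq ht).symm a : ι) :=
    ⟨_, rfl⟩
  have hfinj : Function.Injective f := by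
    rw [hf]
    exact Subtype.val_injective.comp (t.equivFinOfCardEq ht).symm.injective
  have hprod : ∏ a, (‖lin (D.θ (f a)) (D.y z)‖ / ‖D.y z c‖) =
      ∏ i ∈ t, (‖lin (D.θ i) (D.y z)‖ / ‖D.y z‖) := by
    rw [hc, hf, ← Finset.prod_coe_sort t]
    exact (t.equivFinOfCardEq ht).symm.prod_comp
      fun i : t => ‖lin (D.θ (i : ι)) (D.y z)‖ / ‖D.y z‖
  have h3 := h1 z hz f hfinj
  rw [hprod] at h3
  obtain ⟨Y, hY⟩ : ∃ Y : ℝ, Y = ‖D.y z‖ := ⟨_, rfl⟩
  obtain ⟨Λ, hΛ⟩ : ∃ Λ : ℝ, Λ = LamG D.y D.θ L z ^ (m + 1) := ⟨_, rfl⟩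
  have hΛ0 : 0 ≤ Λ := by
    rw [hΛ]
    have := one_le_LamG D.y D.θ L z
    positivity
  obtain ⟨g, hg⟩ : ∃ g : ι → ℝ, g = fun i => ‖lin (D.θ i) (D.y z)‖ := ⟨_, rfl⟩
  have hg0 : ∀ i, 0 ≤ g i := fun i => by rw [hg]; positivity
  have hgi : ∀ i, ‖lin (D.θ i) (D.y z)‖ = g i := fun i => by rw [hg]
  simp only [hgi] at h3 hout ⊢
  rw [← hY] at h3 hout hY0 ⊢
  rw [← hΛ] at h3 ⊢
  have h4 : (∏ i ∈ t, (g i / Y)) * Y ^ Fintype.card ι ≤ (δ⁻¹) ^ Fintype.card ι * ∏ i, g i := by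
    have h5 : Y ^ Fintype.card ι = (∏ _i ∈ t, Y) * ∏ _i ∈ tᶜ, Y := by
      rw [Finset.prod_mul_prod_compl, Finset.prod_const, Finset.card_univ]
    have h6 : (∏ i ∈ t, (g i / Y)) * ∏ _i ∈ t, Y = ∏ i ∈ t, g i := by
      rw [← Finset.prod_mul_distrib]
      refine Finset.prod_congr rfl fun i _ => ?_
      field_simp
    have h7 : ∏ _i ∈ tᶜ, Y ≤ ∏ i ∈ tᶜ, (δ⁻¹ * g i) := by
      refine Finset.prod_le_prod (fun _ _ => hY0.le) fun i hi => ?_
      rw [Finset.mem_compl] at hi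
      have h8 := hout i hi
      rw [inv_mul_eq_div, le_div_iff₀ hδ]
      linarith
    have h9 : ∏ i ∈ tᶜ, (δ⁻¹ * g i) ≤ (δ⁻¹) ^ Fintype.card ι * ∏ i ∈ tᶜ, g i := by
      rw [Finset.prod_mul_distrib, Finset.prod_const]
      refine mul_le_mul_of_nonneg_right ?_ (Finset.prod_nonneg fun i _ => hg0 i)
      exact pow_le_pow_right₀ ((one_le_inv₀ hδ).2 hδ1) (Finset.card_le_univ _)
    calc (∏ i ∈ t, (g i / Y)) * Y ^ Fintype.card ι
        = (∏ i ∈ t, g i) * ∏ _i ∈ tᶜ, Y := by rw [h5, ← mul_assoc, h6]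
      _ ≤ (∏ i ∈ t, g i) * ((δ⁻¹) ^ Fintype.card ι * ∏ i ∈ tᶜ, g i) :=
          mul_le_mul_of_nonneg_left (h7.trans h9) (Finset.prod_nonneg fun i _ => hg0 i)
      _ = (δ⁻¹) ^ Fintype.card ι * ((∏ i ∈ t, g i) * ∏ i ∈ tᶜ, g i) := by ring
      _ = _ := by rw [Finset.prod_mul_prod_compl]
  calc Y ^ ((m + 1) * m) * ‖Wd hr (jetf r (ch c D.y) z)‖ * Y ^ Fintype.card ι
      ≤ Y ^ ((m + 1) * m) * (C₀ * (∏ i ∈ t, (g i / Y)) * Λ) * Y ^ Fintype.card ι := by
        gcongr
    _ = C₀ * Y ^ ((m + 1) * m) * Λ * ((∏ i ∈ t, (g i / Y)) * Y ^ Fintype.card ι) := by ring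
    _ ≤ C₀ * Y ^ ((m + 1) * m) * Λ * ((δ⁻¹) ^ Fintype.card ι * ∏ i, g i) :=
        mul_le_mul_of_nonneg_left h4 (by positivity)
    _ = _ := by ring

end Pool.Agent.H78G
end

-- from Lib.H78G.D4
section

set_option autoImplicit false

/-!
CHUNK D4 (M).  The order of the Wronskian.
-/

open MvPolynomial Real Pool.Agent.H67T

namespace Pool.Agent.H78G

open Pool.Agent.H89T

/-- The derivatives of the quotients `y_j / y_c` and the Wronskian. -/
theorem D4_det {m r : ℕ} (hr : m ≤ r) {y : ℂ → Fin (m + 1) → ℂ} (hy : IsHol y)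
    (c : Fin (m + 1)) {z : ℂ} (hz : y z c ≠ 0) :
    Matrix.det (Matrix.of fun l j : Fin (m + 1) =>
        iteratedDeriv (l : ℕ) (fun w => y w j / y w c) z) =
      (-1) ^ (c : ℕ) * (∏ l : Fin m, (((l : ℕ) + 1).factorial : ℂ)) *
        Wd hr (jetf r (ch c y) z) := by
  have hev : (fun w => y w c / y w c) =ᶠ[nhds z] fun _ => (1 : ℂ) := by
    have h1 : ∀ᶠ w in nhds z, y w c ≠ 0 :=
      ((hy.diff c).continuous.continuousAt).eventually_ne hz
    filter_upwards [h1] with w hw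
    exact div_self hw
  have hc : ∀ l : ℕ, iteratedDeriv l (fun w => y w c / y w c) z = if l = 0 then 1 else 0 := by
    intro l
    rw [hev.iteratedDeriv_eq l, iteratedDeriv_const]
  rw [Matrix.det_succ_column _ c, Fin.sum_univ_succ]
  have h0 : ∀ i : Fin m, (-1 : ℂ) ^ ((i.succ : ℕ) + (c : ℕ)) *
      (Matrix.of fun l j : Fin (m + 1) =>
        iteratedDeriv (l : ℕ) (fun w => y w j / y w c) z) i.succ c *
      ((Matrix.of fun l j : Fin (m + 1) =>
        iteratedDeriv (l : ℕ) (fun w => y w j / y w c) z).submatrix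
          i.succ.succAbove c.succAbove).det = 0 := by
    intro i
    have : (Matrix.of fun l j : Fin (m + 1) =>
        iteratedDeriv (l : ℕ) (fun w => y w j / y w c) z) i.succ c = 0 := by
      rw [Matrix.of_apply, hc, if_neg (by simp)]
    rw [this]
    ring
  rw [Finset.sum_eq_zero fun i _ => h0 i, add_zero, Matrix.of_apply, hc, if_pos (by simp)]
  have h1 : ((Matrix.of fun l j : Fin (m + 1) =>
        iteratedDeriv (l : ℕ) (fun w => y w j / y w c) z).submatrix
          (0 : Fin (m + 1)).succAbove c.succAbove) =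
      Matrix.of fun l b : Fin m => (((l : ℕ) + 1).factorial : ℂ) *
        (Matrix.of fun b l : Fin m =>
          jetf r (ch c y) z (b, ⟨(l : ℕ) + 1, by omega⟩)).transpose l b := by
    ext l b
    have hf : (((l : ℕ) + 1).factorial : ℂ) ≠ 0 := by
      exact_mod_cast Nat.factorial_ne_zero _
    simp only [Matrix.submatrix_apply, Matrix.of_apply, Matrix.transpose_apply, jetf, ch,
      Fin.succAbove_zero, Fin.val_succ]
    rw [mul_div_cancel₀ _ hf]
  rw [h1, Matrix.det_mul_column, Matrix.det_transpose]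
  unfold Wd
  simp only [Fin.val_zero, zero_add, mul_one]
  ring

/-- The derivatives of the quotients `θ (y) / y_c`. -/
theorem D4_entry {m : ℕ} {y : ℂ → Fin (m + 1) → ℂ} (hy : IsHol y) (θ : Fin (m + 1) → ℂ)
    (c : Fin (m + 1)) {z : ℂ} (hz : y z c ≠ 0) (l : ℕ) :
    iteratedDeriv l (fun w => lin θ (y w) / y w c) z =
      ∑ j, iteratedDeriv l (fun w => y w j / y w c) z * θ j := by
  have h1 : (fun w => lin θ (y w) / y w c) = fun w => ∑ j, θ j * (y w j / y w c) := by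
    funext w
    unfold lin
    rw [Finset.sum_div]
    exact Finset.sum_congr rfl fun j _ => by ring
  have han : ∀ j, AnalyticAt ℂ (fun w => y w j / y w c) z := fun j =>
    ((hy.diff j).analyticAt z).fun_div ((hy.diff c).analyticAt z) hz
  rw [h1, iteratedDeriv_fun_sum fun j _ => ((analyticAt_const.fun_mul (han j)).contDiffAt)]
  refine Finset.sum_congr rfl fun j _ => ?_
  rw [iteratedDeriv_const_mul_field]
  ring

/-- The determinant of the derivatives of `m + 1` quotients `θ (y) / y_c`. -/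
theorem D4_identity {m r : ℕ} (hr : m ≤ r) {y : ℂ → Fin (m + 1) → ℂ} (hy : IsHol y)
    (c : Fin (m + 1)) {z : ℂ} (hz : y z c ≠ 0) (θ : Fin (m + 1) → Fin (m + 1) → ℂ) :
    Matrix.det (Matrix.of fun l a : Fin (m + 1) =>
        iteratedDeriv (l : ℕ) (fun w => lin (θ a) (y w) / y w c) z) =
      ((-1) ^ (c : ℕ) * (∏ l : Fin m, (((l : ℕ) + 1).factorial : ℂ)) *
        Matrix.det (Matrix.of fun a b => θ a b)) * Wd hr (jetf r (ch c y) z) := by
  have h1 : (Matrix.of fun l a : Fin (m + 1) =>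
        iteratedDeriv (l : ℕ) (fun w => lin (θ a) (y w) / y w c) z) =
      (Matrix.of fun l j : Fin (m + 1) =>
        iteratedDeriv (l : ℕ) (fun w => y w j / y w c) z) *
        (Matrix.of fun a b => θ a b).transpose := by
    ext l a
    rw [Matrix.mul_apply, Matrix.of_apply, D4_entry hy (θ a) c hz]
    rfl
  rw [h1, Matrix.det_mul, Matrix.det_transpose, D4_det hr hy c hz]
  ring

/-- CHUNK D4.  At most `m` hyperplanes in general position pass through a point. -/
theorem GenPos.card_le {m : ℕ} {ι : Type} [Fintype ι] {θ : ι → Fin (m + 1) → ℂ} (h : GenPos θ)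
    {v : Fin (m + 1) → ℂ} (hv : v ≠ 0) (s : Finset ι) (hs : ∀ i ∈ s, lin (θ i) v = 0) :
    s.card ≤ m := by
  classical
  by_contra hlt
  push Not at hlt
  obtain ⟨t, hts, htc⟩ := Finset.exists_subset_card_eq (n := m + 1) (s := s) hlt
  let e : Fin (m + 1) ≃ t := (Finset.equivFinOfCardEq htc).symm
  have hinj : Function.Injective fun a => ((e a : t) : ι) :=
    Subtype.val_injective.comp e.injective
  refine h (fun a => (e a : ι)) hinj ?_
  rw [← Matrix.exists_mulVec_eq_zero_iff]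
  refine ⟨v, hv, ?_⟩
  funext a
  have := hs (e a : ι) (hts (e a).2)
  simpa [Matrix.mulVec, dotProduct, lin] using this

/-- The order of a product of analytic functions. -/
theorem D4_order_prod {κ : Type*} (s : Finset κ) {f : κ → ℂ → ℂ} {z₀ : ℂ} {μ : κ → ℕ}
    (ha : ∀ i ∈ s, AnalyticAt ℂ (f i) z₀)
    (h : ∀ i ∈ s, (μ i : ℕ∞) ≤ analyticOrderAt (f i) z₀) :
    ((∑ i ∈ s, μ i : ℕ) : ℕ∞) ≤ analyticOrderAt (fun z => ∏ i ∈ s, f i z) z₀ := by
  classical
  induction s using Finset.induction_on with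
  | empty => simp
  | insert i s hi ih =>
    have h1 := h i (Finset.mem_insert_self i s)
    have h2 := ih (fun j hj => ha j (Finset.mem_insert_of_mem hj))
      fun j hj => h j (Finset.mem_insert_of_mem hj)
    have h3 : AnalyticAt ℂ (fun z => ∏ j ∈ s, f j z) z₀ :=
      Finset.analyticAt_fun_prod s fun j hj => ha j (Finset.mem_insert_of_mem hj)
    have h4 : (fun z => ∏ j ∈ insert i s, f j z) = f i * fun z => ∏ j ∈ s, f j z := by
      funext z
      rw [Finset.prod_insert hi]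
      rfl
    rw [h4, analyticOrderAt_mul (ha i (Finset.mem_insert_self i s)) h3, Finset.sum_insert hi,
      Nat.cast_add]
    exact add_le_add h1 h2

/-- CHUNK D4.  `ord_z (Wd (jet)) ≥ ∑ i, (μ_i - m)⁺` for `μ_i ≤ ord_z θ_i (y)`.

Proof.  Let `s` be the set of the `i` with `μ_i > m`; then `θ_i (y z) = 0` for `i ∈ s`, so `|s| ≤ m`
(`GenPos.card_le`) and, since `|ι| ≥ m + 1`, there is an injective `f : Fin (m + 1) → ι` whose range contains
`s`.  As in D3: `det ((θ_{f a} (y) / y_c) ^ (l))_{l,a} = const * Wd (jet)` near `z` with a constant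
`≠ 0` (general position); the column `a` has entries of order `≥ μ_{f a} - l ≥ μ_{f a} - m`
(`le_order_iteratedDeriv` of `H89T/DB.lean`; the order of `θ (y) / y_c` is that of `θ (y)` because
`y_c (z) ≠ 0`), so the determinant has order `≥ ∑ a, (μ_{f a} - m)⁺` (`le_order_sum`, orders of
products).  The identity between the determinants may be taken from D3 (`norm_Wd_le` contains it) or
proved here. -/
theorem order_Wd {m r : ℕ} (hr : m ≤ r) {ι : Type} [Fintype ι] (D : CurveG m ι)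
    (c : Fin (m + 1)) {z : ℂ} (hz : D.y z c ≠ 0) (μ : ι → ℕ)
    (hμ : ∀ i, (μ i : ℕ∞) ≤ analyticOrderAt (fun w => lin (D.θ i) (D.y w)) z) :
    ((∑ i, (μ i - m) : ℕ) : ℕ∞) ≤
      analyticOrderAt (fun w => eval (jetf r (ch c D.y) w) (WdP (m := m) hr)) z := by
  classical
  -- the set of the forms with `μ i > m`
  set s : Finset ι := Finset.univ.filter fun i => m < μ i with hs
  have hs0 : ∀ i ∈ s, lin (D.θ i) (D.y z) = 0 := by
    intro i hi
    rw [hs, Finset.mem_filter] at hi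
    by_contra hne
    have h0 : analyticOrderAt (fun w => lin (D.θ i) (D.y w)) z = 0 := by
      rw [analyticOrderAt_eq_zero]
      right
      exact hne
    have h1 := hμ i
    rw [h0] at h1
    have h2 : μ i = 0 := by exact_mod_cast nonpos_iff_eq_zero.1 h1
    omega
  have hsc : s.card ≤ m := GenPos.card_le D.gen (D.hy.ne_zero z) s hs0
  obtain ⟨t, hst, -, htc⟩ := Finset.exists_subsuperset_card_eq (Finset.subset_univ s)
    (n := m + 1) (by omega) (by simpa using D.card)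
  let e : Fin (m + 1) ≃ t := (Finset.equivFinOfCardEq htc).symm
  set f : Fin (m + 1) → ι := fun a => ((e a : t) : ι) with hf
  have hinj : Function.Injective f := Subtype.val_injective.comp e.injective
  -- the sum over all forms
  have hsum : ∑ i, (μ i - m) = ∑ a, (μ (f a) - m) := by
    have h1 : ∑ i, (μ i - m) = ∑ i ∈ t, (μ i - m) := by
      symm
      refine Finset.sum_subset (Finset.subset_univ t) fun i _ hi => ?_
      have : i ∉ s := fun h => hi (hst h)
      rw [hs, Finset.mem_filter] at this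
      have h2 : ¬ m < μ i := fun h => this ⟨Finset.mem_univ _, h⟩
      omega
    rw [h1, ← Finset.sum_coe_sort t]
    exact (Equiv.sum_comp e fun i : t => μ (i : ι) - m).symm
  -- the constant
  set T : ℂ := (-1) ^ (c : ℕ) * (∏ l : Fin m, (((l : ℕ) + 1).factorial : ℂ)) *
        Matrix.det (Matrix.of fun a b => D.θ (f a) b) with hT
  have hT0 : T ≠ 0 := by
    refine mul_ne_zero (mul_ne_zero (pow_ne_zero _ (by norm_num)) ?_) (D.gen f hinj)
    rw [Finset.prod_ne_zero_iff]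
    intro l _
    exact_mod_cast Nat.factorial_ne_zero _
  have hyc : ∀ᶠ w in nhds z, D.y w c ≠ 0 :=
    ((D.hy.diff c).continuous.continuousAt).eventually_ne hz
  -- the identity near `z`
  have hev : (fun w => eval (jetf r (ch c D.y) w) (WdP (m := m) hr)) =ᶠ[nhds z]
      fun w => ∑ σ : Equiv.Perm (Fin (m + 1)), ∏ a : Fin (m + 1),
        iteratedDeriv ((σ a : Fin (m + 1)) : ℕ)
          (fun w => lin (D.θ (f a)) (D.y w) / D.y w c) w * (T⁻¹ * ((Equiv.Perm.sign σ : ℤ) : ℂ)) ^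
            (if a = 0 then 1 else 0) := by
    filter_upwards [hyc] with w hw
    have hid := D4_identity hr D.hy c hw (fun a => D.θ (f a))
    have h1 : eval (jetf r (ch c D.y) w) (WdP (m := m) hr) = Wd hr (jetf r (ch c D.y) w) := by
      unfold WdP Wd
      rw [RingHom.map_det]
      congr 1
      ext b l
      simp
    have h2 : Wd hr (jetf r (ch c D.y) w) = T⁻¹ * Matrix.det (Matrix.of fun l a : Fin (m + 1) =>
        iteratedDeriv (l : ℕ) (fun w => lin (D.θ (f a)) (D.y w) / D.y w c) w) := by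
      rw [hid, ← hT, ← mul_assoc, inv_mul_cancel₀ hT0, one_mul]
    rw [h1, h2, Matrix.det_apply', Finset.mul_sum]
    refine Finset.sum_congr rfl fun σ _ => ?_
    rw [Finset.prod_mul_distrib]
    have h3 : ∏ a : Fin (m + 1), (T⁻¹ * ((Equiv.Perm.sign σ : ℤ) : ℂ)) ^
            (if a = 0 then 1 else 0) = T⁻¹ * ((Equiv.Perm.sign σ : ℤ) : ℂ) := by
      rw [Finset.prod_pow_eq_pow_sum]
      simp
    rw [h3]
    simp only [Matrix.of_apply]
    ring
  rw [analyticOrderAt_congr hev, hsum]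
  refine le_order_sum _ fun σ _ => ?_
  have hana : ∀ a : Fin (m + 1), AnalyticAt ℂ
      (fun w => lin (D.θ (f a)) (D.y w) / D.y w c) z := by
    intro a
    have h1 : AnalyticAt ℂ (fun w => lin (D.θ (f a)) (D.y w)) z := by
      unfold lin
      exact Finset.analyticAt_fun_sum _ fun j _ =>
        analyticAt_const.fun_mul ((D.hy.diff j).analyticAt z)
    exact h1.fun_div ((D.hy.diff c).analyticAt z) hz
  refine D4_order_prod Finset.univ (μ := fun a => μ (f a) - m) (fun a _ => ?_) fun a _ => ?_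
  · exact (analyticAt_iteratedDeriv (hana a) _).fun_mul analyticAt_const
  · refine le_order_mul ?_ (analyticAt_iteratedDeriv (hana a) _) analyticAt_const
    have h1 : (μ (f a) : ℕ∞) ≤ analyticOrderAt
        (fun w => lin (D.θ (f a)) (D.y w) / D.y w c) z := by
      have h2 : AnalyticAt ℂ (fun w => lin (D.θ (f a)) (D.y w)) z := by
        unfold lin
        exact Finset.analyticAt_fun_sum _ fun j _ =>
          analyticAt_const.fun_mul ((D.hy.diff j).analyticAt z)
      have h3 := le_order_mul (hμ (f a)) h2 (((D.hy.diff c).analyticAt z).fun_inv hz)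
      simpa only [div_eq_mul_inv] using h3
    have h4 := le_order_iteratedDeriv (hana a) h1 ((σ a : Fin (m + 1)) : ℕ)
    refine le_trans ?_ h4
    have := (σ a).2
    exact_mod_cast (by omega : μ (f a) - m ≤ μ (f a) - ((σ a : Fin (m + 1)) : ℕ))

end Pool.Agent.H78G
end

-- from Lib.H78G.D7A
section

set_option autoImplicit false

/-!
CHUNK D7A (M).  The order of the auxiliary function.
-/

open MvPolynomial Real Pool.Agent.H67T

namespace Pool.Agent.H78G

open Pool.Agent.H89T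

theorem D7A_order_prod {ι : Type*} (s : Finset ι) {f : ι → ℂ → ℂ} {z : ℂ}
    (hf : ∀ i ∈ s, AnalyticAt ℂ (f i) z) :
    analyticOrderAt (fun w => ∏ i ∈ s, f i w) z = ∑ i ∈ s, analyticOrderAt (f i) z := by
  classical
  induction s using Finset.induction_on with
  | empty =>
    simp only [Finset.prod_empty, Finset.sum_empty]
    exact (analyticAt_const).analyticOrderAt_eq_zero.2 one_ne_zero
  | insert a s ha ih =>
    rw [Finset.sum_insert ha, ← ih fun i hi => hf i (Finset.mem_insert_of_mem hi)]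
    have h1 : (fun w => ∏ i ∈ insert a s, f i w) = (f a) * fun w => ∏ i ∈ s, f i w := by
      funext w
      simp [Finset.prod_insert ha]
    rw [h1]
    refine analyticOrderAt_mul (hf a (Finset.mem_insert_self _ _)) ?_
    exact Finset.analyticAt_fun_prod s fun i hi => hf i (Finset.mem_insert_of_mem hi)


end Pool.Agent.H78G
end

-- from Lib.H49D.DD
section

set_option autoImplicit false

/-!
# H49D: module D (one curve) of H53Y (second main theorem with total truncation level one, all types)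

Definitions.  `Small y h`: `h` is bounded above by a function all of whose averages over circles are
at most a constant times the error term.  `Aux y E G κ B`: the auxiliary function `E` satisfies
`|E| |y| ^ κ ≤ |G| |y| ^ B exp h` outside the zeros of an entire function, `h` small.
-/

open MvPolynomial Real MeasureTheory

namespace Pool.Agent.H49D

open Pool.Agent.H89T Pool.Agent.H78G Pool.Agent.H67T Pool.Agent.H53Y

/-- `h` is bounded above by a circle integrable function with small averages. -/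
def Small {N : ℕ} (y : ℂ → Fin N → ℂ) (h : ℂ → ℝ) : Prop :=
  ∃ g : ℂ → ℝ, (∀ z, h z ≤ g z) ∧ (∀ r, CircleIntegrable g 0 r) ∧
    ∃ C : ℝ, 0 ≤ C ∧ ∀ r R : ℝ, 1 ≤ r → r < R → circleAverage g 0 r ≤ C * err y r R

/-- The auxiliary function `E` for the function `G`. -/
def Aux {N : ℕ} (y : ℂ → Fin N → ℂ) (E G : ℂ → ℂ) (κ B : ℕ) : Prop :=
  (Differentiable ℂ E ∧ ∃ z, E z ≠ 0) ∧ (Differentiable ℂ G ∧ ∃ z, G z ≠ 0) ∧
    ∃ (G₀ : ℂ → ℂ) (h : ℂ → ℝ), Differentiable ℂ G₀ ∧ (∃ z, G₀ z ≠ 0) ∧ Small y h ∧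
      ∀ z, G₀ z ≠ 0 → log ‖E z‖ + κ * log ‖y z‖ ≤ log ‖G z‖ + B * log ‖y z‖ + h z

section QM

variable {N : ℕ} {β : Type} [Fintype β] [DecidableEq β] {m : β → ℕ} {ι : Type} [Fintype ι]
variable {sb : ι → β} {dg : ι → ℕ} {n r : ℕ}

/-- The weight of a monomial in the jets of the block `s`. -/
def wtb (e : Co m ≃ Fin n) (s : β) (μ : JV n r →₀ ℕ) : ℕ :=
  ∑ p : JV n r, if (e.symm p.1).1 = s then ((p.2 : ℕ) + 1) * μ p else 0

/-- The entire function `∏ s, (w s)_0 ^ M * P (jet of all affine coordinates in the charts 0)`, for `P`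
of weight at most `M`. -/
noncomputable def QM (D : CurveY N m ι sb dg) (e : Co m ≃ Fin n) (M : ℕ)
    (P : MvPolynomial (JV n r) ℂ) (z : ℂ) : ℂ :=
  ∑ μ ∈ P.support, P.coeff μ * (∏ s, D.w s z 0 ^ (M - wtb e s μ)) *
    ∏ p : JV n r, eta (D.w (e.symm p.1).1) 0 (e.symm p.1).2 (p.2 : ℕ) z ^ μ p

end QM

end Pool.Agent.H49D
end

-- from Lib.H53R.D0
section

set_option autoImplicit false

/-!
# H53R: second main theorem with TOTAL truncation level one on products of projective spaces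
(MP_2a5ae2_ag, weight 25; replaces AllTypesBranching)

Definitions.  See PROOF.md.  Everything of `Lib/H53Y` (blocks `Co m`, factors `Cf m sb dg`, `PropG`, `fv`, `bj`, ...) is
reused; `H49D.wtb e s μ` is the weight of the monomial `μ` in the jets of the block `s`.
New: operators of MULTI-weight (a bound for every block), curves `w s` in the blocks which need not
come from one curve.
-/

open MvPolynomial

namespace Pool.Agent.H53R

open Pool.Agent.H89T Pool.Agent.H78G Pool.Agent.H67T Pool.Agent.H53Y Pool.Agent.H49D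

/-- Polynomials in the jets of weight at most `d s` in the jets of the block `s`, for all `s`. -/
def HasWtB {β : Type} [DecidableEq β] {m : β → ℕ} {n r : ℕ} {R : Type} [CommRing R] (e : Co m ≃ Fin n)
    (d : β → ℕ) (P : MvPolynomial (JV n r) R) : Prop :=
  ∀ s, ∀ μ ∈ P.support, wtb e s μ ≤ d s

theorem HasWtB.mono {β : Type} [DecidableEq β] {m : β → ℕ} {n r : ℕ} {R : Type} [CommRing R]
    {e : Co m ≃ Fin n} {d d' : β → ℕ} {P : MvPolynomial (JV n r) R} (h : HasWtB e d P)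
    (hd : ∀ s, d s ≤ d' s) : HasWtB e d' P :=
  fun s μ hμ => (h s μ hμ).trans (hd s)

/-- The algebraic theorem (multi-weights).  `T s = true`: the block `s` is small (all factors are
linear polynomials), `T s = false`: it is large (all factors are of large degree).  `Db s ≥ 1` is an
upper bound for the total degree of the factors of the block `s`. -/
def AlgP {β : Type} [Fintype β] [DecidableEq β] (m : β → ℕ) (T : β → Bool) {n : ℕ}
    (e : Co m ≃ Fin n) (α : ℝ) : Prop :=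
  ∃ (r C : ℕ) (hr : ∀ s, m s ≤ r), 1 ≤ r ∧
    ∀ (ι : Type) [Fintype ι] [DecidableEq ι] (sb : ι → β) (dg : ι → ℕ) (Db : β → ℕ),
      (∀ i, T (sb i) = true → dg i = 1) → (∀ i, T (sb i) = false → C ≤ dg i) →
      (∀ s, 1 ≤ Db s) → (∀ s, Dg sb dg s ≤ Db s) →
      ∃ W : MvPolynomial (Fin n ⊕ Cf m sb dg) ℂ, W ≠ 0 ∧
        ∀ (a : Cf m sb dg → ℂ) (ξ : JV n r → ℂ),
          eval (Sum.elim (fun b => ξ (b, 0)) a) W ≠ 0 →
          (∀ i, fv e a (fun b => ξ (b, 0)) i ≠ 0) →
          (∀ s, T s = true → Wd (hr s) (bj e ξ s) ≠ 0) →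
          (∀ s, T s = false → ∃ b, ∃ l : Fin (r + 1), (l : ℕ) = 1 ∧ bj e ξ s (b, l) ≠ 0) →
          ∃ (d : β → ℕ) (P : MvPolynomial (JV n r) ℂ),
            (∀ s, (d s : ℝ) ≤ α * r * Db s + C) ∧ HasWtB e d P ∧ PropG e a r P ∧ eval ξ P ≠ 0

/-- The data of one curve (Part D).  `w s` is the curve in the block `s`, `F i` the factors. -/
structure CurveW {β : Type} (m : β → ℕ) (ι : Type) [Fintype ι] (sb : ι → β) (dg : ι → ℕ) where
  /-- the coordinates in the blocks -/
  w : (s : β) → ℂ → Fin (m s + 1) → ℂ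
  /-- the factors -/
  F : (i : ι) → MvPolynomial (Fin (m (sb i) + 1)) ℂ
  hw : ∀ s, IsHol (w s)
  hw0 : ∀ s j, ∃ z, w s z j ≠ 0
  hF : ∀ i, (F i).IsHomogeneous (dg i)
  hF0 : ∀ i, ∃ z, eval (w (sb i) z) (F i) ≠ 0

namespace CurveW

variable {β : Type} {m : β → ℕ} {ι : Type} [Fintype ι] {sb : ι → β} {dg : ι → ℕ}
variable (D : CurveW m ι sb dg)

/-- The function `F i (w)`. -/
noncomputable def φ (i : ι) (z : ℂ) : ℂ := eval (D.w (sb i) z) (D.F i)

/-- The coefficients of the factors in the charts `0`. -/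
noncomputable def a (x : Cf m sb dg) : ℂ := cfF (dg x.1) 0 (D.F x.1) x.2

/-- The coefficient vectors of the factors of the block `s`, for small blocks (linear forms). -/
noncomputable def θ (s : β) (x : {i : ι // sb i = s}) : Fin (m s + 1) → ℂ :=
  fun b => coeff (Finsupp.single (Fin.cast (by rw [x.2]) b) 1) (D.F x.1)

/-- All affine coordinates in the charts `0`. -/
noncomputable def f {n : ℕ} (e : Co m ≃ Fin n) (z : ℂ) (b : Fin n) : ℂ :=
  ch 0 (D.w (e.symm b).1) z (e.symm b).2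

end CurveW

end Pool.Agent.H53R
end

-- from Lib.H53R.IDE
section

set_option autoImplicit false

/-!
H53R, interface: the main theorems of the modules A + C, D, E (statements only; the modules prove
theorems with these statements in their own files).
-/

open MvPolynomial Real MeasureTheory

namespace Pool.Agent.H53R

open Pool.Agent.H89T Pool.Agent.H78G Pool.Agent.H67T Pool.Agent.H53Y Pool.Agent.H49D

/-- Modules A + C. -/
def AC_P : Prop :=
  ∀ {β : Type} [Fintype β] [DecidableEq β] (m : β → ℕ) (T : β → Bool) {n : ℕ}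
    (e : Co m ≃ Fin n), (∀ s, 1 ≤ m s) → (∀ s, T s = false → 2 ≤ m s) → ∀ α : ℝ, 0 < α →
    AlgP m T e α

/-- Module D.  One curve. -/
def D_P : Prop :=
  ∀ {β : Type} [Fintype β] [DecidableEq β] {m : β → ℕ} {ι : Type} [Fintype ι]
    [DecidableEq ι] {sb : ι → β} {dg : ι → ℕ} (T : β → Bool) {n r k μ : ℕ} (M : β → ℕ)
    (e : Co m ≃ Fin n) (D : CurveW m ι sb dg),
    1 ≤ r → (∀ s, 1 ≤ m s) → (∀ s, m s ≤ r) → (∀ s, m s ≤ μ) →
    -- the charts `0`
    (∀ z i, D.φ i z = 0 → ∀ s, D.w s z 0 ≠ 0) →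
    -- the small blocks
    (∀ i, T (sb i) = true → dg i = 1) → (∀ s, T s = true → GenPos (D.θ s)) →
    (∀ s, T s = true → (∃ i, sb i = s) → m s + 1 ≤ Nat.card {i : ι // sb i = s}) →
    (∀ s, T s = true → ∃ z, Wr (D.w s) z ≠ 0) →
    -- the large blocks
    (∀ s, T s = false → ∀ z, Nat.card {i : ι // sb i = s ∧ D.φ i z = 0} ≤ k) →
    ∀ dB : ι → ℕ,
    (∀ i, T (sb i) = false → ∀ c : Fin (m (sb i) + 1),
      ∃ Q : MvPolynomial (JV (m (sb i)) (m (sb i))) ℂ, HasWt (dB i) Q ∧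
        PropB (cfF (dg i) c (D.F i)) Q ∧
        ∃ z, D.w (sb i) z c ≠ 0 ∧ eval (jetf (m (sb i)) (ch c (D.w (sb i))) z) Q ≠ 0) →
    -- the operator
    ∀ P : MvPolynomial (JV n r) ℂ, HasWtB e M P → PropG e D.a r P →
    (∃ z, (∀ s, D.w s z 0 ≠ 0) ∧ eval (jetf r (D.f e) z) P ≠ 0) →
    ∃ C : ℝ, 0 ≤ C ∧ ∀ ρ R : ℝ, 1 ≤ ρ → ρ < R →
      r * ∑ i, (dg i : ℝ) * chi (D.w (sb i)) ρ ≤
        r * N1 (fun z => ∏ i, D.φ i z) ρ +
        ((Fintype.card β * (k * μ + μ ^ 2) : ℕ) : ℝ) * ∑ s, (M s : ℝ) * chi (D.w s) ρ +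
        r * ∑ i, (((μ + 1) * dB i : ℕ) : ℝ) * chi (D.w (sb i)) ρ +
        r * ∑ s, ((μ + 1 : ℕ) : ℝ) * chi (D.w s) ρ + C * ∑ s, err (D.w s) ρ R

/-- The coefficients of the extended forms; `tl j` is the factor (of the product of projective
spaces) of the form `j`. -/
noncomputable def extP {τ ιL : Type} {n c : ℕ} {d : ιL → ℕ} (tl : ιL → τ)
    (f : FV (Fin (n + 1)) d → ℂ)
    (A : τ → Matrix (Fin (n + 1)) (Fin (n + 1)) ℂ) (lam : ιL → ℂ) (s : τ → Fin c → Fin n → ℂ)
    (E : ιL → Fin c → MvPolynomial (Fin (n + 1) ⊕ Fin c) ℂ) :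
    FV (Fin (n + 1) ⊕ Fin c) d → ℂ :=
  fun x => coeff x.2.1 (big ℂ (lam x.1) (psi (s (tl x.1)) (E x.1)) (subM (A (tl x.1)) (fmj f x.1)))

/-- Module E.  `ιL` = the large forms (degrees `d`, factor `tl j`), `κ` = the small forms, `sx x` the
block of `x` (dimension `m`, inside a space of dimension `mv`), `part x` the part of `x`. -/
def E_P : Prop :=
  ∀ {n c nb : ℕ} {τ : Type} [Fintype τ] {ιL : Type} [Fintype ιL] (tl : ιL → τ) (d : ιL → ℕ)
    {σ κ : Type} [Fintype σ] [Fintype κ] (m mv : σ → ℕ) (sx : κ → σ) (part : κ → Fin nb),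
    (∀ j, 1 ≤ d j) →
    Fintype.card τ * (2 * ((n + 1) * (n + 1))) + ∑ s, 2 * ((m s + 1) * (mv s + 1)) ≤ c →
    ∀ Θ : (S : Finset (Fin nb)) → MvPolynomial (FV (Fin (n + 1) ⊕ Fin c) d ⊕
      LV (fun x : {x : κ // part x ∉ S} => m (sx x.1))) ℂ,
    (∀ S, S.card ≤ c → Θ S ≠ 0) →
    ∃ Ξ : MvPolynomial (FV (Fin (n + 1)) d ⊕ LV (fun x => mv (sx x))) ℂ, Ξ ≠ 0 ∧
      ∀ (f : FV (Fin (n + 1)) d → ℂ) (η : LV (fun x => mv (sx x)) → ℂ),
        eval (Sum.elim f η) Ξ ≠ 0 →
        ∀ A A' : τ → Matrix (Fin (n + 1)) (Fin (n + 1)) ℂ, (∀ t, A' t * A t = 1) →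
        ∀ (Lam : (s : σ) → Matrix (Fin (mv s + 1)) (Fin (m s + 1)) ℂ)
          (Lb : (s : σ) → Matrix (Fin (m s + 1)) (Fin (mv s + 1)) ℂ),
          (∀ s, Lb s * Lam s = 1) →
          (∀ j, eval (fun i => A (tl j) i 0) (fmj f j) ≠ 0) →
          ∃ S : Finset (Fin nb), S.card ≤ c ∧ ∃ (lam : ιL → ℂ) (s : τ → Fin c → Fin n → ℂ)
            (E : ιL → Fin c → MvPolynomial (Fin (n + 1) ⊕ Fin c) ℂ),
            (∀ j, lam j ≠ 0) ∧ (∀ j i, (E j i).IsHomogeneous (d j - 1)) ∧
            eval (Sum.elim (extP tl f A lam s E) (resC η Lam (fun x => part x ∉ S))) (Θ S) ≠ 0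

end Pool.Agent.H53R
end

-- from Lib.H78R.R0
section

set_option autoImplicit false

/-!
H78R: module E of Lib/H53R (products; MP_2a5ae2_ag, weight 25).  Definitions: the port of
Lib/H78B/B0.lean with one matrix and one family of slopes for every factor.
-/

open MvPolynomial

namespace Pool.Agent.H78R

open Pool.Agent.H89T Pool.Agent.H53Y Pool.Agent.H78B Pool.Agent.H53R

section defs

variable {B : Type} [CommRing B] {n c : ℕ}

/-- The coefficients of the extended forms. -/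
noncomputable def extR [Algebra ℂ B] {τ ιL : Type} {d : ιL → ℕ} (tl : ιL → τ)
    (f : FV (Fin (n + 1)) d → B)
    (A : τ → Matrix (Fin (n + 1)) (Fin (n + 1)) B) (lam : ιL → ℂ) (s : τ → Fin c → Fin n → ℂ)
    (E : ιL → Fin c → MvPolynomial (Fin (n + 1) ⊕ Fin c) ℂ) :
    FV (Fin (n + 1) ⊕ Fin c) d → B :=
  fun x => coeff x.2.1 (big B (lam x.1) (psi (s (tl x.1)) (E x.1)) (subB (A (tl x.1)) (fmB f x.1)))


/-- The parameters of the generic extension of the family `g j`: factors `lam j`, linear forms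
`s t i` (the same for all `j` with `tl j = t`), forms `E j i` of degree `d j - 1`. -/
abbrev PR (τ ιL : Type) (n c : ℕ) (d : ιL → ℕ) : Type :=
  ιL ⊕ (τ × Fin c × Fin n) ⊕ (Σ j : ιL, Fin c × Ex (Fin (n + 1) ⊕ Fin c) (d j - 1))

/-- The generic extension of the form `g` of index `j`. -/
noncomputable def genR {τ ιL : Type} (tl : ιL → τ) (d : ιL → ℕ) (j : ιL)
    (g : MvPolynomial (Fin (n + 1)) B) :
    MvPolynomial (Fin (n + 1) ⊕ Fin c) (MvPolynomial (PR τ ιL n c d) B) :=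
  C (X (Sum.inl j)) * (rename Sum.inl (map (C : B →+* MvPolynomial (PR τ ιL n c d) B) g) +
    ∑ i : Fin c, (X (Sum.inr i) +
      ∑ b : Fin n, C (X (Sum.inr (Sum.inl (tl j, i, b)))) * X (Sum.inl b.succ)) *
        fm fun δ : Ex (Fin (n + 1) ⊕ Fin c) (d j - 1) =>
          (X (Sum.inr (Sum.inr ⟨j, i, δ⟩)) : MvPolynomial (PR τ ιL n c d) B))

end defs

end Pool.Agent.H78R
end

-- from Lib.H53R.FD
section

set_option autoImplicit false

/-!
H53R, Part F (assembly): definitions.  See PROOF.md.  `τ` = the factors of the product, `σ` = the small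
blocks, `ιL` = the large forms (`tl j` = the factor of `j`), `κ` = the small forms (`sx x` = the block
of `x`), blocks `τ ⊕ σ`.
-/

open MvPolynomial Real MeasureTheory

namespace Pool.Agent.H53R

open Pool.Agent.H89T Pool.Agent.H78G Pool.Agent.H67T Pool.Agent.H53Y Pool.Agent.H49D

/-- The dimensions of the blocks: `inl t` is the large block of the factor `t`. -/
def mP {τ σ : Type} (N : ℕ) (m : σ → ℕ) : τ ⊕ σ → ℕ
  | Sum.inl _ => N
  | Sum.inr s => m s

/-- The blocks of the forms. -/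
def sbP {ιL κ τ σ : Type} (tl : ιL → τ) (sx : κ → σ) : ιL ⊕ κ → τ ⊕ σ
  | Sum.inl j => Sum.inl (tl j)
  | Sum.inr x => Sum.inr (sx x)

/-- The large blocks are `false`, the small ones `true`. -/
def tyP {τ σ : Type} : τ ⊕ σ → Bool
  | Sum.inl _ => false
  | Sum.inr _ => true

/-- The factors. -/
noncomputable def FP {ιL κ τ σ : Type} {N : ℕ} {m : σ → ℕ} {tl : ιL → τ} {sx : κ → σ}
    (G : ιL → MvPolynomial (Fin (N + 1)) ℂ) (θ : LV (fun x : κ => m (sx x)) → ℂ) :
    (i : ιL ⊕ κ) → MvPolynomial (Fin (mP N m (sbP tl sx i) + 1)) ℂ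
  | Sum.inl j => G j
  | Sum.inr x => linF (fun b => θ ⟨x, b⟩)

/-- The coefficient vectors of the factors of the small block `s`. -/
noncomputable def thP {ιL κ τ σ : Type} {N : ℕ} {m : σ → ℕ} {tl : ιL → τ} {sx : κ → σ}
    (G : ιL → MvPolynomial (Fin (N + 1)) ℂ) (θ : LV (fun x : κ => m (sx x)) → ℂ) (s : σ)
    (y : {i : ιL ⊕ κ // sbP tl sx i = Sum.inr s}) : Fin (m s + 1) → ℂ :=
  fun b => coeff (Finsupp.single (Fin.cast (by rw [y.2]; rfl) b) 1)
    (FP (N := N) (m := m) (tl := tl) (sx := sx) G θ y.1)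

/-- The coefficients of all factors in the charts `0`; `x t` is the base point of the large block `t`. -/
noncomputable def aP {ιL κ τ σ : Type} {n c : ℕ} {m : σ → ℕ} {tl : ιL → τ} {sx : κ → σ} {d : ιL → ℕ}
    (x : τ → Fin (n + c) → ℂ) (g : FV (Fin (n + 1) ⊕ Fin c) d → ℂ)
    (θ : LV (fun y : κ => m (sx y)) → ℂ) :
    Cf (mP (n + c) m) (sbP tl sx) (dgO (κ := κ) d) → ℂ :=
  fun y => cfF (dgO d y.1) 0 (FP (N := n + c) (m := m) (tl := tl) (sx := sx)
    (fun j => mvF (x (tl j)) g j) θ y.1) y.2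

/-- The coordinates of the curve in the blocks; `ts s` is the factor of the small block `s`. -/
noncomputable def wP {n c : ℕ} {τ σ : Type} {m de : σ → ℕ} (ts : σ → τ)
    (xL : τ → Fin (n + c) → ℂ) (sE : τ → Fin c → Fin n → ℂ)
    (A' : τ → Matrix (Fin (n + 1)) (Fin (n + 1)) ℂ)
    (Lb : (s : σ) → Matrix (Fin (m s + 1)) (Fin (NV n (de s) + 1)) ℂ)
    (y : τ → ℂ → Fin (n + 1) → ℂ) : (s : τ ⊕ σ) → ℂ → Fin (mP (n + c) m s + 1) → ℂ
  | Sum.inl t => crv (xL t) (sE t) (fun z => (A' t).mulVec (y t z))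
  | Sum.inr s => fun z => (Lb s).mulVec (ver n (de s) (y (ts s) z))

/-- The degrees of the coordinates. -/
def egP {τ σ : Type} (de : σ → ℕ) : τ ⊕ σ → ℕ
  | Sum.inl _ => 1
  | Sum.inr s => de s

/-- The factor of a block. -/
def srcP {τ σ : Type} (ts : σ → τ) : τ ⊕ σ → τ
  | Sum.inl t => t
  | Sum.inr s => ts s

end Pool.Agent.H53R
end
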