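import Pool.Agent.Lib.H1M.PB.M038

/-! Merged copies (to shorten the build) of Lib.H53Y.F04. -/

-- from Lib.H53Y.F04
section

set_option autoImplicit false

/-!
H53Y, chunk F04 (M, five lemmas): the Veronese map.
-/

open MvPolynomial Real MeasureTheory

namespace Pool.Agent.H53Y

open Pool.Agent.H89T Pool.Agent.H78G Pool.Agent.H67T

variable {n : ℕ}

theorem f04_ver (e : ℕ) (x : Fin (n + 1) → ℂ) (γ : Ex (Fin (n + 1)) e) :
    ver n e x ((vix n e).symm γ) = ∏ i, x i ^ γ.1 i := by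
  rw [ver, Equiv.apply_symm_apply]

theorem f04_single (e : ℕ) (x : Fin (n + 1) → ℂ) (i : Fin (n + 1)) :
    ∏ k, x k ^ (Finsupp.single i e : Fin (n + 1) →₀ ℕ) k = x i ^ e := by
  rw [Finset.prod_eq_single i]
  · rw [Finsupp.single_eq_same]
  · intro k _ hk
    rw [Finsupp.single_eq_of_ne hk, pow_zero]
  · intro h
    exact absurd (Finset.mem_univ _) h

theorem f04_mix (e : ℕ) (x : Fin (n + 1) → ℂ) (i j : Fin (n + 1)) :
    ∏ k, x k ^ (Finsupp.single i e + Finsupp.single j 1 : Fin (n + 1) →₀ ℕ) k =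
      x i ^ e * x j := by
  have h : ∀ k, x k ^ (Finsupp.single i e + Finsupp.single j 1 : Fin (n + 1) →₀ ℕ) k =
      x k ^ (Finsupp.single i e : Fin (n + 1) →₀ ℕ) k *
        x k ^ (Finsupp.single j 1 : Fin (n + 1) →₀ ℕ) k := fun k => by
    rw [Finsupp.add_apply, pow_add]
  rw [Finset.prod_congr rfl fun k _ => h k, Finset.prod_mul_distrib, f04_single, f04_single,
    pow_one]

/-- CHUNK F04a.  Proof.  `eval x F = ∑ over the support` (`MvPolynomial.eval_eq`), all exponents of the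
support belong to `Ex (Fin (n + 1)) e` (`mem_Ex`, homogeneity); or `fm_coeff hF` and the definition
of `fm`; reindex with `vix n e` (`Equiv.sum_comp`). -/
theorem lin_vco {e : ℕ} {F : MvPolynomial (Fin (n + 1)) ℂ} (hF : F.IsHomogeneous e)
    (x : Fin (n + 1) → ℂ) : lin (vco n e F) (ver n e x) = eval x F := by
  have h := congrArg (eval x) (fm_coeff hF)
  rw [← h, fm, map_sum, lin, ← Equiv.sum_comp (vix n e)]
  refine Finset.sum_congr rfl fun l _ => ?_
  rw [map_mul, eval_C, eval_monomial, one_mul, vco, ver,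
    Finsupp.prod_fintype _ _ (fun i => pow_zero _)]

/-- CHUNK F04b.  Proof.  `≤`: every monomial of degree `e` is at most `‖x‖ ^ e` (the sum of the
exponents is `e`: `Finsupp.degree_eq_sum`).  `≥`: the monomial `x_i ^ e` with `‖x_i‖ = ‖x‖`
(`Finite.exists_max`, `pi_norm...`; `Finsupp.single i e ∈ Ex`). -/
theorem norm_ver (e : ℕ) (x : Fin (n + 1) → ℂ) : ‖ver n e x‖ = ‖x‖ ^ e := by
  apply le_antisymm
  · refine (pi_norm_le_iff_of_nonneg (by positivity)).2 fun l => ?_
    rw [ver, norm_prod]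
    calc ∏ i, ‖x i ^ (vix n e l).1 i‖ ≤ ∏ i, ‖x‖ ^ (vix n e l).1 i := by
          refine Finset.prod_le_prod (fun i _ => norm_nonneg _) fun i _ => ?_
          rw [norm_pow]
          exact pow_le_pow_left₀ (norm_nonneg _) (norm_le_pi_norm x i) _
      _ = ‖x‖ ^ e := by
          rw [Finset.prod_pow_eq_pow_sum, ← Finsupp.degree_eq_sum, mem_Ex.1 (vix n e l).2]
  · obtain ⟨i, hi⟩ := Finite.exists_max fun i => ‖x i‖
    have h1 : ‖x‖ = ‖x i‖ :=
      le_antisymm ((pi_norm_le_iff_of_nonneg (norm_nonneg _)).2 hi) (norm_le_pi_norm x i)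
    have h2 := f04_ver e x ⟨Finsupp.single i e, by rw [mem_Ex, Finsupp.degree_single]⟩
    rw [f04_single] at h2
    calc ‖x‖ ^ e = ‖ver n e x ((vix n e).symm
          ⟨Finsupp.single i e, by rw [mem_Ex, Finsupp.degree_single]⟩)‖ := by
          rw [h2, norm_pow, h1]
      _ ≤ _ := norm_le_pi_norm (ver n e x) _

/-- CHUNK F04c. -/
theorem isHol_ver {y : ℂ → Fin (n + 1) → ℂ} (hy : IsHol y) (e : ℕ) :
    IsHol fun z => ver n e (y z) := by
  refine ⟨fun l => ?_, fun z h => ?_⟩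
  · unfold ver
    exact Differentiable.fun_finsetProd fun i _ => (hy.diff i).pow _
  · have h1 := norm_ver e (y z)
    rw [h, norm_zero] at h1
    exact pow_ne_zero e (norm_ne_zero_iff.2 (hy.ne_zero z)) h1.symm

/-- CHUNK F04d.  Proof.  Let `z`, `w` be as in `hnc` and suppose `ver (y w) = c • ver (y z)`.  Choose `i`
with `y z i ≠ 0` (`hy.ne_zero`); `c ≠ 0` because `ver (y w) ≠ 0` (`norm_ver`).  From
the monomials `x_i ^ e`, `x_i ^ (e - 1) x_j`: `y w i ^ e = c y z i ^ e ≠ 0` and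
`y w i ^ (e - 1) y w j = c y z i ^ (e - 1) y z j`, so `y w j / y w i = y z j / y z i` for all `j`, and
`y w = (y w i / y z i) • y z`, contradiction. -/
theorem ver_nonconst {e : ℕ} (he : 1 ≤ e) {y : ℂ → Fin (n + 1) → ℂ} (hy : IsHol y)
    (hnc : ∃ z w, ∀ c : ℂ, y w ≠ c • y z) :
    ∃ z w, ∀ c : ℂ, ver n e (y w) ≠ c • ver n e (y z) := by
  obtain ⟨z, w, hzw⟩ := hnc
  refine ⟨z, w, fun c hc => ?_⟩
  have hver : ∀ γ : Ex (Fin (n + 1)) e, ∏ i, y w i ^ γ.1 i = c * ∏ i, y z i ^ γ.1 i := fun γ => by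
    have h := congrFun hc ((vix n e).symm γ)
    rwa [Pi.smul_apply, f04_ver, f04_ver, smul_eq_mul] at h
  have hmix : ∀ i j, y w i ^ (e - 1) * y w j = c * (y z i ^ (e - 1) * y z j) := fun i j => by
    have h := hver ⟨Finsupp.single i (e - 1) + Finsupp.single j 1, by
      rw [mem_Ex, map_add, Finsupp.degree_single, Finsupp.degree_single]
      omega⟩
    rwa [f04_mix, f04_mix] at h
  obtain ⟨i, hi⟩ : ∃ i, y w i ≠ 0 := Function.ne_iff.1 (hy.ne_zero w)
  have h1 := hmix i i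
  have h2 : c * (y z i ^ (e - 1) * y z i) ≠ 0 := by
    rw [← h1]
    exact mul_ne_zero (pow_ne_zero _ hi) hi
  have hzi : y z i ≠ 0 := right_ne_zero_of_mul (right_ne_zero_of_mul h2)
  refine hzw (y w i / y z i) (funext fun j => ?_)
  rw [Pi.smul_apply, smul_eq_mul]
  have h3 := hmix i j
  have h5 : y w i ^ (e - 1) * (y w j * y z i) = y w i ^ (e - 1) * (y w i * y z j) := by
    linear_combination y z i * h3 - y z j * h1
  have h6 := mul_left_cancel₀ (pow_ne_zero _ hi) h5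
  rw [div_mul_eq_mul_div, eq_div_iff hzi]
  exact h6


end Pool.Agent.H53Y
end
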