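import Pool.Agent.Lib.H1M.PB.M038

/-! Merged copies (to shorten the build) of Lib.H53Y.F06, Lib.H53Y.F10. -/

-- from Lib.H53Y.F06
section

set_option autoImplicit false

/-!
H53Y, chunk F06 (M, five lemmas): the curve in the large block.
-/

open MvPolynomial Real MeasureTheory

namespace Pool.Agent.H53Y

open Pool.Agent.H89T Pool.Agent.H78G Pool.Agent.H67T

variable {n c : ℕ}

theorem f06_eqc_inl_zero : eqc n c (Sum.inl 0) = 0 := by
  apply Fin.ext
  simp [eqc]

theorem f06_symm_zero : (eqc n c).symm 0 = Sum.inl 0 := by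
  rw [Equiv.symm_apply_eq, f06_eqc_inl_zero]

/-- The embedding of the coordinates: `v ↦ (v, - s v')`. -/
def f06_Y (s : Fin c → Fin n → ℂ) (v : Fin (n + 1) → ℂ) (i : Fin (n + c + 1)) : ℂ :=
  Sum.elim v (fun j => - ∑ b, s j b * v (Fin.succ b)) ((eqc n c).symm i)

theorem f06_Y_zero (s : Fin c → Fin n → ℂ) (v : Fin (n + 1) → ℂ) : f06_Y s v 0 = v 0 := by
  rw [f06_Y, f06_symm_zero, Sum.elim_inl]

theorem f06_crv (x : Fin (n + c) → ℂ) (s : Fin c → Fin n → ℂ) (y : ℂ → Fin (n + 1) → ℂ) (z : ℂ) :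
    crv x s y z = Fin.cons (f06_Y s (y z) 0)
      fun b => f06_Y s (y z) b.succ + x b * f06_Y s (y z) 0 := rfl

/-- CHUNK F06a. -/
theorem crv_zero (x : Fin (n + c) → ℂ) (s : Fin c → Fin n → ℂ) (y : ℂ → Fin (n + 1) → ℂ) (z : ℂ) :
    crv x s y z 0 = y z 0 := by
  rw [f06_crv, Fin.cons_zero, f06_Y_zero]

/-- CHUNK F06b. -/
theorem crv_base (x : Fin (n + c) → ℂ) (s : Fin c → Fin n → ℂ) {y : ℂ → Fin (n + 1) → ℂ} {z : ℂ}
    (hz : y z = Pi.single 0 1) : crv x s y z = Fin.cons 1 x := by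
  rw [f06_crv, f06_Y_zero, hz]
  have h0 : ∀ b : Fin (n + c), f06_Y s (Pi.single (0 : Fin (n + 1)) (1 : ℂ)) b.succ = 0 := by
    intro b
    rw [f06_Y]
    rcases h : (eqc n c).symm b.succ with a | j
    · rw [Sum.elim_inl, Pi.single_eq_of_ne]
      rintro rfl
      rw [Equiv.symm_apply_eq, f06_eqc_inl_zero] at h
      exact Fin.succ_ne_zero b h
    · rw [Sum.elim_inr]
      rw [Finset.sum_eq_zero, neg_zero]
      intro b' _
      rw [Pi.single_eq_of_ne (Fin.succ_ne_zero b'), mul_zero]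
  funext i
  refine Fin.cases ?_ (fun b => ?_) i
  · rw [Fin.cons_zero, Fin.cons_zero, Pi.single_eq_same]
  · rw [Fin.cons_succ, Fin.cons_succ, h0, Pi.single_eq_same]
    ring

/-- The linear map `v ↦ crv`. -/
def f06_lin (x : Fin (n + c) → ℂ) (s : Fin c → Fin n → ℂ) :
    (Fin (n + 1) → ℂ) →ₗ[ℂ] (Fin (n + c + 1) → ℂ) where
  toFun v := Fin.cons (f06_Y s v 0) fun b => f06_Y s v b.succ + x b * f06_Y s v 0
  map_add' v w := by
    have h : ∀ i, f06_Y s (v + w) i = f06_Y s v i + f06_Y s w i := by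
      intro i
      rw [f06_Y, f06_Y, f06_Y]
      rcases (eqc n c).symm i with a | j
      · rfl
      · simp only [Sum.elim_inr, Pi.add_apply, mul_add, Finset.sum_add_distrib, neg_add]
    funext i
    rw [Pi.add_apply]
    refine Fin.cases ?_ (fun b => ?_) i
    · simp only [Fin.cons_zero, h]
    · simp only [Fin.cons_succ, h]
      ring
  map_smul' t v := by
    have h : ∀ i, f06_Y s (t • v) i = t * f06_Y s v i := by
      intro i
      rw [f06_Y, f06_Y]
      rcases (eqc n c).symm i with a | j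
      · rfl
      · simp only [Sum.elim_inr, Pi.smul_apply, smul_eq_mul]
        rw [mul_neg, Finset.mul_sum]
        congr 1
        refine Finset.sum_congr rfl fun b _ => ?_
        ring
    funext i
    rw [Pi.smul_apply, RingHom.id_apply]
    refine Fin.cases ?_ (fun b => ?_) i
    · simp only [Fin.cons_zero, h, smul_eq_mul]
    · simp only [Fin.cons_succ, h, smul_eq_mul]
      ring

/-- The inverse of the shift by `x`. -/
def f06_un (x : Fin (n + c) → ℂ) (u : Fin (n + c + 1) → ℂ) : Fin (n + c + 1) → ℂ :=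
  Fin.cons (u 0) fun b => u b.succ - x b * u 0

theorem f06_un_add (x : Fin (n + c) → ℂ) (v w : Fin (n + c + 1) → ℂ) :
    f06_un x (v + w) = f06_un x v + f06_un x w := by
  funext i
  rw [Pi.add_apply]
  refine Fin.cases ?_ (fun b => ?_) i
  · rfl
  · simp only [f06_un, Fin.cons_succ, Pi.add_apply]
    ring

theorem f06_un_smul (x : Fin (n + c) → ℂ) (t : ℂ) (v : Fin (n + c + 1) → ℂ) :
    f06_un x (t • v) = t • f06_un x v := by
  funext i
  rw [Pi.smul_apply]
  refine Fin.cases ?_ (fun b => ?_) i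
  · rfl
  · simp only [f06_un, Fin.cons_succ, Pi.smul_apply, smul_eq_mul]
    ring

/-- Its left inverse. -/
def f06_inv (x : Fin (n + c) → ℂ) :
    (Fin (n + c + 1) → ℂ) →ₗ[ℂ] (Fin (n + 1) → ℂ) where
  toFun u := fun a => f06_un x u (eqc n c (Sum.inl a))
  map_add' v w := by
    funext a
    rw [f06_un_add]
    rfl
  map_smul' t v := by
    funext a
    rw [f06_un_smul]
    rfl

theorem f06_inv_lin (x : Fin (n + c) → ℂ) (s : Fin c → Fin n → ℂ) (v : Fin (n + 1) → ℂ) :
    f06_inv x (f06_lin x s v) = v := by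
  have h1 : f06_un x (f06_lin x s v) = f06_Y s v := by
    funext i
    refine Fin.cases ?_ (fun b => ?_) i
    · rfl
    · rw [f06_un, Fin.cons_succ]
      change f06_Y s v b.succ + x b * f06_Y s v 0 - x b * f06_Y s v 0 = _
      ring
  funext a
  change f06_un x (f06_lin x s v) (eqc n c (Sum.inl a)) = v a
  rw [h1, f06_Y, Equiv.symm_apply_apply, Sum.elim_inl]

/-- CHUNK F06c.  The curve is a linear injective image of `y`: there is a matrix with a left inverse. -/
theorem crv_linear (x : Fin (n + c) → ℂ) (s : Fin c → Fin n → ℂ) :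
    ∃ (L : Matrix (Fin (n + c + 1)) (Fin (n + 1)) ℂ) (L' : Matrix (Fin (n + 1)) (Fin (n + c + 1)) ℂ),
      L' * L = 1 ∧ ∀ (y : ℂ → Fin (n + 1) → ℂ) (z : ℂ), crv x s y z = L.mulVec (y z) := by
  refine ⟨LinearMap.toMatrix' (f06_lin x s), LinearMap.toMatrix' (f06_inv x), ?_, fun y z => ?_⟩
  · rw [← LinearMap.toMatrix'_comp]
    have h : (f06_inv x).comp (f06_lin x s) = LinearMap.id (R := ℂ) :=
      LinearMap.ext fun v => f06_inv_lin x s v
    rw [h, LinearMap.toMatrix'_id]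
  · rw [LinearMap.toMatrix'_mulVec]
    rfl

theorem f06_bound {N M : ℕ} (L : Matrix (Fin (M + 1)) (Fin (N + 1)) ℂ) :
    ∃ A : ℝ, 0 ≤ A ∧ ∀ v : Fin (N + 1) → ℂ, ‖L.mulVec v‖ ≤ A * ‖v‖ :=
  ⟨‖LinearMap.toContinuousLinearMap (Matrix.toLin' L)‖, norm_nonneg _, fun v =>
    (LinearMap.toContinuousLinearMap (Matrix.toLin' L)).le_opNorm v⟩

/-- CHUNK F06d.  Linear injective images.  (Norms: `‖L v‖ ≤ A ‖v‖`, `‖v‖ = ‖L' L v‖ ≤ A' ‖L v‖`.  If the
derivative of `L y` is `t • L y` at `z` then, applying `L'`, that of `y` is `t • y`.) -/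
theorem linear_image {N M : ℕ} {L : Matrix (Fin (M + 1)) (Fin (N + 1)) ℂ}
    {L' : Matrix (Fin (N + 1)) (Fin (M + 1)) ℂ} (hL : L' * L = 1) {y : ℂ → Fin (N + 1) → ℂ}
    (hy : IsHol y) :
    IsHol (fun z => L.mulVec (y z)) ∧ (∃ A : ℝ, ∀ z, ‖L.mulVec (y z)‖ ≤ A * ‖y z‖) ∧
      (∃ δ : ℝ, 0 < δ ∧ ∀ z, δ * ‖y z‖ ≤ ‖L.mulVec (y z)‖) ∧
      ∀ z, NonStat y z → NonStat (fun z => L.mulVec (y z)) z := by
  have hinv : ∀ v : Fin (N + 1) → ℂ, L'.mulVec (L.mulVec v) = v := by
    intro v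
    rw [Matrix.mulVec_mulVec, hL, Matrix.one_mulVec]
  refine ⟨⟨fun j => ?_, fun z h => ?_⟩, ?_, ?_, fun z hz => ?_⟩
  · have : (fun z => L.mulVec (y z) j) = fun z => ∑ i, L j i * y z i := rfl
    rw [this]
    exact Differentiable.fun_sum fun i _ => (hy.diff i).const_mul _
  · apply hy.ne_zero z
    rw [← hinv (y z), h, Matrix.mulVec_zero]
  · obtain ⟨A, -, hA⟩ := f06_bound L
    exact ⟨A, fun z => hA (y z)⟩
  · obtain ⟨A, hA0, hA⟩ := f06_bound L'
    have hA1 : 0 < A + 1 := by linarith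
    refine ⟨(A + 1)⁻¹, inv_pos.2 hA1, fun z => ?_⟩
    rw [inv_mul_le_iff₀ hA1]
    calc ‖y z‖ = ‖L'.mulVec (L.mulVec (y z))‖ := by rw [hinv]
      _ ≤ A * ‖L.mulVec (y z)‖ := hA _
      _ ≤ (A + 1) * ‖L.mulVec (y z)‖ := by
          have := norm_nonneg (L.mulVec (y z))
          nlinarith
  · rintro ⟨t, ht⟩
    apply hz
    refine ⟨t, ?_⟩
    have h1 : (fun i => deriv (fun w => L.mulVec (y w) i) z) =
        L.mulVec (fun i => deriv (fun w => y w i) z) := by
      funext i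
      have : (fun w => L.mulVec (y w) i) = fun w => ∑ j, L i j * y w j := rfl
      rw [this, deriv_fun_sum fun j _ => ((hy.diff j).const_mul (L i j)).differentiableAt]
      change _ = ∑ j, L i j * deriv (fun w => y w j) z
      refine Finset.sum_congr rfl fun j _ => ?_
      rw [deriv_const_mul _ (hy.diff j).differentiableAt]
    rw [h1] at ht
    rw [← hinv (fun i => deriv (fun w => y w i) z), ht, Matrix.mulVec_smul, hinv]

theorem f06_eval_subM (A : Matrix (Fin (n + 1)) (Fin (n + 1)) ℂ)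
    (F : MvPolynomial (Fin (n + 1)) ℂ) (v : Fin (n + 1) → ℂ) :
    eval v (subM A F) = eval (A.mulVec v) F := by
  rw [subM, ← MvPolynomial.coe_aeval_eq_eval, ← MvPolynomial.coe_aeval_eq_eval]
  change (aeval v) ((aeval _) F) = aeval _ F
  rw [← AlgHom.comp_apply, comp_aeval]
  congr 2
  funext i
  simp only [map_sum, map_mul, aeval_X, algHom_C, Matrix.mulVec, dotProduct]
  rfl

theorem f06_homog_subM (A : Matrix (Fin (n + 1)) (Fin (n + 1)) ℂ)
    {F : MvPolynomial (Fin (n + 1)) ℂ} {k : ℕ} (hF : F.IsHomogeneous k) :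
    (subM A F).IsHomogeneous k := by
  have h := hF.aeval (fun i => ∑ j, C (A i j) * X j : Fin (n + 1) → MvPolynomial (Fin (n + 1)) ℂ)
    (n := 1) (fun i => IsHomogeneous.sum _ _ _ fun j _ => by
      simpa using (isHomogeneous_C (Fin (n + 1)) (A i j)).mul (isHomogeneous_X ℂ j))
  rwa [one_mul] at h

theorem f06_homog_psi {k : ℕ} (hk : 1 ≤ k) (s : Fin c → Fin n → ℂ)
    {E : Fin c → MvPolynomial (Fin (n + 1) ⊕ Fin c) ℂ} (hE : ∀ i, (E i).IsHomogeneous (k - 1)) :
    (psi s E).IsHomogeneous k := by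
  rw [psi]
  refine IsHomogeneous.sum _ _ _ fun i _ => ?_
  have h1 : (X (Sum.inr i) + ∑ b, C (s i b) * X (Sum.inl b.succ) :
      MvPolynomial (Fin (n + 1) ⊕ Fin c) ℂ).IsHomogeneous 1 :=
    (isHomogeneous_X _ _).add (IsHomogeneous.sum _ _ _ fun b _ => by
      simpa using (isHomogeneous_C (Fin (n + 1) ⊕ Fin c) (s i b)).mul
        (isHomogeneous_X ℂ (Sum.inl b.succ)))
  have h2 := h1.mul (hE i)
  have h3 : 1 + (k - 1) = k := by omega
  rw [h3] at h2
  exact h2

theorem f06_eval_psi (s : Fin c → Fin n → ℂ)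
    (E : Fin c → MvPolynomial (Fin (n + 1) ⊕ Fin c) ℂ) (v : Fin (n + 1) → ℂ) :
    eval (Sum.elim v (fun j => - ∑ b, s j b * v (Fin.succ b))) (psi s E) = 0 := by
  rw [psi, map_sum]
  refine Finset.sum_eq_zero fun i _ => ?_
  rw [map_mul, map_add, map_sum, eval_X, Sum.elim_inr]
  simp only [map_mul, eval_C, eval_X, Sum.elim_inl]
  ring

theorem f06_homog_big {k : ℕ} (hk : 1 ≤ k) (s : Fin c → Fin n → ℂ)
    {E : Fin c → MvPolynomial (Fin (n + 1) ⊕ Fin c) ℂ} (hE : ∀ i, (E i).IsHomogeneous (k - 1))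
    (t : ℂ) {F : MvPolynomial (Fin (n + 1)) ℂ} (hF : F.IsHomogeneous k) :
    (big ℂ t (psi s E) F).IsHomogeneous k := by
  rw [big]
  have h2 : (psi s E).IsHomogeneous k := f06_homog_psi hk s hE
  have h3 : (rename Sum.inl F + map (algebraMap ℂ ℂ) (psi s E) :
      MvPolynomial (Fin (n + 1) ⊕ Fin c) ℂ).IsHomogeneous k :=
    IsHomogeneous.add hF.rename_isHomogeneous (h2.map _)
  have h4 := (isHomogeneous_C (Fin (n + 1) ⊕ Fin c) (algebraMap ℂ ℂ t)).mul h3
  rw [zero_add] at h4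
  exact h4

theorem f06_ext {ιL : Type} {d : ιL → ℕ} (hd : ∀ j, 1 ≤ d j)
    (s : Fin c → Fin n → ℂ) (f : FV (Fin (n + 1)) d → ℂ)
    (A : Matrix (Fin (n + 1)) (Fin (n + 1)) ℂ) (lam : ιL → ℂ)
    (E : ιL → Fin c → MvPolynomial (Fin (n + 1) ⊕ Fin c) ℂ)
    (hE : ∀ j i, (E j i).IsHomogeneous (d j - 1)) (j : ιL) :
    fmj (extC f A lam s E) j = big ℂ (lam j) (psi s (E j)) (subM A (fmj f j)) := by
  have h0 : (fmj f j).IsHomogeneous (d j) := by
    rw [fmj]
    exact fm_homogeneous _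
  have h1 : (subM A (fmj f j)).IsHomogeneous (d j) := f06_homog_subM A h0
  have hbig := f06_homog_big (hd j) s (hE j) (lam j) h1
  have h2 : (fun δ : Ex (Fin (n + 1) ⊕ Fin c) (d j) => extC f A lam s E ⟨j, δ⟩) =
      fun δ : Ex (Fin (n + 1) ⊕ Fin c) (d j) =>
        coeff δ.1 (big ℂ (lam j) (psi s (E j)) (subM A (fmj f j))) := by
    funext δ
    unfold extC
    rfl
  generalize big ℂ (lam j) (psi s (E j)) (subM A (fmj f j)) = B at hbig h2 ⊢
  rw [← fm_coeff hbig, ← h2]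
  unfold fmj
  rfl

theorem f06_eval_big (s : Fin c → Fin n → ℂ)
    (E : Fin c → MvPolynomial (Fin (n + 1) ⊕ Fin c) ℂ) (t : ℂ)
    (F : MvPolynomial (Fin (n + 1)) ℂ) (v : Fin (n + 1) → ℂ) :
    eval (Sum.elim v (fun j => - ∑ b, s j b * v (Fin.succ b))) (big ℂ t (psi s E) F) =
      t * eval v F := by
  have h4 : map (algebraMap ℂ ℂ) (psi s E) = psi s E := by
    rw [Algebra.algebraMap_self, map_id]
  rw [big, map_mul, map_add, eval_rename, h4, f06_eval_psi, add_zero, eval_C]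
  rfl

theorem f06_pt (x : Fin (n + c) → ℂ) (s : Fin c → Fin n → ℂ) (y : ℂ → Fin (n + 1) → ℂ) (z : ℂ) :
    (Fin.cons (crv x s y z 0) (fun b => crv x s y z b.succ + - x b * crv x s y z 0) :
      Fin (n + c + 1) → ℂ) = f06_Y s (y z) := by
  rw [f06_crv]
  funext i
  refine Fin.cases ?_ (fun b => ?_) i
  · rw [Fin.cons_zero, Fin.cons_zero]
  · rw [Fin.cons_succ, Fin.cons_succ, Fin.cons_zero]
    ring

/-- CHUNK F06e.  The value of the extended forms.  Proof.  `eval_shear`, `eval_rename`: with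
`Y i = Sum.elim (y z) (fun j => - ∑ b, s j b * y z b.succ) ((eqc n c).symm i)` the point at which
`rename (eqc n c) (fmj (extC f A lam s E) j)` is evaluated is `Y` (`crv x s y z = (Y 0, Y b.succ + x b Y 0)`,
the shear by `- x` undoes it).  `fmj (extC ..) j = big ℂ (lam j) (psi s (E j)) (subM A (fmj f j))`
because the latter is homogeneous of degree `d j` (`fm_coeff`; `fm_homogeneous`, `subM` of a form is
a form of the same degree, `psi` is homogeneous of degree `1 + (d j - 1)`).  At `Sum.elim v (- s v')` the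
polynomial `psi s (E j)` vanishes, so the value is `lam j * eval (y z) (subM A (fmj f j))`, and
`eval v (subM A F) = eval (A.mulVec v) F`. -/
theorem eval_crv {ιL : Type} {d : ιL → ℕ} (hd : ∀ j, 1 ≤ d j) (x : Fin (n + c) → ℂ)
    (s : Fin c → Fin n → ℂ) (f : FV (Fin (n + 1)) d → ℂ)
    (A : Matrix (Fin (n + 1)) (Fin (n + 1)) ℂ) (lam : ιL → ℂ)
    (E : ιL → Fin c → MvPolynomial (Fin (n + 1) ⊕ Fin c) ℂ)
    (hE : ∀ j i, (E j i).IsHomogeneous (d j - 1)) (y : ℂ → Fin (n + 1) → ℂ) (z : ℂ) (j : ιL) :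
    eval (crv x s y z) (mvF x (extC f A lam s E) j) =
      lam j * eval (A.mulVec (y z)) (fmj f j) := by
  have hY : f06_Y s (y z) ∘ eqc n c =
      Sum.elim (y z) (fun j => - ∑ b, s j b * y z (Fin.succ b)) := by
    funext i
    rw [Function.comp_apply, f06_Y, Equiv.symm_apply_apply]
  rw [mvF, eval_shear, f06_pt, eval_rename, hY, f06_ext hd s f A lam E hE j, f06_eval_big,
    f06_eval_subM]

end Pool.Agent.H53Y
end

-- from Lib.H53Y.F10
section

set_option autoImplicit false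

/-!
H53Y, chunk F10 (M, five lemmas): the coefficients of the factors are linear in `(g, θ)`.
-/

open MvPolynomial Real MeasureTheory

namespace Pool.Agent.H53Y

open Pool.Agent.H89T Pool.Agent.H78G Pool.Agent.H67T

variable {ιL κ σ : Type} {n c : ℕ} {m : σ → ℕ} {sx : κ → σ} {d : ιL → ℕ}

/-- CHUNK F10a.  The coefficients of `mvF x g j` are polynomials in `g`.  Proof.  `fmj g j` is the sum of
the `C (g ⟨j, δ⟩) * monomial δ 1` (definition of `fm`), and `rename`, `shear` and `coeff γ` are linear, so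
`coeff γ (mvF x g j) = ∑ δ, g ⟨j, δ⟩ * coeff γ (shear _ (rename _ (monomial δ 1)))`. -/
theorem mvF_poly (x : Fin (n + c) → ℂ) (j : ιL) (γ : Fin (n + c + 1) →₀ ℕ) :
    ∃ A : MvPolynomial (FV (Fin (n + 1) ⊕ Fin c) d) ℂ, ∀ g, eval g A = coeff γ (mvF x g j) := by
  refine ⟨∑ δ : Ex (Fin (n + 1) ⊕ Fin c) (d j), X ⟨j, δ⟩ *
    C (coeff γ (shear (fun b => - x b) (rename (eqc n c) (monomial δ.1 1)))), fun g => ?_⟩
  rw [map_sum, mvF, fmj, fm, map_sum, shear, map_sum, coeff_sum]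
  refine Finset.sum_congr rfl fun δ _ => ?_
  rw [map_mul, map_mul, map_mul, eval_X, eval_C, rename_C, ← MvPolynomial.algebraMap_eq, AlgHom.commutes,
    MvPolynomial.algebraMap_eq, coeff_C_mul]
  rfl


/-- CHUNK F10c. -/
theorem mvF_homogeneous (x : Fin (n + c) → ℂ) (g : FV (Fin (n + 1) ⊕ Fin c) d → ℂ) (j : ιL) :
    (mvF x g j).IsHomogeneous (d j) := by
  exact shear_homogeneous _ ((fm_homogeneous _).rename_isHomogeneous)


theorem f10_lin {M : ℕ} {H : MvPolynomial (Fin (M + 1)) ℂ} (hH : H.IsHomogeneous 1) :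
    linF (fun b => coeff (Finsupp.single b 1) H) = H := by
  classical
  ext m
  rw [linF, coeff_sum]
  simp only [coeff_C_mul, coeff_X]
  by_cases hm : m.degree = 1
  · obtain ⟨b, rfl⟩ : ∃ b, m = Finsupp.single b 1 := by
      rw [Finsupp.degree_eq_sum] at hm
      obtain ⟨b, hb⟩ : ∃ b, m b ≠ 0 := by
        by_contra h
        push Not at h
        rw [Finset.sum_eq_zero fun b _ => h b] at hm
        exact absurd hm (by norm_num)
      refine ⟨b, ?_⟩
      have h1 := Finset.add_sum_erase Finset.univ (fun i => m i) (Finset.mem_univ b)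
      have h2 : m b = 1 ∧ ∑ i ∈ Finset.univ.erase b, m i = 0 := by
        have : (fun i => m i) b = m b := rfl
        omega
      ext i
      rw [Finsupp.single_apply]
      split_ifs with hi
      · rw [← hi, h2.1]
      · exact Finset.sum_eq_zero_iff.1 h2.2 i (Finset.mem_erase.2 ⟨fun h => hi h.symm, Finset.mem_univ _⟩)
    rw [Finset.sum_eq_single b, if_pos rfl, mul_one]
    · intro i _ hi
      rw [if_neg, mul_zero]
      intro h
      exact hi (Finsupp.single_left_injective one_ne_zero h)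
    · intro h
      exact absurd (Finset.mem_univ _) h
  · rw [hH.coeff_eq_zero hm]
    refine Finset.sum_eq_zero fun b _ => ?_
    rw [if_neg, mul_zero]
    rintro rfl
    exact hm (Finsupp.degree_single _ _)


end Pool.Agent.H53Y
end
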