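import Pool.Agent.Lib.H1M.PB.M038

/-! Merged copies (to shorten the build) of Lib.H53Y.F08. -/

-- from Lib.H53Y.F08
section

set_option autoImplicit false

/-!
H53Y, chunk F08 (M): at most `n` of the generic forms vanish at a point of `ℙⁿ`.
-/

open MvPolynomial Real MeasureTheory

namespace Pool.Agent.H53Y

open Pool.Agent.H89T Pool.Agent.H78G Pool.Agent.H67T

/-- Chain rule for the value at a point. -/
theorem f08_eval {A κ : Type} [CommRing A] [Algebra ℂ A] [Fintype κ] (D : Derivation ℂ A A) (x : κ → A)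
    (F : MvPolynomial κ A) :
    D (eval x F) = eval x (mcf D F) + ∑ j, eval x (pderiv j F) * D (x j) := by
  classical
  induction F using MvPolynomial.induction_on with
  | C a => simp
  | add p q hp hq =>
    simp only [map_add, hp, hq, add_mul, Finset.sum_add_distrib]
    ring
  | mul_X p i hp =>
    rw [map_mul, eval_X, Derivation.leibniz, Derivation.leibniz, hp, mcf_X, smul_zero, zero_add]
    simp only [Derivation.leibniz, pderiv_X, smul_eq_mul, map_add, map_mul, eval_X, add_mul,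
      Finset.sum_add_distrib]
    have h1 : ∑ j, eval x p * eval x ((Pi.single j 1 : κ → MvPolynomial κ A) i) * D (x j) =
        eval x p * D (x i) := by
      rw [Finset.sum_eq_single i]
      · simp
      · intro j _ hj
        rw [Pi.single_eq_of_ne (Ne.symm hj)]
        simp
      · intro h
        exact absurd (Finset.mem_univ i) h
    rw [h1, mul_add, Finset.mul_sum]
    have h2 : ∀ j, x i * eval x (pderiv j p) * D (x j) =
        x i * (eval x (pderiv j p) * D (x j)) := fun j => by ring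
    simp only [h2]
    ring

/-- The relation between `t` and the derivatives. -/
theorem f08_key {K : Type} [Field K] [Algebra ℂ K] {n : ℕ} (q : Fin (n + 1) → K) (k : Fin (n + 1))
    (hk : q k = 1) (F : MvPolynomial (Fin (n + 1)) K) (D : Derivation ℂ K K) (hF0 : eval q F = 0)
    (t : K) (h2 : eval q (mcf D F) = t) :
    t = ∑ b, (- eval q (pderiv (k.succAbove b) F)) * D (q (k.succAbove b)) := by
  have h1 := f08_eval D q F
  rw [hF0, map_zero, Fin.sum_univ_succAbove _ k, hk, Derivation.map_one_eq_zero, mul_zero,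
    zero_add, h2] at h1
  simp only [neg_mul, Finset.sum_neg_distrib]
  linear_combination -h1

theorem f08_dim {K : Type} [Field K] {n : ℕ} (m : Fin (n + 1) → Fin n → K)
    (key : ∀ t : Fin (n + 1) → K, ∃ u : Fin n → K, ∀ a, t a = ∑ b, m a b * u b) : False := by
  have hsurj : Function.Surjective (Matrix.of m).mulVecLin := by
    intro t
    obtain ⟨u, hu⟩ := key t
    exact ⟨u, funext fun a => (hu a).symm⟩
  have h1 := LinearMap.finrank_le_finrank_of_surjective hsurj
  rw [Module.finrank_fin_fun, Module.finrank_fin_fun] at h1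
  omega

theorem f08_mon {K : Type} [Field K] {n : ℕ} (q : Fin (n + 1) → K) (k : Fin (n + 1)) (hk : q k = 1)
    (e : ℕ) : eval q (monomial (Finsupp.single k e) (1 : K)) = 1 := by
  rw [eval_monomial, one_mul, Finsupp.prod_single_index (h := fun a b => q a ^ b) (pow_zero _), hk,
    one_pow]

/-- CHUNK F08a.  For `n + 1` forms and the chart `k`.

Proof (model: `H89T.alg2`, file H89T/DP8).  Let `A₁ = MvPolynomial (FV (Fin (n + 1)) d ⊕ Fin n) ℂ`,
`q = k.insertNth 1 (fun b => X (inr b)) : Fin (n + 1) → A₁`, `v a = eval q (fm (fun δ => X (inl ⟨a, δ⟩)))`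
the value of the `a`-th generic form at `q`, `I` the ideal generated by the `v a`, `a : Fin (n + 1)`.
If `rename inl Ξ ∈ I` for some `Ξ ≠ 0` then `Ξ` has the property: evaluate at `(f, x b / x k)`
(homogeneity: `eval x F = 0` implies that the value at `x / x k` is `0`).  Otherwise there is a prime
`P ⊇ I` disjoint from the multiplicative set `{rename inl Ξ | Ξ ≠ 0}` (`Ideal.exists_le_prime_disjoint`);
`K = Frac (A₁ / P)`, `pr : A₁ → K`; `pr ∘ rename inl` is injective and by `H89T.ext_field` for every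
`t : Fin (n + 1) → K` there is a derivation `D` of `K` with `D (pr (X (inl ⟨a, δ⟩))) = t a` if `δ` is the
exponent of `x_k ^ (d a)` and `0` for the other `δ`.  Apply `D` to `0 = pr (v a)`: with
`F_a = fm (pr coefficients)`, `q' = pr q`: `0 = (mcf D F_a) (q') + ∑ b, (∂_b F_a) (q') D (q'_b)`
(`mcf_aeval` or `derivation_aeval` of H89T/DP6), that is `t a = - ∑ b : Fin n, (∂_(k.succAbove b) F_a) (q')
D (pr (X (inr b)))` (`D 1 = 0`).  So every `t ∈ K ^ (n + 1)` lies in the span of `n` vectors: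
contradiction (`finrank`). -/
theorem no_common_zero {n : ℕ} (d : Fin (n + 1) → ℕ) (k : Fin (n + 1)) :
    ∃ Ξ : MvPolynomial (FV (Fin (n + 1)) d) ℂ, Ξ ≠ 0 ∧ ∀ f, eval f Ξ ≠ 0 →
      ∀ x : Fin (n + 1) → ℂ, x k ≠ 0 → ∃ a, eval x (fmj f a) ≠ 0 := by
  classical
  let A₁ := MvPolynomial (FV (Fin (n + 1)) d ⊕ Fin n) ℂ
  set q : Fin (n + 1) → A₁ := k.insertNth 1 (fun b => (X (Sum.inr b) : A₁)) with hq
  set v : Fin (n + 1) → A₁ := fun a =>
    eval q (fm fun δ : Ex (Fin (n + 1)) (d a) => (X (Sum.inl ⟨a, δ⟩) : A₁)) with hv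
  set I : Ideal A₁ := Ideal.span (Set.range v) with hI
  let S : Submonoid A₁ :=
    { carrier := {x | ∃ Ξ : MvPolynomial (FV (Fin (n + 1)) d) ℂ, Ξ ≠ 0 ∧ x = rename Sum.inl Ξ}
      mul_mem' := by
        rintro x y ⟨Θ₁, h1, rfl⟩ ⟨Θ₂, h2, rfl⟩
        exact ⟨Θ₁ * Θ₂, mul_ne_zero h1 h2, (map_mul _ _ _).symm⟩
      one_mem' := ⟨1, one_ne_zero, (map_one _).symm⟩ }
  by_cases hdis : Disjoint (I : Set A₁) S
  · exfalso
    obtain ⟨P, hP, hIP, hPS⟩ := Ideal.exists_le_prime_disjoint I S hdis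
    let K := FractionRing (A₁ ⧸ P)
    have hess : Algebra.EssFiniteType ℂ K := by
      have h2 : Algebra.EssFiniteType (A₁ ⧸ P) K :=
        Algebra.EssFiniteType.of_isLocalization _ (nonZeroDivisors _)
      exact Algebra.EssFiniteType.comp ℂ (A₁ ⧸ P) K
    let pr : A₁ →ₐ[ℂ] K := (IsScalarTower.toAlgHom ℂ (A₁ ⧸ P) K).comp (Ideal.Quotient.mkₐ ℂ P)
    have hpr0 : ∀ x, pr x = 0 ↔ x ∈ P := by
      intro x
      rw [← Ideal.Quotient.eq_zero_iff_mem]
      constructor
      · intro h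
        exact (IsFractionRing.injective (A₁ ⧸ P) K) (by rw [map_zero]; exact h)
      · intro h
        change algebraMap (A₁ ⧸ P) K (Ideal.Quotient.mk P x) = 0
        rw [h, map_zero]
    have hnotP : ∀ x ∈ S, x ∉ P := fun x hx hxP => Set.disjoint_left.1 hPS hxP hx
    have hinj : Function.Injective (pr.comp (rename Sum.inl :
        MvPolynomial (FV (Fin (n + 1)) d) ℂ →ₐ[ℂ] A₁)) := by
      rw [injective_iff_map_eq_zero]
      intro x hx
      by_contra hx0
      exact hnotP (rename Sum.inl x) ⟨x, hx0, rfl⟩ ((hpr0 _).1 hx)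
    obtain ⟨q', hq'⟩ : ∃ q' : Fin (n + 1) → K, q' = fun i => pr (q i) := ⟨_, rfl⟩
    have hq'k : q' k = 1 := by
      rw [hq']
      change pr (q k) = 1
      rw [hq, Fin.insertNth_apply_same, map_one]
    obtain ⟨F, hF⟩ : ∃ F : Fin (n + 1) → MvPolynomial (Fin (n + 1)) K,
        ∀ a, F a = fm fun δ : Ex (Fin (n + 1)) (d a) => pr (X (Sum.inl ⟨a, δ⟩)) := ⟨_, fun _ => rfl⟩
    have hF0 : ∀ a, eval q' (F a) = 0 := by
      intro a
      have h1 : pr (v a) = 0 := (hpr0 _).2 (hIP (Ideal.subset_span ⟨a, rfl⟩))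
      have h2 : pr (v a) = eval q' (F a) := by
        have h3 := hom_eval (pr : A₁ →+* K) q
          (fm fun δ : Ex (Fin (n + 1)) (d a) => (X (Sum.inl ⟨a, δ⟩) : A₁))
        rw [map_fm] at h3
        rw [hF, hq']
        exact h3
      rw [← h2]
      exact h1
    have key : ∀ t : Fin (n + 1) → K, ∃ u : Fin n → K, ∀ a,
        t a = ∑ b, (- eval q' (pderiv (k.succAbove b) (F a))) * u b := by
      intro t
      obtain ⟨D, hD⟩ := ext_field _ hinj
        (fun p : FV (Fin (n + 1)) d => if p.2.1 = Finsupp.single k (d p.1) then t p.1 else 0)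
      refine ⟨fun b => D (q' (k.succAbove b)), fun a => ?_⟩
      have hD' : ∀ δ : Ex (Fin (n + 1)) (d a), D (pr (X (Sum.inl ⟨a, δ⟩))) =
          if δ.1 = Finsupp.single k (d a) then t a else 0 := by
        intro δ
        have h := hD ⟨a, δ⟩
        rw [AlgHom.comp_apply, rename_X] at h
        exact h
      have h2 : eval q' (mcf D (F a)) = t a := by
        rw [hF, mcf_fm, fm, map_sum,
          Finset.sum_eq_single ⟨Finsupp.single k (d a), mem_Ex.2 (Finsupp.degree_single _ _)⟩]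
        · rw [map_mul, eval_C, hD', if_pos rfl]
          exact (congrArg (t a * ·) (f08_mon q' k hq'k (d a))).trans (mul_one _)
        · intro δ _ hδ
          rw [map_mul, eval_C, hD', if_neg (fun h => hδ (Subtype.ext h)), zero_mul]
        · intro h
          exact absurd (Finset.mem_univ _) h
      exact f08_key q' k hq'k (F a) D (hF0 a) (t a) h2
    exact f08_dim (fun a b => - eval q' (pderiv (k.succAbove b) (F a))) key
  · rw [Set.not_disjoint_iff] at hdis
    obtain ⟨x, hxI, Ξ, hΞ, hx⟩ := hdis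
    refine ⟨Ξ, hΞ, fun f hf y hy => ?_⟩
    by_contra hcon
    push Not at hcon
    set φ : A₁ →ₐ[ℂ] ℂ := aeval (Sum.elim f fun b => y (k.succAbove b) / y k) with hφ
    have hφq : (fun i => (φ : A₁ →+* ℂ) (q i)) = (y k)⁻¹ • y := by
      funext i
      refine Fin.succAboveCases k ?_ (fun b => ?_) i
      · change φ (q k) = (y k)⁻¹ * y k
        rw [hq, Fin.insertNth_apply_same, map_one, inv_mul_cancel₀ hy]
      · change φ (q (k.succAbove b)) = (y k)⁻¹ * y (k.succAbove b)
        rw [hq, Fin.insertNth_apply_succAbove, hφ, aeval_X, Sum.elim_inr, div_eq_inv_mul]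
    have hIφ : I ≤ RingHom.ker φ := by
      rw [hI, Ideal.span_le]
      rintro _ ⟨a, rfl⟩
      change φ (v a) = 0
      have h1 : φ (v a) = eval ((y k)⁻¹ • y) (fmj f a) := by
        have h3 := hom_eval (φ : A₁ →+* ℂ) q
          (fm fun δ : Ex (Fin (n + 1)) (d a) => (X (Sum.inl ⟨a, δ⟩) : A₁))
        rw [map_fm, hφq] at h3
        have h4 : (fun δ : Ex (Fin (n + 1)) (d a) => (φ : A₁ →+* ℂ) (X (Sum.inl ⟨a, δ⟩))) =
            fun δ => f ⟨a, δ⟩ := by
          funext δ
          change φ (X (Sum.inl ⟨a, δ⟩)) = _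
          rw [hφ, aeval_X, Sum.elim_inl]
        rw [h4] at h3
        exact h3
      have h5 : eval ((y k)⁻¹ • y) (fmj f a) = (y k)⁻¹ ^ d a * eval y (fmj f a) :=
        GH2_eval_smul (F := fmj f a) (fm_homogeneous _) _ _
      rw [h1, h5, hcon a, mul_zero]
    have h1 : φ x = 0 := hIφ hxI
    rw [hx] at h1
    have h2 : φ (rename Sum.inl Ξ) = eval f Ξ := by
      rw [hφ, aeval_rename]
      rfl
    rw [h2] at h1
    exact hf h1

/-- CHUNK F08b.  Proof.  Product of the polynomials of F08a (renamed) over all injective maps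
`g : Fin (n + 1) → ιL` and all `k`; if more than `n` forms vanish at `x ≠ 0` choose `n + 1` of them and
`k` with `x k ≠ 0`. -/
theorem exists_gp {n : ℕ} {ιL : Type} [Fintype ιL] (d : ιL → ℕ) :
    ∃ Ξ : MvPolynomial (FV (Fin (n + 1)) d) ℂ, Ξ ≠ 0 ∧ ∀ f, eval f Ξ ≠ 0 →
      ∀ x : Fin (n + 1) → ℂ, x ≠ 0 → Nat.card {j : ιL // eval x (fmj f j) = 0} ≤ n := by
  classical
  have hp : ∀ p : (Fin (n + 1) ↪ ιL) × Fin (n + 1), ∃ Ξ : MvPolynomial (FV (Fin (n + 1)) d) ℂ, Ξ ≠ 0 ∧
      ∀ f, eval f Ξ ≠ 0 → ∀ x : Fin (n + 1) → ℂ, x p.2 ≠ 0 → ∃ a, eval x (fmj f (p.1 a)) ≠ 0 := by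
    rintro ⟨g, k⟩
    obtain ⟨Ξ, h0, h1⟩ := no_common_zero (fun a => d (g a)) k
    let ρ : FV (Fin (n + 1)) (fun a => d (g a)) → FV (Fin (n + 1)) d := fun p => ⟨g p.1, p.2⟩
    have hρ : Function.Injective ρ := by
      rintro ⟨a, δ⟩ ⟨a', δ'⟩ h
      have h2 : g a = g a' := congrArg Sigma.fst h
      obtain rfl := g.injective h2
      have h3 : (⟨g a, δ⟩ : FV (Fin (n + 1)) d) = ⟨g a, δ'⟩ := h
      have h4 : δ = δ' := eq_of_heq (Sigma.mk.inj h3).2
      rw [h4]
    refine ⟨rename ρ Ξ, ?_, fun f hf x hx => ?_⟩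
    · intro h
      exact h0 (rename_injective _ hρ (by rw [h, map_zero]))
    · rw [eval_rename] at hf
      obtain ⟨a, ha⟩ := h1 (f ∘ ρ) hf x hx
      exact ⟨a, ha⟩
  choose Ξ hΞ0 hΞ using hp
  refine ⟨∏ p, Ξ p, Finset.prod_ne_zero_iff.2 fun p _ => hΞ0 p, fun f hf x hx => ?_⟩
  rw [map_prod, Finset.prod_ne_zero_iff] at hf
  by_contra hcon
  have hcon' := not_le.1 hcon
  obtain ⟨k, hk⟩ : ∃ k, x k ≠ 0 := by
    obtain ⟨k, hk⟩ := Function.ne_iff.1 hx
    exact ⟨k, hk⟩
  have hcard : Fintype.card (Fin (n + 1)) ≤ Fintype.card {j : ιL // eval x (fmj f j) = 0} := by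
    rw [Fintype.card_fin, ← Nat.card_eq_fintype_card]
    omega
  obtain ⟨e⟩ := Function.Embedding.nonempty_of_card_le hcard
  obtain ⟨a, ha⟩ := hΞ (e.trans (Function.Embedding.subtype _), k) f (hf _ (Finset.mem_univ _)) x hk
  exact ha (e a).2

end Pool.Agent.H53Y
end
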