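import Pool.Agent.Lib.H1M.PB.M022
import Pool.Agent.Lib.H1M.PB.M027
import Pool.Agent.Lib.H1M.PB.M032
import Pool.Agent.Lib.H1M.PB.M033
import Pool.Agent.Lib.H1M.PB.M034
import Pool.Agent.Lib.H1M.PB.M037
import Pool.Agent.Lib.H1M.PB.M038

/-! Merged copies (to shorten the build) of Lib.H78G.HZ2, Lib.H78G.C4, Lib.H78G.C5, Lib.H89Y.C0, Lib.H89Y.C1, Lib.H89Y.C3. -/

-- from Lib.H78G.HZ2
section

set_option autoImplicit false

/-!
CHUNK HZ2 (M/L).  The interpolation with polynomial coefficients: the poles are powers of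
`Wd * h_c`.
-/

open MvPolynomial

namespace Pool.Agent.H78G

open Pool.Agent.H89T

variable {n r : ℕ}

/-- The ring of one linear polynomial `h` and the jets. -/
abbrev B1 (n r : ℕ) : Type := MvPolynomial (JV n r ⊕ Fin (n + 1)) ℂ

/-- The coefficients of the linear polynomial `h`. -/
noncomputable def hX (c : Fin (n + 1)) : B1 n r := X (Sum.inr c)

/-- The jet variables. -/
noncomputable def xX (p : JV n r) : B1 n r := X (Sum.inl p)

/-- The polynomials in `t` of the form `g (x (t)) + v (t) q + t ^ (r + 1) e`, `v (t) = h (x (t))`. -/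
def InL (n r : ℕ) (p : Polynomial (B1 n r)) : Prop :=
  ∃ (G : Fin (n + 1) → B1 n r) (q e : Polynomial (B1 n r)),
    p = linA (fun c => Polynomial.C (G c)) (arc xX) +
      linA (fun c => Polynomial.C (hX c)) (arc xX) * q + Polynomial.X ^ (r + 1) * e

theorem HZ2_lin_add {n : ℕ} {B : Type*} [CommRing B] (g g' : Fin (n + 1) → B) (x : Fin n → B) :
    linA (fun c => g c + g' c) x = linA g x + linA g' x := by
  unfold linA
  rw [show (∑ b : Fin n, (g b.succ + g' b.succ) * x b) =
    ∑ b : Fin n, g b.succ * x b + ∑ b : Fin n, g' b.succ * x b by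
      rw [← Finset.sum_add_distrib]
      exact Finset.sum_congr rfl fun b _ => by ring]
  ring

theorem HZ2_lin_mul {n : ℕ} {B : Type*} [CommRing B] (a : B) (g : Fin (n + 1) → B)
    (x : Fin n → B) : linA (fun c => a * g c) x = a * linA g x := by
  unfold linA
  rw [mul_add, Finset.mul_sum]
  congr 1
  exact Finset.sum_congr rfl fun b _ => by ring

theorem HZ2_zero : InL n r 0 := by
  refine ⟨fun _ => 0, 0, 0, ?_⟩
  unfold linA
  simp

theorem HZ2_add {p q : Polynomial (B1 n r)} (hp : InL n r p) (hq : InL n r q) :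
    InL n r (p + q) := by
  obtain ⟨G, u, e, h⟩ := hp
  obtain ⟨G', u', e', h'⟩ := hq
  refine ⟨fun c => G c + G' c, u + u', e + e', ?_⟩
  have h1 : linA (fun c => Polynomial.C (G c + G' c)) (arc (xX (n := n) (r := r))) =
      linA (fun c => Polynomial.C (G c)) (arc xX) + linA (fun c => Polynomial.C (G' c)) (arc xX) := by
    rw [← HZ2_lin_add]
    congr 1
    funext c
    exact Polynomial.C_add
  rw [h1, h, h']
  ring

theorem HZ2_mul (a : B1 n r) {p : Polynomial (B1 n r)} (hp : InL n r p) :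
    InL n r (Polynomial.C a * p) := by
  obtain ⟨G, u, e, h⟩ := hp
  refine ⟨fun c => a * G c, Polynomial.C a * u, Polynomial.C a * e, ?_⟩
  have h1 : linA (fun c => Polynomial.C (a * G c)) (arc (xX (n := n) (r := r))) =
      Polynomial.C a * linA (fun c => Polynomial.C (G c)) (arc xX) := by
    rw [← HZ2_lin_mul]
    congr 1
    funext c
    exact Polynomial.C_mul
  rw [h1, h]
  ring

theorem HZ2_pow (e : Polynomial (B1 n r)) : InL n r (Polynomial.X ^ (r + 1) * e) := by
  refine ⟨fun _ => 0, 0, e, ?_⟩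
  unfold linA
  simp

theorem HZ2_sum {ι : Type*} (s : Finset ι) (f : ι → Polynomial (B1 n r))
    (h : ∀ i ∈ s, InL n r (f i)) : InL n r (∑ i ∈ s, f i) := by
  classical
  induction s using Finset.induction_on with
  | empty =>
    rw [Finset.sum_empty]
    exact HZ2_zero
  | insert a s ha ih =>
    rw [Finset.sum_insert ha]
    exact HZ2_add (h a (Finset.mem_insert_self a s))
      (ih fun i hi => h i (Finset.mem_insert_of_mem hi))

/-- the ideal of the good constants -/
def HZ2_I (n r : ℕ) : Ideal (B1 n r) where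
  carrier := {a | ∀ j : Fin (r + 1), InL n r (Polynomial.C a * Polynomial.X ^ (j : ℕ))}
  add_mem' := fun {a b} ha hb j => by
    rw [Polynomial.C_add, add_mul]
    exact HZ2_add (ha j) (hb j)
  zero_mem' := fun j => by
    rw [Polynomial.C_0, zero_mul]
    exact HZ2_zero
  smul_mem' := fun c a ha j => by
    rw [smul_eq_mul, Polynomial.C_mul, mul_assoc]
    exact HZ2_mul c (ha j)

/-- truncation of a polynomial -/
theorem HZ2_trunc {R : Type*} [CommRing R] (p : Polynomial R) (r : ℕ) :
    ∃ e : Polynomial R, p = ∑ l : Fin (r + 1), Polynomial.C (p.coeff (l : ℕ)) *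
      Polynomial.X ^ (l : ℕ) + Polynomial.X ^ (r + 1) * e := by
  have h : (Polynomial.X : Polynomial R) ^ (r + 1) ∣ p - ∑ l : Fin (r + 1),
      Polynomial.C (p.coeff (l : ℕ)) * Polynomial.X ^ (l : ℕ) := by
    rw [Polynomial.X_pow_dvd_iff]
    intro d hd
    rw [Polynomial.coeff_sub, Polynomial.finsetSum_coeff]
    simp only [Polynomial.coeff_C_mul, Polynomial.coeff_X_pow]
    rw [Finset.sum_eq_single (⟨d, hd⟩ : Fin (r + 1))]
    · simp
    · intro l _ hl
      have : d ≠ (l : ℕ) := fun h => hl (Fin.ext h.symm)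
      simp [this]
    · intro h
      exact absurd (Finset.mem_univ _) h
  obtain ⟨e, he⟩ := h
  exact ⟨e, by rw [← he]; ring⟩

/-- the good constants do not vanish at a nondegenerate point -/
theorem HZ2_point (hr : n ≤ r) (ξ : JV n r → ℂ) (h : Fin (n + 1) → ℂ) (hW : Wd hr ξ ≠ 0)
    (hh : h ≠ 0) : ∃ a ∈ HZ2_I n r, eval (Sum.elim ξ h) a ≠ 0 := by
  classical
  choose G q e hGq using fun j : Fin (r + 1) => hz_point hr h ξ hW hh (j : ℕ)
  set φ : B1 n r →+* ℂ := eval (Sum.elim ξ h) with hφ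
  have hφC : ∀ c : ℂ, φ (C c) = c := fun c => by rw [hφ, eval_C]
  let E : Fin (r + 1) → Polynomial (B1 n r) := fun j =>
    linA (fun c => Polynomial.C (C (G j c))) (arc xX) +
      linA (fun c => Polynomial.C (hX c)) (arc xX) * (q j).map (C : ℂ →+* B1 n r)
  have hE : ∀ j, InL n r (E j) := by
    intro j
    refine ⟨fun c => C (G j c), (q j).map C, 0, ?_⟩
    rw [mul_zero, add_zero]
  have harc : ∀ b, Polynomial.map φ (arc (xX (n := n) (r := r)) b) = arc ξ b := by
    intro b
    rw [arc_map]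
    congr 1
    funext p
    simp [xX, hφ]
  have hEφ : ∀ j, (E j).map φ + Polynomial.X ^ (r + 1) * e j = Polynomial.X ^ (j : ℕ) := by
    intro j
    have h1 : (E j).map φ = linA (fun c => Polynomial.C (G j c)) (arc ξ) +
        linA (fun c => Polynomial.C (h c)) (arc ξ) * q j := by
      have h2 : ∀ g : Fin (n + 1) → B1 n r,
          (linA (fun c => Polynomial.C (g c)) (arc (xX (n := n) (r := r)))).map φ =
          linA (fun c => Polynomial.C (φ (g c))) (arc ξ) := by
        intro g
        have h3 := linA_map (Polynomial.mapRingHom φ) (fun c => Polynomial.C (g c))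
          (arc (xX (n := n) (r := r)))
        rw [Polynomial.coe_mapRingHom] at h3
        rw [h3]
        congr 1
        · funext c
          simp
        · funext b
          exact harc b
      show (linA (fun c => Polynomial.C (C (G j c))) (arc (xX (n := n) (r := r))) +
        linA (fun c => Polynomial.C (hX c)) (arc xX) * (q j).map (C : ℂ →+* B1 n r)).map φ = _
      rw [Polynomial.map_add, Polynomial.map_mul, h2, h2, Polynomial.map_map]
      have h4 : φ.comp (C : ℂ →+* B1 n r) = RingHom.id ℂ := by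
        ext1 c
        exact hφC c
      have h5 : (fun c => Polynomial.C (φ (C (G j c))) : Fin (n + 1) → Polynomial ℂ) =
          fun c => Polynomial.C (G j c) := by
        funext c
        rw [hφC]
      have h6 : (fun c => Polynomial.C (φ (hX c)) : Fin (n + 1) → Polynomial ℂ) =
          fun c => Polynomial.C (h c) := by
        funext c
        simp [hX, hφ]
      rw [h4, Polynomial.map_id, h5, h6]
    rw [h1]
    exact (hGq j).symm
  let T : Matrix (Fin (r + 1)) (Fin (r + 1)) (B1 n r) := Matrix.of fun j l => (E j).coeff (l : ℕ)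
  have hT : φ T.det = 1 := by
    rw [RingHom.map_det]
    have h1 : φ.mapMatrix T = 1 := by
      ext j l
      rw [RingHom.mapMatrix_apply, Matrix.map_apply]
      show φ ((E j).coeff (l : ℕ)) = _
      have h2 := congrArg (fun p => Polynomial.coeff p (l : ℕ)) (hEφ j)
      simp only [Polynomial.coeff_add, Polynomial.coeff_map, Polynomial.coeff_X_pow_mul',
        Polynomial.coeff_X_pow] at h2
      rw [if_neg (by have := l.2; omega), add_zero] at h2
      rw [h2, Matrix.one_apply]
      by_cases hjl : j = l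
      · subst hjl
        simp
      · rw [if_neg hjl, if_neg]
        intro h3
        exact hjl (Fin.ext h3.symm)
    rw [h1, Matrix.det_one]
  refine ⟨T.det, ?_, by rw [hT]; exact one_ne_zero⟩
  intro i
  choose F hF using fun j => HZ2_trunc (E j) r
  have hadj := Matrix.adjugate_mul T
  have key : Polynomial.C T.det * Polynomial.X ^ (i : ℕ) =
      ∑ j, Polynomial.C (T.adjugate i j) * (E j + Polynomial.X ^ (r + 1) * (-F j)) := by
    have h1 : ∀ j, E j + Polynomial.X ^ (r + 1) * (-F j) =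
        ∑ l : Fin (r + 1), Polynomial.C (T j l) * Polynomial.X ^ (l : ℕ) := by
      intro j
      have h2 := hF j
      have h3 : ∑ l : Fin (r + 1), Polynomial.C (T j l) * Polynomial.X ^ (l : ℕ) =
        ∑ l : Fin (r + 1), Polynomial.C ((E j).coeff (l : ℕ)) * Polynomial.X ^ (l : ℕ) := rfl
      rw [h3]
      nth_rewrite 1 [h2]
      ring
    simp only [h1, Finset.mul_sum]
    rw [Finset.sum_comm]
    have h4 : ∀ l : Fin (r + 1), ∑ j, Polynomial.C (T.adjugate i j) *
        (Polynomial.C (T j l) * Polynomial.X ^ (l : ℕ)) =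
        Polynomial.C ((T.adjugate * T) i l) * Polynomial.X ^ (l : ℕ) := by
      intro l
      rw [Matrix.mul_apply, map_sum, Finset.sum_mul]
      refine Finset.sum_congr rfl fun j _ => ?_
      rw [Polynomial.C_mul, mul_assoc]
    rw [Finset.sum_congr rfl fun l _ => h4 l, hadj]
    rw [Finset.sum_eq_single i]
    · simp
    · intro l _ hl
      rw [Matrix.smul_apply, Matrix.one_apply_ne hl.symm, smul_zero, Polynomial.C_0, zero_mul]
    · intro hi
      exact absurd (Finset.mem_univ i) hi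
  rw [key]
  refine HZ2_sum _ _ fun j _ => HZ2_mul _ (HZ2_add (hE j) (HZ2_pow _))

/-- Nullstellensatz -/
theorem HZ2_null {σ : Type*} [Finite σ] (J : Ideal (MvPolynomial σ ℂ)) (P : MvPolynomial σ ℂ)
    (hP : ∀ x : σ → ℂ, (∀ g ∈ J, eval x g = 0) → eval x P = 0) : ∃ N : ℕ, P ^ N ∈ J := by
  have h1 : P ∈ vanishingIdeal ℂ (zeroLocus ℂ J) := by
    rw [mem_vanishingIdeal_iff]
    intro u hu
    rw [aeval_eq_eval]
    refine hP u fun g hg => ?_
    have h2 := hu g hg
    rwa [aeval_eq_eval] at h2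
  rw [vanishingIdeal_zeroLocus_eq_radical] at h1
  exact h1

/-- CHUNK HZ2.  There is `N` such that `(Wd * h_c) ^ N * t ^ j` is of the form `InL` for all `c`
and `j ≤ r`.

Proof.  The `a ∈ B1` with `a * t ^ j` of the form `InL` for all `j ≤ r` form an ideal `𝔞`
(`InL` is closed under sums and under multiplication with constants `C a`).  By the Nullstellensatz
(`MvPolynomial.vanishingIdeal_zeroLocus_eq_radical`; compare `t3_null` in `H89T/T3.lean`) it is enough
to show that `Wd * h_c` vanishes at all common zeros of `𝔞`; then `(Wd * h_c) ^ N ∈ 𝔞` (take the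
maximum over `c`).  Let `P = (ξ, h)` be a point with `Wd ξ ≠ 0`, `h_c ≠ 0`; construct `a ∈ 𝔞` with
`a (P) ≠ 0`: by `hz_point` there are constants `G_j`, `q_j`, `e_j` for `j ≤ r`; let
`E_j = linA (C ∘ C ∘ G_j) (arc) + v (t) * q_j` with the same constants (now in `B1[t]`), which is of
the form `InL`, and `T j l = [t ^ l] E_j`, `j, l ≤ r`, a square matrix over `B1` with
`T (P) = 1`, because at `P` one has `E_j = t ^ j - t ^ (r + 1) e_j`.  So `a = det T` has the value `1`
at `P`, and `a * t ^ j = ∑ l, (adj T) j l * (E_l - t ^ (r + 1) * (...))`, i.e. `a ∈ 𝔞`. -/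
theorem hz_exists (hr : n ≤ r) : ∃ N : ℕ, ∀ (c : Fin (n + 1)) (j : Fin (r + 1)),
    InL n r (Polynomial.C ((Wd hr xX * hX c : B1 n r) ^ N) * Polynomial.X ^ (j : ℕ)) := by
  have h1 : ∀ c : Fin (n + 1), ∃ N : ℕ, (Wd hr xX * hX c : B1 n r) ^ N ∈ HZ2_I n r := by
    intro c
    apply HZ2_null
    intro x hx
    by_contra hne
    rw [map_mul] at hne
    have hW := left_ne_zero_of_mul hne
    have hc := right_ne_zero_of_mul hne
    rw [Wd_map] at hW
    have hW' : Wd hr (fun p => x (Sum.inl p)) ≠ 0 := by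
      have h2 : (fun p : JV n r => eval x (xX p)) = fun p => x (Sum.inl p) := by
        funext p
        simp [xX]
      rw [h2] at hW
      exact hW
    have hh : (fun c => x (Sum.inr c) : Fin (n + 1) → ℂ) ≠ 0 := by
      intro h0
      apply hc
      have := congrFun h0 c
      simpa [hX] using this
    obtain ⟨a, ha, ha'⟩ := HZ2_point hr (fun p => x (Sum.inl p)) (fun c => x (Sum.inr c)) hW' hh
    apply ha'
    have h3 : Sum.elim (fun p => x (Sum.inl p)) (fun c => x (Sum.inr c)) = x :=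
      Sum.elim_comp_inl_inr x
    rw [h3]
    exact hx a ha
  choose N hN using h1
  refine ⟨∑ c, N c, fun c j => ?_⟩
  have h2 : N c ≤ ∑ c, N c := Finset.single_le_sum (fun _ _ => Nat.zero_le _) (Finset.mem_univ c)
  have h3 : (Wd hr xX * hX c : B1 n r) ^ (∑ c, N c) ∈ HZ2_I n r := by
    rw [← Nat.sub_add_cancel h2, pow_add]
    exact Ideal.mul_mem_left _ _ (hN c)
  exact h3 j

/-- CHUNK HZ2.  The same with a bound for the weights of the coefficients `G` (there are only
finitely many `c`, `j`, `b`: `WtS.exists`, maximum). -/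
theorem hz_wt (hr : n ≤ r) : ∃ N cH : ℕ, ∀ (c : Fin (n + 1)) (j : Fin (r + 1)),
    ∃ (G : Fin (n + 1) → B1 n r) (q e : Polynomial (B1 n r)), (∀ b, WtS cH (G b)) ∧
      Polynomial.C ((Wd hr xX * hX c : B1 n r) ^ N) * Polynomial.X ^ (j : ℕ) =
      linA (fun c => Polynomial.C (G c)) (arc xX) +
        linA (fun c => Polynomial.C (hX c)) (arc xX) * q + Polynomial.X ^ (r + 1) * e := by
  obtain ⟨N, hN⟩ := hz_exists (n := n) (r := r) hr
  choose G q e h using hN
  choose w hw using fun (c : Fin (n + 1)) (j : Fin (r + 1)) (b : Fin (n + 1)) =>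
    WtS.exists (G c j b)
  refine ⟨N, ∑ c, ∑ j, ∑ b, w c j b, fun c j => ⟨G c j, q c j, e c j, fun b => ?_, h c j⟩⟩
  refine (hw c j b).mono ?_
  refine le_trans ?_ (Finset.single_le_sum (fun _ _ => Nat.zero_le _) (Finset.mem_univ c))
  refine le_trans ?_ (Finset.single_le_sum (fun _ _ => Nat.zero_le _) (Finset.mem_univ j))
  exact Finset.single_le_sum (f := fun b => w c j b) (fun _ _ => Nat.zero_le _)
    (Finset.mem_univ b)

end Pool.Agent.H78G
end

-- from Lib.H78G.C4
section

set_option autoImplicit false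

/-!
CHUNK C4 (M).  The horizontal fields.
-/

open MvPolynomial

namespace Pool.Agent.H78G

open Pool.Agent.H89T

variable {n r : ℕ}







theorem C4_linA_mul {B : Type} [CommRing B] (a : B) (g : Fin (n + 1) → B) (x : Fin n → B) :
    linA (fun c => a * g c) x = a * linA g x := by
  unfold linA
  rw [mul_add, Finset.mul_sum]
  congr 1
  exact Finset.sum_congr rfl fun b _ => mul_assoc _ _ _


end Pool.Agent.H78G
end

-- from Lib.H78G.C5
section

set_option autoImplicit false

/-!
CHUNK C5 (M).  The fields span the tangent space at a nondegenerate jet.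
-/

open MvPolynomial

namespace Pool.Agent.H78G

open Pool.Agent.H89T

variable {n r : ℕ}





theorem C5_single {σ : Type} [Fintype σ] [DecidableEq σ] (W : Submodule ℂ (σ → ℂ))
    (h : ∀ s, Pi.single s 1 ∈ W) : W = ⊤ := by
  rw [Submodule.eq_top_iff']
  intro v
  have h1 : v = ∑ s, v s • (Pi.single s 1 : σ → ℂ) := by
    ext t
    rw [Finset.sum_apply]
    simp [Pi.single_apply]
  rw [h1]
  exact Submodule.sum_mem _ fun s _ => Submodule.smul_mem _ _ (h s)


end Pool.Agent.H78G
end

-- from Lib.H89Y.C0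
section

set_option autoImplicit false

/-!
H89Y (modules A and C of H53Y: existence of the operators and slanted fields), module C: definitions.

The universal ring `UG m sb dg n r`: jets `xG` of order `r` in the `n` coordinates and the coefficients `aG` of all factors.
-/

open MvPolynomial

namespace Pool.Agent.H89Y

open Pool.Agent.H89T Pool.Agent.H78G Pool.Agent.H53Y

section Defs

variable {β : Type} (m : β → ℕ) {ι : Type} (sb : ι → β) (dg : ι → ℕ) (n r : ℕ)

/-- The universal ring. -/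
abbrev UG : Type := MvPolynomial (JV n r ⊕ Cf m sb dg) ℂ

end Defs

section Defs2

variable {β : Type} {m : β → ℕ} {ι : Type} {sb : ι → β} {dg : ι → ℕ} {n r : ℕ}

/-- The coefficients as elements of the universal ring. -/
noncomputable def aG (x : Cf m sb dg) : UG m sb dg n r := X (Sum.inr x)

/-- The jet variables as elements of the universal ring. -/
noncomputable def xG (q : JV n r) : UG m sb dg n r := X (Sum.inl q)

/-- The factor `i` on the arc of the generic jet. -/
noncomputable def vG (e : Co m ≃ Fin n) (i : ι) : Polynomial (UG m sb dg n r) := fa e aG xG i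

/-- The derivation `N` of the universal ring. -/
noncomputable def NG : Derivation ℂ (UG m sb dg n r) (UG m sb dg n r) :=
  mkDerivation ℂ (Sum.elim (fun q : JV n r =>
    if h : (q.2 : ℕ) < r then ((q.2 : ℕ) + 1) • xG (q.1, ⟨(q.2 : ℕ) + 1, by omega⟩) else 0)
    fun _ => 0)

/-- `s`-admissible fields: `V (v_i (t)) ∈ (v_i (t), t ^ s)` for all factors. -/
def AdG (e : Co m ≃ Fin n) (s : ℕ) (V : Derivation ℂ (UG m sb dg n r) (UG m sb dg n r)) : Prop :=
  ∀ i, cf V (vG e i) ∈ Ideal.span {vG e i, (Polynomial.X : Polynomial (UG m sb dg n r)) ^ s}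

/-- The ideal of the pair `(i, i')` in the universal ring. -/
noncomputable def IU [DecidableEq ι] (e : Co m ≃ Fin n) (i i' : ι) : Ideal (UG m sb dg n r) :=
  if i = i' then Ideal.span {(vG e i).coeff 0, (vG e i).coeff 1}
  else Ideal.span {(vG e i).coeff 0, (vG e i').coeff 0}

/-- Property (A) in the universal ring. -/
def PropU [DecidableEq ι] (e : Co m ≃ Fin n) (q : ℕ) (P : UG m sb dg n r) : Prop :=
  ∀ l < q, ∀ i i' : ι, (NG)^[l] P ∈ IU e i i'

/-- The admissible fields of weight at most `c`. -/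
def FldG (e : Co m ≃ Fin n) (c : ℕ) : Set (Derivation ℂ (UG m sb dg n r) (UG m sb dg n r)) :=
  {V | AdG e (r + 1) V ∧ ∀ x, WtS c (V (X x))}

/-- The span of the values of the fields at the point `(a, ξ)`. -/
noncomputable def SpG (e : Co m ≃ Fin n) (c : ℕ) (a : Cf m sb dg → ℂ) (ξ : JV n r → ℂ) :
    Submodule ℂ (JV n r ⊕ Cf m sb dg → ℂ) :=
  Submodule.span ℂ ((fun V : Derivation ℂ (UG m sb dg n r) (UG m sb dg n r) =>
    fun x : JV n r ⊕ Cf m sb dg => eval (Sum.elim ξ a) (V (X x))) '' FldG e c)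

end Defs2

/-! ### Polynomials in the jets with coefficients in `ℂ[τ]` -/

section Flat

variable {n r : ℕ} {τ : Type}

/-- The polynomial `P` as an element of the ring of all variables. -/
noncomputable def flatT (P : MvPolynomial (JV n r) (MvPolynomial τ ℂ)) : MvPolynomial (JV n r ⊕ τ) ℂ :=
  (sumAlgEquiv ℂ (JV n r) τ).symm P

/-- Specialization of the parameters. -/
noncomputable def specT (a : τ → ℂ) : MvPolynomial (JV n r ⊕ τ) ℂ →ₐ[ℂ] MvPolynomial (JV n r) ℂ :=
  aeval (Sum.elim (fun q => X q) fun s => C (a s))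

/-- The variables of the jets of order at least `1`. -/
def isJT (s : JV n r ⊕ τ) : Prop := ∃ q : JV n r, s = Sum.inl q ∧ q.2 ≠ 0

/-- The coefficient (a polynomial in the coordinates and in the parameters) of the jet part of the monomial `e` in a
polynomial `P`. -/
noncomputable def jcT [Fintype τ] (P : MvPolynomial (JV n r ⊕ τ) ℂ) (e : JV n r ⊕ τ →₀ ℕ) : MvPolynomial (Fin n ⊕ τ) ℂ :=
  open Classical in
  ∑ m ∈ P.support, if (∀ q : JV n r, q.2 ≠ 0 → m (Sum.inl q) = e (Sum.inl q)) then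
    monomial (Finsupp.equivFunOnFinite.symm
      (Sum.elim (fun b => m (Sum.inl (b, 0))) fun x => m (Sum.inr x))) (P.coeff m) else 0

end Flat

end Pool.Agent.H89Y
end

-- from Lib.H89Y.C1
section

set_option autoImplicit false

/-!
H89Y, CHUNK C1 (M).  Derivations and the arcs of the factors.
-/

open MvPolynomial

namespace Pool.Agent.H89Y

open Pool.Agent.H89T Pool.Agent.H78G Pool.Agent.H53Y

variable {β : Type} {m : β → ℕ} {ι : Type} {sb : ι → β} {dg : ι → ℕ} {n r : ℕ}

/-- CHUNK C1a.  PROOF.  `unfold NG xG; rw [mkDerivation_X, Sum.elim_inl]` (as `NA_xA` in Lib/H89T/C1.lean). -/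
theorem NG_xG (q : JV n r) : NG (xG q : UG m sb dg n r) =
    if h : (q.2 : ℕ) < r then ((q.2 : ℕ) + 1) • xG (q.1, ⟨(q.2 : ℕ) + 1, by omega⟩) else 0 := by
  unfold NG xG
  rw [mkDerivation_X, Sum.elim_inl]

/-- CHUNK C1b.  PROOF.  As C1a. -/
theorem NG_aG (x : Cf m sb dg) : NG (aG x : UG m sb dg n r) = 0 := by
  unfold NG aG
  rw [mkDerivation_X, Sum.elim_inr]

/-- A derivation on the coefficients of an arc. -/
theorem c1_arc {n' : ℕ} (V : Derivation ℂ (UG m sb dg n r) (UG m sb dg n r)) (ξ : JV n' r → UG m sb dg n r) (b : Fin n') :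
    cf V (arc ξ b) = arc (fun q => V (ξ q)) b := by
  ext1 l
  rw [coeff_cf, coeff_arc, coeff_arc]
  split_ifs with h
  · rfl
  · rw [map_zero]

/-- `cf N - d/dt` as a derivation. -/
noncomputable def c1_D : Derivation ℂ (Polynomial (UG m sb dg n r)) (Polynomial (UG m sb dg n r)) :=
  cfD (NG : Derivation ℂ (UG m sb dg n r) (UG m sb dg n r)) - (Polynomial.derivative' (R := UG m sb dg n r)).restrictScalars ℂ

theorem c1_D_apply (p : Polynomial (UG m sb dg n r)) : c1_D p = cf NG p - Polynomial.derivative p := rfl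

/-- CHUNK C1c.  PROOF.  `chain_rule` (Lib/H89T/C1.lean) with `Δ = cfD V`, `a = fun α => aG ⟨i, α⟩`, `ξ = bj e xG (sb i)` (`vG e i` and
`Fx a ξ` are the same by `rfl`, unfold `vG fa`), `cfD_apply`, `cf_C`; the first sum is `Fx (fun α => V (aG ⟨i, α⟩)) ξ` (unfold `Fx ev`), and
`cf V (arc ξ b) = arc (fun q => V (ξ q)) b`: `ext l`, `coeff_cf`, `coeff_arc` (Lib/H89T/N1.lean), `split_ifs`. -/
theorem cf_vG (e : Co m ≃ Fin n) (V : Derivation ℂ (UG m sb dg n r) (UG m sb dg n r)) (i : ι) :
    cf V (vG e i) = Fx (fun α => V (aG ⟨i, α⟩)) (bj e xG (sb i)) +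
      ∑ b, Fdx b (fun α => (aG ⟨i, α⟩ : UG m sb dg n r)) (bj e xG (sb i)) *
        arc (fun q => V (bj e xG (sb i) q)) b := by
  have h2 := chain_rule (cfD V) (fun α => (aG ⟨i, α⟩ : UG m sb dg n r)) (bj e xG (sb i))
  simp only [cfD_apply, c1_arc, cf_C] at h2
  exact h2

/-- CHUNK C1d.  `N` is the derivative with respect to `t` on the arcs.  PROOF.  As `DD_Fx_aA` (Lib/H89T/C2.lean): the derivation
`Δ = cfD NG - derivative` of `A[t]` (`(Polynomial.derivative' (R := UG ..)).restrictScalars ℂ`) kills `arc ξ b`, `ξ = bj e xG (sb i)`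
(`coeff_cf`, `coeff_arc`, `Polynomial.coeff_derivative`, `NG_xG`, exactly as `cf_NA_arc` in Lib/H89T/C1.lean; `bj e xG s q = xG (e ⟨s, q.1⟩, q.2)` by
`rfl`) and `C (aG x)` (`NG_aG`); `chain_rule` gives `Δ (vG e i) = 0`. -/
theorem cf_NG_vG (e : Co m ≃ Fin n) (i : ι) :
    cf NG (vG e i : Polynomial (UG m sb dg n r)) = Polynomial.derivative (vG e i) := by
  have h1 : ∀ b, c1_D (arc (bj e (xG : JV n r → UG m sb dg n r) (sb i)) b) = 0 := by
    intro b
    rw [c1_D_apply, sub_eq_zero]
    ext1 l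
    rw [coeff_cf, Polynomial.coeff_derivative, coeff_arc, coeff_arc]
    by_cases h1 : l < r
    · rw [dif_pos (by omega : l < r + 1), dif_pos (by omega : l + 1 < r + 1)]
      show NG (xG (e ⟨sb i, b⟩, ⟨l, _⟩)) = _
      rw [NG_xG, dif_pos h1, nsmul_eq_mul, mul_comm]
      push_cast
      rfl
    · rw [dif_neg (by omega : ¬ l + 1 < r + 1), zero_mul]
      split_ifs with h2
      · show NG (xG (e ⟨sb i, b⟩, ⟨l, _⟩)) = _
        rw [NG_xG, dif_neg h1]
      · rw [map_zero]
  have h3 := chain_rule (c1_D (m := m) (sb := sb) (dg := dg) (n := n) (r := r)) (fun α => (aG ⟨i, α⟩ : UG m sb dg n r)) (bj e xG (sb i))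
  have h4 : ∀ x : Cf m sb dg, c1_D (Polynomial.C (aG x : UG m sb dg n r)) = 0 := by
    intro x
    rw [c1_D_apply, cf_C, NG_aG, Polynomial.derivative_C, map_zero, sub_zero]
  simp only [h1, h4, mul_zero, zero_mul, Finset.sum_const_zero, add_zero] at h3
  rw [c1_D_apply, sub_eq_zero] at h3
  exact h3

/-- CHUNK C1e.  PROOF.  `coeff_arc`, `Fx`: `(Fx a ξ).coeff 0 = ev a (fun b => ξ (b, 0))` is `uu_zero` (Lib/H89T/N1.lean); then apply
`eval (Sum.elim ξ a)`: `ev_map`. -/
theorem eval_vG_zero (e : Co m ≃ Fin n) (i : ι) (a : Cf m sb dg → ℂ) (ξ : JV n r → ℂ) :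
    eval (Sum.elim ξ a) ((vG e i).coeff 0 : UG m sb dg n r) = fv e a (fun b => ξ (b, 0)) i := by
  have h1 : ((vG e i).coeff 0 : UG m sb dg n r) =
      ev (fun α => aG ⟨i, α⟩) (fun b => bj e xG (sb i) (b, 0)) := uu_zero _ _
  rw [h1, ev_map]
  unfold fv aG bj xG
  simp only [eval_X, Sum.elim_inl, Sum.elim_inr]
  rfl

end Pool.Agent.H89Y
end

-- from Lib.H89Y.C3
section

set_option autoImplicit false

/-!
H89Y, CHUNK C3 (M).  The ring of one factor inside the universal ring; fields which move only the coefficients of one factor.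
-/

open MvPolynomial

namespace Pool.Agent.H89Y

open Pool.Agent.H89T Pool.Agent.H78G Pool.Agent.H53Y

variable {β : Type} {m : β → ℕ} {ι : Type} {sb : ι → β} {dg : ι → ℕ} {n r : ℕ}

/-- The map of the variables of the factor `i`. -/
def io0 (e : Co m ≃ Fin n) (i : ι) : JV (m (sb i)) r ⊕ Idx (m (sb i)) (dg i) → JV n r ⊕ Cf m sb dg :=
  Sum.map (fun q => (e ⟨sb i, q.1⟩, q.2)) fun α => ⟨i, α⟩

/-- The embedding of the universal ring of the factor `i` (Lib/H89T). -/
noncomputable def io (e : Co m ≃ Fin n) (i : ι) : AA (m (sb i)) (dg i) r →ₐ[ℂ] UG m sb dg n r :=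
  rename (io0 e i)

/-- CHUNK C3a.  PROOF.  `rename_X`. -/
theorem io_xA (e : Co m ≃ Fin n) (i : ι) (q : JV (m (sb i)) r) :
    io e i (xA q : AA (m (sb i)) (dg i) r) = bj e xG (sb i) q := by
  unfold io xA
  rw [rename_X]
  rfl

/-- CHUNK C3b.  PROOF.  `rename_X`. -/
theorem io_aA (e : Co m ≃ Fin n) (i : ι) (α : Idx (m (sb i)) (dg i)) :
    io e i (aA α : AA (m (sb i)) (dg i) r) = aG ⟨i, α⟩ := by
  unfold io aA
  rw [rename_X]
  rfl

/-- CHUNK C3c.  PROOF.  `arc_map` (Lib/H89T/N1.lean) for `φ = (io e i).toRingHom`, `io_xA`. -/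
theorem io_arc (e : Co m ≃ Fin n) (i : ι) (b : Fin (m (sb i))) :
    Polynomial.map (io (m := m) (sb := sb) (dg := dg) (r := r) e i).toRingHom (arc xA b) = arc (bj e xG (sb i)) b := by
  rw [arc_map]
  congr 1
  funext q
  exact io_xA e i q

/-- CHUNK C3d.  PROOF.  `Fx_map` (Lib/H89T/N1.lean), `io_xA`. -/
theorem io_Fx (e : Co m ≃ Fin n) (i : ι) (g : Idx (m (sb i)) (dg i) → AA (m (sb i)) (dg i) r) :
    Polynomial.map (io (m := m) (sb := sb) (dg := dg) (r := r) e i).toRingHom (Fx g xA) =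
      Fx (fun α => io e i (g α)) (bj e xG (sb i)) := by
  rw [Fx_map]
  congr 1
  funext q
  exact io_xA e i q

/-- CHUNK C3e.  PROOF.  `Fdx` is `evd b` of `C ∘ a` and `arc`: `evd_map` (Lib/H89T/N1.lean) for `Polynomial.mapRingHom (io e i)`, `io_arc`, `io_aA`. -/
theorem io_Fdx (e : Co m ≃ Fin n) (i : ι) (b : Fin (m (sb i))) :
    Polynomial.map (io (m := m) (sb := sb) (dg := dg) (r := r) e i).toRingHom (Fdx b aA xA) =
      Fdx b (fun α => (aG ⟨i, α⟩ : UG m sb dg n r)) (bj e xG (sb i)) := by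
  rw [Fdx_map]
  congr 1
  · funext α
    exact io_aA e i α
  · funext q
    exact io_xA e i q

theorem c3_w (e : Co m ≃ Fin n) (i : ι) (v : JV (m (sb i)) r ⊕ Idx (m (sb i)) (dg i) →₀ ℕ) :
    w0w (Finsupp.mapDomain (io0 (dg := dg) e i) v) = w0w v := by
  induction v using Finsupp.induction_linear with
  | zero => rw [Finsupp.mapDomain_zero, w0w_zero, w0w_zero]
  | add f g hf hg => rw [Finsupp.mapDomain_add, w0w_add, w0w_add, hf, hg]
  | single x c =>
    rw [Finsupp.mapDomain_single]
    rcases x with q | α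
    · change w0w (Finsupp.single (Sum.inl ((e ⟨sb i, q.1⟩, q.2) : JV n r) : JV n r ⊕ Cf m sb dg) c) = _
      rw [w0w_single_inl, w0w_single_inl]
    · change w0w (Finsupp.single (Sum.inr (⟨i, α⟩ : Cf m sb dg) : JV n r ⊕ Cf m sb dg) c) = _
      rw [w0w_single_inr, w0w_single_inr]

/-- CHUNK C3f.  Weights.  PROOF.  `P.as_sum`, `map_sum`, `WtS.sum` (Lib/H78G/W0.lean), `rename_monomial`, `w0_monomial_le`, and
`w0w (Finsupp.mapDomain (io0 e i) m) ≤ w0w m`: the weight is additive (`w0w_add`, `w0w_zero`), induction on `m` (`Finsupp.induction_linear`) or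
`Finsupp.mapDomain` as a sum of `Finsupp.single`s; `w0w (single (io0 e i s) c) =` weight of `single s c` (`w0w_single_inl`, `w0w_single_inr`: equality holds).
`WtA d P` and the property for `w0w` are the same statement by `rfl`. -/
theorem io_wt (e : Co m ≃ Fin n) (i : ι) {d : ℕ} {P : AA (m (sb i)) (dg i) r} (hP : WtA d P) : WtS d (io e i P) := by
  have h1 : io e i P = ∑ v ∈ P.support, monomial (Finsupp.mapDomain (io0 e i) v) (P.coeff v) := by
    conv_lhs => rw [P.as_sum]
    unfold io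
    rw [map_sum]
    exact Finset.sum_congr rfl fun v _ => rename_monomial _ _ _
  rw [h1]
  refine WtS.sum fun v hv => w0_monomial_le _ _ ?_
  rw [c3_w]
  exact hP v hv

/-- CHUNK C3g.  PROOF.  `eval (Sum.elim ξ a) (rename f P) = eval (Sum.elim ξ a ∘ f) P` (`eval_rename`) and `Sum.elim ξ a ∘ io0 e i =
Sum.elim (bj e ξ (sb i)) (fun α => a ⟨i, α⟩)` (`funext`, cases); `evA` is `aeval`, `MvPolynomial.aeval_eq_eval` / `coe_aeval_eq_eval`. -/
theorem eval_io (e : Co m ≃ Fin n) (i : ι) (a : Cf m sb dg → ℂ) (ξ : JV n r → ℂ) (P : AA (m (sb i)) (dg i) r) :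
    eval (Sum.elim ξ a) (io e i P) = evA (fun α => a ⟨i, α⟩) (bj e ξ (sb i)) P := by
  unfold io evA
  rw [eval_rename]
  have h1 : (Sum.elim ξ a ∘ io0 e i : JV (m (sb i)) r ⊕ Idx (m (sb i)) (dg i) → ℂ) =
      Sum.elim (bj e ξ (sb i)) fun α => a ⟨i, α⟩ := by
    funext x
    cases x <;> rfl
  rw [h1, aeval_eq_eval]

/-- The family of coefficients which is `g` for the factor `i` and `0` for the other ones. -/
noncomputable def exG [DecidableEq ι] (i : ι) (g : Idx (m (sb i)) (dg i) → UG m sb dg n r) (x : Cf m sb dg) : UG m sb dg n r :=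
  Function.update (fun i' (_ : Idx (m (sb i')) (dg i')) => (0 : UG m sb dg n r)) i g x.1 x.2

/-- The field which moves only the coefficients of the factor `i`. -/
noncomputable def vD [DecidableEq ι] (i : ι) (g : Idx (m (sb i)) (dg i) → UG m sb dg n r) :
    Derivation ℂ (UG m sb dg n r) (UG m sb dg n r) :=
  mkDerivation ℂ (Sum.elim (fun _ => 0) (exG i g))

theorem c3_inl [DecidableEq ι] (i : ι) (g : Idx (m (sb i)) (dg i) → UG m sb dg n r) (q : JV n r) :
    vD i g (xG q) = 0 := by
  unfold vD xG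
  rw [mkDerivation_X, Sum.elim_inl]

theorem c3_inr_self [DecidableEq ι] (i : ι) (g : Idx (m (sb i)) (dg i) → UG m sb dg n r)
    (α : Idx (m (sb i)) (dg i)) : vD i g (aG ⟨i, α⟩) = g α := by
  unfold vD aG
  rw [mkDerivation_X, Sum.elim_inr]
  unfold exG
  rw [Function.update_self]

theorem c3_inr_ne [DecidableEq ι] (i : ι) (g : Idx (m (sb i)) (dg i) → UG m sb dg n r) {i' : ι} (h : i' ≠ i)
    (α : Idx (m (sb i')) (dg i')) : vD i g (aG ⟨i', α⟩) = 0 := by
  unfold vD aG
  rw [mkDerivation_X, Sum.elim_inr]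
  unfold exG
  rw [Function.update_of_ne h]

/-- CHUNK C3h.  PROOF.  `vD i g (X (Sum.inl q)) = 0`, `vD i g (X (Sum.inr x)) = exG i g x` (`mkDerivation_X`), `exG i g ⟨i, α⟩ = g α`
(`Function.update_self`), `exG i g ⟨i', α⟩ = 0` for `i' ≠ i` (`Function.update_of_ne`).  Admissibility: by `cf_vG` the second sum is `0` (`bj e xG s q` is a
variable `X (Sum.inl _)`, `arc 0 = 0`), and `cf (vD i g) (vG e i')` is `Fx g ..` for `i' = i` and `0` for `i' ≠ i` (`Fx` of the zero family: unfold `Fx ev`).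
Weights: `0` or `g α`; `WtS.zero`. -/
theorem vD_mem [DecidableEq ι] {e : Co m ≃ Fin n} {c : ℕ} (i : ι) (g : Idx (m (sb i)) (dg i) → UG m sb dg n r)
    (hg : ∀ α, WtS c (g α))
    (hm : Fx g (bj e xG (sb i)) ∈ Ideal.span {vG e i, (Polynomial.X : Polynomial (UG m sb dg n r)) ^ (r + 1)}) :
    vD i g ∈ FldG (m := m) (sb := sb) (dg := dg) (r := r) e c := by
  refine ⟨fun i' => ?_, fun x => ?_⟩
  · rw [cf_vG]
    have h1 : ∑ b, Fdx b (fun α => (aG ⟨i', α⟩ : UG m sb dg n r)) (bj e xG (sb i')) *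
        arc (fun q => vD i g (bj e xG (sb i') q)) b = 0 := by
      refine Finset.sum_eq_zero fun b _ => ?_
      have h2 : (fun q => vD i g (bj e xG (sb i') q)) = fun _ : JV (m (sb i')) r => (0 : UG m sb dg n r) := by
        funext q
        exact c3_inl i g _
      have h3 : arc (fun _ : JV (m (sb i')) r => (0 : UG m sb dg n r)) b = 0 := by
        unfold arc
        refine Finset.sum_eq_zero fun l _ => ?_
        rw [Polynomial.C_0, zero_mul]
      rw [h2, h3, mul_zero]
    rw [h1, add_zero]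
    by_cases hi : i' = i
    · subst hi
      have h2 : (fun α => vD i' g (aG ⟨i', α⟩ : UG m sb dg n r)) = g := by
        funext α
        exact c3_inr_self i' g α
      rw [h2]
      exact hm
    · have h2 : (fun α => vD i g (aG ⟨i', α⟩ : UG m sb dg n r)) = fun _ => 0 := by
        funext α
        exact c3_inr_ne i g hi α
      have h3 : Fx (fun _ : Idx (m (sb i')) (dg i') => (0 : UG m sb dg n r)) (bj e xG (sb i')) = 0 := by
        unfold Fx ev
        refine Finset.sum_eq_zero fun l _ => ?_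
        change Polynomial.C 0 * _ = _
        rw [Polynomial.C_0, zero_mul]
      rw [h2, h3]
      exact Ideal.zero_mem _
  · rcases x with q | ⟨i', α⟩
    · rw [show (X (Sum.inl q) : UG m sb dg n r) = xG q from rfl, c3_inl]
      exact WtS.zero c
    · by_cases hi : i' = i
      · subst hi
        rw [show (X (Sum.inr ⟨i', α⟩) : UG m sb dg n r) = aG ⟨i', α⟩ from rfl, c3_inr_self]
        exact hg α
      · rw [show (X (Sum.inr ⟨i', α⟩) : UG m sb dg n r) = aG ⟨i', α⟩ from rfl, c3_inr_ne i g hi]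
        exact WtS.zero c

/-- CHUNK C3i.  PROOF.  `Submodule.subset_span` for the field `vD i g` (`vD_mem`); the values on the variables as in C3h. -/
theorem vD_val [DecidableEq ι] {e : Co m ≃ Fin n} {c : ℕ} (i : ι) (g : Idx (m (sb i)) (dg i) → UG m sb dg n r)
    (hg : ∀ α, WtS c (g α))
    (hm : Fx g (bj e xG (sb i)) ∈ Ideal.span {vG e i, (Polynomial.X : Polynomial (UG m sb dg n r)) ^ (r + 1)})
    (a : Cf m sb dg → ℂ) (ξ : JV n r → ℂ) (T : JV n r ⊕ Cf m sb dg → ℂ) (h1 : ∀ q, T (Sum.inl q) = 0)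
    (h2 : ∀ α, T (Sum.inr ⟨i, α⟩) = eval (Sum.elim ξ a) (g α)) (h3 : ∀ i' α, i' ≠ i → T (Sum.inr ⟨i', α⟩) = 0) :
    T ∈ SpG e c a ξ := by
  refine Submodule.subset_span ⟨vD i g, vD_mem i g hg hm, ?_⟩
  funext x
  rcases x with q | ⟨i', α⟩
  · change eval (Sum.elim ξ a) (vD i g (X (Sum.inl q))) = _
    rw [show (X (Sum.inl q) : UG m sb dg n r) = xG q from rfl, c3_inl, map_zero, h1]
  · change eval (Sum.elim ξ a) (vD i g (X (Sum.inr ⟨i', α⟩))) = _
    by_cases hi : i' = i
    · subst hi
      rw [show (X (Sum.inr ⟨i', α⟩) : UG m sb dg n r) = aG ⟨i', α⟩ from rfl, c3_inr_self, h2]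
    · rw [show (X (Sum.inr ⟨i', α⟩) : UG m sb dg n r) = aG ⟨i', α⟩ from rfl, c3_inr_ne i g hi, map_zero, h3 i' α hi]

end Pool.Agent.H89Y
end
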