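import Pool.Agent.Lib.H1M.PB.M039

/-! Merged copies (to shorten the build) of Lib.H49D.A1, Lib.H49D.A3, Lib.H49R.DD, Lib.H49D.B0. -/

-- from Lib.H49D.A1
section

set_option autoImplicit false

/-!
CHUNK A1 (M, many short lemmas).  Calculus of `Small` and `Aux`.
-/

open MvPolynomial Real MeasureTheory

namespace Pool.Agent.H49D

open Pool.Agent.H89T Pool.Agent.H78G Pool.Agent.H67T Pool.Agent.H53Y

variable {N : ℕ} {y : ℂ → Fin N → ℂ}

/-- CHUNK A1.  The constant function (`1 ≤ err y r R` is `H89T.NS2_err_ge`; `c ≤ |c| * err`;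
`circleAverage_const`). -/
theorem small_const (c : ℝ) : Small y fun _ => c := by
  refine ⟨fun _ => c, fun _ => le_rfl, fun r => circleIntegrable_const c 0 r, |c|, abs_nonneg c,
    fun r R _ _ => ?_⟩
  rw [circleAverage_const]
  exact (le_abs_self c).trans (le_mul_of_one_le_right (abs_nonneg c) (NS2_err_ge y r R))

/-- CHUNK A1.  Sum of the majorants (`circleAverage_add`, `CircleIntegrable.add`). -/
theorem Small.add {f g : ℂ → ℝ} (hf : Small y f) (hg : Small y g) :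
    Small y fun z => f z + g z := by
  obtain ⟨f', hf1, hf2, C, hC, hf3⟩ := hf
  obtain ⟨g', hg1, hg2, C', hC', hg3⟩ := hg
  refine ⟨fun z => f' z + g' z, fun z => add_le_add (hf1 z) (hg1 z),
    fun r => (hf2 r).add (hg2 r), C + C', add_nonneg hC hC', fun r R hr hR => ?_⟩
  rw [circleAverage_fun_add (hf2 r) (hg2 r), add_mul]
  exact add_le_add (hf3 r R hr hR) (hg3 r R hr hR)

/-- CHUNK A1.  Multiplication of the majorant by `a` (`circleAverage_const_smul` or the definition). -/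
theorem Small.smul {f : ℂ → ℝ} (a : ℕ) (hf : Small y f) : Small y fun z => (a : ℝ) * f z := by
  obtain ⟨f', hf1, hf2, C, hC, hf3⟩ := hf
  refine ⟨fun z => (a : ℝ) * f' z, fun z => mul_le_mul_of_nonneg_left (hf1 z) (Nat.cast_nonneg a),
    fun r => (NS2_mul (a : ℝ) ⟨hf2 r, rfl⟩).1, a * C, mul_nonneg (Nat.cast_nonneg a) hC,
    fun r R hr hR => ?_⟩
  rw [(NS2_mul (a : ℝ) (⟨hf2 r, rfl⟩ : NS2_Avg r f' _)).2, mul_assoc]
  exact mul_le_mul_of_nonneg_left (hf3 r R hr hR) (Nat.cast_nonneg a)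

/-- CHUNK A1.  Induction on the finite set (`small_const 0`, `Small.add`). -/
theorem Small.sum {κ : Type} (s : Finset κ) {f : κ → ℂ → ℝ} (hf : ∀ i ∈ s, Small y (f i)) :
    Small y fun z => ∑ i ∈ s, f i z := by
  classical
  induction s using Finset.induction_on with
  | empty =>
    simp only [Finset.sum_empty]
    exact small_const 0
  | insert i s hi ih =>
    simp only [Finset.sum_insert hi]
    exact (hf i (Finset.mem_insert_self i s)).add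
      (ih fun j hj => hf j (Finset.mem_insert_of_mem hj))

/-- CHUNK A1. -/
theorem Small.mono {f g : ℂ → ℝ} (hf : Small y f) (hle : ∀ z, g z ≤ f z) : Small y g := by
  obtain ⟨f', hf1, hf2⟩ := hf
  exact ⟨f', fun z => (hle z).trans (hf1 z), hf2⟩

/-- CHUNK A1. -/
theorem Aux.one : Aux y (fun _ => 1) (fun _ => 1) 0 0 := by
  refine ⟨⟨differentiable_const _, 0, one_ne_zero⟩, ⟨differentiable_const _, 0, one_ne_zero⟩,
    fun _ => 1, fun _ => 0, differentiable_const _, ⟨0, one_ne_zero⟩, small_const 0,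
    fun z _ => ?_⟩
  simp

theorem a1_mul_ne {f g : ℂ → ℂ} (hf : Differentiable ℂ f) (hf0 : ∃ z, f z ≠ 0)
    (hg : Differentiable ℂ g) (hg0 : ∃ z, g z ≠ 0) : ∃ z, f z * g z ≠ 0 := by
  obtain ⟨z, h1, h2⟩ := ((eventually_ne_of_entire hf hf0).and
    (eventually_ne_of_entire hg hg0)).exists
  exact ⟨z, mul_ne_zero h1 h2⟩

/-- CHUNK A1.  `G₀` is the product of the two `G₀`, of `E₁ E₂` and of `G₁ G₂` (not identically zero:
`H89T.eventually_ne_of_entire` for all factors); at the points with `G₀ ≠ 0` all logarithms of products are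
sums. -/
theorem Aux.mul {E₁ E₂ G₁ G₂ : ℂ → ℂ} {κ₁ κ₂ B₁ B₂ : ℕ} (h₁ : Aux y E₁ G₁ κ₁ B₁)
    (h₂ : Aux y E₂ G₂ κ₂ B₂) :
    Aux y (fun z => E₁ z * E₂ z) (fun z => G₁ z * G₂ z) (κ₁ + κ₂) (B₁ + B₂) := by
  obtain ⟨⟨hE1, hE1'⟩, ⟨hG1, hG1'⟩, F₁, f₁, hF1, hF1', hf1, hb1⟩ := h₁
  obtain ⟨⟨hE2, hE2'⟩, ⟨hG2, hG2'⟩, F₂, f₂, hF2, hF2', hf2, hb2⟩ := h₂
  have hE := a1_mul_ne hE1 hE1' hE2 hE2'
  have hG := a1_mul_ne hG1 hG1' hG2 hG2'
  have hF := a1_mul_ne hF1 hF1' hF2 hF2'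
  have hEd := hE1.fun_mul hE2
  have hGd := hG1.fun_mul hG2
  have hFd := hF1.fun_mul hF2
  refine ⟨⟨hEd, hE⟩, ⟨hGd, hG⟩, fun z => (F₁ z * F₂ z) * ((E₁ z * E₂ z) * (G₁ z * G₂ z)),
    fun z => f₁ z + f₂ z, hFd.fun_mul (hEd.fun_mul hGd),
    a1_mul_ne hFd hF (hEd.fun_mul hGd) (a1_mul_ne hEd hE hGd hG), hf1.add hf2, fun z hz => ?_⟩
  simp only [ne_eq, mul_eq_zero, not_or] at hz
  obtain ⟨⟨hz1, hz2⟩, ⟨hz3, hz4⟩, hz5, hz6⟩ := hz
  have h1 := hb1 z hz1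
  have h2 := hb2 z hz2
  rw [norm_mul, norm_mul, Real.log_mul (norm_ne_zero_iff.2 hz3) (norm_ne_zero_iff.2 hz4),
    Real.log_mul (norm_ne_zero_iff.2 hz5) (norm_ne_zero_iff.2 hz6)]
  push_cast
  linarith

/-- CHUNK A1.  Induction on the finite set (`Aux.one`, `Aux.mul`). -/
theorem Aux.prod {κ : Type} (s : Finset κ) {E G : κ → ℂ → ℂ} {a b : κ → ℕ}
    (h : ∀ i ∈ s, Aux y (E i) (G i) (a i) (b i)) :
    Aux y (fun z => ∏ i ∈ s, E i z) (fun z => ∏ i ∈ s, G i z) (∑ i ∈ s, a i) (∑ i ∈ s, b i) := by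
  classical
  induction s using Finset.induction_on with
  | empty =>
    simp only [Finset.prod_empty, Finset.sum_empty]
    exact Aux.one
  | insert i s hi ih =>
    simp only [Finset.prod_insert hi, Finset.sum_insert hi]
    exact (h i (Finset.mem_insert_self i s)).mul
      (ih fun j hj => h j (Finset.mem_insert_of_mem hj))

/-- CHUNK A1.  Induction on `a` or `log (x ^ a) = a * log x`. -/
theorem Aux.pow {E G : ℂ → ℂ} {κ B : ℕ} (h : Aux y E G κ B) (a : ℕ) :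
    Aux y (fun z => E z ^ a) (fun z => G z ^ a) (a * κ) (a * B) := by
  induction a with
  | zero =>
    simp only [pow_zero, zero_mul]
    exact Aux.one
  | succ a ih =>
    simp only [pow_succ, Nat.succ_mul]
    exact ih.mul h

end Pool.Agent.H49D
end

-- from Lib.H49D.A3
section

set_option autoImplicit false

/-!
CHUNK A3 (M).  The logarithms of the sums of logarithmic derivatives are small.
-/

open MvPolynomial Real MeasureTheory

namespace Pool.Agent.H49D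

open Pool.Agent.H89T Pool.Agent.H78G Pool.Agent.H67T Pool.Agent.H53Y

/-- CHUNK A3.  `D1_log_LamG` (`H78G/D1.lean`) bounds `log (LamG ..)` by a constant plus a finite sum of
functions `log⁺ ‖iteratedDeriv l (G / H) / (G / H)‖`, `G = w_j` or `lin θ_i (w)`, `H = w_c`.  Each is circle
integrable (`circleIntegrable_quo`) with small averages (`quo_avg hy`, with `k := e`: all these
functions are bounded by `A' * ‖y z‖ ^ e`, see the beginning of the proof of `core_abs`, `NS2_lin_le`,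
`NS2_lin_diff`).  Then `Small.add`, `Small.sum`, `small_const`, `Small.mono`. -/
theorem small_LamG {N : ℕ} {y : ℂ → Fin N → ℂ} (hy : IsHol y) {m e : ℕ}
    {w : ℂ → Fin (m + 1) → ℂ} (hw : ∀ j, Differentiable ℂ fun z => w z j)
    (hw0 : ∀ c, ∃ z, w z c ≠ 0) (hle : ∃ A : ℝ, ∀ z, ‖w z‖ ≤ A * ‖y z‖ ^ e) {ι : Type}
    [Fintype ι] {θ : ι → Fin (m + 1) → ℂ} (hθ0 : ∀ i, ∃ z, lin (θ i) (w z) ≠ 0) (L : ℕ) :
    Small y fun z => log (LamG w θ L z) := by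
  classical
  obtain ⟨K, hK, hLam⟩ := D1_log_LamG w θ L
  obtain ⟨A0, hA0⟩ := hle
  obtain ⟨T, hT⟩ : ∃ T : ℝ, T = 1 + ∑ i, ∑ j, ‖θ i j‖ := ⟨_, rfl⟩
  have hT0 : 0 ≤ ∑ i, ∑ j, ‖θ i j‖ :=
    Finset.sum_nonneg fun _ _ => Finset.sum_nonneg fun _ _ => norm_nonneg _
  have hT1 : 1 ≤ T := by
    rw [hT]
    linarith
  obtain ⟨A, hA⟩ : ∃ A : ℝ, A = T * max 1 A0 := ⟨_, rfl⟩
  have hm1 : 1 ≤ max 1 A0 := le_max_left _ _
  have hA1 : 1 ≤ A := by
    rw [hA]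
    nlinarith
  have hw1 : ∀ z, ‖w z‖ ≤ max 1 A0 * ‖y z‖ ^ e := fun z =>
    (hA0 z).trans (mul_le_mul_of_nonneg_right (le_max_right _ _) (by positivity))
  have hwA : ∀ j z, ‖w z j‖ ≤ A * ‖y z‖ ^ e := by
    intro j z
    refine ((norm_le_pi_norm (w z) j).trans (hw1 z)).trans ?_
    refine mul_le_mul_of_nonneg_right ?_ (by positivity)
    rw [hA]
    nlinarith
  have hlA : ∀ i z, ‖lin (θ i) (w z)‖ ≤ A * ‖y z‖ ^ e := by
    intro i z
    have h1 : ∑ j, ‖θ i j‖ ≤ T := by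
      have h : ∑ j, ‖θ i j‖ ≤ ∑ i, ∑ j, ‖θ i j‖ :=
        Finset.single_le_sum (f := fun i => ∑ j, ‖θ i j‖)
          (fun _ _ => Finset.sum_nonneg fun _ _ => norm_nonneg _) (Finset.mem_univ i)
      rw [hT]
      linarith
    calc ‖lin (θ i) (w z)‖ ≤ (∑ j, ‖θ i j‖) * ‖w z‖ := NS2_lin_le _ _
      _ ≤ T * (max 1 A0 * ‖y z‖ ^ e) :=
          mul_le_mul h1 (hw1 z) (norm_nonneg _) (by linarith)
      _ = A * ‖y z‖ ^ e := by rw [hA, mul_assoc]
  have hld : ∀ i, Differentiable ℂ (fun z => lin (θ i) (w z)) := fun i => NS2_lin_diff _ hw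
  have hs1 : Small y fun z => ∑ p : Fin (m + 1) × Fin (m + 1) × Fin (L + 1),
      log⁺ ‖iteratedDeriv (p.2.2 : ℕ) (fun v => w v p.2.1 / w v p.1) z /
        (w z p.2.1 / w z p.1)‖ :=
    Small.sum Finset.univ (f := fun (p : Fin (m + 1) × Fin (m + 1) × Fin (L + 1)) z =>
      log⁺ ‖iteratedDeriv (p.2.2 : ℕ) (fun v => w v p.2.1 / w v p.1) z /
        (w z p.2.1 / w z p.1)‖) fun p _ =>
      ⟨_, fun z => le_rfl, circleIntegrable_quo (hw p.2.1) (hw p.1) (hw0 _) _,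
        quo_avg hy (hw p.2.1) (hw p.1) (hw0 _) (hw0 _) hA1 (hwA p.2.1) (hwA p.1) _⟩
  have hs2 : Small y fun z => ∑ p : Fin (m + 1) × ι × Fin (L + 1),
      log⁺ ‖iteratedDeriv (p.2.2 : ℕ) (fun v => lin (θ p.2.1) (w v) / w v p.1) z /
        (lin (θ p.2.1) (w z) / w z p.1)‖ :=
    Small.sum Finset.univ (f := fun (p : Fin (m + 1) × ι × Fin (L + 1)) z =>
      log⁺ ‖iteratedDeriv (p.2.2 : ℕ) (fun v => lin (θ p.2.1) (w v) / w v p.1) z /
        (lin (θ p.2.1) (w z) / w z p.1)‖) fun p _ =>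
      ⟨_, fun z => le_rfl, circleIntegrable_quo (hld p.2.1) (hw p.1) (hw0 _) _,
        quo_avg hy (hld p.2.1) (hw p.1) (hθ0 _) (hw0 _) hA1 (hlA p.2.1) (hwA p.1) _⟩
  exact ((small_const K).add (hs1.add hs2)).mono hLam

/-- CHUNK A3.  The same with `DG_log_Lam` (`H89T/DG.lean`): `G = w_j`, `H = w_c` (bounded by
`A ‖y‖ ^ e`) and `G = F (w)`, `H = w_c ^ k` (bounded by `A ‖w‖ ^ k ≤ A' ‖y‖ ^ (e k)`, `D.hFle`); see the
beginning of the proof of `H89T.core`. -/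
theorem small_Lam {N : ℕ} {y : ℂ → Fin N → ℂ} (hy : IsHol y) {m k e : ℕ} (D : CurveData m k)
    (hle : ∃ A : ℝ, ∀ z, ‖D.y z‖ ≤ A * ‖y z‖ ^ e) (L : ℕ) :
    Small y fun z => log (Lam D.y D.Fy k L z) := by
  classical
  obtain ⟨K, hK, hLam⟩ := DG_log_Lam D.y D.Fy k L
  obtain ⟨A0, hA0⟩ := hle
  obtain ⟨A', hA'⟩ := D.hFle
  have hyd := D.hy.diff
  have hm1 : 1 ≤ max 1 A0 := le_max_left _ _
  have hm2 : 1 ≤ max 1 A' := le_max_left _ _
  have hmk : 1 ≤ max 1 A0 ^ k := one_le_pow₀ hm1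
  obtain ⟨A, hA⟩ : ∃ A : ℝ, A = max 1 A' * (max 1 A0 ^ k) := ⟨_, rfl⟩
  have hA1 : 1 ≤ A := by
    rw [hA]
    nlinarith
  have hw1 : ∀ z, ‖D.y z‖ ≤ max 1 A0 * ‖y z‖ ^ e := fun z =>
    (hA0 z).trans (mul_le_mul_of_nonneg_right (le_max_right _ _) (by positivity))
  have hwk : ∀ z, ‖D.y z‖ ^ k ≤ max 1 A0 ^ k * ‖y z‖ ^ (e * k) := fun z => by
    calc ‖D.y z‖ ^ k ≤ (max 1 A0 * ‖y z‖ ^ e) ^ k := pow_le_pow_left₀ (norm_nonneg _) (hw1 z) k
      _ = max 1 A0 ^ k * ‖y z‖ ^ (e * k) := by rw [mul_pow, pow_mul]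
  have hFA : ∀ z, ‖D.Fy z‖ ≤ A * ‖y z‖ ^ (e * k) := fun z => by
    calc ‖D.Fy z‖ ≤ A' * ‖D.y z‖ ^ k := hA' z
      _ ≤ max 1 A' * (max 1 A0 ^ k * ‖y z‖ ^ (e * k)) :=
          mul_le_mul (le_max_right _ _) (hwk z) (by positivity) (by linarith)
      _ = A * ‖y z‖ ^ (e * k) := by rw [hA, mul_assoc]
  have hykA : ∀ j z, ‖D.y z j ^ k‖ ≤ A * ‖y z‖ ^ (e * k) := by
    intro j z
    rw [norm_pow]
    refine ((pow_le_pow_left₀ (norm_nonneg _) (norm_le_pi_norm (D.y z) j) k).trans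
      (hwk z)).trans ?_
    refine mul_le_mul_of_nonneg_right ?_ (by positivity)
    rw [hA]
    exact le_mul_of_one_le_left (by positivity) hm2
  have hyA : ∀ j z, ‖D.y z j‖ ≤ max 1 A0 * ‖y z‖ ^ e := fun j z =>
    (norm_le_pi_norm (D.y z) j).trans (hw1 z)
  have hykd : ∀ j, Differentiable ℂ fun z => D.y z j ^ k := fun j => (hyd j).fun_pow k
  have hyk0 : ∀ j, ∃ z, D.y z j ^ k ≠ 0 := by
    intro j
    obtain ⟨z, hz⟩ := D.hy0 j
    exact ⟨z, pow_ne_zero _ hz⟩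
  have hs1 : Small y fun z => ∑ p : Fin (m + 1) × Fin m × Fin (L + 1),
      log⁺ ‖iteratedDeriv (p.2.2 : ℕ) (fun w => D.y w (p.1.succAbove p.2.1) / D.y w p.1) z /
        (D.y z (p.1.succAbove p.2.1) / D.y z p.1)‖ :=
    Small.sum Finset.univ (f := fun (p : Fin (m + 1) × Fin m × Fin (L + 1)) z =>
      log⁺ ‖iteratedDeriv (p.2.2 : ℕ) (fun w => D.y w (p.1.succAbove p.2.1) / D.y w p.1) z /
        (D.y z (p.1.succAbove p.2.1) / D.y z p.1)‖) fun p _ =>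
      ⟨_, fun z => le_rfl, circleIntegrable_quo (hyd (p.1.succAbove p.2.1)) (hyd p.1) (D.hy0 _) _,
        quo_avg hy (hyd (p.1.succAbove p.2.1)) (hyd p.1) (D.hy0 _) (D.hy0 _) hm1
          (hyA (p.1.succAbove p.2.1)) (hyA p.1) _⟩
  have hs2 : Small y fun z => ∑ p : Fin (m + 1) × Fin (L + 1),
      log⁺ ‖iteratedDeriv (p.2 : ℕ) (fun w => D.Fy w / D.y w p.1 ^ k) z /
        (D.Fy z / D.y z p.1 ^ k)‖ :=
    Small.sum Finset.univ (f := fun (p : Fin (m + 1) × Fin (L + 1)) z =>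
      log⁺ ‖iteratedDeriv (p.2 : ℕ) (fun w => D.Fy w / D.y w p.1 ^ k) z /
        (D.Fy z / D.y z p.1 ^ k)‖) fun p _ =>
      ⟨_, fun z => le_rfl, circleIntegrable_quo D.hF (hykd p.1) (hyk0 p.1) _,
        quo_avg hy D.hF (hykd p.1) D.hF0 (hyk0 p.1) hA1 hFA (hykA p.1) _⟩
  exact ((small_const K).add (hs1.add hs2)).mono hLam

end Pool.Agent.H49D
end

-- from Lib.H49R.DD
section

set_option autoImplicit false

/-!
# H49R: module D (one curve in every block) of H53R (second main theorem on products)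

Port of `Lib/H49D` from one curve `y` to independent curves `w s` in the blocks.  `SmallP w h`: `h` is
bounded above by a function all of whose averages over circles are at most a constant times the sum
of the error terms.  `AuxP w E G κ B`: the auxiliary function `E` satisfies
`|E| ∏ |w s| ^ (κ s) ≤ |G| ∏ |w s| ^ (B s) exp h` outside the zeros of an entire function, `h` small.
-/

open MvPolynomial Real MeasureTheory

namespace Pool.Agent.H49R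

open Pool.Agent.H89T Pool.Agent.H78G Pool.Agent.H67T Pool.Agent.H53Y Pool.Agent.H49D Pool.Agent.H53R

section Aux

variable {β : Type} [Fintype β] {m : β → ℕ}

/-- `h` is bounded above by a circle integrable function with small averages. -/
def SmallP (w : (s : β) → ℂ → Fin (m s + 1) → ℂ) (h : ℂ → ℝ) : Prop :=
  ∃ g : ℂ → ℝ, (∀ z, h z ≤ g z) ∧ (∀ r, CircleIntegrable g 0 r) ∧
    ∃ C : ℝ, 0 ≤ C ∧ ∀ r R : ℝ, 1 ≤ r → r < R → circleAverage g 0 r ≤ C * ∑ s, err (w s) r R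

/-- The auxiliary function `E` for the function `G`. -/
def AuxP (w : (s : β) → ℂ → Fin (m s + 1) → ℂ) (E G : ℂ → ℂ) (κ B : β → ℕ) : Prop :=
  (Differentiable ℂ E ∧ ∃ z, E z ≠ 0) ∧ (Differentiable ℂ G ∧ ∃ z, G z ≠ 0) ∧
    ∃ (G₀ : ℂ → ℂ) (h : ℂ → ℝ), Differentiable ℂ G₀ ∧ (∃ z, G₀ z ≠ 0) ∧ SmallP w h ∧
      ∀ z, G₀ z ≠ 0 → log ‖E z‖ + ∑ s, (κ s : ℝ) * log ‖w s z‖ ≤
        log ‖G z‖ + ∑ s, (B s : ℝ) * log ‖w s z‖ + h z

end Aux

section QM

variable {β : Type} [Fintype β] [DecidableEq β] {m : β → ℕ} {ι : Type} [Fintype ι]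
variable {sb : ι → β} {dg : ι → ℕ} {n r : ℕ}

/-- The entire function `∏ s, (w s)_0 ^ (M s) * P (jet of all affine coordinates in the charts 0)`, for
`P` of weight at most `M s` in the jets of the block `s`. -/
noncomputable def QMB (D : CurveW m ι sb dg) (e : Co m ≃ Fin n) (M : β → ℕ)
    (P : MvPolynomial (JV n r) ℂ) (z : ℂ) : ℂ :=
  ∑ μ ∈ P.support, P.coeff μ * (∏ s, D.w s z 0 ^ (M s - wtb e s μ)) *
    ∏ p : JV n r, eta (D.w (e.symm p.1).1) 0 (e.symm p.1).2 (p.2 : ℕ) z ^ μ p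

end QM

end Pool.Agent.H49R
end

-- from Lib.H49D.B0
section

set_option autoImplicit false

/-!
CHUNK B0 (S/M).  From a pointwise bound in terms of `w` to `Aux` in terms of `y`
(`δ ‖y‖ ^ e ≤ ‖w‖ ≤ A ‖y‖ ^ e`).
-/

open MvPolynomial Real MeasureTheory

namespace Pool.Agent.H49D

open Pool.Agent.H89T Pool.Agent.H78G Pool.Agent.H67T Pool.Agent.H53Y

/-- CHUNK B0 (S).  Products of entire functions which are not identically zero
(`H89T.eventually_ne_of_entire`, see `hF0'` in the proof of `H78G.core_abs`). -/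
theorem exists_mul_ne {f g : ℂ → ℂ} (hf : Differentiable ℂ f) (hf0 : ∃ z, f z ≠ 0)
    (hg : Differentiable ℂ g) (hg0 : ∃ z, g z ≠ 0) : ∃ z, f z * g z ≠ 0 := by
  obtain ⟨z, h1, h2⟩ := ((eventually_ne_of_entire hf hf0).and
    (eventually_ne_of_entire hg hg0)).exists
  exact ⟨z, mul_ne_zero h1 h2⟩

/-- CHUNK B0 (S).  Finite products of entire functions which are not identically zero. -/
theorem exists_prod_ne {κ : Type} (s : Finset κ) {f : κ → ℂ → ℂ}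
    (hf : ∀ i ∈ s, Differentiable ℂ (f i)) (hf0 : ∀ i ∈ s, ∃ z, f i z ≠ 0) :
    ∃ z, ∏ i ∈ s, f i z ≠ 0 := by
  have h : ∀ᶠ z in nhdsWithin (0 : ℂ) {0}ᶜ, ∀ i ∈ s, f i z ≠ 0 :=
    (Filter.eventually_all_finset s).2 fun i hi => eventually_ne_of_entire (hf i hi) (hf0 i hi)
  obtain ⟨z, hz⟩ := h.exists
  exact ⟨z, Finset.prod_ne_zero_iff.2 hz⟩

/-- CHUNK B0 (S/M).  Take `G₀ * (E * G)` as the new exceptional function, `C' = max 1 C`,
`A' = max 1 A`.  Where it is not `0`, `‖y z‖ > 0`, `‖w z‖ ≥ δ ‖y z‖ ^ e > 0`, all logarithms of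
products are sums, and
`a * log ‖w‖ ≥ a * (log δ + e * log ‖y‖)`, `b * log ‖w‖ ≤ b * (log A' + e * log ‖y‖)`; so
`log ‖E‖ + (e * a) log ‖y‖ ≤ log ‖G‖ + (e * b) log ‖y‖ + (log C' - a log δ + b log A' + q log Λ)`, and the
last bracket is small (`small_const`, `Small.smul`, `Small.add`). -/
theorem aux_of_bound {N m : ℕ} {y : ℂ → Fin N → ℂ} {w : ℂ → Fin m → ℂ} {E G G₀ : ℂ → ℂ}
    {Λ : ℂ → ℝ} {e a b q : ℕ} {C : ℝ} (hy : IsHol y) (hE : Differentiable ℂ E) (hE0 : ∃ z, E z ≠ 0)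
    (hG : Differentiable ℂ G) (hG0 : ∃ z, G z ≠ 0) (hG₀ : Differentiable ℂ G₀)
    (hG₀0 : ∃ z, G₀ z ≠ 0) (hle : ∃ A : ℝ, ∀ z, ‖w z‖ ≤ A * ‖y z‖ ^ e)
    (hge : ∃ δ : ℝ, 0 < δ ∧ ∀ z, δ * ‖y z‖ ^ e ≤ ‖w z‖) (hΛ1 : ∀ z, 1 ≤ Λ z)
    (hΛ : Small y fun z => log (Λ z))
    (h : ∀ z, G₀ z ≠ 0 → ‖E z‖ * ‖w z‖ ^ a ≤ C * ‖G z‖ * ‖w z‖ ^ b * Λ z ^ q) :
    Aux y E G (e * a) (e * b) := by
  obtain ⟨A, hA⟩ := hle
  obtain ⟨δ, hδ, hδw⟩ := hge
  have hEG := hE.fun_mul hG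
  have hEG0 := exists_mul_ne hE hE0 hG hG0
  refine ⟨⟨hE, hE0⟩, ⟨hG, hG0⟩, fun z => G₀ z * (E z * G z),
    fun z => (log (max 1 C) - a * log δ + b * log (max 1 A)) + (q : ℝ) * log (Λ z),
    hG₀.fun_mul hEG, exists_mul_ne hG₀ hG₀0 hEG hEG0,
    (small_const _).add (hΛ.smul q), fun z hz => ?_⟩
  simp only [ne_eq, mul_eq_zero, not_or] at hz
  obtain ⟨hz1, hz2, hz3⟩ := hz
  have hY : 0 < ‖y z‖ := norm_pos_iff.2 (hy.ne_zero z)
  have hYe : 0 < ‖y z‖ ^ e := pow_pos hY e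
  have hW1 := hδw z
  have hW : 0 < ‖w z‖ := lt_of_lt_of_le (mul_pos hδ hYe) hW1
  have hE' : 0 < ‖E z‖ := norm_pos_iff.2 hz2
  have hG' : 0 < ‖G z‖ := norm_pos_iff.2 hz3
  have hΛ0 : 0 < Λ z := lt_of_lt_of_le one_pos (hΛ1 z)
  have hC1 : (0 : ℝ) < max 1 C := lt_of_lt_of_le one_pos (le_max_left _ _)
  have hA1 : (0 : ℝ) < max 1 A := lt_of_lt_of_le one_pos (le_max_left _ _)
  have hW2 : ‖w z‖ ≤ max 1 A * ‖y z‖ ^ e :=
    (hA z).trans (mul_le_mul_of_nonneg_right (le_max_right _ _) hYe.le)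
  have h1 : ‖E z‖ * ‖w z‖ ^ a ≤ max 1 C * ‖G z‖ * ‖w z‖ ^ b * Λ z ^ q := by
    refine (h z hz1).trans ?_
    have h3 : C ≤ max 1 C := le_max_right _ _
    gcongr
  have h3 := Real.log_le_log (by positivity) h1
  rw [Real.log_mul hE'.ne' (by positivity), Real.log_pow,
    Real.log_mul (by positivity) (by positivity), Real.log_mul (by positivity) (by positivity),
    Real.log_mul (by positivity) (by positivity), Real.log_pow, Real.log_pow] at h3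
  have h4 := Real.log_le_log (mul_pos hδ hYe) hW1
  rw [Real.log_mul hδ.ne' hYe.ne', Real.log_pow] at h4
  have h5 := Real.log_le_log hW hW2
  rw [Real.log_mul hA1.ne' hYe.ne', Real.log_pow] at h5
  have h6 := mul_le_mul_of_nonneg_left h4 (Nat.cast_nonneg (α := ℝ) a)
  have h7 := mul_le_mul_of_nonneg_left h5 (Nat.cast_nonneg (α := ℝ) b)
  push_cast
  nlinarith [h3, h6, h7]

end Pool.Agent.H49D
end
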