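import Pool.Agent.Lib.H1M.PB.M039

/-! Merged copies (to shorten the build) of Lib.H49D.O1, Lib.H49D.T2, Lib.H49D.W1, Lib.H49D.T1, Lib.H49D.W0. -/

-- from Lib.H49D.O1
section

set_option autoImplicit false

/-!
CHUNK O1 (M, adapt `order_propA` of `H89T/DA3.lean`).  The order of the operator at crossings and tangencies.
-/

open MvPolynomial Real MeasureTheory

namespace Pool.Agent.H49D

open Pool.Agent.H89T Pool.Agent.H78G Pool.Agent.H67T Pool.Agent.H53Y

/-- CHUNK O1 (S).  The value at a jet (`uu_map` as in `eval_uR`; `bj` of the variables). -/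
theorem eval_us {β : Type} [DecidableEq β] {m : β → ℕ} {n r : ℕ} {ι : Type} {sb : ι → β}
    {dg : ι → ℕ} (e : Co m ≃ Fin n) (a : Cf m sb dg → ℂ) (i : ι) (l : ℕ) (ξ : JV n r → ℂ) :
    eval ξ (us e a i l) = eval (bj e ξ (sb i)) (uR (fun α => a ⟨i, α⟩) l) := by
  unfold us
  rw [uu_map, eval_uR]
  simp only [eval_C]
  congr 1
  funext p
  simp [bj]

/-- CHUNK O1 (S/M).  The generator `u 0` at a zero (order at least one is enough): copy of
`order_uR_xhat`, only the coordinates of order `0` matter. -/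
theorem order_uR_xhat_zero {n k r : ℕ} (a : Idx n k → ℂ) {f : ℂ → Fin n → ℂ} {z₀ : ℂ}
    (hf : ∀ b, AnalyticAt ℂ (fun w => f w b) z₀) (h0 : ev a (f z₀) = 0) :
    (r : ℕ∞) ≤ analyticOrderAt (fun z => eval (shift (z₀ - z) (jetf r f z)) (uR a 0)) z₀ := by
  have hone0 : ((0 : Fin (r + 1)) : ℕ) = 0 := rfl
  set v : ℂ → JV n r → ℂ := fun z p => if (p.2 : ℕ) = 0 then f z₀ p.1 else
    shift (z₀ - z) (jetf r f z) p with hv
  have hval : ∀ z, eval (v z) (uR a 0) = 0 := by
    intro z
    rw [eval_uR, uu_zero]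
    exact h0
  have hvan : ∀ p, AnalyticAt ℂ (fun z => v z p) z₀ := by
    intro p
    by_cases hp : (p.2 : ℕ) = 0
    · simp only [hv, hp, if_true]
      exact analyticAt_const
    · simp only [hv, hp, if_false]
      exact analyticAt_xhat r hf p
  have h5 := le_order_eval_sub (uR a 0) (z₀ := z₀) (m := (r : ℕ∞))
    (x := fun z => shift (z₀ - z) (jetf r f z)) (y := v) (analyticAt_xhat r hf) hvan ?_
  · simp only [hval, sub_zero] at h5
    exact h5
  · rintro ⟨b, l⟩
    rcases Nat.eq_zero_or_pos (l : ℕ) with hl | hl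
    · have hl0 : l = 0 := Fin.ext (by rw [hone0]; omega)
      subst hl0
      have h6 := xhat_zero r hf b
      have h7 : (fun z => shift (z₀ - z) (jetf r f z) (b, 0) - v z (b, 0)) =
          fun z => shift (z₀ - z) (jetf r f z) (b, 0) - f z₀ b := by
        funext z
        simp [hv]
      rw [h7]
      refine le_trans ?_ h6
      exact_mod_cast Nat.le_succ r
    · have h7 : (fun z => shift (z₀ - z) (jetf r f z) (b, l) - v z (b, l)) =
          fun _ => 0 := by
        funext z
        have h8 : ¬ ((l : ℕ) = 0) := by omega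
        simp only [hv, h8, if_false, sub_self]
      rw [h7, order_zero_fun]
      exact le_top

theorem o1_gen {n r : ℕ} {P g₁ g₂ : MvPolynomial (JV n r) ℂ} (hr : 1 ≤ r)
    (hP : ∀ l < r, (NN n r ℂ)^[l] P ∈ Ideal.span {g₁, g₂}) {f : ℂ → Fin n → ℂ} {z₀ : ℂ}
    (hf : ∀ b, AnalyticAt ℂ (fun w => f w b) z₀)
    (h1 : (r : ℕ∞) ≤ analyticOrderAt (fun z => eval (shift (z₀ - z) (jetf r f z)) g₁) z₀)
    (h2 : (r : ℕ∞) ≤ analyticOrderAt (fun z => eval (shift (z₀ - z) (jetf r f z)) g₂) z₀) :
    (r : ℕ∞) ≤ analyticOrderAt (fun z => eval (jetf r f z) P) z₀ := by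
  have hx := analyticAt_xhat r hf
  have hev : ∀ Q : MvPolynomial (JV n r) ℂ,
      AnalyticAt ℂ (fun z => eval (shift (z₀ - z) (jetf r f z)) Q) z₀ :=
    fun Q => analyticAt_eval Q hx
  have hlin : AnalyticAt ℂ (fun z : ℂ => z - z₀) z₀ := analyticAt_id.sub analyticAt_const
  obtain ⟨R, hR⟩ := eval_shift P r
  have h3 : (fun z => eval (jetf r f z) P) = (fun z => ∑ i ∈ Finset.range r,
      (eval (shift (z₀ - z) (jetf r f z)) ((NN n r ℂ)^[i] P) *
        ((z - z₀) ^ i / (i.factorial : ℂ)))) +
      fun z => (z - z₀) ^ r *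
        (R.map (eval (shift (z₀ - z) (jetf r f z)))).eval (z - z₀) := by
    funext z
    have h4 := hR (z - z₀) (shift (z₀ - z) (jetf r f z))
    rw [shift_shift] at h4
    have h5 : z - z₀ + (z₀ - z) = 0 := by ring
    rw [h5, shift_zero] at h4
    rw [h4, Pi.add_apply]
    congr 1
    exact Finset.sum_congr rfl fun i _ => mul_comm _ _
  rw [h3]
  refine (le_min ?_ ?_).trans le_analyticOrderAt_add
  · apply le_order_sum
    intro i hi
    have h6 : (r : ℕ∞) ≤ analyticOrderAt
        (fun z => eval (shift (z₀ - z) (jetf r f z)) ((NN n r ℂ)^[i] P)) z₀ := by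
      obtain ⟨A, B, hAB⟩ := Ideal.mem_span_pair.1 (hP i (Finset.mem_range.1 hi))
      rw [← hAB]
      simp only [map_add, map_mul]
      refine (le_min ?_ ?_).trans le_analyticOrderAt_add
      · have := le_order_mul h1 (hev _) (hev A)
        simpa only [mul_comm] using this
      · have := le_order_mul h2 (hev _) (hev B)
        simpa only [mul_comm] using this
    exact le_order_mul h6 (hev _) ((hlin.pow i).div_const)
  · have h7 : AnalyticAt ℂ (fun z => (R.map (eval (shift (z₀ - z) (jetf r f z)))).eval (z - z₀))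
        z₀ := by
      have h8 : (fun z => (R.map (eval (shift (z₀ - z) (jetf r f z)))).eval (z - z₀)) =
          fun z => ∑ i ∈ R.support, eval (shift (z₀ - z) (jetf r f z)) (R.coeff i) *
            (z - z₀) ^ i := by
        funext z
        rw [Polynomial.eval_map, Polynomial.eval₂_eq_sum, Polynomial.sum_def]
      rw [h8]
      apply Finset.analyticAt_fun_sum
      intro i _
      exact (hev _).mul (hlin.pow i)
    refine le_order_mul ?_ (hlin.pow r) h7
    have h9 := analyticOrderAt_pow hlin r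
    have h10 : analyticOrderAt (fun z : ℂ => (z - z₀) ^ r) z₀ =
        analyticOrderAt ((fun z : ℂ => z - z₀) ^ r) z₀ := rfl
    rw [h10, h9]
    have h11 : analyticOrderAt (fun z : ℂ => z - z₀) z₀ = 1 := analyticOrderAt_id_sub_const_self
    rw [h11]
    simp

/-- CHUNK O1 (M).  Proof of `order_propA` word by word: `hP l hl i i'` gives
`NN^[l] P = A * us e a i 0 + B * us e a i 1` (tangency, `i = i'`) or
`A * us e a i 0 + B * us e a i' 0` (crossing), and the generators have order at least `r` on the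
transported jets: `eval_us`, the block of the transported jet of `f` is the transported jet of the
block of `f`, `order_uR_xhat`, `order_uR_xhat_zero`. -/
theorem order_propG {β : Type} [DecidableEq β] {m : β → ℕ} {n r : ℕ} {ι : Type} [DecidableEq ι]
    {sb : ι → β} {dg : ι → ℕ} (e : Co m ≃ Fin n) {a : Cf m sb dg → ℂ}
    {P : MvPolynomial (JV n r) ℂ} (hr : 1 ≤ r) (hP : PropG e a r P) {f : ℂ → Fin n → ℂ} {z₀ : ℂ}
    (hf : ∀ b, AnalyticAt ℂ (fun w => f w b) z₀)
    (h : (∃ i, 2 ≤ analyticOrderAt (fun w => fv e a (f w) i) z₀) ∨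
      ∃ i i', i ≠ i' ∧ fv e a (f z₀) i = 0 ∧ fv e a (f z₀) i' = 0) :
    (r : ℕ∞) ≤ analyticOrderAt (fun z => eval (jetf r f z) P) z₀ := by
  have hfs : ∀ s b, AnalyticAt ℂ (fun w => bx e (f w) s b) z₀ := fun s b => hf _
  have hus : ∀ i l, (fun z => eval (shift (z₀ - z) (jetf r f z)) (us e a i l)) =
      fun z => eval (shift (z₀ - z) (jetf r (fun w => bx e (f w) (sb i)) z)) (uR (fun α => a ⟨i, α⟩) l) := by
    intro i l
    funext z
    rw [eval_us]
    rfl
  rcases h with ⟨i, h2⟩ | ⟨i, i', hne, h1, h2⟩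
  · refine o1_gen (g₁ := us e a i 0) (g₂ := us e a i 1) hr (fun l hl => ?_) hf ?_ ?_
    · have h3 := hP l hl i i
      rwa [IG, if_pos rfl] at h3
    · rw [hus]
      exact order_uR_xhat _ (hfs (sb i)) h2 hr 0 (by norm_num)
    · rw [hus]
      exact order_uR_xhat _ (hfs (sb i)) h2 hr 1 (by norm_num)
  · refine o1_gen (g₁ := us e a i 0) (g₂ := us e a i' 0) hr (fun l hl => ?_) hf ?_ ?_
    · have h3 := hP l hl i i'
      rwa [IG, if_neg hne] at h3
    · rw [hus]
      exact order_uR_xhat_zero _ (hfs (sb i)) h1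
    · rw [hus]
      exact order_uR_xhat_zero _ (hfs (sb i')) h2

end Pool.Agent.H49D
end

-- from Lib.H49D.T2
section

set_option autoImplicit false

/-!
CHUNK T2 (M, adapt `aux_order` of `H78G/D7A.lean`).  The order of the product of all auxiliary functions.
-/

open MvPolynomial Real MeasureTheory

namespace Pool.Agent.H49D

open Pool.Agent.H89T Pool.Agent.H78G Pool.Agent.H67T Pool.Agent.H53Y

/-- CHUNK T2 (M).  Let `ν i = ord_z φ_i` (finite: `NJ1_ne_top`, see the beginning of `aux_order`); then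
`k ≤ ∑ i, ν i` (`D7A_order_prod`).  Nothing to prove for `k ≤ 1`.  For `k ≥ 2` either some `ν i ≥ 2` or
`ν i, ν i' ≥ 1` for some `i ≠ i'` (if all `ν i ≤ 1` at least two of them are `1`), so `ord A ≥ r` and
`ord (A ^ K) ≥ K * r` (`DF_order_pow`).  `ord ∏ E_i ≥ ∑ (ν i - m)` over the large factors, the same for
`∏ W_s` over the small blocks (`D4_order_prod`), then the `r`-th powers.  Sum:
`r * (K + ∑ i, (ν i - m (sb i))) ≥ r * ∑ i, ν i` by `hcount` (the sum over all `i` is the sum over
the large ones plus the sum over the small blocks of the sums over the blocks: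
`Finset.sum_fiberwise_of_maps_to`, `Finset.sum_filter_add_sum_filter_not`). -/
theorem order_total {β ι : Type} [Fintype β] [DecidableEq β] [Fintype ι] (sb : ι → β)
    (m : β → ℕ) (T : β → Bool) {φ : ι → ℂ → ℂ} (hφ : ∀ i, Differentiable ℂ (φ i))
    (hφ0 : ∀ i, ∃ z, φ i z ≠ 0) {A : ℂ → ℂ} {E : ι → ℂ → ℂ} {W : β → ℂ → ℂ}
    (hA : Differentiable ℂ A) (hE : ∀ i, T (sb i) = false → Differentiable ℂ (E i))
    (hW : ∀ s, T s = true → Differentiable ℂ (W s)) (r K : ℕ) (z : ℂ)
    (hAo : ((∃ i, 2 ≤ analyticOrderAt (φ i) z) ∨ ∃ i i', i ≠ i' ∧ φ i z = 0 ∧ φ i' z = 0) →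
      (r : ℕ∞) ≤ analyticOrderAt A z)
    (hEo : ∀ i, T (sb i) = false → ∀ l : ℕ, (l : ℕ∞) ≤ analyticOrderAt (φ i) z →
      ((l - m (sb i) : ℕ) : ℕ∞) ≤ analyticOrderAt (E i) z)
    (hWo : ∀ s, T s = true → ∀ ν : ι → ℕ, (∀ i, (ν i : ℕ∞) ≤ analyticOrderAt (φ i) z) →
      ((∑ i ∈ Finset.univ.filter (fun i => sb i = s), (ν i - m s) : ℕ) : ℕ∞) ≤
        analyticOrderAt (W s) z)
    (hcount : ∀ ν : ι → ℕ, (∀ i, ν i ≠ 0 → φ i z = 0) →
      ∑ i, ν i ≤ ∑ i, (ν i - m (sb i)) + K)
    (k : ℕ) (hk : (k : ℕ∞) ≤ analyticOrderAt (fun w => ∏ i, φ i w) z) :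
    ((r * (k - 1) : ℕ) : ℕ∞) ≤ analyticOrderAt (fun w => A w ^ K *
      ((∏ i ∈ Finset.univ.filter (fun i => T (sb i) = false), E i w) ^ r *
        (∏ s ∈ Finset.univ.filter (fun s => T s = true), W s w) ^ r)) z := by
  have hfin : ∀ i, ∃ ν : ℕ, analyticOrderAt (φ i) z = ν := fun i => by
    obtain ⟨ν, hν⟩ := ENat.ne_top_iff_exists.1 (NJ1_ne_top (hφ i) (hφ0 i) z)
    exact ⟨ν, hν.symm⟩
  choose ν hν using hfin
  have hk' : k ≤ ∑ i, ν i := by
    rw [D7A_order_prod _ fun i _ => (hφ i).analyticAt z] at hk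
    simp only [hν] at hk
    exact_mod_cast hk
  rcases Nat.lt_or_ge k 2 with hk2 | hk2
  · have : k - 1 = 0 := by omega
    simp [this]
  have hzero : ∀ i, ν i ≠ 0 → φ i z = 0 := by
    intro i hi
    have h3 : analyticOrderAt (φ i) z ≠ 0 := by
      rw [hν i]
      exact_mod_cast hi
    exact (((hφ i).analyticAt z).analyticOrderAt_ne_zero).1 h3
  have hcase : (∃ i, 2 ≤ analyticOrderAt (φ i) z) ∨ ∃ i i', i ≠ i' ∧ φ i z = 0 ∧ φ i' z = 0 := by
    by_cases h4 : ∃ i, 2 ≤ ν i
    · obtain ⟨i, hi⟩ := h4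
      refine Or.inl ⟨i, ?_⟩
      rw [hν i]
      exact_mod_cast hi
    · push Not at h4
      obtain ⟨Z, hZ⟩ : ∃ Z : Finset ι, Z = Finset.univ.filter fun i => ν i ≠ 0 := ⟨_, rfl⟩
      have h5 : ∑ i, ν i ≤ Z.card := by
        classical
        calc ∑ i, ν i ≤ ∑ i, (if i ∈ Z then 1 else 0) := by
              refine Finset.sum_le_sum fun i _ => ?_
              by_cases hi : i ∈ Z
              · rw [if_pos hi]
                have := h4 i
                omega
              · rw [if_neg hi]
                rw [hZ, Finset.mem_filter] at hi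
                by_contra h
                exact hi ⟨Finset.mem_univ _, by omega⟩
          _ = Z.card := by simp
      obtain ⟨i, hi, i', hi', hne⟩ := Finset.one_lt_card.1 (by omega : 1 < Z.card)
      rw [hZ, Finset.mem_filter] at hi hi'
      exact Or.inr ⟨i, i', hne, hzero i hi.2, hzero i' hi'.2⟩
  have hA1 := DF_order_pow (hA.analyticAt z) K (hAo hcase)
  have hEd : AnalyticAt ℂ (fun w => ∏ i ∈ Finset.univ.filter (fun i => T (sb i) = false), E i w) z :=
    Finset.analyticAt_fun_prod _ fun i hi => (hE i (Finset.mem_filter.1 hi).2).analyticAt z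
  have hWd : AnalyticAt ℂ (fun w => ∏ s ∈ Finset.univ.filter (fun s => T s = true), W s w) z :=
    Finset.analyticAt_fun_prod _ fun s hs => (hW s (Finset.mem_filter.1 hs).2).analyticAt z
  have hE1 := D4_order_prod (Finset.univ.filter (fun i => T (sb i) = false)) (f := E) (z₀ := z)
    (μ := fun i => ν i - m (sb i))
    (fun i hi => (hE i (Finset.mem_filter.1 hi).2).analyticAt z)
    (fun i hi => hEo i (Finset.mem_filter.1 hi).2 (ν i) (hν i).ge)
  have hW1 := D4_order_prod (Finset.univ.filter (fun s => T s = true)) (f := W) (z₀ := z)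
    (μ := fun s => ∑ i ∈ Finset.univ.filter (fun i => sb i = s), (ν i - m s))
    (fun s hs => (hW s (Finset.mem_filter.1 hs).2).analyticAt z)
    (fun s hs => hWo s (Finset.mem_filter.1 hs).2 ν fun i => (hν i).ge)
  have hE2 := DF_order_pow hEd r hE1
  have hW2 := DF_order_pow hWd r hW1
  have hmul1 : analyticOrderAt (fun w => A w ^ K *
      ((∏ i ∈ Finset.univ.filter (fun i => T (sb i) = false), E i w) ^ r *
        (∏ s ∈ Finset.univ.filter (fun s => T s = true), W s w) ^ r)) z =
      analyticOrderAt (fun w => A w ^ K) z + analyticOrderAt (fun w =>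
        (∏ i ∈ Finset.univ.filter (fun i => T (sb i) = false), E i w) ^ r *
        (∏ s ∈ Finset.univ.filter (fun s => T s = true), W s w) ^ r) z :=
    analyticOrderAt_mul ((hA.analyticAt z).pow K) ((hEd.pow r).mul (hWd.pow r))
  have hmul2 : analyticOrderAt (fun w =>
        (∏ i ∈ Finset.univ.filter (fun i => T (sb i) = false), E i w) ^ r *
        (∏ s ∈ Finset.univ.filter (fun s => T s = true), W s w) ^ r) z =
      analyticOrderAt (fun w =>
        (∏ i ∈ Finset.univ.filter (fun i => T (sb i) = false), E i w) ^ r) z +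
      analyticOrderAt (fun w =>
        (∏ s ∈ Finset.univ.filter (fun s => T s = true), W s w) ^ r) z :=
    analyticOrderAt_mul (hEd.pow r) (hWd.pow r)
  rw [hmul1, hmul2]
  refine le_trans ?_ (add_le_add hA1 (add_le_add hE2 hW2))
  have hcnt := hcount ν hzero
  have hsum : ∑ i, (ν i - m (sb i)) =
      ∑ i ∈ Finset.univ.filter (fun i => T (sb i) = false), (ν i - m (sb i)) +
      ∑ s ∈ Finset.univ.filter (fun s => T s = true),
        ∑ i ∈ Finset.univ.filter (fun i => sb i = s), (ν i - m s) := by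
    have h1 : ∑ s ∈ Finset.univ.filter (fun s => T s = true),
        ∑ i ∈ Finset.univ.filter (fun i => sb i = s), (ν i - m s) =
        ∑ i ∈ Finset.univ.filter (fun i => T (sb i) = true), (ν i - m (sb i)) := by
      rw [← Finset.sum_fiberwise_of_maps_to (s := Finset.univ.filter (fun i => T (sb i) = true))
        (t := Finset.univ.filter (fun s => T s = true)) (g := sb)
        (fun i hi => Finset.mem_filter.2 ⟨Finset.mem_univ _, (Finset.mem_filter.1 hi).2⟩)]
      refine Finset.sum_congr rfl fun s hs => ?_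
      have hs' : T s = true := (Finset.mem_filter.1 hs).2
      rw [Finset.filter_filter]
      refine Finset.sum_congr ?_ ?_
      · ext i
        simp only [Finset.mem_filter, Finset.mem_univ, true_and]
        constructor
        · intro h
          rw [h]
          exact ⟨hs', rfl⟩
        · intro h
          exact h.2
      · intro i hi
        rw [(Finset.mem_filter.1 hi).2.2]
    rw [h1]
    have h2 : Finset.univ.filter (fun i => T (sb i) = true) =
        Finset.univ.filter (fun i => ¬T (sb i) = false) := by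
      ext i
      simp
    rw [h2]
    exact (Finset.sum_filter_add_sum_filter_not _ _ _).symm
  have h6 : r * (k - 1) ≤ K * r + (r * ∑ i ∈ Finset.univ.filter (fun i => T (sb i) = false),
      (ν i - m (sb i)) + r * ∑ s ∈ Finset.univ.filter (fun s => T s = true),
        ∑ i ∈ Finset.univ.filter (fun i => sb i = s), (ν i - m s)) := by
    have h7 : k - 1 ≤ (∑ i ∈ Finset.univ.filter (fun i => T (sb i) = false), (ν i - m (sb i)) +
      ∑ s ∈ Finset.univ.filter (fun s => T s = true),
        ∑ i ∈ Finset.univ.filter (fun i => sb i = s), (ν i - m s)) + K := by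
      rw [← hsum]
      omega
    calc r * (k - 1) ≤ r * ((∑ i ∈ Finset.univ.filter (fun i => T (sb i) = false),
          (ν i - m (sb i)) + ∑ s ∈ Finset.univ.filter (fun s => T s = true),
          ∑ i ∈ Finset.univ.filter (fun i => sb i = s), (ν i - m s)) + K) :=
          Nat.mul_le_mul_left _ h7
      _ = _ := by ring
  exact_mod_cast h6

end Pool.Agent.H49D
end

-- from Lib.H49D.W1
section

set_option autoImplicit false

/-!
CHUNK W1 (S/M).  The linear forms of a small block.
-/

open MvPolynomial Real MeasureTheory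

namespace Pool.Agent.H49D

open Pool.Agent.H89T Pool.Agent.H78G Pool.Agent.H67T Pool.Agent.H53Y

variable {N : ℕ} {β : Type} {m : β → ℕ} {ι : Type} [Fintype ι]
variable {sb : ι → β} {dg : ι → ℕ}

theorem w1_lin {n : ℕ} {F : MvPolynomial (Fin n) ℂ} (hF : F.IsHomogeneous 1) :
    F = ∑ b, C (coeff (Finsupp.single b 1) F) * X b := by
  classical
  ext d
  rw [coeff_sum]
  by_cases hd : d.degree = 1
  · obtain ⟨b, rfl⟩ : ∃ b, d = Finsupp.single b 1 := by
      have h0 : d ≠ 0 := by
        rintro rfl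
        rw [map_zero] at hd
        exact zero_ne_one hd
      obtain ⟨b, hb⟩ := Finsupp.ne_iff.1 h0
      have h1 : Finsupp.single b 1 ≤ d := by
        rw [Finsupp.single_le_iff]
        exact Nat.one_le_iff_ne_zero.2 hb
      have h2 : d = Finsupp.single b 1 + (d - Finsupp.single b 1) := (add_tsub_cancel_of_le h1).symm
      have h3 := congrArg Finsupp.degree h2
      rw [map_add, hd, Finsupp.degree_single] at h3
      have h4 : (d - Finsupp.single b 1).degree = 0 := by omega
      rw [Finsupp.degree_eq_zero_iff] at h4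
      rw [h4, add_zero] at h2
      exact ⟨b, h2⟩
    rw [Finset.sum_eq_single b]
    · rw [coeff_C_mul, coeff_X, if_pos rfl, mul_one]
    · intro c _ hc
      rw [coeff_C_mul, coeff_X, if_neg, mul_zero]
      intro h
      exact hc (Finsupp.single_left_injective one_ne_zero h)
    · intro h
      exact absurd (Finset.mem_univ _) h
  · rw [hF.coeff_eq_zero hd, Finset.sum_eq_zero]
    intro b _
    rw [coeff_C_mul, coeff_X, if_neg, mul_zero]
    rintro rfl
    exact hd (Finsupp.degree_single _ _)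

/-- CHUNK W1 (S).  A form of degree `1` is `∑ b, coeff (single b 1) F * X b`. -/
theorem eval_linear {n : ℕ} {F : MvPolynomial (Fin n) ℂ} (hF : F.IsHomogeneous 1)
    (v : Fin n → ℂ) : eval v F = ∑ b, coeff (Finsupp.single b 1) F * v b := by
  conv_lhs => rw [w1_lin hF]
  rw [map_sum]
  refine Finset.sum_congr rfl fun b _ => ?_
  rw [map_mul, eval_C, eval_X]




end Pool.Agent.H49D
end

-- from Lib.H49D.T1
section

set_option autoImplicit false

/-!
CHUNK T1 (M).  Counting: few factors vanish at a point.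
-/

open MvPolynomial Real MeasureTheory

namespace Pool.Agent.H49D

open Pool.Agent.H89T Pool.Agent.H78G Pool.Agent.H67T Pool.Agent.H53Y

/-- CHUNK T1 (S/M, only finite sums).  `ν i ≤ (ν i - m (sb i)) + (if ν i ≠ 0 then μ else 0)`; sum over the
blocks (`Finset.sum_fiberwise` or `Finset.card_eq_sum_card_fiberwise`): every block contributes at
most `μ * K`. -/
theorem count_le {β ι : Type} [Fintype β] [DecidableEq β] [Fintype ι] (sb : ι → β)
    (m : β → ℕ) {K μ : ℕ} (hμ : ∀ s, m s ≤ μ) (ν : ι → ℕ)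
    (h : ∀ s, (Finset.univ.filter fun i => sb i = s ∧ ν i ≠ 0).card * μ ≤ K) :
    ∑ i, ν i ≤ ∑ i, (ν i - m (sb i)) + Fintype.card β * K := by
  have h1 : ∀ i, ν i ≤ (ν i - m (sb i)) + (if ν i ≠ 0 then μ else 0) := by
    intro i
    have h2 := hμ (sb i)
    by_cases h3 : ν i ≠ 0
    · rw [if_pos h3]; omega
    · rw [if_neg h3]; omega
  refine (Finset.sum_le_sum fun i _ => h1 i).trans ?_
  rw [Finset.sum_add_distrib]
  refine Nat.add_le_add_left ?_ _
  rw [← Finset.sum_fiberwise (Finset.univ : Finset ι) sb]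
  refine (Finset.sum_le_card_nsmul _ _ K fun s _ => ?_).trans (le_of_eq ?_)
  · refine le_trans (le_of_eq ?_) (h s)
    rw [← Finset.sum_filter, Finset.filter_filter, Finset.sum_const, smul_eq_mul]
  · rw [Finset.card_univ, smul_eq_mul]


end Pool.Agent.H49D
end

-- from Lib.H49D.W0
section

set_option autoImplicit false

/-!
CHUNK W0 (M, rewrite the proof of `H78G.Wd_ne_zero_of_Wr` in `H78G/D5B.lean`).  The full Wronskian in a
chart.
-/

open MvPolynomial Real MeasureTheory

namespace Pool.Agent.H49D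

open Pool.Agent.H89T Pool.Agent.H78G Pool.Agent.H67T Pool.Agent.H53Y

/-- The derivatives of the quotients `y_j / y_c` and the Wronskian (copy of `H78G.D3B_det`). -/
theorem w0_det {m r : ℕ} (hr : m ≤ r) {y : ℂ → Fin (m + 1) → ℂ} (hy : ∀ j, Differentiable ℂ fun z => y z j)
    (c : Fin (m + 1)) {z : ℂ} (hz : y z c ≠ 0) :
    Matrix.det (Matrix.of fun l j : Fin (m + 1) =>
        iteratedDeriv (l : ℕ) (fun w => y w j / y w c) z) =
      (-1) ^ (c : ℕ) * (∏ l : Fin m, (((l : ℕ) + 1).factorial : ℂ)) *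
        Wd hr (jetf r (ch c y) z) := by
  have hev : (fun w => y w c / y w c) =ᶠ[nhds z] fun _ => (1 : ℂ) := by
    have h1 : ∀ᶠ w in nhds z, y w c ≠ 0 :=
      ((hy c).continuous.continuousAt).eventually_ne hz
    filter_upwards [h1] with w hw
    exact div_self hw
  have hc : ∀ l : ℕ, iteratedDeriv l (fun w => y w c / y w c) z = if l = 0 then 1 else 0 := by
    intro l
    rw [hev.iteratedDeriv_eq l, iteratedDeriv_const]
  rw [Matrix.det_succ_column _ c, Fin.sum_univ_succ]
  have h0 : ∀ i : Fin m, (-1 : ℂ) ^ ((i.succ : ℕ) + (c : ℕ)) *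
      (Matrix.of fun l j : Fin (m + 1) =>
        iteratedDeriv (l : ℕ) (fun w => y w j / y w c) z) i.succ c *
      ((Matrix.of fun l j : Fin (m + 1) =>
        iteratedDeriv (l : ℕ) (fun w => y w j / y w c) z).submatrix
          i.succ.succAbove c.succAbove).det = 0 := by
    intro i
    have : (Matrix.of fun l j : Fin (m + 1) =>
        iteratedDeriv (l : ℕ) (fun w => y w j / y w c) z) i.succ c = 0 := by
      rw [Matrix.of_apply, hc, if_neg (by simp)]
    rw [this]
    ring
  rw [Finset.sum_eq_zero fun i _ => h0 i, add_zero, Matrix.of_apply, hc, if_pos (by simp)]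
  have h1 : ((Matrix.of fun l j : Fin (m + 1) =>
        iteratedDeriv (l : ℕ) (fun w => y w j / y w c) z).submatrix
          (0 : Fin (m + 1)).succAbove c.succAbove) =
      Matrix.of fun l b : Fin m => (((l : ℕ) + 1).factorial : ℂ) *
        (Matrix.of fun b l : Fin m =>
          jetf r (ch c y) z (b, ⟨(l : ℕ) + 1, by omega⟩)).transpose l b := by
    ext l b
    have hf : (((l : ℕ) + 1).factorial : ℂ) ≠ 0 := by
      exact_mod_cast Nat.factorial_ne_zero _
    simp only [Matrix.submatrix_apply, Matrix.of_apply, Matrix.transpose_apply, jetf, ch,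
      Fin.succAbove_zero, Fin.val_succ]
    rw [mul_div_cancel₀ _ hf]
  rw [h1, Matrix.det_mul_column, Matrix.det_transpose]
  unfold Wd
  simp only [Fin.val_zero, zero_add, mul_one]
  ring

/-- CHUNK W0 (M).  Copy the proof of `H78G.Wd_ne_zero_of_Wr` (`H78G/D5B.lean`): there
`Wr y z = det (T * G)` with `T` lower triangular, all diagonal entries `y z c`
(`Matrix.det_of_lowerTriangular`), and `det G` is expanded along the column `c`
(`H78G.D3B_det` of `H78G/D3B.lean` is exactly `det G`, it is stated for `IsHol y`, but the proof only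
uses `hy.diff`; so copy it or use `D5B`). -/
theorem Wr_eq {m r : ℕ} (hr : m ≤ r) {y : ℂ → Fin (m + 1) → ℂ}
    (hy : ∀ j, Differentiable ℂ fun z => y z j) (c : Fin (m + 1)) {z : ℂ} (hz : y z c ≠ 0) :
    Wr y z = (-1) ^ (c : ℕ) * (∏ l : Fin m, (((l : ℕ) + 1).factorial : ℂ)) *
      y z c ^ (m + 1) * Wd hr (jetf r (ch c y) z) := by
  classical
  set f : Fin (m + 1) → ℂ → ℂ := fun j w => y w j / y w c with hf
  have hne : ∀ᶠ w in nhds z, y w c ≠ 0 := (hy c).continuous.continuousAt.eventually_ne hz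
  have hev : ∀ j, (fun w => y w j) =ᶠ[nhds z] (f j * fun w => y w c) := by
    intro j
    filter_upwards [hne] with w hw
    simp only [hf, Pi.mul_apply]
    rw [div_mul_cancel₀ _ hw]
  have hfa : ∀ (j : Fin (m + 1)) (l : ℕ), ContDiffAt ℂ l (f j) z := by
    intro j l
    have h1 : AnalyticAt ℂ (f j) z := by
      have h2 : AnalyticAt ℂ (fun w => y w j) z := (hy j).analyticAt z
      have h3 : AnalyticAt ℂ (fun w => y w c) z := (hy c).analyticAt z
      exact h2.div h3 hz
    exact h1.contDiffAt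
  set G : Matrix (Fin (m + 1)) (Fin (m + 1)) ℂ :=
    Matrix.of fun i j : Fin (m + 1) => iteratedDeriv (i : ℕ) (f j) z with hG
  set T : Matrix (Fin (m + 1)) (Fin (m + 1)) ℂ := Matrix.of fun l i : Fin (m + 1) =>
    if (i : ℕ) ≤ l then ((l : ℕ).choose i : ℂ) * iteratedDeriv ((l : ℕ) - i) (fun w => y w c) z
    else 0 with hT
  have hTG : (Matrix.of fun l j : Fin (m + 1) => iteratedDeriv (l : ℕ) (fun w => y w j) z) =
      T * G := by
    ext l j
    rw [Matrix.mul_apply]
    simp only [hT, hG, Matrix.of_apply]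
    rw [(hev j).iteratedDeriv_eq (l : ℕ), iteratedDeriv_mul (hfa j l) ((hy c).contDiff.contDiffAt)]
    have h1 : ∀ i : Fin (m + 1), (if (i : ℕ) ≤ l then ((l : ℕ).choose i : ℂ) *
        iteratedDeriv ((l : ℕ) - i) (fun w => y w c) z else 0) * iteratedDeriv (i : ℕ) (f j) z =
        (fun i : ℕ => if i ≤ (l : ℕ) then ((l : ℕ).choose i : ℂ) * iteratedDeriv i (f j) z *
          iteratedDeriv ((l : ℕ) - i) (fun w => y w c) z else 0) i := by
      intro i
      simp only
      split_ifs
      · ring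
      · ring
    rw [Finset.sum_congr rfl fun i _ => h1 i, Fin.sum_univ_eq_sum_range
      (fun i : ℕ => if i ≤ (l : ℕ) then ((l : ℕ).choose i : ℂ) * iteratedDeriv i (f j) z *
          iteratedDeriv ((l : ℕ) - i) (fun w => y w c) z else 0) (m + 1)]
    have h2 : Finset.range ((l : ℕ) + 1) ⊆ Finset.range (m + 1) := by
      intro i hi
      rw [Finset.mem_range] at hi ⊢
      have := l.2
      omega
    rw [← Finset.sum_subset h2]
    · refine Finset.sum_congr rfl fun i hi => ?_
      rw [Finset.mem_range] at hi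
      rw [if_pos (by omega)]
    · intro i _ hi
      rw [Finset.mem_range] at hi
      rw [if_neg (by omega)]
  have hT2 : T.det = y z c ^ (m + 1) := by
    have h1 : T.BlockTriangular OrderDual.toDual := by
      intro i j hij
      have h2 : ¬ ((j : ℕ) ≤ i) := by
        have h3 : i < j := hij
        have h4 : (i : ℕ) < j := h3
        omega
      rw [hT, Matrix.of_apply, if_neg h2]
    rw [Matrix.det_of_lowerTriangular T h1]
    have h3 : ∀ i : Fin (m + 1), T i i = y z c := by
      intro i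
      rw [hT, Matrix.of_apply, if_pos le_rfl, Nat.choose_self, Nat.cast_one, one_mul, Nat.sub_self, iteratedDeriv_zero]
    rw [Finset.prod_congr rfl fun i _ => h3 i, Finset.prod_const, Finset.card_univ, Fintype.card_fin]
  have hG2 : G.det = (-1) ^ (c : ℕ) * (∏ l : Fin m, (((l : ℕ) + 1).factorial : ℂ)) * Wd hr (jetf r (ch c y) z) :=
    w0_det hr hy c hz
  unfold Wr
  rw [hTG, Matrix.det_mul, hT2, hG2]
  ring

end Pool.Agent.H49D
end
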