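import Pool.Agent.Lib.H1M.PB.M003
import Pool.Agent.Lib.H1M.PB.M009
import Pool.Agent.Lib.H1M.PB.M021
import Pool.Agent.Lib.H1M.PB.M027
import Pool.Agent.Lib.H1M.PB.M039

/-! Merged copies (to shorten the build) of Lib.H53R.ST, Lib.H53R.TD, Lib.H53R.T2, Lib.H53R.T3, Lib.H53R.T1. -/

-- from Lib.H53R.ST
section

set_option autoImplicit false

/-!
H53R: the statements `SmtGapP` and `SmtTypesP` (interface between F14, F15 and T).
`Dg src d t` (H53Y.D0) is the sum of the degrees `d i` of the forms `i` with `src i = t`.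
-/

open MvPolynomial Real MeasureTheory

namespace Pool.Agent.H53R

open Pool.Agent.H89T Pool.Agent.H78G Pool.Agent.H67T Pool.Agent.H53Y Pool.Agent.H49D

/-- The second main theorem with constants `b t` holds for the forms with coefficients `f` (the form `i`
lives on the factor `src i`) and all tuples of nonconstant curves which are contained in none of
the hypersurfaces. -/
def SmtFP {τ : Type} [Fintype τ] {n : ℕ} {ι : Type} [Fintype ι] {d : ι → ℕ} (src : ι → τ) (b : τ → ℝ)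
    (f : FV (Fin (n + 1)) d → ℂ) : Prop :=
  ∀ y : τ → ℂ → Fin (n + 1) → ℂ, (∀ t, IsHol (y t)) → (∀ t, ∃ z w, ∀ c : ℂ, y t w ≠ c • y t z) →
    (∀ i, ∃ z, eval (y (src i) z) (fmj f i) ≠ 0) →
    ∃ (C : ℝ) (E : Set ℝ), volume E < ⊤ ∧ ∀ ρ : ℝ, 2 ≤ ρ → ρ ∉ E →
      ∑ t, b t * chi (y t) ρ ≤ N1 (fun z => ∏ i, eval (y (src i) z) (fmj f i)) ρ + C * log ρ

/-- F14.  The degrees are at most `E₀` or at least `K`. -/
def SmtGapP : Prop :=
  ∀ (τ : Type) [Fintype τ] [DecidableEq τ] (n : ℕ), 1 ≤ n → ∀ ε : ℝ, 0 < ε → ε ≤ 1 →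
    ∀ E₀ : ℕ, ∃ K : ℕ,
    ∀ (ι : Type) [Fintype ι] (src : ι → τ) (d : ι → ℕ), (∀ i, 1 ≤ d i) →
      (∀ i, d i ≤ E₀ ∨ K ≤ d i) → (∀ t, K ≤ Dg src d t) →
      ∃ Ξ : MvPolynomial (FV (Fin (n + 1)) d) ℂ, Ξ ≠ 0 ∧
        ∀ f, eval f Ξ ≠ 0 → SmtFP src (fun t => (1 - ε / 2) * (Dg src d t : ℕ)) f

/-- F15.  All types. -/
def SmtTypesP : Prop :=
  ∀ (τ : Type) [Fintype τ] [DecidableEq τ] (n : ℕ), 1 ≤ n → ∀ ε : ℝ, 0 < ε → ε ≤ 1 → ∃ D₀ : ℕ,
    ∀ (ι : Type) [Fintype ι] (src : ι → τ) (d : ι → ℕ), (∀ i, 1 ≤ d i) →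
      (∀ t, D₀ ≤ Dg src d t) →
      ∃ Ξ : MvPolynomial (FV (Fin (n + 1)) d) ℂ, Ξ ≠ 0 ∧
        ∀ f, eval f Ξ ≠ 0 → SmtFP src (fun t => (1 - ε) * (Dg src d t : ℕ)) f

end Pool.Agent.H53R
end

-- from Lib.H53R.TD
section

set_option autoImplicit false

/-!
H53R, Part T (covers): definitions.  The multigraded cone `V (J) ⊆ ℂ ^ m` with weights `w s`, `s : τ`, of a
variety which is finite over a product of projective spaces, the morphisms being given by the
forms `f s j` (multihomogeneous of degree `D s` in the grading `s` and of degree `0` in the others).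
-/

open MvPolynomial Real MeasureTheory

namespace Pool.Agent.H53R

open Pool.Agent.H89T Pool.Agent.H67T

variable {τ : Type} [Fintype τ] {m : ℕ}

/-- The action of the vector `t` of numbers, with weights `w s`. -/
def actP (w : τ → Fin m → ℕ) (t : τ → ℂ) (x : Fin m → ℂ) : Fin m → ℂ :=
  fun i => (∏ s, t s ^ w s i) * x i

/-- The zeros of `J` at which no family `f s` vanishes. -/
def coneP {n : τ → ℕ} (J : Ideal (MvPolynomial (Fin m) ℂ))
    (f : (s : τ) → Fin (n s + 1) → MvPolynomial (Fin m) ℂ) : Set (Fin m → ℂ) :=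
  {x | (∀ F ∈ J, eval x F = 0) ∧ ∀ s, ∃ j, eval x (f s j) ≠ 0}

/-- The hypotheses on `w`, `J`, `D`, `f`. -/
structure CovP [DecidableEq τ] {n : τ → ℕ} (w : τ → Fin m → ℕ) (J : Ideal (MvPolynomial (Fin m) ℂ))
    (D : τ → ℕ) (f : (s : τ) → Fin (n s + 1) → MvPolynomial (Fin m) ℂ) : Prop where
  weights : ∀ i, ∃ s, 1 ≤ w s i
  multihomogeneous : ∀ s, ∀ F ∈ J, ∀ d, weightedHomogeneousComponent (w s) d F ∈ J
  pos : ∀ s, 1 ≤ D s
  homogeneous : ∀ s j s', (f s j).IsWeightedHomogeneous (w s') (if s' = s then D s else 0)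
  finite : ∀ x : Fin m → ℂ, (∀ F ∈ J, eval x F = 0) → (∀ s j, eval x (f s j) = 0) → x = 0

end Pool.Agent.H53R
end

-- from Lib.H53R.T2
section

set_option autoImplicit false

/-!
H53R, chunk T2 (M, four lemmas): multihomogeneous coordinates (port of Lib/H89T/DP4.lean).
-/

open MvPolynomial Real MeasureTheory

namespace Pool.Agent.H53R

open Pool.Agent.H89T Pool.Agent.H67T

variable {τ : Type} [Fintype τ] [DecidableEq τ] {m : ℕ}

/-- CHUNK T2a.  As `H89T.eval_act` (Lib/H89T/DP4.lean). -/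
theorem eval_actP {w : τ → Fin m → ℕ} {F : MvPolynomial (Fin m) ℂ} {a : τ → ℕ}
    (hF : ∀ s, F.IsWeightedHomogeneous (w s) (a s)) (t : τ → ℂ) (x : Fin m → ℂ) :
    eval (actP w t x) F = (∏ s, t s ^ a s) * eval x F := by
  rw [eval_eq', eval_eq', Finset.mul_sum]
  refine Finset.sum_congr rfl fun d hd => ?_
  have hdeg : ∀ s, ∑ i, w s i * d i = a s := by
    intro s
    have h := hF s (mem_support_iff.mp hd)
    rw [Finsupp.weight_apply, Finsupp.sum_fintype] at h
    · rw [← h]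
      refine Finset.sum_congr rfl fun i _ => ?_
      rw [smul_eq_mul, mul_comm]
    · simp
  simp only [actP, mul_pow, Finset.prod_mul_distrib, ← Finset.prod_pow, ← pow_mul]
  have h1 : ∏ i, ∏ s, t s ^ (w s i * d i) = ∏ s, t s ^ a s := by
    rw [Finset.prod_comm]
    refine Finset.prod_congr rfl fun s _ => ?_
    rw [Finset.prod_pow_eq_pow_sum, hdeg s]
  rw [h1]
  ring

/-- CHUNK T2b.  `actP w t x` is the composition of the one-parameter actions `act (w s) (t s)`, `s ∈ τ`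
(induction over a `Finset`), `H89T.eval_act_mem`. -/
theorem actP_mem {w : τ → Fin m → ℕ} {J : Ideal (MvPolynomial (Fin m) ℂ)}
    (hJ : ∀ s, ∀ F ∈ J, ∀ d, weightedHomogeneousComponent (w s) d F ∈ J) {x : Fin m → ℂ}
    (hx : ∀ F ∈ J, eval x F = 0) (t : τ → ℂ) : ∀ F ∈ J, eval (actP w t x) F = 0 := by
  have key : ∀ S : Finset τ, ∀ F ∈ J, eval (actP w (fun s => if s ∈ S then t s else 1) x) F = 0 := by
    intro S
    induction S using Finset.induction_on with
    | empty =>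
      have h1 : actP w (fun s => if s ∈ (∅ : Finset τ) then t s else 1) x = x := by
        funext i
        simp [actP]
      rw [h1]
      exact hx
    | insert s S hs ih =>
      have h1 : actP w (fun s' => if s' ∈ insert s S then t s' else 1) x =
          act (w s) (t s) (actP w (fun s => if s ∈ S then t s else 1) x) := by
        funext i
        simp only [actP, act]
        rw [← mul_assoc]
        have h2 : ∏ s', (if s' ∈ insert s S then t s' else 1) ^ w s' i =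
            t s ^ w s i * ∏ s', (if s' ∈ S then t s' else 1) ^ w s' i := by
          have h3 : ∀ s', (if s' ∈ insert s S then t s' else 1) ^ w s' i =
              (if s' = s then t s ^ w s i else 1) * (if s' ∈ S then t s' else 1) ^ w s' i := by
            intro s'
            by_cases h4 : s' = s
            · subst h4
              simp [hs]
            · simp [h4]
          rw [Finset.prod_congr rfl fun s' _ => h3 s', Finset.prod_mul_distrib,
            Finset.prod_ite_eq' Finset.univ s]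
          simp
        rw [h2]
      rw [h1]
      exact eval_act_mem (hJ s) ih (t s)
  have h := key Finset.univ
  have h1 : (fun s => if s ∈ (Finset.univ : Finset τ) then t s else 1) = t := by
    funext s
    simp
  rw [h1] at h
  exact h

private theorem t2_act_eq (w : τ → Fin m → ℕ) (t : ℂ) (x : Fin m → ℂ) :
    act (fun i => ∑ s, w s i) t x = actP w (fun _ => t) x := by
  funext i
  simp only [act, actP]
  rw [Finset.prod_pow_eq_pow_sum]

private theorem t2_total {w : τ → Fin m → ℕ} {F : MvPolynomial (Fin m) ℂ} {a : τ → ℕ}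
    (hF : ∀ s, F.IsWeightedHomogeneous (w s) (a s)) :
    F.IsWeightedHomogeneous (fun i => ∑ s, w s i) (∑ s, a s) := by
  intro d hd
  have h1 : ∀ s, ∑ i, d i * w s i = a s := by
    intro s
    have h := hF s hd
    rw [Finsupp.weight_apply, Finsupp.sum_fintype] at h
    · simpa using h
    · simp
  rw [Finsupp.weight_apply, Finsupp.sum_fintype]
  · simp only [smul_eq_mul, Finset.mul_sum]
    rw [Finset.sum_comm]
    exact Finset.sum_congr rfl fun s _ => h1 s
  · simp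

/-- CHUNK T2c (M).  Boundedness.  Total weights `W i = ∑ s, w s i ≥ 1`; `J` is stable under `act W t`
(`act W t = actP w (fun _ => t)`, T2b); with `L = ∏ s, D s` the forms `f s j ^ (L / D s)` are weighted
homogeneous of degree `L` for the weights `W` (an `IsWeightedHomogeneous` statement for `W` follows from
those for all the `w s`: the weight is `∑ s, ∑ i, d i * w s i`), and they have no common zero on
`V (J)` outside `0`.  Apply `H89T.wn_le` to the family of all of them (numbered by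
`Fintype.equivFin (Σ s, Fin (n s + 1))`), and `norm_le_of_wn`.  If `m = 0` everything is trivial; if `τ` is
empty then `m = 0`. -/
theorem bounded_of_f {n : τ → ℕ} {w : τ → Fin m → ℕ} {J : Ideal (MvPolynomial (Fin m) ℂ)} {D : τ → ℕ}
    {f : (s : τ) → Fin (n s + 1) → MvPolynomial (Fin m) ℂ} (h : CovP w J D f) (B : ℝ) :
    ∃ M : ℝ, ∀ x : Fin m → ℂ, (∀ F ∈ J, eval x F = 0) → (∀ s j, ‖eval x (f s j)‖ ≤ B) →
      ∀ i, ‖x i‖ ≤ M := by
  set W : Fin m → ℕ := fun i => ∑ s, w s i with hW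
  have hW1 : ∀ i, 1 ≤ W i := by
    intro i
    obtain ⟨s, hs⟩ := h.weights i
    exact hs.trans (Finset.single_le_sum (f := fun s => w s i) (fun _ _ => Nat.zero_le _)
      (Finset.mem_univ s))
  have hSt : Stable W J := by
    intro x hx t F hF
    rw [hW, t2_act_eq]
    exact actP_mem h.multihomogeneous hx _ F hF
  set L : ℕ := ∏ s, D s with hL
  have hLpos : 0 < L := Finset.prod_pos fun s _ => h.pos s
  have hdvd : ∀ s, D s ∣ L := fun s => Finset.dvd_prod_of_mem D (Finset.mem_univ s)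
  have hdiv : ∀ s, L / D s * D s = L := fun s => Nat.div_mul_cancel (hdvd s)
  have hdiv0 : ∀ s, L / D s ≠ 0 := by
    intro s h0
    have := hdiv s
    rw [h0, zero_mul] at this
    omega
  have hdivle : ∀ s, L / D s ≤ L := fun s => Nat.div_le_self _ _
  set e := Fintype.equivFin (Σ s, Fin (n s + 1)) with he
  set g : Fin (Fintype.card (Σ s, Fin (n s + 1))) → MvPolynomial (Fin m) ℂ :=
    fun k => f (e.symm k).1 (e.symm k).2 ^ (L / D (e.symm k).1) with hg
  have hgh : ∀ k, (g k).IsWeightedHomogeneous W L := by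
    intro k
    have h1 := t2_total (h.homogeneous (e.symm k).1 (e.symm k).2)
    rw [Finset.sum_ite_eq' Finset.univ (e.symm k).1] at h1
    simp only [Finset.mem_univ, if_true] at h1
    have h2 := h1.pow (L / D (e.symm k).1)
    rw [smul_eq_mul, hdiv] at h2
    exact h2
  have hg0 : ∀ x : Fin m → ℂ, x ≠ 0 → (∀ F ∈ J, eval x F = 0) → ∃ k, eval x (g k) ≠ 0 := by
    intro x hx0 hxJ
    by_contra hcon
    push Not at hcon
    apply hx0
    have hq : ∀ q : Σ s, Fin (n s + 1), eval x (f q.1 q.2) = 0 := by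
      intro q
      have h1 := hcon (e q)
      simp only [hg, map_pow] at h1
      have h3 : e.symm (e q) = q := e.symm_apply_apply q
      rw [h3] at h1
      exact eq_zero_of_pow_eq_zero h1
    exact h.finite x hxJ fun s j => hq ⟨s, j⟩
  obtain ⟨δ, hδ, hδ'⟩ := wn_le hW1 hSt hgh hg0
  set C : ℝ := (((max 1 B) ^ L) ^ wL W) / δ with hC
  refine ⟨max 1 (max 1 C), fun x hxJ hxB i => ?_⟩
  by_cases hx0 : x = 0
  · rw [hx0, Pi.zero_apply, norm_zero]
    positivity
  have h1 := hδ' x hx0 hxJ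
  have hB1 : (1 : ℝ) ≤ max 1 B := le_max_left _ _
  have h2 : ‖fun k => eval x (g k)‖ ≤ (max 1 B) ^ L := by
    rw [pi_norm_le_iff_of_nonneg (by positivity)]
    intro k
    simp only [hg, map_pow, norm_pow]
    calc ‖eval x (f (e.symm k).1 (e.symm k).2)‖ ^ (L / D (e.symm k).1)
        ≤ (max 1 B) ^ (L / D (e.symm k).1) :=
          pow_le_pow_left₀ (norm_nonneg _) ((hxB _ _).trans (le_max_right _ _)) _
      _ ≤ (max 1 B) ^ L := pow_le_pow_right₀ hB1 (hdivle _)
  have h3 : wn W x ^ L ≤ C := by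
    rw [hC, le_div_iff₀ hδ, mul_comm]
    exact h1.trans (pow_le_pow_left₀ (norm_nonneg _) h2 _)
  have h4 : wn W x ≤ max 1 C := by
    by_cases h5 : wn W x ≤ 1
    · exact h5.trans (le_max_left _ _)
    · push Not at h5
      exact ((le_self_pow₀ h5.le hLpos.ne').trans h3).trans (le_max_right _ _)
  exact norm_le_of_wn hW1 h4 i

/-- CHUNK T2d (M).  The values of `R` are bounded by those of `f`.  For `x ∈ coneP J f` let
`N s = ‖fun j => eval x (f s j)‖ > 0`, `t s = N s ^ (-1 / D s)` (positive real number), `x' = actP w t x`;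
`‖fun j => eval x' (f s j)‖ = t s ^ D s * N s = 1`, so `x'` is bounded by `M` of `bounded_of_f` (`B = 1`) and
`‖eval x' R‖ ≤ A` (`R.continuous_eval` on a compact ball; take `A ≥ 1`); `eval x' R = ∏ t s ^ a s * eval x R`;
take logarithms. -/
theorem form_leP {n : τ → ℕ} {w : τ → Fin m → ℕ} {J : Ideal (MvPolynomial (Fin m) ℂ)} {D : τ → ℕ}
    {f : (s : τ) → Fin (n s + 1) → MvPolynomial (Fin m) ℂ} (h : CovP w J D f)
    {R : MvPolynomial (Fin m) ℂ} {a : τ → ℕ} (hR : ∀ s, R.IsWeightedHomogeneous (w s) (a s)) :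
    ∃ A : ℝ, ∀ x ∈ coneP J f, eval x R ≠ 0 →
      log ‖eval x R‖ ≤ A + ∑ s, (a s : ℝ) / D s * log ‖fun j => eval x (f s j)‖ := by
  obtain ⟨M, hM⟩ := bounded_of_f h 1
  have hcpt : IsCompact (Metric.closedBall (0 : Fin m → ℂ) (max 0 M)) := isCompact_closedBall _ _
  obtain ⟨A₀, hA₀⟩ := hcpt.exists_bound_of_continuousOn (f := fun x => eval x R)
    R.continuous_eval.continuousOn
  refine ⟨log (max 1 A₀), fun x hx hxR => ?_⟩
  have hN : ∀ s, 0 < ‖fun j => eval x (f s j)‖ := by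
    intro s
    obtain ⟨j, hj⟩ := hx.2 s
    rw [norm_pos_iff]
    intro h0
    exact hj (congrFun h0 j)
  set N : τ → ℝ := fun s => ‖fun j => eval x (f s j)‖ with hNdef
  have hD0 : ∀ s, (D s : ℝ) ≠ 0 := by
    intro s
    have := h.pos s
    have h1 : D s ≠ 0 := by omega
    exact_mod_cast h1
  set r : τ → ℝ := fun s => N s ^ (-(1 : ℝ) / D s) with hr
  have hr0 : ∀ s, 0 < r s := fun s => Real.rpow_pos_of_pos (hN s) _
  have hrD : ∀ s, r s ^ D s * N s = 1 := by
    intro s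
    have h1 : r s ^ D s = N s ^ (-(1 : ℝ)) := by
      rw [hr]
      simp only
      rw [← Real.rpow_natCast, ← Real.rpow_mul (hN s).le]
      have h2 : -(1 : ℝ) / D s * D s = -1 := by
        have := hD0 s
        field_simp
      rw [h2]
    rw [h1, Real.rpow_neg_one, inv_mul_cancel₀ (hN s).ne']
  set t : τ → ℂ := fun s => (r s : ℂ) with ht
  have htn : ∀ s, ‖t s‖ = r s := by
    intro s
    simp only [ht]
    rw [Complex.norm_real, Real.norm_of_nonneg (hr0 s).le]
  have hx' := actP_mem h.multihomogeneous hx.1 t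
  have hf' : ∀ s j, ‖eval (actP w t x) (f s j)‖ ≤ 1 := by
    intro s j
    have h1 := eval_actP (h.homogeneous s j) t x
    have h2 : ∏ s', t s' ^ (if s' = s then D s else 0) = t s ^ D s := by
      rw [Finset.prod_eq_single s]
      · simp
      · intro s' _ hs'
        simp [hs']
      · intro hs
        exact absurd (Finset.mem_univ s) hs
    rw [h1, h2, norm_mul, norm_pow, htn, ← hrD s]
    exact mul_le_mul_of_nonneg_left (norm_le_pi_norm (fun j => eval x (f s j)) j)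
      (pow_nonneg (hr0 s).le _)
  have hbd := hM _ hx' hf'
  have hmem : actP w t x ∈ Metric.closedBall (0 : Fin m → ℂ) (max 0 M) := by
    rw [mem_closedBall_zero_iff, pi_norm_le_iff_of_nonneg (le_max_left _ _)]
    exact fun i => (hbd i).trans (le_max_right _ _)
  have h1 : ‖eval (actP w t x) R‖ ≤ A₀ := hA₀ _ hmem
  have h2 := eval_actP hR t x
  have hprod : ‖∏ s, t s ^ a s‖ = ∏ s, r s ^ a s := by
    rw [norm_prod]
    refine Finset.prod_congr rfl fun s _ => ?_
    rw [norm_pow, htn]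
  rw [h2, norm_mul, hprod] at h1
  have hp0 : 0 < ∏ s, r s ^ a s := Finset.prod_pos fun s _ => pow_pos (hr0 s) _
  have hR0 : 0 < ‖eval x R‖ := norm_pos_iff.2 hxR
  have h3 : log ((∏ s, r s ^ a s) * ‖eval x R‖) ≤ log (max 1 A₀) :=
    Real.log_le_log (mul_pos hp0 hR0) (h1.trans (le_max_right _ _))
  rw [Real.log_mul hp0.ne' hR0.ne', Real.log_prod fun s _ => (pow_pos (hr0 s) _).ne'] at h3
  have h4 : ∑ s, log (r s ^ a s) = -∑ s, (a s : ℝ) / D s * log (N s) := by
    rw [← Finset.sum_neg_distrib]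
    refine Finset.sum_congr rfl fun s _ => ?_
    rw [Real.log_pow, hr]
    simp only
    rw [Real.log_rpow (hN s)]
    ring
  rw [h4] at h3
  have h5 : ∑ s, (a s : ℝ) / D s * log ‖fun j => eval x (f s j)‖ =
      ∑ s, (a s : ℝ) / D s * log (N s) := rfl
  rw [h5]
  linarith

end Pool.Agent.H53R
end

-- from Lib.H53R.T3
section

set_option autoImplicit false

/-!
H53R, chunk T3 (M/L, two lemmas): nonconstant curves, constant curves.
-/

open MvPolynomial Real MeasureTheory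

namespace Pool.Agent.H53R

open Pool.Agent.H89T Pool.Agent.H67T

variable {τ : Type} [Fintype τ] [DecidableEq τ] {m : ℕ}

/-- CHUNK T3a (M/L).  Port of `H89T.nonconstant_comp` (Lib/H89T/DP4.lean): if all the curves `y s = f s (u)` are
constant in projective space then `f s (u z) = g s z • f s (u 0)` with `g s` entire without zeros,
`t s z ^ D s * g s z = 1`, `v z = actP w (t z) (u z)` has constant values of all `f s j` and is in `V (J)`
(T2b), so it is bounded (`bounded_of_f`) and constant (Liouville), and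
`u z' = actP w (fun s => t s z / t s z') (u z)`. -/
theorem nonconstant_compP {n : τ → ℕ} {w : τ → Fin m → ℕ} {J : Ideal (MvPolynomial (Fin m) ℂ)}
    {D : τ → ℕ} {f : (s : τ) → Fin (n s + 1) → MvPolynomial (Fin m) ℂ} (h : CovP w J D f)
    {u : ℂ → Fin m → ℂ} (hu : ∀ i, Differentiable ℂ fun z => u z i) (huX : ∀ z, u z ∈ coneP J f)
    (hnc : ∃ z z', ∀ t : τ → ℂ, u z' ≠ actP w t (u z)) :
    ∃ s, ∃ z z', ∀ c : ℂ, (fun j => eval (u z') (f s j)) ≠ c • fun j => eval (u z) (f s j) := by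
  by_contra hcon
  push Not at hcon
  have hj₀ : ∀ s, ∃ j, eval (u 0) (f s j) ≠ 0 := (huX 0).2
  choose j₀ hj₀ using hj₀
  set g : τ → ℂ → ℂ := fun s z => eval (u z) (f s (j₀ s)) / eval (u 0) (f s (j₀ s)) with hg
  have hgd : ∀ s, Differentiable ℂ (g s) := fun s =>
    (differentiable_eval hu (f s (j₀ s))).div_const _
  have hgz : ∀ s z j, eval (u z) (f s j) = g s z * eval (u 0) (f s j) := by
    intro s z j
    obtain ⟨c, hc⟩ := hcon s 0 z
    have h1 : g s z = c := by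
      have h2 := congrFun hc (j₀ s)
      simp only [Pi.smul_apply, smul_eq_mul] at h2
      rw [hg]
      simp only
      rw [h2, mul_div_assoc, div_self (hj₀ s), mul_one]
    rw [h1]
    exact congrFun hc j
  have hg0 : ∀ s z, g s z ≠ 0 := by
    intro s z h0
    obtain ⟨j, hj⟩ := (huX z).2 s
    apply hj
    rw [hgz s z j, h0, zero_mul]
  choose l hl hgl using fun s => exists_log (hgd s) (hg0 s)
  set t : ℂ → τ → ℂ := fun z s => Complex.exp (-l s z / D s) with ht
  have hD0 : ∀ s, (D s : ℂ) ≠ 0 := fun s => by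
    have : D s ≠ 0 := by have := h.pos s; omega
    exact_mod_cast this
  have htD : ∀ s z, t z s ^ D s * g s z = 1 := by
    intro s z
    have h1 := hD0 s
    rw [ht, hgl s z]
    simp only
    rw [← Complex.exp_nat_mul, ← Complex.exp_add]
    have : (D s : ℂ) * (-l s z / D s) + l s z = 0 := by field_simp; ring
    rw [this, Complex.exp_zero]
  have ht0 : ∀ s z, t z s ≠ 0 := fun s z => Complex.exp_ne_zero _
  have htd : ∀ s, Differentiable ℂ fun z => t z s := fun s => ((hl s).neg.div_const _).cexp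
  set v : ℂ → Fin m → ℂ := fun z => actP w (t z) (u z) with hv
  have hvd : ∀ i, Differentiable ℂ fun z => v z i := fun i => by
    have h1 : Differentiable ℂ fun z => ∏ s, t z s ^ w s i :=
      Differentiable.fun_finsetProd fun s _ => (htd s).pow _
    exact h1.mul (hu i)
  have hvf : ∀ z s j, eval (v z) (f s j) = eval (u 0) (f s j) := by
    intro z s j
    rw [hv]
    simp only
    rw [eval_actP (h.homogeneous s j)]
    have h1 : ∏ s', t z s' ^ (if s' = s then D s else 0) = t z s ^ D s := by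
      rw [Finset.prod_eq_single s]
      · rw [if_pos rfl]
      · intro s' _ hs'
        rw [if_neg hs', pow_zero]
      · intro h0
        exact absurd (Finset.mem_univ s) h0
    rw [h1, hgz s z j, ← mul_assoc, htD, one_mul]
  obtain ⟨M, hM⟩ := bounded_of_f h (∑ s, ∑ j, ‖eval (u 0) (f s j)‖)
  have hb : ∀ z i, ‖v z i‖ ≤ M := by
    intro z
    refine hM (v z) (actP_mem h.multihomogeneous (huX z).1 (t z)) fun s j => ?_
    rw [hvf z s j]
    calc ‖eval (u 0) (f s j)‖ ≤ ∑ j, ‖eval (u 0) (f s j)‖ :=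
          Finset.single_le_sum (f := fun j => ‖eval (u 0) (f s j)‖) (fun _ _ => norm_nonneg _)
            (Finset.mem_univ j)
      _ ≤ _ := Finset.single_le_sum (f := fun s => ∑ j, ‖eval (u 0) (f s j)‖)
            (fun _ _ => Finset.sum_nonneg fun _ _ => norm_nonneg _) (Finset.mem_univ s)
  have hconst : ∀ z z' i, v z i = v z' i := by
    intro z z' i
    refine (hvd i).apply_eq_apply_of_bounded ?_ z z'
    rw [isBounded_iff_forall_norm_le]
    refine ⟨M, ?_⟩
    rintro _ ⟨z, rfl⟩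
    exact hb z i
  obtain ⟨z, z', hzz⟩ := hnc
  apply hzz fun s => t z s / t z' s
  funext i
  have h1 := hconst z' z i
  rw [hv] at h1
  simp only [actP] at h1 ⊢
  have h2 : ∏ s, t z' s ^ w s i ≠ 0 :=
    Finset.prod_ne_zero_iff.2 fun s _ => pow_ne_zero _ (ht0 s z')
  have h3 : ∏ s, (t z s / t z' s) ^ w s i = (∏ s, t z s ^ w s i) / ∏ s, t z' s ^ w s i := by
    rw [← Finset.prod_div_distrib]
    exact Finset.prod_congr rfl fun s _ => div_pow _ _ _
  rw [h3, div_mul_eq_mul_div, eq_div_iff h2, mul_comm, h1]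

/-- CHUNK T3b (S/M).  A curve which is constant in projective space has constant characteristic:
`y z = g z • y 0` with `g` entire without zeros (`g z = y z j / y 0 j` where `y 0 j ≠ 0`), `g = exp h`
(`H89T.exists_log`), `log ‖y z‖ = Re (h z) + log ‖y 0‖`, and the mean value of a harmonic function (or
`circleAverage` of the entire function `h`: its real part) is its value at `0`. -/
theorem chi_const {n : ℕ} {y : ℂ → Fin n → ℂ} (hy : IsHol y) (hc : ∀ z w, ∃ c : ℂ, y w = c • y z)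
    (r : ℝ) : chi y r = log ‖y 0‖ := by
  obtain ⟨j, hj⟩ : ∃ j, y 0 j ≠ 0 := Function.ne_iff.1 (hy.ne_zero 0)
  have hg : ∀ z, y z = (y z j / y 0 j) • y 0 := by
    intro z
    obtain ⟨c, hc⟩ := hc 0 z
    have h1 : y z j = c * y 0 j := by
      have h2 := congrFun hc j
      rwa [Pi.smul_apply, smul_eq_mul] at h2
    rw [h1, mul_div_assoc, div_self hj, mul_one]
    exact hc
  have hgd : Differentiable ℂ fun z => y z j / y 0 j := (hy.diff j).div_const _
  have hg0 : ∀ z, y z j / y 0 j ≠ 0 := by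
    intro z h0
    apply hy.ne_zero z
    rw [hg z, h0, zero_smul]
  have h1 : (fun z => log ‖y z‖) = fun z => log ‖y z j / y 0 j‖ + log ‖y 0‖ := by
    funext z
    rw [hg z, norm_smul, log_mul (norm_ne_zero_iff.2 (hg0 z)) (norm_ne_zero_iff.2 (hy.ne_zero 0))]
    congr 2
    rw [Pi.smul_apply, smul_eq_mul, mul_div_assoc, div_self hj, mul_one]
  have hci : CircleIntegrable (fun z => log ‖y z j / y 0 j‖) 0 r := by
    have h2 : Continuous fun z => log ‖y z j / y 0 j‖ :=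
      hgd.continuous.norm.log fun z => norm_ne_zero_iff.2 (hg0 z)
    exact h2.continuousOn.circleIntegrable'
  have h3 : circleAverage (fun z => log ‖y z j / y 0 j‖) 0 r = log ‖y 0 j / y 0 j‖ :=
    AnalyticOnNhd.circleAverage_log_norm_of_ne_zero (g := fun z => y z j / y 0 j)
      (fun z _ => hgd.analyticAt z) fun z _ => hg0 z
  unfold chi
  rw [h1, circleAverage_fun_add hci (circleIntegrable_const _ _ _), h3, circleAverage_const,
    div_self hj, norm_one, log_one, zero_add]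

end Pool.Agent.H53R
end

-- from Lib.H53R.T1
section

set_option autoImplicit false

/-!
H53R, chunk T1 (M/L): from a common dimension and all factors to different dimensions `n s` and some of
the factors.
-/

open MvPolynomial Real MeasureTheory

namespace Pool.Agent.H53R

open Pool.Agent.H89T Pool.Agent.H78G Pool.Agent.H67T Pool.Agent.H53Y

/-- The second main theorem for the factors `s ∈ S`. -/
def SmtS {k : ℕ} {n q : Fin k → ℕ} (d : (s : Fin k) → Fin (q s) → ℕ) (ε : ℝ)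
    (F : (s : Fin k) → Fin (q s) → MvPolynomial (Fin (n s + 1)) ℂ) (S : Finset (Fin k)) : Prop :=
  ∀ y : (s : Fin k) → ℂ → Fin (n s + 1) → ℂ, (∀ s ∈ S, IsHol (y s)) →
    (∀ s ∈ S, ∃ z w, ∀ c : ℂ, y s w ≠ c • y s z) →
    (∀ s ∈ S, ∀ i, ∃ z, eval (y s z) (F s i) ≠ 0) →
    ∃ (C : ℝ) (E : Set ℝ), volume E < ⊤ ∧ ∀ ρ : ℝ, 2 ≤ ρ → ρ ∉ E →
      ∑ s ∈ S, (1 - ε) * (∑ i, d s i : ℕ) * chi (y s) ρ ≤
        N1 (fun z => ∏ s ∈ S, ∏ i, eval (y s z) (F s i)) ρ + C * log ρ

/-- The embedding of the variables. -/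
def t1_emb {a N : ℕ} (h : a ≤ N) : Fin (a + 1) → Fin (N + 1) := Fin.castLE (Nat.succ_le_succ h)

theorem t1_emb_inj {a N : ℕ} (h : a ≤ N) : Function.Injective (t1_emb h) := Fin.castLE_injective _

/-- The exponent restricted to the first variables. -/
noncomputable def t1_res {a N : ℕ} (h : a ≤ N) (δ : Fin (N + 1) →₀ ℕ) : Fin (a + 1) →₀ ℕ :=
  δ.comapDomain (t1_emb h) (t1_emb_inj h).injOn

theorem t1_res_map {a N : ℕ} (h : a ≤ N) (δ : Fin (a + 1) →₀ ℕ) :
    t1_res h (Finsupp.mapDomain (t1_emb h) δ) = δ := by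
  ext i
  rw [t1_res, Finsupp.comapDomain_apply, Finsupp.mapDomain_apply (t1_emb_inj h)]

theorem t1_deg {a N : ℕ} (h : a ≤ N) (δ : Fin (a + 1) →₀ ℕ) :
    (Finsupp.mapDomain (t1_emb h) δ).degree = δ.degree := by
  rw [Finsupp.degree_eq_sum, Finsupp.degree_eq_sum]
  have h1 : ∀ i : Fin (a + 1), δ i = Finsupp.mapDomain (t1_emb h) δ (t1_emb h i) := fun i =>
    (Finsupp.mapDomain_apply (t1_emb_inj h) δ i).symm
  have h2 : ∑ i, δ i = ∑ j ∈ Finset.univ.map ⟨t1_emb h, t1_emb_inj h⟩, Finsupp.mapDomain (t1_emb h) δ j := by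
    rw [Finset.sum_map]
    exact Finset.sum_congr rfl fun i _ => h1 i
  rw [h2]
  symm
  apply Finset.sum_subset (Finset.subset_univ _)
  intro j _ hj
  apply Finsupp.mapDomain_of_notMem_range
  rintro ⟨i, rfl⟩
  exact hj (Finset.mem_map.2 ⟨i, Finset.mem_univ _, rfl⟩)

/-- The point extended by zero. -/
def t1_ext {a N : ℕ} (y : Fin (a + 1) → ℂ) : Fin (N + 1) → ℂ :=
  fun j => if h : j.1 < a + 1 then y ⟨j.1, h⟩ else 0

theorem t1_ext_emb {a N : ℕ} (h : a ≤ N) (y : Fin (a + 1) → ℂ) (i : Fin (a + 1)) :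
    t1_ext (N := N) y (t1_emb h i) = y i := by
  have : ((t1_emb h i : Fin (N + 1)) : ℕ) = i.1 := rfl
  unfold t1_ext
  rw [dif_pos (by rw [this]; exact i.2)]
  rfl

theorem t1_ext_out {a N : ℕ} (h : a ≤ N) (y : Fin (a + 1) → ℂ) (j : Fin (N + 1))
    (hj : j ∉ Set.range (t1_emb h)) : t1_ext (N := N) y j = 0 := by
  unfold t1_ext
  rw [dif_neg]
  intro hlt
  exact hj ⟨⟨j.1, hlt⟩, rfl⟩

theorem t1_ext_norm {a N : ℕ} (h : a ≤ N) (y : Fin (a + 1) → ℂ) :
    ‖t1_ext (N := N) y‖ = ‖y‖ := by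
  apply le_antisymm
  · refine (pi_norm_le_iff_of_nonneg (norm_nonneg _)).2 fun j => ?_
    unfold t1_ext
    split_ifs with hj
    · exact norm_le_pi_norm y _
    · rw [norm_zero]; exact norm_nonneg _
  · refine (pi_norm_le_iff_of_nonneg (norm_nonneg _)).2 fun i => ?_
    rw [← t1_ext_emb h y i]
    exact norm_le_pi_norm (t1_ext (N := N) y) _

/-- Evaluation of an extended form at an extended point. -/
theorem t1_eval {a N : ℕ} (h : a ≤ N) (y : Fin (a + 1) → ℂ) {F : MvPolynomial (Fin (a + 1)) ℂ}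
    {G : MvPolynomial (Fin (N + 1)) ℂ}
    (hc : ∀ δ : Fin (a + 1) →₀ ℕ, coeff (Finsupp.mapDomain (t1_emb h) δ) G = coeff δ F) :
    eval (t1_ext (N := N) y) G = eval y F := by
  have h1 : eval (t1_ext (N := N) y) (rename (t1_emb h) F) = eval y F := by
    rw [eval_rename]
    congr 1
    apply congrArg
    funext i
    exact t1_ext_emb h y i
  have h2 : eval (t1_ext (N := N) y) (G - rename (t1_emb h) F) = 0 := by
    rw [eval_eq']
    refine Finset.sum_eq_zero fun δ hδ => ?_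
    rw [mem_support_iff, coeff_sub] at hδ
    have h3 : ∃ j, j ∉ Set.range (t1_emb h) ∧ δ j ≠ 0 := by
      by_contra hcon
      push Not at hcon
      apply hδ
      have h4 : Finsupp.mapDomain (t1_emb h) (t1_res h δ) = δ := by
        ext j
        by_cases hj : j ∈ Set.range (t1_emb h)
        · obtain ⟨i, rfl⟩ := hj
          rw [Finsupp.mapDomain_apply (t1_emb_inj h)]
          rfl
        · rw [Finsupp.mapDomain_of_notMem_range _ _ hj, hcon j hj]
      rw [← h4, hc, coeff_rename_mapDomain _ (t1_emb_inj h), sub_self]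
    obtain ⟨j, hj, hj0⟩ := h3
    have h5 : ∏ i, t1_ext (N := N) y i ^ δ i = 0 := by
      apply Finset.prod_eq_zero (Finset.mem_univ j)
      rw [t1_ext_out h y j hj, zero_pow hj0]
    rw [h5, mul_zero]
  rw [map_sub, h1] at h2
  exact sub_eq_zero.1 h2

theorem t1_eval_aeval {σ τ : Type} (g : τ → ℂ) (φ : σ → MvPolynomial τ ℂ) (Ξ : MvPolynomial σ ℂ) :
    eval g (aeval φ Ξ) = eval (fun p => eval g (φ p)) Ξ := by
  induction Ξ using MvPolynomial.induction_on with
  | C a => simp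
  | add p q hp hq => rw [map_add, map_add, map_add, hp, hq]
  | mul_X p i hp => rw [map_mul, map_mul, map_mul, hp, aeval_X, eval_X]

section
variable {k : ℕ} {n q : Fin k → ℕ}

/-- The index type of the forms. -/
abbrev t1_I (S : Finset (Fin k)) (q : Fin k → ℕ) : Type := Σ s : {s // s ∈ S}, Fin (q s.1)

/-- The degrees. -/
def t1_d (S : Finset (Fin k)) (d : (s : Fin k) → Fin (q s) → ℕ) : t1_I S q → ℕ := fun x => d x.1.1 x.2

/-- The coefficients of small forms. -/
noncomputable def t1_F0 {N : ℕ} (hle : ∀ s, n s ≤ N) (S : Finset (Fin k)) (d : (s : Fin k) → Fin (q s) → ℕ)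
    (v : FV (Fin (N + 1)) (t1_d S d) → ℂ) (s : Fin k) (i : Fin (q s)) : MvPolynomial (Fin (n s + 1)) ℂ :=
  fm (fun δ : Ex (Fin (n s + 1)) (d s i) => if hs : s ∈ S then
    v ⟨⟨⟨s, hs⟩, i⟩, ⟨Finsupp.mapDomain (t1_emb (hle s)) δ.1, by
      rw [mem_Ex, t1_deg]; exact mem_Ex.1 δ.2⟩⟩ else 0)

theorem t1_F0_hom {N : ℕ} (hle : ∀ s, n s ≤ N) (S : Finset (Fin k)) (d : (s : Fin k) → Fin (q s) → ℕ)
    (v : FV (Fin (N + 1)) (t1_d S d) → ℂ) (s : Fin k) (i : Fin (q s)) :
    (t1_F0 hle S d v s i).IsHomogeneous (d s i) := fm_homogeneous _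

theorem t1_F0_coeff {N : ℕ} (hle : ∀ s, n s ≤ N) (S : Finset (Fin k)) (d : (s : Fin k) → Fin (q s) → ℕ)
    (v : FV (Fin (N + 1)) (t1_d S d) → ℂ) (s : Fin k) (hs : s ∈ S) (i : Fin (q s))
    (δ : Fin (n s + 1) →₀ ℕ) (h : Finsupp.mapDomain (t1_emb (hle s)) δ ∈ Ex (Fin (N + 1)) (d s i)) :
    coeff δ (t1_F0 hle S d v s i) = v ⟨⟨⟨s, hs⟩, i⟩, ⟨Finsupp.mapDomain (t1_emb (hle s)) δ, h⟩⟩ := by
  have h3 : δ ∈ Ex (Fin (n s + 1)) (d s i) := by
    rw [mem_Ex, ← t1_deg (hle s)]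
    exact mem_Ex.1 h
  have h4 := coeff_fm (fun δ : Ex (Fin (n s + 1)) (d s i) => if hs : s ∈ S then
        v ⟨⟨⟨s, hs⟩, i⟩, ⟨Finsupp.mapDomain (t1_emb (hle s)) δ.1, by
          rw [mem_Ex, t1_deg]; exact mem_Ex.1 δ.2⟩⟩ else 0) ⟨δ, h3⟩
  unfold t1_F0
  rw [h4, dif_pos hs]

/-- The condition. -/
def t1_cond {N : ℕ} (hle : ∀ s, n s ≤ N) (S : Finset (Fin k)) (d : (s : Fin k) → Fin (q s) → ℕ)
    (p : FV (Fin (N + 1)) (t1_d S d)) : Prop :=
  Finsupp.mapDomain (t1_emb (hle p.1.1.1)) (t1_res (hle p.1.1.1) p.2.1) = p.2.1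

open Classical in
/-- The coefficients of the extended forms. -/
noncomputable def t1_vF {N : ℕ} (hle : ∀ s, n s ≤ N) (S : Finset (Fin k)) (d : (s : Fin k) → Fin (q s) → ℕ)
    (v : FV (Fin (N + 1)) (t1_d S d) → ℂ) (F : (s : Fin k) → Fin (q s) → MvPolynomial (Fin (n s + 1)) ℂ)
    (p : FV (Fin (N + 1)) (t1_d S d)) : ℂ :=
  if t1_cond hle S d p then coeff (t1_res (hle p.1.1.1) p.2.1) (F p.1.1.1 p.1.2) else v p

open Classical in
/-- The polynomial in the coefficients of the small forms. -/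
noncomputable def t1_Th {N : ℕ} (hle : ∀ s, n s ≤ N) (S : Finset (Fin k)) (d : (s : Fin k) → Fin (q s) → ℕ)
    (v : FV (Fin (N + 1)) (t1_d S d) → ℂ) (Ξ : MvPolynomial (FV (Fin (N + 1)) (t1_d S d)) ℂ) :
    MvPolynomial (Σ s : Fin k, Fin (q s) × (Fin (n s + 1) →₀ ℕ)) ℂ :=
  aeval (fun p : FV (Fin (N + 1)) (t1_d S d) =>
    if t1_cond hle S d p then (X ⟨p.1.1.1, p.1.2, t1_res (hle p.1.1.1) p.2.1⟩ :
      MvPolynomial (Σ s : Fin k, Fin (q s) × (Fin (n s + 1) →₀ ℕ)) ℂ) else C (v p)) Ξ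

open Classical in
theorem t1_Th_eval {N : ℕ} (hle : ∀ s, n s ≤ N) (S : Finset (Fin k)) (d : (s : Fin k) → Fin (q s) → ℕ)
    (v : FV (Fin (N + 1)) (t1_d S d) → ℂ) (Ξ : MvPolynomial (FV (Fin (N + 1)) (t1_d S d)) ℂ)
    (F : (s : Fin k) → Fin (q s) → MvPolynomial (Fin (n s + 1)) ℂ) :
    eval (fun p => coeff p.2.2 (F p.1 p.2.1)) (t1_Th hle S d v Ξ) = eval (t1_vF hle S d v F) Ξ := by
  unfold t1_Th
  rw [t1_eval_aeval]
  have h : (fun p : FV (Fin (N + 1)) (t1_d S d) =>
      eval (fun p : Σ s : Fin k, Fin (q s) × (Fin (n s + 1) →₀ ℕ) => coeff p.2.2 (F p.1 p.2.1))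
        (if t1_cond hle S d p then (X ⟨p.1.1.1, p.1.2, t1_res (hle p.1.1.1) p.2.1⟩ :
          MvPolynomial (Σ s : Fin k, Fin (q s) × (Fin (n s + 1) →₀ ℕ)) ℂ) else C (v p))) =
      t1_vF hle S d v F := by
    funext p
    unfold t1_vF
    split_ifs with hp
    · rw [eval_X]
    · rw [eval_C]
  rw [h]

theorem t1_vF_F0 {N : ℕ} (hle : ∀ s, n s ≤ N) (S : Finset (Fin k)) (d : (s : Fin k) → Fin (q s) → ℕ)
    (v : FV (Fin (N + 1)) (t1_d S d) → ℂ) : t1_vF hle S d v (t1_F0 hle S d v) = v := by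
  funext p
  obtain ⟨⟨⟨s, hs⟩, i⟩, ⟨δ, hδ⟩⟩ := p
  unfold t1_vF
  split_ifs with hp
  · have hp' : Finsupp.mapDomain (t1_emb (hle s)) (t1_res (hle s) δ) = δ := hp
    have h1 := t1_F0_coeff hle S d v s hs i (t1_res (hle s) δ) (by rw [hp']; exact hδ)
    refine h1.trans ?_
    apply congrArg v
    exact congrArg _ (Subtype.ext hp')
  · rfl

/-- The index type of the coefficients. -/
abbrev t1_W (n q : Fin k → ℕ) (d : (s : Fin k) → Fin (q s) → ℕ) : Type :=
  Σ s : Fin k, Σ i : Fin (q s), Ex (Fin (n s + 1)) (d s i)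

/-- The forms with given coefficients. -/
noncomputable def t1_G (d : (s : Fin k) → Fin (q s) → ℕ) (w : t1_W n q d → ℂ) (s : Fin k) (i : Fin (q s)) :
    MvPolynomial (Fin (n s + 1)) ℂ := fm (fun δ : Ex (Fin (n s + 1)) (d s i) => w ⟨s, i, δ⟩)

theorem t1_G_hom (d : (s : Fin k) → Fin (q s) → ℕ) (w : t1_W n q d → ℂ) (s : Fin k) (i : Fin (q s)) :
    (t1_G d w s i).IsHomogeneous (d s i) := by
  unfold t1_G
  exact fm_homogeneous _

theorem t1_G_self (d : (s : Fin k) → Fin (q s) → ℕ) (F : (s : Fin k) → Fin (q s) → MvPolynomial (Fin (n s + 1)) ℂ)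
    (hF : ∀ s i, (F s i).IsHomogeneous (d s i)) :
    t1_G d (fun x : t1_W n q d => coeff x.2.2.1 (F x.1 x.2.1)) = F := by
  funext s i
  unfold t1_G
  show fm (fun δ : Ex (Fin (n s + 1)) (d s i) => coeff δ.1 (F s i)) = F s i
  exact fm_coeff (hF s i)

theorem t1_G_coeff (d : (s : Fin k) → Fin (q s) → ℕ) (w : t1_W n q d → ℂ) (s : Fin k) (i : Fin (q s))
    (δ : Fin (n s + 1) →₀ ℕ) (h : δ ∈ Ex (Fin (n s + 1)) (d s i)) :
    coeff δ (t1_G d w s i) = w ⟨s, i, ⟨δ, h⟩⟩ :=
  coeff_fm (fun δ : Ex (Fin (n s + 1)) (d s i) => w ⟨s, i, δ⟩) ⟨δ, h⟩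

theorem t1_G_coeff0 (d : (s : Fin k) → Fin (q s) → ℕ) (w : t1_W n q d → ℂ) (s : Fin k) (i : Fin (q s))
    (δ : Fin (n s + 1) →₀ ℕ) (h : δ ∉ Ex (Fin (n s + 1)) (d s i)) :
    coeff δ (t1_G d w s i) = 0 := by
  unfold t1_G
  rw [(fm_homogeneous _).coeff_eq_zero]
  rwa [mem_Ex] at h

open Classical in
/-- The substitution. -/
noncomputable def t1_phi (n : Fin k → ℕ) (d : (s : Fin k) → Fin (q s) → ℕ)
    (p : Σ s : Fin k, Fin (q s) × (Fin (n s + 1) →₀ ℕ)) : MvPolynomial (t1_W n q d) ℂ :=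
  if hp : p.2.2 ∈ Ex (Fin (n p.1 + 1)) (d p.1 p.2.1) then X ⟨p.1, p.2.1, ⟨p.2.2, hp⟩⟩ else 0

theorem t1_phi_eval (d : (s : Fin k) → Fin (q s) → ℕ) (w : t1_W n q d → ℂ)
    (P : MvPolynomial (Σ s : Fin k, Fin (q s) × (Fin (n s + 1) →₀ ℕ)) ℂ) :
    eval w (aeval (t1_phi n d) P) = eval (fun p => coeff p.2.2 (t1_G d w p.1 p.2.1)) P := by
  rw [t1_eval_aeval]
  have h : (fun p => eval w (t1_phi n d p)) = fun p => coeff p.2.2 (t1_G d w p.1 p.2.1) := by
    funext p
    unfold t1_phi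
    split_ifs with hp
    · rw [eval_X, t1_G_coeff d w p.1 p.2.1 p.2.2 hp]
    · rw [map_zero, t1_G_coeff0 d w p.1 p.2.1 p.2.2 hp]
  rw [h]

end

/-- CHUNK T1a (M/L).  One set `S`.  Let `N = ∑ s, n s` (so `n s ≤ N`; `1 ≤ N` if `S` is not empty; if `S` is
empty take `D₀ = 0`, `Θ = 1`: the left-hand side is `0` and `N1 .. ρ ≥ 0`, see `N1` of H67T.Defs), `D₀` from
`hst {s // s ∈ S} N ε`.  For given `q`, `d`: `ι = Σ s : {s // s ∈ S}, Fin (q s)`, `src = Sigma.fst`,
`d' x = d x.1 x.2`; `Dg src d' s = ∑ i, d s i`.  `Ξ` from `hst`; choose `v` with `eval v Ξ ≠ 0`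
(`MvPolynomial.funext`).  A monomial `δ` in `N + 1` variables either involves only the variables
`0, ..., n s` (then it is `δ = Finsupp.mapDomain (Fin.castLE _) δ'`) or not.
`Θ = aeval (fun ⟨⟨s, i⟩, δ⟩ => if δ is of the first kind then X ⟨s, i, δ'⟩ else C (v ⟨⟨s, i⟩, δ⟩)) Ξ`, and the
forms `F s i = ∑ v ⟨⟨s, i⟩, δ⟩ monomial δ' 1` (the `δ` of the first kind; `0`-coefficients or anything for
`s ∉ S`, for example `F s i = X 0 ^ d s i`) show that `Θ` does not vanish at all tuples of forms.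
For forms `F` with `Θ (F) ≠ 0`: let `F' x = fmj (..)` be the form in `N + 1` variables with the
coefficients `eval` of the above; for `y s` in `P^(n s)` let `y' s z` be `y s z` extended by `0`
(`fun j => if h : j < n s + 1 then y s z ⟨j, h⟩ else 0`): `eval (y' s z) (F' ⟨s, i⟩) = eval (y s z) (F s i)`,
`‖y' s z‖ = ‖y s z‖`, so `chi (y' s) = chi (y s)`, `IsHol`, not constant.  Products over
`Σ s : {s // s ∈ S}, Fin (q s)` and sums over `{s // s ∈ S}`: `Fintype.prod_sigma`, `Finset.prod_coe_sort` /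
`Finset.sum_coe_sort`. -/
theorem smt_subset (hst : SmtTypesP) {k : ℕ} (n : Fin k → ℕ) (hn : ∀ s, 1 ≤ n s) (ε : ℝ)
    (hε : 0 < ε) (hε1 : ε ≤ 1) (S : Finset (Fin k)) :
    ∃ D₀ : ℕ, ∀ (q : Fin k → ℕ) (d : (s : Fin k) → Fin (q s) → ℕ), (∀ s i, 1 ≤ d s i) →
      (∀ s, D₀ ≤ ∑ i, d s i) →
      ∃ Θ : MvPolynomial (Σ s : Fin k, Fin (q s) × (Fin (n s + 1) →₀ ℕ)) ℂ,
        (∃ F : (s : Fin k) → Fin (q s) → MvPolynomial (Fin (n s + 1)) ℂ,
          (∀ s i, (F s i).IsHomogeneous (d s i)) ∧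
          eval (fun p => coeff p.2.2 (F p.1 p.2.1)) Θ ≠ 0) ∧
        ∀ F : (s : Fin k) → Fin (q s) → MvPolynomial (Fin (n s + 1)) ℂ,
          (∀ s i, (F s i).IsHomogeneous (d s i)) →
          eval (fun p => coeff p.2.2 (F p.1 p.2.1)) Θ ≠ 0 → SmtS d ε F S := by
  classical
  obtain ⟨N, hN1, hle⟩ : ∃ N : ℕ, 1 ≤ N ∧ ∀ s, n s ≤ N := ⟨∑ s, n s + 1, by omega, fun s =>
    (Finset.single_le_sum (f := n) (fun i _ => Nat.zero_le _) (Finset.mem_univ s)).trans (Nat.le_succ _)⟩
  obtain ⟨D₀, h⟩ := hst {s // s ∈ S} N hN1 ε hε hε1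
  refine ⟨D₀, fun q d hd hD => ?_⟩
  have hDg : ∀ t : {s // s ∈ S}, Dg (Sigma.fst : t1_I S q → {s // s ∈ S}) (t1_d S d) t = ∑ i, d t.1 i := by
    intro t
    unfold Dg
    rw [Finset.sum_filter, Fintype.sum_sigma]
    rw [Finset.sum_eq_single t]
    · refine Finset.sum_congr rfl fun i _ => ?_
      exact if_pos rfl
    · intro b _ hb
      refine Finset.sum_eq_zero fun i _ => ?_
      exact if_neg hb
    · intro hb
      exact absurd (Finset.mem_univ _) hb
  obtain ⟨Ξ, hΞ, h1⟩ := h (t1_I S q) Sigma.fst (t1_d S d) (fun x => hd _ _) (fun t => by rw [hDg]; exact hD _)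
  obtain ⟨v, hv⟩ : ∃ v, eval v Ξ ≠ 0 := by
    by_contra hcon
    push Not at hcon
    exact hΞ (MvPolynomial.funext fun x => by rw [hcon x, map_zero])
  refine ⟨t1_Th hle S d v Ξ, ⟨t1_F0 hle S d v, t1_F0_hom hle S d v, ?_⟩, ?_⟩
  · rw [t1_Th_eval, t1_vF_F0]
    exact hv
  · intro F hF hF0
    rw [t1_Th_eval] at hF0
    have h2 := h1 _ hF0
    intro y hy hnc hy0
    have hev : ∀ (t : {s // s ∈ S}) (i : Fin (q t.1)) (z : ℂ),
        eval (t1_ext (N := N) (y t.1 z)) (fmj (t1_vF hle S d v F) ⟨t, i⟩) = eval (y t.1 z) (F t.1 i) := by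
      intro t i z
      refine t1_eval (hle t.1) (y t.1 z) fun δ => ?_
      by_cases hδ : Finsupp.mapDomain (t1_emb (hle t.1)) δ ∈ Ex (Fin (N + 1)) (t1_d S d ⟨t, i⟩)
      · have h3 := coeff_fm (fun δ : Ex (Fin (N + 1)) (t1_d S d ⟨t, i⟩) => t1_vF hle S d v F ⟨⟨t, i⟩, δ⟩) ⟨_, hδ⟩
        rw [fmj, h3]
        unfold t1_vF
        rw [if_pos]
        · show coeff (t1_res (hle t.1) (Finsupp.mapDomain (t1_emb (hle t.1)) δ)) (F t.1 i) = _
          rw [t1_res_map]
        · show Finsupp.mapDomain (t1_emb (hle t.1)) (t1_res (hle t.1) (Finsupp.mapDomain (t1_emb (hle t.1)) δ)) = _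
          rw [t1_res_map]
      · rw [mem_Ex, t1_deg] at hδ
        rw [(hF t.1 i).coeff_eq_zero hδ, fmj, (fm_homogeneous _).coeff_eq_zero]
        rw [t1_deg]
        exact hδ
    have hA : ∀ t : {s // s ∈ S}, IsHol (fun z => t1_ext (N := N) (y t.1 z)) := by
      intro t
      refine ⟨fun j => ?_, fun z => ?_⟩
      · by_cases hj : j.1 < n t.1 + 1
        · have h6 := (hy t.1 t.2).diff ⟨j.1, hj⟩
          have h7 : (fun z => t1_ext (N := N) (y t.1 z) j) = fun z => y t.1 z ⟨j.1, hj⟩ := by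
            funext z
            exact dif_pos hj
          rw [h7]
          exact h6
        · have h7 : (fun z => t1_ext (N := N) (y t.1 z) j) = fun _ => 0 := by
            funext z
            exact dif_neg hj
          rw [h7]
          exact differentiable_const _
      · intro h0
        apply (hy t.1 t.2).ne_zero z
        rw [← norm_eq_zero, ← t1_ext_norm (hle t.1), h0, norm_zero]
    have hB : ∀ t : {s // s ∈ S}, ∃ z w, ∀ c : ℂ,
        t1_ext (N := N) (y t.1 w) ≠ c • t1_ext (N := N) (y t.1 z) := by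
      intro t
      obtain ⟨z, w, hzw⟩ := hnc t.1 t.2
      refine ⟨z, w, fun c hc => hzw c ?_⟩
      funext i
      have h8 := congrFun hc (t1_emb (hle t.1) i)
      simp only [Pi.smul_apply] at h8
      rw [t1_ext_emb, t1_ext_emb] at h8
      exact h8
    have hC : ∀ i : t1_I S q, ∃ z, eval (t1_ext (N := N) (y i.1.1 z)) (fmj (t1_vF hle S d v F) i) ≠ 0 := by
      intro i
      obtain ⟨z, hz⟩ := hy0 i.1.1 i.1.2 i.2
      refine ⟨z, ?_⟩
      rw [← hev i.1 i.2 z] at hz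
      exact hz
    obtain ⟨K, E, hE, hK⟩ := h2 (fun t z => t1_ext (N := N) (y t.1 z)) hA hB hC
    refine ⟨K, E, hE, fun ρ hρ hρE => ?_⟩
    have h4 := hK ρ hρ hρE
    have h5 : (fun z => ∏ i : t1_I S q, eval (t1_ext (N := N) (y i.1.1 z)) (fmj (t1_vF hle S d v F) i)) =
        fun z => ∏ s ∈ S, ∏ i, eval (y s z) (F s i) := by
      funext z
      rw [Fintype.prod_sigma, ← Finset.prod_coe_sort S]
      refine Finset.prod_congr rfl fun t _ => Finset.prod_congr rfl fun i _ => ?_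
      exact hev t i z
    rw [h5] at h4
    refine le_trans (le_of_eq ?_) h4
    rw [← Finset.sum_coe_sort S]
    refine Finset.sum_congr rfl fun t _ => ?_
    rw [← hDg t]
    show _ = (1 - ε) * ((Dg (Sigma.fst : t1_I S q → {s // s ∈ S}) (t1_d S d) t : ℕ) : ℝ) *
      chi (fun z => t1_ext (N := N) (y t.1 z)) ρ
    congr 1
    unfold chi
    congr 1
    funext z
    rw [t1_ext_norm (hle t.1)]

/-- CHUNK T1b (M).  All sets `S` at once: `D₀ = ∑ S, D₀ S`, `Θ = ∏ S, Θ S`.  The product does not vanish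
at all tuples of forms: the tuples of forms of degrees `d s i` are the values of
`v : (Σ s, Fin (q s) × Ex (Fin (n s + 1)) (d s i)) → ℂ` (`fm`, `coeff_fm`, `fm_coeff` of H89T); substitute
`X ⟨s, i, δ⟩ ↦ X ⟨s, i, δ⟩` for `δ` of degree `d s i` and `0` for the others to get nonzero polynomials in `v`
(`MvPolynomial.funext`, `aeval`), whose product is not zero. -/
theorem smt_subsets (hst : SmtTypesP) {k : ℕ} (n : Fin k → ℕ) (hn : ∀ s, 1 ≤ n s) (ε : ℝ)
    (hε : 0 < ε) (hε1 : ε ≤ 1) :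
    ∃ D₀ : ℕ, ∀ (q : Fin k → ℕ) (d : (s : Fin k) → Fin (q s) → ℕ), (∀ s i, 1 ≤ d s i) →
      (∀ s, D₀ ≤ ∑ i, d s i) →
      ∃ Θ : MvPolynomial (Σ s : Fin k, Fin (q s) × (Fin (n s + 1) →₀ ℕ)) ℂ,
        (∃ F : (s : Fin k) → Fin (q s) → MvPolynomial (Fin (n s + 1)) ℂ,
          (∀ s i, (F s i).IsHomogeneous (d s i)) ∧
          eval (fun p => coeff p.2.2 (F p.1 p.2.1)) Θ ≠ 0) ∧
        ∀ F : (s : Fin k) → Fin (q s) → MvPolynomial (Fin (n s + 1)) ℂ,
          (∀ s i, (F s i).IsHomogeneous (d s i)) →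
          eval (fun p => coeff p.2.2 (F p.1 p.2.1)) Θ ≠ 0 → ∀ S, SmtS d ε F S := by
  classical
  choose D₀ h using smt_subset hst n hn ε hε hε1
  refine ⟨∑ S, D₀ S, fun q d hd hD => ?_⟩
  have hD' : ∀ S s, D₀ S ≤ ∑ i, d s i := fun S s =>
    (Finset.single_le_sum (f := D₀) (fun i _ => Nat.zero_le _) (Finset.mem_univ S)).trans (hD s)
  choose Θ hΘ1 hΘ2 using fun S => h S q d hd (hD' S)
  refine ⟨∏ S, Θ S, ?_, ?_⟩
  · have hne : ∀ S, aeval (t1_phi n d) (Θ S) ≠ 0 := by
      intro S h0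
      obtain ⟨F, hF, hF0⟩ := hΘ1 S
      apply hF0
      have h1 := t1_phi_eval d (fun x : t1_W n q d => coeff x.2.2.1 (F x.1 x.2.1)) (Θ S)
      rw [h0, map_zero, t1_G_self d F hF] at h1
      exact h1.symm
    have hprod : ∏ S, aeval (t1_phi n d) (Θ S) ≠ 0 := Finset.prod_ne_zero_iff.2 fun S _ => hne S
    obtain ⟨w, hw⟩ : ∃ w, eval w (∏ S, aeval (t1_phi n d) (Θ S)) ≠ 0 := by
      by_contra hcon
      push Not at hcon
      exact hprod (MvPolynomial.funext fun x => by rw [hcon x, map_zero])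
    refine ⟨t1_G d w, t1_G_hom d w, ?_⟩
    rw [← map_prod, t1_phi_eval] at hw
    exact hw
  · intro F hF hF0 S
    refine hΘ2 S F hF fun h0 => hF0 ?_
    rw [map_prod]
    exact Finset.prod_eq_zero (Finset.mem_univ S) h0

end Pool.Agent.H53R
end
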