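import Pool.Agent.Lib.H1M.PB.M039

/-! Merged copies (to shorten the build) of Lib.H78R.R1, Lib.H78R.R5, Lib.H78R.R2. -/

-- from Lib.H78R.R1
section

set_option autoImplicit false

/-!
R1, the port of Lib/H78B/B1.lean.  The coefficients of the generic extensions of a family of forms, together with further
elements `θ t` of `K`, are algebraically independent over `ℂ`, if the derivatives span (`hspan`).

Proof.  Copy `H89T.genF_independent` (Lib/H89T/DP7.lean).  The point of the parameters: `lam j = 1`,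
`s i b = 0`, `E j i = rename inl (w i j)`.  Apply `H89T.jac (eval pt)` with
`G = Sum.elim (coefficients of genB) (C ∘ θ)`.  Given `v : FV .. ⊕ τ → K`: for every `j` decompose the
form `fm (fun δ => v (inl ⟨j, δ⟩)) = rename inl (V j) + ∑ i, X (inr i) * H j i` (`H89T.decomp`), apply
`hspan V (v ∘ inr)` to get `D, μ, ν`, and let
`D₁ = mcf D + (mkDerivation K (lam j ↦ C (μ j), s i b ↦ C (ν i b),
  E j i δ ↦ C (coeff δ (H j i - C (μ j) * rename inl (w i j))))).restrictScalars ℂ`.
As in DP7: `map (eval pt) (mcf D₁ (genR tl d j (g j))) = fm (v ∘ inl ⟨j, ·⟩)`, and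
`D₁ (C (θ t)) = C (D (θ t))`, so `eval pt` of it is `D (θ t) = v (inr t)`.
-/

open MvPolynomial

namespace Pool.Agent.H78R

open Pool.Agent.H89T Pool.Agent.H53Y Pool.Agent.H78B Pool.Agent.H53R

theorem gen_independentR {K : Type} [Field K] [Algebra ℂ K] {n c : ℕ} {τ₀ ιL : Type}
    [Fintype ιL] (tl : ιL → τ₀)
    (d : ιL → ℕ) (hd : ∀ j, 1 ≤ d j) (g : ιL → MvPolynomial (Fin (n + 1)) K)
    (hg : ∀ j, (g j).IsHomogeneous (d j)) {τ : Type} [Fintype τ] (θ : τ → K)
    (w : Fin c → ιL → MvPolynomial (Fin (n + 1)) K)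
    (hw : ∀ i j, (w i j).IsHomogeneous (d j - 1))
    (hspan : ∀ (f : ιL → MvPolynomial (Fin (n + 1)) K) (v : τ → K),
      (∀ j, (f j).IsHomogeneous (d j)) →
      ∃ (D : Derivation ℂ K K) (μ : ιL → K) (ν : τ₀ → Fin c → Fin n → K),
        (∀ j, f j = mcf D (g j) + C (μ j) * g j +
          ∑ i, (∑ b, C (ν (tl j) i b) * X b.succ) * w i j) ∧
          ∀ t, D (θ t) = v t)
    (Θ : MvPolynomial (FV (Fin (n + 1) ⊕ Fin c) d ⊕ τ) ℂ)
    (hΘ : aeval (Sum.elim (fun x : FV (Fin (n + 1) ⊕ Fin c) d =>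
      (coeff x.2.1 (genR tl d x.1 (g x.1)) : MvPolynomial (PR τ₀ ιL n c d) K))
        (fun t => C (θ t))) Θ = 0) : Θ = 0 := by
  classical
  -- the point
  set pt : PR τ₀ ιL n c d → K := Sum.elim (fun _ => 1) (Sum.elim (fun _ => 0)
    (fun x => coeff x.2.2.1 (rename Sum.inl (w x.2.1 x.1)))) with hpt
  refine jac (eval pt : MvPolynomial (PR τ₀ ιL n c d) K →+* K) _ (fun v => ?_) Θ hΘ
  choose V₀ H hV₀ hH hV using fun j : ιL =>
    decomp (fm fun δ : Ex (Fin (n + 1) ⊕ Fin c) (d j) => v (Sum.inl ⟨j, δ⟩)) (fm_homogeneous _)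
  obtain ⟨D, μ, ν, hV₀', hDθ⟩ := hspan V₀ (fun t => v (Sum.inr t)) hV₀
  set D₁ : Derivation ℂ (MvPolynomial (PR τ₀ ιL n c d) K) (MvPolynomial (PR τ₀ ιL n c d) K) :=
    mcf D + (mkDerivation K (Sum.elim (fun j => C (μ j)) (Sum.elim (fun x => C (ν x.1 x.2.1 x.2.2))
      (fun x => C (coeff x.2.2.1 (H x.1 x.2.1 - C (μ x.1) *
        rename Sum.inl (w x.2.1 x.1))))))).restrictScalars ℂ
    with hD₁
  have hC : ∀ x : K, D₁ (C x) = C (D x) := by
    intro x
    rw [hD₁, Derivation.add_apply, mcf_C]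
    simp
  have hl : ∀ j, D₁ (X (Sum.inl j)) = C (μ j) := by
    intro j
    rw [hD₁, Derivation.add_apply, mcf_X]
    simp [mkDerivation_X]
  have hs : ∀ t i b, D₁ (X (Sum.inr (Sum.inl (t, i, b)))) = C (ν t i b) := by
    intro t i b
    rw [hD₁, Derivation.add_apply, mcf_X]
    simp [mkDerivation_X]
  have hE : ∀ j i δ, D₁ (X (Sum.inr (Sum.inr ⟨j, i, δ⟩))) =
      C (coeff δ.1 (H j i - C (μ j) * rename Sum.inl (w i j))) := by
    intro j i δ
    rw [hD₁, Derivation.add_apply, mcf_X, zero_add, Derivation.restrictScalars_apply,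
      mkDerivation_X]
    rfl
  have hmain : ∀ j, map (eval pt) (mcf D₁ (genR (c := c) tl d j (g j))) =
      fm fun δ : Ex (Fin (n + 1) ⊕ Fin c) (d j) => v (Sum.inl ⟨j, δ⟩) := by
    intro j
    have hg' : mcf D₁ (map (C : K →+* MvPolynomial (PR τ₀ ιL n c d) K) (g j)) =
        map C (mcf D (g j)) := by
      ext m
      rw [coeff_mcf, coeff_map, coeff_map, coeff_mcf, hC]
    have hev : (eval pt).comp (C : K →+* MvPolynomial (PR τ₀ ιL n c d) K) = RingHom.id K := by
      ext x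
      simp
    have hrn : ∀ P : MvPolynomial (Fin (n + 1)) K, map (eval pt)
        (rename (Sum.inl : Fin (n + 1) → Fin (n + 1) ⊕ Fin c)
          (map (C : K →+* MvPolynomial (PR τ₀ ιL n c d) K) P)) = rename Sum.inl P := by
      intro P
      rw [map_rename, map_map, hev, map_id]
    have hfm : ∀ i : Fin c, map (eval pt) (fm fun δ : Ex (Fin (n + 1) ⊕ Fin c) (d j - 1) =>
        (X (Sum.inr (Sum.inr ⟨j, i, δ⟩)) : MvPolynomial (PR τ₀ ιL n c d) K)) =
        rename Sum.inl (w i j) := by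
      intro i
      rw [map_fm]
      have h1 : (fun δ : Ex (Fin (n + 1) ⊕ Fin c) (d j - 1) =>
          eval pt (X (Sum.inr (Sum.inr ⟨j, i, δ⟩)) : MvPolynomial (PR τ₀ ιL n c d) K)) =
          fun δ => coeff δ.1 (rename Sum.inl (w i j)) := by
        funext δ
        rw [eval_X, hpt]
        rfl
      rw [h1]
      exact fm_coeff (hw i j).rename_isHomogeneous
    have hfm' : ∀ i : Fin c, map (eval pt) (mcf D₁ (fm fun δ :
        Ex (Fin (n + 1) ⊕ Fin c) (d j - 1) =>
        (X (Sum.inr (Sum.inr ⟨j, i, δ⟩)) : MvPolynomial (PR τ₀ ιL n c d) K))) =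
        H j i - C (μ j) * rename Sum.inl (w i j) := by
      intro i
      rw [mcf_fm, map_fm]
      have h1 : (fun δ : Ex (Fin (n + 1) ⊕ Fin c) (d j - 1) =>
          eval pt (D₁ (X (Sum.inr (Sum.inr ⟨j, i, δ⟩)) : MvPolynomial (PR τ₀ ιL n c d) K))) =
          fun δ => coeff δ.1 (H j i - C (μ j) * rename Sum.inl (w i j)) := by
        funext δ
        rw [hE, eval_C]
      rw [h1]
      refine fm_coeff ((hH j i).sub ?_)
      have h2 := (isHomogeneous_C (Fin (n + 1) ⊕ Fin c) (μ j)).mul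
        ((hw i j).rename_isHomogeneous (f := (Sum.inl : Fin (n + 1) → Fin (n + 1) ⊕ Fin c)))
      rwa [zero_add] at h2
    have hXl : map (eval pt) (C (X (Sum.inl j)) : MvPolynomial (Fin (n + 1) ⊕ Fin c)
        (MvPolynomial (PR τ₀ ιL n c d) K)) = 1 := by
      rw [map_C, eval_X, hpt]
      simp
    have hXs : ∀ t i b, map (eval pt) (C (X (Sum.inr (Sum.inl (t, i, b)))) :
        MvPolynomial (Fin (n + 1) ⊕ Fin c) (MvPolynomial (PR τ₀ ιL n c d) K)) = 0 := by
      intro t i b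
      rw [map_C, eval_X, hpt]
      simp
    rw [genR, Derivation.leibniz, mcf_C, hl, (mcf D₁).map_add, mcf_rename, hg']
    simp only [map_sum, Derivation.leibniz, map_add, mcf_X, mcf_C, hs, smul_eq_mul, mul_zero,
      zero_add, map_mul, hrn, hfm, hfm', hXl, hXs, map_X, map_C, eval_C, zero_mul, add_zero,
      Finset.sum_const_zero, one_mul]
    rw [hV j, hV₀' j]
    simp only [map_add, map_mul, map_sum, rename_C, rename_X, Finset.sum_add_distrib, mul_sub,
      Finset.sum_sub_distrib]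
    have e1 : ∑ x, X (Sum.inr x) * (C (μ j) * rename Sum.inl (w x j)) =
        (∑ x, X (Sum.inr x) * rename Sum.inl (w x j)) * (C (μ j) : MvPolynomial
          (Fin (n + 1) ⊕ Fin c) K) := by
      rw [Finset.sum_mul]
      exact Finset.sum_congr rfl fun x _ => by ring
    have e2 : ∑ x, rename Sum.inl (w x j) * ∑ y, X (Sum.inl y.succ) * C (ν (tl j) x y) =
        ∑ x, (∑ y, C (ν (tl j) x y) * X (Sum.inl y.succ)) * (rename Sum.inl (w x j) : MvPolynomial
          (Fin (n + 1) ⊕ Fin c) K) := by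
      refine Finset.sum_congr rfl fun x _ => ?_
      rw [mul_comm]
      congr 1
      exact Finset.sum_congr rfl fun y _ => mul_comm _ _
    rw [e1, e2]
    ring
  refine ⟨D₁, fun γ => ?_⟩
  rcases γ with ⟨j, γ⟩ | t
  · have h1 := hmain j
    change eval pt (D₁ (coeff γ.1 (genR (c := c) tl d j (g j)))) = v (Sum.inl ⟨j, γ⟩)
    rw [← coeff_mcf, ← coeff_map, h1]
    exact coeff_fm _ γ
  · change eval pt (D₁ (C (θ t))) = v (Sum.inr t)
    rw [hC, eval_C]
    exact hDθ t

end Pool.Agent.H78R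
end

-- from Lib.H78R.R5
section

set_option autoImplicit false

/-!
R5, the port of Lib/H78B/B5.lean.  Complex values of the parameters of the generic extension.

Proof.  Copy `H89T.alg1` (Lib/H89T/DP7.lean).  `P = aeval (..) Θ` (the polynomial of `gen_independent`)
is not zero by B1, so `(∏ j, X (inl j)) * P ≠ 0` and it has a nonzero value at a point with complex
coordinates (`funext_set`).  `lam j`, `s i b`, `E j i = fm (coordinates)` are the coordinates of this
point; under `ρ = eval (algebraMap ℂ K ∘ point)` the polynomial `genR tl d j (g j)` becomes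
`big K (lam j) (psi s (E j)) (g j)` (see `h2` in `alg1`; `psi` is defined in Lib/H53Y/IDE.lean).
-/

open MvPolynomial

namespace Pool.Agent.H78R

open Pool.Agent.H89T Pool.Agent.H53Y Pool.Agent.H78B Pool.Agent.H53R

theorem r5_map {K : Type} [Field K] [Algebra ℂ K] {n c : ℕ} {τ₀ ιL : Type} (tl : ιL → τ₀)
    (d : ιL → ℕ) (pt : PR τ₀ ιL n c d → ℂ) (j : ιL) (g : MvPolynomial (Fin (n + 1)) K) :
    map (eval fun i => algebraMap ℂ K (pt i)) (genR tl d j g) =
      big K (pt (Sum.inl j)) (psi (fun i b => pt (Sum.inr (Sum.inl (tl j, i, b))))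
        (fun i => fm fun δ => pt (Sum.inr (Sum.inr ⟨j, i, δ⟩)))) g := by
  set ρ : MvPolynomial (PR τ₀ ιL n c d) K →+* K := eval fun i => algebraMap ℂ K (pt i) with hρ
  have hev : ρ.comp (C : K →+* MvPolynomial (PR τ₀ ιL n c d) K) = RingHom.id K := by
    ext x
    simp [hρ]
  rw [genR, big, psi]
  simp only [map_mul, map_add, map_sum, map_C, map_X, map_rename, map_map, hev, map_id,
    map_fm]
  simp [hρ]

theorem gen_specializeR {K : Type} [Field K] [Algebra ℂ K] {n c : ℕ} {τ₀ ιL : Type} [Fintype τ₀]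
    [Fintype ιL] (tl : ιL → τ₀)
    (d : ιL → ℕ) (hd : ∀ j, 1 ≤ d j) (g : ιL → MvPolynomial (Fin (n + 1)) K)
    (hg : ∀ j, (g j).IsHomogeneous (d j)) {τ : Type} [Fintype τ] (θ : τ → K)
    (w : Fin c → ιL → MvPolynomial (Fin (n + 1)) K)
    (hw : ∀ i j, (w i j).IsHomogeneous (d j - 1))
    (hspan : ∀ (f : ιL → MvPolynomial (Fin (n + 1)) K) (v : τ → K),
      (∀ j, (f j).IsHomogeneous (d j)) →
      ∃ (D : Derivation ℂ K K) (μ : ιL → K) (ν : τ₀ → Fin c → Fin n → K),
        (∀ j, f j = mcf D (g j) + C (μ j) * g j +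
          ∑ i, (∑ b, C (ν (tl j) i b) * X b.succ) * w i j) ∧
          ∀ t, D (θ t) = v t)
    (Θ : MvPolynomial (FV (Fin (n + 1) ⊕ Fin c) d ⊕ τ) ℂ) (hΘ : Θ ≠ 0) :
    ∃ (lam : ιL → ℂ) (s : τ₀ → Fin c → Fin n → ℂ)
      (E : ιL → Fin c → MvPolynomial (Fin (n + 1) ⊕ Fin c) ℂ),
      (∀ j, lam j ≠ 0) ∧ (∀ j i, (E j i).IsHomogeneous (d j - 1)) ∧
      aeval (Sum.elim (fun x : FV (Fin (n + 1) ⊕ Fin c) d =>
        coeff x.2.1 (big K (lam x.1) (psi (s (tl x.1)) (E x.1)) (g x.1))) θ) Θ ≠ 0 := by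
  classical
  set G : FV (Fin (n + 1) ⊕ Fin c) d ⊕ τ → MvPolynomial (PR τ₀ ιL n c d) K :=
    Sum.elim (fun x : FV (Fin (n + 1) ⊕ Fin c) d =>
      (coeff x.2.1 (genR tl d x.1 (g x.1)) : MvPolynomial (PR τ₀ ιL n c d) K)) (fun t => C (θ t)) with hG
  set P : MvPolynomial (PR τ₀ ιL n c d) K := aeval G Θ with hP
  have hP0 : (∏ j : ιL, (X (Sum.inl j) : MvPolynomial (PR τ₀ ιL n c d) K)) * P ≠ 0 :=
    mul_ne_zero (Finset.prod_ne_zero_iff.2 fun j _ => X_ne_zero _)
      fun h => hΘ (gen_independentR tl d hd g hg θ w hw hspan Θ h)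
  obtain ⟨pt, hpt⟩ : ∃ pt : PR τ₀ ιL n c d → ℂ, eval (fun i => algebraMap ℂ K (pt i))
      ((∏ j : ιL, (X (Sum.inl j) : MvPolynomial (PR τ₀ ιL n c d) K)) * P) ≠ 0 := by
    by_contra hcon
    push Not at hcon
    apply hP0
    refine funext_set (fun _ => Set.range (algebraMap ℂ K))
      (fun _ => Set.infinite_range_of_injective (algebraMap ℂ K).injective) fun x hx => ?_
    choose pt hpt using fun i => hx i trivial
    rw [← funext hpt, map_zero]
    exact hcon pt
  rw [map_mul, map_prod] at hpt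
  refine ⟨fun j => pt (Sum.inl j), fun t i b => pt (Sum.inr (Sum.inl (t, i, b))),
    fun j i => fm fun δ => pt (Sum.inr (Sum.inr ⟨j, i, δ⟩)), fun j h => ?_,
    fun j i => fm_homogeneous _, ?_⟩
  · have h1 := Finset.prod_ne_zero_iff.1 (left_ne_zero_of_mul hpt) j (Finset.mem_univ j)
    rw [eval_X] at h1
    have h' : pt (Sum.inl j) = 0 := h
    rw [h', map_zero] at h1
    exact h1 rfl
  · have h1 := right_ne_zero_of_mul hpt
    set ρ : MvPolynomial (PR τ₀ ιL n c d) K →+* K := eval fun i => algebraMap ℂ K (pt i) with hρ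
    have h4 : ρ.comp (algebraMap ℂ (MvPolynomial (PR τ₀ ιL n c d) K)) = algebraMap ℂ K := by
      ext x
      rw [RingHom.comp_apply, IsScalarTower.algebraMap_apply ℂ K (MvPolynomial (PR τ₀ ιL n c d) K),
        MvPolynomial.algebraMap_eq, hρ, eval_C]
    have h5 : ρ P = aeval (fun x => ρ (G x)) Θ := by
      rw [hP, aeval_def, aeval_def, hom_eval₂, h4]
    have h6 : (fun x => ρ (G x)) = Sum.elim (fun x : FV (Fin (n + 1) ⊕ Fin c) d =>
        coeff x.2.1 (big K (pt (Sum.inl x.1)) (psi (fun i b => pt (Sum.inr (Sum.inl (tl x.1, i, b))))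
          (fun i => fm fun δ => pt (Sum.inr (Sum.inr ⟨x.1, i, δ⟩)))) (g x.1))) θ := by
      funext x
      rcases x with x | t
      · change ρ (coeff x.2.1 (genR tl d x.1 (g x.1))) = coeff x.2.1 _
        rw [← r5_map tl d pt x.1 (g x.1), coeff_map]
      · change ρ (C (θ t)) = θ t
        rw [hρ, eval_C]
    rw [← h6, ← h5]
    exact h1

end Pool.Agent.H78R
end

-- from Lib.H78R.R2
section

set_option autoImplicit false

/-!
R2.  The greedy choice for families of forms, separately for every factor: `H78B.greedy_family`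
for `T ∩ V_t`, which has codimension at most `c` in `V_t`.
-/

open MvPolynomial

namespace Pool.Agent.H78R

open Pool.Agent.H89T Pool.Agent.H53Y Pool.Agent.H78B Pool.Agent.H53R

/-- extension by zero of the families with `tl j = t` -/
noncomputable def r2ext {K : Type} [Field K] {τ ιL : Type} [DecidableEq τ] (tl : ιL → τ)
    (V : ιL → Type) [∀ j, AddCommGroup (V j)] [∀ j, Module K (V j)] (t : τ) :
    (∀ j : {j : ιL // tl j = t}, V j.1) →ₗ[K] ∀ j, V j where
  toFun v j := if h : tl j = t then v ⟨j, h⟩ else 0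
  map_add' v v' := by
    funext j
    by_cases h : tl j = t
    · simp only [Pi.add_apply, dif_pos h]
    · simp only [Pi.add_apply, dif_neg h, add_zero]
  map_smul' a v := by
    funext j
    by_cases h : tl j = t
    · simp only [Pi.smul_apply, dif_pos h, RingHom.id_apply]
    · simp only [Pi.smul_apply, dif_neg h, smul_zero]

theorem r2ext_apply {K : Type} [Field K] {τ ιL : Type} [DecidableEq τ] (tl : ιL → τ)
    (V : ιL → Type) [∀ j, AddCommGroup (V j)] [∀ j, Module K (V j)] (t : τ)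
    (v : ∀ j : {j : ιL // tl j = t}, V j.1) (j : ιL) :
    r2ext (K := K) tl V t v j = if h : tl j = t then v ⟨j, h⟩ else 0 := rfl

theorem r2ext_single {K : Type} [Field K] {τ ιL : Type} [DecidableEq τ] [DecidableEq ιL]
    (tl : ιL → τ) (V : ιL → Type) [∀ j, AddCommGroup (V j)] [∀ j, Module K (V j)] (t : τ)
    (j : {j : ιL // tl j = t}) (x : V j.1) :
    r2ext (K := K) tl V t (Pi.single j x) = Pi.single j.1 x := by
  funext i
  rw [r2ext_apply]
  by_cases hi : i = j.1
  · subst hi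
    rw [dif_pos j.2, Pi.single_eq_same]
    exact (Pi.single_eq_same (M := V) j.1 x).symm
  · rw [Pi.single_eq_of_ne hi]
    by_cases h : tl i = t
    · rw [dif_pos h]
      exact Pi.single_eq_of_ne (fun h' => hi (congrArg Subtype.val h')) _
    · rw [dif_neg h]

theorem r2ext_sum {K : Type} [Field K] {τ ιL : Type} [Fintype τ] [DecidableEq τ] (tl : ιL → τ)
    (V : ιL → Type) [∀ j, AddCommGroup (V j)] [∀ j, Module K (V j)]
    (v : ∀ t : τ, ∀ j : {j : ιL // tl j = t}, V j.1) (j : ιL) :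
    (∑ t, r2ext (K := K) tl V t (v t)) j = v (tl j) ⟨j, rfl⟩ := by
  rw [Finset.sum_apply, Finset.sum_eq_single (tl j)]
  · rw [r2ext_apply, dif_pos rfl]
  · intro t _ ht
    rw [r2ext_apply, dif_neg (fun h => ht h.symm)]
  · intro h
    exact absurd (Finset.mem_univ _) h

theorem greedy_prod {K : Type} [Field K] {n c : ℕ} {τ ιL : Type} [Fintype τ] [Fintype ιL]
    [DecidableEq ιL] (tl : ιL → τ)
    (d : ιL → ℕ) (hd : ∀ j, 1 ≤ d j) (g : ιL → MvPolynomial (Fin (n + 1)) K)
    (hg : ∀ j, (g j).IsHomogeneous (d j)) (hg0 : ∀ j, eval (Pi.single 0 1) (g j) ≠ 0)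
    (T : Submodule K (∀ j, homogeneousSubmodule (Fin (n + 1)) K (d j)))
    (hT : ∀ j, (Pi.single j ⟨g j, hg j⟩ : ∀ j, homogeneousSubmodule (Fin (n + 1)) K (d j)) ∈ T)
    (p : Fin c → ∀ j, homogeneousSubmodule (Fin (n + 1)) K (d j))
    (hp : T ⊔ Submodule.span K (Set.range p) = ⊤) :
    ∃ w : Fin c → ιL → MvPolynomial (Fin (n + 1)) K, (∀ i j, (w i j).IsHomogeneous (d j - 1)) ∧
      ∀ f : ∀ j, homogeneousSubmodule (Fin (n + 1)) K (d j), ∃ t ∈ T,
        ∃ ν : τ → Fin c → Fin n → K,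
        ∀ j, (f j : MvPolynomial (Fin (n + 1)) K) =
          t j + ∑ i, (∑ b, C (ν (tl j) i b) * X b.succ) * w i j := by
  classical
  obtain ⟨hfd, hfr⟩ := b3_fin T p hp
  have key : ∀ t : τ, ∃ w : Fin c → {j : ιL // tl j = t} → MvPolynomial (Fin (n + 1)) K,
      (∀ i j, (w i j).IsHomogeneous (d j.1 - 1)) ∧
      ∀ f : ∀ j : {j : ιL // tl j = t}, homogeneousSubmodule (Fin (n + 1)) K (d j.1),
        ∃ t' : ∀ j : {j : ιL // tl j = t}, homogeneousSubmodule (Fin (n + 1)) K (d j.1),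
        r2ext (K := K) tl (fun j => homogeneousSubmodule (Fin (n + 1)) K (d j)) t t' ∈ T ∧
        ∃ ν : Fin c → Fin n → K,
        ∀ j, (f j : MvPolynomial (Fin (n + 1)) K) =
          t' j + ∑ i, (∑ b, C (ν i b) * X b.succ) * w i j := by
    intro t
    obtain ⟨q, hq⟩ := b3_lift (T.mkQ ∘ₗ
      r2ext (K := K) tl (fun j => homogeneousSubmodule (Fin (n + 1)) K (d j)) t) hfr
    obtain ⟨w, hw1, hw2⟩ := greedy_family (n := n) (c := c) (fun j : {j : ιL // tl j = t} => d j.1)
      (fun j => hd j.1) (fun j => g j.1) (fun j => hg j.1) (fun j => hg0 j.1)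
      (T.comap (r2ext (K := K) tl (fun j => homogeneousSubmodule (Fin (n + 1)) K (d j)) t))
      (fun j => by
        rw [Submodule.mem_comap, r2ext_single (K := K) tl
          (fun j => homogeneousSubmodule (Fin (n + 1)) K (d j)) t j]
        exact hT j.1) q (by
        rw [eq_top_iff]
        rintro v -
        obtain ⟨μ, hμ⟩ := hq v
        have h1 : v - ∑ i, μ i • q i ∈
            T.comap (r2ext (K := K) tl (fun j => homogeneousSubmodule (Fin (n + 1)) K (d j)) t) := by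
          rw [Submodule.mem_comap, ← Submodule.Quotient.mk_eq_zero]
          have h2 : (T.mkQ ∘ₗ r2ext (K := K) tl
              (fun j => homogeneousSubmodule (Fin (n + 1)) K (d j)) t) (v - ∑ i, μ i • q i) = 0 := by
            rw [map_sub, hμ, map_sum]
            simp only [map_smul]
            exact sub_self _
          exact h2
        have h3 : v = (v - ∑ i, μ i • q i) + ∑ i, μ i • q i := (sub_add_cancel _ _).symm
        rw [h3]
        refine Submodule.add_mem_sup h1 (Submodule.sum_mem _ fun i _ => ?_)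
        exact Submodule.smul_mem _ _ (Submodule.subset_span ⟨i, rfl⟩))
    refine ⟨w, hw1, fun f => ?_⟩
    obtain ⟨t', ht', ν, h⟩ := hw2 f
    exact ⟨t', ht', ν, h⟩
  choose w hw1 hw2 using key
  refine ⟨fun i j => w (tl j) i ⟨j, rfl⟩, fun i j => hw1 (tl j) i ⟨j, rfl⟩, fun f => ?_⟩
  choose t' ht' ν h using fun t : τ => hw2 t (fun j => f j.1)
  refine ⟨∑ t, r2ext (K := K) tl (fun j => homogeneousSubmodule (Fin (n + 1)) K (d j)) t (t' t),
    Submodule.sum_mem _ fun t _ => ht' t, ν, fun j => ?_⟩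
  rw [r2ext_sum (K := K) tl (fun j => homogeneousSubmodule (Fin (n + 1)) K (d j)) t' j]
  exact h (tl j) ⟨j, rfl⟩

end Pool.Agent.H78R
end
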