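import Pool.Agent.Lib.H1M.PB.M001
import Pool.Agent.Lib.H1M.PB.M012
import Pool.Agent.Lib.H1M.PB.M022
import Pool.Agent.Lib.H1M.PB.M039
import Pool.Agent.Lib.H1M.PB.M040

/-! Merged copies (to shorten the build) of Lib.H53Y.F13b, Lib.H53R.F02, Lib.H53R.F13b. -/

-- from Lib.H53Y.F13b
section

set_option autoImplicit false

/-!
H53Y, chunk F13b (M, four lemmas): the last steps.
-/

open MvPolynomial Real MeasureTheory

namespace Pool.Agent.H53Y

open Pool.Agent.H89T Pool.Agent.H78G Pool.Agent.H67T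

theorem f13b_err {n : ℕ} (y : ℂ → Fin n → ℂ) (r R : ℝ) : 1 ≤ err y r R := by
  unfold err
  have h1 := posLog_nonneg (x := chi y R)
  have h2 := posLog_nonneg (x := 1 / (R - r))
  have h3 := posLog_nonneg (x := R)
  linarith

theorem f13b_sum {κ σ : Type} [Fintype κ] [Fintype σ] (sx : κ → σ) (de : σ → ℕ) :
    ∑ t, de (sx t) = ∑ s, Nat.card {x : κ // sx x = s} * de s := by
  classical
  rw [← Finset.sum_fiberwise Finset.univ sx (fun t => de (sx t))]
  refine Finset.sum_congr rfl fun s _ => ?_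
  rw [Finset.sum_congr rfl (g := fun _ => de s)
    (fun t ht => by rw [(Finset.mem_filter.1 ht).2]), Finset.sum_const, smul_eq_mul,
    Nat.card_eq_fintype_card, Fintype.card_subtype]


/-- CHUNK F13b (2).  Proof.  `card_outside`: `K ≤ K' + c (K / nb + 1)`, and
`2 c (K / nb) ≤ nb (K / nb) ≤ K`, so `2 K ≤ 2 K' + K + 2 c`. -/
theorem card_outside_ge {κ σ : Type} [Finite κ] {sx : κ → σ} {nb c M : ℕ} {part : κ → Fin nb}
    (h : ∀ s b, Nat.card {x : κ // sx x = s ∧ part x = b} ≤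
      Nat.card {x : κ // sx x = s} / nb + 1) (hnb : 2 * c ≤ nb) (S : Finset (Fin nb))
    (hS : S.card ≤ c) (s : σ) (hK : 2 * (c + M) ≤ Nat.card {x : κ // sx x = s}) :
    M ≤ Nat.card {x : {x : κ // part x ∉ S} // sx x.1 = s} := by
  have h1 := card_outside h S hS s
  have h2 : nb * (Nat.card {x : κ // sx x = s} / nb) ≤ Nat.card {x : κ // sx x = s} :=
    Nat.mul_div_le _ _
  have h3 : 2 * c * (Nat.card {x : κ // sx x = s} / nb) ≤
      nb * (Nat.card {x : κ // sx x = s} / nb) := Nat.mul_le_mul_right _ hnb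
  rw [mul_add, mul_one] at h1
  have h4 : 2 * c * (Nat.card {x : κ // sx x = s} / nb) =
      2 * (c * (Nat.card {x : κ // sx x = s} / nb)) := mul_assoc _ _ _
  omega

/-- CHUNK F13b (3).  Proof.  With `K s = Nat.card {x // sx x = s}` and
`K' s = Nat.card {x : {x // part x ∉ S} // sx x.1 = s}`: `∑ t, de (sx t) = ∑ s, K s * de s`
(`Finset.sum_fiberwise` or `Finset.card_eq_sum_card_fiberwise`..), the same for `K'`, and
`nb * K s ≤ nb * K' s + c * (K s + nb)` by `card_outside` and `nb * (K / nb) ≤ K`. -/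
theorem degree_outside {κ σ : Type} [Fintype κ] [Fintype σ] {sx : κ → σ} {de : σ → ℕ}
    {nb c : ℕ} {part : κ → Fin nb}
    (h : ∀ s b, Nat.card {x : κ // sx x = s ∧ part x = b} ≤
      Nat.card {x : κ // sx x = s} / nb + 1) (S : Finset (Fin nb)) (hS : S.card ≤ c) :
    nb * ∑ t, de (sx t) ≤ nb * ∑ t : {x : κ // part x ∉ S}, de (sx t.1) +
      c * (∑ t, de (sx t) + nb * ∑ s, de s) := by
  rw [f13b_sum sx de, f13b_sum (fun t : {x : κ // part x ∉ S} => sx t.1) de, Finset.mul_sum,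
    Finset.mul_sum, Finset.mul_sum, ← Finset.sum_add_distrib, Finset.mul_sum,
    ← Finset.sum_add_distrib]
  refine Finset.sum_le_sum fun s _ => ?_
  have h1 := card_outside h S hS s
  have h2 : nb * (Nat.card {x : κ // sx x = s} / nb) ≤ Nat.card {x : κ // sx x = s} :=
    Nat.mul_div_le _ _
  have h3 : nb * Nat.card {x : κ // sx x = s} ≤
      nb * Nat.card {x : {x : κ // part x ∉ S} // sx x.1 = s} +
        c * (Nat.card {x : κ // sx x = s} + nb) := by
    calc nb * Nat.card {x : κ // sx x = s} ≤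
        nb * (Nat.card {x : {x : κ // part x ∉ S} // sx x.1 = s} +
          c * (Nat.card {x : κ // sx x = s} / nb + 1)) := Nat.mul_le_mul_left _ h1
      _ = nb * Nat.card {x : {x : κ // part x ∉ S} // sx x.1 = s} +
          c * (nb * (Nat.card {x : κ // sx x = s} / nb) + nb) := by ring
      _ ≤ _ := Nat.add_le_add_left (Nat.mul_le_mul_left _ (Nat.add_le_add_right h2 _)) _
  calc nb * (Nat.card {x : κ // sx x = s} * de s) =
      nb * Nat.card {x : κ // sx x = s} * de s := by ring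
    _ ≤ (nb * Nat.card {x : {x : κ // part x ∉ S} // sx x.1 = s} +
        c * (Nat.card {x : κ // sx x = s} + nb)) * de s := Nat.mul_le_mul_right _ h3
    _ = _ := by ring


end Pool.Agent.H53Y
end

-- from Lib.H53R.F02
section

set_option autoImplicit false

/-!
H53R, chunk F02 (M, two theorems): the Segre curve; the last step for several heights.
-/

open MvPolynomial Real MeasureTheory

namespace Pool.Agent.H53R

open Pool.Agent.H89T Pool.Agent.H78G Pool.Agent.H67T Pool.Agent.H53Y Pool.Agent.H49D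

theorem f02_norm {τ : Type} [Fintype τ] {n : τ → ℕ} (x : (t : τ) → Fin (n t + 1) → ℂ) {N : ℕ}
    (e : ((t : τ) → Fin (n t + 1)) ≃ Fin N) :
    ‖fun k : Fin N => ∏ t, x t (e.symm k t)‖ = ∏ t, ‖x t‖ := by
  apply le_antisymm
  · refine (pi_norm_le_iff_of_nonneg (Finset.prod_nonneg fun t _ => norm_nonneg _)).2 fun k => ?_
    rw [norm_prod]
    exact Finset.prod_le_prod (fun t _ => norm_nonneg _) fun t _ => norm_le_pi_norm (x t) _
  · have hex : ∀ t, ∃ i, ‖x t‖ = ‖x t i‖ := by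
      intro t
      obtain ⟨i, hi⟩ := Finite.exists_max fun i => ‖x t i‖
      exact ⟨i, le_antisymm ((pi_norm_le_iff_of_nonneg (norm_nonneg _)).2 hi)
        (norm_le_pi_norm (x t) i)⟩
    choose φ hφ using hex
    have h1 := norm_le_pi_norm (fun k : Fin N => ∏ t, x t (e.symm k t)) (e φ)
    have h2 : ∏ t, ‖x t‖ = ‖∏ t, x t (e.symm (e φ) t)‖ := by
      rw [norm_prod, e.symm_apply_apply]
      exact Finset.prod_congr rfl fun t _ => hφ t
    rw [h2]
    exact h1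

theorem f02_err {n m : ℕ} {y : ℂ → Fin n → ℂ} {Y : ℂ → Fin m → ℂ} {K r R : ℝ} (hK : 0 ≤ K)
    (h1 : - K ≤ chi y R) (h2 : chi y R ≤ chi Y R + K) :
    err y r R ≤ (1 + log 2 + log⁺ K) * err Y r R := by
  have h3 : |chi y R| ≤ |chi Y R| + K := by
    rw [abs_le]
    have h4 := abs_nonneg (chi Y R)
    have h5 := le_abs_self (chi Y R)
    constructor <;> linarith
  have h6 : log⁺ (chi y R) ≤ log 2 + log⁺ (chi Y R) + log⁺ K := by
    calc log⁺ (chi y R) = log⁺ |chi y R| := (posLog_abs _).symm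
      _ ≤ log⁺ (|chi Y R| + K) :=
        monotoneOn_posLog (Set.mem_Ici.2 (abs_nonneg (chi y R)))
          (Set.mem_Ici.2 (add_nonneg (abs_nonneg (chi Y R)) hK)) h3
      _ ≤ log 2 + log⁺ |chi Y R| + log⁺ K := posLog_add
      _ = _ := by rw [posLog_abs]
  have h7 : err y r R ≤ err Y r R + (log 2 + log⁺ K) := by
    unfold err
    linarith
  have h8 := f13b_err Y r R
  have h9 : 0 ≤ log 2 + log⁺ K :=
    add_nonneg (log_nonneg (by norm_num)) posLog_nonneg
  nlinarith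

/-- CHUNK F02a.  The Segre curve.  `Y z (e φ) = ∏ t, y t z (φ t)` for `φ : (t : τ) → Fin (n t + 1)`, `e` a
numbering of these `φ` (`Fintype.equivFin`).  `‖Y z‖ = ∏ t, ‖y t z‖` (supremum norms: `≤` is clear, for `≥`
choose `φ t` with `‖y t z (φ t)‖ = ‖y t z‖`; compare `norm_ver` in Lib/H53Y/F04.lean), so `Y z ≠ 0` and
`log ‖Y z‖ = ∑ t, log ‖y t z‖`, and the circle averages add (`circleAverage_fun_sum` or similar;
`log ‖y t ·‖` is continuous, see the lemmas on `chi` in Lib/H67T). -/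
theorem segre {τ : Type} [Fintype τ] {n : τ → ℕ} (y : (t : τ) → ℂ → Fin (n t + 1) → ℂ)
    (hy : ∀ t, IsHol (y t)) :
    ∃ (N : ℕ) (Y : ℂ → Fin N → ℂ), IsHol Y ∧ ∀ r : ℝ, chi Y r = ∑ t, chi (y t) r := by
  classical
  let e := Fintype.equivFin ((t : τ) → Fin (n t + 1))
  have hnorm : ∀ z, ‖fun k => ∏ t, y t z (e.symm k t)‖ = ∏ t, ‖y t z‖ := fun z =>
    f02_norm (fun t => y t z) e
  refine ⟨_, fun z k => ∏ t, y t z (e.symm k t), ⟨fun k => ?_, fun z h => ?_⟩, fun r => ?_⟩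
  · exact Differentiable.fun_finsetProd fun t _ => (hy t).diff (e.symm k t)
  · have h1 := hnorm z
    rw [h, norm_zero] at h1
    exact (Finset.prod_ne_zero_iff.2 fun t _ => norm_ne_zero_iff.2 ((hy t).ne_zero z)) h1.symm
  · have h2 : (fun z => log ‖fun k => ∏ t, y t z (e.symm k t)‖) =
        fun z => ∑ t, log ‖y t z‖ := by
      funext z
      rw [hnorm z]
      exact log_prod fun t _ => norm_ne_zero_iff.2 ((hy t).ne_zero z)
    unfold chi
    rw [h2]
    exact circleAverage_fun_sum fun t _ => NM3_inty (hy t) 0 r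

/-- CHUNK F02b.  Port of `H53Y.finish_smt` (Lib/H53Y/F13b.lean).  `Y` from `segre`.  Let
`K = ∑ t, |chi (y t) 1|`, so `- K ≤ chi (y t) ρ` for `ρ ≥ 1` (`chi_mono`) and
`chi (y t) R ≤ chi Y R + K`.  Hence `err (y t) ρ R ≤ K' * err Y ρ R` (`log⁺ (a + K) ≤ log⁺ a + log⁺ K + log 2`,
`1 ≤ err`).  With `t0 t = r κ' t - cost t - (b t + δ t) r ≥ 0`:
`r ∑ (b t + δ t) chi (y t) ≤ r N + C ∑ err (y t) + ∑ t0 t K`, so with `δ = min δ t > 0` (if `τ` is empty take
`δ = 1`)
`δ * chi Y ρ ≤ (N' ρ - ∑ t, b t * chi (y t) ρ) + C'' * err Y ρ R`; apply `H89T.absorb` to `Y` with `a = δ`,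
`b = 0` and `N := fun ρ => N' ρ - ∑ t, b t * chi (y t) ρ`. -/
theorem finish_smtP {τ : Type} [Fintype τ] {n : ℕ} {y : τ → ℂ → Fin (n + 1) → ℂ} (hy : ∀ t, IsHol (y t))
    {r : ℕ} (κ' cost : τ → ℕ) (b δ : τ → ℝ) (hr : 1 ≤ r) (hδ : ∀ t, 0 < δ t)
    (hcost : ∀ t, (cost t : ℝ) ≤ r * κ' t - b t * r - δ t * r)
    {N N' : ℝ → ℝ} (hN : ∀ ρ, 1 ≤ ρ → N ρ ≤ N' ρ) {C : ℝ} (hC : 0 ≤ C)
    (h : ∀ ρ R : ℝ, 1 ≤ ρ → ρ < R →
      r * ∑ t, (κ' t : ℝ) * chi (y t) ρ ≤
        r * N ρ + ∑ t, (cost t : ℝ) * chi (y t) ρ + C * ∑ t, err (y t) ρ R) :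
    ∃ (C' : ℝ) (E : Set ℝ), volume E < ⊤ ∧ ∀ ρ : ℝ, 2 ≤ ρ → ρ ∉ E →
      ∑ t, b t * chi (y t) ρ ≤ N' ρ + C' * log ρ := by
  classical
  obtain ⟨M, Y, hY, hchi⟩ := segre y hy
  obtain ⟨δ₀, hδ₀, hδt⟩ : ∃ δ₀ : ℝ, 0 < δ₀ ∧ ∀ t, δ₀ ≤ δ t := by
    rcases isEmpty_or_nonempty τ with h0 | h0
    · exact ⟨1, one_pos, fun t => (h0.false t).elim⟩
    · obtain ⟨t, ht⟩ := Finite.exists_min δ
      exact ⟨δ t, hδ t, ht⟩
  set K : ℝ := ∑ t, |chi (y t) 1| with hK
  have hK0 : 0 ≤ K := Finset.sum_nonneg fun t _ => abs_nonneg _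
  have hr0 : (0 : ℝ) < r := by exact_mod_cast hr
  have hlow' : ∀ t ρ, 1 ≤ ρ → -|chi (y t) 1| ≤ chi (y t) ρ := fun t ρ hρ =>
    (neg_abs_le _).trans (chi_mono (hy t) one_pos hρ)
  have hlow : ∀ t ρ, 1 ≤ ρ → -K ≤ chi (y t) ρ := fun t ρ hρ => by
    have h1 := hlow' t ρ hρ
    have h2 : |chi (y t) 1| ≤ K :=
      Finset.single_le_sum (f := fun t => |chi (y t) 1|) (fun i _ => abs_nonneg _)
        (Finset.mem_univ t)
    linarith
  have hup : ∀ t ρ, 1 ≤ ρ → chi (y t) ρ ≤ chi Y ρ + K := fun t ρ hρ => by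
    have h1 : chi (y t) ρ + |chi (y t) 1| ≤ ∑ s, (chi (y s) ρ + |chi (y s) 1|) :=
      Finset.single_le_sum (f := fun s => chi (y s) ρ + |chi (y s) 1|)
        (fun i _ => by linarith [hlow' i ρ hρ]) (Finset.mem_univ t)
    rw [Finset.sum_add_distrib, ← hchi, ← hK] at h1
    have h2 := abs_nonneg (chi (y t) 1)
    linarith
  set K' : ℝ := 1 + log 2 + log⁺ K with hK'
  have hK'0 : 0 ≤ K' := by
    have h1 : 0 ≤ log 2 := log_nonneg (by norm_num)
    have h2 := posLog_nonneg (x := K)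
    rw [hK']
    linarith
  set T : τ → ℝ := fun t => r * κ' t - cost t - (b t + δ₀) * r with hT
  have hT0 : ∀ t, 0 ≤ T t := fun t => by
    have h1 := hcost t
    have h2 := hδt t
    have h3 : δ₀ * r ≤ δ t * r := mul_le_mul_of_nonneg_right h2 hr0.le
    simp only [hT]
    linarith
  have hT1 : 0 ≤ ∑ t, T t := Finset.sum_nonneg fun t _ => hT0 t
  set C₁ : ℝ := C * (Fintype.card τ * K') + (∑ t, T t) * K with hC₁
  have hC₁0 : 0 ≤ C₁ :=
    add_nonneg (mul_nonneg hC (mul_nonneg (Nat.cast_nonneg _) hK'0)) (mul_nonneg hT1 hK0)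
  obtain ⟨C', E, hE, hmain⟩ := absorb hY (a := δ₀) (b := 0) (C := C₁ / r) hδ₀
    (div_nonneg hC₁0 hr0.le) (N := fun ρ => N' ρ - ∑ t, b t * chi (y t) ρ) (by
      intro ρ R hρ hR
      have h1 := h ρ R hρ hR
      have h2 : ∑ t, err (y t) ρ R ≤ Fintype.card τ * K' * err Y ρ R := by
        calc ∑ t, err (y t) ρ R ≤ ∑ _t : τ, K' * err Y ρ R :=
              Finset.sum_le_sum fun t _ =>
                f02_err hK0 (hlow t R (hρ.trans hR.le)) (hup t R (hρ.trans hR.le))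
          _ = _ := by
              rw [Finset.sum_const, Finset.card_univ, nsmul_eq_mul, mul_assoc]
      have h3 : -((∑ t, T t) * K) ≤ ∑ t, T t * chi (y t) ρ := by
        rw [Finset.sum_mul, ← Finset.sum_neg_distrib]
        refine Finset.sum_le_sum fun t _ => ?_
        have h4 := mul_le_mul_of_nonneg_left (hlow t ρ hρ) (hT0 t)
        linarith
      have h5 : ∑ t, T t * chi (y t) ρ = r * ∑ t, (κ' t : ℝ) * chi (y t) ρ -
          ∑ t, (cost t : ℝ) * chi (y t) ρ - r * ∑ t, b t * chi (y t) ρ - r * (δ₀ * chi Y ρ) := by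
        rw [hchi, Finset.mul_sum, Finset.mul_sum, Finset.mul_sum, Finset.mul_sum,
          ← Finset.sum_sub_distrib, ← Finset.sum_sub_distrib, ← Finset.sum_sub_distrib]
        refine Finset.sum_congr rfl fun t _ => ?_
        simp only [hT]
        ring
      have h6 := f13b_err Y ρ R
      have h7 : (∑ t, T t) * K ≤ (∑ t, T t) * K * err Y ρ R :=
        le_mul_of_one_le_right (mul_nonneg hT1 hK0) h6
      have h8 : C * ∑ t, err (y t) ρ R ≤ C * (Fintype.card τ * K' * err Y ρ R) :=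
        mul_le_mul_of_nonneg_left h2 hC
      have h9 : (r : ℝ) * N ρ ≤ r * N' ρ := mul_le_mul_of_nonneg_left (hN ρ hρ) hr0.le
      have h10 : r * (C₁ / r * err Y ρ R) =
          C * (Fintype.card τ * K' * err Y ρ R) + (∑ t, T t) * K * err Y ρ R := by
        rw [← mul_assoc, mul_div_cancel₀ _ hr0.ne', hC₁]
        ring
      refine le_of_mul_le_mul_left ?_ hr0
      rw [mul_add, h10, mul_sub]
      linarith)
  refine ⟨C', E, hE, fun ρ hρ hρE => ?_⟩
  have h1 := hmain ρ hρ hρE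
  rw [zero_mul] at h1
  linarith

end Pool.Agent.H53R
end

-- from Lib.H53R.F13b
section

set_option autoImplicit false

/-!
H53R, chunk F13b (M, two theorems).
-/

open MvPolynomial Real MeasureTheory

namespace Pool.Agent.H53R

open Pool.Agent.H89T Pool.Agent.H78G Pool.Agent.H67T Pool.Agent.H53Y Pool.Agent.H49D

/-- CHUNK F13b (1).  Port of `H53Y.degree_outside` (Lib/H53Y/F13b.lean) for the blocks over one `t`:
`Dg (ts ∘ sx) (de ∘ sx) t = ∑ s with ts s = t, Nat.card {x // sx x = s} * de s` (fibrewise, compare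
`f13b_sum`), and `card_outside` for every such `s`. -/
theorem degree_outsideP {τ κ σ : Type} [DecidableEq τ] [Fintype κ] [Fintype σ] {ts : σ → τ}
    {sx : κ → σ} {de : σ → ℕ} {nb c : ℕ} {part : κ → Fin nb}
    (h : ∀ s b, Nat.card {x : κ // sx x = s ∧ part x = b} ≤
      Nat.card {x : κ // sx x = s} / nb + 1) (S : Finset (Fin nb))
    [Fintype {x : κ // part x ∉ S}] (hS : S.card ≤ c) (t : τ) :
    nb * Dg (fun x => ts (sx x)) (fun x => de (sx x)) t ≤
      nb * Dg (fun x : {x : κ // part x ∉ S} => ts (sx x.1)) (fun x => de (sx x.1)) t +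
      c * (Dg (fun x => ts (sx x)) (fun x => de (sx x)) t + nb * Dg ts de t) := by
  have h1 := degree_outside (de := fun s => if ts s = t then de s else 0) h S hS
  unfold Dg
  simp only [Finset.sum_filter]
  refine h1.trans (le_of_eq ?_)
  refine congrArg₂ (· + ·) (congrArg (nb * ·) ?_) rfl
  exact Finset.sum_congr (by ext x; simp) (fun _ _ => rfl)

/-- CHUNK F13b (2).  Port of `H53Y.N1_sub`. -/
theorem N1_subP {τ : Type} {n : ℕ} {ιL σ κ : Type} [Fintype ιL] [Fintype κ] {d : ιL → ℕ} {de : σ → ℕ}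
    {tl : ιL → τ} {ts : σ → τ} {sx : κ → σ} {y : τ → ℂ → Fin (n + 1) → ℂ} (hy : ∀ t, IsHol (y t))
    (f : FV (Fin (n + 1)) d → ℂ) (η : LV (fun t : κ => NV n (de (sx t))) → ℂ)
    (hf : ∀ j, ∃ z, eval (y (tl j) z) (fmj f j) ≠ 0)
    (hη : ∀ t, ∃ z, lin (fun l => η ⟨t, l⟩) (ver n (de (sx t)) (y (ts (sx t)) z)) ≠ 0)
    (Q : κ → Prop) [Fintype {x : κ // Q x}] {ρ : ℝ} (hρ : 1 ≤ ρ) :
    N1 (fun z => (∏ j, eval (y (tl j) z) (fmj f j)) *
        ∏ t : {x : κ // Q x}, lin (fun l => η ⟨t.1, l⟩)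
          (ver n (de (sx t.1)) (y (ts (sx t.1)) z))) ρ ≤
      N1 (fun z => (∏ j, eval (y (tl j) z) (fmj f j)) *
        ∏ t, lin (fun l => η ⟨t, l⟩) (ver n (de (sx t)) (y (ts (sx t)) z))) ρ := by
  have hd0 : ∀ j, Differentiable ℂ fun z => eval (y (tl j) z) (fmj f j) :=
    fun j => differentiable_eval (hy (tl j)).diff _
  have hd1 : Differentiable ℂ fun z => ∏ j, eval (y (tl j) z) (fmj f j) :=
    Differentiable.fun_finsetProd fun j _ => hd0 j
  have hd2 : ∀ t : κ, Differentiable ℂ fun z =>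
      lin (fun l => η ⟨t, l⟩) (ver n (de (sx t)) (y (ts (sx t)) z)) := by
    intro t
    unfold lin
    exact Differentiable.fun_sum fun l _ =>
      ((isHol_ver (hy (ts (sx t))) (de (sx t))).diff l).const_mul _
  have hz1 : ∃ z, ∏ j, eval (y (tl j) z) (fmj f j) ≠ 0 :=
    f1b_prod Finset.univ (f := fun j z => eval (y (tl j) z) (fmj f j)) hd0 hf
  have hz2 : ∃ z, ∏ t, lin (fun l => η ⟨t, l⟩) (ver n (de (sx t)) (y (ts (sx t)) z)) ≠ 0 :=
    f1b_prod Finset.univ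
      (f := fun t z => lin (fun l => η ⟨t, l⟩) (ver n (de (sx t)) (y (ts (sx t)) z))) hd2 hη
  have hz3 : ∃ z, ∏ t : {x : κ // Q x},
      lin (fun l => η ⟨t.1, l⟩) (ver n (de (sx t.1)) (y (ts (sx t.1)) z)) ≠ 0 :=
    f1b_prod Finset.univ (f := fun (t : {x : κ // Q x}) z =>
      lin (fun l => η ⟨t.1, l⟩) (ver n (de (sx t.1)) (y (ts (sx t.1)) z)))
      (fun t => hd2 t.1) (fun t => hη t.1)
  have hd3 : Differentiable ℂ fun z => ∏ t : {x : κ // Q x},
      lin (fun l => η ⟨t.1, l⟩) (ver n (de (sx t.1)) (y (ts (sx t.1)) z)) :=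
    Differentiable.fun_finsetProd fun t _ => hd2 t.1
  have hd4 : Differentiable ℂ fun z => ∏ t,
      lin (fun l => η ⟨t, l⟩) (ver n (de (sx t)) (y (ts (sx t)) z)) :=
    Differentiable.fun_finsetProd fun t _ => hd2 t
  refine N1_mono (hd1.mul hd3) (f1b_mul hd1 hd3 hz1 hz3) (hd1.mul hd4) (f1b_mul hd1 hd4 hz1 hz2)
    ?_ hρ
  intro z hz
  rcases mul_eq_zero.1 hz with h | h
  · exact mul_eq_zero_of_left h _
  · obtain ⟨t, _, ht⟩ := Finset.prod_eq_zero_iff.1 h
    exact mul_eq_zero_of_right _ (Finset.prod_eq_zero (Finset.mem_univ t.1) ht)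

end Pool.Agent.H53R
end
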