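import Pool.Agent.Lib.H1M.PB.M039
import Pool.Agent.Lib.H1M.PB.M041
import Pool.Agent.Lib.H1M.PB.M043
import Pool.Agent.Lib.H1M.PB.M044

/-! Merged copies (to shorten the build) of Lib.H53R.F09, Lib.H53R.F10, Lib.H53Y.F11, Lib.H53R.F11, Lib.H89Y.C2, Lib.H89Y.C4a, Lib.H89Y.C4b, Lib.H89Y.C6a. -/

-- from Lib.H53R.F09
section

set_option autoImplicit false

/-!
H53R, chunk F09 (S/M): the base point.
-/

open MvPolynomial Real MeasureTheory

namespace Pool.Agent.H53R

open Pool.Agent.H89T Pool.Agent.H78G Pool.Agent.H67T Pool.Agent.H53Y Pool.Agent.H49D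

/-- CHUNK F09.  Port of `H53Y.exists_base` (Lib/H53Y/F09.lean): the same proof, `f09_chart (em (tl j)) ..`
for the form `j`. -/
theorem exists_baseP {nt N : ℕ} {τ ιL : Type} [Finite ιL] (tl : ιL → τ) (d : ιL → ℕ)
    (em : τ → Fin N → Fin nt)
    (hem : ∀ t, Function.Injective (em t)) {J : Type} [Finite J] {υ : J → Type}
    (W : ∀ j, MvPolynomial (Fin nt ⊕ υ j) ℂ) (hW : ∀ j, W j ≠ 0)
    (WB : ∀ j : ιL, MvPolynomial (Fin N ⊕ Idx N (d j)) ℂ) (hWB : ∀ j, WB j ≠ 0) :
    ∃ x : Fin nt → ℂ, (∀ b, x b ≠ 0) ∧ (∀ j, ∃ a, eval (Sum.elim x a) (W j) ≠ 0) ∧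
      ∀ (j : ιL) (k : Fin (N + 1)), ∃ G : MvPolynomial (Fin (N + 1)) ℂ, G.IsHomogeneous (d j) ∧
        eval (Sum.elim (bpt (fun b => x (em (tl j) b)) k) (cfF (d j) k G)) (WB j) ≠ 0 := by
  choose pW hpW0 hpW using fun j => f09_W (W j) (hW j)
  choose pB hpB0 hpB using fun q : ιL × Fin (N + 1) =>
    f09_chart (em (tl q.1)) (hem (tl q.1)) q.2 (WB q.1) (hWB q.1)
  obtain ⟨x, hx⟩ := f09_family (Sum.elim (fun b : Fin nt => (X b : MvPolynomial (Fin nt) ℂ))
      (Sum.elim pW pB)) (by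
    rintro (b | j | q)
    · exact X_ne_zero b
    · exact hpW0 j
    · exact hpB0 q)
  refine ⟨x, fun b => ?_, fun j => hpW j x (hx (Sum.inr (Sum.inl j))),
    fun j k => hpB (j, k) x (hx (Sum.inr (Sum.inr (j, k))))⟩
  have h := hx (Sum.inl b)
  rw [Sum.elim_inl, eval_X] at h
  exact h

end Pool.Agent.H53R
end

-- from Lib.H53R.F10
section

set_option autoImplicit false

/-!
H53R, chunk F10 (M, three theorems): the coefficients of the factors are linear in `(g, θ)`.
-/

open MvPolynomial Real MeasureTheory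

namespace Pool.Agent.H53R

open Pool.Agent.H89T Pool.Agent.H78G Pool.Agent.H67T Pool.Agent.H53Y Pool.Agent.H49D

variable {ιL κ τ σ : Type} {n c : ℕ} {m : σ → ℕ} {tl : ιL → τ} {sx : κ → σ} {d : ιL → ℕ}

/-- CHUNK F10a.  All forms occur, for all `j` at once.  As `H53Y.mvF_surj` (Lib/H53Y/F10.lean) with the
base point `x (tl j)` for the form `j` (`mvF x g j` depends only on the `g ⟨j, δ⟩`; take
`g ⟨j, δ⟩ = coeff δ (rename (eqc n c).symm (shear (x (tl j)) (G j)))`). -/
theorem mvF_surjP (x : τ → Fin (n + c) → ℂ) (G : ιL → MvPolynomial (Fin (n + c + 1)) ℂ)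
    (hG : ∀ j, (G j).IsHomogeneous (d j)) :
    ∃ g : FV (Fin (n + 1) ⊕ Fin c) d → ℂ, ∀ j, mvF (x (tl j)) g j = G j := by
  refine ⟨fun y => coeff y.2.1 (rename (eqc n c).symm (shear (x (tl y.1)) (G y.1))), fun j => ?_⟩
  have h1 : ((rename (eqc n c).symm (shear (x (tl j)) (G j))) : MvPolynomial (Fin (n + 1) ⊕ Fin c) ℂ).IsHomogeneous
      (d j) := (shear_homogeneous (x (tl j)) (hG j)).rename_isHomogeneous
  rw [mvF, fmj, fm_coeff h1, rename_rename, Equiv.self_comp_symm, rename_id_apply]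
  have h2 := shear_shear (fun b => - x (tl j) b) (G j)
  simp only [neg_neg] at h2
  exact h2

/-- CHUNK F10b.  Port of `H53Y.aO_poly`; `H53Y.mvF_poly` is reused. -/
theorem aP_poly (x : τ → Fin (n + c) → ℂ) (y : Cf (mP (n + c) m) (sbP tl sx) (dgO (κ := κ) d)) :
    ∃ A : MvPolynomial (FV (Fin (n + 1) ⊕ Fin c) d ⊕ LV (fun t : κ => m (sx t))) ℂ,
      ∀ g θ, eval (Sum.elim g θ) A = aP x g θ y := by
  obtain ⟨j | t, α⟩ := y
  · obtain ⟨A, hA⟩ := mvF_poly (ιL := ιL) (d := d) (x (tl j)) j (ext (0 : Fin (n + c + 1)) (k := d j) α)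
    refine ⟨rename Sum.inl A, fun g θ => ?_⟩
    rw [eval_rename, Sum.elim_comp_inl, hA]
    rfl
  · refine ⟨∑ b, X (Sum.inr ⟨t, b⟩) *
      C (coeff (ext (0 : Fin (m (sx t) + 1)) (k := 1) α) (X b : MvPolynomial (Fin (m (sx t) + 1)) ℂ)), fun g θ => ?_⟩
    have h : aP (tl := tl) x g θ ⟨Sum.inr t, α⟩ =
        coeff (ext (0 : Fin (m (sx t) + 1)) (k := 1) α) (linF (fun b => θ ⟨t, b⟩)) := rfl
    rw [h, linF, coeff_sum, map_sum]
    refine Finset.sum_congr rfl fun b _ => ?_
    rw [map_mul, eval_X, eval_C, coeff_C_mul]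
    rfl

/-- CHUNK F10c.  Port of `H53Y.aO_surj`; `H53Y.f10_lin` is reused. -/
theorem aP_surj (x : τ → Fin (n + c) → ℂ)
    (a : Cf (mP (n + c) m) (sbP tl sx) (dgO (κ := κ) d) → ℂ) :
    ∃ g θ, aP (tl := tl) (sx := sx) x g θ = a := by
  choose G hG hGa using fun j : ιL => exists_form (n := n + c) (k := d j) 0 fun α => a ⟨Sum.inl j, α⟩
  choose H hH hHa using fun t : κ => exists_form (n := m (sx t)) (k := 1) 0 fun α => a ⟨Sum.inr t, α⟩
  obtain ⟨g, hg⟩ := mvF_surjP (tl := tl) x G hG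
  refine ⟨g, fun y => coeff (Finsupp.single y.2 1) (H y.1), ?_⟩
  funext y
  obtain ⟨j | t, α⟩ := y
  · have h : aP (tl := tl) x g (fun y : LV (fun y : κ => m (sx y)) => coeff (Finsupp.single y.2 1) (H y.1))
        ⟨Sum.inl j, α⟩ = cfF (d j) 0 (mvF (x (tl j)) g j) α := rfl
    rw [h, hg, hGa]
  · have h : aP (tl := tl) x g (fun y : LV (fun y : κ => m (sx y)) => coeff (Finsupp.single y.2 1) (H y.1))
        ⟨Sum.inr t, α⟩ = cfF 1 0 (linF (fun b => coeff (Finsupp.single b 1) (H t))) α := rfl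
    rw [h, f10_lin (hH t), hHa]

end Pool.Agent.H53R
end

-- from Lib.H53Y.F11
section

set_option autoImplicit false

/-!
H53Y, chunk F11 (M, two theorems): the good polynomials `Θ S`.
-/

open MvPolynomial Real MeasureTheory

namespace Pool.Agent.H53Y

open Pool.Agent.H89T Pool.Agent.H78G Pool.Agent.H67T

theorem f11_coeff {M : ℕ} (v : Fin (M + 1) → ℂ) (b : Fin (M + 1)) :
    coeff (Finsupp.single b 1) (linF v) = v b := by
  classical
  rw [linF, coeff_sum, Finset.sum_eq_single b]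
  · rw [coeff_C_mul, coeff_X, if_pos rfl, mul_one]
  · intro c _ hc
    rw [coeff_C_mul, coeff_X, if_neg, mul_zero]
    intro h
    exact hc (Finsupp.single_left_injective one_ne_zero h)
  · intro h
    exact absurd (Finset.mem_univ b) h


theorem f11_cast {a b : ℕ} (h : a = b) (x : Fin a) : ((Fin.cast h x : Fin b) : ℕ) = x := rfl




end Pool.Agent.H53Y
end

-- from Lib.H53R.F11
section

set_option autoImplicit false

/-!
H53R, chunk F11 (M, two theorems): the good polynomials `Θ S`.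
-/

open MvPolynomial Real MeasureTheory

namespace Pool.Agent.H53R

open Pool.Agent.H89T Pool.Agent.H78G Pool.Agent.H67T Pool.Agent.H53Y Pool.Agent.H49D

theorem f11_idxP {ιL κ τ σ : Type} {tl : ιL → τ} {sx : κ → σ} {s : σ}
    (y : {i : ιL ⊕ κ // sbP tl sx i = Sum.inr s}) :
    ∃ x : κ, y.1 = Sum.inr x ∧ sx x = s := by
  obtain ⟨i, hi⟩ := y
  rcases i with j | x
  · exact absurd hi (by
      intro h
      have h1 : (Sum.inl (tl j) : τ ⊕ σ) = Sum.inr s := h
      exact absurd h1 (by simp))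
  · exact ⟨x, rfl, Sum.inr.inj hi⟩

/-- The entries of `thP` are variables. -/
theorem f11_thP {ιL κ τ σ : Type} {N : ℕ} {m : σ → ℕ} {tl : ιL → τ} {sx : κ → σ} {s : σ}
    (y : {i : ιL ⊕ κ // sbP tl sx i = Sum.inr s}) (x : κ) (hx : y.1 = Sum.inr x)
    (hs : m s + 1 = m (sx x) + 1)
    (G : ιL → MvPolynomial (Fin (N + 1)) ℂ) (θ : LV (fun x : κ => m (sx x)) → ℂ) (b : Fin (m s + 1)) :
    thP (m := m) (tl := tl) (sx := sx) G θ s y b = θ ⟨x, Fin.cast hs b⟩ := by
  obtain ⟨i, hi⟩ := y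
  obtain rfl : i = Sum.inr x := hx
  exact f11_coeff (fun b => θ ⟨x, b⟩) (Fin.cast hs b)

/-- CHUNK F11a.  Port of `H53Y.exists_gen` (Lib/H53Y/F11.lean; `f11_coeff`, `f11_cast` are reused, `f11_idx`,
`f11_thO` have to be ported to `sbP`, `thP`). -/
theorem exists_genP {ιL κ τ σ : Type} [Finite ιL] [Finite κ] {N : ℕ} {m : σ → ℕ} {tl : ιL → τ}
    {sx : κ → σ} (s : σ) :
    ∃ Θ : MvPolynomial (LV (fun x : κ => m (sx x))) ℂ, Θ ≠ 0 ∧
      ∀ (G : ιL → MvPolynomial (Fin (N + 1)) ℂ) (θ : LV (fun x : κ => m (sx x)) → ℂ),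
        eval θ Θ ≠ 0 → GenPos (thP (m := m) (tl := tl) (sx := sx) G θ s) := by
  classical
  have hft := Fintype.ofFinite {i : ιL ⊕ κ // sbP tl sx i = Sum.inr s}
  choose ix hix hsx using fun y : {i : ιL ⊕ κ // sbP tl sx i = Sum.inr s} => f11_idxP y
  have hms : ∀ y, m s + 1 = m (sx (ix y)) + 1 := fun y => by rw [hsx]
  have hinj : Function.Injective ix := by
    intro y y' h
    apply Subtype.ext
    rw [hix y, hix y', h]
  refine ⟨∏ f : Fin (m s + 1) ↪ {i : ιL ⊕ κ // sbP tl sx i = Sum.inr s},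
    Matrix.det (Matrix.of fun a b : Fin (m s + 1) =>
      (X ⟨ix (f a), Fin.cast (hms (f a)) b⟩ : MvPolynomial (LV (fun x : κ => m (sx x))) ℂ)), ?_, ?_⟩
  · refine Finset.prod_ne_zero_iff.2 fun f _ h0 => ?_
    have h1 := congrArg (eval (fun p : LV (fun x : κ => m (sx x)) =>
      if ∃ a : Fin (m s + 1), p.1 = ix (f a) ∧ (p.2 : ℕ) = a then (1 : ℂ) else 0)) h0
    rw [map_zero, RingHom.map_det] at h1
    have h2 : (eval (fun p : LV (fun x : κ => m (sx x)) =>
        if ∃ a : Fin (m s + 1), p.1 = ix (f a) ∧ (p.2 : ℕ) = a then (1 : ℂ) else 0)).mapMatrix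
        (Matrix.of fun a b : Fin (m s + 1) =>
          (X ⟨ix (f a), Fin.cast (hms (f a)) b⟩ : MvPolynomial (LV (fun x : κ => m (sx x))) ℂ)) = 1 := by
      ext a b
      rw [RingHom.mapMatrix_apply, Matrix.map_apply, Matrix.of_apply, eval_X, Matrix.one_apply]
      by_cases hab : a = b
      · rw [if_pos hab, if_pos]
        exact ⟨a, rfl, by rw [f11_cast, hab]⟩
      · rw [if_neg hab, if_neg]
        rintro ⟨a', h3, h4⟩
        have h5 : a = a' := f.injective (hinj h3)
        rw [f11_cast] at h4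
        apply hab
        rw [h5]
        exact Fin.ext h4.symm
    rw [h2, Matrix.det_one] at h1
    exact one_ne_zero h1
  · intro G θ hθ f hf
    rw [map_prod, Finset.prod_ne_zero_iff] at hθ
    have h1 := hθ ⟨f, hf⟩ (Finset.mem_univ _)
    rw [RingHom.map_det] at h1
    intro h0
    apply h1
    refine Eq.trans ?_ h0
    congr 1
    ext a b
    rw [RingHom.mapMatrix_apply, Matrix.map_apply, Matrix.of_apply, Matrix.of_apply, eval_X]
    exact (f11_thP (f a) (ix (f a)) (hix (f a)) (hms (f a)) G θ b).symm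

/-- CHUNK F11b.  Port of `H53Y.exists_good` with `em t b = e ⟨inl t, b⟩`, `exists_baseP`, `aP_poly`,
`aP_surj`, `mvF_surjP`, `exists_genP`. -/
theorem exists_goodP {n c nt nb : ℕ} {ιL τ σ κ : Type} [Fintype ιL] [Fintype σ] [DecidableEq σ]
    [Fintype τ] [DecidableEq τ] [Fintype κ] (tl : ιL → τ) (d : ιL → ℕ) (m : σ → ℕ) (sx : κ → σ)
    (part : κ → Fin nb) (e : Co (mP (τ := τ) (n + c) m) ≃ Fin nt)
    (W : (S : Finset (Fin nb)) → MvPolynomial (Fin nt ⊕ Cf (mP (n + c) m)
      (sbP tl (fun x : {x : κ // part x ∉ S} => sx x.1)) (dgO d)) ℂ)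
    (hW : ∀ S, W S ≠ 0)
    (WB : ∀ j : ιL, MvPolynomial (Fin (n + c) ⊕ Idx (n + c) (d j)) ℂ) (hWB : ∀ j, WB j ≠ 0) :
    ∃ x : Fin nt → ℂ, (∀ b, x b ≠ 0) ∧
      ∃ Θ : (S : Finset (Fin nb)) → MvPolynomial (FV (Fin (n + 1) ⊕ Fin c) d ⊕
        LV (fun x : {x : κ // part x ∉ S} => m (sx x.1))) ℂ, (∀ S, Θ S ≠ 0) ∧
      ∀ S g θ, eval (Sum.elim g θ) (Θ S) ≠ 0 →
        eval (Sum.elim x (aP (tl := tl) (fun t b => x (e ⟨Sum.inl t, b⟩)) g θ)) (W S) ≠ 0 ∧
        (∀ (j : ιL) (k : Fin (n + c + 1)),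
          eval (Sum.elim (bpt (fun b => x (e ⟨Sum.inl (tl j), b⟩)) k)
            (cfF (d j) k (mvF (fun b => x (e ⟨Sum.inl (tl j), b⟩)) g j))) (WB j) ≠ 0) ∧
        ∀ s, GenPos (thP (m := m) (tl := tl) (sx := fun x : {x : κ // part x ∉ S} => sx x.1)
          (fun j => mvF (fun b => x (e ⟨Sum.inl (tl j), b⟩)) g j) θ s) := by
  classical
  have hem : ∀ t : τ, Function.Injective fun b : Fin (n + c) => e ⟨Sum.inl t, b⟩ := by
    intro t b b' h
    have h1 : (⟨Sum.inl t, b⟩ : Co (mP (τ := τ) (n + c) m)) = ⟨Sum.inl t, b'⟩ := e.injective h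
    exact eq_of_heq (Sigma.mk.inj h1).2
  obtain ⟨x, hx0, hxW, hxB⟩ := exists_baseP (N := n + c) tl d
    (fun (t : τ) (b : Fin (n + c)) => e ⟨Sum.inl t, b⟩) hem W hW WB hWB
  refine ⟨x, hx0, ?_⟩
  have key : ∀ S : Finset (Fin nb), ∃ Θ : MvPolynomial (FV (Fin (n + 1) ⊕ Fin c) d ⊕
        LV (fun x : {x : κ // part x ∉ S} => m (sx x.1))) ℂ, Θ ≠ 0 ∧
      ∀ g θ, eval (Sum.elim g θ) Θ ≠ 0 →
        eval (Sum.elim x (aP (tl := tl) (fun t b => x (e ⟨Sum.inl t, b⟩)) g θ)) (W S) ≠ 0 ∧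
        (∀ (j : ιL) (k : Fin (n + c + 1)),
          eval (Sum.elim (bpt (fun b => x (e ⟨Sum.inl (tl j), b⟩)) k)
            (cfF (d j) k (mvF (fun b => x (e ⟨Sum.inl (tl j), b⟩)) g j))) (WB j) ≠ 0) ∧
        ∀ s, GenPos (thP (m := m) (tl := tl) (sx := fun x : {x : κ // part x ∉ S} => sx x.1)
          (fun j => mvF (fun b => x (e ⟨Sum.inl (tl j), b⟩)) g j) θ s) := by
    intro S
    choose A hA using fun y => aP_poly (κ := {x : κ // part x ∉ S}) (m := m) (tl := tl)
      (sx := fun x : {x : κ // part x ∉ S} => sx x.1) (d := d)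
      (fun (t : τ) (b : Fin (n + c)) => x (e ⟨Sum.inl t, b⟩)) y
    choose B hB using fun (j : ιL) (γ : Fin (n + c + 1) →₀ ℕ) =>
      mvF_poly (d := d) (fun b => x (e ⟨Sum.inl (tl j), b⟩)) j γ
    choose T hT0 hT using fun s : σ => exists_genP (ιL := ιL) (κ := {x : κ // part x ∉ S})
      (N := n + c) (m := m) (tl := tl) (sx := fun x : {x : κ // part x ∉ S} => sx x.1) s
    obtain ⟨P1, hP1⟩ : ∃ P1 : MvPolynomial (FV (Fin (n + 1) ⊕ Fin c) d ⊕
        LV (fun x : {x : κ // part x ∉ S} => m (sx x.1))) ℂ,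
        P1 = aeval (Sum.elim (fun b => C (x b)) A) (W S) := ⟨_, rfl⟩
    have hP1e : ∀ g θ, eval (Sum.elim g θ) P1 =
        eval (Sum.elim x (aP (tl := tl) (fun t b => x (e ⟨Sum.inl t, b⟩)) g θ)) (W S) := by
      intro g θ
      rw [hP1, f09_ea]
      congr 2
      funext i
      rcases i with i | i
      · exact eval_C _
      · exact hA i g θ
    obtain ⟨P2, hP2⟩ : ∃ P2 : ιL × Fin (n + c + 1) → MvPolynomial (FV (Fin (n + 1) ⊕ Fin c) d) ℂ,
        ∀ q, P2 q = aeval (Sum.elim (fun b => C (bpt (fun b => x (e ⟨Sum.inl (tl q.1), b⟩)) q.2 b))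
          (fun α => B q.1 (ext q.2 α))) (WB q.1) := ⟨_, fun _ => rfl⟩
    have hP2e : ∀ q g, eval g (P2 q) = eval (Sum.elim (bpt (fun b => x (e ⟨Sum.inl (tl q.1), b⟩)) q.2)
        (cfF (d q.1) q.2 (mvF (fun b => x (e ⟨Sum.inl (tl q.1), b⟩)) g q.1))) (WB q.1) := by
      intro q g
      rw [hP2]
      refine (f09_ea _ _ _).trans ?_
      congr 2
      funext i
      rcases i with i | i
      · exact eval_C _
      · exact hB q.1 (ext q.2 i) g
    refine ⟨P1 * (∏ q, rename Sum.inl (P2 q)) * ∏ s, rename Sum.inr (T s), ?_, ?_⟩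
    · refine mul_ne_zero (mul_ne_zero ?_ ?_) ?_
      · intro h0
        obtain ⟨a, ha⟩ := hxW S
        obtain ⟨g, θ, hg⟩ := aP_surj (κ := {x : κ // part x ∉ S}) (m := m) (tl := tl)
          (sx := fun x : {x : κ // part x ∉ S} => sx x.1) (d := d)
          (fun (t : τ) (b : Fin (n + c)) => x (e ⟨Sum.inl t, b⟩)) a
        have h1 := hP1e g θ
        rw [h0, map_zero, hg] at h1
        exact ha h1.symm
      · refine Finset.prod_ne_zero_iff.2 fun q _ h0 => ?_
        have h0' : P2 q = 0 := rename_injective _ Sum.inl_injective (by rw [h0, map_zero])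
        obtain ⟨G, hG, hGne⟩ := hxB q.1 q.2
        obtain ⟨g, hg⟩ := mvF_surjP (tl := tl) (d := d)
          (fun (t : τ) (b : Fin (n + c)) => x (e ⟨Sum.inl t, b⟩))
          (fun j => if j = q.1 then G else 0) (fun j => by
            by_cases hj : j = q.1
            · rw [if_pos hj, hj]
              exact hG
            · rw [if_neg hj]
              exact isHomogeneous_zero _ _ _)
        have h1 := hP2e q g
        have h2 := (hg q.1).trans (if_pos rfl)
        rw [h0', map_zero] at h1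
        apply hGne
        refine Eq.trans ?_ h1.symm
        exact congrArg (fun G' => eval (Sum.elim (bpt (fun b => x (e ⟨Sum.inl (tl q.1), b⟩)) q.2)
          (cfF (d q.1) q.2 G')) (WB q.1)) h2.symm
      · refine Finset.prod_ne_zero_iff.2 fun s _ h0 => ?_
        exact hT0 s (rename_injective _ Sum.inr_injective (by rw [h0, map_zero]))
    · intro g θ h
      rw [map_mul, map_mul, map_prod, map_prod] at h
      have h1 := left_ne_zero_of_mul (left_ne_zero_of_mul h)
      have h2 := Finset.prod_ne_zero_iff.1 (right_ne_zero_of_mul (left_ne_zero_of_mul h))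
      have h3 := Finset.prod_ne_zero_iff.1 (right_ne_zero_of_mul h)
      refine ⟨?_, fun j k => ?_, fun s => ?_⟩
      · rw [← hP1e]
        exact h1
      · have h4 := h2 (j, k) (Finset.mem_univ _)
        rw [eval_rename] at h4
        have h5 := hP2e (j, k) g
        rw [← h5]
        exact h4
      · have h4 := h3 s (Finset.mem_univ _)
        rw [eval_rename] at h4
        exact hT s _ θ h4
  choose Θ hΘ0 hΘ using key
  exact ⟨Θ, hΘ0, hΘ⟩

end Pool.Agent.H53R
end

-- from Lib.H89Y.C2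
section

set_option autoImplicit false

/-!
H89Y, CHUNK C2 (M).  Admissible fields preserve property (A).
-/

open MvPolynomial

namespace Pool.Agent.H89Y

open Pool.Agent.H89T Pool.Agent.H78G Pool.Agent.H53Y

variable {β : Type} {m : β → ℕ} {ι : Type} {sb : ι → β} {dg : ι → ℕ} {n r : ℕ}

/-- CHUNK C2a.  PROOF.  As `Adm.mono` (Lib/H89T/C2.lean): `X ^ s = X ^ s' * X ^ (s - s')`. -/
theorem AdG.mono {e : Co m ≃ Fin n} {s s' : ℕ} (hs : s' ≤ s)
    {V : Derivation ℂ (UG m sb dg n r) (UG m sb dg n r)} (h : AdG e s V) : AdG e s' V := by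
  intro i
  obtain ⟨a, b, hab⟩ := Ideal.mem_span_pair.1 (h i)
  rw [Ideal.mem_span_pair]
  refine ⟨a, b * Polynomial.X ^ (s - s'), ?_⟩
  rw [← hab, mul_assoc, ← pow_add, Nat.sub_add_cancel hs]

theorem c2_comm (V W : Derivation ℂ (UG m sb dg n r) (UG m sb dg n r)) (p : Polynomial (UG m sb dg n r)) :
    cf ⁅V, W⁆ p = cf V (cf W p) - cf W (cf V p) := by
  ext1 l
  rw [Polynomial.coeff_sub, coeff_cf, coeff_cf, coeff_cf, coeff_cf, coeff_cf, Derivation.commutator_apply]

theorem c2_der (V : Derivation ℂ (UG m sb dg n r) (UG m sb dg n r)) (p : Polynomial (UG m sb dg n r)) :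
    cf V (Polynomial.derivative p) = Polynomial.derivative (cf V p) := by
  ext1 l
  rw [coeff_cf, Polynomial.coeff_derivative, Polynomial.coeff_derivative, coeff_cf]
  have e : ((l : UG m sb dg n r) + 1) = ((l + 1 : ℕ) : UG m sb dg n r) := by push_cast; rfl
  rw [e, Derivation.leibniz, Derivation.map_natCast, smul_zero, zero_add, smul_eq_mul, mul_comm]

theorem c2_D_v (e : Co m ≃ Fin n) (i : ι) : c1_D (vG e i : Polynomial (UG m sb dg n r)) = 0 := by
  rw [c1_D_apply, cf_NG_vG, sub_self]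

theorem c2_D_X (s : ℕ) : c1_D ((Polynomial.X : Polynomial (UG m sb dg n r)) ^ (s + 1)) =
    -(Polynomial.C ((s : UG m sb dg n r) + 1) * Polynomial.X ^ s) := by
  rw [c1_D_apply, cf_X_pow, Polynomial.derivative_X_pow, zero_sub]
  simp

theorem c2_pair {V : Derivation ℂ (UG m sb dg n r) (UG m sb dg n r)} {x y P : UG m sb dg n r}
    (hx : V x ∈ Ideal.span {x, y}) (hy : V y ∈ Ideal.span {x, y}) (hP : P ∈ Ideal.span {x, y}) :
    V P ∈ Ideal.span {x, y} := by
  have h0 : x ∈ Ideal.span {x, y} := Ideal.subset_span (Set.mem_insert _ _)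
  have h1 : y ∈ Ideal.span {x, y} := Ideal.subset_span (Set.mem_insert_of_mem _ rfl)
  obtain ⟨a, b, hab⟩ := Ideal.mem_span_pair.1 hP
  rw [← hab, map_add, Derivation.leibniz, Derivation.leibniz]
  simp only [smul_eq_mul]
  refine Ideal.add_mem _ (Ideal.add_mem _ ?_ ?_) (Ideal.add_mem _ ?_ ?_)
  · exact Ideal.mul_mem_left _ _ hx
  · exact Ideal.mul_mem_right _ _ h0
  · exact Ideal.mul_mem_left _ _ hy
  · exact Ideal.mul_mem_right _ _ h1

theorem c2_coeff {e : Co m ≃ Fin n} {V : Derivation ℂ (UG m sb dg n r) (UG m sb dg n r)} {s : ℕ}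
    (h : AdG e s V) (i : ι) (J : Ideal (UG m sb dg n r)) (l : ℕ) (hl : l < s) (hJ : ∀ j ≤ l, (vG e i).coeff j ∈ J) :
    V ((vG e i).coeff l) ∈ J := by
  rw [← coeff_cf]
  obtain ⟨a, b, hab⟩ := Ideal.mem_span_pair.1 (h i)
  rw [← hab, Polynomial.coeff_add, Polynomial.coeff_mul_X_pow', if_neg (by omega), add_zero, Polynomial.coeff_mul]
  refine Ideal.sum_mem _ fun x hx => ?_
  have hx' := Finset.HasAntidiagonal.mem_antidiagonal.1 hx
  exact Ideal.mul_mem_left _ _ (hJ x.2 (by omega))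

/-- CHUNK C2b.  PROOF.  Let `v = vG e i`, `cf V v = a * v + b * X ^ (s + 1)` (`Ideal.mem_span_pair`).  `⁅NG, V⁆ P = NG (V P) - V (NG P)`
(`Derivation.commutator_apply`), so coefficientwise `cf ⁅NG, V⁆ v = cf NG (cf V v) - cf V (cf NG v)` (`coeff_cf`), and `cf NG v = derivative v`
(`cf_NG_vG`), `cf V (derivative v) = derivative (cf V v)` (`coeff_cf`, `Polynomial.coeff_derivative`, `Derivation.leibniz`, `V` kills natural numbers:
`Derivation.map_natCast`).  So `cf ⁅NG, V⁆ v = Δ (cf V v)` with the derivation `Δ = cfD NG - derivative` of `A[t]` (see `DD` in Lib/H89T/C2.lean),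
`Δ v = 0`, `Δ (X ^ (s + 1)) = - (s + 1) X ^ s`: `Δ (a v + b X ^ (s + 1)) = Δ a * v + Δ b * X ^ (s + 1) - (s + 1) b X ^ s`. -/
theorem AdG.commutator {e : Co m ≃ Fin n} {s : ℕ} {V : Derivation ℂ (UG m sb dg n r) (UG m sb dg n r)}
    (h : AdG e (s + 1) V) : AdG e s ⁅(NG : Derivation ℂ (UG m sb dg n r) (UG m sb dg n r)), V⁆ := by
  intro i
  rw [c2_comm, cf_NG_vG, c2_der, ← c1_D_apply]
  obtain ⟨a, b, hab⟩ := Ideal.mem_span_pair.1 (h i)
  rw [← hab, map_add, Derivation.leibniz, Derivation.leibniz, c2_D_v, c2_D_X, Ideal.mem_span_pair]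
  refine ⟨c1_D a, -(b * Polynomial.C ((s : UG m sb dg n r) + 1)) + Polynomial.X * c1_D b, ?_⟩
  simp only [smul_eq_mul]
  ring

/-- CHUNK C2c.  PROOF.  `V ((vG e i).coeff l) = (cf V (vG e i)).coeff l` (`coeff_cf`) and `cf V (vG e i) = a * v + b * X ^ 2`: the coefficient `0` is
`a.coeff 0 * v.coeff 0`, the coefficient `1` is `a.coeff 0 * v.coeff 1 + a.coeff 1 * v.coeff 0` (`Polynomial.coeff_mul`, `Polynomial.coeff_mul_X_pow'`;
see `Adm.VV_uA_eq` and `Adm.preserves_ideal` in Lib/H89T/C2.lean).  So `V` maps the generators of `IU e i i'` (two cases of the `if`) into `IU e i i'`;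
`V (x u + y w) = x V u + u V x + y V w + w V y` (`Derivation.leibniz`). -/
theorem AdG.maps_IU [DecidableEq ι] {e : Co m ≃ Fin n} {V : Derivation ℂ (UG m sb dg n r) (UG m sb dg n r)}
    (h : AdG e 2 V) (i i' : ι) {P : UG m sb dg n r} (hP : P ∈ IU e i i') : V P ∈ IU e i i' := by
  unfold IU at hP ⊢
  by_cases hii : i = i'
  · rw [if_pos hii] at hP ⊢
    have h0 : (vG e i).coeff 0 ∈ Ideal.span {(vG e i).coeff 0, (vG e i : Polynomial (UG m sb dg n r)).coeff 1} :=
      Ideal.subset_span (Set.mem_insert _ _)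
    have h1 : (vG e i).coeff 1 ∈ Ideal.span {(vG e i).coeff 0, (vG e i : Polynomial (UG m sb dg n r)).coeff 1} :=
      Ideal.subset_span (Set.mem_insert_of_mem _ rfl)
    refine c2_pair (c2_coeff h i _ 0 (by omega) fun j hj => ?_) (c2_coeff h i _ 1 (by omega) fun j hj => ?_) hP
    · interval_cases j
      exact h0
    · interval_cases j
      · exact h0
      · exact h1
  · rw [if_neg hii] at hP ⊢
    refine c2_pair (c2_coeff h i _ 0 (by omega) fun j hj => ?_) (c2_coeff h i' _ 0 (by omega) fun j hj => ?_) hP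
    · interval_cases j
      exact Ideal.subset_span (Set.mem_insert _ _)
    · interval_cases j
      exact Ideal.subset_span (Set.mem_insert_of_mem _ rfl)

/-- CHUNK C2d.  PROOF.  As `PropAA.field` (Lib/H89T/C2.lean), induction on `q` for all `P`, `V`: `l = 0`: `AdG.maps_IU` and `AdG.mono`; for `l + 1`:
`NG^[l] (NG (V P)) = NG^[l] (V (NG P)) + NG^[l] (⁅NG, V⁆ P)` (`Derivation.commutator_apply`, `Function.iterate_succ_apply`, additivity of the iterates),
`NG P` has the property with `q` instead of `q + 1`, `⁅NG, V⁆` is `(q + 1)`-admissible (`AdG.commutator`). -/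
theorem PropU.field [DecidableEq ι] {e : Co m ≃ Fin n} {q : ℕ} {V : Derivation ℂ (UG m sb dg n r) (UG m sb dg n r)}
    (h : AdG e (q + 1) V) {P : UG m sb dg n r} (hP : PropU e q P) : PropU e q (V P) := by
  induction q generalizing P V with
  | zero => intro l hl; omega
  | succ q ih =>
    intro l hl i i'
    cases l with
    | zero => exact (h.mono (by omega)).maps_IU i i' (hP 0 (by omega) i i')
    | succ l =>
      have e1 : (NG : Derivation ℂ (UG m sb dg n r) (UG m sb dg n r)) (V P) = V (NG P) + ⁅(NG : Derivation ℂ (UG m sb dg n r) (UG m sb dg n r)), V⁆ P := by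
        rw [Derivation.commutator_apply]
        ring
      rw [Function.iterate_succ_apply, e1]
      have hit : ∀ (a b : UG m sb dg n r), (NG : Derivation ℂ (UG m sb dg n r) (UG m sb dg n r))^[l] (a + b) =
          (NG : Derivation ℂ (UG m sb dg n r) (UG m sb dg n r))^[l] a + (NG : Derivation ℂ (UG m sb dg n r) (UG m sb dg n r))^[l] b := by
        intro a b
        exact Function.Semiconj₂.iterate (f := (NG : Derivation ℂ (UG m sb dg n r) (UG m sb dg n r))) (op := (· + ·))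
          (fun a b => map_add (NG : Derivation ℂ (UG m sb dg n r) (UG m sb dg n r)) a b) l a b
      rw [hit]
      refine Ideal.add_mem _ ?_ ?_
      · refine ih (h.mono (by omega)) ?_ l (by omega) i i'
        intro l' hl' i i'
        have h2 := hP (l' + 1) (by omega) i i'
        rwa [Function.iterate_succ_apply] at h2
      · exact ih h.commutator (fun l' hl' => hP l' (by omega)) l (by omega) i i'

end Pool.Agent.H89Y
end

-- from Lib.H89Y.C4a
section

set_option autoImplicit false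

/-!
H89Y, CHUNK C4a (M).  The directions of the coefficients of a factor of large degree.
-/

open MvPolynomial

namespace Pool.Agent.H89Y

open Pool.Agent.H89T Pool.Agent.H78G Pool.Agent.H53Y

variable {β : Type} {m : β → ℕ} {ι : Type} {sb : ι → β} {dg : ι → ℕ} {n r : ℕ}

/-- CHUNK C4a.  A factor of large degree.  PROOF.  As step 1 of `span_fields` (Lib/H89T/C8.lean).  Let `a_i = fun α => a ⟨i, α⟩`, `ξ_i = bj e ξ (sb i)`,
`Q = monomial (fin α) 1 ∈ Sp (m (sb i)) (dg i) r a_i ξ_i` (`mem_Sp`, `totalDegree_monomial_fin`).  The linear map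
`T Q (Sum.inl q) = 0`, `T Q (Sum.inr x) = if h : x.1 = i then Q.coeff (fin (h ▸ x.2)) else 0` (or: `T Q = fun s => Sum.elim 0 (fun x => Function.update
(fun _ _ => 0) i (fun α => Q.coeff (fin α)) x.1 x.2) s`) maps `Sp` into `SpG e c a ξ`: `Submodule.span_induction`; for `G ∈ Verts (m (sb i)) (dg i) r (cF r)` apply
`vD_val` with `g α = io e i (toG (dg i) G α)`: `io_wt` (and `WtS.mono`), `Fx g (bj ..) = map (io e i) (Fx (toG (dg i) G) xA) = map (io e i) (aeval (arc xA) G)`
(`io_Fx`, `Fx_toG`), which is in the ideal because `aeval (arc xA) G ∈ span {Fx aA xA, X ^ (r + 1)}` (write it as `a * _ + b * _`, `Ideal.mem_span_pair`, and apply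
`Polynomial.map`; `map (io e i) (Fx aA xA) = vG e i` by `io_Fx`, `io_aA`); the value at `Sum.inr ⟨i, α⟩` is `evA a_i ξ_i (G.coeff (fin α))` (`eval_io`,
`coeff_map`).  Finally `T (monomial (fin α) 1) = Pi.single (Sum.inr ⟨i, α⟩) 1` (`fin` is injective: `Finsupp.equivFunOnFinite.symm.injective`). -/
theorem vert_large [DecidableEq ι] (e : Co m ≃ Fin n) (i : ι) (hk : r ≤ dg i) (a : Cf m sb dg → ℂ) (ξ : JV n r → ℂ)
    (b : Fin (m (sb i))) (one : Fin (r + 1)) (h1 : (one : ℕ) = 1) (hx : ξ (e ⟨sb i, b⟩, one) ≠ 0)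
    (hF : fv e a (fun b => ξ (b, 0)) i ≠ 0) {c : ℕ} (hc : cF r ≤ c) (α : Idx (m (sb i)) (dg i)) :
    (Pi.single (Sum.inr ⟨i, α⟩) 1 : JV n r ⊕ Cf m sb dg → ℂ) ∈ SpG e c a ξ := by
  have hQ : (monomial (fin α) 1 : MvPolynomial (Fin (m (sb i))) ℂ) ∈
      Sp (m (sb i)) (dg i) r (fun α => a ⟨i, α⟩) (bj e ξ (sb i)) :=
    mem_Sp hk (fun α => a ⟨i, α⟩) (bj e ξ (sb i)) b one h1 hx hF _ (totalDegree_monomial_fin α)
  let T : MvPolynomial (Fin (m (sb i))) ℂ →ₗ[ℂ] (JV n r ⊕ Cf m sb dg → ℂ) :=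
    { toFun := fun Q => Sum.elim (fun _ => 0) fun x =>
        Function.update (fun i' (_ : Idx (m (sb i')) (dg i')) => (0 : ℂ)) i (fun α => Q.coeff (fin α)) x.1 x.2
      map_add' := by
        intro Q Q'
        funext x
        rcases x with q | ⟨i', β⟩
        · exact (add_zero (0 : ℂ)).symm
        · by_cases hi : i' = i
          · subst hi
            simp only [Sum.elim_inr, Pi.add_apply, Function.update_self, coeff_add]
          · simp only [Sum.elim_inr, Pi.add_apply, Function.update_of_ne hi, add_zero]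
      map_smul' := by
        intro z Q
        funext x
        rcases x with q | ⟨i', β⟩
        · exact (mul_zero z).symm
        · by_cases hi : i' = i
          · subst hi
            simp only [Sum.elim_inr, Pi.smul_apply, Function.update_self, coeff_smul, RingHom.id_apply]
          · simp only [Sum.elim_inr, Pi.smul_apply, Function.update_of_ne hi, smul_zero, RingHom.id_apply] }
  have hT0 : ∀ Q q, T Q (Sum.inl q) = 0 := fun _ _ => rfl
  have hTi : ∀ Q α, T Q (Sum.inr ⟨i, α⟩) = Q.coeff (fin α) := by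
    intro Q α
    change Function.update (fun i' (_ : Idx (m (sb i')) (dg i')) => (0 : ℂ)) i (fun α => Q.coeff (fin α)) i α = _
    rw [Function.update_self]
  have hTne : ∀ Q i' α, i' ≠ i → T Q (Sum.inr ⟨i', α⟩) = 0 := by
    intro Q i' α hi
    change Function.update (fun i' (_ : Idx (m (sb i')) (dg i')) => (0 : ℂ)) i (fun α => Q.coeff (fin α)) i' α = _
    rw [Function.update_of_ne hi]
  have hle : Sp (m (sb i)) (dg i) r (fun α => a ⟨i, α⟩) (bj e ξ (sb i)) ≤ (SpG e c a ξ).comap T := by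
    unfold Sp
    rw [Submodule.span_le]
    rintro _ ⟨G, ⟨hG1, hG2, hG3⟩, rfl⟩
    refine vD_val (e := e) (c := c) i (fun α => io e i (toG (dg i) G α)) (fun α => ?_) ?_ a ξ _ (hT0 _) (fun α => ?_)
      (fun i' α hi => hTne _ _ _ hi)
    · exact (io_wt e i (hG2 (fin α))).mono hc
    · have h2 := io_Fx (m := m) (sb := sb) (dg := dg) (r := r) e i (toG (dg i) G)
      rw [← h2, Fx_toG G hG1 xA]
      rw [Ideal.mem_span_pair] at hG3
      obtain ⟨u, v, huv⟩ := hG3
      rw [← huv, Polynomial.map_add, Polynomial.map_mul, Polynomial.map_mul, Polynomial.map_pow, Polynomial.map_X]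
      have h3 : Polynomial.map (io (m := m) (sb := sb) (dg := dg) (r := r) e i).toRingHom (Fx aA xA) = vG e i := by
        rw [io_Fx]
        have h4 : (fun α => io e i (aA α : AA (m (sb i)) (dg i) r)) = fun α => (aG ⟨i, α⟩ : UG m sb dg n r) := by
          funext α
          exact io_aA e i α
        rw [h4]
        rfl
      rw [h3, Ideal.mem_span_pair]
      exact ⟨_, _, rfl⟩
    · rw [hTi, coeff_map, eval_io]
      rfl
  have hmem := hle hQ
  rw [Submodule.mem_comap] at hmem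
  have hfin : T (monomial (fin α) 1) = (Pi.single (Sum.inr ⟨i, α⟩) 1 : JV n r ⊕ Cf m sb dg → ℂ) := by
    funext x
    rcases x with q | ⟨i', β⟩
    · rw [hT0, Pi.single_apply, if_neg (by simp)]
    · by_cases hi : i' = i
      · subst hi
        rw [hTi, coeff_monomial, Pi.single_apply]
        by_cases hβ : α = β
        · subst hβ
          rw [if_pos rfl, if_pos rfl]
        · rw [if_neg, if_neg]
          · intro h
            apply hβ
            have h2 := Sum.inr_injective h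
            exact (eq_of_heq (Sigma.mk.inj h2).2).symm
          · intro h
            apply hβ
            have h2 := Finsupp.equivFunOnFinite.symm.injective h
            apply Subtype.ext
            funext b
            exact Fin.ext (congrFun h2 b)
      · rw [hTne _ _ _ hi, Pi.single_apply, if_neg]
        intro h
        exact hi (Sigma.mk.inj (Sum.inr_injective h)).1
  rw [hfin] at hmem
  exact hmem

end Pool.Agent.H89Y
end

-- from Lib.H89Y.C4b
section

set_option autoImplicit false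

/-!
H89Y, CHUNK C4b (M).  The directions of the coefficients of a linear factor.
-/

open MvPolynomial

namespace Pool.Agent.H89Y

open Pool.Agent.H89T Pool.Agent.H78G Pool.Agent.H53Y

variable {β : Type} {m : β → ℕ} {ι : Type} {sb : ι → β} {dg : ι → ℕ} {n r : ℕ}

/-- CHUNK C4b.  A linear factor.  PROOF.  `vD_val` with `g β = if β = α then v.coeff 0 ^ (r + 1) else 0`, `v = vG e i`.
Membership: `Fx g x = C (v.coeff 0 ^ (r + 1)) * ∏ b, arc x b ^ (α.1 b : ℕ)` (unfold `Fx ev`, `Finset.sum_eq_single α`), and `C (v.coeff 0) ^ (r + 1)` is in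
the ideal `(v, X ^ (r + 1))`: the argument `hkey` of `vertical_adm` (Lib/H78G/C3.lean) word by word.  Weight: `v.coeff 0` is
`ev (aG ⟨i, ·⟩) (fun b => xG (e ⟨sb i, b⟩, 0))` (`uu_zero`, Lib/H89T/N1.lean) of weight `≤ 1` (`dg i = 1`: every term is `aG * ∏ x ^ α` with
`∑ α ≤ 1`; `WtS.sum`, `WtS.mul`, `WtS.prod`, `WtS.pow`, `WtS.inl`, `WtS.inr`), so the power has weight `≤ r + 1 ≤ c`.
The value of `v.coeff 0 ^ (r + 1)` is `f ^ (r + 1) ≠ 0`, `f = fv e a ξ_0 i` (`eval_vG_zero`): the vector of `vD_val` is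
`f ^ (r + 1) • Pi.single (Sum.inr ⟨i, α⟩) 1`; divide (`Submodule.smul_mem`). -/
theorem vert_small [DecidableEq ι] (e : Co m ≃ Fin n) (i : ι) (hd : dg i = 1) (a : Cf m sb dg → ℂ) (ξ : JV n r → ℂ)
    (hF : fv e a (fun b => ξ (b, 0)) i ≠ 0) {c : ℕ} (hc : r + 1 ≤ c) (α : Idx (m (sb i)) (dg i)) :
    (Pi.single (Sum.inr ⟨i, α⟩) 1 : JV n r ⊕ Cf m sb dg → ℂ) ∈ SpG e c a ξ := by
  classical
  obtain ⟨v, hv⟩ : ∃ v : Polynomial (UG m sb dg n r), v = vG e i := ⟨_, rfl⟩
  obtain ⟨g, hgd⟩ : ∃ g : Idx (m (sb i)) (dg i) → UG m sb dg n r, g = fun γ => if γ = α then v.coeff 0 ^ (r + 1) else 0 := ⟨_, rfl⟩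
  have hkey : Polynomial.C (v.coeff 0 ^ (r + 1)) ∈ Ideal.span {v, (Polynomial.X : Polynomial (UG m sb dg n r)) ^ (r + 1)} := by
    have h1 : Polynomial.C (v.coeff 0) = v - Polynomial.X * v.divX := by
      have h2 := Polynomial.divX_mul_X_add v
      rw [mul_comm] at h2
      exact eq_sub_of_add_eq (by rw [add_comm]; exact h2)
    rw [map_pow]
    obtain ⟨q, hq⟩ := sub_dvd_pow_sub_pow (Polynomial.C (v.coeff 0)) (-(Polynomial.X * v.divX)) (r + 1)
    have h3 : Polynomial.C (v.coeff 0) - -(Polynomial.X * v.divX) = v := by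
      rw [h1]
      ring
    rw [h3] at hq
    rw [Ideal.mem_span_pair]
    refine ⟨q, (-v.divX) ^ (r + 1), ?_⟩
    have h4 : Polynomial.C (v.coeff 0) ^ (r + 1) = v * q + (-(Polynomial.X * v.divX)) ^ (r + 1) := by
      rw [← hq]
      ring
    have h8 : -(Polynomial.X * v.divX) = Polynomial.X * (-v.divX) := by ring
    rw [h4, h8, mul_pow]
    ring
  have hm : Fx g (bj e xG (sb i)) ∈ Ideal.span {vG e i, (Polynomial.X : Polynomial (UG m sb dg n r)) ^ (r + 1)} := by
    rw [← hv]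
    unfold Fx ev
    refine Ideal.sum_mem _ fun γ _ => Ideal.mul_mem_right _ _ ?_
    rw [hgd]
    by_cases h : γ = α
    · simp only [if_pos h]
      exact hkey
    · simp only [if_neg h, map_zero]
      exact Ideal.zero_mem _
  have hw1 : WtS 1 (v.coeff 0) := by
    have h1 : v.coeff 0 = ev (fun γ => aG ⟨i, γ⟩) (fun b => bj e xG (sb i) (b, 0)) := by
      rw [hv]
      exact uu_zero _ _
    rw [h1]
    unfold ev
    refine WtS.sum fun γ _ => ?_
    have h2 : WtS 0 (aG ⟨i, γ⟩ : UG m sb dg n r) := WtS.inr _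
    have h3 : WtS (∑ b, (γ.1 b : ℕ) * 1) (∏ b, (bj e xG (sb i) (b, 0) : UG m sb dg n r) ^ (γ.1 b : ℕ)) :=
      WtS.prod fun b _ => WtS.pow (WtS.inl (e ⟨sb i, b⟩, 0)) _
    refine (h2.mul h3).mono ?_
    simp only [mul_one, zero_add]
    exact γ.2.trans hd.le
  have hw : ∀ γ, WtS c (g γ) := by
    intro γ
    rw [hgd]
    by_cases h : γ = α
    · simp only [if_pos h]
      refine (hw1.pow (r + 1)).mono ?_
      rw [mul_one]
      exact hc
    · simp only [if_neg h]
      exact WtS.zero _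
  obtain ⟨f, hf⟩ : ∃ f : ℂ, f = fv e a (fun b => ξ (b, 0)) i := ⟨_, rfl⟩
  have hev : eval (Sum.elim ξ a) (v.coeff 0 ^ (r + 1)) = f ^ (r + 1) := by
    rw [map_pow, hv, eval_vG_zero, hf]
  have hT := vD_val (e := e) i g hw hm a ξ (f ^ (r + 1) • (Pi.single (Sum.inr ⟨i, α⟩) 1 : JV n r ⊕ Cf m sb dg → ℂ)) ?_ ?_ ?_
  · rw [← hf] at hF
    have h1 := Submodule.smul_mem _ (f ^ (r + 1))⁻¹ hT
    rwa [smul_smul, inv_mul_cancel₀ (pow_ne_zero _ hF), one_smul] at h1
  · intro q
    rw [Pi.smul_apply, Pi.single_apply, if_neg (by simp), smul_zero]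
  · intro γ
    rw [Pi.smul_apply, Pi.single_apply, hgd]
    by_cases h : γ = α
    · rw [h, if_pos rfl, smul_eq_mul, mul_one]
      simp only [if_true]
      exact hev.symm
    · rw [if_neg, smul_zero]
      · simp only [if_neg h, map_zero]
      · intro h'
        apply h
        have h2 := Sum.inr_injective h'
        exact eq_of_heq (Sigma.mk.inj h2).2
  · intro i' γ hi
    rw [Pi.smul_apply, Pi.single_apply, if_neg, smul_zero]
    intro h'
    exact hi (Sigma.mk.inj (Sum.inr_injective h')).1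

end Pool.Agent.H89Y
end

-- from Lib.H89Y.C6a
section

set_option autoImplicit false

/-!
H89Y, CHUNK C6a (M).  Linear factors; weights and renaming.
-/

open MvPolynomial

namespace Pool.Agent.H89Y

open Pool.Agent.H89T Pool.Agent.H78G Pool.Agent.H53Y

variable {n d r : ℕ} {B : Type} [CommRing B]

/-- The index of the constant coefficient (`0`) and of the coefficient of the variable `b` (`b.succ`) of a linear polynomial. -/
def ix (hd : d = 1) (c : Fin (n + 1)) : Idx n d :=
  ⟨fun b => if c = b.succ then ⟨1, by omega⟩ else 0, by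
    classical
    rcases Fin.eq_zero_or_eq_succ c with h | ⟨b₀, h⟩
    · subst h
      simp [(Fin.succ_ne_zero _).symm]
    · subst h
      rw [Finset.sum_eq_single b₀]
      · simp [hd]
      · intro b _ hb
        have h1 : ¬ (b₀.succ = b.succ) := fun h => hb (Fin.succ_injective _ h).symm
        simp [h1]
      · intro h; exact absurd (Finset.mem_univ _) h⟩

/-- CHUNK C6a1.  PROOF.  `subst hd`.  Injective: `ix c = ix c'`: compare the values at the `b`s (`Subtype.ext_iff`, `congrFun`): `c = b.succ ↔ c' = b.succ` for all `b`;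
`Fin.cases`.  Surjective: `α` with `∑ α ≤ 1`: if all `α b = 0` take `0`; otherwise some `α b₀ = 1` (`Fin 2`) and the other values are `0`
(`Finset.single_le_sum`, `Finset.add_sum_erase`), take `b₀.succ`. -/
theorem ix_bij (hd : d = 1) : Function.Bijective (ix hd : Fin (n + 1) → Idx n d) := by
  subst hd
  constructor
  · intro c c' h
    have h1 : ∀ b : Fin n, c = b.succ ↔ c' = b.succ := by
      intro b
      have h2 := congrFun (congrArg Subtype.val h) b
      change (if c = b.succ then (⟨1, by omega⟩ : Fin 2) else 0) = (if c' = b.succ then (⟨1, by omega⟩ : Fin 2) else 0) at h2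
      by_cases hc : c = b.succ
      · by_cases hc' : c' = b.succ
        · exact ⟨fun _ => hc', fun _ => hc⟩
        · rw [if_pos hc, if_neg hc'] at h2
          have h3 : (1 : ℕ) = 0 := congrArg Fin.val h2
          omega
      · by_cases hc' : c' = b.succ
        · rw [if_neg hc, if_pos hc'] at h2
          have h3 : (0 : ℕ) = 1 := congrArg Fin.val h2
          omega
        · exact ⟨fun h => absurd h hc, fun h => absurd h hc'⟩
    rcases Fin.eq_zero_or_eq_succ c with h2 | ⟨b₀, h2⟩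
    · rcases Fin.eq_zero_or_eq_succ c' with h3 | ⟨b₁, h3⟩
      · rw [h2, h3]
      · rw [(h1 b₁).2 h3, h3]
    · rw [(h1 b₀).1 h2, h2]
  · intro α
    by_cases hex : ∃ b₀ : Fin n, (α.1 b₀ : ℕ) ≠ 0
    · obtain ⟨b₀, hb₀⟩ := hex
      refine ⟨b₀.succ, Subtype.ext (funext fun b => Fin.ext ?_)⟩
      change ((if b₀.succ = b.succ then (⟨1, by omega⟩ : Fin 2) else 0 : Fin 2) : ℕ) = (α.1 b : ℕ)
      by_cases hb : b = b₀
      · subst hb
        rw [if_pos rfl]
        have h1 := (α.1 b).2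
        change 1 = (α.1 b : ℕ)
        omega
      · rw [if_neg (fun h => hb (Fin.succ_injective _ h).symm)]
        change 0 = (α.1 b : ℕ)
        have h1 : (α.1 b : ℕ) + (α.1 b₀ : ℕ) ≤ ∑ x, (α.1 x : ℕ) := by
          rw [← Finset.sum_pair hb (f := fun x => (α.1 x : ℕ))]
          exact Finset.sum_le_sum_of_subset (Finset.subset_univ _)
        have h2 := α.2
        omega
    · push Not at hex
      refine ⟨0, Subtype.ext (funext fun b => Fin.ext ?_)⟩
      change ((if (0 : Fin (n + 1)) = b.succ then (⟨1, by omega⟩ : Fin 2) else 0 : Fin 2) : ℕ) = (α.1 b : ℕ)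
      rw [if_neg (Fin.succ_ne_zero b).symm, hex b]
      rfl

theorem c6a_val (hd : d = 1) (c : Fin (n + 1)) (b : Fin n) : ((ix hd c).1 b : ℕ) = if c = b.succ then 1 else 0 := by
  change ((if c = b.succ then (⟨1, by omega⟩ : Fin (d + 1)) else 0 : Fin (d + 1)) : ℕ) = _
  split_ifs <;> rfl

theorem c6a_prod (hd : d = 1) (c : Fin (n + 1)) (x : Fin n → B) :
    ∏ b, x b ^ ((ix hd c).1 b : ℕ) = (Fin.cons 1 x : Fin (n + 1) → B) c := by
  classical
  simp only [c6a_val]
  rcases Fin.eq_zero_or_eq_succ c with h | ⟨b₀, h⟩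
  · subst h
    rw [Fin.cons_zero]
    refine Finset.prod_eq_one fun b _ => ?_
    rw [if_neg (Fin.succ_ne_zero b).symm, pow_zero]
  · subst h
    rw [Fin.cons_succ, Finset.prod_eq_single b₀]
    · rw [if_pos rfl, pow_one]
    · intro b _ hb
      rw [if_neg (fun h => hb (Fin.succ_injective _ h).symm), pow_zero]
    · intro h
      exact absurd (Finset.mem_univ _) h

/-- CHUNK C6a2.  PROOF.  `(ix_bij hd).sum_comp` (`Function.Bijective.sum_comp`), `Fin.sum_univ_succ`, `linA`; `∏ b, x b ^ (if c = b.succ then 1 else 0)` is `1` for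
`c = 0` and `x b₀` for `c = b₀.succ` (`Finset.prod_eq_single`). -/
theorem ev_ix (hd : d = 1) (a : Idx n d → B) (x : Fin n → B) : ev a x = linA (fun c => a (ix hd c)) x := by
  unfold ev linA
  rw [← (ix_bij hd).sum_comp]
  simp only [c6a_prod]
  rw [Fin.sum_univ_succ, Fin.cons_zero, mul_one]
  simp only [Fin.cons_succ]

/-- CHUNK C6a3.  PROOF.  The same: only the term `c = b.succ` of `evd` is not `0`, and its product is `1` (all exponents are `0`). -/
theorem evd_ix (hd : d = 1) (b : Fin n) (a : Idx n d → B) (x : Fin n → B) : evd b a x = a (ix hd b.succ) := by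
  classical
  unfold evd
  rw [← (ix_bij hd).sum_comp, Finset.sum_eq_single b.succ]
  · have h1 : ∏ b', x b' ^ (((ix hd b.succ).1 b' : ℕ) - (if b' = b then 1 else 0)) = 1 := by
      refine Finset.prod_eq_one fun b' _ => ?_
      rw [c6a_val]
      by_cases h : b' = b
      · rw [if_pos h, if_pos (by rw [h]), Nat.sub_self, pow_zero]
      · rw [if_neg h, if_neg (fun h' => h (Fin.succ_injective _ h').symm), Nat.sub_zero, pow_zero]
    rw [h1, mul_one, c6a_val, if_pos rfl, Nat.cast_one, mul_one]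
  · intro c _ hc
    rw [c6a_val, if_neg hc, Nat.cast_zero, zero_mul, mul_zero]
  · intro h
    exact absurd (Finset.mem_univ _) h

/-- CHUNK C6a4.  PROOF.  `ev_ix` for `Polynomial B` (unfold `Fx`). -/
theorem Fx_ix (hd : d = 1) (a : Idx n d → B) (ξ : JV n r → B) :
    Fx a ξ = linA (fun c => Polynomial.C (a (ix hd c))) (arc ξ) := by
  unfold Fx
  exact ev_ix hd _ _

/-- CHUNK C6a5.  PROOF.  `evd_ix` for `Polynomial B` (unfold `Fdx`). -/
theorem Fdx_ix (hd : d = 1) (b : Fin n) (a : Idx n d → B) (ξ : JV n r → B) :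
    Fdx b a ξ = Polynomial.C (a (ix hd b.succ)) := by
  unfold Fdx
  exact evd_ix hd b _ _

theorem c6a_w {n' : ℕ} {τ τ' : Type} (φ : JV n' r → JV n r) (hφ : ∀ q, (φ q).2 = q.2) (f : τ' → τ)
    (v : JV n' r ⊕ τ' →₀ ℕ) : w0w (Finsupp.mapDomain (Sum.map φ f) v) = w0w v := by
  induction v using Finsupp.induction_linear with
  | zero => rw [Finsupp.mapDomain_zero, w0w_zero, w0w_zero]
  | add g h hg hh => rw [Finsupp.mapDomain_add, w0w_add, w0w_add, hg, hh]
  | single x c =>
    rw [Finsupp.mapDomain_single]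
    rcases x with q | α
    · change w0w (Finsupp.single (Sum.inl (φ q) : JV n r ⊕ τ) c) = _
      rw [w0w_single_inl, w0w_single_inl, hφ]
    · change w0w (Finsupp.single (Sum.inr (f α) : JV n r ⊕ τ) c) = _
      rw [w0w_single_inr, w0w_single_inr]

/-- CHUNK C6a6.  Weights and renaming of the variables.  PROOF.  As `io_wt` (C3): `P.as_sum`, `map_sum`, `WtS.sum` (Lib/H78G/W0.lean), `rename_monomial`,
`w0_monomial_le`, and `w0w (Finsupp.mapDomain (Sum.map φ f) m) = w0w m`, by induction on `m` (`Finsupp.induction_linear`, `Finsupp.mapDomain_add`,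
`Finsupp.mapDomain_single`, `w0w_add`, `w0w_zero`, `w0w_single_inl`, `w0w_single_inr`; `hφ`). -/
theorem WtS_rename {n' : ℕ} {τ τ' : Type} (φ : JV n' r → JV n r) (hφ : ∀ q, (φ q).2 = q.2) (f : τ' → τ) {w : ℕ}
    {P : MvPolynomial (JV n' r ⊕ τ') ℂ} (hP : WtS w P) : WtS w (rename (Sum.map φ f) P) := by
  have h1 : rename (Sum.map φ f) P = ∑ v ∈ P.support, monomial (Finsupp.mapDomain (Sum.map φ f) v) (P.coeff v) := by
    conv_lhs => rw [P.as_sum]
    rw [map_sum]
    exact Finset.sum_congr rfl fun v _ => rename_monomial _ _ _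
  rw [h1]
  refine WtS.sum fun v hv => w0_monomial_le _ _ ?_
  rw [c6a_w φ hφ f v]
  exact hP v hv

end Pool.Agent.H89Y
end
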