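import Pool.Agent.Lib.H1M.PB.M022
import Pool.Agent.Lib.H1M.PB.M044

/-! Merged copies (to shorten the build) of Lib.H89Y.C8, Lib.H89Y.C9, Lib.H89Y.A0, Lib.H89Y.C5a, Lib.H89Y.C5b, Lib.H89Y.C5c. -/

-- from Lib.H89Y.C8
section

set_option autoImplicit false

/-!
H89Y, CHUNK C8 (M, COPY of the corresponding lemmas of Lib/H78G/C6.lean: search and replace `HV n K` by `τ`, `UA n K r` by `MvPolynomial (JV n r ⊕ τ) ℂ`,
`flatU` by `flatT`, `specU` by `specT`, `xU p` by `X (Sum.inl p)`, `hU s` by `X (Sum.inr s)`, `isJetU` by `isJT`, `jetCoeffU` by `jcT`).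
-/

open MvPolynomial

namespace Pool.Agent.H89Y

open Pool.Agent.H89T Pool.Agent.H78G Pool.Agent.H53Y

variable {n r : ℕ} {τ : Type}

/-- `flatT` as a ring homomorphism. -/
noncomputable def flT (n r : ℕ) (τ : Type) :
    MvPolynomial (JV n r) (MvPolynomial τ ℂ) →+* MvPolynomial (JV n r ⊕ τ) ℂ :=
  ((sumAlgEquiv ℂ (JV n r) τ).symm : _ →ₐ[ℂ] _).toRingHom

theorem flT_apply (P : MvPolynomial (JV n r) (MvPolynomial τ ℂ)) : flT n r τ P = flatT P := rfl

/-- CHUNK C8a.  `C6_flat_X`. -/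
theorem flatT_X (q : JV n r) : flatT (X q : MvPolynomial (JV n r) (MvPolynomial τ ℂ)) = X (Sum.inl q) :=
  sumAlgEquiv_symm_X _ _ _ _

/-- CHUNK C8b.  `C6_flat_C_X`. -/
theorem flatT_C_X (s : τ) : flatT (C (X s) : MvPolynomial (JV n r) (MvPolynomial τ ℂ)) = X (Sum.inr s) :=
  sumAlgEquiv_symm_C_X _ _ _ _

/-- CHUNK C8c.  `C6_flat_C_C`. -/
theorem flatT_C_C (c : ℂ) : flatT (C (C c) : MvPolynomial (JV n r) (MvPolynomial τ ℂ)) = C c :=
  sumAlgEquiv_symm_C_C _ _ _ _

/-- CHUNK C8d.  `flatU_ne_zero`. -/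
theorem flatT_ne_zero {P : MvPolynomial (JV n r) (MvPolynomial τ ℂ)} (hP : P ≠ 0) : flatT P ≠ 0 := by
  intro h
  apply hP
  unfold flatT at h
  exact (map_eq_zero_iff _ (sumAlgEquiv ℂ (JV n r) τ).symm.injective).1 h

theorem c8_mul (P Q : MvPolynomial (JV n r) (MvPolynomial τ ℂ)) : flatT (P * Q) = flatT P * flatT Q :=
  map_mul (flT n r τ) P Q

theorem c8_add (P Q : MvPolynomial (JV n r) (MvPolynomial τ ℂ)) : flatT (P + Q) = flatT P + flatT Q :=
  map_add (flT n r τ) P Q

theorem c8_flat_C (q : MvPolynomial τ ℂ) :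
    flatT (C q : MvPolynomial (JV n r) (MvPolynomial τ ℂ)) = rename Sum.inr q := by
  induction q using MvPolynomial.induction_on with
  | C c => rw [flatT_C_C, rename_C]
  | add p q hp hq => rw [map_add, c8_add, hp, hq, map_add]
  | mul_X p α hp => rw [map_mul, c8_mul, hp, flatT_C_X, map_mul, rename_X]

theorem c8_flat_support (P : MvPolynomial (JV n r) (MvPolynomial τ ℂ)) (m : JV n r ⊕ τ →₀ ℕ)
    (hm : m ∈ (flatT P).support) : ∃ m' ∈ P.support, ∀ p : JV n r, m (Sum.inl p) = m' p := by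
  classical
  have h1 : flatT P = ∑ m' ∈ P.support, flatT (monomial m' (P.coeff m')) := by
    simp only [← flT_apply]
    rw [← map_sum, ← P.as_sum]
  rw [h1] at hm
  have h2 := support_sum hm
  obtain ⟨m', hm', h3⟩ := Finset.mem_biUnion.1 h2
  refine ⟨m', hm', fun p => ?_⟩
  have h4 : flatT (monomial m' (P.coeff m')) =
      rename Sum.inr (P.coeff m') * ∏ p : JV n r, X (Sum.inl p) ^ (m' p) := by
    rw [monomial_eq, c8_mul, c8_flat_C]
    congr 1
    rw [← flT_apply, Finsupp.prod_fintype _ _ (fun _ => pow_zero _), map_prod]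
    refine Finset.prod_congr rfl fun p _ => ?_
    rw [map_pow, flT_apply, flatT_X]
  have h5 : (∏ p : JV n r, X (Sum.inl p) ^ (m' p) : MvPolynomial (JV n r ⊕ τ) ℂ) =
      monomial (m'.mapDomain Sum.inl) 1 := by
    rw [monomial_eq, map_one, one_mul, Finsupp.prod_mapDomain_index_inj Sum.inl_injective,
      Finsupp.prod_fintype _ _ (fun _ => pow_zero _)]
  rw [h4, h5] at h3
  obtain ⟨u, hu, v, hv, rfl⟩ := Finset.mem_add.mp (support_mul _ _ h3)
  have hv' := Finset.mem_singleton.mp (support_monomial_subset hv)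
  subst hv'
  rw [support_rename_of_injective Sum.inr_injective] at hu
  obtain ⟨w, hw, rfl⟩ := Finset.mem_image.1 hu
  rw [Finsupp.add_apply, Finsupp.mapDomain_apply Sum.inl_injective,
    Finsupp.mapDomain_of_notMem_range _ _ (by simp), zero_add]


/-- CHUNK C8f.  `C6_jetCoeffU_ne_zero`. -/
theorem jcT_ne_zero [Fintype τ] (P : MvPolynomial (JV n r ⊕ τ) ℂ) (e : JV n r ⊕ τ →₀ ℕ) (he : P.coeff e ≠ 0) :
    jcT P e ≠ 0 := by
  classical
  intro h0
  have h1 : (jcT P e).coeff (Finsupp.equivFunOnFinite.symm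
      (Sum.elim (fun b => e (Sum.inl (b, 0))) fun α => e (Sum.inr α))) = P.coeff e := by
    unfold jcT
    rw [coeff_sum, Finset.sum_eq_single e]
    · rw [if_pos (fun _ _ => rfl), coeff_monomial, if_pos rfl]
    · intro m _ hm
      split_ifs with h
      · rw [coeff_monomial, if_neg]
        intro h2
        apply hm
        have h3 := Finsupp.equivFunOnFinite.symm.injective h2
        ext s
        rcases s with p | α
        · by_cases hp : p.2 = 0
          · have h4 := congrFun h3 (Sum.inl p.1)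
            simp only [Sum.elim_inl] at h4
            have h5 : p = (p.1, 0) := by rw [← hp]
            rw [h5]
            exact h4
          · exact h p hp
        · exact congrFun h3 (Sum.inr α)
      · rw [coeff_zero]
    · intro h
      rw [notMem_support_iff.1 h]
      simp
  rw [h0, coeff_zero] at h1
  exact he h1.symm

/-- CHUNK C8g.  `C6_isJetU_inl`, `C6_isJetU_inr`. -/
theorem isJT_iff (s : JV n r ⊕ τ) : isJT s ↔ ∃ q : JV n r, s = Sum.inl q ∧ q.2 ≠ 0 := Iff.rfl

theorem c8_isJT_inl (p : JV n r) : isJT (τ := τ) (Sum.inl p) ↔ p.2 ≠ 0 := by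
  unfold isJT
  constructor
  · rintro ⟨q, hq, h⟩
    rwa [Sum.inl_injective hq]
  · intro h
    exact ⟨p, rfl, h⟩

theorem c8_isJT_inr (α : τ) : ¬ isJT (n := n) (r := r) (Sum.inr α) := by
  rintro ⟨q, hq, h⟩
  cases hq

/-- The jet part of a monomial. -/
noncomputable def c8_jp [Fintype τ] (m : JV n r ⊕ τ →₀ ℕ) : JV n r ⊕ τ →₀ ℕ :=
  Finsupp.equivFunOnFinite.symm (Sum.elim (fun p => if p.2 = 0 then 0 else m (Sum.inl p))
    fun _ => 0)

theorem c8_jp_eq_iff [Fintype τ] (m e : JV n r ⊕ τ →₀ ℕ) :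
    c8_jp m = c8_jp e ↔ ∀ p : JV n r, p.2 ≠ 0 → m (Sum.inl p) = e (Sum.inl p) := by
  unfold c8_jp
  constructor
  · intro h p hp
    have h1 := congrFun (Finsupp.equivFunOnFinite.symm.injective h) (Sum.inl p)
    simpa [hp] using h1
  · intro h
    congr 2
    funext p
    split_ifs with hp
    · rfl
    · exact h p hp

theorem c8_restrict_monomial [Fintype τ] (a : τ → ℂ) (ξ : JV n r → ℂ)
    (m : JV n r ⊕ τ →₀ ℕ) (c : ℂ) :
    aeval (fun s => open Classical in if isJT s then X s else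
        C (Sum.elim ξ a s) : JV n r ⊕ τ → MvPolynomial (JV n r ⊕ τ) ℂ) (monomial m c) =
      monomial (c8_jp m) (c * ((∏ b, ξ (b, 0) ^ (m (Sum.inl (b, 0)))) *
        ∏ α, a α ^ (m (Sum.inr α)))) := by
  classical
  rw [aeval_monomial, Finsupp.prod_fintype _ _ (fun _ => pow_zero _), Fintype.prod_sum_type,
    monomial_eq, Finsupp.prod_fintype _ _ (fun _ => pow_zero _), Fintype.prod_sum_type]
  have h1 : ∀ p : JV n r, ((if isJT (τ := τ) (Sum.inl p) then X (Sum.inl p) else
      C (Sum.elim ξ a (Sum.inl p)) : MvPolynomial (JV n r ⊕ τ) ℂ)) ^ (m (Sum.inl p)) =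
      if p.2 = 0 then C (ξ p) ^ (m (Sum.inl p)) else X (Sum.inl p) ^ (m (Sum.inl p)) := by
    intro p
    by_cases hp : p.2 = 0
    · rw [if_neg (by rw [c8_isJT_inl]; simpa using hp), if_pos hp, Sum.elim_inl]
    · rw [if_pos ((c8_isJT_inl p).2 hp), if_neg hp]
  have h2 : ∀ α : τ, ((if isJT (n := n) (r := r) (Sum.inr α) then X (Sum.inr α) else
      C (Sum.elim ξ a (Sum.inr α)) : MvPolynomial (JV n r ⊕ τ) ℂ)) ^ (m (Sum.inr α)) =
      C (a α ^ (m (Sum.inr α))) := by
    intro α
    rw [if_neg (c8_isJT_inr α), Sum.elim_inr, map_pow]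
  simp only [h1, h2]
  rw [C6_prod_split (fun p : JV n r => (X (Sum.inl p) ^ (m (Sum.inl p)) : MvPolynomial (JV n r ⊕ τ) ℂ))
    (fun p : JV n r => (C (ξ p) ^ (m (Sum.inl p)) : MvPolynomial (JV n r ⊕ τ) ℂ))]
  have h3 : ∀ p : JV n r, (X (Sum.inl p) : MvPolynomial (JV n r ⊕ τ) ℂ) ^ (c8_jp m (Sum.inl p)) =
      if p.2 = 0 then 1 else X (Sum.inl p) ^ (m (Sum.inl p)) := by
    intro p
    unfold c8_jp
    rw [Finsupp.equivFunOnFinite_symm_apply_apply, Sum.elim_inl]
    split_ifs
    · exact pow_zero _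
    · rfl
  have h4 : ∀ α : τ, (X (Sum.inr α) : MvPolynomial (JV n r ⊕ τ) ℂ) ^ (c8_jp m (Sum.inr α)) = 1 := by
    intro α
    unfold c8_jp
    rw [Finsupp.equivFunOnFinite_symm_apply_apply, Sum.elim_inr, pow_zero]
  simp only [h3, h4, Finset.prod_const_one, mul_one, map_mul, map_prod, map_pow, algebraMap_eq]
  ring

/-- CHUNK C8h.  `C6_restrictU_ne_zero` (with `C6_jp`, `C6_jp_eq_iff`, `C6_prod_split`, `C6_restrict_monomial`; replace the last `convert` by
`simpa using h3` or an `exact` after `open Classical in`). -/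
theorem restrictT_ne_zero [Fintype τ] (a : τ → ℂ) (P : MvPolynomial (JV n r ⊕ τ) ℂ) (e : JV n r ⊕ τ →₀ ℕ)
    (ξ : JV n r → ℂ) (h : eval (Sum.elim (fun b => ξ (b, 0)) a) (jcT P e) ≠ 0) :
    aeval (fun s => open Classical in if isJT s then X s else
        C (Sum.elim ξ a s) : JV n r ⊕ τ → MvPolynomial (JV n r ⊕ τ) ℂ) P ≠ 0 := by
  classical
  intro h0
  apply h
  have h1 : (aeval (fun s => open Classical in if isJT s then X s else
      C (Sum.elim ξ a s) : JV n r ⊕ τ → MvPolynomial (JV n r ⊕ τ) ℂ) P).coeff (c8_jp e) =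
      eval (Sum.elim (fun b => ξ (b, 0)) a) (jcT P e) := by
    have h2 : aeval (fun s => open Classical in if isJT s then X s else
        C (Sum.elim ξ a s) : JV n r ⊕ τ → MvPolynomial (JV n r ⊕ τ) ℂ) P = ∑ m ∈ P.support,
        monomial (c8_jp m) (P.coeff m * ((∏ b, ξ (b, 0) ^ (m (Sum.inl (b, 0)))) *
        ∏ α, a α ^ (m (Sum.inr α)))) := by
      conv_lhs => rw [P.as_sum]
      rw [map_sum]
      exact Finset.sum_congr rfl fun m _ => c8_restrict_monomial a ξ m _
    rw [h2, coeff_sum]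
    unfold jcT
    rw [map_sum]
    refine Finset.sum_congr rfl fun m _ => ?_
    rw [coeff_monomial]
    by_cases hm : c8_jp m = c8_jp e
    · rw [if_pos hm, if_pos ((c8_jp_eq_iff m e).1 hm), eval_monomial,
        Finsupp.prod_fintype _ _ (fun _ => pow_zero _), Fintype.prod_sum_type]
      simp
    · rw [if_neg hm, if_neg (fun h => hm ((c8_jp_eq_iff m e).2 h)), map_zero]
  rw [← h1, h0, coeff_zero]

theorem c8_spec_monomial [Fintype τ] (a : τ → ℂ) (m : JV n r ⊕ τ →₀ ℕ) (c : ℂ) :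
    specT a (monomial m c) = monomial (Finsupp.equivFunOnFinite.symm fun p => m (Sum.inl p))
      (c * ∏ α, a α ^ (m (Sum.inr α))) := by
  unfold specT
  rw [aeval_monomial, Finsupp.prod_fintype _ _ (fun _ => pow_zero _), Fintype.prod_sum_type,
    monomial_eq, Finsupp.prod_fintype _ _ (fun _ => pow_zero _)]
  simp only [Sum.elim_inl, Sum.elim_inr, algebraMap_eq, Finsupp.equivFunOnFinite_symm_apply_apply,
    map_mul, map_prod, map_pow]
  ring


/-- CHUNK C8j.  `C6_evU_eq`. -/
theorem eval_specT (a : τ → ℂ) (ξ : JV n r → ℂ) (P : MvPolynomial (JV n r ⊕ τ) ℂ) :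
    eval (Sum.elim ξ a) P = eval ξ (specT a P) := by
  have h : (aeval (Sum.elim ξ a) : MvPolynomial (JV n r ⊕ τ) ℂ →ₐ[ℂ] ℂ) =
      ((aeval ξ : MvPolynomial (JV n r) ℂ →ₐ[ℂ] ℂ)).comp (specT a) := by
    apply MvPolynomial.algHom_ext
    intro s
    unfold specT
    rw [AlgHom.comp_apply, aeval_X, aeval_X]
    cases s with
    | inl p => simp
    | inr α => simp [← algebraMap_eq]
  have h1 := congrArg (fun f : MvPolynomial (JV n r ⊕ τ) ℂ →ₐ[ℂ] ℂ => f P) h
  exact h1


end Pool.Agent.H89Y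
end

-- from Lib.H89Y.C9
section

set_option autoImplicit false

/-!
H89Y, CHUNK C9 (M).  Property (A) under flattening and specialization (model Lib/H78G/C6.lean).
-/

open MvPolynomial

namespace Pool.Agent.H89Y

open Pool.Agent.H89T Pool.Agent.H78G Pool.Agent.H53Y

variable {β : Type} {m : β → ℕ} {ι : Type} {sb : ι → β} {dg : ι → ℕ} {n r : ℕ}

/-- The generic coefficients. -/
noncomputable def gnG (m : β → ℕ) (sb : ι → β) (dg : ι → ℕ) (x : Cf m sb dg) : MvPolynomial (Cf m sb dg) ℂ := X x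

/-- `vG` by coefficients. -/
theorem c9_vG (e : Co m ≃ Fin n) (i : ι) (l : ℕ) :
    ((vG e i).coeff l : UG m sb dg n r) = uu (fun α => aG ⟨i, α⟩) (bj e xG (sb i)) l := rfl

theorem c9_us {R : Type} [CommRing R] (e : Co m ≃ Fin n) (a : Cf m sb dg → R) (i : ι) (l : ℕ) :
    us (r := r) e a i l = uu (fun α => C (a ⟨i, α⟩)) (bj e (fun q => X q) (sb i)) l := rfl

/-- CHUNK C9a.  PROOF.  As `flatU_uR` (Lib/H78G/C6.lean): `uu_map` for `flT` (C8), `flatT_X`, `flatT_C_X`; `us e a i l = uu (fun α => C (a ⟨i, α⟩)) (bj e (fun q => X q) (sb i)) l`,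
`(vG e i).coeff l = uu (fun α => aG ⟨i, α⟩) (bj e xG (sb i)) l` by `rfl` (unfold `vG fa`). -/
theorem flatT_us (e : Co m ≃ Fin n) (i : ι) (l : ℕ) :
    flatT (us (r := r) e (gnG m sb dg) i l) = (vG e i).coeff l := by
  have h := uu_map (flT n r (Cf m sb dg)) (fun α => C (gnG m sb dg ⟨i, α⟩))
    (bj e (fun q => X q) (sb i)) l
  rw [c9_vG, ← flT_apply, c9_us, h]
  congr 1
  · funext α
    rw [flT_apply]
    exact flatT_C_X _
  · funext q
    rw [flT_apply]
    exact flatT_X _

theorem c9_add (P Q : MvPolynomial (JV n r) (MvPolynomial (Cf m sb dg) ℂ)) :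
    flatT (P + Q) = flatT P + flatT Q := map_add (flT n r (Cf m sb dg)) P Q

theorem c9_mul (P Q : MvPolynomial (JV n r) (MvPolynomial (Cf m sb dg) ℂ)) :
    flatT (P * Q) = flatT P * flatT Q := map_mul (flT n r (Cf m sb dg)) P Q

theorem c9_flat_NN_X (p : JV n r) :
    flatT (NN n r (MvPolynomial (Cf m sb dg) ℂ) (X p)) = NG (flatT (X p)) := by
  have h1 : (X (Sum.inl p) : UG m sb dg n r) = xG p := rfl
  rw [C6_NN_X, flatT_X, h1, NG_xG]
  split_ifs with h
  · rw [nsmul_eq_mul, nsmul_eq_mul, c9_mul, flatT_X]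
    congr 1
    rw [← flT_apply, map_natCast]
  · rw [← flT_apply, map_zero]

/-- CHUNK C9b.  PROOF.  As `flatU_NN` (with `C6_flat_NN_X`), `NG_xG`, `NG_aG` (C1), `flatT_X`, `flatT_C_X`, `flatT_C_C`. -/
theorem flatT_NN (P : MvPolynomial (JV n r) (MvPolynomial (Cf m sb dg) ℂ)) :
    flatT (NN n r (MvPolynomial (Cf m sb dg) ℂ) P) = NG (flatT P) := by
  induction P using MvPolynomial.induction_on with
  | C q =>
    have h0 : NN n r (MvPolynomial (Cf m sb dg) ℂ) (C q) = 0 := by
      rw [← algebraMap_eq]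
      exact Derivation.map_algebraMap _ _
    rw [h0, ← flT_apply, map_zero]
    symm
    induction q using MvPolynomial.induction_on with
    | C c =>
      rw [flatT_C_C]
      exact Derivation.map_algebraMap _ _
    | add p q hp hq =>
      have hp' := hp (by rw [← algebraMap_eq]; exact Derivation.map_algebraMap _ _)
      have hq' := hq (by rw [← algebraMap_eq]; exact Derivation.map_algebraMap _ _)
      rw [map_add, c9_add, map_add, hp', hq', add_zero]
    | mul_X p α hp =>
      have hp' := hp (by rw [← algebraMap_eq]; exact Derivation.map_algebraMap _ _)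
      have h2 : NG (X (Sum.inr α) : UG m sb dg n r) = 0 := NG_aG α
      rw [map_mul, c9_mul, Derivation.leibniz, hp', flatT_C_X, h2]
      simp
  | add p q hp hq => rw [map_add, c9_add, hp, hq, c9_add, map_add]
  | mul_X p i hp =>
    rw [Derivation.leibniz, c9_mul, Derivation.leibniz, c9_add, smul_eq_mul, smul_eq_mul,
      c9_mul, c9_mul, hp, c9_flat_NN_X, smul_eq_mul, smul_eq_mul]

theorem c9_map_iterate (P : MvPolynomial (JV n r) (MvPolynomial (Cf m sb dg) ℂ)) (l : ℕ) :
    flatT ((NN n r (MvPolynomial (Cf m sb dg) ℂ))^[l] P) = (NG)^[l] (flatT P) := by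
  induction l with
  | zero => rfl
  | succ l ih => rw [Function.iterate_succ_apply', Function.iterate_succ_apply', flatT_NN, ih]

/-- CHUNK C9c.  PROOF.  As `C6_flatU_PropA`: iterate `flatT_NN`; the ideals: cases `i = i'`, `i ≠ i'` (unfold `IG IU`, `if_pos`, `if_neg`), `Ideal.mem_span_pair`,
`map_add`, `map_mul` for `flT`, `flatT_us`. -/
theorem flatT_PropG [DecidableEq ι] {e : Co m ≃ Fin n} {q : ℕ} {P : MvPolynomial (JV n r) (MvPolynomial (Cf m sb dg) ℂ)}
    (hP : PropG e (gnG m sb dg) q P) : PropU e q (flatT P) := by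
  intro l hl i i'
  have h := hP l hl i i'
  rw [← c9_map_iterate]
  unfold IG at h
  unfold IU
  by_cases hii : i = i'
  · rw [if_pos hii] at h ⊢
    obtain ⟨u, v, huv⟩ := Ideal.mem_span_pair.1 h
    rw [← huv, c9_add, c9_mul, c9_mul, flatT_us, flatT_us]
    exact Ideal.mem_span_pair.2 ⟨_, _, rfl⟩
  · rw [if_neg hii] at h ⊢
    obtain ⟨u, v, huv⟩ := Ideal.mem_span_pair.1 h
    rw [← huv, c9_add, c9_mul, c9_mul, flatT_us, flatT_us]
    exact Ideal.mem_span_pair.2 ⟨_, _, rfl⟩

theorem c9_spec_xG (a : Cf m sb dg → ℂ) (p : JV n r) : specT a (xG p : UG m sb dg n r) = X p := by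
  unfold specT xG
  rw [aeval_X, Sum.elim_inl]

theorem c9_spec_aG (a : Cf m sb dg → ℂ) (x : Cf m sb dg) :
    specT a (aG x : UG m sb dg n r) = C (a x) := by
  unfold specT aG
  rw [aeval_X, Sum.elim_inr]

/-- CHUNK C9d.  PROOF.  As `specU_uU`: `uu_map` for `(specT a).toRingHom`; `specT a (xG q) = X q`, `specT a (aG x) = C (a x)` (`aeval_X`). -/
theorem specT_vG (e : Co m ≃ Fin n) (a : Cf m sb dg → ℂ) (i : ι) (l : ℕ) :
    specT a ((vG e i).coeff l : UG m sb dg n r) = us e a i l := by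
  have h := uu_map (specT (n := n) (r := r) a).toRingHom
    (fun α => (aG ⟨i, α⟩ : UG m sb dg n r)) (bj e xG (sb i)) l
  rw [c9_vG, c9_us]
  refine Eq.trans ?_ (h.trans ?_)
  · rfl
  · congr 1
    · funext α
      exact c9_spec_aG a _
    · funext q
      exact c9_spec_xG a _

theorem c9_spec_NG_X (a : Cf m sb dg → ℂ) (s : JV n r ⊕ Cf m sb dg) :
    specT a (NG (X s : UG m sb dg n r)) = NN n r ℂ (specT a (X s)) := by
  cases s with
  | inl p =>
    change specT a (NG (xG p)) = NN n r ℂ (specT a (xG p))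
    rw [NG_xG, c9_spec_xG, C6_NN_X]
    split_ifs with h
    · rw [nsmul_eq_mul, nsmul_eq_mul, map_mul, c9_spec_xG, map_natCast]
    · exact map_zero _
  | inr α =>
    change specT a (NG (aG α)) = NN n r ℂ (specT a (aG α))
    rw [NG_aG, c9_spec_aG, map_zero, ← algebraMap_eq, Derivation.map_algebraMap]

/-- CHUNK C9e.  PROOF.  As `specU_NU` (with `C6_spec_NU_X`). -/
theorem specT_NG (a : Cf m sb dg → ℂ) (P : UG m sb dg n r) : specT a (NG P) = NN n r ℂ (specT a P) := by
  induction P using MvPolynomial.induction_on with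
  | C c =>
    have h1 : NG (C c : UG m sb dg n r) = 0 := Derivation.map_algebraMap _ _
    have h2 : specT (n := n) (r := r) a (C c) = C c := (specT a).commutes c
    rw [h1, h2, map_zero, ← algebraMap_eq, Derivation.map_algebraMap]
  | add p q hp hq => rw [map_add, map_add, map_add, map_add, hp, hq]
  | mul_X p s hp =>
    rw [Derivation.leibniz, map_add, smul_eq_mul, smul_eq_mul, map_mul, map_mul, c9_spec_NG_X, hp,
      map_mul, Derivation.leibniz, smul_eq_mul, smul_eq_mul]

theorem c9_spec_iterate (a : Cf m sb dg → ℂ) (P : UG m sb dg n r) (l : ℕ) :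
    specT a ((NG)^[l] P) = (NN n r ℂ)^[l] (specT a P) := by
  induction l with
  | zero => rfl
  | succ l ih => rw [Function.iterate_succ_apply', Function.iterate_succ_apply', specT_NG, ih]

/-- CHUNK C9f.  PROOF.  As `C6_specU_PropU`, with the two cases as in C9c. -/
theorem specT_PropU [DecidableEq ι] {e : Co m ≃ Fin n} {q : ℕ} (a : Cf m sb dg → ℂ) {P : UG m sb dg n r}
    (hP : PropU e q P) : PropG e a q (specT a P) := by
  intro l hl i i'
  have h := hP l hl i i'
  rw [← c9_spec_iterate]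
  unfold IU at h
  unfold IG
  by_cases hii : i = i'
  · rw [if_pos hii] at h ⊢
    obtain ⟨u, v, huv⟩ := Ideal.mem_span_pair.1 h
    rw [← huv, map_add, map_mul, map_mul, specT_vG, specT_vG]
    exact Ideal.mem_span_pair.2 ⟨_, _, rfl⟩
  · rw [if_neg hii] at h ⊢
    obtain ⟨u, v, huv⟩ := Ideal.mem_span_pair.1 h
    rw [← huv, map_add, map_mul, map_mul, specT_vG, specT_vG]
    exact Ideal.mem_span_pair.2 ⟨_, _, rfl⟩

end Pool.Agent.H89Y
end

-- from Lib.H89Y.A0
section

set_option autoImplicit false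

/-!
H89Y, module A: leading monomials, more unknowns than conditions.
-/

open MvPolynomial

namespace Pool.Agent.H89Y

open Pool.Agent.H89T Pool.Agent.H78G Pool.Agent.H53Y

section Leading

variable {σ : Type}

/-- `m` is the leading monomial of `f` for the weight `om`. -/
def Lead (om : σ → ℕ) (f : MvPolynomial σ ℂ) (m : σ →₀ ℕ) : Prop :=
  coeff m f ≠ 0 ∧ ∀ m' ∈ f.support, m' = m ∨ Finsupp.weight om m' < Finsupp.weight om m

/-- PROOF.  Coefficient of `m + m'` in `f g`: `coeff_mul`; a pair `(u, v)` with `u + v = m + m'`, `u ∈ f.support`, `v ∈ g.support` has `weight u ≤ weight m`, `weight v ≤ weight m'`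
with equality only for `u = m`, `v = m'`; the weights add (`map_add`).  Support: `support_mul`. -/
theorem Lead.mul {om : σ → ℕ} {f g : MvPolynomial σ ℂ} {m m' : σ →₀ ℕ} (hf : Lead om f m)
    (hg : Lead om g m') : Lead om (f * g) (m + m') := by
  classical
  constructor
  · rw [coeff_mul, Finset.sum_eq_single (m, m')]
    · exact mul_ne_zero hf.1 hg.1
    · rintro ⟨u, v⟩ huv hne
      rw [Finset.HasAntidiagonal.mem_antidiagonal] at huv
      simp only at huv ⊢
      by_cases hu : coeff u f = 0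
      · rw [hu, zero_mul]
      by_cases hv : coeff v g = 0
      · rw [hv, mul_zero]
      exfalso
      have hw : Finsupp.weight om u + Finsupp.weight om v = Finsupp.weight om m + Finsupp.weight om m' := by
        rw [← map_add, ← map_add, huv]
      rcases hf.2 u (mem_support_iff.2 hu) with h1 | h1
      · rcases hg.2 v (mem_support_iff.2 hv) with h2 | h2
        · exact hne (Prod.ext h1 h2)
        · rw [h1] at hw
          omega
      · rcases hg.2 v (mem_support_iff.2 hv) with h2 | h2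
        · rw [h2] at hw
          omega
        · omega
    · intro h
      refine absurd ?_ h
      rw [Finset.HasAntidiagonal.mem_antidiagonal]
  · intro w hw
    obtain ⟨u, hu, v, hv, rfl⟩ := Finset.mem_add.1 (support_mul f g hw)
    rw [map_add, map_add]
    rcases hf.2 u hu with h1 | h1
    · rcases hg.2 v hv with h2 | h2
      · exact Or.inl (by rw [h1, h2])
      · right
        rw [h1]
        omega
    · rcases hg.2 v hv with h2 | h2
      · right
        rw [h2]
        omega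
      · right
        omega

theorem Lead.monomial (om : σ → ℕ) (m : σ →₀ ℕ) {c : ℂ} (hc : c ≠ 0) :
    Lead om (MvPolynomial.monomial m c) m := by
  classical
  constructor
  · rw [coeff_monomial, if_pos rfl]
    exact hc
  · intro m' hm'
    exact Or.inl (Finset.mem_singleton.1 (support_monomial_subset hm'))

theorem Lead.one (om : σ → ℕ) : Lead om (1 : MvPolynomial σ ℂ) 0 :=
  Lead.monomial om 0 one_ne_zero

theorem Lead.pow {om : σ → ℕ} {f : MvPolynomial σ ℂ} {m : σ →₀ ℕ} (hf : Lead om f m) (q : ℕ) :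
    Lead om (f ^ q) (q • m) := by
  induction q with
  | zero =>
    rw [pow_zero, zero_smul]
    exact Lead.one om
  | succ q ih =>
    rw [pow_succ, succ_nsmul]
    exact ih.mul hf


/-- PROOF.  Strong induction on `weight om m`: `f = coeff m f • monomial m 1 + ∑_(m' ≠ m) coeff m' f • monomial m' 1`, and the terms of the sum are in `V` by induction. -/
theorem span_of_lead (s : Set (σ →₀ ℕ)) (om : σ → ℕ) (V : Submodule ℂ (MvPolynomial σ ℂ))
    (h : ∀ m ∈ s, ∃ f ∈ V, Lead om f m ∧ ∀ m' ∈ f.support, m' ∈ s) :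
    ∀ m ∈ s, MvPolynomial.monomial m (1 : ℂ) ∈ V := by
  classical
  have key : ∀ N : ℕ, ∀ m ∈ s, Finsupp.weight om m = N → MvPolynomial.monomial m (1 : ℂ) ∈ V := by
    intro N
    induction N using Nat.strong_induction_on with
    | _ N ih =>
      intro m hm hN
      obtain ⟨f, hfV, hL, hsup⟩ := h m hm
      have hmem : m ∈ f.support := mem_support_iff.2 hL.1
      have h1 : f = MvPolynomial.monomial m (coeff m f) +
          ∑ m' ∈ f.support.erase m, MvPolynomial.monomial m' (coeff m' f) := by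
        rw [Finset.add_sum_erase f.support (fun m' => MvPolynomial.monomial m' (coeff m' f)) hmem]
        exact as_sum f
      have h2 : ∑ m' ∈ f.support.erase m, MvPolynomial.monomial m' (coeff m' f) ∈ V := by
        refine V.sum_mem fun m' hm' => ?_
        obtain ⟨hne, hms⟩ := Finset.mem_erase.1 hm'
        have h3 : MvPolynomial.monomial m' (coeff m' f) =
            coeff m' f • MvPolynomial.monomial m' (1 : ℂ) := by
          rw [smul_monomial, smul_eq_mul, mul_one]
        rw [h3]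
        refine V.smul_mem _ ?_
        rcases hL.2 m' hms with h4 | h4
        · exact absurd h4 hne
        · exact ih (Finsupp.weight om m') (hN ▸ h4) m' (hsup m' hms) rfl
      have h5 : MvPolynomial.monomial m (coeff m f) ∈ V := by
        have h6 : MvPolynomial.monomial m (coeff m f) =
            f - ∑ m' ∈ f.support.erase m, MvPolynomial.monomial m' (coeff m' f) :=
          eq_sub_of_add_eq h1.symm
        rw [h6]
        exact V.sub_mem hfV h2
      have h7 : MvPolynomial.monomial m (1 : ℂ) = (coeff m f)⁻¹ • MvPolynomial.monomial m (coeff m f) := by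
        rw [smul_monomial, smul_eq_mul, inv_mul_cancel₀ hL.1]
      rw [h7]
      exact V.smul_mem _ h5
  exact fun m hm => key _ m hm rfl

end Leading

theorem exists_coeffsL {R V ι L : Type} [CommRing R] [Nontrivial R] [AddCommGroup V] [Module R V]
    [Fintype ι] [Fintype L] (f : ι → V) (T : L → V →ₗ[R] V) (N : L → Submodule R V)
    (κ : L → Type) [∀ l, Fintype (κ l)] (ν : ∀ l, κ l → V) (t : L → R)
    (h : ∀ l i, t l • T l (f i) ∈ N l ⊔ Submodule.span R (Set.range (ν l)))
    (hc : ∑ l, Fintype.card (κ l) < Fintype.card ι) :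
    ∃ p : ι → R, p ≠ 0 ∧ ∀ l, t l • T l (∑ i, p i • f i) ∈ N l := by
  classical
  have h1 : ∀ l i, ∃ c : κ l → R, t l • T l (f i) - ∑ x, c x • ν l x ∈ N l := by
    intro l i
    obtain ⟨y, hy, z, hz, hyz⟩ := Submodule.mem_sup.1 (h l i)
    obtain ⟨c, hc⟩ := (Submodule.mem_span_range_iff_exists_fun R).1 hz
    refine ⟨c, ?_⟩
    rw [hc, ← hyz]
    simpa using hy
  choose c hcm using h1
  let Φ : (ι → R) →ₗ[R] ((Σ l, κ l) → R) :=
    { toFun := fun p s => ∑ i, p i * c s.1 i s.2
      map_add' := by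
        intro p p'
        funext s
        simp only [Pi.add_apply, add_mul, Finset.sum_add_distrib]
      map_smul' := by
        intro a p
        funext s
        simp only [Pi.smul_apply, smul_eq_mul, RingHom.id_apply, mul_assoc, Finset.mul_sum] }
  have hni : ¬ Function.Injective Φ := by
    intro hinj
    have h2 := card_le_of_injective R Φ hinj
    rw [Fintype.card_sigma] at h2
    omega
  have hex : ∃ p : ι → R, p ≠ 0 ∧ Φ p = 0 := by
    by_contra hno
    push Not at hno
    apply hni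
    rw [← LinearMap.ker_eq_bot, LinearMap.ker_eq_bot']
    intro p hp
    by_contra hp0
    exact hno p hp0 hp
  obtain ⟨p, hp0, hp⟩ := hex
  refine ⟨p, hp0, fun l => ?_⟩
  have h3 : t l • T l (∑ i, p i • f i) =
      ∑ i, p i • (t l • T l (f i) - ∑ x, c l i x • ν l x) := by
    have h4 : ∑ i, p i • ∑ x, c l i x • ν l x = 0 := by
      have h5 : ∑ i, p i • ∑ x, c l i x • ν l x = ∑ x, (∑ i, p i * c l i x) • ν l x := by
        simp only [Finset.smul_sum, Finset.sum_smul, smul_smul]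
        exact Finset.sum_comm
      rw [h5]
      apply Finset.sum_eq_zero
      intro x _
      have h6 : Φ p ⟨l, x⟩ = 0 := by rw [hp]; rfl
      have h7 : (∑ i, p i * c l i x) = 0 := h6
      rw [h7, zero_smul]
    simp only [smul_sub, Finset.sum_sub_distrib]
    rw [h4, sub_zero, map_sum, Finset.smul_sum]
    apply Finset.sum_congr rfl
    intro i _
    rw [map_smul, smul_comm]
  rw [h3]
  exact Submodule.sum_mem _ (fun i _ => Submodule.smul_mem _ _ (hcm l i))

end Pool.Agent.H89Y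
end

-- from Lib.H89Y.C5a
section

set_option autoImplicit false

/-!
H89Y, CHUNK C5a (M/L).  Horizontal directions, general.
-/

open MvPolynomial

namespace Pool.Agent.H89Y

open Pool.Agent.H89T Pool.Agent.H78G Pool.Agent.H53Y

variable {β : Type} {m : β → ℕ} {ι : Type} {sb : ι → β} {dg : ι → ℕ} {n r : ℕ}

/-- CHUNK C5a (general: the horizontal fields of one coordinate `b` of a block `s`).  `lam` = the velocity of the coordinate `e ⟨s, b⟩`; the factors `i`
with `sb i ≠ s` do not move.  The hypothesis `hg` says: for every factor of the block there is a compensation.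

PROOF.  For every `i` choose `G i : Idx (m (sb i)) (dg i) → UG ..`: if `sb i = s` from `hg`, otherwise `0`.
`V = mkDerivation ℂ (Sum.elim (fun q => if q.1 = e ⟨s, b⟩ then lam.coeff (q.2 : ℕ) else 0) (fun x => G x.1 x.2))`.
Admissible: `cf_vG`; let `i` be given.  If `sb i = s`: `obtain rfl` is possible after generalizing (`s` is a variable; or apply `hg i h` where the statement is
already about `e ⟨s, b⟩`); in the sum over `b' : Fin (m (sb i))` only `b' = b` contributes: `V (bj e xG (sb i) (b', l)) = V (xG (e ⟨sb i, b'⟩, l))`, and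
`e ⟨sb i, b'⟩ = e ⟨s, b⟩` iff `b' = b` (`e.injective`); `arc (fun q => V ..) b = lam` since `lam` has degree `≤ r` (`ext l`, `coeff_arc`,
`Polynomial.coeff_eq_zero_of_natDegree_lt`).  If `sb i ≠ s`: all terms are `0`.
Weights: `lam.coeff l`, `0`, `G i α`.
The value of `V` is `∑ l, eval (lam.coeff l) • single (inl (e ⟨s, b⟩, l)) + ∑ x, eval (G x) • single (inr x)`, and the second sum is in `SpG` by `hv` (terms with
`sb x.1 ≠ s` are `0`). -/
theorem hor_general [Fintype ι] [DecidableEq β] [DecidableEq ι] (e : Co m ≃ Fin n) (s : β) (b : Fin (m s)) {c : ℕ}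
    (lam : Polynomial (UG m sb dg n r)) (hdeg : lam.natDegree ≤ r) (hlam : ∀ l, WtS c (lam.coeff l))
    (hg : ∀ i (h : sb i = s), ∃ g : Idx (m (sb i)) (dg i) → UG m sb dg n r, (∀ α, WtS c (g α)) ∧
      Fx g (bj e xG (sb i)) + Fdx (Fin.cast (by rw [h]) b) (fun α => (aG ⟨i, α⟩ : UG m sb dg n r)) (bj e xG (sb i)) * lam ∈
        Ideal.span {vG e i, (Polynomial.X : Polynomial (UG m sb dg n r)) ^ (r + 1)})
    (a : Cf m sb dg → ℂ) (ξ : JV n r → ℂ)
    (hv : ∀ i, sb i = s → ∀ α, (Pi.single (Sum.inr ⟨i, α⟩) 1 : JV n r ⊕ Cf m sb dg → ℂ) ∈ SpG e c a ξ) :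
    (∑ l : Fin (r + 1), eval (Sum.elim ξ a) (lam.coeff (l : ℕ)) •
      (Pi.single (Sum.inl (e ⟨s, b⟩, l)) 1 : JV n r ⊕ Cf m sb dg → ℂ)) ∈ SpG e c a ξ := by
  classical
  have hG : ∀ i, ∃ g : Idx (m (sb i)) (dg i) → UG m sb dg n r, (∀ α, WtS c (g α)) ∧
      (∀ h : sb i = s, Fx g (bj e xG (sb i)) + Fdx (Fin.cast (by rw [h]) b) (fun α => (aG ⟨i, α⟩ : UG m sb dg n r))
        (bj e xG (sb i)) * lam ∈ Ideal.span {vG e i, (Polynomial.X : Polynomial (UG m sb dg n r)) ^ (r + 1)}) ∧
      (sb i ≠ s → g = 0) := by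
    intro i
    by_cases h : sb i = s
    · obtain ⟨g, h1, h2⟩ := hg i h
      exact ⟨g, h1, fun _ => h2, fun h' => absurd h h'⟩
    · exact ⟨0, fun α => WtS.zero _, fun h' => absurd h' h, fun _ => rfl⟩
  choose G hG1 hG2 hG3 using hG
  obtain ⟨V, hV⟩ : ∃ V : Derivation ℂ (UG m sb dg n r) (UG m sb dg n r), V = mkDerivation ℂ (Sum.elim
    (fun q : JV n r => if q.1 = e ⟨s, b⟩ then lam.coeff (q.2 : ℕ) else 0) (fun x => G x.1 x.2)) := ⟨_, rfl⟩
  have hVx : ∀ q : JV n r, V (xG q : UG m sb dg n r) = if q.1 = e ⟨s, b⟩ then lam.coeff (q.2 : ℕ) else 0 := by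
    intro q
    rw [hV]
    unfold xG
    rw [mkDerivation_X, Sum.elim_inl]
  have hVa : ∀ x : Cf m sb dg, V (aG x : UG m sb dg n r) = G x.1 x.2 := by
    intro x
    rw [hV]
    unfold aG
    rw [mkDerivation_X, Sum.elim_inr]
  have hinj : ∀ (i : ι) (s' : β) (h : sb i = s') (b₁ : Fin (m s')) (b' : Fin (m (sb i))),
      e ⟨sb i, b'⟩ = e ⟨s', b₁⟩ → b' = Fin.cast (by rw [h]) b₁ := by
    intro i s' h b₁ b' h1
    subst h
    exact eq_of_heq (Sigma.mk.inj (e.injective h1)).2
  have hinj' : ∀ (i : ι) (s' : β) (h : sb i = s') (b₁ : Fin (m s')),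
      e ⟨sb i, Fin.cast (by rw [h]) b₁⟩ = e ⟨s', b₁⟩ := by
    intro i s' h b₁
    subst h
    rfl
  have harc0 : ∀ (i : ι) (b' : Fin (m (sb i))), e ⟨sb i, b'⟩ ≠ e ⟨s, b⟩ →
      arc (fun q => V (bj e xG (sb i) q : UG m sb dg n r)) b' = 0 := by
    intro i b' h
    ext1 l
    rw [coeff_arc, Polynomial.coeff_zero]
    split_ifs with hl
    · have h1 := hVx (e ⟨sb i, b'⟩, ⟨l, hl⟩)
      rw [if_neg h] at h1
      exact h1
    · rfl
  have harc1 : ∀ (i : ι) (h : sb i = s),
      arc (fun q => V (bj e xG (sb i) q : UG m sb dg n r)) (Fin.cast (by rw [h]) b) = lam := by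
    intro i h
    ext1 l
    rw [coeff_arc]
    split_ifs with hl
    · have h1 := hVx (e ⟨sb i, Fin.cast (by rw [h]) b⟩, ⟨l, hl⟩)
      rw [if_pos (hinj' i s h b)] at h1
      exact h1
    · rw [Polynomial.coeff_eq_zero_of_natDegree_lt (by omega)]
  have hadm : AdG e (r + 1) V := by
    intro i
    rw [cf_vG]
    have e1 : (fun α => V (aG ⟨i, α⟩ : UG m sb dg n r)) = G i := funext fun α => hVa _
    rw [e1]
    by_cases h : sb i = s
    · rw [Finset.sum_eq_single (Fin.cast (by rw [h]) b)]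
      · rw [harc1 i h]
        exact hG2 i h
      · intro b' _ hb'
        rw [harc0 i b' (fun h' => hb' (hinj i s h b b' h')), mul_zero]
      · intro h'
        exact absurd (Finset.mem_univ _) h'
    · have e2 : Fx (G i) (bj e xG (sb i)) = 0 := by
        rw [hG3 i h]
        unfold Fx ev
        exact Finset.sum_eq_zero fun γ _ => by simp only [Pi.zero_apply, map_zero, zero_mul]
      have e3 : ∑ b', Fdx b' (fun α => (aG ⟨i, α⟩ : UG m sb dg n r)) (bj e xG (sb i)) *
          arc (fun q => V (bj e xG (sb i) q)) b' = 0 := by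
        refine Finset.sum_eq_zero fun b' _ => ?_
        rw [harc0 i b' (fun h' => h (Sigma.mk.inj (e.injective h')).1), mul_zero]
      rw [e2, e3, add_zero]
      exact Ideal.zero_mem _
  have hwt : ∀ x, WtS c (V (X x)) := by
    rintro (q | x)
    · have h1 := hVx q
      change WtS c (V (xG q))
      rw [h1]
      split_ifs
      · exact hlam _
      · exact WtS.zero _
    · have h1 := hVa x
      change WtS c (V (aG x))
      rw [h1]
      exact hG1 _ _
  have hTV : (fun x : JV n r ⊕ Cf m sb dg => eval (Sum.elim ξ a) (V (X x))) ∈ SpG e c a ξ :=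
    Submodule.subset_span ⟨V, ⟨hadm, hwt⟩, rfl⟩
  have hR : (∑ x : Cf m sb dg, eval (Sum.elim ξ a) (G x.1 x.2) • (Pi.single (Sum.inr x) 1 : JV n r ⊕ Cf m sb dg → ℂ)) ∈
      SpG e c a ξ := by
    refine Submodule.sum_mem _ fun x _ => ?_
    by_cases h : sb x.1 = s
    · exact Submodule.smul_mem _ _ (hv x.1 h x.2)
    · rw [hG3 x.1 h, Pi.zero_apply, map_zero, zero_smul]
      exact Submodule.zero_mem _
  have hS : (∑ l : Fin (r + 1), eval (Sum.elim ξ a) (lam.coeff (l : ℕ)) •
      (Pi.single (Sum.inl (e ⟨s, b⟩, l)) 1 : JV n r ⊕ Cf m sb dg → ℂ)) =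
      (fun x => eval (Sum.elim ξ a) (V (X x))) -
        ∑ x : Cf m sb dg, eval (Sum.elim ξ a) (G x.1 x.2) • (Pi.single (Sum.inr x) 1 : JV n r ⊕ Cf m sb dg → ℂ) := by
    funext x
    rw [Pi.sub_apply, Finset.sum_apply, Finset.sum_apply]
    simp only [Pi.smul_apply, smul_eq_mul]
    rcases x with q | x
    · have e4 : V (X (Sum.inl q)) = if q.1 = e ⟨s, b⟩ then lam.coeff (q.2 : ℕ) else 0 := hVx q
      rw [e4]
      have e5 : ∑ x : Cf m sb dg, eval (Sum.elim ξ a) (G x.1 x.2) *
          (Pi.single (Sum.inr x) 1 : JV n r ⊕ Cf m sb dg → ℂ) (Sum.inl q) = 0 :=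
        Finset.sum_eq_zero fun x _ => by rw [Pi.single_apply, if_neg (by simp), mul_zero]
      rw [e5, sub_zero]
      by_cases hq : q.1 = e ⟨s, b⟩
      · rw [if_pos hq, Finset.sum_eq_single q.2]
        · rw [Pi.single_apply, if_pos (by rw [← hq]), mul_one]
        · intro l _ hl
          rw [Pi.single_apply, if_neg, mul_zero]
          intro h
          exact hl (congrArg Prod.snd (Sum.inl_injective h)).symm
        · intro h
          exact absurd (Finset.mem_univ _) h
      · rw [if_neg hq, map_zero]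
        refine Finset.sum_eq_zero fun l _ => ?_
        rw [Pi.single_apply, if_neg, mul_zero]
        intro h
        exact hq (congrArg Prod.fst (Sum.inl_injective h))
    · have e4 : V (X (Sum.inr x)) = G x.1 x.2 := hVa x
      rw [e4]
      have e5 : ∑ l : Fin (r + 1), eval (Sum.elim ξ a) (lam.coeff (l : ℕ)) *
          (Pi.single (Sum.inl (e ⟨s, b⟩, l)) 1 : JV n r ⊕ Cf m sb dg → ℂ) (Sum.inr x) = 0 :=
        Finset.sum_eq_zero fun l _ => by rw [Pi.single_apply, if_neg (by simp), mul_zero]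
      rw [e5, Finset.sum_eq_single x]
      · rw [Pi.single_apply, if_pos rfl, mul_one, sub_self]
      · intro y _ hy
        rw [Pi.single_apply, if_neg, mul_zero]
        intro h
        exact hy (Sum.inr_injective h).symm
      · intro h
        exact absurd (Finset.mem_univ _) h
  rw [hS]
  exact Submodule.sub_mem _ hTV hR

end Pool.Agent.H89Y
end

-- from Lib.H89Y.C5b
section

set_option autoImplicit false

/-!
H89Y, CHUNK C5b (M/L).  Horizontal directions, one factor of large degree.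
-/

open MvPolynomial

namespace Pool.Agent.H89Y

open Pool.Agent.H89T Pool.Agent.H78G Pool.Agent.H53Y

variable {β : Type} {m : β → ℕ} {ι : Type} {sb : ι → β} {dg : ι → ℕ} {n r : ℕ}

theorem c5b_map_trunc {A B : Type} [CommRing A] [CommRing B] (φ : A →+* B) (p : Polynomial A) :
    Polynomial.map φ (C6_trunc r p) = C6_trunc r (Polynomial.map φ p) := by
  ext1 l
  rw [Polynomial.coeff_map, C6_coeff_trunc, C6_coeff_trunc, Polynomial.coeff_map]
  split_ifs
  · rfl
  · rw [map_zero]

/-- CHUNK C5b.  One factor of large degree.  PROOF.  `field_d hk b₀ b j hj` (Lib/H89T/C6.lean) gives `V = VV g lam ∈ Fields ..`, `Adm (r + 1) g lam`, with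
`(lam b').coeff l = if b' = b then (arc xA b₀ ^ j).coeff l else 0` for `l ≤ r` (`VV_xA`) and `deg (lam b') ≤ r`, so `lam b' = if b' = b then C6_trunc r (arc xA b₀ ^ j)
else 0` (`C6_coeff_trunc`) and `EV g lam = Fx g xA + Fdx b aA xA * C6_trunc r (arc xA b₀ ^ j)`.  Apply `Polynomial.map (io e i)`: `io_Fx`, `io_Fdx`, and
`map (io e i) (C6_trunc r p) = C6_trunc r (map (io e i) p)` (unfold, `Polynomial.map_sum`, `Polynomial.map_monomial`, `Polynomial.coeff_map`), `io_arc`,
`arc (bj e xG (sb i)) b₀ = arc xG (e ⟨sb i, b₀⟩)` by `rfl`.  Ideal membership: `Ideal.mem_span_pair`.  Weights: `io_wt`. -/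
theorem hor_large_one (e : Co m ≃ Fin n) (i : ι) (hk : r ≤ dg i) (b₀ b : Fin (m (sb i))) (j : ℕ) (hj : j ≤ r) :
    ∃ g : Idx (m (sb i)) (dg i) → UG m sb dg n r, (∀ α, WtS (cF r) (g α)) ∧
      Fx g (bj e xG (sb i)) + Fdx b (fun α => (aG ⟨i, α⟩ : UG m sb dg n r)) (bj e xG (sb i)) *
          C6_trunc r (arc xG (e ⟨sb i, b₀⟩) ^ j) ∈
        Ideal.span {vG e i, (Polynomial.X : Polynomial (UG m sb dg n r)) ^ (r + 1)} := by
  obtain ⟨V, ⟨g, lam, hA, hg, hl, rfl⟩, hV⟩ := field_d hk b₀ b j hj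
  have hlam : ∀ b', lam b' = if b' = b then C6_trunc r (arc xA b₀ ^ j) else 0 := by
    intro b'
    ext1 l
    by_cases hl' : l < r + 1
    · have h1 := hV (b', ⟨l, hl'⟩)
      rw [VV_xA] at h1
      simp only at h1
      rw [h1]
      split_ifs
      · rw [C6_coeff_trunc, if_pos hl']
      · rw [Polynomial.coeff_zero]
    · rw [Polynomial.coeff_eq_zero_of_natDegree_lt (by have := hA.deg b'; omega)]
      split_ifs
      · rw [C6_coeff_trunc, if_neg hl']
      · rw [Polynomial.coeff_zero]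
  have hE : EV g lam = Fx g xA + Fdx b aA xA * C6_trunc r (arc xA b₀ ^ j) := by
    unfold EV
    congr 1
    rw [Finset.sum_eq_single b]
    · rw [hlam b, if_pos rfl]
    · intro b' _ hb'
      rw [hlam b', if_neg hb', mul_zero]
    · intro h
      exact absurd (Finset.mem_univ _) h
  have h2 := hA.mem
  rw [hE, Ideal.mem_span_pair] at h2
  obtain ⟨u, v, h3⟩ := h2
  refine ⟨fun α => io e i (g α), fun α => io_wt e i (hg α), ?_⟩
  rw [Ideal.mem_span_pair]
  have h4 := congrArg (Polynomial.map (io (m := m) (sb := sb) (dg := dg) (r := r) e i).toRingHom) h3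
  refine ⟨Polynomial.map (io (m := m) (sb := sb) (dg := dg) (r := r) e i).toRingHom u,
    Polynomial.map (io (m := m) (sb := sb) (dg := dg) (r := r) e i).toRingHom v, ?_⟩
  simp only [Polynomial.map_add, Polynomial.map_mul, Polynomial.map_pow, Polynomial.map_X, io_Fx, io_Fdx, c5b_map_trunc, io_arc,
    io_aA] at h4
  exact h4

end Pool.Agent.H89Y
end

-- from Lib.H89Y.C5c
section

set_option autoImplicit false

/-!
H89Y, CHUNK C5c (M).  Horizontal directions, the large blocks.
-/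

open MvPolynomial

namespace Pool.Agent.H89Y

open Pool.Agent.H89T Pool.Agent.H78G Pool.Agent.H53Y

variable {β : Type} {m : β → ℕ} {ι : Type} {sb : ι → β} {dg : ι → ℕ} {n r : ℕ}

/-- The coefficients of the powers of the generic arc. -/
theorem c5c_wt (b : Fin n) (j l : ℕ) :
    WtS (j * (r + 1)) (((arc (xG : JV n r → UG m sb dg n r) b) ^ j).coeff l) := by
  induction j generalizing l with
  | zero =>
    rw [pow_zero, Polynomial.coeff_one]
    split_ifs
    · have h := WtS.const (n := n) (r := r) (τ := Cf m sb dg) 1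
      rw [map_one] at h
      exact h.mono (Nat.zero_le _)
    · exact WtS.zero _
  | succ j ih =>
    rw [pow_succ, Polynomial.coeff_mul]
    refine WtS.sum fun x _ => ?_
    have h1 : WtS (r + 1) ((arc (xG : JV n r → UG m sb dg n r) b).coeff x.2) := by
      rw [coeff_arc]
      split_ifs with h
      · refine (WtS.inl (n := n) (r := r) (τ := Cf m sb dg) (b, ⟨x.2, h⟩)).mono ?_
        show x.2 + 1 ≤ r + 1
        omega
      · exact WtS.zero _
    refine ((ih x.1).mul h1).mono ?_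
    rw [Nat.succ_mul]

/-- The compensation, for a factor of the block `s`. -/
theorem c5c_one (e : Co m ≃ Fin n) (s : β) (i : ι) (h : sb i = s) (h' : m s = m (sb i)) (hk : r ≤ dg i)
    (b₀ b : Fin (m s)) (j : ℕ) (hj : j ≤ r) :
    ∃ g : Idx (m (sb i)) (dg i) → UG m sb dg n r, (∀ α, WtS (cF r) (g α)) ∧
      Fx g (bj e xG (sb i)) + Fdx (Fin.cast h' b) (fun α => (aG ⟨i, α⟩ : UG m sb dg n r)) (bj e xG (sb i)) *
          C6_trunc r (arc xG (e ⟨s, b₀⟩) ^ j) ∈
        Ideal.span {vG e i, (Polynomial.X : Polynomial (UG m sb dg n r)) ^ (r + 1)} := by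
  subst h
  exact hor_large_one e i hk b₀ b j hj

/-- The values of the coefficients. -/
theorem c5c_eval (b : Fin n) (a : Cf m sb dg → ℂ) (ξ : JV n r → ℂ) (j : ℕ) (l : Fin (r + 1)) :
    eval (Sum.elim ξ a) ((C6_trunc r ((arc (xG : JV n r → UG m sb dg n r) b) ^ j)).coeff (l : ℕ)) =
      ((arc ξ b) ^ j).coeff (l : ℕ) := by
  rw [C6_coeff_trunc, if_pos l.2, ← Polynomial.coeff_map, Polynomial.map_pow, arc_map]
  have h1 : (fun q : JV n r => eval (Sum.elim ξ a) (xG q : UG m sb dg n r)) = ξ := by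
    funext q
    unfold xG
    rw [eval_X]
    rfl
  rw [h1]

/-- CHUNK C5c.  PROOF.  For `j ≤ r` apply `hor_general` with `lam = C6_trunc r (arc xG (e ⟨s, b₀⟩) ^ j)` (degree `≤ r` and weights `≤ cF r ≤ c` as in `field_d`,
Lib/H89T/C6.lean, now with `WtS`) and `hor_large_one` (for `sb i = s` substitute `s`; `Fin.cast` of a proof of `m s = m s` is the identity).
The coefficients are `eval (lam.coeff l) = (p ^ j).coeff l`, `p = arc ξ (e ⟨s, b₀⟩)` (`C6_coeff_trunc`, `arc_map`, `Polynomial.coeff_map`), `p.coeff 1 = ξ (e ⟨s, b₀⟩, one) ≠ 0`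
(`coeff_arc`).  By `span_powers` (Lib/H89T/C8.lean) `Pi.single l 1` is a combination of the vectors `l ↦ (p ^ j).coeff l`; apply the linear map
`v ↦ ∑ l, v l • Pi.single (Sum.inl (e ⟨s, b⟩, l)) 1` (`Submodule.span_induction` or `Submodule.map_span_le`). -/
theorem hor_large [Fintype ι] [DecidableEq β] [DecidableEq ι] (e : Co m ≃ Fin n) (s : β) (hk : ∀ i, sb i = s → r ≤ dg i)
    (a : Cf m sb dg → ℂ) (ξ : JV n r → ℂ) (b₀ : Fin (m s)) (one : Fin (r + 1)) (h1 : (one : ℕ) = 1)
    (hx : ξ (e ⟨s, b₀⟩, one) ≠ 0) {c : ℕ} (hc : cF r ≤ c)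
    (hv : ∀ i, sb i = s → ∀ α, (Pi.single (Sum.inr ⟨i, α⟩) 1 : JV n r ⊕ Cf m sb dg → ℂ) ∈ SpG e c a ξ)
    (b : Fin (m s)) (l : Fin (r + 1)) :
    (Pi.single (Sum.inl (e ⟨s, b⟩, l)) 1 : JV n r ⊕ Cf m sb dg → ℂ) ∈ SpG e c a ξ := by
  let Λ : (Fin (r + 1) → ℂ) →ₗ[ℂ] (JV n r ⊕ Cf m sb dg → ℂ) :=
    { toFun := fun v => ∑ l : Fin (r + 1), v l • (Pi.single (Sum.inl (e ⟨s, b⟩, l)) 1 : JV n r ⊕ Cf m sb dg → ℂ)
      map_add' := fun v w => by
        simp only [Pi.add_apply, add_smul, Finset.sum_add_distrib]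
      map_smul' := fun t v => by
        simp only [Pi.smul_apply, smul_eq_mul, mul_smul, Finset.smul_sum, RingHom.id_apply] }
  have hΛ : ∀ v, Λ v = ∑ l : Fin (r + 1), v l • (Pi.single (Sum.inl (e ⟨s, b⟩, l)) 1 : JV n r ⊕ Cf m sb dg → ℂ) :=
    fun v => rfl
  have hp : (arc ξ (e ⟨s, b₀⟩)).coeff 1 ≠ 0 := by
    have h2 : 1 < r + 1 := by
      have := one.2
      omega
    rw [coeff_arc, dif_pos h2]
    have h3 : (⟨1, h2⟩ : Fin (r + 1)) = one := Fin.ext h1.symm
    rw [h3]
    exact hx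
  have hle : Submodule.span ℂ (Set.range fun j : Fin (r + 1) =>
      fun l : Fin (r + 1) => ((arc ξ (e ⟨s, b₀⟩)) ^ (j : ℕ)).coeff (l : ℕ)) ≤ (SpG e c a ξ).comap Λ := by
    refine Submodule.span_le.2 ?_
    rintro _ ⟨j, rfl⟩
    have hj : (j : ℕ) ≤ r := by
      have := j.2
      omega
    have hcj : (j : ℕ) * (r + 1) ≤ c := by
      have h4 := C6_cF_ge r
      have h5 : (j : ℕ) * (r + 1) ≤ r * (r + 1) := Nat.mul_le_mul_right _ hj
      omega
    have h6 := hor_general e s b (c := c) (C6_trunc r ((arc (xG : JV n r → UG m sb dg n r) (e ⟨s, b₀⟩)) ^ (j : ℕ)))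
      (by
        rw [Polynomial.natDegree_le_iff_coeff_eq_zero]
        intro l hl
        rw [C6_coeff_trunc, if_neg (by omega)])
      (fun l => by
        rw [C6_coeff_trunc]
        split_ifs
        · exact (c5c_wt _ _ _).mono hcj
        · exact WtS.zero _)
      (fun i h => by
        obtain ⟨g, hg1, hg2⟩ := c5c_one (m := m) (sb := sb) (dg := dg) (r := r) e s i h (by rw [h]) (hk i h) b₀ b j hj
        exact ⟨g, fun α => (hg1 α).mono hc, hg2⟩) a ξ hv
    show Λ (fun l : Fin (r + 1) => ((arc ξ (e ⟨s, b₀⟩)) ^ (j : ℕ)).coeff (l : ℕ)) ∈ SpG e c a ξ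
    rw [hΛ]
    have h7 : (∑ l : Fin (r + 1), eval (Sum.elim ξ a)
        ((C6_trunc r ((arc (xG : JV n r → UG m sb dg n r) (e ⟨s, b₀⟩)) ^ (j : ℕ))).coeff (l : ℕ)) •
        (Pi.single (Sum.inl (e ⟨s, b⟩, l)) 1 : JV n r ⊕ Cf m sb dg → ℂ)) =
        ∑ l : Fin (r + 1), ((arc ξ (e ⟨s, b₀⟩)) ^ (j : ℕ)).coeff (l : ℕ) •
        (Pi.single (Sum.inl (e ⟨s, b⟩, l)) 1 : JV n r ⊕ Cf m sb dg → ℂ) :=
      Finset.sum_congr rfl fun l _ => by rw [c5c_eval]
    rw [← h7]
    exact h6
  have h8 := hle (span_powers (arc ξ (e ⟨s, b₀⟩)) hp (Pi.single l 1))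
  have h9 : Λ (Pi.single l 1) = (Pi.single (Sum.inl (e ⟨s, b⟩, l)) 1 : JV n r ⊕ Cf m sb dg → ℂ) := by
    rw [hΛ, Finset.sum_eq_single l]
    · rw [Pi.single_eq_same, one_smul]
    · intro l' _ hl'
      rw [Pi.single_eq_of_ne hl', zero_smul]
    · intro h
      exact absurd (Finset.mem_univ l) h
  rw [← h9]
  exact h8

end Pool.Agent.H89Y
end
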