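import Pool.Agent.Lib.H1M.PB.M011
import Pool.Agent.Lib.H1M.PB.M027
import Pool.Agent.Lib.H1M.PB.M039
import Pool.Agent.Lib.H1M.PB.M045
import Pool.Agent.Lib.H1M.PB.M046

/-! Merged copies (to shorten the build) of Lib.H49D.B1, Lib.H49D.W2, Lib.H49R.P1, Lib.H49R.A1, Lib.H49R.W1, Lib.H49D.T3, Lib.H49R.B1, Lib.H49R.P3, Lib.H49R.P2, Lib.H49R.A2, Lib.H49R.W2, Lib.H49R.T3. -/

-- from Lib.H49D.B1
section

set_option autoImplicit false

/-!
CHUNK B1 (M/L, adapt `scriptQ_bound`, `scriptQ_order` of `H89T/DF.lean`, without the operators (A)).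
The auxiliary function of one factor of large degree.
-/

open MvPolynomial Real MeasureTheory

namespace Pool.Agent.H49D

open Pool.Agent.H89T Pool.Agent.H78G Pool.Agent.H67T Pool.Agent.H53Y

/-- CHUNK B1 (M).  The operators (B) of one curve (`CurveData` of `H89T/DDefs.lean`): the function
`∏ c, QQ D.y c d (Q c)`.  Copy of `scriptQ_bound` without the factors `PA`: `QQ_le_B` in one chart with
`‖y_c‖ = ‖y‖`, `QQ_le` in the other charts, `1 ≤ Lam`. -/
theorem prodB_bound {n k d : ℕ} (D : CurveData n k) (Q : Fin (n + 1) → MvPolynomial (JV n n) ℂ)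
    (hw : ∀ c, HasWt d (Q c)) (hB : ∀ c, PropB (D.a c) (Q c)) :
    ∃ (C : ℝ) (E : ℕ), 0 ≤ C ∧ ∀ z, (∀ j, D.y z j ≠ 0) → D.Fy z ≠ 0 →
      ‖∏ c, QQ D.y c d (Q c) z‖ * ‖D.y z‖ ^ k ≤
        C * ‖D.Fy z‖ * ‖D.y z‖ ^ ((n + 1) * d) * Lam D.y D.Fy k n z ^ E := by
  classical
  choose CB hCB0 hCB using fun c => QQ_le D c (hw c) (le_refl n)
  choose CC EC hCC0 hCC using fun c => QQ_le_B D c (hw c) (hB c) (le_refl n)
  set K : ℝ := 1 + ∑ c, (CB c + CC c) with hK
  set E1 : ℕ := d + ∑ c, EC c with hE1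
  have hle : ∀ c, CB c + CC c ≤ ∑ c, (CB c + CC c) := fun c =>
    Finset.single_le_sum (f := fun c => CB c + CC c)
      (fun c _ => add_nonneg (hCB0 c) (hCC0 c)) (Finset.mem_univ c)
  have hBK : ∀ c, CB c ≤ K := fun c => by linarith [hle c, hCC0 c]
  have hCK : ∀ c, CC c ≤ K := fun c => by linarith [hle c, hCB0 c]
  have hK0 : 0 ≤ K := (hCB0 0).trans (hBK 0)
  have hEC : ∀ c, EC c ≤ E1 := fun c => by
    have : EC c ≤ ∑ c, EC c :=
      Finset.single_le_sum (f := EC) (fun _ _ => Nat.zero_le _) (Finset.mem_univ c)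
    omega
  refine ⟨K ^ (n + 1), E1 * (n + 1), pow_nonneg hK0 _, fun z hz hF => ?_⟩
  set Y : ℝ := ‖D.y z‖ with hY
  set Λ : ℝ := Lam D.y D.Fy k n z with hΛ
  have hΛ1 : 1 ≤ Λ := one_le_Lam _ _ _ _ _
  have hY0 : 0 ≤ Y := norm_nonneg _
  obtain ⟨c₀, hc₀⟩ : ∃ c₀, ‖D.y z c₀‖ = Y := by
    obtain ⟨c₀, -, h⟩ := Finset.exists_max_image (Finset.univ : Finset (Fin (n + 1)))
      (fun c => ‖D.y z c‖) ⟨0, Finset.mem_univ _⟩
    refine ⟨c₀, le_antisymm (norm_le_pi_norm _ _) ?_⟩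
    exact (pi_norm_le_iff_of_nonneg (norm_nonneg _)).2 fun c => h c (Finset.mem_univ c)
  have hB1 : ∀ c, ‖QQ D.y c d (Q c) z‖ ≤ K * Y ^ d * Λ ^ E1 := by
    intro c
    refine (hCB c z hz).trans ?_
    have h1 : Λ ^ d ≤ Λ ^ E1 := pow_le_pow_right₀ hΛ1 (by omega)
    have h2 : CB c * Y ^ d ≤ K * Y ^ d := mul_le_mul_of_nonneg_right (hBK c) (pow_nonneg hY0 _)
    exact mul_le_mul h2 h1 (by positivity) (by positivity)
  have hC1 : ‖QQ D.y c₀ d (Q c₀) z‖ * Y ^ k ≤ K * ‖D.Fy z‖ * Y ^ d * Λ ^ E1 := by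
    refine (hCC c₀ z hz hF hc₀).trans ?_
    have h1 : Λ ^ EC c₀ ≤ Λ ^ E1 := pow_le_pow_right₀ hΛ1 (hEC c₀)
    have h2 : CC c₀ * ‖D.Fy z‖ * Y ^ d ≤ K * ‖D.Fy z‖ * Y ^ d :=
      mul_le_mul_of_nonneg_right (mul_le_mul_of_nonneg_right (hCK c₀) (norm_nonneg _))
        (pow_nonneg hY0 _)
    exact mul_le_mul h2 h1 (by positivity) (by positivity)
  set G : ℝ := K * Y ^ d * Λ ^ E1 with hG
  have hG0 : 0 ≤ G := by positivity
  have hprod : ‖∏ c, QQ D.y c d (Q c) z‖ = ‖QQ D.y c₀ d (Q c₀) z‖ *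
      ∏ c ∈ Finset.univ.erase c₀, ‖QQ D.y c d (Q c) z‖ := by
    rw [norm_prod]
    exact (Finset.mul_prod_erase Finset.univ (fun c => ‖QQ D.y c d (Q c) z‖)
      (Finset.mem_univ c₀)).symm
  have hrest : ∏ c ∈ Finset.univ.erase c₀, ‖QQ D.y c d (Q c) z‖ ≤ G ^ n := by
    calc ∏ c ∈ Finset.univ.erase c₀, ‖QQ D.y c d (Q c) z‖ ≤ ∏ _c ∈ Finset.univ.erase c₀, G :=
          Finset.prod_le_prod (fun c _ => norm_nonneg _) fun c _ => hB1 c
      _ = G ^ n := by
          rw [Finset.prod_const, Finset.card_erase_of_mem (Finset.mem_univ c₀),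
            Finset.card_univ, Fintype.card_fin, Nat.add_sub_cancel]
  calc ‖∏ c, QQ D.y c d (Q c) z‖ * Y ^ k =
        (‖QQ D.y c₀ d (Q c₀) z‖ * Y ^ k) *
          ∏ c ∈ Finset.univ.erase c₀, ‖QQ D.y c d (Q c) z‖ := by
        rw [hprod]
        ring
    _ ≤ (K * ‖D.Fy z‖ * Y ^ d * Λ ^ E1) * G ^ n :=
        mul_le_mul hC1 hrest (Finset.prod_nonneg fun c _ => norm_nonneg _) (by positivity)
    _ = K ^ (n + 1) * ‖D.Fy z‖ * Y ^ ((n + 1) * d) * Λ ^ (E1 * (n + 1)) := by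
        rw [hG, mul_pow, mul_pow, ← pow_mul, ← pow_mul, Nat.mul_comm (n + 1) d, Nat.mul_succ,
          Nat.mul_succ, pow_add Y, pow_add Λ, pow_succ K]
        ring

/-- CHUNK B1 (S/M).  Copy of the second half of `scriptQ_order` / `DF_order_factor`: in a chart with
`y z c ≠ 0`, `order_propB`, `DF_order_QQ`, `DF_order_prod`. -/
theorem prodB_order {n k d : ℕ} (D : CurveData n k) (Q : Fin (n + 1) → MvPolynomial (JV n n) ℂ)
    (hw : ∀ c, HasWt d (Q c)) (hB : ∀ c, PropB (D.a c) (Q c)) (z : ℂ) (l : ℕ)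
    (hl : (l : ℕ∞) ≤ analyticOrderAt D.Fy z) :
    ((l - n : ℕ) : ℕ∞) ≤ analyticOrderAt (fun z => ∏ c, QQ D.y c d (Q c) z) z := by
  obtain ⟨c, hc⟩ : ∃ c, D.y z c ≠ 0 := by
    by_contra hcon
    push Not at hcon
    exact D.hy.ne_zero z (funext hcon)
  have hy := D.hy.diff
  have hch : ∀ b, AnalyticAt ℂ (fun w => ch c D.y w b) z := fun b => analyticAt_ch hy c hc b
  have hnear : ∀ᶠ w in nhds z, D.y w c ≠ 0 := (hy c).continuous.continuousAt.eventually_ne hc
  have hmF : (l : ℕ∞) ≤ analyticOrderAt (fun w => ev (D.a c) (ch c D.y w)) z := by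
    have h1 : (fun w => ev (D.a c) (ch c D.y w)) =ᶠ[nhds z]
        fun w => D.Fy w * (D.y w c ^ k)⁻¹ := by
      filter_upwards [hnear] with w hw
      rw [D.hFc c w hw, Fc, div_eq_mul_inv]
    rw [analyticOrderAt_congr h1]
    exact le_order_mul hl (D.hF.analyticAt z)
      ((((hy c).analyticAt z).pow k).inv (pow_ne_zero k hc))
  have hB1 : ((l - n : ℕ) : ℕ∞) ≤ analyticOrderAt (QQ D.y c d (Q c)) z :=
    DF_order_QQ hy c (hw c) hc (order_propB (hB c) hch hmF)
  refine hB1.trans ?_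
  exact DF_order_prod (f := fun c w => QQ D.y c d (Q c) w) Finset.univ (Finset.mem_univ c)
    fun i _ => (QQ_diff hy i d (Q i)).analyticAt z

/-- CHUNK B1 (M).  Let `s = sb i`.  The data `D' : CurveData (m s) (dg i)` with `y := D.w s`,
`Fy := D.φ i`, `a c := cfF (dg i) c (D.F i)`: `hy` from `D.hw` and `D.hwge` (`w ≠ 0`, because `y ≠ 0`),
`hF0 := D.hF0 i`, `hy0 := D.hw0 s`, `hFc` from `ev_cf` (`H89T/Hom.lean`), `hFle`: a form of degree `k`
satisfies `‖F (w)‖ ≤ A ‖w‖ ^ k` (see the construction of `CurveData` in `H89T/DP2.lean`,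
`H89T/DP3.lean`).  Take `E = ∏ c, QQ (D.w s) c dB (Q c)`; it is not identically zero (`QQ_eq` at the
points of `h`, `exists_prod_ne`).  `aux_of_bound` with `w := D.w s`, `Λ := Lam ..`
(`one_le_Lam`, `small_Lam`), `G₀ = D.φ i * ∏ j, D.w s z j`, `a := dg i`,
`b := (m s + 1) * dB`. -/
theorem exists_large {N : ℕ} {β : Type} {m : β → ℕ} {ι : Type} [Fintype ι] {sb : ι → β}
    {dg : ι → ℕ} (D : CurveY N m ι sb dg) (i : ι) (dB : ℕ)
    (h : ∀ c : Fin (m (sb i) + 1), ∃ Q : MvPolynomial (JV (m (sb i)) (m (sb i))) ℂ,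
      HasWt dB Q ∧ PropB (cfF (dg i) c (D.F i)) Q ∧
        ∃ z, D.w (sb i) z c ≠ 0 ∧ eval (jetf (m (sb i)) (ch c (D.w (sb i))) z) Q ≠ 0) :
    ∃ E : ℂ → ℂ, Aux D.y E (D.φ i) (D.eg (sb i) * dg i)
        (D.eg (sb i) * ((m (sb i) + 1) * dB)) ∧
      ∀ (z : ℂ) (l : ℕ), (l : ℕ∞) ≤ analyticOrderAt (D.φ i) z →
        ((l - m (sb i) : ℕ) : ℕ∞) ≤ analyticOrderAt E z := by
  have hyw : IsHol (D.w (sb i)) := by
    refine ⟨D.hw _, fun z hz => ?_⟩
    obtain ⟨δ, hδ, h1⟩ := D.hwge (sb i)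
    have h2 := h1 z
    rw [hz, norm_zero] at h2
    have h3 : 0 < ‖D.y z‖ := norm_pos_iff.2 (D.hy.ne_zero z)
    have h4 : 0 < δ * ‖D.y z‖ ^ D.eg (sb i) := by positivity
    linarith
  choose Q hQw hQB hQ0 using h
  obtain ⟨C, q, hC, hb⟩ := prodB_bound
    (mkData (D.hF i) hyw (D.hF0 i) (D.hw0 (sb i))) Q hQw hQB
  have hφ : Differentiable ℂ (D.φ i) := differentiable_eval (D.hw (sb i)) (D.F i)
  have hpd : Differentiable ℂ fun z => ∏ j, D.w (sb i) z j :=
    Differentiable.fun_finsetProd fun j _ => D.hw (sb i) j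
  have hpn : ∃ z, ∏ j, D.w (sb i) z j ≠ 0 :=
    exists_prod_ne (f := fun j z => D.w (sb i) z j) Finset.univ (fun j _ => D.hw (sb i) j)
      fun j _ => D.hw0 (sb i) j
  refine ⟨fun z => ∏ c, QQ (D.w (sb i)) c dB (Q c) z, ?_, ?_⟩
  · refine aux_of_bound (w := D.w (sb i)) (G₀ := fun z => D.φ i z * ∏ j, D.w (sb i) z j)
      (Λ := Lam (D.w (sb i)) (D.φ i) (dg i) (m (sb i))) (C := C) (q := q) D.hy ?_ ?_ hφ
      (D.hF0 i) (hφ.mul hpd) (exists_mul_ne hφ (D.hF0 i) hpd hpn) (D.hwle (sb i))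
      (D.hwge (sb i)) (fun z => one_le_Lam _ _ _ _ _) ?_ ?_
    · exact Differentiable.fun_finsetProd fun c _ => QQ_diff hyw.diff c dB (Q c)
    · refine exists_prod_ne (f := fun c z => QQ (D.w (sb i)) c dB (Q c) z) Finset.univ
        (fun c _ => QQ_diff hyw.diff c dB (Q c)) fun c _ => ?_
      obtain ⟨z, h1, h2⟩ := hQ0 c
      refine ⟨z, ?_⟩
      rw [QQ_eq hyw.diff c (hQw c) h1]
      exact mul_ne_zero (pow_ne_zero _ h1) h2
    · exact small_Lam D.hy (mkData (D.hF i) hyw (D.hF0 i) (D.hw0 (sb i))) (D.hwle (sb i))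
        (m (sb i))
    · intro z hz
      have h1 : ∀ j, D.w (sb i) z j ≠ 0 := fun j =>
        Finset.prod_ne_zero_iff.1 (right_ne_zero_of_mul hz) j (Finset.mem_univ j)
      exact hb z h1 (left_ne_zero_of_mul hz)
  · intro z l hl
    exact prodB_order (mkData (D.hF i) hyw (D.hF0 i) (D.hw0 (sb i))) Q hQw hQB z l hl

end Pool.Agent.H49D
end

-- from Lib.H49D.W2
section

set_option autoImplicit false

/-!
CHUNK W2 (M/L).  The auxiliary function of one small block: the Wronskian.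
-/

open MvPolynomial Real MeasureTheory

namespace Pool.Agent.H49D

open Pool.Agent.H89T Pool.Agent.H78G Pool.Agent.H67T Pool.Agent.H53Y

theorem w2_norm {m : ℕ} (v : Fin (m + 1) → ℂ) : ∃ c, ‖v c‖ = ‖v‖ := by
  obtain ⟨c, -, hc⟩ := Finset.exists_max_image Finset.univ (fun c => ‖v c‖) Finset.univ_nonempty
  refine ⟨c, le_antisymm (norm_le_pi_norm v c) ?_⟩
  rw [pi_norm_le_iff_of_nonneg (norm_nonneg _)]
  exact fun j => hc j (Finset.mem_univ _)

theorem w2_eval {m r : ℕ} (hr : m ≤ r) (ξ : JV m r → ℂ) : eval ξ (WdP (m := m) hr) = Wd hr ξ := by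
  unfold WdP
  rw [Wd_map hr (eval ξ)]
  simp

/-- CHUNK W2 (M).  Cartan's estimate for the full Wronskian.  At a good point choose a chart `c` with
`‖y_c‖ = ‖y‖` (sup norm); `cartan_growth (le_refl m) (le_refl m) D c` (a constant for each `c`, take
the sum), `QQ D.y c ((m + 1) * m) WdP = y_c ^ ((m + 1) * m) * Wd (jet)` (`QQ_eq`, `WdP_wt`, see the
beginning of the proof of `cartan_growth`), so
`‖Wd (jet)‖ * ‖y‖ ^ q ≤ C * ∏ ‖θ_i (y)‖ * Lam ^ (m + 1)` after division by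
`‖y‖ ^ ((m + 1) * m) > 0`, and `Wr_eq`. -/
theorem cartan_Wr {m : ℕ} {ι : Type} [Fintype ι] (D : CurveG m ι) :
    ∃ C : ℝ, 0 ≤ C ∧ ∀ z, Good D.y D.θ z →
      ‖Wr D.y z‖ * ‖D.y z‖ ^ Fintype.card ι ≤
        C * (∏ i, ‖lin (D.θ i) (D.y z)‖) * ‖D.y z‖ ^ (m + 1) *
          LamG D.y D.θ m z ^ (m + 1) := by
  choose C hC0 hC using fun c => cartan_growth (le_refl m) (le_refl m) D c
  have hK0 : (0 : ℝ) ≤ ∏ l : Fin m, (((l : ℕ) + 1).factorial : ℝ) :=
    Finset.prod_nonneg fun _ _ => by positivity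
  refine ⟨(∏ l : Fin m, (((l : ℕ) + 1).factorial : ℝ)) * ∑ c, C c,
    mul_nonneg hK0 (Finset.sum_nonneg fun c _ => hC0 c), fun z hz => ?_⟩
  obtain ⟨c, hc⟩ := w2_norm (D.y z)
  have h1 := hC c z hz hc
  have hY0 : 0 < ‖D.y z‖ := norm_pos_iff.2 (D.hy.ne_zero z)
  rw [QQ_eq D.hy.diff c (WdP_wt (le_refl m)) (hz.1 c), w2_eval, norm_mul, norm_pow, hc] at h1
  have h2 : ‖Wd (le_refl m) (jetf m (ch c D.y) z)‖ * ‖D.y z‖ ^ Fintype.card ι ≤
      C c * (∏ i, ‖lin (D.θ i) (D.y z)‖) * LamG D.y D.θ m z ^ (m + 1) := by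
    have h3 : 0 < ‖D.y z‖ ^ ((m + 1) * m) := pow_pos hY0 _
    refine le_of_mul_le_mul_left ?_ h3
    calc _ = ‖D.y z‖ ^ ((m + 1) * m) * ‖Wd (le_refl m) (jetf m (ch c D.y) z)‖ * ‖D.y z‖ ^ Fintype.card ι := by ring
      _ ≤ _ := h1
      _ = _ := by ring
  have h4 : C c ≤ ∑ c, C c := Finset.single_le_sum (fun c _ => hC0 c) (Finset.mem_univ c)
  have h5 : (0 : ℝ) ≤ (∏ i, ‖lin (D.θ i) (D.y z)‖) * LamG D.y D.θ m z ^ (m + 1) :=
    mul_nonneg (Finset.prod_nonneg fun _ _ => norm_nonneg _)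
      (pow_nonneg (zero_le_one.trans (one_le_LamG D.y D.θ m z)) _)
  rw [Wr_eq (le_refl m) D.hy.diff c (hz.1 c), norm_mul, norm_mul, norm_mul, norm_pow, norm_pow, norm_neg, norm_one,
    one_pow, one_mul, norm_prod, hc]
  have h6 : ∏ l : Fin m, ‖(((l : ℕ) + 1).factorial : ℂ)‖ = ∏ l : Fin m, (((l : ℕ) + 1).factorial : ℝ) :=
    Finset.prod_congr rfl fun l _ => by rw [Complex.norm_natCast]
  rw [h6]
  calc _ = (∏ l : Fin m, (((l : ℕ) + 1).factorial : ℝ)) * ‖D.y z‖ ^ (m + 1) *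
        (‖Wd (le_refl m) (jetf m (ch c D.y) z)‖ * ‖D.y z‖ ^ Fintype.card ι) := by ring
    _ ≤ (∏ l : Fin m, (((l : ℕ) + 1).factorial : ℝ)) * ‖D.y z‖ ^ (m + 1) *
        ((∑ c, C c) * ((∏ i, ‖lin (D.θ i) (D.y z)‖) * LamG D.y D.θ m z ^ (m + 1))) := by
      refine mul_le_mul_of_nonneg_left (h2.trans ?_) (mul_nonneg hK0 (pow_nonneg hY0.le _))
      rw [mul_assoc]
      exact mul_le_mul_of_nonneg_right h4 h5
    _ = _ := by ring

/-- CHUNK W2 (S/M).  The order of the full Wronskian: `order_Wd (le_refl m)` (`H78G/D4.lean`) in a chart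
with `y z c ≠ 0`; near `z` `Wr = Wd (jet) * (const * y_c ^ (m + 1))` (`Wr_eq`), `le_order_mul`. -/
theorem order_Wr {m : ℕ} {ι : Type} [Fintype ι] (D : CurveG m ι) {z : ℂ} (ν : ι → ℕ)
    (hν : ∀ i, (ν i : ℕ∞) ≤ analyticOrderAt (fun w => lin (D.θ i) (D.y w)) z) :
    ((∑ i, (ν i - m) : ℕ) : ℕ∞) ≤ analyticOrderAt (Wr D.y) z := by
  obtain ⟨c, hc⟩ : ∃ c, D.y z c ≠ 0 := by
    by_contra h
    push Not at h
    exact D.hy.ne_zero z (funext h)
  have h1 := order_Wd (le_refl m) D c hc ν hν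
  have hyc : ∀ᶠ w in nhds z, D.y w c ≠ 0 :=
    ((D.hy.diff c).continuous.continuousAt).eventually_ne hc
  have hev : Wr D.y =ᶠ[nhds z] fun w => eval (jetf m (ch c D.y) w) (WdP (m := m) (le_refl m)) *
      ((-1) ^ (c : ℕ) * (∏ l : Fin m, (((l : ℕ) + 1).factorial : ℂ)) * D.y w c ^ (m + 1)) := by
    filter_upwards [hyc] with w hw
    rw [Wr_eq (le_refl m) D.hy.diff c hw, w2_eval]
    ring
  rw [analyticOrderAt_congr hev]
  refine le_order_mul h1 ?_ ?_
  · exact analyticAt_eval _ fun p => analyticAt_jetf m (fun b => analyticAt_ch D.hy.diff c hc b) p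
  · exact analyticAt_const.fun_mul (((D.hy.diff c).analyticAt z).fun_pow _)


end Pool.Agent.H49D
end

-- from Lib.H49R.P1
section

set_option autoImplicit false

/-!
The function `QMB`.
-/

open MvPolynomial Real MeasureTheory

namespace Pool.Agent.H49R

open Pool.Agent.H89T Pool.Agent.H78G Pool.Agent.H67T Pool.Agent.H53Y Pool.Agent.H49D Pool.Agent.H53R

variable {β : Type} [Fintype β] [DecidableEq β] {m : β → ℕ} {ι : Type} [Fintype ι]
variable {sb : ι → β} {dg : ι → ℕ} {n r : ℕ}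

theorem QMB_diff (D : CurveW m ι sb dg) (e : Co m ≃ Fin n) (M : β → ℕ)
    (P : MvPolynomial (JV n r) ℂ) : Differentiable ℂ (QMB D e M P) := by
  unfold QMB
  refine Differentiable.fun_sum fun μ _ => ?_
  refine ((Differentiable.fun_finsetProd fun s _ => ((D.hw s).diff 0).pow _).const_mul _).mul ?_
  exact Differentiable.fun_finsetProd fun p _ => (eta_diff (D.hw _).diff 0 _ _).pow _

/-- The product over the jet variables, block by block. -/
theorem prod_wtb {X : Type} [CommMonoid X] (e : Co m ≃ Fin n) (μ : JV n r →₀ ℕ) (x : β → X) :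
    ∏ s, x s ^ wtb e s μ = ∏ p : JV n r, x (e.symm p.1).1 ^ (((p.2 : ℕ) + 1) * μ p) := by
  unfold wtb
  rw [Finset.prod_congr rfl fun s _ => (Finset.prod_pow_eq_pow_sum Finset.univ
    (fun p : JV n r => if (e.symm p.1).1 = s then ((p.2 : ℕ) + 1) * μ p else 0)
    (x s)).symm, Finset.prod_comm]
  refine Finset.prod_congr rfl fun p _ => ?_
  rw [Finset.prod_eq_single (e.symm p.1).1]
  · rw [if_pos rfl]
  · intro s _ hs
    rw [if_neg (Ne.symm hs), pow_zero]
  · intro h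
    exact absurd (Finset.mem_univ _) h

theorem QMB_eq (D : CurveW m ι sb dg) (e : Co m ≃ Fin n) {M : β → ℕ}
    {P : MvPolynomial (JV n r) ℂ} (hP : HasWtB e M P) {z : ℂ} (hz : ∀ s, D.w s z 0 ≠ 0) :
    QMB D e M P z = (∏ s, D.w s z 0 ^ M s) * eval (jetf r (D.f e) z) P := by
  unfold QMB
  rw [eval_eq', Finset.mul_sum]
  refine Finset.sum_congr rfl fun μ hμ => ?_
  have h0 := prod_wtb e μ (fun s => D.w s z 0)
  have h1 : ∏ p : JV n r, jetf r (D.f e) z p ^ μ p =
      (∏ p : JV n r, eta (D.w (e.symm p.1).1) 0 (e.symm p.1).2 (p.2 : ℕ) z ^ μ p) /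
        ∏ s, D.w s z 0 ^ wtb e s μ := by
    rw [h0, ← Finset.prod_div_distrib]
    refine Finset.prod_congr rfl fun p _ => ?_
    have h2 := iteratedDeriv_ch (D.hw (e.symm p.1).1).diff 0 (e.symm p.1).2 (p.2 : ℕ)
      (hz (e.symm p.1).1)
    have h3 : jetf r (D.f e) z p = eta (D.w (e.symm p.1).1) 0 (e.symm p.1).2 (p.2 : ℕ) z /
        D.w (e.symm p.1).1 z 0 ^ ((p.2 : ℕ) + 1) := h2
    rw [h3, div_pow, ← pow_mul]
  rw [h1]
  have h2 : ∏ s, D.w s z 0 ^ M s =
      (∏ s, D.w s z 0 ^ (M s - wtb e s μ)) * ∏ s, D.w s z 0 ^ wtb e s μ := by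
    rw [← Finset.prod_mul_distrib]
    refine Finset.prod_congr rfl fun s _ => ?_
    rw [← pow_add, Nat.sub_add_cancel (hP s μ hμ)]
  rw [h2]
  have h3 : ∏ s, D.w s z 0 ^ wtb e s μ ≠ 0 :=
    Finset.prod_ne_zero_iff.mpr fun s _ => pow_ne_zero _ (hz s)
  field_simp

end Pool.Agent.H49R
end

-- from Lib.H49R.A1
section

set_option autoImplicit false

/-!
Calculus of `SmallP` and `AuxP`.
-/

open MvPolynomial Real MeasureTheory

namespace Pool.Agent.H49R

open Pool.Agent.H89T Pool.Agent.H78G Pool.Agent.H67T Pool.Agent.H53Y Pool.Agent.H49D Pool.Agent.H53R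

variable {β : Type} [Fintype β] {m : β → ℕ} {w : (s : β) → ℂ → Fin (m s + 1) → ℂ}

theorem err_pos (s : β) (r R : ℝ) : 0 ≤ err (w s) r R :=
  zero_le_one.trans (NS2_err_ge (w s) r R)

theorem err_le_sum (s : β) (r R : ℝ) : err (w s) r R ≤ ∑ s, err (w s) r R :=
  Finset.single_le_sum (f := fun s => err (w s) r R) (fun s _ => err_pos s r R) (Finset.mem_univ s)

theorem one_le_sum_err [Nonempty β] (r R : ℝ) : 1 ≤ ∑ s, err (w s) r R :=
  (NS2_err_ge (w (Classical.arbitrary β)) r R).trans (err_le_sum _ r R)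

/-- From one curve to all of them. -/
theorem Small_toP {s : β} {h : ℂ → ℝ} (hs : Small (w s) h) : SmallP w h := by
  obtain ⟨g, h1, h2, C, hC, h3⟩ := hs
  exact ⟨g, h1, h2, C, hC, fun r R hr hR => (h3 r R hr hR).trans
    (mul_le_mul_of_nonneg_left (err_le_sum s r R) hC)⟩

theorem smallP_const [Nonempty β] (c : ℝ) : SmallP w fun _ => c :=
  Small_toP (s := Classical.arbitrary β) (small_const c)

theorem SmallP.add {f g : ℂ → ℝ} (hf : SmallP w f) (hg : SmallP w g) :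
    SmallP w fun z => f z + g z := by
  obtain ⟨f', hf1, hf2, C, hC, hf3⟩ := hf
  obtain ⟨g', hg1, hg2, C', hC', hg3⟩ := hg
  refine ⟨fun z => f' z + g' z, fun z => add_le_add (hf1 z) (hg1 z),
    fun r => (hf2 r).add (hg2 r), C + C', add_nonneg hC hC', fun r R hr hR => ?_⟩
  rw [circleAverage_fun_add (hf2 r) (hg2 r), add_mul]
  exact add_le_add (hf3 r R hr hR) (hg3 r R hr hR)

theorem SmallP.smul {f : ℂ → ℝ} (a : ℕ) (hf : SmallP w f) : SmallP w fun z => (a : ℝ) * f z := by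
  obtain ⟨f', hf1, hf2, C, hC, hf3⟩ := hf
  refine ⟨fun z => (a : ℝ) * f' z, fun z => mul_le_mul_of_nonneg_left (hf1 z) (Nat.cast_nonneg a),
    fun r => (NS2_mul (a : ℝ) ⟨hf2 r, rfl⟩).1, a * C, mul_nonneg (Nat.cast_nonneg a) hC,
    fun r R hr hR => ?_⟩
  rw [(NS2_mul (a : ℝ) (⟨hf2 r, rfl⟩ : NS2_Avg r f' _)).2, mul_assoc]
  exact mul_le_mul_of_nonneg_left (hf3 r R hr hR) (Nat.cast_nonneg a)

theorem SmallP.sum [Nonempty β] {κ : Type} (s : Finset κ) {f : κ → ℂ → ℝ}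
    (hf : ∀ i ∈ s, SmallP w (f i)) : SmallP w fun z => ∑ i ∈ s, f i z := by
  classical
  induction s using Finset.induction_on with
  | empty =>
    simp only [Finset.sum_empty]
    exact smallP_const 0
  | insert i s hi ih =>
    simp only [Finset.sum_insert hi]
    exact (hf i (Finset.mem_insert_self i s)).add
      (ih fun j hj => hf j (Finset.mem_insert_of_mem hj))

theorem AuxP.one [Nonempty β] : AuxP w (fun _ => 1) (fun _ => 1) (fun _ => 0) (fun _ => 0) := by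
  refine ⟨⟨differentiable_const _, 0, one_ne_zero⟩, ⟨differentiable_const _, 0, one_ne_zero⟩,
    fun _ => 1, fun _ => 0, differentiable_const _, ⟨0, one_ne_zero⟩, smallP_const 0,
    fun z _ => ?_⟩
  simp

theorem AuxP.mul {E₁ E₂ G₁ G₂ : ℂ → ℂ} {κ₁ κ₂ B₁ B₂ : β → ℕ} (h₁ : AuxP w E₁ G₁ κ₁ B₁)
    (h₂ : AuxP w E₂ G₂ κ₂ B₂) :
    AuxP w (fun z => E₁ z * E₂ z) (fun z => G₁ z * G₂ z) (fun s => κ₁ s + κ₂ s)
      (fun s => B₁ s + B₂ s) := by
  obtain ⟨⟨hE1, hE1'⟩, ⟨hG1, hG1'⟩, F₁, f₁, hF1, hF1', hf1, hb1⟩ := h₁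
  obtain ⟨⟨hE2, hE2'⟩, ⟨hG2, hG2'⟩, F₂, f₂, hF2, hF2', hf2, hb2⟩ := h₂
  have hE := exists_mul_ne hE1 hE1' hE2 hE2'
  have hG := exists_mul_ne hG1 hG1' hG2 hG2'
  have hF := exists_mul_ne hF1 hF1' hF2 hF2'
  have hEd := hE1.fun_mul hE2
  have hGd := hG1.fun_mul hG2
  have hFd := hF1.fun_mul hF2
  refine ⟨⟨hEd, hE⟩, ⟨hGd, hG⟩, fun z => (F₁ z * F₂ z) * ((E₁ z * E₂ z) * (G₁ z * G₂ z)),
    fun z => f₁ z + f₂ z, hFd.fun_mul (hEd.fun_mul hGd),
    exists_mul_ne hFd hF (hEd.fun_mul hGd) (exists_mul_ne hEd hE hGd hG), hf1.add hf2,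
    fun z hz => ?_⟩
  simp only [ne_eq, mul_eq_zero, not_or] at hz
  obtain ⟨⟨hz1, hz2⟩, ⟨hz3, hz4⟩, hz5, hz6⟩ := hz
  have h1 := hb1 z hz1
  have h2 := hb2 z hz2
  rw [norm_mul, norm_mul, Real.log_mul (norm_ne_zero_iff.2 hz3) (norm_ne_zero_iff.2 hz4),
    Real.log_mul (norm_ne_zero_iff.2 hz5) (norm_ne_zero_iff.2 hz6)]
  have e1 : ∑ s, ((κ₁ s + κ₂ s : ℕ) : ℝ) * log ‖w s z‖ =
      ∑ s, (κ₁ s : ℝ) * log ‖w s z‖ + ∑ s, (κ₂ s : ℝ) * log ‖w s z‖ := by
    rw [← Finset.sum_add_distrib]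
    refine Finset.sum_congr rfl fun s _ => ?_
    push_cast
    ring
  have e2 : ∑ s, ((B₁ s + B₂ s : ℕ) : ℝ) * log ‖w s z‖ =
      ∑ s, (B₁ s : ℝ) * log ‖w s z‖ + ∑ s, (B₂ s : ℝ) * log ‖w s z‖ := by
    rw [← Finset.sum_add_distrib]
    refine Finset.sum_congr rfl fun s _ => ?_
    push_cast
    ring
  rw [e1, e2]
  linarith

theorem AuxP.prod [Nonempty β] {κ : Type} (t : Finset κ) {E G : κ → ℂ → ℂ} {a b : κ → β → ℕ}
    (h : ∀ i ∈ t, AuxP w (E i) (G i) (a i) (b i)) :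
    AuxP w (fun z => ∏ i ∈ t, E i z) (fun z => ∏ i ∈ t, G i z) (fun s => ∑ i ∈ t, a i s)
      (fun s => ∑ i ∈ t, b i s) := by
  classical
  induction t using Finset.induction_on with
  | empty =>
    simp only [Finset.prod_empty, Finset.sum_empty]
    exact AuxP.one
  | insert i t hi ih =>
    simp only [Finset.prod_insert hi, Finset.sum_insert hi]
    exact (h i (Finset.mem_insert_self i t)).mul
      (ih fun j hj => h j (Finset.mem_insert_of_mem hj))

theorem AuxP.pow [Nonempty β] {E G : ℂ → ℂ} {κ B : β → ℕ} (h : AuxP w E G κ B) (a : ℕ) :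
    AuxP w (fun z => E z ^ a) (fun z => G z ^ a) (fun s => a * κ s) (fun s => a * B s) := by
  induction a with
  | zero =>
    simp only [pow_zero, zero_mul]
    exact AuxP.one
  | succ a ih =>
    simp only [pow_succ, Nat.succ_mul]
    exact ih.mul h

/-- From an auxiliary function of one block. -/
theorem Aux_toP [DecidableEq β] {s : β} {E G : ℂ → ℂ} {κ B : ℕ} (h : Aux (w s) E G κ B) :
    AuxP w E G (fun s' => if s' = s then κ else 0) (fun s' => if s' = s then B else 0) := by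
  obtain ⟨hE, hG, G₀, f, h1, h2, h3, h4⟩ := h
  refine ⟨hE, hG, G₀, f, h1, h2, Small_toP h3, fun z hz => ?_⟩
  have h5 := h4 z hz
  have e : ∀ a : ℕ, ∑ s', ((if s' = s then a else 0 : ℕ) : ℝ) * log ‖w s' z‖ = a * log ‖w s z‖ := by
    intro a
    rw [Finset.sum_eq_single s]
    · rw [if_pos rfl]
    · intro s' _ hs'
      rw [if_neg hs', Nat.cast_zero, zero_mul]
    · intro h
      exact absurd (Finset.mem_univ s) h
  rw [e, e]
  exact h5

end Pool.Agent.H49R
end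

-- from Lib.H49R.W1
section

set_option autoImplicit false

/-!
The linear forms of a small block; counting.
-/

open MvPolynomial Real MeasureTheory

namespace Pool.Agent.H49R

open Pool.Agent.H89T Pool.Agent.H78G Pool.Agent.H67T Pool.Agent.H53Y Pool.Agent.H49D Pool.Agent.H53R

variable {β : Type} {m : β → ℕ} {ι : Type} [Fintype ι] {sb : ι → β} {dg : ι → ℕ}

theorem lin_θP (D : CurveW m ι sb dg) (s : β) (x : {i : ι // sb i = s}) (h1 : dg x.1 = 1) (z : ℂ) :
    lin (D.θ s x) (D.w s z) = D.φ x.1 z := by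
  obtain ⟨i, rfl⟩ := x
  have h2 := D.hF i
  have h1' : dg i = 1 := h1
  rw [h1'] at h2
  show lin (D.θ (sb i) ⟨i, rfl⟩) (D.w (sb i) z) = eval (D.w (sb i) z) (D.F i)
  rw [eval_linear h2]
  rfl

theorem φ_diffP (D : CurveW m ι sb dg) (i : ι) : Differentiable ℂ (D.φ i) :=
  differentiable_eval (D.hw (sb i)).diff (D.F i)

theorem count_DP [Fintype β] [DecidableEq β] (T : β → Bool) {k μ : ℕ} (D : CurveW m ι sb dg)
    (hμ : ∀ s, m s ≤ μ) (h1 : ∀ i, T (sb i) = true → dg i = 1)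
    (hg : ∀ s, T s = true → GenPos (D.θ s))
    (hL : ∀ s, T s = false → ∀ z, Nat.card {i : ι // sb i = s ∧ D.φ i z = 0} ≤ k)
    (z : ℂ) (ν : ι → ℕ) (hν : ∀ i, ν i ≠ 0 → D.φ i z = 0) :
    ∑ i, ν i ≤ ∑ i, (ν i - m (sb i)) + Fintype.card β * (k * μ + μ ^ 2) := by
  classical
  refine count_le sb m hμ ν fun s => ?_
  cases hT : T s with
  | true =>
    have h2 : (Finset.univ.filter fun i => sb i = s ∧ ν i ≠ 0).card ≤ m s := by
      have h3 := (hg s hT).card_le ((D.hw s).ne_zero z)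
        (Finset.univ.filter fun x : {i : ι // sb i = s} => ν x.1 ≠ 0) (fun x hx => by
          rw [lin_θP D s x (h1 x.1 (by rw [x.2]; exact hT)) z]
          exact hν x.1 (Finset.mem_filter.1 hx).2)
      refine le_trans (le_of_eq ?_) h3
      rw [← Finset.card_map (Function.Embedding.subtype fun i : ι => sb i = s)]
      congr 1
      ext i
      simp only [Finset.mem_filter, Finset.mem_univ, true_and, Finset.mem_map, Function.Embedding.coe_subtype,
        Subtype.exists, exists_and_left, exists_prop, exists_eq_right_right]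
      tauto
    calc _ ≤ m s * μ := Nat.mul_le_mul_right _ h2
      _ ≤ μ * μ := Nat.mul_le_mul_right _ (hμ s)
      _ ≤ k * μ + μ ^ 2 := by rw [pow_two]; exact Nat.le_add_left _ _
  | false =>
    have h2 := hL s hT z
    rw [Nat.card_eq_fintype_card, Fintype.card_subtype] at h2
    have h3 : (Finset.univ.filter fun i => sb i = s ∧ ν i ≠ 0).card ≤ k := by
      refine le_trans (Finset.card_le_card fun i hi => ?_) h2
      rw [Finset.mem_filter] at hi ⊢
      exact ⟨hi.1, hi.2.1, hν i hi.2.2⟩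
    calc _ ≤ k * μ := Nat.mul_le_mul_right _ h3
      _ ≤ k * μ + μ ^ 2 := Nat.le_add_right _ _

end Pool.Agent.H49R
end

-- from Lib.H49D.T3
section

set_option autoImplicit false

/-!
CHUNK T3 (M/L).  Module D: assembly.
-/

open MvPolynomial Real MeasureTheory

namespace Pool.Agent.H49D

open Pool.Agent.H89T Pool.Agent.H78G Pool.Agent.H67T Pool.Agent.H53Y


/-- CHUNK T3 (M).  The products and the sums: large factors and small blocks. -/
theorem prod_split {β ι : Type} [Fintype β] [DecidableEq β] [Fintype ι] (sb : ι → β)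
    (T : β → Bool) {X : Type} [CommMonoid X] (g : ι → X) :
    (∏ i ∈ Finset.univ.filter (fun i => T (sb i) = false), g i) *
      (∏ s ∈ Finset.univ.filter (fun s => T s = true),
        ∏ i ∈ Finset.univ.filter (fun i => sb i = s), g i) = ∏ i, g i := by
  have h1 : (∏ s ∈ Finset.univ.filter (fun s => T s = true),
        ∏ i ∈ Finset.univ.filter (fun i => sb i = s), g i) =
      ∏ i ∈ Finset.univ.filter (fun i => T (sb i) = true), g i := by
    rw [← Finset.prod_fiberwise_of_maps_to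
      (s := Finset.univ.filter (fun i => T (sb i) = true))
      (t := Finset.univ.filter (fun s => T s = true)) (g := sb)
      (by intro i hi; simpa using hi)]
    refine Finset.prod_congr rfl (fun s hs => ?_)
    refine Finset.prod_congr ?_ (fun _ _ => rfl)
    ext i
    simp only [Finset.mem_filter, Finset.mem_univ, true_and] at hs ⊢
    constructor
    · intro hi
      exact ⟨by rw [hi]; exact hs, hi⟩
    · exact fun hi => hi.2
  have h2 : Finset.univ.filter (fun i => T (sb i) = false) =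
      Finset.univ.filter (fun i => ¬ T (sb i) = true) := by
    ext i
    simp
  rw [h1, h2, mul_comm]
  exact Finset.prod_filter_mul_prod_filter_not Finset.univ (fun i => T (sb i) = true) g



end Pool.Agent.H49D
end

-- from Lib.H49R.B1
section

set_option autoImplicit false

/-!
The auxiliary function of one factor of large degree.
-/

open MvPolynomial Real MeasureTheory

namespace Pool.Agent.H49R

open Pool.Agent.H89T Pool.Agent.H78G Pool.Agent.H67T Pool.Agent.H53Y Pool.Agent.H49D Pool.Agent.H53R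

/-- The curve `w (sb i)` with the factor `i` alone. -/
noncomputable def single {β : Type} {m : β → ℕ} {ι : Type} [Fintype ι] {sb : ι → β} {dg : ι → ℕ}
    (D : CurveW m ι sb dg) (i : ι) :
    CurveY (m (sb i)) (fun _ : Unit => m (sb i)) Unit (fun _ => ()) (fun _ => dg i) where
  y := D.w (sb i)
  w := fun _ => D.w (sb i)
  eg := fun _ => 1
  F := fun _ => D.F i
  hy := D.hw (sb i)
  hw := fun _ => (D.hw (sb i)).diff
  hwle := fun _ => ⟨1, fun z => by rw [pow_one, one_mul]⟩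
  hwge := fun _ => ⟨1, one_pos, fun z => by rw [pow_one, one_mul]⟩
  hw0 := fun _ => D.hw0 (sb i)
  hF := fun _ => D.hF i
  hF0 := fun _ => D.hF0 i

theorem exists_largeP {β : Type} [Fintype β] [DecidableEq β] {m : β → ℕ} {ι : Type} [Fintype ι]
    {sb : ι → β} {dg : ι → ℕ} (D : CurveW m ι sb dg) (i : ι) (dB : ℕ)
    (h : ∀ c : Fin (m (sb i) + 1), ∃ Q : MvPolynomial (JV (m (sb i)) (m (sb i))) ℂ,
      HasWt dB Q ∧ PropB (cfF (dg i) c (D.F i)) Q ∧
        ∃ z, D.w (sb i) z c ≠ 0 ∧ eval (jetf (m (sb i)) (ch c (D.w (sb i))) z) Q ≠ 0) :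
    ∃ E : ℂ → ℂ, AuxP D.w E (D.φ i) (fun s => if s = sb i then dg i else 0)
        (fun s => if s = sb i then (m (sb i) + 1) * dB else 0) ∧
      ∀ (z : ℂ) (l : ℕ), (l : ℕ∞) ≤ analyticOrderAt (D.φ i) z →
        ((l - m (sb i) : ℕ) : ℕ∞) ≤ analyticOrderAt E z := by
  obtain ⟨E, h1, h2⟩ := exists_large (single D i) () dB h
  have h3 : Aux (D.w (sb i)) E (D.φ i) (1 * dg i) (1 * ((m (sb i) + 1) * dB)) := h1
  rw [one_mul, one_mul] at h3
  exact ⟨E, Aux_toP h3, h2⟩

end Pool.Agent.H49R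
end

-- from Lib.H49R.P3
section

set_option autoImplicit false

/-!
The order of the operator at crossings and tangencies, on the curves.
-/

open MvPolynomial Real MeasureTheory

namespace Pool.Agent.H49R

open Pool.Agent.H89T Pool.Agent.H78G Pool.Agent.H67T Pool.Agent.H53Y Pool.Agent.H49D Pool.Agent.H53R

variable {β : Type} [Fintype β] [DecidableEq β] {m : β → ℕ} {ι : Type} [Fintype ι]
variable {sb : ι → β} {dg : ι → ℕ} {n r : ℕ}

theorem fv_eqP (D : CurveW m ι sb dg) (e : Co m ≃ Fin n) (i : ι) {z : ℂ}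
    (hz : D.w (sb i) z 0 ≠ 0) :
    fv e D.a (D.f e z) i = D.φ i z / D.w (sb i) z 0 ^ dg i := by
  have h0 : ∀ x : Co m, D.f e z (e x) = ch 0 (D.w x.1) z x.2 := by
    intro x
    exact congrArg (fun x : Co m => ch 0 (D.w x.1) z x.2) (e.symm_apply_apply x)
  have h1 : bx e (D.f e z) (sb i) = fun b => D.w (sb i) z ((0 : Fin (m (sb i) + 1)).succAbove b) / D.w (sb i) z 0 := by
    funext b
    exact h0 ⟨sb i, b⟩
  have h2 : fv e D.a (D.f e z) i = ev (cfF (dg i) 0 (D.F i)) (bx e (D.f e z) (sb i)) := rfl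
  rw [h2, h1, ev_cf 0 (D.hF i) hz]
  rfl

theorem order_QMB [DecidableEq ι] (D : CurveW m ι sb dg) (e : Co m ≃ Fin n) {M : β → ℕ}
    {P : MvPolynomial (JV n r) ℂ} (hr : 1 ≤ r) (hP : HasWtB e M P) (hPG : PropG e D.a r P) {z : ℂ}
    (hz : ∀ s, D.w s z 0 ≠ 0)
    (h : (∃ i, 2 ≤ analyticOrderAt (D.φ i) z) ∨
      ∃ i i', i ≠ i' ∧ D.φ i z = 0 ∧ D.φ i' z = 0) :
    (r : ℕ∞) ≤ analyticOrderAt (QMB D e M P) z := by
  classical
  have hf : ∀ b, AnalyticAt ℂ (fun w => D.f e w b) z := fun b =>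
    analyticAt_ch (D.hw (e.symm b).1).diff 0 (hz _) (e.symm b).2
  have hnear : ∀ᶠ w in nhds z, ∀ s, D.w s w 0 ≠ 0 :=
    Filter.eventually_all.2 fun s =>
      ((D.hw s).diff 0).continuous.continuousAt.eventually_ne (hz s)
  have hφ : ∀ i, AnalyticAt ℂ (D.φ i) z := fun i =>
    analyticAt_eval (D.F i) fun j => ((D.hw (sb i)).diff j).analyticAt z
  have h' : (∃ i, 2 ≤ analyticOrderAt (fun w => fv e D.a (D.f e w) i) z) ∨
      ∃ i i', i ≠ i' ∧ fv e D.a (D.f e z) i = 0 ∧ fv e D.a (D.f e z) i' = 0 := by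
    rcases h with ⟨i, hi⟩ | ⟨i, i', hne, h1, h2⟩
    · left
      refine ⟨i, ?_⟩
      have h1 : (fun w => fv e D.a (D.f e w) i) =ᶠ[nhds z]
          fun w => D.φ i w * (D.w (sb i) w 0 ^ dg i)⁻¹ := by
        filter_upwards [hnear] with w hw
        rw [fv_eqP D e i (hw (sb i)), div_eq_mul_inv]
      rw [analyticOrderAt_congr h1]
      exact le_order_mul hi (hφ i)
        (((((D.hw (sb i)).diff 0).analyticAt z).pow (dg i)).inv (pow_ne_zero _ (hz (sb i))))
    · right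
      refine ⟨i, i', hne, ?_, ?_⟩
      · rw [fv_eqP D e i (hz (sb i)), h1, zero_div]
      · rw [fv_eqP D e i' (hz (sb i')), h2, zero_div]
  have h1 := order_propG e hr hPG hf h'
  have h2 : QMB D e M P =ᶠ[nhds z] fun w => eval (jetf r (D.f e) w) P * ∏ s, D.w s w 0 ^ M s := by
    filter_upwards [hnear] with w hw
    rw [QMB_eq D e hP hw, mul_comm]
  rw [analyticOrderAt_congr h2]
  refine le_order_mul h1 ?_ ?_
  · exact analyticAt_eval P fun p => analyticAt_jetf r hf p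
  · exact Finset.analyticAt_fun_prod _ fun s _ => (((D.hw s).diff 0).analyticAt z).pow (M s)

end Pool.Agent.H49R
end

-- from Lib.H49R.P2
section

set_option autoImplicit false

/-!
The growth of the operator.
-/

open MvPolynomial Real MeasureTheory

namespace Pool.Agent.H49R

open Pool.Agent.H89T Pool.Agent.H78G Pool.Agent.H67T Pool.Agent.H53Y Pool.Agent.H49D Pool.Agent.H53R

variable {β : Type} [Fintype β] [DecidableEq β] {m : β → ℕ} {ι : Type} [Fintype ι]
variable {sb : ι → β} {dg : ι → ℕ} {n r : ℕ}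

/-- The value of a polynomial of multi-weight `≤ M` at a jet bounded in every block. -/
theorem norm_eval_leB (e : Co m ≃ Fin n) {M : β → ℕ} {P : MvPolynomial (JV n r) ℂ}
    (hP : HasWtB e M P) :
    ∃ C : ℝ, 1 ≤ C ∧ ∀ (ξ : JV n r → ℂ) (x : β → ℝ), (∀ s, 1 ≤ x s) →
      (∀ p, ‖ξ p‖ ≤ x (e.symm p.1).1) → ‖eval ξ P‖ ≤ C * ∏ s, x s ^ M s := by
  refine ⟨1 + ∑ μ ∈ P.support, ‖P.coeff μ‖,
    le_add_of_nonneg_right (Finset.sum_nonneg fun _ _ => norm_nonneg _), fun ξ x hx hξ => ?_⟩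
  have hX : 0 ≤ ∏ s, x s ^ M s :=
    Finset.prod_nonneg fun s _ => pow_nonneg (zero_le_one.trans (hx s)) _
  have h1 : ∀ μ ∈ P.support, ‖P.coeff μ * ∏ p, ξ p ^ μ p‖ ≤ ‖P.coeff μ‖ * ∏ s, x s ^ M s := by
    intro μ hμ
    rw [norm_mul]
    refine mul_le_mul_of_nonneg_left ?_ (norm_nonneg _)
    calc ‖∏ p, ξ p ^ μ p‖ = ∏ p, ‖ξ p‖ ^ μ p := by
          rw [norm_prod]
          exact Finset.prod_congr rfl fun p _ => norm_pow _ _
      _ ≤ ∏ p : JV n r, x (e.symm p.1).1 ^ (((p.2 : ℕ) + 1) * μ p) := by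
          refine Finset.prod_le_prod (fun p _ => pow_nonneg (norm_nonneg _) _) fun p _ => ?_
          refine (pow_le_pow_left₀ (norm_nonneg _) (hξ p) _).trans ?_
          refine pow_le_pow_right₀ (hx _) ?_
          exact Nat.le_mul_of_pos_left _ (Nat.succ_pos _)
      _ = ∏ s, x s ^ wtb e s μ := (prod_wtb e μ x).symm
      _ ≤ ∏ s, x s ^ M s := by
          refine Finset.prod_le_prod (fun s _ => pow_nonneg (zero_le_one.trans (hx s)) _)
            fun s _ => ?_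
          exact pow_le_pow_right₀ (hx s) (hP s μ hμ)
  rw [eval_eq', add_mul, one_mul, Finset.sum_mul]
  exact ((norm_sum_le _ _).trans (Finset.sum_le_sum h1)).trans (le_add_of_nonneg_left hX)

theorem QMB_le (D : CurveW m ι sb dg) (e : Co m ≃ Fin n) {M : β → ℕ}
    {P : MvPolynomial (JV n r) ℂ} (hP : HasWtB e M P) :
    ∃ C : ℝ, 1 ≤ C ∧ ∀ z, (∀ s j, D.w s z j ≠ 0) →
      ‖QMB D e M P z‖ ≤ C * ∏ s,
        (LamG (D.w s) (fun _ : Fin 0 => (0 : Fin (m s + 1) → ℂ)) r z * ‖D.w s z‖) ^ M s := by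
  obtain ⟨C, hC, h⟩ := norm_eval_leB e hP
  refine ⟨C, hC, fun z hz => ?_⟩
  set Λ : β → ℝ := fun s => LamG (D.w s) (fun _ : Fin 0 => (0 : Fin (m s + 1) → ℂ)) r z with hΛ
  set S : β → ℝ := fun s => ‖D.w s z‖ / ‖D.w s z 0‖ with hS
  have hΛ1 : ∀ s, 1 ≤ Λ s := fun s => one_le_LamG _ _ _ _
  have hS1 : ∀ s, 1 ≤ S s := fun s => norm_coord_pos _ _ _ (hz s 0)
  have hj : ∀ p, ‖jetf r (D.f e) z p‖ ≤ Λ (e.symm p.1).1 * S (e.symm p.1).1 := by
    intro p
    exact D2_norm_jetf_le (D.w (e.symm p.1).1)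
        (fun _ : Fin 0 => (0 : Fin (m (e.symm p.1).1 + 1) → ℂ)) le_rfl 0 z (hz _)
        ((e.symm p.1).2, p.2)
  have h1 := h (jetf r (D.f e) z) (fun s => Λ s * S s)
    (fun s => one_le_mul_of_one_le_of_one_le (hΛ1 s) (hS1 s)) hj
  rw [QMB_eq D e hP (fun s => hz s 0), norm_mul, norm_prod]
  have hw0 : ∀ s, 0 < ‖D.w s z 0‖ := fun s => norm_pos_iff.mpr (hz s 0)
  have hp0 : 0 ≤ ∏ s, ‖D.w s z 0 ^ M s‖ := Finset.prod_nonneg fun s _ => norm_nonneg _
  calc (∏ s, ‖D.w s z 0 ^ M s‖) * ‖eval (jetf r (D.f e) z) P‖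
      ≤ (∏ s, ‖D.w s z 0 ^ M s‖) * (C * ∏ s, (Λ s * S s) ^ M s) :=
        mul_le_mul_of_nonneg_left h1 hp0
    _ = C * ∏ s, (Λ s * ‖D.w s z‖) ^ M s := by
        rw [mul_left_comm, ← Finset.prod_mul_distrib]
        congr 1
        refine Finset.prod_congr rfl fun s _ => ?_
        rw [norm_pow, ← mul_pow]
        congr 1
        rw [hS]
        field_simp [(hw0 s).ne']

theorem aux_QMB [Nonempty β] (D : CurveW m ι sb dg) (e : Co m ≃ Fin n) {M : β → ℕ}
    {P : MvPolynomial (JV n r) ℂ} (hP : HasWtB e M P)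
    (h0 : ∃ z, (∀ s, D.w s z 0 ≠ 0) ∧ eval (jetf r (D.f e) z) P ≠ 0) :
    AuxP D.w (QMB D e M P) (fun _ => 1) (fun _ => 0) M := by
  obtain ⟨C, hC, h⟩ := QMB_le D e hP
  have hd := QMB_diff D e M P
  have hne : ∃ z, QMB D e M P z ≠ 0 := by
    obtain ⟨z, hz, hz'⟩ := h0
    refine ⟨z, ?_⟩
    rw [QMB_eq D e hP hz]
    exact mul_ne_zero (Finset.prod_ne_zero_iff.mpr fun s _ => pow_ne_zero _ (hz s)) hz'
  have hwd : Differentiable ℂ fun z => ∏ s, ∏ j, D.w s z j :=
    Differentiable.fun_finsetProd fun s _ =>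
      Differentiable.fun_finsetProd fun j _ => (D.hw s).diff j
  have hwne : ∃ z, ∏ s, ∏ j, D.w s z j ≠ 0 :=
    exists_prod_ne Finset.univ
      (fun s _ => Differentiable.fun_finsetProd fun j _ => (D.hw s).diff j)
      (fun s _ => exists_prod_ne Finset.univ (fun j _ => (D.hw s).diff j)
        (fun j _ => D.hw0 s j))
  refine ⟨⟨hd, hne⟩, ⟨differentiable_const _, 0, one_ne_zero⟩,
    fun z => QMB D e M P z * ∏ s, ∏ j, D.w s z j,
    fun z => log C + ∑ s, (M s : ℝ) *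
      log (LamG (D.w s) (fun _ : Fin 0 => (0 : Fin (m s + 1) → ℂ)) r z),
    hd.fun_mul hwd, exists_mul_ne hd hne hwd hwne,
    (smallP_const _).add (SmallP.sum Finset.univ fun s _ => SmallP.smul (M s) (Small_toP (s := s)
      (small_LamG (e := 1) (D.hw s) (D.hw s).diff (D.hw0 s)
        ⟨1, fun z => by rw [pow_one, one_mul]⟩ (fun i => i.elim0) r))), fun z hz => ?_⟩
  rw [mul_ne_zero_iff] at hz
  obtain ⟨hz1, hz2⟩ := hz
  have hz3 : ∀ s j, D.w s z j ≠ 0 := fun s j =>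
    Finset.prod_ne_zero_iff.mp (Finset.prod_ne_zero_iff.mp hz2 s (Finset.mem_univ s)) j
      (Finset.mem_univ j)
  have h1 := h z hz3
  have hw : ∀ s, 0 < ‖D.w s z‖ := fun s =>
    lt_of_lt_of_le (norm_pos_iff.mpr (hz3 s 0)) (norm_le_pi_norm (D.w s z) 0)
  have hL : ∀ s, 0 < LamG (D.w s) (fun _ : Fin 0 => (0 : Fin (m s + 1) → ℂ)) r z := fun s =>
    zero_lt_one.trans_le (one_le_LamG _ _ _ _)
  have hC0 : 0 < C := zero_lt_one.trans_le hC
  have hP1 : ∀ s, (0 : ℝ) <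
      (LamG (D.w s) (fun _ : Fin 0 => (0 : Fin (m s + 1) → ℂ)) r z * ‖D.w s z‖) ^ M s :=
    fun s => pow_pos (mul_pos (hL s) (hw s)) _
  have h2 := Real.log_le_log (norm_pos_iff.mpr hz1) h1
  rw [Real.log_mul hC0.ne' (Finset.prod_pos fun s _ => hP1 s).ne',
    Real.log_prod (fun s _ => (hP1 s).ne')] at h2
  have h3 : ∑ s, log ((LamG (D.w s) (fun _ : Fin 0 => (0 : Fin (m s + 1) → ℂ)) r z *
      ‖D.w s z‖) ^ M s) =
      ∑ s, (M s : ℝ) * log (LamG (D.w s) (fun _ : Fin 0 => (0 : Fin (m s + 1) → ℂ)) r z) +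
        ∑ s, (M s : ℝ) * log ‖D.w s z‖ := by
    rw [← Finset.sum_add_distrib]
    refine Finset.sum_congr rfl fun s _ => ?_
    rw [Real.log_pow, Real.log_mul (hL s).ne' (hw s).ne', mul_add]
  rw [h3] at h2
  simp only [Nat.cast_zero, zero_mul, Finset.sum_const_zero, norm_one, Real.log_one]
  linarith

end Pool.Agent.H49R
end

-- from Lib.H49R.A2
section

set_option autoImplicit false

/-!
From an auxiliary function to the inequality.
-/

open MvPolynomial Real MeasureTheory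

namespace Pool.Agent.H49R

open Pool.Agent.H89T Pool.Agent.H78G Pool.Agent.H67T Pool.Agent.H53Y Pool.Agent.H49D Pool.Agent.H53R

variable {β : Type} [Fintype β] {m : β → ℕ} {w : (s : β) → ℂ → Fin (m s + 1) → ℂ}

/-- Jensen for the auxiliary function, with the averages of all curves `w s`. -/
theorem core_smallP [Nonempty β] (hw : ∀ s, IsHol (w s)) {E Fy : ℂ → ℂ} {κ B : β → ℕ} {ρ : ℕ}
    (hρ : 1 ≤ ρ) (h : AuxP w E (fun z => Fy z ^ ρ) κ B) (hF : Differentiable ℂ Fy)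
    (hord : ∀ (z : ℂ) (k : ℕ), (k : ℕ∞) ≤ analyticOrderAt Fy z →
      ((ρ * (k - 1) : ℕ) : ℕ∞) ≤ analyticOrderAt E z) :
    ∃ C : ℝ, 0 ≤ C ∧ ∀ r R : ℝ, 1 ≤ r → r < R →
      ∑ s, (κ s : ℝ) * chi (w s) r ≤
        ρ * N1 Fy r + ∑ s, (B s : ℝ) * chi (w s) r + C * ∑ s, err (w s) r R := by
  classical
  obtain ⟨⟨hE, hE0⟩, ⟨hG, hG0⟩, G₀, h₀, hG₀, hG₀0, ⟨g, hle, hg, C, hC, hgC⟩, hmain⟩ := h
  have hF0 : ∃ z, Fy z ≠ 0 := by
    obtain ⟨z, hz⟩ := hG0
    exact ⟨z, fun h0 => hz (by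
      change Fy z ^ ρ = 0
      rw [h0, zero_pow (by omega)])⟩
  obtain ⟨K, hK⟩ := jensen_compare (k := ρ) (g := fun _ => Fy) (fun _ => hF)
    (fun _ => hF0) hE hE0 (by
      intro z m' hm'
      have : Nonempty (Fin ρ) := ⟨⟨0, hρ⟩⟩
      obtain ⟨i, hi⟩ := Finite.exists_max m'
      refine le_trans ?_ (hord z (m' i) (hm' i))
      have h1 : ∑ j, (m' j - 1) ≤ ρ * (m' i - 1) := by
        calc ∑ j, (m' j - 1) ≤ ∑ _j : Fin ρ, (m' i - 1) :=
              Finset.sum_le_sum fun j _ => Nat.sub_le_sub_right (hi j) 1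
          _ = ρ * (m' i - 1) := by simp
      exact_mod_cast h1)
  refine ⟨|K| + C, by positivity, fun r R hr hrR => ?_⟩
  have hr0 : r ≠ 0 := by linarith
  have herr := one_le_sum_err (w := w) r R
  obtain ⟨F, hFdef⟩ : ∃ F : ℂ → ℂ, F = fun z => E z * Fy z * G₀ z := ⟨_, rfl⟩
  have hFd : Differentiable ℂ F := by
    rw [hFdef]
    exact (hE.mul hF).mul hG₀
  have hF0' : ∃ z, F z ≠ 0 := by
    have h1 := eventually_ne_of_entire hE hE0
    have h2 := eventually_ne_of_entire hF hF0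
    have h3 := eventually_ne_of_entire hG₀ hG₀0
    obtain ⟨z, hz1, hz2, hz3⟩ := (h1.and (h2.and h3)).exists
    refine ⟨z, ?_⟩
    rw [hFdef]
    exact mul_ne_zero (mul_ne_zero hz1 hz2) hz3
  have hAE : NS2_Avg r (fun z => log ‖E z‖) (circleAverage (fun z => log ‖E z‖) 0 r) :=
    ⟨NS2_int_log hE r, rfl⟩
  have hAF : NS2_Avg r (fun z => log ‖Fy z‖)
      (circleAverage (fun z => log ‖Fy z‖) 0 r) := ⟨NS2_int_log hF r, rfl⟩
  have hAy : ∀ a : β → ℕ, NS2_Avg r (fun z => ∑ s, (a s : ℝ) * log ‖w s z‖)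
      (∑ s, (a s : ℝ) * chi (w s) r) := fun a =>
    NS2_sum Finset.univ fun s _ => NS2_mul (a s : ℝ)
      (⟨NS2_int_log_y (hw s) r, rfl⟩ : NS2_Avg r (fun z => log ‖w s z‖) (chi (w s) r))
  have hAg : NS2_Avg r g (circleAverage g 0 r) := ⟨hg r, rfl⟩
  have h1 := NS2_mono hr0 (NS2_add hAE (hAy κ))
    (NS2_add (NS2_add (NS2_mul (ρ : ℝ) hAF) (hAy B)) hAg) hFd hF0' (by
      intro z hz
      have hz' : G₀ z ≠ 0 := by
        rw [hFdef] at hz
        exact right_ne_zero_of_mul hz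
      have h2 := hmain z hz'
      change _ ≤ log ‖Fy z ^ ρ‖ + ∑ s, (B s : ℝ) * log ‖w s z‖ + h₀ z at h2
      rw [norm_pow, Real.log_pow] at h2
      have h3 := hle z
      linarith)
  have hJ := hK r hr
  simp only [Finset.sum_const, Finset.card_univ, Fintype.card_fin, nsmul_eq_mul] at hJ
  have e2 : |K| ≤ |K| * ∑ s, err (w s) r R := le_mul_of_one_le_right (abs_nonneg _) herr
  have e4 := le_abs_self K
  have e5 := hgC r R hr hrR
  have e6 : (|K| + C) * ∑ s, err (w s) r R =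
      |K| * ∑ s, err (w s) r R + C * ∑ s, err (w s) r R := add_mul _ _ _
  rw [e6]
  linarith

/-- The coefficients `B` may be increased (`chi (w s) r` is bounded below for `r ≥ 1`). -/
theorem weakenP [Nonempty β] (hw : ∀ s, IsHol (w s)) {B B' : β → ℕ} (hB : ∀ s, B s ≤ B' s)
    {C : ℝ} (hC : 0 ≤ C) {S S' : ℝ → ℝ}
    (h : ∀ r R : ℝ, 1 ≤ r → r < R → S' r ≤ S r + ∑ s, (B s : ℝ) * chi (w s) r +
      C * ∑ s, err (w s) r R) :
    ∃ C' : ℝ, 0 ≤ C' ∧ ∀ r R : ℝ, 1 ≤ r → r < R →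
      S' r ≤ S r + ∑ s, (B' s : ℝ) * chi (w s) r + C' * ∑ s, err (w s) r R := by
  have hlow : ∀ (s : β) (r : ℝ), 1 ≤ r → -|chi (w s) 1| ≤ chi (w s) r := by
    intro s r hr
    have h1 := chi_mono (hw s) (r := 1) (R := r) one_pos hr
    have h2 := neg_abs_le (chi (w s) 1)
    linarith
  obtain ⟨K, hK⟩ : ∃ K : ℝ, K = ∑ s, ((B' s : ℝ) - B s) * |chi (w s) 1| := ⟨_, rfl⟩
  have hBB : ∀ s, (0 : ℝ) ≤ (B' s : ℝ) - B s := by
    intro s
    have h4 : (B s : ℝ) ≤ B' s := by exact_mod_cast hB s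
    linarith
  have hK0 : 0 ≤ K := by
    rw [hK]
    exact Finset.sum_nonneg fun s _ => mul_nonneg (hBB s) (abs_nonneg _)
  refine ⟨C + K, add_nonneg hC hK0, fun r R hr hrR => ?_⟩
  have h1 := h r R hr hrR
  have h3 := one_le_sum_err (w := w) r R
  have h5 : ∑ s, (B s : ℝ) * chi (w s) r ≤ ∑ s, (B' s : ℝ) * chi (w s) r + K := by
    rw [hK, ← Finset.sum_add_distrib]
    refine Finset.sum_le_sum fun s _ => ?_
    have h6 : 0 ≤ ((B' s : ℝ) - B s) * (chi (w s) r + |chi (w s) 1|) :=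
      mul_nonneg (hBB s) (by linarith [hlow s r hr])
    have h7 : ((B' s : ℝ) - B s) * (chi (w s) r + |chi (w s) 1|) =
        B' s * chi (w s) r + ((B' s : ℝ) - B s) * |chi (w s) 1| - B s * chi (w s) r := by ring
    rw [h7] at h6
    linarith
  have h8 : K ≤ K * ∑ s, err (w s) r R := le_mul_of_one_le_right hK0 h3
  rw [add_mul]
  linarith

end Pool.Agent.H49R
end

-- from Lib.H49R.W2
section

set_option autoImplicit false

/-!
The auxiliary function of one small block: the Wronskian.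
-/

open MvPolynomial Real MeasureTheory

namespace Pool.Agent.H49R

open Pool.Agent.H89T Pool.Agent.H78G Pool.Agent.H67T Pool.Agent.H53Y Pool.Agent.H49D Pool.Agent.H53R

theorem exists_smallP {β : Type} [Fintype β] [DecidableEq β] {m : β → ℕ} {ι : Type} [Fintype ι]
    {sb : ι → β} {dg : ι → ℕ} (D : CurveW m ι sb dg) (s : β) (h1 : ∀ i, sb i = s → dg i = 1)
    (hg : GenPos (D.θ s))
    (hc : (∃ i, sb i = s) → m s + 1 ≤ Nat.card {i : ι // sb i = s})
    (hW : ∃ z, Wr (D.w s) z ≠ 0) :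
    ∃ (W : ℂ → ℂ) (b : ℕ), b ≤ m s + 1 ∧
      AuxP D.w W (fun z => ∏ i ∈ Finset.univ.filter (fun i => sb i = s), D.φ i z)
        (fun s' => if s' = s then (Finset.univ.filter (fun i => sb i = s)).card else 0)
        (fun s' => if s' = s then b else 0) ∧
      ∀ (z : ℂ) (ν : ι → ℕ), (∀ i, (ν i : ℕ∞) ≤ analyticOrderAt (D.φ i) z) →
        ((∑ i ∈ Finset.univ.filter (fun i => sb i = s), (ν i - m s) : ℕ) : ℕ∞) ≤
          analyticOrderAt W z := by
  by_cases hex : ∃ i, sb i = s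
  · obtain ⟨D', hy', hθ'⟩ : ∃ D' : CurveG (m s) {i : ι // sb i = s}, D'.y = D.w s ∧ D'.θ = D.θ s :=
      ⟨{  y := D.w s
          θ := D.θ s
          hy := D.hw s
          hy0 := D.hw0 s
          hθ0 := fun x => by
            obtain ⟨z, hz⟩ := D.hF0 x.1
            exact ⟨z, by rw [lin_θP D s x (h1 x.1 x.2) z]; exact hz⟩
          gen := hg
          card := by
            have := hc hex
            rwa [Nat.card_eq_fintype_card] at this }, rfl, rfl⟩
    have hcard : Fintype.card {i : ι // sb i = s} = (Finset.univ.filter fun i => sb i = s).card :=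
      Fintype.card_subtype _
    have hG : Differentiable ℂ fun z => ∏ i ∈ Finset.univ.filter (fun i => sb i = s), D.φ i z :=
      Differentiable.fun_finsetProd fun i _ => φ_diffP D i
    have hG0 : ∃ z, ∏ i ∈ Finset.univ.filter (fun i => sb i = s), D.φ i z ≠ 0 :=
      exists_prod_ne _ (fun i _ => φ_diffP D i) fun i _ => D.hF0 i
    have hw : Differentiable ℂ fun z => ∏ j, D.w s z j :=
      Differentiable.fun_finsetProd fun j _ => (D.hw s).diff j
    have hw0 : ∃ z, ∏ j, D.w s z j ≠ 0 :=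
      exists_prod_ne _ (fun j _ => (D.hw s).diff j) fun j _ => D.hw0 s j
    have hprod : ∀ z, ∏ x : {i : ι // sb i = s}, ‖lin (D.θ s x) (D.w s z)‖ =
        ‖∏ i ∈ Finset.univ.filter (fun i => sb i = s), D.φ i z‖ := by
      intro z
      rw [norm_prod, Finset.prod_subtype (Finset.univ.filter fun i => sb i = s) (p := fun i => sb i = s)
        (fun i => by simp)]
      exact Finset.prod_congr rfl fun x _ => by rw [lin_θP D s x (h1 x.1 x.2) z]
    obtain ⟨C, hC0, hC⟩ := cartan_Wr D'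
    rw [hy', hθ'] at hC
    refine ⟨Wr (D.w s), m s + 1, le_refl _, ?_, ?_⟩
    · have h2 : Aux (D.w s) (Wr (D.w s))
          (fun z => ∏ i ∈ Finset.univ.filter (fun i => sb i = s), D.φ i z)
          (1 * (Finset.univ.filter (fun i => sb i = s)).card) (1 * (m s + 1)) := by
        refine aux_of_bound (w := D.w s) (G₀ := fun z => (∏ j, D.w s z j) *
          ∏ i ∈ Finset.univ.filter (fun i => sb i = s), D.φ i z)
          (Λ := LamG (D.w s) (D.θ s) (m s))
          (q := m s + 1) (C := C) (D.hw s) (Wr_diff (D.hw s).diff) hW hG hG0 (hw.fun_mul hG)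
          (exists_mul_ne hw hw0 hG hG0)
          ⟨1, fun z => by rw [pow_one, one_mul]⟩ ⟨1, one_pos, fun z => by rw [pow_one, one_mul]⟩
          (one_le_LamG _ _ _)
          (small_LamG (e := 1) (D.hw s) (D.hw s).diff (D.hw0 s)
            ⟨1, fun z => by rw [pow_one, one_mul]⟩ (fun x => ?_) (m s)) fun z hz => ?_
        · obtain ⟨z, hz⟩ := D.hF0 x.1
          exact ⟨z, by rw [lin_θP D s x (h1 x.1 x.2) z]; exact hz⟩
        · have hz1 := left_ne_zero_of_mul hz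
          have hz2 := right_ne_zero_of_mul hz
          rw [Finset.prod_ne_zero_iff] at hz1 hz2
          have h3 := hC z ⟨fun j => hz1 j (Finset.mem_univ _), fun x => by
            rw [lin_θP D s x (h1 x.1 x.2) z]
            exact hz2 x.1 (Finset.mem_filter.2 ⟨Finset.mem_univ _, x.2⟩)⟩
          rw [hprod, hcard] at h3
          exact h3
      rw [one_mul, one_mul] at h2
      exact Aux_toP h2
    · intro z ν hν
      have h3 := order_Wr D' (z := z) (fun x => ν x.1) (fun x => by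
        rw [hy', hθ']
        have h4 : (fun w => lin (D.θ s x) (D.w s w)) = D.φ x.1 :=
          funext fun w => lin_θP D s x (h1 x.1 x.2) w
        rw [h4]
        exact hν x.1)
      rw [hy'] at h3
      refine le_trans (le_of_eq ?_) h3
      rw [Finset.sum_subtype (Finset.univ.filter fun i => sb i = s) (p := fun i => sb i = s)
        (fun i => by simp)]
  · have hemp : Finset.univ.filter (fun i => sb i = s) = ∅ := by
      rw [Finset.filter_eq_empty_iff]
      intro i _ hi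
      exact hex ⟨i, hi⟩
    have : Nonempty β := ⟨s⟩
    refine ⟨fun _ => 1, 0, Nat.zero_le _, ?_, ?_⟩
    · rw [hemp]
      simp only [Finset.prod_empty, Finset.card_empty, ite_self]
      exact AuxP.one
    · intro z ν _
      rw [hemp, Finset.sum_empty, Nat.cast_zero]
      exact zero_le

end Pool.Agent.H49R
end

-- from Lib.H49R.T3
section

set_option autoImplicit false

/-!
H49R: **module D of H53R** (`D_P`), assembly.
-/

open MvPolynomial Real MeasureTheory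

namespace Pool.Agent.H49R

open Pool.Agent.H89T Pool.Agent.H78G Pool.Agent.H67T Pool.Agent.H53Y Pool.Agent.H49D Pool.Agent.H53R

private theorem sum_splitP {β ι : Type} [Fintype β] [DecidableEq β] [Fintype ι] (sb : ι → β)
    (T : β → Bool) (g : ι → ℕ) :
    (∑ i ∈ Finset.univ.filter (fun i => T (sb i) = false), g i) +
      (∑ s ∈ Finset.univ.filter (fun s => T s = true),
        ∑ i ∈ Finset.univ.filter (fun i => sb i = s), g i) = ∑ i, g i :=
  prod_split (X := Multiplicative ℕ) sb T g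

/-- The sum over the blocks of the contributions of the factors. -/
theorem sum_delta {β ι : Type} [Fintype β] [DecidableEq β] [Fintype ι] (sb : ι → β) (g : ι → ℕ)
    (c : β → ℝ) :
    ∑ s, ((∑ i, (if s = sb i then g i else 0) : ℕ) : ℝ) * c s = ∑ i, (g i : ℝ) * c (sb i) := by
  have h1 : ∀ s, ((∑ i, (if s = sb i then g i else 0) : ℕ) : ℝ) * c s =
      ∑ i, (if s = sb i then (g i : ℝ) * c s else 0) := by
    intro s
    push_cast
    rw [Finset.sum_mul]
    refine Finset.sum_congr rfl fun i _ => ?_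
    split_ifs
    · rfl
    · exact zero_mul _
  rw [Finset.sum_congr rfl fun s _ => h1 s, Finset.sum_comm]
  refine Finset.sum_congr rfl fun i _ => ?_
  rw [Finset.sum_ite_eq' Finset.univ (sb i) fun s => (g i : ℝ) * c s, if_pos (Finset.mem_univ _)]

/-- **Module D.** -/
theorem curveP : D_P := by
  intro β _ _ m ι _ _ sb dg T n r k μ M e D hr hm1 hmr hmμ hz0 hd1 hgen hcard hWr hL dB hB P hP
    hPG hP0
  rcases isEmpty_or_nonempty β with hβ | hβ
  · have hι : IsEmpty ι := ⟨fun i => hβ.elim (sb i)⟩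
    refine ⟨0, le_rfl, fun ρ R hρ _ => ?_⟩
    have h1 := N1_nonneg (fun z => ∏ i, D.φ i z) hρ
    have h2 : (0 : ℝ) ≤ r * N1 (fun z => ∏ i, D.φ i z) ρ := mul_nonneg (Nat.cast_nonneg r) h1
    simp only [Finset.univ_eq_empty, Finset.sum_empty, mul_zero, add_zero] at h2 ⊢
    exact h2
  have hE : ∀ i : ι, T (sb i) = false → ∃ E : ℂ → ℂ,
      AuxP D.w E (D.φ i) (fun s => if s = sb i then dg i else 0)
        (fun s => if s = sb i then (m (sb i) + 1) * dB i else 0) ∧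
      ∀ (z : ℂ) (l : ℕ), (l : ℕ∞) ≤ analyticOrderAt (D.φ i) z →
        ((l - m (sb i) : ℕ) : ℕ∞) ≤ analyticOrderAt E z :=
    fun i hi => exists_largeP D i (dB i) (hB i hi)
  choose! E hEA hEo using hE
  have hW : ∀ s : β, T s = true → ∃ (W : ℂ → ℂ) (b : ℕ), b ≤ m s + 1 ∧
      AuxP D.w W (fun z => ∏ i ∈ Finset.univ.filter (fun i => sb i = s), D.φ i z)
        (fun s' => if s' = s then (Finset.univ.filter (fun i => sb i = s)).card else 0)
        (fun s' => if s' = s then b else 0) ∧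
      ∀ (z : ℂ) (ν : ι → ℕ), (∀ i, (ν i : ℕ∞) ≤ analyticOrderAt (D.φ i) z) →
        ((∑ i ∈ Finset.univ.filter (fun i => sb i = s), (ν i - m s) : ℕ) : ℕ∞) ≤
          analyticOrderAt W z :=
    fun s hs => exists_smallP D s (fun i hi => hd1 i (by rw [hi]; exact hs)) (hgen s hs)
      (hcard s hs) (hWr s hs)
  choose! W b hb hWA hWo using hW
  have hmemE : ∀ i ∈ Finset.univ.filter (fun i => T (sb i) = false), T (sb i) = false :=
    fun i hi => (Finset.mem_filter.mp hi).2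
  have hmemW : ∀ s ∈ Finset.univ.filter (fun s => T s = true), T s = true :=
    fun s hs => (Finset.mem_filter.mp hs).2
  have hA1 := (aux_QMB D e hP hP0).pow (Fintype.card β * (k * μ + μ ^ 2))
  have hA2 := (AuxP.prod (Finset.univ.filter (fun i => T (sb i) = false))
    (fun i hi => hEA i (hmemE i hi))).pow r
  have hA3 := (AuxP.prod (Finset.univ.filter (fun s => T s = true))
    (fun s hs => hWA s (hmemW s hs))).pow r
  have hA := hA1.mul (hA2.mul hA3)
  have hG : (fun z => (1 : ℂ) ^ (Fintype.card β * (k * μ + μ ^ 2)) *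
      ((∏ i ∈ Finset.univ.filter (fun i => T (sb i) = false), D.φ i z) ^ r *
        (∏ s ∈ Finset.univ.filter (fun s => T s = true),
          ∏ i ∈ Finset.univ.filter (fun i => sb i = s), D.φ i z) ^ r)) =
      fun z => (∏ i, D.φ i z) ^ r := by
    funext z
    rw [one_pow, one_mul, ← mul_pow, prod_split sb T (fun i => D.φ i z)]
  rw [hG] at hA
  have hκ : (fun s' => Fintype.card β * (k * μ + μ ^ 2) * 0 +
      (r * ∑ i ∈ Finset.univ.filter (fun i => T (sb i) = false),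
          (if s' = sb i then dg i else 0) +
        r * ∑ s ∈ Finset.univ.filter (fun s => T s = true),
          (if s' = s then (Finset.univ.filter (fun i => sb i = s)).card else 0))) =
      fun s' => r * ∑ i, (if s' = sb i then dg i else 0) := by
    funext s'
    rw [mul_zero, zero_add, ← mul_add, ← sum_splitP sb T (fun i => if s' = sb i then dg i else 0)]
    congr 2
    refine Finset.sum_congr rfl (fun s hs => ?_)
    have h1 : ∀ i ∈ Finset.univ.filter (fun i => sb i = s),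
        (if s' = sb i then dg i else 0) = if s' = s then 1 else 0 := by
      intro i hi
      have hsi : sb i = s := (Finset.mem_filter.mp hi).2
      have h2 : dg i = 1 := hd1 i (by rw [hsi]; exact hmemW s hs)
      rw [hsi, h2]
    rw [Finset.sum_congr rfl h1, Finset.sum_const, smul_eq_mul]
    split_ifs
    · rw [mul_one]
    · rw [mul_zero]
  rw [hκ] at hA
  obtain ⟨C, hC, hmain⟩ := core_smallP D.hw hr hA
    (Differentiable.fun_finsetProd fun i _ => φ_diffP D i)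
    (fun z k' hk' => order_total sb m T (φ_diffP D) D.hF0 (QMB_diff D e M P)
      (fun i hi => (hEA i hi).1.1) (fun s hs => (hWA s hs).1.1) r
      (Fintype.card β * (k * μ + μ ^ 2)) z
      (fun h => order_QMB D e hr hP hPG (by
        rcases h with ⟨i, hi⟩ | ⟨i, i', -, hi, -⟩
        · refine hz0 z i ?_
          have han : AnalyticAt ℂ (D.φ i) z := (φ_diffP D i).analyticAt z
          refine han.analyticOrderAt_ne_zero.mp ?_
          intro h0
          rw [h0] at hi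
          exact absurd hi (by norm_num)
        · exact hz0 z i hi) h)
      (fun i hi l hl => hEo i hi z l hl) (fun s hs ν hν => hWo s hs z ν hν)
      (fun ν hν => count_DP T D hmμ hd1 hgen hL z ν hν) k' hk')
  obtain ⟨C', hC', hmain'⟩ := weakenP (S := fun ρ => (r : ℝ) * N1 (fun z => ∏ i, D.φ i z) ρ)
    (B' := fun s' => Fintype.card β * (k * μ + μ ^ 2) * M s' +
      (r * ∑ i, (if s' = sb i then (μ + 1) * dB i else 0) + r * (μ + 1))) D.hw (fun s' => by
    have h1 : ∑ i ∈ Finset.univ.filter (fun i => T (sb i) = false),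
        (if s' = sb i then (m (sb i) + 1) * dB i else 0) ≤
        ∑ i, (if s' = sb i then (μ + 1) * dB i else 0) := by
      refine (Finset.sum_le_sum (fun i _ => ?_)).trans
        (Finset.sum_le_sum_of_subset (Finset.filter_subset _ _))
      split_ifs
      · exact Nat.mul_le_mul_right _ (Nat.add_le_add_right (hmμ _) 1)
      · exact le_rfl
    have h2 : ∑ s ∈ Finset.univ.filter (fun s => T s = true),
        (if s' = s then b s else 0) ≤ μ + 1 := by
      rw [Finset.sum_ite_eq]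
      split_ifs with h3
      · exact (hb s' (hmemW s' h3)).trans (Nat.add_le_add_right (hmμ s') 1)
      · exact Nat.zero_le _
    have h3 := Nat.mul_le_mul_left r h1
    have h4 := Nat.mul_le_mul_left r h2
    exact Nat.add_le_add_left (Nat.add_le_add h3 h4) _) hC hmain
  refine ⟨C', hC', fun ρ R hρ hR => ?_⟩
  have h1 := hmain' ρ R hρ hR
  have e1 : ∑ s, ((r * ∑ i, (if s = sb i then dg i else 0) : ℕ) : ℝ) * chi (D.w s) ρ =
      r * ∑ i, (dg i : ℝ) * chi (D.w (sb i)) ρ := by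
    rw [← sum_delta sb dg (fun s => chi (D.w s) ρ), Finset.mul_sum]
    refine Finset.sum_congr rfl fun s _ => ?_
    rw [Nat.cast_mul, mul_assoc]
  have e2 : ∑ s, ((Fintype.card β * (k * μ + μ ^ 2) * M s +
      (r * ∑ i, (if s = sb i then (μ + 1) * dB i else 0) + r * (μ + 1)) : ℕ) : ℝ) *
        chi (D.w s) ρ =
      ((Fintype.card β * (k * μ + μ ^ 2) : ℕ) : ℝ) * ∑ s, (M s : ℝ) * chi (D.w s) ρ +
        r * ∑ i, (((μ + 1) * dB i : ℕ) : ℝ) * chi (D.w (sb i)) ρ +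
        r * ∑ s, ((μ + 1 : ℕ) : ℝ) * chi (D.w s) ρ := by
    rw [← sum_delta sb (fun i => (μ + 1) * dB i) (fun s => chi (D.w s) ρ), Finset.mul_sum,
      Finset.mul_sum, Finset.mul_sum, ← Finset.sum_add_distrib, ← Finset.sum_add_distrib]
    refine Finset.sum_congr rfl fun s _ => ?_
    rw [Nat.cast_add (Fintype.card β * (k * μ + μ ^ 2) * M s), Nat.cast_mul
      (Fintype.card β * (k * μ + μ ^ 2)), Nat.cast_add (r * _) (r * (μ + 1)), Nat.cast_mul r,
      Nat.cast_mul r]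
    ring
  rw [e1, e2] at h1
  linarith

end Pool.Agent.H49R
end
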