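import Pool.Agent.Lib.H1M.PB.M048

/-! Merged copies (to shorten the build) of Lib.H78R.R6. -/

-- from Lib.H78R.R6
section

set_option autoImplicit false

/-!
R6, the port of Lib/H78B/B6.lean.  The generic point: for algebraically independent coefficients `(f, η)` and arbitrary
parameters `A, Lam` over the field `K` there are `S` and an extension with `Θ S ≠ 0`.

Proof.  Let `τ0 = FV .. ⊕ LV ..`, `ρ0` = the entries of `A` and of all `Lam s` (`card ρ0 ≤ c` by `hc`).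
(1) `der_codim` for `π = aeval (Sum.elim f η)` and the entries as parameters: `p0 : Fin c → (τ0 → K)`.
(2) Let `VL = ∀ j, homogeneousSubmodule (Fin (n + 1)) K (d j)`, `U x = Fin (mv (sx x) + 1) → K`, and
`T ≤ VL × (∀ x, U x)` the set of the pairs `(fun j => subB A (mcf D (fmB f j)), fun x l => D (η ⟨x, l⟩))`,
`D` a derivation of `K` over `ℂ` which kills all entries of `A` and of the `Lam s`.  `T ⊔ span (range p)
= ⊤` for `p i = (subB A (form with coefficients p0 i), part of p0 i)`: every `F : VL` is `subB A` of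
`subB A' F` (b6_sub).
(3) `choose_S part T p`: `S`, `q`.
(4) Let `T' ≤ VL` be the submodule of the `v` such that `(v - ∑_j μ_j • (g_j)_j, u) ∈ T` for some
`μ : ιL → K` and some `u` with `u x = 0` for `part x ∉ S`; `g j = subB A (fmB f j)`, homogeneous of
degree `d j`, `g j (e_0) = f j (A e_0) ≠ 0` (b6_eval).  `greedy_family` with `T'`, `q` gives `w`.
(5) `gen_specialize` with `τ = LV (fun x : {x // part x ∉ S} => m (sx x.1))`, `θ = resB η Lam _`.
`hspan`: given `F`, `v`: by (3) there is `t ∈ T` with `t.2 x l = ∑_b v ⟨x, b⟩ * Lb (sx x) b l` for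
`part x ∉ S`, coming from a derivation `D₀`; `D₀ (θ ⟨x, b⟩) = ∑_l D₀ (η ⟨x, l⟩) * Lam l b = v ⟨x, b⟩`
(`Lb * Lam = 1`; `D₀` kills `Lam`).  Apply (4) to `F - t.1`: `F - t.1 = t' + ∑ ..`,
`t' = t'' .1 + ∑ μ_j g_j`, `t'' ∈ T` coming from `D₁` with `D₁ η = 0` outside `S`, so `D₁ θ = 0`.
`D = D₀ + D₁`; `mcf D (g j) = subB A (mcf D (fmB f j))` because `D` kills `A` (b6_mcf).
-/

open MvPolynomial

namespace Pool.Agent.H78R

open Pool.Agent.H89T Pool.Agent.H53Y Pool.Agent.H78B Pool.Agent.H53R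

section

variable {K : Type} [Field K] [Algebra ℂ K]

/-- the map to the forms -/
noncomputable def r6vec {n : ℕ} {τ ιL : Type} (tl : ιL → τ) {d : ιL → ℕ}
    (f : FV (Fin (n + 1)) d → K) (A : τ → Matrix (Fin (n + 1)) (Fin (n + 1)) K) :
    Derivation ℂ K K →ₗ[K] (∀ j, homogeneousSubmodule (Fin (n + 1)) K (d j)) where
  toFun D j := ⟨subB (A (tl j)) (mcf D (fmB f j)),
    b6_hom (A (tl j)) (mcf_homogeneous D (b6_fmB_hom f j))⟩
  map_add' D D' := by
    funext j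
    apply Subtype.ext
    change subB (A (tl j)) (mcf (D + D') (fmB f j)) =
      subB (A (tl j)) (mcf D (fmB f j)) + subB (A (tl j)) (mcf D' (fmB f j))
    rw [b6_mcf_add, b6_sub_add]
  map_smul' a D := by
    funext j
    apply Subtype.ext
    change subB (A (tl j)) (mcf (a • D) (fmB f j)) = a • subB (A (tl j)) (mcf D (fmB f j))
    rw [b6_mcf_smul, b6_sub_smul]

/-- the derivations which kill the parameters -/
def r6L {n : ℕ} {τ σ : Type} {m mv : σ → ℕ} (A : τ → Matrix (Fin (n + 1)) (Fin (n + 1)) K)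
    (Lam : (s : σ) → Matrix (Fin (mv s + 1)) (Fin (m s + 1)) K) : Submodule K (Derivation ℂ K K) where
  carrier := {D | (∀ t i j, D (A t i j) = 0) ∧ ∀ s l b, D (Lam s l b) = 0}
  zero_mem' := ⟨fun _ _ _ => rfl, fun _ _ _ => rfl⟩
  add_mem' := by
    rintro D D' ⟨h1, h2⟩ ⟨h3, h4⟩
    refine ⟨fun t i j => ?_, fun s l b => ?_⟩
    · rw [Derivation.add_apply, h1, h3, add_zero]
    · rw [Derivation.add_apply, h2, h4, add_zero]
  smul_mem' := by
    rintro a D ⟨h1, h2⟩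
    refine ⟨fun t i j => ?_, fun s l b => ?_⟩
    · rw [Derivation.smul_apply, h1, smul_zero]
    · rw [Derivation.smul_apply, h2, smul_zero]

end

theorem r6_der {K : Type} [Field K] [Algebra ℂ K] [Algebra.EssFiniteType ℂ K]
    {n c : ℕ} {τ ιL : Type} [Fintype τ] (d : ιL → ℕ) {σ κ : Type} [Fintype σ]
    (m mv : σ → ℕ) (sx : κ → σ)
    (hc : Fintype.card τ * ((n + 1) * (n + 1)) + ∑ s, (m s + 1) * (mv s + 1) ≤ c)
    (f : FV (Fin (n + 1)) d → K) (η : LV (fun x => mv (sx x)) → K)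
    (hind : Function.Injective (aeval (Sum.elim f η) :
      MvPolynomial (FV (Fin (n + 1)) d ⊕ LV (fun x => mv (sx x))) ℂ →ₐ[ℂ] K))
    (A : τ → Matrix (Fin (n + 1)) (Fin (n + 1)) K)
    (Lam : (s : σ) → Matrix (Fin (mv s + 1)) (Fin (m s + 1)) K) :
    ∃ p : Fin c → (FV (Fin (n + 1)) d ⊕ LV (fun x => mv (sx x)) → K),
      ∀ v : FV (Fin (n + 1)) d ⊕ LV (fun x => mv (sx x)) → K, ∃ D ∈ r6L A Lam, ∃ μ : Fin c → K,
        (∀ t, v (Sum.inl t) = D (f t) + ∑ i, μ i * p i (Sum.inl t)) ∧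
          ∀ t, v (Sum.inr t) = D (η t) + ∑ i, μ i * p i (Sum.inr t) := by
  classical
  obtain ⟨p, hp⟩ := der_codim (aeval (Sum.elim f η) :
      MvPolynomial (FV (Fin (n + 1)) d ⊕ LV (fun x => mv (sx x))) ℂ →ₐ[ℂ] K) hind (c := c)
    (ρ := (τ × Fin (n + 1) × Fin (n + 1)) ⊕ (Σ s : σ, Fin (mv s + 1) × Fin (m s + 1)))
    (by
      rw [Fintype.card_sum, Fintype.card_prod, Fintype.card_prod, Fintype.card_fin,
        Fintype.card_sigma]
      simp only [Fintype.card_prod, Fintype.card_fin]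
      refine le_trans (le_of_eq ?_) hc
      congr 1
      exact Finset.sum_congr rfl fun s _ => mul_comm _ _)
    (Sum.elim (fun x => A x.1 x.2.1 x.2.2) (fun x => Lam x.1 x.2.1 x.2.2))
  refine ⟨p, fun v => ?_⟩
  obtain ⟨D, μ, h1, h2⟩ := hp v
  refine ⟨D, ⟨fun t i j => h1 (Sum.inl (t, i, j)), fun s l b => h1 (Sum.inr ⟨s, l, b⟩)⟩, μ, fun t => ?_,
    fun t => ?_⟩
  · have h3 := h2 (Sum.inl t)
    rw [aeval_X] at h3
    exact h3
  · have h3 := h2 (Sum.inr t)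
    rw [aeval_X] at h3
    exact h3

theorem r6_top {K : Type} [Field K] [Algebra ℂ K] [Algebra.EssFiniteType ℂ K]
    {n c : ℕ} {τ ιL : Type} [Fintype τ] (tl : ιL → τ) (d : ιL → ℕ) {σ κ : Type} [Fintype σ]
    (m mv : σ → ℕ) (sx : κ → σ)
    (hc : Fintype.card τ * ((n + 1) * (n + 1)) + ∑ s, (m s + 1) * (mv s + 1) ≤ c)
    (f : FV (Fin (n + 1)) d → K) (η : LV (fun x => mv (sx x)) → K)
    (hind : Function.Injective (aeval (Sum.elim f η) :
      MvPolynomial (FV (Fin (n + 1)) d ⊕ LV (fun x => mv (sx x))) ℂ →ₐ[ℂ] K))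
    (A A' : τ → Matrix (Fin (n + 1)) (Fin (n + 1)) K) (hA : ∀ t, A' t * A t = 1)
    (Lam : (s : σ) → Matrix (Fin (mv s + 1)) (Fin (m s + 1)) K) :
    ∃ p : Fin c → (∀ j, homogeneousSubmodule (Fin (n + 1)) K (d j)) × (∀ x : κ, Fin (mv (sx x) + 1) → K),
      (r6L A Lam).map ((r6vec tl f A).prod (b6eta η)) ⊔ Submodule.span K (Set.range p) = ⊤ := by
  classical
  obtain ⟨p0, hp0⟩ := r6_der d m mv sx hc f η hind A Lam
  refine ⟨fun i => (fun j => ⟨subB (A (tl j)) (fm fun δ => p0 i (Sum.inl ⟨j, δ⟩)),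
    b6_hom (A (tl j)) (fm_homogeneous _)⟩, fun x l => p0 i (Sum.inr ⟨x, l⟩)), ?_⟩
  rw [eq_top_iff]
  rintro ⟨F, u⟩ -
  obtain ⟨D, hD, μ, h1, h2⟩ := hp0 (Sum.elim
    (fun t => coeff t.2.1 (subB (A' (tl t.1)) (F t.1 : MvPolynomial (Fin (n + 1)) K))) (fun t => u t.1 t.2))
  have h3 : ((F, u) : (∀ j, homogeneousSubmodule (Fin (n + 1)) K (d j)) ×
      (∀ x : κ, Fin (mv (sx x) + 1) → K)) = (r6vec tl f A).prod (b6eta η) D +
        ∑ i, μ i • ((fun j => ⟨subB (A (tl j)) (fm fun δ => p0 i (Sum.inl ⟨j, δ⟩)),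
    b6_hom (A (tl j)) (fm_homogeneous _)⟩, fun x l => p0 i (Sum.inr ⟨x, l⟩)) :
      (∀ j, homogeneousSubmodule (Fin (n + 1)) K (d j)) × (∀ x : κ, Fin (mv (sx x) + 1) → K)) := by
    refine Prod.ext ?_ ?_
    · rw [Prod.fst_add, Prod.fst_sum]
      funext j
      apply Subtype.ext
      rw [Pi.add_apply, Finset.sum_apply, Submodule.coe_add, Submodule.coe_sum]
      change (F j : MvPolynomial (Fin (n + 1)) K) = subB (A (tl j)) (mcf D (fmB f j)) +
        ∑ i, μ i • subB (A (tl j)) (fm fun δ => p0 i (Sum.inl ⟨j, δ⟩))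
      have h4 : subB (A' (tl j)) (F j : MvPolynomial (Fin (n + 1)) K) = mcf D (fmB f j) +
          ∑ i, μ i • (fm fun δ => p0 i (Sum.inl ⟨j, δ⟩)) := by
        have h5 : (subB (A' (tl j)) (F j : MvPolynomial (Fin (n + 1)) K)).IsHomogeneous (d j) :=
          b6_hom (A' (tl j)) (F j).2
        rw [← fm_coeff h5, fmB, mcf_fm]
        have h6 : (fun δ : Ex (Fin (n + 1)) (d j) =>
            coeff δ.1 (subB (A' (tl j)) (F j : MvPolynomial (Fin (n + 1)) K))) =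
            fun δ => D (f ⟨j, δ⟩) + ∑ i, μ i * p0 i (Sum.inl ⟨j, δ⟩) := by
          funext δ
          exact h1 ⟨j, δ⟩
        rw [h6]
        simp only [fm, C_add, map_sum, C_mul, add_mul, Finset.sum_add_distrib, Finset.sum_mul,
          Finset.smul_sum, smul_eq_C_mul]
        congr 1
        rw [Finset.sum_comm]
        refine Finset.sum_congr rfl fun i _ => Finset.sum_congr rfl fun δ _ => ?_
        ring
      rw [← b6_sub (A (tl j)) (A' (tl j)) (hA (tl j)) (F j : MvPolynomial (Fin (n + 1)) K), h4, b6_sub_add, b6_sub_sum]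
      congr 1
      refine Finset.sum_congr rfl fun i _ => ?_
      rw [b6_sub_smul]
    · rw [Prod.snd_add, Prod.snd_sum]
      funext x l
      rw [Pi.add_apply, Pi.add_apply, Finset.sum_apply, Finset.sum_apply]
      exact h2 ⟨x, l⟩
  rw [h3]
  refine Submodule.add_mem_sup (Submodule.mem_map_of_mem hD) (Submodule.sum_mem _ fun i _ => ?_)
  exact Submodule.smul_mem _ _ (Submodule.subset_span ⟨i, rfl⟩)

theorem r6_theta {K : Type} [Field K] [Algebra ℂ K] {n nb : ℕ} {τ σ κ : Type}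
    {m mv : σ → ℕ} {sx : κ → σ} {part : κ → Fin nb} {S : Finset (Fin nb)}
    (η : LV (fun x => mv (sx x)) → K) (A : τ → Matrix (Fin (n + 1)) (Fin (n + 1)) K)
    (Lam : (s : σ) → Matrix (Fin (mv s + 1)) (Fin (m s + 1)) K) {D : Derivation ℂ K K}
    (hD : D ∈ r6L A Lam) (x : {x : κ // part x ∉ S}) (b : Fin (m (sx x.1) + 1)) :
    D (resB η Lam (fun x => part x ∉ S) ⟨x, b⟩) = ∑ l, D (η ⟨x.1, l⟩) * Lam (sx x.1) l b := by
  change D (∑ l, η ⟨x.1, l⟩ * Lam (sx x.1) l b) = _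
  rw [map_sum]
  refine Finset.sum_congr rfl fun l _ => ?_
  rw [Derivation.leibniz, hD.2, smul_zero, zero_add, smul_eq_mul, mul_comm]

theorem generic_goodR {K : Type} [Field K] [Algebra ℂ K] [Algebra.EssFiniteType ℂ K]
    {n c nb : ℕ} {τ ιL : Type} [Fintype τ] [Fintype ιL] (tl : ιL → τ) (d : ιL → ℕ) {σ κ : Type}
    [Fintype σ]
    [Fintype κ] (m mv : σ → ℕ) (sx : κ → σ) (part : κ → Fin nb) (hd : ∀ j, 1 ≤ d j)
    (hc : Fintype.card τ * ((n + 1) * (n + 1)) + ∑ s, (m s + 1) * (mv s + 1) ≤ c)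
    (Θ : (S : Finset (Fin nb)) → MvPolynomial (FV (Fin (n + 1) ⊕ Fin c) d ⊕
      LV (fun x : {x : κ // part x ∉ S} => m (sx x.1))) ℂ)
    (hΘ : ∀ S, S.card ≤ c → Θ S ≠ 0)
    (f : FV (Fin (n + 1)) d → K) (η : LV (fun x => mv (sx x)) → K)
    (hind : Function.Injective (aeval (Sum.elim f η) :
      MvPolynomial (FV (Fin (n + 1)) d ⊕ LV (fun x => mv (sx x))) ℂ →ₐ[ℂ] K))
    (A A' : τ → Matrix (Fin (n + 1)) (Fin (n + 1)) K) (hA : ∀ t, A' t * A t = 1)
    (Lam : (s : σ) → Matrix (Fin (mv s + 1)) (Fin (m s + 1)) K)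
    (Lb : (s : σ) → Matrix (Fin (m s + 1)) (Fin (mv s + 1)) K)
    (hL : ∀ s, Lb s * Lam s = 1)
    (hf0 : ∀ j, eval (fun i => A (tl j) i 0) (fmB f j) ≠ 0) :
    ∃ S : Finset (Fin nb), S.card ≤ c ∧ ∃ (lam : ιL → ℂ) (s : τ → Fin c → Fin n → ℂ)
      (E : ιL → Fin c → MvPolynomial (Fin (n + 1) ⊕ Fin c) ℂ),
      (∀ j, lam j ≠ 0) ∧ (∀ j i, (E j i).IsHomogeneous (d j - 1)) ∧
      aeval (Sum.elim (extR tl f A lam s E) (resB η Lam (fun x => part x ∉ S))) (Θ S) ≠ 0 := by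
  classical
  obtain ⟨p, hp⟩ := r6_top (κ := κ) tl d m mv sx hc f η hind A A' hA Lam
  obtain ⟨S, hS, h1, q, h2⟩ := choose_S part _ p hp
  refine ⟨S, hS, ?_⟩
  have hg : ∀ j, (subB (A (tl j)) (fmB f j)).IsHomogeneous (d j) := fun j => b6_hom (A (tl j)) (b6_fmB_hom f j)
  have hg0 : ∀ j, eval (Pi.single 0 1) (subB (A (tl j)) (fmB f j)) ≠ 0 := fun j => by
    rw [b6_eval]
    exact hf0 j
  set T' : Submodule K (∀ j, homogeneousSubmodule (Fin (n + 1)) K (d j)) :=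
    (r6L A Lam ⊓ b6M η part S).map (r6vec tl f A) ⊔ Submodule.span K (Set.range fun j =>
      (Pi.single j ⟨subB (A (tl j)) (fmB f j), hg j⟩ : ∀ j, homogeneousSubmodule (Fin (n + 1)) K (d j)))
    with hT'
  obtain ⟨w, hw, h3⟩ := greedy_prod tl d hd (fun j => subB (A (tl j)) (fmB f j)) hg hg0 T'
    (fun j => Submodule.mem_sup_right (Submodule.subset_span ⟨j, rfl⟩)) q (by
      rw [eq_top_iff]
      rintro v -
      obtain ⟨t, ht, ht2, μ, hμ⟩ := h2 v
      obtain ⟨D, hD, rfl⟩ := Submodule.mem_map.1 ht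
      rw [hμ]
      refine Submodule.add_mem_sup ?_ (Submodule.sum_mem _ fun i _ => ?_)
      · refine Submodule.mem_sup_left (Submodule.mem_map.2 ⟨D, ⟨hD, fun x hx l => ?_⟩, rfl⟩)
        exact congrFun (ht2 x hx) l
      · exact Submodule.smul_mem _ _ (Submodule.subset_span ⟨i, rfl⟩))
  refine gen_specializeR tl d hd (fun j => subB (A (tl j)) (fmB f j)) hg (resB η Lam (fun x => part x ∉ S)) w hw
    (fun F v hF => ?_) (Θ S) (hΘ S hS)
  obtain ⟨t, ht, ht2⟩ := h1 fun x l => if h : part x ∉ S then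
    ∑ b, v ⟨⟨x, h⟩, b⟩ * Lb (sx x) b l else 0
  obtain ⟨D0, hD0, rfl⟩ := Submodule.mem_map.1 ht
  obtain ⟨t', ht', ν, h4⟩ := h3 ((fun j => ⟨F j, hF j⟩) - r6vec tl f A D0)
  obtain ⟨y, hy, z, hz, hyz⟩ := Submodule.mem_sup.1 ht'
  obtain ⟨D1, hD1, rfl⟩ := Submodule.mem_map.1 hy
  obtain ⟨μ, hμ⟩ := (Submodule.mem_span_range_iff_exists_fun K).1 hz
  have hD : D0 + D1 ∈ r6L A Lam := Submodule.add_mem _ hD0 hD1.1
  refine ⟨D0 + D1, μ, ν, fun j => ?_, fun t => ?_⟩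
  · have h5 := h4 j
    have h6 : ((((fun j => ⟨F j, hF j⟩ : ∀ j, homogeneousSubmodule (Fin (n + 1)) K (d j)) -
        r6vec tl f A D0) j : homogeneousSubmodule (Fin (n + 1)) K (d j)) : MvPolynomial (Fin (n + 1)) K) =
        F j - subB (A (tl j)) (mcf D0 (fmB f j)) := rfl
    have h7 : ((t' j : homogeneousSubmodule (Fin (n + 1)) K (d j)) : MvPolynomial (Fin (n + 1)) K) =
        subB (A (tl j)) (mcf D1 (fmB f j)) + C (μ j) * subB (A (tl j)) (fmB f j) := by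
      rw [← hyz, ← hμ, Pi.add_apply, Submodule.coe_add, Finset.sum_apply]
      congr 1
      have h8 : (∑ i, (μ i • (Pi.single i ⟨subB (A (tl i)) (fmB f i), hg i⟩ :
          ∀ j, homogeneousSubmodule (Fin (n + 1)) K (d j))) j) =
          μ j • (⟨subB (A (tl j)) (fmB f j), hg j⟩ : homogeneousSubmodule (Fin (n + 1)) K (d j)) := by
        rw [Finset.sum_eq_single j]
        · rw [Pi.smul_apply, Pi.single_eq_same]
        · intro i _ hi
          rw [Pi.smul_apply, Pi.single_eq_of_ne hi.symm, smul_zero]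
        · intro h
          exact absurd (Finset.mem_univ _) h
      rw [h8, Submodule.coe_smul, smul_eq_C_mul]
    rw [h6, h7] at h5
    rw [b6_mcf (D0 + D1) (A (tl j)) (hD.1 (tl j)), b6_mcf_add, b6_sub_add]
    have h8 : F j = subB (A (tl j)) (mcf D0 (fmB f j)) + (F j - subB (A (tl j)) (mcf D0 (fmB f j))) := by ring
    rw [h8, h5]
    ring
  · obtain ⟨x, b⟩ := t
    rw [r6_theta η A Lam hD]
    have h5 : ∀ l, (D0 + D1) (η ⟨x.1, l⟩) = ∑ b', v ⟨x, b'⟩ * Lb (sx x.1) b' l := by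
      intro l
      have h6 : D0 (η ⟨x.1, l⟩) = if h : part x.1 ∉ S then
        ∑ b, v ⟨⟨x.1, h⟩, b⟩ * Lb (sx x.1) b l else 0 := congrFun (ht2 x.1 x.2) l
      rw [dif_pos x.2] at h6
      rw [Derivation.add_apply, h6, hD1.2 x.1 x.2 l, add_zero]
    simp only [h5, Finset.sum_mul]
    rw [Finset.sum_comm]
    have h9 : ∀ b', ∑ l, v ⟨x, b'⟩ * Lb (sx x.1) b' l * Lam (sx x.1) l b =
        v ⟨x, b'⟩ * (1 : Matrix (Fin (m (sx x.1) + 1)) (Fin (m (sx x.1) + 1)) K) b' b := by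
      intro b'
      rw [← hL (sx x.1), Matrix.mul_apply, Finset.mul_sum]
      exact Finset.sum_congr rfl fun l _ => by ring
    rw [Finset.sum_congr rfl fun b' _ => h9 b', Finset.sum_eq_single b]
    · rw [Matrix.one_apply_eq, mul_one]
    · intro b' _ hb
      rw [Matrix.one_apply_ne hb, mul_zero]
    · intro h
      exact absurd (Finset.mem_univ _) h

end Pool.Agent.H78R
end
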