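import Mathlib
import Pool.Agent.Lib.H1M.PB.M006
import Pool.Agent.Lib.H1M.PB.M009
import Pool.Agent.Lib.H1M.PB.M012
import Pool.Agent.Lib.H1M.PB.M013
import Pool.Agent.Lib.H1M.PB.M017
import Pool.Agent.Lib.H1M.PB.M020
import Pool.Agent.Lib.H1M.PB.M021
import Pool.Agent.Lib.H1M.PB.M022
import Pool.Agent.Lib.H1M.PB.M023
import Pool.Agent.Lib.H1M.PB.M026
import Pool.Agent.Lib.H1M.PB.M027
import Pool.Agent.Lib.H1M.PB.M028
import Pool.Agent.Lib.H1M.PB.M029
import Pool.Agent.Lib.H1M.PB.M030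
import Pool.Agent.Lib.H1M.PB.M035
import Pool.Agent.Lib.H1M.PB.M039
import Pool.Agent.Lib.H1M.PB.M047
import Pool.Agent.Lib.H1M.PB.M049

/-! Merged copies (to shorten the build) of Lib.H53Y.F14, Lib.H53R.F14, Lib.H53R.F15, Lib.H53R.T4. -/

-- from Lib.H53Y.F14
section

set_option autoImplicit false

/-!
H53Y, chunk F14 (M, six lemmas): the large forms and the small forms of frequent degrees.
-/

open MvPolynomial Real MeasureTheory

namespace Pool.Agent.H53Y

open Pool.Agent.H89T Pool.Agent.H78G Pool.Agent.H67T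

section

variable {ι : Type} (d : ι → ℕ) (E₀ K : ℕ)

/-- The large forms. -/
abbrev IL : Type := {i : ι // E₀ < d i}








variable (n : ℕ)





end



end Pool.Agent.H53Y
end

-- from Lib.H53R.F14
section

set_option autoImplicit false

/-!
H53R, chunk F14 (M, eight lemmas): the large forms and the small forms of frequent degrees.
Port of Lib/H53Y/F14.lean: `ι` with `src : ι → τ`; small blocks `σ = τ × Fin E₀`.
-/

open MvPolynomial Real MeasureTheory

namespace Pool.Agent.H53R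

open Pool.Agent.H89T Pool.Agent.H78G Pool.Agent.H67T Pool.Agent.H53Y Pool.Agent.H49D

section

variable {ι τ : Type} (src : ι → τ) (d : ι → ℕ) (E₀ K : ℕ)

/-- The small forms whose degree occurs at least `K` times on the same factor. -/
abbrev ISP : Type :=
  {i : ι // (1 ≤ d i ∧ d i ≤ E₀) ∧ K ≤ Nat.card {i' : ι // src i' = src i ∧ d i' = d i}}

/-- The block of a small form. -/
def sxP (x : ISP src d E₀ K) : τ × Fin E₀ := (src x.1, ⟨d x.1 - 1, by have := x.2.1; omega⟩)

/-- The degrees of the blocks. -/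
def deP (τ : Type) (E₀ : ℕ) (s : τ × Fin E₀) : ℕ := (s.2 : ℕ) + 1

theorem deP_sxP (x : ISP src d E₀ K) : deP τ E₀ (sxP src d E₀ K x) = d x.1 := by
  have := x.2.1
  show d x.1 - 1 + 1 = d x.1
  omega

/-- CHUNK F14a.  Port of `H53Y.card_block`. -/
theorem card_blockP [Finite ι] (s : τ × Fin E₀) (h : ∃ x, sxP src d E₀ K x = s) :
    K ≤ Nat.card {x : ISP src d E₀ K // sxP src d E₀ K x = s} := by
  obtain ⟨t₀, ht₀⟩ := h
  refine t₀.2.2.trans ?_
  have hval : ∀ t : ISP src d E₀ K, ((sxP src d E₀ K t).2 : ℕ) + 1 = d t.1 := fun t =>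
    deP_sxP src d E₀ K t
  have hF : ∀ i : {i' : ι // src i' = src t₀.1 ∧ d i' = d t₀.1}, (1 ≤ d i.1 ∧ d i.1 ≤ E₀) ∧
      K ≤ Nat.card {i' : ι // src i' = src i.1 ∧ d i' = d i.1} := by
    intro i
    rw [i.2.1, i.2.2]
    exact t₀.2
  refine Nat.card_le_card_of_injective (fun i : {i' : ι // src i' = src t₀.1 ∧ d i' = d t₀.1} =>
    (⟨⟨i.1, hF i⟩, ?_⟩ : {x : ISP src d E₀ K // sxP src d E₀ K x = s})) ?_
  · rw [← ht₀]
    refine Prod.ext i.2.1 ?_
    apply Fin.ext
    have h1 := hval ⟨i.1, hF i⟩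
    have h2 := hval t₀
    have h3 := i.2.2
    simp only at h1
    omega
  · intro i j hij
    have h1 := congrArg (fun t : {x : ISP src d E₀ K // sxP src d E₀ K x = s} => t.1.1) hij
    exact Subtype.ext h1

private theorem f14_Dg {ι' τ : Type} [DecidableEq τ] [Fintype ι'] (src : ι' → τ) (d : ι' → ℕ) (t : τ) :
    Dg src d t = ∑ i, if src i = t then d i else 0 := by
  unfold Dg
  rw [Finset.sum_filter]

private theorem f14_DgS [DecidableEq τ] [Fintype (ISP src d E₀ K)] (t : τ) :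
    Dg (fun x : ISP src d E₀ K => (sxP src d E₀ K x).1)
        (fun x => deP τ E₀ (sxP src d E₀ K x)) t =
      ∑ x : ISP src d E₀ K, if src x.1 = t then d x.1 else 0 := by
  rw [f14_Dg]
  refine Finset.sum_congr rfl fun x _ => ?_
  rw [deP_sxP]
  rfl

/-- CHUNK F14b.  Port of `H53Y.degree_le` for the forms on the factor `t`. -/
theorem degree_leP [DecidableEq τ] [Fintype ι] [Fintype (IL d E₀)] [Fintype (ISP src d E₀ K)] (t : τ) :
    Dg (fun j : IL d E₀ => src j.1) (fun j => d j.1) t +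
      Dg (fun x : ISP src d E₀ K => (sxP src d E₀ K x).1)
        (fun x => deP τ E₀ (sxP src d E₀ K x)) t ≤ Dg src d t := by
  classical
  rw [f14_DgS, f14_Dg, f14_Dg]
  rw [← Finset.sum_subtype (Finset.univ.filter fun i => E₀ < d i) (by simp)
      (fun i => if src i = t then d i else 0),
    ← Finset.sum_subtype (Finset.univ.filter fun i => (1 ≤ d i ∧ d i ≤ E₀) ∧
      K ≤ Nat.card {i' : ι // src i' = src i ∧ d i' = d i}) (by simp)
      (fun i => if src i = t then d i else 0), ← Finset.sum_union]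
  · exact Finset.sum_le_sum_of_subset (Finset.subset_univ _)
  · rw [Finset.disjoint_left]
    intro i hi hi'
    rw [Finset.mem_filter] at hi hi'
    omega

/-- CHUNK F14c.  Port of `H53Y.degree_ge` for the forms on the factor `t` (for each of the degrees
`1, ..., E₀` fewer than `K` forms on the factor `t` are dropped). -/
theorem degree_geP [DecidableEq τ] [Fintype ι] [Fintype (IL d E₀)] [Fintype (ISP src d E₀ K)]
    (hd : ∀ i, 1 ≤ d i) (t : τ) :
    Dg src d t ≤ Dg (fun j : IL d E₀ => src j.1) (fun j => d j.1) t +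
      Dg (fun x : ISP src d E₀ K => (sxP src d E₀ K x).1)
        (fun x => deP τ E₀ (sxP src d E₀ K x)) t + E₀ * (E₀ * K) := by
  classical
  rw [f14_DgS, f14_Dg, f14_Dg]
  rw [← Finset.sum_subtype (Finset.univ.filter fun i => E₀ < d i) (by simp)
      (fun i => if src i = t then d i else 0),
    ← Finset.sum_subtype (Finset.univ.filter fun i => (1 ≤ d i ∧ d i ≤ E₀) ∧
      K ≤ Nat.card {i' : ι // src i' = src i ∧ d i' = d i}) (by simp)
      (fun i => if src i = t then d i else 0), ← Finset.sum_union]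
  · set A := (Finset.univ.filter fun i => E₀ < d i) ∪
      (Finset.univ.filter fun i => (1 ≤ d i ∧ d i ≤ E₀) ∧
      K ≤ Nat.card {i' : ι // src i' = src i ∧ d i' = d i}) with hA
    have h1 : (∑ i, if src i = t then d i else 0) = (∑ i ∈ A, if src i = t then d i else 0) +
        ∑ i ∈ Aᶜ, if src i = t then d i else 0 := (Finset.sum_add_sum_compl A _).symm
    rw [h1]
    refine Nat.add_le_add_left ?_ _
    rw [← Finset.sum_filter]
    have hmem : ∀ i ∈ Aᶜ.filter (fun i => src i = t), 1 ≤ d i ∧ d i ≤ E₀ ∧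
        Nat.card {i' : ι // src i' = src i ∧ d i' = d i} < K := by
      intro i hi
      rw [Finset.mem_filter, Finset.mem_compl, hA, Finset.mem_union, Finset.mem_filter,
        Finset.mem_filter] at hi
      obtain ⟨hi, -⟩ := hi
      push Not at hi
      have h2 := hi.1 (Finset.mem_univ _)
      have h3 := hi.2 (Finset.mem_univ _) ⟨hd i, h2⟩
      exact ⟨hd i, h2, h3⟩
    have hsrc : ∀ i ∈ Aᶜ.filter (fun i => src i = t), src i = t := fun i hi =>
      (Finset.mem_filter.1 hi).2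
    obtain ⟨B, hB⟩ : ∃ B, B = Aᶜ.filter (fun i => src i = t) := ⟨_, rfl⟩
    rw [← hB] at hmem hsrc ⊢
    rw [← Finset.sum_fiberwise_of_maps_to (s := B) (t := Finset.Icc 1 E₀) (g := d)
      (fun i hi => Finset.mem_Icc.2 ⟨(hmem i hi).1, (hmem i hi).2.1⟩)]
    have h4 : ∀ e ∈ Finset.Icc 1 E₀, ∑ i ∈ B.filter (fun i => d i = e), d i ≤ E₀ * K := by
      intro e he
      rw [Finset.mem_Icc] at he
      by_cases hne : (B.filter (fun i => d i = e)).Nonempty
      · obtain ⟨i₀, hi₀⟩ := hne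
        rw [Finset.mem_filter] at hi₀
        have h5 := (hmem i₀ hi₀.1).2.2
        have h6 : (B.filter (fun i => d i = e)).card ≤
            Nat.card {i' : ι // src i' = src i₀ ∧ d i' = d i₀} := by
          rw [Nat.card_eq_fintype_card, Fintype.card_subtype]
          refine Finset.card_le_card fun i hi => ?_
          rw [Finset.mem_filter] at hi ⊢
          exact ⟨Finset.mem_univ _, (hsrc i hi.1).trans (hsrc i₀ hi₀.1).symm,
            hi.2.trans hi₀.2.symm⟩
        calc ∑ i ∈ B.filter (fun i => d i = e), d i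
            ≤ ∑ i ∈ B.filter (fun i => d i = e), E₀ := by
              refine Finset.sum_le_sum fun i hi => ?_
              rw [Finset.mem_filter] at hi
              exact (hmem i hi.1).2.1
          _ = (B.filter (fun i => d i = e)).card * E₀ := by rw [Finset.sum_const, smul_eq_mul]
          _ ≤ K * E₀ := Nat.mul_le_mul_right _ (h6.trans h5.le)
          _ = E₀ * K := Nat.mul_comm _ _
      · rw [Finset.not_nonempty_iff_eq_empty] at hne
        rw [hne, Finset.sum_empty]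
        exact Nat.zero_le _
    refine (Finset.sum_le_sum h4).trans ?_
    rw [Finset.sum_const, smul_eq_mul, Nat.card_Icc, Nat.add_sub_cancel]
  · rw [Finset.disjoint_left]
    intro i hi hi'
    rw [Finset.mem_filter] at hi hi'
    omega

variable (n : ℕ)

/-- The variables of the large and of the small forms as variables of all forms. -/
noncomputable def phP : FV (Fin (n + 1)) (fun j : IL d E₀ => d j.1) ⊕
    LV (fun x : ISP src d E₀ K => NV n (deP τ E₀ (sxP src d E₀ K x))) → FV (Fin (n + 1)) d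
  | Sum.inl p => ⟨p.1.1, p.2⟩
  | Sum.inr p =>
    ⟨p.1.1, ⟨(vix n _ p.2).1, by rw [← deP_sxP src d E₀ K p.1]; exact (vix n _ p.2).2⟩⟩

/-- CHUNK F14d.  Port of `H53Y.phS_injective`. -/
theorem phP_injective : Function.Injective (phP src d E₀ K n) := by
  have hfst : ∀ {p q : FV (Fin (n + 1)) d}, p = q → p.1 = q.1 := fun h => by rw [h]
  rintro (⟨⟨i, hi⟩, a⟩ | ⟨⟨i, hi⟩, l⟩) (⟨⟨i', hi'⟩, a'⟩ | ⟨⟨i', hi'⟩, l'⟩) h
  · have h1 : i = i' := hfst h
    subst h1
    have h2 : a = a' := eq_of_heq (Sigma.mk.inj_iff.1 h).2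
    rw [h2]
  · have h1 : i = i' := hfst h
    subst h1
    exact absurd hi'.1.2 (by omega)
  · have h1 : i = i' := hfst h
    subst h1
    exact absurd hi.1.2 (by omega)
  · have h1 : i = i' := hfst h
    subst h1
    have h2 := congrArg Subtype.val (eq_of_heq (Sigma.mk.inj_iff.1 h).2)
    have h3 : l = l' := (vix n _).injective (Subtype.ext h2)
    rw [h3]

/-- CHUNK F14e. -/
theorem fmj_phP (f : FV (Fin (n + 1)) d → ℂ) (j : IL d E₀) :
    fmj (fun p => f (phP src d E₀ K n (Sum.inl p))) j = fmj f j.1 := rfl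

/-- CHUNK F14f.  Port of `H53Y.lin_phS`. -/
theorem lin_phP (f : FV (Fin (n + 1)) d → ℂ) (x : ISP src d E₀ K) (v : Fin (n + 1) → ℂ) :
    lin (fun l => f (phP src d E₀ K n (Sum.inr ⟨x, l⟩))) (ver n (deP τ E₀ (sxP src d E₀ K x)) v) =
      eval v (fmj f x.1) := by
  have hF : (fmj f x.1).IsHomogeneous (deP τ E₀ (sxP src d E₀ K x)) := by
    rw [deP_sxP]
    exact fm_homogeneous _
  rw [← lin_vco hF v]
  unfold lin
  refine Finset.sum_congr rfl fun l _ => ?_
  have h1 := coeff_fm (fun δ : Ex (Fin (n + 1)) (d x.1) => f ⟨x.1, δ⟩)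
    ⟨(vix n _ l).1, by rw [← deP_sxP src d E₀ K x]; exact (vix n _ l).2⟩
  exact congrArg (· * ver n (deP τ E₀ (sxP src d E₀ K x)) v l) h1.symm

end

/-- CHUNK F14g.  Port of `H53Y.N1_kept`. -/
theorem N1_keptP {τ : Type} {n : ℕ} {ι : Type} [Fintype ι] {d : ι → ℕ} {src : ι → τ}
    {y : τ → ℂ → Fin (n + 1) → ℂ} (hy : ∀ t, IsHol (y t))
    (f : FV (Fin (n + 1)) d → ℂ) (hf : ∀ i, ∃ z, eval (y (src i) z) (fmj f i) ≠ 0)
    (P Q : ι → Prop) [Fintype {i // P i}] [Fintype {i // Q i}] {ρ : ℝ} (hρ : 1 ≤ ρ) :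
    N1 (fun z => (∏ j : {i // P i}, eval (y (src j.1) z) (fmj f j.1)) *
        ∏ t : {i // Q i}, eval (y (src t.1) z) (fmj f t.1)) ρ ≤
      N1 (fun z => ∏ i, eval (y (src i) z) (fmj f i)) ρ := by
  have hd1 : ∀ i, Differentiable ℂ fun z => eval (y (src i) z) (fmj f i) := fun i =>
    differentiable_eval (hy (src i)).diff _
  have hP : Differentiable ℂ fun z => ∏ j : {i // P i}, eval (y (src j.1) z) (fmj f j.1) :=
    Differentiable.fun_finsetProd fun j _ => hd1 j.1
  have hQ : Differentiable ℂ fun z => ∏ t : {i // Q i}, eval (y (src t.1) z) (fmj f t.1) :=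
    Differentiable.fun_finsetProd fun j _ => hd1 j.1
  have hP0 : ∃ z, (∏ j : {i // P i}, eval (y (src j.1) z) (fmj f j.1)) ≠ 0 :=
    f1b_prod (f := fun (j : {i // P i}) z => eval (y (src j.1) z) (fmj f j.1)) Finset.univ
      (fun j => hd1 j.1) fun j => hf j.1
  have hQ0 : ∃ z, (∏ j : {i // Q i}, eval (y (src j.1) z) (fmj f j.1)) ≠ 0 :=
    f1b_prod (f := fun (j : {i // Q i}) z => eval (y (src j.1) z) (fmj f j.1)) Finset.univ
      (fun j => hd1 j.1) fun j => hf j.1
  refine N1_mono (hP.fun_mul hQ) (f1b_mul hP hQ hP0 hQ0)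
    (Differentiable.fun_finsetProd fun j _ => hd1 j)
    (f1b_prod (f := fun i z => eval (y (src i) z) (fmj f i)) Finset.univ hd1 hf) (fun z hz => ?_) hρ
  rcases mul_eq_zero.1 hz with h | h
  · obtain ⟨j, -, hj⟩ := Finset.prod_eq_zero_iff.1 h
    exact Finset.prod_eq_zero (Finset.mem_univ j.1) hj
  · obtain ⟨j, -, hj⟩ := Finset.prod_eq_zero_iff.1 h
    exact Finset.prod_eq_zero (Finset.mem_univ j.1) hj

/-- CHUNK F14h.  Port of `H53Y.smt_mono`: `chi (y t) ρ ≥ - K t` for `ρ ≥ 1`. -/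
theorem smt_monoP {τ : Type} [Fintype τ] {n : ℕ} {y : τ → ℂ → Fin (n + 1) → ℂ}
    (hy : ∀ t, IsHol (y t)) {a b : τ → ℝ} (hab : ∀ t, a t ≤ b t)
    {N N' : ℝ → ℝ} (hN : ∀ ρ, 1 ≤ ρ → N ρ ≤ N' ρ)
    (h : ∃ (C : ℝ) (E : Set ℝ), volume E < ⊤ ∧ ∀ ρ : ℝ, 2 ≤ ρ → ρ ∉ E →
      ∑ t, b t * chi (y t) ρ ≤ N ρ + C * log ρ) :
    ∃ (C : ℝ) (E : Set ℝ), volume E < ⊤ ∧ ∀ ρ : ℝ, 2 ≤ ρ → ρ ∉ E →
      ∑ t, a t * chi (y t) ρ ≤ N' ρ + C * log ρ := by
  obtain ⟨C, E, hE, hC⟩ := h
  have hl2 : 0 < log 2 := Real.log_pos one_lt_two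
  refine ⟨C + (∑ t, (b t - a t) * |chi (y t) 1|) / log 2, E, hE, fun ρ hρ hρE => ?_⟩
  have h1 := hC ρ hρ hρE
  have h7 := hN ρ (by linarith)
  have h5 : (∑ t, (b t - a t) * |chi (y t) 1|) ≤
      (∑ t, (b t - a t) * |chi (y t) 1|) / log 2 * log ρ := by
    rw [div_mul_eq_mul_div, le_div_iff₀ hl2]
    exact mul_le_mul_of_nonneg_left (Real.log_le_log two_pos hρ)
      (Finset.sum_nonneg fun t _ => mul_nonneg (sub_nonneg.2 (hab t)) (abs_nonneg _))
  have h6 : ∑ t, a t * chi (y t) ρ ≤ ∑ t, b t * chi (y t) ρ +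
      ∑ t, (b t - a t) * |chi (y t) 1| := by
    rw [← Finset.sum_add_distrib]
    refine Finset.sum_le_sum fun t _ => ?_
    have h2 : chi (y t) 1 ≤ chi (y t) ρ := chi_mono (hy t) one_pos (by linarith)
    have h3 : -|chi (y t) 1| ≤ chi (y t) ρ := (neg_abs_le _).trans h2
    have h4 : 0 ≤ b t - a t := sub_nonneg.2 (hab t)
    have h6 := mul_le_mul_of_nonneg_left h3 h4
    nlinarith
  rw [add_mul]
  linarith

end Pool.Agent.H53R
end

-- from Lib.H53R.F15
section

set_option autoImplicit false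

/-!
H53R, chunk F15 (M/L): all types.
-/

open MvPolynomial Real MeasureTheory

namespace Pool.Agent.H53R

open Pool.Agent.H89T Pool.Agent.H78G Pool.Agent.H67T Pool.Agent.H53Y Pool.Agent.H49D

/-- CHUNK F15 (M/L).  Port of `H53Y.smt_types` (Lib/H53Y/F15.lean): `T` from `scalesP τ Φ (ε / 4)`,
`D₀ = 2 * ∑ E ∈ T, Φ E`; for the chosen scale `E` and `P i = ¬ (E < d i ∧ d i ≤ Φ E)` the kept degree
`Dg (fun i : {i // P i} => src i.1) (fun i => d i.1) t` is `≥ (1 - ε / 4) * Dg src d t ≥ Φ E` for every `t`;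
`smt_monoP`, `N1_keptP`. -/
theorem smt_typesP (hgap : SmtGapP) : SmtTypesP := by
  classical
  intro τ _ _ n hn ε hε hε1
  choose Φ hΦ using hgap τ n hn ε hε hε1
  obtain ⟨T, hT⟩ := scalesP τ Φ (ε := ε / 4) (by positivity)
  refine ⟨2 * ∑ E ∈ T, Φ E, ?_⟩
  intro ι _ src d hd hD
  obtain ⟨E, hE, hsum⟩ := hT ι src d
  have hΦE : ∀ t, 2 * Φ E ≤ Dg src d t := by
    intro t
    refine le_trans ?_ (hD t)
    exact Nat.mul_le_mul_left 2 (Finset.single_le_sum (f := Φ) (fun _ _ => Nat.zero_le _) hE)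
  set P : ι → Prop := fun i => ¬ (E < d i ∧ d i ≤ Φ E) with hP
  have hsplit : ∀ t, Dg src d t = Dg (fun i : {i // P i} => src i.1) (fun i => d i.1) t +
      ∑ i ∈ Finset.univ.filter (fun i => src i = t ∧ (E < d i ∧ d i ≤ Φ E)), d i := by
    intro t
    have e1 : Dg (fun i : {i // P i} => src i.1) (fun i => d i.1) t =
        ∑ i ∈ Finset.univ.filter (fun i => P i), if src i = t then d i else 0 := by
      unfold Dg
      rw [Finset.sum_filter]
      exact (Finset.sum_subtype (Finset.univ.filter fun i => P i) (by simp)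
        (fun i => if src i = t then d i else 0)).symm
    have e2 : Dg src d t = ∑ i, if src i = t then d i else 0 := by
      unfold Dg
      rw [Finset.sum_filter]
    have e3 : ∑ i ∈ Finset.univ.filter (fun i => src i = t ∧ (E < d i ∧ d i ≤ Φ E)), d i =
        ∑ i ∈ Finset.univ.filter (fun i => ¬ P i), if src i = t then d i else 0 := by
      rw [← Finset.sum_filter, Finset.filter_filter]
      refine Finset.sum_congr ?_ fun _ _ => rfl
      ext i
      simp only [Finset.mem_filter, Finset.mem_univ, true_and, hP, not_not]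
      exact and_comm
    rw [e1, e2, e3]
    exact (Finset.sum_filter_add_sum_filter_not Finset.univ (fun i => P i) _).symm
  have hDD' : ∀ t, (1 - ε / 4) * ((Dg src d t : ℕ) : ℝ) ≤
      ((Dg (fun i : {i // P i} => src i.1) (fun i => d i.1) t : ℕ) : ℝ) := by
    intro t
    have h1 := hsum t
    have h2 : ((Dg src d t : ℕ) : ℝ) =
        ((Dg (fun i : {i // P i} => src i.1) (fun i => d i.1) t : ℕ) : ℝ) +
        ((∑ i ∈ Finset.univ.filter (fun i => src i = t ∧ (E < d i ∧ d i ≤ Φ E)), d i : ℕ) : ℝ) := by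
      exact_mod_cast hsplit t
    linarith
  have hK : ∀ t, Φ E ≤ Dg (fun i : {i // P i} => src i.1) (fun i => d i.1) t := by
    intro t
    have h0 : (0 : ℝ) ≤ ((Dg src d t : ℕ) : ℝ) := Nat.cast_nonneg _
    have h1 : (2 : ℝ) * Φ E ≤ ((Dg src d t : ℕ) : ℝ) := by exact_mod_cast hΦE t
    have h2 : (Φ E : ℝ) ≤
        ((Dg (fun i : {i // P i} => src i.1) (fun i => d i.1) t : ℕ) : ℝ) := by
      have h3 := hDD' t
      nlinarith
    exact_mod_cast h2
  obtain ⟨Ξ, hΞ0, hΞ⟩ := hΦ E {i // P i} (fun i => src i.1) (fun i => d i.1) (fun i => hd i.1)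
    (fun i => by
      rcases le_or_gt (d i.1) E with h | h
      · exact Or.inl h
      · right
        by_contra hcon
        exact i.2 ⟨h, (not_le.1 hcon).le⟩) hK
  set φ : FV (Fin (n + 1)) (fun i : {i // P i} => d i.1) → FV (Fin (n + 1)) d :=
    fun p => ⟨p.1.1, p.2⟩ with hφ
  have hφi : Function.Injective φ := by
    rintro ⟨⟨i, hi⟩, δ⟩ ⟨⟨i', hi'⟩, δ'⟩ h
    simp only [hφ, Sigma.mk.injEq] at h
    obtain ⟨rfl, h2⟩ := h
    rw [heq_eq_eq] at h2
    rw [h2]
  refine ⟨rename φ Ξ, ?_, ?_⟩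
  · rw [Ne, map_eq_zero_iff _ (rename_injective _ hφi)]
    exact hΞ0
  intro f hf y hy hnc hfy
  rw [eval_rename] at hf
  have hmain := hΞ _ hf y hy hnc (fun i => hfy i.1)
  refine smt_monoP hy (b := fun t => (1 - ε / 2) *
    ((Dg (fun i : {i // P i} => src i.1) (fun i => d i.1) t : ℕ) : ℝ)) ?_ ?_ hmain
  · intro t
    have h0 : (0 : ℝ) ≤ ((Dg src d t : ℕ) : ℝ) := Nat.cast_nonneg _
    have h1 : (1 - ε / 2) * ((1 - ε / 4) * ((Dg src d t : ℕ) : ℝ)) ≤ (1 - ε / 2) *
        ((Dg (fun i : {i // P i} => src i.1) (fun i => d i.1) t : ℕ) : ℝ) :=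
      mul_le_mul_of_nonneg_left (hDD' t) (by linarith)
    show (1 - ε) * ((Dg src d t : ℕ) : ℝ) ≤ (1 - ε / 2) *
        ((Dg (fun i : {i // P i} => src i.1) (fun i => d i.1) t : ℕ) : ℝ)
    nlinarith [mul_nonneg (mul_nonneg hε.le hε.le) h0, mul_nonneg hε.le h0]
  · intro ρ hρ
    have h1 := N1_keptP hy f hfy P (fun _ => False) hρ
    simp only [Finset.univ_eq_empty, Finset.prod_empty, mul_one] at h1
    exact h1

end Pool.Agent.H53R
end

-- from Lib.H53R.T4
section

set_option autoImplicit false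

/-!
H53R, chunk T4 (L): entire curves in covers of products.
-/

open MvPolynomial Real MeasureTheory

namespace Pool.Agent.H53R

open Pool.Agent.H89T Pool.Agent.H67T

variable {τ : Type} [Fintype τ] [DecidableEq τ] {m : ℕ}

/-- CHUNK T4 (L).  Port of `H53L.cov_R_eq_zero` (Lib/H53L/Cov.lean).  `G s` is a polynomial (the product of the
`F s i`), `dd s` its degree.  Suppose `eval (u z₁) R ≠ 0`.  Let `y₀ s z = fun j => eval (u z) (f s j)`
(`IsHol`), `S = {s | y₀ s is not constant}`, not empty by `nonconstant_compP`; `v = u ∘ exp`,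
`y s = y₀ s ∘ exp`.  For every `s` the function `eval (y s z) (G s)` is not identically zero (otherwise
the order of `R (u)` would be at least `e ≥ 1` everywhere).  `hSmt S y`; `counting_le` for the one
function `g z = ∏ s ∈ S, eval (y s z) (G s)`: at its zeros some factor vanishes, so the order of `R (v)`
is at least `e`.  Average of `form_leP` (as in the old proof, with `GH4_average_mono`):
`circleAverage (log ‖R (v)‖) ≤ A + ∑ s, a s / D s * chi (y s) r`, and for `s ∉ S` the value `chi (y s) r` is a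
constant (`chi_const`).  With `η s = (1 - ε) * dd s - κ s > 0`:
`∑ s ∈ S, η s * chi (y s) r ≤ C log r + K`; `chi_exp_ge` for every `s ∈ S` gives
`chi (y s) r ≥ c₀ r - K₃` (so all are `≥ 0` for large `r`), `S` is not empty, and `gg1_large` gives a
contradiction. -/
theorem cov_eq_zeroP {n : τ → ℕ} {w : τ → Fin m → ℕ} {J : Ideal (MvPolynomial (Fin m) ℂ)} {D : τ → ℕ}
    {f : (s : τ) → Fin (n s + 1) → MvPolynomial (Fin m) ℂ} (h : CovP w J D f)
    {ε : ℝ} {e : ℕ} (he : 1 ≤ e) (dd : τ → ℕ) (κ : τ → ℝ) (hκ : ∀ s, κ s < (1 - ε) * dd s)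
    (G : (s : τ) → MvPolynomial (Fin (n s + 1)) ℂ)
    (hSmt : ∀ (S : Finset τ) (y : (s : τ) → ℂ → Fin (n s + 1) → ℂ), (∀ s ∈ S, IsHol (y s)) →
      (∀ s ∈ S, ∃ z w, ∀ c : ℂ, y s w ≠ c • y s z) → (∀ s ∈ S, ∃ z, eval (y s z) (G s) ≠ 0) →
      ∃ (C : ℝ) (E : Set ℝ), volume E < ⊤ ∧ ∀ ρ : ℝ, 2 ≤ ρ → ρ ∉ E →
        ∑ s ∈ S, (1 - ε) * dd s * chi (y s) ρ ≤
          N1 (fun z => ∏ s ∈ S, eval (y s z) (G s)) ρ + C * log ρ)
    {R : MvPolynomial (Fin m) ℂ} {a : τ → ℕ} (hR : ∀ s, R.IsWeightedHomogeneous (w s) (a s))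
    (ha : ∀ s, (a s : ℝ) ≤ e * (κ s * D s))
    {u : ℂ → Fin m → ℂ} (hu : ∀ i, Differentiable ℂ fun z => u z i) (huX : ∀ z, u z ∈ coneP J f)
    (hord : ∀ z, (∃ s, eval (fun j => eval (u z) (f s j)) (G s) = 0) →
      (e : ℕ∞) ≤ analyticOrderAt (fun z => eval (u z) R) z)
    (hnc : ∃ z z', ∀ t : τ → ℂ, u z' ≠ actP w t (u z)) (z₁ : ℂ) : eval (u z₁) R = 0 := by
  classical
  have hord' : ∀ z, (∃ s, eval (fun j => eval (u (Complex.exp z)) (f s j)) (G s) = 0) →
      (e : ℕ∞) ≤ analyticOrderAt (fun z => eval (u (Complex.exp z)) R) z := by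
    intro z hz
    have h1 := analyticOrderAt_comp_of_deriv_ne_zero (f := fun z => eval (u z) R)
      (Complex.differentiable_exp.analyticAt z)
      (by rw [Complex.deriv_exp]; exact Complex.exp_ne_zero z)
    have h2 : (fun z => eval (u z) R) ∘ Complex.exp = fun z => eval (u (Complex.exp z)) R := rfl
    rw [← h2, h1]
    exact hord _ hz
  by_contra hz₁
  have hφ : Differentiable ℂ fun z => eval (u z) R := differentiable_eval hu _
  obtain ⟨w₀, hw0, hw₀⟩ : ∃ w₀ : ℂ, w₀ ≠ 0 ∧ eval (u w₀) R ≠ 0 := by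
    by_contra hcon
    push Not at hcon
    apply hz₁
    have h1 : (fun z => eval (u z) R) = fun _ => 0 := by
      apply hφ.continuous.ext_on (dense_compl_singleton (0 : ℂ)) continuous_const
      intro z hz
      exact hcon z hz
    exact congrFun h1 z₁
  -- the curves in projective spaces
  obtain ⟨y₀, hy₀⟩ : ∃ y₀ : (s : τ) → ℂ → Fin (n s + 1) → ℂ,
      ∀ s z, y₀ s z = fun j => eval (u z) (f s j) := ⟨fun s z j => eval (u z) (f s j), fun _ _ => rfl⟩
  have hy₀h : ∀ s, IsHol (y₀ s) := by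
    intro s
    refine ⟨fun j => ?_, fun z h0 => ?_⟩
    · have h1 : (fun z => y₀ s z j) = fun z => eval (u z) (f s j) := by
        funext z
        rw [hy₀]
      rw [h1]
      exact differentiable_eval hu (f s j)
    · obtain ⟨j, hj⟩ := (huX z).2 s
      have h1 := congrFun h0 j
      rw [hy₀] at h1
      exact hj h1
  obtain ⟨S, hS⟩ : ∃ S : Finset τ, ∀ s, s ∈ S ↔ ∃ z z', ∀ c : ℂ, y₀ s z' ≠ c • y₀ s z :=
    ⟨Finset.univ.filter fun s => ∃ z z', ∀ c : ℂ, y₀ s z' ≠ c • y₀ s z, fun s => by simp⟩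
  have hSne : S.Nonempty := by
    obtain ⟨s, z, z', hs⟩ := nonconstant_compP h hu huX hnc
    refine ⟨s, (hS s).2 ⟨z, z', fun c => ?_⟩⟩
    rw [hy₀, hy₀]
    exact hs c
  obtain ⟨v, hv⟩ : ∃ v : ℂ → Fin m → ℂ, ∀ z, v z = u (Complex.exp z) := ⟨_, fun _ => rfl⟩
  have hvfun : (fun z => eval (u (Complex.exp z)) R) = fun z => eval (v z) R := by
    funext z
    rw [hv]
  have hvd : ∀ i, Differentiable ℂ fun z => v z i := by
    intro i
    have h1 : (fun z => v z i) = fun z => u (Complex.exp z) i := by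
      funext z
      rw [hv]
    rw [h1]
    exact (hu i).comp Complex.differentiable_exp
  obtain ⟨y, hy⟩ : ∃ y : (s : τ) → ℂ → Fin (n s + 1) → ℂ, ∀ s z, y s z = y₀ s (Complex.exp z) :=
    ⟨fun s z => y₀ s (Complex.exp z), fun _ _ => rfl⟩
  have hyfun : ∀ s, y s = fun z => y₀ s (Complex.exp z) := fun s => funext fun z => hy s z
  have hyv : ∀ s z, y s z = fun j => eval (v z) (f s j) := by
    intro s z
    rw [hy, hy₀, hv]
  have hyh : ∀ s, IsHol (y s) := by
    intro s
    rw [hyfun s]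
    exact ⟨fun j => ((hy₀h s).diff j).comp Complex.differentiable_exp, fun z => (hy₀h s).ne_zero _⟩
  have hync : ∀ s ∈ S, ∃ z w, ∀ c : ℂ, y s w ≠ c • y s z := by
    intro s hs
    have h1 := nonconstant_exp (hy₀h s) ((hS s).1 hs)
    obtain ⟨z, z', hz⟩ := h1
    refine ⟨z, z', fun c => ?_⟩
    rw [hy, hy]
    exact hz c
  have hvw : v (Complex.log w₀) = u w₀ := by
    rw [hv, Complex.exp_log hw0]
  have hR0 : ∃ z, eval (v z) R ≠ 0 := ⟨Complex.log w₀, by rw [hvw]; exact hw₀⟩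
  have hyG0 : ∀ s, eval (y s (Complex.log w₀)) (G s) ≠ 0 := by
    intro s h0
    rw [hy, hy₀, Complex.exp_log hw0] at h0
    have h1 := hord w₀ ⟨s, h0⟩
    have h2 : analyticOrderAt (fun z => eval (u z) R) w₀ = 0 := by
      rw [(hφ.analyticAt _).analyticOrderAt_eq_zero]
      exact hw₀
    rw [h2] at h1
    have h3 : e = 0 := by
      have h4 : (e : ℕ∞) = 0 := le_antisymm h1 zero_le
      exact_mod_cast h4
    omega
  obtain ⟨C, E, hE, hsmt⟩ := hSmt S y (fun s _ => hyh s) hync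
    (fun s _ => ⟨Complex.log w₀, hyG0 s⟩)
  -- counting
  have hgd : Differentiable ℂ fun z => ∏ s ∈ S, eval (y s z) (G s) :=
    Differentiable.fun_finsetProd fun s _ => differentiable_eval (hyh s).diff (G s)
  have hg0 : ∃ z, ∏ s ∈ S, eval (y s z) (G s) ≠ 0 :=
    ⟨Complex.log w₀, Finset.prod_ne_zero_iff.2 fun s _ => hyG0 s⟩
  obtain ⟨K₁, hK₁⟩ := counting_le (ι := Unit) (g := fun _ z => ∏ s ∈ S, eval (y s z) (G s)) (e := e)
    (fun _ => hgd) (fun _ => hg0) (differentiable_eval hvd R) hR0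
    (fun z U hU => by
      rcases U.eq_empty_or_nonempty with h0 | ⟨i, hi⟩
      · rw [h0]
        simp
      · have h1 : U.card = 1 := by
          refine le_antisymm ?_ (Finset.card_pos.2 ⟨i, hi⟩)
          have := Finset.card_le_univ U
          simpa using this
        rw [h1, mul_one]
        obtain ⟨s, _, hs⟩ := Finset.prod_eq_zero_iff.1 (hU i hi)
        rw [hy, hy₀] at hs
        have h2 := hord' z ⟨s, hs⟩
        rw [hvfun] at h2
        exact h2)
  -- the average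
  obtain ⟨A, hA⟩ := form_leP h hR
  have hci : ∀ s r, CircleIntegrable (fun z => (a s : ℝ) / D s * log ‖y s z‖) 0 r := fun s r =>
    ((GH4_continuous_log (hyh s)).continuousOn.circleIntegrable').const_smul
      (a := (a s : ℝ) / D s)
  have hcs : ∀ r, CircleIntegrable (fun z => ∑ s, (a s : ℝ) / D s * log ‖y s z‖) 0 r := fun r =>
    CircleIntegrable.fun_sum Finset.univ fun s _ => hci s r
  have havg : ∀ r : ℝ, 1 ≤ r → circleAverage (fun z => log ‖eval (v z) R‖) 0 r ≤
      A + ∑ s, (a s : ℝ) / D s * chi (y s) r := by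
    intro r hr
    have hdv := differentiable_eval hvd R
    have hi' : CircleIntegrable (fun z => log ‖eval (v z) R‖) 0 r :=
      MeromorphicOn.circleIntegrable_log_norm fun z _ => (hdv.analyticAt z).meromorphicAt
    have e1 : A + ∑ s, (a s : ℝ) / D s * chi (y s) r =
        circleAverage (fun z => A + ∑ s, (a s : ℝ) / D s * log ‖y s z‖) 0 r := by
      rw [circleAverage_fun_add (circleIntegrable_const _ _ _) (hcs r), circleAverage_const,
        circleAverage_fun_sum fun s _ => hci s r]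
      congr 1
      refine Finset.sum_congr rfl fun s _ => ?_
      exact (circleAverage_smul (a := (a s : ℝ) / D s) (f := fun z => log ‖y s z‖) (c := 0)
        (R := r)).symm
    rw [e1]
    refine GH4_average_mono hdv hR0 (by linarith) hi'
      ((circleIntegrable_const _ _ _).add (hcs r)) ?_
    intro z hz
    have h4 := hA (v z) (by rw [hv]; exact huX _) hz
    simp only [← hyv] at h4
    exact h4
  -- the constant curves
  have hcst : ∀ s, s ∉ S → ∀ r, chi (y s) r = log ‖y s 0‖ := by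
    intro s hs r
    refine chi_const (hyh s) ?_ r
    intro z z'
    by_contra hcon
    push Not at hcon
    apply hs
    refine (hS s).2 ⟨Complex.exp z, Complex.exp z', fun c => ?_⟩
    have := hcon c
    rw [hy, hy] at this
    exact this
  -- the nonconstant curves
  have hch : ∀ s, ∃ c K : ℝ, s ∈ S → 0 < c ∧ ∀ r : ℝ, 1 ≤ r → c * r - K ≤ chi (y s) r := by
    intro s
    by_cases hs : s ∈ S
    · obtain ⟨c, K, hc, hK⟩ := chi_exp_ge (hy₀h s) ((hS s).1 hs)
      refine ⟨c, K, fun _ => ⟨hc, fun r hr => ?_⟩⟩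
      rw [hyfun s]
      exact hK r hr
    · exact ⟨0, 0, fun h => absurd h hs⟩
  choose c K hcK using hch
  -- numbers
  have he0 : (1 : ℝ) ≤ e := by exact_mod_cast he
  have hη0 : ∀ s, 0 < (1 - ε) * dd s - κ s := fun s => by linarith [hκ s]
  obtain ⟨B, hB⟩ : ∃ B : ℝ, B = ∑ s ∈ Finset.univ \ S, (a s : ℝ) / D s * log ‖y s 0‖ := ⟨_, rfl⟩
  have hpos : 0 < ∑ s ∈ S, ((1 - ε) * dd s - κ s) * c s :=
    Finset.sum_pos (fun s hs => mul_pos (hη0 s) (hcK s hs).1) hSne
  obtain ⟨r, hr2, hr0, hrE, hbig⟩ := gg1_large hE (∑ s ∈ S, |K s / c s|)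
    (∑ s ∈ S, ((1 - ε) * dd s - κ s) * c s) C
    (∑ s ∈ S, ((1 - ε) * dd s - κ s) * K s + (K₁ + A + B) / e) hpos
  have b1 := hsmt r hr2 hrE
  have b2 := hK₁ r (by linarith)
  have b3 := havg r (by linarith)
  have b5 : ∀ s ∈ S, c s * r - K s ≤ chi (y s) r := fun s hs => (hcK s hs).2 r (by linarith)
  have b6 : ∀ s ∈ S, 0 ≤ chi (y s) r := by
    intro s hs
    have h1 := b5 s hs
    have h2 : |K s / c s| ≤ ∑ s ∈ S, |K s / c s| :=
      Finset.single_le_sum (f := fun s => |K s / c s|) (fun _ _ => abs_nonneg _) hs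
    have h3 : K s / c s ≤ r := le_trans (le_abs_self _) (le_trans h2 hr0)
    rw [div_le_iff₀ (hcK s hs).1] at h3
    linarith
  simp only [Finset.univ_unique, Finset.sum_const, Finset.card_singleton, one_smul] at b2
  obtain ⟨NN, hNN⟩ : ∃ NN, NN = N1 (fun z => ∏ s ∈ S, eval (y s z) (G s)) r := ⟨_, rfl⟩
  rw [← hNN] at b1 b2
  have b7 : ∑ s, (a s : ℝ) / D s * chi (y s) r ≤ e * ∑ s ∈ S, κ s * chi (y s) r + B := by
    have h1 : ∑ s, (a s : ℝ) / D s * chi (y s) r =
        ∑ s ∈ Finset.univ \ S, (a s : ℝ) / D s * chi (y s) r +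
          ∑ s ∈ S, (a s : ℝ) / D s * chi (y s) r :=
      (Finset.sum_sdiff (Finset.subset_univ S)).symm
    have h2 : ∑ s ∈ Finset.univ \ S, (a s : ℝ) / D s * chi (y s) r = B := by
      rw [hB]
      refine Finset.sum_congr rfl fun s hs => ?_
      rw [hcst s (Finset.mem_sdiff.1 hs).2 r]
    have h3 : ∑ s ∈ S, (a s : ℝ) / D s * chi (y s) r ≤ e * ∑ s ∈ S, κ s * chi (y s) r := by
      rw [Finset.mul_sum]
      refine Finset.sum_le_sum fun s hs => ?_
      have hDs : (0 : ℝ) < D s := by exact_mod_cast h.pos s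
      have h4 : (a s : ℝ) / D s ≤ e * κ s := by
        rw [div_le_iff₀ hDs, mul_assoc]
        exact ha s
      calc (a s : ℝ) / D s * chi (y s) r ≤ e * κ s * chi (y s) r :=
            mul_le_mul_of_nonneg_right h4 (b6 s hs)
        _ = e * (κ s * chi (y s) r) := by ring
    rw [h1, h2]
    linarith
  have b8 : NN ≤ ∑ s ∈ S, κ s * chi (y s) r + (K₁ + A + B) / e := by
    have h1 : (e : ℝ) * NN ≤ e * (∑ s ∈ S, κ s * chi (y s) r + (K₁ + A + B) / e) := by
      have h2 : (e : ℝ) * ((K₁ + A + B) / e) = K₁ + A + B := by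
        have : (e : ℝ) ≠ 0 := by positivity
        field_simp
      rw [mul_add, h2]
      linarith
    exact le_of_mul_le_mul_left h1 (by linarith)
  have b9 : ∑ s ∈ S, (((1 - ε) * dd s - κ s) * c s * r - ((1 - ε) * dd s - κ s) * K s) ≤
      ∑ s ∈ S, ((1 - ε) * dd s * chi (y s) r - κ s * chi (y s) r) := by
    refine Finset.sum_le_sum fun s hs => ?_
    have h1 := mul_le_mul_of_nonneg_left (b5 s hs) (hη0 s).le
    calc ((1 - ε) * dd s - κ s) * c s * r - ((1 - ε) * dd s - κ s) * K s =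
          ((1 - ε) * dd s - κ s) * (c s * r - K s) := by ring
      _ ≤ ((1 - ε) * dd s - κ s) * chi (y s) r := h1
      _ = (1 - ε) * dd s * chi (y s) r - κ s * chi (y s) r := by ring
  rw [Finset.sum_sub_distrib, Finset.sum_sub_distrib, ← Finset.sum_mul] at b9
  linarith

end Pool.Agent.H53R
end
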