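import Pool.Agent.Lib.H1M.PB.M020
import Pool.Agent.Lib.H1M.PB.M024
import Pool.Agent.Lib.H1M.PB.M039
import Pool.Agent.Lib.H1M.PB.M052
import Pool.Agent.Lib.H1M.PB.M053

/-! Merged copies (to shorten the build) of Lib.H89Y.C6b, Lib.H89Y.C6c, Lib.H89Y.C7, Lib.H78R.R8, Lib.H89Y.A2, Lib.H89Y.A3, Lib.H89Y.A3a, Lib.H89Y.A3c, Lib.H49S.S1, Lib.H49S.S2, Lib.H49S.S3, Lib.H49S.S4, Lib.H49S.S5, Lib.H78R.R9, Lib.H78R.R10, Lib.H49S.S6. -/

-- from Lib.H89Y.C6b
section

set_option autoImplicit false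

/-!
H89Y, CHUNK C6b (M).  The compensation for one linear factor of a small block.
-/

open MvPolynomial

namespace Pool.Agent.H89Y

open Pool.Agent.H89T Pool.Agent.H78G Pool.Agent.H53Y

section c6b

variable {β : Type} {m : β → ℕ} {n : ℕ} {ι : Type} {sb : ι → β} {dg : ι → ℕ} {r : ℕ}

/-- The embedding of the ring of one linear polynomial. -/
noncomputable def c6b_k (e : Co m ≃ Fin n) (i : ι) (hd : dg i = 1) : B1 (m (sb i)) r →+* UG m sb dg n r :=
  (rename (R := ℂ) (Sum.map (fun q : JV (m (sb i)) r => ((e ⟨sb i, q.1⟩, q.2) : JV n r))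
    (fun c : Fin (m (sb i) + 1) => (⟨i, ix hd c⟩ : Cf m sb dg)))).toRingHom

theorem c6b_hX (e : Co m ≃ Fin n) (i : ι) (hd : dg i = 1) (c : Fin (m (sb i) + 1)) :
    c6b_k (r := r) e i hd (hX c) = aG ⟨i, ix hd c⟩ := by
  unfold hX aG
  exact rename_X _ _

theorem c6b_xX (e : Co m ≃ Fin n) (i : ι) (hd : dg i = 1) (q : JV (m (sb i)) r) :
    c6b_k (r := r) e i hd (xX q) = bj e (xG (m := m) (sb := sb) (dg := dg)) (sb i) q := by
  unfold xX bj xG
  exact rename_X _ _

theorem c6b_xX' (e : Co m ≃ Fin n) (i : ι) (hd : dg i = 1) :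
    (fun q : JV (m (sb i)) r => c6b_k (r := r) e i hd (xX q)) = bj e (xG (m := m) (sb := sb) (dg := dg)) (sb i) :=
  funext fun q => c6b_xX e i hd q

theorem c6b_linA_map (e : Co m ≃ Fin n) (i : ι) (hd : dg i = 1) (G : Fin (m (sb i) + 1) → B1 (m (sb i)) r) :
    (linA (fun c => Polynomial.C (G c)) (arc xX)).map (c6b_k e i hd) =
      linA (fun c => Polynomial.C (c6b_k e i hd (G c))) (arc (bj e (xG (m := m) (sb := sb) (dg := dg)) (sb i))) := by
  have h1 := linA_map (Polynomial.mapRingHom (c6b_k (r := r) (sb := sb) (dg := dg) e i hd))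
    (fun c => Polynomial.C (G c)) (arc xX)
  have h2 : ∀ b, (arc (xX (n := m (sb i)) (r := r)) b).map (c6b_k e i hd) =
      arc (bj e (xG (m := m) (sb := sb) (dg := dg)) (sb i)) b := by
    intro b
    rw [arc_map, c6b_xX']
  simp only [Polynomial.coe_mapRingHom, Polynomial.map_C, h2] at h1
  exact h1

theorem c6b_Wd (e : Co m ≃ Fin n) (s : β) (hr : m s ≤ r) :
    WtS ((m s + 1) * m s) (Wd hr (bj e (xG (m := m) (sb := sb) (dg := dg) (r := r)) s)) := by
  classical
  unfold Wd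
  rw [Matrix.det_apply]
  refine WtS.sum fun σ _ => ?_
  have h1 : WtS ((m s + 1) * m s) (∏ i : Fin (m s), (Matrix.of fun b l : Fin (m s) =>
      bj e (xG (m := m) (sb := sb) (dg := dg) (r := r)) s (b, ⟨(l : ℕ) + 1, by omega⟩)) (σ i) i) := by
    have h2 : WtS (∑ _i : Fin (m s), (m s + 1)) (∏ i : Fin (m s), (Matrix.of fun b l : Fin (m s) =>
        bj e (xG (m := m) (sb := sb) (dg := dg) (r := r)) s (b, ⟨(l : ℕ) + 1, by omega⟩)) (σ i) i) := by
      refine WtS.prod fun i _ => ?_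
      rw [Matrix.of_apply]
      unfold bj xG
      refine (WtS.inl _).mono ?_
      have := i.2
      simp only
      omega
    refine h2.mono ?_
    rw [Finset.sum_const, Finset.card_univ, Fintype.card_fin, smul_eq_mul, mul_comm]
  rcases Int.units_eq_one_or (Equiv.Perm.sign σ) with h | h
  · rw [h, one_smul]
    exact h1
  · rw [h, Units.neg_smul, one_smul]
    exact h1.neg

end c6b

/-- CHUNK C6b.  PROOF (as `horizontal_exists`, Lib/H78G/C4.lean).  `N`, `cH` from `hz_wt hr` (Lib/H78G/HZ2.lean, `n := m s`).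
Given `i` with `h : sb i = s` (`subst h`; `s` is a variable, so it is replaced by `sb i`; `Fin.cast` of a proof of `m (sb i) = m (sb i)` is the identity:
`Fin.cast_refl` or `rfl` after `Fin.ext`), write `α = ix hd cc` (`ix_bij`).  Let `κ : B1 (m (sb i)) r →+* UG ..` be
`(rename (Sum.map (fun q => (e ⟨sb i, q.1⟩, q.2)) (fun c => ⟨i, ix hd c⟩))).toRingHom`: `κ (hX c) = aG ⟨i, ix hd c⟩`, `κ (xX q) = bj e xG (sb i) q`
(`rename_X`).  Apply `Polynomial.map κ` to the identity of `hz_wt` for `cc`, `j` (`linA_map` for `Polynomial.mapRingHom κ`, `arc_map`, `Wd_map`, as in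
`C4_linA_map`, `h4` of `horizontal_exists`):
  `C ((Wd' * aG ⟨i, α⟩) ^ N) * X ^ j = linA (fun c => C (κ (G c))) (arc ξ') + v * q' + X ^ (r + 1) * e'`,   `ξ' = bj e xG (sb i)`,  `v = vG e i`
(`v = linA (fun c => C (aG ⟨i, ix hd c⟩)) (arc ξ')` by `Fx_ix`).  Put `g α' = - (aG ⟨i, ix hd b.succ⟩) * κ (G (ci α'))`, `ci` the inverse of `ix hd`
(`Equiv.ofBijective _ (ix_bij hd)`); `Fx g ξ' = - C (aG ..) * linA (C ∘ κ ∘ G) (arc ξ')` (`Fx_ix`), `Fdx = C (aG ⟨i, ix hd b.succ⟩)` (`Fdx_ix`), so the sum is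
`C (aG ..) * (v * q' + X ^ (r + 1) * e')`.  Weights: `WtS_rename`, `WtS.inr`, `WtS.mul`, `WtS.neg`.  The weight of `Wd ^ N`: copy the proof of `WtS.Wd`
(Lib/H78G/W0.lean): the entries `xG (e ⟨s, b⟩, ⟨l + 1, _⟩)` have weight `l + 2 ≤ m s + 1` (`WtS.inl`), so `Wd` has weight `≤ (m s + 1) * m s`; take
`cH' = cH + N * ((m s + 1) * m s)` (`WtS.pow`, `WtS.mono`). -/
theorem small_comp {β : Type} (m : β → ℕ) (s : β) {r : ℕ} (hr : m s ≤ r) : ∃ N cH : ℕ,
    ∀ {n : ℕ} (e : Co m ≃ Fin n) {ι : Type} (sb : ι → β) (dg : ι → ℕ),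
      WtS cH (Wd hr (bj e (xG (m := m) (sb := sb) (dg := dg) (r := r)) s) ^ N) ∧
      ∀ (i : ι) (h : sb i = s) (_ : dg i = 1)
      (α : Idx (m (sb i)) (dg i)) (b : Fin (m s)) (j : Fin (r + 1)),
      ∃ g : Idx (m (sb i)) (dg i) → UG m sb dg n r, (∀ α', WtS cH (g α')) ∧
        Fx g (bj e xG (sb i)) +
          Fdx (Fin.cast (by rw [h]) b) (fun α' => (aG ⟨i, α'⟩ : UG m sb dg n r)) (bj e xG (sb i)) *
            (Polynomial.C ((Wd hr (bj e xG s) * aG ⟨i, α⟩) ^ N) * Polynomial.X ^ (j : ℕ)) ∈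
          Ideal.span {vG e i, (Polynomial.X : Polynomial (UG m sb dg n r)) ^ (r + 1)} := by
  classical
  obtain ⟨N, cH, hNc⟩ := hz_wt (n := m s) (r := r) hr
  refine ⟨N, cH + N * ((m s + 1) * m s), ?_⟩
  intro n e ι sb dg
  refine ⟨((c6b_Wd e s hr).pow N).mono (Nat.le_add_left _ _), ?_⟩
  intro i h hd α b j
  subst h
  obtain ⟨cc, hcc⟩ := (ix_bij hd).2 α
  subst hcc
  obtain ⟨G, q, e', hG, hid⟩ := hNc cc j
  generalize hb' : (Fin.cast (by rfl) b : Fin (m (sb i))) = b'
  set ci := (Equiv.ofBijective _ (ix_bij (n := m (sb i)) hd)).symm with hci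
  have hcix : ∀ c, ci (ix hd c) = c := fun c => (Equiv.ofBijective _ (ix_bij (n := m (sb i)) hd)).symm_apply_apply c
  refine ⟨fun α' => -(aG ⟨i, ix hd b'.succ⟩) * c6b_k e i hd (G (ci α')), ?_, ?_⟩
  · intro α'
    have h1 : WtS 0 (-(aG ⟨i, ix hd b'.succ⟩ : UG m sb dg n r)) := (WtS.inr _).neg
    have h2 : WtS cH (c6b_k e i hd (G (ci α')) : UG m sb dg n r) :=
      WtS_rename (fun q : JV (m (sb i)) r => ((e ⟨sb i, q.1⟩, q.2) : JV n r)) (fun _ => rfl)
        (fun c : Fin (m (sb i) + 1) => (⟨i, ix hd c⟩ : Cf m sb dg)) (hG (ci α'))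
    have h3 := h1.mul h2
    rw [zero_add] at h3
    exact h3.mono (Nat.le_add_right _ _)
  · have h4 := congrArg (Polynomial.map (c6b_k (r := r) e i hd)) hid
    rw [Polynomial.map_add, Polynomial.map_add, Polynomial.map_mul, Polynomial.map_mul,
      Polynomial.map_mul, Polynomial.map_pow, Polynomial.map_pow, Polynomial.map_C,
      Polynomial.map_X, c6b_linA_map, c6b_linA_map, map_pow, map_mul, c6b_hX, Wd_map, c6b_xX'] at h4
    have h6 : linA (fun c => Polynomial.C (c6b_k (r := r) e i hd (hX c))) (arc (bj e (xG (m := m) (sb := sb) (dg := dg)) (sb i))) = vG e i := by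
      unfold vG fa
      rw [Fx_ix hd]
      simp only [c6b_hX]
    rw [h6] at h4
    have h7 : Fx (fun α' => -(aG ⟨i, ix hd b'.succ⟩) * c6b_k e i hd (G (ci α'))) (bj e (xG (m := m) (sb := sb) (dg := dg)) (sb i)) =
        -(Polynomial.C (aG ⟨i, ix hd b'.succ⟩)) * linA (fun c => Polynomial.C (c6b_k e i hd (G c))) (arc (bj e (xG (m := m) (sb := sb) (dg := dg)) (sb i))) := by
      rw [Fx_ix hd, ← C4_linA_mul]
      congr 1
      funext c
      rw [hcix, Polynomial.C_mul, Polynomial.C_neg]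
    rw [h7, Fdx_ix hd, h4]
    have h8 : -(Polynomial.C (aG ⟨i, ix hd b'.succ⟩)) * linA (fun c => Polynomial.C (c6b_k e i hd (G c))) (arc (bj e (xG (m := m) (sb := sb) (dg := dg)) (sb i))) +
        Polynomial.C (aG ⟨i, ix hd b'.succ⟩) * (linA (fun c => Polynomial.C (c6b_k e i hd (G c))) (arc (bj e (xG (m := m) (sb := sb) (dg := dg)) (sb i))) +
          vG e i * q.map (c6b_k e i hd) + Polynomial.X ^ (r + 1) * e'.map (c6b_k e i hd)) =
        Polynomial.C (aG ⟨i, ix hd b'.succ⟩) * (vG e i * q.map (c6b_k e i hd) + Polynomial.X ^ (r + 1) * e'.map (c6b_k e i hd)) := by ring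
    rw [h8]
    apply Ideal.mul_mem_left
    apply Ideal.add_mem
    · exact Ideal.mul_mem_right _ _ (Ideal.subset_span (Set.mem_insert _ _))
    · exact Ideal.mul_mem_right _ _ (Ideal.subset_span (Set.mem_insert_of_mem _ (Set.mem_singleton _)))

end Pool.Agent.H89Y
end

-- from Lib.H89Y.C6c
section

set_option autoImplicit false

/-!
H89Y, CHUNK C6c (M).  Horizontal directions: the small blocks.
-/

open MvPolynomial

namespace Pool.Agent.H89Y

open Pool.Agent.H89T Pool.Agent.H78G Pool.Agent.H53Y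

/-- CHUNK C6c.  PROOF.  `N`, `cH` from `small_comp`, `c₀ = cH + cH`.  For every `i` choose `α i : Idx (m (sb i)) (dg i)` with `a ⟨i, α i⟩ ≠ 0` (otherwise
`fv e a _ i = ev .. = 0`: unfold `fv ev`).  Let `S = Finset.univ.filter (fun i => sb i = s)` and
`φ = Wd hr (bj e xG s) ^ N * ∏ i ∈ S, aG ⟨i, α i⟩ ^ N`, `lam = C φ * X ^ (l : ℕ)`.  Apply `hor_general` (C5a) with this `lam`:
degree `≤ r` (`Polynomial.natDegree_C_mul_X_pow_le`); weights: `WtS cH` for the power of `Wd`, weight `0` for the product (`WtS.inr`, `WtS.pow`, `WtS.prod`),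
`Polynomial.coeff_C_mul`, `Polynomial.coeff_X_pow`, `WtS.mono`.  Compensation for `i ∈ S`: with `D = ∏ i' ∈ S.erase i, aG ⟨i', α i'⟩ ^ N` (weight `0`) and `g` of `small_comp` take
`fun α' => D * g α'`: `Fx (D * g) = C D * Fx g` (`Fx` is linear: unfold `Fx ev`, `Finset.mul_sum`; compare `ev_smul` in Lib/H89T/N1.lean) and
`C φ = C D * C ((Wd * aG ⟨i, α i⟩) ^ N)` (`Finset.mul_prod_erase`, `mul_pow`), so the element is `C D *` (the element of `small_comp`).
The conclusion of `hor_general`: only the term `l' = l` of the sum is not `0`; its coefficient is `eval (Sum.elim ξ a) φ = Wd hr (bj e ξ s) ^ N * ∏ a ⟨i, α i⟩ ^ N ≠ 0`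
(`Wd_map` for `eval (Sum.elim ξ a)`, `eval_X`).  Divide (`Submodule.smul_mem`).  (As in `span_fieldsU`, Lib/H78G/C5.lean.) -/
theorem hor_small {β : Type} [DecidableEq β] (m : β → ℕ) (s : β) {r : ℕ} (hr : m s ≤ r) : ∃ c₀ : ℕ,
    ∀ {n : ℕ} (e : Co m ≃ Fin n) {ι : Type} [Fintype ι] [DecidableEq ι] (sb : ι → β) (dg : ι → ℕ),
      (∀ i, sb i = s → dg i = 1) → ∀ (a : Cf m sb dg → ℂ) (ξ : JV n r → ℂ),
      (∀ i, fv e a (fun b => ξ (b, 0)) i ≠ 0) → Wd hr (bj e ξ s) ≠ 0 → ∀ c, c₀ ≤ c →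
      (∀ i, sb i = s → ∀ α, (Pi.single (Sum.inr ⟨i, α⟩) 1 : JV n r ⊕ Cf m sb dg → ℂ) ∈ SpG e c a ξ) →
      ∀ (b : Fin (m s)) (l : Fin (r + 1)),
        (Pi.single (Sum.inl (e ⟨s, b⟩, l)) 1 : JV n r ⊕ Cf m sb dg → ℂ) ∈ SpG e c a ξ := by
  classical
  obtain ⟨N, cH, hsc⟩ := small_comp m s hr
  refine ⟨cH + cH, ?_⟩
  intro n e ι _ _ sb dg hdg a ξ hF hWd c hc hv b l
  obtain ⟨hwN, hcomp⟩ := hsc e sb dg
  have hα : ∀ i, ∃ α : Idx (m (sb i)) (dg i), a ⟨i, α⟩ ≠ 0 := by
    intro i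
    by_contra hcon
    push Not at hcon
    apply hF i
    unfold fv ev
    exact Finset.sum_eq_zero fun α _ => mul_eq_zero_of_left (hcon α) _
  choose α hα using hα
  obtain ⟨S, hS⟩ : ∃ S : Finset ι, S = Finset.univ.filter (fun i => sb i = s) := ⟨_, rfl⟩
  obtain ⟨φ, hφ⟩ : ∃ φ : UG m sb dg n r, φ = Wd hr (bj e xG s) ^ N *
    ∏ i ∈ S, (aG ⟨i, α i⟩ : UG m sb dg n r) ^ N := ⟨_, rfl⟩
  have hprod : ∀ T : Finset ι, WtS 0 (∏ i ∈ T, (aG ⟨i, α i⟩ : UG m sb dg n r) ^ N) := by
    intro T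
    have h1 : ∀ i ∈ T, WtS 0 ((aG ⟨i, α i⟩ : UG m sb dg n r) ^ N) := by
      intro i _
      have h2 : WtS 0 (aG ⟨i, α i⟩ : UG m sb dg n r) := WtS.inr _
      exact (h2.pow N).mono (by rw [Nat.mul_zero])
    exact (WtS.prod h1).mono (by rw [Finset.sum_const_zero])
  have hwφ : WtS cH φ := by
    rw [hφ]
    exact (hwN.mul (hprod S)).mono (by omega)
  obtain ⟨lam, hlam⟩ : ∃ lam : Polynomial (UG m sb dg n r),
    lam = Polynomial.C φ * Polynomial.X ^ (l : ℕ) := ⟨_, rfl⟩
  have hco : ∀ l' : ℕ, lam.coeff l' = if l' = (l : ℕ) then φ else 0 := by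
    intro l'
    rw [hlam, Polynomial.coeff_C_mul, Polynomial.coeff_X_pow]
    split_ifs
    · rw [mul_one]
    · rw [mul_zero]
  have hmain := hor_general e s b (c := c) lam
    (by
      rw [hlam]
      refine (Polynomial.natDegree_C_mul_X_pow_le φ l).trans ?_
      omega)
    (by
      intro l'
      rw [hco]
      split_ifs
      · exact hwφ.mono (by omega)
      · exact WtS.zero _)
    (by
      intro i h
      obtain ⟨g, hg1, hg2⟩ := hcomp i h (hdg i h) (α i) b l
      obtain ⟨D, hD⟩ : ∃ D : UG m sb dg n r,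
        D = ∏ i' ∈ S.erase i, (aG ⟨i', α i'⟩ : UG m sb dg n r) ^ N := ⟨_, rfl⟩
      have hiS : i ∈ S := by
        rw [hS, Finset.mem_filter]
        exact ⟨Finset.mem_univ _, h⟩
      have hφD : φ = D * (Wd hr (bj e xG s) * aG ⟨i, α i⟩) ^ N := by
        rw [hφ, hD, ← Finset.mul_prod_erase S _ hiS, mul_pow]
        ring
      refine ⟨fun α' => D * g α', fun α' => ?_, ?_⟩
      · have h1 : WtS 0 D := by
          rw [hD]
          exact hprod _
        exact (h1.mul (hg1 α')).mono (by omega)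
      · have h1 : Fx (fun α' => D * g α') (bj e xG (sb i)) =
            Polynomial.C D * Fx g (bj e xG (sb i)) := by
          unfold Fx
          simp only [map_mul]
          exact ev_smul _ _ _
        have h2 : Fx (fun α' => D * g α') (bj e xG (sb i)) +
            Fdx (Fin.cast (by rw [h]) b) (fun α' => (aG ⟨i, α'⟩ : UG m sb dg n r))
              (bj e xG (sb i)) * lam =
            Polynomial.C D * (Fx g (bj e xG (sb i)) +
              Fdx (Fin.cast (by rw [h]) b) (fun α' => (aG ⟨i, α'⟩ : UG m sb dg n r))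
                (bj e xG (sb i)) *
              (Polynomial.C ((Wd hr (bj e xG s) * aG ⟨i, α i⟩) ^ N) *
                Polynomial.X ^ (l : ℕ))) := by
          rw [h1, hlam, hφD, map_mul Polynomial.C D]
          ring
        rw [h2]
        exact Ideal.mul_mem_left _ _ hg2)
    a ξ hv
  rw [Finset.sum_eq_single l] at hmain
  · rw [hco, if_pos rfl] at hmain
    have hne : eval (Sum.elim ξ a) φ ≠ 0 := by
      rw [hφ, map_mul, map_pow, map_prod]
      refine mul_ne_zero (pow_ne_zero _ ?_) (Finset.prod_ne_zero_iff.mpr fun i _ => ?_)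
      · rw [Wd_map]
        have h1 : (fun p : JV (m s) r => eval (Sum.elim ξ a)
            (bj e (xG : JV n r → UG m sb dg n r) s p)) = bj e ξ s := by
          funext p
          exact eval_X _
        rw [h1]
        exact hWd
      · rw [map_pow]
        refine pow_ne_zero _ ?_
        have h1 : eval (Sum.elim ξ a) (aG ⟨i, α i⟩ : UG m sb dg n r) = a ⟨i, α i⟩ := eval_X _
        rw [h1]
        exact hα i
    exact (Submodule.smul_mem_iff _ hne).mp hmain
  · intro l' _ hl'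
    rw [hco, if_neg (fun h => hl' (Fin.ext h)), map_zero, zero_smul]
  · intro h
    exact absurd (Finset.mem_univ _) h

end Pool.Agent.H89Y
end

-- from Lib.H89Y.C7
section

set_option autoImplicit false

/-!
H89Y, CHUNK C7 (S/M).  The fields span everything.
-/

open MvPolynomial

namespace Pool.Agent.H89Y

open Pool.Agent.H89T Pool.Agent.H78G Pool.Agent.H53Y

/-- CHUNK C7.  PROOF.  `choose cS hcS using fun s => hor_small m s (hr s)`, `c = cF r + (r + 1) + ∑ s, cS s`.  `C5_single` (Lib/H78G/C5.lean): it suffices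
to show that the unit vectors are in `SpG`.  `Sum.inr ⟨i, α⟩`: by cases `T (sb i)`: `vert_small` or `vert_large` (with `b`, `one` from the last hypothesis for `s = sb i`;
`bj e ξ s (b, l) = ξ (e ⟨s, b⟩, l)` by `rfl`).  `Sum.inl (b, l)`: `b = e ⟨s, b'⟩` (`e.surjective` / `e.apply_symm_apply`), by cases `T s`: `hcS s` (`hor_small`) or
`hor_large`. -/
theorem span_SpG {β : Type} [Fintype β] [DecidableEq β] (m : β → ℕ) (T : β → Bool) {n r : ℕ}
    (e : Co m ≃ Fin n) (hr : ∀ s, m s ≤ r) : ∃ c : ℕ,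
    ∀ {ι : Type} [Fintype ι] [DecidableEq ι] (sb : ι → β) (dg : ι → ℕ),
      (∀ i, T (sb i) = true → dg i = 1) → (∀ i, T (sb i) = false → r ≤ dg i) →
      ∀ (a : Cf m sb dg → ℂ) (ξ : JV n r → ℂ),
      (∀ i, fv e a (fun b => ξ (b, 0)) i ≠ 0) →
      (∀ s, T s = true → Wd (hr s) (bj e ξ s) ≠ 0) →
      (∀ s, T s = false → ∃ b, ∃ l : Fin (r + 1), (l : ℕ) = 1 ∧ bj e ξ s (b, l) ≠ 0) →
      SpG (m := m) (sb := sb) (dg := dg) (r := r) e c a ξ = ⊤ := by
  choose cS hcS using fun s => hor_small m s (hr s)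
  obtain ⟨c, hc⟩ : ∃ c : ℕ, c = cF r + (r + 1) + ∑ s, cS s := ⟨_, rfl⟩
  refine ⟨c, ?_⟩
  intro ι _ _ sb dg hT1 hT2 a ξ hF hW hL
  have hc1 : cF r ≤ c := by omega
  have hc2 : r + 1 ≤ c := by omega
  have hcs : ∀ s, cS s ≤ c := by
    intro s
    have h1 : cS s ≤ ∑ s, cS s := Finset.single_le_sum (fun _ _ => Nat.zero_le _) (Finset.mem_univ s)
    omega
  have hv : ∀ (i : ι) (α : Idx (m (sb i)) (dg i)),
      (Pi.single (Sum.inr ⟨i, α⟩) 1 : JV n r ⊕ Cf m sb dg → ℂ) ∈ SpG e c a ξ := by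
    intro i α
    cases h : T (sb i)
    · obtain ⟨b, one, h1, hx⟩ := hL (sb i) h
      exact vert_large e i (hT2 i h) a ξ b one h1 hx (hF i) hc1 α
    · exact vert_small e i (hT1 i h) a ξ (hF i) hc2 α
  refine C5_single _ fun x => ?_
  rcases x with ⟨b, l⟩ | ⟨i, α⟩
  · obtain ⟨⟨s, b'⟩, rfl⟩ := e.surjective b
    cases h : T s
    · obtain ⟨b₀, one, h1, hx⟩ := hL s h
      exact hor_large e s (fun i hi => hT2 i (by rw [hi]; exact h)) a ξ b₀ one h1 hx hc1
        (fun i _ α => hv i α) b' l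
    · exact hcS s e sb dg (fun i hi => hT1 i (by rw [hi]; exact h)) a ξ hF (hW s h) c (hcs s)
        (fun i _ α => hv i α) b' l
  · exact hv i α

end Pool.Agent.H89Y
end

-- from Lib.H78R.R8
section

set_option autoImplicit false

/-!
H78R, interface of the parts A and C of `AC_P` (Lib/H53R/IDE.lean).
-/

open MvPolynomial

namespace Pool.Agent.H78R

open Pool.Agent.H89T Pool.Agent.H78G Pool.Agent.H53Y Pool.Agent.H89Y Pool.Agent.H53R

section
variable {β : Type} [DecidableEq β] {m : β → ℕ} {n r : ℕ}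

/-- The degree of a monomial in the coordinates of the block `s`. -/
def xdb (e : Co m ≃ Fin n) (s : β) (μ : JV n r →₀ ℕ) : ℕ :=
  ∑ b : Fin n, if (e.symm b).1 = s then μ (b, 0) else 0

/-- The monomials of degree at most `d s` in the coordinates of the block `s` (for all `s`) and of
jet degree at most `M`. -/
def MonB (e : Co m ≃ Fin n) (r : ℕ) (d : β → ℕ) (M : ℕ) : Set (JV n r →₀ ℕ) :=
  {μ | (∀ s, xdb e s μ ≤ d s) ∧ jd μ ≤ M}

/-- Polynomials with monomials in `MonB`. -/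
def HasMonB {R : Type*} [CommRing R] (e : Co m ≃ Fin n) (d : β → ℕ) (M : ℕ)
    (P : MvPolynomial (JV n r) R) : Prop :=
  ∀ μ ∈ P.support, (∀ s, xdb e s μ ≤ d s) ∧ jd μ ≤ M

end

end Pool.Agent.H78R
end

-- from Lib.H89Y.A2
section

set_option autoImplicit false

/-!
H89Y, CHUNK A2 (M).  The special coefficients `F_i = ∑_{b ∈ c i} x_b ^ (dg i)`; the degrees of `u_0`, `u_1`.
-/

open MvPolynomial

namespace Pool.Agent.H89Y

open Pool.Agent.H89T Pool.Agent.H78G Pool.Agent.H53Y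

/-- The index of the coefficient of `x_b ^ d`. -/
def pw {n d : ℕ} (b : Fin n) : Idx n d :=
  ⟨fun b' => if b' = b then Fin.last d else 0, by
    classical
    rw [Finset.sum_eq_single b]
    · simp
    · intro b' _ hb
      simp [hb]
    · intro h; exact absurd (Finset.mem_univ _) h⟩

variable {β : Type} {m : β → ℕ} {ι : Type} {sb : ι → β} {dg : ι → ℕ} {n r : ℕ}

/-- The special coefficients. -/
noncomputable def spc (c : ∀ i : ι, Finset (Fin (m (sb i)))) (x : Cf m sb dg) : ℂ :=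
  open Classical in
  ∑ b ∈ c x.1, if x.2 = pw b then 1 else 0

/-- CHUNK A2a.  PROOF.  `ev`, `Finset.sum_comm` (`Finset.sum_mul`, `map_sum`): for fixed `b` only the index `α = pw b` contributes, and `∏ b', x b' ^ (pw b).1 b' = x b ^ d`
(`Finset.prod_eq_single b`). -/
theorem ev_spc {B : Type*} [CommRing B] (φ : ℂ →+* B) (c : ∀ i : ι, Finset (Fin (m (sb i)))) (i : ι)
    (x : Fin (m (sb i)) → B) :
    ev (fun α => φ (spc (m := m) (sb := sb) (dg := dg) c ⟨i, α⟩)) x = ∑ b ∈ c i, x b ^ dg i := by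
  classical
  unfold ev spc
  simp only [map_sum, Finset.sum_mul]
  rw [Finset.sum_comm]
  refine Finset.sum_congr rfl fun b _ => ?_
  rw [Finset.sum_eq_single (pw b)]
  · rw [if_pos rfl, map_one, one_mul, Finset.prod_eq_single b]
    · simp [pw]
    · intro b' _ hb'
      simp [pw, hb']
    · intro h
      exact absurd (Finset.mem_univ _) h
  · intro α _ hα
    rw [if_neg hα, map_zero, zero_mul]
  · intro h
    exact absurd (Finset.mem_univ _) h

/-- CHUNK A2b.  PROOF.  `uu_map` (Lib/H89T/N1.lean) for the ring homomorphism `MvPolynomial.map (eval p)`, `map_C`, `map_X`, `eval_X` (`gnG x = X x`); `bj` commutes with maps by `rfl`. -/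
theorem map_us (e : Co m ≃ Fin n) (p : Cf m sb dg → ℂ) (i : ι) (l : ℕ) :
    MvPolynomial.map (eval p) (us (r := r) e (gnG m sb dg) i l) = us e p i l := by
  have h := uu_map (MvPolynomial.map (σ := JV n r) (eval p))
    (fun α => C (gnG m sb dg ⟨i, α⟩)) (bj e (fun q => X q) (sb i)) l
  rw [c9_us, c9_us, h]
  congr 1
  · funext α
    rw [map_C]
    unfold gnG
    rw [eval_X]
  · funext q
    exact map_X _ _

theorem a2_pow {B : Type*} [CommRing B] (p : Polynomial B) (d : ℕ) :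
    (p ^ d).coeff 1 = (d : B) * p.coeff 0 ^ (d - 1) * p.coeff 1 := by
  have h := congrArg (fun P => Polynomial.coeff P 0) (Polynomial.derivative_pow p d)
  simp only [Polynomial.coeff_derivative, Polynomial.mul_coeff_zero, Polynomial.coeff_C_zero] at h
  have h2 : (p ^ (d - 1)).coeff 0 = p.coeff 0 ^ (d - 1) := by
    rw [← Polynomial.constantCoeff_apply, map_pow, Polynomial.constantCoeff_apply]
  rw [h2] at h
  simpa using h

theorem a2_evd {R : Type} [CommRing R] (e : Co m ≃ Fin n) (a : Cf m sb dg → R) (i : ι)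
    (j : Fin (m (sb i))) :
    HasMon (dg i - 1) 0 (evd j (fun α => C (a ⟨i, α⟩))
      (fun b => bj e (fun q => (X q : MvPolynomial (JV n r) R)) (sb i) (b, 0))) := by
  rw [evd]
  refine HasMon.sum fun α _ => ?_
  by_cases h0 : (α.1 j : ℕ) = 0
  · rw [h0]
    simpa using N2_hasMon_zero
  have h := (HasMon.C (n := n) (r := r) (a ⟨i, α⟩)).mul
    ((HasMon.C (n := n) (r := r) (((α.1 j : ℕ) : ℕ) : R)).mul
    (N2_prod (R := R) (s := Finset.univ)
      (d := fun b : Fin (m (sb i)) => ((α.1 b : ℕ) - (if b = j then 1 else 0)) * 1)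
      (M := fun b : Fin (m (sb i)) => ((α.1 b : ℕ) - (if b = j then 1 else 0)) * 0)
      (P := fun b : Fin (m (sb i)) =>
        (X (e ⟨sb i, b⟩, 0) : MvPolynomial (JV n r) R) ^
          ((α.1 b : ℕ) - (if b = j then 1 else 0)))
        fun b _ => (HasMon.X0 _).pow _))
  rw [map_natCast] at h
  refine h.mono ?_ ?_
  · have h1 : ∑ b, (α.1 b : ℕ) ≤ dg i := α.2
    have h2 : ∑ b, ((α.1 b : ℕ) - (if b = j then 1 else 0)) * 1 + 1 = ∑ b, (α.1 b : ℕ) := by
      rw [← Finset.add_sum_erase _ _ (Finset.mem_univ j), ← Finset.add_sum_erase _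
        (fun b => (α.1 b : ℕ)) (Finset.mem_univ j)]
      have h3 : ∑ b ∈ Finset.univ.erase j, ((α.1 b : ℕ) - (if b = j then 1 else 0)) * 1 =
          ∑ b ∈ Finset.univ.erase j, (α.1 b : ℕ) := by
        refine Finset.sum_congr rfl fun b hb => ?_
        rw [if_neg (Finset.ne_of_mem_erase hb), Nat.sub_zero, mul_one]
      rw [h3]
      simp only [if_true]
      omega
    omega
  · simp

/-- CHUNK A2c.  PROOF.  `uu_zero` (Lib/H89T/N1.lean), `ev_spc` for `φ = C`. -/
theorem us_spc_zero (e : Co m ≃ Fin n) (c : ∀ i : ι, Finset (Fin (m (sb i)))) (i : ι) :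
    us (r := r) e (spc (m := m) (sb := sb) (dg := dg) c) i 0 = ∑ b ∈ c i, X (e ⟨sb i, b⟩, 0) ^ dg i := by
  rw [c9_us, uu_zero]
  exact ev_spc C c i _

/-- CHUNK A2d.  PROOF.  `Fx = ev (Polynomial.C ∘ ..) (arc ..) = ∑ b ∈ c i, (arc ..  b) ^ dg i` (`ev_spc` for `φ = Polynomial.C.comp C`, unfold `us uu Fx`); the coefficient `1` of a
power: `(p ^ d).coeff 1 = d * p.coeff 0 ^ (d - 1) * p.coeff 1` (via `Polynomial.derivative`: `coeff_derivative` at `0`, `Polynomial.derivative_pow`,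
`Polynomial.mul_coeff_zero`, `Polynomial.coeff_zero_eq_eval_zero`, `eval_pow`; or induction on `d` with `Polynomial.mul_coeff_one`); `coeff_arc`. -/
theorem us_spc_one (e : Co m ≃ Fin n) (c : ∀ i : ι, Finset (Fin (m (sb i)))) (i : ι) (one : Fin (r + 1))
    (h1 : (one : ℕ) = 1) :
    us (r := r) e (spc (m := m) (sb := sb) (dg := dg) c) i 1 =
      ∑ b ∈ c i, C (dg i : ℂ) * (X (e ⟨sb i, b⟩, 0) ^ (dg i - 1) * X (e ⟨sb i, b⟩, one)) := by
  rw [c9_us]
  unfold uu Fx
  have h := ev_spc (m := m) (sb := sb) (dg := dg)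
    ((Polynomial.C : MvPolynomial (JV n r) ℂ →+* Polynomial (MvPolynomial (JV n r) ℂ)).comp C)
    c i (arc (bj e (fun q => (X q : MvPolynomial (JV n r) ℂ)) (sb i)))
  have h2 : ev (fun α => Polynomial.C (C (spc (m := m) (sb := sb) (dg := dg) c ⟨i, α⟩)))
      (arc (bj e (fun q => (X q : MvPolynomial (JV n r) ℂ)) (sb i))) =
      ∑ b ∈ c i, arc (bj e (fun q => (X q : MvPolynomial (JV n r) ℂ)) (sb i)) b ^ dg i := h
  rw [h2, Polynomial.finsetSum_coeff]
  refine Finset.sum_congr rfl fun b _ => ?_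
  have h3 : (arc (bj e (fun q => (X q : MvPolynomial (JV n r) ℂ)) (sb i)) b).coeff 1 =
      X (e ⟨sb i, b⟩, one) := by
    rw [coeff_arc, dif_pos (by have := one.2; omega)]
    have h4 : (⟨1, by have := one.2; omega⟩ : Fin (r + 1)) = one := Fin.ext h1.symm
    rw [h4]
    rfl
  rw [a2_pow, N1_arc_zero, h3, map_natCast, mul_assoc]
  rfl

/-- CHUNK A2e.  PROOF.  `uu_zero`; then as `HasMon.u0` (Lib/H89T/N2.lean): `HasMon.sum`, `HasMon.C`, `N2_prod`, `HasMon.pow`, `HasMon.X0`, and `∑ b, α.1 b ≤ dg i`. -/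
theorem hasMon_us_zero {R : Type} [CommRing R] (e : Co m ≃ Fin n) (a : Cf m sb dg → R) (i : ι) :
    HasMon (dg i) 0 (us (r := r) e a i 0) := by
  rw [c9_us, uu_zero, ev]
  refine HasMon.sum fun α _ => ?_
  have h := (HasMon.C (n := n) (r := r) (a ⟨i, α⟩)).mul
    (N2_prod (R := R) (s := Finset.univ) (d := fun b : Fin (m (sb i)) => (α.1 b : ℕ) * 1)
      (M := fun b : Fin (m (sb i)) => (α.1 b : ℕ) * 0) (P := fun b : Fin (m (sb i)) =>
        (X (e ⟨sb i, b⟩, 0) : MvPolynomial (JV n r) R) ^ (α.1 b : ℕ))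
      fun b _ => (HasMon.X0 _).pow _)
  refine h.mono ?_ ?_
  · simpa using α.2
  · simp

/-- CHUNK A2f.  PROOF.  `uu_one` (Lib/H89T/N1.lean): `us e a i 1 = ∑ b, evd b .. * X (e ⟨sb i, b⟩, one)`; `evd b ..` has `HasMon (dg i - 1) 0` (as `HasMon.gR`, Lib/H89T/N2.lean),
`HasMon.X1`. -/
theorem hasMon_us_one {R : Type} [CommRing R] (e : Co m ≃ Fin n) (a : Cf m sb dg → R) (i : ι) (one : Fin (r + 1))
    (h1 : (one : ℕ) = 1) : HasMon (dg i - 1) 1 (us (r := r) e a i 1) := by
  rw [c9_us, uu_one _ _ one h1]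
  refine HasMon.sum fun b _ => ?_
  have hone : one ≠ 0 := by
    intro h
    rw [h] at h1
    exact absurd h1 (by simp)
  have h := (a2_evd (r := r) e a i b).mul (HasMon.X1 (R := R) (e ⟨sb i, b⟩, one) hone)
  exact h.mono (by omega) (by omega)

end Pool.Agent.H89Y
end

-- from Lib.H89Y.A3
section

set_option autoImplicit false

/-!
H89Y, module A: the condition of a pair of factors (definition).
-/

open MvPolynomial

namespace Pool.Agent.H89Y

open Pool.Agent.H89T Pool.Agent.H78G Pool.Agent.H53Y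

variable {β : Type} {m : β → ℕ} {ι : Type} {sb : ι → β} {dg : ι → ℕ} {n r : ℕ}

/-- The multiples by `t` of the monomials in `Mon n r d M` are combinations of the monomials in `κ` modulo the ideal of the pair `(i, i')`. -/
def CondG [DecidableEq ι] (e : Co m ≃ Fin n) (sb : ι → β) (dg : ι → ℕ) (i i' : ι) (d M : ℕ)
    (κ : Set (JV n r →₀ ℕ)) : Prop :=
  ∃ t : MvPolynomial (Cf m sb dg) ℂ, t ≠ 0 ∧ ∀ m' ∈ Mon n r d M, t • monomial m' (1 : MvPolynomial (Cf m sb dg) ℂ) ∈
    (IG e (gnG m sb dg) i i').restrictScalars (MvPolynomial (Cf m sb dg) ℂ) ⊔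
      Submodule.span (MvPolynomial (Cf m sb dg) ℂ)
        ((fun ν => monomial ν (1 : MvPolynomial (Cf m sb dg) ℂ)) '' κ)

end Pool.Agent.H89Y
end

-- from Lib.H89Y.A3a
section

set_option autoImplicit false

/-!
H89Y, CHUNK A3a (M).  Tangency, degree at least `2`.
-/

open MvPolynomial

namespace Pool.Agent.H89Y

open Pool.Agent.H89T Pool.Agent.H78G Pool.Agent.H53Y

variable {β : Type} {m : β → ℕ} {ι : Type} {sb : ι → β} {dg : ι → ℕ} {n r : ℕ}

theorem a3a_lead {σ : Type} {om : σ → ℕ} {A B : σ →₀ ℕ} {a b : ℂ} (ha : a ≠ 0)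
    (h : Finsupp.weight om B < Finsupp.weight om A) :
    Lead om (monomial A a + monomial B b) A := by
  classical
  have hBA : B ≠ A := by
    intro h'
    rw [h'] at h
    exact lt_irrefl _ h
  constructor
  · rw [coeff_add, coeff_monomial, coeff_monomial, if_pos rfl, if_neg hBA, add_zero]
    exact ha
  · intro m' hm'
    rcases Finset.mem_union.1 (support_add hm') with h1 | h1
    · exact Or.inl (Finset.mem_singleton.1 (support_monomial_subset h1))
    · right
      rw [Finset.mem_singleton.1 (support_monomial_subset h1)]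
      exact h

theorem a3a_weight {σ : Type} (om : σ → ℕ) (q : σ) (k : ℕ) :
    Finsupp.weight om (Finsupp.single q k) = k * om q := by
  rw [Finsupp.weight_single, smul_eq_mul]


end Pool.Agent.H89Y
end

-- from Lib.H89Y.A3c
section

set_option autoImplicit false

/-!
H89Y, CHUNK A3c (M).  Crossing of two linear factors of a block of dimension one.
-/

open MvPolynomial

namespace Pool.Agent.H89Y

open Pool.Agent.H89T Pool.Agent.H78G Pool.Agent.H53Y

variable {β : Type} {m : β → ℕ} {ι : Type} {sb : ι → β} {dg : ι → ℕ} {n r : ℕ}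

theorem a3c_pt {β : Type} {m : β → ℕ} {s s' : β} (h : s = s') (p : 0 < m s) (p' : 0 < m s') :
    (⟨s, ⟨0, p⟩⟩ : Co m) = ⟨s', ⟨0, p'⟩⟩ := by
  subst h
  rfl

theorem a3c_us0 (e : Co m ≃ Fin n) (j : ι) (hj : m (sb j) = 1) (hd : dg j = 1)
    (p : 0 < m (sb j)) :
    us (r := r) e (gnG m sb dg) j 0 = C (X ⟨j, ix hd 0⟩) +
      C (X ⟨j, ix hd (Fin.succ ⟨0, p⟩)⟩) * X (e ⟨sb j, ⟨0, p⟩⟩, 0) := by
  unfold us
  rw [uu_zero, ev_ix hd]
  unfold linA
  rw [Finset.sum_eq_single (⟨0, p⟩ : Fin (m (sb j)))]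
  · rfl
  · intro b _ hb
    exact absurd (Fin.ext (by have := b.2; simp only; omega)) hb
  · intro h
    exact absurd (Finset.mem_univ _) h

/-- CHUNK A3c.  PROOF.  Let `b : Fin (m (sb i))` be the only element (`hm`), `b' : Fin (m (sb i'))` the only element; `(⟨sb i, b⟩ : Co m) = ⟨sb i', b'⟩` (`Sigma.ext hs` and `HEq` : both `Fin`
types have one element; or: `Sigma.subtype_ext`, or `obtain` `i'`-block by rewriting: generalize `sb i' = s'` and `subst`).  Let `y = X (e ⟨sb i, b⟩, 0)`.  By `uu_zero` (Lib/H89T/N1.lean) and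
`ev_ix` (C6a) with `linA` (a sum over a one element type: `Fintype.sum_unique`-like, or `Finset.sum_eq_single b`):
`us e gnG i 0 = C (X ⟨i, ix hd 0⟩) + C (X ⟨i, ix hd b.succ⟩) * y`, `us e gnG i' 0 = C (X ⟨i', ix hd' 0⟩) + C (X ⟨i', ix hd' b'.succ⟩) * y`.  With `a0, a1, a0', a1'` for the four variables put
`t = a0 * a1' - a0' * a1`.  `C t = C a1' * us e gnG i 0 - C a1 * us e gnG i' 0 ∈ IG e gnG i i'` (`ring`; `if_neg hii`), so `t • monomial m' 1 = C t * monomial m' 1` is in the ideal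
(`smul_eq_C_mul`, `Ideal.mul_mem_right`, `Submodule.mem_sup_left`).  `t ≠ 0`: evaluate at the point which is `1` at `⟨i, ix hd 0⟩` and at `⟨i', ix hd' b'.succ⟩` and `0` elsewhere
(`i ≠ i'`, so `⟨i', ix hd' 0⟩ ≠ ⟨i, _⟩`, and `ix hd' 0 ≠ ix hd' b'.succ` by `ix_bij`): the value is `1 * 1 - 0 * 0 = 1`. -/
theorem condD [DecidableEq ι] (e : Co m ≃ Fin n) (i i' : ι) (hii : i ≠ i') (hs : sb i = sb i') (hm : m (sb i) = 1)
    (hd : dg i = 1) (hd' : dg i' = 1) (d M : ℕ) :
    CondG (r := r) e sb dg i i' d M ∅ := by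
  have p : 0 < m (sb i) := by omega
  have p' : 0 < m (sb i') := by rw [← hs]; exact p
  have hm' : m (sb i') = 1 := by rw [← hs]; exact hm
  have hy : (e ⟨sb i', ⟨0, p'⟩⟩ : Fin n) = e ⟨sb i, ⟨0, p⟩⟩ :=
    congrArg e (a3c_pt hs.symm p' p)
  have h1 := a3c_us0 (r := r) e i hm hd p
  have h2 := a3c_us0 (r := r) e i' hm' hd' p'
  rw [hy] at h2
  refine ⟨X (⟨i, ix hd 0⟩ : Cf m sb dg) * X (⟨i', ix hd' (Fin.succ ⟨0, p'⟩)⟩ : Cf m sb dg) -
    X (⟨i', ix hd' 0⟩ : Cf m sb dg) * X (⟨i, ix hd (Fin.succ ⟨0, p⟩)⟩ : Cf m sb dg), ?_, ?_⟩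
  · intro h0
    classical
    set A : Cf m sb dg := ⟨i, ix hd 0⟩ with hA
    set D : Cf m sb dg := ⟨i', ix hd' (Fin.succ ⟨0, p'⟩)⟩ with hD
    set B : Cf m sb dg := ⟨i', ix hd' 0⟩ with hB
    have hBA : B ≠ A := by
      intro h
      exact hii (congrArg Sigma.fst h).symm
    have hBD : B ≠ D := by
      intro h
      rw [hB, hD, Sigma.mk.injEq] at h
      have h3 := (ix_bij hd').1 (eq_of_heq h.2)
      exact absurd h3.symm (Fin.succ_ne_zero _)
    have h3 := congrArg (eval (fun x : Cf m sb dg => if x = A ∨ x = D then (1 : ℂ) else 0)) h0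
    simp only [map_sub, map_mul, eval_X, map_zero] at h3
    rw [if_neg (show ¬ (B = A ∨ B = D) from by
      rintro (h | h)
      · exact hBA h
      · exact hBD h)] at h3
    simp at h3
  · intro m' _
    apply Submodule.mem_sup_left
    rw [Submodule.restrictScalars_mem, smul_eq_C_mul]
    apply Ideal.mul_mem_right
    unfold IG
    rw [if_neg hii, Ideal.mem_span_pair]
    refine ⟨C (X (⟨i', ix hd' (Fin.succ ⟨0, p'⟩)⟩ : Cf m sb dg)),
      - C (X (⟨i, ix hd (Fin.succ ⟨0, p⟩)⟩ : Cf m sb dg)), ?_⟩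
    rw [h1, h2, map_sub, map_mul, map_mul]
    ring

end Pool.Agent.H89Y
end

-- from Lib.H49S.S1
section

set_option autoImplicit false

/-!
H49S, part A of `AC_P` (Lib/H53R/IDE.lean): monomials of bounded degrees in every block.  S1: the degrees, the
calculus of `HasMonB`, the derivation `N`, reduction modulo two elements (port of Lib/H89Y/A1.lean).
-/

open MvPolynomial

namespace Pool.Agent.H49S

open Pool.Agent.H89T Pool.Agent.H78G Pool.Agent.H53Y Pool.Agent.H89Y Pool.Agent.H53R Pool.Agent.H78R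

variable {β : Type} [DecidableEq β] {m : β → ℕ} {n r : ℕ}

theorem xdb_add (e : Co m ≃ Fin n) (s : β) (μ μ' : JV n r →₀ ℕ) :
    xdb e s (μ + μ') = xdb e s μ + xdb e s μ' := by
  unfold xdb
  rw [← Finset.sum_add_distrib]
  refine Finset.sum_congr rfl fun b _ => ?_
  split_ifs <;> simp

theorem xdb_le (e : Co m ≃ Fin n) (s : β) (μ : JV n r →₀ ℕ) : xdb e s μ ≤ xd μ := by
  unfold xdb xd
  exact Finset.sum_le_sum fun b _ => by split_ifs <;> simp

theorem xdb_eq_zero (e : Co m ≃ Fin n) (s : β) (μ : JV n r →₀ ℕ)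
    (h : ∀ b, (e.symm b).1 = s → μ (b, 0) = 0) : xdb e s μ = 0 := by
  unfold xdb
  refine Finset.sum_eq_zero fun b _ => ?_
  split_ifs with hb
  · exact h b hb
  · rfl

theorem xd_eq_sum [Fintype β] (e : Co m ≃ Fin n) (μ : JV n r →₀ ℕ) : xd μ = ∑ s, xdb e s μ := by
  unfold xdb xd
  rw [Finset.sum_comm]
  refine Finset.sum_congr rfl fun b _ => ?_
  rw [Finset.sum_ite_eq]
  simp

theorem MonB_sub [Fintype β] (e : Co m ≃ Fin n) (d : β → ℕ) (M : ℕ) :
    MonB e r d M ⊆ Mon n r (∑ s, d s) M := by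
  intro μ hμ
  refine ⟨?_, hμ.2⟩
  rw [xd_eq_sum e]
  exact Finset.sum_le_sum fun s _ => hμ.1 s

theorem MonB_finite [Fintype β] (e : Co m ≃ Fin n) (r : ℕ) (d : β → ℕ) (M : ℕ) :
    (MonB e r d M).Finite :=
  (Mon_finite n r _ M).subset (MonB_sub e d M)

section Calculus

variable {R : Type*} [CommRing R] {e : Co m ≃ Fin n}

theorem hb_mono {d d' : β → ℕ} {M M' : ℕ} {P : MvPolynomial (JV n r) R} (h : HasMonB e d M P)
    (hd : ∀ s, d s ≤ d' s) (hM : M ≤ M') : HasMonB e d' M' P :=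
  fun μ hμ => ⟨fun s => ((h μ hμ).1 s).trans (hd s), (h μ hμ).2.trans hM⟩

theorem hb_add {d : β → ℕ} {M : ℕ} {P Q : MvPolynomial (JV n r) R} (hP : HasMonB e d M P)
    (hQ : HasMonB e d M Q) : HasMonB e d M (P + Q) := by
  classical
  intro μ hμ
  rcases Finset.mem_union.mp (support_add hμ) with h | h
  · exact hP μ h
  · exact hQ μ h

theorem hb_mul {d d' : β → ℕ} {M M' : ℕ} {P Q : MvPolynomial (JV n r) R} (hP : HasMonB e d M P)
    (hQ : HasMonB e d' M' Q) : HasMonB e (fun s => d s + d' s) (M + M') (P * Q) := by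
  classical
  intro μ hμ
  obtain ⟨a, ha, b, hb, rfl⟩ := Finset.mem_add.mp (support_mul _ _ hμ)
  refine ⟨fun s => ?_, ?_⟩
  · rw [xdb_add]
    exact add_le_add ((hP a ha).1 s) ((hQ b hb).1 s)
  · rw [jd_add]
    exact add_le_add (hP a ha).2 (hQ b hb).2

theorem hb_zero {d : β → ℕ} {M : ℕ} : HasMonB e d M (0 : MvPolynomial (JV n r) R) := by
  intro μ hμ
  simp at hμ

theorem hb_sum {ι : Type*} {s : Finset ι} {d : β → ℕ} {M : ℕ} {P : ι → MvPolynomial (JV n r) R}
    (hP : ∀ i ∈ s, HasMonB e d M (P i)) : HasMonB e d M (∑ i ∈ s, P i) := by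
  classical
  induction s using Finset.induction_on with
  | empty =>
    rw [Finset.sum_empty]
    exact hb_zero
  | insert a s ha ih =>
    rw [Finset.sum_insert ha]
    exact hb_add (hP a (Finset.mem_insert_self _ _))
      (ih fun i hi => hP i (Finset.mem_insert_of_mem hi))

theorem hb_monomial {d : β → ℕ} {M : ℕ} {μ : JV n r →₀ ℕ} (h1 : ∀ s, xdb e s μ ≤ d s)
    (h2 : jd μ ≤ M) (c : R) : HasMonB e d M (monomial μ c) := by
  intro m' hm'
  have := Finset.mem_singleton.mp (support_monomial_subset hm')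
  subst this
  exact ⟨h1, h2⟩

theorem hb_C (c : R) : HasMonB (r := r) e (fun _ => 0) 0 (C c) :=
  hb_monomial (fun s => by simp [xdb]) (by simp [jd]) c

theorem hb_smul {d : β → ℕ} {M : ℕ} (c : R) {P : MvPolynomial (JV n r) R} (hP : HasMonB e d M P) :
    HasMonB e d M (c • P) := by
  intro μ hμ
  exact hP μ (support_smul hμ)

theorem hb_X1 (p : JV n r) (hp : p.2 ≠ 0) : HasMonB (R := R) e (fun _ => 0) 1 (X p) := by
  refine hb_monomial (fun s => ?_) ?_ 1
  · refine le_of_eq (xdb_eq_zero e s _ fun b _ => ?_)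
    rw [Finsupp.single_eq_of_ne]
    rintro rfl
    exact hp rfl
  · refine le_of_eq ?_
    rw [jd, Finset.sum_eq_single p]
    · simp [hp]
    · intro q _ hq
      split_ifs
      · rfl
      · rw [Finsupp.single_eq_of_ne hq]
    · intro h
      exact absurd (Finset.mem_univ _) h

theorem hb_NN {d : β → ℕ} {M : ℕ} {P : MvPolynomial (JV n r) R} (hP : HasMonB e d M P) :
    HasMonB e d (M + 1) (NN n r R P) := by
  classical
  rw [P.as_sum, map_sum]
  refine hb_sum fun μ hμ => ?_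
  obtain ⟨h1, h2⟩ := hP μ hμ
  rw [Pool.Agent.H89T.NN, mkDerivation_monomial]
  refine hb_smul _ ?_
  rw [Finsupp.sum]
  refine hb_sum fun p hp => ?_
  have hp0 : μ p ≠ 0 := Finsupp.mem_support_iff.mp hp
  have hle : Finsupp.single p 1 ≤ μ := by
    rw [Finsupp.single_le_iff]
    omega
  have hsum : μ - Finsupp.single p 1 + Finsupp.single p 1 = μ := tsub_add_cancel_of_le hle
  rw [smul_eq_mul]
  have hx : ∀ s, xdb e s (μ - Finsupp.single p 1) + xdb e s (Finsupp.single p 1) = xdb e s μ := by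
    intro s
    rw [← xdb_add, hsum]
  have hj : jd (μ - Finsupp.single p 1) + jd (Finsupp.single p 1) = jd μ := by
    rw [← jd_add, hsum]
  split_ifs with h
  · have hX : HasMonB (R := R) e (fun _ => 0) 1 (X (p.1, (⟨(p.2 : ℕ) + 1, by omega⟩ : Fin (r + 1)))) :=
      hb_X1 _ (by
        intro h'
        have := congrArg Fin.val h'
        simp at this)
    have h3 := hb_mul (hb_monomial (R := R) (d := fun s => xdb e s (μ - Finsupp.single p 1))
      (fun s => le_refl (xdb e s (μ - Finsupp.single p 1)))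
      (le_refl (jd (μ - Finsupp.single p 1))) ((μ p : ℕ) : R))
        (hb_mul (hb_C (r := r) (e := e) (((p.2 : ℕ) + 1 : ℕ) : R)) hX)
    have hC : ((p.2 : ℕ) + 1) • (X (p.1, (⟨(p.2 : ℕ) + 1, by omega⟩ : Fin (r + 1))) :
        MvPolynomial (JV n r) R) = MvPolynomial.C (((p.2 : ℕ) + 1 : ℕ) : R) *
          X (p.1, (⟨(p.2 : ℕ) + 1, by omega⟩ : Fin (r + 1))) := by
      rw [map_natCast, nsmul_eq_mul]
    rw [hC]
    refine hb_mono h3 (fun s => ?_) ?_
    · have := hx s
      have := h1 s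
      omega
    · omega
  · rw [mul_zero]
    exact hb_zero

theorem hb_NN_iterate {d : β → ℕ} {M : ℕ} {P : MvPolynomial (JV n r) R} (hP : HasMonB e d M P)
    (l : ℕ) : HasMonB e d (M + l) ((Pool.Agent.H89T.NN n r R)^[l] P) := by
  induction l with
  | zero => exact hP
  | succ l ih =>
    rw [Function.iterate_succ_apply', ← add_assoc]
    exact hb_NN ih

/-- A multiple of a polynomial with monomials in `MonB` belongs to a submodule which contains the
multiples of the monomials. -/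
theorem hb_smul_mem {R : Type} [CommRing R] {d : β → ℕ} {M : ℕ}
    {N : Submodule R (MvPolynomial (JV n r) R)}
    {t : R} (h : ∀ μ ∈ MonB e r d M, t • monomial μ (1 : R) ∈ N)
    {P : MvPolynomial (JV n r) R} (hP : HasMonB e d M P) : t • P ∈ N := by
  rw [P.as_sum, Finset.smul_sum]
  refine Submodule.sum_mem _ fun μ hμ => ?_
  have : t • monomial μ (coeff μ P) = coeff μ P • (t • monomial μ (1 : R)) := by
    rw [smul_monomial, smul_monomial, smul_monomial]
    congr 1
    simp [mul_comm]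
  rw [this]
  exact Submodule.smul_mem _ _ (h μ (hP μ hμ))

theorem hb_of_mem {R : Type} [CommRing R] {d : β → ℕ} {M : ℕ} {μ : JV n r →₀ ℕ}
    (hμ : μ ∈ MonB e r d M) (c : R) : HasMonB e d M (monomial μ c) :=
  hb_monomial hμ.1 hμ.2 c

end Calculus

/-- One condition: reduction modulo two elements of an ideal at a special point of the parameters. -/
theorem onecondB [Fintype β] {τ : Type} (e : Co m ≃ Fin n) (p : τ → ℂ)
    (J : Ideal (MvPolynomial (JV n r) (MvPolynomial τ ℂ))) {d : β → ℕ} {M : ℕ} (om : JV n r → ℕ)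
    (w : Fin 2 → MvPolynomial (JV n r) (MvPolynomial τ ℂ)) (hw : ∀ j, w j ∈ J)
    (u : Fin 2 → (JV n r →₀ ℕ)) (hu : ∀ j, Lead om (MvPolynomial.map (eval p) (w j)) (u j))
    (hs : ∀ j, ∀ m' ∈ (w j).support, (∀ s, xdb e s m' ≤ xdb e s (u j)) ∧ jd m' ≤ jd (u j)) :
    ∃ t : MvPolynomial τ ℂ, t ≠ 0 ∧ ∀ μ ∈ MonB e r d M, t • monomial μ (1 : MvPolynomial τ ℂ) ∈
      J.restrictScalars (MvPolynomial τ ℂ) ⊔ Submodule.span (MvPolynomial τ ℂ)
        ((fun μ => monomial μ (1 : MvPolynomial τ ℂ)) ''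
          {μ | μ ∈ MonB e r d M ∧ ¬ u 0 ≤ μ ∧ ¬ u 1 ≤ μ}) := by
  classical
  obtain ⟨N, hN⟩ : ∃ N : Submodule (MvPolynomial τ ℂ) (MvPolynomial (JV n r) (MvPolynomial τ ℂ)),
    N = J.restrictScalars (MvPolynomial τ ℂ) ⊔ Submodule.span (MvPolynomial τ ℂ)
        ((fun μ => monomial μ (1 : MvPolynomial τ ℂ)) ''
          {μ | μ ∈ MonB e r d M ∧ ¬ u 0 ≤ μ ∧ ¬ u 1 ≤ μ}) := ⟨_, rfl⟩
  rw [← hN]
  let V : Submodule ℂ (MvPolynomial (JV n r) ℂ) :=
    { carrier := {f | ∃ G ∈ N, (∀ m' ∈ G.support, m' ∈ MonB e r d M) ∧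
        MvPolynomial.map (eval p) G = f}
      add_mem' := by
        rintro f g ⟨G, hG, hG1, hG2⟩ ⟨H, hH, hH1, hH2⟩
        refine ⟨G + H, N.add_mem hG hH, fun m' hm' => ?_, by rw [map_add, hG2, hH2]⟩
        rcases Finset.mem_union.mp (support_add hm') with h | h
        · exact hG1 m' h
        · exact hH1 m' h
      zero_mem' := ⟨0, N.zero_mem, fun m' hm' => by simp at hm', map_zero _⟩
      smul_mem' := by
        rintro c f ⟨G, hG, hG1, hG2⟩
        refine ⟨(C c : MvPolynomial τ ℂ) • G, N.smul_mem _ hG,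
          fun m' hm' => hG1 m' (support_smul hm'), ?_⟩
        rw [smul_eq_C_mul, map_mul, map_C, eval_C, hG2, ← smul_eq_C_mul] }
  have hV : ∀ μ ∈ MonB e r d M, MvPolynomial.monomial μ (1 : ℂ) ∈ V := by
    refine span_of_lead (MonB e r d M) om V ?_
    intro μ hμ
    by_cases hj : ∃ j, u j ≤ μ
    · obtain ⟨j, hj⟩ := hj
      have hsum : μ - u j + u j = μ := tsub_add_cancel_of_le hj
      have hx : ∀ s, xdb e s (μ - u j) + xdb e s (u j) = xdb e s μ := fun s => by
        rw [← xdb_add, hsum]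
      have hjd : jd (μ - u j) + jd (u j) = jd μ := by rw [← jd_add, hsum]
      have hsup : ∀ m' ∈ (monomial (μ - u j) (1 : MvPolynomial τ ℂ) * w j).support,
          m' ∈ MonB e r d M := by
        intro m' hm'
        obtain ⟨a, ha, b, hb, rfl⟩ := Finset.mem_add.mp (support_mul _ _ hm')
        have ha' := Finset.mem_singleton.mp (support_monomial_subset ha)
        subst ha'
        obtain ⟨h1, h2⟩ := hs j b hb
        have h3 := hμ.1
        have h4 : jd μ ≤ M := hμ.2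
        refine ⟨fun s => ?_, ?_⟩
        · rw [xdb_add]
          have := h1 s
          have := h3 s
          have := hx s
          omega
        · rw [jd_add]
          omega
      have hmap : MvPolynomial.map (eval p) (monomial (μ - u j) (1 : MvPolynomial τ ℂ) * w j) =
          monomial (μ - u j) (1 : ℂ) * MvPolynomial.map (eval p) (w j) := by
        rw [map_mul, map_monomial, map_one]
      refine ⟨monomial (μ - u j) (1 : ℂ) * MvPolynomial.map (eval p) (w j),
        ⟨monomial (μ - u j) (1 : MvPolynomial τ ℂ) * w j, ?_, hsup, hmap⟩, ?_, ?_⟩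
      · rw [hN]
        exact Submodule.mem_sup_left (Ideal.mul_mem_left J _ (hw j))
      · have h1 := (Lead.monomial om (μ - u j) (one_ne_zero (α := ℂ))).mul (hu j)
        rw [hsum] at h1
        exact h1
      · intro m' hm'
        rw [← hmap] at hm'
        exact hsup m' (support_map_subset _ _ hm')
    · have h0 : ¬ u 0 ≤ μ := fun h => hj ⟨0, h⟩
      have h1 : ¬ u 1 ≤ μ := fun h => hj ⟨1, h⟩
      refine ⟨monomial μ 1, ⟨monomial μ 1, ?_, ?_, ?_⟩, Lead.monomial om μ one_ne_zero, ?_⟩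
      · rw [hN]
        exact Submodule.mem_sup_right (Submodule.subset_span ⟨μ, ⟨hμ, h0, h1⟩, rfl⟩)
      · intro m' hm'
        rw [Finset.mem_singleton.mp (support_monomial_subset hm')]
        exact hμ
      · rw [map_monomial, map_one]
      · intro m' hm'
        rw [Finset.mem_singleton.mp (support_monomial_subset hm')]
        exact hμ
  have key : ∀ μ ∈ (MonB_finite e r d M).toFinset, ∃ G ∈ N,
      (∀ m' ∈ G.support, m' ∈ (MonB_finite e r d M).toFinset) ∧
        MvPolynomial.map (eval p) G = monomial μ 1 := by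
    intro μ hμ
    obtain ⟨G, hG, hG1, hG2⟩ := hV μ ((MonB_finite e r d M).mem_toFinset.mp hμ)
    exact ⟨G, hG, fun m' hm' => (MonB_finite e r d M).mem_toFinset.mpr (hG1 m' hm'), hG2⟩
  obtain ⟨t, ht, h⟩ := exists_smul_mem p (MonB_finite e r d M).toFinset N key
  exact ⟨t, ht, fun μ hμ => h μ ((MonB_finite e r d M).mem_toFinset.mpr hμ)⟩

end Pool.Agent.H49S
end

-- from Lib.H49S.S2
section

set_option autoImplicit false

/-!
H49S, S2: the degrees of the Taylor coefficients of a factor (only the coordinates of its block occur).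
-/

open MvPolynomial

namespace Pool.Agent.H49S

open Pool.Agent.H89T Pool.Agent.H78G Pool.Agent.H53Y Pool.Agent.H89Y Pool.Agent.H53R Pool.Agent.H78R

variable {β : Type} [DecidableEq β] {m : β → ℕ} {ι : Type} {sb : ι → β} {dg : ι → ℕ} {n r : ℕ}

theorem us_block {R : Type} [CommRing R] (e : Co m ≃ Fin n) (a : Cf m sb dg → R) (i : ι) (l : ℕ) :
    ∀ μ ∈ (us (r := r) e a i l).support, ∀ q : JV n r, (e.symm q.1).1 ≠ sb i → μ q = 0 := by
  classical
  intro μ hμ q hq
  have h1 : us (r := r) e a i l =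
      rename (fun q : JV (m (sb i)) r => ((e ⟨sb i, q.1⟩, q.2) : JV n r))
        (uu (fun α => (C (a ⟨i, α⟩) : MvPolynomial (JV (m (sb i)) r) R)) (fun q => X q) l) := by
    have h2 := uu_map (rename (R := R)
      (fun q : JV (m (sb i)) r => ((e ⟨sb i, q.1⟩, q.2) : JV n r))).toRingHom
      (fun α => (C (a ⟨i, α⟩) : MvPolynomial (JV (m (sb i)) r) R)) (fun q => X q) l
    rw [c9_us]
    refine Eq.trans ?_ h2.symm
    have h3 : (fun α => (C (a ⟨i, α⟩) : MvPolynomial (JV n r) R)) =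
        fun α => (rename (R := R)
          (fun q : JV (m (sb i)) r => ((e ⟨sb i, q.1⟩, q.2) : JV n r))).toRingHom
          (C (a ⟨i, α⟩) : MvPolynomial (JV (m (sb i)) r) R) := by
      funext α
      show _ = rename _ (C (a ⟨i, α⟩) : MvPolynomial (JV (m (sb i)) r) R)
      rw [rename_C]
    have h4 : (bj e (fun q => (X q : MvPolynomial (JV n r) R)) (sb i)) =
        fun q : JV (m (sb i)) r => (rename (R := R)
          (fun q : JV (m (sb i)) r => ((e ⟨sb i, q.1⟩, q.2) : JV n r))).toRingHom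
          (X q : MvPolynomial (JV (m (sb i)) r) R) := by
      funext q
      show _ = rename _ (X q : MvPolynomial (JV (m (sb i)) r) R)
      rw [rename_X]
      rfl
    rw [h3, h4]
  rw [h1, mem_support_iff] at hμ
  obtain ⟨u, hu, -⟩ := coeff_rename_ne_zero _ _ _ hμ
  rw [← hu]
  refine Finsupp.mapDomain_of_notMem_range _ _ ?_
  rintro ⟨p, hp⟩
  apply hq
  rw [← hp]
  simp

/-- The degrees of the value of a factor. -/
theorem us_deg0 {R : Type} [CommRing R] (e : Co m ≃ Fin n) (a : Cf m sb dg → R) (i : ι) :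
    HasMonB e (fun s => if s = sb i then dg i else 0) 0 (us (r := r) e a i 0) := by
  intro μ hμ
  have h := hasMon_us_zero (r := r) e a i μ hμ
  refine ⟨fun s => ?_, h.2⟩
  show xdb e s μ ≤ if s = sb i then dg i else 0
  split_ifs with hs
  · exact (xdb_le e s μ).trans h.1
  · refine le_of_eq (xdb_eq_zero e s μ fun b hb => us_block e a i 0 μ hμ (b, 0) ?_)
    rw [hb]
    exact hs

/-- The degrees of the first derivative of a factor. -/
theorem us_deg1 {R : Type} [CommRing R] (e : Co m ≃ Fin n) (a : Cf m sb dg → R) (i : ι)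
    (one : Fin (r + 1)) (h1 : (one : ℕ) = 1) :
    HasMonB e (fun s => if s = sb i then dg i - 1 else 0) 1 (us (r := r) e a i 1) := by
  intro μ hμ
  have h := hasMon_us_one (r := r) e a i one h1 μ hμ
  refine ⟨fun s => ?_, h.2⟩
  show xdb e s μ ≤ if s = sb i then dg i - 1 else 0
  split_ifs with hs
  · exact (xdb_le e s μ).trans h.1
  · refine le_of_eq (xdb_eq_zero e s μ fun b hb => us_block e a i 1 μ hμ (b, 0) ?_)
    rw [hb]
    exact hs

/-- The degrees of a power of a coordinate. -/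
theorem xdb_single0 (e : Co m ≃ Fin n) (s : β) (b : Co m) (k : ℕ) :
    xdb e s (Finsupp.single ((e b, 0) : JV n r) k) = if s = b.1 then k else 0 := by
  unfold xdb
  rw [Finset.sum_eq_single (e b)]
  · rw [Equiv.symm_apply_apply, Finsupp.single_eq_same]
    by_cases h : s = b.1
    · rw [if_pos h, if_pos h.symm]
    · rw [if_neg h, if_neg (fun h' => h h'.symm)]
  · intro b' _ hb'
    split_ifs
    · rw [Finsupp.single_eq_of_ne]
      intro h
      exact hb' (congrArg Prod.fst h)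
    · rfl
  · intro h
    exact absurd (Finset.mem_univ _) h

theorem xdb_single1 (e : Co m ≃ Fin n) (s : β) (q : JV n r) (hq : q.2 ≠ 0) (k : ℕ) :
    xdb e s (Finsupp.single q k) = 0 := by
  refine xdb_eq_zero e s _ fun b _ => ?_
  rw [Finsupp.single_eq_of_ne]
  rintro rfl
  exact hq rfl

end Pool.Agent.H49S
end

-- from Lib.H49S.S3
section

set_option autoImplicit false

/-!
H49S, S3: the conditions of a pair of factors (port of Lib/H89Y/A3, A3a, A3b, A3c).
-/

open MvPolynomial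

namespace Pool.Agent.H49S

open Pool.Agent.H89T Pool.Agent.H78G Pool.Agent.H53Y Pool.Agent.H89Y Pool.Agent.H53R Pool.Agent.H78R

variable {β : Type} [DecidableEq β] {m : β → ℕ} {ι : Type} {sb : ι → β} {dg : ι → ℕ} {n r : ℕ}

/-- The multiples by `t` of the monomials in `MonB` are combinations of the monomials in `κ` modulo the ideal
of the pair `(i, i')`. -/
def CondB [DecidableEq ι] (e : Co m ≃ Fin n) (sb : ι → β) (dg : ι → ℕ) (i i' : ι) (d : β → ℕ) (M : ℕ)
    (κ : Set (JV n r →₀ ℕ)) : Prop :=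
  ∃ t : MvPolynomial (Cf m sb dg) ℂ, t ≠ 0 ∧ ∀ μ ∈ MonB e r d M,
    t • monomial μ (1 : MvPolynomial (Cf m sb dg) ℂ) ∈
    (IG e (gnG m sb dg) i i').restrictScalars (MvPolynomial (Cf m sb dg) ℂ) ⊔
      Submodule.span (MvPolynomial (Cf m sb dg) ℂ)
        ((fun ν => monomial ν (1 : MvPolynomial (Cf m sb dg) ℂ)) '' κ)

theorem CondB.weaken [DecidableEq ι] {e : Co m ≃ Fin n} {i i' : ι} {d : β → ℕ} {M : ℕ}
    {κ κ' : Set (JV n r →₀ ℕ)} (h : CondB e sb dg i i' d M κ) (hκ : κ ⊆ κ') :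
    CondB e sb dg i i' d M κ' := by
  obtain ⟨t, ht, H⟩ := h
  refine ⟨t, ht, fun μ hμ => ?_⟩
  obtain ⟨y, hy, z, hz, hyz⟩ := Submodule.mem_sup.1 (H μ hμ)
  exact Submodule.mem_sup.2 ⟨y, hy, z, Submodule.span_mono (Set.image_mono hκ) hz, hyz⟩

/-- Tangency, degree at least `2`. -/
theorem condT' [Fintype β] [DecidableEq ι] (e : Co m ≃ Fin n) (i : ι) (hd : 2 ≤ dg i)
    (b1 b2 : Fin (m (sb i))) (hb : b1 ≠ b2)
    (one : Fin (r + 1)) (h1 : (one : ℕ) = 1) (d : β → ℕ) (M : ℕ) :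
    CondB (r := r) e sb dg i i d M {μ | μ ∈ MonB e r d M ∧ μ (e ⟨sb i, b1⟩, 0) < dg i ∧
      (μ (e ⟨sb i, b2⟩, 0) < dg i ∨ μ (e ⟨sb i, b2⟩, one) = 0)} := by
  classical
  have hone : one ≠ 0 := by
    intro h
    rw [h] at h1
    exact absurd h1 (by simp)
  have hq : e ⟨sb i, b1⟩ ≠ e ⟨sb i, b2⟩ := by
    intro h
    have h2 := e.injective h
    simp only [Sigma.mk.injEq, heq_eq_eq, true_and] at h2
    exact hb h2
  obtain ⟨q1, hq1⟩ : ∃ q1, q1 = e ⟨sb i, b1⟩ := ⟨_, rfl⟩
  obtain ⟨q2, hq2⟩ : ∃ q2, q2 = e ⟨sb i, b2⟩ := ⟨_, rfl⟩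
  rw [← hq1, ← hq2] at hq ⊢
  have hne : ∀ b b' : Fin n, ((b, 0) : JV n r) ≠ (b', one) := by
    intro b b' h
    exact hone (congrArg Prod.snd h).symm
  have hne1 : ((q2, 0) : JV n r) ≠ (q1, 0) := fun h => hq (congrArg Prod.fst h).symm
  have hne2 : ((q1, one) : JV n r) ≠ (q2, one) := fun h => hq (congrArg Prod.fst h)
  let c : ∀ j : ι, Finset (Fin (m (sb j))) := Function.update (fun _ => ∅) i {b1, b2}
  have hc : c i = {b1, b2} := Function.update_self _ _ _
  let p : Cf m sb dg → ℂ := spc (m := m) (sb := sb) (dg := dg) c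
  let om : JV n r → ℕ := fun q => if q = (q1, 0) then 1 else if q = (q2, one) then dg i + 1 else 0
  have om1 : om (q1, 0) = 1 := if_pos rfl
  have om2 : om (q2, one) = dg i + 1 := by
    show (if (q2, one) = (q1, 0) then 1 else if (q2, one) = (q2, one) then dg i + 1 else 0) = _
    rw [if_neg (hne q1 q2).symm, if_pos rfl]
  have om3 : om (q2, 0) = 0 := by
    show (if (q2, 0) = (q1, 0) then 1 else if (q2, 0) = (q2, one) then dg i + 1 else 0) = _
    rw [if_neg hne1, if_neg (hne q2 q2)]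
  have om4 : om (q1, one) = 0 := by
    show (if (q1, one) = (q1, 0) then 1 else if (q1, one) = (q2, one) then dg i + 1 else 0) = _
    rw [if_neg (hne q1 q1).symm, if_neg hne2]
  have hu0 : MvPolynomial.map (eval p) (us (r := r) e (gnG m sb dg) i 0) =
      monomial (Finsupp.single (q1, 0) (dg i)) 1 + monomial (Finsupp.single (q2, 0) (dg i)) 1 := by
    rw [map_us, us_spc_zero, hc, Finset.sum_pair hb, X_pow_eq_monomial, X_pow_eq_monomial, hq1, hq2]
  have hm6 : ∀ b : Fin n, (C (dg i : ℂ) * (X (b, 0) ^ (dg i - 1) * X (b, one)) :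
      MvPolynomial (JV n r) ℂ) =
      monomial (Finsupp.single ((b, 0) : JV n r) (dg i - 1) + Finsupp.single (b, one) 1)
        (dg i : ℂ) := by
    intro b
    rw [X_pow_eq_monomial, X, monomial_mul, C_mul_monomial, one_mul, mul_one]
  have hu1 : MvPolynomial.map (eval p) (us (r := r) e (gnG m sb dg) i 1) =
      monomial (Finsupp.single (q2, 0) (dg i - 1) + Finsupp.single (q2, one) 1) (dg i : ℂ) +
      monomial (Finsupp.single (q1, 0) (dg i - 1) + Finsupp.single (q1, one) 1) (dg i : ℂ) := by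
    rw [map_us, us_spc_one e c i one h1, hc, Finset.sum_pair hb, hm6, hm6, add_comm, hq1, hq2]
  have hkC : (dg i : ℂ) ≠ 0 := by
    exact_mod_cast (by omega : dg i ≠ 0)
  have hIG : IG (r := r) e (gnG m sb dg) i i =
      Ideal.span {us e (gnG m sb dg) i 0, us e (gnG m sb dg) i 1} := by
    unfold IG
    rw [if_pos rfl]
  have key := onecondB (n := n) (r := r) e p (IG e (gnG m sb dg) i i) (d := d) (M := M) om
    ![us e (gnG m sb dg) i 0, us e (gnG m sb dg) i 1]
    (by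
      rw [Fin.forall_fin_two, hIG]
      exact ⟨Ideal.subset_span (Set.mem_insert _ _),
        Ideal.subset_span (Set.mem_insert_of_mem _ (Set.mem_singleton _))⟩)
    ![Finsupp.single (q1, 0) (dg i), Finsupp.single (q2, 0) (dg i - 1) + Finsupp.single (q2, one) 1]
    (by
      rw [Fin.forall_fin_two]
      constructor
      · show Lead om (MvPolynomial.map (eval p) (us (r := r) e (gnG m sb dg) i 0))
          (Finsupp.single (q1, 0) (dg i))
        rw [hu0]
        refine a3a_lead one_ne_zero ?_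
        rw [a3a_weight, a3a_weight, om1, om3]
        omega
      · show Lead om (MvPolynomial.map (eval p) (us (r := r) e (gnG m sb dg) i 1))
          (Finsupp.single (q2, 0) (dg i - 1) + Finsupp.single (q2, one) 1)
        rw [hu1]
        refine a3a_lead hkC ?_
        rw [map_add, map_add, a3a_weight, a3a_weight, a3a_weight, a3a_weight, om1, om2, om3, om4]
        omega)
    (by
      rw [Fin.forall_fin_two]
      constructor
      · show ∀ m' ∈ (us (r := r) e (gnG m sb dg) i 0).support,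
          (∀ s, xdb e s m' ≤ xdb e s (Finsupp.single ((q1, 0) : JV n r) (dg i))) ∧
            jd m' ≤ jd (Finsupp.single ((q1, 0) : JV n r) (dg i))
        intro m' hm'
        have h5 := us_deg0 e (gnG m sb dg) i m' hm'
        refine ⟨fun s => ?_, ?_⟩
        · rw [hq1, xdb_single0]
          exact h5.1 s
        · exact h5.2.trans (Nat.zero_le _)
      · show ∀ m' ∈ (us (r := r) e (gnG m sb dg) i 1).support,
          (∀ s, xdb e s m' ≤ xdb e s
            (Finsupp.single ((q2, 0) : JV n r) (dg i - 1) + Finsupp.single (q2, one) 1)) ∧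
            jd m' ≤ jd (Finsupp.single ((q2, 0) : JV n r) (dg i - 1) + Finsupp.single (q2, one) 1)
        intro m' hm'
        have h5 := us_deg1 e (gnG m sb dg) i one h1 m' hm'
        refine ⟨fun s => ?_, ?_⟩
        · rw [xdb_add, hq2, xdb_single0, xdb_single1 e s _ hone, add_zero]
          exact h5.1 s
        · rw [jd_add, A2_jd_single1 _ hone]
          exact h5.2.trans (Nat.le_add_left _ _))
  obtain ⟨t, ht, H⟩ := key
  refine CondB.weaken ⟨t, ht, H⟩ ?_
  rintro ν ⟨hν, h3, h4⟩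
  have h3' : ¬ Finsupp.single ((q1, 0) : JV n r) (dg i) ≤ ν := h3
  have h4' : ¬ (Finsupp.single ((q2, 0) : JV n r) (dg i - 1) + Finsupp.single (q2, one) 1) ≤ ν := h4
  refine ⟨hν, ?_, ?_⟩
  · rw [Finsupp.single_le_iff] at h3'
    omega
  · by_contra hcon
    push Not at hcon
    obtain ⟨hn1, hn2⟩ := hcon
    apply h4'
    intro q
    rw [Finsupp.add_apply]
    by_cases hp : q = (q2, 0)
    · rw [hp, Finsupp.single_eq_same, Finsupp.single_eq_of_ne (hne q2 q2)]
      omega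
    · rw [Finsupp.single_eq_of_ne hp, zero_add]
      by_cases hp' : q = (q2, one)
      · rw [hp', Finsupp.single_eq_same]
        omega
      · rw [Finsupp.single_eq_of_ne hp']
        exact Nat.zero_le _

/-- Tangency of a linear factor. -/
theorem condL' [Fintype β] [DecidableEq ι] (e : Co m ≃ Fin n) (i : ι) (hd : dg i = 1)
    (b : Fin (m (sb i)))
    (one : Fin (r + 1)) (h1 : (one : ℕ) = 1) (d : β → ℕ) (M : ℕ) :
    CondB (r := r) e sb dg i i d M
      {μ | μ ∈ MonB e r d M ∧ μ (e ⟨sb i, b⟩, 0) < 1 ∧ μ (e ⟨sb i, b⟩, one) = 0} := by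
  have hone : one ≠ 0 := by
    intro h
    rw [h] at h1
    exact absurd h1 (by simp)
  obtain ⟨c, hc⟩ : ∃ c : ∀ i : ι, Finset (Fin (m (sb i))), c i = {b} := by
    classical
    exact ⟨Function.update (fun _ => ∅) i {b}, Function.update_self ..⟩
  have hI0 : us (r := r) e (gnG m sb dg) i 0 ∈ IG (r := r) e (gnG m sb dg) i i := by
    unfold IG
    rw [if_pos rfl]
    exact Ideal.subset_span (Set.mem_insert _ _)
  have hI1 : us (r := r) e (gnG m sb dg) i 1 ∈ IG (r := r) e (gnG m sb dg) i i := by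
    unfold IG
    rw [if_pos rfl]
    exact Ideal.subset_span (Set.mem_insert_of_mem _ rfl)
  have hE0 : MvPolynomial.map (eval (spc (m := m) (sb := sb) (dg := dg) c))
      (us (r := r) e (gnG m sb dg) i 0) =
        MvPolynomial.monomial (Finsupp.single (e ⟨sb i, b⟩, 0) 1) 1 := by
    rw [map_us, us_spc_zero, hc, Finset.sum_singleton, hd, pow_one]
    rfl
  have hE1 : MvPolynomial.map (eval (spc (m := m) (sb := sb) (dg := dg) c))
      (us (r := r) e (gnG m sb dg) i 1) =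
        MvPolynomial.monomial (Finsupp.single (e ⟨sb i, b⟩, one) 1) 1 := by
    rw [map_us, us_spc_one e c i one h1, hc, Finset.sum_singleton, hd, Nat.cast_one, map_one,
      one_mul, Nat.sub_self, pow_zero, one_mul]
    rfl
  obtain ⟨t, ht, h⟩ := onecondB (r := r) e (spc (m := m) (sb := sb) (dg := dg) c)
    (IG (r := r) e (gnG m sb dg) i i) (d := d) (M := M) (fun _ => 0)
    ![us (r := r) e (gnG m sb dg) i 0, us (r := r) e (gnG m sb dg) i 1]
    (by
      rw [Fin.forall_fin_two]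
      exact ⟨hI0, hI1⟩)
    ![Finsupp.single (e ⟨sb i, b⟩, 0) 1, Finsupp.single (e ⟨sb i, b⟩, one) 1]
    (by
      rw [Fin.forall_fin_two]
      constructor
      · show Lead _ (MvPolynomial.map (eval (spc (m := m) (sb := sb) (dg := dg) c))
          (us (r := r) e (gnG m sb dg) i 0)) (Finsupp.single (e ⟨sb i, b⟩, 0) 1)
        rw [hE0]
        exact Lead.monomial _ _ one_ne_zero
      · show Lead _ (MvPolynomial.map (eval (spc (m := m) (sb := sb) (dg := dg) c))
          (us (r := r) e (gnG m sb dg) i 1)) (Finsupp.single (e ⟨sb i, b⟩, one) 1)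
        rw [hE1]
        exact Lead.monomial _ _ one_ne_zero)
    (by
      rw [Fin.forall_fin_two]
      constructor
      · intro m' hm'
        show (∀ s, xdb e s m' ≤ xdb e s (Finsupp.single (e ⟨sb i, b⟩, (0 : Fin (r + 1))) 1)) ∧
          jd m' ≤ jd (Finsupp.single (e ⟨sb i, b⟩, (0 : Fin (r + 1))) 1)
        have h5 := us_deg0 (r := r) e (gnG m sb dg) i m' hm'
        refine ⟨fun s => ?_, h5.2.trans (Nat.zero_le _)⟩
        rw [xdb_single0]
        have h6 := h5.1 s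
        simp only [hd] at h6
        exact h6
      · intro m' hm'
        show (∀ s, xdb e s m' ≤ xdb e s (Finsupp.single (e ⟨sb i, b⟩, one) 1)) ∧
          jd m' ≤ jd (Finsupp.single (e ⟨sb i, b⟩, one) 1)
        have h5 := us_deg1 (r := r) e (gnG m sb dg) i one h1 m' hm'
        refine ⟨fun s => ?_, ?_⟩
        · rw [xdb_single1 e s _ hone]
          have h6 := h5.1 s
          simp only [hd, Nat.sub_self, ite_self] at h6
          exact h6
        · rw [A2_jd_single1 _ hone]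
          exact h5.2)
  refine CondB.weaken ⟨t, ht, h⟩ ?_
  rintro ν ⟨hν, hν0, hν1⟩
  have h3 : ¬ Finsupp.single (e ⟨sb i, b⟩, (0 : Fin (r + 1))) 1 ≤ ν := hν0
  have h4 : ¬ Finsupp.single (e ⟨sb i, b⟩, one) 1 ≤ ν := hν1
  rw [Finsupp.single_le_iff] at h3 h4
  exact ⟨hν, by omega, by omega⟩

/-- Crossing of two factors with two different coordinates. -/
theorem condX' [Fintype β] [DecidableEq ι] (e : Co m ≃ Fin n) (i i' : ι) (hii : i ≠ i')
    (b1 : Fin (m (sb i))) (b2 : Fin (m (sb i')))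
    (d : β → ℕ) (M : ℕ) :
    CondB (r := r) e sb dg i i' d M
      {μ | μ ∈ MonB e r d M ∧ μ (e ⟨sb i, b1⟩, 0) < dg i ∧ μ (e ⟨sb i', b2⟩, 0) < dg i'} := by
  obtain ⟨c, hc, hc'⟩ : ∃ c : ∀ i : ι, Finset (Fin (m (sb i))), c i = {b1} ∧ c i' = {b2} := by
    classical
    exact ⟨Function.update (Function.update (fun _ => ∅) i {b1}) i' {b2},
      by rw [Function.update_of_ne hii, Function.update_self], Function.update_self ..⟩
  have hI0 : us (r := r) e (gnG m sb dg) i 0 ∈ IG (r := r) e (gnG m sb dg) i i' := by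
    unfold IG
    rw [if_neg hii]
    exact Ideal.subset_span (Set.mem_insert _ _)
  have hI1 : us (r := r) e (gnG m sb dg) i' 0 ∈ IG (r := r) e (gnG m sb dg) i i' := by
    unfold IG
    rw [if_neg hii]
    exact Ideal.subset_span (Set.mem_insert_of_mem _ rfl)
  have hE0 : MvPolynomial.map (eval (spc (m := m) (sb := sb) (dg := dg) c))
      (us (r := r) e (gnG m sb dg) i 0) =
        MvPolynomial.monomial (Finsupp.single (e ⟨sb i, b1⟩, 0) (dg i)) 1 := by
    rw [map_us, us_spc_zero, hc, Finset.sum_singleton, X_pow_eq_monomial]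
  have hE1 : MvPolynomial.map (eval (spc (m := m) (sb := sb) (dg := dg) c))
      (us (r := r) e (gnG m sb dg) i' 0) =
        MvPolynomial.monomial (Finsupp.single (e ⟨sb i', b2⟩, 0) (dg i')) 1 := by
    rw [map_us, us_spc_zero, hc', Finset.sum_singleton, X_pow_eq_monomial]
  obtain ⟨t, ht, h⟩ := onecondB (r := r) e (spc (m := m) (sb := sb) (dg := dg) c)
    (IG (r := r) e (gnG m sb dg) i i') (d := d) (M := M) (fun _ => 0)
    ![us (r := r) e (gnG m sb dg) i 0, us (r := r) e (gnG m sb dg) i' 0]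
    (by
      rw [Fin.forall_fin_two]
      exact ⟨hI0, hI1⟩)
    ![Finsupp.single (e ⟨sb i, b1⟩, 0) (dg i), Finsupp.single (e ⟨sb i', b2⟩, 0) (dg i')]
    (by
      rw [Fin.forall_fin_two]
      constructor
      · show Lead _ (MvPolynomial.map (eval (spc (m := m) (sb := sb) (dg := dg) c))
          (us (r := r) e (gnG m sb dg) i 0)) (Finsupp.single (e ⟨sb i, b1⟩, 0) (dg i))
        rw [hE0]
        exact Lead.monomial _ _ one_ne_zero
      · show Lead _ (MvPolynomial.map (eval (spc (m := m) (sb := sb) (dg := dg) c))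
          (us (r := r) e (gnG m sb dg) i' 0)) (Finsupp.single (e ⟨sb i', b2⟩, 0) (dg i'))
        rw [hE1]
        exact Lead.monomial _ _ one_ne_zero)
    (by
      rw [Fin.forall_fin_two]
      constructor
      · intro m' hm'
        show (∀ s, xdb e s m' ≤ xdb e s (Finsupp.single (e ⟨sb i, b1⟩, (0 : Fin (r + 1))) (dg i))) ∧
          jd m' ≤ jd (Finsupp.single (e ⟨sb i, b1⟩, (0 : Fin (r + 1))) (dg i))
        have h5 := us_deg0 (r := r) e (gnG m sb dg) i m' hm'
        refine ⟨fun s => ?_, h5.2.trans (Nat.zero_le _)⟩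
        rw [xdb_single0]
        exact h5.1 s
      · intro m' hm'
        show (∀ s, xdb e s m' ≤ xdb e s (Finsupp.single (e ⟨sb i', b2⟩, (0 : Fin (r + 1))) (dg i'))) ∧
          jd m' ≤ jd (Finsupp.single (e ⟨sb i', b2⟩, (0 : Fin (r + 1))) (dg i'))
        have h5 := us_deg0 (r := r) e (gnG m sb dg) i' m' hm'
        refine ⟨fun s => ?_, h5.2.trans (Nat.zero_le _)⟩
        rw [xdb_single0]
        exact h5.1 s)
  refine CondB.weaken ⟨t, ht, h⟩ ?_
  rintro ν ⟨hν, hν0, hν1⟩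
  have h3 : ¬ Finsupp.single (e ⟨sb i, b1⟩, (0 : Fin (r + 1))) (dg i) ≤ ν := hν0
  have h4 : ¬ Finsupp.single (e ⟨sb i', b2⟩, (0 : Fin (r + 1))) (dg i') ≤ ν := hν1
  rw [Finsupp.single_le_iff] at h3 h4
  exact ⟨hν, by omega, by omega⟩

/-- Crossing of two linear factors of a block of dimension one. -/
theorem condD' [Fintype β] [DecidableEq ι] (e : Co m ≃ Fin n) (i i' : ι) (hii : i ≠ i')
    (hs : sb i = sb i') (hm : m (sb i) = 1)
    (hd : dg i = 1) (hd' : dg i' = 1) (d : β → ℕ) (M : ℕ) :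
    CondB (r := r) e sb dg i i' d M ∅ := by
  obtain ⟨t, ht, h⟩ := condD (r := r) e i i' hii hs hm hd hd' (∑ s, d s) M
  exact ⟨t, ht, fun μ hμ => h μ (MonB_sub e d M hμ)⟩

end Pool.Agent.H49S
end

-- from Lib.H49S.S4
section

set_option autoImplicit false

/-!
H49S, S4: upper bounds for the numbers of normal monomials (boxes).
-/

open MvPolynomial

namespace Pool.Agent.H49S

open Pool.Agent.H89T Pool.Agent.H78G Pool.Agent.H53Y Pool.Agent.H89Y Pool.Agent.H53R Pool.Agent.H78R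

theorem box_le {n : ℕ} (p : (Fin n → ℕ) → Prop) (D : Fin n → ℕ) (h : ∀ f, p f → ∀ b, f b < D b) :
    Nat.card {f // p f} ≤ ∏ b, D b := by
  have h1 : Nat.card {f // p f} ≤ Nat.card ((b : Fin n) → Fin (D b)) := by
    apply Nat.card_le_card_of_injective (fun f b => (⟨f.1 b, h f.1 f.2 b⟩ : Fin (D b)))
    intro f g hfg
    apply Subtype.ext
    funext b
    exact congrArg Fin.val (congrFun hfg b)
  refine h1.trans (le_of_eq ?_)
  rw [Nat.card_eq_fintype_card, Fintype.card_pi]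
  simp

theorem box2 {n : ℕ} (D : Fin n → ℕ) {j1 j2 : Fin n} (h : j1 ≠ j2) (k1 k2 : ℕ) :
    ((∏ b, (if b = j1 then k1 else if b = j2 then k2 else D b + 1) : ℕ) : ℝ) =
      (k1 / ((D j1 : ℝ) + 1)) * (k2 / ((D j2 : ℝ) + 1)) * ∏ b, ((D b : ℝ) + 1) := by
  have h1 : ∀ b : Fin n, (((if b = j1 then k1 else if b = j2 then k2 else D b + 1) : ℕ) : ℝ) =
      (if b = j1 then (k1 : ℝ) / ((D j1 : ℝ) + 1) else
        if b = j2 then (k2 : ℝ) / ((D j2 : ℝ) + 1) else 1) * ((D b : ℝ) + 1) := by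
    intro b
    have h2 : ((D b : ℝ) + 1) ≠ 0 := by positivity
    split_ifs with hb hb'
    · subst hb
      field_simp
    · subst hb'
      field_simp
    · push_cast
      ring
  rw [Nat.cast_prod, Finset.prod_congr rfl fun b _ => h1 b, Finset.prod_mul_distrib]
  congr 1
  rw [Fintype.prod_eq_mul j1 j2 h]
  · rw [if_pos rfl, if_neg h.symm, if_pos rfl]
  · rintro b ⟨hb1, hb2⟩
    rw [if_neg hb1, if_neg hb2]

theorem box1 {n : ℕ} (D : Fin n → ℕ) (j : Fin n) (k : ℕ) :
    ((∏ b, (if b = j then k else D b + 1) : ℕ) : ℝ) =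
      (k / ((D j : ℝ) + 1)) * ∏ b, ((D b : ℝ) + 1) := by
  have h1 : ∀ b : Fin n, (((if b = j then k else D b + 1) : ℕ) : ℝ) =
      (if b = j then (k : ℝ) / ((D j : ℝ) + 1) else 1) * ((D b : ℝ) + 1) := by
    intro b
    have h2 : ((D b : ℝ) + 1) ≠ 0 := by positivity
    split_ifs with hb
    · subst hb
      field_simp
    · push_cast
      ring
  rw [Nat.cast_prod, Finset.prod_congr rfl fun b _ => h1 b, Finset.prod_mul_distrib]
  congr 1
  rw [Finset.prod_ite_eq']
  simp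

variable {β : Type} [DecidableEq β] {m : β → ℕ} {n r : ℕ}

/-- The upper bound for all monomials (a box). -/
noncomputable def UU (e : Co m ≃ Fin n) (d : β → ℕ) : ℝ := ∏ b, ((d (e.symm b).1 : ℝ) + 1)

theorem UU_nonneg (e : Co m ≃ Fin n) (d : β → ℕ) : 0 ≤ UU e d :=
  Finset.prod_nonneg fun _ _ => by positivity

theorem s4_single (e : Co m ≃ Fin n) (d : β → ℕ) (f : Fin n → ℕ)
    (h : ∀ s, (∑ b, if (e.symm b).1 = s then f b else 0) ≤ d s) (b : Fin n) :
    f b ≤ d (e.symm b).1 := by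
  refine le_trans ?_ (h (e.symm b).1)
  refine le_trans (le_of_eq ?_) (Finset.single_le_sum
    (f := fun b' => if (e.symm b').1 = (e.symm b).1 then f b' else 0)
    (fun _ _ => Nat.zero_le _) (Finset.mem_univ b))
  simp

/-- Two small coordinate exponents. -/
theorem ncard_A [Fintype β] (e : Co m ≃ Fin n) {j1 j2 : Fin n} (h : j1 ≠ j2) (k1 k2 : ℕ)
    (d : β → ℕ) (M : ℕ) :
    ((({μ | μ ∈ MonB e r d M ∧ μ (j1, 0) < k1 ∧ μ (j2, 0) < k2} :
      Set (JV n r →₀ ℕ)).ncard : ℕ) : ℝ) ≤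
      (k1 / ((d (e.symm j1).1 : ℝ) + 1)) * (k2 / ((d (e.symm j2).1 : ℝ) + 1)) * UU e d *
        ((M + n * r).choose (n * r) : ℝ) := by
  classical
  have h1 : ({μ | μ ∈ MonB e r d M ∧ μ (j1, 0) < k1 ∧ μ (j2, 0) < k2} :
      Set (JV n r →₀ ℕ)).ncard ≤
      (∏ b, (if b = j1 then k1 else if b = j2 then k2 else d (e.symm b).1 + 1)) *
        (M + n * r).choose (n * r) := by
    rw [← Nat.card_coe_set_eq, K2_card (fun f => (∀ s, (∑ b, if (e.symm b).1 = s then f b else 0) ≤ d s) ∧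
      f j1 < k1 ∧ f j2 < k2) (fun g => ∑ p, g p ≤ M) _]
    · apply Nat.mul_le_mul
      · refine box_le _ _ ?_
        rintro f ⟨h2, h3, h4⟩ b
        split_ifs with hb hb'
        · rw [hb]
          exact h3
        · rw [hb']
          exact h4
        · exact Nat.lt_succ_of_le (s4_single e d f h2 b)
      · rw [card_exp]
        simp
    · intro μ
      show ((∀ s, xdb e s μ ≤ d s) ∧ jd μ ≤ M) ∧ μ (j1, 0) < k1 ∧ μ (j2, 0) < k2 ↔ _
      rw [jd_split]
      constructor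
      · rintro ⟨⟨a1, a2⟩, a3, a4⟩
        exact ⟨⟨a1, a3, a4⟩, a2⟩
      · rintro ⟨⟨a1, a3, a4⟩, a2⟩
        exact ⟨⟨a1, a2⟩, a3, a4⟩
  have h2 := box2 (fun b => d (e.symm b).1) h k1 k2
  have h3 : ((({μ | μ ∈ MonB e r d M ∧ μ (j1, 0) < k1 ∧ μ (j2, 0) < k2} :
      Set (JV n r →₀ ℕ)).ncard : ℕ) : ℝ) ≤
      (((∏ b, (if b = j1 then k1 else if b = j2 then k2 else d (e.symm b).1 + 1)) *
        (M + n * r).choose (n * r) : ℕ) : ℝ) := by
    exact_mod_cast h1
  refine h3.trans (le_of_eq ?_)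
  rw [Nat.cast_mul, h2]
  rfl

/-- One small coordinate exponent and one jet exponent `0`. -/
theorem ncard_B [Fintype β] (e : Co m ≃ Fin n) (j1 j2 : Fin n) (one : Fin (r + 1))
    (h1 : (one : ℕ) = 1) (k : ℕ) (d : β → ℕ) (M : ℕ) :
    ((({μ | μ ∈ MonB e r d M ∧ μ (j1, 0) < k ∧ μ (j2, one) = 0} :
      Set (JV n r →₀ ℕ)).ncard : ℕ) : ℝ) ≤
      (k / ((d (e.symm j1).1 : ℝ) + 1)) * UU e d *
        ((M + (n * r - 1)).choose (n * r - 1) : ℝ) := by
  classical
  have hr : 0 < r := by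
    have := one.2
    omega
  obtain ⟨z, hz⟩ : ∃ z : Fin r, z = ⟨0, hr⟩ := ⟨_, rfl⟩
  have hone : one = z.succ := by
    apply Fin.ext
    simp [hz, h1]
  have h1 : ({μ | μ ∈ MonB e r d M ∧ μ (j1, 0) < k ∧ μ (j2, one) = 0} :
      Set (JV n r →₀ ℕ)).ncard ≤
      (∏ b, (if b = j1 then k else d (e.symm b).1 + 1)) *
        (M + (n * r - 1)).choose (n * r - 1) := by
    rw [← Nat.card_coe_set_eq, K2_card (fun f => (∀ s, (∑ b, if (e.symm b).1 = s then f b else 0) ≤ d s) ∧
      f j1 < k) (fun g => ∑ p, g p ≤ M ∧ g (j2, z) = 0) _]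
    · apply Nat.mul_le_mul
      · refine box_le _ _ ?_
        rintro f ⟨h2, h3⟩ b
        split_ifs with hb
        · rw [hb]
          exact h3
        · exact Nat.lt_succ_of_le (s4_single e d f h2 b)
      · have := K2_card_zero_at (Fin n × Fin r) M (j2, z)
        simpa using this
    · intro μ
      show ((∀ s, xdb e s μ ≤ d s) ∧ jd μ ≤ M) ∧ μ (j1, 0) < k ∧ μ (j2, one) = 0 ↔ _
      rw [jd_split, hone]
      constructor
      · rintro ⟨⟨a1, a2⟩, a3, a4⟩
        exact ⟨⟨a1, a3⟩, a2, a4⟩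
      · rintro ⟨⟨a1, a3⟩, a2, a4⟩
        exact ⟨⟨a1, a2⟩, a3, a4⟩
  have h2 := box1 (fun b => d (e.symm b).1) j1 k
  have h3 : ((({μ | μ ∈ MonB e r d M ∧ μ (j1, 0) < k ∧ μ (j2, one) = 0} :
      Set (JV n r →₀ ℕ)).ncard : ℕ) : ℝ) ≤
      (((∏ b, (if b = j1 then k else d (e.symm b).1 + 1)) *
        (M + (n * r - 1)).choose (n * r - 1) : ℕ) : ℝ) := by
    exact_mod_cast h1
  refine h3.trans (le_of_eq ?_)
  rw [Nat.cast_mul, h2]
  rfl

/-- The normal monomials of the tangency condition. -/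
theorem ncard_T [Fintype β] (e : Co m ≃ Fin n) {j1 j2 : Fin n} (h : j1 ≠ j2) (one : Fin (r + 1))
    (h1 : (one : ℕ) = 1) (k : ℕ) (d : β → ℕ) (M : ℕ) :
    ((({μ | μ ∈ MonB e r d M ∧ μ (j1, 0) < k ∧ (μ (j2, 0) < k ∨ μ (j2, one) = 0)} :
      Set (JV n r →₀ ℕ)).ncard : ℕ) : ℝ) ≤
      (k / ((d (e.symm j1).1 : ℝ) + 1)) * (k / ((d (e.symm j2).1 : ℝ) + 1)) * UU e d *
        ((M + n * r).choose (n * r) : ℝ) +
      (k / ((d (e.symm j1).1 : ℝ) + 1)) * UU e d *
        ((M + (n * r - 1)).choose (n * r - 1) : ℝ) := by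
  have hsub : ({μ | μ ∈ MonB e r d M ∧ μ (j1, 0) < k ∧ (μ (j2, 0) < k ∨ μ (j2, one) = 0)} :
      Set (JV n r →₀ ℕ)) ⊆ {μ | μ ∈ MonB e r d M ∧ μ (j1, 0) < k ∧ μ (j2, 0) < k} ∪
        {μ | μ ∈ MonB e r d M ∧ μ (j1, 0) < k ∧ μ (j2, one) = 0} := by
    rintro μ ⟨a1, a2, a3 | a3⟩
    · exact Or.inl ⟨a1, a2, a3⟩
    · exact Or.inr ⟨a1, a2, a3⟩
  have hA : ({μ | μ ∈ MonB e r d M ∧ μ (j1, 0) < k ∧ μ (j2, 0) < k} :
      Set (JV n r →₀ ℕ)).Finite := (MonB_finite e r d M).subset fun μ hμ => hμ.1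
  have hB : ({μ | μ ∈ MonB e r d M ∧ μ (j1, 0) < k ∧ μ (j2, one) = 0} :
      Set (JV n r →₀ ℕ)).Finite := (MonB_finite e r d M).subset fun μ hμ => hμ.1
  have h2 := (Set.ncard_le_ncard hsub (hA.union hB)).trans (Set.ncard_union_le _ _)
  have h3 : ((({μ | μ ∈ MonB e r d M ∧ μ (j1, 0) < k ∧ (μ (j2, 0) < k ∨ μ (j2, one) = 0)} :
      Set (JV n r →₀ ℕ)).ncard : ℕ) : ℝ) ≤
      ((({μ | μ ∈ MonB e r d M ∧ μ (j1, 0) < k ∧ μ (j2, 0) < k} :
        Set (JV n r →₀ ℕ)).ncard : ℕ) : ℝ) +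
      ((({μ | μ ∈ MonB e r d M ∧ μ (j1, 0) < k ∧ μ (j2, one) = 0} :
        Set (JV n r →₀ ℕ)).ncard : ℕ) : ℝ) := by
    exact_mod_cast h2
  exact h3.trans (add_le_add (ncard_A e h k k d M) (ncard_B e j1 j2 one h1 k d M))

end Pool.Agent.H49S
end

-- from Lib.H49S.S5
section

set_option autoImplicit false

/-!
H49S, S5: all pairs of factors; existence of the operator for the generic arrangement under the counting
hypothesis (port of Lib/H89Y/A5, A7).
-/

open MvPolynomial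

namespace Pool.Agent.H49S

open Pool.Agent.H89T Pool.Agent.H78G Pool.Agent.H53Y Pool.Agent.H89Y Pool.Agent.H53R Pool.Agent.H78R

variable {β : Type} [DecidableEq β] {m : β → ℕ} {ι : Type} {sb : ι → β} {dg : ι → ℕ} {n r : ℕ}

theorem s5_fst (e : Co m ≃ Fin n) (x : Co m) : (e.symm (e x)).1 = x.1 := by
  rw [Equiv.symm_apply_apply]

/-- All pairs of factors. -/
theorem exists_condB [Fintype β] [DecidableEq ι] (e : Co m ≃ Fin n) (hm : ∀ s, 1 ≤ m s)
    (hT : ∀ i, dg i = 1 ∨ (2 ≤ dg i ∧ 2 ≤ m (sb i))) (one : Fin (r + 1)) (h1 : (one : ℕ) = 1)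
    (i i' : ι) (d : β → ℕ) (M : ℕ) :
    ∃ κ : Set (JV n r →₀ ℕ), κ.Finite ∧ CondB e sb dg i i' d M κ ∧
      ((κ.ncard : ℕ) : ℝ) ≤ (dg i / ((d (sb i) : ℝ) + 1)) * (dg i' / ((d (sb i') : ℝ) + 1)) *
        UU e d * ((M + n * r).choose (n * r) : ℝ) +
        (if i = i' then (dg i / ((d (sb i) : ℝ) + 1)) * UU e d *
          ((M + (n * r - 1)).choose (n * r - 1) : ℝ) else 0) := by
  have hU := UU_nonneg e d
  by_cases hii : i = i'
  · subst hii
    rw [if_pos rfl]
    rcases hT i with hd | ⟨hd, hm2⟩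
    · refine ⟨_, ?_, condL' e i hd ⟨0, hm _⟩ one h1 d M, ?_⟩
      · exact (MonB_finite e r d M).subset fun x hx => hx.1
      · refine (ncard_B e _ _ one h1 1 d M).trans ?_
        rw [s5_fst, hd]
        refine le_add_of_nonneg_left ?_
        positivity
    · have hb : (⟨0, by omega⟩ : Fin (m (sb i))) ≠ ⟨1, by omega⟩ := by
        intro h
        exact absurd (congrArg Fin.val h) (by norm_num)
      refine ⟨_, ?_, condT' e i hd ⟨0, by omega⟩ ⟨1, by omega⟩ hb one h1 d M, ?_⟩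
      · exact (MonB_finite e r d M).subset fun x hx => hx.1
      · have h3 := ncard_T e (j1 := e ⟨sb i, ⟨0, by omega⟩⟩) (j2 := e ⟨sb i, ⟨1, by omega⟩⟩)
          (fun h => hb (by
            have h2 := e.injective h
            have h3 : HEq (⟨0, by omega⟩ : Fin (m (sb i))) (⟨1, by omega⟩ : Fin (m (sb i))) :=
              (Sigma.mk.inj h2).2
            exact eq_of_heq h3)) one h1 (dg i) d M
        rw [s5_fst, s5_fst] at h3
        exact h3
  · rw [if_neg hii, add_zero]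
    by_cases hs : sb i = sb i' ∧ m (sb i) = 1
    · obtain ⟨hs, hm1⟩ := hs
      have hd : dg i = 1 := (hT i).resolve_right fun h => by
        have := h.2
        omega
      have hd' : dg i' = 1 := (hT i').resolve_right fun h => by
        have h2 := h.2
        rw [← hs] at h2
        omega
      refine ⟨∅, Set.finite_empty, condD' e i i' hii hs hm1 hd hd' d M, ?_⟩
      rw [Set.ncard_empty, Nat.cast_zero]
      positivity
    · obtain ⟨b1, b2, hb⟩ : ∃ (b1 : Fin (m (sb i))) (b2 : Fin (m (sb i'))), (⟨sb i, b1⟩ : Co m) ≠ ⟨sb i', b2⟩ := by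
        by_cases hs' : sb i = sb i'
        · have h2 : m (sb i) ≠ 1 := fun h => hs ⟨hs', h⟩
          have h3 := hm (sb i)
          have h4 : 2 ≤ m (sb i') := by
            rw [← hs']
            omega
          refine ⟨⟨0, h3⟩, ⟨1, h4⟩, fun h => ?_⟩
          have h5 := congrArg (fun x : Co m => (x.2 : ℕ)) h
          exact absurd h5 (by norm_num)
        · exact ⟨⟨0, hm _⟩, ⟨0, hm _⟩, fun h => hs' (congrArg Sigma.fst h)⟩
      have h3 := ncard_A (r := r) e (fun h => hb (e.injective h)) (dg i) (dg i') d M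
      rw [s5_fst, s5_fst] at h3
      refine ⟨_, ?_, condX' e i i' hii b1 b2 d M, h3⟩
      exact (MonB_finite e r d M).subset fun x hx => hx.1

/-- Existence of the operator under the counting hypothesis. -/
theorem exists_PB [Fintype β] [Fintype ι] [DecidableEq ι] (e : Co m ≃ Fin n) (hm : ∀ s, 1 ≤ m s)
    (hT : ∀ i, dg i = 1 ∨ (2 ≤ dg i ∧ 2 ≤ m (sb i))) (hr : 1 ≤ r) (d : β → ℕ) (M : ℕ)
    (hc : ∑ l ∈ Finset.range r,
      ((∑ i, (dg i : ℝ) / ((d (sb i) : ℝ) + 1)) * (∑ i, (dg i : ℝ) / ((d (sb i) : ℝ) + 1)) *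
        UU e d * ((M + l + n * r).choose (n * r) : ℝ) +
        (∑ i, (dg i : ℝ) / ((d (sb i) : ℝ) + 1)) * UU e d *
          ((M + l + (n * r - 1)).choose (n * r - 1) : ℝ)) <
      (((MonB e r d M).ncard : ℕ) : ℝ)) :
    ∃ P : MvPolynomial (JV n r) (MvPolynomial (Cf m sb dg) ℂ), P ≠ 0 ∧ HasMonB e d M P ∧
      PropG e (gnG m sb dg) r P := by
  classical
  have hone : ∃ one : Fin (r + 1), (one : ℕ) = 1 := ⟨⟨1, by omega⟩, rfl⟩
  obtain ⟨one, h1⟩ := hone
  have hex : ∀ x : (ι × ι) × Fin r, ∃ κ : Set (JV n r →₀ ℕ), κ.Finite ∧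
      CondB e sb dg x.1.1 x.1.2 d (M + (x.2 : ℕ)) κ ∧
      ((κ.ncard : ℕ) : ℝ) ≤ (dg x.1.1 / ((d (sb x.1.1) : ℝ) + 1)) *
        (dg x.1.2 / ((d (sb x.1.2) : ℝ) + 1)) *
        UU e d * ((M + (x.2 : ℕ) + n * r).choose (n * r) : ℝ) +
        (if x.1.1 = x.1.2 then (dg x.1.1 / ((d (sb x.1.1) : ℝ) + 1)) * UU e d *
          ((M + (x.2 : ℕ) + (n * r - 1)).choose (n * r - 1) : ℝ) else 0) := fun x =>
    exists_condB e hm hT one h1 x.1.1 x.1.2 d (M + (x.2 : ℕ))
  choose κ hfin hcond hcard using hex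
  choose t ht0 ht using hcond
  have : Fintype (MonB e r d M) := (MonB_finite e r d M).fintype
  have : ∀ x : (ι × ι) × Fin r, Fintype (κ x) := fun x => (hfin x).fintype
  obtain ⟨q, hq0, hq⟩ := exists_coeffsL (R := MvPolynomial (Cf m sb dg) ℂ)
    (V := MvPolynomial (JV n r) (MvPolynomial (Cf m sb dg) ℂ))
    (ι := MonB e r d M) (L := (ι × ι) × Fin r)
    (fun m' => monomial m'.1 (1 : MvPolynomial (Cf m sb dg) ℂ))
    (fun x => (NN n r (MvPolynomial (Cf m sb dg) ℂ)).toLinearMap ^ (x.2 : ℕ))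
    (fun x => (IG e (gnG m sb dg) x.1.1 x.1.2).restrictScalars (MvPolynomial (Cf m sb dg) ℂ))
    (fun x => κ x) (fun x m' => monomial m'.1 (1 : MvPolynomial (Cf m sb dg) ℂ)) t
    (by
      intro x m'
      have h := hb_smul_mem (ht x)
        (P := (NN n r (MvPolynomial (Cf m sb dg) ℂ))^[(x.2 : ℕ)] (monomial m'.1 1))
        (hb_NN_iterate (hb_of_mem m'.2 1) (x.2 : ℕ))
      rw [Set.image_eq_range] at h
      have e2 : ((NN n r (MvPolynomial (Cf m sb dg) ℂ)).toLinearMap ^ (x.2 : ℕ)) (monomial m'.1 1) =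
          (NN n r (MvPolynomial (Cf m sb dg) ℂ))^[(x.2 : ℕ)] (monomial m'.1 1) := by
        rw [Module.End.pow_apply]
        rfl
      rw [e2]
      exact h)
    (by
      have hc1 : ∀ x : (ι × ι) × Fin r, Fintype.card (κ x) = (κ x).ncard := fun x => by
        rw [← Nat.card_coe_set_eq, Nat.card_eq_fintype_card]
      have hc2 : Fintype.card (MonB e r d M) = (MonB e r d M).ncard := by
        rw [← Nat.card_coe_set_eq, Nat.card_eq_fintype_card]
      rw [hc2]
      have hle : ((∑ x : (ι × ι) × Fin r, Fintype.card (κ x) : ℕ) : ℝ) ≤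
          ∑ x : (ι × ι) × Fin r, ((dg x.1.1 / ((d (sb x.1.1) : ℝ) + 1)) *
            (dg x.1.2 / ((d (sb x.1.2) : ℝ) + 1)) *
            UU e d * ((M + (x.2 : ℕ) + n * r).choose (n * r) : ℝ) +
            (if x.1.1 = x.1.2 then (dg x.1.1 / ((d (sb x.1.1) : ℝ) + 1)) * UU e d *
              ((M + (x.2 : ℕ) + (n * r - 1)).choose (n * r - 1) : ℝ) else 0)) := by
        rw [Nat.cast_sum]
        exact Finset.sum_le_sum fun x _ => by
          rw [hc1]
          exact hcard x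
      have hfinal : ((∑ x : (ι × ι) × Fin r, Fintype.card (κ x) : ℕ) : ℝ) <
          (((MonB e r d M).ncard : ℕ) : ℝ) := by
        refine lt_of_le_of_lt hle (lt_of_eq_of_lt ?_ hc)
        rw [Fintype.sum_prod_type_right, Finset.sum_range]
        refine Finset.sum_congr rfl fun l _ => ?_
        rw [Fintype.sum_prod_type]
        simp only [Finset.sum_add_distrib]
        congr 1
        · simp only [← Finset.sum_mul]
          rw [Finset.sum_mul_sum]
        · simp only [Finset.sum_ite_eq, Finset.mem_univ, if_true]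
          rw [Finset.sum_mul, Finset.sum_mul]
      exact_mod_cast hfinal)
  obtain ⟨m', hm'⟩ := Function.ne_iff.mp hq0
  refine ⟨(∏ x, t x) • ∑ i : MonB e r d M, q i • monomial i.1 (1 : MvPolynomial (Cf m sb dg) ℂ),
    ?_, ?_, ?_⟩
  · intro h0
    have h := congrArg (coeff m'.1) h0
    rw [coeff_smul, A5_coeff, coeff_zero, smul_eq_mul, mul_eq_zero] at h
    rcases h with h | h
    · exact Finset.prod_ne_zero_iff.mpr (fun x _ => ht0 x) h
    · exact hm' h
  · exact hb_smul _ (hb_sum fun i _ => hb_smul _ (hb_of_mem i.2 1))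
  · intro l hl i i'
    have h := hq ((i, i'), ⟨l, hl⟩)
    rw [Submodule.restrictScalars_mem] at h
    have h2 : (NN n r (MvPolynomial (Cf m sb dg) ℂ))^[l] ((∏ x, t x) • ∑ i : MonB e r d M,
        q i • monomial i.1 (1 : MvPolynomial (Cf m sb dg) ℂ)) =
        (∏ x ∈ Finset.univ.erase ((i, i'), ⟨l, hl⟩), t x) • (t ((i, i'), ⟨l, hl⟩) •
          ((NN n r (MvPolynomial (Cf m sb dg) ℂ)).toLinearMap ^ l) (∑ i : MonB e r d M,
            q i • monomial i.1 (1 : MvPolynomial (Cf m sb dg) ℂ))) := by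
      rw [smul_smul, mul_comm, Finset.mul_prod_erase _ _ (Finset.mem_univ _), ← map_smul,
        Module.End.pow_apply]
      rfl
    rw [h2]
    exact Submodule.smul_of_tower_mem _ _ h

end Pool.Agent.H49S
end

-- from Lib.H78R.R9
section

set_option autoImplicit false

/-!
R9.  Part C of `AC_P`: port of Lib/H89Y/C10.lean to multi-weights.  The fields of H89Y have total
weight at most `c`, so weight at most `c` in every block.
-/

open MvPolynomial

namespace Pool.Agent.H78R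

open Pool.Agent.H89T Pool.Agent.H78G Pool.Agent.H53Y Pool.Agent.H89Y Pool.Agent.H53R Pool.Agent.H49D

section gen
variable {σ : Type}

/-- all monomials have `w`-weight at most `d` -/
def Wle (w : (σ →₀ ℕ) →+ ℕ) (d : ℕ) (P : MvPolynomial σ ℂ) : Prop := ∀ μ ∈ P.support, w μ ≤ d

variable {w : (σ →₀ ℕ) →+ ℕ}

theorem Wle.mono {d d' : ℕ} {P : MvPolynomial σ ℂ} (h : Wle w d P) (hd : d ≤ d') : Wle w d' P :=
  fun m hm => (h m hm).trans hd

theorem Wle.zero (d : ℕ) : Wle w d (0 : MvPolynomial σ ℂ) := by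
  intro m hm
  simp at hm

theorem Wle.add {d : ℕ} {P Q : MvPolynomial σ ℂ} (hP : Wle w d P) (hQ : Wle w d Q) :
    Wle w d (P + Q) := by
  classical
  intro m hm
  rcases Finset.mem_union.1 (support_add hm) with h | h
  · exact hP m h
  · exact hQ m h

theorem Wle.mul {d d' : ℕ} {P Q : MvPolynomial σ ℂ} (hP : Wle w d P) (hQ : Wle w d' Q) :
    Wle w (d + d') (P * Q) := by
  classical
  intro m hm
  obtain ⟨m1, h1, m2, h2, rfl⟩ := Finset.mem_add.1 (support_mul P Q hm)
  rw [map_add]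
  exact add_le_add (hP m1 h1) (hQ m2 h2)

theorem Wle.sum {ι : Type} {s : Finset ι} {d : ℕ} {P : ι → MvPolynomial σ ℂ}
    (hP : ∀ i ∈ s, Wle w d (P i)) : Wle w d (∑ i ∈ s, P i) := by
  classical
  induction s using Finset.induction_on with
  | empty => exact Wle.zero d
  | insert i s hi ih =>
    rw [Finset.sum_insert hi]
    exact (hP i (Finset.mem_insert_self _ _)).add
      (ih fun j hj => hP j (Finset.mem_insert_of_mem hj))

theorem Wle.monomial {d : ℕ} (m : σ →₀ ℕ) (c : ℂ) (hm : w m ≤ d) :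
    Wle w d (MvPolynomial.monomial m c) := by
  classical
  intro m' hm'
  have h := support_monomial_subset hm'
  rw [Finset.mem_singleton] at h
  rw [h]
  exact hm

/-- The value of a derivation on a monomial. -/
theorem Wle.deriv_monomial (V : Derivation ℂ (MvPolynomial σ ℂ) (MvPolynomial σ ℂ)) {c : ℕ}
    (hV : ∀ s, Wle w c (V (MvPolynomial.X s))) (m : σ →₀ ℕ) (a : ℂ) :
    Wle w (w m + c) (V (MvPolynomial.monomial m a)) := by
  classical
  induction m using Finsupp.induction_linear generalizing a with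
  | zero =>
    have : V (MvPolynomial.monomial 0 a) = 0 := by
      have h := Derivation.map_algebraMap V a
      exact h
    rw [this]
    exact Wle.zero _
  | add m1 m2 h1 h2 =>
    have h3 : (MvPolynomial.monomial (m1 + m2) a : MvPolynomial σ ℂ)
        = MvPolynomial.monomial m1 a * MvPolynomial.monomial m2 1 := by
      rw [MvPolynomial.monomial_mul, mul_one]
    rw [h3, Derivation.leibniz, smul_eq_mul, smul_eq_mul, map_add]
    refine Wle.add ?_ ?_
    · have h4 := (Wle.monomial m1 a le_rfl).mul (h2 1)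
      exact h4.mono (by omega)
    · have h4 := (Wle.monomial m2 1 le_rfl).mul (h1 a)
      exact h4.mono (by omega)
  | single s e =>
    induction e generalizing a with
    | zero =>
      rw [Finsupp.single_zero]
      have : V (MvPolynomial.monomial 0 a) = 0 := by
        have h := Derivation.map_algebraMap V a
        exact h
      rw [this]
      exact Wle.zero _
    | succ e ih =>
      have h3 : (MvPolynomial.monomial (Finsupp.single s (e + 1)) a : MvPolynomial σ ℂ)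
          = MvPolynomial.monomial (Finsupp.single s e) a * MvPolynomial.X s := by
        rw [MvPolynomial.X, MvPolynomial.monomial_mul, mul_one, ← Finsupp.single_add]
      have h5 : w (Finsupp.single s (e + 1)) = w (Finsupp.single s e) + w (Finsupp.single s 1) := by
        rw [Finsupp.single_add, map_add]
      rw [h3, Derivation.leibniz, smul_eq_mul, smul_eq_mul, h5]
      refine Wle.add ?_ ?_
      · have h4 := (Wle.monomial (Finsupp.single s e) a le_rfl).mul (hV s)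
        exact h4.mono (by omega)
      · have h4 := (Wle.monomial (Finsupp.single s 1) 1 le_rfl).mul (ih a)
        exact h4.mono (by omega)

theorem Wle.deriv {d c : ℕ} {P : MvPolynomial σ ℂ} (hP : Wle w d P)
    (V : Derivation ℂ (MvPolynomial σ ℂ) (MvPolynomial σ ℂ)) (hV : ∀ x, Wle w c (V (X x))) :
    Wle w (d + c) (V P) := by
  rw [P.as_sum, map_sum]
  refine Wle.sum fun m hm => ?_
  exact (Wle.deriv_monomial V hV m _).mono (Nat.add_le_add_right (hP m hm) c)

end gen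

section blocks
variable {β : Type} [DecidableEq β] {m : β → ℕ} {n r : ℕ} {τ : Type}

/-- the weight in the jets of the block `s` -/
def wB (e : Co m ≃ Fin n) (s : β) : (JV n r ⊕ τ →₀ ℕ) →+ ℕ where
  toFun μ := ∑ p : JV n r, if (e.symm p.1).1 = s then ((p.2 : ℕ) + 1) * μ (Sum.inl p) else 0
  map_zero' := by simp
  map_add' μ ν := by
    rw [← Finset.sum_add_distrib]
    refine Finset.sum_congr rfl fun p _ => ?_
    split_ifs
    · rw [Finsupp.add_apply, mul_add]
    · rfl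

theorem wB_le (e : Co m ≃ Fin n) (s : β) (μ : JV n r ⊕ τ →₀ ℕ) : wB e s μ ≤ w0w μ := by
  change (∑ p : JV n r, if (e.symm p.1).1 = s then ((p.2 : ℕ) + 1) * μ (Sum.inl p) else 0) ≤ _
  unfold w0w
  refine Finset.sum_le_sum fun p _ => ?_
  split_ifs
  · exact le_rfl
  · exact Nat.zero_le _

theorem wtb_le' (e : Co m ≃ Fin n) (s : β) (μ : JV n r →₀ ℕ) :
    wtb e s μ ≤ xdb e s μ + (r + 1) * jd μ := by
  have h1 : xdb e s μ = ∑ p : JV n r, if p.2 = 0 then (if (e.symm p.1).1 = s then μ p else 0) else 0 := by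
    unfold xdb
    rw [Fintype.sum_prod_type]
    refine Finset.sum_congr rfl fun b _ => ?_
    rw [Finset.sum_eq_single 0]
    · rw [if_pos rfl]
    · intro l _ hl
      rw [if_neg hl]
    · intro h
      exact absurd (Finset.mem_univ _) h
  rw [h1, wtb, jd, Finset.mul_sum, ← Finset.sum_add_distrib]
  refine Finset.sum_le_sum fun p _ => ?_
  by_cases hs : (e.symm p.1).1 = s
  · rw [if_pos hs]
    by_cases h : p.2 = 0
    · simp [h, hs]
    · simp only [if_neg h, zero_add]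
      exact Nat.mul_le_mul_right _ (by omega)
  · rw [if_neg hs]
    exact Nat.zero_le _

theorem flatT_HasMonB (e : Co m ≃ Fin n) {d : β → ℕ} {M : ℕ}
    {P : MvPolynomial (JV n r) (MvPolynomial τ ℂ)} (hP : HasMonB e d M P) :
    (∀ μ ∈ (flatT P).support, (∑ p : JV n r, if p.2 = 0 then 0 else μ (Sum.inl p)) ≤ M) ∧
      ∀ s, Wle (wB e s) (d s + (r + 1) * M) (flatT P) := by
  constructor
  · intro μ hμ
    obtain ⟨m', hm', h⟩ := c8_flat_support P μ hμ
    simp only [h]
    exact (hP m' hm').2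
  · intro s μ hμ
    obtain ⟨m', hm', h⟩ := c8_flat_support P μ hμ
    change (∑ p : JV n r, if (e.symm p.1).1 = s then ((p.2 : ℕ) + 1) * μ (Sum.inl p) else 0) ≤ _
    simp only [h]
    obtain ⟨h1, h2⟩ := hP m' hm'
    have h3 := wtb_le' e s m'
    have h4 : (r + 1) * jd m' ≤ (r + 1) * M := Nat.mul_le_mul_left _ h2
    have h5 := h1 s
    change wtb e s m' ≤ _
    omega

theorem specT_Wle [Fintype τ] (e : Co m ≃ Fin n) (s : β) {d : ℕ} (a : τ → ℂ)
    {P : MvPolynomial (JV n r ⊕ τ) ℂ} (hP : Wle (wB e s) d P) :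
    ∀ μ ∈ (specT a P).support, wtb e s μ ≤ d := by
  classical
  intro μ hμ
  have h1 : specT a P = ∑ m' ∈ P.support, specT a (monomial m' (P.coeff m')) := by
    rw [← map_sum, ← P.as_sum]
  rw [h1] at hμ
  obtain ⟨m', hm', h3⟩ := Finset.mem_biUnion.1 (support_sum hμ)
  rw [c8_spec_monomial] at h3
  have h4 := Finset.mem_singleton.mp (support_monomial_subset h3)
  subst h4
  exact hP m' hm'

end blocks

theorem app_propP {β : Type} [DecidableEq β] {m : β → ℕ} {ι : Type} [DecidableEq ι] [Fintype ι]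
    {sb : ι → β} {dg : ι → ℕ} {n r : ℕ} {e : Co m ≃ Fin n} {c : ℕ} {w : β → ℕ}
    (L : List (Derivation ℂ (UG m sb dg n r) (UG m sb dg n r))) (hL : ∀ V ∈ L, V ∈ FldG (r := r) e c)
    (P : UG m sb dg n r) (hw : ∀ s, Wle (wB e s) (w s) P) :
    (∀ s, Wle (wB e s) (w s + L.length * c) (app L P)) ∧ (PropU e r P → PropU e r (app L P)) := by
  induction L with
  | nil => exact ⟨fun s => by simpa [app] using hw s, fun h => h⟩
  | cons V L ih =>
    obtain ⟨h1, h2⟩ := ih (fun V' hV' => hL V' (List.mem_cons_of_mem _ hV'))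
    obtain ⟨hadm, hV⟩ := hL V List.mem_cons_self
    have happ : app (V :: L) P = V (app L P) := rfl
    rw [happ]
    refine ⟨fun s => ?_, fun h => (h2 h).field hadm⟩
    refine ((h1 s).deriv V fun x μ hμ => (wB_le e s μ).trans (hV x μ hμ)).mono ?_
    rw [List.length_cons]
    ring_nf
    exact le_rfl

/-- **Part C of `AC_P`.** -/
theorem slantP {β : Type} [Fintype β] [DecidableEq β] (m : β → ℕ) (T : β → Bool) {n r : ℕ}
    (e : Co m ≃ Fin n) (hr : ∀ s, m s ≤ r) : ∃ c : ℕ,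
    ∀ {ι : Type} [Fintype ι] [DecidableEq ι] (sb : ι → β) (dg : ι → ℕ),
      (∀ i, T (sb i) = true → dg i = 1) → (∀ i, T (sb i) = false → r ≤ dg i) →
      ∀ {d : β → ℕ} {M : ℕ} (P : MvPolynomial (JV n r) (MvPolynomial (Cf m sb dg) ℂ)), P ≠ 0 →
      HasMonB e d M P → PropG e (gnG m sb dg) r P →
      ∃ W : MvPolynomial (Fin n ⊕ Cf m sb dg) ℂ, W ≠ 0 ∧
      ∀ (a : Cf m sb dg → ℂ) (ξ : JV n r → ℂ),
      eval (Sum.elim (fun b => ξ (b, 0)) a) W ≠ 0 →
      (∀ i, fv e a (fun b => ξ (b, 0)) i ≠ 0) →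
      (∀ s, T s = true → Wd (hr s) (bj e ξ s) ≠ 0) →
      (∀ s, T s = false → ∃ b, ∃ l : Fin (r + 1), (l : ℕ) = 1 ∧ bj e ξ s (b, l) ≠ 0) →
      ∃ Q : MvPolynomial (JV n r) ℂ, HasWtB e (fun s => d s + (r + 1) * M + M * c) Q ∧
        PropG e a r Q ∧ eval ξ Q ≠ 0 := by
  classical
  obtain ⟨c, hc⟩ := span_SpG m T e hr
  refine ⟨c, ?_⟩
  intro ι _ _ sb dg hT1 hT2 d M P hP0 hP hA
  have hflat : flatT P ≠ 0 := flatT_ne_zero hP0
  obtain ⟨e₀, he⟩ := MvPolynomial.exists_coeff_ne_zero hflat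
  obtain ⟨hjd, hwt⟩ := flatT_HasMonB e hP
  refine ⟨jcT (flatT P) e₀, jcT_ne_zero _ _ he, ?_⟩
  intro a ξ hW hF hWd hL1
  have hspan := hc sb dg hT1 hT2 a ξ hF hWd hL1
  have hres := restrictT_ne_zero a (flatT P) e₀ ξ hW
  have hinl : ∀ p : JV n r, isJT (Sum.inl p : JV n r ⊕ Cf m sb dg) ↔ p.2 ≠ 0 := by
    intro p
    rw [isJT_iff]
    constructor
    · rintro ⟨q, hq, hq2⟩
      rw [Sum.inl_injective hq]
      exact hq2
    · intro h
      exact ⟨p, rfl, h⟩
  have hinr : ∀ x : Cf m sb dg, ¬ isJT (Sum.inr x : JV n r ⊕ Cf m sb dg) := by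
    intro x
    rw [isJT_iff]
    rintro ⟨q, hq, _⟩
    exact Sum.inr_ne_inl hq
  obtain ⟨L, hL, hlen, hne⟩ := exists_app_ne_zero (Sum.elim ξ a) (FldG (r := r) e c)
    hspan {s | isJT s} (flatT P) M (by
      intro μ hμ
      refine le_trans (le_of_eq ?_) (hjd μ hμ)
      rw [Fintype.sum_sum_type]
      have h2 : ∀ α : Cf m sb dg, (if (Sum.inr α : JV n r ⊕ Cf m sb dg) ∈ {s | isJT s} then
          μ (Sum.inr α) else 0) = 0 := fun α => if_neg (hinr α)
      simp only [h2, Finset.sum_const_zero, add_zero]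
      refine Finset.sum_congr rfl fun p _ => ?_
      by_cases hp : p.2 = 0
      · rw [if_pos hp, if_neg]
        rw [Set.mem_ofPred_eq, hinl]
        simpa using hp
      · rw [if_neg hp, if_pos]
        rw [Set.mem_ofPred_eq, hinl]
        exact hp) (by
      have h2 : (fun s => if s ∈ {s | isJT s} then X s else C (Sum.elim ξ a s) :
          JV n r ⊕ Cf m sb dg → UG m sb dg n r) =
          fun s => open Classical in if isJT s then X s else C (Sum.elim ξ a s) := by
        funext s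
        by_cases hs : isJT s
        · rw [if_pos hs, if_pos (by rw [Set.mem_ofPred_eq]; exact hs)]
        · rw [if_neg hs, if_neg (by rw [Set.mem_ofPred_eq]; exact hs)]
      rw [h2]
      exact hres)
  obtain ⟨h1, h2⟩ := app_propP L hL (flatT P) hwt
  refine ⟨specT a (app L (flatT P)), fun s => ?_, ?_, ?_⟩
  · refine specT_Wle e s a ((h1 s).mono ?_)
    have := Nat.mul_le_mul_right c hlen
    change d s + (r + 1) * M + L.length * c ≤ d s + (r + 1) * M + M * c
    omega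
  · exact specT_PropU a (h2 (flatT_PropG hA))
  · rw [← eval_specT]
    exact hne

end Pool.Agent.H78R
end

-- from Lib.H78R.R10
section

set_option autoImplicit false

/-!
R10.  `AC_P` from the part A (`ExP`) and the part C (`slantP`).
-/

open MvPolynomial

namespace Pool.Agent.H78R

open Pool.Agent.H89T Pool.Agent.H78G Pool.Agent.H53Y Pool.Agent.H89Y Pool.Agent.H53R

/-- Part A of `AC_P`: existence of the operators. -/
def ExP : Prop :=
  ∀ {β : Type} [Fintype β] [DecidableEq β] (m : β → ℕ) {n : ℕ} (e : Co m ≃ Fin n),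
    (∀ s, 1 ≤ m s) → ∀ (r₀ : ℕ) (α : ℝ), 0 < α →
    ∃ r s₀ M : ℕ, 1 ≤ r ∧ r₀ ≤ r ∧ (s₀ : ℝ) ≤ α * r ∧
      ∀ {ι : Type} [Fintype ι] [DecidableEq ι] (sb : ι → β) (dg : ι → ℕ) (Db : β → ℕ),
        (∀ i, dg i = 1 ∨ (2 ≤ dg i ∧ 2 ≤ m (sb i))) → (∀ s, 1 ≤ Db s) →
        (∀ s, Dg sb dg s ≤ Db s) →
        ∃ P : MvPolynomial (JV n r) (MvPolynomial (Cf m sb dg) ℂ), P ≠ 0 ∧
          HasMonB e (fun s => s₀ * Db s) M P ∧ PropG e (gnG m sb dg) r P

theorem algP_of (hA : ExP) : AC_P := by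
  intro β _ _ m T n e hm hT α hα
  classical
  obtain ⟨r, s₀, M, hr1, hr0, hs, hex⟩ := hA m e hm (∑ s, m s) α hα
  have hr : ∀ s, m s ≤ r := fun s =>
    (Finset.single_le_sum (f := m) (fun _ _ => Nat.zero_le _) (Finset.mem_univ s)).trans hr0
  obtain ⟨c, hc⟩ := slantP m T e hr
  refine ⟨r, (r + 1) * M + M * c + r + 1, hr, hr1, ?_⟩
  intro ι _ _ sb dg Db hd1 hd2 hDb1 hDb
  have h1 : ∀ i, dg i = 1 ∨ (2 ≤ dg i ∧ 2 ≤ m (sb i)) := by
    intro i
    rcases hb : T (sb i) with _ | _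
    · right
      exact ⟨by have := hd2 i hb; omega, hT _ hb⟩
    · left
      exact hd1 i hb
  obtain ⟨P, hP0, hPm, hPA⟩ := hex sb dg Db h1 hDb1 hDb
  obtain ⟨W, hW0, hW⟩ := hc sb dg hd1 (fun i hi => by have := hd2 i hi; omega) P hP0 hPm hPA
  refine ⟨W, hW0, fun a ξ g1 g2 g3 g4 => ?_⟩
  obtain ⟨Q, hQw, hQA, hQ0⟩ := hW a ξ g1 g2 g3 g4
  refine ⟨_, Q, fun s => ?_, hQw, hQA, hQ0⟩
  have h4 : (s₀ : ℝ) * (Db s : ℝ) ≤ α * r * (Db s : ℝ) :=
    mul_le_mul_of_nonneg_right hs (Nat.cast_nonneg _)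
  have h5 : (0 : ℝ) ≤ (r : ℝ) := Nat.cast_nonneg _
  push_cast
  linarith

end Pool.Agent.H78R
end

-- from Lib.H49S.S6
section

set_option autoImplicit false

/-!
H49S, S6: the lower bound, the choice of the parameters, part A of `AC_P` (`exP`), `AC_P` (`algP`).
-/

open MvPolynomial

namespace Pool.Agent.H49S

open Pool.Agent.H89T Pool.Agent.H78G Pool.Agent.H53Y Pool.Agent.H89Y Pool.Agent.H53R Pool.Agent.H78R

variable {β : Type} [DecidableEq β] {m : β → ℕ} {n r : ℕ}

/-- The lower bound for the number of monomials. -/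
theorem monB_ge [Fintype β] (e : Co m ≃ Fin n) (hn : 1 ≤ n) (d : β → ℕ) (M : ℕ) :
    (∏ b : Fin n, ((d (e.symm b).1 : ℝ) / n)) * ((M + n * r).choose (n * r) : ℝ) ≤
      (((MonB e r d M).ncard : ℕ) : ℝ) := by
  classical
  have h1 : (∏ b : Fin n, (d (e.symm b).1 / n + 1)) * (M + n * r).choose (n * r) ≤
      (MonB e r d M).ncard := by
    rw [← Nat.card_coe_set_eq, K2_card (fun f => ∀ s, (∑ b, if (e.symm b).1 = s then f b else 0) ≤ d s)
      (fun g => ∑ p, g p ≤ M) _]
    · apply Nat.mul_le_mul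
      · have hfin : Finite {f : Fin n → ℕ // ∀ s, (∑ b, if (e.symm b).1 = s then f b else 0) ≤ d s} :=
          Set.Finite.to_subtype ((Set.finite_Iic (fun b => d (e.symm b).1)).subset
            fun f hf b => s4_single e d f hf b)
        have h2 : (∏ b : Fin n, (d (e.symm b).1 / n + 1)) =
            Nat.card ((b : Fin n) → Fin (d (e.symm b).1 / n + 1)) := by
          rw [Nat.card_eq_fintype_card, Fintype.card_pi]
          simp
        rw [h2]
        refine Nat.card_le_card_of_injective (fun f => ⟨fun b => (f b : ℕ), fun s => ?_⟩) ?_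
        · have h3 : (∑ b, if (e.symm b).1 = s then (f b : ℕ) else 0) ≤ ∑ _b : Fin n, d s / n := by
            refine Finset.sum_le_sum fun b _ => ?_
            split_ifs with hb
            · have h4 := (f b).2
              rw [← hb]
              omega
            · exact Nat.zero_le _
          refine h3.trans ?_
          rw [Finset.sum_const, Finset.card_univ, Fintype.card_fin, smul_eq_mul]
          exact Nat.mul_div_le _ _
        · intro f g hfg
          funext b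
          apply Fin.ext
          exact congrFun (congrArg Subtype.val hfg) b
      · rw [card_exp]
        simp
    · intro μ
      show (∀ s, xdb e s μ ≤ d s) ∧ jd μ ≤ M ↔ _
      rw [jd_split]
      exact Iff.rfl
  have h2 : (((∏ b : Fin n, (d (e.symm b).1 / n + 1)) * (M + n * r).choose (n * r) : ℕ) : ℝ) ≤
      (((MonB e r d M).ncard : ℕ) : ℝ) := by
    exact_mod_cast h1
  refine le_trans ?_ h2
  rw [Nat.cast_mul, Nat.cast_prod]
  refine mul_le_mul_of_nonneg_right ?_ (Nat.cast_nonneg _)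
  refine Finset.prod_le_prod (fun b _ => by positivity) fun b _ => ?_
  have hn0 : (0 : ℝ) < n := by
    have : 0 < n := by omega
    exact_mod_cast this
  rw [div_le_iff₀ hn0]
  have h3 := (Nat.lt_mul_div_succ (d (e.symm b).1) (by omega : 0 < n)).le
  have h4 : ((d (e.symm b).1 : ℕ) : ℝ) ≤ ((n * (d (e.symm b).1 / n + 1) : ℕ) : ℝ) := by
    exact_mod_cast h3
  refine h4.trans (le_of_eq ?_)
  rw [Nat.cast_mul, mul_comm]

/-- The upper bound in terms of the lower bound. -/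
theorem UU_le (e : Co m ≃ Fin n) (hn : 1 ≤ n) (d : β → ℕ) (hd : ∀ s, 1 ≤ d s) :
    UU e d ≤ (2 * n : ℝ) ^ n * ∏ b : Fin n, ((d (e.symm b).1 : ℝ) / n) := by
  have hn0 : (0 : ℝ) < n := by
    have : 0 < n := by omega
    exact_mod_cast this
  have h1 : (2 * n : ℝ) ^ n = ∏ _b : Fin n, (2 * n : ℝ) := by
    rw [Finset.prod_const, Finset.card_univ, Fintype.card_fin]
  rw [h1, ← Finset.prod_mul_distrib]
  unfold UU
  refine Finset.prod_le_prod (fun b _ => by positivity) fun b _ => ?_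
  have h2 : (1 : ℝ) ≤ (d (e.symm b).1 : ℝ) := by exact_mod_cast hd _
  have h3 : (2 * n : ℝ) * ((d (e.symm b).1 : ℝ) / n) = 2 * (d (e.symm b).1 : ℝ) := by
    field_simp
  rw [h3]
  linarith

/-- The sum of the factors over all pairs. -/
theorem sum_le_B [Fintype β] {ι : Type} [Fintype ι] (sb : ι → β) (dg : ι → ℕ) (Db : β → ℕ)
    (s₀ : ℕ) (hs : 1 ≤ s₀) (hDb : ∀ s, Dg sb dg s ≤ Db s) :
    ∑ i, (dg i : ℝ) / (((s₀ * Db (sb i) : ℕ) : ℝ) + 1) ≤ (Fintype.card β : ℝ) / s₀ := by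
  have hs0 : (0 : ℝ) < s₀ := by
    have : 0 < s₀ := by omega
    exact_mod_cast this
  rw [← Finset.sum_fiberwise Finset.univ sb]
  calc ∑ s : β, ∑ i ∈ Finset.univ.filter (fun i => sb i = s),
        (dg i : ℝ) / (((s₀ * Db (sb i) : ℕ) : ℝ) + 1)
      ≤ ∑ _s : β, (1 : ℝ) / s₀ := Finset.sum_le_sum fun s _ => ?_
    _ = (Fintype.card β : ℝ) / s₀ := by
        rw [Finset.sum_const, Finset.card_univ, nsmul_eq_mul]
        ring
  have h1 : ∑ i ∈ Finset.univ.filter (fun i => sb i = s),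
      (dg i : ℝ) / (((s₀ * Db (sb i) : ℕ) : ℝ) + 1) =
      (Dg sb dg s : ℝ) / (((s₀ * Db s : ℕ) : ℝ) + 1) := by
    unfold Dg
    rw [Nat.cast_sum, Finset.sum_div]
    refine Finset.sum_congr rfl fun i hi => ?_
    rw [(Finset.mem_filter.1 hi).2]
  rw [h1]
  have h2 : (Dg sb dg s : ℝ) ≤ (Db s : ℝ) := by exact_mod_cast hDb s
  rw [div_le_div_iff₀ (by positivity) hs0]
  push_cast
  nlinarith

theorem exP_pos [Fintype β] (e : Co m ≃ Fin n) (hm : ∀ s, 1 ≤ m s) (hn : 1 ≤ n)
    (r₀ : ℕ) (α : ℝ) (hα : 0 < α) :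
    ∃ r s₀ M : ℕ, 1 ≤ r ∧ r₀ ≤ r ∧ (s₀ : ℝ) ≤ α * r ∧
      ∀ {ι : Type} [Fintype ι] [DecidableEq ι] (sb : ι → β) (dg : ι → ℕ) (Db : β → ℕ),
        (∀ i, dg i = 1 ∨ (2 ≤ dg i ∧ 2 ≤ m (sb i))) → (∀ s, 1 ≤ Db s) →
        (∀ s, Dg sb dg s ≤ Db s) →
        ∃ P : MvPolynomial (JV n r) (MvPolynomial (Cf m sb dg) ℂ), P ≠ 0 ∧
          HasMonB e (fun s => s₀ * Db s) M P ∧ PropG e (gnG m sb dg) r P := by
  classical
  have hβ : Nonempty β := ⟨(e.symm ⟨0, hn⟩).1⟩
  have hn0 : (0 : ℝ) < n := by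
    have : 0 < n := by omega
    exact_mod_cast this
  obtain ⟨B, hB⟩ : ∃ B : ℝ, B = (Fintype.card β : ℝ) := ⟨_, rfl⟩
  have hB1 : 1 ≤ B := by
    have h : 1 ≤ Fintype.card β := Fintype.card_pos
    rw [hB]
    exact_mod_cast h
  obtain ⟨r, s, M, hr1, hr0, hs1, hs, hsum⟩ :=
    exists_parametersG n hn r₀ (B ^ 2 * (2 * n : ℝ) ^ n) (by positivity) α hα
  refine ⟨r, s, M, hr1, hr0, hs, ?_⟩
  intro ι _ _ sb dg Db hT hDb1 hDb
  have hs0 : (0 : ℝ) < s := by
    have : 0 < s := by omega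
    exact_mod_cast this
  refine exists_PB e hm hT hr1 (fun s' => s * Db s') M ?_
  have hd1 : ∀ s', 1 ≤ s * Db s' := fun s' => Nat.mul_pos hs1 (hDb1 s')
  obtain ⟨D, hD⟩ : ∃ D : ℝ, D = ∏ b : Fin n, (((s * Db (e.symm b).1 : ℕ) : ℝ) / n) := ⟨_, rfl⟩
  have hD0 : 0 < D := by
    rw [hD]
    refine Finset.prod_pos fun b _ => ?_
    have : (0 : ℝ) < ((s * Db (e.symm b).1 : ℕ) : ℝ) := by
      exact_mod_cast hd1 _
    positivity
  have hlow := monB_ge (r := r) e hn (fun s' => s * Db s') M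
  have hup := UU_le e hn (fun s' => s * Db s') hd1
  have hx := sum_le_B sb dg Db s hs1 hDb
  rw [← hB] at hx
  rw [← hD] at hlow hup
  obtain ⟨U, hU⟩ : ∃ U : ℝ, U = UU e (fun s' => s * Db s') := ⟨_, rfl⟩
  obtain ⟨x, hxx⟩ : ∃ x : ℝ, x = ∑ i, (dg i : ℝ) / (((s * Db (sb i) : ℕ) : ℝ) + 1) := ⟨_, rfl⟩
  have hU0 : 0 ≤ U := by
    rw [hU]
    exact UU_nonneg e _
  have hx0 : 0 ≤ x := by
    rw [hxx]
    exact Finset.sum_nonneg fun i _ => by positivity
  rw [← hxx] at hx ⊢
  rw [← hU] at hup ⊢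
  refine lt_of_lt_of_le ?_ hlow
  have hstep : ∀ l ∈ Finset.range r,
      x * x * U * ((M + l + n * r).choose (n * r) : ℝ) +
        x * U * ((M + l + (n * r - 1)).choose (n * r - 1) : ℝ) ≤
      D * ((B ^ 2 * (2 * n : ℝ) ^ n) / s * ((M + l + (n * r - 1)).choose (n * r - 1) : ℝ) +
          (B ^ 2 * (2 * n : ℝ) ^ n) / s ^ 2 * ((M + l + n * r).choose (n * r) : ℝ)) := by
    intro l _
    have c1 : (0 : ℝ) ≤ ((M + l + n * r).choose (n * r) : ℝ) := Nat.cast_nonneg _
    have c2 : (0 : ℝ) ≤ ((M + l + (n * r - 1)).choose (n * r - 1) : ℝ) := Nat.cast_nonneg _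
    have h1 : x * x * U ≤ D * ((B ^ 2 * (2 * n : ℝ) ^ n) / s ^ 2) := by
      calc x * x * U ≤ (B / s) * (B / s) * ((2 * n : ℝ) ^ n * D) := by gcongr
        _ = D * ((B ^ 2 * (2 * n : ℝ) ^ n) / s ^ 2) := by
          field_simp
    have h2 : x * U ≤ D * ((B ^ 2 * (2 * n : ℝ) ^ n) / s) := by
      calc x * U ≤ (B / s) * ((2 * n : ℝ) ^ n * D) := by gcongr
        _ ≤ (B ^ 2 / s) * ((2 * n : ℝ) ^ n * D) := by
          have h3 : B ≤ B ^ 2 := by nlinarith
          gcongr
        _ = D * ((B ^ 2 * (2 * n : ℝ) ^ n) / s) := by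
          field_simp
    calc x * x * U * ((M + l + n * r).choose (n * r) : ℝ) +
        x * U * ((M + l + (n * r - 1)).choose (n * r - 1) : ℝ)
        ≤ D * ((B ^ 2 * (2 * n : ℝ) ^ n) / s ^ 2) * ((M + l + n * r).choose (n * r) : ℝ) +
          D * ((B ^ 2 * (2 * n : ℝ) ^ n) / s) * ((M + l + (n * r - 1)).choose (n * r - 1) : ℝ) :=
          add_le_add (mul_le_mul_of_nonneg_right h1 c1) (mul_le_mul_of_nonneg_right h2 c2)
      _ = _ := by ring
  refine lt_of_le_of_lt (Finset.sum_le_sum hstep) ?_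
  rw [← Finset.mul_sum]
  exact mul_lt_mul_of_pos_left hsum hD0

/-- Part A of `AC_P`. -/
theorem exP : ExP := by
  intro β _ _ m n e hm r₀ α hα
  rcases Nat.eq_zero_or_pos n with rfl | hn
  · have hβ : IsEmpty β := ⟨fun s => (e ⟨s, ⟨0, hm s⟩⟩).elim0⟩
    refine ⟨max 1 r₀, 0, 0, le_max_left _ _, le_max_right _ _, ?_, ?_⟩
    · rw [Nat.cast_zero]
      positivity
    · intro ι _ _ sb dg Db _ _ _
      have hι : IsEmpty ι := ⟨fun i => hβ.false (sb i)⟩
      refine ⟨1, one_ne_zero, ?_, ?_⟩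
      · intro μ hμ
        refine ⟨fun s => (hβ.false s).elim, ?_⟩
        have h1 : (1 : MvPolynomial (JV 0 (max 1 r₀)) (MvPolynomial (Cf m sb dg) ℂ)) =
          monomial 0 1 := rfl
        rw [h1] at hμ
        rw [Finset.mem_singleton.1 (support_monomial_subset hμ)]
        simp [jd]
      · intro l _ i
        exact isEmptyElim i
  · exact exP_pos e hm hn r₀ α hα

/-- Modules A and C: `AC_P`. -/
theorem algP : Pool.Agent.H53R.AC_P := algP_of exP

end Pool.Agent.H49S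
end
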