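import Pool.Agent.Lib.H1M.PB.M036
import Pool.Agent.Lib.H1M.PB.M047
import Pool.Agent.Lib.H1M.PB.M054
import Pool.Agent.Lib.H1M.PB.M055
import Pool.Agent.Lib.H1M.PB.M056
import Pool.Agent.Lib.H1M.PB.M057
import Pool.Agent.Lib.H1M.PB.M058

/-! Merged copies (to shorten the build) of Lib.H53R.F14m, Lib.H78R.R7, Lib.H53R.Final. -/

-- from Lib.H53R.F14m
section

set_option autoImplicit false

/-!
H53R, chunk F14m (M/L): the second main theorem for degrees which are at most `E₀` or large.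
-/

open MvPolynomial Real MeasureTheory

namespace Pool.Agent.H53R

open Pool.Agent.H89T Pool.Agent.H78G Pool.Agent.H67T Pool.Agent.H53Y Pool.Agent.H49D

/-- CHUNK F14m (M/L).  Port of `H53Y.smt_gap` (Lib/H53Y/F14m.lean) with `σ = τ × Fin E₀`, `ts = Prod.fst`,
`de = deP τ E₀`, `tl j = src j.1`, `Dt = Dg src d`; `exists_span` for the curves `ver n _ (y t)`. -/
theorem smt_gapP (hAC : AC_P) (hD : D_P) (hE : E_P) : SmtGapP := by
  classical
  intro τ _ _ n hn ε hε hε1 E₀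
  choose K₁ hK₁ using fun m' : ((s : τ × Fin E₀) → Fin (NV n (deP τ E₀ s) + 1)) =>
    fixed_dimP hAC hD hE hn hε hε1 (Prod.fst : τ × Fin E₀ → τ) (fun s => (m' s : ℕ) + 1) (deP τ E₀)
      (fun s => Nat.le_add_left 1 _) (fun s => Nat.le_add_left 1 _)
  set K : ℕ := 1 + ∑ m', K₁ m' with hK
  have hKm : ∀ m', K₁ m' ≤ K := fun m' => by
    rw [hK]
    exact (Finset.single_le_sum (fun _ _ => Nat.zero_le _) (Finset.mem_univ m')).trans
      (Nat.le_add_left _ _)
  obtain ⟨L, hL⟩ := exists_nat_ge (32 * ((E₀ * (E₀ * K) : ℕ) : ℝ) / ε)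
  refine ⟨K + L, ?_⟩
  intro ι _ src d hd hgap hDt
  have hlow : ∀ t, (1 - ε / 32) * ((Dg src d t : ℕ) : ℝ) ≤
      ((Dg (fun j : IL d E₀ => src j.1) (fun j => d j.1) t +
        Dg (fun x : ISP src d E₀ K => (sxP src d E₀ K x).1)
          (fun x => deP τ E₀ (sxP src d E₀ K x)) t : ℕ) : ℝ) := by
    intro t
    have h1 : ((Dg src d t : ℕ) : ℝ) ≤
        ((Dg (fun j : IL d E₀ => src j.1) (fun j => d j.1) t +
          Dg (fun x : ISP src d E₀ K => (sxP src d E₀ K x).1)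
            (fun x => deP τ E₀ (sxP src d E₀ K x)) t : ℕ) : ℝ) +
          ((E₀ * (E₀ * K) : ℕ) : ℝ) := by
      exact_mod_cast degree_geP src d E₀ K hd t
    have h2 : (L : ℝ) ≤ ((Dg src d t : ℕ) : ℝ) := by
      have : L ≤ Dg src d t := le_trans (Nat.le_add_left _ _) (hDt t)
      exact_mod_cast this
    have h3 := hL.trans h2
    rw [div_le_iff₀ hε] at h3
    linarith
  choose Ξ hΞ0 hΞ using fun m' => hK₁ m' (IL d E₀) (ISP src d E₀ K) (fun j => src j.1)
    (fun j => d j.1) (sxP src d E₀ K) (Dg src d)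
    (fun t => (hKm m').trans ((Nat.le_add_right _ _).trans (hDt t)))
    (fun j => (hKm m').trans ((Nat.le_add_right _ _).trans ((hgap j.1).resolve_left
      (not_le.2 j.2)))) (fun s hs => (hKm m').trans (card_blockP src d E₀ K s hs)) hlow
    (degree_leP src d E₀ K)
  refine ⟨rename (phP src d E₀ K n) (∏ m', Ξ m'), ?_, ?_⟩
  · rw [Ne, map_eq_zero_iff _ (rename_injective _ (phP_injective src d E₀ K n))]
    exact Finset.prod_ne_zero_iff.2 fun m' _ => hΞ0 m'
  intro f hf y hy hnc hfy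
  rw [eval_rename, map_prod] at hf
  have hf' := Finset.prod_ne_zero_iff.1 hf
  have hspan : ∀ s : τ × Fin E₀, ∃ m : ℕ, 1 ≤ m ∧ m ≤ NV n (deP τ E₀ s) ∧
      SpanDim m (fun z => ver n (deP τ E₀ s) (y s.1 z)) := by
    intro s
    obtain ⟨m, Lam, Lb, h1, h2, h3⟩ := exists_span (isHol_ver (hy s.1) (deP τ E₀ s))
      (ver_nonconst (Nat.le_add_left 1 _) (hy s.1) (hnc s.1))
    exact ⟨m, h1, h2, Lam, Lb, h3⟩
  choose m hm1 hm2 hm3 using hspan
  have hm' : ∀ s, m s - 1 < NV n (deP τ E₀ s) + 1 := fun s => by have := hm2 s; omega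
  have hsplit : f ∘ phP src d E₀ K n = Sum.elim (fun p => f (phP src d E₀ K n (Sum.inl p)))
      (fun p => f (phP src d E₀ K n (Sum.inr p))) := by
    funext p
    rcases p with p | p <;> rfl
  have hmain := hΞ (fun s => ⟨m s - 1, hm' s⟩) (fun p => f (phP src d E₀ K n (Sum.inl p)))
    (fun p => f (phP src d E₀ K n (Sum.inr p)))
    (by rw [← hsplit]; exact hf' _ (Finset.mem_univ _)) y hy hnc
    (fun j => by
      obtain ⟨z, hz⟩ := hfy j.1
      exact ⟨z, by rw [fmj_phP]; exact hz⟩)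
    (fun t => by
      obtain ⟨z, hz⟩ := hfy t.1
      exact ⟨z, by rw [lin_phP]; exact hz⟩)
    (fun s => by
      have h1 : m s - 1 + 1 = m s := by have := hm1 s; omega
      show SpanDim (m s - 1 + 1) _
      rw [h1]
      exact hm3 s)
  refine smt_monoP hy (fun _ => le_rfl) ?_ hmain
  intro ρ hρ
  simp only [fmj_phP, lin_phP]
  exact N1_keptP hy f hfy (fun i => E₀ < d i)
    (fun i => (1 ≤ d i ∧ d i ≤ E₀) ∧ K ≤ Nat.card {i' : ι // src i' = src i ∧ d i' = d i}) hρ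

end Pool.Agent.H53R
end

-- from Lib.H78R.R7
section

set_option autoImplicit false

/-!
R7, the port of Lib/H78B/B7.lean.  Elimination: the main theorem of the module E.

Proof.  Copy `H89T.alg2` (Lib/H89T/DP8.lean) and `H78G.elim` (Lib/H78G/E3.lean).
`A₁` = the polynomial ring over `ℂ` in the variables `f`, `η`, `A`, `A'`, `Lam s`, `Lb s`; generic
elements `fg, ηg, Ag, A'g, Lamg, Lbg` of `A₁` (variables).  `I` = the ideal generated by the entries of
`A'g * Ag - 1`, of all `Lbg s * Lamg s - 1`, and all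
`aeval (Sum.elim (extB fg Ag lam s E) (resB ηg Lamg _)) (Θ S)`, `S.card ≤ c`, `lam j ≠ 0`,
`E j i` homogeneous of degree `d j - 1` (complex).  `v = ∏ j, eval (fun i => Ag i 0) (fmB fg j)`; `S₀` = the
submonoid of the `rename (inl) Ξ * v ^ k`, `Ξ ≠ 0`.
Disjoint: `Ideal.exists_le_prime_disjoint`, `K` = fraction field of `A₁ ⧸ P`, `π : A₁ →ₐ[ℂ] K`;
`generic_good` for the images contradicts `I ≤ P` (b7_map: extB, resB commute with `π`).
Not disjoint: `Ξ * v ^ k ∈ I`; evaluate at a complex point: `I ≤ ker φ` if the assertion fails.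
-/

open MvPolynomial

namespace Pool.Agent.H78R

open Pool.Agent.H89T Pool.Agent.H53Y Pool.Agent.H78B Pool.Agent.H53R

/-- `extR` commutes with algebra homomorphisms. -/
theorem r7_ext {B B' : Type} [CommRing B] [CommRing B'] [Algebra ℂ B] [Algebra ℂ B'] {n c : ℕ}
    (φ : B →ₐ[ℂ] B') {τ ιL : Type} (tl : ιL → τ) {d : ιL → ℕ} (f : FV (Fin (n + 1)) d → B)
    (A : τ → Matrix (Fin (n + 1)) (Fin (n + 1)) B) (lam : ιL → ℂ) (s : τ → Fin c → Fin n → ℂ)
    (E : ιL → Fin c → MvPolynomial (Fin (n + 1) ⊕ Fin c) ℂ) (x : FV (Fin (n + 1) ⊕ Fin c) d) :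
    φ (extR tl f A lam s E x) =
      extR tl (fun y => φ (f y)) (fun t => (A t).map φ) lam s E x := by
  have h1 := map_big φ (lam x.1) (psi (s (tl x.1)) (E x.1)) (subB (A (tl x.1)) (fmB f x.1))
  have h2 := congrArg (coeff x.2.1) h1
  rw [coeff_map] at h2
  have h3 : map (φ : B →+* B') (subB (A (tl x.1)) (fmB f x.1)) =
      subB ((A (tl x.1)).map φ) (fmB (fun y => φ (f y)) x.1) := by
    rw [b7_sub]
    unfold fmB
    rw [map_fm]
    rfl
  rw [h3] at h2
  exact h2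

/-- Auxiliary: the values of `Θ` commute with algebra homomorphisms. -/
theorem r7_val {B B' : Type} [CommRing B] [CommRing B'] [Algebra ℂ B] [Algebra ℂ B'] {n c : ℕ}
    (φ : B →ₐ[ℂ] B') {τ ιL : Type} (tl : ιL → τ) {d : ιL → ℕ} (f : FV (Fin (n + 1)) d → B)
    (A : τ → Matrix (Fin (n + 1)) (Fin (n + 1)) B) (lam : ιL → ℂ) (s : τ → Fin c → Fin n → ℂ)
    (E : ιL → Fin c → MvPolynomial (Fin (n + 1) ⊕ Fin c) ℂ) {κ σ : Type} {m mv : σ → ℕ} {sx : κ → σ}
    (η : LV (fun x => mv (sx x)) → B)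
    (Lam : (s : σ) → Matrix (Fin (mv s + 1)) (Fin (m s + 1)) B) (Q : κ → Prop)
    (Θ : MvPolynomial (FV (Fin (n + 1) ⊕ Fin c) d ⊕ LV (fun x : {x : κ // Q x} => m (sx x.1))) ℂ) :
    φ (aeval (Sum.elim (extR tl f A lam s E) (resB η Lam Q)) Θ) =
      aeval (Sum.elim (extR tl (fun y => φ (f y)) (fun t => (A t).map φ) lam s E)
        (resB (fun y => φ (η y)) (fun s => (Lam s).map φ) Q)) Θ := by
  have h : φ.comp (aeval (Sum.elim (extR tl f A lam s E) (resB η Lam Q))) =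
      aeval (Sum.elim (extR tl (fun y => φ (f y)) (fun t => (A t).map φ) lam s E)
        (resB (fun y => φ (η y)) (fun s => (Lam s).map φ) Q)) := by
    refine MvPolynomial.algHom_ext fun p => ?_
    rw [AlgHom.comp_apply, aeval_X, aeval_X]
    rcases p with p | p
    · exact r7_ext φ tl f A lam s E p
    · exact b7_res φ η Lam Q p
  rw [← h]
  rfl

theorem eP : E_P := by
  intro n c nb τ _ ιL _ tl d σ κ _ _ m mv sx part hd hc Θ hΘ
  classical
  let V : Type := (FV (Fin (n + 1)) d ⊕ LV (fun x => mv (sx x))) ⊕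
    (((τ × Fin (n + 1) × Fin (n + 1)) ⊕ (τ × Fin (n + 1) × Fin (n + 1))) ⊕
      ((Σ s : σ, Fin (mv s + 1) × Fin (m s + 1)) ⊕ (Σ s : σ, Fin (m s + 1) × Fin (mv s + 1))))
  let A₁ := MvPolynomial V ℂ
  let fg : FV (Fin (n + 1)) d → A₁ := fun y => X (Sum.inl (Sum.inl y))
  let ηg : LV (fun x => mv (sx x)) → A₁ := fun y => X (Sum.inl (Sum.inr y))
  let Ag : τ → Matrix (Fin (n + 1)) (Fin (n + 1)) A₁ := fun t =>
    Matrix.of fun i j => X (Sum.inr (Sum.inl (Sum.inl (t, i, j))))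
  let A'g : τ → Matrix (Fin (n + 1)) (Fin (n + 1)) A₁ := fun t =>
    Matrix.of fun i j => X (Sum.inr (Sum.inl (Sum.inr (t, i, j))))
  let Lamg : (s : σ) → Matrix (Fin (mv s + 1)) (Fin (m s + 1)) A₁ := fun s =>
    Matrix.of fun l b => X (Sum.inr (Sum.inr (Sum.inl ⟨s, (l, b)⟩)))
  let Lbg : (s : σ) → Matrix (Fin (m s + 1)) (Fin (mv s + 1)) A₁ := fun s =>
    Matrix.of fun b l => X (Sum.inr (Sum.inr (Sum.inr ⟨s, (b, l)⟩)))
  let I : Ideal A₁ := Ideal.span ({x | ∃ t i j, x = (A'g t * Ag t - 1 : Matrix (Fin (n + 1)) (Fin (n + 1)) A₁) i j} ∪ {x | ∃ s i j, x = (Lbg s * Lamg s - 1 : Matrix (Fin (m s + 1)) (Fin (m s + 1)) A₁) i j} ∪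
    {x | ∃ S : Finset (Fin nb), S.card ≤ c ∧ ∃ (lam : ιL → ℂ) (s : τ → Fin c → Fin n → ℂ)
      (E : ιL → Fin c → MvPolynomial (Fin (n + 1) ⊕ Fin c) ℂ),
      (∀ j, lam j ≠ 0) ∧ (∀ j i, (E j i).IsHomogeneous (d j - 1)) ∧
      x = aeval (Sum.elim (extR tl fg Ag lam s E) (resB ηg Lamg (fun x => part x ∉ S))) (Θ S)})
  have hI1 : ∀ t i j, (A'g t * Ag t - 1 : Matrix (Fin (n + 1)) (Fin (n + 1)) A₁) i j ∈ I :=
    fun t i j => Ideal.subset_span (Or.inl (Or.inl ⟨t, i, j, rfl⟩))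
  have hI2 : ∀ s i j, (Lbg s * Lamg s - 1 : Matrix (Fin (m s + 1)) (Fin (m s + 1)) A₁) i j ∈ I := fun s i j => Ideal.subset_span (Or.inl (Or.inr ⟨s, i, j, rfl⟩))
  have hI3 : ∀ S : Finset (Fin nb), S.card ≤ c → ∀ (lam : ιL → ℂ) (s : τ → Fin c → Fin n → ℂ)
      (E : ιL → Fin c → MvPolynomial (Fin (n + 1) ⊕ Fin c) ℂ),
      (∀ j, lam j ≠ 0) → (∀ j i, (E j i).IsHomogeneous (d j - 1)) →
      aeval (Sum.elim (extR tl fg Ag lam s E) (resB ηg Lamg (fun x => part x ∉ S))) (Θ S) ∈ I :=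
    fun S hS lam s E h1 h2 => Ideal.subset_span (Or.inr ⟨S, hS, lam, s, E, h1, h2, rfl⟩)
  let v : A₁ := ∏ j, eval (fun i => Ag (tl j) i 0) (fmB fg j)
  let S₀ : Submonoid A₁ :=
    { carrier := {x | ∃ Ξ : MvPolynomial (FV (Fin (n + 1)) d ⊕ LV (fun x => mv (sx x))) ℂ, Ξ ≠ 0 ∧
        ∃ k : ℕ, x = rename Sum.inl Ξ * v ^ k}
      mul_mem' := by
        rintro x y ⟨Θ₁, h1, m₁, rfl⟩ ⟨Θ₂, h2, m₂, rfl⟩
        refine ⟨Θ₁ * Θ₂, mul_ne_zero h1 h2, m₁ + m₂, ?_⟩
        rw [map_mul, pow_add]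
        ring
      one_mem' := ⟨1, one_ne_zero, 0, by simp⟩ }
  by_cases hdis : Disjoint (I : Set A₁) S₀
  · exfalso
    obtain ⟨P, hP, hIP, hPS⟩ := Ideal.exists_le_prime_disjoint I S₀ hdis
    let K := FractionRing (A₁ ⧸ P)
    have hess : Algebra.EssFiniteType ℂ K := by
      have h2 : Algebra.EssFiniteType (A₁ ⧸ P) K :=
        Algebra.EssFiniteType.of_isLocalization _ (nonZeroDivisors _)
      exact Algebra.EssFiniteType.comp ℂ (A₁ ⧸ P) K
    let π : A₁ →ₐ[ℂ] K := (IsScalarTower.toAlgHom ℂ (A₁ ⧸ P) K).comp (Ideal.Quotient.mkₐ ℂ P)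
    have hπ0 : ∀ x, π x = 0 ↔ x ∈ P := by
      intro x
      rw [← Ideal.Quotient.eq_zero_iff_mem]
      constructor
      · intro h
        exact (IsFractionRing.injective (A₁ ⧸ P) K) (by rw [map_zero]; exact h)
      · intro h
        change algebraMap (A₁ ⧸ P) K (Ideal.Quotient.mk P x) = 0
        rw [h, map_zero]
    have hnotP : ∀ x ∈ S₀, x ∉ P := fun x hx hxP => Set.disjoint_left.1 hPS hxP hx
    have hind : Function.Injective (aeval (Sum.elim (fun y => π (fg y)) (fun y => π (ηg y))) :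
        MvPolynomial (FV (Fin (n + 1)) d ⊕ LV (fun x => mv (sx x))) ℂ →ₐ[ℂ] K) := by
      have h1 : (aeval (Sum.elim (fun y => π (fg y)) (fun y => π (ηg y))) :
          MvPolynomial (FV (Fin (n + 1)) d ⊕ LV (fun x => mv (sx x))) ℂ →ₐ[ℂ] K) =
          π.comp (rename Sum.inl) := by
        refine MvPolynomial.algHom_ext fun p => ?_
        rw [aeval_X, AlgHom.comp_apply, rename_X]
        rcases p with p | p <;> rfl
      rw [h1, injective_iff_map_eq_zero]
      intro x hx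
      by_contra hx0
      exact hnotP (rename Sum.inl x) ⟨x, hx0, 0, by simp⟩ ((hπ0 _).1 hx)
    have hπv : ∀ j, eval (fun i => (Ag (tl j)).map π i 0) (fmB (fun y => π (fg y)) j) ≠ 0 := by
      intro j hj
      rw [← b7_col π fg (Ag (tl j)) j] at hj
      have h2 : π v = 0 := by
        rw [show v = ∏ j, eval (fun i => Ag (tl j) i 0) (fmB fg j) from rfl, map_prod]
        exact Finset.prod_eq_zero (Finset.mem_univ j) hj
      exact hnotP v ⟨1, one_ne_zero, 1, by simp⟩ ((hπ0 v).1 h2)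
    have hc' : Fintype.card τ * ((n + 1) * (n + 1)) + ∑ s, (m s + 1) * (mv s + 1) ≤ c := by
      refine le_trans (Nat.add_le_add ?_ ?_) hc
      · exact Nat.mul_le_mul_left _ (by omega)
      · exact Finset.sum_le_sum fun s _ => by omega
    obtain ⟨S, hS, lam, s, E, hlam, hE, hne⟩ := generic_goodR (K := K) tl d m mv sx part hd hc' Θ hΘ
      (fun y => π (fg y)) (fun y => π (ηg y)) hind (fun t => (Ag t).map π) (fun t => (A'g t).map π)
      (fun t => b7_mul π (A'g t) (Ag t) fun i j => (hπ0 _).2 (hIP (hI1 t i j))) (fun s => (Lamg s).map π) (fun s => (Lbg s).map π)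
      (fun s => b7_mul π (Lbg s) (Lamg s) fun i j => (hπ0 _).2 (hIP (hI2 s i j))) hπv
    apply hne
    rw [← r7_val π tl fg Ag lam s E ηg Lamg (fun x => part x ∉ S) (Θ S)]
    exact (hπ0 _).2 (hIP (hI3 S hS lam s E hlam hE))
  · rw [Set.not_disjoint_iff] at hdis
    obtain ⟨x, hxI, Ξ, hΞ, k, hx⟩ := hdis
    refine ⟨Ξ, hΞ, fun f η hfη A A' hA Lam Lb hL hA0 => ?_⟩
    by_contra hcon
    push Not at hcon
    let φ : A₁ →ₐ[ℂ] ℂ := aeval (Sum.elim (Sum.elim f η) (Sum.elim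
      (Sum.elim (fun p => A p.1 p.2.1 p.2.2) (fun p => A' p.1 p.2.1 p.2.2))
      (Sum.elim (fun q => Lam q.1 q.2.1 q.2.2) (fun q => Lb q.1 q.2.1 q.2.2))))
    have hφf : (fun y => φ (fg y)) = f := by
      funext y
      exact aeval_X _ _
    have hφη : (fun y => φ (ηg y)) = η := by
      funext y
      exact aeval_X _ _
    have hφA : (fun t => (Ag t).map φ) = A := by
      funext t
      ext i j
      exact aeval_X _ _
    have hφA' : (fun t => (A'g t).map φ) = A' := by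
      funext t
      ext i j
      exact aeval_X _ _
    have hφL : (fun s => (Lamg s).map φ) = Lam := by
      funext s
      ext i j
      exact aeval_X _ _
    have hφLb : ∀ s, (Lbg s).map φ = Lb s := by
      intro s
      ext i j
      exact aeval_X _ _
    have hIφ : I ≤ RingHom.ker φ := by
      rw [Ideal.span_le]
      rintro _ ((⟨t, i, j, rfl⟩ | ⟨s, i, j, rfl⟩) | ⟨S, hS, lam, s, E, hlam, hE, rfl⟩)
      · exact b7_mul' φ (A'g t) (Ag t) (by
          rw [show (Ag t).map φ = A t from congrFun hφA t,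
            show (A'g t).map φ = A' t from congrFun hφA' t, hA t]) i j
      · exact b7_mul' φ (Lbg s) (Lamg s) (by rw [hφLb s, show (Lamg s).map φ = Lam s from congrFun hφL s, hL s]) i j
      · change φ _ = 0
        rw [r7_val φ tl fg Ag lam s E ηg Lamg (fun x => part x ∉ S) (Θ S), hφf, hφη, hφA, hφL]
        exact hcon S hS lam s E hlam hE
    have h1 : φ x = 0 := hIφ hxI
    rw [hx, map_mul, map_pow] at h1
    have h2 : φ (rename Sum.inl Ξ) = eval (Sum.elim f η) Ξ := by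
      change aeval _ (rename Sum.inl Ξ) = _
      rw [aeval_rename]
      rfl
    have h3 : φ v = ∏ j, eval (fun i => A (tl j) i 0) (fmj f j) := by
      change φ (∏ j, eval (fun i => Ag (tl j) i 0) (fmB fg j)) = _
      rw [map_prod]
      refine Finset.prod_congr rfl fun j _ => ?_
      rw [b7_col φ fg (Ag (tl j)) j, hφf, show (Ag (tl j)).map φ = A (tl j) from congrFun hφA (tl j)]
      rfl
    rw [h2, h3] at h1
    exact mul_ne_zero hfη (pow_ne_zero k (Finset.prod_ne_zero_iff.2 fun j _ => hA0 j)) h1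

end Pool.Agent.H78R
end

-- from Lib.H53R.Final
section

set_option autoImplicit false

/-!
H53R: the second main theorem with truncation level one, every point being counted once, on products of
projective spaces.
-/

open MvPolynomial Real MeasureTheory

namespace Pool.Agent.H53R

/-- The second main theorem on products of projective spaces. -/
theorem smtTypesP : SmtTypesP :=
  smt_typesP (smt_gapP Pool.Agent.H49S.algP Pool.Agent.H49R.curveP Pool.Agent.H78R.eP)

end Pool.Agent.H53R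
end
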